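import Mathlib

section

/-!
# Definitions for the super-sparse dynamical Mordell-Lang theorem
-/

set_option autoImplicit false

namespace Pool.Agent.Helper33.SS

open MvPolynomial

/-- Super-sparse sets: every interval `[n, m]` with `m ≤ c A ^ n` has at most `R` elements. -/
def Sparse (T : Set ℕ) : Prop :=
  ∃ (A c : ℝ) (R : ℕ), 1 < A ∧ 0 < c ∧
    ∀ n m : ℕ, (m : ℝ) ≤ c * A ^ n → (T ∩ Set.Icc n m).ncard ≤ R

section
variable {K : Type*} [NormedField K]

/-- Functions whose `k`-th differences are bounded by a constant times `ρ ^ k`. -/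
def Adic (ρ : ℝ) (f : ℕ → K) : Prop := ∃ C : ℝ, ∀ k n : ℕ, ‖(fwdDiff 1)^[k] f n‖ ≤ C * ρ ^ k

/-- Asymptotic expansions to order `M` with respect to powers of `w ^ n`. -/
def HasExp (ρ : ℝ) (w : K) (M : ℕ) (a : ℕ → K) : Prop :=
  ∃ f : ℕ → ℕ → K, (∀ j, Adic ρ (f j)) ∧ ∃ C : ℝ, ∀ n,
    ‖a n - ∑ j ∈ Finset.range M, w ^ (j * n) * f j n‖ ≤ C * ‖w‖ ^ (M * n)

/-- The eigenvalues allowed in the recurrences. -/
def GoodEig (ρ : ℝ) (w : K) (μ : K) : Prop := μ = 0 ∨ ∃ (m : ℕ) (ν : K), ‖ν - 1‖ ≤ ρ ∧ μ = w ^ m * ν

/-- Sequences which decay faster than every power of the gauge `γ`. -/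
def Flat (γ : ℕ → ℝ) (a : ℕ → K) : Prop := ∀ e : ℕ, ∃ C : ℝ, ∀ n, ‖a n‖ ≤ C * γ n ^ e

end

/-- The square of the ideal generated by the variables. -/
noncomputable def Sq (σ K : Type*) [CommRing K] : Ideal (MvPolynomial σ K) :=
  (Ideal.span (Set.range (X : σ → MvPolynomial σ K))) ^ 2

section
variable {σ R : Type*} [CommRing R]

/-- A polynomial self-map. -/
noncomputable def ev (F : σ → MvPolynomial σ R) (x : σ → R) : σ → R := fun i => eval x (F i)

/-- The zero set of a set of polynomials. -/
def InZ (V : Set (MvPolynomial σ R)) (x : σ → R) : Prop := ∀ g ∈ V, eval x g = 0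

/-- The Jacobian matrix of a polynomial self-map. -/
noncomputable def jac (F : σ → MvPolynomial σ R) (x : σ → R) : Matrix σ σ R :=
  Matrix.of fun i j => eval x (pderiv j (F i))

/-- The Jacobian matrix of the `n`-th iterate of a polynomial self-map. -/
noncomputable def jprod [Fintype σ] [DecidableEq σ] (F : σ → MvPolynomial σ R) (x : σ → R) :
    ℕ → Matrix σ σ R
  | 0 => 1
  | n + 1 => jac F ((ev F)^[n] x) * jprod F x n

/-- The `n`-th iterate as a tuple of polynomials. -/
noncomputable def itp (F : σ → MvPolynomial σ R) : ℕ → σ → MvPolynomial σ R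
  | 0 => X
  | n + 1 => fun i => aeval (itp F n) (F i)

end

/-- The inclusion of the `p`-adic integers in the complex `p`-adic numbers. -/
noncomputable def io (p : ℕ) [Fact p.Prime] : ℤ_[p] →+* ℂ_[p] :=
  (algebraMap ℚ_[p] ℂ_[p]).comp PadicInt.Coe.ringHom

end Pool.Agent.Helper33.SS

end

section

/-!
# Iterating a homogeneous polynomial map on vectors in an algebra: norms and degrees
-/

set_option autoImplicit false

namespace Pool.Agent.Helper36

open Polynomial

variable {O A B : Type*} [CommRing O] [CommRing A] [Algebra O A] [CommRing B] [Algebra O B]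
variable {ι : Type*}

/-- one application of the polynomial map `F` to a vector with entries in an algebra -/
noncomputable def step (F : ι → MvPolynomial ι O) (u : ι → A) : ι → A :=
  fun i => MvPolynomial.aeval u (F i)

/-- the iterates -/
noncomputable def iter (F : ι → MvPolynomial ι O) (w : ι → A) (k : ℕ) : ι → A := (step F)^[k] w

lemma iter_zero (F : ι → MvPolynomial ι O) (w : ι → A) : iter F w 0 = w := rfl

lemma iter_succ (F : ι → MvPolynomial ι O) (w : ι → A) (k : ℕ) :
    iter F w (k + 1) = step F (iter F w k) := Function.iterate_succ_apply' _ _ _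

lemma iter_succ' (F : ι → MvPolynomial ι O) (w : ι → A) (k : ℕ) :
    iter F w (k + 1) = iter F (step F w) k := rfl

lemma iter_add (F : ι → MvPolynomial ι O) (w : ι → A) (j k : ℕ) :
    iter F w (j + k) = iter F (iter F w k) j := Function.iterate_add_apply _ _ _ _

/-- iteration commutes with algebra homomorphisms -/
lemma step_map (F : ι → MvPolynomial ι O) (ψ : A →ₐ[O] B) (u : ι → A) :
    step F (fun i => ψ (u i)) = fun i => ψ (step F u i) := by
  funext i
  simp only [step]
  rw [← MvPolynomial.comp_aeval_apply]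

lemma iter_map (F : ι → MvPolynomial ι O) (ψ : A →ₐ[O] B) (w : ι → A) (k : ℕ) :
    iter F (fun i => ψ (w i)) k = fun i => ψ (iter F w k i) := by
  induction k with
  | zero => rfl
  | succ k ih => rw [iter_succ, ih, step_map, iter_succ]

/-- homogeneity -/
lemma aeval_smul_homogeneous {d : ℕ} {G : MvPolynomial ι O} (hG : G.IsHomogeneous d) (c : A)
    (u : ι → A) : MvPolynomial.aeval (fun i => c * u i) G = c ^ d * MvPolynomial.aeval u G := by
  rw [MvPolynomial.aeval_def, MvPolynomial.aeval_def, MvPolynomial.eval₂_eq, MvPolynomial.eval₂_eq,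
    Finset.mul_sum]
  refine Finset.sum_congr rfl fun m hm => ?_
  have hd : ∑ i ∈ m.support, m i = d := by
    have := hG (MvPolynomial.mem_support_iff.1 hm)
    rw [Finsupp.weight_apply] at this
    simpa [Finsupp.sum] using this
  have h1 : ∏ i ∈ m.support, (c * u i) ^ m i = c ^ d * ∏ i ∈ m.support, u i ^ m i := by
    rw [← hd, ← Finset.prod_pow_eq_pow_sum, ← Finset.prod_mul_distrib]
    exact Finset.prod_congr rfl fun i _ => mul_pow _ _ _
  rw [h1]; ring

/-! ### Norm bounds -/

/-! ### Degree bounds -/

end Pool.Agent.Helper36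

end

section

/-!
# Growth of heights along an orbit
-/

set_option autoImplicit false

namespace Pool.Agent.Helper36

open Height Function

/-! ### The Nullstellensatz input -/

section null

variable {K L : Type*} [Field K] [Field L] [Algebra K L] [IsAlgClosed L]
variable {ι : Type*} [Fintype ι]

lemma homogeneousComponent_mul_of_homogeneous {R σ : Type*} [CommRing R] {d : ℕ}
    {F : MvPolynomial σ R}
    (hF : F.IsHomogeneous d) (a : MvPolynomial σ R) (M : ℕ) :
    MvPolynomial.homogeneousComponent (M + d) (a * F) =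
      MvPolynomial.homogeneousComponent M a * F := by
  classical
  conv_lhs => rw [← MvPolynomial.sum_homogeneousComponent (φ := a), Finset.sum_mul, map_sum]
  have h1 : ∀ i, MvPolynomial.homogeneousComponent (M + d)
      (MvPolynomial.homogeneousComponent i a * F) =
      if i = M then MvPolynomial.homogeneousComponent i a * F else 0 := by
    intro i
    have h2 : (MvPolynomial.homogeneousComponent i a * F).IsHomogeneous (i + d) :=
      (MvPolynomial.homogeneousComponent_isHomogeneous i a).mul hF
    rw [MvPolynomial.homogeneousComponent_of_mem (h2 : _ ∈ MvPolynomial.homogeneousSubmodule σ R _)]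
    have : (M + d = i + d) ↔ (i = M) := by omega
    simp only [this]
  simp only [h1]
  rw [Finset.sum_ite_eq']
  split_ifs with h
  · rfl
  · rw [MvPolynomial.homogeneousComponent_eq_zero, zero_mul]
    rw [Finset.mem_range] at h
    omega

/-- homogeneous polynomials over `K` without common zeros over an algebraically closed extension
generate a power of the irrelevant ideal -/
theorem exists_nullstellensatz {d : ℕ} (F : ι → MvPolynomial ι K)
    (hF : ∀ i, (F i).IsHomogeneous d)
    (hnz : ∀ x : ι → L, (∀ i, MvPolynomial.aeval x (F i) = 0) → x = 0) :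
    ∃ (M : ℕ) (q : ι × ι → MvPolynomial ι K), (∀ a, (q a).IsHomogeneous M) ∧
      ∀ k, ∑ j, q (k, j) * F j = MvPolynomial.X k ^ (M + d) := by
  classical
  have h1 : ∀ k : ι, ∃ r : ℕ, (MvPolynomial.X k : MvPolynomial ι K) ^ r ∈
      Ideal.span (Set.range F) := by
    intro k
    have h2 : (MvPolynomial.X k : MvPolynomial ι K) ∈ (Ideal.span (Set.range F)).radical := by
      rw [← MvPolynomial.vanishingIdeal_zeroLocus_eq_radical (K := L)]
      rw [MvPolynomial.mem_vanishingIdeal_iff]
      intro x hx
      rw [MvPolynomial.mem_zeroLocus_iff] at hx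
      have : x = 0 := hnz x fun i => hx _ (Ideal.subset_span ⟨i, rfl⟩)
      rw [this]
      simp
    exact h2
  choose r hr using h1
  set M : ℕ := ∑ k, r k with hM
  have h3 : ∀ k : ι, (MvPolynomial.X k : MvPolynomial ι K) ^ (M + d) ∈
      Ideal.span (Set.range F) := by
    intro k
    refine Ideal.mem_of_dvd _ (pow_dvd_pow _ ?_) (hr k)
    have : r k ≤ M := Finset.single_le_sum (f := r) (fun _ _ => Nat.zero_le _) (Finset.mem_univ k)
    omega
  have h4 : ∀ k : ι, ∃ c : ι → MvPolynomial ι K, ∑ j, c j * F j = MvPolynomial.X k ^ (M + d) := by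
    intro k
    have := h3 k
    rw [Ideal.mem_span_range_iff_exists_fun] at this
    exact this
  choose c hc using h4
  refine ⟨M, fun a => MvPolynomial.homogeneousComponent M (c a.1 a.2),
    fun a => MvPolynomial.homogeneousComponent_isHomogeneous _ _, fun k => ?_⟩
  have h5 := congrArg (MvPolynomial.homogeneousComponent (M + d)) (hc k)
  rw [map_sum] at h5
  simp only [homogeneousComponent_mul_of_homogeneous (hF _)] at h5
  rw [h5]
  exact MvPolynomial.homogeneousComponent_eq_self (MvPolynomial.isHomogeneous_X_pow k _)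

end null

/-! ### Heights along an orbit -/

section growth

variable {K : Type*} [Field K] [AdmissibleAbsValues K]
variable {ι : Type*} [Fintype ι]

omit [AdmissibleAbsValues K] [Fintype ι] in
lemma step_eq_eval (F : ι → MvPolynomial ι K) (x : ι → K) :
    step F x = fun i => MvPolynomial.eval x (F i) := by
  funext i
  exact congrArg (fun φ => φ (F i)) (MvPolynomial.coe_aeval_eq_eval x)

theorem exists_logHeight_step_ge {L : Type*} [Field L] [Algebra K L] [IsAlgClosed L] {d : ℕ}
    (F : ι → MvPolynomial ι K) (hF : ∀ i, (F i).IsHomogeneous d)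
    (hnz : ∀ x : ι → L, (∀ i, MvPolynomial.aeval x (F i) = 0) → x = 0) :
    ∃ C : ℝ, ∀ x : ι → K, C + d * logHeight x ≤ logHeight (step F x) := by
  obtain ⟨M, q, hq, h⟩ := exists_nullstellensatz F hF hnz
  obtain ⟨C, hC⟩ := logHeight_eval_ge' (N := d) hq
  refine ⟨C, fun x => ?_⟩
  rw [step_eq_eval]
  apply hC F
  intro k
  have := congrArg (MvPolynomial.eval x) (h k)
  rw [map_sum] at this
  simpa using this

/-- two vectors represent the same projective point -/
def PEq {ι : Type*} (x y : ι → K) : Prop := ∃ c : K, c ≠ 0 ∧ y = c • x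

omit [AdmissibleAbsValues K] [Fintype ι] in
lemma PEq.step {d : ℕ} {F : ι → MvPolynomial ι K} (hF : ∀ i, (F i).IsHomogeneous d)
    {x y : ι → K} (h : PEq x y) : PEq (step F x) (step F y) := by
  obtain ⟨c, hc, rfl⟩ := h
  refine ⟨c ^ d, pow_ne_zero _ hc, ?_⟩
  funext i
  rw [Pi.smul_apply, smul_eq_mul]
  exact aeval_smul_homogeneous (hF i) c x

omit [AdmissibleAbsValues K] [Fintype ι] in
lemma PEq.iter {d : ℕ} {F : ι → MvPolynomial ι K} (hF : ∀ i, (F i).IsHomogeneous d)
    {x y : ι → K} (h : PEq x y) (k : ℕ) : PEq (iter F x k) (iter F y k) := by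
  induction k with
  | zero => exact h
  | succ k ih => rw [iter_succ, iter_succ]; exact ih.step hF

omit [AdmissibleAbsValues K] [Fintype ι] in
lemma PEq.refl {x : ι → K} : PEq x x := ⟨1, one_ne_zero, by simp⟩

omit [AdmissibleAbsValues K] [Fintype ι] in
lemma PEq.symm {x y : ι → K} (h : PEq x y) : PEq y x := by
  obtain ⟨c, hc, rfl⟩ := h
  exact ⟨c⁻¹, inv_ne_zero hc, by rw [smul_smul, inv_mul_cancel₀ hc, one_smul]⟩

omit [AdmissibleAbsValues K] [Fintype ι] in
lemma PEq.trans {x y z : ι → K} (h : PEq x y) (h' : PEq y z) : PEq x z := by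
  obtain ⟨c, hc, rfl⟩ := h
  obtain ⟨e, he, rfl⟩ := h'
  exact ⟨e * c, mul_ne_zero he hc, by rw [smul_smul]⟩

/-- Northcott for projective points: an infinite sequence of nonzero vectors of bounded height
contains two proportional ones. -/
theorem exists_PEq_of_bounded [Northcott (mulHeight₁ (K := K))] (P : ℕ → ι → K)
    (hP : ∀ n, P n ≠ 0) (B : ℝ) (hB : ∀ n, mulHeight (P n) ≤ B) :
    ∃ n m, n < m ∧ PEq (P n) (P m) := by
  classical
  have h1 : ∀ n, ∃ i, P n i ≠ 0 := fun n => Function.ne_iff.1 (hP n)
  choose j hj using h1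
  set Q : ℕ → ι → K := fun n i => P n i / P n (j n) with hQ
  have hfin : {x : K | mulHeight₁ x ≤ B}.Finite := Northcott.finite_le B
  have hmem : ∀ n, Q n ∈ Set.pi Set.univ fun _ : ι => {x : K | mulHeight₁ x ≤ B} := by
    intro n i _
    change mulHeight₁ (P n i / P n (j n)) ≤ B
    rw [mulHeight₁_div_eq_mulHeight]
    refine le_trans ?_ (hB n)
    have := mulHeight_comp_le ![i, j n] (P n)
    refine le_trans (le_of_eq ?_) this
    congr 1
    funext l
    fin_cases l <;> rfl
  have hfin2 : (Set.pi Set.univ fun _ : ι => {x : K | mulHeight₁ x ≤ B}).Finite :=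
    Set.Finite.pi fun _ => hfin
  obtain ⟨n, -, m, -, hnm, heq⟩ := Set.infinite_univ.exists_ne_map_eq_of_mapsTo
    (fun n _ => hmem n) hfin2
  have key : ∀ n m, Q n = Q m → PEq (P n) (P m) := by
    intro n m h
    refine ⟨P m (j m) / P n (j n), div_ne_zero (hj m) (hj n), ?_⟩
    funext i
    have h2 := congrFun h i
    simp only [hQ] at h2
    rw [Pi.smul_apply, smul_eq_mul]
    have h3 := hj n
    have h4 := hj m
    field_simp at h2 ⊢
    linear_combination -h2
  rcases lt_or_gt_of_ne hnm with h | h
  · exact ⟨n, m, h, key n m heq⟩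
  · exact ⟨m, n, h, key m n heq.symm⟩

/-- Heights grow exponentially along an orbit that is not preperiodic. -/
theorem growth [Northcott (mulHeight₁ (K := K))] {L : Type*} [Field L] [Algebra K L]
    [IsAlgClosed L] {d : ℕ} (hd : 2 ≤ d)
    (F : ι → MvPolynomial ι K) (hF : ∀ i, (F i).IsHomogeneous d)
    (hnz : ∀ x : ι → L, (∀ i, MvPolynomial.aeval x (F i) = 0) → x = 0)
    (P : ℕ → ι → K) (hP : ∀ n, P n ≠ 0) (hstep : ∀ n, P (n + 1) = step F (P n)) :
    (∃ n m, n < m ∧ PEq (P n) (P m)) ∨
      ∃ n₀, ∀ n, n₀ ≤ n → (d : ℝ) ^ (n - n₀) ≤ logHeight (P n) := by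
  obtain ⟨C, hC⟩ := exists_logHeight_step_ge F hF hnz
  set c : ℝ := max 0 (-C) with hc
  have hc0 : 0 ≤ c := le_max_left _ _
  have hcC : -c ≤ C := by
    have : -C ≤ c := le_max_right _ _
    linarith
  by_cases h : ∀ n, logHeight (P n) ≤ c + 1
  · left
    apply exists_PEq_of_bounded P hP (Real.exp (c + 1))
    intro n
    have := h n
    rw [logHeight_eq_log_mulHeight] at this
    exact (Real.log_le_iff_le_exp (mulHeight_pos _)).1 this
  · right
    push Not at h
    obtain ⟨n₀, hn₀⟩ := h
    refine ⟨n₀, ?_⟩
    have hd2 : (2 : ℝ) ≤ d := by exact_mod_cast hd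
    have key : ∀ j : ℕ, (d : ℝ) ^ j + c ≤ logHeight (P (n₀ + j)) := by
      intro j
      induction j with
      | zero => simp only [pow_zero, add_zero]; linarith
      | succ j ih =>
        have h1 := hC (P (n₀ + j))
        rw [← hstep] at h1
        have h2 : (d : ℝ) * ((d : ℝ) ^ j + c) ≤ d * logHeight (P (n₀ + j)) :=
          mul_le_mul_of_nonneg_left ih (by linarith)
        have h3 : 2 * c ≤ d * c := mul_le_mul_of_nonneg_right hd2 hc0
        rw [pow_succ]
        change (d : ℝ) ^ j * d + c ≤ logHeight (P (n₀ + j + 1))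
        nlinarith
    intro n hn
    obtain ⟨j, rfl⟩ := Nat.exists_eq_add_of_le hn
    rw [Nat.add_sub_cancel_left]
    have := key j
    linarith

end growth

end Pool.Agent.Helper36

end

section

/-!
# Iterates as tuples of polynomials (SS-12)
-/

set_option autoImplicit false

namespace Pool.Agent.Helper33.SS

open MvPolynomial

section
variable {R S : Type*} [CommRing R] [CommRing S] {σ : Type*}

theorem eval_aeval_aux {τ : Type*} (g : σ → MvPolynomial τ R) (x : τ → R) (p : MvPolynomial σ R) :
    eval x (aeval g p) = eval (fun j => eval x (g j)) p := by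
  induction p using MvPolynomial.induction_on with
  | C a => simp
  | add p q hp hq => simp only [map_add, hp, hq]
  | mul_X p i hp => simp only [map_mul, hp, aeval_X, eval_X]

theorem map_aeval_aux {τ : Type*} (φ : R →+* S) (g : σ → MvPolynomial τ R)
    (p : MvPolynomial σ R) :
    MvPolynomial.map φ (aeval g p)
      = aeval (fun j => MvPolynomial.map φ (g j)) (MvPolynomial.map φ p) := by
  induction p using MvPolynomial.induction_on with
  | C a => simp [MvPolynomial.algebraMap_eq]
  | add p q hp hq => simp only [map_add, hp, hq]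
  | mul_X p i hp => simp only [map_mul, hp, aeval_X, MvPolynomial.map_X]

theorem eval_map_aux (φ : R →+* S) (x : σ → R) (p : MvPolynomial σ R) :
    eval (fun i => φ (x i)) (MvPolynomial.map φ p) = φ (eval x p) := by
  induction p using MvPolynomial.induction_on with
  | C a => simp
  | add p q hp hq => simp only [map_add, hp, hq]
  | mul_X p i hp => simp only [map_mul, hp, MvPolynomial.map_X, eval_X]

theorem ev_itp (F : σ → MvPolynomial σ R) (n : ℕ) (x : σ → R) :
    ev (itp F n) x = (ev F)^[n] x := by
  induction n with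
  | zero =>
    funext i
    simp [ev, itp]
  | succ n ih =>
    rw [Function.iterate_succ_apply', ← ih]
    funext i
    simp only [ev, itp]
    rw [eval_aeval_aux]
    rfl

theorem itp_homogeneous {F : σ → MvPolynomial σ R} {d : ℕ} (hF : ∀ i, (F i).IsHomogeneous d)
    (n : ℕ) (i : σ) : (itp F n i).IsHomogeneous (d ^ n) := by
  induction n generalizing i with
  | zero => simpa [itp] using isHomogeneous_X R i
  | succ n ih =>
    have := (hF i).aeval (itp F n) ih
    rw [pow_succ]
    exact this

theorem map_itp (φ : R →+* S) (F : σ → MvPolynomial σ R) (n : ℕ) (i : σ) :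
    MvPolynomial.map φ (itp F n i) = itp (fun j => MvPolynomial.map φ (F j)) n i := by
  induction n generalizing i with
  | zero => simp [itp]
  | succ n ih =>
    simp only [itp]
    rw [map_aeval_aux]
    congr 2
    funext j
    exact ih j

theorem ev_map (φ : R →+* S) (F : σ → MvPolynomial σ R) (x : σ → R) :
    ev (fun j => MvPolynomial.map φ (F j)) (fun i => φ (x i)) = fun i => φ (ev F x i) := by
  funext i
  exact eval_map_aux φ x (F i)

theorem ev_iterate_map (φ : R →+* S) (F : σ → MvPolynomial σ R) (n : ℕ) (x : σ → R) :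
    (ev (fun j => MvPolynomial.map φ (F j)))^[n] (fun i => φ (x i))
      = fun i => φ ((ev F)^[n] x i) := by
  induction n with
  | zero => rfl
  | succ n ih =>
    rw [Function.iterate_succ_apply', ih, ev_map, Function.iterate_succ_apply']

/-- Euler's relation -/
theorem jac_mulVec_self [Fintype σ] {G : σ → MvPolynomial σ R} {d : ℕ}
    (hG : ∀ i, (G i).IsHomogeneous d) (x : σ → R) (i : σ) :
    ∑ j, jac G x i j * x j = d * eval x (G i) := by
  have h := (hG i).sum_X_mul_pderiv
  have h2 := congrArg (eval x) h
  rw [map_sum, map_nsmul, nsmul_eq_mul] at h2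
  rw [← h2]
  refine Finset.sum_congr rfl (fun j _ => ?_)
  simp only [jac, Matrix.of_apply, map_mul, eval_X]
  ring

theorem jac_map (φ : R →+* S) (F : σ → MvPolynomial σ R) (x : σ → R) :
    jac (fun j => MvPolynomial.map φ (F j)) (fun i => φ (x i)) = (jac F x).map φ := by
  ext i j
  simp only [jac, Matrix.of_apply, Matrix.map_apply]
  rw [pderiv_map, eval_map_aux]

end

section
variable {R S : Type*} [CommRing R] [CommRing S] {σ : Type*} [Fintype σ] [DecidableEq σ]

theorem jprod_map (φ : R →+* S) (F : σ → MvPolynomial σ R) (x : σ → R) (n : ℕ) :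
    jprod (fun j => MvPolynomial.map φ (F j)) (fun i => φ (x i)) n = (jprod F x n).map φ := by
  induction n with
  | zero =>
    simp only [jprod]
    ext i j
    by_cases h : i = j
    · subst h; simp
    · simp [Matrix.one_apply_ne h]
  | succ n ih =>
    simp only [jprod]
    rw [ih, ev_iterate_map, jac_map, Matrix.map_mul]

omit [DecidableEq σ] in
theorem pderiv_aeval_aux (g : σ → MvPolynomial σ R) (x : σ → R) (j : σ) (p : MvPolynomial σ R) :
    eval x (pderiv j (aeval g p))
      = ∑ k, eval (fun l => eval x (g l)) (pderiv k p) * eval x (pderiv j (g k)) := by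
  classical
  induction p using MvPolynomial.induction_on with
  | C a => simp [MvPolynomial.algebraMap_eq]
  | add p q hp hq =>
    simp only [map_add, hp, hq, add_mul, Finset.sum_add_distrib]
  | mul_X p i hp =>
    rw [map_mul, aeval_X, Derivation.leibniz]
    simp only [smul_eq_mul, map_add, map_mul, hp, Derivation.leibniz, eval_X, add_mul,
      Finset.sum_add_distrib]
    rw [eval_aeval_aux]
    have h1 : ∑ k, eval (fun l => eval x (g l)) p * eval (fun l => eval x (g l)) (pderiv k (X i))
        * eval x (pderiv j (g k)) = eval (fun l => eval x (g l)) p * eval x (pderiv j (g i)) := by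
      rw [Finset.sum_eq_single i]
      · simp
      · intro k _ hk
        rw [pderiv_X_of_ne (Ne.symm hk)]
        simp
      · simp
    rw [h1, Finset.mul_sum]
    congr 1
    refine Finset.sum_congr rfl (fun k _ => ?_)
    ring

/-- the chain rule -/
theorem jac_itp (F : σ → MvPolynomial σ R) (n : ℕ) (x : σ → R) :
    jac (itp F n) x = jprod F x n := by
  induction n with
  | zero =>
    ext i j
    simp only [jac, itp, jprod, Matrix.of_apply]
    by_cases h : i = j
    · subst h; simp
    · rw [pderiv_X_of_ne h]; simp [Matrix.one_apply_ne h]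
  | succ n ih =>
    simp only [jprod]
    rw [← ih]
    ext i j
    simp only [jac, itp, Matrix.of_apply, Matrix.mul_apply]
    rw [pderiv_aeval_aux]
    have : (fun l => eval x (itp F n l)) = (ev F)^[n] x := by
      rw [← ev_itp]
      rfl
    rw [this]

end

end Pool.Agent.Helper33.SS

end
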