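import Pool.Agent.Helper29.MG2.T01

section

/-!
# Super-sparse sets: closure properties (SS-2)
-/

set_option autoImplicit false

namespace Pool.Agent.Helper33.SS

theorem Sparse.mono {S T : Set ℕ} (hT : Sparse T) (h : S ⊆ T) : Sparse S := by
  obtain ⟨A, c, R, hA, hc, H⟩ := hT
  refine ⟨A, c, R, hA, hc, fun n m hm => le_trans ?_ (H n m hm)⟩
  exact Set.ncard_le_ncard (Set.inter_subset_inter_left _ h)
    ((Set.finite_Icc n m).subset Set.inter_subset_right)

theorem Sparse.union {S T : Set ℕ} (hS : Sparse S) (hT : Sparse T) : Sparse (S ∪ T) := by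
  obtain ⟨A₁, c₁, R₁, hA₁, hc₁, H₁⟩ := hS
  obtain ⟨A₂, c₂, R₂, hA₂, hc₂, H₂⟩ := hT
  refine ⟨min A₁ A₂, min c₁ c₂, R₁ + R₂, lt_min hA₁ hA₂, lt_min hc₁ hc₂, fun n m hm => ?_⟩
  have h0 : (0 : ℝ) ≤ min A₁ A₂ := le_trans zero_le_one (lt_min hA₁ hA₂).le
  have hp : (0 : ℝ) ≤ (min A₁ A₂) ^ n := pow_nonneg h0 n
  have h1 : (m : ℝ) ≤ c₁ * A₁ ^ n :=
    hm.trans (mul_le_mul (min_le_left _ _) (pow_le_pow_left₀ h0 (min_le_left _ _) n) hp hc₁.le)
  have h2 : (m : ℝ) ≤ c₂ * A₂ ^ n :=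
    hm.trans (mul_le_mul (min_le_right _ _) (pow_le_pow_left₀ h0 (min_le_right _ _) n) hp hc₂.le)
  rw [Set.union_inter_distrib_right]
  exact (Set.ncard_union_le _ _).trans (add_le_add (H₁ n m h1) (H₂ n m h2))

theorem Sparse.of_finite {S : Set ℕ} (hS : S.Finite) : Sparse S := by
  refine ⟨2, 1, S.ncard, one_lt_two, one_pos, fun n m _ => ?_⟩
  exact Set.ncard_le_ncard Set.inter_subset_left hS

theorem Sparse.iUnion {ι : Type*} [Finite ι] {S : ι → Set ℕ} (hS : ∀ i, Sparse (S i)) :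
    Sparse (⋃ i, S i) := by
  classical
  have := Fintype.ofFinite ι
  have key : ∀ s : Finset ι, Sparse (⋃ i ∈ s, S i) := by
    intro s
    induction s using Finset.induction_on with
    | empty => exact Sparse.of_finite (by simp)
    | insert a s ha ih =>
      rw [Finset.set_biUnion_insert]
      exact (hS a).union ih
  refine (key Finset.univ).mono ?_
  intro x hx
  obtain ⟨i, hi⟩ := Set.mem_iUnion.1 hx
  exact Set.mem_biUnion (Finset.mem_coe.2 (Finset.mem_univ i)) hi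

/-- The image of a super-sparse set under an affine map. -/
private theorem sparse_affine {T : Set ℕ} (hT : Sparse T) (a k : ℕ) (hk : 0 < k) :
    Sparse ((fun m => a + k * m) '' T) := by
  obtain ⟨A, c, R, hA, hc, H⟩ := hT
  have hA0 : (0 : ℝ) < A := zero_lt_one.trans hA
  obtain ⟨B, hB1, hBk⟩ : ∃ B : ℝ, 1 < B ∧ B ^ k = A := by
    refine ⟨A ^ ((k : ℝ)⁻¹), ?_, ?_⟩
    · exact Real.one_lt_rpow hA (by positivity)
    · exact Real.rpow_inv_natCast_pow hA0.le hk.ne'
  have hB0 : (0 : ℝ) < B := zero_lt_one.trans hB1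
  have hBa : (0 : ℝ) < B ^ (a + k) := pow_pos hB0 _
  refine ⟨B, c / B ^ (a + k), R, hB1, by positivity, fun n m hm => ?_⟩
  have hn : n ≤ k * ((n - a) / k) + (a + k) := by
    have h1 := Nat.div_add_mod (n - a) k
    have h2 := Nat.mod_lt (n - a) hk
    omega
  have hm' : (m : ℝ) ≤ c * A ^ ((n - a) / k) := by
    refine hm.trans ?_
    have h3 : B ^ n ≤ A ^ ((n - a) / k) * B ^ (a + k) := by
      rw [← hBk, ← pow_mul, ← pow_add]
      exact pow_le_pow_right₀ hB1.le hn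
    calc c / B ^ (a + k) * B ^ n ≤ c / B ^ (a + k) * (A ^ ((n - a) / k) * B ^ (a + k)) :=
          mul_le_mul_of_nonneg_left h3 (by positivity)
      _ = c * A ^ ((n - a) / k) := by
          field_simp
  have hsub : (fun m => a + k * m) '' T ∩ Set.Icc n m ⊆
      (fun m => a + k * m) '' (T ∩ Set.Icc ((n - a) / k) m) := by
    rintro x ⟨⟨t, ht, rfl⟩, hx1, hx2⟩
    refine ⟨t, ⟨ht, ?_, ?_⟩, rfl⟩
    · dsimp only at hx1
      rw [Nat.div_le_iff_le_mul_add_pred hk]
      omega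
    · dsimp only at hx2
      have : t ≤ k * t := Nat.le_mul_of_pos_left t hk
      omega
  have hfin : (T ∩ Set.Icc ((n - a) / k) m).Finite :=
    (Set.finite_Icc _ _).subset Set.inter_subset_right
  exact (Set.ncard_le_ncard hsub (hfin.image _)).trans
    ((Set.ncard_image_le hfin).trans (H _ _ hm'))

/-- a set which is super-sparse in every residue class modulo `k` (from `n₀` on) is
super-sparse -/
theorem Sparse.of_classes {S : Set ℕ} (n₀ k : ℕ) (hk : 0 < k)
    (h : ∀ i < k, Sparse {m | n₀ + i + k * m ∈ S}) : Sparse S := by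
  have h1 : Sparse (⋃ i : Fin k, (fun m => n₀ + (i : ℕ) + k * m) '' {m | n₀ + (i : ℕ) + k * m ∈ S}) :=
    Sparse.iUnion fun i => sparse_affine (h i i.2) _ k hk
  refine ((Sparse.of_finite (Set.finite_Iio n₀)).union h1).mono ?_
  intro s hs
  rcases lt_or_ge s n₀ with hlt | hge
  · exact Or.inl hlt
  · right
    rw [Set.mem_iUnion]
    refine ⟨⟨(s - n₀) % k, Nat.mod_lt _ hk⟩, (s - n₀) / k, ?_, ?_⟩
    · have h2 : n₀ + (s - n₀) % k + k * ((s - n₀) / k) = s := by
        have := Nat.mod_add_div (s - n₀) k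
        omega
      change n₀ + (s - n₀) % k + k * ((s - n₀) / k) ∈ S
      rw [h2]
      exact hs
    · change n₀ + (s - n₀) % k + k * ((s - n₀) / k) = s
      have := Nat.mod_add_div (s - n₀) k
      omega

end Pool.Agent.Helper33.SS

end

section

namespace Pool.Agent.Helper33.SS
end Pool.Agent.Helper33.SS

/-!
# Super-sparse sets as finite unions of sets with exponential gaps
-/

set_option autoImplicit false

namespace Pool.Agent.Helper29.TG

open Pool.Agent.Helper33.SS (Sparse)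

theorem exists_gaps {E : Set ℕ} (hE : Sparse E) :
    ∃ (A c : ℝ) (R : ℕ) (G : Fin R → Set ℕ), 1 < A ∧ 0 < c ∧ E = ⋃ j, G j ∧
      ∀ j, ∀ n ∈ G j, ∀ m ∈ G j, n < m → c * A ^ n < m := by
  classical
  obtain ⟨A, c, R, hA, hc, h⟩ := hE
  set col : ℕ → ℕ := fun n => (E ∩ Set.Iio n).ncard with hcol
  refine ⟨A, c, R + 1, fun j => {n | n ∈ E ∧ col n % (R + 1) = j}, hA, hc, ?_, ?_⟩
  · ext n
    simp only [Set.mem_iUnion, Set.mem_ofPred_eq]
    constructor
    · intro hn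
      exact ⟨⟨col n % (R + 1), Nat.mod_lt _ (Nat.succ_pos R)⟩, hn, rfl⟩
    · rintro ⟨_, hn, _⟩
      exact hn
  · rintro j n ⟨hn, hnj⟩ m ⟨hm, hmj⟩ hnm
    by_contra hcon
    have h1 := h n m (not_lt.1 hcon)
    have hfin : ∀ k : ℕ, (E ∩ Set.Iio k).Finite := fun k =>
      (Set.finite_Iio k).subset Set.inter_subset_right
    have hfin2 : (E ∩ Set.Ico n m).Finite := (Set.finite_Ico n m).subset Set.inter_subset_right
    have h2 : col m = col n + (E ∩ Set.Ico n m).ncard := by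
      simp only [hcol]
      rw [← Set.ncard_union_eq _ (hfin n) hfin2]
      · congr 1
        ext k
        simp only [Set.mem_inter_iff, Set.mem_Iio, Set.mem_union, Set.mem_Ico]
        constructor
        · rintro ⟨hk, hkm⟩
          rcases lt_or_ge k n with h3 | h3
          · exact Or.inl ⟨hk, h3⟩
          · exact Or.inr ⟨hk, h3, hkm⟩
        · rintro (⟨hk, h3⟩ | ⟨hk, h3, h4⟩)
          · exact ⟨hk, h3.trans hnm⟩
          · exact ⟨hk, h4⟩
      · rw [Set.disjoint_left]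
        rintro k ⟨_, h3⟩ ⟨_, h4, _⟩
        exact absurd h3 (not_lt.2 h4)
    have h3 : (E ∩ Set.Icc n m).ncard = (E ∩ Set.Ico n m).ncard + 1 := by
      have h4 : E ∩ Set.Icc n m = insert m (E ∩ Set.Ico n m) := by
        ext k
        simp only [Set.mem_inter_iff, Set.mem_Icc, Set.mem_insert_iff, Set.mem_Ico]
        constructor
        · rintro ⟨hk, h5, h6⟩
          rcases h6.lt_or_eq with h7 | h7
          · exact Or.inr ⟨hk, h5, h7⟩
          · exact Or.inl h7
        · rintro (rfl | ⟨hk, h5, h6⟩)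
          · exact ⟨hm, hnm.le, le_rfl⟩
          · exact ⟨hk, h5, h6.le⟩
      rw [h4, Set.ncard_insert_of_notMem _ hfin2]
      rintro ⟨_, _, h5⟩
      exact lt_irrefl _ h5
    have hpos : 1 ≤ (E ∩ Set.Ico n m).ncard := by
      rw [Nat.one_le_iff_ne_zero, Ne, Set.ncard_eq_zero hfin2, ← Ne, ← Set.nonempty_iff_ne_empty]
      exact ⟨n, hn, le_rfl, hnm⟩
    have hdvd : (R + 1) ∣ (E ∩ Set.Ico n m).ncard := by
      have h5 : col n ≡ col m [MOD (R + 1)] := by
        show col n % (R + 1) = col m % (R + 1)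
        rw [hnj, hmj]
      have h6 := (Nat.modEq_iff_dvd' (by omega : col n ≤ col m)).1 h5
      rw [h2, Nat.add_sub_cancel_left] at h6
      exact h6
    have := Nat.le_of_dvd hpos hdvd
    omega

end Pool.Agent.Helper29.TG

end

section

/-!
# Near zeros of analytic functions are super-sparse (SS-3)
-/

set_option autoImplicit false

namespace Pool.Agent.Helper33.SS

open Polynomial in
/-- Divided differences. With `c k = (Δ^k f) 0` and `b k = c k / k !`, if `b R ≠ 0` is the last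
coefficient of maximal norm, then for every set `s` of `R + 1` naturals some `j ∈ s` satisfies
`‖b R‖ * ∏_{i ∈ s, i ≠ j} ‖(j : K) - i‖ ≤ ‖f j‖`. Proof: on `s` the function `f` agrees with the
polynomial `∑_{k ≤ max s} b k * descPochhammer k`; reduce it modulo the monic integral polynomial
`∏_{i ∈ s} (X - i)` (the coefficient of `X ^ R` of the remainder has norm `‖b R‖`) and use Lagrange
interpolation for this coefficient. -/
theorem divided_difference {K : Type*} [NormedField K] [IsUltrametricDist K] [CharZero K]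
    (f : ℕ → K) (R : ℕ)
    (h1 : ∀ k, ‖(fwdDiff 1)^[k] f 0 / (k.factorial : K)‖
      ≤ ‖(fwdDiff 1)^[R] f 0 / (R.factorial : K)‖)
    (s : Finset ℕ) (hs : s.card = R + 1)
    (h2 : ∀ k, R < k → ‖(fwdDiff 1)^[k] f 0 / (k.factorial : K)‖
      < ‖(fwdDiff 1)^[R] f 0 / (R.factorial : K)‖) :
    ∃ j ∈ s, ‖(fwdDiff 1)^[R] f 0 / (R.factorial : K)‖ * ∏ i ∈ s.erase j, ‖(j : K) - i‖
      ≤ ‖f j‖ := by
  classical
  set b : ℕ → K := fun k => (fwdDiff 1)^[k] f 0 / (k.factorial : K) with hb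
  change ∃ j ∈ s, ‖b R‖ * ∏ i ∈ s.erase j, ‖(j : K) - i‖ ≤ ‖f j‖
  have hb2 : ∀ k, R < k → ‖b k‖ < ‖b R‖ := h2
  have hbR : 0 < ‖b R‖ := lt_of_le_of_lt (norm_nonneg _) (hb2 (R + 1) (Nat.lt_succ_self R))
  set N := s.sup id with hN
  have hsN : ∀ j ∈ s, j ≤ N := fun j hj => Finset.le_sup (f := id) hj
  have hRN : R ≤ N := by
    have : s ⊆ Finset.range (N + 1) := fun j hj => Finset.mem_range.2 (Nat.lt_succ_of_le (hsN j hj))
    have := Finset.card_le_card this
    rw [hs, Finset.card_range] at this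
    omega
  set W : ℤ[X] := ∏ i ∈ s, (X - C (i : ℤ)) with hW
  have hWm : W.Monic := monic_prod_of_monic _ _ (fun i _ => monic_X_sub_C _)
  have hWd : W.natDegree = R + 1 := by
    rw [hW, natDegree_prod_of_monic _ _ (fun i _ => monic_X_sub_C _)]
    calc ∑ i ∈ s, (X - C (i : ℤ)).natDegree = ∑ i ∈ s, 1 :=
          Finset.sum_congr rfl (fun i _ => natDegree_X_sub_C (i : ℤ))
      _ = R + 1 := by rw [Finset.sum_const, hs, smul_eq_mul, mul_one]
  have hWdeg : W.degree = ((R + 1 : ℕ) : WithBot ℕ) := by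
    rw [degree_eq_natDegree hWm.ne_zero, hWd]
  have hWe : ∀ j ∈ s, W.eval (j : ℤ) = 0 := by
    intro j hj
    rw [hW, eval_prod]
    exact Finset.prod_eq_zero hj (by simp)
  set q : ℕ → ℤ[X] := fun k => descPochhammer ℤ k %ₘ W with hq
  have hqd : ∀ k, (q k).degree < ((R + 1 : ℕ) : WithBot ℕ) := fun k =>
    hWdeg ▸ degree_modByMonic_lt _ hWm
  have hqe : ∀ k, ∀ j ∈ s, (q k).eval (j : ℤ) = (descPochhammer ℤ k).eval (j : ℤ) := by
    intro k j hj
    have h := congrArg (Polynomial.eval (j : ℤ)) (modByMonic_add_div (descPochhammer ℤ k) W)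
    rw [eval_add, eval_mul, hWe j hj, zero_mul, add_zero] at h
    exact h
  have hqlow : ∀ k, k ≤ R → q k = descPochhammer ℤ k := by
    intro k hk
    refine (modByMonic_eq_self_iff hWm).2 ?_
    rw [hWdeg, degree_eq_natDegree (monic_descPochhammer ℤ k).ne_zero, descPochhammer_natDegree]
    exact_mod_cast Nat.lt_succ_of_le hk
  have hqc1 : ∀ k, k < R → (q k).coeff R = 0 := by
    intro k hk
    rw [hqlow k hk.le]
    exact coeff_eq_zero_of_natDegree_lt (by rw [descPochhammer_natDegree]; exact hk)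
  have hqc2 : (q R).coeff R = 1 := by
    rw [hqlow R le_rfl]
    have h := monic_descPochhammer ℤ R
    rw [Monic, leadingCoeff, descPochhammer_natDegree] at h
    exact h
  set Q : K[X] := ∑ k ∈ Finset.range (N + 1), C (b k) * (q k).map (Int.castRingHom K) with hQ
  have hQd : Q.degree < (s.card : WithBot ℕ) := by
    rw [hs]
    refine lt_of_le_of_lt (degree_sum_le _ _) ?_
    rw [Finset.sup_lt_iff (WithBot.bot_lt_coe _)]
    intro k _
    refine lt_of_le_of_lt (degree_mul_le _ _) ?_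
    refine lt_of_le_of_lt (add_le_add degree_C_le (degree_map_le)) ?_
    rw [zero_add]
    exact hqd k
  have hQe : ∀ j ∈ s, Q.eval (j : K) = f j := by
    intro j hj
    rw [hQ, eval_finsetSum]
    have h3 : f j = ∑ k ∈ Finset.range (j + 1), j.choose k • (fwdDiff 1)^[k] f 0 := by
      have := shift_eq_sum_fwdDiff_iter (1 : ℕ) f j 0
      simpa using this
    have h4 : ∀ k, (C (b k) * (q k).map (Int.castRingHom K)).eval (j : K)
        = j.choose k • (fwdDiff 1)^[k] f 0 := by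
      intro k
      rw [eval_mul, eval_C, eval_map]
      have h5 : (q k).eval₂ (Int.castRingHom K) (j : K) = (((q k).eval (j : ℤ) : ℤ) : K) := by
        have := (q k).eval₂_at_apply (Int.castRingHom K) (j : ℤ)
        simpa using this
      rw [h5, hqe k j hj]
      have h6 : (descPochhammer ℤ k).eval (j : ℤ) = ((j.descFactorial k : ℕ) : ℤ) := by
        rw [descPochhammer_eval_eq_descFactorial]
      rw [h6, Nat.descFactorial_eq_factorial_mul_choose, nsmul_eq_mul, hb]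
      have hk0 : (k.factorial : K) ≠ 0 := by exact_mod_cast k.factorial_ne_zero
      push_cast
      field_simp
    rw [Finset.sum_congr rfl (fun k _ => h4 k), h3]
    symm
    refine Finset.sum_subset ?_ ?_
    · intro k hk
      rw [Finset.mem_range] at hk ⊢
      have := hsN j hj
      omega
    · intro k _ hk
      rw [Finset.mem_range, not_lt] at hk
      rw [Nat.choose_eq_zero_of_lt (by omega), zero_smul]
  have hinj : Set.InjOn (fun i : ℕ => (i : K)) s := fun a _ c _ h => Nat.cast_injective h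
  have hco := Lagrange.coeff_eq_sum hinj hQd
  rw [hs, Nat.add_sub_cancel] at hco
  have hint : ∀ z : ℤ, ‖(z : K)‖ ≤ 1 := fun z => IsUltrametricDist.norm_intCast_le_one K z
  have hQc : ‖Q.coeff R‖ = ‖b R‖ := by
    have h7 : Q.coeff R = ∑ k ∈ Finset.range (N + 1), b k * (((q k).coeff R : ℤ) : K) := by
      rw [hQ, finsetSum_coeff]
      refine Finset.sum_congr rfl fun k _ => ?_
      rw [coeff_C_mul, coeff_map]
      rfl
    rw [h7, ← Finset.add_sum_erase _ _ (Finset.mem_range.2 (Nat.lt_succ_of_le hRN)), hqc2]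
    have h8 : ‖∑ k ∈ (Finset.range (N + 1)).erase R, b k * (((q k).coeff R : ℤ) : K)‖
        < ‖b R‖ := by
      rcases ((Finset.range (N + 1)).erase R).eq_empty_or_nonempty with he | hne
      · rw [he]; simpa using hbR
      · obtain ⟨k, hk, hle⟩ := IsUltrametricDist.exists_norm_finsetSum_le_of_nonempty hne
          (fun k => b k * (((q k).coeff R : ℤ) : K))
        refine lt_of_le_of_lt hle ?_
        rw [Finset.mem_erase] at hk
        rcases lt_or_gt_of_ne hk.1 with hlt | hgt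
        · rw [hqc1 k hlt]; simpa using hbR
        · rw [norm_mul]
          calc ‖b k‖ * ‖(((q k).coeff R : ℤ) : K)‖ ≤ ‖b k‖ * 1 :=
                mul_le_mul_of_nonneg_left (hint _) (norm_nonneg _)
            _ = ‖b k‖ := mul_one _
            _ < ‖b R‖ := hb2 k hgt
    rw [Int.cast_one, mul_one, IsUltrametricDist.norm_add_eq_max_of_norm_ne_norm h8.ne',
      max_eq_left h8.le]
  have hne : s.Nonempty := by
    rw [← Finset.card_pos, hs]; omega
  obtain ⟨j, hj, hle⟩ := IsUltrametricDist.exists_norm_finsetSum_le_of_nonempty hne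
    (fun i => Q.eval ((i : ℕ) : K) / ∏ l ∈ s.erase i, ((i : K) - (l : K)))
  refine ⟨j, hj, ?_⟩
  have h9 : ‖b R‖ ≤ ‖Q.eval (j : K) / ∏ l ∈ s.erase j, ((j : K) - (l : K))‖ := by
    rw [← hQc, hco]
    exact hle
  rw [hQe j hj] at h9
  rw [norm_div (f j), norm_prod] at h9
  have hpos : 0 < ∏ l ∈ s.erase j, ‖(j : K) - (l : K)‖ := by
    refine Finset.prod_pos fun l hl => ?_
    rw [norm_pos_iff, sub_ne_zero]
    have := (Finset.mem_erase.1 hl).1
    exact fun h => this (by exact_mod_cast h.symm)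
  exact (le_div_iff₀ hpos).1 h9

section aux

variable {p : ℕ} [Fact p.Prime] {K : Type*} [NormedField K] [IsUltrametricDist K] [CharZero K]

/-- Norm one for integers prime to `p`. -/
theorem norm_cast_eq_one_of_coprime (hp : ‖(p : K)‖ = (p : ℝ)⁻¹) {n : ℕ} (hn : n.Coprime p) :
    ‖(n : K)‖ = 1 := by
  have hp1 : 1 < (p : ℝ) := by exact_mod_cast (Fact.out : p.Prime).one_lt
  have hint : ∀ z : ℤ, ‖(z : K)‖ ≤ 1 := fun z => IsUltrametricDist.norm_intCast_le_one K z
  refine le_antisymm (by simpa using hint (n : ℤ)) ?_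
  by_contra hlt
  rw [not_le] at hlt
  have hb := Nat.gcd_eq_gcd_ab n p
  rw [Nat.Coprime] at hn
  rw [hn] at hb
  have h1 : (1 : K) = (n : K) * ((n.gcdA p : ℤ) : K) + (p : K) * ((n.gcdB p : ℤ) : K) := by
    have := congrArg (Int.cast : ℤ → K) hb
    push_cast at this
    exact this
  have h2 : ‖(n : K) * ((n.gcdA p : ℤ) : K)‖ < 1 := by
    rw [norm_mul]
    calc ‖(n : K)‖ * ‖((n.gcdA p : ℤ) : K)‖ ≤ ‖(n : K)‖ * 1 :=
          mul_le_mul_of_nonneg_left (hint _) (norm_nonneg _)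
      _ < 1 := by rw [mul_one]; exact hlt
  have h3 : ‖(p : K) * ((n.gcdB p : ℤ) : K)‖ < 1 := by
    rw [norm_mul, hp]
    calc (p : ℝ)⁻¹ * ‖((n.gcdB p : ℤ) : K)‖ ≤ (p : ℝ)⁻¹ * 1 :=
          mul_le_mul_of_nonneg_left (hint _) (by positivity)
      _ < 1 := by rw [mul_one]; exact inv_lt_one_of_one_lt₀ hp1
  have h4 : ‖(1 : K)‖ < 1 := by
    rw [h1]
    exact lt_of_le_of_lt (IsUltrametricDist.norm_add_le_max _ _) (max_lt h2 h3)
  rw [norm_one] at h4
  exact lt_irrefl _ h4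

/-- The norm of a positive integer. -/
theorem norm_cast_eq (hp : ‖(p : K)‖ = (p : ℝ)⁻¹) {n : ℕ} (hn : n ≠ 0) :
    ‖(n : K)‖ = ((p : ℝ)⁻¹) ^ (padicValNat p n) := by
  have hpp : p.Prime := Fact.out
  obtain ⟨m, hm⟩ : p ^ padicValNat p n ∣ n := pow_padicValNat_dvd
  have hcop : m.Coprime p := by
    rw [Nat.coprime_comm, hpp.coprime_iff_not_dvd]
    rintro ⟨c, hc⟩
    have : p ^ (padicValNat p n + 1) ∣ n := ⟨c, by rw [pow_succ, mul_assoc, ← hc]; exact hm⟩
    exact (pow_succ_padicValNat_not_dvd hn) this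
  have : (n : K) = (p : K) ^ padicValNat p n * (m : K) := by
    conv_lhs => rw [hm]
    push_cast
    rfl
  rw [this, norm_mul, norm_pow, hp, norm_cast_eq_one_of_coprime hp hcop, mul_one]

/-- Lower bound for the norm of a positive integer. -/
theorem inv_le_norm_cast (hp : ‖(p : K)‖ = (p : ℝ)⁻¹) {n : ℕ} (hn : n ≠ 0) :
    ((n : ℝ))⁻¹ ≤ ‖(n : K)‖ := by
  have hpp : p.Prime := Fact.out
  rw [norm_cast_eq hp hn, inv_pow]
  have h1 : p ^ padicValNat p n ≤ n := Nat.le_of_dvd (Nat.pos_of_ne_zero hn) pow_padicValNat_dvd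
  have h2 : 0 < p ^ padicValNat p n := pow_pos hpp.pos _
  exact inv_anti₀ (by exact_mod_cast h2) (by exact_mod_cast h1)

/-- `‖b k‖` tends to zero. -/
theorem coeff_tendsto (hp3 : 3 ≤ p) (hp : ‖(p : K)‖ = (p : ℝ)⁻¹) {f : ℕ → K}
    (hf : Adic (p : ℝ)⁻¹ f) :
    Filter.Tendsto (fun k => ‖(fwdDiff 1)^[k] f 0 / (k.factorial : K)‖) Filter.atTop
      (nhds 0) := by
  obtain ⟨C, hC⟩ := hf
  have hpp : p.Prime := Fact.out
  have hp1 : (1 : ℝ) < p := by exact_mod_cast hpp.one_lt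
  have hp0 : (0 : ℝ) < p := by linarith
  have hC0 : 0 ≤ C := by
    have := hC 0 0
    simp only [pow_zero, mul_one] at this
    exact (norm_nonneg _).trans this
  -- valuation of the factorial is at most `k / 2`
  have hval : ∀ k : ℕ, 2 * padicValNat p k.factorial ≤ k := by
    intro k
    have h := sub_one_mul_padicValNat_factorial (p := p) k
    have h2 : 2 * padicValNat p k.factorial ≤ (p - 1) * padicValNat p k.factorial :=
      Nat.mul_le_mul_right _ (by omega)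
    omega
  set r : ℝ := Real.sqrt ((p : ℝ)⁻¹) with hr
  have hr0 : 0 ≤ r := Real.sqrt_nonneg _
  have hinv1 : (p : ℝ)⁻¹ < 1 := inv_lt_one_of_one_lt₀ hp1
  have hr1 : r < 1 := by
    rw [hr]
    calc Real.sqrt ((p : ℝ)⁻¹) < Real.sqrt 1 := Real.sqrt_lt_sqrt (by positivity) hinv1
      _ = 1 := Real.sqrt_one
  have hrr : r ^ 2 = (p : ℝ)⁻¹ := Real.sq_sqrt (by positivity)
  have hrpos : 0 < r := Real.sqrt_pos.2 (by positivity)
  have hbound : ∀ k, ‖(fwdDiff 1)^[k] f 0 / (k.factorial : K)‖ ≤ C * r ^ k := by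
    intro k
    rw [norm_div, norm_cast_eq hp k.factorial_ne_zero, div_le_iff₀ (by positivity)]
    refine (hC k 0).trans ?_
    rw [← hrr, ← pow_mul, ← pow_mul, mul_assoc, ← pow_add]
    refine mul_le_mul_of_nonneg_left ?_ hC0
    exact pow_le_pow_of_le_one hr0 hr1.le (by have := hval k; omega)
  refine squeeze_zero (fun k => norm_nonneg _) hbound ?_
  have := (tendsto_pow_atTop_nhds_zero_of_lt_one hr0 hr1).const_mul C
  simpa using this

end aux

/-- For `p ≥ 3` the points where a non-zero analytic function is exponentially small form a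
super-sparse set. -/
theorem sparse_of_adic {p : ℕ} [Fact p.Prime] (hp3 : 3 ≤ p) {K : Type*} [NormedField K]
    [IsUltrametricDist K] [CharZero K] (hp : ‖(p : K)‖ = (p : ℝ)⁻¹) {f : ℕ → K}
    (hf : Adic (p : ℝ)⁻¹ f) (hne : ∃ n, f n ≠ 0) {C η : ℝ} (hη0 : 0 < η) (hη : η < 1) :
    Sparse {n | ‖f n‖ ≤ C * η ^ n} := by
  classical
  set b : ℕ → K := fun k => (fwdDiff 1)^[k] f 0 / (k.factorial : K) with hb
  have htend : Filter.Tendsto (fun k => ‖b k‖) Filter.atTop (nhds 0) := coeff_tendsto hp3 hp hf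
  -- some coefficient is non-zero
  obtain ⟨k0, hk0⟩ : ∃ k, b k ≠ 0 := by
    by_contra hall
    push Not at hall
    obtain ⟨n, hn⟩ := hne
    apply hn
    have h3 : f n = ∑ k ∈ Finset.range (n + 1), n.choose k • (fwdDiff 1)^[k] f 0 := by
      have := shift_eq_sum_fwdDiff_iter (1 : ℕ) f n 0
      simpa using this
    rw [h3]
    refine Finset.sum_eq_zero fun k _ => ?_
    have h4 := hall k
    rw [hb] at h4
    have hk : (k.factorial : K) ≠ 0 := by exact_mod_cast k.factorial_ne_zero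
    have h5 : (fwdDiff 1)^[k] f 0 = 0 := (div_eq_zero_iff.1 h4).resolve_right hk
    rw [h5, smul_zero]
  -- the last index of maximal norm
  obtain ⟨R, hR1, hR2⟩ : ∃ R, (∀ k, ‖b k‖ ≤ ‖b R‖) ∧ ∀ k, R < k → ‖b k‖ < ‖b R‖ := by
    have hpos : 0 < ‖b k0‖ := norm_pos_iff.2 hk0
    obtain ⟨N, hN⟩ : ∃ N, ∀ k, N ≤ k → ‖b k‖ < ‖b k0‖ := by
      have := (htend.eventually (gt_mem_nhds hpos))
      exact Filter.eventually_atTop.1 this
    have hk0N : k0 < N := by
      by_contra h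
      exact lt_irrefl _ (hN k0 (not_lt.1 h))
    obtain ⟨R0, hR0m, hR0⟩ := Finset.exists_max_image (Finset.range N) (fun k => ‖b k‖)
      ⟨k0, Finset.mem_range.2 hk0N⟩
    set T := (Finset.range N).filter (fun k => ‖b k‖ = ‖b R0‖) with hT
    have hTne : T.Nonempty := ⟨R0, Finset.mem_filter.2 ⟨hR0m, rfl⟩⟩
    refine ⟨T.max' hTne, ?_, ?_⟩
    · have hmem : ‖b (T.max' hTne)‖ = ‖b R0‖ := (Finset.mem_filter.1 (Finset.max'_mem T hTne)).2
      rw [hmem]
      intro k
      rcases lt_or_ge k N with h | h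
      · exact hR0 k (Finset.mem_range.2 h)
      · exact (hN k h).le.trans (hR0 k0 (Finset.mem_range.2 hk0N))
    · have hmem : ‖b (T.max' hTne)‖ = ‖b R0‖ := (Finset.mem_filter.1 (Finset.max'_mem T hTne)).2
      rw [hmem]
      intro k hk
      rcases lt_or_ge k N with h | h
      · refine lt_of_le_of_ne (hR0 k (Finset.mem_range.2 h)) fun he => ?_
        have hkT : k ∈ T := Finset.mem_filter.2 ⟨Finset.mem_range.2 h, he⟩
        exact absurd (Finset.le_max' T k hkT) (not_le.2 hk)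
      · exact lt_of_lt_of_le (hN k h) (hR0 k0 (Finset.mem_range.2 hk0N))
  have hβ : 0 < ‖b R‖ := lt_of_le_of_lt (norm_nonneg _) (hR2 (R + 1) (Nat.lt_succ_self R))
  set β := ‖b R‖ with hβdef
  set C' := max C 1 with hC'
  have hC'1 : 1 ≤ C' := le_max_right _ _
  have hC'0 : 0 < C' := by linarith
  -- the growth rate
  set A : ℝ := (η⁻¹) ^ ((1 : ℝ) / (R + 1 : ℕ)) with hA
  have hηi : 1 < η⁻¹ := (one_lt_inv₀ hη0).2 hη
  have hA1 : 1 < A := Real.one_lt_rpow hηi (by positivity)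
  have hApow : A ^ (R + 1) = η⁻¹ := by
    rw [hA, ← Real.rpow_natCast, ← Real.rpow_mul (by positivity)]
    rw [one_div_mul_cancel (by positivity), Real.rpow_one]
  have hA0 : 0 < A := by linarith
  set c : ℝ := min 1 (β / (2 * C')) with hc
  have hc0 : 0 < c := lt_min one_pos (by positivity)
  have hc1 : c ≤ 1 := min_le_left _ _
  have hcβ : C' * c < β := by
    have : c ≤ β / (2 * C') := min_le_right _ _
    calc C' * c ≤ C' * (β / (2 * C')) := mul_le_mul_of_nonneg_left this hC'0.le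
      _ = β / 2 := by field_simp
      _ < β := by linarith
  refine ⟨A, c, R + 1, hA1, hc0, ?_⟩
  intro n m hm
  by_contra hcard
  rw [not_le] at hcard
  -- `m ≥ 1`
  have hm1 : 1 ≤ m := by
    by_contra h
    have hm0 : m = 0 := by omega
    have hsub : ({n | ‖f n‖ ≤ C * η ^ n} ∩ Set.Icc n m : Set ℕ) ⊆ {0} := by
      rintro x ⟨_, hx⟩
      rw [hm0] at hx
      have := hx.2
      simp only [Set.mem_singleton_iff]
      omega
    have := Set.ncard_le_ncard hsub (Set.finite_singleton 0)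
    rw [Set.ncard_singleton] at this
    omega
  have hfin : ({n | ‖f n‖ ≤ C * η ^ n} ∩ Set.Icc n m : Set ℕ).Finite :=
    (Set.finite_Icc n m).inter_of_right _
  set F := hfin.toFinset with hF
  have hFcard : R + 1 ≤ F.card := by
    rw [← Set.ncard_eq_toFinset_card _ hfin]; omega
  obtain ⟨s, hsF, hs⟩ := Finset.exists_subset_card_eq hFcard
  obtain ⟨j, hj, hle⟩ := divided_difference f R hR1 s hs hR2
  have hmemF : ∀ x ∈ s, ‖f x‖ ≤ C * η ^ x ∧ n ≤ x ∧ x ≤ m := by
    intro x hx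
    have := (Set.Finite.mem_toFinset hfin).1 (hsF hx)
    exact ⟨this.1, this.2.1, this.2.2⟩
  obtain ⟨hfj, hnj, hjm⟩ := hmemF j hj
  have hmR : (0 : ℝ) < m := by exact_mod_cast hm1
  -- lower bound for the product
  have hprod : ((m : ℝ)⁻¹) ^ R ≤ ∏ i ∈ s.erase j, ‖(j : K) - i‖ := by
    have hcard2 : (s.erase j).card = R := by rw [Finset.card_erase_of_mem hj, hs]; rfl
    rw [← hcard2, ← Finset.prod_const]
    refine Finset.prod_le_prod (fun i _ => by positivity) fun i hi => ?_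
    obtain ⟨hij, his⟩ := Finset.mem_erase.1 hi
    obtain ⟨_, _, him⟩ := hmemF i his
    rcases lt_or_gt_of_ne hij with hlt | hgt
    · have h1 : (j : K) - i = ((j - i : ℕ) : K) := by rw [Nat.cast_sub hlt.le]
      rw [h1]
      refine le_trans ?_ (inv_le_norm_cast hp (by omega))
      exact inv_anti₀ (by exact_mod_cast (by omega : 0 < j - i)) (by exact_mod_cast (by omega))
    · have h1 : (j : K) - i = -((i - j : ℕ) : K) := by rw [Nat.cast_sub hgt.le]; ring
      rw [h1, norm_neg]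
      refine le_trans ?_ (inv_le_norm_cast hp (by omega))
      exact inv_anti₀ (by exact_mod_cast (by omega : 0 < i - j)) (by exact_mod_cast (by omega))
  have h10 : β * ((m : ℝ)⁻¹) ^ R ≤ C' * η ^ n := by
    calc β * ((m : ℝ)⁻¹) ^ R ≤ β * ∏ i ∈ s.erase j, ‖(j : K) - i‖ :=
          mul_le_mul_of_nonneg_left hprod hβ.le
      _ ≤ ‖f j‖ := hle
      _ ≤ C * η ^ j := hfj
      _ ≤ C' * η ^ j := mul_le_mul_of_nonneg_right (le_max_left _ _) (by positivity)
      _ ≤ C' * η ^ n := mul_le_mul_of_nonneg_left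
          (pow_le_pow_of_le_one hη0.le hη.le hnj) hC'0.le
  have h11 : β ≤ C' * η ^ n * (m : ℝ) ^ R := by
    rw [inv_pow, ← div_eq_mul_inv, div_le_iff₀ (by positivity)] at h10
    exact h10
  have h12 : C' * η ^ n * (m : ℝ) ^ R ≤ C' * c := by
    have hcA1 : 1 ≤ c * A ^ n := le_trans (by exact_mod_cast hm1) hm
    have hcA0 : 0 < c * A ^ n := by positivity
    have hη' : η ^ n * (A ^ n) ^ (R + 1) = 1 := by
      rw [← pow_mul, mul_comm n (R + 1), pow_mul, hApow, ← mul_pow, mul_inv_cancel₀ hη0.ne',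
        one_pow]
    rw [mul_assoc]
    refine mul_le_mul_of_nonneg_left ?_ hC'0.le
    calc η ^ n * (m : ℝ) ^ R ≤ η ^ n * (c * A ^ n) ^ R :=
          mul_le_mul_of_nonneg_left (pow_le_pow_left₀ hmR.le hm R) (by positivity)
      _ ≤ η ^ n * (c * A ^ n) ^ (R + 1) := by
          refine mul_le_mul_of_nonneg_left ?_ (by positivity)
          exact pow_le_pow_right₀ hcA1 (Nat.le_succ R)
      _ = (η ^ n * (A ^ n) ^ (R + 1)) * c ^ (R + 1) := by rw [mul_pow]; ring
      _ = c ^ (R + 1) := by rw [hη', one_mul]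
      _ ≤ c ^ 1 := pow_le_pow_of_le_one hc0.le hc1 (by omega)
      _ = c := pow_one c
  linarith

end Pool.Agent.Helper33.SS

end

section

/-!
# Super-attracted orbits (SS-15)
-/

set_option autoImplicit false

namespace Pool.Agent.Helper33.SS

open Matrix Filter Topology

section gen
open Asymptotics
variable {K : Type*} [NormedField K]

theorem sa_pow_mono {g : ℕ → ℝ} (hg : Tendsto g atTop (𝓝 0)) {a b : ℕ} (h : a ≤ b) :
    (fun n => g n ^ b) =O[atTop] fun n => g n ^ a := by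
  obtain ⟨c, rfl⟩ := Nat.exists_eq_add_of_le h
  have h1 : (fun n => g n ^ c) =O[atTop] fun _ => (1 : ℝ) := (hg.pow c).isBigO_one ℝ
  simpa [pow_add] using (isBigO_refl (fun n => g n ^ a) atTop).mul h1

/-- sequences with an expansion to order `e` in the powers of `W n` -/
def SaW (W : ℕ → K) (g : ℕ → ℝ) (e : ℕ) (b : ℕ → K) : Prop :=
  ∃ P : Polynomial K, (fun n => b n - P.eval (W n)) =O[atTop] fun n => g n ^ e

theorem SaW.congr {W : ℕ → K} {g : ℕ → ℝ} {e : ℕ} {a b : ℕ → K} (h : SaW W g e a)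
    (hab : ∀ n, a n = b n) : SaW W g e b := by
  have : a = b := funext hab
  rwa [← this]

theorem SaW.const (W : ℕ → K) (g : ℕ → ℝ) (e : ℕ) (c : K) : SaW W g e (fun _ => c) :=
  ⟨Polynomial.C c, by simpa using isBigO_zero _ _⟩

theorem SaW.self (W : ℕ → K) (g : ℕ → ℝ) (e : ℕ) : SaW W g e W :=
  ⟨Polynomial.X, by simpa using isBigO_zero _ _⟩

theorem SaW.of_bigO {W : ℕ → K} {g : ℕ → ℝ} {e : ℕ} {b : ℕ → K}
    (h : b =O[atTop] fun n => g n ^ e) : SaW W g e b :=
  ⟨0, by simpa using h⟩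

theorem SaW.add {W : ℕ → K} {g : ℕ → ℝ} {e : ℕ} {a b : ℕ → K} (ha : SaW W g e a)
    (hb : SaW W g e b) : SaW W g e (fun n => a n + b n) := by
  obtain ⟨P, hP⟩ := ha
  obtain ⟨R, hR⟩ := hb
  refine ⟨P + R, (hP.add hR).congr_left fun n => ?_⟩
  simp only [Polynomial.eval_add]
  ring

theorem sa_eval_bdd {W : ℕ → K} (hW : Tendsto W atTop (𝓝 0)) (P : Polynomial K) :
    (fun n => P.eval (W n)) =O[atTop] fun _ => (1 : ℝ) :=
  ((P.continuous.tendsto 0).comp hW).isBigO_one ℝ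

theorem SaW.bdd {W : ℕ → K} {g : ℕ → ℝ} {e : ℕ} {b : ℕ → K} (hW : Tendsto W atTop (𝓝 0))
    (hg : Tendsto g atTop (𝓝 0)) (hb : SaW W g e b) : b =O[atTop] fun _ => (1 : ℝ) := by
  obtain ⟨R, hR⟩ := hb
  have h1 : (fun n => g n ^ e) =O[atTop] fun _ => (1 : ℝ) := by
    simpa using sa_pow_mono hg (Nat.zero_le e)
  have h2 := (hR.trans h1).add (sa_eval_bdd hW R)
  refine h2.congr_left fun n => ?_
  ring

theorem SaW.mul {W : ℕ → K} {g : ℕ → ℝ} {e : ℕ} {a b : ℕ → K} (hW : Tendsto W atTop (𝓝 0))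
    (hg : Tendsto g atTop (𝓝 0)) (ha : SaW W g e a)
    (hb : SaW W g e b) : SaW W g e (fun n => a n * b n) := by
  have hbb := hb.bdd hW hg
  obtain ⟨P, hP⟩ := ha
  obtain ⟨R, hR⟩ := hb
  refine ⟨P * R, ?_⟩
  have h1 := hP.mul hbb
  have h2 := (sa_eval_bdd hW P).mul hR
  simp only [mul_one] at h1
  simp only [one_mul] at h2
  refine (h1.add h2).congr_left fun n => ?_
  simp only [Polynomial.eval_mul]
  ring

/-- the product lemma -/
theorem SaW.mul_succ {W : ℕ → K} {g : ℕ → ℝ} {e : ℕ} {a b : ℕ → K} (he : 1 ≤ e)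
    (hg : Tendsto g atTop (𝓝 0)) (ha : SaW W g e a) (ha1 : a =O[atTop] g)
    (hb : SaW W g e b) (hb1 : b =O[atTop] g) : SaW W g (e + 1) (fun n => a n * b n) := by
  obtain ⟨P, hP⟩ := ha
  obtain ⟨R, hR⟩ := hb
  refine ⟨P * R, ?_⟩
  have hPg : (fun n => P.eval (W n)) =O[atTop] g := by
    have h0 : (fun n => g n ^ e) =O[atTop] g := by
      simpa using sa_pow_mono hg he
    refine (ha1.sub (hP.trans h0)).congr_left fun n => ?_
    ring
  have h1 := hP.mul hb1
  have h2 := hPg.mul hR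
  have h1' : (fun n => (a n - P.eval (W n)) * b n) =O[atTop] fun n => g n ^ (e + 1) := by
    refine h1.congr_right fun n => ?_
    ring
  have h2' : (fun n => P.eval (W n) * (b n - R.eval (W n))) =O[atTop] fun n => g n ^ (e + 1) := by
    refine h2.congr_right fun n => ?_
    ring
  refine (h1'.add h2').congr_left fun n => ?_
  simp only [Polynomial.eval_mul]
  ring

theorem SaW.mvEval {σ : Type*} {W : ℕ → K} {g : ℕ → ℝ} {e : ℕ} (hW : Tendsto W atTop (𝓝 0))
    (hg : Tendsto g atTop (𝓝 0)) {y : ℕ → σ → K} (hy : ∀ s, SaW W g e fun n => y n s)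
    (p : MvPolynomial σ K) : SaW W g e fun n => MvPolynomial.eval (y n) p := by
  induction p using MvPolynomial.induction_on with
  | C a => simpa using SaW.const W g e a
  | add p q hp hq => simpa using hp.add hq
  | mul_X p i hp => simpa using hp.mul hW hg (hy i)

theorem SaW.eval {W : ℕ → K} {g : ℕ → ℝ} {e : ℕ} (hW : Tendsto W atTop (𝓝 0))
    (hg : Tendsto g atTop (𝓝 0)) {y : ℕ → K} (hy : SaW W g e y)
    (p : Polynomial K) : SaW W g e fun n => p.eval (y n) := by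
  induction p using Polynomial.induction_on' with
  | add p q hp hq => simpa using hp.add hq
  | monomial k a =>
    induction k with
    | zero => simpa using SaW.const W g e a
    | succ k ih =>
      refine (ih.mul hW hg hy).imp fun P hP => hP.congr_left fun n => ?_
      simp [pow_succ, mul_assoc]

theorem SaW.sum {α : Type*} {W : ℕ → K} {g : ℕ → ℝ} {e : ℕ} (s : Finset α) {a : α → ℕ → K}
    (h : ∀ i ∈ s, SaW W g e (a i)) : SaW W g e fun n => ∑ i ∈ s, a i n := by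
  classical
  induction s using Finset.induction_on with
  | empty => simpa using SaW.const W g e (0 : K)
  | insert i s hi ih =>
    have := (h i (Finset.mem_insert_self i s)).add (ih fun j hj => h j (Finset.mem_insert_of_mem hj))
    simpa [Finset.sum_insert hi] using this

/-- elements of the ideal of the variables -/
theorem sa_ideal {σ : Type*} {W : ℕ → K} {g : ℕ → ℝ} {e : ℕ} (hW : Tendsto W atTop (𝓝 0))
    (hg : Tendsto g atTop (𝓝 0)) {y : ℕ → σ → K} (hy : ∀ s, SaW W g e fun n => y n s)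
    (hy1 : ∀ s, (fun n => y n s) =O[atTop] g) {p : MvPolynomial σ K}
    (hp : p ∈ Ideal.span (Set.range (MvPolynomial.X : σ → MvPolynomial σ K))) :
    (SaW W g e fun n => MvPolynomial.eval (y n) p) ∧
      (fun n => MvPolynomial.eval (y n) p) =O[atTop] g := by
  refine ⟨SaW.mvEval hW hg hy p, ?_⟩
  refine Submodule.span_induction (p := fun p _ => (fun n => MvPolynomial.eval (y n) p) =O[atTop] g)
    ?_ ?_ ?_ ?_ hp
  · rintro _ ⟨s, rfl⟩
    simpa using hy1 s
  · simpa using isBigO_zero _ _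
  · intro p q _ _ hp hq
    simpa using hp.add hq
  · intro a p _ hp
    have h1 := ((SaW.mvEval hW hg hy a).bdd hW hg).mul hp
    simpa using h1

/-- elements of the square of the ideal of the variables -/
theorem sa_sq {σ : Type*} {W : ℕ → K} {g : ℕ → ℝ} {e : ℕ} (he : 1 ≤ e) (hW : Tendsto W atTop (𝓝 0))
    (hg : Tendsto g atTop (𝓝 0)) {y : ℕ → σ → K} (hy : ∀ s, SaW W g e fun n => y n s)
    (hy1 : ∀ s, (fun n => y n s) =O[atTop] g) {p : MvPolynomial σ K} (hp : p ∈ Sq σ K) :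
    (SaW W g (e + 1) fun n => MvPolynomial.eval (y n) p) ∧
      (fun n => MvPolynomial.eval (y n) p) =O[atTop] fun n => g n ^ 2 := by
  rw [Sq, pow_two] at hp
  refine Submodule.mul_induction_on hp ?_ ?_
  · intro a ha b hb
    obtain ⟨ha1, ha2⟩ := sa_ideal hW hg hy hy1 ha
    obtain ⟨hb1, hb2⟩ := sa_ideal hW hg hy hy1 hb
    constructor
    · simpa using ha1.mul_succ he hg ha2 hb1 hb2
    · refine (ha2.mul hb2).congr (fun n => by simp) fun n => ?_
      ring
  · rintro a b ⟨ha1, ha2⟩ ⟨hb1, hb2⟩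
    exact ⟨by simpa using ha1.add hb1, by simpa using ha2.add hb2⟩

theorem sa_sq' {σ : Type*} {g : ℕ → ℝ}
    (hg : Tendsto g atTop (𝓝 0)) {y : ℕ → σ → K}
    (hy1 : ∀ s, (fun n => y n s) =O[atTop] g) {p : MvPolynomial σ K} (hp : p ∈ Sq σ K) :
    (fun n => MvPolynomial.eval (y n) p) =O[atTop] fun n => g n ^ 2 := by
  have hW : Tendsto (fun _ : ℕ => (0 : K)) atTop (𝓝 0) := tendsto_const_nhds
  refine (sa_sq (e := 1) le_rfl hW hg (fun s => ?_) hy1 hp).2
  exact SaW.of_bigO (by simpa using hy1 s)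

end gen

variable {K : Type*} [NormedField K] [IsUltrametricDist K] {ι : Type*} [Fintype ι] [DecidableEq ι]

omit [IsUltrametricDist K] [DecidableEq ι] in
theorem sa_mulVec_le (T : Matrix ι ι K) : ∃ C : ℝ, 0 < C ∧ ∀ v : ι → K, ‖T *ᵥ v‖ ≤ C * ‖v‖ := by
  refine ⟨1 + ∑ i, ∑ j, ‖T i j‖, by positivity, fun v => ?_⟩
  rw [pi_norm_le_iff_of_nonneg (by positivity)]
  intro i
  have h1 : ‖(T *ᵥ v) i‖ ≤ ∑ j, ‖T i j‖ * ‖v‖ := by
    refine (norm_sum_le _ _).trans (Finset.sum_le_sum fun j _ => ?_)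
    rw [norm_mul]
    exact mul_le_mul_of_nonneg_left (norm_le_pi_norm v j) (norm_nonneg _)
  refine h1.trans ?_
  rw [← Finset.sum_mul]
  refine mul_le_mul_of_nonneg_right ?_ (norm_nonneg _)
  have h2 : ∑ j, ‖T i j‖ ≤ ∑ i, ∑ j, ‖T i j‖ :=
    Finset.single_le_sum (f := fun i => ∑ j, ‖T i j‖) (fun i _ => by positivity) (Finset.mem_univ i)
  linarith

omit [IsUltrametricDist K] [DecidableEq ι] in
/-- flat sequences do not have geometric lower bounds -/
theorem sa_no_lower (x : ℕ → ι → K) {w : K} (hw : ‖w‖ < 1)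
    (hflat : ∀ i, Flat (fun n => ‖w‖ ^ n) (fun n => x n i)) {C : ℝ} (hC : 0 < C) (N : ℕ)
    (hN : x N ≠ 0) (h : ∀ n, N ≤ n → ‖x n‖ ≤ C * ‖x (n + 1)‖) : False := by
  obtain ⟨e, he⟩ := exists_pow_lt_of_lt_one (inv_pos.2 hC) hw
  choose D hD using fun i => hflat i e
  have hD1 : ∀ n, ‖x n‖ ≤ (∑ i, |D i|) * (‖w‖ ^ e) ^ n := by
    intro n
    rw [pi_norm_le_iff_of_nonneg (by positivity)]
    intro i
    have h1 := hD i n
    have h2 : (‖w‖ ^ n) ^ e = (‖w‖ ^ e) ^ n := by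
      rw [← pow_mul, ← pow_mul, mul_comm]
    simp only at h1
    rw [h2] at h1
    refine h1.trans (mul_le_mul_of_nonneg_right ?_ (by positivity))
    exact (le_abs_self _).trans
      (Finset.single_le_sum (f := fun i => |D i|) (fun i _ => abs_nonneg _) (Finset.mem_univ i))
  have h1 : ∀ j, ‖x N‖ ≤ C ^ j * ‖x (N + j)‖ := by
    intro j
    induction j with
    | zero => simp
    | succ j ih =>
      refine ih.trans ?_
      have h2 := h (N + j) (Nat.le_add_right _ _)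
      have h3 : C ^ j * ‖x (N + j)‖ ≤ C ^ j * (C * ‖x (N + j + 1)‖) :=
        mul_le_mul_of_nonneg_left h2 (by positivity)
      refine h3.trans (le_of_eq ?_)
      rw [pow_succ, Nat.add_assoc]
      ring
  have h2 : ∀ j, ‖x N‖ ≤ ((∑ i, |D i|) * (‖w‖ ^ e) ^ N) * (C * ‖w‖ ^ e) ^ j := by
    intro j
    refine (h1 j).trans ((mul_le_mul_of_nonneg_left (hD1 (N + j)) (by positivity)).trans
      (le_of_eq ?_))
    rw [mul_pow, pow_add]
    ring
  have h3 : C * ‖w‖ ^ e < 1 := by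
    have := mul_lt_mul_of_pos_left he hC
    rwa [mul_inv_cancel₀ hC.ne'] at this
  have h4 : Tendsto (fun j => ((∑ i, |D i|) * (‖w‖ ^ e) ^ N) * (C * ‖w‖ ^ e) ^ j) atTop (𝓝 0) := by
    have := (tendsto_pow_atTop_nhds_zero_of_lt_one (by positivity) h3).const_mul
      ((∑ i, |D i|) * (‖w‖ ^ e) ^ N)
    simpa using this
  have h5 : ‖x N‖ ≤ 0 := ge_of_tendsto' h4 h2
  exact hN (norm_le_zero_iff.1 h5)

omit [IsUltrametricDist K] [DecidableEq ι] in
theorem sa_tendsto (x : ℕ → ι → K) {w : K} (hw : ‖w‖ < 1)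
    (hflat : ∀ i, Flat (fun n => ‖w‖ ^ n) (fun n => x n i)) : Tendsto x atTop (𝓝 0) := by
  rw [tendsto_pi_nhds]
  intro i
  obtain ⟨C, hC⟩ := hflat i 1
  have h1 : Tendsto (fun n : ℕ => C * (‖w‖ ^ n) ^ 1) atTop (𝓝 0) := by
    have := (tendsto_pow_atTop_nhds_zero_of_lt_one (norm_nonneg w) hw).const_mul C
    simpa using this
  exact squeeze_zero_norm hC h1

theorem sa_step_ev (T : Matrix ι ι K) (Q : ι → MvPolynomial (ι ⊕ ι) K)
    (hQ : ∀ i, Q i ∈ Sq (ι ⊕ ι) K) (x : ℕ → ι → K)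
    (hrec : ∀ n, x (n + 1) = T *ᵥ x n + fun i => MvPolynomial.eval (Sum.elim (x n) (x (n + 1))) (Q i))
    (hx : Tendsto x atTop (𝓝 0)) :
    ∃ C : ℝ, 0 < C ∧ ∀ᶠ n in atTop, ‖x (n + 1)‖ ≤ C * ‖x n‖ := by
  obtain ⟨CT, hCT0, hCT⟩ := sa_mulVec_le T
  obtain ⟨g, hgdef⟩ : ∃ g : ℕ → ℝ, g = fun n => max ‖x n‖ ‖x (n + 1)‖ := ⟨_, rfl⟩
  have hgn : ∀ n, g n = max ‖x n‖ ‖x (n + 1)‖ := fun n => by rw [hgdef]
  have hg : Tendsto g atTop (𝓝 0) := by
    have h1 : Tendsto (fun n => ‖x n‖) atTop (𝓝 0) := by simpa using hx.norm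
    have h2 := h1.comp (tendsto_add_atTop_nat 1)
    rw [hgdef]
    simpa using h1.max h2
  have hg0 : ∀ n, 0 ≤ g n := fun n => by
    rw [hgn]
    exact (norm_nonneg _).trans (le_max_left _ _)
  have hy : ∀ s : ι ⊕ ι, (fun n => Sum.elim (x n) (x (n + 1)) s) =O[atTop] g := by
    rintro (s | s)
    · refine Asymptotics.IsBigO.of_bound 1 (Eventually.of_forall fun n => ?_)
      rw [one_mul, Real.norm_of_nonneg (hg0 n), hgn]
      exact (norm_le_pi_norm (x n) s).trans (le_max_left _ _)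
    · refine Asymptotics.IsBigO.of_bound 1 (Eventually.of_forall fun n => ?_)
      rw [one_mul, Real.norm_of_nonneg (hg0 n), hgn]
      exact (norm_le_pi_norm (x (n + 1)) s).trans (le_max_right _ _)
  have hQb : (fun n => fun i => MvPolynomial.eval (Sum.elim (x n) (x (n + 1))) (Q i))
      =O[atTop] fun n => g n ^ 2 :=
    Asymptotics.isBigO_pi.2 fun i => sa_sq' hg hy (hQ i)
  obtain ⟨C, hC0, hC⟩ := hQb.exists_pos
  have hsm : ∀ᶠ n in atTop, C * g n < 1 := by
    have h1 : Tendsto (fun n => C * g n) atTop (𝓝 0) := by simpa using hg.const_mul C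
    exact h1.eventually_lt_const one_pos
  refine ⟨max 1 CT, lt_max_of_lt_left one_pos, ?_⟩
  filter_upwards [hC.bound, hsm] with n h1 h2
  by_contra hcon
  rw [not_le] at hcon
  have h3 : ‖x n‖ < ‖x (n + 1)‖ :=
    lt_of_le_of_lt (le_mul_of_one_le_left (norm_nonneg _) (le_max_left _ _)) hcon
  have h4 : g n = ‖x (n + 1)‖ := by rw [hgn]; exact max_eq_right h3.le
  have h5 : 0 < ‖x (n + 1)‖ := lt_of_le_of_lt (norm_nonneg _) h3
  have h6 : ‖fun i => MvPolynomial.eval (Sum.elim (x n) (x (n + 1))) (Q i)‖ < ‖x (n + 1)‖ := by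
    refine lt_of_le_of_lt h1 ?_
    rw [Real.norm_of_nonneg (by positivity), pow_two, ← mul_assoc]
    rw [h4] at h2 ⊢
    exact mul_lt_of_lt_one_left h5 h2
  have h7 : ‖x (n + 1)‖ ≤ max ‖T *ᵥ x n‖
      ‖fun i => MvPolynomial.eval (Sum.elim (x n) (x (n + 1))) (Q i)‖ := by
    conv_lhs => rw [hrec n]
    exact IsUltrametricDist.norm_add_le_max _ _
  have h8 : ‖x (n + 1)‖ ≤ ‖T *ᵥ x n‖ := by
    rcases le_max_iff.1 h7 with h | h
    · exact h
    · exact absurd h (not_le.2 h6)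
  have h9 : ‖x (n + 1)‖ ≤ max 1 CT * ‖x n‖ :=
    (h8.trans (hCT _)).trans (mul_le_mul_of_nonneg_right (le_max_right _ _) (norm_nonneg _))
  exact absurd h9 (not_le.2 hcon)

/-- `x (n + 1) = O (x n)` -/
theorem step_le (T : Matrix ι ι K) (Q : ι → MvPolynomial (ι ⊕ ι) K)
    (hQ : ∀ i, Q i ∈ Sq (ι ⊕ ι) K) (x : ℕ → ι → K)
    (hrec : ∀ n, x (n + 1) = T *ᵥ x n + fun i => MvPolynomial.eval (Sum.elim (x n) (x (n + 1))) (Q i))
    (hx0 : ∀ n, x n ≠ 0) (hx : Tendsto x atTop (𝓝 0)) : ∃ C : ℝ, ∀ n, ‖x (n + 1)‖ ≤ C * ‖x n‖ := by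
  obtain ⟨C, _, hC⟩ := sa_step_ev T Q hQ x hrec hx
  have h1 : (fun n => x (n + 1)) =O[atTop] x := Asymptotics.IsBigO.of_bound C hC
  obtain ⟨D, _, hD⟩ := Asymptotics.bound_of_isBigO_nat_atTop h1
  exact ⟨D, fun n => hD (hx0 n)⟩

/-- the quadratic part of the recurrence -/
theorem sa_quad (T : Matrix ι ι K) (Q : ι → MvPolynomial (ι ⊕ ι) K)
    (hQ : ∀ i, Q i ∈ Sq (ι ⊕ ι) K) (x : ℕ → ι → K)
    (hrec : ∀ n, x (n + 1) = T *ᵥ x n + fun i => MvPolynomial.eval (Sum.elim (x n) (x (n + 1))) (Q i))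
    (hx : Tendsto x atTop (𝓝 0)) :
    (fun n => x (n + 1)) =O[atTop] (fun n => ‖x n‖) ∧
    (fun n => fun i => MvPolynomial.eval (Sum.elim (x n) (x (n + 1))) (Q i))
      =O[atTop] fun n => ‖x n‖ ^ 2 := by
  obtain ⟨C, _, hC⟩ := sa_step_ev T Q hQ x hrec hx
  have hg : Tendsto (fun n => ‖x n‖) atTop (𝓝 0) := by simpa using hx.norm
  have h1 : (fun n => x (n + 1)) =O[atTop] (fun n => ‖x n‖) :=
    Asymptotics.IsBigO.of_bound C (by simpa using hC)
  have h0 : x =O[atTop] (fun n => ‖x n‖) := Asymptotics.isBigO_norm_right.2 (Asymptotics.isBigO_refl _ _)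
  refine ⟨h1, Asymptotics.isBigO_pi.2 fun i => sa_sq' hg ?_ (hQ i)⟩
  rintro (s | s)
  · exact Asymptotics.isBigO_pi.1 h0 s
  · exact Asymptotics.isBigO_pi.1 h1 s

/-- if `T` is invertible then no orbit is super-attracted -/
theorem not_flat (T : Matrix ι ι K) (Q : ι → MvPolynomial (ι ⊕ ι) K)
    (hQ : ∀ i, Q i ∈ Sq (ι ⊕ ι) K) (x : ℕ → ι → K)
    (hrec : ∀ n, x (n + 1) = T *ᵥ x n + fun i => MvPolynomial.eval (Sum.elim (x n) (x (n + 1))) (Q i))
    (hx0 : ∀ n, x n ≠ 0) {w : K} (hw0 : w ≠ 0) (hw : ‖w‖ < 1)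
    (hflat : ∀ i, Flat (fun n => ‖w‖ ^ n) (fun n => x n i)) (Θ : Matrix ι ι K) (hΘ : Θ * T = 1) :
    False := by
  have hx := sa_tendsto x hw hflat
  obtain ⟨h1, h2⟩ := sa_quad T Q hQ x hrec hx
  have hg : Tendsto (fun n => ‖x n‖) atTop (𝓝 0) := by simpa using hx.norm
  obtain ⟨CΘ, hCΘ0, hCΘ⟩ := sa_mulVec_le Θ
  obtain ⟨CQ, hCQ0, hCQ⟩ := h2.exists_pos
  have hsm : ∀ᶠ n in atTop, CΘ * CQ * ‖x n‖ < 1 := by
    have h1 : Tendsto (fun n => CΘ * CQ * ‖x n‖) atTop (𝓝 0) := by simpa using hg.const_mul (CΘ * CQ)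
    exact h1.eventually_lt_const one_pos
  obtain ⟨N, hN⟩ := eventually_atTop.1 (hCQ.bound.and hsm)
  refine sa_no_lower x hw hflat hCΘ0 N (hx0 N) fun n hn => ?_
  obtain ⟨h3, h4⟩ := hN n hn
  obtain ⟨q, hq⟩ : ∃ q : ι → K, q = fun i => MvPolynomial.eval (Sum.elim (x n) (x (n + 1))) (Q i) :=
    ⟨_, rfl⟩
  have hr := hrec n
  rw [← hq] at h3 hr
  rw [Real.norm_of_nonneg (by positivity)] at h3
  have h5 : x n = Θ *ᵥ (x (n + 1) - q) := by
    have : x (n + 1) - q = T *ᵥ x n := by rw [hr]; abel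
    rw [this, Matrix.mulVec_mulVec, hΘ, Matrix.one_mulVec]
  have h6 : ‖x n‖ ≤ CΘ * max ‖x (n + 1)‖ ‖q‖ := by
    conv_lhs => rw [h5]
    refine (hCΘ _).trans (mul_le_mul_of_nonneg_left ?_ hCΘ0.le)
    rw [sub_eq_add_neg]
    refine (IsUltrametricDist.norm_add_le_max _ _).trans ?_
    rw [norm_neg]
  have hpos : 0 < ‖x n‖ := norm_pos_iff.2 (hx0 n)
  have h7 : CΘ * ‖q‖ < ‖x n‖ := by
    calc CΘ * ‖q‖ ≤ CΘ * (CQ * ‖x n‖ ^ 2) := mul_le_mul_of_nonneg_left h3 hCΘ0.le
      _ = (CΘ * CQ * ‖x n‖) * ‖x n‖ := by ring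
      _ < ‖x n‖ := mul_lt_of_lt_one_left hpos h4
  rw [mul_max_of_nonneg _ _ hCΘ0.le] at h6
  rcases le_max_iff.1 h6 with h | h
  · exact h
  · exact absurd h (not_le.2 h7)

/-- step (1): `v = O (x ^ 2)` -/
theorem sa_curve_one (T : Matrix ι ι K) (Q : ι → MvPolynomial (ι ⊕ ι) K)
    (hQ : ∀ i, Q i ∈ Sq (ι ⊕ ι) K) (x : ℕ → ι → K)
    (hrec : ∀ n, x (n + 1) = T *ᵥ x n + fun i => MvPolynomial.eval (Sum.elim (x n) (x (n + 1))) (Q i))
    (hx0 : ∀ n, x n ≠ 0) {w : K} (hw : ‖w‖ < 1)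
    (hflat : ∀ i, Flat (fun n => ‖w‖ ^ n) (fun n => x n i)) (Θ : Matrix ι ι K) (κ ℓ : ι → K)
    (h2 : ℓ ᵥ* T = 0) (h4 : Θ * T = 1 - vecMulVec κ ℓ) :
    (fun n => x n - (ℓ ⬝ᵥ x n) • κ) =O[atTop] fun n => ‖x n‖ ^ 2 := by
  have hx := sa_tendsto x hw hflat
  obtain ⟨hb1, hb2⟩ := sa_quad T Q hQ x hrec hx
  have hg : Tendsto (fun n => ‖x n‖) atTop (𝓝 0) := by simpa using hx.norm
  obtain ⟨q, hq⟩ : ∃ q : ℕ → ι → K,
      q = fun n => fun i => MvPolynomial.eval (Sum.elim (x n) (x (n + 1))) (Q i) := ⟨_, rfl⟩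
  have hr : ∀ n, x (n + 1) = T *ᵥ x n + q n := fun n => by rw [hq]; exact hrec n
  rw [← hq] at hb2
  obtain ⟨CΘ, hCΘ0, hCΘ⟩ := sa_mulVec_le Θ
  obtain ⟨CQ, hCQ0, hCQ⟩ := hb2.exists_pos
  obtain ⟨Cκ, hCκ0, hCκ⟩ := sa_mulVec_le (vecMulVec κ ℓ)
  have hvm : ∀ u : ι → K, vecMulVec κ ℓ *ᵥ u = (ℓ ⬝ᵥ u) • κ := by
    intro u
    rw [Matrix.vecMulVec_mulVec]
    ext i
    simp [mul_comm]
  have hv : ∀ n, x n - (ℓ ⬝ᵥ x n) • κ = Θ *ᵥ (x (n + 1) - q n) := by
    intro n
    have h5 : x (n + 1) - q n = T *ᵥ x n := by rw [hr]; abel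
    rw [h5, Matrix.mulVec_mulVec, h4, Matrix.sub_mulVec, Matrix.one_mulVec, hvm]
  have hW : ∀ n, ℓ ⬝ᵥ x (n + 1) = ℓ ⬝ᵥ q n := by
    intro n
    rw [hr, dotProduct_add, Matrix.dotProduct_mulVec, h2, zero_dotProduct, zero_add]
  obtain ⟨C, hCdef⟩ : ∃ C : ℝ, C = CΘ * CQ * (1 + Cκ) := ⟨_, rfl⟩
  have hC0 : 0 < C := by rw [hCdef]; positivity
  have hsm : ∀ᶠ n in atTop, C * ‖x n‖ < 1 := by
    have h1 : Tendsto (fun n => C * ‖x n‖) atTop (𝓝 0) := by simpa using hg.const_mul C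
    exact h1.eventually_lt_const one_pos
  obtain ⟨N, hN⟩ := eventually_atTop.1 (hCQ.bound.and hsm)
  by_cases hall : ∀ n, N ≤ n → ‖x n - (ℓ ⬝ᵥ x n) • κ‖ ≤ C * ‖x n‖ ^ 2
  · refine Asymptotics.IsBigO.of_bound C (eventually_atTop.2 ⟨N, fun n hn => ?_⟩)
    rw [Real.norm_of_nonneg (by positivity)]
    exact hall n hn
  · exfalso
    push Not at hall
    obtain ⟨m, hm, hbad⟩ := hall
    have key : ∀ n, N ≤ n → C * ‖x n‖ ^ 2 < ‖x n - (ℓ ⬝ᵥ x n) • κ‖ →
        ‖x n - (ℓ ⬝ᵥ x n) • κ‖ ≤ CΘ * ‖x (n + 1)‖ ∧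
        ‖x (n + 1) - (ℓ ⬝ᵥ x (n + 1)) • κ‖ = ‖x (n + 1)‖ ∧
        C * ‖x (n + 1)‖ ^ 2 < ‖x (n + 1) - (ℓ ⬝ᵥ x (n + 1)) • κ‖ := by
      intro n hn hb
      obtain ⟨h5, _⟩ := hN n hn
      obtain ⟨_, h6⟩ := hN (n + 1) (by omega)
      rw [Real.norm_of_nonneg (by positivity)] at h5
      have h7 : ‖x n - (ℓ ⬝ᵥ x n) • κ‖ ≤ CΘ * max ‖x (n + 1)‖ ‖q n‖ := by
        rw [hv n]
        refine (hCΘ _).trans (mul_le_mul_of_nonneg_left ?_ hCΘ0.le)
        rw [sub_eq_add_neg]
        refine (IsUltrametricDist.norm_add_le_max _ _).trans ?_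
        rw [norm_neg]
      have h8 : CΘ * ‖q n‖ ≤ C * ‖x n‖ ^ 2 := by
        calc CΘ * ‖q n‖ ≤ CΘ * (CQ * ‖x n‖ ^ 2) := mul_le_mul_of_nonneg_left h5 hCΘ0.le
          _ = (CΘ * CQ) * ‖x n‖ ^ 2 := by ring
          _ ≤ C * ‖x n‖ ^ 2 := by
            refine mul_le_mul_of_nonneg_right ?_ (by positivity)
            rw [hCdef]
            have : 0 < CΘ * CQ * Cκ := by positivity
            linarith
      have h9 : ‖x n - (ℓ ⬝ᵥ x n) • κ‖ ≤ CΘ * ‖x (n + 1)‖ := by
        rw [mul_max_of_nonneg _ _ hCΘ0.le] at h7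
        rcases le_max_iff.1 h7 with h | h
        · exact h
        · exact absurd (h.trans h8) (not_le.2 hb)
      have h10 : ‖(ℓ ⬝ᵥ x (n + 1)) • κ‖ < ‖x (n + 1)‖ := by
        have h11 : ‖(ℓ ⬝ᵥ x (n + 1)) • κ‖ ≤ Cκ * (CQ * ‖x n‖ ^ 2) := by
          rw [hW, ← hvm]
          exact (hCκ _).trans (mul_le_mul_of_nonneg_left h5 hCκ0.le)
        have h12 : CΘ * (Cκ * (CQ * ‖x n‖ ^ 2)) < CΘ * ‖x (n + 1)‖ := by
          refine lt_of_le_of_lt ?_ (lt_of_lt_of_le hb h9)
          calc CΘ * (Cκ * (CQ * ‖x n‖ ^ 2)) = (CΘ * CQ * Cκ) * ‖x n‖ ^ 2 := by ring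
            _ ≤ C * ‖x n‖ ^ 2 := by
              refine mul_le_mul_of_nonneg_right ?_ (by positivity)
              rw [hCdef]
              have : 0 < CΘ * CQ := by positivity
              linarith
        exact lt_of_le_of_lt h11 (lt_of_mul_lt_mul_left h12 hCΘ0.le)
      have h13 : ‖x (n + 1) - (ℓ ⬝ᵥ x (n + 1)) • κ‖ = ‖x (n + 1)‖ := by
        rw [sub_eq_add_neg, IsUltrametricDist.norm_add_eq_max_of_norm_ne_norm, norm_neg,
          max_eq_left h10.le]
        rw [norm_neg]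
        exact h10.ne'
      refine ⟨h9, h13, ?_⟩
      rw [h13, pow_two, ← mul_assoc]
      exact mul_lt_of_lt_one_left (norm_pos_iff.2 (hx0 _)) h6
    have hB : ∀ j, C * ‖x (m + j)‖ ^ 2 < ‖x (m + j) - (ℓ ⬝ᵥ x (m + j)) • κ‖ := by
      intro j
      induction j with
      | zero => exact hbad
      | succ j ih => exact (key (m + j) (by omega) ih).2.2
    refine sa_no_lower x hw hflat hCΘ0 (m + 1) (hx0 _) fun n hn => ?_
    obtain ⟨j, rfl⟩ := Nat.exists_eq_add_of_le hn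
    have h5 := (key (m + j) (by omega) (hB j)).2.1
    have h6 := (key (m + (j + 1)) (by omega) (hB (j + 1))).1
    have h7 : m + 1 + j = m + j + 1 := by omega
    rw [h7, ← h5]
    exact h6

omit [IsUltrametricDist K] [DecidableEq ι] in
theorem sa_big_mulVec {g : ℕ → ℝ} {e : ℕ} {W : ℕ → K} (A : Matrix ι ι K) {u : ℕ → ι → K}
    (hu : ∀ i, SaW W g e fun n => u n i) (i : ι) : SaW W g e fun n => (A *ᵥ u n) i := by
  have h1 : ∀ j ∈ (Finset.univ : Finset ι), SaW W g e fun n => A i j * u n j := by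
    intro j _
    obtain ⟨P, hP⟩ := hu j
    refine ⟨Polynomial.C (A i j) * P, (hP.const_mul_left (A i j)).congr_left fun n => ?_⟩
    simp only [Polynomial.eval_mul, Polynomial.eval_C]
    ring
  exact SaW.sum Finset.univ h1

omit [IsUltrametricDist K] in
theorem SaW.const_mul {g : ℕ → ℝ} {e : ℕ} {W : ℕ → K} (c : K) {u : ℕ → K}
    (hu : SaW W g e u) : SaW W g e fun n => c * u n := by
  obtain ⟨P, hP⟩ := hu
  refine ⟨Polynomial.C c * P, (hP.const_mul_left c).congr_left fun n => ?_⟩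
  simp only [Polynomial.eval_mul, Polynomial.eval_C]
  ring

omit [IsUltrametricDist K] in
/-- the final dichotomy -/
theorem sa_final {g : ℕ → ℝ} (hg : Tendsto g atTop (𝓝 0)) (hg0 : ∀ n, 0 < g n) {W : ℕ → K}
    (hW : Tendsto W atTop (𝓝 0)) (hWg : W =O[atTop] g) (hgW : g =O[atTop] W) {a : ℕ → K}
    (ha : ∀ e, SaW W g e a) : (∃ n₀, ∀ n, n₀ ≤ n → a n ≠ 0) ∨ Flat g a := by
  by_cases h : ∃ (e : ℕ) (R : Polynomial K), ((fun n => a n - R.eval (W n)) =O[atTop] fun n => g n ^ e) ∧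
      ¬ (Polynomial.X : Polynomial K) ^ e ∣ R
  · left
    obtain ⟨e, R, hR, hnd⟩ := h
    have hR0 : R ≠ 0 := by
      rintro rfl
      exact hnd (dvd_zero _)
    obtain ⟨S, hS1, hS2⟩ := Polynomial.exists_eq_pow_rootMultiplicity_mul_and_not_dvd R hR0 0
    obtain ⟨k, hk⟩ : ∃ k, k = Polynomial.rootMultiplicity 0 R := ⟨_, rfl⟩
    rw [← hk] at hS1
    simp only [Polynomial.C_0, sub_zero] at hS1 hS2
    have hke : k < e := by
      by_contra hcon
      rw [not_lt] at hcon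
      exact hnd (hS1 ▸ (pow_dvd_pow _ hcon).mul_right S)
    have hS0 : S.eval 0 ≠ 0 := by
      intro h0
      exact hS2 (by simpa using Polynomial.dvd_iff_isRoot.2 (show S.IsRoot 0 from h0))
    have h1 : Tendsto (fun n => S.eval (W n)) atTop (𝓝 (S.eval 0)) := (S.continuous.tendsto 0).comp hW
    have h2 : (fun _ : ℕ => (1 : ℝ)) =O[atTop] fun n => S.eval (W n) := by
      have h3 := h1.norm
      have h4 : ∀ᶠ n in atTop, ‖S.eval 0‖ / 2 < ‖S.eval (W n)‖ :=
        h3.eventually_const_lt (half_lt_self (norm_pos_iff.2 hS0))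
      refine Asymptotics.IsBigO.of_bound (‖S.eval 0‖ / 2)⁻¹ ?_
      filter_upwards [h4] with n hn
      have h5 : 0 < ‖S.eval 0‖ / 2 := half_pos (norm_pos_iff.2 hS0)
      rw [norm_one, ← div_eq_inv_mul, le_div_iff₀ h5, one_mul]
      exact hn.le
    have h3 : (fun n => g n ^ k) =O[atTop] fun n => R.eval (W n) := by
      refine ((hgW.pow k).mul h2).congr (fun n => by simp) fun n => ?_
      rw [hS1, Polynomial.eval_mul, Polynomial.eval_pow, Polynomial.eval_X]
    obtain ⟨C1, hC1, hb1⟩ := h3.exists_pos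
    obtain ⟨C2, hC2, hb2⟩ := hR.exists_pos
    have hsm : ∀ᶠ n in atTop, C2 * C1 * g n ^ (e - k) < 1 := by
      have h4 : Tendsto (fun n => C2 * C1 * g n ^ (e - k)) atTop (𝓝 0) := by
        have h5 := (hg.pow (e - k)).const_mul (C2 * C1)
        rwa [zero_pow (by omega), mul_zero] at h5
      exact h4.eventually_lt_const one_pos
    obtain ⟨N, hN⟩ := eventually_atTop.1 ((hb1.bound.and hb2.bound).and hsm)
    refine ⟨N, fun n hn h0 => ?_⟩
    obtain ⟨⟨h5, h6⟩, h7⟩ := hN n hn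
    have hgn := hg0 n
    rw [Real.norm_of_nonneg (by positivity)] at h5 h6
    rw [h0, zero_sub, norm_neg] at h6
    have h8 : g n ^ e = g n ^ (e - k) * g n ^ k := by
      rw [← pow_add, Nat.sub_add_cancel hke.le]
    have h9 : g n ^ k ≤ C2 * C1 * g n ^ (e - k) * g n ^ k := by
      calc g n ^ k ≤ C1 * (C2 * g n ^ e) := h5.trans (mul_le_mul_of_nonneg_left h6 hC1.le)
        _ = C2 * C1 * g n ^ (e - k) * g n ^ k := by rw [h8]; ring
    have h10 : C2 * C1 * g n ^ (e - k) * g n ^ k < g n ^ k :=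
      mul_lt_of_lt_one_left (by positivity) h7
    exact absurd h9 (not_le.2 h10)
  · right
    push Not at h
    intro e
    obtain ⟨R, hR⟩ := ha e
    obtain ⟨S, hS⟩ := h e R hR
    have h1 : (fun n => R.eval (W n)) =O[atTop] fun n => g n ^ e := by
      have h2 := (hWg.pow e).mul (sa_eval_bdd hW S)
      refine h2.congr (fun n => ?_) fun n => by simp
      rw [hS, Polynomial.eval_mul, Polynomial.eval_pow, Polynomial.eval_X]
    have h2 : a =O[atTop] fun n => g n ^ e := by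
      refine (hR.add h1).congr_left fun n => ?_
      ring
    obtain ⟨C, _, hC⟩ := Asymptotics.bound_of_isBigO_nat_atTop h2
    refine ⟨C, fun n => ?_⟩
    have hgn := hg0 n
    have h3 := hC (x := n) (by positivity)
    rwa [Real.norm_of_nonneg (by positivity)] at h3

/-- Let zero be a simple eigenvalue of `T` and let the orbit be super-attracted. Put `W n = ℓ x n` and
`v n = x n - W n κ = Θ (x (n + 1) - Q (x n, x (n + 1)))`; `W (n + 1) = ℓ Q (x n, x (n + 1))`.
(1) `‖v n‖ ≤ C ‖x n‖ ^ 2` for large `n`: otherwise `‖v n‖ ≤ ‖Θ‖ ‖x (n + 1)‖`, and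
`‖W (n + 1) κ‖ = O (‖x n‖ ^ 2)` is smaller than `‖x (n + 1)‖`, so `‖x (n + 1)‖ = ‖v (n + 1)‖` and the
same holds at `n + 1`, hence `‖x (n + j)‖ ≥ c ^ j ‖x n‖` for all `j`, which contradicts `hflat`. So
`‖x n‖ = ‖W n‖ ‖κ‖` for large `n`, and `x (n + 1) = T v n + Q = O (‖x n‖ ^ 2)`.
(2) Let `𝓦 e` be the ring of sequences `b` with `‖b n - P (W n)‖ ≤ C ‖x n‖ ^ e` for some polynomial
`P` in one variable. If `a`, `b` in `𝓦 e` are both `O (‖x n‖)`, `e ≥ 1`, then `a b` is in `𝓦 (e + 1)`.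
By induction on `e ≥ 1` the entries of `v n` and of `x (n + 1)` (as sequences in `n`) are in `𝓦 e`:
`Q (x n, x (n + 1))` is in `𝓦 (e + 1)`, so is `W (n + 1)`, so is `v (n + 1) = P (W (n + 1)) + O (‖x (n + 1)‖ ^ e)`,
as `‖x (n + 1)‖ ^ e = O (‖x n‖ ^ (2 e))`, so are `x (n + 1)` and `v n = Θ (x (n + 1) - Q)`.
(3) Hence for every polynomial `P` the value `P (x n)` is non-zero for large `n` or
`O (‖x n‖ ^ e)` for all `e`. -/
theorem curve_dichotomy (T : Matrix ι ι K) (Q : ι → MvPolynomial (ι ⊕ ι) K)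
    (hQ : ∀ i, Q i ∈ Sq (ι ⊕ ι) K) (x : ℕ → ι → K)
    (hrec : ∀ n, x (n + 1) = T *ᵥ x n + fun i => MvPolynomial.eval (Sum.elim (x n) (x (n + 1))) (Q i))
    (hx0 : ∀ n, x n ≠ 0) {w : K} (hw0 : w ≠ 0) (hw : ‖w‖ < 1)
    (hflat : ∀ i, Flat (fun n => ‖w‖ ^ n) (fun n => x n i)) (Θ : Matrix ι ι K) (κ ℓ : ι → K)
    (h1 : ℓ ⬝ᵥ κ = 1) (h2 : ℓ ᵥ* T = 0) (h3 : T *ᵥ κ = 0) (h4 : Θ * T = 1 - vecMulVec κ ℓ)
    (P : MvPolynomial ι K) :
    (∃ n₀, ∀ n, n₀ ≤ n → MvPolynomial.eval (x n) P ≠ 0) ∨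
      Flat (fun n => ‖x n‖) (fun n => MvPolynomial.eval (x n) P) := by
  have hx := sa_tendsto x hw hflat
  obtain ⟨hb1, hb2⟩ := sa_quad T Q hQ x hrec hx
  have hv2 := sa_curve_one T Q hQ x hrec hx0 hw hflat Θ κ ℓ h2 h4
  obtain ⟨g, hgdef⟩ : ∃ g : ℕ → ℝ, g = fun n => ‖x n‖ := ⟨_, rfl⟩
  have hgn : ∀ n, g n = ‖x n‖ := fun n => by rw [hgdef]
  have hg : Tendsto g atTop (𝓝 0) := by rw [hgdef]; simpa using hx.norm
  have hg0 : ∀ n, 0 < g n := fun n => by rw [hgn]; exact norm_pos_iff.2 (hx0 n)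
  obtain ⟨q, hq⟩ : ∃ q : ℕ → ι → K,
      q = fun n => fun i => MvPolynomial.eval (Sum.elim (x n) (x (n + 1))) (Q i) := ⟨_, rfl⟩
  have hr : ∀ n, x (n + 1) = T *ᵥ x n + q n := fun n => by rw [hq]; exact hrec n
  rw [← hq] at hb2
  simp only [← hgn] at hv2 hb1 hb2
  rw [show (fun n => g n) = g from rfl] at hb1
  obtain ⟨W, hWdef⟩ : ∃ W : ℕ → K, W = fun n => ℓ ⬝ᵥ x n := ⟨_, rfl⟩
  have hWn : ∀ n, ℓ ⬝ᵥ x n = W n := fun n => by rw [hWdef]
  simp only [hWn] at hv2
  obtain ⟨v, hvdef⟩ : ∃ v : ℕ → ι → K, v = fun n => x n - W n • κ := ⟨_, rfl⟩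
  rw [← hvdef] at hv2
  have hxv : ∀ n, x n = W n • κ + v n := fun n => by rw [hvdef]; simp
  have hvm : ∀ u : ι → K, vecMulVec κ ℓ *ᵥ u = (ℓ ⬝ᵥ u) • κ := by
    intro u
    rw [Matrix.vecMulVec_mulVec]
    ext i
    simp [mul_comm]
  have hv : ∀ n, v n = Θ *ᵥ (x (n + 1) - q n) := by
    intro n
    have h5 : x (n + 1) - q n = T *ᵥ x n := by rw [hr]; abel
    rw [h5, Matrix.mulVec_mulVec, h4, Matrix.sub_mulVec, Matrix.one_mulVec, hvm, hvdef, hWn]
  have hWq : ∀ n, W (n + 1) = ℓ ⬝ᵥ q n := by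
    intro n
    rw [← hWn, hr, dotProduct_add, Matrix.dotProduct_mulVec, h2, zero_dotProduct,
      zero_add]
  have hx1 : ∀ n, x (n + 1) = T *ᵥ v n + q n := by
    intro n
    rw [hr, hvdef]
    simp only [Matrix.mulVec_sub, Matrix.mulVec_smul, h3, smul_zero, sub_zero]
  -- sizes
  have h0 : x =O[atTop] g := by
    rw [hgdef]
    exact Asymptotics.isBigO_norm_right.2 (Asymptotics.isBigO_refl _ _)
  obtain ⟨CT, hCT0, hCT⟩ := sa_mulVec_le T
  have hTv : (fun n => T *ᵥ v n) =O[atTop] fun n => g n ^ 2 :=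
    (Asymptotics.IsBigO.of_bound CT (Eventually.of_forall fun n => hCT (v n))).trans hv2
  have hx2 : (fun n => x (n + 1)) =O[atTop] fun n => g n ^ 2 :=
    (hTv.add hb2).congr_left fun n => (hx1 n).symm
  have hWg : W =O[atTop] g := by
    have h5 : (fun n => ∑ i, ℓ i * x n i) =O[atTop] g :=
      Asymptotics.IsBigO.fun_sum fun i _ => (Asymptotics.isBigO_pi.1 h0 i).const_mul_left (ℓ i)
    rw [hWdef]
    exact h5
  have hW : Tendsto W atTop (𝓝 0) := hWg.trans_tendsto hg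
  have hgW : g =O[atTop] W := by
    obtain ⟨C, hC0, hC⟩ := hv2.exists_pos
    have hsm : ∀ᶠ n in atTop, C * g n < 1 := by
      have h1 : Tendsto (fun n => C * g n) atTop (𝓝 0) := by simpa using hg.const_mul C
      exact h1.eventually_lt_const one_pos
    refine Asymptotics.IsBigO.of_bound ‖κ‖ ?_
    filter_upwards [hC.bound, hsm] with n h5 h6
    have hgpos := hg0 n
    rw [Real.norm_of_nonneg (by positivity)] at h5
    rw [Real.norm_of_nonneg hgpos.le]
    have h7 : ‖v n‖ < g n := by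
      refine lt_of_le_of_lt h5 ?_
      rw [pow_two, ← mul_assoc]
      exact mul_lt_of_lt_one_left hgpos h6
    have h8 : g n ≤ max ‖W n • κ‖ ‖v n‖ := by
      rw [hgn]
      conv_lhs => rw [hxv n]
      exact IsUltrametricDist.norm_add_le_max _ _
    rcases le_max_iff.1 h8 with h | h
    · rwa [norm_smul, mul_comm] at h
    · exact absurd h (not_le.2 h7)
  -- the induction
  have ind : ∀ e, 1 ≤ e → (∀ i, SaW W g e fun n => v n i) ∧ (∀ i, SaW W g e fun n => x (n + 1) i) := by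
    intro e he
    induction e, he using Nat.le_induction with
    | base =>
      have h12 : (fun n => g n ^ 2) =O[atTop] fun n => g n ^ 1 := sa_pow_mono hg (by norm_num)
      exact ⟨fun i => SaW.of_bigO ((Asymptotics.isBigO_pi.1 hv2 i).trans h12),
        fun i => SaW.of_bigO ((Asymptotics.isBigO_pi.1 hx2 i).trans h12)⟩
    | succ e he ih =>
      obtain ⟨ihv, ihx⟩ := ih
      have hxe : ∀ i, SaW W g e fun n => x n i := by
        intro i
        have h5 := ((SaW.self W g e).const_mul (κ i)).add (ihv i)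
        refine h5.congr fun n => ?_
        have h6 := congrFun (hxv n) i
        simp only [Pi.add_apply, Pi.smul_apply, smul_eq_mul] at h6
        rw [h6]
        ring
      have hqe : ∀ i, SaW W g (e + 1) fun n => q n i := by
        intro i
        have h5 := (sa_sq (p := Q i) he hW hg (y := fun n => Sum.elim (x n) (x (n + 1))) ?_ ?_ (hQ i)).1
        · rw [hq]
          exact h5
        · rintro (s | s)
          · exact hxe s
          · exact ihx s
        · rintro (s | s)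
          · exact Asymptotics.isBigO_pi.1 h0 s
          · exact Asymptotics.isBigO_pi.1 hb1 s
      have hWe : SaW W g (e + 1) fun n => W (n + 1) := by
        have h5 : SaW W g (e + 1) fun n => ∑ i, ℓ i * q n i :=
          SaW.sum Finset.univ fun i _ => (hqe i).const_mul (ℓ i)
        refine h5.congr fun n => ?_
        rw [hWq n]
        rfl
      have hve : ∀ i, SaW W g (e + 1) fun n => v (n + 1) i := by
        intro i
        obtain ⟨R, hR⟩ := ihv i
        have h5 : (fun n => v (n + 1) i - R.eval (W (n + 1))) =O[atTop] fun n => g (n + 1) ^ e :=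
          hR.comp_tendsto (tendsto_add_atTop_nat 1)
        have h6 : (fun n => g (n + 1)) =O[atTop] fun n => g n ^ 2 := by
          rw [hgdef]
          rw [hgdef] at hx2
          exact hx2.norm_left
        have h7 : (fun n => g (n + 1) ^ e) =O[atTop] fun n => g n ^ (e + 1) := by
          refine (h6.pow e).trans ?_
          have h8 : (fun n => g n ^ (2 * e)) =O[atTop] fun n => g n ^ (e + 1) :=
            sa_pow_mono hg (by omega)
          exact h8.congr_left fun n => by rw [pow_mul]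
        have h8 : SaW W g (e + 1) fun n => v (n + 1) i - R.eval (W (n + 1)) :=
          SaW.of_bigO (h5.trans h7)
        refine (h8.add (hWe.eval hW hg R)).congr fun n => ?_
        ring
      have hxe' : ∀ i, SaW W g (e + 1) fun n => x (n + 1) i := by
        intro i
        have h5 := (hWe.const_mul (κ i)).add (hve i)
        refine h5.congr fun n => ?_
        have h6 := congrFun (hxv (n + 1)) i
        simp only [Pi.add_apply, Pi.smul_apply, smul_eq_mul] at h6
        rw [h6]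
        ring
      refine ⟨fun i => ?_, hxe'⟩
      have h4' : ∀ i, SaW W g (e + 1) fun n => (x (n + 1) - q n) i := by
        intro i
        refine ((hxe' i).add ((hqe i).const_mul (-1))).congr fun n => ?_
        simp only [Pi.sub_apply]
        ring
      have h5 := sa_big_mulVec Θ h4' i
      refine h5.congr fun n => ?_
      rw [hv n]
  have hxe : ∀ e i, SaW W g e fun n => x n i := by
    intro e i
    obtain ⟨R, hR⟩ : SaW W g (e + 1) fun n => x n i := by
      have h5 := ((SaW.self W g (e + 1)).const_mul (κ i)).add ((ind (e + 1) (by omega)).1 i)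
      refine h5.congr fun n => ?_
      have h6 := congrFun (hxv n) i
      simp only [Pi.add_apply, Pi.smul_apply, smul_eq_mul] at h6
      rw [h6]
      ring
    exact ⟨R, hR.trans (sa_pow_mono hg (Nat.le_succ e))⟩
  have hfin := sa_final hg hg0 hW hWg hgW fun e => SaW.mvEval hW hg (hxe e) P
  rw [hgdef] at hfin
  exact hfin

end Pool.Agent.Helper33.SS

end

section

/-!
# The Nullstellensatz argument (SS-16)
-/

set_option autoImplicit false

namespace Pool.Agent.Helper33.SS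

open MvPolynomial Filter Topology

section aux

variable {K : Type*} [NormedField K]

theorem Flat.add {γ : ℕ → ℝ} {a b : ℕ → K} (ha : Flat γ a) (hb : Flat γ b) :
    Flat γ (fun n => a n + b n) := by
  intro e
  obtain ⟨C, hC⟩ := ha e
  obtain ⟨D, hD⟩ := hb e
  refine ⟨C + D, fun n => ?_⟩
  calc ‖a n + b n‖ ≤ ‖a n‖ + ‖b n‖ := norm_add_le _ _
    _ ≤ C * γ n ^ e + D * γ n ^ e := add_le_add (hC n) (hD n)
    _ = (C + D) * γ n ^ e := by ring

theorem Flat.bmul {γ : ℕ → ℝ} {a b : ℕ → K} {B : ℝ} (hb : ∀ n, ‖b n‖ ≤ B) (ha : Flat γ a) :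
    Flat γ (fun n => b n * a n) := by
  intro e
  obtain ⟨C, hC⟩ := ha e
  refine ⟨B * C, fun n => ?_⟩
  have hB : 0 ≤ B := le_trans (norm_nonneg _) (hb 0)
  calc ‖b n * a n‖ = ‖b n‖ * ‖a n‖ := norm_mul _ _
    _ ≤ B * (C * γ n ^ e) := mul_le_mul (hb n) (hC n) (norm_nonneg _) hB
    _ = B * C * γ n ^ e := by ring

theorem Flat.shift {γ : ℕ → ℝ} (hγ : ∀ n, 0 < γ n) (hγ1 : ∃ C : ℝ, ∀ n, γ (n + 1) ≤ C * γ n)
    {a : ℕ → K} (ha : Flat γ a) : Flat γ (fun n => a (n + 1)) := by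
  intro e
  obtain ⟨C, hC⟩ := ha e
  obtain ⟨D, hD⟩ := hγ1
  refine ⟨|C| * |D| ^ e, fun n => ?_⟩
  calc ‖a (n + 1)‖ ≤ C * γ (n + 1) ^ e := hC _
    _ ≤ |C| * γ (n + 1) ^ e :=
        mul_le_mul_of_nonneg_right (le_abs_self _) (pow_nonneg (hγ _).le _)
    _ ≤ |C| * (|D| * γ n) ^ e := by
        refine mul_le_mul_of_nonneg_left (pow_le_pow_left₀ (hγ _).le ?_ _) (abs_nonneg _)
        exact (hD n).trans (mul_le_mul_of_nonneg_right (le_abs_self _) (hγ n).le)
    _ = |C| * |D| ^ e * γ n ^ e := by rw [mul_pow]; ring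

/-- Flatness may be checked for large `n`. -/
theorem flat_of_eventually {γ : ℕ → ℝ} (hγ : ∀ n, 0 < γ n) {a : ℕ → K} {N : ℕ}
    (h : ∀ e : ℕ, ∃ C : ℝ, ∀ n, N ≤ n → ‖a n‖ ≤ C * γ n ^ e) : Flat γ a := by
  intro e
  obtain ⟨C, hC⟩ := h e
  refine ⟨|C| + ∑ m ∈ Finset.range N, ‖a m‖ / γ m ^ e, fun n => ?_⟩
  have hnn : ∀ m ∈ Finset.range N, 0 ≤ ‖a m‖ / γ m ^ e := fun m _ =>
    div_nonneg (norm_nonneg _) (pow_nonneg (hγ m).le _)
  have hp : 0 < γ n ^ e := pow_pos (hγ n) e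
  by_cases hn : N ≤ n
  · calc ‖a n‖ ≤ C * γ n ^ e := hC n hn
      _ ≤ (|C| + ∑ m ∈ Finset.range N, ‖a m‖ / γ m ^ e) * γ n ^ e := by
          refine mul_le_mul_of_nonneg_right ?_ hp.le
          have := Finset.sum_nonneg hnn
          have := le_abs_self C
          linarith
  · have hm : n ∈ Finset.range N := Finset.mem_range.2 (by omega)
    have h1 := Finset.single_le_sum hnn hm
    calc ‖a n‖ = ‖a n‖ / γ n ^ e * γ n ^ e := by field_simp
      _ ≤ (|C| + ∑ m ∈ Finset.range N, ‖a m‖ / γ m ^ e) * γ n ^ e := by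
          refine mul_le_mul_of_nonneg_right ?_ hp.le
          have := abs_nonneg C
          linarith

end aux

section aux2

variable {K : Type*} [NormedField K] {σ : Type*}

theorem eval_smul_homog {P : MvPolynomial σ K} {d : ℕ} (hP : P.IsHomogeneous d) (μ : K)
    (v : σ → K) : eval (μ • v) P = μ ^ d * eval v P := by
  rw [eval_eq, eval_eq, Finset.mul_sum]
  refine Finset.sum_congr rfl fun m hm => ?_
  have h1 : m.degree = d := by
    have h0 := hP (mem_support_iff.mp hm)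
    rw [Finsupp.degree_eq_weight_one (R := ℕ)]
    exact h0
  have h2 : (∏ i ∈ m.support, μ ^ m i) = μ ^ d := by
    rw [Finset.prod_pow_eq_pow_sum, ← h1]
    rfl
  simp only [Pi.smul_apply, smul_eq_mul, mul_pow]
  rw [Finset.prod_mul_distrib, h2]
  ring

theorem eval_comp (G : σ → MvPolynomial σ K) (z : σ → K) (h : MvPolynomial σ K) :
    eval z (aeval G h) = eval (ev G z) h := by
  induction h using MvPolynomial.induction_on with
  | C a => simp
  | add p q hp hq => rw [map_add, map_add, map_add, hp, hq]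
  | mul_X p i hp => rw [map_mul, map_mul, map_mul, hp, aeval_X, eval_X]; rfl

theorem eval_bdd (g : MvPolynomial σ K) {y : ℕ → σ → K}
    (hy : ∀ i, ∃ B : ℝ, ∀ n, ‖y n i‖ ≤ B) : ∃ B : ℝ, ∀ n, ‖eval (y n) g‖ ≤ B := by
  induction g using MvPolynomial.induction_on with
  | C a => exact ⟨‖a‖, fun n => by rw [eval_C]⟩
  | add p q hp hq =>
    obtain ⟨B, hB⟩ := hp
    obtain ⟨C, hC⟩ := hq
    exact ⟨B + C, fun n => by rw [map_add]; exact (norm_add_le _ _).trans (add_le_add (hB n) (hC n))⟩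
  | mul_X p i hp =>
    obtain ⟨B, hB⟩ := hp
    obtain ⟨C, hC⟩ := hy i
    refine ⟨B * C, fun n => ?_⟩
    rw [map_mul, eval_X, norm_mul]
    exact mul_le_mul (hB n) (hC n) (norm_nonneg _) (le_trans (norm_nonneg _) (hB n))

end aux2

/-- Let `y (n + 1) = G (y n)`, `y n = μ n • (β + x n)`, `‖μ n‖ = 1`, `x n → 0`, `β ∉ Z(E)`. Suppose that
outside `Z(E)` the set of points whose whole `G`-orbit lies in `Z(V)` is a finite union of lines,
and that `g (y n)` is flat for all `g` in `V`. Then `x n` is flat. Proof: the ideal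
`J = {h | n ↦ h (y n) is flat}` is stable under composition with `G`, so its zeros lie in `{0}`, `Z(E)`
or the lines; `P = (X i - β i X i₀) * ∏ L_b * e` with linear forms `L_b` vanishing at those `b` in `B`
which are not proportional to `β` and not at `β`, and `e` in `E` with `e (β) ≠ 0`, vanishes there, so a
power of `P` lies in `J` (`MvPolynomial.vanishingIdeal_zeroLocus_eq_radical`), and
`P (y n) = x n i * (factors bounded below)`. -/
theorem nul {K : Type*} [NormedField K] [IsUltrametricDist K] [IsAlgClosed K] {σ : Type*}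
    [Fintype σ] [DecidableEq σ] (G : σ → MvPolynomial σ K) (V E : Set (MvPolynomial σ K))
    (hE : ∀ g ∈ E, ∃ e : ℕ, g.IsHomogeneous e) (B : Finset (σ → K))
    (hB : ∀ z : σ → K, z ≠ 0 → (∀ n, InZ V ((ev G)^[n] z)) → ¬ InZ E z → ∃ b ∈ B, ∃ c : K, z = c • b)
    (y : ℕ → σ → K) (hy : ∀ n, y (n + 1) = ev G (y n)) (β : σ → K) (i₀ : σ) (hβ : β i₀ = 1)
    (hβE : ¬ InZ E β) (μ : ℕ → K) (hμ : ∀ n, ‖μ n‖ = 1) (x : ℕ → σ → K) (hx : ∀ n, x n i₀ = 0)
    (hyx : ∀ n, y n = μ n • (β + x n)) (hx0 : Tendsto x atTop (𝓝 0)) (γ : ℕ → ℝ)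
    (hγ : ∀ n, 0 < γ n) (hγ1 : ∃ C : ℝ, ∀ n, γ (n + 1) ≤ C * γ n)
    (hV : ∀ g ∈ V, Flat γ (fun n => eval (y n) g)) (i : σ) : Flat γ (fun n => x n i) := by
  classical
  -- the orbit is bounded
  have hbdx : ∀ j, ∃ C : ℝ, ∀ n, ‖x n j‖ ≤ C := by
    intro j
    have h1 : Tendsto (fun n => x n j) atTop (𝓝 0) := (tendsto_pi_nhds.1 hx0) j
    obtain ⟨C, hC⟩ := h1.norm.bddAbove_range
    exact ⟨C, fun n => hC ⟨n, rfl⟩⟩
  have hbdy : ∀ j, ∃ C : ℝ, ∀ n, ‖y n j‖ ≤ C := by
    intro j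
    obtain ⟨C, hC⟩ := hbdx j
    refine ⟨‖β j‖ + C, fun n => ?_⟩
    rw [hyx n, Pi.smul_apply, smul_eq_mul, norm_mul, hμ, one_mul, Pi.add_apply]
    exact (norm_add_le _ _).trans (add_le_add le_rfl (hC n))
  -- the ideal
  let J : Ideal (MvPolynomial σ K) :=
    { carrier := {h | Flat γ (fun n => eval (y n) h)}
      zero_mem' := by
        intro e
        exact ⟨0, fun n => by simp⟩
      add_mem' := by
        intro a b ha hb
        have := Flat.add ha hb
        simpa only [Set.mem_ofPred_eq, map_add] using this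
      smul_mem' := by
        intro c a ha
        obtain ⟨C, hC⟩ := eval_bdd c hbdy
        have := Flat.bmul hC ha
        simpa only [Set.mem_ofPred_eq, smul_eq_mul, map_mul] using this }
  have memJ : ∀ h, h ∈ J ↔ Flat γ (fun n => eval (y n) h) := fun h => Iff.rfl
  have hVJ : ∀ g ∈ V, g ∈ J := hV
  have hJG : ∀ h ∈ J, aeval G h ∈ J := by
    intro h hh
    rw [memJ] at hh ⊢
    have := Flat.shift hγ hγ1 hh
    refine fun e => ?_
    obtain ⟨C, hC⟩ := this e
    refine ⟨C, fun n => ?_⟩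
    show ‖eval (y n) (aeval G h)‖ ≤ _
    rw [eval_comp, ← hy n]
    exact hC n
  -- the zeros of the ideal
  have hZ : ∀ z : σ → K, (∀ h ∈ J, eval z h = 0) → z = 0 ∨ InZ E z ∨ ∃ b ∈ B, ∃ c : K, z = c • b := by
    intro z hz
    by_cases h0 : z = 0
    · exact Or.inl h0
    · by_cases hEz : InZ E z
      · exact Or.inr (Or.inl hEz)
      · refine Or.inr (Or.inr (hB z h0 ?_ hEz))
        have key : ∀ n (h : MvPolynomial σ K), h ∈ J → eval ((ev G)^[n] z) h = 0 := by
          intro n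
          induction n with
          | zero => exact fun h hh => hz h hh
          | succ n ih =>
            intro h hh
            rw [Function.iterate_succ_apply', ← eval_comp]
            exact ih _ (hJG h hh)
        exact fun n g hg => key n g (hVJ g hg)
  -- the polynomial
  obtain ⟨e, heE, heβ⟩ : ∃ e ∈ E, eval β e ≠ 0 := by
    by_contra hcon
    push Not at hcon
    exact hβE hcon
  obtain ⟨de, hde⟩ := hE e heE
  let L : (σ → K) → MvPolynomial σ K := fun b =>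
    if h : ∃ j, b i₀ * β j - b j ≠ 0 then C (b i₀) * X h.choose - C (b h.choose) * X i₀ else 1
  have hLhom : ∀ b, ∃ d, (L b).IsHomogeneous d := by
    intro b
    by_cases h : ∃ j, b i₀ * β j - b j ≠ 0
    · refine ⟨1, ?_⟩
      simp only [L, dif_pos h]
      have h1 : ∀ (a : K) (j : σ), (C a * X j : MvPolynomial σ K).IsHomogeneous 1 := by
        intro a j
        have := (isHomogeneous_C σ a).mul (isHomogeneous_X K j)
        simpa using this
      exact (h1 _ _).sub (h1 _ _)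
    · refine ⟨0, ?_⟩
      simp only [L, dif_neg h]
      exact isHomogeneous_one σ K
  have hLβ : ∀ b, eval β (L b) ≠ 0 := by
    intro b
    by_cases h : ∃ j, b i₀ * β j - b j ≠ 0
    · simp only [L, dif_pos h, map_sub, map_mul, eval_C, eval_X, hβ, mul_one]
      exact h.choose_spec
    · simp only [L, dif_neg h, map_one]
      exact one_ne_zero
  let Q : MvPolynomial σ K := (∏ b ∈ B, L b) * e
  have hQhom : ∃ d, Q.IsHomogeneous d := by
    choose dL hdL using hLhom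
    exact ⟨_, (IsHomogeneous.prod B L dL fun b _ => hdL b).mul hde⟩
  obtain ⟨dQ, hdQ⟩ := hQhom
  have hQβ : eval β Q ≠ 0 := by
    simp only [Q, map_mul, map_prod]
    exact mul_ne_zero (Finset.prod_ne_zero_iff.2 fun b _ => hLβ b) heβ
  let P : MvPolynomial σ K := (X i - C (β i) * X i₀) * Q
  have hPz : ∀ z : σ → K, (∀ h ∈ J, eval z h = 0) → eval z P = 0 := by
    intro z hz
    rcases hZ z hz with rfl | hEz | ⟨b, hb, c, rfl⟩
    · simp [P]
    · have : eval z Q = 0 := by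
        simp only [Q, map_mul]
        rw [hEz e heE, mul_zero]
      simp only [P, map_mul, this, mul_zero]
    · by_cases h : ∃ j, b i₀ * β j - b j ≠ 0
      · have h1 : eval (c • b) (L b) = 0 := by
          simp only [L, dif_pos h, map_sub, map_mul, eval_C, eval_X, Pi.smul_apply, smul_eq_mul]
          ring
        have h2 : eval (c • b) (∏ b ∈ B, L b) = 0 := by
          rw [map_prod]
          exact Finset.prod_eq_zero hb h1
        simp only [P, Q, map_mul, h2, zero_mul, mul_zero]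
      · push Not at h
        have h1 : eval (c • b) (X i - C (β i) * X i₀ : MvPolynomial σ K) = 0 := by
          simp only [map_sub, map_mul, eval_C, eval_X, Pi.smul_apply, smul_eq_mul]
          have := h i
          linear_combination (-c) * this
        simp only [P, map_mul] at h1 ⊢
        rw [h1, zero_mul]
  have hPrad : P ∈ J.radical := by
    rw [← vanishingIdeal_zeroLocus_eq_radical (K := K) J]
    intro z hz
    rw [aeval_eq_eval]
    refine hPz z fun h hh => ?_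
    have := hz h hh
    rwa [aeval_eq_eval] at this
  obtain ⟨k, hk⟩ := hPrad
  have hk' : P ^ (k + 1) ∈ J := by
    rw [pow_succ]
    exact J.mul_mem_right _ hk
  rw [memJ] at hk'
  -- lower bound of the factor
  have hQlow : ∃ δ : ℝ, 0 < δ ∧ ∃ N : ℕ, ∀ n, N ≤ n → δ ≤ ‖eval (y n) Q‖ := by
    have h1 : Tendsto (fun n => eval (β + x n) Q) atTop (𝓝 (eval β Q)) := by
      have hc : Continuous fun v : σ → K => eval v Q := MvPolynomial.continuous_eval Q
      have h2 : Tendsto (fun n => β + x n) atTop (𝓝 (β + 0)) := tendsto_const_nhds.add hx0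
      rw [add_zero] at h2
      exact (hc.tendsto β).comp h2
    have h3 := h1.norm
    have h4 : 0 < ‖eval β Q‖ := norm_pos_iff.2 hQβ
    have h5 : ∀ᶠ n in atTop, ‖eval β Q‖ / 2 < ‖eval (β + x n) Q‖ :=
      h3.eventually (lt_mem_nhds (by linarith))
    obtain ⟨N, hN⟩ := eventually_atTop.1 h5
    refine ⟨‖eval β Q‖ / 2, by linarith, N, fun n hn => ?_⟩
    rw [hyx n, eval_smul_homog hdQ, norm_mul, norm_pow, hμ, one_pow, one_mul]
    exact (hN n hn).le
  obtain ⟨δ, hδ, N, hN⟩ := hQlow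
  have hPy : ∀ n, ‖eval (y n) P‖ = ‖x n i‖ * ‖eval (y n) Q‖ := by
    intro n
    have h1 : eval (y n) (X i - C (β i) * X i₀ : MvPolynomial σ K) = μ n * x n i := by
      simp only [map_sub, map_mul, eval_C, eval_X, hyx n, Pi.smul_apply, smul_eq_mul,
        Pi.add_apply, hβ, hx n]
      ring
    simp only [P]
    rw [map_mul, h1, norm_mul, norm_mul, hμ, one_mul]
  refine flat_of_eventually hγ (N := N) fun e' => ?_
  obtain ⟨C, hC⟩ := hk' (e' * (k + 1))
  refine ⟨max 1 C / δ, fun n hn => ?_⟩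
  have h1 : ‖eval (y n) (P ^ (k + 1))‖ ≤ C * γ n ^ (e' * (k + 1)) := hC n
  rw [map_pow, norm_pow, hPy n, pow_mul] at h1
  have hge : 0 ≤ γ n ^ e' := pow_nonneg (hγ n).le _
  have hm1 : (1 : ℝ) ≤ max 1 C := le_max_left _ _
  have h2 : (‖x n i‖ * ‖eval (y n) Q‖) ^ (k + 1) ≤ (max 1 C * γ n ^ e') ^ (k + 1) := by
    refine h1.trans ?_
    rw [mul_pow]
    refine mul_le_mul_of_nonneg_right ?_ (pow_nonneg hge _)
    exact (le_max_right 1 C).trans (le_self_pow₀ hm1 (Nat.succ_ne_zero k))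
  have h3 : ‖x n i‖ * ‖eval (y n) Q‖ ≤ max 1 C * γ n ^ e' :=
    le_of_pow_le_pow_left₀ (Nat.succ_ne_zero k) (by positivity) h2
  have h4 : ‖x n i‖ * δ ≤ max 1 C * γ n ^ e' :=
    (mul_le_mul_of_nonneg_left (hN n hn) (norm_nonneg _)).trans h3
  rw [div_mul_eq_mul_div, le_div_iff₀ hδ]
  exact h4

end Pool.Agent.Helper33.SS

end
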