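import Mathlib.LinearAlgebra.CrossProduct
import Pool.Agent.Helper29.MG2.T06
import Pool.Agent.Helper29.MG2.T01
import Pool.Agent.Helper29.MG2.T07

section

namespace Pool.Agent.Helper16
end Pool.Agent.Helper16
namespace Pool.Agent.Helper36
end Pool.Agent.Helper36

/-!
# Orbits of points of the projective plane over a function field: definitions

`k` is an algebraically closed field, `K` a function field of one variable over `k`,
`F : Fin 3 → k[X_0, X_1, X_2]` an endomorphism of the projective plane. Points are nonzero vectors.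
-/

set_option autoImplicit false

namespace Pool.Agent.Helper30.TP

open MvPolynomial
open Pool.Agent.Helper16 (Place IsFunctionField)
open Pool.Agent.Helper36 (step iter)

/-- `F` defines an endomorphism of degree `d ≥ 2` of the projective plane over `k` (meant for
algebraically closed `k`). -/
structure IsEndo {k : Type} [Field k] (d : ℕ) (F : Fin 3 → MvPolynomial (Fin 3) k) : Prop where
  two_le : 2 ≤ d
  hom : ∀ i, (F i).IsHomogeneous d
  nz : ∀ x : Fin 3 → k, (∀ i, eval x (F i) = 0) → x = 0

/-- Proportional vectors. -/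
def PEq {L : Type} [Field L] (x y : Fin 3 → L) : Prop := ∃ c : L, c ≠ 0 ∧ y = c • x

/-- The vector is proportional to a vector with entries in `k`. -/
def IsConst (k : Type) {L : Type} [Field k] [Field L] [Algebra k L] (x : Fin 3 → L) : Prop :=
  ∃ (z : Fin 3 → k) (c : L), c ≠ 0 ∧ x = fun i => c * algebraMap k L (z i)

section

variable {k K : Type} [Field k] [Field K] [Algebra k K]

/-- The maximum norm of a vector at a place. -/
noncomputable def nrm (b : Place k K) (x : Fin 3 → K) : WithZero (Multiplicative ℤ) :=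
  Finset.univ.sup fun i => b.val (x i)

/-- The maximum norm of a polynomial at a place. -/
noncomputable def gs (b : Place k K) (P : MvPolynomial (Fin 3) K) : WithZero (Multiplicative ℤ) :=
  P.support.sup fun m => b.val (P.coeff m)

/-- The point `x` specialises at `b` to the point `z`. -/
def Red (b : Place k K) (x : Fin 3 → K) (z : Fin 3 → k) : Prop :=
  z ≠ 0 ∧ ∃ c : K, c ≠ 0 ∧ ∀ i, b.val (c * x i - algebraMap k K (z i)) < 1

/-- The height of a point. -/
noncomputable def ht (k : Type) {K : Type} [Field k] [Field K] [Algebra k K] (x : Fin 3 → K) : ℤ :=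
  ∑ᶠ b : Place k K, WithZero.log (nrm b x)

/-- The height of a polynomial. -/
noncomputable def hf (k : Type) {K : Type} [Field k] [Field K] [Algebra k K]
    (P : MvPolynomial (Fin 3) K) : ℤ :=
  ∑ᶠ b : Place k K, WithZero.log (gs b P)

/-- The composition of a polynomial over `K` with the map `F`. -/
noncomputable def comp (F : Fin 3 → MvPolynomial (Fin 3) k) (P : MvPolynomial (Fin 3) K) :
    MvPolynomial (Fin 3) K :=
  aeval (fun i => map (algebraMap k K) (F i)) P

/-- Application of a linear form to the coefficients. -/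
noncomputable def lam (ℓ : K →ₗ[k] k) (g : MvPolynomial (Fin 3) K) : MvPolynomial (Fin 3) k :=
  ∑ m ∈ g.support, monomial m (ℓ (g.coeff m))

/-- A free ultrafilter on the natural numbers. -/
def Free (U : Ultrafilter ℕ) : Prop := ∀ m : ℕ, ∀ᶠ n in (U : Filter ℕ), m ≤ n

/-- The form `g` generates the ideal of the forms which vanish at `x n` for `U`-many `n`, over `K`
and over every extension field of `K`; it is irreducible over all of them. -/
structure Gen (x : ℕ → Fin 3 → K) (U : Ultrafilter ℕ) (g : MvPolynomial (Fin 3) K) (D : ℕ) :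
    Prop where
  hom : g.IsHomogeneous D
  pos : 0 < D
  van : ∀ᶠ n in (U : Filter ℕ), eval (x n) g = 0
  dvd : ∀ (K' : Type) [Field K'] [Algebra K K'] (P : MvPolynomial (Fin 3) K') (e : ℕ),
    P.IsHomogeneous e → (∀ᶠ n in (U : Filter ℕ), eval (fun i => algebraMap K K' (x n i)) P = 0) →
      map (algebraMap K K') g ∣ P
  irr : ∀ (K' : Type) [Field K'] [Algebra K K'], Irreducible (map (algebraMap K K') g)

end

end Pool.Agent.Helper30.TP

end

section

namespace Pool.Agent.Helper16
end Pool.Agent.Helper16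
namespace Pool.Agent.Helper36
end Pool.Agent.Helper36

/-!
# Basic facts
-/

set_option autoImplicit false

namespace Pool.Agent.Helper30.TP

open MvPolynomial
open Pool.Agent.Helper16 (Place IsFunctionField)
open Pool.Agent.Helper36 (step iter iter_zero iter_succ iter_succ' iter_add iter_map aeval_smul_homogeneous exists_nullstellensatz)

section

variable {k L : Type} [Field k] [Field L] [Algebra k L]

theorem step_ne_zero [IsAlgClosed k] {d : ℕ} {F : Fin 3 → MvPolynomial (Fin 3) k}
    (hF : IsEndo d F) {x : Fin 3 → L} (hx : x ≠ 0) : step F x ≠ 0 := by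
  intro h
  obtain ⟨M, q, -, hq⟩ := exists_nullstellensatz (L := k) F hF.hom (by
    intro w hw
    exact hF.nz w fun i => by rw [← hw i]; rfl)
  apply hx
  funext i
  have h1 := congrArg (aeval x) (hq i)
  rw [map_sum, map_pow, aeval_X] at h1
  have h2 : ∀ j, aeval x (F j) = 0 := fun j => congrFun h j
  simp only [map_mul, h2, mul_zero, Finset.sum_const_zero] at h1
  exact eq_zero_of_pow_eq_zero h1.symm

theorem step_smul {d : ℕ} {F : Fin 3 → MvPolynomial (Fin 3) k} (hF : IsEndo d F) (c : L)
    (x : Fin 3 → L) : step F (c • x) = c ^ d • step F x := by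
  funext i
  exact aeval_smul_homogeneous (hF.hom i) c x

theorem iter_smul {d : ℕ} {F : Fin 3 → MvPolynomial (Fin 3) k} (hF : IsEndo d F) (c : L)
    (x : Fin 3 → L) (n : ℕ) : iter F (c • x) n = c ^ d ^ n • iter F x n := by
  induction n with
  | zero => simp [iter_zero]
  | succ n ih => rw [iter_succ, ih, step_smul hF, iter_succ, ← pow_mul, ← pow_succ]

omit [Algebra k L] in
theorem PEq.refl (x : Fin 3 → L) : PEq x x := ⟨1, one_ne_zero, by simp⟩

omit [Algebra k L] in
theorem PEq.symm {x y : Fin 3 → L} (h : PEq x y) : PEq y x := by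
  obtain ⟨c, hc, rfl⟩ := h
  exact ⟨c⁻¹, inv_ne_zero hc, by rw [smul_smul, inv_mul_cancel₀ hc, one_smul]⟩

omit [Algebra k L] in
theorem PEq.trans {x y z : Fin 3 → L} (h : PEq x y) (h' : PEq y z) : PEq x z := by
  obtain ⟨c, hc, rfl⟩ := h
  obtain ⟨e, he, rfl⟩ := h'
  exact ⟨e * c, mul_ne_zero he hc, by rw [smul_smul]⟩

theorem PEq.iter {d : ℕ} {F : Fin 3 → MvPolynomial (Fin 3) k} (hF : IsEndo d F)
    {x y : Fin 3 → L} (h : PEq x y) (n : ℕ) : PEq (iter F x n) (iter F y n) := by
  obtain ⟨c, hc, rfl⟩ := h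
  exact ⟨c ^ d ^ n, pow_ne_zero _ hc, iter_smul hF c x n⟩

theorem eval_smul_hom {P : MvPolynomial (Fin 3) L} {e : ℕ} (hP : P.IsHomogeneous e) (c : L)
    (x : Fin 3 → L) : eval (c • x) P = c ^ e * eval x P := by
  have h := aeval_smul_homogeneous hP c x
  have h1 := congrArg (fun φ => φ P) (coe_aeval_eq_eval (c • x))
  have h2 := congrArg (fun φ => φ P) (coe_aeval_eq_eval x)
  exact h1.symm.trans (h.trans (congrArg (fun a => c ^ e * a) h2))

end

section

variable {k K : Type} [Field k] [Field K] [Algebra k K]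

theorem eval_map_k (P : MvPolynomial (Fin 3) k) (x : Fin 3 → K) :
    eval x (map (algebraMap k K) P) = aeval x P := by
  rw [eval_map]; rfl

end

end Pool.Agent.Helper30.TP

end

section

namespace Pool.Agent.Helper16
end Pool.Agent.Helper16
namespace Pool.Agent.Helper36
end Pool.Agent.Helper36

/-!
# Heights and reduction of points
-/

set_option autoImplicit false

namespace Pool.Agent.Helper30.TP

open MvPolynomial
open Pool.Agent.Helper16 (Place IsFunctionField)
open Pool.Agent.Helper36 (step iter)

theorem exists_residue {k K : Type} [Field k] [IsAlgClosed k] [Field K] [Algebra k K]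
    (hK : IsFunctionField k K) (b : Place k K) (u : K) (hu : b.val u ≤ 1) :
    ∃ c : k, b.val (u - algebraMap k K c) < 1 := by
  haveI := b.finite_resField hK
  obtain ⟨c, hc⟩ := (IsAlgClosed.algebraMap_bijective_of_isIntegral (k := k)
    (K := b.resField)).2 (b.res u)
  refine ⟨c, ?_⟩
  have h1 : u ∈ b.ring := hu
  have h2 : algebraMap k K c ∈ b.ring := b.ring.algebraMap_mem c
  rw [← b.res_eq_zero_iff (sub_mem h1 h2), b.res_sub h1 h2, b.res_algebraMap, hc, sub_self]

theorem deg_eq_one {k K : Type} [Field k] [IsAlgClosed k] [Field K] [Algebra k K]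
    (hK : IsFunctionField k K) (b : Place k K) : b.deg = 1 := by
  haveI := b.finite_resField hK
  have h := IsAlgClosed.algebraMap_bijective_of_isIntegral (k := k) (K := b.resField)
  have e : k ≃ₗ[k] b.resField :=
    LinearEquiv.ofBijective (Algebra.linearMap k b.resField) h
  have := e.finrank_eq
  rw [Module.finrank_self] at this
  exact this.symm

theorem finsum_log {k K : Type} [Field k] [IsAlgClosed k] [Field K] [Algebra k K]
    (hK : IsFunctionField k K) (f : K) (hf : f ≠ 0) :
    (Function.support fun b : Place k K => WithZero.log (b.val f)).Finite ∧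
      ∑ᶠ b : Place k K, WithZero.log (b.val f) = 0 := by
  obtain ⟨S, h1, h2⟩ := hK.product_formula f
  have h3 : Function.support (fun b : Place k K => WithZero.log (b.val f)) ⊆ (S : Set (Place k K)) := by
    intro b hb
    rw [Finset.mem_coe, h1]
    intro h
    apply hb
    have : -WithZero.log (b.val f) = 0 := h
    show WithZero.log (b.val f) = 0
    omega
  refine ⟨S.finite_toSet.subset h3, ?_⟩
  rw [finsum_eq_sum_of_support_subset _ h3]
  have h4 : ∀ v ∈ S, v.ord f * (v.deg : ℤ) = - WithZero.log (v.val f) := by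
    intro v _
    rw [deg_eq_one hK v]
    show -WithZero.log (v.val f) * _ = _
    simp
  rw [Finset.sum_congr rfl h4, Finset.sum_neg_distrib] at h2
  omega

section nrm

variable {k K : Type} [Field k] [Field K] [Algebra k K]

theorem val_le_nrm (b : Place k K) (x : Fin 3 → K) (i : Fin 3) : b.val (x i) ≤ nrm b x :=
  Finset.le_sup (f := fun i => b.val (x i)) (Finset.mem_univ i)

theorem nrm_le {b : Place k K} {x : Fin 3 → K} {a : WithZero (Multiplicative ℤ)}
    (h : ∀ i, b.val (x i) ≤ a) : nrm b x ≤ a :=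
  Finset.sup_le fun i _ => h i

theorem exists_val_eq_nrm (b : Place k K) (x : Fin 3 → K) : ∃ i, b.val (x i) = nrm b x := by
  obtain ⟨i, -, hi⟩ := Finset.exists_mem_eq_sup (Finset.univ : Finset (Fin 3))
    Finset.univ_nonempty (fun i => b.val (x i))
  exact ⟨i, hi.symm⟩

theorem nrm_ne_zero {b : Place k K} {x : Fin 3 → K} (hx : x ≠ 0) : nrm b x ≠ 0 := by
  intro h
  apply hx
  funext i
  have := val_le_nrm b x i
  rw [h, le_zero_iff] at this
  simpa using this

theorem nrm_smul (b : Place k K) (c : K) (x : Fin 3 → K) : nrm b (c • x) = b.val c * nrm b x := by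
  refine le_antisymm (nrm_le fun i => ?_) ?_
  · rw [Pi.smul_apply, smul_eq_mul, map_mul]
    exact mul_le_mul_right (val_le_nrm b x i) _
  · obtain ⟨i, hi⟩ := exists_val_eq_nrm b x
    rw [← hi, ← map_mul]
    exact val_le_nrm b (c • x) i

theorem log_nrm_smul (b : Place k K) {c : K} (hc : c ≠ 0) {x : Fin 3 → K} (hx : x ≠ 0) :
    WithZero.log (nrm b (c • x)) = WithZero.log (b.val c) + WithZero.log (nrm b x) := by
  rw [nrm_smul, WithZero.log_mul (by simpa using hc) (nrm_ne_zero hx)]

end nrm

theorem nrm_support {k K : Type} [Field k] [IsAlgClosed k] [Field K] [Algebra k K]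
    (hK : IsFunctionField k K) (x : Fin 3 → K) (hx : x ≠ 0) :
    (Function.support fun b : Place k K => WithZero.log (nrm b x)).Finite := by
  classical
  have h1 : ∀ i : Fin 3, x i ≠ 0 →
      (Function.support fun b : Place k K => WithZero.log (b.val (x i))).Finite :=
    fun i hi => (finsum_log hK (x i) hi).1
  have h2 : (⋃ i ∈ (Finset.univ.filter fun i => x i ≠ 0),
      Function.support fun b : Place k K => WithZero.log (b.val (x i))).Finite := by
    refine Set.Finite.biUnion (Finset.finite_toSet _) fun i hi => h1 i ?_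
    simpa using hi
  refine h2.subset ?_
  intro b hb
  by_contra h3
  apply hb
  obtain ⟨i, hi⟩ := exists_val_eq_nrm b x
  show WithZero.log (nrm b x) = 0
  by_contra h4
  apply h3
  simp only [Finset.mem_filter, Finset.mem_univ, true_and, Set.mem_iUnion,
    Function.mem_support]
  refine ⟨i, ?_, ?_⟩
  · intro h0
    apply nrm_ne_zero (b := b) hx
    rw [← hi, h0, map_zero]
  · rw [hi]; exact h4

theorem ht_smul {k K : Type} [Field k] [IsAlgClosed k] [Field K] [Algebra k K]
    (hK : IsFunctionField k K) {c : K} (hc : c ≠ 0) {x : Fin 3 → K} (hx : x ≠ 0) :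
    ht k (c • x) = ht k x := by
  unfold ht
  rw [finsum_congr fun b : Place k K => log_nrm_smul b hc hx,
    finsum_add_distrib (finsum_log hK c hc).1 (nrm_support hK x hx), (finsum_log hK c hc).2,
    zero_add]

theorem val_aeval_sub_lt {k K : Type} [Field k] [Field K] [Algebra k K] (b : Place k K)
    (u : Fin 3 → K) (z : Fin 3 → k) (h : ∀ i, b.val (u i - algebraMap k K (z i)) < 1)
    (P : MvPolynomial (Fin 3) k) :
    b.val (aeval u P) ≤ 1 ∧ b.val (aeval u P - algebraMap k K (aeval z P)) < 1 := by
  have hu : ∀ i, b.val (u i) ≤ 1 := by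
    intro i
    have h1 : u i = (u i - algebraMap k K (z i)) + algebraMap k K (z i) := by ring
    rw [h1]
    exact (b.val.map_add _ _).trans (max_le (h i).le (b.val_algebraMap_le _))
  induction P using MvPolynomial.induction_on with
  | C a =>
    rw [aeval_C, aeval_C]
    refine ⟨b.val_algebraMap_le _, ?_⟩
    simp
  | add p q hp hq =>
    rw [map_add (aeval u), map_add (aeval z), map_add (algebraMap k K)]
    refine ⟨(b.val.map_add _ _).trans (max_le hp.1 hq.1), ?_⟩
    have h1 : aeval u p + aeval u q - (algebraMap k K (aeval z p) + algebraMap k K (aeval z q)) =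
        (aeval u p - algebraMap k K (aeval z p)) + (aeval u q - algebraMap k K (aeval z q)) := by
      ring
    rw [h1]
    exact b.val.map_add_lt hp.2 hq.2
  | mul_X p i hp =>
    rw [map_mul (aeval u), map_mul (aeval z), map_mul (algebraMap k K), aeval_X, aeval_X]
    refine ⟨by rw [map_mul]; exact mul_le_one' hp.1 (hu i), ?_⟩
    have h1 : aeval u p * u i - algebraMap k K (aeval z p) * algebraMap k K (z i) =
        aeval u p * (u i - algebraMap k K (z i)) +
          (aeval u p - algebraMap k K (aeval z p)) * algebraMap k K (z i) := by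
      ring
    rw [h1]
    refine b.val.map_add_lt ?_ ?_
    · rw [map_mul, mul_comm]
      exact mul_lt_one_of_lt_of_le (h i) hp.1
    · rw [map_mul]
      exact mul_lt_one_of_lt_of_le hp.2 (b.val_algebraMap_le _)

theorem Red.step {k K : Type} [Field k] [IsAlgClosed k] [Field K] [Algebra k K] {d : ℕ}
    {F : Fin 3 → MvPolynomial (Fin 3) k} (hF : IsEndo d F) {b : Place k K} {x : Fin 3 → K}
    {z : Fin 3 → k} (h : Red b x z) :
    Red b (Pool.Agent.Helper36.step F x) (Pool.Agent.Helper36.step F z) := by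
  obtain ⟨hz, c, hc, h1⟩ := h
  refine ⟨?_, c ^ d, pow_ne_zero _ hc, ?_⟩
  · intro h0
    apply hz
    apply hF.nz
    intro i
    have := congrFun h0 i
    exact (congrArg (fun φ => φ (F i)) (MvPolynomial.coe_aeval_eq_eval z)).symm.trans this
  · intro i
    have h2 := (val_aeval_sub_lt b (fun i => c * x i) z h1 (F i)).2
    rw [Pool.Agent.Helper36.aeval_smul_homogeneous (hF.hom i)] at h2
    exact h2

theorem Red.iter {k K : Type} [Field k] [IsAlgClosed k] [Field K] [Algebra k K] {d : ℕ}
    {F : Fin 3 → MvPolynomial (Fin 3) k} (hF : IsEndo d F) {b : Place k K} {x : Fin 3 → K}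
    {z : Fin 3 → k} (h : Red b x z) (n : ℕ) : Red b (iter F x n) (iter F z n) := by
  induction n with
  | zero => exact h
  | succ n ih =>
    rw [Pool.Agent.Helper36.iter_succ, Pool.Agent.Helper36.iter_succ]
    exact Red.step hF ih

theorem Red.unique {k K : Type} [Field k] [Field K] [Algebra k K] {b : Place k K} {x y : Fin 3 → K}
    {z w : Fin 3 → k} (h : Red b x z) (h' : Red b y w) (hxy : PEq x y) : PEq z w := by
  obtain ⟨hz, c1, hc1, h1⟩ := h
  obtain ⟨hw, c2, hc2, h2⟩ := h'
  obtain ⟨c, hc, rfl⟩ := hxy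
  -- c2 * (c * x i) ≡ w i, c1 * x i ≡ z i
  have val_of : ∀ {u : K} {t : k}, b.val (u - algebraMap k K t) < 1 → b.val u ≤ 1 := by
    intro u t hu
    have h3 : u = (u - algebraMap k K t) + algebraMap k K t := by ring
    rw [h3]
    exact (b.val.map_add _ _).trans (max_le hu.le (b.val_algebraMap_le _))
  have val_one : ∀ {u : K} {t : k}, t ≠ 0 → b.val (u - algebraMap k K t) < 1 → b.val u = 1 := by
    intro u t ht hu
    refine le_antisymm (val_of hu) ?_
    by_contra hlt
    rw [not_le] at hlt
    have h3 : algebraMap k K t = u - (u - algebraMap k K t) := by ring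
    have h4 : b.val (algebraMap k K t) < 1 := by
      rw [h3]
      exact (b.val.map_sub _ _).trans_lt (max_lt hlt hu)
    rw [b.triv t ht] at h4
    exact lt_irrefl _ h4
  obtain ⟨i0, hi0⟩ : ∃ i, z i ≠ 0 := by
    by_contra h
    push Not at h
    exact hz (funext h)
  set a : K := c2 * c * c1⁻¹ with ha
  have h3 : ∀ i, a * (c1 * x i) = c2 * (c • x) i := by
    intro i
    rw [ha, Pi.smul_apply, smul_eq_mul]
    field_simp
  have hva : b.val a ≤ 1 := by
    have h4 := val_of (h2 i0)
    rw [← h3, map_mul, val_one hi0 (h1 i0), mul_one] at h4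
    exact h4
  -- a * z i ≡ w i
  have h5 : ∀ i, b.val (a * algebraMap k K (z i) - algebraMap k K (w i)) < 1 := by
    intro i
    have h6 : a * algebraMap k K (z i) - algebraMap k K (w i) =
        (c2 * (c • x) i - algebraMap k K (w i)) - a * (c1 * x i - algebraMap k K (z i)) := by
      rw [← h3]; ring
    rw [h6]
    refine (b.val.map_sub _ _).trans_lt (max_lt (h2 i) ?_)
    rw [map_mul, mul_comm]
    exact mul_lt_one_of_lt_of_le (h1 i) hva
  have h7 : b.val (a - algebraMap k K (w i0 / z i0)) < 1 := by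
    have h8 : a - algebraMap k K (w i0 / z i0) =
        (a * algebraMap k K (z i0) - algebraMap k K (w i0)) * algebraMap k K (z i0)⁻¹ := by
      rw [map_div₀, map_inv₀]
      have : algebraMap k K (z i0) ≠ 0 := by simpa using hi0
      field_simp
    rw [h8, map_mul]
    exact mul_lt_one_of_lt_of_le (h5 i0) (b.val_algebraMap_le _)
  have h9 : ∀ i, w i = w i0 / z i0 * z i := by
    intro i
    by_contra hne
    have h10 : b.val (algebraMap k K (w i0 / z i0 * z i - w i)) < 1 := by
      have h11 : algebraMap k K (w i0 / z i0 * z i - w i) =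
          (a * algebraMap k K (z i) - algebraMap k K (w i)) -
            (a - algebraMap k K (w i0 / z i0)) * algebraMap k K (z i) := by
        rw [map_sub, map_mul]; ring
      rw [h11]
      refine (b.val.map_sub _ _).trans_lt (max_lt (h5 i) ?_)
      rw [map_mul]
      exact mul_lt_one_of_lt_of_le h7 (b.val_algebraMap_le _)
    rw [b.triv _ (sub_ne_zero.2 (Ne.symm hne))] at h10
    exact lt_irrefl _ h10
  refine ⟨w i0 / z i0, ?_, funext h9⟩
  intro h0
  apply hw
  funext i
  rw [h9 i, h0, zero_mul, Pi.zero_apply]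

end Pool.Agent.Helper30.TP

end

section

namespace Pool.Agent.Helper16
end Pool.Agent.Helper16
namespace Pool.Agent.Helper36
end Pool.Agent.Helper36

/-!
# Common zeros of coprime forms
-/

set_option autoImplicit false

namespace Pool.Agent.Helper30.TP

open MvPolynomial
open Pool.Agent.Helper16 (Place IsFunctionField)
open Pool.Agent.Helper36 (step iter)

section LFin

variable {L : Type} [Field L]

/-- the restriction of polynomials to the line through `y` -/
noncomputable def LFin_hom (y : Fin 3 → L) : MvPolynomial (Fin 3) L →+* Polynomial L :=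
  eval₂Hom Polynomial.C fun j => Polynomial.C (y j) * Polynomial.X

/-- the prime ideal of the line through `y` -/
noncomputable def LFin_P (y : Fin 3 → L) : Ideal (MvPolynomial (Fin 3) L) :=
  RingHom.ker (LFin_hom y)

theorem LFin_C (y : Fin 3 → L) (c : L) : LFin_hom y (C c) = Polynomial.C c := by
  simp [LFin_hom]

theorem LFin_X (y : Fin 3 → L) (j : Fin 3) :
    LFin_hom y (X j) = Polynomial.C (y j) * Polynomial.X := by
  simp [LFin_hom]

theorem LFin_mem (y : Fin 3 → L) {a b : Fin 3} :
    C (y a) * X b - C (y b) * X a ∈ LFin_P y := by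
  rw [LFin_P, RingHom.mem_ker, map_sub, map_mul, map_mul, LFin_C, LFin_C, LFin_X, LFin_X]
  ring

theorem LFin_of_eval {P : MvPolynomial (Fin 3) L} {e : ℕ} (hP : P.IsHomogeneous e)
    {y : Fin 3 → L} (h : eval y P = 0) : P ∈ LFin_P y := by
  have key : LFin_hom y P = Polynomial.C (eval y P) * Polynomial.X ^ e := by
    rw [LFin_hom, coe_eval₂Hom, eval₂_eq, eval_eq, map_sum, Finset.sum_mul]
    apply Finset.sum_congr rfl
    intro m hm
    have hdeg : ∑ i ∈ m.support, m i = e := by
      have := hP (mem_support_iff.1 hm)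
      rw [Finsupp.weight_apply, Finsupp.sum] at this
      simpa using this
    simp only [mul_pow]
    rw [Finset.prod_mul_distrib, map_mul, map_prod, Finset.prod_pow_eq_pow_sum, hdeg]
    simp only [map_pow]
    ring
  rw [LFin_P, RingHom.mem_ker, key, h, map_zero, zero_mul]

instance LFin_prime (y : Fin 3 → L) : (LFin_P y).IsPrime := RingHom.ker_isPrime _

theorem LFin_span {y : Fin 3 → L} {a b c : Fin 3} (ha : y a ≠ 0)
    (habc : ∀ j, j = a ∨ j = b ∨ j = c) :
    LFin_P y = Ideal.span {C (y a) * X b - C (y b) * X a, C (y a) * X c - C (y c) * X a} := by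
  apply le_antisymm
  · intro P hP
    set I := Ideal.span {C (y a) * X b - C (y b) * X a, C (y a) * X c - C (y c) * X a} with hI
    -- the inverse map
    let g : Polynomial L →+* MvPolynomial (Fin 3) L ⧸ I :=
      Polynomial.eval₂RingHom ((Ideal.Quotient.mk I).comp C)
        (Ideal.Quotient.mk I (C (y a)⁻¹ * X a))
    have hg : g.comp (LFin_hom y) = Ideal.Quotient.mk I := by
      apply MvPolynomial.ringHom_ext
      · intro r
        rw [RingHom.comp_apply, LFin_C]
        simp [g]
      · intro j
        rw [RingHom.comp_apply, LFin_X, map_mul]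
        have h1 : g (Polynomial.C (y j)) = Ideal.Quotient.mk I (C (y j)) := by simp [g]
        have h2 : g Polynomial.X = Ideal.Quotient.mk I (C (y a)⁻¹ * X a) := by simp [g]
        rw [h1, h2, ← map_mul, Ideal.Quotient.eq]
        have h3 : (C (y j) * (C (y a)⁻¹ * X a) - X j : MvPolynomial (Fin 3) L) =
            -C (y a)⁻¹ * (C (y a) * X j - C (y j) * X a) := by
          have h4 : (C (y a)⁻¹ * C (y a) : MvPolynomial (Fin 3) L) = 1 := by
            rw [← C_mul, inv_mul_cancel₀ ha, C_1]
          linear_combination (X j : MvPolynomial (Fin 3) L) * h4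
        rw [h3]
        apply Ideal.mul_mem_left
        rcases habc j with rfl | rfl | rfl
        · rw [sub_self]
          exact I.zero_mem
        · exact Ideal.subset_span (Set.mem_insert _ _)
        · exact Ideal.subset_span (Set.mem_insert_of_mem _ rfl)
    have h5 := congrArg (fun φ => φ P) hg
    simp only [RingHom.comp_apply] at h5
    have h6 : LFin_hom y P = 0 := hP
    rw [h6, map_zero] at h5
    exact Ideal.Quotient.eq_zero_iff_mem.1 h5.symm
  · rw [Ideal.span_le]
    rintro x (rfl | rfl)
    · exact LFin_mem y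
    · exact LFin_mem y

theorem LFin_height {y : Fin 3 → L} (hy : y ≠ 0) : (LFin_P y).height ≤ 2 := by
  obtain ⟨a, ha⟩ := Function.ne_iff.1 hy
  have hall : ∀ a : Fin 3, ∃ b c : Fin 3, ∀ j, j = a ∨ j = b ∨ j = c := by decide
  obtain ⟨b, c, habc⟩ := hall a
  have h1 := Ideal.height_le_spanFinrank (LFin_P y) (LFin_prime y).ne_top
  refine h1.trans ?_
  have h2 : (LFin_P y).spanFinrank ≤ 2 := by
    rw [LFin_span ha habc]
    refine (Submodule.spanFinrank_span_le_ncard_of_finite (Set.toFinite _)).trans ?_
    exact (Set.ncard_insert_le _ _).trans (by rw [Set.ncard_singleton])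
  exact_mod_cast h2

theorem LFin_minimal {φ ψ : MvPolynomial (Fin 3) L} {e t : ℕ}
    (hφ : φ.IsHomogeneous e) (hψ : ψ.IsHomogeneous t) (hirr : Irreducible φ) (hnd : ¬ φ ∣ ψ)
    {y : Fin 3 → L} (hy : y ≠ 0) (h1 : eval y φ = 0) (h2 : eval y ψ = 0) :
    LFin_P y ∈ (Ideal.span {φ, ψ}).minimalPrimes := by
  refine ⟨⟨inferInstance, ?_⟩, ?_⟩
  · rw [Ideal.span_le]
    rintro x (rfl | rfl)
    · exact LFin_of_eval hφ h1
    · exact LFin_of_eval hψ h2
  · rintro Q ⟨hQ, hIQ⟩ hQP
    by_contra hPQ
    have hlt : Q < LFin_P y := lt_of_le_of_ne hQP fun h => hPQ h.ge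
    have hφQ : φ ∈ Q := hIQ (Ideal.subset_span (Set.mem_insert _ _))
    have hψQ : ψ ∈ Q := hIQ (Ideal.subset_span (Set.mem_insert_of_mem _ rfl))
    have hpr : (Ideal.span {φ} : Ideal (MvPolynomial (Fin 3) L)).IsPrime :=
      (Ideal.span_singleton_prime hirr.ne_zero).2 hirr.prime
    have hlt1 : (Ideal.span {φ} : Ideal (MvPolynomial (Fin 3) L)) < Q := by
      refine lt_of_le_of_ne ((Ideal.span_singleton_le_iff_mem _).2 hφQ) ?_
      intro h
      rw [← h, Ideal.mem_span_singleton] at hψQ
      exact hnd hψQ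
    have hlt0 : (⊥ : Ideal (MvPolynomial (Fin 3) L)) < Ideal.span {φ} := by
      rw [bot_lt_iff_ne_bot, Ne, Ideal.span_singleton_eq_bot]
      exact hirr.ne_zero
    have k0 := Ideal.height_strict_mono_of_isPrime hlt0
    have k1 := Ideal.height_strict_mono_of_isPrime hlt1
    have k2 := Ideal.height_strict_mono_of_isPrime hlt
    have k3 := LFin_height hy
    have e0 : 1 ≤ (Ideal.span {φ} : Ideal (MvPolynomial (Fin 3) L)).height :=
      Order.one_le_iff_ne_zero.2 (fun h => by rw [h] at k0; exact absurd k0 not_lt_zero)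
    have e1 : 2 ≤ Q.height := by
      have := Order.add_one_le_of_lt (lt_of_le_of_lt e0 k1)
      calc (2 : ℕ∞) = 1 + 1 := by norm_num
        _ ≤ Q.height := this
    exact absurd (lt_of_le_of_lt e1 k2) (not_lt.2 k3)

theorem LFin_inj {y z : Fin 3 → L} (hy : y ≠ 0) (hz : z ≠ 0) (h : LFin_P y = LFin_P z) :
    PEq y z := by
  have key : ∀ a b : Fin 3, y a * z b = y b * z a := by
    intro a b
    have h1 : C (y a) * X b - C (y b) * X a ∈ LFin_P z := h ▸ LFin_mem y
    rw [LFin_P, RingHom.mem_ker, map_sub, map_mul, map_mul, LFin_C, LFin_C, LFin_X, LFin_X] at h1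
    have h2 := congrArg (fun p => Polynomial.coeff p 1) h1
    simp only [Polynomial.coeff_sub, ← mul_assoc, ← Polynomial.C_mul, Polynomial.coeff_mul_X,
      Polynomial.coeff_C_zero, Polynomial.coeff_zero] at h2
    linear_combination h2
  obtain ⟨a, ha⟩ := Function.ne_iff.1 hy
  have ha' : y a ≠ 0 := ha
  have hza : z a ≠ 0 := by
    intro h0
    apply hz
    funext b
    have := key a b
    rw [h0, mul_zero] at this
    exact (mul_eq_zero.1 this).resolve_left ha'
  refine ⟨z a / y a, div_ne_zero hza ha', ?_⟩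
  funext b
  have := key a b
  simp only [Pi.smul_apply, smul_eq_mul]
  field_simp
  linear_combination this

end LFin

theorem finite_common_zeros {L : Type} [Field L] {φ ψ : MvPolynomial (Fin 3) L} {e t : ℕ}
    (hφ : φ.IsHomogeneous e) (hψ : ψ.IsHomogeneous t) (hirr : Irreducible φ) (hnd : ¬ φ ∣ ψ)
    {ι : Type*} (y : ι → Fin 3 → L) (hy0 : ∀ i, y i ≠ 0)
    (hdist : ∀ i j, i ≠ j → ¬ PEq (y i) (y j)) :
    {i | eval (y i) φ = 0 ∧ eval (y i) ψ = 0}.Finite := by
  have hfin := Ideal.finite_minimalPrimes_of_isNoetherianRing (MvPolynomial (Fin 3) L)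
    (Ideal.span {φ, ψ})
  apply Set.Finite.of_finite_image (f := fun i => LFin_P (y i))
  · apply hfin.subset
    rintro P ⟨i, ⟨h1, h2⟩, rfl⟩
    exact LFin_minimal hφ hψ hirr hnd (hy0 i) h1 h2
  · intro i _ j _ hij
    by_contra hne
    exact hdist i j hne (LFin_inj (hy0 i) (hy0 j) hij)

end Pool.Agent.Helper30.TP

end

section

namespace Pool.Agent.Helper16
end Pool.Agent.Helper16
namespace Pool.Agent.Helper36
end Pool.Agent.Helper36

/-!
# Heights of forms
-/

set_option autoImplicit false

namespace Pool.Agent.Helper30.TP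

open MvPolynomial
open Pool.Agent.Helper16 (Place IsFunctionField)
open Pool.Agent.Helper36 (step iter)

section

variable {k K : Type} [Field k] [Field K] [Algebra k K]

theorem formHeight_le (b : Place k K) (P : MvPolynomial (Fin 3) K) (m : Fin 3 →₀ ℕ) :
    b.val (P.coeff m) ≤ gs b P := by
  by_cases h : m ∈ P.support
  · exact Finset.le_sup (f := fun m => b.val (P.coeff m)) h
  · rw [notMem_support_iff.1 h, map_zero]
    exact zero_le

theorem formHeight_gs_le {b : Place k K} {P : MvPolynomial (Fin 3) K}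
    {c : WithZero (Multiplicative ℤ)} (h : ∀ m, b.val (P.coeff m) ≤ c) : gs b P ≤ c :=
  Finset.sup_le fun m _ => h m

theorem formHeight_exists {b : Place k K} {P : MvPolynomial (Fin 3) K} (hP : P ≠ 0) :
    ∃ m, P.coeff m ≠ 0 ∧ gs b P = b.val (P.coeff m) := by
  obtain ⟨m, hm, h⟩ := Finset.exists_mem_eq_sup P.support (support_nonempty.2 hP)
    (fun m => b.val (P.coeff m))
  exact ⟨m, mem_support_iff.1 hm, h⟩

theorem formHeight_pos {b : Place k K} {P : MvPolynomial (Fin 3) K} (hP : P ≠ 0) :
    0 < gs b P := by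
  obtain ⟨m, hm, h⟩ := formHeight_exists (b := b) hP
  rw [h]
  exact zero_lt_iff.2 (by simpa using hm)

theorem formHeight_zero (b : Place k K) : gs b (0 : MvPolynomial (Fin 3) K) = 0 := by
  unfold gs
  rw [support_zero, Finset.sup_empty]
  rfl

theorem formHeight_mul_le (b : Place k K) (P Q : MvPolynomial (Fin 3) K) :
    gs b (P * Q) ≤ gs b P * gs b Q := by
  classical
  refine formHeight_gs_le fun m => ?_
  rw [coeff_mul]
  refine b.val.map_sum_le fun x _ => ?_
  rw [map_mul]
  exact mul_le_mul' (formHeight_le b P _) (formHeight_le b Q _)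

end

theorem formHeight_support {k K : Type} [Field k] [IsAlgClosed k] [Field K] [Algebra k K]
    (hK : IsFunctionField k K) {P : MvPolynomial (Fin 3) K} (hP : P ≠ 0) :
    (Function.support fun b : Place k K => WithZero.log (gs b P)).Finite := by
  classical
  have h1 : (⋃ m ∈ P.support,
      Function.support fun b : Place k K => WithZero.log (b.val (P.coeff m))).Finite :=
    Set.Finite.biUnion (Finset.finite_toSet _)
      fun m hm => (finsum_log hK _ (mem_support_iff.1 hm)).1
  refine h1.subset fun b hb => ?_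
  obtain ⟨m, hm, h⟩ := formHeight_exists (b := b) hP
  simp only [Set.mem_iUnion]
  refine ⟨m, mem_support_iff.2 hm, ?_⟩
  rw [Function.mem_support] at hb ⊢
  rwa [← h]

end Pool.Agent.Helper30.TP

end

section

/-!
# Castelnuovo's lemma
-/

set_option autoImplicit false

namespace Pool.Agent.Helper30.TP

open MvPolynomial

variable {K : Type} [Field K]

/-- The points `x i`, `i ∈ Γ`, impose independent conditions on the forms of degree `m`. -/
def Indep (x : ℕ → Fin 3 → K) (Γ : Finset ℕ) (m : ℕ) : Prop :=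
  ∀ v : ℕ → K, ∃ P : MvPolynomial (Fin 3) K, P.IsHomogeneous m ∧ ∀ i ∈ Γ, eval (x i) P = v i

theorem exists_linear_ne [Infinite K] {x : ℕ → Fin 3 → K} {Γ : Finset ℕ}
    (hx : ∀ i ∈ Γ, x i ≠ 0) :
    ∃ ℓ : MvPolynomial (Fin 3) K, ℓ.IsHomogeneous 1 ∧ ∀ i ∈ Γ, eval (x i) ℓ ≠ 0 := by
  classical
  set p : ℕ → Polynomial K := fun i => Polynomial.C (x i 0) + Polynomial.C (x i 1) * Polynomial.X +
    Polynomial.C (x i 2) * Polynomial.X ^ 2 with hp
  have h1 : ∏ i ∈ Γ, p i ≠ 0 := by
    rw [Finset.prod_ne_zero_iff]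
    intro i hi h
    apply hx i hi
    have h0 := congrArg (fun q => Polynomial.coeff q 0) h
    have h1 := congrArg (fun q => Polynomial.coeff q 1) h
    have h2 := congrArg (fun q => Polynomial.coeff q 2) h
    simp [hp, Polynomial.coeff_X, Polynomial.coeff_C, Polynomial.coeff_X_pow] at h0 h1 h2
    funext j
    fin_cases j
    · simpa using h0
    · simpa using h1
    · simpa using h2
  obtain ⟨t, ht⟩ : ∃ t : K, Polynomial.eval t (∏ i ∈ Γ, p i) ≠ 0 := by
    by_contra h
    push Not at h
    exact h1 (Polynomial.funext fun t => by rw [h t, Polynomial.eval_zero])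
  rw [Polynomial.eval_prod, Finset.prod_ne_zero_iff] at ht
  refine ⟨X 0 + C t * X 1 + C (t ^ 2) * X 2, ?_, fun i hi => ?_⟩
  · exact ((isHomogeneous_X _ _).add (isHomogeneous_C_mul_X _ _)).add (isHomogeneous_C_mul_X _ _)
  · have h3 := ht i hi
    intro h4
    apply h3
    simp only [hp, Polynomial.eval_add, Polynomial.eval_mul, Polynomial.eval_C, Polynomial.eval_X,
      Polynomial.eval_pow]
    simp only [map_add, map_mul, eval_X, eval_C] at h4
    linear_combination h4

theorem Indep.mono [Infinite K] {x : ℕ → Fin 3 → K} {Γ : Finset ℕ} (hx : ∀ i ∈ Γ, x i ≠ 0)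
    {m m' : ℕ} (h : Indep x Γ m) (hm : m ≤ m') : Indep x Γ m' := by
  obtain ⟨ℓ, h1, h2⟩ := exists_linear_ne hx
  intro v
  obtain ⟨P, h3, h4⟩ := h fun i => v i / (eval (x i) ℓ) ^ (m' - m)
  refine ⟨P * ℓ ^ (m' - m), ?_, fun i hi => ?_⟩
  · have h5 := h3.mul (h1.pow (m' - m))
    rwa [one_mul, Nat.add_sub_of_le hm] at h5
  · rw [map_mul, map_pow, h4 i hi, div_mul_cancel₀ _ (pow_ne_zero _ (h2 i hi))]

/-- a form of positive degree is a combination of the variables -/
private theorem form_decomp {n : ℕ} {T : MvPolynomial (Fin 3) K} (hT : T.IsHomogeneous (n + 1)) :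
    ∃ S : Fin 3 → MvPolynomial (Fin 3) K, (∀ j, (S j).IsHomogeneous n) ∧ T = ∑ j, X j * S j := by
  classical
  have hmain : ∀ d ∈ T.support, ∃ j : Fin 3, d j ≠ 0 := by
    intro d hd
    by_contra h
    push Not at h
    have h1 := hT.coeff_eq_zero (d := d) (by
      have : d = 0 := Finsupp.ext h
      rw [this]
      simp)
    exact (mem_support_iff.1 hd) h1
  choose! J hJ using hmain
  refine ⟨fun j => ∑ d ∈ T.support with J d = j, monomial (d - Finsupp.single j 1) (coeff d T),
    fun j => ?_, ?_⟩
  · refine IsHomogeneous.sum _ _ _ fun d hd => ?_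
    rw [Finset.mem_filter] at hd
    have h2 := hJ d hd.1
    rw [hd.2] at h2
    refine isHomogeneous_monomial _ ?_
    have h3 : d.degree = n + 1 := by
      by_contra h4
      exact (mem_support_iff.1 hd.1) (hT.coeff_eq_zero h4)
    have h5 : d - Finsupp.single j 1 + Finsupp.single j 1 = d := by
      refine tsub_add_cancel_of_le ?_
      rw [Finsupp.single_le_iff]
      omega
    have h6 := congrArg Finsupp.degree h5
    rw [map_add, Finsupp.degree_single, h3] at h6
    omega
  · have h7 : ∀ j : Fin 3, X j * ∑ d ∈ T.support with J d = j,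
        monomial (d - Finsupp.single j 1) (coeff d T) =
        ∑ d ∈ T.support with J d = j, monomial d (coeff d T) := by
      intro j
      rw [Finset.mul_sum]
      refine Finset.sum_congr rfl fun d hd => ?_
      rw [Finset.mem_filter] at hd
      have h2 := hJ d hd.1
      rw [hd.2] at h2
      rw [show (X j : MvPolynomial (Fin 3) K) = monomial (Finsupp.single j 1) 1 from rfl,
        monomial_mul, one_mul, add_tsub_cancel_of_le]
      rw [Finsupp.single_le_iff]
      omega
    simp only [h7]
    rw [Finset.sum_fiberwise_of_maps_to (fun _ _ => Finset.mem_univ _)]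
    exact T.as_sum

/-- Castelnuovo's lemma. -/
theorem castelnuovo [Infinite K] {x : ℕ → Fin 3 → K} {Γ : Finset ℕ} (hx : ∀ i ∈ Γ, x i ≠ 0)
    {m : ℕ} (h : Indep x Γ m) (t : ℕ) (T : MvPolynomial (Fin 3) K)
    (hT : T.IsHomogeneous (m + 1 + t)) (hTΓ : ∀ i ∈ Γ, eval (x i) T = 0) :
    T ∈ Ideal.span {G : MvPolynomial (Fin 3) K | G.IsHomogeneous (m + 1) ∧
      ∀ i ∈ Γ, eval (x i) G = 0} := by
  induction t generalizing T with
  | zero => exact Ideal.subset_span ⟨hT, hTΓ⟩
  | succ t ih =>
    obtain ⟨ℓ, h1, h2⟩ := exists_linear_ne hx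
    obtain ⟨S, h3, h4⟩ := form_decomp (n := m + 1 + t) hT
    have h5 : ∀ j : Fin 3, ∃ q : MvPolynomial (Fin 3) K, q.IsHomogeneous (m + t) ∧
        ∀ i ∈ Γ, eval (x i) q = eval (x i) (S j) / eval (x i) ℓ := fun j =>
      Indep.mono hx h (Nat.le_add_right m t) fun i => eval (x i) (S j) / eval (x i) ℓ
    choose q h6 h7 using h5
    have h8 : ∀ j, S j - ℓ * q j ∈ Ideal.span {G : MvPolynomial (Fin 3) K |
        G.IsHomogeneous (m + 1) ∧ ∀ i ∈ Γ, eval (x i) G = 0} := by
      intro j
      refine ih _ ?_ fun i hi => ?_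
      · refine (h3 j).sub ?_
        have h9 := h1.mul (h6 j)
        rwa [show 1 + (m + t) = m + 1 + t by omega] at h9
      · rw [map_sub, map_mul, h7 j i hi, mul_div_cancel₀ _ (h2 i hi), sub_self]
    have h10 : ∑ j, X j * q j ∈ Ideal.span {G : MvPolynomial (Fin 3) K |
        G.IsHomogeneous (m + 1) ∧ ∀ i ∈ Γ, eval (x i) G = 0} := by
      refine ih _ ?_ fun i hi => ?_
      · refine IsHomogeneous.sum _ _ _ fun j _ => ?_
        have h9 := (isHomogeneous_X K j).mul (h6 j)
        rwa [show 1 + (m + t) = m + 1 + t by omega] at h9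
      · have h11 := hTΓ i hi
        rw [h4, map_sum] at h11
        rw [map_sum]
        have h12 : ∀ j : Fin 3, eval (x i) (X j * q j) =
            eval (x i) (X j * S j) / eval (x i) ℓ := by
          intro j
          rw [map_mul, map_mul, h7 j i hi, mul_div_assoc]
        simp only [h12]
        rw [← Finset.sum_div, h11, zero_div]
    have h13 : T = ∑ j, X j * (S j - ℓ * q j) + ℓ * ∑ j, X j * q j := by
      rw [h4, Finset.mul_sum, ← Finset.sum_add_distrib]
      refine Finset.sum_congr rfl fun j _ => ?_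
      ring
    rw [h13]
    exact Ideal.add_mem _ (Ideal.sum_mem _ fun j _ => Ideal.mul_mem_left _ _ (h8 j))
      (Ideal.mul_mem_left _ _ h10)

end Pool.Agent.Helper30.TP

end

section

namespace Pool.Agent.Helper16
end Pool.Agent.Helper16
namespace Pool.Agent.Helper36
end Pool.Agent.Helper36

/-!
# The contact of two points at a place
-/

set_option autoImplicit false

namespace Pool.Agent.Helper30.TP

open MvPolynomial
open Pool.Agent.Helper16 (Place IsFunctionField)
open Pool.Agent.Helper36 (step iter)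

variable {k K : Type} [Field k] [Field K] [Algebra k K]

/-- The contact of the points `x` and `y` at the place `b`. -/
noncomputable def cl (b : Place k K) (x y : Fin 3 → K) : ℤ :=
  WithZero.log (nrm b x) + WithZero.log (nrm b y) - WithZero.log (nrm b (crossProduct x y))

theorem Cl_cross_apply {L : Type} [Field L] (x y : Fin 3 → L) :
    crossProduct x y 0 = x 1 * y 2 - x 2 * y 1 ∧ crossProduct x y 1 = x 2 * y 0 - x 0 * y 2 ∧
      crossProduct x y 2 = x 0 * y 1 - x 1 * y 0 := by
  rw [cross_apply]
  exact ⟨rfl, rfl, rfl⟩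

theorem Cl_pq {L : Type} [Field L] (x y : Fin 3 → L) (p q : Fin 3) :
    x p * y q - x q * y p = 0 ∨ ∃ i, x p * y q - x q * y p = crossProduct x y i ∨
      x p * y q - x q * y p = - crossProduct x y i := by
  obtain ⟨h0, h1, h2⟩ := Cl_cross_apply x y
  fin_cases p <;> fin_cases q <;> simp only [Fin.zero_eta, Fin.mk_one, Fin.reduceFinMk]
  · left; ring
  · exact Or.inr ⟨2, Or.inl h2.symm⟩
  · exact Or.inr ⟨1, Or.inr (by rw [h1]; ring)⟩
  · exact Or.inr ⟨2, Or.inr (by rw [h2]; ring)⟩
  · left; ring
  · exact Or.inr ⟨0, Or.inl h0.symm⟩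
  · exact Or.inr ⟨1, Or.inl h1.symm⟩
  · exact Or.inr ⟨0, Or.inr (by rw [h0]; ring)⟩
  · left; ring

theorem Cl_cross_eq_zero {L : Type} [Field L] {x y : Fin 3 → L} (h : crossProduct x y = 0)
    (p q : Fin 3) : x p * y q - x q * y p = 0 := by
  rcases Cl_pq x y p q with h1 | ⟨i, h1 | h1⟩
  · exact h1
  · rw [h1, h]; rfl
  · rw [h1, h]; simp

theorem Cl_peq {L : Type} [Field L] {x y : Fin 3 → L} (hx : x ≠ 0) (hy : y ≠ 0)
    (h : crossProduct x y = 0) : PEq x y := by
  obtain ⟨i0, hi0⟩ : ∃ i, x i ≠ 0 := by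
    by_contra hc
    push Not at hc
    exact hx (funext hc)
  have h1 : ∀ j, y j = y i0 / x i0 * x j := by
    intro j
    have h2 := Cl_cross_eq_zero h i0 j
    field_simp
    linear_combination h2
  refine ⟨y i0 / x i0, ?_, funext h1⟩
  intro h0
  apply hy
  funext j
  rw [h1 j, h0, zero_mul]
  rfl

theorem Cl_symm {L : Type} [Field L] {x y : Fin 3 → L} (h : PEq x y) : PEq y x := by
  obtain ⟨c, hc, rfl⟩ := h
  exact ⟨c⁻¹, inv_ne_zero hc, by rw [smul_smul, inv_mul_cancel₀ hc, one_smul]⟩

omit [Algebra k K] [Field k] in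
theorem cross_ne_zero {x y : Fin 3 → K} (hx : x ≠ 0) (hy : y ≠ 0) (h : ¬ PEq x y) :
    crossProduct x y ≠ 0 := fun h0 => h (Cl_peq hx hy h0)

theorem Cl_val_pq (b : Place k K) (x y : Fin 3 → K) (p q : Fin 3) :
    b.val (x p * y q - x q * y p) ≤ nrm b (crossProduct x y) := by
  rcases Cl_pq x y p q with h1 | ⟨i, h1 | h1⟩
  · rw [h1, map_zero]; exact zero_le
  · rw [h1]; exact val_le_nrm b _ i
  · rw [h1, Valuation.map_neg]; exact val_le_nrm b _ i

theorem Cl_nrm_cross_le (b : Place k K) (x y : Fin 3 → K) :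
    nrm b (crossProduct x y) ≤ nrm b x * nrm b y := by
  have key : ∀ p q : Fin 3, b.val (x p * y q - x q * y p) ≤ nrm b x * nrm b y := by
    intro p q
    refine (b.val.map_sub _ _).trans (max_le ?_ ?_)
    · rw [map_mul]; exact mul_le_mul' (val_le_nrm b x p) (val_le_nrm b y q)
    · rw [map_mul]; exact mul_le_mul' (val_le_nrm b x q) (val_le_nrm b y p)
  obtain ⟨h0, h1, h2⟩ := Cl_cross_apply x y
  refine nrm_le fun i => ?_
  fin_cases i <;> simp only [Fin.zero_eta, Fin.mk_one, Fin.reduceFinMk]
  · rw [h0]; exact key 1 2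
  · rw [h1]; exact key 2 0
  · rw [h2]; exact key 0 1

theorem Cl_nrm_neg (b : Place k K) (x : Fin 3 → K) : nrm b (-x) = nrm b x := by
  unfold nrm
  congr 1
  funext i
  rw [Pi.neg_apply, Valuation.map_neg]

theorem cl_comm (b : Place k K) (x y : Fin 3 → K) : cl b x y = cl b y x := by
  unfold cl
  rw [← cross_anticomm, Cl_nrm_neg]
  ring

theorem cl_nonneg (b : Place k K) {x y : Fin 3 → K} (hx : x ≠ 0) (hy : y ≠ 0) (h : ¬ PEq x y) :
    0 ≤ cl b x y := by
  unfold cl
  have h1 : WithZero.log (nrm b (crossProduct x y)) ≤ WithZero.log (nrm b x * nrm b y) := by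
    rw [WithZero.log_le_log (nrm_ne_zero (cross_ne_zero hx hy h))
      (mul_ne_zero (nrm_ne_zero hx) (nrm_ne_zero hy))]
    exact Cl_nrm_cross_le b x y
  rw [WithZero.log_mul (nrm_ne_zero hx) (nrm_ne_zero hy)] at h1
  omega

theorem Cl_plucker (b : Place k K) (x y z : Fin 3 → K) :
    nrm b y * nrm b (crossProduct x z) ≤
      max (nrm b x * nrm b (crossProduct y z)) (nrm b z * nrm b (crossProduct x y)) := by
  obtain ⟨l, hl⟩ := exists_val_eq_nrm b y
  have key : ∀ p q : Fin 3, b.val (y l * (x p * z q - x q * z p)) ≤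
      max (nrm b x * nrm b (crossProduct y z)) (nrm b z * nrm b (crossProduct x y)) := by
    intro p q
    have h1 : y l * (x p * z q - x q * z p) = x l * (y p * z q - y q * z p) +
        (z q * (x p * y l - x l * y p) - z p * (x q * y l - x l * y q)) := by ring
    rw [h1]
    refine (b.val.map_add _ _).trans (max_le ?_ ?_)
    · refine le_max_of_le_left ?_
      rw [map_mul]
      exact mul_le_mul' (val_le_nrm b x l) (Cl_val_pq b y z p q)
    · refine le_max_of_le_right ?_
      refine (b.val.map_sub _ _).trans (max_le ?_ ?_)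
      · rw [map_mul]
        exact mul_le_mul' (val_le_nrm b z q) (Cl_val_pq b x y p l)
      · rw [map_mul]
        exact mul_le_mul' (val_le_nrm b z p) (Cl_val_pq b x y q l)
  obtain ⟨i, hi⟩ := exists_val_eq_nrm b (crossProduct x z)
  rw [← hl, ← hi, ← map_mul]
  obtain ⟨e0, e1, e2⟩ := Cl_cross_apply x z
  fin_cases i <;> simp only [Fin.zero_eta, Fin.mk_one, Fin.reduceFinMk]
  · rw [e0]; exact key 1 2
  · rw [e1]; exact key 2 0
  · rw [e2]; exact key 0 1

theorem cl_ultra (b : Place k K) {x y z : Fin 3 → K} (hx : x ≠ 0) (hy : y ≠ 0) (hz : z ≠ 0)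
    (hxy : ¬ PEq x y) (hyz : ¬ PEq y z) (hxz : ¬ PEq x z) :
    min (cl b x y) (cl b y z) ≤ cl b x z := by
  have h := Cl_plucker b x y z
  have nx := nrm_ne_zero (b := b) hx
  have ny := nrm_ne_zero (b := b) hy
  have nz := nrm_ne_zero (b := b) hz
  have nxy := nrm_ne_zero (b := b) (cross_ne_zero hx hy hxy)
  have nyz := nrm_ne_zero (b := b) (cross_ne_zero hy hz hyz)
  have nxz := nrm_ne_zero (b := b) (cross_ne_zero hx hz hxz)
  unfold cl
  rcases le_max_iff.1 h with h1 | h1
  · rw [← WithZero.log_le_log (mul_ne_zero ny nxz) (mul_ne_zero nx nyz),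
      WithZero.log_mul ny nxz, WithZero.log_mul nx nyz] at h1
    refine (min_le_right _ _).trans ?_
    omega
  · rw [← WithZero.log_le_log (mul_ne_zero ny nxz) (mul_ne_zero nz nxy),
      WithZero.log_mul ny nxz, WithZero.log_mul nz nxy] at h1
    refine (min_le_left _ _).trans ?_
    omega

theorem cl_support [IsAlgClosed k] (hK : IsFunctionField k K) {x y : Fin 3 → K} (hx : x ≠ 0)
    (hy : y ≠ 0) (h : ¬ PEq x y) :
    (Function.support fun b : Place k K => cl b x y).Finite := by
  refine (((nrm_support hK x hx).union (nrm_support hK y hy)).union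
    (nrm_support hK _ (cross_ne_zero hx hy h))).subset ?_
  intro b hb
  by_contra hc
  apply hb
  simp only [Set.mem_union, Function.mem_support, not_or, not_not] at hc
  show cl b x y = 0
  unfold cl
  rw [hc.1.1, hc.1.2, hc.2]
  ring

theorem finsum_cl [IsAlgClosed k] (hK : IsFunctionField k K) {x y : Fin 3 → K} (hx : x ≠ 0)
    (hy : y ≠ 0) (h : ¬ PEq x y) :
    ∑ᶠ b : Place k K, cl b x y = ht k x + ht k y - ht k (crossProduct x y) := by
  have sx := nrm_support hK x hx
  have sy := nrm_support hK y hy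
  have sxy := nrm_support hK _ (cross_ne_zero hx hy h)
  unfold cl ht
  rw [finsum_sub_distrib _ sxy, finsum_add_distrib sx sy]
  refine ((sx.union sy)).subset ?_
  intro b hb
  by_contra hc
  apply hb
  simp only [Set.mem_union, Function.mem_support, not_or, not_not] at hc
  show WithZero.log (nrm b x) + WithZero.log (nrm b y) = 0
  rw [hc.1, hc.2]
  ring

/-- A point has positive contact (up to a constant) with at most one of the points `P i`. -/
theorem sum_cl_le (b : Place k K) (Γ : Finset ℕ) (P : ℕ → Fin 3 → K) (Q : Fin 3 → K)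
    (hP : ∀ i ∈ Γ, P i ≠ 0) (hQ : Q ≠ 0) (hPQ : ∀ i ∈ Γ, ¬ PEq (P i) Q)
    (hPP : ∀ i ∈ Γ, ∀ j ∈ Γ, i ≠ j → ¬ PEq (P i) (P j)) {M : ℤ} (hM0 : 0 ≤ M)
    (hM : ∀ i ∈ Γ, cl b (P i) Q ≤ M) :
    ∑ i ∈ Γ, cl b (P i) Q ≤ M + ∑ i ∈ Γ, ∑ j ∈ Γ.erase i, cl b (P i) (P j) := by
  have hnn : ∀ i ∈ Γ, 0 ≤ ∑ j ∈ Γ.erase i, cl b (P i) (P j) := by
    intro i hi
    refine Finset.sum_nonneg fun j hj => ?_
    have hj1 := Finset.mem_of_mem_erase hj
    have hj2 := Finset.ne_of_mem_erase hj
    exact cl_nonneg b (hP i hi) (hP j hj1) (hPP i hi j hj1 (Ne.symm hj2))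
  rcases Γ.eq_empty_or_nonempty with rfl | hne
  · simpa using hM0
  obtain ⟨i0, hi0, hmax⟩ := Finset.exists_max_image Γ (fun i => cl b (P i) Q) hne
  rw [← Finset.add_sum_erase _ _ hi0, ← Finset.add_sum_erase (a := i0) (s := Γ)
    (fun i => ∑ j ∈ Γ.erase i, cl b (P i) (P j)) hi0]
  have h1 : ∑ i ∈ Γ.erase i0, cl b (P i) Q ≤
      ∑ i ∈ Γ.erase i0, ∑ j ∈ Γ.erase i, cl b (P i) (P j) := by
    refine Finset.sum_le_sum fun i hi => ?_
    have hi1 := Finset.mem_of_mem_erase hi
    have hi2 := Finset.ne_of_mem_erase hi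
    have h2 := cl_ultra b (hP i hi1) hQ (hP i0 hi0) (hPQ i hi1)
      (fun h => hPQ i0 hi0 (Cl_symm h)) (hPP i hi1 i0 hi0 hi2)
    rw [cl_comm b Q (P i0), min_eq_left (hmax i hi1)] at h2
    refine h2.trans ?_
    refine Finset.single_le_sum (f := fun j => cl b (P i) (P j)) (fun j hj => ?_)
      (Finset.mem_erase.2 ⟨Ne.symm hi2, hi0⟩)
    have hj1 := Finset.mem_of_mem_erase hj
    have hj2 := Finset.ne_of_mem_erase hj
    exact cl_nonneg b (hP i hi1) (hP j hj1) (hPP i hi1 j hj1 (Ne.symm hj2))
  have h3 := hM i0 hi0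
  have h4 := hnn i0 hi0
  omega

end Pool.Agent.Helper30.TP

end

section

namespace Pool.Agent.Helper16
end Pool.Agent.Helper16
namespace Pool.Agent.Helper36
end Pool.Agent.Helper36

/-!
# The form attached to an ultrafilter
-/

set_option autoImplicit false

namespace Pool.Agent.Helper30.TP

open MvPolynomial
open Pool.Agent.Helper16 (Place IsFunctionField)
open Pool.Agent.Helper36 (step iter)

/-! ### Divisors of forms are forms -/

section ultra_forms

variable {σ : Type} {K : Type*} [CommRing K]

/-- the homomorphism `f(x) ↦ f(λ x)` -/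
noncomputable def ultraGam : MvPolynomial σ K →ₐ[K] Polynomial (MvPolynomial σ K) :=
  aeval (fun i => Polynomial.X * Polynomial.C (X i))

theorem ultraGam_monomial (u : σ →₀ ℕ) (a : K) :
    ultraGam (monomial u a) = Polynomial.monomial u.degree (monomial u a) := by
  induction u using Finsupp.induction_linear generalizing a with
  | zero =>
    have h1 : (monomial 0 a : MvPolynomial σ K) = algebraMap K _ a := rfl
    rw [h1, AlgHom.commutes, map_zero]
    rfl
  | add f g hf hg =>
    have h1 : (monomial (f + g) a : MvPolynomial σ K) = monomial f a * monomial g 1 := by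
      rw [monomial_mul, mul_one]
    rw [h1, map_mul, hf, hg, Polynomial.monomial_mul_monomial, map_add]
  | single i n =>
    have h1 : (monomial (Finsupp.single i n) a : MvPolynomial σ K) = C a * X i ^ n := by
      rw [X_pow_eq_monomial, C_mul_monomial, mul_one]
    have h2 : ultraGam (C a : MvPolynomial σ K) = Polynomial.C (C a) := by
      rw [← algebraMap_eq, AlgHom.commutes]; rfl
    rw [h1, map_mul, map_pow, h2, Finsupp.degree_single]
    have h3 : ultraGam (X i : MvPolynomial σ K) = Polynomial.X * Polynomial.C (X i) := by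
      simp [ultraGam]
    rw [h3, mul_pow, ← Polynomial.C_mul_X_pow_eq_monomial, Polynomial.C_mul, Polynomial.C_pow]
    ring

theorem ultraGam_coeff (f : MvPolynomial σ K) (n : ℕ) :
    (ultraGam f).coeff n = homogeneousComponent n f := by
  classical
  induction f using MvPolynomial.induction_on' with
  | monomial u a =>
    rw [ultraGam_monomial, Polynomial.coeff_monomial,
      homogeneousComponent_of_mem (isHomogeneous_monomial a rfl)]
    by_cases h : u.degree = n
    · rw [if_pos h, if_pos h.symm]
    · rw [if_neg h, if_neg (Ne.symm h)]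
  | add f g hf hg => rw [map_add, Polynomial.coeff_add, hf, hg, map_add]

theorem ultraGam_form {f : MvPolynomial σ K} {d : ℕ} (hf : f.IsHomogeneous d) :
    ultraGam f = Polynomial.C f * Polynomial.X ^ d := by
  ext1 n
  rw [ultraGam_coeff, Polynomial.coeff_C_mul_X_pow, homogeneousComponent_of_mem hf]

/-- divisors of forms are forms -/
theorem ultra_form_of_mul [IsDomain K] {f a b : MvPolynomial σ K} {d : ℕ}
    (hf : f.IsHomogeneous d) (h0 : f ≠ 0) (hab : f = a * b) :
    ∃ i j : ℕ, a.IsHomogeneous i ∧ b.IsHomogeneous j ∧ i + j = d := by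
  have ha0 : a ≠ 0 := by rintro rfl; exact h0 (by rw [hab, zero_mul])
  have hb0 : b ≠ 0 := by rintro rfl; exact h0 (by rw [hab, mul_zero])
  have hinj : Function.Injective (ultraGam : MvPolynomial σ K →ₐ[K] _) := by
    intro u v huv
    ext m
    have h1 := congrArg (fun q => coeff m (Polynomial.coeff q m.degree)) huv
    simp only [ultraGam_coeff, coeff_homogeneousComponent, if_pos] at h1
    exact h1
  have hGa : ultraGam a ≠ 0 := fun h => ha0 (hinj (by rw [h, map_zero]))
  have hGb : ultraGam b ≠ 0 := fun h => hb0 (hinj (by rw [h, map_zero]))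
  have h1 : ultraGam a * ultraGam b = Polynomial.C f * Polynomial.X ^ d := by
    rw [← map_mul, ← hab, ultraGam_form hf]
  have h2 : (ultraGam a).natDegree + (ultraGam b).natDegree = d := by
    rw [← Polynomial.natDegree_mul hGa hGb, h1, Polynomial.natDegree_C_mul_X_pow _ _ h0]
  have h3 : (ultraGam a).natTrailingDegree + (ultraGam b).natTrailingDegree = d := by
    rw [← Polynomial.natTrailingDegree_mul hGa hGb, h1, Polynomial.C_mul_X_pow_eq_monomial,
      Polynomial.natTrailingDegree_monomial h0]
  have h4 := Polynomial.natTrailingDegree_le_natDegree (ultraGam a)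
  have h5 := Polynomial.natTrailingDegree_le_natDegree (ultraGam b)
  have key : ∀ c : MvPolynomial σ K,
      (ultraGam c).natTrailingDegree = (ultraGam c).natDegree →
      c.IsHomogeneous (ultraGam c).natDegree := by
    intro c hc
    have h6 : ∀ n, n ≠ (ultraGam c).natDegree → homogeneousComponent n c = 0 := by
      intro n hn
      rw [← ultraGam_coeff]
      rcases lt_or_gt_of_ne hn with h | h
      · exact Polynomial.coeff_eq_zero_of_lt_natTrailingDegree (by omega)
      · exact Polynomial.coeff_eq_zero_of_natDegree_lt h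
    rw [← sum_homogeneousComponent c]
    have h7 : ∀ i ∈ Finset.range (c.totalDegree + 1), (homogeneousComponent i c).IsHomogeneous
        (ultraGam c).natDegree := by
      intro i _
      by_cases hi : i = (ultraGam c).natDegree
      · rw [← hi]; exact homogeneousComponent_isHomogeneous _ _
      · rw [h6 i hi]; exact isHomogeneous_zero _ _ _
    have h8 := IsHomogeneous.sum (Finset.range (c.totalDegree + 1))
      (fun i => homogeneousComponent i c) _ h7
    rwa [sum_homogeneousComponent c] at h8 ⊢
  exact ⟨_, _, key a (by omega), key b (by omega), h2⟩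

end ultra_forms

/-! ### Linear forms of the coefficients -/

section ultra_lam

variable {k K : Type} [Field k] [Field K] [Algebra k K]

theorem ultra_coeff_lam (ℓ : K →ₗ[k] k) (g : MvPolynomial (Fin 3) K) (m : Fin 3 →₀ ℕ) :
    coeff m (lam ℓ g) = ℓ (coeff m g) := by
  classical
  unfold lam
  rw [coeff_sum]
  simp only [coeff_monomial]
  rw [Finset.sum_ite_eq']
  split_ifs with h
  · rfl
  · rw [notMem_support_iff.1 h, map_zero]

theorem ultra_lam_hom (ℓ : K →ₗ[k] k) {g : MvPolynomial (Fin 3) K} {e : ℕ}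
    (hg : g.IsHomogeneous e) : (lam ℓ g).IsHomogeneous e := by
  intro m hm
  rw [ultra_coeff_lam] at hm
  refine hg ?_
  intro h
  rw [h, map_zero] at hm
  exact hm rfl

theorem ultra_eval_lam (ℓ : K →ₗ[k] k) (g : MvPolynomial (Fin 3) K) (y : Fin 3 → k) :
    eval y (lam ℓ g) = ℓ (eval (fun i => algebraMap k K (y i)) g) := by
  unfold lam
  rw [map_sum, eval_eq', map_sum]
  refine Finset.sum_congr rfl fun m _ => ?_
  rw [eval_monomial, Finsupp.prod_fintype _ _ (by simp)]
  have h : coeff m g * ∏ i, (algebraMap k K (y i)) ^ m i = (∏ i, y i ^ m i) • coeff m g := by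
    rw [Algebra.smul_def, map_prod, mul_comm]
    simp only [map_pow]
  rw [h, map_smul, smul_eq_mul, mul_comm]

theorem ultra_expand {ι : Type} (B : Module.Basis ι k K) (g : MvPolynomial (Fin 3) K) :
    ∃ s : Finset ι, g = ∑ l ∈ s, C (B l) * map (algebraMap k K) (lam (B.coord l) g) := by
  classical
  refine ⟨g.support.biUnion fun m => (B.repr (coeff m g)).support, ?_⟩
  ext m
  rw [coeff_sum]
  simp only [coeff_C_mul, coeff_map, ultra_coeff_lam, Module.Basis.coord_apply]
  by_cases hm : m ∈ g.support
  · have h1 := B.linearCombination_repr (coeff m g)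
    rw [Finsupp.linearCombination_apply, Finsupp.sum] at h1
    have h2 : (B.repr (coeff m g)).support ⊆
        g.support.biUnion fun m => (B.repr (coeff m g)).support :=
      Finset.subset_biUnion_of_mem (fun m => (B.repr (coeff m g)).support) hm
    rw [← Finset.sum_subset h2]
    · conv_lhs => rw [← h1]
      refine Finset.sum_congr rfl fun l _ => ?_
      rw [Algebra.smul_def, mul_comm]
    · intro l _ hl
      rw [Finsupp.notMem_support_iff.1 hl, map_zero, mul_zero]
  · rw [notMem_support_iff.1 hm]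
    refine (Finset.sum_eq_zero fun l _ => ?_).symm
    rw [map_zero, Finsupp.zero_apply, map_zero, mul_zero]

end ultra_lam

/-- Finite sets do not belong to a free ultrafilter. -/
theorem ultra_exists_notMem {U : Ultrafilter ℕ} (hU : Free U) {s : Set ℕ} (hs : s.Finite)
    {p : ℕ → Prop} (hp : ∀ᶠ n in (U : Filter ℕ), p n) : ∃ n, p n ∧ n ∉ s := by
  obtain ⟨m, hm⟩ := hs.bddAbove
  obtain ⟨n, hn1, hn2⟩ := (hp.and (hU (m + 1))).exists
  exact ⟨n, hn1, fun h => by have := hm h; omega⟩

/-- The ideal is prime. -/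
theorem ultra_or {K : Type} [Field K] {U : Ultrafilter ℕ} {y : ℕ → Fin 3 → K}
    {a b : MvPolynomial (Fin 3) K} (h : ∀ᶠ n in (U : Filter ℕ), eval (y n) (a * b) = 0) :
    (∀ᶠ n in (U : Filter ℕ), eval (y n) a = 0) ∨ (∀ᶠ n in (U : Filter ℕ), eval (y n) b = 0) := by
  rw [← Ultrafilter.eventually_or]
  filter_upwards [h] with n hn
  rw [map_mul] at hn
  exact mul_eq_zero.1 hn

end Pool.Agent.Helper30.TP

end

section

namespace Pool.Agent.Helper16
end Pool.Agent.Helper16
namespace Pool.Agent.Helper36
end Pool.Agent.Helper36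

/-!
# Function fields generated by complex points
-/

set_option autoImplicit false

namespace Pool.Agent.Helper30.TP

open MvPolynomial
open Pool.Agent.Helper16 (Place IsFunctionField)
open Pool.Agent.Helper36 (step iter)

/-- Algebraic elements over an algebraically closed field are constants. -/
theorem emb_mem_range {k L : Type} [Field k] [IsAlgClosed k] [Field L] [Algebra k L] {t : L}
    (ht : IsAlgebraic k t) : ∃ c : k, algebraMap k L c = t :=
  minpoly.mem_range_of_degree_eq_one k t
    (IsAlgClosed.degree_eq_one_of_irreducible k (minpoly.irreducible ht.isIntegral))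

theorem emb_adjoin_top {k L : Type} [Field k] [Field L] [Algebra k L] (s : Set L) :
    IntermediateField.adjoin k (Subtype.val ⁻¹' s : Set (IntermediateField.adjoin k s)) = ⊤ := by
  apply IntermediateField.lift_injective
  rw [IntermediateField.lift_adjoin, IntermediateField.lift_top, Set.image_preimage_eq_of_subset]
  intro a ha
  exact ⟨⟨a, IntermediateField.subset_adjoin k s ha⟩, rfl⟩

theorem emb_isAlgebraic {k L : Type} [Field k] [Field L] [Algebra k L] (s : Set L) :
    Algebra.IsAlgebraic
      (Algebra.adjoin k (Subtype.val ⁻¹' s : Set (IntermediateField.adjoin k s)))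
      (IntermediateField.adjoin k s) := by
  rw [← IntermediateField.isAlgebraic_adjoin_iff_top, emb_adjoin_top]
  refine ⟨fun a => ?_⟩
  exact isAlgebraic_algebraMap (R := (⊤ : IntermediateField k (IntermediateField.adjoin k s)))
    (A := IntermediateField.adjoin k s) ⟨a, trivial⟩

theorem emb_trdeg_le {k L : Type} [Field k] [Field L] [Algebra k L] (s : Set L) :
    Algebra.trdeg k (IntermediateField.adjoin k s) ≤ Cardinal.mk s := by
  have := emb_isAlgebraic (k := k) s
  refine (Algebra.IsAlgebraic.trdeg_le_cardinalMk k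
    (Subtype.val ⁻¹' s : Set (IntermediateField.adjoin k s))).trans ?_
  exact Cardinal.mk_preimage_of_injective _ _ Subtype.val_injective

end Pool.Agent.Helper30.TP

end
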