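import Pool.Agent.Helper29.MG2.T08
import Pool.Agent.Helper29.MG2.T07

section

/-!
# Points of a plane curve which impose independent conditions
-/

set_option autoImplicit false

namespace Pool.Agent.Helper30.TP

open MvPolynomial

variable {K : Type} [Field K]

theorem finrank_forms (K : Type) [Field K] (m : ℕ) :
    FiniteDimensional K (homogeneousSubmodule (Fin 3) K m) ∧
      Module.finrank K (homogeneousSubmodule (Fin 3) K m) = (m + 2).choose 2 := by
  classical
  let b : (Finset.finsuppAntidiag (Finset.univ : Finset (Fin 3)) m) → MvPolynomial (Fin 3) K :=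
    fun e => monomial e.1 1
  have hb : LinearIndependent K b :=
    (basisMonomials (Fin 3) K).linearIndependent.comp _ Subtype.val_injective
  have hs : Submodule.span K (Set.range b) = homogeneousSubmodule (Fin 3) K m := by
    apply le_antisymm
    · rw [Submodule.span_le]
      rintro _ ⟨e, rfl⟩
      refine (mem_homogeneousSubmodule _ _).2 (isHomogeneous_monomial _ ?_)
      have := (Finset.mem_finsuppAntidiag.1 e.2).1
      rw [Finsupp.degree_eq_sum]
      exact this
    · intro p hp
      rw [p.as_sum]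
      refine Submodule.sum_mem _ fun e he => ?_
      have h1 : (monomial e (coeff e p) : MvPolynomial (Fin 3) K) =
          coeff e p • monomial e 1 := by
        rw [smul_monomial, smul_eq_mul, mul_one]
      rw [h1]
      refine Submodule.smul_mem _ _ (Submodule.subset_span ⟨⟨e, ?_⟩, rfl⟩)
      rw [Finset.mem_finsuppAntidiag]
      refine ⟨?_, Finset.subset_univ _⟩
      have h2 : e.degree = m := by
        by_contra hc
        exact (mem_support_iff.1 he) (((mem_homogeneousSubmodule _ _).1 hp).coeff_eq_zero hc)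
      rw [← h2, Finsupp.degree_eq_sum]
  refine ⟨?_, ?_⟩
  · rw [← hs]
    exact FiniteDimensional.span_of_finite K (Set.finite_range b)
  · rw [← hs, finrank_span_eq_card hb, Fintype.card_coe,
      Finset.card_finsuppAntidiag_nat_eq_choose, Finset.card_univ, Fintype.card_fin,
      show 3 + m - 1 = m + 2 by omega]
    exact Nat.choose_symm_add

/-- evaluation of forms at a point -/
noncomputable def dimEv (x : Fin 3 → K) (m : ℕ) :
    Module.Dual K (homogeneousSubmodule (Fin 3) K m) :=
  (aeval x : MvPolynomial (Fin 3) K →ₐ[K] K).toLinearMap ∘ₗ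
    (homogeneousSubmodule (Fin 3) K m).subtype

theorem dimEv_apply (x : Fin 3 → K) (m : ℕ) (P : homogeneousSubmodule (Fin 3) K m) :
    dimEv x m P = eval x (P : MvPolynomial (Fin 3) K) := by
  show aeval x (P : MvPolynomial (Fin 3) K) = _
  rw [← MvPolynomial.coe_aeval_eq_eval]
  rfl

/-- independent functionals take arbitrary values -/
theorem dim_surj {V κ : Type*} [AddCommGroup V] [Module K V] [Fintype κ]
    (f : κ → Module.Dual K V) (hf : LinearIndependent K f) :
    Function.Surjective (LinearMap.pi f : V →ₗ[K] κ → K) := by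
  classical
  rw [← LinearMap.range_eq_top]
  by_contra hne
  obtain ⟨g, hg0, hg⟩ := Submodule.exists_le_ker_of_lt_top _ (lt_top_iff_ne_top.2 hne)
  apply hg0
  have h1 : ∑ j, g (Pi.single j 1) • f j = 0 := by
    ext P
    have h2 : g (LinearMap.pi f P) = 0 := hg ⟨P, rfl⟩
    have h3 : (LinearMap.pi f P : κ → K) = ∑ j, f j P • (Pi.single j (1 : K) : κ → K) := by
      ext i
      simp [Finset.sum_apply, Pi.single_apply]
    rw [h3, map_sum] at h2
    simp only [map_smul, smul_eq_mul] at h2
    rw [LinearMap.sum_apply, LinearMap.zero_apply]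
    simp only [LinearMap.smul_apply, smul_eq_mul]
    rw [← h2]
    exact Finset.sum_congr rfl fun j _ => mul_comm _ _
  have h4 := Fintype.linearIndependent_iff.1 hf _ h1
  apply LinearMap.pi_ext'
  intro j
  ext
  simpa using h4 j

/-- The infinitely many points `x n`, `n ∈ S`, lie on the irreducible curve `g = 0` of degree `D`.
There are finitely many of them which impose the same conditions as all of them on the forms of
degree `m`, and impose independent conditions. -/
theorem exists_basis_points {x : ℕ → Fin 3 → K} {S : Set ℕ} (hS : S.Infinite)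
    (hx : ∀ n ∈ S, x n ≠ 0) (hnp : ∀ n ∈ S, ∀ n' ∈ S, n ≠ n' → ¬ PEq (x n) (x n'))
    {g : MvPolynomial (Fin 3) K} {D : ℕ} (hg : g.IsHomogeneous D) (hirr : Irreducible g)
    (hgx : ∀ n ∈ S, eval (x n) g = 0) (m : ℕ) :
    ∃ Γ : Finset ℕ, (↑Γ ⊆ S) ∧
      (∀ P : MvPolynomial (Fin 3) K, P.IsHomogeneous m → (∀ i ∈ Γ, eval (x i) P = 0) → g ∣ P) ∧
      (∀ v : ℕ → K, ∃ P : MvPolynomial (Fin 3) K, P.IsHomogeneous m ∧
        ∀ i ∈ Γ, eval (x i) P = v i) ∧
      (D ≤ m → Γ.card + (m - D + 2).choose 2 = (m + 2).choose 2) := by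
  classical
  obtain ⟨hfin, hdim⟩ := finrank_forms K m
  obtain ⟨κ, a, hainj, haspan, hali⟩ :=
    exists_linearIndependent' K (fun n : S => dimEv (x n) m)
  have hκ : Finite κ := hali.finite
  have : Fintype κ := Fintype.ofFinite κ
  have hinj : Function.Injective fun j => (a j : ℕ) := Subtype.val_injective.comp hainj
  -- vanishing at the chosen points
  have key : ∀ P : MvPolynomial (Fin 3) K, P.IsHomogeneous m →
      (∀ j, eval (x (a j)) P = 0) → g ∣ P := by
    intro P hP h0
    by_contra hnd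
    have h1 : ∀ n ∈ S, eval (x n) P = 0 := by
      intro n hn
      have h2 : dimEv (x n) m ∈ Submodule.span K
          (Set.range ((fun n : S => dimEv (x n) m) ∘ a)) := by
        rw [haspan]
        exact Submodule.subset_span ⟨⟨n, hn⟩, rfl⟩
      have h3 : ∀ f ∈ Submodule.span K (Set.range ((fun n : S => dimEv (x n) m) ∘ a)),
          f ⟨P, (mem_homogeneousSubmodule _ _).2 hP⟩ = 0 := by
        intro f hf
        induction hf using Submodule.span_induction with
        | mem f hf =>
          obtain ⟨j, rfl⟩ := hf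
          rw [Function.comp_apply, dimEv_apply]
          exact h0 j
        | zero => rfl
        | add f f' _ _ h h' => rw [LinearMap.add_apply, h, h', add_zero]
        | smul c f _ h => rw [LinearMap.smul_apply, h, smul_zero]
      have h4 := h3 _ h2
      rwa [dimEv_apply] at h4
    have h5 := finite_common_zeros hg hP hirr hnd (fun n : S => x n) (fun n => hx n n.2)
      (fun i j hij => hnp i i.2 j j.2 fun h => hij (Subtype.ext h))
    have h6 : {i : S | eval (x i) g = 0 ∧ eval (x i) P = 0} = Set.univ := by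
      ext i
      simp only [Set.mem_ofPred_eq, Set.mem_univ, iff_true]
      exact ⟨hgx i i.2, h1 i i.2⟩
    rw [h6] at h5
    exact hS (Set.finite_coe_iff.1 (Set.finite_univ_iff.1 h5))
  have hsurj := dim_surj _ hali
  refine ⟨Finset.univ.image fun j => (a j : ℕ), ?_, ?_, ?_, ?_⟩
  · intro n hn
    simp only [Finset.coe_image, Finset.coe_univ, Set.image_univ, Set.mem_range] at hn
    obtain ⟨j, rfl⟩ := hn
    exact (a j).2
  · intro P hP h0
    exact key P hP fun j => h0 _ (Finset.mem_image_of_mem _ (Finset.mem_univ j))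
  · intro v
    obtain ⟨P, hP⟩ := hsurj fun j => v (a j)
    refine ⟨P, (mem_homogeneousSubmodule _ _).1 P.2, ?_⟩
    intro i hi
    obtain ⟨j, -, rfl⟩ := Finset.mem_image.1 hi
    have h1 := congrFun hP j
    rwa [LinearMap.pi_apply, Function.comp_apply, dimEv_apply] at h1
  · intro hDm
    rw [Finset.card_image_of_injective _ hinj, Finset.card_univ]
    obtain ⟨hfin', hdim'⟩ := finrank_forms K (m - D)
    -- multiplication by `g`
    let ψ : homogeneousSubmodule (Fin 3) K (m - D) →ₗ[K] homogeneousSubmodule (Fin 3) K m :=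
      { toFun := fun Q => ⟨g * Q, (mem_homogeneousSubmodule _ _).2 (by
          have := hg.mul ((mem_homogeneousSubmodule _ _).1 Q.2)
          rwa [show D + (m - D) = m by omega] at this)⟩
        map_add' := fun Q Q' => Subtype.ext (by
          simp only [Submodule.coe_add]
          ring)
        map_smul' := fun c Q => Subtype.ext (by
          simp only [Submodule.coe_smul, RingHom.id_apply, mul_smul_comm]) }
    have hψ : Function.Injective ψ := by
      intro Q Q' h
      have h1 : g * (Q : MvPolynomial (Fin 3) K) = g * Q' := congrArg Subtype.val h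
      exact Subtype.ext (mul_left_cancel₀ hirr.ne_zero h1)
    have hker : LinearMap.ker (LinearMap.pi ((fun n : S => dimEv (x n) m) ∘ a)) =
        LinearMap.range ψ := by
      apply le_antisymm
      · intro P hP
        rw [LinearMap.mem_ker] at hP
        obtain ⟨q, hq⟩ := key P ((mem_homogeneousSubmodule _ _).1 P.2) (by
          intro j
          have h1 := congrFun hP j
          rwa [LinearMap.pi_apply, Function.comp_apply, dimEv_apply] at h1)
        by_cases hP0 : (P : MvPolynomial (Fin 3) K) = 0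
        · have : P = 0 := Subtype.ext hP0
          rw [this]
          exact Submodule.zero_mem _
        · obtain ⟨i, j, hi, hj, hij⟩ := form_of_mul ((mem_homogeneousSubmodule _ _).1 P.2) hP0 hq
          have h2 : i = D := hi.inj_right hg hirr.ne_zero
          refine ⟨⟨q, (mem_homogeneousSubmodule _ _).2 ?_⟩, Subtype.ext hq.symm⟩
          rwa [show m - D = j by omega]
      · rintro _ ⟨Q, rfl⟩
        rw [LinearMap.mem_ker]
        funext j
        rw [LinearMap.pi_apply, Function.comp_apply, dimEv_apply]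
        show eval (x (a j)) (g * (Q : MvPolynomial (Fin 3) K)) = 0
        rw [map_mul, hgx _ (a j).2, zero_mul]
    have h1 := LinearMap.finrank_range_add_finrank_ker
      (LinearMap.pi ((fun n : S => dimEv (x n) m) ∘ a))
    rw [hker, LinearMap.finrank_range_of_inj hψ, LinearMap.range_eq_top.2 hsurj, finrank_top,
      Module.finrank_fintype_fun_eq_card, hdim, hdim'] at h1
    exact h1

end Pool.Agent.Helper30.TP

end

section

/-!
# Forms with prescribed zeros on a plane curve
-/

set_option autoImplicit false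

namespace Pool.Agent.Helper30.TP

open MvPolynomial

variable {K : Type} [Field K]

theorem Dim3_choose (t : ℕ) : 2 * (t + 2).choose 2 = (t + 2) * (t + 1) := by
  induction t with
  | zero => simp
  | succ t ih =>
    rw [show t + 1 + 2 = (t + 2) + 1 from rfl, Nat.choose_succ_succ' (t + 2) 1, Nat.choose_one_right,
      mul_add, ih]
    ring

theorem Dim3_arith1 {D m c a r k : ℕ} (hD : 0 < D) (hm : D ≤ m)
    (hcard : c + (m - D + 2).choose 2 = (m + 2).choose 2) (hk : a + c = (m + D + 2).choose 2)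
    (h2 : r ≤ a)
    (h1 : r + k = (D - 1 + 2).choose 2 + ((D - 1 + 2).choose 2 + (m + 2).choose 2)) : 0 < k := by
  obtain ⟨u, rfl⟩ := Nat.exists_eq_add_of_le hm
  obtain ⟨E, rfl⟩ := Nat.exists_eq_add_of_le' hD
  have c1 := Dim3_choose E
  have c2 := Dim3_choose (E + 1 + u)
  have c3 := Dim3_choose (E + 1 + u + (E + 1))
  have c4 := Dim3_choose u
  rw [show E + Nat.succ 0 - 1 = E by omega] at h1
  rw [show E + Nat.succ 0 + u - (E + Nat.succ 0) = u by omega] at hcard
  nlinarith

theorem Dim3_arith2 {D m c a q : ℕ} (hm : D ≤ m)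
    (hcard : c + (m - D + 2).choose 2 = (m + 2).choose 2) (hk : a + c = (m + 1 + 2).choose 2)
    (h1 : q + (m + 1 - D + 2).choose 2 = a) : q = D := by
  obtain ⟨u, rfl⟩ := Nat.exists_eq_add_of_le hm
  have c1 := Dim3_choose (u + 1)
  have c2 := Dim3_choose (D + u)
  have c3 := Dim3_choose (D + u + 1)
  have c4 := Dim3_choose u
  rw [show D + u + 1 - D = u + 1 by omega] at h1
  rw [show D + u - D = u by omega] at hcard
  nlinarith

theorem Dim3_arith3 {D m c : ℕ} (hD : 0 < D) (hm : D ≤ m)
    (hcard : c + (m - D + 2).choose 2 = (m + 2).choose 2) : m + 1 ≤ c := by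
  obtain ⟨u, rfl⟩ := Nat.exists_eq_add_of_le hm
  obtain ⟨E, rfl⟩ := Nat.exists_eq_add_of_le' hD
  have c2 := Dim3_choose (E + 1 + u)
  have c4 := Dim3_choose u
  rw [show E + Nat.succ 0 + u - (E + Nat.succ 0) = u by omega] at hcard
  nlinarith [Nat.zero_le (E * u), Nat.zero_le (E * E)]

/-- Evaluation of forms at the points. -/
noncomputable def Dim3_ev (x : ℕ → Fin 3 → K) (Γ : Finset ℕ) (n : ℕ) :
    homogeneousSubmodule (Fin 3) K n →ₗ[K] (Γ → K) :=
  LinearMap.pi fun i => (aeval (R := K) (x i)).toLinearMap ∘ₗ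
    (homogeneousSubmodule (Fin 3) K n).subtype

theorem Dim3_ev_apply (x : ℕ → Fin 3 → K) (Γ : Finset ℕ) (n : ℕ)
    (T : homogeneousSubmodule (Fin 3) K n) (i : Γ) :
    Dim3_ev x Γ n T i = eval (x i) (T : MvPolynomial (Fin 3) K) := by
  have h2 := congrArg (fun φ => φ (T : MvPolynomial (Fin 3) K)) (coe_aeval_eq_eval (x i))
  exact h2

theorem Dim3_mem_ker {x : ℕ → Fin 3 → K} {Γ : Finset ℕ} {n : ℕ}
    {T : homogeneousSubmodule (Fin 3) K n} :
    T ∈ (Dim3_ev x Γ n).ker ↔ ∀ i ∈ Γ, eval (x i) (T : MvPolynomial (Fin 3) K) = 0 := by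
  rw [LinearMap.mem_ker]
  constructor
  · intro h i hi
    have := congrFun h ⟨i, hi⟩
    rwa [Dim3_ev_apply] at this
  · intro h
    funext i
    rw [Dim3_ev_apply]
    exact h i i.2

theorem Dim3_finrank {x : ℕ → Fin 3 → K} {Γ : Finset ℕ} {n : ℕ} (h : Indep x Γ n) :
    Module.finrank K (Dim3_ev x Γ n).ker + Γ.card = (n + 2).choose 2 := by
  classical
  obtain ⟨hfd, hfr⟩ := finrank_forms K n
  have h1 := LinearMap.finrank_range_add_finrank_ker (Dim3_ev x Γ n)
  have h2 : (Dim3_ev x Γ n).range = ⊤ := by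
    rw [LinearMap.range_eq_top]
    intro v
    obtain ⟨P, hP, hv⟩ := h (fun i => if hi : i ∈ Γ then v ⟨i, hi⟩ else 0)
    refine ⟨⟨P, (mem_homogeneousSubmodule _ _).2 hP⟩, ?_⟩
    funext i
    rw [Dim3_ev_apply]
    change eval (x i) P = v i
    rw [hv i i.2]
    simp
  rw [h2, finrank_top, Module.finrank_fintype_fun_eq_card, Fintype.card_coe, hfr] at h1
  omega

/-- Multiplication of forms. -/
noncomputable def Dim3_mul {a b c : ℕ} (P : MvPolynomial (Fin 3) K) (hP : P.IsHomogeneous a)
    (h : a + b = c) :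
    homogeneousSubmodule (Fin 3) K b →ₗ[K] homogeneousSubmodule (Fin 3) K c :=
  LinearMap.codRestrict _ ((LinearMap.mulLeft K P) ∘ₗ (homogeneousSubmodule (Fin 3) K b).subtype)
    (fun Q => by
      rw [mem_homogeneousSubmodule]
      have h1 := hP.mul ((mem_homogeneousSubmodule _ _).1 Q.2)
      rw [h] at h1
      exact h1)

theorem Dim3_mul_coe {a b c : ℕ} (P : MvPolynomial (Fin 3) K) (hP : P.IsHomogeneous a)
    (h : a + b = c) (Q : homogeneousSubmodule (Fin 3) K b) :
    ((Dim3_mul P hP h Q : homogeneousSubmodule (Fin 3) K c) : MvPolynomial (Fin 3) K) =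
      P * (Q : MvPolynomial (Fin 3) K) := rfl

theorem Dim3_mul_injective {a b c : ℕ} {P : MvPolynomial (Fin 3) K} (hP : P.IsHomogeneous a)
    (h : a + b = c) (h0 : P ≠ 0) : Function.Injective (Dim3_mul P hP h) := by
  intro Q Q' hQ
  have h1 := congrArg (fun T : homogeneousSubmodule (Fin 3) K c => (T : MvPolynomial (Fin 3) K)) hQ
  simp only [Dim3_mul_coe] at h1
  exact Subtype.ext (mul_left_cancel₀ h0 h1)

/-- A form divisible by a form. -/
theorem Dim3_cofactor {g T : MvPolynomial (Fin 3) K} {D n : ℕ} (hg : g.IsHomogeneous D)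
    (hg0 : g ≠ 0) (hT : T.IsHomogeneous n) (hT0 : T ≠ 0) (h : g ∣ T) :
    D ≤ n ∧ ∃ Q : MvPolynomial (Fin 3) K, Q.IsHomogeneous (n - D) ∧ T = g * Q := by
  obtain ⟨Q, hQ⟩ := h
  obtain ⟨i, j, hi, hj, hij⟩ := form_of_mul hT hT0 hQ
  have h1 : i = D := hi.inj_right hg hg0
  subst h1
  refine ⟨by omega, Q, ?_, hQ⟩
  rwa [show n - i = j by omega]

/-- Forms of small degree are not divisible by `g`. -/
theorem Dim3_not_dvd {g T : MvPolynomial (Fin 3) K} {D n : ℕ} (hg : g.IsHomogeneous D)
    (hg0 : g ≠ 0) (hT : T.IsHomogeneous n) (hT0 : T ≠ 0) (hn : n < D) : ¬ g ∣ T := by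
  intro h
  have := (Dim3_cofactor hg hg0 hT hT0 h).1
  omega

/-- The dimension count. -/
theorem exists_pair [Infinite K] {x : ℕ → Fin 3 → K} {Γ : Finset ℕ} (hx : ∀ i ∈ Γ, x i ≠ 0)
    {g : MvPolynomial (Fin 3) K} {D : ℕ} (hg : g.IsHomogeneous D) (hirr : Irreducible g)
    (hD : 0 < D) (hgx : ∀ i ∈ Γ, eval (x i) g = 0) {m : ℕ} (hm : D ≤ m) (hind : Indep x Γ m)
    (hcard : Γ.card + (m - D + 2).choose 2 = (m + 2).choose 2)
    {G₀ G : MvPolynomial (Fin 3) K} (hG₀ : G₀.IsHomogeneous (m + 1))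
    (hG : G.IsHomogeneous (m + 1)) (hG₀x : ∀ i ∈ Γ, eval (x i) G₀ = 0)
    (hGx : ∀ i ∈ Γ, eval (x i) G = 0) (hnd : ¬ g ∣ G₀) :
    ∃ A A' : MvPolynomial (Fin 3) K, A.IsHomogeneous (D - 1) ∧ A'.IsHomogeneous (D - 1) ∧
      A ≠ 0 ∧ g ∣ G₀ * A' - G * A := by
  classical
  obtain ⟨hfd1, hfr1⟩ := finrank_forms K (D - 1)
  obtain ⟨hfd2, hfr2⟩ := finrank_forms K m
  obtain ⟨hfd3, hfr3⟩ := finrank_forms K (m + D)
  have hind' : Indep x Γ (m + D) := hind.mono hx (by omega)
  have hker := Dim3_finrank hind'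
  have e1 : m + 1 + (D - 1) = m + D := by omega
  have e2 : D + m = m + D := by omega
  let Ψ : (homogeneousSubmodule (Fin 3) K (D - 1) × homogeneousSubmodule (Fin 3) K (D - 1) ×
      homogeneousSubmodule (Fin 3) K m) →ₗ[K] homogeneousSubmodule (Fin 3) K (m + D) :=
    (Dim3_mul (-G) hG.neg e1).coprod ((Dim3_mul G₀ hG₀ e1).coprod (Dim3_mul (-g) hg.neg e2))
  have hΨ : ∀ v, ((Ψ v : homogeneousSubmodule (Fin 3) K (m + D)) : MvPolynomial (Fin 3) K) =
      -G * (v.1 : MvPolynomial (Fin 3) K) + (G₀ * (v.2.1 : MvPolynomial (Fin 3) K) +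
        -g * (v.2.2 : MvPolynomial (Fin 3) K)) := by
    intro v
    simp only [Ψ, LinearMap.coprod_apply, Submodule.coe_add, Dim3_mul_coe]
  have hrange : Ψ.range ≤ (Dim3_ev x Γ (m + D)).ker := by
    rintro _ ⟨v, rfl⟩
    rw [Dim3_mem_ker]
    intro i hi
    rw [hΨ]
    simp only [map_add, map_mul, map_neg, hGx i hi, hG₀x i hi, hgx i hi]
    ring
  have h1 := LinearMap.finrank_range_add_finrank_ker Ψ
  have h2 := Submodule.finrank_mono hrange
  rw [Module.finrank_prod, Module.finrank_prod, hfr1, hfr2] at h1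
  have h3 : 0 < Module.finrank K Ψ.ker := Dim3_arith1 hD hm hcard hker h2 h1
  have h4 : Ψ.ker ≠ ⊥ := by
    intro h
    rw [h, finrank_bot] at h3
    exact absurd h3 (lt_irrefl _)
  obtain ⟨⟨A, A', Q⟩, hv, hv0⟩ := (Submodule.ne_bot_iff _).1 h4
  have h5 := congrArg (fun T : homogeneousSubmodule (Fin 3) K (m + D) =>
    (T : MvPolynomial (Fin 3) K)) (LinearMap.mem_ker.1 hv)
  simp only [hΨ, Submodule.coe_zero] at h5
  have hA : (A : MvPolynomial (Fin 3) K).IsHomogeneous (D - 1) := (mem_homogeneousSubmodule _ _).1 A.2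
  have hA' : (A' : MvPolynomial (Fin 3) K).IsHomogeneous (D - 1) :=
    (mem_homogeneousSubmodule _ _).1 A'.2
  refine ⟨A, A', hA, hA', ?_, ⟨Q, by linear_combination h5⟩⟩
  intro hA0
  apply hv0
  rw [hA0] at h5
  have h6 : g ∣ G₀ * (A' : MvPolynomial (Fin 3) K) := ⟨Q, by linear_combination h5⟩
  have h7 : (A' : MvPolynomial (Fin 3) K) = 0 := by
    by_contra h0
    exact Dim3_not_dvd hg hirr.ne_zero hA' h0 (by omega)
      ((hirr.prime.dvd_or_dvd h6).resolve_left hnd)
  have h8 : (Q : MvPolynomial (Fin 3) K) = 0 := by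
    rw [h7] at h5
    have : g * (Q : MvPolynomial (Fin 3) K) = 0 := by linear_combination -h5
    exact (mul_eq_zero.1 this).resolve_left hirr.ne_zero
  exact Prod.ext (Subtype.ext hA0) (Prod.ext (Subtype.ext h7) (Subtype.ext h8))

theorem Dim3_quot {V W : Type} [AddCommGroup V] [Module K V] [FiniteDimensional K V]
    [AddCommGroup W] [Module K W] (μ : W →ₗ[K] V)
    (hμ : Function.Injective μ) {D : ℕ}
    (h : ∀ q, q + Module.finrank K W = Module.finrank K V → q = D) :
    ∃ G : Fin D → V, (∀ j, G j ∉ μ.range) ∧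
      ∀ T : V, ∃ c : Fin D → K, T - ∑ j, c j • G j ∈ μ.range := by
  have h1 : Module.finrank K μ.range = Module.finrank K W := LinearMap.finrank_range_of_inj hμ
  have h2 := Submodule.finrank_quotient_add_finrank μ.range
  rw [h1] at h2
  have h3 : Module.finrank K (V ⧸ μ.range) = D := h _ h2
  have b := Module.finBasisOfFinrankEq K (V ⧸ μ.range) h3
  have hrep : ∀ j, ∃ T : V, μ.range.mkQ T = b j := fun j => μ.range.mkQ_surjective (b j)
  choose R hR using hrep
  refine ⟨R, fun j hj => ?_, fun T => ⟨fun j => b.repr (μ.range.mkQ T) j, ?_⟩⟩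
  · apply b.ne_zero j
    rw [← hR j, Submodule.mkQ_apply, Submodule.Quotient.mk_eq_zero]
    exact hj
  · rw [← Submodule.Quotient.mk_eq_zero, ← Submodule.mkQ_apply, map_sub, map_sum]
    simp only [map_smul, hR]
    rw [b.sum_repr, sub_self]

/-- The forms of degree `m + 1` vanishing at `Γ` are modulo `g` spanned by `D` forms. -/
theorem exists_generators [Infinite K] {x : ℕ → Fin 3 → K} {Γ : Finset ℕ}
    (hx : ∀ i ∈ Γ, x i ≠ 0)
    {g : MvPolynomial (Fin 3) K} {D : ℕ} (hg : g.IsHomogeneous D) (hirr : Irreducible g)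
    (hD : 0 < D) (hgx : ∀ i ∈ Γ, eval (x i) g = 0) {m : ℕ} (hm : D ≤ m) (hind : Indep x Γ m)
    (hcard : Γ.card + (m - D + 2).choose 2 = (m + 2).choose 2) :
    ∃ G : Fin D → MvPolynomial (Fin 3) K, (∀ j, (G j).IsHomogeneous (m + 1)) ∧
      (∀ j, ∀ i ∈ Γ, eval (x i) (G j) = 0) ∧ (∀ j, ¬ g ∣ G j) ∧
      ∀ T : MvPolynomial (Fin 3) K, T.IsHomogeneous (m + 1) → (∀ i ∈ Γ, eval (x i) T = 0) →
        ∃ c : Fin D → K, g ∣ T - ∑ j, C (c j) * G j := by
  classical
  obtain ⟨hfd1, hfr1⟩ := finrank_forms K (m + 1 - D)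
  obtain ⟨hfd2, hfr2⟩ := finrank_forms K (m + 1)
  have hind' : Indep x Γ (m + 1) := hind.mono hx (by omega)
  have hker := Dim3_finrank hind'
  have e1 : D + (m + 1 - D) = m + 1 := by omega
  set Λ := (Dim3_ev x Γ (m + 1)).ker with hΛ
  let μ : homogeneousSubmodule (Fin 3) K (m + 1 - D) →ₗ[K] Λ :=
    LinearMap.codRestrict _ (Dim3_mul g hg e1) (fun Q => by
      rw [hΛ, Dim3_mem_ker]
      intro i hi
      rw [Dim3_mul_coe, map_mul, hgx i hi, zero_mul])
  have hμ : ∀ Q, (((μ Q : Λ) : homogeneousSubmodule (Fin 3) K (m + 1)) :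
      MvPolynomial (Fin 3) K) = g * (Q : MvPolynomial (Fin 3) K) := fun Q => rfl
  have hμi : Function.Injective μ := by
    intro Q Q' hQ
    apply Dim3_mul_injective hg e1 hirr.ne_zero
    exact congrArg (fun T : Λ => (T : homogeneousSubmodule (Fin 3) K (m + 1))) hQ
  obtain ⟨R, hR1, hR2⟩ := Dim3_quot (V := Λ) μ hμi (D := D) (fun q hq => by
    rw [hfr1] at hq
    exact Dim3_arith2 hm hcard hker hq)
  refine ⟨fun j => ((R j : homogeneousSubmodule (Fin 3) K (m + 1)) : MvPolynomial (Fin 3) K),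
    fun j => (mem_homogeneousSubmodule _ _).1 (R j : homogeneousSubmodule (Fin 3) K (m + 1)).2,
    fun j => Dim3_mem_ker.1 (R j).2, fun j hj => ?_, fun T hT hTx => ?_⟩
  · apply hR1 j
    by_cases h0 : ((R j : homogeneousSubmodule (Fin 3) K (m + 1)) : MvPolynomial (Fin 3) K) = 0
    · have h5 : R j = 0 := Subtype.ext (Subtype.ext h0)
      rw [h5]
      exact Submodule.zero_mem _
    · obtain ⟨-, Q, hQ, hQ2⟩ := Dim3_cofactor hg hirr.ne_zero
        ((mem_homogeneousSubmodule _ _).1 (R j : homogeneousSubmodule (Fin 3) K (m + 1)).2) h0 hj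
      refine ⟨⟨Q, (mem_homogeneousSubmodule _ _).2 hQ⟩, ?_⟩
      apply Subtype.ext
      apply Subtype.ext
      rw [hμ]
      exact hQ2.symm
  · obtain ⟨c, Q, hQ⟩ := hR2 ⟨⟨T, (mem_homogeneousSubmodule _ _).2 hT⟩, Dim3_mem_ker.2 hTx⟩
    refine ⟨c, Q, ?_⟩
    rw [← hμ, hQ]
    simp only [Submodule.coe_sub, Submodule.coe_sum, Submodule.coe_smul]
    congr 1
    exact Finset.sum_congr rfl fun j _ => by rw [smul_eq_C_mul]

theorem Dim3_comp_mul {G B : MvPolynomial (Fin 3) K} {δ : ℕ} (hG : G.IsHomogeneous δ) (n : ℕ) :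
    homogeneousComponent (n + δ) (G * B) = G * homogeneousComponent n B := by
  rw [← Gam_coeff, ← Gam_coeff, map_mul, Gam_form hG, mul_assoc, Polynomial.coeff_C_mul,
    mul_comm (Polynomial.X ^ δ), Polynomial.coeff_mul_X_pow]

theorem Dim3_dvd_comp {g R : MvPolynomial (Fin 3) K} {D : ℕ} (hg : g.IsHomogeneous D) (n : ℕ)
    (h : g ∣ R) : g ∣ homogeneousComponent n R := by
  obtain ⟨Q, rfl⟩ := h
  rw [← Gam_coeff, map_mul, Gam_form hg, mul_assoc, Polynomial.coeff_C_mul]
  exact dvd_mul_right _ _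

theorem exists_denominator [Infinite K] {x : ℕ → Fin 3 → K} {S : Set ℕ} (hS : S.Infinite)
    (hx : ∀ n ∈ S, x n ≠ 0) (hnp : ∀ n ∈ S, ∀ n' ∈ S, n ≠ n' → ¬ PEq (x n) (x n'))
    {g : MvPolynomial (Fin 3) K} {D : ℕ} (hg : g.IsHomogeneous D) (hirr : Irreducible g)
    (hgx : ∀ n ∈ S, eval (x n) g = 0) (N : ℕ) :
    ∃ (Γ : Finset ℕ) (δ e : ℕ) (G U : MvPolynomial (Fin 3) K), (↑Γ ⊆ S) ∧ G.IsHomogeneous δ ∧
      U.IsHomogeneous e ∧ e + N ≤ δ ∧ δ ≤ Γ.card ∧ ¬ g ∣ G ∧ ¬ g ∣ U ∧
      ∀ T : MvPolynomial (Fin 3) K, T.IsHomogeneous Γ.card → (∀ i ∈ Γ, eval (x i) T = 0) →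
        ∃ B : MvPolynomial (Fin 3) K, B.IsHomogeneous (Γ.card + e - δ) ∧
          g ∣ T * U - G * B := by
  classical
  have hD : 0 < D := by
    rcases Nat.eq_zero_or_pos D with h0 | h0
    · subst h0
      exfalso
      have h1 : g.totalDegree = 0 := Nat.le_zero.1 hg.totalDegree_le
      rw [totalDegree_eq_zero_iff_eq_C] at h1
      have h2 : coeff 0 g ≠ 0 := by
        intro h
        rw [h, C_0] at h1
        exact hirr.ne_zero h1
      apply hirr.not_isUnit
      rw [h1]
      exact (isUnit_iff_ne_zero.2 h2).map C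
    · exact h0
  set m := D + D * (D - 1) + N with hm
  obtain ⟨Γ, hΓS, -, hind, hcard⟩ := exists_basis_points hS hx hnp hg hirr hgx m
  have hDm : D ≤ m := by omega
  have hcard' := hcard hDm
  have hxΓ : ∀ i ∈ Γ, x i ≠ 0 := fun i hi => hx i (hΓS hi)
  have hgΓ : ∀ i ∈ Γ, eval (x i) g = 0 := fun i hi => hgx i (hΓS hi)
  obtain ⟨G, hGh, hGx, hGn, hGgen⟩ := exists_generators hxΓ hg hirr hD hgΓ hDm hind hcard'
  have hpair : ∀ j, ∃ A A' : MvPolynomial (Fin 3) K, A.IsHomogeneous (D - 1) ∧
      A'.IsHomogeneous (D - 1) ∧ A ≠ 0 ∧ g ∣ G ⟨0, hD⟩ * A' - G j * A := fun j =>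
    exists_pair hxΓ hg hirr hD hgΓ hDm hind hcard' (hGh ⟨0, hD⟩) (hGh j) (hGx ⟨0, hD⟩) (hGx j)
      (hGn ⟨0, hD⟩)
  choose A A' hA hA' hA0 hAA using hpair
  have hcardΓ : m + 1 ≤ Γ.card := Dim3_arith3 hD hDm hcard'
  refine ⟨Γ, m + 1, D * (D - 1), G ⟨0, hD⟩, ∏ j, A j, hΓS, hGh _, ?_, by omega, hcardΓ, hGn _,
    ?_, fun T hT hTx => ?_⟩
  · have h1 := IsHomogeneous.prod Finset.univ A (fun _ => D - 1) (fun j _ => hA j)
    simpa using h1
  · intro h
    rw [Prime.dvd_finsetProd_iff hirr.prime] at h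
    obtain ⟨j, -, hj⟩ := h
    exact Dim3_not_dvd hg hirr.ne_zero (hA j) (hA0 j) (by omega) hj
  · obtain ⟨t, ht⟩ := Nat.exists_eq_add_of_le hcardΓ
    have hTJ : T ∈ Ideal.span (Set.range G) ⊔ Ideal.span {g} := by
      have h1 := castelnuovo hxΓ hind t T (by rw [← ht]; exact hT) hTx
      refine Ideal.span_le.2 ?_ h1
      rintro P ⟨hP, hPx⟩
      obtain ⟨c, Q, hQ⟩ := hGgen P hP hPx
      have h2 : P = ∑ j, C (c j) * G j + Q * g := by linear_combination hQ
      rw [h2]
      refine Submodule.add_mem_sup ?_ (Ideal.mul_mem_left _ _ (Ideal.mem_span_singleton_self g))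
      exact Ideal.sum_mem _ fun j _ => Ideal.mul_mem_left _ _ (Ideal.subset_span ⟨j, rfl⟩)
    obtain ⟨P, hP, R, hR, hPR⟩ := Submodule.mem_sup.1 hTJ
    obtain ⟨B, hB⟩ := (Ideal.mem_span_range_iff_exists_fun).1 hP
    rw [Ideal.mem_span_singleton] at hR
    set B' : MvPolynomial (Fin 3) K := ∑ j, B j * (A' j * ∏ i ∈ Finset.univ.erase j, A i) with hB'
    have hmain : g ∣ T * (∏ j, A j) - G ⟨0, hD⟩ * B' := by
      have h1 : T * (∏ j, A j) - G ⟨0, hD⟩ * B' = R * (∏ j, A j) -
          ∑ j, B j * (∏ i ∈ Finset.univ.erase j, A i) * (G ⟨0, hD⟩ * A' j - G j * A j) := by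
        rw [← hPR, ← hB, hB', add_mul, Finset.sum_mul, Finset.mul_sum]
        have h2 : ∀ j, B j * G j * ∏ i, A i =
            B j * (∏ i ∈ Finset.univ.erase j, A i) * (G j * A j) := by
          intro j
          rw [← Finset.mul_prod_erase Finset.univ A (Finset.mem_univ j)]
          ring
        rw [Finset.sum_congr rfl fun j _ => h2 j]
        simp only [mul_sub, Finset.sum_sub_distrib]
        have h3 : ∑ j, G ⟨0, hD⟩ * (B j * (A' j * ∏ i ∈ Finset.univ.erase j, A i)) =
            ∑ j, B j * (∏ i ∈ Finset.univ.erase j, A i) * (G ⟨0, hD⟩ * A' j) :=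
          Finset.sum_congr rfl fun j _ => by ring
        rw [h3]
        ring
      rw [h1]
      refine dvd_sub (hR.mul_right _) (Finset.dvd_sum fun j _ => (hAA j).mul_left _)
    have hUh : (∏ j, A j).IsHomogeneous (D * (D - 1)) := by
      have h1 := IsHomogeneous.prod Finset.univ A (fun _ => D - 1) (fun j _ => hA j)
      simpa using h1
    refine ⟨homogeneousComponent (Γ.card + D * (D - 1) - (m + 1)) B',
      homogeneousComponent_isHomogeneous _ _, ?_⟩
    have h5 := Dim3_dvd_comp hg (Γ.card + D * (D - 1)) hmain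
    rw [map_sub, homogeneousComponent_of_mem (hT.mul hUh), if_pos rfl] at h5
    have h6 := Dim3_comp_mul (B := B') (hGh ⟨0, hD⟩) (Γ.card + D * (D - 1) - (m + 1))
    rw [show Γ.card + D * (D - 1) - (m + 1) + (m + 1) = Γ.card + D * (D - 1) by omega] at h6
    rwa [h6] at h5

end Pool.Agent.Helper30.TP

end

section

namespace Pool.Agent.Helper16
end Pool.Agent.Helper16
namespace Pool.Agent.Helper36
end Pool.Agent.Helper36

/-!
# Points of a plane curve of large height are close to given points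
-/

set_option autoImplicit false

namespace Pool.Agent.Helper30.TP

open MvPolynomial
open Pool.Agent.Helper16 (Place IsFunctionField)
open Pool.Agent.Helper36 (step iter)

section aux

variable {k K : Type} [Field k] [Field K] [Algebra k K]

/-- The size of the value of a form. -/
theorem low_val_eval_le (b : Place k K) {P : MvPolynomial (Fin 3) K} {e : ℕ}
    (hP : P.IsHomogeneous e) (y : Fin 3 → K) : b.val (eval y P) ≤ gs b P * nrm b y ^ e := by
  rw [eval_eq]
  refine b.val.map_sum_le fun m hm => ?_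
  have hd : ∑ i ∈ m.support, m i = e := by
    have := hP (MvPolynomial.mem_support_iff.1 hm)
    rw [Finsupp.weight_apply] at this
    simpa [Finsupp.sum] using this
  rw [map_mul, map_prod]
  refine mul_le_mul' (formHeight_le b P m) ?_
  rw [← hd, ← Finset.prod_pow_eq_pow_sum]
  refine Finset.prod_le_prod' fun i _ => ?_
  rw [map_pow]
  exact pow_le_pow_left' (val_le_nrm b y i) _

/-- The height is nonnegative. -/
theorem low_ht_nonneg [IsAlgClosed k] (hK : IsFunctionField k K) {x : Fin 3 → K} (hx : x ≠ 0) :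
    0 ≤ ht k x := by
  obtain ⟨i0, hi0⟩ : ∃ i, x i ≠ 0 := by
    by_contra h
    push Not at h
    exact hx (funext h)
  rw [← ht_smul hK (inv_ne_zero hi0) hx]
  unfold ht
  refine finsum_nonneg fun b => ?_
  have h1 : (1 : WithZero (Multiplicative ℤ)) ≤ nrm b ((x i0)⁻¹ • x) := by
    have := val_le_nrm b ((x i0)⁻¹ • x) i0
    rwa [Pi.smul_apply, smul_eq_mul, inv_mul_cancel₀ hi0, map_one] at this
  rw [← WithZero.log_one, WithZero.log_le_log one_ne_zero (lt_of_lt_of_le zero_lt_one h1).ne']
  exact h1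

/-- The linear forms of the cross product with a fixed vector. -/
noncomputable def lowL (u : Fin 3 → K) (a : Fin 3) : MvPolynomial (Fin 3) K :=
  crossProduct (fun j => C (u j)) (fun j => (X j : MvPolynomial (Fin 3) K)) a

theorem lowL_eval (u y : Fin 3 → K) (a : Fin 3) :
    eval y (lowL u a) = crossProduct u y a := by
  unfold lowL
  fin_cases a <;> simp [cross_apply]

theorem lowL_hom (u : Fin 3 → K) (a : Fin 3) : (lowL u a).IsHomogeneous 1 := by
  unfold lowL
  have h : ∀ i j i' j' : Fin 3,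
      ((C (u i) : MvPolynomial (Fin 3) K) * X j - C (u i') * X j').IsHomogeneous 1 :=
    fun i j i' j' => ((isHomogeneous_X K j).C_mul _).sub ((isHomogeneous_X K j').C_mul _)
  fin_cases a
  · simpa [cross_apply] using h 1 2 2 1
  · simpa [cross_apply] using h 2 0 0 2
  · simpa [cross_apply] using h 0 1 1 0

end aux

variable {k K : Type} [Field k] [IsAlgClosed k] [Field K] [Algebra k K]

theorem sum_ht_cross_le (hK : IsFunctionField k K) {x : ℕ → Fin 3 → K} {S : Set ℕ}
    (hS : S.Infinite) (hx : ∀ n ∈ S, x n ≠ 0)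
    (hnp : ∀ n ∈ S, ∀ n' ∈ S, n ≠ n' → ¬ PEq (x n) (x n'))
    {g : MvPolynomial (Fin 3) K} {D : ℕ} (hg : g.IsHomogeneous D) (hirr : Irreducible g)
    (hgx : ∀ n ∈ S, eval (x n) g = 0) (N : ℕ) :
    ∃ (Γ : Finset ℕ) (C : ℤ) (E : Set ℕ), (↑Γ ⊆ S) ∧ E.Finite ∧
      ∀ n ∈ S, n ∉ E → ∑ i ∈ Γ, ht k (crossProduct (x i) (x n)) ≤
        ((Γ.card : ℤ) - N) * ht k (x n) + C := by
  classical
  have : Infinite k := IsAlgClosed.instInfinite
  have : Infinite K := Infinite.of_injective (algebraMap k K) (algebraMap k K).injective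
  obtain ⟨Γ, δ, e, G, U, hΓS, hG, hU, heN, hδ, hgG, hgU, hT⟩ :=
    exists_denominator hS hx hnp hg hirr hgx N
  -- the products of linear forms
  have hTh : ∀ a : Γ → Fin 3, (∏ i : Γ, lowL (x i) (a i)).IsHomogeneous Γ.card := by
    intro a
    have := IsHomogeneous.prod (Finset.univ : Finset Γ) (fun i : Γ => lowL (x i) (a i))
      (fun _ => 1) (fun i _ => lowL_hom _ _)
    simpa using this
  have hT0 : ∀ a : Γ → Fin 3, ∀ i ∈ Γ, eval (x i) (∏ i : Γ, lowL (x i) (a i)) = 0 := by
    intro a i hi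
    rw [map_prod]
    refine Finset.prod_eq_zero (Finset.mem_univ (⟨i, hi⟩ : Γ)) ?_
    rw [lowL_eval, cross_self]
    rfl
  choose B hB hBd using fun a => hT _ (hTh a) (hT0 a)
  -- the constant
  set c : Place k K → ℤ := fun b => ∑ a : Γ → Fin 3, max 0 (WithZero.log (gs b (B a))) with hc
  have hcs : (Function.support c).Finite := by
    have h1 : (⋃ a : Γ → Fin 3,
        Function.support fun b : Place k K => WithZero.log (gs b (B a))).Finite := by
      refine Set.finite_iUnion fun a => ?_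
      by_cases h0 : B a = 0
      · rw [h0]
        simp [formHeight_zero]
      · exact formHeight_support hK h0
    refine h1.subset fun b hb => ?_
    rw [Function.mem_support] at hb
    simp only [Set.mem_iUnion, Function.mem_support]
    by_contra hcon
    push Not at hcon
    apply hb
    rw [hc]
    exact Finset.sum_eq_zero fun a _ => by rw [hcon a, max_self]
  have hcle : ∀ b (a : Γ → Fin 3), WithZero.log (gs b (B a)) ≤ c b := by
    intro b a
    refine (le_max_right 0 _).trans ?_
    exact Finset.single_le_sum (f := fun a => max 0 (WithZero.log (gs b (B a))))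
      (fun a _ => le_max_left _ _) (Finset.mem_univ a)
  -- the exceptional set
  have hfin : ∀ {V : MvPolynomial (Fin 3) K} {t : ℕ}, V.IsHomogeneous t → ¬ g ∣ V →
      {n | n ∈ S ∧ eval (x n) V = 0}.Finite := by
    intro V t hV hgV
    have h1 := finite_common_zeros hg hV hirr hgV (fun n : S => x n) (fun n => hx n n.2)
      (fun i j hij => hnp i i.2 j j.2 fun h => hij (Subtype.ext h))
    refine (h1.image Subtype.val).subset ?_
    rintro n ⟨hn, h0⟩
    exact ⟨⟨n, hn⟩, ⟨hgx n hn, h0⟩, rfl⟩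
  refine ⟨Γ, ∑ᶠ b : Place k K, c b, {n | n ∈ S ∧ eval (x n) G = 0} ∪
    {n | n ∈ S ∧ eval (x n) U = 0} ∪ (Γ : Set ℕ), hΓS,
    ((hfin hG hgG).union (hfin hU hgU)).union (Finset.finite_toSet _), fun n hn hnE => ?_⟩
  have hGn : eval (x n) G ≠ 0 := fun h => hnE (Or.inl (Or.inl ⟨hn, h⟩))
  have hUn : eval (x n) U ≠ 0 := fun h => hnE (Or.inl (Or.inr ⟨hn, h⟩))
  have hnΓ : n ∉ Γ := fun h => hnE (Or.inr h)
  have hcr : ∀ i ∈ Γ, crossProduct (x i) (x n) ≠ 0 := fun i hi =>
    cross_ne_zero (hx i (hΓS hi)) (hx n hn)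
      (hnp i (hΓS hi) n hn fun h => hnΓ (h ▸ hi))
  -- the relation at the point
  have hrel : ∀ a : Γ → Fin 3, (∏ i : Γ, crossProduct (x i) (x n) (a i)) * eval (x n) U =
      eval (x n) G * eval (x n) (B a) := by
    intro a
    obtain ⟨q, hq⟩ := hBd a
    have h1 := congrArg (eval (x n)) hq
    rw [map_sub, map_mul, map_mul, map_mul, hgx n hn, zero_mul, sub_eq_zero, map_prod] at h1
    simp only [lowL_eval] at h1
    exact h1
  -- the local estimate
  have hloc : ∀ b : Place k K, ∑ i : Γ, WithZero.log (nrm b (crossProduct (x i) (x n))) +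
      WithZero.log (b.val (eval (x n) U)) ≤ WithZero.log (b.val (eval (x n) G)) + c b +
        ((Γ.card + e - δ : ℕ) : ℤ) * WithZero.log (nrm b (x n)) := by
    intro b
    choose a ha using fun i : Γ => exists_val_eq_nrm b (crossProduct (x i) (x n))
    have hne : ∀ i : Γ, nrm b (crossProduct (x i) (x n)) ≠ 0 := fun i =>
      nrm_ne_zero (hcr i i.2)
    have h1 := congrArg b.val (hrel a)
    rw [map_mul, map_mul, map_prod] at h1
    simp only [ha] at h1
    have hU0 : b.val (eval (x n) U) ≠ 0 := by simpa using hUn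
    have hG0 : b.val (eval (x n) G) ≠ 0 := by simpa using hGn
    have hP0 : ∏ i : Γ, nrm b (crossProduct (x i) (x n)) ≠ 0 :=
      Finset.prod_ne_zero_iff.2 fun i _ => hne i
    have hB0 : b.val (eval (x n) (B a)) ≠ 0 := by
      intro h
      rw [h, mul_zero] at h1
      exact mul_ne_zero hP0 hU0 h1
    have h2 := low_val_eval_le b (hB a) (x n)
    have h3 : gs b (B a) * nrm b (x n) ^ (Γ.card + e - δ) ≠ 0 := by
      intro h
      rw [h, le_zero_iff] at h2
      exact hB0 h2
    have h4 : gs b (B a) ≠ 0 := left_ne_zero_of_mul h3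
    have h5 : nrm b (x n) ^ (Γ.card + e - δ) ≠ 0 := right_ne_zero_of_mul h3
    rw [← WithZero.log_le_log hB0 h3, WithZero.log_mul h4 h5, WithZero.log_pow] at h2
    have h6 := congrArg WithZero.log h1
    rw [WithZero.log_mul hP0 hU0, WithZero.log_mul hG0 hB0] at h6
    have h7 : WithZero.log (∏ i : Γ, nrm b (crossProduct (x i) (x n))) =
        ∑ i : Γ, WithZero.log (nrm b (crossProduct (x i) (x n))) := by
      have key : ∀ s : Finset Γ, WithZero.log (∏ i ∈ s, nrm b (crossProduct (x i) (x n))) =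
          ∑ i ∈ s, WithZero.log (nrm b (crossProduct (x i) (x n))) := by
        intro s
        induction s using Finset.induction_on with
        | empty => simp
        | insert i s hi ih =>
          rw [Finset.prod_insert hi, Finset.sum_insert hi, WithZero.log_mul (hne i)
            (Finset.prod_ne_zero_iff.2 fun j _ => hne j), ih]
      exact key _
    have h8 := hcle b a
    rw [← h7, h6]
    rw [nsmul_eq_mul] at h2
    linarith
  -- the sum over the places
  have hs1 : ∀ i : Γ, (Function.support fun b : Place k K =>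
      WithZero.log (nrm b (crossProduct (x i) (x n)))).Finite := fun i =>
    nrm_support hK _ (hcr i i.2)
  have hs2 := finsum_log hK _ hUn
  have hs3 := finsum_log hK _ hGn
  have hs4 := nrm_support hK _ (hx n hn)
  have hs1' : (Function.support fun b : Place k K =>
      ∑ i : Γ, WithZero.log (nrm b (crossProduct (x i) (x n)))).Finite := by
    refine (Set.finite_iUnion hs1).subset fun b hb => ?_
    rw [Function.mem_support] at hb
    simp only [Set.mem_iUnion, Function.mem_support]
    by_contra hcon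
    push Not at hcon
    exact hb (Finset.sum_eq_zero fun i _ => hcon i)
  have hs4' : (Function.support fun b : Place k K =>
      ((Γ.card + e - δ : ℕ) : ℤ) * WithZero.log (nrm b (x n))).Finite := by
    refine hs4.subset fun b hb => ?_
    rw [Function.mem_support] at hb ⊢
    exact right_ne_zero_of_mul hb
  have hs5 : (Function.support fun b : Place k K =>
      WithZero.log (b.val (eval (x n) G)) + c b).Finite :=
    (hs3.1.union hcs).subset (Function.support_add _ _)
  have hsum := finsum_le_finsum' ((hs1'.union hs2.1).subset (Function.support_add _ _))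
    ((hs5.union hs4').subset (Function.support_add _ _)) hloc
  rw [finsum_add_distrib hs1' hs2.1, finsum_add_distrib hs5 hs4',
    finsum_add_distrib hs3.1 hcs, hs2.2, hs3.2, add_zero, zero_add, ← mul_finsum,
    finsum_sum_comm] at hsum
  · have h9 : ∑ i ∈ Γ, ht k (crossProduct (x i) (x n)) =
        ∑ i : Γ, ht k (crossProduct (x i) (x n)) :=
      (Finset.sum_coe_sort Γ fun i => ht k (crossProduct (x i) (x n))).symm
    rw [h9]
    have h10 := low_ht_nonneg hK (hx n hn)
    have h11 : ((Γ.card + e - δ : ℕ) : ℤ) ≤ (Γ.card : ℤ) - N := by omega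
    have h12 := mul_le_mul_of_nonneg_right h11 h10
    unfold ht at h12 ⊢
    linarith
  · exact fun i _ => hs1 i

end Pool.Agent.Helper30.TP

end

section

namespace Pool.Agent.Helper16
end Pool.Agent.Helper16
namespace Pool.Agent.Helper36
end Pool.Agent.Helper36

/-!
# The case in which all cycles are superattracting
-/

set_option autoImplicit false

namespace Pool.Agent.Helper30.TP

open MvPolynomial
open Pool.Agent.Helper16 (Place IsFunctionField)
open Pool.Agent.Helper36 (step iter iter_zero iter_succ iter_succ' iter_add iter_map)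

variable {k K : Type} [Field k] [IsAlgClosed k] [Field K] [Algebra k K]

theorem sum_support_finite {α : Type*} {ι : Type*} (s : Finset ι) (f : ι → α → ℤ)
    (h : ∀ i ∈ s, (Function.support (f i)).Finite) :
    (Function.support fun a => ∑ i ∈ s, f i a).Finite := by
  refine (s.finite_toSet.biUnion fun i hi => h i hi).subset ?_
  intro a ha
  by_contra hcon
  apply ha
  apply Finset.sum_eq_zero
  intro i hi
  by_contra h0
  exact hcon (Set.mem_biUnion (Finset.mem_coe.2 hi) h0)

theorem finsum_sum_swap {α : Type*} {ι : Type*} (s : Finset ι) (f : ι → α → ℤ)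
    (h : ∀ i ∈ s, (Function.support (f i)).Finite) :
    ∑ᶠ a, ∑ i ∈ s, f i a = ∑ i ∈ s, ∑ᶠ a, f i a :=
  (finsum_sum_comm s (fun a i => f i a) h)

end Pool.Agent.Helper30.TP

end

section

namespace Pool.Agent.Helper16
end Pool.Agent.Helper16
namespace Pool.Agent.Helper36
end Pool.Agent.Helper36

/-!
# Limit fields
-/

set_option autoImplicit false

namespace Pool.Agent.Helper30.TP

open MvPolynomial
open Pool.Agent.Helper16 (Place IsFunctionField)
open Pool.Agent.Helper36 (step iter)

/-- Sequences which are bounded at `b`, along the ultrafilter. -/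
def bddSub {k K : Type} [Field k] [Field K] [Algebra k K] (b : Place k K) (W : Ultrafilter ℕ) :
    Subring (ℕ → K) where
  carrier := {u | ∃ c : ℕ, ∀ᶠ a in (W : Filter ℕ), b.val (u a) ≤ WithZero.exp (c : ℤ)}
  mul_mem' := by
    rintro u v ⟨c, hc⟩ ⟨c', hc'⟩
    refine ⟨c + c', ?_⟩
    filter_upwards [hc, hc'] with a h1 h2
    rw [Pi.mul_apply, map_mul, Nat.cast_add, WithZero.exp_add]
    exact mul_le_mul' h1 h2
  one_mem' := ⟨0, Filter.Eventually.of_forall fun a => by
    rw [Pi.one_apply, map_one, Nat.cast_zero, WithZero.exp_zero]⟩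
  add_mem' := by
    rintro u v ⟨c, hc⟩ ⟨c', hc'⟩
    refine ⟨c + c', ?_⟩
    filter_upwards [hc, hc'] with a h1 h2
    rw [Pi.add_apply]
    refine (b.val.map_add (u a) (v a)).trans (max_le (h1.trans ?_) (h2.trans ?_))
    · rw [WithZero.exp_le_exp]
      push_cast
      omega
    · rw [WithZero.exp_le_exp]
      push_cast
      omega
  zero_mem' := ⟨0, Filter.Eventually.of_forall fun a => by
    rw [Pi.zero_apply, map_zero]
    exact zero_le⟩
  neg_mem' := by
    rintro u ⟨c, hc⟩
    refine ⟨c, ?_⟩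
    filter_upwards [hc] with a h1
    rw [Pi.neg_apply, Valuation.map_neg]
    exact h1

theorem const_mem_bddSub {k K : Type} [Field k] [Field K] [Algebra k K] (b : Place k K)
    (W : Ultrafilter ℕ) (c : K) : (fun _ => c) ∈ bddSub b W := by
  by_cases hc : c = 0
  · subst hc
    exact (bddSub b W).zero_mem
  · refine ⟨(WithZero.log (b.val c)).toNat, Filter.Eventually.of_forall fun a => ?_⟩
    have h1 : b.val c ≠ 0 := (Valuation.ne_zero_iff _).2 hc
    show b.val c ≤ _
    rw [← WithZero.log_le_iff_le_exp h1]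
    exact Int.self_le_toNat _

end Pool.Agent.Helper30.TP

end
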