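import Pool.Agent.Helper29.MG2.T12
import Pool.Agent.Helper29.MG2.T13
import Pool.Agent.Helper29.MG2.T08

section

namespace Pool.Agent.Helper30.TP
end Pool.Agent.Helper30.TP

/-!
# The auxiliary forms
-/

set_option autoImplicit false

namespace Pool.Agent.Helper63.TK

open MvPolynomial
open Pool.Agent.Helper30.TP

variable {K : Type} [Field K]

theorem AuxF_arith {D m w c r a : ℕ} (hD : 0 < D) (hm : D ≤ m)
    (hcard : c + (m - D + 2).choose 2 = (m + 2).choose 2) (hw : D + 2 ≤ w)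
    (hmw : m + D + 1 ≤ 2 * w)
    (h1 : r + a = (w + 2).choose 2 + (w - 2 + 2).choose 2) (h2 : r ≤ c)
    (h3 : a ≤ (w - D + 2).choose 2 + (w - 2 - D + 2).choose 2) : False := by
  obtain ⟨u, rfl⟩ := Nat.exists_eq_add_of_le hm
  obtain ⟨t, rfl⟩ := Nat.exists_eq_add_of_le hw
  have c1 := Dim3_choose u
  have c2 := Dim3_choose (D + u)
  have c3 := Dim3_choose (D + 2 + t)
  have c4 := Dim3_choose (D + t)
  have c5 := Dim3_choose (t + 2)
  have c6 := Dim3_choose t
  rw [show D + u - D = u by omega] at hcard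
  rw [show D + 2 + t - 2 = D + t by omega] at h1
  rw [show D + 2 + t - D = t + 2 by omega, show D + 2 + t - 2 - D = t by omega] at h3
  have h4 := Nat.mul_le_mul_left D hmw
  nlinarith

theorem exists_aux {x : ℕ → Fin 3 → K} {Γ : Finset ℕ} {g : MvPolynomial (Fin 3) K} {D : ℕ}
    (hg : g.IsHomogeneous D) (hg0 : g ≠ 0) (hD : 0 < D) {m w : ℕ} (hm : D ≤ m)
    (hcard : Γ.card + (m - D + 2).choose 2 = (m + 2).choose 2) (hw : D + 2 ≤ w)
    (hmw : m + D + 1 ≤ 2 * w) (v : ℕ → K) :
    ∃ A U : MvPolynomial (Fin 3) K, A.IsHomogeneous w ∧ U.IsHomogeneous (w - 2) ∧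
      ¬ (g ∣ A ∧ g ∣ U) ∧ ∀ i ∈ Γ, eval (x i) A = eval (x i) U * v i := by
  classical
  obtain ⟨hfd1, hfr1⟩ := finrank_forms K w
  obtain ⟨hfd2, hfr2⟩ := finrank_forms K (w - 2)
  obtain ⟨hfd3, hfr3⟩ := finrank_forms K (w - D)
  obtain ⟨hfd4, hfr4⟩ := finrank_forms K (w - 2 - D)
  have e1 : D + (w - D) = w := by omega
  have e2 : D + (w - 2 - D) = w - 2 := by omega
  let Φ : (homogeneousSubmodule (Fin 3) K w × homogeneousSubmodule (Fin 3) K (w - 2)) →ₗ[K]
      (Γ → K) :=
    (Dim3_ev x Γ w).coprod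
      ((LinearMap.pi fun i : Γ => (-v i) • LinearMap.proj i) ∘ₗ Dim3_ev x Γ (w - 2))
  have hΦ : ∀ (p : homogeneousSubmodule (Fin 3) K w × homogeneousSubmodule (Fin 3) K (w - 2))
      (i : Γ), Φ p i = eval (x i) (p.1 : MvPolynomial (Fin 3) K) -
        eval (x i) (p.2 : MvPolynomial (Fin 3) K) * v i := by
    intro p i
    simp only [Φ, LinearMap.coprod_apply, Pi.add_apply, LinearMap.comp_apply, LinearMap.pi_apply,
      LinearMap.smul_apply, LinearMap.proj_apply, Dim3_ev_apply, smul_eq_mul]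
    ring
  let M : (homogeneousSubmodule (Fin 3) K (w - D) × homogeneousSubmodule (Fin 3) K (w - 2 - D))
      →ₗ[K] (homogeneousSubmodule (Fin 3) K w × homogeneousSubmodule (Fin 3) K (w - 2)) :=
    (Dim3_mul g hg e1).prodMap (Dim3_mul g hg e2)
  have hne : ¬ Φ.ker ≤ M.range := by
    intro hle
    have h1 := LinearMap.finrank_range_add_finrank_ker Φ
    rw [Module.finrank_prod, hfr1, hfr2] at h1
    have h2 : Module.finrank K Φ.range ≤ Γ.card := by
      have := Submodule.finrank_le Φ.range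
      rwa [Module.finrank_fintype_fun_eq_card, Fintype.card_coe] at this
    have h3 : Module.finrank K Φ.ker ≤ (w - D + 2).choose 2 + (w - 2 - D + 2).choose 2 := by
      refine (Submodule.finrank_mono hle).trans ?_
      have := LinearMap.finrank_range_le M
      rwa [Module.finrank_prod, hfr3, hfr4] at this
    exact AuxF_arith hD hm hcard hw hmw h1 h2 h3
  obtain ⟨⟨A, U⟩, hk, hr⟩ := SetLike.not_le_iff_exists.1 hne
  have hA := (mem_homogeneousSubmodule _ _).1 A.2
  have hU := (mem_homogeneousSubmodule _ _).1 U.2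
  have key : ∀ {n : ℕ} (hn : D ≤ n) (T : homogeneousSubmodule (Fin 3) K n),
      g ∣ (T : MvPolynomial (Fin 3) K) → ∃ Q : homogeneousSubmodule (Fin 3) K (n - D),
        (T : MvPolynomial (Fin 3) K) = g * (Q : MvPolynomial (Fin 3) K) := by
    intro n hn T hT
    by_cases h0 : (T : MvPolynomial (Fin 3) K) = 0
    · exact ⟨0, by rw [h0]; simp⟩
    · obtain ⟨-, Q, hQ, hQ2⟩ := Dim3_cofactor hg hg0 ((mem_homogeneousSubmodule _ _).1 T.2) h0 hT
      exact ⟨⟨Q, (mem_homogeneousSubmodule _ _).2 hQ⟩, hQ2⟩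
  refine ⟨A, U, hA, hU, ?_, ?_⟩
  · rintro ⟨h1, h2⟩
    obtain ⟨Q1, hQ1⟩ := key (by omega) A h1
    obtain ⟨Q2, hQ2⟩ := key (by omega) U h2
    apply hr
    refine ⟨(Q1, Q2), ?_⟩
    refine Prod.ext (Subtype.ext ?_) (Subtype.ext ?_)
    · change ((Dim3_mul g hg e1 Q1 : homogeneousSubmodule (Fin 3) K w) :
        MvPolynomial (Fin 3) K) = A
      rw [Dim3_mul_coe, hQ1]
    · change ((Dim3_mul g hg e2 Q2 : homogeneousSubmodule (Fin 3) K (w - 2)) :
        MvPolynomial (Fin 3) K) = U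
      rw [Dim3_mul_coe, hQ2]
  · intro i hi
    have h1 := congrFun (LinearMap.mem_ker.1 hk) ⟨i, hi⟩
    rw [hΦ] at h1
    exact sub_eq_zero.1 h1

end Pool.Agent.Helper63.TK

end

section

namespace Pool.Agent.Helper30.TP
end Pool.Agent.Helper30.TP

/-!
# The two cases
-/

set_option autoImplicit false

namespace Pool.Agent.Helper63.TK

open MvPolynomial
open Pool.Agent.Helper30.TP

variable {k K : Type} [Field k] [Field K] [Algebra k K]

theorem dichotomy (δ : Derivation k K K) {x : ℕ → Fin 3 → K} {S : Set ℕ} (hS : S.Infinite)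
    (hx : ∀ n ∈ S, x n ≠ 0) (hnp : ∀ n ∈ S, ∀ n' ∈ S, n ≠ n' → ¬ PEq (x n) (x n'))
    {g : MvPolynomial (Fin 3) K} {D : ℕ} (hg : g.IsHomogeneous D) (hirr : Irreducible g)
    (hgx : ∀ n ∈ S, eval (x n) g = 0) {w : ℕ} (hw : 2 ≤ w) :
    (∃ (i j : Fin 3) (S' : Set ℕ), S' ⊆ S ∧ S'.Infinite ∧
      ∀ A U : MvPolynomial (Fin 3) K, A.IsHomogeneous w → U.IsHomogeneous (w - 2) →
        ¬ (g ∣ A ∧ g ∣ U) →
          {n | n ∈ S' ∧ eval (x n) A - eval (x n) U * wr δ i j (x n) = 0}.Finite) ∨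
    (∃ (S' : Set ℕ) (u : ℕ) (U : MvPolynomial (Fin 3) K)
        (A : Fin 3 → Fin 3 → MvPolynomial (Fin 3) K), S' ⊆ S ∧ S'.Infinite ∧
      U.IsHomogeneous u ∧ (∀ i j, (A i j).IsHomogeneous (u + 2)) ∧ ¬ g ∣ U ∧
        ∀ n ∈ S', ∀ i j, eval (x n) U * wr δ i j (x n) = eval (x n) (A i j)) := by
  classical
  rw [or_iff_not_imp_left]
  intro hcon
  push Not at hcon
  -- the exceptional sets are finite
  have hfin : ∀ {V : MvPolynomial (Fin 3) K} {t : ℕ}, V.IsHomogeneous t → ¬ g ∣ V →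
      {n | n ∈ S ∧ eval (x n) V = 0}.Finite := by
    intro V t hV hgV
    have h1 := finite_common_zeros hg hV hirr hgV (fun n : S => x n) (fun n => hx n n.2)
      (fun i j hij => hnp i i.2 j j.2 fun h => hij (Subtype.ext h))
    refine (h1.image Subtype.val).subset ?_
    rintro n ⟨hn, h0⟩
    exact ⟨⟨n, hn⟩, ⟨hgx n hn, h0⟩, rfl⟩
  have step : ∀ P : Finset (Fin 3 × Fin 3), ∃ S' : Set ℕ, S' ⊆ S ∧ S'.Infinite ∧
      ∃ (U A : Fin 3 × Fin 3 → MvPolynomial (Fin 3) K), ∀ p ∈ P,
        (U p).IsHomogeneous (w - 2) ∧ (A p).IsHomogeneous w ∧ ¬ g ∣ U p ∧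
          ∀ n ∈ S', eval (x n) (U p) * wr δ p.1 p.2 (x n) = eval (x n) (A p) := by
    intro P
    induction P using Finset.induction_on with
    | empty => exact ⟨S, subset_rfl, hS, 0, 0, by simp⟩
    | insert p P hp ih =>
      obtain ⟨S', hS'S, hS'i, U, A, hUA⟩ := ih
      obtain ⟨A₁, U₁, hA₁, hU₁, hd, hinf⟩ := hcon p.1 p.2 S' hS'S hS'i
      set S₂ : Set ℕ := {n | n ∈ S' ∧ eval (x n) A₁ - eval (x n) U₁ * wr δ p.1 p.2 (x n) = 0}
        with hS₂
      have hS₂i : S₂.Infinite := hinf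
      have hgU : ¬ g ∣ U₁ := by
        intro hgU
        have hgA : g ∣ A₁ := by
          by_contra hgA
          refine hS₂i ((hfin hA₁ hgA).subset ?_)
          rintro n ⟨hn, h0⟩
          refine ⟨hS'S hn, ?_⟩
          obtain ⟨q, hq⟩ := hgU
          rw [hq, map_mul, hgx n (hS'S hn), zero_mul, zero_mul, sub_zero] at h0
          exact h0
        exact hd hgA hgU
      refine ⟨S₂, fun n hn => hS'S hn.1, hS₂i, fun q => if q = p then U₁ else U q,
        fun q => if q = p then A₁ else A q, fun q hq => ?_⟩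
      by_cases hqp : q = p
      · subst hqp
        simp only [if_true]
        exact ⟨hU₁, hA₁, hgU, fun n hn => (sub_eq_zero.1 hn.2).symm⟩
      · simp only [if_neg hqp]
        have hqP : q ∈ P := (Finset.mem_insert.1 hq).resolve_left hqp
        obtain ⟨h1, h2, h3, h4⟩ := hUA q hqP
        exact ⟨h1, h2, h3, fun n hn => h4 n hn.1⟩
  obtain ⟨S', hS'S, hS'i, U, A, hUA⟩ := step Finset.univ
  have hU : ∀ p, (U p).IsHomogeneous (w - 2) := fun p => (hUA p (Finset.mem_univ _)).1
  have hA : ∀ p, (A p).IsHomogeneous w := fun p => (hUA p (Finset.mem_univ _)).2.1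
  have hgU : ∀ p, ¬ g ∣ U p := fun p => (hUA p (Finset.mem_univ _)).2.2.1
  have hrel : ∀ p, ∀ n ∈ S', eval (x n) (U p) * wr δ p.1 p.2 (x n) = eval (x n) (A p) :=
    fun p => (hUA p (Finset.mem_univ _)).2.2.2
  refine ⟨S', ∑ _p : Fin 3 × Fin 3, (w - 2), ∏ p : Fin 3 × Fin 3, U p,
    fun i j => A (i, j) * ∏ p ∈ Finset.univ.erase (i, j), U p, hS'S, hS'i,
    IsHomogeneous.prod _ _ _ fun p _ => hU p, fun i j => ?_, ?_, fun n hn i j => ?_⟩
  · have h1 : (A (i, j) * ∏ p ∈ Finset.univ.erase (i, j), U p).IsHomogeneous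
        (w + ∑ _p ∈ (Finset.univ : Finset (Fin 3 × Fin 3)).erase (i, j), (w - 2)) :=
      (hA (i, j)).mul (IsHomogeneous.prod _ _ _ fun p _ => hU p)
    have h2 : w + ∑ _p ∈ (Finset.univ : Finset (Fin 3 × Fin 3)).erase (i, j), (w - 2) =
        (∑ _p : Fin 3 × Fin 3, (w - 2)) + 2 := by
      rw [← Finset.add_sum_erase Finset.univ (fun _ : Fin 3 × Fin 3 => w - 2)
        (Finset.mem_univ (i, j))]
      omega
    rw [← h2]
    exact h1
  · intro hdvd
    obtain ⟨p, -, hp⟩ := (UniqueFactorizationMonoid.irreducible_iff_prime.1 hirr).exists_mem_finset_dvd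
      hdvd
    exact hgU p hp
  · rw [← Finset.mul_prod_erase Finset.univ U (Finset.mem_univ (i, j)), map_mul, map_mul,
      ← hrel (i, j) n hn]
    ring

end Pool.Agent.Helper63.TK

end

section

namespace Pool.Agent.Helper16
end Pool.Agent.Helper16
namespace Pool.Agent.Helper30.TP
end Pool.Agent.Helper30.TP

/-!
# Points of large height, with control of the number of given points

Copy of `Helper30.TP.exists_denominator` and `Helper30.TP.sum_ht_cross_le` with one more conclusion.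
-/

set_option autoImplicit false

namespace Pool.Agent.Helper63.TK

open MvPolynomial
open Pool.Agent.Helper16 (Place IsFunctionField)
open Pool.Agent.Helper30.TP

section den

variable {K : Type} [Field K]

theorem exists_denominator_card [Infinite K] {x : ℕ → Fin 3 → K} {S : Set ℕ} (hS : S.Infinite)
    (hx : ∀ n ∈ S, x n ≠ 0) (hnp : ∀ n ∈ S, ∀ n' ∈ S, n ≠ n' → ¬ PEq (x n) (x n'))
    {g : MvPolynomial (Fin 3) K} {D : ℕ} (hg : g.IsHomogeneous D) (hirr : Irreducible g)
    (hgx : ∀ n ∈ S, eval (x n) g = 0) (N : ℕ) :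
    ∃ (Γ : Finset ℕ) (δ e : ℕ) (G U : MvPolynomial (Fin 3) K), (↑Γ ⊆ S) ∧ G.IsHomogeneous δ ∧
      U.IsHomogeneous e ∧ e + N ≤ δ ∧ δ ≤ Γ.card ∧ ¬ g ∣ G ∧ ¬ g ∣ U ∧
      (Γ.card + (D ^ 2 + N - D + 2).choose 2 = (D ^ 2 + N + 2).choose 2) ∧
      ∀ T : MvPolynomial (Fin 3) K, T.IsHomogeneous Γ.card → (∀ i ∈ Γ, eval (x i) T = 0) →
        ∃ B : MvPolynomial (Fin 3) K, B.IsHomogeneous (Γ.card + e - δ) ∧
          g ∣ T * U - G * B := by
  classical
  have hD : 0 < D := by
    rcases Nat.eq_zero_or_pos D with h0 | h0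
    · subst h0
      exfalso
      have h1 : g.totalDegree = 0 := Nat.le_zero.1 hg.totalDegree_le
      rw [totalDegree_eq_zero_iff_eq_C] at h1
      have h2 : coeff 0 g ≠ 0 := by
        intro h
        rw [h, C_0] at h1
        exact hirr.ne_zero h1
      apply hirr.not_isUnit
      rw [h1]
      exact (isUnit_iff_ne_zero.2 h2).map C
    · exact h0
  set m := D + D * (D - 1) + N with hm
  obtain ⟨Γ, hΓS, -, hind, hcard⟩ := exists_basis_points hS hx hnp hg hirr hgx m
  have hDm : D ≤ m := by omega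
  have hcard' := hcard hDm
  have hxΓ : ∀ i ∈ Γ, x i ≠ 0 := fun i hi => hx i (hΓS hi)
  have hgΓ : ∀ i ∈ Γ, eval (x i) g = 0 := fun i hi => hgx i (hΓS hi)
  obtain ⟨G, hGh, hGx, hGn, hGgen⟩ := exists_generators hxΓ hg hirr hD hgΓ hDm hind hcard'
  have hpair : ∀ j, ∃ A A' : MvPolynomial (Fin 3) K, A.IsHomogeneous (D - 1) ∧
      A'.IsHomogeneous (D - 1) ∧ A ≠ 0 ∧ g ∣ G ⟨0, hD⟩ * A' - G j * A := fun j =>
    exists_pair hxΓ hg hirr hD hgΓ hDm hind hcard' (hGh ⟨0, hD⟩) (hGh j) (hGx ⟨0, hD⟩) (hGx j)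
      (hGn ⟨0, hD⟩)
  choose A A' hA hA' hA0 hAA using hpair
  have hcardΓ : m + 1 ≤ Γ.card := Dim3_arith3 hD hDm hcard'
  have hmD : m = D ^ 2 + N := by
    obtain ⟨E, rfl⟩ := Nat.exists_eq_add_of_le' hD
    rw [hm, show E + Nat.succ 0 - 1 = E by omega]
    ring
  refine ⟨Γ, m + 1, D * (D - 1), G ⟨0, hD⟩, ∏ j, A j, hΓS, hGh _, ?_, by omega, hcardΓ, hGn _,
    ?_, hmD ▸ hcard', fun T hT hTx => ?_⟩
  · have h1 := IsHomogeneous.prod Finset.univ A (fun _ => D - 1) (fun j _ => hA j)
    simpa using h1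
  · intro h
    rw [Prime.dvd_finsetProd_iff hirr.prime] at h
    obtain ⟨j, -, hj⟩ := h
    exact Dim3_not_dvd hg hirr.ne_zero (hA j) (hA0 j) (by omega) hj
  · obtain ⟨t, ht⟩ := Nat.exists_eq_add_of_le hcardΓ
    have hTJ : T ∈ Ideal.span (Set.range G) ⊔ Ideal.span {g} := by
      have h1 := castelnuovo hxΓ hind t T (by rw [← ht]; exact hT) hTx
      refine Ideal.span_le.2 ?_ h1
      rintro P ⟨hP, hPx⟩
      obtain ⟨c, Q, hQ⟩ := hGgen P hP hPx
      have h2 : P = ∑ j, C (c j) * G j + Q * g := by linear_combination hQ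
      rw [h2]
      refine Submodule.add_mem_sup ?_ (Ideal.mul_mem_left _ _ (Ideal.mem_span_singleton_self g))
      exact Ideal.sum_mem _ fun j _ => Ideal.mul_mem_left _ _ (Ideal.subset_span ⟨j, rfl⟩)
    obtain ⟨P, hP, R, hR, hPR⟩ := Submodule.mem_sup.1 hTJ
    obtain ⟨B, hB⟩ := (Ideal.mem_span_range_iff_exists_fun).1 hP
    rw [Ideal.mem_span_singleton] at hR
    set B' : MvPolynomial (Fin 3) K := ∑ j, B j * (A' j * ∏ i ∈ Finset.univ.erase j, A i) with hB'
    have hmain : g ∣ T * (∏ j, A j) - G ⟨0, hD⟩ * B' := by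
      have h1 : T * (∏ j, A j) - G ⟨0, hD⟩ * B' = R * (∏ j, A j) -
          ∑ j, B j * (∏ i ∈ Finset.univ.erase j, A i) * (G ⟨0, hD⟩ * A' j - G j * A j) := by
        rw [← hPR, ← hB, hB', add_mul, Finset.sum_mul, Finset.mul_sum]
        have h2 : ∀ j, B j * G j * ∏ i, A i =
            B j * (∏ i ∈ Finset.univ.erase j, A i) * (G j * A j) := by
          intro j
          rw [← Finset.mul_prod_erase Finset.univ A (Finset.mem_univ j)]
          ring
        rw [Finset.sum_congr rfl fun j _ => h2 j]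
        simp only [mul_sub, Finset.sum_sub_distrib]
        have h3 : ∑ j, G ⟨0, hD⟩ * (B j * (A' j * ∏ i ∈ Finset.univ.erase j, A i)) =
            ∑ j, B j * (∏ i ∈ Finset.univ.erase j, A i) * (G ⟨0, hD⟩ * A' j) :=
          Finset.sum_congr rfl fun j _ => by ring
        rw [h3]
        ring
      rw [h1]
      refine dvd_sub (hR.mul_right _) (Finset.dvd_sum fun j _ => (hAA j).mul_left _)
    have hUh : (∏ j, A j).IsHomogeneous (D * (D - 1)) := by
      have h1 := IsHomogeneous.prod Finset.univ A (fun _ => D - 1) (fun j _ => hA j)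
      simpa using h1
    refine ⟨homogeneousComponent (Γ.card + D * (D - 1) - (m + 1)) B',
      homogeneousComponent_isHomogeneous _ _, ?_⟩
    have h5 := Dim3_dvd_comp hg (Γ.card + D * (D - 1)) hmain
    rw [map_sub, homogeneousComponent_of_mem (hT.mul hUh), if_pos rfl] at h5
    have h6 := Dim3_comp_mul (B := B') (hGh ⟨0, hD⟩) (Γ.card + D * (D - 1) - (m + 1))
    rw [show Γ.card + D * (D - 1) - (m + 1) + (m + 1) = Γ.card + D * (D - 1) by omega] at h6
    rwa [h6] at h5

end den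

variable {k K : Type} [Field k] [IsAlgClosed k] [Field K] [Algebra k K]

theorem sum_ht_cross_le_card (hK : IsFunctionField k K) {x : ℕ → Fin 3 → K} {S : Set ℕ}
    (hS : S.Infinite) (hx : ∀ n ∈ S, x n ≠ 0)
    (hnp : ∀ n ∈ S, ∀ n' ∈ S, n ≠ n' → ¬ PEq (x n) (x n'))
    {g : MvPolynomial (Fin 3) K} {D : ℕ} (hg : g.IsHomogeneous D) (hirr : Irreducible g)
    (hgx : ∀ n ∈ S, eval (x n) g = 0) (N : ℕ) :
    ∃ (Γ : Finset ℕ) (C : ℤ) (E : Set ℕ), (↑Γ ⊆ S) ∧ E.Finite ∧
      (Γ.card + (D ^ 2 + N - D + 2).choose 2 = (D ^ 2 + N + 2).choose 2) ∧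
      ∀ n ∈ S, n ∉ E → ∑ i ∈ Γ, ht k (crossProduct (x i) (x n)) ≤
        ((Γ.card : ℤ) - N) * ht k (x n) + C := by
  classical
  have : Infinite k := IsAlgClosed.instInfinite
  have : Infinite K := Infinite.of_injective (algebraMap k K) (algebraMap k K).injective
  obtain ⟨Γ, δ, e, G, U, hΓS, hG, hU, heN, hδ, hgG, hgU, hcardD, hT⟩ :=
    exists_denominator_card hS hx hnp hg hirr hgx N
  -- the products of linear forms
  have hTh : ∀ a : Γ → Fin 3, (∏ i : Γ, lowL (x i) (a i)).IsHomogeneous Γ.card := by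
    intro a
    have := IsHomogeneous.prod (Finset.univ : Finset Γ) (fun i : Γ => lowL (x i) (a i))
      (fun _ => 1) (fun i _ => lowL_hom _ _)
    simpa using this
  have hT0 : ∀ a : Γ → Fin 3, ∀ i ∈ Γ, eval (x i) (∏ i : Γ, lowL (x i) (a i)) = 0 := by
    intro a i hi
    rw [map_prod]
    refine Finset.prod_eq_zero (Finset.mem_univ (⟨i, hi⟩ : Γ)) ?_
    rw [lowL_eval, cross_self]
    rfl
  choose B hB hBd using fun a => hT _ (hTh a) (hT0 a)
  -- the constant
  set c : Place k K → ℤ := fun b => ∑ a : Γ → Fin 3, max 0 (WithZero.log (gs b (B a))) with hc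
  have hcs : (Function.support c).Finite := by
    have h1 : (⋃ a : Γ → Fin 3,
        Function.support fun b : Place k K => WithZero.log (gs b (B a))).Finite := by
      refine Set.finite_iUnion fun a => ?_
      by_cases h0 : B a = 0
      · rw [h0]
        simp [formHeight_zero]
      · exact formHeight_support hK h0
    refine h1.subset fun b hb => ?_
    rw [Function.mem_support] at hb
    simp only [Set.mem_iUnion, Function.mem_support]
    by_contra hcon
    push Not at hcon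
    apply hb
    rw [hc]
    exact Finset.sum_eq_zero fun a _ => by rw [hcon a, max_self]
  have hcle : ∀ b (a : Γ → Fin 3), WithZero.log (gs b (B a)) ≤ c b := by
    intro b a
    refine (le_max_right 0 _).trans ?_
    exact Finset.single_le_sum (f := fun a => max 0 (WithZero.log (gs b (B a))))
      (fun a _ => le_max_left _ _) (Finset.mem_univ a)
  -- the exceptional set
  have hfin : ∀ {V : MvPolynomial (Fin 3) K} {t : ℕ}, V.IsHomogeneous t → ¬ g ∣ V →
      {n | n ∈ S ∧ eval (x n) V = 0}.Finite := by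
    intro V t hV hgV
    have h1 := finite_common_zeros hg hV hirr hgV (fun n : S => x n) (fun n => hx n n.2)
      (fun i j hij => hnp i i.2 j j.2 fun h => hij (Subtype.ext h))
    refine (h1.image Subtype.val).subset ?_
    rintro n ⟨hn, h0⟩
    exact ⟨⟨n, hn⟩, ⟨hgx n hn, h0⟩, rfl⟩
  refine ⟨Γ, ∑ᶠ b : Place k K, c b, {n | n ∈ S ∧ eval (x n) G = 0} ∪
    {n | n ∈ S ∧ eval (x n) U = 0} ∪ (Γ : Set ℕ), hΓS,
    ((hfin hG hgG).union (hfin hU hgU)).union (Finset.finite_toSet _), hcardD,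
    fun n hn hnE => ?_⟩
  have hGn : eval (x n) G ≠ 0 := fun h => hnE (Or.inl (Or.inl ⟨hn, h⟩))
  have hUn : eval (x n) U ≠ 0 := fun h => hnE (Or.inl (Or.inr ⟨hn, h⟩))
  have hnΓ : n ∉ Γ := fun h => hnE (Or.inr h)
  have hcr : ∀ i ∈ Γ, crossProduct (x i) (x n) ≠ 0 := fun i hi =>
    cross_ne_zero (hx i (hΓS hi)) (hx n hn)
      (hnp i (hΓS hi) n hn fun h => hnΓ (h ▸ hi))
  -- the relation at the point
  have hrel : ∀ a : Γ → Fin 3, (∏ i : Γ, crossProduct (x i) (x n) (a i)) * eval (x n) U =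
      eval (x n) G * eval (x n) (B a) := by
    intro a
    obtain ⟨q, hq⟩ := hBd a
    have h1 := congrArg (eval (x n)) hq
    rw [map_sub, map_mul, map_mul, map_mul, hgx n hn, zero_mul, sub_eq_zero, map_prod] at h1
    simp only [lowL_eval] at h1
    exact h1
  -- the local estimate
  have hloc : ∀ b : Place k K, ∑ i : Γ, WithZero.log (nrm b (crossProduct (x i) (x n))) +
      WithZero.log (b.val (eval (x n) U)) ≤ WithZero.log (b.val (eval (x n) G)) + c b +
        ((Γ.card + e - δ : ℕ) : ℤ) * WithZero.log (nrm b (x n)) := by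
    intro b
    choose a ha using fun i : Γ => exists_val_eq_nrm b (crossProduct (x i) (x n))
    have hne : ∀ i : Γ, nrm b (crossProduct (x i) (x n)) ≠ 0 := fun i =>
      nrm_ne_zero (hcr i i.2)
    have h1 := congrArg b.val (hrel a)
    rw [map_mul, map_mul, map_prod] at h1
    simp only [ha] at h1
    have hU0 : b.val (eval (x n) U) ≠ 0 := by simpa using hUn
    have hG0 : b.val (eval (x n) G) ≠ 0 := by simpa using hGn
    have hP0 : ∏ i : Γ, nrm b (crossProduct (x i) (x n)) ≠ 0 :=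
      Finset.prod_ne_zero_iff.2 fun i _ => hne i
    have hB0 : b.val (eval (x n) (B a)) ≠ 0 := by
      intro h
      rw [h, mul_zero] at h1
      exact mul_ne_zero hP0 hU0 h1
    have h2 := low_val_eval_le b (hB a) (x n)
    have h3 : gs b (B a) * nrm b (x n) ^ (Γ.card + e - δ) ≠ 0 := by
      intro h
      rw [h, le_zero_iff] at h2
      exact hB0 h2
    have h4 : gs b (B a) ≠ 0 := left_ne_zero_of_mul h3
    have h5 : nrm b (x n) ^ (Γ.card + e - δ) ≠ 0 := right_ne_zero_of_mul h3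
    rw [← WithZero.log_le_log hB0 h3, WithZero.log_mul h4 h5, WithZero.log_pow] at h2
    have h6 := congrArg WithZero.log h1
    rw [WithZero.log_mul hP0 hU0, WithZero.log_mul hG0 hB0] at h6
    have h7 : WithZero.log (∏ i : Γ, nrm b (crossProduct (x i) (x n))) =
        ∑ i : Γ, WithZero.log (nrm b (crossProduct (x i) (x n))) := by
      have key : ∀ s : Finset Γ, WithZero.log (∏ i ∈ s, nrm b (crossProduct (x i) (x n))) =
          ∑ i ∈ s, WithZero.log (nrm b (crossProduct (x i) (x n))) := by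
        intro s
        induction s using Finset.induction_on with
        | empty => simp
        | insert i s hi ih =>
          rw [Finset.prod_insert hi, Finset.sum_insert hi, WithZero.log_mul (hne i)
            (Finset.prod_ne_zero_iff.2 fun j _ => hne j), ih]
      exact key _
    have h8 := hcle b a
    rw [← h7, h6]
    rw [nsmul_eq_mul] at h2
    linarith
  -- the sum over the places
  have hs1 : ∀ i : Γ, (Function.support fun b : Place k K =>
      WithZero.log (nrm b (crossProduct (x i) (x n)))).Finite := fun i =>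
    nrm_support hK _ (hcr i i.2)
  have hs2 := finsum_log hK _ hUn
  have hs3 := finsum_log hK _ hGn
  have hs4 := nrm_support hK _ (hx n hn)
  have hs1' : (Function.support fun b : Place k K =>
      ∑ i : Γ, WithZero.log (nrm b (crossProduct (x i) (x n)))).Finite := by
    refine (Set.finite_iUnion hs1).subset fun b hb => ?_
    rw [Function.mem_support] at hb
    simp only [Set.mem_iUnion, Function.mem_support]
    by_contra hcon
    push Not at hcon
    exact hb (Finset.sum_eq_zero fun i _ => hcon i)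
  have hs4' : (Function.support fun b : Place k K =>
      ((Γ.card + e - δ : ℕ) : ℤ) * WithZero.log (nrm b (x n))).Finite := by
    refine hs4.subset fun b hb => ?_
    rw [Function.mem_support] at hb ⊢
    exact right_ne_zero_of_mul hb
  have hs5 : (Function.support fun b : Place k K =>
      WithZero.log (b.val (eval (x n) G)) + c b).Finite :=
    (hs3.1.union hcs).subset (Function.support_add _ _)
  have hsum := finsum_le_finsum' ((hs1'.union hs2.1).subset (Function.support_add _ _))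
    ((hs5.union hs4').subset (Function.support_add _ _)) hloc
  rw [finsum_add_distrib hs1' hs2.1, finsum_add_distrib hs5 hs4',
    finsum_add_distrib hs3.1 hcs, hs2.2, hs3.2, add_zero, zero_add, ← mul_finsum,
    finsum_sum_comm] at hsum
  · have h9 : ∑ i ∈ Γ, ht k (crossProduct (x i) (x n)) =
        ∑ i : Γ, ht k (crossProduct (x i) (x n)) :=
      (Finset.sum_coe_sort Γ fun i => ht k (crossProduct (x i) (x n))).symm
    rw [h9]
    have h10 := low_ht_nonneg hK (hx n hn)
    have h11 : ((Γ.card + e - δ : ℕ) : ℤ) ≤ (Γ.card : ℤ) - N := by omega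
    have h12 := mul_le_mul_of_nonneg_right h11 h10
    unfold ht at h12 ⊢
    linarith
  · exact fun i _ => hs1 i

end Pool.Agent.Helper63.TK

end

section

namespace Pool.Agent.Helper16
end Pool.Agent.Helper16
namespace Pool.Agent.Helper30.TP
end Pool.Agent.Helper30.TP
namespace Pool.Agent.Helper31.RRK
end Pool.Agent.Helper31.RRK

/-!
# Contacts and Wronskians
-/

set_option autoImplicit false

namespace Pool.Agent.Helper63.TK

open MvPolynomial
open Pool.Agent.Helper16 (Place IsFunctionField)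
open Pool.Agent.Helper30.TP
open Pool.Agent.Helper31.RRK (ordDer)

variable {k K : Type} [Field k] [IsAlgClosed k] [Field K] [Algebra k K]

omit [IsAlgClosed k] in
theorem wr_smul (δ : Derivation k K K) (i j : Fin 3) (c : K) (x : Fin 3 → K) :
    wr δ i j (c • x) = c ^ 2 * wr δ i j x := by
  unfold wr
  simp only [Pi.smul_apply, smul_eq_mul, Derivation.leibniz]
  ring

omit [IsAlgClosed k] in
/-- The values of a polynomial at close integral points are close. -/
theorem wl_eval_sub (b : Place k K) (P : MvPolynomial (Fin 3) K) {x y : Fin 3 → K}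
    {ε : WithZero (Multiplicative ℤ)} (hx : ∀ i, b.val (x i) ≤ 1) (hy : ∀ i, b.val (y i) ≤ 1)
    (hxy : ∀ i, b.val (x i - y i) ≤ ε) :
    b.val (eval x P - eval y P) ≤ gs b P * ε := by
  classical
  rw [eval_eq, eval_eq, ← Finset.sum_sub_distrib]
  refine b.val.map_sum_le fun m _ => ?_
  rw [← mul_sub, map_mul]
  refine mul_le_mul' (formHeight_le b P m) ?_
  -- powers
  have hpow : ∀ (i : Fin 3) (n : ℕ), b.val (x i ^ n - y i ^ n) ≤ ε := by
    intro i n
    induction n with
    | zero => simp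
    | succ n ih =>
      have h1 : x i ^ (n + 1) - y i ^ (n + 1) =
          (x i ^ n - y i ^ n) * x i + y i ^ n * (x i - y i) := by ring
      rw [h1]
      refine (b.val.map_add _ _).trans (max_le ?_ ?_)
      · rw [map_mul]
        calc _ ≤ ε * 1 := mul_le_mul' ih (hx i)
          _ = ε := mul_one ε
      · rw [map_mul, map_pow]
        calc _ ≤ 1 * ε := mul_le_mul' (pow_le_one' (hy i) n) (hxy i)
          _ = ε := one_mul ε
  -- products
  have hprod : ∀ s : Finset (Fin 3), b.val (∏ i ∈ s, x i ^ m i - ∏ i ∈ s, y i ^ m i) ≤ ε := by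
    intro s
    induction s using Finset.induction_on with
    | empty => simp
    | insert i s hi ih =>
      rw [Finset.prod_insert hi, Finset.prod_insert hi]
      have h1 : x i ^ m i * ∏ j ∈ s, x j ^ m j - y i ^ m i * ∏ j ∈ s, y j ^ m j =
          x i ^ m i * (∏ j ∈ s, x j ^ m j - ∏ j ∈ s, y j ^ m j) +
            (x i ^ m i - y i ^ m i) * ∏ j ∈ s, y j ^ m j := by ring
      rw [h1]
      refine (b.val.map_add _ _).trans (max_le ?_ ?_)
      · rw [map_mul, map_pow]
        calc _ ≤ 1 * ε := mul_le_mul' (pow_le_one' (hx i) _) ih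
          _ = ε := one_mul ε
      · rw [map_mul, map_prod]
        have h2 : ∏ j ∈ s, b.val (y j ^ m j) ≤ 1 := by
          refine Finset.prod_le_one' fun j _ => ?_
          rw [map_pow]
          exact pow_le_one' (hy j) _
        calc _ ≤ ε * 1 := mul_le_mul' (hpow i (m i)) h2
          _ = ε := mul_one ε
  exact hprod _

theorem wl_val_D (hK : IsFunctionField k K) (δ : Derivation k K K) (hδ : δ ≠ 0)
    (b : Place k K) {x : K} (hx : b.val x ≤ 1) :
    b.val (δ x) ≤ WithZero.exp (-(ordDer b δ)) := by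
  by_cases h0 : δ x = 0
  · rw [h0, map_zero]
    exact zero_le
  have h1 := Pool.Agent.Helper31.RRK.ordDer_le b hK hx h0
  rw [Place.ord] at h1
  exact WithZero.le_exp_of_log_le (by omega)

theorem wl_val_D_small (hK : IsFunctionField k K) (δ : Derivation k K K)
    (b : Place k K) {x : K} {m : ℤ} (hx : b.val x ≤ WithZero.exp (-m)) :
    b.val (δ x) ≤ WithZero.exp (-(m - 1) - ordDer b δ) := by
  by_cases h0 : δ x = 0
  · rw [h0, map_zero]
    exact zero_le
  have hx0 : x ≠ 0 := by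
    rintro rfl
    exact h0 (map_zero δ)
  have h1 := Pool.Agent.Helper31.RRK.le_ord_D b hK h0
  rw [Place.ord, Place.ord] at h1
  have h2 : WithZero.log (b.val x) ≤ -m :=
    (WithZero.log_le_iff_le_exp (by simpa using hx0)).2 hx
  exact WithZero.le_exp_of_log_le (by omega)

/-- The Wronskian of an integral point. -/
theorem wl_wr_le (hK : IsFunctionField k K) (δ : Derivation k K K) (hδ : δ ≠ 0)
    (b : Place k K) (i j : Fin 3) {x : Fin 3 → K} (hx : ∀ i, b.val (x i) ≤ 1) :
    b.val (wr δ i j x) ≤ WithZero.exp (-(ordDer b δ)) := by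
  unfold wr
  refine (b.val.map_sub _ _).trans (max_le ?_ ?_)
  · rw [map_mul]
    calc _ ≤ 1 * WithZero.exp (-(ordDer b δ)) := mul_le_mul' (hx i) (wl_val_D hK δ hδ b (hx j))
      _ = _ := one_mul _
  · rw [map_mul]
    calc _ ≤ 1 * WithZero.exp (-(ordDer b δ)) := mul_le_mul' (hx j) (wl_val_D hK δ hδ b (hx i))
      _ = _ := one_mul _

/-- The Wronskians of close integral points are close. -/
theorem wl_wr_sub (hK : IsFunctionField k K) (δ : Derivation k K K) (hδ : δ ≠ 0)
    (b : Place k K) (i j : Fin 3) {x y : Fin 3 → K} {m : ℤ} (hx : ∀ i, b.val (x i) ≤ 1)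
    (hy : ∀ i, b.val (y i) ≤ 1) (hxy : ∀ i, b.val (x i - y i) ≤ WithZero.exp (-m)) :
    b.val (wr δ i j x - wr δ i j y) ≤ WithZero.exp (-(m - 1) - ordDer b δ) := by
  have h1 : wr δ i j x - wr δ i j y = ((x i - y i) * δ (x j) + y i * δ (x j - y j)) -
      ((x j - y j) * δ (x i) + y j * δ (x i - y i)) := by
    unfold wr
    rw [map_sub, map_sub]
    ring
  have h2 : ∀ i j, b.val ((x i - y i) * δ (x j)) ≤ WithZero.exp (-(m - 1) - ordDer b δ) := by
    intro i j
    rw [map_mul]
    calc _ ≤ WithZero.exp (-m) * WithZero.exp (-(ordDer b δ)) :=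
          mul_le_mul' (hxy i) (wl_val_D hK δ hδ b (hx j))
      _ = WithZero.exp (-m + -(ordDer b δ)) := (WithZero.exp_add _ _).symm
      _ ≤ _ := by
          rw [WithZero.exp_le_exp]
          omega
  have h3 : ∀ i j, b.val (y i * δ (x j - y j)) ≤ WithZero.exp (-(m - 1) - ordDer b δ) := by
    intro i j
    rw [map_mul]
    calc _ ≤ 1 * WithZero.exp (-(m - 1) - ordDer b δ) :=
          mul_le_mul' (hy i) (wl_val_D_small hK δ b (hxy j))
      _ = _ := one_mul _
  rw [h1]
  refine (b.val.map_sub _ _).trans (max_le ?_ ?_)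
  · exact (b.val.map_add _ _).trans (max_le (h2 i j) (h3 i j))
  · exact (b.val.map_add _ _).trans (max_le (h2 j i) (h3 j i))

omit [IsAlgClosed k] in
/-- Homogeneity of the section. -/
theorem wl_psi_smul (δ : Derivation k K K) (i j : Fin 3) {A U : MvPolynomial (Fin 3) K} {w : ℕ}
    (hw : 2 ≤ w) (hA : A.IsHomogeneous w) (hU : U.IsHomogeneous (w - 2)) (c : K)
    (x : Fin 3 → K) :
    eval (c • x) A - eval (c • x) U * wr δ i j (c • x) =
      c ^ w * (eval x A - eval x U * wr δ i j x) := by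
  rw [eval_smul_hom hA, eval_smul_hom hU, wr_smul]
  obtain ⟨v, rfl⟩ : ∃ v, w = v + 2 := ⟨w - 2, by omega⟩
  rw [Nat.add_sub_cancel]
  ring

omit [IsAlgClosed k] in
theorem wl_le_exp (g : WithZero (Multiplicative ℤ)) :
    g ≤ WithZero.exp (max 0 (WithZero.log g)) :=
  WithZero.le_exp_of_log_le (le_max_right _ _)

/-- The local estimate. -/
theorem wloc [CharZero k] (hK : IsFunctionField k K) (δ : Derivation k K K) (hδ : δ ≠ 0)
    (i j : Fin 3)
    {A U : MvPolynomial (Fin 3) K} {w : ℕ} (hw : 2 ≤ w) (hA : A.IsHomogeneous w)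
    (hU : U.IsHomogeneous (w - 2)) :
    ∃ c : Place k K → ℤ, (Function.support c).Finite ∧ (∀ b, 0 ≤ c b) ∧
      (∀ (b : Place k K) (Q : Fin 3 → K), Q ≠ 0 → eval Q A - eval Q U * wr δ i j Q ≠ 0 →
        WithZero.log (b.val (eval Q A - eval Q U * wr δ i j Q)) ≤
          w * WithZero.log (nrm b Q) + c b) ∧
      ∀ (b : Place k K) (P Q : Fin 3 → K), P ≠ 0 → Q ≠ 0 → ¬ PEq P Q →
        eval P A - eval P U * wr δ i j P = 0 → eval Q A - eval Q U * wr δ i j Q ≠ 0 →
        cl b P Q - 1 + WithZero.log (b.val (eval Q A - eval Q U * wr δ i j Q)) ≤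
          w * WithZero.log (nrm b Q) + c b := by
  classical
  obtain ⟨c, hc⟩ : ∃ c : Place k K → ℤ, c = fun b => max 0 (WithZero.log (gs b A)) +
      max 0 (WithZero.log (gs b U)) + |ordDer b δ| := ⟨_, rfl⟩
  have hcb : ∀ b, c b = max 0 (WithZero.log (gs b A)) +
      max 0 (WithZero.log (gs b U)) + |ordDer b δ| := fun b => by rw [hc]
  have hc0 : ∀ b, 0 ≤ c b := by
    intro b
    rw [hcb]
    have h1 := le_max_left 0 (WithZero.log (gs b A))
    have h2 := le_max_left 0 (WithZero.log (gs b U))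
    have h3 := abs_nonneg (ordDer b δ)
    omega
  have hsupp : (Function.support c).Finite := by
    have h1 : ∀ G : MvPolynomial (Fin 3) K,
        (Function.support fun b : Place k K => WithZero.log (gs b G)).Finite := by
      intro G
      by_cases h0 : G = 0
      · rw [h0]
        simp [formHeight_zero]
      · exact formHeight_support hK h0
    have h2 := Pool.Agent.Helper31.RRK.ordDer_finite hK hδ
    refine (((h1 A).union (h1 U)).union h2).subset fun b hb => ?_
    rw [Function.mem_support, hcb] at hb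
    by_contra hcon
    simp only [Set.mem_union, Function.mem_support, Set.mem_setOf_eq, not_or, not_not] at hcon
    apply hb
    rw [hcon.1.1, hcon.1.2, hcon.2]
    simp
  -- scaling of the section
  have hscale : ∀ (b : Place k K) (Q : Fin 3 → K) (q : Fin 3) (t : ℤ), Q ≠ 0 →
      b.val (Q q) = nrm b Q → eval Q A - eval Q U * wr δ i j Q ≠ 0 →
      b.val (eval ((Q q)⁻¹ • Q) A - eval ((Q q)⁻¹ • Q) U * wr δ i j ((Q q)⁻¹ • Q)) ≤
        WithZero.exp t →
      WithZero.log (b.val (eval Q A - eval Q U * wr δ i j Q)) ≤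
        w * WithZero.log (nrm b Q) + t := by
    intro b Q q t hQ hq hne ht
    have hq0 : Q q ≠ 0 := by
      intro h
      apply nrm_ne_zero (b := b) hQ
      rw [← hq, h, map_zero]
    rw [wl_psi_smul δ i j hw hA hU, map_mul, map_pow, map_inv₀, hq] at ht
    have hv : b.val (eval Q A - eval Q U * wr δ i j Q) ≠ 0 := by simpa using hne
    have hn : nrm b Q ≠ 0 := nrm_ne_zero hQ
    have h1 : (nrm b Q)⁻¹ ^ w ≠ 0 := pow_ne_zero _ (inv_ne_zero hn)
    rw [← WithZero.log_le_iff_le_exp (mul_ne_zero h1 hv), WithZero.log_mul h1 hv,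
      WithZero.log_pow, WithZero.log_inv, nsmul_eq_mul] at ht
    linarith
  have hunit : ∀ (b : Place k K) (Q : Fin 3 → K) (q : Fin 3), Q ≠ 0 →
      b.val (Q q) = nrm b Q → ∀ l, b.val (((Q q)⁻¹ • Q) l) ≤ 1 := by
    intro b Q q hQ hq l
    rw [Pi.smul_apply, smul_eq_mul, map_mul, map_inv₀, hq]
    calc (nrm b Q)⁻¹ * b.val (Q l) ≤ (nrm b Q)⁻¹ * nrm b Q :=
          mul_le_mul_right (val_le_nrm b Q l) _
      _ = 1 := inv_mul_cancel₀ (nrm_ne_zero hQ)
  have hnrm : ∀ (b : Place k K) (Q : Fin 3 → K) (q : Fin 3), Q ≠ 0 →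
      b.val (Q q) = nrm b Q → nrm b ((Q q)⁻¹ • Q) = 1 := by
    intro b Q q hQ hq
    rw [nrm_smul, map_inv₀, hq]
    exact inv_mul_cancel₀ (nrm_ne_zero hQ)
  -- bounds
  have hbd : ∀ (b : Place k K) (G : MvPolynomial (Fin 3) K) (e : ℕ), G.IsHomogeneous e →
      ∀ (Q : Fin 3 → K), nrm b Q = 1 →
      b.val (eval Q G) ≤ WithZero.exp (max 0 (WithZero.log (gs b G))) := by
    intro b G e hG Q hQ
    have h1 := low_val_eval_le b hG Q
    rw [hQ, one_pow, mul_one] at h1
    exact h1.trans (wl_le_exp _)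
  have hfirst : ∀ (b : Place k K) (Q : Fin 3 → K), Q ≠ 0 →
      eval Q A - eval Q U * wr δ i j Q ≠ 0 →
      WithZero.log (b.val (eval Q A - eval Q U * wr δ i j Q)) ≤
        w * WithZero.log (nrm b Q) + c b := by
    intro b Q hQ hne
    obtain ⟨q, hq⟩ := exists_val_eq_nrm b Q
    refine hscale b Q q (c b) hQ hq hne ?_
    have h0 := hnrm b Q q hQ hq
    have h1 := hbd b A w hA _ h0
    have h2 := hbd b U (w - 2) hU _ h0
    have h3 := wl_wr_le hK δ hδ b i j (hunit b Q q hQ hq)
    have e1 := le_max_left 0 (WithZero.log (gs b A))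
    have e2 := le_max_left 0 (WithZero.log (gs b U))
    have e3 := abs_nonneg (ordDer b δ)
    have e4 := neg_abs_le (ordDer b δ)
    refine (b.val.map_sub _ _).trans (max_le (h1.trans ?_) ?_)
    · rw [WithZero.exp_le_exp, hcb]
      omega
    · rw [map_mul]
      refine (mul_le_mul' h2 h3).trans ?_
      rw [← WithZero.exp_add, WithZero.exp_le_exp, hcb]
      omega
  refine ⟨c, hsupp, hc0, hfirst, fun b P Q hP hQ hPQ h0 hne => ?_⟩
  obtain ⟨m, hm⟩ : ∃ m, m = cl b P Q := ⟨_, rfl⟩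
  rw [← hm]
  rcases le_or_gt m 0 with hm0 | hm0
  · have := hfirst b Q hQ hne
    linarith
  obtain ⟨p, hp⟩ := exists_val_eq_nrm b P
  have hnP : nrm b P ≠ 0 := nrm_ne_zero hP
  have hnQ : nrm b Q ≠ 0 := nrm_ne_zero hQ
  have hcr : nrm b (crossProduct P Q) ≠ 0 := nrm_ne_zero (cross_ne_zero hP hQ hPQ)
  have hcr1 : nrm b (crossProduct P Q) = WithZero.exp (-m) * (nrm b P * nrm b Q) := by
    have h1 : nrm b (crossProduct P Q) = WithZero.exp (WithZero.log (nrm b (crossProduct P Q))) :=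
      (WithZero.exp_log hcr).symm
    have h2 : nrm b P * nrm b Q = WithZero.exp (WithZero.log (nrm b P) + WithZero.log (nrm b Q)) := by
      rw [WithZero.exp_add, WithZero.exp_log hnP, WithZero.exp_log hnQ]
    rw [h1, h2, ← WithZero.exp_add]
    congr 1
    rw [hm]
    unfold cl
    ring
  have hcr2 : nrm b (crossProduct P Q) < nrm b P * nrm b Q := by
    rw [hcr1]
    have h1 : WithZero.exp (-m) < 1 := by
      rw [← WithZero.exp_zero, WithZero.exp_lt_exp]
      omega
    calc _ < 1 * (nrm b P * nrm b Q) :=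
          mul_lt_mul_of_pos_right h1 (zero_lt_iff.2 (mul_ne_zero hnP hnQ))
      _ = _ := one_mul _
  have hQp : b.val (Q p) = nrm b Q := by
    refine le_antisymm (val_le_nrm b Q p) ?_
    obtain ⟨q, hq⟩ := exists_val_eq_nrm b Q
    have h1 : b.val (P p * Q q - P q * Q p) < nrm b P * nrm b Q :=
      (Cl_val_pq b P Q p q).trans_lt hcr2
    have h2 : b.val (P p * Q q) = nrm b P * nrm b Q := by rw [map_mul, hp, hq]
    have h3 : b.val (P q * Q p) = nrm b P * nrm b Q := by
      have h4 : P q * Q p = P p * Q q - (P p * Q q - P q * Q p) := by ring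
      rw [h4, Valuation.map_sub_eq_of_lt_left _ (by rw [h2]; exact h1), h2]
    rw [map_mul] at h3
    by_contra hlt
    rw [not_le] at hlt
    have h5 : b.val (P q) * b.val (Q p) < nrm b P * nrm b Q := by
      calc b.val (P q) * b.val (Q p) ≤ nrm b P * b.val (Q p) :=
            mul_le_mul_left (val_le_nrm b P q) _
        _ < nrm b P * nrm b Q := mul_lt_mul_of_pos_left hlt (zero_lt_iff.2 hnP)
    exact absurd h3 h5.ne
  have hPp0 : P p ≠ 0 := by
    intro h
    apply hnP
    rw [← hp, h, map_zero]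
  have hQp0 : Q p ≠ 0 := by
    intro h
    apply hnQ
    rw [← hQp, h, map_zero]
  -- the difference
  have hdiff : ∀ l, b.val (((Q p)⁻¹ • Q) l - ((P p)⁻¹ • P) l) ≤ WithZero.exp (-m) := by
    intro l
    have h1 : ((Q p)⁻¹ • Q) l - ((P p)⁻¹ • P) l =
        (P p * Q l - P l * Q p) * (P p * Q p)⁻¹ := by
      simp only [Pi.smul_apply, smul_eq_mul]
      field_simp
      try ring
    rw [h1, map_mul, map_inv₀, map_mul, hp, hQp]
    calc _ ≤ nrm b (crossProduct P Q) * (nrm b P * nrm b Q)⁻¹ :=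
          mul_le_mul_left (Cl_val_pq b P Q p l) _
      _ = WithZero.exp (-m) := by
          rw [hcr1, mul_assoc, mul_inv_cancel₀ (mul_ne_zero hnP hnQ), mul_one]
  have hP1 := hnrm b P p hP hp
  have hQ1 := hnrm b Q p hQ hQp
  have hPu := hunit b P p hP hp
  have hQu := hunit b Q p hQ hQp
  have hP0 : eval ((P p)⁻¹ • P) A - eval ((P p)⁻¹ • P) U * wr δ i j ((P p)⁻¹ • P) = 0 := by
    rw [wl_psi_smul δ i j hw hA hU, h0, mul_zero]
  have e1 := le_max_left 0 (WithZero.log (gs b A))
  have e2 := le_max_left 0 (WithZero.log (gs b U))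
  have e3 := abs_nonneg (ordDer b δ)
  have e4 := neg_abs_le (ordDer b δ)
  have key : b.val (eval ((Q p)⁻¹ • Q) A - eval ((Q p)⁻¹ • Q) U * wr δ i j ((Q p)⁻¹ • Q)) ≤
      WithZero.exp (c b - (m - 1)) := by
    have h1 : eval ((Q p)⁻¹ • Q) A - eval ((Q p)⁻¹ • Q) U * wr δ i j ((Q p)⁻¹ • Q) =
        (eval ((Q p)⁻¹ • Q) A - eval ((P p)⁻¹ • P) A) -
        (eval ((Q p)⁻¹ • Q) U * (wr δ i j ((Q p)⁻¹ • Q) - wr δ i j ((P p)⁻¹ • P)) +
        (eval ((Q p)⁻¹ • Q) U - eval ((P p)⁻¹ • P) U) * wr δ i j ((P p)⁻¹ • P)) := by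
      linear_combination hP0
    rw [h1]
    have g1 := wl_eval_sub b A hQu hPu hdiff
    have g2 := wl_eval_sub b U hQu hPu hdiff
    have g3 := wl_wr_sub hK δ hδ b i j hQu hPu hdiff
    have g4 := wl_wr_le hK δ hδ b i j hPu
    have g5 := hbd b U (w - 2) hU _ hQ1
    refine (b.val.map_sub _ _).trans (max_le ?_ ((b.val.map_add _ _).trans (max_le ?_ ?_)))
    · refine g1.trans ?_
      refine (mul_le_mul_left (wl_le_exp (gs b A)) _).trans ?_
      rw [← WithZero.exp_add, WithZero.exp_le_exp, hcb]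
      omega
    · rw [map_mul]
      refine (mul_le_mul' g5 g3).trans ?_
      rw [← WithZero.exp_add, WithZero.exp_le_exp, hcb]
      omega
    · rw [map_mul]
      refine (mul_le_mul' g2 g4).trans ?_
      refine (mul_le_mul_left (mul_le_mul_left (wl_le_exp (gs b U)) _) _).trans ?_
      rw [← WithZero.exp_add, ← WithZero.exp_add, WithZero.exp_le_exp, hcb]
      omega
  have := hscale b Q p (c b - (m - 1)) hQ hQp hne key
  linarith

end Pool.Agent.Helper63.TK

end
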