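import Pool.Agent.Helper29.MG2.T06
import Pool.Agent.Helper29.MG2.T01
import Pool.Agent.Helper29.MG2.T08

section

namespace Pool.Agent.Helper16
end Pool.Agent.Helper16
namespace Pool.Agent.Helper36
end Pool.Agent.Helper36

/-!
# Orbits of points of projective space over a function field: definitions

`k` is an algebraically closed field, `K` a function field of one variable over `k`,
`F : Fin (ν + 1) → k[X_0, ..., X_ν]` an endomorphism of projective space. Points are nonzero
vectors.
-/

set_option autoImplicit false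

namespace Pool.Agent.Helper38.TQ

open MvPolynomial
open Pool.Agent.Helper16 (Place IsFunctionField)
open Pool.Agent.Helper36 (step iter)

variable {ν : ℕ}

/-- `F` defines an endomorphism of degree `d ≥ 2` of projective space over `k` (meant for
algebraically closed `k`). -/
structure IsEndo {k : Type} [Field k] (d : ℕ) (F : Fin (ν + 1) → MvPolynomial (Fin (ν + 1)) k) :
    Prop where
  two_le : 2 ≤ d
  hom : ∀ i, (F i).IsHomogeneous d
  nz : ∀ x : Fin (ν + 1) → k, (∀ i, eval x (F i) = 0) → x = 0

/-- Proportional vectors. -/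
def PEq {L : Type} [Field L] (x y : Fin (ν + 1) → L) : Prop := ∃ c : L, c ≠ 0 ∧ y = c • x

/-- The vector is proportional to a vector with entries in `k`. -/
def IsConst (k : Type) {L : Type} [Field k] [Field L] [Algebra k L] (x : Fin (ν + 1) → L) :
    Prop :=
  ∃ (z : Fin (ν + 1) → k) (c : L), c ≠ 0 ∧ x = fun i => c * algebraMap k L (z i)

/-- Preperiodic points. -/
def Preper {k L : Type} [Field k] [Field L] [Algebra k L]
    (F : Fin (ν + 1) → MvPolynomial (Fin (ν + 1)) k) (x : Fin (ν + 1) → L) : Prop :=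
  ∃ n m : ℕ, n < m ∧ PEq (iter F x n) (iter F x m)

section

variable {k K : Type} [Field k] [Field K] [Algebra k K]

/-- The maximum norm of a vector at a place. -/
noncomputable def nrm (b : Place k K) (x : Fin (ν + 1) → K) : WithZero (Multiplicative ℤ) :=
  Finset.univ.sup fun i => b.val (x i)

/-- The point `x` specialises at `b` to the point `z`. -/
def Red (b : Place k K) (x : Fin (ν + 1) → K) (z : Fin (ν + 1) → k) : Prop :=
  z ≠ 0 ∧ ∃ c : K, c ≠ 0 ∧ ∀ i, b.val (c * x i - algebraMap k K (z i)) < 1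

/-- The height of a point. -/
noncomputable def ht (k : Type) {K : Type} [Field k] [Field K] [Algebra k K]
    (x : Fin (ν + 1) → K) : ℤ :=
  ∑ᶠ b : Place k K, WithZero.log (nrm b x)

/-- The value of a linear form with coefficients in `k`. -/
def lin (a : Fin (ν + 1) → k) (x : Fin (ν + 1) → K) : K := ∑ i, algebraMap k K (a i) * x i

/-- A free ultrafilter on the natural numbers. -/
def Free (U : Ultrafilter ℕ) : Prop := ∀ m : ℕ, ∀ᶠ n in (U : Filter ℕ), m ≤ n

/-- The points `x n`, for `U`-many `n`, lie on a curve over `K`: the values of any three linear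
forms satisfy an algebraic relation. -/
def OnCurve (U : Ultrafilter ℕ) (x : ℕ → Fin (ν + 1) → K) : Prop :=
  ∀ m : Fin 3 → Fin (ν + 1) → K, ∃ (P : MvPolynomial (Fin 3) K) (e : ℕ), P.IsHomogeneous e ∧
    P ≠ 0 ∧ ∀ᶠ n in (U : Filter ℕ), eval (fun j => ∑ i, m j i * x n i) P = 0

end

/-- The Jacobian matrix. -/
noncomputable def jac {k : Type} [Field k] (F : Fin (ν + 1) → MvPolynomial (Fin (ν + 1)) k)
    (z : Fin (ν + 1) → k) : Matrix (Fin (ν + 1)) (Fin (ν + 1)) k :=
  Matrix.of fun i j => eval z (pderiv j (F i))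

/-- The Jacobian matrix of the `N`-th iterate. -/
noncomputable def mult {k : Type} [Field k] (F : Fin (ν + 1) → MvPolynomial (Fin (ν + 1)) k)
    (z : Fin (ν + 1) → k) : ℕ → Matrix (Fin (ν + 1)) (Fin (ν + 1)) k
  | 0 => 1
  | N + 1 => jac F (iter F z N) * mult F z N

end Pool.Agent.Helper38.TQ

end

section

namespace Pool.Agent.Helper16
end Pool.Agent.Helper16
namespace Pool.Agent.Helper36
end Pool.Agent.Helper36

/-!
# Basic facts
-/

set_option autoImplicit false

namespace Pool.Agent.Helper38.TQ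

open MvPolynomial
open Pool.Agent.Helper16 (Place IsFunctionField)
open Pool.Agent.Helper36 (step iter iter_zero iter_succ iter_succ' iter_add iter_map aeval_smul_homogeneous exists_nullstellensatz)

variable {ν : ℕ}

section

variable {k L : Type} [Field k] [Field L] [Algebra k L]

theorem step_ne_zero [IsAlgClosed k] {d : ℕ} {F : Fin (ν + 1) → MvPolynomial (Fin (ν + 1)) k}
    (hF : IsEndo d F) {x : Fin (ν + 1) → L} (hx : x ≠ 0) : step F x ≠ 0 := by
  intro h
  obtain ⟨M, q, -, hq⟩ := exists_nullstellensatz (L := k) F hF.hom (by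
    intro w hw
    exact hF.nz w fun i => by rw [← hw i]; rfl)
  apply hx
  funext i
  have h1 := congrArg (aeval x) (hq i)
  rw [map_sum, map_pow, aeval_X] at h1
  have h2 : ∀ j, aeval x (F j) = 0 := fun j => congrFun h j
  simp only [map_mul, h2, mul_zero, Finset.sum_const_zero] at h1
  exact eq_zero_of_pow_eq_zero h1.symm

theorem iter_ne_zero [IsAlgClosed k] {d : ℕ} {F : Fin (ν + 1) → MvPolynomial (Fin (ν + 1)) k}
    (hF : IsEndo d F) {x : Fin (ν + 1) → L} (hx : x ≠ 0) (n : ℕ) : iter F x n ≠ 0 := by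
  induction n with
  | zero => exact hx
  | succ n ih => rw [iter_succ]; exact step_ne_zero hF ih

theorem step_smul {d : ℕ} {F : Fin (ν + 1) → MvPolynomial (Fin (ν + 1)) k} (hF : IsEndo d F) (c : L)
    (x : Fin (ν + 1) → L) : step F (c • x) = c ^ d • step F x := by
  funext i
  exact aeval_smul_homogeneous (hF.hom i) c x

theorem iter_smul {d : ℕ} {F : Fin (ν + 1) → MvPolynomial (Fin (ν + 1)) k} (hF : IsEndo d F) (c : L)
    (x : Fin (ν + 1) → L) (n : ℕ) : iter F (c • x) n = c ^ d ^ n • iter F x n := by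
  induction n with
  | zero => simp [iter_zero]
  | succ n ih => rw [iter_succ, ih, step_smul hF, iter_succ, ← pow_mul, ← pow_succ]

omit [Algebra k L] in
theorem PEq.refl (x : Fin (ν + 1) → L) : PEq x x := ⟨1, one_ne_zero, by simp⟩

omit [Algebra k L] in
theorem PEq.symm {x y : Fin (ν + 1) → L} (h : PEq x y) : PEq y x := by
  obtain ⟨c, hc, rfl⟩ := h
  exact ⟨c⁻¹, inv_ne_zero hc, by rw [smul_smul, inv_mul_cancel₀ hc, one_smul]⟩

omit [Algebra k L] in
theorem PEq.trans {x y z : Fin (ν + 1) → L} (h : PEq x y) (h' : PEq y z) : PEq x z := by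
  obtain ⟨c, hc, rfl⟩ := h
  obtain ⟨e, he, rfl⟩ := h'
  exact ⟨e * c, mul_ne_zero he hc, by rw [smul_smul]⟩

theorem PEq.iter {d : ℕ} {F : Fin (ν + 1) → MvPolynomial (Fin (ν + 1)) k} (hF : IsEndo d F)
    {x y : Fin (ν + 1) → L} (h : PEq x y) (n : ℕ) : PEq (iter F x n) (iter F y n) := by
  obtain ⟨c, hc, rfl⟩ := h
  exact ⟨c ^ d ^ n, pow_ne_zero _ hc, iter_smul hF c x n⟩

theorem eval_smul_hom {P : MvPolynomial (Fin (ν + 1)) L} {e : ℕ} (hP : P.IsHomogeneous e) (c : L)
    (x : Fin (ν + 1) → L) : eval (c • x) P = c ^ e * eval x P := by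
  have h := aeval_smul_homogeneous hP c x
  have h1 := congrArg (fun φ => φ P) (coe_aeval_eq_eval (c • x))
  have h2 := congrArg (fun φ => φ P) (coe_aeval_eq_eval x)
  exact h1.symm.trans (h.trans (congrArg (fun a => c ^ e * a) h2))

theorem aeval_smul_hom {P : MvPolynomial (Fin (ν + 1)) k} {e : ℕ} (hP : P.IsHomogeneous e) (c : L)
    (x : Fin (ν + 1) → L) : aeval (c • x) P = c ^ e * aeval x P :=
  aeval_smul_homogeneous hP c x

end

section

variable {k K : Type} [Field k] [Field K] [Algebra k K]

theorem eval_map_k (P : MvPolynomial (Fin (ν + 1)) k) (x : Fin (ν + 1) → K) :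
    eval x (map (algebraMap k K) P) = aeval x P := by
  rw [eval_map]; rfl

end

end Pool.Agent.Helper38.TQ

end

section

namespace Pool.Agent.Helper16
end Pool.Agent.Helper16
namespace Pool.Agent.Helper36
end Pool.Agent.Helper36

/-!
# Heights and reduction of points
-/

set_option autoImplicit false

namespace Pool.Agent.Helper38.TQ

open MvPolynomial
open Pool.Agent.Helper16 (Place IsFunctionField)
open Pool.Agent.Helper36 (step iter)

variable {ν : ℕ}

theorem exists_residue {k K : Type} [Field k] [IsAlgClosed k] [Field K] [Algebra k K]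
    (hK : IsFunctionField k K) (b : Place k K) (u : K) (hu : b.val u ≤ 1) :
    ∃ c : k, b.val (u - algebraMap k K c) < 1 := by
  haveI := b.finite_resField hK
  obtain ⟨c, hc⟩ := (IsAlgClosed.algebraMap_bijective_of_isIntegral (k := k)
    (K := b.resField)).2 (b.res u)
  refine ⟨c, ?_⟩
  have h1 : u ∈ b.ring := hu
  have h2 : algebraMap k K c ∈ b.ring := b.ring.algebraMap_mem c
  rw [← b.res_eq_zero_iff (sub_mem h1 h2), b.res_sub h1 h2, b.res_algebraMap, hc, sub_self]

theorem deg_eq_one {k K : Type} [Field k] [IsAlgClosed k] [Field K] [Algebra k K]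
    (hK : IsFunctionField k K) (b : Place k K) : b.deg = 1 := by
  haveI := b.finite_resField hK
  have h := IsAlgClosed.algebraMap_bijective_of_isIntegral (k := k) (K := b.resField)
  have e : k ≃ₗ[k] b.resField :=
    LinearEquiv.ofBijective (Algebra.linearMap k b.resField) h
  have := e.finrank_eq
  rw [Module.finrank_self] at this
  exact this.symm

theorem finsum_log {k K : Type} [Field k] [IsAlgClosed k] [Field K] [Algebra k K]
    (hK : IsFunctionField k K) (f : K) (hf : f ≠ 0) :
    (Function.support fun b : Place k K => WithZero.log (b.val f)).Finite ∧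
      ∑ᶠ b : Place k K, WithZero.log (b.val f) = 0 := by
  obtain ⟨S, h1, h2⟩ := hK.product_formula f
  have h3 : Function.support (fun b : Place k K => WithZero.log (b.val f)) ⊆ (S : Set (Place k K)) := by
    intro b hb
    rw [Finset.mem_coe, h1]
    intro h
    apply hb
    have : -WithZero.log (b.val f) = 0 := h
    show WithZero.log (b.val f) = 0
    omega
  refine ⟨S.finite_toSet.subset h3, ?_⟩
  rw [finsum_eq_sum_of_support_subset _ h3]
  have h4 : ∀ v ∈ S, v.ord f * (v.deg : ℤ) = - WithZero.log (v.val f) := by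
    intro v _
    rw [deg_eq_one hK v]
    show -WithZero.log (v.val f) * _ = _
    simp
  rw [Finset.sum_congr rfl h4, Finset.sum_neg_distrib] at h2
  omega

section nrm

variable {k K : Type} [Field k] [Field K] [Algebra k K]

theorem val_le_nrm (b : Place k K) (x : Fin (ν + 1) → K) (i : Fin (ν + 1)) : b.val (x i) ≤ nrm b x :=
  Finset.le_sup (f := fun i => b.val (x i)) (Finset.mem_univ i)

theorem nrm_le {b : Place k K} {x : Fin (ν + 1) → K} {a : WithZero (Multiplicative ℤ)}
    (h : ∀ i, b.val (x i) ≤ a) : nrm b x ≤ a :=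
  Finset.sup_le fun i _ => h i

theorem exists_val_eq_nrm (b : Place k K) (x : Fin (ν + 1) → K) : ∃ i, b.val (x i) = nrm b x := by
  obtain ⟨i, -, hi⟩ := Finset.exists_mem_eq_sup (Finset.univ : Finset (Fin (ν + 1)))
    Finset.univ_nonempty (fun i => b.val (x i))
  exact ⟨i, hi.symm⟩

theorem nrm_ne_zero {b : Place k K} {x : Fin (ν + 1) → K} (hx : x ≠ 0) : nrm b x ≠ 0 := by
  intro h
  apply hx
  funext i
  have := val_le_nrm b x i
  rw [h, le_zero_iff] at this
  simpa using this

theorem nrm_zero (b : Place k K) : nrm b (0 : Fin (ν + 1) → K) = 0 := by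
  refine le_antisymm (nrm_le fun i => ?_) zero_le
  simp

theorem nrm_smul (b : Place k K) (c : K) (x : Fin (ν + 1) → K) : nrm b (c • x) = b.val c * nrm b x := by
  refine le_antisymm (nrm_le fun i => ?_) ?_
  · rw [Pi.smul_apply, smul_eq_mul, map_mul]
    exact mul_le_mul_right (val_le_nrm b x i) _
  · obtain ⟨i, hi⟩ := exists_val_eq_nrm b x
    rw [← hi, ← map_mul]
    exact val_le_nrm b (c • x) i

theorem log_nrm_smul (b : Place k K) {c : K} (hc : c ≠ 0) {x : Fin (ν + 1) → K} (hx : x ≠ 0) :
    WithZero.log (nrm b (c • x)) = WithZero.log (b.val c) + WithZero.log (nrm b x) := by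
  rw [nrm_smul, WithZero.log_mul (by simpa using hc) (nrm_ne_zero hx)]

end nrm

theorem nrm_support {k K : Type} [Field k] [IsAlgClosed k] [Field K] [Algebra k K]
    (hK : IsFunctionField k K) (x : Fin (ν + 1) → K) (hx : x ≠ 0) :
    (Function.support fun b : Place k K => WithZero.log (nrm b x)).Finite := by
  classical
  have h1 : ∀ i : Fin (ν + 1), x i ≠ 0 →
      (Function.support fun b : Place k K => WithZero.log (b.val (x i))).Finite :=
    fun i hi => (finsum_log hK (x i) hi).1
  have h2 : (⋃ i ∈ (Finset.univ.filter fun i => x i ≠ 0),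
      Function.support fun b : Place k K => WithZero.log (b.val (x i))).Finite := by
    refine Set.Finite.biUnion (Finset.finite_toSet _) fun i hi => h1 i ?_
    simpa using hi
  refine h2.subset ?_
  intro b hb
  by_contra h3
  apply hb
  obtain ⟨i, hi⟩ := exists_val_eq_nrm b x
  show WithZero.log (nrm b x) = 0
  by_contra h4
  apply h3
  simp only [Finset.mem_filter, Finset.mem_univ, true_and, Set.mem_iUnion,
    Function.mem_support]
  refine ⟨i, ?_, ?_⟩
  · intro h0
    apply nrm_ne_zero (b := b) hx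
    rw [← hi, h0, map_zero]
  · rw [hi]; exact h4

theorem val_aeval_le {k K : Type} [Field k] [Field K] [Algebra k K] {e : ℕ}
    {P : MvPolynomial (Fin (ν + 1)) k} (hP : P.IsHomogeneous e) (b : Place k K) (x : Fin (ν + 1) → K) :
    b.val (aeval x P) ≤ nrm b x ^ e := by
  rw [aeval_def, eval₂_eq]
  refine b.val.map_sum_le fun m hm => ?_
  have hd : ∑ i ∈ m.support, m i = e := by
    have := hP (MvPolynomial.mem_support_iff.1 hm)
    rw [Finsupp.weight_apply] at this
    simpa [Finsupp.sum] using this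
  rw [map_mul, map_prod]
  have h1 : b.val (algebraMap k K (coeff m P)) ≤ 1 := b.val_algebraMap_le _
  have h2 : ∏ i ∈ m.support, b.val (x i ^ m i) ≤ nrm b x ^ e := by
    rw [← hd, ← Finset.prod_pow_eq_pow_sum]
    refine Finset.prod_le_prod' fun i _ => ?_
    rw [map_pow]
    exact pow_le_pow_left' (val_le_nrm b x i) _
  calc _ ≤ 1 * nrm b x ^ e := mul_le_mul' h1 h2
    _ = _ := one_mul _

theorem nrm_step {k K : Type} [Field k] [IsAlgClosed k] [Field K] [Algebra k K] {d : ℕ}
    {F : Fin (ν + 1) → MvPolynomial (Fin (ν + 1)) k} (hF : IsEndo d F) (b : Place k K) (x : Fin (ν + 1) → K) :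
    nrm b (step F x) = nrm b x ^ d := by
  have hup : nrm b (step F x) ≤ nrm b x ^ d := nrm_le fun i => val_aeval_le (hF.hom i) b x
  refine le_antisymm hup ?_
  by_cases hx : x = 0
  · subst hx
    rw [nrm_zero, zero_pow (by have := hF.two_le; omega)]
    exact zero_le
  obtain ⟨M, q, hq, h⟩ := Pool.Agent.Helper36.exists_nullstellensatz (L := k) F hF.hom
    (fun y hy => hF.nz y fun i => (congrArg (fun φ => φ (F i))
      (MvPolynomial.coe_aeval_eq_eval y)).symm.trans (hy i))
  obtain ⟨i, hi⟩ := exists_val_eq_nrm b x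
  have h1 : b.val (x i ^ (M + d)) ≤ nrm b x ^ M * nrm b (step F x) := by
    have h2 := congrArg (aeval x) (h i)
    rw [map_pow, aeval_X, map_sum] at h2
    rw [← h2]
    refine b.val.map_sum_le fun j _ => ?_
    rw [map_mul, map_mul]
    exact mul_le_mul' (val_aeval_le (hq _) b x) (val_le_nrm b (step F x) j)
  rw [map_pow, hi, pow_add] at h1
  have h3 : 0 < nrm b x ^ M := pow_pos (zero_lt_iff.2 (nrm_ne_zero hx)) M
  exact le_of_mul_le_mul_left h1 h3

theorem nrm_iter {k K : Type} [Field k] [IsAlgClosed k] [Field K] [Algebra k K] {d : ℕ}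
    {F : Fin (ν + 1) → MvPolynomial (Fin (ν + 1)) k} (hF : IsEndo d F) (b : Place k K) (x : Fin (ν + 1) → K) (n : ℕ) :
    nrm b (iter F x n) = nrm b x ^ d ^ n := by
  induction n with
  | zero => simp [Pool.Agent.Helper36.iter_zero]
  | succ n ih =>
    rw [Pool.Agent.Helper36.iter_succ, nrm_step hF, ih, ← pow_mul, pow_succ]

theorem ht_iter {k K : Type} [Field k] [IsAlgClosed k] [Field K] [Algebra k K]
    (hK : IsFunctionField k K) {d : ℕ} {F : Fin (ν + 1) → MvPolynomial (Fin (ν + 1)) k} (hF : IsEndo d F)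
    (x : Fin (ν + 1) → K) (hx : x ≠ 0) (n : ℕ) : ht k (iter F x n) = d ^ n * ht k x := by
  unfold ht
  rw [mul_finsum]
  refine finsum_congr fun b => ?_
  rw [nrm_iter hF, WithZero.log_pow]
  simp

theorem ht_smul {k K : Type} [Field k] [IsAlgClosed k] [Field K] [Algebra k K]
    (hK : IsFunctionField k K) {c : K} (hc : c ≠ 0) {x : Fin (ν + 1) → K} (hx : x ≠ 0) :
    ht k (c • x) = ht k x := by
  unfold ht
  rw [finsum_congr fun b : Place k K => log_nrm_smul b hc hx,
    finsum_add_distrib (finsum_log hK c hc).1 (nrm_support hK x hx), (finsum_log hK c hc).2,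
    zero_add]

theorem one_le_ht {k K : Type} [Field k] [IsAlgClosed k] [Field K] [Algebra k K]
    (hK : IsFunctionField k K) (x : Fin (ν + 1) → K) (hx : x ≠ 0) (hxc : ¬ IsConst k x) :
    1 ≤ ht k x := by
  obtain ⟨i0, hi0⟩ : ∃ i, x i ≠ 0 := by
    by_contra h
    push Not at h
    exact hx (funext h)
  set y : Fin (ν + 1) → K := (x i0)⁻¹ • x with hy
  have hc : (x i0)⁻¹ ≠ 0 := inv_ne_zero hi0
  have hy0 : y i0 = 1 := by
    rw [hy, Pi.smul_apply, smul_eq_mul, inv_mul_cancel₀ hi0]
  have hyne : y ≠ 0 := by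
    intro h
    rw [h] at hy0
    exact zero_ne_one hy0
  rw [← ht_smul hK hc hx, ← hy]
  -- there is a non-constant coordinate
  obtain ⟨i, hi⟩ : ∃ i, y i ∉ Set.range (algebraMap k K) := by
    by_contra h
    push Not at h
    choose z hz using h
    apply hxc
    refine ⟨z, x i0, hi0, ?_⟩
    funext i
    rw [hz i, hy, Pi.smul_apply, smul_eq_mul, mul_inv_cancel_left₀ hi0]
  have htr : Transcendental k (y i) := by
    intro halg
    apply hi
    have h1 := minpoly.mem_range_of_degree_eq_one k (y i)
      (IsAlgClosed.degree_eq_one_of_irreducible k (minpoly.irreducible halg.isIntegral))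
    obtain ⟨a, ha⟩ := h1
    exact ⟨a, ha⟩
  obtain ⟨S, hS1, hS2, hS3⟩ := hK.zeros (y i)⁻¹ (Pool.Agent.Helper16.transcendental_inv htr)
  have hSne : S.Nonempty := by
    rw [Finset.nonempty_iff_ne_empty]
    rintro rfl
    rw [Finset.sum_empty] at hS2
    omega
  obtain ⟨v, hv⟩ := hSne
  rw [hS1, map_inv₀] at hv
  have hyi0 : y i ≠ 0 := by
    intro h
    apply hi
    exact ⟨0, by rw [map_zero, h]⟩
  have hv1 : 1 < v.val (y i) := by
    rwa [inv_lt_one₀ (zero_lt_iff.2 (by simpa using hyi0))] at hv
  have hnn : ∀ b : Place k K, 0 ≤ WithZero.log (nrm b y) := by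
    intro b
    rw [← WithZero.log_one, WithZero.log_le_log one_ne_zero (nrm_ne_zero hyne)]
    have := val_le_nrm b y i0
    rwa [hy0, map_one] at this
  have hpos : 1 ≤ WithZero.log (nrm v y) := by
    have h1 : 1 < nrm v y := hv1.trans_le (val_le_nrm v y i)
    have h2 : WithZero.log 1 < WithZero.log (nrm v y) :=
      (WithZero.log_lt_log one_ne_zero (nrm_ne_zero hyne)).2 h1
    rw [WithZero.log_one] at h2
    omega
  exact hpos.trans (single_le_finsum v (nrm_support hK y hyne) hnn)

theorem exists_red {k K : Type} [Field k] [IsAlgClosed k] [Field K] [Algebra k K]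
    (hK : IsFunctionField k K) (b : Place k K) (x : Fin (ν + 1) → K) (hx : x ≠ 0) :
    ∃ z : Fin (ν + 1) → k, Red b x z := by
  obtain ⟨i0, hi0⟩ := exists_val_eq_nrm b x
  have hxi : x i0 ≠ 0 := by
    intro h
    apply nrm_ne_zero (b := b) hx
    rw [← hi0, h, map_zero]
  have h1 : ∀ i, b.val ((x i0)⁻¹ * x i) ≤ 1 := by
    intro i
    rw [map_mul, map_inv₀, hi0]
    calc (nrm b x)⁻¹ * b.val (x i) ≤ (nrm b x)⁻¹ * nrm b x :=
          mul_le_mul_right (val_le_nrm b x i) _
      _ = 1 := inv_mul_cancel₀ (nrm_ne_zero hx)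
  choose z hz using fun i => exists_residue hK b _ (h1 i)
  refine ⟨z, ?_, (x i0)⁻¹, inv_ne_zero hxi, hz⟩
  intro h
  have := hz i0
  rw [h, Pi.zero_apply, map_zero, sub_zero, inv_mul_cancel₀ hxi, map_one] at this
  exact lt_irrefl _ this

theorem val_aeval_sub_lt {k K : Type} [Field k] [Field K] [Algebra k K] (b : Place k K)
    (u : Fin (ν + 1) → K) (z : Fin (ν + 1) → k) (h : ∀ i, b.val (u i - algebraMap k K (z i)) < 1)
    (P : MvPolynomial (Fin (ν + 1)) k) :
    b.val (aeval u P) ≤ 1 ∧ b.val (aeval u P - algebraMap k K (aeval z P)) < 1 := by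
  have hu : ∀ i, b.val (u i) ≤ 1 := by
    intro i
    have h1 : u i = (u i - algebraMap k K (z i)) + algebraMap k K (z i) := by ring
    rw [h1]
    exact (b.val.map_add _ _).trans (max_le (h i).le (b.val_algebraMap_le _))
  induction P using MvPolynomial.induction_on with
  | C a =>
    rw [aeval_C, aeval_C]
    refine ⟨b.val_algebraMap_le _, ?_⟩
    simp
  | add p q hp hq =>
    rw [map_add (aeval u), map_add (aeval z), map_add (algebraMap k K)]
    refine ⟨(b.val.map_add _ _).trans (max_le hp.1 hq.1), ?_⟩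
    have h1 : aeval u p + aeval u q - (algebraMap k K (aeval z p) + algebraMap k K (aeval z q)) =
        (aeval u p - algebraMap k K (aeval z p)) + (aeval u q - algebraMap k K (aeval z q)) := by
      ring
    rw [h1]
    exact b.val.map_add_lt hp.2 hq.2
  | mul_X p i hp =>
    rw [map_mul (aeval u), map_mul (aeval z), map_mul (algebraMap k K), aeval_X, aeval_X]
    refine ⟨by rw [map_mul]; exact mul_le_one' hp.1 (hu i), ?_⟩
    have h1 : aeval u p * u i - algebraMap k K (aeval z p) * algebraMap k K (z i) =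
        aeval u p * (u i - algebraMap k K (z i)) +
          (aeval u p - algebraMap k K (aeval z p)) * algebraMap k K (z i) := by
      ring
    rw [h1]
    refine b.val.map_add_lt ?_ ?_
    · rw [map_mul, mul_comm]
      exact mul_lt_one_of_lt_of_le (h i) hp.1
    · rw [map_mul]
      exact mul_lt_one_of_lt_of_le hp.2 (b.val_algebraMap_le _)

theorem Red.step {k K : Type} [Field k] [IsAlgClosed k] [Field K] [Algebra k K] {d : ℕ}
    {F : Fin (ν + 1) → MvPolynomial (Fin (ν + 1)) k} (hF : IsEndo d F) {b : Place k K} {x : Fin (ν + 1) → K}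
    {z : Fin (ν + 1) → k} (h : Red b x z) :
    Red b (Pool.Agent.Helper36.step F x) (Pool.Agent.Helper36.step F z) := by
  obtain ⟨hz, c, hc, h1⟩ := h
  refine ⟨?_, c ^ d, pow_ne_zero _ hc, ?_⟩
  · intro h0
    apply hz
    apply hF.nz
    intro i
    have := congrFun h0 i
    exact (congrArg (fun φ => φ (F i)) (MvPolynomial.coe_aeval_eq_eval z)).symm.trans this
  · intro i
    have h2 := (val_aeval_sub_lt b (fun i => c * x i) z h1 (F i)).2
    rw [Pool.Agent.Helper36.aeval_smul_homogeneous (hF.hom i)] at h2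
    exact h2

theorem Red.iter {k K : Type} [Field k] [IsAlgClosed k] [Field K] [Algebra k K] {d : ℕ}
    {F : Fin (ν + 1) → MvPolynomial (Fin (ν + 1)) k} (hF : IsEndo d F) {b : Place k K} {x : Fin (ν + 1) → K}
    {z : Fin (ν + 1) → k} (h : Red b x z) (n : ℕ) : Red b (iter F x n) (iter F z n) := by
  induction n with
  | zero => exact h
  | succ n ih =>
    rw [Pool.Agent.Helper36.iter_succ, Pool.Agent.Helper36.iter_succ]
    exact Red.step hF ih

theorem Red.unique {k K : Type} [Field k] [Field K] [Algebra k K] {b : Place k K} {x y : Fin (ν + 1) → K}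
    {z w : Fin (ν + 1) → k} (h : Red b x z) (h' : Red b y w) (hxy : PEq x y) : PEq z w := by
  obtain ⟨hz, c1, hc1, h1⟩ := h
  obtain ⟨hw, c2, hc2, h2⟩ := h'
  obtain ⟨c, hc, rfl⟩ := hxy
  -- c2 * (c * x i) ≡ w i, c1 * x i ≡ z i
  have val_of : ∀ {u : K} {t : k}, b.val (u - algebraMap k K t) < 1 → b.val u ≤ 1 := by
    intro u t hu
    have h3 : u = (u - algebraMap k K t) + algebraMap k K t := by ring
    rw [h3]
    exact (b.val.map_add _ _).trans (max_le hu.le (b.val_algebraMap_le _))
  have val_one : ∀ {u : K} {t : k}, t ≠ 0 → b.val (u - algebraMap k K t) < 1 → b.val u = 1 := by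
    intro u t ht hu
    refine le_antisymm (val_of hu) ?_
    by_contra hlt
    rw [not_le] at hlt
    have h3 : algebraMap k K t = u - (u - algebraMap k K t) := by ring
    have h4 : b.val (algebraMap k K t) < 1 := by
      rw [h3]
      exact (b.val.map_sub _ _).trans_lt (max_lt hlt hu)
    rw [b.triv t ht] at h4
    exact lt_irrefl _ h4
  obtain ⟨i0, hi0⟩ : ∃ i, z i ≠ 0 := by
    by_contra h
    push Not at h
    exact hz (funext h)
  set a : K := c2 * c * c1⁻¹ with ha
  have h3 : ∀ i, a * (c1 * x i) = c2 * (c • x) i := by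
    intro i
    rw [ha, Pi.smul_apply, smul_eq_mul]
    field_simp
  have hva : b.val a ≤ 1 := by
    have h4 := val_of (h2 i0)
    rw [← h3, map_mul, val_one hi0 (h1 i0), mul_one] at h4
    exact h4
  -- a * z i ≡ w i
  have h5 : ∀ i, b.val (a * algebraMap k K (z i) - algebraMap k K (w i)) < 1 := by
    intro i
    have h6 : a * algebraMap k K (z i) - algebraMap k K (w i) =
        (c2 * (c • x) i - algebraMap k K (w i)) - a * (c1 * x i - algebraMap k K (z i)) := by
      rw [← h3]; ring
    rw [h6]
    refine (b.val.map_sub _ _).trans_lt (max_lt (h2 i) ?_)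
    rw [map_mul, mul_comm]
    exact mul_lt_one_of_lt_of_le (h1 i) hva
  have h7 : b.val (a - algebraMap k K (w i0 / z i0)) < 1 := by
    have h8 : a - algebraMap k K (w i0 / z i0) =
        (a * algebraMap k K (z i0) - algebraMap k K (w i0)) * algebraMap k K (z i0)⁻¹ := by
      rw [map_div₀, map_inv₀]
      have : algebraMap k K (z i0) ≠ 0 := by simpa using hi0
      field_simp
    rw [h8, map_mul]
    exact mul_lt_one_of_lt_of_le (h5 i0) (b.val_algebraMap_le _)
  have h9 : ∀ i, w i = w i0 / z i0 * z i := by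
    intro i
    by_contra hne
    have h10 : b.val (algebraMap k K (w i0 / z i0 * z i - w i)) < 1 := by
      have h11 : algebraMap k K (w i0 / z i0 * z i - w i) =
          (a * algebraMap k K (z i) - algebraMap k K (w i)) -
            (a - algebraMap k K (w i0 / z i0)) * algebraMap k K (z i) := by
        rw [map_sub, map_mul]; ring
      rw [h11]
      refine (b.val.map_sub _ _).trans_lt (max_lt (h5 i) ?_)
      rw [map_mul]
      exact mul_lt_one_of_lt_of_le h7 (b.val_algebraMap_le _)
    rw [b.triv _ (sub_ne_zero.2 (Ne.symm hne))] at h10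
    exact lt_irrefl _ h10
  refine ⟨w i0 / z i0, ?_, funext h9⟩
  intro h0
  apply hw
  funext i
  rw [h9 i, h0, zero_mul, Pi.zero_apply]

theorem ptHeight_iter_ne_zero {k K : Type} [Field k] [IsAlgClosed k] [Field K] [Algebra k K] {d : ℕ}
    {F : Fin (ν + 1) → MvPolynomial (Fin (ν + 1)) k} (hF : IsEndo d F) (b : Place k K)
    (x : Fin (ν + 1) → K) (hx : x ≠ 0) (n : ℕ) : iter F x n ≠ 0 := by
  intro h
  have h1 := nrm_iter hF b x n
  rw [h, nrm_zero] at h1
  exact pow_ne_zero _ (nrm_ne_zero hx) h1.symm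

theorem isConst_of_preper {k K : Type} [Field k] [IsAlgClosed k] [Field K] [Algebra k K]
    (hK : IsFunctionField k K) {d : ℕ} {F : Fin (ν + 1) → MvPolynomial (Fin (ν + 1)) k} (hF : IsEndo d F)
    (x : Fin (ν + 1) → K) (hx : x ≠ 0) (h : Preper F x) : IsConst k x := by
  by_contra hc
  have h1 := one_le_ht hK x hx hc
  obtain ⟨n, m, hnm, a, ha, hy⟩ := h
  obtain ⟨b⟩ : Nonempty (Place k K) := by
    by_contra hne
    rw [not_nonempty_iff] at hne
    have : ht k x = 0 := finsum_of_isEmpty _
    omega
  have h2 := ht_iter hK hF x hx m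
  rw [hy, ht_smul hK ha (ptHeight_iter_ne_zero hF b x hx n), ht_iter hK hF x hx n] at h2
  have h3 : (d : ℤ) ^ n = d ^ m := mul_right_cancel₀ (by omega) h2
  have h4 : d ^ n = d ^ m := by exact_mod_cast h3
  have := Nat.pow_right_injective hF.two_le h4
  omega

end Pool.Agent.Helper38.TQ

end

section

namespace Pool.Agent.Helper16
end Pool.Agent.Helper16
namespace Pool.Agent.Helper36
end Pool.Agent.Helper36

/-!
# Points with different reductions; binary forms; irreducible forms
-/

set_option autoImplicit false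

namespace Pool.Agent.Helper38.TQ

open MvPolynomial
open Pool.Agent.Helper16 (Place IsFunctionField)
open Pool.Agent.Helper36 (step iter iter_zero iter_succ iter_succ' iter_add iter_map)

variable {ν : ℕ}

theorem peq_of_minors {L : Type} [Field L] {x y : Fin (ν + 1) → L} (hx : x ≠ 0) (hy : y ≠ 0)
    (h : ∀ p q, x p * y q - x q * y p = 0) : PEq x y := by
  obtain ⟨i0, hi0⟩ : ∃ i, x i ≠ 0 := by
    by_contra hc
    push Not at hc
    exact hx (funext hc)
  have h1 : ∀ j, y j = y i0 / x i0 * x j := by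
    intro j
    have h2 := h i0 j
    field_simp
    linear_combination h2
  refine ⟨y i0 / x i0, ?_, funext h1⟩
  intro h0
  apply hy
  funext j
  rw [h1 j, h0, zero_mul]
  rfl

theorem nrm_red {k K : Type} [Field k] [Field K] [Algebra k K] {b : Place k K}
    {u : Fin (ν + 1) → K} {z : Fin (ν + 1) → k} (hz : z ≠ 0)
    (h : ∀ i, b.val (u i - algebraMap k K (z i)) < 1) : nrm b u = 1 := by
  have h1 : ∀ i, b.val (u i) ≤ 1 := by
    intro i
    have h3 : u i = (u i - algebraMap k K (z i)) + algebraMap k K (z i) := by ring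
    rw [h3]
    exact (b.val.map_add _ _).trans (max_le (h i).le (b.val_algebraMap_le _))
  obtain ⟨i0, hi0⟩ : ∃ i, z i ≠ 0 := by
    by_contra hc
    push Not at hc
    exact hz (funext hc)
  have h2 : b.val (u i0) = 1 := by
    refine le_antisymm (h1 i0) ?_
    by_contra hlt
    rw [not_le] at hlt
    have h3 : algebraMap k K (z i0) = u i0 - (u i0 - algebraMap k K (z i0)) := by ring
    have h4 : b.val (algebraMap k K (z i0)) < 1 := by
      rw [h3]
      exact (b.val.map_sub _ _).trans_lt (max_lt hlt (h i0))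
    rw [b.triv (z i0) hi0] at h4
    exact lt_irrefl _ h4
  refine le_antisymm (nrm_le h1) ?_
  rw [← h2]
  exact val_le_nrm b u i0

theorem val_lin_le {k K : Type} [Field k] [Field K] [Algebra k K] (b : Place k K)
    (a : Fin (ν + 1) → k) (x : Fin (ν + 1) → K) : b.val (lin a x) ≤ nrm b x := by
  unfold lin
  refine b.val.map_sum_le fun i _ => ?_
  rw [map_mul]
  calc b.val (algebraMap k K (a i)) * b.val (x i) ≤ 1 * nrm b x :=
        mul_le_mul' (b.val_algebraMap_le _) (val_le_nrm b x i)
    _ = _ := one_mul _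

/-- A binary form vanishing on an affine chart is zero. -/
theorem form_two_eq_zero {K : Type} [Field K] [Infinite K] {P : MvPolynomial (Fin 2) K} {e : ℕ}
    (hP : P.IsHomogeneous e) (h : ∀ t : K, eval ![1, t] P = 0) : P = 0 := by
  have h1 : X 0 * P = 0 := by
    apply MvPolynomial.funext
    intro z
    rw [map_mul, eval_X, map_zero]
    by_cases hz : z 0 = 0
    · rw [hz, zero_mul]
    · have h2 := h (z 1 / z 0)
      have h3 : (![1, z 1 / z 0] : Fin 2 → K) = (z 0)⁻¹ • z := by
        funext i
        fin_cases i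
        · simp [hz]
        · simp [div_eq_inv_mul]
      rw [h3, eval_smul_hom (ν := 1) hP] at h2
      rcases mul_eq_zero.1 h2 with h4 | h4
      · exact absurd h4 (pow_ne_zero _ (inv_ne_zero hz))
      · rw [h4, mul_zero]
  rcases mul_eq_zero.1 h1 with h2 | h2
  · exact absurd h2 (X_ne_zero _)
  · exact h2

/-- If a binary form vanishes at `U`-many points then `U`-many points are equal. -/
theorem exists_point_of_binary {K : Type} [Field K] [Infinite K] {U : Ultrafilter ℕ}
    {u v : ℕ → K} {P : MvPolynomial (Fin 2) K} {e : ℕ} (hP : P.IsHomogeneous e) (hP0 : P ≠ 0)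
    (h : ∀ᶠ n in (U : Filter ℕ), eval ![u n, v n] P = 0) :
    ∃ ρ : Fin 2 → K, ρ ≠ 0 ∧ ∀ᶠ n in (U : Filter ℕ), ∃ c : K, u n = c * ρ 0 ∧ v n = c * ρ 1 := by
  classical
  by_cases hu : ∀ᶠ n in (U : Filter ℕ), u n = 0
  · refine ⟨![0, 1], ?_, ?_⟩
    · intro h0
      have := congrFun h0 1
      simp at this
    · filter_upwards [hu] with n hn
      exact ⟨v n, by simp [hn], by simp⟩
  rw [← Ultrafilter.eventually_not] at hu
  obtain ⟨p, hp⟩ : ∃ p : Polynomial K, ∀ t, Polynomial.eval t p = eval ![1, t] P := by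
    refine ⟨aeval (![1, Polynomial.X] : Fin 2 → Polynomial K) P, fun t => ?_⟩
    have h1 : (Polynomial.evalRingHom t).comp
        (aeval (![1, Polynomial.X] : Fin 2 → Polynomial K)).toRingHom = eval ![1, t] := by
      apply MvPolynomial.ringHom_ext
      · intro c
        simp
      · intro i
        fin_cases i <;> simp
    exact congrArg (fun φ => φ P) h1
  have hp0 : p ≠ 0 := by
    intro h0
    apply hP0
    apply form_two_eq_zero hP
    intro t
    rw [← hp, h0, Polynomial.eval_zero]
  have hroot : ∀ᶠ n in (U : Filter ℕ), v n / u n ∈ p.roots.toFinset := by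
    filter_upwards [hu, h] with n h1 h2
    rw [Multiset.mem_toFinset, Polynomial.mem_roots hp0, Polynomial.IsRoot.def, hp]
    have h3 : (![1, v n / u n] : Fin 2 → K) = (u n)⁻¹ • ![u n, v n] := by
      funext i
      fin_cases i
      · simp [h1]
      · simp [div_eq_inv_mul]
    rw [h3, eval_smul_hom (ν := 1) hP, h2, mul_zero]
  have hex : ∃ r, ∀ᶠ n in (U : Filter ℕ), v n / u n = r := by
    by_contra hcon
    push Not at hcon
    have h4 : ∀ r ∈ p.roots.toFinset, ∀ᶠ n in (U : Filter ℕ), v n / u n ≠ r := by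
      intro r _
      exact hcon r
    have h5 := (Filter.eventually_all_finset p.roots.toFinset).2 h4
    obtain ⟨n, hn1, hn2⟩ := (hroot.and h5).exists
    exact hn2 _ hn1 rfl
  obtain ⟨r, hr⟩ := hex
  refine ⟨![1, r], ?_, ?_⟩
  · intro h0
    have := congrFun h0 0
    simp at this
  · filter_upwards [hr, hu] with n h1 h2
    refine ⟨u n, by simp, ?_⟩
    have : v n = u n * r := by
      rw [← h1]; field_simp
    simpa using this

/-- An irreducible form vanishing at `U`-many points. -/
theorem exists_irreducible_form {K : Type} [Field K] {U : Ultrafilter ℕ} {y : ℕ → Fin 3 → K}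
    {P : MvPolynomial (Fin 3) K} {e : ℕ} (hP : P.IsHomogeneous e) (hP0 : P ≠ 0)
    (hv : ∀ᶠ n in (U : Filter ℕ), eval (y n) P = 0) :
    ∃ (D : ℕ) (g : MvPolynomial (Fin 3) K), g.IsHomogeneous D ∧ Irreducible g ∧
      ∀ᶠ n in (U : Filter ℕ), eval (y n) g = 0 := by
  classical
  have hex : ∃ D : ℕ, ∃ g : MvPolynomial (Fin 3) K, g.IsHomogeneous D ∧ g ≠ 0 ∧
      ∀ᶠ n in (U : Filter ℕ), eval (y n) g = 0 := ⟨e, P, hP, hP0, hv⟩
  obtain ⟨D, hD, hmin⟩ : ∃ D : ℕ, (∃ g : MvPolynomial (Fin 3) K, g.IsHomogeneous D ∧ g ≠ 0 ∧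
      ∀ᶠ n in (U : Filter ℕ), eval (y n) g = 0) ∧ ∀ D' < D,
      ¬ ∃ g : MvPolynomial (Fin 3) K, g.IsHomogeneous D' ∧ g ≠ 0 ∧
      ∀ᶠ n in (U : Filter ℕ), eval (y n) g = 0 :=
    ⟨Nat.find hex, Nat.find_spec hex, fun D' h => Nat.find_min hex h⟩
  obtain ⟨g, hg, hg0, hgv⟩ := hD
  have hconst : ∀ (a : MvPolynomial (Fin 3) K), a.IsHomogeneous 0 → a = C (coeff 0 a) := by
    intro a ha
    exact (totalDegree_eq_zero_iff_eq_C).1 (Nat.le_zero.1 ha.totalDegree_le)
  have hunit : ∀ (a : MvPolynomial (Fin 3) K), a.IsHomogeneous 0 → a ≠ 0 → IsUnit a := by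
    intro a ha h0
    have h1 := hconst a ha
    rw [h1]
    refine IsUnit.map C (isUnit_iff_ne_zero.2 fun h => h0 ?_)
    rw [h1, h, map_zero]
  refine ⟨D, g, hg, ?_, hgv⟩
  refine ⟨?_, fun a b hab => ?_⟩
  · intro h
    obtain ⟨n, hn⟩ := hgv.exists
    have := h.map (eval (y n))
    rw [hn] at this
    exact not_isUnit_zero this
  · obtain ⟨i, j, hi, hj, hij⟩ := Pool.Agent.Helper30.TP.ultra_form_of_mul hg hg0 hab
    have ha0 : a ≠ 0 := by rintro rfl; exact hg0 (by rw [hab, zero_mul])
    have hb0 : b ≠ 0 := by rintro rfl; exact hg0 (by rw [hab, mul_zero])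
    rw [hab] at hgv
    rcases Pool.Agent.Helper30.TP.ultra_or hgv with h | h
    · right
      have h1 : ¬ i < D := fun h2 => hmin i h2 ⟨a, hi, ha0, h⟩
      have h3 : j = 0 := by omega
      subst h3
      exact hunit b hj hb0
    · left
      have h1 : ¬ j < D := fun h2 => hmin j h2 ⟨b, hj, hb0, h⟩
      have h3 : i = 0 := by omega
      subst h3
      exact hunit a hi ha0

end Pool.Agent.Helper38.TQ

end

section

set_option autoImplicit false
set_option linter.style.haveILetI false

namespace Pool.Agent.Helper16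

open Polynomial IntermediateField IsDedekindDomain

/-- A proper `K`-scheme recorded through its functor of field-valued points together with the
specialisation maps `X(N) → X(κ(v))` at places `v` of `N/K` given by the valuative criterion. -/
structure PtFunctor (K : Type) [Field K] where
  /-- field-valued points -/
  Pt : (N : Type) → [Field N] → [Algebra K N] → Type
  /-- functoriality -/
  map : {N N' : Type} → [Field N] → [Algebra K N] → [Field N'] → [Algebra K N'] →
    (N →ₐ[K] N') → Pt N → Pt N'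
  /-- specialisation at a place -/
  sp : {N : Type} → [Field N] → [Algebra K N] → (v : Place K N) → Pt N → Pt v.resField
  /-- functoriality: composition -/
  map_comp : ∀ {N N' N'' : Type} [Field N] [Algebra K N] [Field N'] [Algebra K N'] [Field N'']
    [Algebra K N''] (φ : N →ₐ[K] N') (ψ : N' →ₐ[K] N'') (x : Pt N),
    map (ψ.comp φ) x = map ψ (map φ x)

namespace PtFunctor

variable {K : Type} [Field K]

/-- Product of two schemes. -/
def prod (X Y : PtFunctor K) : PtFunctor K where
  Pt N _ _ := X.Pt N × Y.Pt N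
  map φ p := (X.map φ p.1, Y.map φ p.2)
  sp v p := (X.sp v p.1, Y.sp v p.2)
  map_comp φ ψ p := by rw [X.map_comp, Y.map_comp]

end PtFunctor

end Pool.Agent.Helper16

end

section

set_option autoImplicit false
set_option linter.style.haveILetI false

namespace Pool.Agent.Helper16

open Polynomial IntermediateField IsDedekindDomain

section trdeg

/-- Finite extensions of function fields are function fields. -/
theorem IsFunctionField.of_finite {k K L : Type} [Field k] [Field K] [Field L] [Algebra k K]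
    [Algebra K L] [Algebra k L] [IsScalarTower k K L] (hK : IsFunctionField k K)
    [FiniteDimensional K L] : IsFunctionField k L := by
  haveI := hK.1
  refine ⟨Algebra.EssFiniteType.comp k K L, ?_⟩
  have h1 := trdeg_add_eq k K (A := L)
  rw [trdeg_eq_zero (R := K) (A := L), add_zero] at h1
  rw [← h1, hK.2]

end trdeg

section restr

variable {k K L N : Type} [Field k] [Field K] [Field L] [Field N] [Algebra k K] [Algebra k L]
  [Algebra k N] [Algebra L N] [Algebra K N] [IsScalarTower k L N] [IsScalarTower k K N]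

end restr

end Pool.Agent.Helper16

end
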