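import Pool.Agent.Helper29.MG2.T16
import Pool.Agent.Helper29.MG2.T18
import Pool.Agent.Helper29.MG2.T19

section

namespace Pool.Agent.Helper16
end Pool.Agent.Helper16
namespace Pool.Agent.Helper38.TQ
end Pool.Agent.Helper38.TQ

/-!
# Truncated contacts of the points of a curve in projective space over a function field
-/

set_option autoImplicit false

namespace Pool.Agent.Helper30.TKN

open MvPolynomial
open Pool.Agent.Helper16 (Place IsFunctionField)
open Pool.Agent.Helper38.TQ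

variable {ν : ℕ}

section

variable {k K : Type} [Field k] [Field K] [Algebra k K]

theorem cross_lt (b : Place k K) {y y' : Fin 3 → K} (hy : y ≠ 0) (hy' : y' ≠ 0)
    (hPE : ¬ Pool.Agent.Helper30.TP.PEq y y') (hcl : 0 < Pool.Agent.Helper30.TP.cl b y y') :
    Pool.Agent.Helper30.TP.nrm b (crossProduct y y') <
      Pool.Agent.Helper30.TP.nrm b y * Pool.Agent.Helper30.TP.nrm b y' := by
  have hny := Pool.Agent.Helper30.TP.nrm_ne_zero (b := b) hy
  have hny' := Pool.Agent.Helper30.TP.nrm_ne_zero (b := b) hy'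
  have hnc := Pool.Agent.Helper30.TP.nrm_ne_zero (b := b)
    (Pool.Agent.Helper30.TP.cross_ne_zero hy hy' hPE)
  rw [← WithZero.log_lt_log hnc (mul_ne_zero hny hny'), WithZero.log_mul hny hny']
  unfold Pool.Agent.Helper30.TP.cl at hcl
  omega

theorem gs_X_le (b : Place k K) (p : Fin 3) :
    Pool.Agent.Helper30.TP.gs b (X p : MvPolynomial (Fin 3) K) ≤ 1 := by
  classical
  refine Pool.Agent.Helper30.TP.formHeight_gs_le fun m => ?_
  rw [coeff_X]
  split_ifs
  · rw [map_one]
  · rw [map_zero]; exact zero_le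

theorem gs_X_pow_le (b : Place k K) (p : Fin 3) (n : ℕ) :
    Pool.Agent.Helper30.TP.gs b ((X p : MvPolynomial (Fin 3) K) ^ n) ≤ 1 := by
  classical
  refine Pool.Agent.Helper30.TP.formHeight_gs_le fun m => ?_
  rw [coeff_X_pow]
  split_ifs
  · rw [map_one]
  · rw [map_zero]; exact zero_le

theorem val_form_near (b : Place k K) {e : ℕ} {V : MvPolynomial (Fin 3) K}
    (hV : V.IsHomogeneous e) {y y' : Fin 3 → K} (hy : y ≠ 0) (hy' : y' ≠ 0)
    (hPE : ¬ Pool.Agent.Helper30.TP.PEq y y') (hVint : Pool.Agent.Helper30.TP.gs b V ≤ 1)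
    (hVy : b.val (eval y V) = Pool.Agent.Helper30.TP.nrm b y ^ e)
    (hcl : 0 < Pool.Agent.Helper30.TP.cl b y y') :
    b.val (eval y' V) = Pool.Agent.Helper30.TP.nrm b y' ^ e := by
  have hny := Pool.Agent.Helper30.TP.nrm_ne_zero (b := b) hy
  have hny' := Pool.Agent.Helper30.TP.nrm_ne_zero (b := b) hy'
  have hlt := cross_lt b hy hy' hPE hcl
  obtain ⟨p, hp⟩ := Pool.Agent.Helper30.TP.exists_val_eq_nrm b y
  obtain ⟨q, hq⟩ := Pool.Agent.Helper30.TP.exists_val_eq_nrm b y'
  have hp' : b.val (y' p) = Pool.Agent.Helper30.TP.nrm b y' := by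
    by_contra hne
    have h1 : b.val (y' p) < Pool.Agent.Helper30.TP.nrm b y' :=
      lt_of_le_of_ne (Pool.Agent.Helper30.TP.val_le_nrm b y' p) hne
    have h2 : b.val (y p * y' q) = Pool.Agent.Helper30.TP.nrm b y *
        Pool.Agent.Helper30.TP.nrm b y' := by rw [map_mul, hp, hq]
    have h3 : b.val (y q * y' p) < b.val (y p * y' q) := by
      rw [h2, map_mul]
      exact mul_lt_mul_of_le_of_lt_of_nonneg_of_pos
        (Pool.Agent.Helper30.TP.val_le_nrm b y q) h1 zero_le (zero_lt_iff.2 hny)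
    have h4 := Pool.Agent.Helper30.TP.Cl_val_pq b y y' p q
    rw [Valuation.map_sub_swap, Valuation.map_sub_eq_of_lt_right b.val h3, h2] at h4
    exact absurd hlt (not_lt.2 h4)
  have h1 := wedge_le b (e := e) (P := V * X p) (Q := X p ^ (e + 1))
    (hV.mul (isHomogeneous_X K p)) (by simpa using (isHomogeneous_X K p).pow (e + 1)) y y'
  have hg : Pool.Agent.Helper30.TP.gs b (V * X p) * Pool.Agent.Helper30.TP.gs b
      ((X p : MvPolynomial (Fin 3) K) ^ (e + 1)) ≤ 1 := by
    refine mul_le_one' ((Pool.Agent.Helper30.TP.formHeight_mul_le b V (X p)).trans ?_)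
      (gs_X_pow_le b p _)
    exact mul_le_one' hVint (gs_X_le b p)
  have h2 : b.val (eval y (V * X p) * eval y' (X p ^ (e + 1)) -
      eval y (X p ^ (e + 1)) * eval y' (V * X p)) <
      Pool.Agent.Helper30.TP.nrm b y ^ (e + 1) * Pool.Agent.Helper30.TP.nrm b y' ^ (e + 1) := by
    refine (h1.trans (mul_le_of_le_one_left' hg)).trans_lt ?_
    calc _ < Pool.Agent.Helper30.TP.nrm b y * Pool.Agent.Helper30.TP.nrm b y' *
          Pool.Agent.Helper30.TP.nrm b y ^ e * Pool.Agent.Helper30.TP.nrm b y' ^ e := by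
            refine mul_lt_mul_of_pos_right (mul_lt_mul_of_pos_right hlt ?_) ?_
            · exact zero_lt_iff.2 (pow_ne_zero _ hny)
            · exact zero_lt_iff.2 (pow_ne_zero _ hny')
      _ = _ := by
            rw [pow_succ, pow_succ]
            ac_rfl
  have h3 : b.val (eval y (V * X p) * eval y' (X p ^ (e + 1))) =
      Pool.Agent.Helper30.TP.nrm b y ^ (e + 1) * Pool.Agent.Helper30.TP.nrm b y' ^ (e + 1) := by
    simp only [map_mul, map_pow, eval_X, hp, hp', hVy]
    rw [pow_succ (Pool.Agent.Helper30.TP.nrm b y) e]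
  rw [Valuation.map_sub_swap] at h2
  have h4 := Valuation.map_eq_of_sub_lt b.val (h2.trans_eq h3.symm)
  rw [h3] at h4
  simp only [map_mul, map_pow, eval_X, hp, hp'] at h4
  have h5 : Pool.Agent.Helper30.TP.nrm b y ^ (e + 1) ≠ 0 := pow_ne_zero _ hny
  have h6 := mul_left_cancel₀ h5 h4
  rw [pow_succ] at h6
  exact mul_right_cancel₀ hny' h6

theorem same_of_cl_pos (b : Place k K) {e : ℕ} {V : MvPolynomial (Fin 3) K}
    (hV : V.IsHomogeneous e)
    {P : Fin (ν + 1) → MvPolynomial (Fin 3) K} (hP : ∀ j, (P j).IsHomogeneous (e + 1))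
    {x x' : Fin (ν + 1) → K} {y y' : Fin 3 → K} (hy : y ≠ 0) (hy' : y' ≠ 0)
    (hyx : Pool.Agent.Helper30.TP.nrm b y ≤ nrm b x)
    (hyx' : Pool.Agent.Helper30.TP.nrm b y' ≤ nrm b x')
    (h : ∀ j, x j * eval y V = eval y (P j)) (h' : ∀ j, x' j * eval y' V = eval y' (P j))
    (hPE : ¬ Pool.Agent.Helper30.TP.PEq y y') (hVint : Pool.Agent.Helper30.TP.gs b V ≤ 1)
    (hPint : ∀ j, Pool.Agent.Helper30.TP.gs b (P j) ≤ 1)
    (hVy : b.val (eval y V) = Pool.Agent.Helper30.TP.nrm b y ^ e)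
    (hcl : 0 < Pool.Agent.Helper30.TP.cl b y y') : Same b x x' := by
  intro p q
  have hny := Pool.Agent.Helper30.TP.nrm_ne_zero (b := b) hy
  have hny' := Pool.Agent.Helper30.TP.nrm_ne_zero (b := b) hy'
  have hlt := cross_lt b hy hy' hPE hcl
  have hVy' := val_form_near b hV hy hy' hPE hVint hVy hcl
  have h1 := wedge_le b (hP p) (hP q) y y'
  have h2 : eval y (P p) * eval y' (P q) - eval y (P q) * eval y' (P p) =
      (eval y V * eval y' V) * (x p * x' q - x q * x' p) := by
    rw [← h, ← h, ← h', ← h']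
    ring
  rw [h2, map_mul, map_mul, hVy, hVy'] at h1
  have h3 := h1.trans (mul_le_of_le_one_left' (mul_le_one' (hPint p) (hPint q)))
  have h4 : Pool.Agent.Helper30.TP.nrm b y ^ e * Pool.Agent.Helper30.TP.nrm b y' ^ e ≠ 0 :=
    mul_ne_zero (pow_ne_zero _ hny) (pow_ne_zero _ hny')
  have h5 : b.val (x p * x' q - x q * x' p) ≤
      Pool.Agent.Helper30.TP.nrm b (crossProduct y y') := by
    refine le_of_mul_le_mul_left (h3.trans_eq ?_) (zero_lt_iff.2 h4)
    ac_rfl
  exact (h5.trans_lt hlt).trans_le (mul_le_mul' hyx hyx')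

end

section

variable {k K : Type} [Field k] [IsAlgClosed k] [Field K] [Algebra k K]

/-- Points with different values have the same reduction at finitely many places only. -/
theorem same_finite (hK : IsFunctionField k K) {x x' : Fin (ν + 1) → K} (hx : x ≠ 0)
    (hx' : x' ≠ 0) (h : ¬ PEq x x') : {b : Place k K | Same b x x'}.Finite := by
  obtain ⟨p, q, hpq⟩ : ∃ p q, x p * x' q - x q * x' p ≠ 0 := by
    by_contra hcon
    push Not at hcon
    exact h (peq_of_minors hx hx' hcon)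
  refine (((nrm_support hK x hx).union (nrm_support hK x' hx')).union
    (finsum_log hK _ hpq).1).subset ?_
  intro b hb
  by_contra hcon
  rw [Set.mem_union, Set.mem_union, not_or, not_or] at hcon
  have h1 := Function.notMem_support.1 hcon.1.1
  have h2 := Function.notMem_support.1 hcon.1.2
  have h3 := Function.notMem_support.1 hcon.2
  have h4 := hb p q
  have h0 : b.val (x p * x' q - x q * x' p) ≠ 0 := by simpa using hpq
  have n1 := nrm_ne_zero (b := b) hx
  have n2 := nrm_ne_zero (b := b) hx'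
  rw [← WithZero.log_lt_log h0 (mul_ne_zero n1 n2), WithZero.log_mul n1 n2, h1, h2, h3] at h4
  exact absurd h4 (by norm_num)

theorem eventually_large {x : ℕ → Fin (ν + 1) → K} (hht : ∀ B : ℤ, {n | ht k (x n) ≤ B}.Finite)
    {U : Ultrafilter ℕ} (hU : Free U) (B : ℤ) : ∀ᶠ n in (U : Filter ℕ), B < ht k (x n) := by
  obtain ⟨m, hm⟩ := (hht B).bddAbove
  filter_upwards [hU (m + 1)] with n hn
  by_contra hcon
  have := hm (show n ∈ {n | ht k (x n) ≤ B} from not_lt.1 hcon)
  omega

/-- No binary relation between the two dominating linear forms. -/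
theorem no_binary_large (hK : IsFunctionField k K) {x : ℕ → Fin (ν + 1) → K}
    (hx : ∀ n, x n ≠ 0) (hht : ∀ B : ℤ, {n | ht k (x n) ≤ B}.Finite) {U : Ultrafilter ℕ}
    (hU : Free U) {a₀ a₁ : Fin (ν + 1) → k} {C : Place k K → ℤ}
    (hCs : (Function.support C).Finite)
    (hdom : ∀ᶠ n in (U : Filter ℕ), ∀ (b : Place k K) (i : Fin (ν + 1)),
      b.val (x n i) ≤ WithZero.exp (C b) *
        max (b.val (lin a₀ (x n))) (b.val (lin a₁ (x n))))
    (P : MvPolynomial (Fin 2) K) (e : ℕ) (hP : P.IsHomogeneous e) (hP0 : P ≠ 0) :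
    ¬ ∀ᶠ n in (U : Filter ℕ), eval ![lin a₀ (x n), lin a₁ (x n)] P = 0 := by
  intro h
  have : Infinite k := IsAlgClosed.instInfinite
  have : Infinite K := Infinite.of_injective (algebraMap k K) (algebraMap k K).injective
  obtain ⟨ρ, hρ, hc⟩ := exists_point_of_binary hP hP0 h
  have hρs := nrm_support (ν := 1) hK ρ hρ
  set B : ℤ := ∑ᶠ b : Place k K, C b + ht k (ν := 1) ρ with hB
  obtain ⟨n, ⟨hn1, c, hn2, hn3⟩, hn4⟩ := ((hdom.and hc).and
    (eventually_large hht hU (max B 0))).exists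
  have hxn := hx n
  -- the scalar is not zero
  have hb : ∀ b : Place k K, nrm b (x n) ≤
      WithZero.exp (C b) * (b.val c * nrm (ν := 1) b ρ) := by
    intro b
    refine nrm_le fun i => (hn1 b i).trans ?_
    refine mul_le_mul_right ?_ _
    rw [hn2, hn3, map_mul, map_mul]
    refine max_le ?_ ?_
    · exact mul_le_mul_right (val_le_nrm (ν := 1) b ρ 0) _
    · exact mul_le_mul_right (val_le_nrm (ν := 1) b ρ 1) _
  by_cases hne : Nonempty (Place k K)
  · obtain ⟨b₀⟩ := hne
    have hc0 : c ≠ 0 := by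
      rintro rfl
      have h1 := hb b₀
      rw [map_zero, zero_mul, mul_zero, le_zero_iff] at h1
      exact nrm_ne_zero hxn h1
    have hlog : ∀ b : Place k K, WithZero.log (nrm b (x n)) ≤
        C b + WithZero.log (b.val c) + WithZero.log (nrm (ν := 1) b ρ) := by
      intro b
      have hvc : b.val c ≠ 0 := by simpa using hc0
      have h1 := (WithZero.log_le_log (nrm_ne_zero hxn) (mul_ne_zero WithZero.exp_ne_zero
        (mul_ne_zero hvc (nrm_ne_zero hρ)))).2 (hb b)
      rw [WithZero.log_mul WithZero.exp_ne_zero (mul_ne_zero hvc (nrm_ne_zero hρ)),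
        WithZero.log_mul hvc (nrm_ne_zero hρ), WithZero.log_exp] at h1
      omega
    have hcs := finsum_log hK c hc0
    have h5 : ht k (x n) ≤ ∑ᶠ b : Place k K,
        (C b + WithZero.log (b.val c) + WithZero.log (nrm (ν := 1) b ρ)) := by
      unfold ht
      exact finsum_le_finsum' (nrm_support hK _ hxn)
        (((hCs.union hcs.1).subset (Function.support_add _ _)).union hρs |>.subset
          (Function.support_add _ _)) hlog
    rw [finsum_add_distrib ((hCs.union hcs.1).subset (Function.support_add _ _)) hρs,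
      finsum_add_distrib hCs hcs.1, hcs.2, add_zero] at h5
    have h6 : ht k (x n) ≤ B := h5
    have h7 : B ≤ max B 0 := le_max_left _ _
    omega
  · have h8 : ht k (x n) = 0 := by
      rw [not_nonempty_iff] at hne
      exact finsum_of_isEmpty _
    have h9 : (0 : ℤ) ≤ max B 0 := le_max_right _ _
    omega

/-- The truncated count for points of a curve in projective space. -/
theorem trunc_curve [CharZero k] (hK : IsFunctionField k K) {x : ℕ → Fin (ν + 1) → K}
    (hx : ∀ n, x n ≠ 0) (hnp : ∀ n n', n ≠ n' → ¬ PEq (x n) (x n'))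
    (hht : ∀ B : ℤ, {n | ht k (x n) ≤ B}.Finite) {U : Ultrafilter ℕ} (hU : Free U)
    (hcurve : OnCurve U x) (N n₀ : ℕ) :
    ∃ (S' : Set ℕ) (Γ : Finset ℕ) (C : ℤ), S'.Infinite ∧ (∀ i ∈ Γ, n₀ ≤ i) ∧
      ∀ n ∈ S', n ∉ Γ ∧ (N : ℤ) * ht k (x n) ≤
        (({b : Place k K | ∃ i ∈ Γ, Same b (x i) (x n)}.ncard : ℕ) : ℤ) + C := by
  classical
  have : Infinite k := IsAlgClosed.instInfinite
  have hchar : CharZero K := charZero_of_injective_algebraMap (algebraMap k K).injective
  obtain ⟨a₀, a₁, C, hC0, hCs, hdom⟩ := exists_two_forms hK hcurve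
  have htr := fun P e hP hP0 => no_binary_large hK hx hht hU (a₀ := a₀) (a₁ := a₁) hCs hdom
    P e hP hP0
  obtain ⟨a₂, e, V, P, hV, hP, hVP⟩ := exists_third_form hcurve a₀ a₁ htr
  set y : ℕ → Fin 3 → K := fun n => ![lin a₀ (x n), lin a₁ (x n), lin a₂ (x n)] with hy
  obtain ⟨Q, eQ, hQ, hQ0, hQv⟩ := hcurve fun j => ![fun i => algebraMap k K (a₀ i),
    fun i => algebraMap k K (a₁ i), fun i => algebraMap k K (a₂ i)] j
  have hQv' : ∀ᶠ n in (U : Filter ℕ), eval (y n) Q = 0 := by
    filter_upwards [hQv] with n hn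
    have h1 : (fun j : Fin 3 => ∑ i, (![fun i => algebraMap k K (a₀ i),
        fun i => algebraMap k K (a₁ i), fun i => algebraMap k K (a₂ i)] :
          Fin 3 → Fin (ν + 1) → K) j i * x n i) = y n := by
      funext j
      fin_cases j <;> rfl
    rwa [h1] at hn
  obtain ⟨D, g, hg, hgi, hgv⟩ := exists_irreducible_form hQ hQ0 hQv'
  -- the set of times
  set S : Set ℕ := {n | n₀ ≤ n ∧ (∀ (b : Place k K) (i : Fin (ν + 1)),
      b.val (x n i) ≤ WithZero.exp (C b) *
        max (b.val (lin a₀ (x n))) (b.val (lin a₁ (x n)))) ∧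
      (eval (y n) V ≠ 0 ∧ ∀ j, x n j * eval (y n) V = eval (y n) (P j)) ∧
      eval (y n) g = 0} with hS
  have hSU : S ∈ U := by
    filter_upwards [hU n₀, hdom, hVP, hgv] with n h0 h1 h2 h3
    exact ⟨h0, h1, h2, h3⟩
  have hSinf : S.Infinite := by
    intro hfin
    obtain ⟨n, hn1, hn2⟩ := Pool.Agent.Helper30.TP.ultra_exists_notMem hU hfin hSU
    exact hn2 hn1
  have hy0 : ∀ n ∈ S, y n ≠ 0 := by
    intro n hn h0
    apply hx n
    funext j
    have h1 := hn.2.2.1.2 j
    rw [h0] at h1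
    have h2 : eval (0 : Fin 3 → K) (P j) = 0 := by
      have h3 := Pool.Agent.Helper30.TP.eval_smul_hom (hP j) (0 : K) (0 : Fin 3 → K)
      rwa [zero_smul, zero_pow (Nat.succ_ne_zero e), zero_mul] at h3
    rw [h2, mul_eq_zero] at h1
    refine h1.resolve_right ?_
    have := hn.2.2.1.1
    rwa [h0] at this
  have hyd : ∀ n ∈ S, ∀ n' ∈ S, n ≠ n' → ¬ Pool.Agent.Helper30.TP.PEq (y n) (y n') := by
    intro n hn n' hn' hnn h
    apply hnp n n' hnn
    obtain ⟨c, hc, h⟩ := h
    refine ⟨c, hc, funext fun j => ?_⟩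
    have h1 := hn'.2.2.1.2 j
    have h2 := hn'.2.2.1.1
    rw [h, Pool.Agent.Helper30.TP.eval_smul_hom (hP j), Pool.Agent.Helper30.TP.eval_smul_hom hV,
      ← hn.2.2.1.2 j] at h1
    have h3 := hn.2.2.1.1
    have h4 : c ^ e * eval (y n) V ≠ 0 := mul_ne_zero (pow_ne_zero _ hc) h3
    apply mul_right_cancel₀ h4
    rw [h1, Pi.smul_apply, smul_eq_mul]
    ring
  have hsy : ∀ n ∈ S, (Function.support fun b : Place k K =>
      WithZero.log (Pool.Agent.Helper30.TP.nrm b (y n))).Finite := fun n hn =>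
    Pool.Agent.Helper30.TP.nrm_support hK _ (hy0 n hn)
  have hhy : ∀ n ∈ S, ht k (x n) ≤ ∑ᶠ b, C b + Pool.Agent.Helper30.TP.ht k (y n) := by
    intro n hn
    have h1 : ∀ b : Place k K, WithZero.log (nrm b (x n)) ≤
        C b + WithZero.log (Pool.Agent.Helper30.TP.nrm b (y n)) := by
      intro b
      have hny := Pool.Agent.Helper30.TP.nrm_ne_zero (b := b) (hy0 n hn)
      have h2 : nrm b (x n) ≤ WithZero.exp (C b) * Pool.Agent.Helper30.TP.nrm b (y n) := by
        refine nrm_le fun i => (hn.2.1 b i).trans (mul_le_mul_right (max_le ?_ ?_) _)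
        · exact Pool.Agent.Helper30.TP.val_le_nrm b (y n) 0
        · exact Pool.Agent.Helper30.TP.val_le_nrm b (y n) 1
      have h3 := (WithZero.log_le_log (nrm_ne_zero (hx n))
        (mul_ne_zero WithZero.exp_ne_zero hny)).2 h2
      rwa [WithZero.log_mul WithZero.exp_ne_zero hny, WithZero.log_exp] at h3
    have h4 : ht k (x n) ≤ ∑ᶠ b : Place k K,
        (C b + WithZero.log (Pool.Agent.Helper30.TP.nrm b (y n))) := by
      unfold ht
      exact finsum_le_finsum' (nrm_support hK _ (hx n))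
        ((hCs.union (hsy n hn)).subset (Function.support_add _ _)) h1
    rwa [finsum_add_distrib hCs (hsy n hn)] at h4
  obtain ⟨S', Γ, C₁, hS'S, hS'inf, hΓS, hmain⟩ := Pool.Agent.Helper30.TK.trunc hK hSinf hy0 hyd
    hg hgi (fun n hn => hn.2.2.2) (fun B => (hht (∑ᶠ b, C b + B)).subset fun n hn => by
      have := hhy n hn.1
      have h2 : Pool.Agent.Helper30.TP.ht k (y n) ≤ B := hn.2
      show ht k (x n) ≤ _
      linarith) N
  -- the bad places
  have hgsfin : ∀ R : MvPolynomial (Fin 3) K,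
      {b : Place k K | ¬ Pool.Agent.Helper30.TP.gs b R ≤ 1}.Finite := by
    intro R
    by_cases h0 : R = 0
    · rw [h0]
      simp [Pool.Agent.Helper30.TP.formHeight_zero]
    · refine (Pool.Agent.Helper30.TP.formHeight_support hK h0).subset ?_
      intro b hb h1
      apply hb
      have h2 : WithZero.log (Pool.Agent.Helper30.TP.gs b R) = 0 := h1
      have h3 := (Pool.Agent.Helper30.TP.formHeight_pos (b := b) h0).ne'
      rw [← WithZero.log_le_log h3 one_ne_zero, h2, WithZero.log_one]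
  have hvfin : ∀ i ∈ Γ, {b : Place k K |
      ¬ b.val (eval (y i) V) = Pool.Agent.Helper30.TP.nrm b (y i) ^ e}.Finite := by
    intro i hi
    have hiS := hΓS hi
    have hVi := hiS.2.2.1.1
    refine ((hsy i hiS).union (finsum_log hK _ hVi).1).subset ?_
    intro b hb
    by_contra hcon
    rw [Set.mem_union, not_or] at hcon
    have h1 := Function.notMem_support.1 hcon.1
    have h2 := Function.notMem_support.1 hcon.2
    apply hb
    have h3 : b.val (eval (y i) V) ≠ 0 := by simpa using hVi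
    have h4 := Pool.Agent.Helper30.TP.nrm_ne_zero (b := b) (hy0 i hiS)
    rw [← WithZero.exp_log h3, ← WithZero.exp_log h4, h1, h2]
    simp
  set Bad : Set (Place k K) := {b | ¬ Pool.Agent.Helper30.TP.gs b V ≤ 1} ∪
    (⋃ j : Fin (ν + 1), {b | ¬ Pool.Agent.Helper30.TP.gs b (P j) ≤ 1}) ∪
    ⋃ i ∈ Γ, {b : Place k K |
      ¬ b.val (eval (y i) V) = Pool.Agent.Helper30.TP.nrm b (y i) ^ e} with hBad
  have hBadfin : Bad.Finite := ((hgsfin V).union (Set.finite_iUnion fun j => hgsfin (P j))).union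
    (Set.Finite.biUnion Γ.finite_toSet hvfin)
  refine ⟨S', Γ, C₁ + Bad.ncard + N * ∑ᶠ b, C b, hS'inf, fun i hi => (hΓS hi).1,
    fun n hn => ?_⟩
  obtain ⟨hnΓ, h1⟩ := hmain n hn
  refine ⟨hnΓ, ?_⟩
  have hnS := hS'S hn
  have hyx : ∀ (b : Place k K) (m : ℕ), Pool.Agent.Helper30.TP.nrm b (y m) ≤ nrm b (x m) := by
    intro b m
    refine Pool.Agent.Helper30.TP.nrm_le fun j => ?_
    fin_cases j
    · exact val_lin_le b a₀ _
    · exact val_lin_le b a₁ _
    · exact val_lin_le b a₂ _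
  have hsub : {b : Place k K | ∃ i ∈ Γ, 0 < Pool.Agent.Helper30.TP.cl b (y i) (y n)} ⊆
      {b : Place k K | ∃ i ∈ Γ, Same b (x i) (x n)} ∪ Bad := by
    rintro b ⟨i, hi, hcl⟩
    by_cases hb : b ∈ Bad
    · exact Or.inr hb
    · left
      rw [hBad, Set.mem_union, Set.mem_union, not_or, not_or] at hb
      obtain ⟨⟨hb1, hb2⟩, hb3⟩ := hb
      rw [Set.mem_iUnion, not_exists] at hb2
      simp only [Set.mem_iUnion, not_exists] at hb3
      have hin : i ≠ n := fun h => hnΓ (h ▸ hi)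
      exact ⟨i, hi, same_of_cl_pos b hV hP (hy0 i (hΓS hi)) (hy0 n hnS) (hyx b i) (hyx b n)
        (hΓS hi).2.2.1.2 hnS.2.2.1.2 (hyd i (hΓS hi) n hnS hin) (not_not.1 hb1)
        (fun j => not_not.1 (hb2 j)) (not_not.1 (hb3 i hi)) hcl⟩
  have hfin : {b : Place k K | ∃ i ∈ Γ, Same b (x i) (x n)}.Finite := by
    have h2 : {b : Place k K | ∃ i ∈ Γ, Same b (x i) (x n)} =
        ⋃ i ∈ Γ, {b : Place k K | Same b (x i) (x n)} := by
      ext b
      simp
    rw [h2]
    exact Set.Finite.biUnion Γ.finite_toSet fun i hi =>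
      same_finite hK (hx i) (hx n) (hnp i n fun h => hnΓ (h ▸ hi))
  have h3 := Set.ncard_le_ncard hsub (hfin.union hBadfin)
  have h4 := Set.ncard_union_le {b : Place k K | ∃ i ∈ Γ, Same b (x i) (x n)} Bad
  have h5 := hhy n hnS
  have h6 : (N : ℤ) * ht k (x n) ≤ N * (∑ᶠ b, C b + Pool.Agent.Helper30.TP.ht k (y n)) :=
    mul_le_mul_of_nonneg_left h5 (by positivity)
  have h7 : (({b : Place k K | ∃ i ∈ Γ,
      0 < Pool.Agent.Helper30.TP.cl b (y i) (y n)}.ncard : ℕ) : ℤ) ≤
      ({b : Place k K | ∃ i ∈ Γ, Same b (x i) (x n)}.ncard : ℕ) + (Bad.ncard : ℕ) := by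
    exact_mod_cast h3.trans h4
  rw [mul_add] at h6
  linarith

end

end Pool.Agent.Helper30.TKN

end
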