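import Mathlib
import Pool.Agent.Helper29.MG2.T01

section

/-!
# From the Krull dimension of the coordinate ring to algebraic relations
-/

set_option autoImplicit false

namespace Pool.Agent.Helper36

/-- Krull dimension does not drop in an injective integral extension. -/
lemma ringKrullDim_le_of_integral {R S : Type*} [CommRing R] [CommRing S] [Algebra R S]
    [FaithfulSMul R S] [Algebra.IsIntegral R S] : ringKrullDim R ≤ ringKrullDim S := by
  unfold ringKrullDim Order.krullDim
  apply iSup_le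
  intro l
  have hinj : Function.Injective (algebraMap R S) := FaithfulSMul.algebraMap_injective R S
  obtain ⟨Q, -, hQ, hQl⟩ := Ideal.exists_ideal_over_prime_of_isIntegral
    (S := S) (RelSeries.head l).asIdeal (⊥ : Ideal S) (by
      intro x hx
      have : algebraMap R S x = 0 := hx
      rw [hinj (this.trans (map_zero _).symm)]
      exact Ideal.zero_mem _)
  have : Q.LiesOver (RelSeries.head l).asIdeal := ⟨hQl.symm⟩
  obtain ⟨L, hL, -, -⟩ := Ideal.exists_ltSeries_of_hasGoingUp (S := S) l Q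
  rw [← hL]
  exact le_iSup (fun L : LTSeries (PrimeSpectrum S) => ((L.length : ℕ∞) : WithBot ℕ∞)) L

/-- In a domain of finite type of Krull dimension at most two, any three elements are
algebraically dependent. -/
lemma exists_relation_of_krullDim {k D : Type} [Field k] [CommRing D] [IsDomain D] [Algebra k D]
    [Algebra.FiniteType k D] (hdim : ringKrullDim D ≤ 2) (v : Fin 3 → D) :
    ∃ Q : MvPolynomial (Fin 3) k, Q ≠ 0 ∧ MvPolynomial.aeval v Q = 0 := by
  obtain ⟨s, g, hginj, hgint⟩ := exists_integral_inj_algHom_of_fg k D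
  let _ : Algebra (MvPolynomial (Fin s) k) D := g.toRingHom.toAlgebra
  have hmap : algebraMap (MvPolynomial (Fin s) k) D = g.toRingHom := rfl
  have : IsScalarTower k (MvPolynomial (Fin s) k) D := by
    apply IsScalarTower.of_algebraMap_eq
    intro x
    rw [hmap]
    exact (g.commutes x).symm
  have : FaithfulSMul (MvPolynomial (Fin s) k) D := by
    rw [faithfulSMul_iff_algebraMap_injective]
    exact hginj
  have hint : Algebra.IsIntegral (MvPolynomial (Fin s) k) D := ⟨hgint⟩
  have h1 : ringKrullDim (MvPolynomial (Fin s) k) ≤ ringKrullDim D := ringKrullDim_le_of_integral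
  rw [MvPolynomial.ringKrullDim_of_isNoetherianRing, ringKrullDim_eq_zero_of_field, zero_add,
    Nat.card_fin] at h1
  have hs : s ≤ 2 := by
    have := h1.trans hdim
    exact_mod_cast this
  by_contra hcon
  push Not at hcon
  have hv : AlgebraicIndependent k v := by
    rw [algebraicIndependent_iff]
    intro p hp
    by_contra hne
    exact hcon p hne hp
  have h2 := hv.cardinalMk_le_trdeg
  have h3 : Algebra.trdeg k (MvPolynomial (Fin s) k) + Algebra.trdeg (MvPolynomial (Fin s) k) D =
      Algebra.trdeg k D := trdeg_add_eq k (MvPolynomial (Fin s) k)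
  have h4 : Algebra.trdeg (MvPolynomial (Fin s) k) D = 0 := trdeg_eq_zero
  rw [h4, add_zero, MvPolynomial.trdeg_of_isDomain] at h3
  rw [← h3] at h2
  simp only [Cardinal.mk_fintype, Fintype.card_fin, Cardinal.lift_natCast, Nat.cast_le] at h2
  omega

/-- Any three coordinates satisfy a nontrivial relation modulo the radical. -/
lemma exists_relation_radical {k ι : Type} [Field k] [Finite ι] (I : Ideal (MvPolynomial ι k))
    (hdim : ringKrullDim (MvPolynomial ι k ⧸ I) ≤ 2) (v : Fin 3 → MvPolynomial ι k) :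
    ∃ Q : MvPolynomial (Fin 3) k, Q ≠ 0 ∧ MvPolynomial.aeval v Q ∈ I.radical := by
  classical
  have hfin : I.minimalPrimes.Finite := Ideal.finite_minimalPrimes_of_isNoetherianRing _ I
  have h1 : ∀ 𝔮 ∈ I.minimalPrimes, ∃ Q : MvPolynomial (Fin 3) k, Q ≠ 0 ∧
      MvPolynomial.aeval v Q ∈ 𝔮 := by
    intro 𝔮 h𝔮
    have hprime : 𝔮.IsPrime := h𝔮.1.1
    have hle : I ≤ 𝔮 := h𝔮.1.2
    have hd : ringKrullDim (MvPolynomial ι k ⧸ 𝔮) ≤ 2 :=
      (ringKrullDim_le_of_surjective (Ideal.Quotient.factor hle)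
        (Ideal.Quotient.factor_surjective hle)).trans hdim
    obtain ⟨Q, hQ0, hQ⟩ := exists_relation_of_krullDim (k := k) hd
      (fun i => Ideal.Quotient.mk 𝔮 (v i))
    refine ⟨Q, hQ0, ?_⟩
    rw [← Ideal.Quotient.eq_zero_iff_mem]
    have h2 : Ideal.Quotient.mkₐ k 𝔮 (MvPolynomial.aeval v Q) =
        MvPolynomial.aeval (fun i => Ideal.Quotient.mk 𝔮 (v i)) Q := by
      rw [MvPolynomial.comp_aeval_apply]; rfl
    exact h2.trans hQ
  choose! Q hQ0 hQ using h1
  refine ⟨∏ 𝔮 ∈ hfin.toFinset, Q 𝔮, ?_, ?_⟩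
  · rw [Finset.prod_ne_zero_iff]
    intro 𝔮 h𝔮
    exact hQ0 𝔮 (hfin.mem_toFinset.1 h𝔮)
  · rw [← Ideal.sInf_minimalPrimes, Ideal.mem_sInf]
    intro 𝔮 h𝔮
    rw [map_prod]
    rw [← Finset.mul_prod_erase _ _ (hfin.mem_toFinset.2 h𝔮)]
    exact 𝔮.mul_mem_right _ (hQ 𝔮 h𝔮)

end Pool.Agent.Helper36

end

section

/-!
# Unions of arithmetic progressions and gap sets
-/

set_option autoImplicit false

namespace Pool.Agent.Helper36

/-- the union of the arithmetic progressions `{a * m + b : m ≥ 0}`, `(a, b) ∈ T` -/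
def APSet (T : Finset (ℕ × ℕ)) : Set ℕ := {n : ℕ | ∃ p ∈ T, ∃ m : ℕ, n = p.1 * m + p.2}

/-- a set with a doubling gap: `2 n ≤ m + B` for all elements `n < m` -/
def Gap (A : Set ℕ) : Prop := ∃ B : ℕ, ∀ n ∈ A, ∀ m ∈ A, n < m → 2 * n ≤ m + B

/-- finite unions of arithmetic progressions and gap sets -/
def Good (A : Set ℕ) : Prop :=
  ∃ (T : Finset (ℕ × ℕ)) (r : ℕ) (L : Fin r → Set ℕ), (∀ i, Gap (L i)) ∧ A = APSet T ∪ ⋃ i, L i

lemma APSet_union (T T' : Finset (ℕ × ℕ)) : APSet (T ∪ T') = APSet T ∪ APSet T' := by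
  classical
  ext n
  simp only [APSet, Set.mem_ofPred_eq, Finset.mem_union, Set.mem_union]
  constructor
  · rintro ⟨p, hp | hp, m, hm⟩
    · exact Or.inl ⟨p, hp, m, hm⟩
    · exact Or.inr ⟨p, hp, m, hm⟩
  · rintro (⟨p, hp, m, hm⟩ | ⟨p, hp, m, hm⟩)
    · exact ⟨p, Or.inl hp, m, hm⟩
    · exact ⟨p, Or.inr hp, m, hm⟩

lemma APSet_empty : APSet ∅ = ∅ := by
  ext n; simp [APSet]

lemma APSet_of_finite {A : Set ℕ} (hA : A.Finite) : ∃ T, A = APSet T := by
  classical
  refine ⟨hA.toFinset.image fun n => (0, n), ?_⟩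
  ext n
  simp only [APSet, Finset.mem_image, Set.Finite.mem_toFinset, Set.mem_ofPred_eq]
  constructor
  · intro h
    exact ⟨(0, n), ⟨n, h, rfl⟩, 0, by simp⟩
  · rintro ⟨_, ⟨n', hn', rfl⟩, m, hm⟩
    simp only [zero_mul, zero_add] at hm
    rw [hm]; exact hn'

lemma APSet_univ : ∃ T, (Set.univ : Set ℕ) = APSet T := by
  refine ⟨{(1, 0)}, ?_⟩
  ext n
  simp [APSet]

/-- A set closed under adding `k`, up to finitely many exceptions, is a finite union of
arithmetic progressions. -/
lemma APSet_of_evClosed {A : Set ℕ} {k : ℕ} (hk : 0 < k) (h : {n ∈ A | n + k ∉ A}.Finite) :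
    ∃ T, A = APSet T := by
  classical
  obtain ⟨b, hb⟩ := h.bddAbove
  have hcl : ∀ n ∈ A, b < n → n + k ∈ A := by
    intro n hn hbn
    by_contra hc
    have := hb (show n ∈ {n ∈ A | n + k ∉ A} from ⟨hn, hc⟩)
    omega
  have hcl' : ∀ m n, n ∈ A → b < n → n + k * m ∈ A := by
    intro m
    induction m with
    | zero => intro n hn _; simpa using hn
    | succ m ih =>
      intro n hn hbn
      have := hcl _ (ih n hn hbn) (by omega)
      rwa [Nat.mul_succ, ← add_assoc]
  -- the elements beyond `b`, in each residue class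
  have hex : ∀ r : ℕ, (∃ n, n ∈ A ∧ b < n ∧ n % k = r) → ∃ n₀, (n₀ ∈ A ∧ b < n₀ ∧ n₀ % k = r) ∧
      ∀ n, n ∈ A ∧ b < n ∧ n % k = r → n₀ ≤ n := by
    intro r hr
    exact ⟨Nat.find hr, Nat.find_spec hr, fun n hn => Nat.find_min' hr hn⟩
  choose! f hf using hex
  obtain ⟨T₀, hT₀⟩ := APSet_of_finite (A := A ∩ Set.Iic b) ((Set.finite_Iic b).inter_of_right A)
  refine ⟨T₀ ∪ ((Finset.range k).filter
    (fun r => ∃ n, n ∈ A ∧ b < n ∧ n % k = r)).image (fun r => (k, f r)), ?_⟩
  rw [APSet_union, ← hT₀]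
  ext n
  simp only [Set.mem_union, Set.mem_inter_iff, Set.mem_Iic, APSet, Finset.mem_image,
    Finset.mem_filter, Finset.mem_range, Set.mem_ofPred_eq]
  constructor
  · intro hn
    rcases Nat.lt_or_ge b n with hbn | hbn
    · right
      have hr : ∃ n', n' ∈ A ∧ b < n' ∧ n' % k = n % k := ⟨n, hn, hbn, rfl⟩
      obtain ⟨⟨h1, h2, h3⟩, h4⟩ := hf (n % k) hr
      have h5 := h4 n ⟨hn, hbn, rfl⟩
      refine ⟨(k, f (n % k)), ⟨n % k, ⟨Nat.mod_lt _ hk, hr⟩, rfl⟩, (n - f (n % k)) / k, ?_⟩
      have h6 : k ∣ n - f (n % k) := (Nat.modEq_iff_dvd' h5).1 h3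
      simp only
      rw [Nat.mul_div_cancel' h6]
      omega
    · exact Or.inl ⟨hn, hbn⟩
  · rintro (⟨hn, -⟩ | ⟨_, ⟨r, ⟨_, hr⟩, rfl⟩, m, rfl⟩)
    · exact hn
    · obtain ⟨⟨h1, h2, h3⟩, h4⟩ := hf r hr
      simp only
      rw [add_comm]
      exact hcl' m _ h1 h2

lemma Good.of_AP {A : Set ℕ} (h : ∃ T, A = APSet T) : Good A := by
  obtain ⟨T, hT⟩ := h
  refine ⟨T, 0, Fin.elim0, fun i => i.elim0, ?_⟩
  rw [hT]; simp

lemma Good.union {A A' : Set ℕ} (h : Good A) (h' : Good A') : Good (A ∪ A') := by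
  classical
  obtain ⟨T, r, L, hL, rfl⟩ := h
  obtain ⟨T', r', L', hL', rfl⟩ := h'
  refine ⟨T ∪ T', r + r', Fin.append L L', ?_, ?_⟩
  · intro i
    refine Fin.addCases (fun i => ?_) (fun i => ?_) i
    · rw [Fin.append_left]; exact hL i
    · rw [Fin.append_right]; exact hL' i
  · rw [APSet_union]
    have : ⋃ i, Fin.append L L' i = (⋃ i, L i) ∪ ⋃ i, L' i := by
      ext n
      simp only [Set.mem_iUnion, Set.mem_union]
      constructor
      · rintro ⟨i, hi⟩
        revert hi
        refine Fin.addCases (fun i => ?_) (fun i => ?_) i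
        · rw [Fin.append_left]; exact fun h => Or.inl ⟨i, h⟩
        · rw [Fin.append_right]; exact fun h => Or.inr ⟨i, h⟩
      · rintro (⟨i, hi⟩ | ⟨i, hi⟩)
        · exact ⟨Fin.castAdd r' i, by rwa [Fin.append_left]⟩
        · exact ⟨Fin.natAdd r i, by rwa [Fin.append_right]⟩
    rw [this]
    ext n
    simp only [Set.mem_union]
    tauto

lemma Good.empty : Good ∅ := Good.of_AP ⟨∅, APSet_empty.symm⟩

lemma Good.biUnion {α : Type*} (s : Finset α) (A : α → Set ℕ) (h : ∀ i ∈ s, Good (A i)) :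
    Good (⋃ i ∈ s, A i) := by
  classical
  induction s using Finset.induction_on with
  | empty => simpa using Good.empty
  | insert a s ha ih =>
    rw [Finset.set_biUnion_insert]
    exact (h a (Finset.mem_insert_self _ _)).union
      (ih fun i hi => h i (Finset.mem_insert_of_mem hi))

/-! ### Counting -/

end Pool.Agent.Helper36

end

section

/-!
# Clearing denominators and descent of coefficients
-/

set_option autoImplicit false

namespace Pool.Agent.Helper36

open Polynomial Height Height.AdmissibleAbsValues Function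

/-! ### Functionals applied to coefficients -/

section functional

variable {K L : Type*} [Field K] [Field L] [Algebra K L] {σ : Type*}

/-- apply a linear functional to the coefficients -/
noncomputable def mapLin (ρ : L →ₗ[K] K) (g : MvPolynomial σ L) : MvPolynomial σ K :=
  ∑ m ∈ g.support, MvPolynomial.monomial m (ρ (g.coeff m))

lemma coeff_mapLin (ρ : L →ₗ[K] K) (g : MvPolynomial σ L) (m : σ →₀ ℕ) :
    (mapLin ρ g).coeff m = ρ (g.coeff m) := by
  classical
  rw [mapLin, MvPolynomial.coeff_sum]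
  simp only [MvPolynomial.coeff_monomial]
  rw [Finset.sum_ite_eq']
  split_ifs with h
  · rfl
  · rw [MvPolynomial.notMem_support_iff.1 h, map_zero]

lemma eval_mapLin (ρ : L →ₗ[K] K) (g : MvPolynomial σ L) (x : σ → K) :
    MvPolynomial.eval x (mapLin ρ g) =
      ρ (MvPolynomial.eval (fun i => algebraMap K L (x i)) g) := by
  rw [mapLin, map_sum, MvPolynomial.eval_eq (fun i => algebraMap K L (x i)) g, map_sum]
  refine Finset.sum_congr rfl fun m _ => ?_
  have h1 : g.coeff m * ∏ i ∈ m.support, (algebraMap K L (x i)) ^ m i =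
      (∏ i ∈ m.support, x i ^ m i) • g.coeff m := by
    rw [Algebra.smul_def, map_prod, mul_comm]
    simp only [map_pow]
  rw [h1, map_smul, MvPolynomial.eval_monomial, smul_eq_mul, mul_comm, Finsupp.prod]

lemma mapLin_isHomogeneous (ρ : L →ₗ[K] K) {g : MvPolynomial σ L} {e : ℕ}
    (hg : g.IsHomogeneous e) : (mapLin ρ g).IsHomogeneous e := by
  intro m hm
  apply hg
  intro h
  apply hm
  rw [coeff_mapLin, h, map_zero]

lemma exists_functional {c : L} (hc : c ≠ 0) : ∃ ρ : L →ₗ[K] K, ρ c ≠ 0 := by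
  by_contra h
  push Not at h
  exact hc ((Module.forall_dual_apply_eq_zero_iff K c).1 h)

lemma exists_mapLin_ne_zero {g : MvPolynomial σ L} (hg : g ≠ 0) :
    ∃ ρ : L →ₗ[K] K, mapLin ρ g ≠ 0 := by
  obtain ⟨m, hm⟩ := MvPolynomial.ne_zero_iff.1 hg
  obtain ⟨ρ, hρ⟩ := exists_functional (K := K) hm
  refine ⟨ρ, MvPolynomial.ne_zero_iff.2 ⟨m, ?_⟩⟩
  rwa [coeff_mapLin]

lemma eval_eq_zero_iff_mapLin (g : MvPolynomial σ L) (x : σ → K) :
    MvPolynomial.eval (fun i => algebraMap K L (x i)) g = 0 ↔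
      ∀ ρ : L →ₗ[K] K, MvPolynomial.eval x (mapLin ρ g) = 0 := by
  simp only [eval_mapLin]
  constructor
  · intro h ρ; rw [h, map_zero]
  · intro h; exact (Module.forall_dual_apply_eq_zero_iff K _).1 h

end functional

/-! ### Clearing denominators -/

section denominators

variable {O K : Type*} [CommRing O] [IsDomain O] [Field K] [Algebra O K] [IsFractionRing O K]

end denominators

/-! ### The component theorem over the field -/

section overField

variable {K : Type*} [Field K] [AdmissibleAbsValues K]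
variable {ι : Type*} [Fintype ι]

end overField

end Pool.Agent.Helper36

end

section

/-!
# Closed sets of dimension at most one (SS-19)
-/

set_option autoImplicit false

namespace Pool.Agent.Helper33.SS

open MvPolynomial

theorem hom_eval {σ : Type} {g : MvPolynomial σ ℂ} {e : ℕ} (hg : g.IsHomogeneous e)
    (b : σ → ℂ) (c : ℂ) : eval (fun i => b i * c) g = c ^ e * eval b g := by
  classical
  rw [eval_eq, eval_eq, Finset.mul_sum]
  refine Finset.sum_congr rfl fun m hm => ?_
  have h1 : (Finsupp.weight 1) m = e := hg (mem_support_iff.1 hm)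
  have h2 : ∑ i ∈ m.support, m i = e := by
    rw [← h1, Finsupp.weight_apply]
    simp [Finsupp.sum]
  simp_rw [mul_pow]
  rw [Finset.prod_mul_distrib, Finset.prod_pow_eq_pow_sum, h2]
  ring

/-- The homomorphism restricting a polynomial to the line through `b`. -/
noncomputable def lineHom {σ : Type} (b : σ → ℂ) : MvPolynomial σ ℂ →+* Polynomial ℂ :=
  (aeval (fun i => Polynomial.C (b i) * Polynomial.X) : MvPolynomial σ ℂ →ₐ[ℂ] Polynomial ℂ).toRingHom

theorem lineHom_eval {σ : Type} (b : σ → ℂ) (c : ℂ) (g : MvPolynomial σ ℂ) :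
    (lineHom b g).eval c = eval (fun i => b i * c) g := by
  unfold lineHom
  induction g using MvPolynomial.induction_on with
  | C a => simp
  | add p q hp hq => simp at hp hq ⊢; rw [hp, hq]
  | mul_X p i hp =>
    simp only [map_mul, AlgHom.toRingHom_eq_coe, RingHom.coe_coe, aeval_X, Polynomial.eval_mul,
      Polynomial.eval_C, Polynomial.eval_X, eval_X] at hp ⊢
    rw [hp]

theorem lineHom_eq_zero {σ : Type} (b : σ → ℂ) (g : MvPolynomial σ ℂ) :
    lineHom b g = 0 ↔ ∀ c : ℂ, eval (fun i => b i * c) g = 0 := by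
  constructor
  · intro h c
    rw [← lineHom_eval, h]
    simp
  · intro h
    refine Polynomial.funext fun c => ?_
    rw [lineHom_eval, h c]
    simp

/-- The ideal of the line through `b`. -/
noncomputable def lineIdeal {σ : Type} (b : σ → ℂ) : Ideal (MvPolynomial σ ℂ) :=
  RingHom.ker (lineHom b)

theorem mem_lineIdeal {σ : Type} (b : σ → ℂ) (g : MvPolynomial σ ℂ) :
    g ∈ lineIdeal b ↔ ∀ c : ℂ, eval (fun i => b i * c) g = 0 := by
  unfold lineIdeal
  rw [RingHom.mem_ker, lineHom_eq_zero]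

theorem lineIdeal_prime {σ : Type} (b : σ → ℂ) : (lineIdeal b).IsPrime := by
  unfold lineIdeal
  exact RingHom.ker_isPrime _

theorem span_le_lineIdeal {σ : Type} {S : Set (MvPolynomial σ ℂ)}
    (hS : ∀ g ∈ S, ∃ e : ℕ, g.IsHomogeneous e) {b : σ → ℂ} (hb : InZ S b) :
    Ideal.span S ≤ lineIdeal b := by
  rw [Ideal.span_le]
  intro g hg
  obtain ⟨e, he⟩ := hS g hg
  show g ∈ lineIdeal b
  rw [mem_lineIdeal]
  intro c
  rw [hom_eval he, hb g hg, mul_zero]

theorem lineIdeal_le_point {σ : Type} (b : σ → ℂ) :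
    lineIdeal b ≤ RingHom.ker (eval b : MvPolynomial σ ℂ →+* ℂ) := by
  intro g hg
  rw [mem_lineIdeal] at hg
  have := hg 1
  simpa [RingHom.mem_ker] using this

theorem lineIdeal_lt_point {σ : Type} {b : σ → ℂ} (hb : b ≠ 0) :
    lineIdeal b < RingHom.ker (eval b : MvPolynomial σ ℂ →+* ℂ) := by
  refine lt_of_le_of_ne (lineIdeal_le_point b) fun h => ?_
  obtain ⟨j, hj⟩ := Function.ne_iff.1 hb
  have h1 : (X j - C (b j) : MvPolynomial σ ℂ) ∈ lineIdeal b := by
    rw [h, RingHom.mem_ker]
    simp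
  rw [mem_lineIdeal] at h1
  have h2 := h1 0
  simp at h2
  exact hj h2

theorem lineIdeal_inj {σ : Type} {b x : σ → ℂ} (hb : b ≠ 0) (h : lineIdeal b = lineIdeal x) :
    ∃ c : ℂ, x = c • b := by
  obtain ⟨j, hj⟩ := Function.ne_iff.1 hb
  have hj' : b j ≠ 0 := hj
  refine ⟨x j / b j, ?_⟩
  ext i
  have h1 : (X i * C (b j) - X j * C (b i) : MvPolynomial σ ℂ) ∈ lineIdeal x := by
    rw [← h, mem_lineIdeal]
    intro c
    simp
    ring
  rw [mem_lineIdeal] at h1
  have h2 := h1 1
  simp at h2
  rw [Pi.smul_apply, smul_eq_mul, div_mul_eq_mul_div, eq_div_iff hj']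
  linear_combination h2

/-- A chain of three primes over `I` bounds the dimension of the quotient from below. -/
theorem two_le_dim {R : Type*} [CommRing R] {I p q r : Ideal R} [hp : p.IsPrime] [hq : q.IsPrime]
    [hr : r.IsPrime] (h1 : I ≤ p) (h2 : p < q) (h3 : q < r) :
    (2 : WithBot ℕ∞) ≤ ringKrullDim (R ⧸ I) := by
  rw [ringKrullDim_quotient]
  let P : PrimeSpectrum.zeroLocus (R := R) (I : Set R) := ⟨⟨p, hp⟩, h1⟩
  let Q : PrimeSpectrum.zeroLocus (R := R) (I : Set R) := ⟨⟨q, hq⟩, h1.trans h2.le⟩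
  let T : PrimeSpectrum.zeroLocus (R := R) (I : Set R) := ⟨⟨r, hr⟩, h1.trans (h2.trans h3).le⟩
  have hPQ : P < Q := h2
  have hQT : Q < T := h3
  let s : LTSeries (PrimeSpectrum.zeroLocus (R := R) (I : Set R)) :=
    ((RelSeries.singleton _ P).snoc Q (by simpa using hPQ)).snoc T (by simpa using hQT)
  have hs : s.length = 2 := rfl
  have := Order.LTSeries.length_le_krullDim s
  rw [hs] at this
  simpa using this

/-- A homogeneous ideal whose quotient has Krull dimension at most one has finitely many zeros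
up to scaling. Proof: for a zero `b ≠ 0` the ideal of the line `ℂ b` is prime and not maximal, it
contains a minimal prime of `span S`, and equals it because of the dimension. -/
theorem finite_lines {σ : Type} [Finite σ] (S : Set (MvPolynomial σ ℂ))
    (hS : ∀ g ∈ S, ∃ e : ℕ, g.IsHomogeneous e)
    (hdim : ringKrullDim (MvPolynomial σ ℂ ⧸ Ideal.span S) ≤ 1) :
    ∃ B : Finset (σ → ℂ), ∀ x : σ → ℂ, x ≠ 0 → InZ S x → ∃ b ∈ B, ∃ c : ℂ, x = c • b := by
  classical
  have hfin : (Ideal.span S).minimalPrimes.Finite :=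
    Ideal.finite_minimalPrimes_of_isNoetherianRing _ _
  let f : Ideal (MvPolynomial σ ℂ) → (σ → ℂ) := fun p =>
    if h : ∃ b : σ → ℂ, b ≠ 0 ∧ p = lineIdeal b then h.choose else 0
  refine ⟨hfin.toFinset.image f, fun x hx hxS => ?_⟩
  have hprime := lineIdeal_prime x
  obtain ⟨p, hp, hpx⟩ := Ideal.exists_minimalPrimes_le (span_le_lineIdeal hS hxS)
  have hpp : p.IsPrime := hp.1.1
  have heq : p = lineIdeal x := by
    by_contra hne
    have hlt : p < lineIdeal x := lt_of_le_of_ne hpx hne
    have : (RingHom.ker (eval x : MvPolynomial σ ℂ →+* ℂ)).IsPrime := RingHom.ker_isPrime _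
    have h2 := two_le_dim hp.1.2 hlt (lineIdeal_lt_point hx)
    have h3 := h2.trans hdim
    exact absurd h3 (by decide)
  have hex : ∃ b : σ → ℂ, b ≠ 0 ∧ p = lineIdeal b := ⟨x, hx, heq⟩
  have hf : f p = hex.choose := dif_pos hex
  refine ⟨f p, Finset.mem_image_of_mem _ (hfin.mem_toFinset.2 hp), ?_⟩
  rw [hf]
  refine lineIdeal_inj hex.choose_spec.1 ?_
  rw [← hex.choose_spec.2, heq]

/-- The iterates of a homogeneous tuple, as tuples of polynomials, are homogeneous. -/
theorem itp_homog {σ : Type} {d : ℕ} (F : σ → MvPolynomial σ ℂ)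
    (hF : ∀ i, (F i).IsHomogeneous d) (n : ℕ) : ∀ i, (itp F n i).IsHomogeneous (d ^ n) := by
  induction n with
  | zero => intro i; simpa [itp] using isHomogeneous_X ℂ i
  | succ n ih =>
    intro i
    have := (hF i).aeval (itp F n) ih
    rw [pow_succ]
    exact this

theorem eval_itp' {σ : Type} (F : σ → MvPolynomial σ ℂ) (n : ℕ) (x : σ → ℂ) :
    ∀ i, eval x (itp F n i) = (ev F)^[n] x i := by
  induction n with
  | zero => intro i; simp [itp]
  | succ n ih =>
    intro i
    rw [Function.iterate_succ_apply']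
    show eval x (aeval (itp F n) (F i)) = eval ((ev F)^[n] x) (F i)
    have h1 : ((ev F)^[n] x) = fun j => eval x (itp F n j) := by
      ext j; rw [ih j]
    rw [h1]
    have h2 : ∀ g : MvPolynomial σ ℂ,
        eval x (aeval (itp F n) g) = eval (fun j => eval x (itp F n j)) g := by
      intro g
      induction g using MvPolynomial.induction_on with
      | C a => simp
      | add p q hp hq => simp at hp hq ⊢; rw [hp, hq]
      | mul_X p i hp => rw [map_mul, map_mul, map_mul, hp, aeval_X, eval_X]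
    exact h2 _

theorem eval_comp' {σ : Type} (F : σ → MvPolynomial σ ℂ) (n : ℕ) (x : σ → ℂ)
    (g : MvPolynomial σ ℂ) :
    eval x (aeval (itp F n) g) = eval ((ev F)^[n] x) g := by
  have h1 : ((ev F)^[n] x) = fun j => eval x (itp F n j) := by
    ext j; rw [eval_itp' F n x j]
  rw [h1]
  induction g using MvPolynomial.induction_on with
  | C a => simp
  | add p q hp hq => simp at hp hq ⊢; rw [hp, hq]
  | mul_X p i hp => rw [map_mul, map_mul, map_mul, hp, aeval_X, eval_X]

attribute [local instance] MvPolynomial.gradedAlgebra in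
/-- Minimal primes of an ideal generated by homogeneous elements are generated by their
homogeneous elements. -/
theorem span_homog_minimalPrime {σ : Type} {V : Set (MvPolynomial σ ℂ)}
    (hV : ∀ g ∈ V, ∃ e : ℕ, g.IsHomogeneous e) {p : Ideal (MvPolynomial σ ℂ)}
    (hp : p ∈ (Ideal.span V).minimalPrimes) :
    Ideal.span {g : MvPolynomial σ ℂ | g ∈ p ∧ ∃ e : ℕ, g.IsHomogeneous e} = p := by
  have hpp : p.IsPrime := hp.1.1
  have hVp : Ideal.span V ≤ p := hp.1.2
  have hc := hpp.homogeneousCore (𝒜 := homogeneousSubmodule σ ℂ)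
  have hle : (p.homogeneousCore (homogeneousSubmodule σ ℂ)).toIdeal ≤ p :=
    Ideal.toIdeal_homogeneousCore_le _ _
  have hVc : Ideal.span V ≤ (p.homogeneousCore (homogeneousSubmodule σ ℂ)).toIdeal := by
    rw [Ideal.span_le]
    intro g hg
    obtain ⟨e, he⟩ := hV g hg
    exact Ideal.mem_homogeneousCore_of_homogeneous_of_mem
      ⟨e, (mem_homogeneousSubmodule e g).2 he⟩ (hVp (Ideal.subset_span hg))
  have heq : p ≤ (p.homogeneousCore (homogeneousSubmodule σ ℂ)).toIdeal := hp.2 ⟨hc, hVc⟩ hle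
  refine le_antisymm (Ideal.span_le.2 fun g hg => hg.1) (heq.trans ?_)
  show Ideal.homogeneousCore' _ p ≤ _
  unfold Ideal.homogeneousCore'
  refine Ideal.span_mono ?_
  rintro _ ⟨⟨g, e, he⟩, hg, rfl⟩
  exact ⟨hg, e, (mem_homogeneousSubmodule e g).1 he⟩

/-- Adding an element outside a prime ideal lowers the dimension. -/
theorem dim_add_le {R : Type*} [CommRing R] {p J : Ideal R} [hp : p.IsPrime] {h : R}
    (hpJ : p ≤ J) (hJ : h ∈ J) (hh : h ∉ p) (n : ℕ)
    (hdim : ringKrullDim (R ⧸ p) ≤ ((n + 1 : ℕ) : WithBot ℕ∞)) :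
    ringKrullDim (R ⧸ J) ≤ (n : WithBot ℕ∞) := by
  have hne : Ideal.Quotient.mk p h ≠ 0 := by
    rw [Ne, Ideal.Quotient.eq_zero_iff_mem]
    exact hh
  have h1 := ringKrullDim_succ_le_of_surjective (Ideal.Quotient.factor hpJ)
    (Ideal.Quotient.factor_surjective hpJ) (mem_nonZeroDivisors_of_ne_zero hne)
    (by rw [Ideal.Quotient.factor_mk, Ideal.Quotient.eq_zero_iff_mem]; exact hJ)
  have h2 := h1.trans hdim
  rw [Nat.cast_add, Nat.cast_one] at h2
  have h10 : (1 : WithBot ℕ∞) ≠ ⊥ := by decide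
  have h11 : (1 : WithBot ℕ∞) ≠ ⊤ := by decide
  exact (WithBot.add_le_add_iff_right' h10 h11).1 h2

/-- A closed set of dimension at most one is a finite union of closed sets each of which is mapped
into itself by some iterate, or contains for each `k` only finitely many points whose whole orbit
under the `k`-th iterate stays in it. Proof: take the homogeneous elements of the minimal primes
(which are homogeneous, `Ideal.IsPrime.homogeneousCore`). If `g ∘ F^k ∉ 𝔭` for some homogeneous
`g ∈ 𝔭`, then the quotient by `𝔭 + (g ∘ F^k)` has dimension at most one; use `finite_lines`. -/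
theorem dim_split {σ : Type} [Finite σ] {d : ℕ} (F : σ → MvPolynomial σ ℂ)
    (hF : ∀ i, (F i).IsHomogeneous d) (V : Set (MvPolynomial σ ℂ))
    (hV : ∀ g ∈ V, ∃ e : ℕ, g.IsHomogeneous e)
    (hdim : ringKrullDim (MvPolynomial σ ℂ ⧸ Ideal.span V) ≤ 2) :
    ∃ (r : ℕ) (W : Fin r → Set (MvPolynomial σ ℂ)),
      (∀ j, ∀ g ∈ W j, ∃ e : ℕ, g.IsHomogeneous e) ∧
      (∀ x, InZ V x ↔ ∃ j, InZ (W j) x) ∧
      ∀ j, (∃ k, 1 ≤ k ∧ ∀ x, InZ (W j) x → InZ (W j) ((ev F)^[k] x)) ∨
        ∀ k, 1 ≤ k → ∃ B : Finset (σ → ℂ), ∀ x : σ → ℂ, x ≠ 0 →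
          (∀ n, InZ (W j) ((ev F)^[k * n] x)) → ∃ b ∈ B, ∃ c : ℂ, x = c • b := by
  classical
  have hfin : (Ideal.span V).minimalPrimes.Finite :=
    Ideal.finite_minimalPrimes_of_isNoetherianRing _ _
  let e := hfin.toFinset.equivFin
  let P : Fin hfin.toFinset.card → Ideal (MvPolynomial σ ℂ) := fun j => (e.symm j).1
  have hP : ∀ j, P j ∈ (Ideal.span V).minimalPrimes := fun j =>
    hfin.mem_toFinset.1 (e.symm j).2
  have hPs : ∀ p ∈ (Ideal.span V).minimalPrimes, ∃ j, P j = p := by
    intro p hp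
    refine ⟨e ⟨p, hfin.mem_toFinset.2 hp⟩, ?_⟩
    simp [P]
  refine ⟨hfin.toFinset.card, fun j => {g | g ∈ P j ∧ ∃ e : ℕ, g.IsHomogeneous e},
    fun j g hg => hg.2, fun x => ⟨fun hx => ?_, ?_⟩, fun j => ?_⟩
  · have hmax : (RingHom.ker (eval x : MvPolynomial σ ℂ →+* ℂ)).IsPrime := RingHom.ker_isPrime _
    have hle : Ideal.span V ≤ RingHom.ker (eval x : MvPolynomial σ ℂ →+* ℂ) := by
      rw [Ideal.span_le]
      intro g hg
      exact hx g hg
    obtain ⟨p, hp, hpx⟩ := Ideal.exists_minimalPrimes_le hle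
    obtain ⟨j, hj⟩ := hPs p hp
    refine ⟨j, fun g hg => ?_⟩
    exact hpx (hj ▸ hg.1)
  · rintro ⟨j, hj⟩ g hg
    exact hj g ⟨(hP j).1.2 (Ideal.subset_span hg), hV g hg⟩
  · by_cases hk : ∃ k, 1 ≤ k ∧ ∀ g ∈ P j, (∃ e : ℕ, g.IsHomogeneous e) →
        aeval (itp F k) g ∈ P j
    · left
      obtain ⟨k, hk1, hk2⟩ := hk
      refine ⟨k, hk1, fun x hx g hg => ?_⟩
      rw [← eval_comp']
      obtain ⟨hgP, e', he'⟩ := hg
      exact hx _ ⟨hk2 g hgP ⟨e', he'⟩, _, he'.aeval _ (itp_homog F hF k)⟩
    · right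
      intro k hk1
      push Not at hk
      obtain ⟨g, hgP, ⟨e', he'⟩, hg⟩ := hk k hk1
      have hpp : (P j).IsPrime := (hP j).1.1
      set h := aeval (itp F k) g with hh
      have hhom : h.IsHomogeneous (d ^ k * e') := he'.aeval _ (itp_homog F hF k)
      let S : Set (MvPolynomial σ ℂ) := {g | g ∈ P j ∧ ∃ e : ℕ, g.IsHomogeneous e} ∪ {h}
      have hS : ∀ g ∈ S, ∃ e : ℕ, g.IsHomogeneous e := by
        rintro g (hg | hg)
        · exact hg.2
        · rw [Set.mem_singleton_iff] at hg
          rw [hg]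
          exact ⟨_, hhom⟩
      have hPS : P j ≤ Ideal.span S := by
        conv_lhs => rw [← span_homog_minimalPrime hV (hP j)]
        exact Ideal.span_mono Set.subset_union_left
      have hd1 : ringKrullDim (MvPolynomial σ ℂ ⧸ P j) ≤ ((1 + 1 : ℕ) : WithBot ℕ∞) :=
        (ringKrullDim_le_of_surjective (Ideal.Quotient.factor (hP j).1.2)
          (Ideal.Quotient.factor_surjective _)).trans (by simpa using hdim)
      have hd2 : ringKrullDim (MvPolynomial σ ℂ ⧸ Ideal.span S) ≤ 1 := by
        have := dim_add_le hPS (Ideal.subset_span (Set.mem_union_right _ rfl)) hg 1 hd1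
        simpa using this
      obtain ⟨B, hB⟩ := finite_lines S hS hd2
      refine ⟨B, fun x hx hn => hB x hx ?_⟩
      rintro g' (hg' | hg')
      · have := hn 0
        rw [mul_zero, Function.iterate_zero, id] at this
        exact this g' hg'
      · rw [Set.mem_singleton_iff] at hg'
        rw [hg', hh, eval_comp']
        have := hn 1
        rw [mul_one] at this
        exact this g ⟨hgP, e', he'⟩

end Pool.Agent.Helper33.SS

end

section

/-!
# The gap theorem for endomorphisms of projective space and subvarieties of dimension at most one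
-/

set_option autoImplicit false

namespace Pool.Agent.Helper36

open Height Height.AdmissibleAbsValues Function

/-- a proper closed subset of a projective space of dimension at most two has dimension at most
one -/
lemma krullDim_le_two {N : ℕ} (hN : N ≤ 2) (S : Set (MvPolynomial (Fin (N + 1)) ℂ))
    {g : MvPolynomial (Fin (N + 1)) ℂ} (hg : g ∈ S) (hg0 : g ≠ 0) :
    ringKrullDim (MvPolynomial (Fin (N + 1)) ℂ ⧸ Ideal.span S) ≤ 2 := by
  have h1 : ringKrullDim (MvPolynomial (Fin (N + 1)) ℂ ⧸ Ideal.span {g}) + 1 ≤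
      ringKrullDim (MvPolynomial (Fin (N + 1)) ℂ) :=
    ringKrullDim_quotient_succ_le_of_nonZeroDivisor (mem_nonZeroDivisors_of_ne_zero hg0)
  rw [MvPolynomial.ringKrullDim_of_isNoetherianRing, ringKrullDim_eq_zero_of_field, zero_add,
    Nat.card_fin] at h1
  have hle : Ideal.span {g} ≤ Ideal.span S := Ideal.span_mono (by simpa using hg)
  have h2 : ringKrullDim (MvPolynomial (Fin (N + 1)) ℂ ⧸ Ideal.span S) ≤
      ringKrullDim (MvPolynomial (Fin (N + 1)) ℂ ⧸ Ideal.span {g}) :=
    ringKrullDim_le_of_surjective (Ideal.Quotient.factor hle)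
      (Ideal.Quotient.factor_surjective hle)
  refine h2.trans ?_
  have h3 : ((N + 1 : ℕ) : WithBot ℕ∞) ≤ 2 + 1 := by
    have : (N + 1 : ℕ) ≤ 3 := by omega
    calc ((N + 1 : ℕ) : WithBot ℕ∞) ≤ ((3 : ℕ) : WithBot ℕ∞) := by exact_mod_cast this
      _ = 2 + 1 := by norm_num
  have h4 := h1.trans h3
  generalize ringKrullDim (MvPolynomial (Fin (N + 1)) ℂ ⧸ Ideal.span {g}) = D at h4
  induction D using WithBot.recBotCoe with
  | bot => exact bot_le
  | coe D =>
    have h5 : D + 1 ≤ 2 + 1 := WithBot.coe_le_coe.1 h4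
    have h6 : D ≤ 2 := (ENat.add_le_add_iff_right ENat.one_ne_top).1 h5
    exact WithBot.coe_le_coe.2 h6

end Pool.Agent.Helper36

end

section

namespace Pool.Agent.Helper36
end Pool.Agent.Helper36

/-!
# Intersections of unions of arithmetic progressions and gap sets
-/

set_option autoImplicit false

namespace Pool.Agent.Helper33.GC

open Pool.Agent.Helper36

/-- a finite union of arithmetic progressions is, up to finitely many exceptions, closed under
adding multiples of a suitable number -/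
lemma APSet_evClosed (T : Finset (ℕ × ℕ)) :
    ∃ k : ℕ, 0 < k ∧ ∀ l : ℕ, {n ∈ APSet T | n + k * l ∉ APSet T}.Finite := by
  classical
  refine ⟨∏ p ∈ T, (if p.1 = 0 then 1 else p.1), ?_, fun l => ?_⟩
  · refine Finset.prod_pos fun p _ => ?_
    split_ifs with h
    · exact Nat.one_pos
    · exact Nat.pos_of_ne_zero h
  · refine (T.image Prod.snd).finite_toSet.subset ?_
    rintro n ⟨⟨p, hp, m, rfl⟩, hn⟩
    rw [Finset.mem_coe, Finset.mem_image]
    refine ⟨p, hp, ?_⟩
    by_cases h0 : p.1 = 0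
    · rw [h0, zero_mul, zero_add]
    · exfalso
      apply hn
      have hdvd : p.1 ∣ ∏ p ∈ T, (if p.1 = 0 then 1 else p.1) := by
        have := Finset.dvd_prod_of_mem (fun p : ℕ × ℕ => if p.1 = 0 then 1 else p.1) hp
        simpa [h0] using this
      obtain ⟨c, hc⟩ := hdvd
      refine ⟨p, hp, m + c * l, ?_⟩
      rw [hc]
      ring

lemma APSet_inter (T T' : Finset (ℕ × ℕ)) : ∃ U, APSet T ∩ APSet T' = APSet U := by
  obtain ⟨k, hk, h⟩ := APSet_evClosed T
  obtain ⟨k', hk', h'⟩ := APSet_evClosed T'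
  apply APSet_of_evClosed (k := k * k') (Nat.mul_pos hk hk')
  refine ((h k').union (h' k)).subset ?_
  rintro n ⟨⟨h1, h2⟩, h3⟩
  by_cases h4 : n + k * k' ∈ APSet T
  · right
    refine ⟨h2, fun h5 => h3 ⟨h4, ?_⟩⟩
    rwa [mul_comm k k']
  · left
    exact ⟨h1, h4⟩

end Pool.Agent.Helper33.GC

end

section

namespace Pool.Agent.Helper33.SS
end Pool.Agent.Helper33.SS

/-!
# Components over a subfield of a set of complex forms
-/

set_option autoImplicit false

namespace Pool.Agent.Helper88.TL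

open Pool.Agent.Helper33.SS MvPolynomial

section
variable {K : Type} [Field K] [Algebra K ℂ] {σ : Type}

/-- Apply a linear functional to the coefficients. -/
noncomputable def compo (l : ℂ →ₗ[K] K) (g : MvPolynomial σ ℂ) : MvPolynomial σ K :=
  ∑ m ∈ g.support, monomial m (l (g.coeff m))

theorem coeff_compo (l : ℂ →ₗ[K] K) (g : MvPolynomial σ ℂ) (m : σ →₀ ℕ) :
    (compo l g).coeff m = l (g.coeff m) := by
  classical
  rw [compo, coeff_sum]
  simp only [coeff_monomial]
  rw [Finset.sum_ite_eq' g.support m]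
  split_ifs with h
  · rfl
  · rw [notMem_support_iff.1 h, map_zero]

theorem compo_homogeneous (l : ℂ →ₗ[K] K) {g : MvPolynomial σ ℂ} {e : ℕ} (hg : g.IsHomogeneous e) :
    (compo l g).IsHomogeneous e := by
  intro m hm
  apply hg
  intro h0
  rw [coeff_compo, h0, map_zero] at hm
  exact hm rfl

theorem support_compo_subset (l : ℂ →ₗ[K] K) (g : MvPolynomial σ ℂ) :
    (compo l g).support ⊆ g.support := by
  intro m hm
  rw [mem_support_iff] at hm ⊢
  intro h0
  rw [coeff_compo, h0, map_zero] at hm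
  exact hm rfl

theorem eval_compo (l : ℂ →ₗ[K] K) (g : MvPolynomial σ ℂ) (x : σ → K) :
    eval x (compo l g) = l (eval (fun i => algebraMap K ℂ (x i)) g) := by
  rw [compo, map_sum, eval_eq, map_sum]
  refine Finset.sum_congr rfl fun m _ => ?_
  rw [eval_monomial]
  have h1 : g.coeff m * ∏ i ∈ m.support, (algebraMap K ℂ (x i)) ^ m i
      = (∏ i ∈ m.support, x i ^ m i) • g.coeff m := by
    rw [Algebra.smul_def, map_prod, mul_comm]
    simp only [map_pow]
  rw [h1, map_smul, smul_eq_mul, mul_comm]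
  rfl

/-- A point where all components vanish is a zero. -/
theorem eval_eq_zero_of_compo {g : MvPolynomial σ ℂ} {z : σ → ℂ}
    (h : ∀ l : ℂ →ₗ[K] K, eval z (MvPolynomial.map (algebraMap K ℂ) (compo l g)) = 0) :
    eval z g = 0 := by
  classical
  set B := Module.Basis.ofVectorSpace K ℂ with hB
  set J := g.support.biUnion fun m => (B.repr (g.coeff m)).support with hJ
  have h1 : ∀ m ∈ g.support, g.coeff m = ∑ b ∈ J, algebraMap K ℂ (B.coord b (g.coeff m)) * B b := by
    intro m hm
    have h2 := B.linearCombination_repr (g.coeff m)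
    rw [Finsupp.linearCombination_apply, Finsupp.sum] at h2
    conv_lhs => rw [← h2]
    have h3 : (B.repr (g.coeff m)).support ⊆ J := Finset.subset_biUnion_of_mem
      (fun m => (B.repr (g.coeff m)).support) hm
    rw [Finset.sum_subset h3]
    · refine Finset.sum_congr rfl fun b _ => ?_
      rw [Algebra.smul_def]
      rfl
    · intro b _ hb
      rw [Finsupp.notMem_support_iff.1 hb, zero_smul]
  rw [eval_eq]
  have h4 : ∑ m ∈ g.support, g.coeff m * ∏ i ∈ m.support, z i ^ m i
      = ∑ b ∈ J, B b * ∑ m ∈ g.support, algebraMap K ℂ (B.coord b (g.coeff m))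
        * ∏ i ∈ m.support, z i ^ m i := by
    simp only [Finset.mul_sum]
    rw [Finset.sum_comm]
    refine Finset.sum_congr rfl fun m hm => ?_
    conv_lhs => rw [h1 m hm, Finset.sum_mul]
    refine Finset.sum_congr rfl fun b _ => ?_
    ring
  rw [h4]
  refine Finset.sum_eq_zero fun b _ => ?_
  have h5 := h (B.coord b)
  rw [eval_eq] at h5
  have h6 : ∑ m ∈ g.support, algebraMap K ℂ (B.coord b (g.coeff m)) * ∏ i ∈ m.support, z i ^ m i
      = ∑ m ∈ (MvPolynomial.map (algebraMap K ℂ) (compo (B.coord b) g)).support,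
        (MvPolynomial.map (algebraMap K ℂ) (compo (B.coord b) g)).coeff m
          * ∏ i ∈ m.support, z i ^ m i := by
    symm
    refine Finset.sum_subset_zero_on_sdiff ?_ ?_ ?_
    · exact (support_map_subset _ _).trans (support_compo_subset _ _)
    · intro m hm
      rw [Finset.mem_sdiff, notMem_support_iff] at hm
      have h7 := hm.2
      rw [coeff_map, coeff_compo] at h7
      rw [h7, zero_mul]
    · intro m _
      rw [coeff_map, coeff_compo]
  rw [h6, h5, mul_zero]

/-- Integral forms over the subfield with the same zeros. -/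
theorem exists_components (v : AbsoluteValue K ℝ) (V : Set (MvPolynomial σ ℂ))
    (hV : ∀ g ∈ V, ∃ e : ℕ, g.IsHomogeneous e) :
    ∃ W : Set (MvPolynomial σ K), (∀ g ∈ W, ∃ e : ℕ, g.IsHomogeneous e) ∧
      (∀ g ∈ W, ∀ m, v (g.coeff m) ≤ 1) ∧
      (∀ x : σ → K, InZ V (fun i => algebraMap K ℂ (x i)) → InZ W x) ∧
      ∀ z : σ → ℂ, (∀ g ∈ W, eval z (MvPolynomial.map (algebraMap K ℂ) g) = 0) → InZ V z := by
  classical
  refine ⟨{g | ∃ g₀ ∈ V, ∃ l : ℂ →ₗ[K] K, ∃ c : K, c ≠ 0 ∧ g = C c * compo l g₀ ∧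
    ∀ m, v (g.coeff m) ≤ 1}, ?_, ?_, ?_, ?_⟩
  · rintro g ⟨g₀, hg₀, l, c, hc, rfl, -⟩
    obtain ⟨e, he⟩ := hV g₀ hg₀
    refine ⟨0 + e, (isHomogeneous_C σ c).mul (compo_homogeneous l he)⟩
  · rintro g ⟨g₀, hg₀, l, c, hc, rfl, h⟩
    exact h
  · rintro x hx g ⟨g₀, hg₀, l, c, hc, rfl, -⟩
    rw [map_mul, eval_compo, hx g₀ hg₀, map_zero, mul_zero]
  · intro z hz g₀ hg₀
    refine eval_eq_zero_of_compo (K := K) fun l => ?_
    -- scale the component
    obtain ⟨c, hc, hcm⟩ : ∃ c : K, c ≠ 0 ∧ ∀ m, v ((C c * compo l g₀).coeff m) ≤ 1 := by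
      by_cases h0 : (compo l g₀).support = ∅
      · refine ⟨1, one_ne_zero, fun m => ?_⟩
        rw [support_eq_empty] at h0
        rw [h0, mul_zero, coeff_zero, map_zero]
        exact zero_le_one
      · obtain ⟨m₀, hm₀, hmax⟩ := Finset.exists_max_image (compo l g₀).support
          (fun m => v ((compo l g₀).coeff m)) (Finset.nonempty_iff_ne_empty.2 h0)
        have hne : (compo l g₀).coeff m₀ ≠ 0 := mem_support_iff.1 hm₀
        refine ⟨((compo l g₀).coeff m₀)⁻¹, inv_ne_zero hne, fun m => ?_⟩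
        rw [coeff_C_mul, map_mul, map_inv₀]
        by_cases hm : m ∈ (compo l g₀).support
        · rw [inv_mul_le_iff₀ (v.pos hne), mul_one]
          exact hmax m hm
        · rw [notMem_support_iff.1 hm, map_zero, mul_zero]
          exact zero_le_one
    have h1 := hz _ ⟨g₀, hg₀, l, c, hc, rfl, hcm⟩
    rw [map_mul, map_C, map_mul, eval_C] at h1
    exact (mul_eq_zero.1 h1).resolve_left ((map_ne_zero (algebraMap K ℂ)).2 hc)

end

end Pool.Agent.Helper88.TL

end

section

/-!
# Dynamical Mordell-Lang for curves and regular polynomial maps: definitions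
-/

set_option autoImplicit false

namespace Pool.Agent.Helper65.RP

open MvPolynomial Filter Topology

/-! ### Orders of sequences along an ultrafilter -/

section ord
variable {Ω : Type} [NormedField Ω]

/-- The sequence `u` is almost everywhere nonzero and `- log ‖u n‖ / s n` tends to `α`. -/
def HasOrd (𝒰 : Ultrafilter ℕ) (s : ℕ → ℝ) (u : ℕ → Ω) (α : ℝ) : Prop :=
  (∀ᶠ n in (𝒰 : Filter ℕ), u n ≠ 0) ∧
    Tendsto (fun n => -Real.log ‖u n‖ / s n) (𝒰 : Filter ℕ) (𝓝 α)

/-- The sequence `u` has order at least `α`. -/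
def GeOrd (𝒰 : Ultrafilter ℕ) (s : ℕ → ℝ) (u : ℕ → Ω) (α : ℝ) : Prop :=
  ∀ ε : ℝ, 0 < ε → ∀ᶠ n in (𝒰 : Filter ℕ), ‖u n‖ ≤ Real.exp (-(α - ε) * s n)

end ord

section pol
variable {K Kb Ω : Type} [Field K] [Field Kb] [Algebra K Kb] [NormedField Ω] [Algebra K Ω]
  [Algebra Kb Ω] {N : ℕ}

/-- The values in `Ω` of a polynomial with coefficients in `Kb` at a sequence of `K`-points. -/
noncomputable def ev (Ω : Type) [NormedField Ω] [Algebra Kb Ω] (z : ℕ → Fin N → K)
    (p : MvPolynomial (Fin N) Kb) (n : ℕ) : Ω :=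
  algebraMap Kb Ω (eval (fun i => algebraMap K Kb (z n i)) p)

/-- A sequence of `K`-points that tends to infinity at the place given by `Ω`, with scale `s`; the
coordinate `i₀` has the largest possible size, and all coordinates are algebraic over `K(x_{i₀})`. -/
structure Lev (Ω : Type) [NormedField Ω] [Algebra K Ω] (𝒰 : Ultrafilter ℕ) (s : ℕ → ℝ)
    (z : ℕ → Fin N → K) (i₀ : Fin N) : Prop where
  hs : Tendsto s (𝒰 : Filter ℕ) atTop
  top : HasOrd 𝒰 s (fun n => algebraMap K Ω (z n i₀)) (-1)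
  ge : ∀ i, GeOrd 𝒰 s (fun n => algebraMap K Ω (z n i)) (-1)
  alg : ∀ i, ∃ R : Polynomial (Polynomial K), R ≠ 0 ∧
    ∀ᶠ n in (𝒰 : Filter ℕ), (R.map (Polynomial.evalRingHom (z n i₀))).eval (z n i) = 0

end pol

/-- One distinguished absolute value of `K` (given by the embedding in `Ω`, with multiplicity `n`),
the other ones `abv`, the product inequality on a ring `O` of integers, and the Subspace theorem
with algebraic coefficients at the distinguished place. -/
structure PD (K Ω : Type) [Field K] [NormedField Ω] [Algebra K Ω] (Λ : Type) [Fintype Λ] where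
  n : ℕ
  hn : 0 < n
  abv : Λ → AbsoluteValue K ℝ
  O : Subring K
  frac : ∀ x : K, ∃ y ∈ O, y ≠ 0 ∧ x * y ∈ O
  one_le : ∀ x ∈ O, x ≠ 0 → 1 ≤ ‖algebraMap K Ω x‖ ^ n * ∏ l, abv l x
  sub : ∀ (M : ℕ) (A : Matrix (Fin M) (Fin M) Ω), 2 ≤ M → (∀ i j, IsAlgebraic K (A i j)) →
    A.det ≠ 0 → ∀ δ B : ℝ, 0 < δ →
    ∃ 𝒲 : Finset (Submodule K (Fin M → K)), (∀ W ∈ 𝒲, W ≠ ⊤) ∧
      ∀ (Q : ℝ) (a : Fin M → ℝ) (b : Λ → ℝ) (y : Fin M → K), 1 ≤ Q → (∀ i, y i ∈ O) →
        (∀ i, Q ^ (-B) ≤ a i ∧ a i ≤ Q ^ B) → (∀ l, Q ^ (-B) ≤ b l ∧ b l ≤ Q ^ B) →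
        (∀ i, ‖∑ j, A i j * algebraMap K Ω (y j)‖ ≤ a i) → (∀ l i, abv l (y i) ≤ b l) →
        (∏ i, a i) ^ n * ∏ l, b l ^ M ≤ Q ^ (-δ) → ∃ W ∈ 𝒲, y ∈ W

/-- The growth conditions at the places other than the distinguished one. -/
structure Grow {K Ω : Type} [Field K] [NormedField Ω] [Algebra K Ω] {Λ : Type} [Fintype Λ]
    (Z : PD K Ω Λ) (g : Λ → ℝ) (𝒰 : Ultrafilter ℕ) (s : ℕ → ℝ) {N : ℕ} (z : ℕ → Fin N → K) :
    Prop where
  pos : ∀ l, 0 ≤ g l
  int : ∀ᶠ n in (𝒰 : Filter ℕ), ∀ i, z n i ∈ Z.O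
  le : ∀ ε : ℝ, 0 < ε → ∀ᶠ n in (𝒰 : Filter ℕ), ∀ l i, Z.abv l (z n i) ≤ Real.exp ((g l + ε) * s n)

/-- The iterates of `f`, as polynomials. -/
noncomputable def iter {K : Type} [Field K] {N : ℕ} (f : Fin N → MvPolynomial (Fin N) K) :
    ℕ → Fin N → MvPolynomial (Fin N) K
  | 0 => X
  | k + 1 => fun i => bind₁ (iter f k) (f i)

end Pool.Agent.Helper65.RP

end

section

namespace Pool.Agent.Helper65.RP
end Pool.Agent.Helper65.RP

/-!
# Dynamical Mordell-Lang for curves and regular polynomial maps: a bound for the dimension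

A projective variety that meets the hyperplane at infinity in finitely many points has an affine
part of dimension at most one.
-/

set_option autoImplicit false

namespace Pool.Agent.Helper57.RP

open MvPolynomial Pool.Agent.Helper65.RP

/-- The Krull dimension does not go up in an integral extension. -/
lemma ringKrullDim_le_of_isIntegral {A R : Type*} [CommRing A] [CommRing R] [Algebra A R]
    [Algebra.IsIntegral A R] : ringKrullDim R ≤ ringKrullDim A := by
  unfold ringKrullDim
  refine Order.krullDim_le_of_strictMono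
    (fun P => PrimeSpectrum.comap (algebraMap A R) P) ?_
  intro P Q h
  have h1 : P.asIdeal < Q.asIdeal := h
  exact Ideal.IsIntegral.comap_lt_comap h1

/-- The Nullstellensatz: if the origin is the only zero, the variables are nilpotent. -/
lemma exists_pow_mem {K : Type} [Field K] [Algebra K ℂ] {N : ℕ}
    (I : Ideal (MvPolynomial (Fin (N + 1)) K))
    (h : ∀ x : Fin (N + 1) → ℂ, (∀ g ∈ I, aeval x g = 0) → x = 0) :
    ∃ r : ℕ, 0 < r ∧ ∀ i, (X i : MvPolynomial (Fin (N + 1)) K) ^ r ∈ I := by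
  classical
  have h1 : ∀ k : Fin (N + 1), ∃ r : ℕ, (X k : MvPolynomial (Fin (N + 1)) K) ^ r ∈ I := by
    intro k
    have h2 : (X k : MvPolynomial (Fin (N + 1)) K) ∈ I.radical := by
      rw [← MvPolynomial.vanishingIdeal_zeroLocus_eq_radical (K := ℂ)]
      rw [MvPolynomial.mem_vanishingIdeal_iff]
      intro x hx
      rw [MvPolynomial.mem_zeroLocus_iff] at hx
      have : x = 0 := h x hx
      rw [this]
      simp
    exact h2
  choose r hr using h1
  refine ⟨1 + ∑ k, r k, by omega, ?_⟩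
  intro i
  have h2 : r i ≤ 1 + ∑ k, r k :=
    le_trans (Finset.single_le_sum (f := r) (fun _ _ => Nat.zero_le _) (Finset.mem_univ i))
      (Nat.le_add_left _ _)
  exact I.pow_mem_of_pow_mem (hr i) h2

attribute [local instance] MvPolynomial.gradedAlgebra

end Pool.Agent.Helper57.RP

end

section

namespace Pool.Agent.Helper36
end Pool.Agent.Helper36
namespace Pool.Agent.Helper57.RP
end Pool.Agent.Helper57.RP

/-!
# Closed sets which do not meet a linear subspace of codimension two have dimension at most one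
-/

set_option autoImplicit false

namespace Pool.Agent.Helper30.RED

open MvPolynomial
open Pool.Agent.Helper36 (homogeneousComponent_mul_of_homogeneous)
open Pool.Agent.Helper57.RP (ringKrullDim_le_of_isIntegral exists_pow_mem)

variable {K : Type} [Field K]

/-- The module generated by the small monomials. -/
theorem krull_le_of_rel2 {N : ℕ} (J : Ideal (MvPolynomial (Fin N) K))
    (l l' : MvPolynomial (Fin N) K) (r : ℕ) (hr : 0 < r)
    (h : ∀ i : Fin N, ∃ v w : MvPolynomial (Fin N) K, v.totalDegree < r ∧ w.totalDegree < r ∧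
      X i ^ r - (v * l + w * l') ∈ J) :
    ringKrullDim (MvPolynomial (Fin N) K ⧸ J) ≤ 2 := by
  classical
  let φ : MvPolynomial (Fin 2) K →ₐ[K] (MvPolynomial (Fin N) K ⧸ J) :=
    aeval ![Ideal.Quotient.mk J l, Ideal.Quotient.mk J l']
  let _ : Algebra (MvPolynomial (Fin 2) K) (MvPolynomial (Fin N) K ⧸ J) := φ.toRingHom.toAlgebra
  have hmap : ∀ q : MvPolynomial (Fin 2) K,
      algebraMap (MvPolynomial (Fin 2) K) (MvPolynomial (Fin N) K ⧸ J) q = φ q :=
    fun _ => rfl
  let T : Set (Fin N →₀ ℕ) := Set.Iic (Finsupp.equivFunOnFinite.symm fun _ => r)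
  have hT : T.Finite := Set.finite_Iic _
  let W : Submodule (MvPolynomial (Fin 2) K) (MvPolynomial (Fin N) K ⧸ J) :=
    Submodule.span (MvPolynomial (Fin 2) K) ((fun s => Ideal.Quotient.mk J (monomial s 1)) '' T)
  have hsmul : ∀ (a : K) (w : MvPolynomial (Fin N) K), Ideal.Quotient.mk J w ∈ W →
      Ideal.Quotient.mk J (C a * w) ∈ W := by
    intro a w hw
    have h1 : Ideal.Quotient.mk J (C a * w) = (C a : MvPolynomial (Fin 2) K) •
        Ideal.Quotient.mk J w := by
      rw [Algebra.smul_def, hmap, map_mul]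
      congr 1
      simp only [φ, aeval_C]
      rfl
    rw [h1]
    exact W.smul_mem _ hw
  have hlmul : ∀ w : MvPolynomial (Fin N) K, Ideal.Quotient.mk J w ∈ W →
      Ideal.Quotient.mk J (w * l) ∈ W := by
    intro w hw
    have h1 : Ideal.Quotient.mk J (w * l) = (X 0 : MvPolynomial (Fin 2) K) •
        Ideal.Quotient.mk J w := by
      rw [Algebra.smul_def, hmap, map_mul, mul_comm]
      congr 1
      simp [φ, aeval_X]
    rw [h1]
    exact W.smul_mem _ hw
  have hlmul' : ∀ w : MvPolynomial (Fin N) K, Ideal.Quotient.mk J w ∈ W →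
      Ideal.Quotient.mk J (w * l') ∈ W := by
    intro w hw
    have h1 : Ideal.Quotient.mk J (w * l') = (X 1 : MvPolynomial (Fin 2) K) •
        Ideal.Quotient.mk J w := by
      rw [Algebra.smul_def, hmap, map_mul, mul_comm]
      congr 1
      simp [φ, aeval_X]
    rw [h1]
    exact W.smul_mem _ hw
  have hmain : ∀ n : ℕ, ∀ p : MvPolynomial (Fin N) K, p.totalDegree ≤ n →
      Ideal.Quotient.mk J p ∈ W := by
    intro n
    induction n using Nat.strong_induction_on with
    | _ n ih =>
      intro p hp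
      have h1 : p = ∑ s ∈ p.support, C (p.coeff s) * monomial s 1 := by
        conv_lhs => rw [p.as_sum]
        apply Finset.sum_congr rfl
        intro s _
        rw [C_mul_monomial, mul_one]
      rw [h1, map_sum]
      apply W.sum_mem
      intro s hs
      apply hsmul
      have hsd : (s.sum fun _ e => e) ≤ n := le_trans (le_totalDegree hs) hp
      by_cases hsT : s ∈ T
      · exact Submodule.subset_span ⟨s, hsT, rfl⟩
      · have h2 : ∃ i, r < s i := by
          by_contra hcon
          push Not at hcon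
          exact hsT (fun i => hcon i)
        obtain ⟨i, hi⟩ := h2
        obtain ⟨v, w, hv, hw, huv⟩ := h i
        let s' : Fin N →₀ ℕ := s - Finsupp.single i r
        have hs' : s = s' + Finsupp.single i r := by
          refine (tsub_add_cancel_of_le ?_).symm
          rw [Finsupp.single_le_iff]
          exact hi.le
        have hdeg : (s.sum fun _ e => e) = (s'.sum fun _ e => e) + r := by
          conv_lhs => rw [hs']
          rw [Finsupp.sum_add_index' (fun _ => rfl) (fun _ _ _ => rfl),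
            Finsupp.sum_single_index rfl]
        have hm : (monomial s (1 : K)) = monomial s' 1 * X i ^ r := by
          conv_lhs => rw [hs']
          rw [X_pow_eq_monomial, monomial_mul, one_mul]
        have hm2 : Ideal.Quotient.mk J (monomial s (1 : K)) =
            Ideal.Quotient.mk J (monomial s' 1 * v * l) +
              Ideal.Quotient.mk J (monomial s' 1 * w * l') := by
          rw [← map_add, hm, Ideal.Quotient.eq]
          have : monomial s' 1 * X i ^ r - (monomial s' 1 * v * l + monomial s' 1 * w * l') =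
              monomial s' 1 * (X i ^ r - (v * l + w * l')) := by ring
          rw [this]
          exact J.mul_mem_left _ huv
        rw [hm2]
        have hs'd : (monomial s' (1 : K)).totalDegree ≤ (s'.sum fun _ e => e) := by
          exact totalDegree_monomial_le _ _
        apply W.add_mem
        · apply hlmul
          apply ih (n - 1) (by omega)
          refine le_trans (totalDegree_mul _ _) ?_
          omega
        · apply hlmul'
          apply ih (n - 1) (by omega)
          refine le_trans (totalDegree_mul _ _) ?_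
          omega
  have htop : W = ⊤ := by
    rw [eq_top_iff]
    intro x _
    obtain ⟨p, rfl⟩ := Ideal.Quotient.mk_surjective x
    exact hmain _ p le_rfl
  have hfin : Module.Finite (MvPolynomial (Fin 2) K) (MvPolynomial (Fin N) K ⧸ J) := by
    refine ⟨?_⟩
    rw [← htop]
    exact Submodule.fg_span (hT.image _)
  have hint : Algebra.IsIntegral (MvPolynomial (Fin 2) K) (MvPolynomial (Fin N) K ⧸ J) :=
    Algebra.IsIntegral.of_finite _ _
  refine le_trans (ringKrullDim_le_of_isIntegral (A := MvPolynomial (Fin 2) K)) ?_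
  rw [MvPolynomial.ringKrullDim_of_isNoetherianRing, ringKrullDim_eq_zero_of_field, zero_add,
    Nat.card_fin]
  exact le_rfl

attribute [local instance] MvPolynomial.gradedAlgebra

/-- If a closed set does not meet `l₀ = l₁ = 0`, then its dimension is at most one. -/
theorem krull_le_two [Algebra K ℂ] {N : ℕ} {S : Set (MvPolynomial (Fin (N + 1)) K)}
    (hS : ∀ g ∈ S, ∃ e : ℕ, g.IsHomogeneous e) {l₀ l₁ : MvPolynomial (Fin (N + 1)) K}
    (h0 : l₀.IsHomogeneous 1) (h1 : l₁.IsHomogeneous 1)
    (hno : ∀ z : Fin (N + 1) → ℂ, (∀ g ∈ S, aeval z g = 0) → aeval z l₀ = 0 → aeval z l₁ = 0 →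
      z = 0) : ringKrullDim (MvPolynomial (Fin (N + 1)) K ⧸ Ideal.span S) ≤ 2 := by
  classical
  obtain ⟨r, hr, hX⟩ := exists_pow_mem (K := K) (Ideal.span (insert l₀ (insert l₁ S))) (by
    intro x hx
    exact hno x (fun g hg => hx g (Ideal.subset_span (Set.mem_insert_of_mem _
      (Set.mem_insert_of_mem _ hg)))) (hx _ (Ideal.subset_span (Set.mem_insert _ _)))
      (hx _ (Ideal.subset_span (Set.mem_insert_of_mem _ (Set.mem_insert _ _)))))
  have hhom : ∀ g ∈ Ideal.span S, ∀ n, homogeneousComponent n g ∈ Ideal.span S := by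
    intro g hg n
    have h2 : (Ideal.span S).IsHomogeneous (homogeneousSubmodule (Fin (N + 1)) K) := by
      refine Ideal.homogeneous_span _ _ fun x hx => ?_
      obtain ⟨e, he⟩ := hS x hx
      exact ⟨e, he⟩
    exact homogeneousComponent_mem_of_mem h2 hg n
  refine krull_le_of_rel2 _ l₀ l₁ r hr fun i => ?_
  have h2 := hX i
  rw [Ideal.mem_span_insert] at h2
  obtain ⟨a, z, hz, hza⟩ := h2
  rw [Ideal.mem_span_insert] at hz
  obtain ⟨b, g, hg, rfl⟩ := hz
  refine ⟨homogeneousComponent (r - 1) a, homogeneousComponent (r - 1) b, ?_, ?_, ?_⟩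
  · refine lt_of_le_of_lt (homogeneousComponent_isHomogeneous _ _).totalDegree_le ?_
    omega
  · refine lt_of_le_of_lt (homogeneousComponent_isHomogeneous _ _).totalDegree_le ?_
    omega
  · have h3 := congrArg (homogeneousComponent r) hza
    have h4 : homogeneousComponent r (X i ^ r : MvPolynomial (Fin (N + 1)) K) = X i ^ r := by
      rw [homogeneousComponent_of_mem ((mem_homogeneousSubmodule _ _).2 (isHomogeneous_X_pow i r)),
        if_pos rfl]
    have h5 : ∀ p l : MvPolynomial (Fin (N + 1)) K, l.IsHomogeneous 1 →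
        homogeneousComponent r (p * l) = homogeneousComponent (r - 1) p * l := by
      intro p l hl
      obtain ⟨r', rfl⟩ : ∃ r', r = r' + 1 := ⟨r - 1, by omega⟩
      rw [Nat.add_sub_cancel]
      exact homogeneousComponent_mul_of_homogeneous hl p r'
    rw [h4, map_add, map_add, h5 _ _ h0, h5 _ _ h1] at h3
    rw [h3]
    have h6 : homogeneousComponent (r - 1) a * l₀ +
        (homogeneousComponent (r - 1) b * l₁ + homogeneousComponent r g) -
        (homogeneousComponent (r - 1) a * l₀ + homogeneousComponent (r - 1) b * l₁) =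
        homogeneousComponent r g := by ring
    rw [h6]
    exact hhom g hg r

end Pool.Agent.Helper30.RED

end
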