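import Pool.Agent.Helper29.MG2.T17
import Pool.Agent.Helper29.MG2.T08
import Pool.Agent.Helper29.MG2.T13
import Pool.Agent.Helper29.MG2.T22

section

/-!
# Points on a complex curve: any three linear forms are dependent
-/

set_option autoImplicit false

namespace Pool.Agent.Helper38.TQ

open MvPolynomial

variable {ν : ℕ}

/-- the Nullstellensatz for a curve -/
theorem dim_null {S : Set (MvPolynomial (Fin (ν + 1)) ℂ)} (hS : ∀ g ∈ S, ∃ e, g.IsHomogeneous e)
    {l₀ l₁ : MvPolynomial (Fin (ν + 1)) ℂ} (h0 : l₀.IsHomogeneous 1) (h1 : l₁.IsHomogeneous 1)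
    (hno : ∀ z : Fin (ν + 1) → ℂ, (∀ g ∈ S, eval z g = 0) → eval z l₀ = 0 → eval z l₁ = 0 →
      z = 0) :
    ∃ (s : ℕ) (A B : Fin (ν + 1) → MvPolynomial (Fin (ν + 1)) ℂ),
      (∀ j, (A j).IsHomogeneous s) ∧ (∀ j, (B j).IsHomogeneous s) ∧
      ∀ j, ∀ z : Fin (ν + 1) → ℂ, (∀ g ∈ S, eval z g = 0) →
        z j ^ (s + 1) = eval z (A j) * eval z l₀ + eval z (B j) * eval z l₁ := by
  classical
  have h2 : ∀ j : Fin (ν + 1), ∃ r : ℕ, (X j : MvPolynomial (Fin (ν + 1)) ℂ) ^ r ∈
      Ideal.span (insert l₀ (insert l₁ S)) := by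
    intro j
    have h3 : (X j : MvPolynomial (Fin (ν + 1)) ℂ) ∈
        (Ideal.span (insert l₀ (insert l₁ S))).radical := by
      rw [← vanishingIdeal_zeroLocus_eq_radical (K := ℂ)]
      rw [mem_vanishingIdeal_iff]
      intro z hz
      rw [mem_zeroLocus_iff] at hz
      have h4 : z = 0 := by
        refine hno z (fun g hg => ?_) ?_ ?_
        · have := hz g (Ideal.subset_span (Set.mem_insert_of_mem _ (Set.mem_insert_of_mem _ hg)))
          exact this
        · have := hz l₀ (Ideal.subset_span (Set.mem_insert _ _))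
          exact this
        · have := hz l₁ (Ideal.subset_span (Set.mem_insert_of_mem _ (Set.mem_insert _ _)))
          exact this
      rw [h4]
      simp
    exact h3
  choose r hr using h2
  set s : ℕ := ∑ k, r k with hs
  have h3 : ∀ j, (X j : MvPolynomial (Fin (ν + 1)) ℂ) ^ (s + 1) ∈
      Ideal.span (insert l₀ (insert l₁ S)) := by
    intro j
    refine Ideal.mem_of_dvd _ (pow_dvd_pow _ ?_) (hr j)
    have : r j ≤ s := Finset.single_le_sum (f := r) (fun _ _ => Nat.zero_le _) (Finset.mem_univ j)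
    omega
  have h4 : ∀ j, ∃ (A B : MvPolynomial (Fin (ν + 1)) ℂ), A.IsHomogeneous s ∧ B.IsHomogeneous s ∧
      ∀ z : Fin (ν + 1) → ℂ, (∀ g ∈ S, eval z g = 0) →
        z j ^ (s + 1) = eval z A * eval z l₀ + eval z B * eval z l₁ := by
    intro j
    obtain ⟨A, w, hw, hAw⟩ := Ideal.mem_span_insert.1 (h3 j)
    obtain ⟨B, v, hv, hBv⟩ := Ideal.mem_span_insert.1 hw
    refine ⟨homogeneousComponent s A, homogeneousComponent s B,
      homogeneousComponent_isHomogeneous _ _, homogeneousComponent_isHomogeneous _ _, ?_⟩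
    intro z hz
    have h5 := congrArg (homogeneousComponent (s + 1)) hAw
    rw [hBv, map_add, map_add, Pool.Agent.Helper36.homogeneousComponent_mul_of_homogeneous h0,
      Pool.Agent.Helper36.homogeneousComponent_mul_of_homogeneous h1,
      homogeneousComponent_eq_self (isHomogeneous_X_pow j _)] at h5
    have h6 : ∀ v ∈ Ideal.span S, ∀ n, eval z (homogeneousComponent n v) = 0 := by
      intro v hv
      refine Submodule.span_induction (p := fun v _ => ∀ n, eval z (homogeneousComponent n v) = 0)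
        ?_ ?_ ?_ ?_ hv
      · intro g hg n
        obtain ⟨e, he⟩ := hS g hg
        rw [homogeneousComponent_of_mem he]
        split_ifs
        · exact hz g hg
        · exact map_zero _
      · intro n
        rw [map_zero, map_zero]
      · intro a b _ _ ha hb n
        rw [map_add, map_add, ha, hb, add_zero]
      · intro a b _ hb n
        rw [smul_eq_mul]
        have h7 : homogeneousComponent n (a * b) =
            ∑ p ∈ Finset.range (b.totalDegree + 1), homogeneousComponent n
              (a * homogeneousComponent p b) := by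
          rw [← map_sum, ← Finset.mul_sum, sum_homogeneousComponent]
        rw [h7, map_sum]
        refine Finset.sum_eq_zero fun p _ => ?_
        by_cases hp : p ≤ n
        · obtain ⟨t, rfl⟩ := Nat.exists_eq_add_of_le' hp
          rw [Pool.Agent.Helper36.homogeneousComponent_mul_of_homogeneous
            (homogeneousComponent_isHomogeneous p b), map_mul, hb, mul_zero]
        · have h8 : homogeneousComponent n (a * homogeneousComponent p b) = 0 := by
            have h9 : a * homogeneousComponent p b =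
                ∑ q ∈ Finset.range (a.totalDegree + 1),
                  homogeneousComponent q a * homogeneousComponent p b := by
              rw [← Finset.sum_mul, sum_homogeneousComponent]
            rw [h9, map_sum]
            refine Finset.sum_eq_zero fun q _ => ?_
            rw [homogeneousComponent_of_mem ((homogeneousComponent_isHomogeneous q a).mul
              (homogeneousComponent_isHomogeneous p b)), if_neg (by omega)]
          rw [h8, map_zero]
    have h7 := congrArg (eval z) h5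
    rw [map_add, map_add, map_mul, map_mul, h6 v hv, add_zero, map_pow, eval_X] at h7
    exact h7
  choose A B hA hB h using h4
  exact ⟨s, A, B, hA, hB, h⟩

/-- forms of large degree on a curve -/
theorem dim_reduce {S : Set (MvPolynomial (Fin (ν + 1)) ℂ)} {l₀ l₁ : MvPolynomial (Fin (ν + 1)) ℂ}
    {s : ℕ} {A B : Fin (ν + 1) → MvPolynomial (Fin (ν + 1)) ℂ}
    (hA : ∀ j, (A j).IsHomogeneous s) (hB : ∀ j, (B j).IsHomogeneous s)
    (h : ∀ j, ∀ z : Fin (ν + 1) → ℂ, (∀ g ∈ S, eval z g = 0) →
        z j ^ (s + 1) = eval z (A j) * eval z l₀ + eval z (B j) * eval z l₁)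
    {M : ℕ} (hM : (ν + 1) * (s + 1) ≤ M + 1) (P : MvPolynomial (Fin (ν + 1)) ℂ)
    (hP : P.IsHomogeneous (M + 1)) :
    ∃ Q₀ Q₁ : MvPolynomial (Fin (ν + 1)) ℂ, Q₀.IsHomogeneous M ∧ Q₁.IsHomogeneous M ∧
      ∀ z : Fin (ν + 1) → ℂ, (∀ g ∈ S, eval z g = 0) →
        eval z P = eval z l₀ * eval z Q₀ + eval z l₁ * eval z Q₁ := by
  classical
  -- monomials
  have key : ∀ u : Fin (ν + 1) →₀ ℕ, u.degree = M + 1 →
      ∃ Q₀ Q₁ : MvPolynomial (Fin (ν + 1)) ℂ, Q₀.IsHomogeneous M ∧ Q₁.IsHomogeneous M ∧
      ∀ z : Fin (ν + 1) → ℂ, (∀ g ∈ S, eval z g = 0) →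
        eval z (monomial u (1 : ℂ)) = eval z l₀ * eval z Q₀ + eval z l₁ * eval z Q₁ := by
    intro u hu
    obtain ⟨j, hj⟩ : ∃ j, s + 1 ≤ u j := by
      by_contra hcon
      push Not at hcon
      have h1 : u.degree = ∑ j, u j := Finsupp.degree_eq_sum u
      have h2 : ∑ j, u j < ∑ _j : Fin (ν + 1), (s + 1) :=
        Finset.sum_lt_sum_of_nonempty Finset.univ_nonempty fun j _ => hcon j
      rw [Finset.sum_const, Finset.card_univ, Fintype.card_fin, smul_eq_mul] at h2
      omega
    set w : Fin (ν + 1) →₀ ℕ := u - Finsupp.single j (s + 1) with hw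
    have hle : Finsupp.single j (s + 1) ≤ u := by
      rw [Finsupp.single_le_iff]; exact hj
    have huw : u = w + Finsupp.single j (s + 1) := (tsub_add_cancel_of_le hle).symm
    have hwd : w.degree + s = M := by
      have := congrArg Finsupp.degree huw
      rw [map_add, Finsupp.degree_single, hu] at this
      omega
    have hwh : (monomial w (1 : ℂ)).IsHomogeneous w.degree := isHomogeneous_monomial _ rfl
    refine ⟨monomial w 1 * A j, monomial w 1 * B j, ?_, ?_, ?_⟩
    · have := hwh.mul (hA j)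
      rwa [hwd] at this
    · have := hwh.mul (hB j)
      rwa [hwd] at this
    · intro z hz
      have h1 : (monomial u (1 : ℂ)) = monomial w 1 * X j ^ (s + 1) := by
        rw [X_pow_eq_monomial, monomial_mul, one_mul, ← huw]
      rw [h1, map_mul, map_pow, eval_X, h j z hz, map_mul, map_mul]
      ring
  choose! Q₀ Q₁ hQ₀ hQ₁ hQ using key
  refine ⟨∑ u ∈ P.support, C (coeff u P) * Q₀ u, ∑ u ∈ P.support, C (coeff u P) * Q₁ u, ?_, ?_, ?_⟩
  · refine IsHomogeneous.sum _ _ _ fun u hu => ?_
    have hud : u.degree = M + 1 := by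
      by_contra hc
      exact (mem_support_iff.1 hu) (hP.coeff_eq_zero hc)
    have := (isHomogeneous_C (Fin (ν + 1)) (coeff u P)).mul (hQ₀ u hud)
    rwa [zero_add] at this
  · refine IsHomogeneous.sum _ _ _ fun u hu => ?_
    have hud : u.degree = M + 1 := by
      by_contra hc
      exact (mem_support_iff.1 hu) (hP.coeff_eq_zero hc)
    have := (isHomogeneous_C (Fin (ν + 1)) (coeff u P)).mul (hQ₁ u hud)
    rwa [zero_add] at this
  · intro z hz
    conv_lhs => rw [P.as_sum]
    rw [map_sum, map_sum, map_sum, Finset.mul_sum, Finset.mul_sum, ← Finset.sum_add_distrib]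
    refine Finset.sum_congr rfl fun u hu => ?_
    have hud : u.degree = M + 1 := by
      by_contra hc
      exact (mem_support_iff.1 hu) (hP.coeff_eq_zero hc)
    have h1 : (monomial u (coeff u P)) = C (coeff u P) * monomial u (1 : ℂ) := by
      rw [C_mul_monomial, mul_one]
    rw [h1, map_mul, hQ u hud z hz, map_mul, map_mul, eval_C]
    ring

/-- iterated reduction -/
theorem dim_expand {S : Set (MvPolynomial (Fin (ν + 1)) ℂ)} {l₀ l₁ : MvPolynomial (Fin (ν + 1)) ℂ}
    {s : ℕ} {A B : Fin (ν + 1) → MvPolynomial (Fin (ν + 1)) ℂ}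
    (hA : ∀ j, (A j).IsHomogeneous s) (hB : ∀ j, (B j).IsHomogeneous s)
    (h : ∀ j, ∀ z : Fin (ν + 1) → ℂ, (∀ g ∈ S, eval z g = 0) →
        z j ^ (s + 1) = eval z (A j) * eval z l₀ + eval z (B j) * eval z l₁)
    (r : ℕ) : ∀ P : MvPolynomial (Fin (ν + 1)) ℂ, P.IsHomogeneous ((ν + 1) * (s + 1) + r) →
    ∃ G : ℕ → MvPolynomial (Fin (ν + 1)) ℂ, (∀ i, (G i).IsHomogeneous ((ν + 1) * (s + 1))) ∧
      ∀ z : Fin (ν + 1) → ℂ, (∀ g ∈ S, eval z g = 0) →
        eval z P = ∑ i ∈ Finset.range (r + 1),
          eval z l₀ ^ i * eval z l₁ ^ (r - i) * eval z (G i) := by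
  induction r with
  | zero =>
    intro P hP
    exact ⟨fun _ => P, fun _ => hP, fun z _ => by simp⟩
  | succ r ih =>
    intro P hP
    obtain ⟨Q₀, Q₁, hQ₀, hQ₁, hQ⟩ := dim_reduce hA hB h
      (M := (ν + 1) * (s + 1) + r) (by omega) P hP
    obtain ⟨G, hG, hG'⟩ := ih Q₀ hQ₀
    obtain ⟨G₁, hG₁, hG₁'⟩ := ih Q₁ hQ₁
    refine ⟨fun i => (if i = 0 then 0 else G (i - 1)) + (if i ≤ r then G₁ i else 0), ?_, ?_⟩
    · intro i
      refine IsHomogeneous.add ?_ ?_
      · split_ifs
        · exact isHomogeneous_zero _ _ _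
        · exact hG _
      · split_ifs
        · exact hG₁ _
        · exact isHomogeneous_zero _ _ _
    · intro z hz
      rw [hQ z hz, hG' z hz, hG₁' z hz]
      simp only [map_add, mul_add, Finset.sum_add_distrib]
      congr 1
      · rw [Finset.sum_range_succ' _ (r + 1)]
        simp only [if_true, map_zero, mul_zero, add_zero]
        rw [Finset.mul_sum]
        refine Finset.sum_congr rfl fun i hi => ?_
        rw [if_neg (Nat.succ_ne_zero i), Nat.add_sub_cancel, Nat.add_sub_add_right]
        ring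
      · rw [Finset.sum_range_succ _ (r + 1)]
        rw [if_neg (by omega), map_zero, mul_zero, add_zero, Finset.mul_sum]
        refine Finset.sum_congr rfl fun i hi => ?_
        have hi' : i ≤ r := by
          have := Finset.mem_range.1 hi; omega
        rw [if_pos hi', Nat.succ_sub hi', pow_succ]
        ring

theorem onCurve {K : Type} [Field K] [Algebra K ℂ] {x : ℕ → Fin (ν + 1) → K} {U : Ultrafilter ℕ}
    {S : Set (MvPolynomial (Fin (ν + 1)) ℂ)} (hS : ∀ g ∈ S, ∃ e, g.IsHomogeneous e)
    {l₀ l₁ : MvPolynomial (Fin (ν + 1)) ℂ} (h0 : l₀.IsHomogeneous 1) (h1 : l₁.IsHomogeneous 1)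
    (hno : ∀ z : Fin (ν + 1) → ℂ, (∀ g ∈ S, eval z g = 0) → eval z l₀ = 0 → eval z l₁ = 0 →
      z = 0)
    (hU : ∀ᶠ n in (U : Filter ℕ), ∀ g ∈ S, eval (fun i => algebraMap K ℂ (x n i)) g = 0) :
    OnCurve U x := by
  classical
  intro m
  obtain ⟨s, A, B, hA, hB, h⟩ := dim_null hS h0 h1 hno
  set M0 : ℕ := (ν + 1) * (s + 1) with hM0
  -- forms of degree `M0`
  have hfin : FiniteDimensional ℂ (homogeneousSubmodule (Fin (ν + 1)) ℂ M0) := by
    have hle : homogeneousSubmodule (Fin (ν + 1)) ℂ M0 ≤ restrictTotalDegree (Fin (ν + 1)) ℂ M0 := by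
      intro p hp
      rw [mem_restrictTotalDegree]
      exact ((mem_homogeneousSubmodule _ _).1 hp).totalDegree_le
    have hf : FiniteDimensional ℂ (restrictTotalDegree (Fin (ν + 1)) ℂ M0) := by
      infer_instance
    exact Submodule.finiteDimensional_of_le hle
  set D : ℕ := Module.finrank ℂ (homogeneousSubmodule (Fin (ν + 1)) ℂ M0) with hD
  set r : ℕ := 2 * D with hr
  -- the points of the curve
  let Z : Type := {z : Fin (ν + 1) → ℂ // ∀ g ∈ S, eval z g = 0}
  let Φ : (Fin (r + 1) → homogeneousSubmodule (Fin (ν + 1)) ℂ M0) →ₗ[ℂ] (Z → ℂ) :=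
    { toFun := fun G z => ∑ i : Fin (r + 1), eval z.1 l₀ ^ (i : ℕ) * eval z.1 l₁ ^ (r - i) *
        eval z.1 (G i).1
      map_add' := by
        intro G G'
        funext z
        simp only [Pi.add_apply, Submodule.coe_add, map_add, mul_add, Finset.sum_add_distrib]
      map_smul' := by
        intro c G
        funext z
        simp only [Pi.smul_apply, Submodule.coe_smul, smul_eval, RingHom.id_apply, smul_eq_mul,
          Finset.mul_sum]
        refine Finset.sum_congr rfl fun i _ => ?_
        ring }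
  let mf : Fin 3 → MvPolynomial (Fin (ν + 1)) ℂ := fun j => ∑ i, C (algebraMap K ℂ (m j i)) * X i
  have hmf : ∀ j, (mf j).IsHomogeneous 1 := by
    intro j
    refine IsHomogeneous.sum _ _ _ fun i _ => ?_
    have := (isHomogeneous_C (Fin (ν + 1)) (algebraMap K ℂ (m j i))).mul
      (isHomogeneous_X ℂ i)
    rwa [zero_add] at this
  let Ψ : homogeneousSubmodule (Fin 3) ℂ (M0 + r) →ₗ[ℂ] (Z → ℂ) :=
    { toFun := fun G z => eval (fun j => eval z.1 (mf j)) G.1
      map_add' := by
        intro G G'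
        funext z
        simp only [Pi.add_apply, Submodule.coe_add, map_add]
      map_smul' := by
        intro c G
        funext z
        simp only [Pi.smul_apply, Submodule.coe_smul, smul_eval, RingHom.id_apply, smul_eq_mul] }
  have hrange : ∀ G, Ψ G ∈ LinearMap.range Φ := by
    intro G
    have hhom : (bind₁ mf G.1).IsHomogeneous (M0 + r) := by
      have h1 := ((mem_homogeneousSubmodule _ _).1 G.2).aeval mf hmf
      rw [one_mul] at h1
      exact h1
    obtain ⟨Q, hQ, hQ'⟩ := dim_expand hA hB h r (bind₁ mf G.1) hhom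
    refine ⟨fun i => ⟨Q i, (mem_homogeneousSubmodule _ _).2 (hQ i)⟩, ?_⟩
    funext z
    have h2 := hQ' z.1 z.2
    change ∑ i : Fin (r + 1), eval z.1 l₀ ^ (i : ℕ) * eval z.1 l₁ ^ (r - i) *
        eval z.1 (Q i) = eval (fun j => eval z.1 (mf j)) G.1
    rw [← Fin.sum_univ_eq_sum_range (fun i => eval z.1 l₀ ^ i * eval z.1 l₁ ^ (r - i) *
        eval z.1 (Q i)) (r + 1)] at h2
    rw [← h2]
    have h3 : eval z.1 (bind₁ mf G.1) = eval (fun j => eval z.1 (mf j)) G.1 := by
      have := eval₂Hom_bind₁ (RingHom.id ℂ) z.1 mf G.1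
      exact this
    exact h3
  obtain ⟨hfin3, hdim3⟩ := Pool.Agent.Helper30.TP.finrank_forms ℂ (M0 + r)
  have hninj : ¬ Function.Injective Ψ := by
    intro hinj
    have h1 : Function.Injective (Ψ.codRestrict (LinearMap.range Φ) hrange) := by
      intro a b hab
      apply hinj
      exact congrArg Subtype.val hab
    have hfr : FiniteDimensional ℂ (LinearMap.range Φ) := by infer_instance
    have h2 := LinearMap.finrank_le_finrank_of_injective h1
    have h3 : Module.finrank ℂ (LinearMap.range Φ) ≤ (r + 1) * D := by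
      refine (LinearMap.finrank_range_le Φ).trans ?_
      rw [Module.finrank_pi_fintype]
      simp [hD]
    rw [hdim3] at h2
    have h4 : (r + 2).choose 2 ≤ (M0 + r + 2).choose 2 := Nat.choose_le_choose 2 (by omega)
    have h5 : (r + 2).choose 2 * 2 = (r + 2) * (r + 1) := by
      rw [Nat.choose_two_right, Nat.div_mul_cancel]
      · rfl
      · exact (Nat.even_mul_pred_self (r + 2)).two_dvd
    have h6 : (r + 2) * (r + 1) ≤ 2 * ((r + 1) * D) := by
      calc (r + 2) * (r + 1) = (r + 2).choose 2 * 2 := h5.symm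
        _ ≤ ((r + 1) * D) * 2 := by
            apply Nat.mul_le_mul_right
            omega
        _ = _ := by ring
    have h7 : (r + 2) * (r + 1) = 2 * ((r + 1) * D) + 2 * (r + 1) := by
      rw [hr]; ring
    omega
  obtain ⟨G, hG, hG0⟩ : ∃ G, Ψ G = 0 ∧ G ≠ 0 := by
    rw [← LinearMap.ker_eq_bot, Submodule.eq_bot_iff] at hninj
    push Not at hninj
    obtain ⟨G, hG, hG0⟩ := hninj
    exact ⟨G, LinearMap.mem_ker.1 hG, hG0⟩
  obtain ⟨g, hg⟩ := G
  have hg0 : g ≠ 0 := by
    rintro rfl
    exact hG0 rfl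
  have hgh : g.IsHomogeneous (M0 + r) := (mem_homogeneousSubmodule _ _).1 hg
  -- a form over `K`
  obtain ⟨ℓ, hℓ⟩ : ∃ ℓ : ℂ →ₗ[K] K, Pool.Agent.Helper30.TP.lam ℓ g ≠ 0 := by
    obtain ⟨t, ht⟩ := Pool.Agent.Helper30.TP.ultra_expand (Module.Basis.ofVectorSpace K ℂ) g
    by_contra hcon
    push Not at hcon
    apply hg0
    rw [ht]
    apply Finset.sum_eq_zero
    intro l _
    rw [hcon, map_zero, mul_zero]
  refine ⟨Pool.Agent.Helper30.TP.lam ℓ g, M0 + r, Pool.Agent.Helper30.TP.ultra_lam_hom ℓ hgh, hℓ, ?_⟩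
  filter_upwards [hU] with n hn
  rw [Pool.Agent.Helper30.TP.ultra_eval_lam]
  have h2 : eval (fun j => eval (fun i => algebraMap K ℂ (x n i)) (mf j)) g = 0 :=
    congrFun hG ⟨fun i => algebraMap K ℂ (x n i), hn⟩
  have h3 : (fun j => algebraMap K ℂ (∑ i, m j i * x n i)) =
      fun j => eval (fun i => algebraMap K ℂ (x n i)) (mf j) := by
    funext j
    simp only [mf, map_sum, map_mul, eval_C, eval_X]
  rw [h3, h2, map_zero]

end Pool.Agent.Helper38.TQ

end

section

/-!
# Closed sets of dimension at most one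
-/

set_option autoImplicit false

namespace Pool.Agent.Helper38.TQ

open MvPolynomial

variable {ν : ℕ}

/-- The sequences of points over subfields of `ℂ` in the closed set lie on curves. -/
def CurveSet (S : Set (MvPolynomial (Fin (ν + 1)) ℂ)) : Prop :=
  ∀ (K : Type) [Field K] [Algebra K ℂ] (y : ℕ → Fin (ν + 1) → K) (U : Ultrafilter ℕ),
    (∀ᶠ n in (U : Filter ℕ), ∀ g ∈ S, eval (fun i => algebraMap K ℂ (y n i)) g = 0) →
      OnCurve U y

theorem curveSet_of_forms {S : Set (MvPolynomial (Fin (ν + 1)) ℂ)}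
    (hS : ∀ g ∈ S, ∃ e, g.IsHomogeneous e)
    {l₀ l₁ : MvPolynomial (Fin (ν + 1)) ℂ} (h0 : l₀.IsHomogeneous 1) (h1 : l₁.IsHomogeneous 1)
    (hno : ∀ z : Fin (ν + 1) → ℂ, (∀ g ∈ S, eval z g = 0) → eval z l₀ = 0 → eval z l₁ = 0 →
      z = 0) : CurveSet S :=
  fun _ _ _ _ _ hU => onCurve hS h0 h1 hno hU

/-- Homogeneous relations between three linear forms on a cone of dimension at most two. -/
theorem exists_relation_linear {S : Set (MvPolynomial (Fin (ν + 1)) ℂ)}
    (hS : ∀ g ∈ S, ∃ e, g.IsHomogeneous e)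
    (hdim : ringKrullDim (MvPolynomial (Fin (ν + 1)) ℂ ⧸ Ideal.span S) ≤ 2)
    (c : Fin 3 → Fin (ν + 1) → ℂ) :
    ∃ (e : ℕ) (Q : MvPolynomial (Fin 3) ℂ), Q.IsHomogeneous e ∧ Q ≠ 0 ∧
      ∀ x : Fin (ν + 1) → ℂ, (∀ g ∈ S, eval x g = 0) →
        eval (fun j => ∑ i, c j i * x i) Q = 0 := by
  classical
  obtain ⟨Q, hQ0, hQ⟩ := Pool.Agent.Helper36.exists_relation_radical (Ideal.span S) hdim
    (fun j => ∑ i, C (c j i) * X i)
  have hvan : ∀ x : Fin (ν + 1) → ℂ, (∀ g ∈ S, eval x g = 0) →
      eval (fun j => ∑ i, c j i * x i) Q = 0 := by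
    intro x hx
    obtain ⟨n, hn⟩ := hQ
    have hspan : ∀ g ∈ Ideal.span S, eval x g = 0 := by
      intro g hg
      induction hg using Submodule.span_induction with
      | mem g hg => exact hx g hg
      | zero => rw [map_zero]
      | add a b _ _ ha hb => rw [map_add, ha, hb, add_zero]
      | smul a b _ hb => rw [smul_eq_mul, map_mul, hb, mul_zero]
    have h1 := hspan _ hn
    rw [map_pow] at h1
    have h2 := eq_zero_of_pow_eq_zero h1
    have h3 : ∀ Q : MvPolynomial (Fin 3) ℂ, eval x (aeval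
        (fun j => (∑ i, C (c j i) * X i : MvPolynomial (Fin (ν + 1)) ℂ)) Q) =
        eval (fun j => ∑ i, c j i * x i) Q := by
      intro Q
      induction Q using MvPolynomial.induction_on with
      | C a => simp
      | add p q hp hq => simp only [map_add, hp, hq]
      | mul_X p i hp =>
        rw [map_mul, map_mul, map_mul, hp, aeval_X, eval_X]
        congr 1
        simp
    rwa [h3] at h2
  obtain ⟨e, he⟩ : ∃ e, homogeneousComponent e Q ≠ 0 := by
    by_contra hcon
    push Not at hcon
    apply hQ0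
    rw [← sum_homogeneousComponent Q]
    exact Finset.sum_eq_zero fun i _ => hcon i
  refine ⟨e, _, homogeneousComponent_isHomogeneous e Q, he, fun x hx => ?_⟩
  set v : Fin 3 → ℂ := fun j => ∑ i, c j i * x i with hv
  set R : Polynomial ℂ := ∑ i ∈ Finset.range (Q.totalDegree + 1),
    Polynomial.C (eval v (homogeneousComponent i Q)) * Polynomial.X ^ i with hR
  have hR0 : R = 0 := by
    apply Polynomial.zero_of_eval_zero
    intro l
    have h1 : eval (fun i => l * v i) Q = 0 := by
      have h2 := hvan (fun i => l * x i) (by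
        intro g hg
        obtain ⟨n, hn⟩ := hS g hg
        have h3 := eval_smul_hom hn l x
        rw [hx g hg, mul_zero] at h3
        exact h3)
      rw [← h2]
      congr 2
      funext j
      rw [hv]
      simp only [Finset.mul_sum]
      refine Finset.sum_congr rfl fun i _ => ?_
      ring
    rw [← sum_homogeneousComponent Q, map_sum] at h1
    rw [hR, Polynomial.eval_finsetSum, ← h1]
    refine Finset.sum_congr rfl fun i _ => ?_
    have h4 : eval (fun i => l * v i) (homogeneousComponent i Q) =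
        l ^ i * eval v (homogeneousComponent i Q) :=
      eval_smul_hom (ν := 2) (homogeneousComponent_isHomogeneous i Q) l v
    rw [h4, Polynomial.eval_mul, Polynomial.eval_C, Polynomial.eval_pow, Polynomial.eval_X,
      mul_comm]
  have hcoef := congrArg (fun p => p.coeff e) hR0
  simp only [hR, Polynomial.finsetSum_coeff, Polynomial.coeff_C_mul_X_pow,
    Polynomial.coeff_zero] at hcoef
  rw [Finset.sum_ite_eq] at hcoef
  split_ifs at hcoef with h
  · exact hcoef
  · rw [homogeneousComponent_eq_zero, map_zero]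
    rw [Finset.mem_range] at h
    omega

/-- Closed sets of dimension at most one (Krull dimension of the cone at most two). -/
theorem curveSet_of_krull {S : Set (MvPolynomial (Fin (ν + 1)) ℂ)}
    (hS : ∀ g ∈ S, ∃ e, g.IsHomogeneous e)
    (hdim : ringKrullDim (MvPolynomial (Fin (ν + 1)) ℂ ⧸ Ideal.span S) ≤ 2) : CurveSet S := by
  intro K _ _ y U hU m
  obtain ⟨e, Q, hQ, hQ0, hQv⟩ := exists_relation_linear hS hdim
    (fun j i => algebraMap K ℂ (m j i))
  obtain ⟨ρ, hρ⟩ := Pool.Agent.Helper36.exists_mapLin_ne_zero (K := K) hQ0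
  refine ⟨_, e, Pool.Agent.Helper36.mapLin_isHomogeneous ρ hQ, hρ, ?_⟩
  filter_upwards [hU] with n hn
  rw [Pool.Agent.Helper36.eval_mapLin]
  have h1 := hQv _ hn
  have h2 : (fun j => algebraMap K ℂ (∑ i, m j i * y n i)) =
      fun j => ∑ i, algebraMap K ℂ (m j i) * algebraMap K ℂ (y n i) := by
    funext j
    rw [map_sum]
    exact Finset.sum_congr rfl fun i _ => map_mul _ _ _
  rw [h2, h1, map_zero]

end Pool.Agent.Helper38.TQ

end

section

namespace Pool.Agent.Helper16
end Pool.Agent.Helper16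
namespace Pool.Agent.Helper30.TP
end Pool.Agent.Helper30.TP

/-!
# Function fields generated by complex points
-/

set_option autoImplicit false

namespace Pool.Agent.Helper38.TQ

open MvPolynomial
open Pool.Agent.Helper16 (Place IsFunctionField)
open Pool.Agent.Helper30.TP (emb_mem_range emb_isAlgebraic emb_trdeg_le)

variable {ν : ℕ}

theorem emb_alg_map {R S L : Type} [CommRing R] [CommRing S] [Field L] [Algebra R L] [Algebra S L]
    (f : R →+* S) (hf : Function.Injective f) (hfc : ∀ r, algebraMap S L (f r) = algebraMap R L r)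
    {x : L} (h : IsAlgebraic R x) : IsAlgebraic S x := by
  obtain ⟨p, hp0, hp⟩ := h
  refine ⟨p.map f, (Polynomial.map_ne_zero_iff hf).2 hp0, ?_⟩
  rw [Polynomial.aeval_def, Polynomial.eval₂_map]
  have h1 : (algebraMap S L).comp f = algebraMap R L := RingHom.ext hfc
  rw [h1, ← Polynomial.aeval_def, hp]

theorem emb_const_of_range {k : Type} [Field k] [Algebra k ℂ] {v : Fin (ν + 1) → ℂ}
    (h : ∀ j, ∃ c : k, algebraMap k ℂ c = v j) : IsConst k v := by
  choose z hz using h
  refine ⟨z, 1, one_ne_zero, ?_⟩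
  funext i
  rw [hz, one_mul]

theorem emb_range_of_const {k : Type} [Field k] [Algebra k ℂ] {v : Fin (ν + 1) → ℂ}
    {i₀ : Fin (ν + 1)} (hv : v i₀ = 1) (h : IsConst k v) (j : Fin (ν + 1)) :
    ∃ c : k, algebraMap k ℂ c = v j := by
  obtain ⟨z, c, hc, hx⟩ := h
  have h1 : c * algebraMap k ℂ (z i₀) = 1 := by rw [← hv, hx]
  have h2 : c = (algebraMap k ℂ (z i₀))⁻¹ := eq_inv_of_mul_eq_one_left h1
  refine ⟨(z i₀)⁻¹ * z j, ?_⟩
  rw [map_mul, map_inv₀, ← h2, hx]

open IntermediateField.algebraAdjoinAdjoin in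
theorem emb_transc_adjoin {k : Type} [Field k] [Algebra k ℂ] {T : Set ℂ}
    (hT : AlgebraicIndependent k ((↑) : T → ℂ)) {t : ℂ} (ht : t ∈ T) :
    Transcendental (IntermediateField.adjoin k (T \ {t})) t := by
  have h1 : Transcendental (Algebra.adjoin k (((↑) : T → ℂ) '' {y | y ≠ ⟨t, ht⟩})) t := by
    have := hT.transcendental_adjoin (s := {y | y ≠ ⟨t, ht⟩}) (i := ⟨t, ht⟩) (fun h => h rfl)
    exact this
  have h2 : ((↑) : T → ℂ) '' {y | y ≠ ⟨t, ht⟩} = T \ {t} := by
    ext y
    constructor
    · rintro ⟨z, hz, rfl⟩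
      refine ⟨z.2, fun h => hz (Subtype.ext h)⟩
    · rintro ⟨h3, h4⟩
      exact ⟨⟨y, h3⟩, fun h => h4 (congrArg Subtype.val h), rfl⟩
  rw [h2] at h1
  intro h
  apply h1
  exact (IsFractionRing.isAlgebraic_iff (Algebra.adjoin k (T \ {t}))
    (IntermediateField.adjoin k (T \ {t})) ℂ).2 h

/-- A maximal algebraically independent family of coordinates. -/
theorem emb_basis {k : Type} [Field k] [Algebra k ℂ] (s : Set ℂ) :
    ∃ T : Set ℂ, T ⊆ s ∧ AlgebraicIndependent k ((↑) : T → ℂ) ∧
      ∀ x ∈ s, IsAlgebraic (Algebra.adjoin k T) x := by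
  obtain ⟨T, -, hT⟩ := exists_maximal_algebraicIndependent (R := k) (A := ℂ) ∅ s
    (Set.empty_subset _)
    ((algebraicIndependent_empty_iff ..).mpr <| FaithfulSMul.algebraMap_injective k ℂ)
  refine ⟨T, hT.1.2, hT.1.1, ?_⟩
  intro x hx
  by_contra hno
  have h1 : AlgebraicIndepOn k id (insert x T) := by
    apply hT.1.1.insert
    rw [Set.image_id]
    exact hno
  have h2 : insert x T ⊆ T := hT.2 ⟨h1, Set.insert_subset hx hT.1.2⟩ (Set.subset_insert _ _)
  apply hno
  exact isAlgebraic_algebraMap (⟨x, Algebra.subset_adjoin (h2 (Set.mem_insert _ _))⟩ :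
    Algebra.adjoin k T)

/-- Over a suitable algebraically closed extension of `k` the coordinates of the point generate a
function field of one variable. -/
theorem exists_function_field {k : Type} [Field k] [IsAlgClosed k] [Algebra k ℂ]
    (v : Fin (ν + 1) → ℂ) (i₀ : Fin (ν + 1)) (hv : v i₀ = 1) (hvc : ¬ IsConst k v) :
    ∃ (k' : Type) (_ : Field k') (_ : IsAlgClosed k') (_ : Algebra k k') (_ : Algebra k' ℂ),
      IsScalarTower k k' ℂ ∧ ¬ IsConst k' v ∧
        IsFunctionField k' (IntermediateField.adjoin k' (Set.range v)) := by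
  obtain ⟨T, hTs, hTi, hTa⟩ := emb_basis (k := k) (Set.range v)
  have hne : T.Nonempty := by
    by_contra hempty
    rw [Set.not_nonempty_iff_eq_empty] at hempty
    apply hvc
    apply emb_const_of_range
    intro j
    apply emb_mem_range
    have h1 := hTa (v j) ⟨j, rfl⟩
    rw [hempty, Algebra.adjoin_empty] at h1
    exact h1.restrictScalars k
  obtain ⟨t, ht⟩ := hne
  obtain ⟨j₁, hj₁⟩ := hTs ht
  let K0 := IntermediateField.adjoin k (T \ {t})
  let K' := algebraicClosure K0 ℂ
  have : IsAlgClosed K' := IsAlgClosure.isAlgClosed K0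
  have htow : IsScalarTower k K' ℂ := IsScalarTower.of_algebraMap_eq (fun _ => rfl)
  have htr : Transcendental K' t := by
    intro h
    exact emb_transc_adjoin hTi ht (h.restrictScalars K0)
  refine ⟨K', inferInstance, inferInstance, inferInstance, inferInstance, htow, ?_, ?_, ?_⟩
  · intro h
    obtain ⟨c, hc⟩ := emb_range_of_const hv h j₁
    apply htr
    rw [← hj₁, ← hc]
    exact isAlgebraic_algebraMap c
  · exact IntermediateField.essFiniteType_iff.2
      (IntermediateField.fg_adjoin_of_finite (Set.finite_range v))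
  · apply le_antisymm
    · let A1 := IntermediateField.adjoin K' ({t} : Set ℂ)
      let A2 := algebraicClosure A1 ℂ
      have htow2 : IsScalarTower K' A1 A2 := IsScalarTower.of_algebraMap_eq (fun _ => rfl)
      have htr2 : Algebra.trdeg K' A2 ≤ 1 := by
        rw [← trdeg_add_eq K' A1 (A := A2), trdeg_eq_zero (R := A1) (A := A2), add_zero]
        have h1 := emb_trdeg_le (k := K') ({t} : Set ℂ)
        rwa [Cardinal.mk_singleton] at h1
      have hsub : ∀ x ∈ Algebra.adjoin k T, x ∈ A1 := by
        intro x hx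
        induction hx using Algebra.adjoin_induction with
        | mem x hx =>
          by_cases hxt : x = t
          · rw [hxt]
            exact IntermediateField.subset_adjoin _ _ rfl
          · have h2 : x ∈ K0 := IntermediateField.subset_adjoin _ _ ⟨hx, hxt⟩
            have h3 : x ∈ K' := mem_algebraicClosure_iff.2
              (isAlgebraic_algebraMap (⟨x, h2⟩ : K0))
            exact A1.algebraMap_mem ⟨x, h3⟩
        | algebraMap r => exact A1.algebraMap_mem (algebraMap k K' r)
        | add x y _ _ hx hy => exact add_mem hx hy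
        | mul x y _ _ hx hy => exact mul_mem hx hy
      have hle : IntermediateField.adjoin K' (Set.range v) ≤
          IntermediateField.restrictScalars K' A2 := by
        rw [IntermediateField.adjoin_le_iff]
        rintro _ ⟨j, rfl⟩
        have h2 : v j ∈ A2 := by
          rw [mem_algebraicClosure_iff]
          let f : Algebra.adjoin k T →+* A1 :=
            { toFun := fun r => ⟨r, hsub r r.2⟩
              map_one' := rfl
              map_mul' := fun _ _ => rfl
              map_zero' := rfl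
              map_add' := fun _ _ => rfl }
          exact emb_alg_map f (fun a b hab => Subtype.ext (congrArg (Subtype.val : A1 → ℂ) hab))
            (fun _ => rfl) (hTa (v j) ⟨j, rfl⟩)
        exact h2
      exact (trdeg_le_of_injective (IntermediateField.inclusion hle)
        (IntermediateField.inclusion_injective hle)).trans htr2
    · rw [Cardinal.one_le_iff_ne_zero, trdeg_ne_zero_iff]
      refine ⟨⟨t, IntermediateField.subset_adjoin _ _ ⟨j₁, hj₁⟩⟩, fun h => htr ?_⟩
      exact h.algHom (IntermediateField.adjoin K' (Set.range v)).val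

end Pool.Agent.Helper38.TQ

end

section

namespace Pool.Agent.Helper16
end Pool.Agent.Helper16
namespace Pool.Agent.Helper36
end Pool.Agent.Helper36

/-!
# Preperiodic complex points are defined over the field of definition of the map
-/

set_option autoImplicit false

namespace Pool.Agent.Helper38.TQ

open MvPolynomial
open Pool.Agent.Helper16 (Place IsFunctionField)
open Pool.Agent.Helper36 (step iter iter_zero iter_succ iter_succ' iter_add iter_map)

variable {ν : ℕ}

/-- Base change of an endomorphism. -/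
theorem IsEndo.map {k k' : Type} [Field k] [IsAlgClosed k] [Field k'] [Algebra k k'] {d : ℕ}
    {F : Fin (ν + 1) → MvPolynomial (Fin (ν + 1)) k} (hF : IsEndo d F) :
    IsEndo d (fun i => MvPolynomial.map (algebraMap k k') (F i)) := by
  refine ⟨hF.two_le, fun i => (hF.hom i).map _, fun w hw => ?_⟩
  by_contra hne
  apply step_ne_zero hF (L := k') hne
  funext i
  have h1 := hw i
  rw [eval_map] at h1
  exact h1

theorem iter_map_base {k k' L : Type} [Field k] [Field k'] [Field L] [Algebra k k'] [Algebra k L]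
    [Algebra k' L] [IsScalarTower k k' L] (F : Fin (ν + 1) → MvPolynomial (Fin (ν + 1)) k)
    (x : Fin (ν + 1) → L) (n : ℕ) :
    iter (fun i => MvPolynomial.map (algebraMap k k') (F i)) x n = iter F x n := by
  induction n with
  | zero => rfl
  | succ n ih =>
    rw [iter_succ, iter_succ, ih]
    funext i
    exact MvPolynomial.aeval_map_algebraMap k' (iter F x n) (F i)

theorem PEq.descend {K L : Type} [Field K] [Field L] (φ : K →+* L) {x y : Fin (ν + 1) → K}
    (hx : x ≠ 0) (hy : y ≠ 0) (h : PEq (fun i => φ (x i)) (fun i => φ (y i))) : PEq x y := by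
  obtain ⟨c, hc, h⟩ := h
  obtain ⟨i, hi⟩ := Function.ne_iff.1 hx
  have hi' : x i ≠ 0 := hi
  have h1 : ∀ j, φ (y j) = c * φ (x j) := fun j => congrFun h j
  have h2 : ∀ j, y j = y i / x i * x j := by
    intro j
    apply φ.injective
    rw [map_mul, map_div₀, h1, h1, mul_div_assoc, div_self (by simpa using hi'), mul_one]
  refine ⟨y i / x i, ?_, funext h2⟩
  intro h0
  apply hy
  funext j
  rw [h2 j, h0, zero_mul]
  rfl

theorem isConst_smul {k L : Type} [Field k] [Field L] [Algebra k L] {x : Fin (ν + 1) → L}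
    {c : L} (hc : c ≠ 0) : IsConst k (c • x) ↔ IsConst k x := by
  constructor
  · rintro ⟨z, s, hs, h⟩
    refine ⟨z, c⁻¹ * s, mul_ne_zero (inv_ne_zero hc) hs, ?_⟩
    funext i
    have h1 := congrFun h i
    rw [Pi.smul_apply, smul_eq_mul] at h1
    rw [mul_assoc, ← h1, ← mul_assoc, inv_mul_cancel₀ hc, one_mul]
  · rintro ⟨z, s, hs, h⟩
    refine ⟨z, c * s, mul_ne_zero hc hs, ?_⟩
    funext i
    rw [Pi.smul_apply, smul_eq_mul, h, mul_assoc]

theorem isConst_of_preper_complex {k : Type} [Field k] [IsAlgClosed k] [Algebra k ℂ] {d : ℕ}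
    {F : Fin (ν + 1) → MvPolynomial (Fin (ν + 1)) k} (hF : IsEndo d F) {z : Fin (ν + 1) → ℂ}
    (hz : z ≠ 0) (h : Preper F z) : IsConst k z := by
  by_contra hc
  obtain ⟨i₀, hi₀⟩ := Function.ne_iff.1 hz
  have hi₀' : z i₀ ≠ 0 := hi₀
  set v : Fin (ν + 1) → ℂ := (z i₀)⁻¹ • z with hv
  have hv1 : v i₀ = 1 := by
    rw [hv, Pi.smul_apply, smul_eq_mul, inv_mul_cancel₀ hi₀']
  have hvc : ¬ IsConst k v := by rwa [hv, isConst_smul (inv_ne_zero hi₀')]
  obtain ⟨k', _, _, _, _, _, hvc', hK⟩ := exists_function_field v i₀ hv1 hvc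
  set K := IntermediateField.adjoin k' (Set.range v)
  let y : Fin (ν + 1) → K := fun i => ⟨v i, IntermediateField.subset_adjoin _ _ ⟨i, rfl⟩⟩
  have hyv : (fun i => algebraMap K ℂ (y i)) = v := rfl
  have hy0 : y ≠ 0 := by
    intro h
    have h1 := congrArg (fun w : Fin (ν + 1) → K => algebraMap K ℂ (w i₀)) h
    simp only [Pi.zero_apply, map_zero] at h1
    have h2 : algebraMap K ℂ (y i₀) = v i₀ := rfl
    rw [h2, hv1] at h1
    exact one_ne_zero h1
  have hF' := hF.map (k' := k')
  obtain ⟨n, m, hnm, hp⟩ := h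
  have hp' : PEq (iter (fun i => MvPolynomial.map (algebraMap k k') (F i)) y n)
      (iter (fun i => MvPolynomial.map (algebraMap k k') (F i)) y m) := by
    refine PEq.descend (algebraMap K ℂ) (iter_ne_zero hF' hy0 n) (iter_ne_zero hF' hy0 m) ?_
    have key : ∀ n, (fun i => algebraMap K ℂ
        (iter (fun i => MvPolynomial.map (algebraMap k k') (F i)) y n i)) =
        ((z i₀)⁻¹ ^ d ^ n) • iter F z n := by
      intro n
      have h1 := iter_map (fun i => MvPolynomial.map (algebraMap k k') (F i))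
        (IsScalarTower.toAlgHom k' K ℂ) y n
      have h2 : (fun i => (IsScalarTower.toAlgHom k' K ℂ) (y i)) = v := rfl
      rw [h2, iter_map_base, hv, iter_smul hF] at h1
      exact h1.symm
    rw [key, key]
    obtain ⟨c, hc, hcc⟩ := hp
    rw [hcc]
    have hz0 : (z i₀)⁻¹ ≠ 0 := inv_ne_zero hi₀'
    refine ⟨(z i₀)⁻¹ ^ d ^ m * c * ((z i₀)⁻¹ ^ d ^ n)⁻¹, ?_, ?_⟩
    · exact mul_ne_zero (mul_ne_zero (pow_ne_zero _ hz0) hc) (inv_ne_zero (pow_ne_zero _ hz0))
    · rw [smul_smul, smul_smul, mul_assoc, mul_assoc, inv_mul_cancel₀ (pow_ne_zero _ hz0), mul_one]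
  have h3 := isConst_of_preper hK hF' y hy0 ⟨n, m, hnm, hp'⟩
  apply hvc'
  obtain ⟨w, c, hc0, hw⟩ := h3
  refine ⟨w, algebraMap K ℂ c, by simpa using hc0, ?_⟩
  rw [← hyv, hw]
  funext i
  rw [map_mul, ← IsScalarTower.algebraMap_apply]

end Pool.Agent.Helper38.TQ

end
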