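import Pool.Agent.Helper29.MG2.T24

section

namespace Pool.Agent.Helper16
end Pool.Agent.Helper16
namespace Pool.Agent.Helper30.TKN
end Pool.Agent.Helper30.TKN
namespace Pool.Agent.Helper36
end Pool.Agent.Helper36
namespace Pool.Agent.Helper38.TQ
end Pool.Agent.Helper38.TQ

/-!
# Generators of the ideal of a curve
-/

set_option autoImplicit false

namespace Pool.Agent.Helper63.TN

open MvPolynomial
open Pool.Agent.Helper16 (Place IsFunctionField)
open Pool.Agent.Helper36 (step iter)
open Pool.Agent.Helper38.TQ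
open Pool.Agent.Helper30.TKN

variable {ν : ℕ} {k K : Type} [Field k] [Field K] [Algebra k K]

theorem pull_succ_eq (F : Fin (ν + 1) → MvPolynomial (Fin (ν + 1)) K) (N : ℕ)
    (G : MvPolynomial (Fin (ν + 1)) K) : pull F (N + 1) G = aeval F (pull F N G) := by
  unfold pull
  rw [Function.iterate_succ_apply']

theorem aeval_pull (F : Fin (ν + 1) → MvPolynomial (Fin (ν + 1)) K) (N : ℕ)
    (G : MvPolynomial (Fin (ν + 1)) K) {L : Type} [Field L] [Algebra K L]
    (u : Fin (ν + 1) → L) : aeval u (pull F N G) = aeval (iter F u N) G := by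
  induction N generalizing u with
  | zero => rfl
  | succ N ih =>
    rw [pull_succ_eq, Pool.Agent.Helper36.iter_succ', ← ih]
    exact comp_aeval_apply F (aeval u) (pull F N G)

theorem pull_hom {d : ℕ} {F : Fin (ν + 1) → MvPolynomial (Fin (ν + 1)) K}
    (hF : ∀ i, (F i).IsHomogeneous d) (N : ℕ) {G : MvPolynomial (Fin (ν + 1)) K} {e : ℕ}
    (hG : G.IsHomogeneous e) : (pull F N G).IsHomogeneous (e * d ^ N) := by
  induction N with
  | zero =>
    rw [pow_zero, mul_one]
    exact hG
  | succ N ih =>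
    rw [pull_succ_eq]
    have h := ih.aeval F hF
    rwa [show d * (e * d ^ N) = e * d ^ (N + 1) by ring] at h

end Pool.Agent.Helper63.TN

end

section

namespace Pool.Agent.Helper16
end Pool.Agent.Helper16
namespace Pool.Agent.Helper30.TKN
end Pool.Agent.Helper30.TKN
namespace Pool.Agent.Helper36
end Pool.Agent.Helper36
namespace Pool.Agent.Helper38.TQ
end Pool.Agent.Helper38.TQ

/-!
# The number of places at which two points coincide
-/

set_option autoImplicit false

namespace Pool.Agent.Helper63.TN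

open MvPolynomial
open Pool.Agent.Helper16 (Place IsFunctionField)
open Pool.Agent.Helper36 (step iter)
open Pool.Agent.Helper38.TQ
open Pool.Agent.Helper30.TKN

variable {ν : ℕ} {k K : Type} [Field k] [Field K] [Algebra k K]

/-- The minors of the two points, up to constants. -/
theorem minor_sub {v : Place k K} {y y' : Fin (ν + 1) → K}
    {z z' : Fin (ν + 1) → k} {c c' : K} (hz' : z' ≠ 0)
    (h : ∀ i, v.val (c * y i - algebraMap k K (z i)) < 1)
    (h' : ∀ i, v.val (c' * y' i - algebraMap k K (z' i)) < 1) (p q : Fin (ν + 1)) :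
    v.val (c * c' * (y p * y' q - y q * y' p) - algebraMap k K (z p * z' q - z q * z' p)) < 1 := by
  have n2 : nrm v (c' • y') = 1 := nrm_red hz' h'
  have h8 : ∀ i j, v.val ((c * y i - algebraMap k K (z i)) * (c' * y' j) +
      algebraMap k K (z i) * (c' * y' j - algebraMap k K (z' j))) < 1 := by
    intro i j
    have hy1 : v.val (c' * y' j) ≤ 1 := by
      rw [← n2]; exact val_le_nrm v (c' • y') j
    refine (v.val.map_add _ _).trans_lt (max_lt ?_ ?_)
    · rw [map_mul]
      exact mul_lt_one_of_lt_of_le (h i) hy1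
    · rw [map_mul, mul_comm]
      exact mul_lt_one_of_lt_of_le (h' j) (v.val_algebraMap_le _)
  have h9 : c * c' * (y p * y' q - y q * y' p) - algebraMap k K (z p * z' q - z q * z' p) =
      ((c * y p - algebraMap k K (z p)) * (c' * y' q) +
            algebraMap k K (z p) * (c' * y' q - algebraMap k K (z' q)))
          - ((c * y q - algebraMap k K (z q)) * (c' * y' p) +
            algebraMap k K (z q) * (c' * y' p - algebraMap k K (z' p))) := by
    simp only [map_sub, map_mul]
    ring
  rw [h9]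
  exact (v.val.map_sub _ _).trans_lt (max_lt (h8 p q) (h8 q p))

theorem nrm_mul_of_red {v : Place k K} {y y' : Fin (ν + 1) → K} {z z' : Fin (ν + 1) → k}
    {c c' : K} (hz : z ≠ 0) (hz' : z' ≠ 0)
    (h : ∀ i, v.val (c * y i - algebraMap k K (z i)) < 1)
    (h' : ∀ i, v.val (c' * y' i - algebraMap k K (z' i)) < 1) :
    v.val (c * c') * (nrm v y * nrm v y') = 1 := by
  have n1 : nrm v (c • y) = 1 := nrm_red hz h
  have n2 : nrm v (c' • y') = 1 := nrm_red hz' h'
  rw [nrm_smul] at n1 n2
  rw [map_mul, mul_mul_mul_comm, n1, n2, one_mul]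

/-- Points with the same reduction, over an extension. -/
theorem same_of_red [IsAlgClosed k] {v : Place k K} {y y' : Fin (ν + 1) → K}
    {z z' : Fin (ν + 1) → k} (h : Red v y z) (h' : Red v y' z') (hz : PEq z z') :
    Same v y y' := by
  obtain ⟨hz0, c, hc, h1⟩ := h
  obtain ⟨hz0', c', hc', h1'⟩ := h'
  obtain ⟨t, ht, rfl⟩ := hz
  intro p q
  have h2 := minor_sub hz0' h1 h1' p q
  have h3 : z p * (t • z) q - z q * (t • z) p = 0 := by
    simp only [Pi.smul_apply, smul_eq_mul]
    ring
  rw [h3, map_zero, sub_zero, map_mul, ← nrm_mul_of_red hz0 hz0' h1 h1'] at h2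
  exact lt_of_mul_lt_mul_left h2 zero_le

theorem red_of_same [IsAlgClosed k] (hK : IsFunctionField k K) {v : Place k K}
    {y y' : Fin (ν + 1) → K} (hy : y ≠ 0) (hy' : y' ≠ 0) {z : Fin (ν + 1) → k} (h : Red v y z)
    (hs : Same v y y') : Red v y' z := by
  obtain ⟨hz0, c, hc, h1⟩ := h
  obtain ⟨i0, hi0⟩ := exists_val_eq_nrm v y'
  have hn' := nrm_ne_zero (b := v) hy'
  have hy0 : y' i0 ≠ 0 := by
    intro h0
    rw [h0, map_zero] at hi0
    exact hn' hi0.symm
  have hc' : (y' i0)⁻¹ ≠ 0 := inv_ne_zero hy0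
  have hle : ∀ i, v.val ((y' i0)⁻¹ * y' i) ≤ 1 := by
    intro i
    rw [map_mul, map_inv₀, hi0]
    calc (nrm v y')⁻¹ * v.val (y' i) ≤ (nrm v y')⁻¹ * nrm v y' :=
          mul_le_mul_right (val_le_nrm v y' i) _
      _ = 1 := inv_mul_cancel₀ hn'
  choose z' hz' using fun i => exists_residue hK v ((y' i0)⁻¹ * y' i) (hle i)
  have hz0' : z' ≠ 0 := by
    intro h0
    have h2 := hz' i0
    rw [h0, Pi.zero_apply, map_zero, sub_zero, inv_mul_cancel₀ hy0, map_one] at h2
    exact lt_irrefl _ h2
  have hmin : ∀ p q, z p * z' q - z q * z' p = 0 := by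
    intro p q
    by_contra hne
    have h2 := minor_sub hz0' h1 hz' p q
    have h3 : v.val (c * (y' i0)⁻¹ * (y p * y' q - y q * y' p)) < 1 := by
      rw [map_mul, ← nrm_mul_of_red hz0 hz0' h1 hz']
      refine mul_lt_mul_of_pos_left (hs p q) (zero_lt_iff.2 ?_)
      simpa using ⟨hc, hy0⟩
    have h4 : v.val (algebraMap k K (z p * z' q - z q * z' p)) < 1 := by
      have h5 : algebraMap k K (z p * z' q - z q * z' p) =
          c * (y' i0)⁻¹ * (y p * y' q - y q * y' p) -
            (c * (y' i0)⁻¹ * (y p * y' q - y q * y' p) -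
              algebraMap k K (z p * z' q - z q * z' p)) := by ring
      rw [h5]
      exact (v.val.map_sub _ _).trans_lt (max_lt h3 h2)
    rw [v.triv _ hne] at h4
    exact lt_irrefl _ h4
  obtain ⟨t, ht, hzt⟩ := peq_of_minors hz0 hz0' hmin
  refine ⟨hz0, algebraMap k K t⁻¹ * (y' i0)⁻¹, mul_ne_zero (by simpa using ht) hc', fun i => ?_⟩
  have h6 : algebraMap k K t⁻¹ * (y' i0)⁻¹ * y' i - algebraMap k K (z i) =
      algebraMap k K t⁻¹ * ((y' i0)⁻¹ * y' i - algebraMap k K (z' i)) := by
    rw [hzt, Pi.smul_apply, smul_eq_mul, mul_sub, ← map_mul, inv_mul_cancel_left₀ ht]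
    ring
  rw [h6, map_mul, v.triv _ (inv_ne_zero ht), one_mul]
  exact hz' i

end Pool.Agent.Helper63.TN

end

section

namespace Pool.Agent.Helper16
end Pool.Agent.Helper16
namespace Pool.Agent.Helper30.TKN
end Pool.Agent.Helper30.TKN
namespace Pool.Agent.Helper36
end Pool.Agent.Helper36
namespace Pool.Agent.Helper38.TQ
end Pool.Agent.Helper38.TQ

/-!
# From a nearby point to a closed point
-/

set_option autoImplicit false

namespace Pool.Agent.Helper63.TN

open MvPolynomial
open Pool.Agent.Helper16 (Place IsFunctionField)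
open Pool.Agent.Helper36 (step iter)
open Pool.Agent.Helper38.TQ
open Pool.Agent.Helper30.TKN

variable {ν : ℕ} {k K : Type} [Field k] [Field K] [Algebra k K]

theorem algHom_algebraMap {L K' : Type} [Field L] [Field K'] [Algebra k L] [Algebra K L]
    [IsScalarTower k K L] [Algebra k K'] [Algebra K K'] [IsScalarTower k K K'] (σ : L →ₐ[K] K')
    (a : k) : σ (algebraMap k L a) = algebraMap k K' a := by
  rw [IsScalarTower.algebraMap_apply k K L, AlgHom.commutes,
    ← IsScalarTower.algebraMap_apply k K K']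

/-- The place of `L` induced by an embedding into a field with a place over `b`. -/
noncomputable def pullPlace {L K' : Type} [Field L] [Field K'] [Algebra k L] [Algebra K L]
    [IsScalarTower k K L] [Algebra k K'] [Algebra K K'] [IsScalarTower k K K'] (σ : L →ₐ[K] K')
    {b : Place k K} {b' : Place k K'} (hb : Ext b' b) : Place k L where
  val := b'.val.comap (σ : L →+* K')
  surj := by
    intro γ
    obtain ⟨a, ha⟩ := b.surj γ
    refine ⟨algebraMap K L a, ?_⟩
    rw [Valuation.comap_apply]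
    change b'.val (σ (algebraMap K L a)) = γ
    rw [AlgHom.commutes, hb a, ha]
  triv := by
    intro a ha
    rw [Valuation.comap_apply]
    change b'.val (σ (algebraMap k L a)) = 1
    rw [algHom_algebraMap (K := K) σ a]
    exact b'.triv a ha

/-- A point over a large valued field which is a multiple of a conjugate of a point `A` over a
finite extension gives a place of the field of `A`. -/
theorem descend [IsAlgClosed k] (hK : IsFunctionField k K) {K' : Type} [Field K'] [Algebra k K']
    [Algebra K K'] [IsScalarTower k K K'] {b : Place k K} {b' : Place k K'} (hb : Ext b' b)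
    (A : FinPt ν k K) {w : Fin (ν + 1) → K'} (hw : Conj A w) {z : Fin (ν + 1) → k}
    (hz : Red b' w z) : ∃ v : Place k A.L, Ext v b ∧ Red v A.y z := by
  obtain ⟨σ, c, hc, rfl⟩ := hw
  obtain ⟨hz0, c', hc', h1⟩ := hz
  refine ⟨pullPlace σ hb, ?_, hz0, ?_⟩
  · intro a
    change b'.val (σ (algebraMap K A.L a)) = b.val a
    rw [AlgHom.commutes, hb a]
  obtain ⟨i₀, hi₀⟩ : ∃ i, z i ≠ 0 := by
    by_contra hcon
    push Not at hcon
    exact hz0 (funext hcon)
  -- the value of the coordinate `i₀` is one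
  set u : Fin (ν + 1) → K' := fun i => c' * (c * σ (A.y i)) with hu
  have h1' : ∀ i, b'.val (u i - algebraMap k K' (z i)) < 1 := h1
  have h2 : b'.val (u i₀) = 1 := by
    have h3 : u i₀ = (u i₀ - algebraMap k K' (z i₀)) + algebraMap k K' (z i₀) := by ring
    rw [h3, Valuation.map_add_eq_of_lt_right]
    · exact b'.triv _ hi₀
    · rw [b'.triv _ hi₀]
      exact h1' i₀
  have hu0 : u i₀ ≠ 0 := by
    intro h0
    rw [h0, map_zero] at h2
    exact zero_ne_one h2
  have hy0 : σ (A.y i₀) ≠ 0 := by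
    intro h0
    apply hu0
    simp only [hu, h0, mul_zero]
  have hy0' : A.y i₀ ≠ 0 := by
    intro h0
    apply hy0
    rw [h0, map_zero]
  have hzL : algebraMap k A.L (z i₀) ≠ 0 := by
    intro h0
    exact hi₀ ((map_eq_zero (algebraMap k A.L)).1 h0)
  refine ⟨algebraMap k A.L (z i₀) * (A.y i₀)⁻¹, mul_ne_zero hzL (inv_ne_zero hy0'), fun i => ?_⟩
  change b'.val (σ (algebraMap k A.L (z i₀) * (A.y i₀)⁻¹ * A.y i - algebraMap k A.L (z i))) < 1
  rw [map_sub, map_mul, map_mul, map_inv₀, algHom_algebraMap (K := K) σ,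
    algHom_algebraMap (K := K) σ]
  have h4 : algebraMap k K' (z i₀) * (σ (A.y i₀))⁻¹ * σ (A.y i) - algebraMap k K' (z i) =
      (algebraMap k K' (z i₀) * (u i - algebraMap k K' (z i)) -
        algebraMap k K' (z i) * (u i₀ - algebraMap k K' (z i₀))) * (u i₀)⁻¹ := by
    simp only [hu]
    field_simp
    ring
  rw [h4, map_mul, map_inv₀, h2, inv_one, mul_one]
  have h5 : ∀ (a : k) (t : K'), b'.val t < 1 → b'.val (algebraMap k K' a * t) < 1 := by
    intro a t ht
    by_cases ha : a = 0
    · rw [ha, map_zero, zero_mul, map_zero]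
      exact zero_lt_one
    · rw [map_mul, b'.triv a ha, one_mul]
      exact ht
  exact (b'.val.map_sub _ _).trans_lt (max_lt (h5 _ _ (h1' i)) (h5 _ _ (h1' i₀)))

theorem aeval_conj {L K' : Type} [Field L] [Field K'] [Algebra K L] [Algebra K K']
    (σ : L →ₐ[K] K') (y : Fin (ν + 1) → L) (G : MvPolynomial (Fin (ν + 1)) K) :
    aeval (fun i => σ (y i)) G = σ (aeval y G) := by
  rw [← MvPolynomial.comp_aeval_apply]

theorem aeval_conj_hom {L K' : Type} [Field L] [Field K'] [Algebra K L] [Algebra K K']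
    (σ : L →ₐ[K] K') (c : K') (y : Fin (ν + 1) → L) {m : ℕ} {G : MvPolynomial (Fin (ν + 1)) K}
    (hG : G.IsHomogeneous m) :
    aeval (fun i => c * σ (y i)) G = c ^ m * σ (aeval y G) := by
  rw [Pool.Agent.Helper36.aeval_smul_homogeneous hG c (fun i => σ (y i)), aeval_conj]

theorem iter_conj {d : ℕ} {F : Fin (ν + 1) → MvPolynomial (Fin (ν + 1)) K}
    (hF : ∀ i, (F i).IsHomogeneous d) {L K' : Type} [Field L] [Field K'] [Algebra K L]
    [Algebra K K'] (σ : L →ₐ[K] K') (c : K') (y : Fin (ν + 1) → L) (N : ℕ) :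
    iter F (fun i => c * σ (y i)) N = fun i => c ^ d ^ N * σ (iter F y N i) := by
  induction N with
  | zero =>
    funext i
    rw [pow_zero, pow_one]
    rfl
  | succ N ih =>
    rw [Pool.Agent.Helper36.iter_succ, ih]
    funext i
    change aeval (fun i => c ^ d ^ N * σ (iter F y N i)) (F i) = _
    rw [aeval_conj_hom σ (c ^ d ^ N) (iter F y N) (hF i), ← pow_mul, ← pow_succ,
      Pool.Agent.Helper36.iter_succ]
    rfl

theorem Conj.per {d : ℕ} {F : Fin (ν + 1) → MvPolynomial (Fin (ν + 1)) K}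
    (hF : ∀ i, (F i).IsHomogeneous d) {A : FinPt ν k K} {K' : Type} [Field K'] [Algebra K K']
    {w : Fin (ν + 1) → K'} (hw : Conj A w) (N : ℕ) (h : ∃ γ : K', iter F w N = γ • w) :
    ∃ γ : A.L, iter F A.y N = γ • A.y := by
  obtain ⟨σ, c, hc, rfl⟩ := hw
  obtain ⟨γ, hγ⟩ := h
  rw [iter_conj hF σ c A.y N] at hγ
  have hinj : Function.Injective σ := σ.toRingHom.injective
  obtain ⟨i₀, hi₀⟩ : ∃ i, A.y i ≠ 0 := by
    by_contra hcon
    push Not at hcon
    exact A.ne (funext hcon)
  have h1 : ∀ i, c ^ d ^ N * σ (iter F A.y N i) = γ * (c * σ (A.y i)) := fun i => congrFun hγ i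
  have hcp : c ^ d ^ N ≠ 0 := pow_ne_zero _ hc
  refine ⟨iter F A.y N i₀ * (A.y i₀)⁻¹, ?_⟩
  funext i
  apply hinj
  have hs0 : σ (A.y i₀) ≠ 0 := by
    intro h0
    exact hi₀ (hinj (by rw [h0, map_zero]))
  rw [Pi.smul_apply, smul_eq_mul, map_mul, map_mul, map_inv₀]
  apply mul_left_cancel₀ hcp
  have h2 : c ^ d ^ N * (σ (iter F A.y N i₀) * (σ (A.y i₀))⁻¹ * σ (A.y i)) =
      c ^ d ^ N * σ (iter F A.y N i₀) * (σ (A.y i₀))⁻¹ * σ (A.y i) := by ring
  rw [h1 i, h2, h1 i₀]
  field_simp

/-- The polynomials over the extension. -/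
theorem goodRed_above {d : ℕ} {F : Fin (ν + 1) → MvPolynomial (Fin (ν + 1)) K}
    {L : Type} [Field L] [Algebra k L] [Algebra K L] [IsScalarTower k K L]
    {b : Place k K} {v : Place k L} (hv : Above v b)
    {f : Fin (ν + 1) → MvPolynomial (Fin (ν + 1)) k} (hf : GoodRed d b F f) :
    GoodRed d v (fun i => map (algebraMap K L) (F i)) f := by
  obtain ⟨e, he, hve⟩ := hv
  refine ⟨hf.endo, fun i m => ?_⟩
  rw [coeff_map, IsScalarTower.algebraMap_apply k K L, ← map_sub, hve]
  exact pow_lt_one₀ zero_le (hf.red i m) he.ne'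

/-- Reduction and iteration over a finite extension. -/
theorem red_iter_ext [IsAlgClosed k] (hK : IsFunctionField k K) {d : ℕ}
    {F : Fin (ν + 1) → MvPolynomial (Fin (ν + 1)) K} (hF : ∀ i, (F i).IsHomogeneous d)
    {L : Type} [Field L] [Algebra k L] [Algebra K L] [IsScalarTower k K L]
    {b : Place k K} {v : Place k L} (hv : Above v b)
    {f : Fin (ν + 1) → MvPolynomial (Fin (ν + 1)) k} (hf : GoodRed d b F f)
    {y : Fin (ν + 1) → L} {z : Fin (ν + 1) → k} (hz : Red v y z) (m : ℕ) :
    Red v (iter F y m) (iter f z m) := by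
  have hg := goodRed_above hv hf
  induction m with
  | zero => exact hz
  | succ m ih =>
    rw [Pool.Agent.Helper36.iter_succ, Pool.Agent.Helper36.iter_succ]
    obtain ⟨hz0, c, hc, h1⟩ := ih
    refine ⟨step_ne_zero hf.endo hz0, c ^ d, pow_ne_zero _ hc, fun i => ?_⟩
    have h2 := (hg.red i).eval (u := fun i => c * iter F y m i) (z := iter f z m) h1
    have h3 : MvPolynomial.eval (fun i => c * iter F y m i) (map (algebraMap K L) (F i)) =
        aeval (fun i => c * iter F y m i) (F i) := by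
      rw [eval_map, aeval_def]
    rw [h3, Pool.Agent.Helper36.aeval_smul_homogeneous (hF i)] at h2
    exact h2

theorem red_inc {L : Type} [Field L] [Algebra k L] [Algebra K L] [IsScalarTower k K L]
    {b : Place k K} {v : Place k L} (hv : Above v b) {y : Fin (ν + 1) → K}
    {z : Fin (ν + 1) → k} (hz : Red b y z) : Red v (inc L y) z := by
  obtain ⟨e, he, hve⟩ := hv
  obtain ⟨hz0, c, hc, h1⟩ := hz
  refine ⟨hz0, algebraMap K L c, ?_, fun i => ?_⟩
  · intro h0
    exact hc ((map_eq_zero (algebraMap K L)).1 h0)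
  · change v.val (algebraMap K L c * algebraMap K L (y i) - algebraMap k L (z i)) < 1
    rw [IsScalarTower.algebraMap_apply k K L, ← map_mul, ← map_sub, hve]
    exact pow_lt_one₀ zero_le (h1 i) he.ne'

end Pool.Agent.Helper63.TN

end
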