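import Pool.Agent.Helper29.MG2.T26
import Pool.Agent.Helper29.MG2.T18

section

namespace Pool.Agent.Helper16
end Pool.Agent.Helper16
namespace Pool.Agent.Helper63.TS
end Pool.Agent.Helper63.TS

/-!
# Local dynamics at a place of good reduction, any dimension: definitions
-/

set_option autoImplicit false

namespace Pool.Agent.Helper89.TNL

open MvPolynomial
open Pool.Agent.Helper63.TS (Unif)
open Pool.Agent.Helper16 (Place IsFunctionField)

section ring

variable {R k : Type} [CommRing R] [Field k]

/-- `χ` is the residue map of the discrete valuation ring `R` with the uniformizer `π` and the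
coefficient field `k`. -/
structure Res [Algebra k R] (π : R) (χ : R →+* k) : Prop where
  unif : Unif π
  sec : ∀ c : k, χ (algebraMap k R c) = c
  ker : ∀ r, χ r = 0 ↔ π ∣ r

variable {ι : Type}

/-- The map `q ↦ (A i (q) / A0 (q))` maps the open polydisc to itself. -/
structure GermN (π : R) (A0 : MvPolynomial ι R) (A : ι → MvPolynomial ι R) : Prop where
  c0 : ¬ π ∣ A0.coeff 0
  c1 : ∀ i, π ∣ (A i).coeff 0

/-- An orbit of the germ in the open polydisc. -/
structure OrbN (π : R) (A0 : MvPolynomial ι R) (A : ι → MvPolynomial ι R) (p : ℕ → ι → R) :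
    Prop where
  small : ∀ j i, π ∣ p j i
  step : ∀ j i, p (j + 1) i * eval (p j) A0 = eval (p j) (A i)

/-- The linear part of the germ modulo `π` is the matrix `M`. -/
def LinN (χ : R →+* k) (A0 : MvPolynomial ι R) (A : ι → MvPolynomial ι R) (M : Matrix ι ι k) :
    Prop :=
  ∀ i j, χ ((A i).coeff (Finsupp.single j 1)) = χ (A0.coeff 0) * M i j

/-- The differences of two sequences of points tend to zero. -/
def Conv (π : R) (p q : ℕ → ι → R) : Prop :=
  ∀ I : ℕ, ∃ s₀, ∀ s, s₀ ≤ s → ∀ i, π ^ I ∣ p s i - q s i

end ring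

section exppol

variable (k : Type) [Field k]

/-- The exponential polynomials with roots in the group `G`. -/
noncomputable def EPol (G : Subgroup kˣ) : Subalgebra k (ℕ → k) :=
  Algebra.adjoin k ({fun t : ℕ => (t : k)} ∪ {f | ∃ μ ∈ G, f = fun t : ℕ => ((μ : kˣ) : k) ^ t})

variable {k}

/-- The group has no elements of finite order. -/
def TorsFree (G : Subgroup kˣ) : Prop := ∀ μ ∈ G, ∀ n : ℕ, 0 < n → μ ^ n = 1 → μ = 1

/-- The eigenvalues of the matrix belong to the group `G`. -/
def EigIn {α : Type} [Fintype α] [DecidableEq α] (G : Subgroup kˣ) (M : Matrix α α k) : Prop :=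
  ∀ μ : k, M.charpoly.IsRoot μ → ∃ u ∈ G, ((u : kˣ) : k) = μ

/-- The sequence `f` is, modulo `π ^ I` and from some time on, a polynomial in `π` whose
coefficients are exponential polynomials. -/
def EPR {R : Type} [CommRing R] [Algebra k R] (G : Subgroup kˣ) (π : R) (I : ℕ) (f : ℕ → R) :
    Prop :=
  ∃ (T : ℕ) (φ : ℕ → ℕ → k), (∀ i, φ i ∈ EPol k G) ∧
    ∀ t, T ≤ t → π ^ I ∣ f t - ∑ i ∈ Finset.range I, π ^ i * algebraMap k R (φ i t)

end exppol

section chart

variable {ν : ℕ} {S : Type} [CommRing S] {ι : Type} [Fintype ι]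

/-- The point with the coordinates `1, q i` with respect to the vectors `e none`,
`e (some i)`. -/
def ptN (e : Option ι → Fin (ν + 1) → S) (q : ι → S) : Fin (ν + 1) → S :=
  fun a => e none a + ∑ i, q i * e (some i) a

/-- The restriction of a polynomial to the chart given by the vectors `e`. -/
noncomputable def chN (e : Option ι → Fin (ν + 1) → S) (P : MvPolynomial (Fin (ν + 1)) S) :
    MvPolynomial ι S :=
  aeval (fun a => C (e none a) + ∑ i, X i * C (e (some i) a)) P

end chart

section place

variable {ν : ℕ} {k K : Type} [Field k] [Field K] [Algebra k K]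

/-- The polynomials which define the iterates of `F`. -/
noncomputable def itN (F : Fin (ν + 1) → MvPolynomial (Fin (ν + 1)) K) (N : ℕ)
    (i : Fin (ν + 1)) : MvPolynomial (Fin (ν + 1)) K :=
  (fun P => aeval F P)^[N] (X i)

end place

end Pool.Agent.Helper89.TNL

end
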