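import Pool.Agent.Helper29.MG2.T24
import Pool.Agent.Helper29.MG2.T29

section

/-!
# Binary forms modulo the ideal of a curve and a form
-/

set_option autoImplicit false

namespace Pool.Agent.Helper63.TN

open MvPolynomial

variable {ν : ℕ} {K : Type} [Field K]

/-- Binary forms in two coordinates. -/
theorem exists_binary {I : Ideal (MvPolynomial (Fin (ν + 1)) K)} (hI : IsCurve I)
    {Q : MvPolynomial (Fin (ν + 1)) K} {m : ℕ} (hQ : Q.IsHomogeneous m) (hQI : Q ∉ I)
    (a p : Fin (ν + 1)) :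
    ∃ (n : ℕ) (ρ : MvPolynomial (Fin 2) K), ρ.IsHomogeneous n ∧ ρ ≠ 0 ∧
      aeval (![X a, X p] : Fin 2 → MvPolynomial (Fin (ν + 1)) K) ρ ∈ I ⊔ Ideal.span {Q} := by
  classical
  obtain ⟨ρ, n, h0, h1, h2⟩ := Pool.Agent.Helper89.TNL.zeroDim hI.prime hI.hom hI.fin hQ hQI
    (Pi.single a 1) (Pi.single p 1)
  have h3 : ∀ a : Fin (ν + 1), (∑ j, C ((Pi.single a (1 : K) : Fin (ν + 1) → K) j) * X j :
      MvPolynomial (Fin (ν + 1)) K) = X a := by
    intro a
    rw [Finset.sum_eq_single a]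
    · rw [Pi.single_eq_same, C_1, one_mul]
    · intro j _ hj
      rw [Pi.single_eq_of_ne hj, C_0, zero_mul]
    · intro h
      exact absurd (Finset.mem_univ a) h
  rw [h3, h3] at h2
  exact ⟨n, ρ, h1, h0, h2⟩

end Pool.Agent.Helper63.TN

end

section

namespace Pool.Agent.Helper16
end Pool.Agent.Helper16
namespace Pool.Agent.Helper30.TKN
end Pool.Agent.Helper30.TKN
namespace Pool.Agent.Helper36
end Pool.Agent.Helper36
namespace Pool.Agent.Helper38.TQ
end Pool.Agent.Helper38.TQ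

/-!
# The zeros of a form on a curve
-/

set_option autoImplicit false

namespace Pool.Agent.Helper63.TN

open MvPolynomial
open Pool.Agent.Helper16 (Place IsFunctionField)
open Pool.Agent.Helper36 (step iter)
open Pool.Agent.Helper38.TQ
open Pool.Agent.Helper30.TKN

variable {ν : ℕ} {k K : Type} [Field k] [Field K] [Algebra k K]

/-- Dehomogenization is injective on binary forms. -/
theorem Zeros_dehom {ρ : MvPolynomial (Fin 2) K} {m : ℕ} (hρ : ρ.IsHomogeneous m) (h0 : ρ ≠ 0) :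
    (aeval ![Polynomial.X, 1] ρ : Polynomial K) ≠ 0 := by
  intro hf
  apply h0
  let E := FractionRing (MvPolynomial (Fin 2) K)
  have hinj : Function.Injective (algebraMap (MvPolynomial (Fin 2) K) E) :=
    IsFractionRing.injective _ _
  have hv : algebraMap (MvPolynomial (Fin 2) K) E (X 1) ≠ 0 := by
    rw [Ne, map_eq_zero_iff _ hinj]
    exact X_ne_zero 1
  set u : Fin 2 → E := fun i => algebraMap (MvPolynomial (Fin 2) K) E (X i) with hu
  have h1 : aeval (u 1 • (![u 0 / u 1, 1] : Fin 2 → E)) ρ = u 1 ^ m * aeval ![u 0 / u 1, 1] ρ :=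
    Pool.Agent.Helper36.aeval_smul_homogeneous hρ _ _
  have h2 : (u 1 • (![u 0 / u 1, 1] : Fin 2 → E)) = u := by
    funext i
    fin_cases i
    · change u 1 * (u 0 / u 1) = u 0
      exact mul_div_cancel₀ _ hv
    · change u 1 * 1 = u 1
      rw [mul_one]
  have h3 : aeval u ρ = algebraMap (MvPolynomial (Fin 2) K) E ρ := by
    have h4 : (aeval u : MvPolynomial (Fin 2) K →ₐ[K] E) =
        IsScalarTower.toAlgHom K (MvPolynomial (Fin 2) K) E := by
      refine algHom_ext fun i => ?_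
      rw [aeval_X]
      rfl
    rw [h4]
    rfl
  have h5 : (aeval (![u 0 / u 1, 1] : Fin 2 → E) ρ : E) =
      Polynomial.aeval (u 0 / u 1) (aeval ![Polynomial.X, 1] ρ : Polynomial K) := by
    have h6 : (aeval (![u 0 / u 1, 1] : Fin 2 → E) : MvPolynomial (Fin 2) K →ₐ[K] E) =
        (Polynomial.aeval (u 0 / u 1)).comp
          (aeval ![Polynomial.X, 1] : MvPolynomial (Fin 2) K →ₐ[K] Polynomial K) := by
      refine algHom_ext fun i => ?_
      rw [AlgHom.comp_apply, aeval_X, aeval_X]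
      fin_cases i
      · simp
      · simp
    rw [h6]
    rfl
  rw [h2, h3, h5, hf, map_zero, mul_zero] at h1
  exact (map_eq_zero_iff _ hinj).1 h1

/-- The ideal of the zeros of `Q` in the chart `X p = 1`. -/
noncomputable def ZerosJ (I : Ideal (MvPolynomial (Fin (ν + 1)) K)) (Q : MvPolynomial (Fin (ν + 1)) K)
    (p : Fin (ν + 1)) : Ideal (MvPolynomial (Fin (ν + 1)) K) :=
  I ⊔ Ideal.span {Q} ⊔ Ideal.span {X p - 1}

theorem Zeros_fd {I : Ideal (MvPolynomial (Fin (ν + 1)) K)} (hI : IsCurve I)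
    {Q : MvPolynomial (Fin (ν + 1)) K} {m : ℕ} (hQ : Q.IsHomogeneous m) (hQI : Q ∉ I)
    (p : Fin (ν + 1)) : FiniteDimensional K (MvPolynomial (Fin (ν + 1)) K ⧸ ZerosJ I Q p) := by
  classical
  set J := ZerosJ I Q p with hJ
  have hp1 : Ideal.Quotient.mk J (X p) = 1 := by
    rw [← sub_eq_zero, ← map_one (Ideal.Quotient.mk J), ← map_sub]
    exact Ideal.Quotient.eq_zero_iff_mem.2
      (Ideal.mem_sup_right (Ideal.mem_span_singleton_self _))
  have hint : ∀ i, IsIntegral K (Ideal.Quotient.mk J (X i)) := by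
    intro i
    obtain ⟨e, ρ, hρh, hρ0, hρ⟩ := exists_binary hI hQ hQI i p
    have h1 : Ideal.Quotient.mkₐ K J (aeval ![X i, X p] ρ) = 0 := by
      exact Ideal.Quotient.eq_zero_iff_mem.2 (Ideal.mem_sup_left hρ)
    have h2 : (Ideal.Quotient.mkₐ K J).comp
        (aeval ![X i, X p] : MvPolynomial (Fin 2) K →ₐ[K] MvPolynomial (Fin (ν + 1)) K) =
        (Polynomial.aeval (Ideal.Quotient.mk J (X i))).comp
          (aeval ![Polynomial.X, 1] : MvPolynomial (Fin 2) K →ₐ[K] Polynomial K) := by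
      refine algHom_ext fun j => ?_
      rw [AlgHom.comp_apply, AlgHom.comp_apply, aeval_X, aeval_X]
      fin_cases j
      · simp
      · simpa using hp1
    have h3 := DFunLike.congr_fun h2 ρ
    rw [AlgHom.comp_apply, h1, AlgHom.comp_apply] at h3
    rw [← isAlgebraic_iff_isIntegral]
    exact ⟨_, Zeros_dehom hρh hρ0, h3.symm⟩
  have htop : Algebra.adjoin K (Set.range fun i => Ideal.Quotient.mk J (X i)) = ⊤ := by
    rw [Algebra.adjoin_range_eq_range_aeval, AlgHom.range_eq_top]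
    intro a
    obtain ⟨P, rfl⟩ := Ideal.Quotient.mk_surjective a
    refine ⟨P, ?_⟩
    have h4 : (aeval fun i => Ideal.Quotient.mk J (X i) :
        MvPolynomial (Fin (ν + 1)) K →ₐ[K] MvPolynomial (Fin (ν + 1)) K ⧸ J) =
        Ideal.Quotient.mkₐ K J := by
      refine algHom_ext fun i => ?_
      rw [aeval_X]
      rfl
    rw [h4]
    rfl
  have hfg := fg_adjoin_of_finite (R := K)
    (Set.finite_range fun i => Ideal.Quotient.mk J (X i)) (by
      rintro x ⟨i, rfl⟩
      exact hint i)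
  rw [htop] at hfg
  exact ⟨by simpa using hfg⟩

/-- The point over the residue field of a maximal ideal of a chart. -/
noncomputable def Zeros_pt (k : Type) {K : Type} [Field k] [Field K] [Algebra k K]
    (J : Ideal (MvPolynomial (Fin (ν + 1)) K))
    [FiniteDimensional K (MvPolynomial (Fin (ν + 1)) K ⧸ J)] (p : Fin (ν + 1)) (hp : X p - 1 ∈ J)
    (m : MaximalSpectrum (MvPolynomial (Fin (ν + 1)) K ⧸ J)) : FinPt ν k K :=
  haveI := m.isMaximal
  letI : Field ((MvPolynomial (Fin (ν + 1)) K ⧸ J) ⧸ m.asIdeal) := Ideal.Quotient.field m.asIdeal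
  letI : Algebra k ((MvPolynomial (Fin (ν + 1)) K ⧸ J) ⧸ m.asIdeal) :=
    ((algebraMap K ((MvPolynomial (Fin (ν + 1)) K ⧸ J) ⧸ m.asIdeal)).comp
      (algebraMap k K)).toAlgebra
  { L := (MvPolynomial (Fin (ν + 1)) K ⧸ J) ⧸ m.asIdeal
    fld := inferInstance
    algk := inferInstance
    alg := inferInstance
    tow := IsScalarTower.of_algebraMap_eq fun _ => rfl
    fin := inferInstance
    y := fun i => Ideal.Quotient.mk m.asIdeal (Ideal.Quotient.mk J (X i))
    ne := by
      intro h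
      have h1 := congrFun h p
      have h2 : Ideal.Quotient.mk J (X p) = 1 := by
        rw [← sub_eq_zero, ← map_one (Ideal.Quotient.mk J), ← map_sub]
        exact Ideal.Quotient.eq_zero_iff_mem.2 hp
      rw [h2, map_one] at h1
      exact one_ne_zero h1 }

theorem Zeros_pt_one (k : Type) {K : Type} [Field k] [Field K] [Algebra k K]
    (J : Ideal (MvPolynomial (Fin (ν + 1)) K))
    [FiniteDimensional K (MvPolynomial (Fin (ν + 1)) K ⧸ J)] (p : Fin (ν + 1)) (hp : X p - 1 ∈ J)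
    (m : MaximalSpectrum (MvPolynomial (Fin (ν + 1)) K ⧸ J)) : (Zeros_pt k J p hp m).y p = 1 := by
  have h2 : Ideal.Quotient.mk J (X p) = 1 := by
    rw [← sub_eq_zero, ← map_one (Ideal.Quotient.mk J), ← map_sub]
    exact Ideal.Quotient.eq_zero_iff_mem.2 hp
  change Ideal.Quotient.mk m.asIdeal (Ideal.Quotient.mk J (X p)) = 1
  rw [h2, map_one]

/-- The evaluation at the point. -/
theorem Zeros_pt_aeval (k : Type) {K : Type} [Field k] [Field K] [Algebra k K]
    (J : Ideal (MvPolynomial (Fin (ν + 1)) K))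
    [FiniteDimensional K (MvPolynomial (Fin (ν + 1)) K ⧸ J)] (p : Fin (ν + 1)) (hp : X p - 1 ∈ J)
    (m : MaximalSpectrum (MvPolynomial (Fin (ν + 1)) K ⧸ J))
    (P : MvPolynomial (Fin (ν + 1)) K) :
    aeval (Zeros_pt k J p hp m).y P =
      (show (Zeros_pt k J p hp m).L from
        Ideal.Quotient.mk m.asIdeal (Ideal.Quotient.mk J P)) := by
  have := m.isMaximal
  have h1 : (aeval (Zeros_pt k J p hp m).y :
      MvPolynomial (Fin (ν + 1)) K →ₐ[K] (Zeros_pt k J p hp m).L) =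
      (Ideal.Quotient.mkₐ K m.asIdeal).comp (Ideal.Quotient.mkₐ K J) := by
    refine algHom_ext fun i => ?_
    rw [aeval_X]
    rfl
  rw [h1]
  rfl

/-- The zeros of a form on the curve: finitely many closed points. -/
theorem exists_zeros {I : Ideal (MvPolynomial (Fin (ν + 1)) K)} (hI : IsCurve I)
    {Q : MvPolynomial (Fin (ν + 1)) K} {m : ℕ} (hQ : Q.IsHomogeneous m) (hQI : Q ∉ I) :
    ∃ (s : ℕ) (A : Fin s → FinPt ν k K),
      (∀ j, OnI I (A j).y ∧ aeval (A j).y Q = 0 ∧ (∃ p, (A j).y p = 1) ∧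
        Algebra.adjoin K (Set.range (A j).y) = ⊤) ∧
      ∀ (K' : Type) [Field K'] [Algebra K K'] (u : Fin (ν + 1) → K'), OnI I u →
        aeval u Q = 0 → ∃ j, Conj (A j) u := by
  classical
  have hmem : ∀ p, X p - 1 ∈ ZerosJ I Q p := fun p =>
    Ideal.mem_sup_right (Ideal.mem_span_singleton_self _)
  have hfd : ∀ p, FiniteDimensional K (MvPolynomial (Fin (ν + 1)) K ⧸ ZerosJ I Q p) := fun p =>
    Zeros_fd hI hQ hQI p
  have hart : ∀ p, IsArtinianRing (MvPolynomial (Fin (ν + 1)) K ⧸ ZerosJ I Q p) := fun p =>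
    IsArtinianRing.of_finite K _
  have hft : ∀ p, Finite (MaximalSpectrum (MvPolynomial (Fin (ν + 1)) K ⧸ ZerosJ I Q p)) :=
    fun p => inferInstance
  let _ : Fintype (Σ p : Fin (ν + 1),
      MaximalSpectrum (MvPolynomial (Fin (ν + 1)) K ⧸ ZerosJ I Q p)) := Fintype.ofFinite _
  let e := Fintype.equivFin (Σ p : Fin (ν + 1),
    MaximalSpectrum (MvPolynomial (Fin (ν + 1)) K ⧸ ZerosJ I Q p))
  have hprop : ∀ q : Σ p : Fin (ν + 1),
      MaximalSpectrum (MvPolynomial (Fin (ν + 1)) K ⧸ ZerosJ I Q p),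
      OnI I (Zeros_pt k (ZerosJ I Q q.1) q.1 (hmem _) q.2).y ∧
      aeval (Zeros_pt k (ZerosJ I Q q.1) q.1 (hmem _) q.2).y Q = 0 ∧
      (∃ p, (Zeros_pt k (ZerosJ I Q q.1) q.1 (hmem _) q.2).y p = 1) ∧
      Algebra.adjoin K (Set.range (Zeros_pt k (ZerosJ I Q q.1) q.1 (hmem _) q.2).y) = ⊤ := by
    rintro ⟨p, 𝔪⟩
    have hz : ∀ G ∈ ZerosJ I Q p, aeval (Zeros_pt k (ZerosJ I Q p) p (hmem p) 𝔪).y G = 0 := by
      intro G hG
      rw [Zeros_pt_aeval]
      change Ideal.Quotient.mk 𝔪.asIdeal (Ideal.Quotient.mk (ZerosJ I Q p) G) = 0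
      rw [Ideal.Quotient.eq_zero_iff_mem.2 hG, map_zero]
    refine ⟨⟨(Zeros_pt k (ZerosJ I Q p) p (hmem p) 𝔪).ne, fun G hG => ?_⟩, ?_, ⟨p, ?_⟩, ?_⟩
    · exact hz G (Ideal.mem_sup_left (Ideal.mem_sup_left hG))
    · exact hz Q (Ideal.mem_sup_left (Ideal.mem_sup_right (Ideal.mem_span_singleton_self _)))
    · exact Zeros_pt_one k _ p (hmem p) 𝔪
    · rw [Algebra.adjoin_range_eq_range_aeval, AlgHom.range_eq_top]
      intro a
      obtain ⟨b, rfl⟩ := Ideal.Quotient.mk_surjective (I := 𝔪.asIdeal) a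
      obtain ⟨P, rfl⟩ := Ideal.Quotient.mk_surjective b
      exact ⟨P, Zeros_pt_aeval k _ p (hmem p) 𝔪 P⟩
  refine ⟨Fintype.card (Σ p : Fin (ν + 1),
      MaximalSpectrum (MvPolynomial (Fin (ν + 1)) K ⧸ ZerosJ I Q p)),
    fun j => Zeros_pt k (ZerosJ I Q (e.symm j).1) (e.symm j).1 (hmem _) (e.symm j).2,
    fun j => hprop (e.symm j), ?_⟩
  · intro K' _ _ u hu huQ
    obtain ⟨p, hp⟩ : ∃ p, u p ≠ 0 := by
      by_contra hcon
      push Not at hcon
      exact hu.1 (funext hcon)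
    let φ : MvPolynomial (Fin (ν + 1)) K →ₐ[K] K' := aeval fun i => u i / u p
    have hφ : ∀ {q : MvPolynomial (Fin (ν + 1)) K} {n : ℕ}, q.IsHomogeneous n → aeval u q = 0 →
        φ q = 0 := by
      intro q n hq h0
      have h1 : (fun i => u i / u p) = (u p)⁻¹ • u := by
        funext i
        rw [Pi.smul_apply, smul_eq_mul, div_eq_inv_mul]
      have h2 : φ q = (u p)⁻¹ ^ n * aeval u q := by
        change aeval (fun i => u i / u p) q = _
        rw [h1]
        exact Pool.Agent.Helper36.aeval_smul_homogeneous hq _ _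
      rw [h2, h0, mul_zero]
    have hφI : ∀ x ∈ ZerosJ I Q p, φ x = 0 := by
      have h1 : ZerosJ I Q p ≤ RingHom.ker φ.toRingHom := by
        refine sup_le (sup_le ?_ ?_) ?_
        · intro G hG
          change φ G = 0
          rw [← sum_homogeneousComponent G, map_sum]
          refine Finset.sum_eq_zero fun n _ => ?_
          exact hφ (homogeneousComponent_isHomogeneous n G) (hu.2 _ (hI.hom G hG n))
        · rw [Ideal.span_le]
          rintro x rfl
          exact hφ hQ huQ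
        · rw [Ideal.span_le]
          rintro x rfl
          change φ (X p - 1) = 0
          rw [map_sub, map_one, aeval_X, div_self hp, sub_self]
      exact fun x hx => h1 hx
    let ψ : (MvPolynomial (Fin (ν + 1)) K ⧸ ZerosJ I Q p) →ₐ[K] K' :=
      Ideal.Quotient.liftₐ (ZerosJ I Q p) φ hφI
    have : (RingHom.ker ψ.toRingHom).IsPrime := RingHom.ker_isPrime _
    let 𝔪 : MaximalSpectrum (MvPolynomial (Fin (ν + 1)) K ⧸ ZerosJ I Q p) :=
      ⟨RingHom.ker ψ.toRingHom, IsArtinianRing.isMaximal_of_isPrime _⟩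
    let q : Σ p : Fin (ν + 1), MaximalSpectrum (MvPolynomial (Fin (ν + 1)) K ⧸ ZerosJ I Q p) :=
      ⟨p, 𝔪⟩
    have key : Conj (Zeros_pt k (ZerosJ I Q q.1) q.1 (hmem _) q.2) u := by
      refine ⟨Ideal.Quotient.liftₐ 𝔪.asIdeal ψ fun x hx => hx, u p, hp, ?_⟩
      funext i
      have h3 : (Ideal.Quotient.liftₐ 𝔪.asIdeal ψ fun x hx => hx)
          (Ideal.Quotient.mk 𝔪.asIdeal (Ideal.Quotient.mk (ZerosJ I Q p) (X i))) = u i / u p := by
        change φ (X i) = u i / u p
        exact aeval_X _ i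
      change u i = u p * (Ideal.Quotient.liftₐ 𝔪.asIdeal ψ fun x hx => hx)
          (Ideal.Quotient.mk 𝔪.asIdeal (Ideal.Quotient.mk (ZerosJ I Q p) (X i)))
      rw [h3, mul_div_cancel₀ _ hp]
    have h4 : e.symm (e q) = q := e.symm_apply_apply q
    refine ⟨e q, ?_⟩
    rw [← h4] at key
    exact key

end Pool.Agent.Helper63.TN

end
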