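import Pool.Agent.Helper29.MG2.T24
import Pool.Agent.Helper29.MG2.T25
import Pool.Agent.Helper29.MG2.T30

section

namespace Pool.Agent.Helper16
end Pool.Agent.Helper16
namespace Pool.Agent.Helper30.TKN
end Pool.Agent.Helper30.TKN
namespace Pool.Agent.Helper36
end Pool.Agent.Helper36
namespace Pool.Agent.Helper38.TQ
end Pool.Agent.Helper38.TQ

/-!
# Projective curves are finite over a line
-/

set_option autoImplicit false

namespace Pool.Agent.Helper63.TN

open MvPolynomial
open Pool.Agent.Helper16 (Place IsFunctionField)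
open Pool.Agent.Helper36 (step iter)
open Pool.Agent.Helper38.TQ
open Pool.Agent.Helper30.TKN

variable {ν : ℕ} {k K : Type} [Field k] [Field K] [Algebra k K]

/-- The linear form over `K` with constant coefficients `c`. -/
private noncomputable def clf (K : Type) [Field K] [Algebra k K] (c : Fin (ν + 1) → k) :
    MvPolynomial (Fin (ν + 1)) K :=
  ∑ i, C (algebraMap k K (c i)) * X i

private theorem clf_add (c : Fin (ν + 1) → k) (i : Fin (ν + 1)) (t : k) :
    clf K (c + Pi.single i t) = clf K c + C (algebraMap k K t) * X i := by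
  classical
  unfold clf
  simp only [Pi.add_apply, map_add, add_mul, Finset.sum_add_distrib]
  congr 1
  rw [Finset.sum_eq_single i]
  · simp
  · intro j _ hj
    simp [Pi.single_eq_of_ne hj]
  · intro h; exact absurd (Finset.mem_univ _) h

/-- A nonzero form in three variables does not vanish at some constant point `(-t₀, -t₁, 1)`. -/
private theorem exists_value [Infinite k] {e : ℕ} {P : MvPolynomial (Fin 3) K}
    (hP : P.IsHomogeneous e) (hP0 : P ≠ 0) :
    ∃ t₀ t₁ : k, eval ![-(algebraMap k K t₀), -(algebraMap k K t₁), 1] P ≠ 0 := by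
  classical
  by_contra hcon
  push Not at hcon
  have h1 : P * X 2 = 0 := by
    refine funext_set (fun _ => Set.range (algebraMap k K))
      (fun _ => Set.infinite_range_of_injective (algebraMap k K).injective) fun x hx => ?_
    rw [map_zero, map_mul, eval_X]
    choose y hy using fun j => hx j (Set.mem_univ j)
    rcases eq_or_ne (x 2) 0 with h0 | h0
    · rw [h0, mul_zero]
    · have hy2 : algebraMap k K (y 2) ≠ 0 := by rw [hy 2]; exact h0
      have h2 := hcon (-(y 0 / y 2)) (-(y 1 / y 2))
      have h3 : x = x 2 • ![-(algebraMap k K (-(y 0 / y 2))), -(algebraMap k K (-(y 1 / y 2))),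
          1] := by
        funext j
        fin_cases j
        · simp only [Fin.zero_eta, Pi.smul_apply, Matrix.cons_val_zero, smul_eq_mul, map_neg,
            neg_neg, map_div₀]
          rw [← hy 0, ← hy 2]
          field_simp
        · simp only [Fin.mk_one, Pi.smul_apply, Matrix.cons_val_one, Matrix.cons_val_zero,
            smul_eq_mul, map_neg, neg_neg, map_div₀]
          rw [← hy 1, ← hy 2]
          field_simp
        · simp
      have h4 : eval x P = 0 := by
        rw [h3]
        have h5 := Pool.Agent.Helper36.aeval_smul_homogeneous hP (x 2)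
          ![-(algebraMap k K (-(y 0 / y 2))), -(algebraMap k K (-(y 1 / y 2))), 1]
        rw [show eval (x 2 • ![-(algebraMap k K (-(y 0 / y 2))),
          -(algebraMap k K (-(y 1 / y 2))), 1]) P = aeval (x 2 •
          ![-(algebraMap k K (-(y 0 / y 2))), -(algebraMap k K (-(y 1 / y 2))), 1]) P from
          (congrArg (fun φ => φ P) (coe_aeval_eq_eval _)).symm]
        refine h5.trans ?_
        rw [show aeval ![-(algebraMap k K (-(y 0 / y 2))), -(algebraMap k K (-(y 1 / y 2))), 1] P =
          eval ![-(algebraMap k K (-(y 0 / y 2))), -(algebraMap k K (-(y 1 / y 2))), 1] P from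
          congrArg (fun φ => φ P) (coe_aeval_eq_eval _), h2, mul_zero]
      rw [h4, zero_mul]
  rcases mul_eq_zero.1 h1 with h2 | h2
  · exact hP0 h2
  · exact X_ne_zero _ h2

/-- If any three linear forms satisfy a relation, then two linear forms with coefficients in `k`
generate, together with the ideal, a power of the irrelevant ideal. -/
theorem fin_of_rel3 [IsAlgClosed k] {I : Ideal (MvPolynomial (Fin (ν + 1)) K)} (h : Rel3 I) :
    ∃ (a₀ a₁ : Fin (ν + 1) → k) (s : ℕ), ∀ i, (X i ^ s : MvPolynomial (Fin (ν + 1)) K) ∈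
      I ⊔ Ideal.span {∑ j, C (algebraMap k K (a₀ j)) * X j, ∑ j, C (algebraMap k K (a₁ j)) * X j} := by
  classical
  have : Infinite k := IsAlgClosed.instInfinite
  have key : ∀ S : Finset (Fin (ν + 1)), ∃ c₀ c₁ : Fin (ν + 1) → k,
      ∀ i ∈ S, (X i : MvPolynomial (Fin (ν + 1)) K) ∈
        (I ⊔ Ideal.span {clf K c₀, clf K c₁}).radical := by
    intro S
    induction S using Finset.induction_on with
    | empty => exact ⟨0, 0, by simp⟩
    | insert i S hi ih =>
      obtain ⟨c₀, c₁, hc⟩ := ih
      obtain ⟨P, e, hP, hP0, hPI⟩ := h ![fun j => algebraMap k K (c₀ j),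
        fun j => algebraMap k K (c₁ j), Pi.single i 1]
      obtain ⟨t₀, t₁, ht⟩ := exists_value (k := k) hP hP0
      set c₀' := c₀ + Pi.single i t₀ with hc₀'
      set c₁' := c₁ + Pi.single i t₁ with hc₁'
      set I' := I ⊔ Ideal.span {clf K c₀', clf K c₁'} with hI'
      have hI : I ≤ I' := le_sup_left
      have hl₀ : clf K c₀' ∈ I' := Ideal.mem_sup_right (Ideal.subset_span (Set.mem_insert _ _))
      have hl₁ : clf K c₁' ∈ I' := Ideal.mem_sup_right
        (Ideal.subset_span (Set.mem_insert_of_mem _ rfl))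
      have hlX₀ : clf K c₀ = clf K c₀' + C (-(algebraMap k K t₀)) * X i := by
        rw [hc₀', clf_add, map_neg]
        ring
      have hlX₁ : clf K c₁ = clf K c₁' + C (-(algebraMap k K t₁)) * X i := by
        rw [hc₁', clf_add, map_neg]
        ring
      have hX : (X i : MvPolynomial (Fin (ν + 1)) K) ∈ I'.radical := by
        refine ⟨e, ?_⟩
        have h1 : Ideal.Quotient.mk I' (aeval (fun j => ∑ i', C (![fun j => algebraMap k K (c₀ j),
            fun j => algebraMap k K (c₁ j), Pi.single i 1] j i') * X i' :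
            Fin 3 → MvPolynomial (Fin (ν + 1)) K) P) = 0 :=
          Ideal.Quotient.eq_zero_iff_mem.2 (hI hPI)
        have h3 : ∀ p : MvPolynomial (Fin (ν + 1)) K, Ideal.Quotient.mk I' p =
            Ideal.Quotient.mkₐ K I' p := fun _ => rfl
        rw [h3, MvPolynomial.comp_aeval_apply] at h1
        have h4 : (fun j => Ideal.Quotient.mkₐ K I' (∑ i', C (![fun j => algebraMap k K (c₀ j),
            fun j => algebraMap k K (c₁ j), Pi.single i 1] j i') * X i' :
            MvPolynomial (Fin (ν + 1)) K)) = fun j => Ideal.Quotient.mkₐ K I' (X i) *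
              algebraMap K _ (![-(algebraMap k K t₀), -(algebraMap k K t₁), (1 : K)] j) := by
          funext j
          fin_cases j
          · have h5 : Ideal.Quotient.mkₐ K I' (clf K c₀) = Ideal.Quotient.mkₐ K I' (X i) *
                algebraMap K _ (-(algebraMap k K t₀)) := by
              rw [hlX₀, map_add, map_mul]
              have h6 : Ideal.Quotient.mkₐ K I' (clf K c₀') = 0 :=
                Ideal.Quotient.eq_zero_iff_mem.2 hl₀
              rw [h6, zero_add, mul_comm]
              congr 1
            exact h5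
          · have h5 : Ideal.Quotient.mkₐ K I' (clf K c₁) = Ideal.Quotient.mkₐ K I' (X i) *
                algebraMap K _ (-(algebraMap k K t₁)) := by
              rw [hlX₁, map_add, map_mul]
              have h6 : Ideal.Quotient.mkₐ K I' (clf K c₁') = 0 :=
                Ideal.Quotient.eq_zero_iff_mem.2 hl₁
              rw [h6, zero_add, mul_comm]
              congr 1
            exact h5
          · have h5 : (∑ i', C ((Pi.single i 1 : Fin (ν + 1) → K) i') * X i' :
                MvPolynomial (Fin (ν + 1)) K) = X i := by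
              rw [Finset.sum_eq_single i]
              · simp
              · intro j _ hj
                simp [Pi.single_eq_of_ne hj]
              · intro h; exact absurd (Finset.mem_univ _) h
            change Ideal.Quotient.mkₐ K I' (∑ i', C ((Pi.single i 1 : Fin (ν + 1) → K) i') * X i') =
              Ideal.Quotient.mkₐ K I' (X i) * algebraMap K _ (1 : K)
            rw [h5, map_one, mul_one]
        rw [h4, Pool.Agent.Helper36.aeval_smul_homogeneous hP] at h1
        have h5 : aeval (fun j => algebraMap K (MvPolynomial (Fin (ν + 1)) K ⧸ I')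
            (![-(algebraMap k K t₀), -(algebraMap k K t₁), (1 : K)] j)) P =
            algebraMap K _ (eval ![-(algebraMap k K t₀), -(algebraMap k K t₁), 1] P) := by
          have h6 := aeval_algebraMap_apply (B := MvPolynomial (Fin (ν + 1)) K ⧸ I')
            (![-(algebraMap k K t₀), -(algebraMap k K t₁), (1 : K)]) P
          refine Eq.trans h6 ?_
          exact congrArg _ (congrArg (fun φ => φ P) (coe_aeval_eq_eval _))
        rw [h5] at h1
        have h6 : Ideal.Quotient.mkₐ K I' (X i) ^ e = 0 := by
          have h7 := congrArg (fun w => w * algebraMap K (MvPolynomial (Fin (ν + 1)) K ⧸ I')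
            (eval ![-(algebraMap k K t₀), -(algebraMap k K t₁), 1] P)⁻¹) h1
          simp only [zero_mul] at h7
          rwa [mul_assoc, ← map_mul, mul_inv_cancel₀ ht, map_one, mul_one] at h7
        rw [← map_pow] at h6
        exact Ideal.Quotient.eq_zero_iff_mem.1 h6
      have hlr₀ : clf K c₀ ∈ I'.radical := by
        rw [hlX₀]
        exact I'.radical.add_mem (Ideal.le_radical hl₀) (I'.radical.mul_mem_left _ hX)
      have hlr₁ : clf K c₁ ∈ I'.radical := by
        rw [hlX₁]
        exact I'.radical.add_mem (Ideal.le_radical hl₁) (I'.radical.mul_mem_left _ hX)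
      refine ⟨c₀', c₁', fun j hj => ?_⟩
      rw [Finset.mem_insert] at hj
      rcases hj with rfl | hj
      · exact hX
      · have h1 : I ⊔ Ideal.span {clf K c₀, clf K c₁} ≤ I'.radical := by
          refine sup_le (hI.trans Ideal.le_radical) ?_
          rw [Ideal.span_le]
          rintro w (rfl | rfl)
          · exact hlr₀
          · exact hlr₁
        have h2 := Ideal.radical_mono h1 (hc j hj)
        rwa [Ideal.radical_idem] at h2
  obtain ⟨c₀, c₁, hc⟩ := key Finset.univ
  choose n hn using fun i => hc i (Finset.mem_univ i)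
  refine ⟨c₀, c₁, ∑ i, n i, fun i => ?_⟩
  have h1 : n i ≤ ∑ i, n i := Finset.single_le_sum (fun _ _ => Nat.zero_le _) (Finset.mem_univ i)
  obtain ⟨r, hr⟩ := Nat.exists_eq_add_of_le h1
  rw [hr, pow_add]
  exact Ideal.mul_mem_right _ _ (hn i)

end Pool.Agent.Helper63.TN

end

section

namespace Pool.Agent.Helper16
end Pool.Agent.Helper16
namespace Pool.Agent.Helper30.TKN
end Pool.Agent.Helper30.TKN
namespace Pool.Agent.Helper36
end Pool.Agent.Helper36
namespace Pool.Agent.Helper38.TQ
end Pool.Agent.Helper38.TQ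

/-!
# The curve swept out by a sequence of points
-/

set_option autoImplicit false

namespace Pool.Agent.Helper63.TN

open MvPolynomial
open Pool.Agent.Helper16 (Place IsFunctionField)
open Pool.Agent.Helper36 (step iter)
open Pool.Agent.Helper38.TQ
open Pool.Agent.Helper30.TKN

variable {ν : ℕ} {k K : Type} [Field k] [Field K] [Algebra k K]

/-- The restriction of the polynomial `G` to the line spanned by `v`. -/
noncomputable def vanLine (v : Fin (ν + 1) → K) (G : MvPolynomial (Fin (ν + 1)) K) :
    Polynomial K :=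
  aeval (fun i => Polynomial.C (v i) * Polynomial.X) G

omit [Algebra k K] in
theorem eval_vanLine (v : Fin (ν + 1) → K) (G : MvPolynomial (Fin (ν + 1)) K) (c : K) :
    Polynomial.eval c (vanLine v G) = eval (c • v) G := by
  unfold vanLine
  induction G using MvPolynomial.induction_on with
  | C a => simp
  | add p q hp hq => rw [map_add, Polynomial.eval_add, hp, hq, map_add]
  | mul_X p i hp =>
    rw [map_mul, Polynomial.eval_mul, hp, aeval_X, map_mul, eval_X, Polynomial.eval_mul,
      Polynomial.eval_C, Polynomial.eval_X, Pi.smul_apply, smul_eq_mul, mul_comm (v i) c]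

omit [Algebra k K] in
theorem vanLine_eq_zero [Infinite K] (v : Fin (ν + 1) → K) (G : MvPolynomial (Fin (ν + 1)) K) :
    vanLine v G = 0 ↔ ∀ c : K, eval (c • v) G = 0 := by
  constructor
  · intro h c
    rw [← eval_vanLine, h, Polynomial.eval_zero]
  · intro h
    apply Polynomial.zero_of_eval_zero
    intro c
    rw [eval_vanLine, h]

omit [Algebra k K] in
theorem vanLine_hom [Infinite K] {v : Fin (ν + 1) → K} {G : MvPolynomial (Fin (ν + 1)) K}
    (h : ∀ c : K, eval (c • v) G = 0) (m : ℕ) : eval v (homogeneousComponent m G) = 0 := by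
  set R : Polynomial K := ∑ i ∈ Finset.range (G.totalDegree + 1),
    Polynomial.C (eval v (homogeneousComponent i G)) * Polynomial.X ^ i with hR
  have hR0 : R = 0 := by
    apply Polynomial.zero_of_eval_zero
    intro l
    have h1 := h l
    rw [← sum_homogeneousComponent G, map_sum] at h1
    rw [hR, Polynomial.eval_finsetSum, ← h1]
    refine Finset.sum_congr rfl fun i _ => ?_
    rw [eval_smul_hom (homogeneousComponent_isHomogeneous i G) l v, Polynomial.eval_mul,
      Polynomial.eval_C, Polynomial.eval_pow, Polynomial.eval_X, mul_comm]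
  have hcoef := congrArg (fun p => p.coeff m) hR0
  simp only [hR, Polynomial.finsetSum_coeff, Polynomial.coeff_C_mul_X_pow,
    Polynomial.coeff_zero] at hcoef
  rw [Finset.sum_ite_eq] at hcoef
  split_ifs at hcoef with h2
  · exact hcoef
  · rw [homogeneousComponent_eq_zero, map_zero]
    rw [Finset.mem_range] at h2
    omega

omit [Algebra k K] in
theorem mem_van {U : Ultrafilter ℕ} {x : ℕ → Fin (ν + 1) → K}
    {G : MvPolynomial (Fin (ν + 1)) K} :
    G ∈ van U x ↔ ∀ᶠ n in (U : Filter ℕ), ∀ c : K, eval (c • x n) G = 0 := Iff.rfl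

theorem van_form [Infinite K] {U : Ultrafilter ℕ} {x : ℕ → Fin (ν + 1) → K}
    {G : MvPolynomial (Fin (ν + 1)) K} {e : ℕ} (hG : G.IsHomogeneous e) :
    G ∈ van U x ↔ ∀ᶠ n in (U : Filter ℕ), eval (x n) G = 0 := by
  rw [mem_van]
  constructor
  · intro h
    filter_upwards [h] with n hn
    have h1 := hn 1
    rwa [one_smul] at h1
  · intro h
    filter_upwards [h] with n hn c
    rw [eval_smul_hom hG c (x n), hn, mul_zero]

theorem van_hom [Infinite K] {U : Ultrafilter ℕ} {x : ℕ → Fin (ν + 1) → K}
    {G : MvPolynomial (Fin (ν + 1)) K} (hG : G ∈ van U x) (m : ℕ) :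
    homogeneousComponent m G ∈ van U x := by
  rw [van_form (homogeneousComponent_isHomogeneous m G)]
  filter_upwards [mem_van.1 hG] with n hn
  exact vanLine_hom hn m

theorem van_prime [Infinite K] {U : Ultrafilter ℕ} {x : ℕ → Fin (ν + 1) → K}
    (hx : ∀ n, x n ≠ 0) : (van U x).IsPrime := by
  rw [Ideal.isPrime_iff]
  constructor
  · intro h
    have h1 : (1 : MvPolynomial (Fin (ν + 1)) K) ∈ van U x := by
      rw [h]
      exact Submodule.mem_top
    obtain ⟨n, hn⟩ := (mem_van.1 h1).exists
    have h2 := hn 0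
    rw [map_one] at h2
    exact one_ne_zero h2
  · intro G H hGH
    have h1 : ∀ᶠ n in (U : Filter ℕ), (∀ c : K, eval (c • x n) G = 0) ∨
        ∀ c : K, eval (c • x n) H = 0 := by
      filter_upwards [mem_van.1 hGH] with n hn
      have h2 : vanLine (x n) G * vanLine (x n) H = 0 := by
        unfold vanLine
        rw [← map_mul]
        exact (vanLine_eq_zero (x n) (G * H)).2 hn
      rcases mul_eq_zero.1 h2 with h3 | h3
      · exact Or.inl ((vanLine_eq_zero _ _).1 h3)
      · exact Or.inr ((vanLine_eq_zero _ _).1 h3)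
    exact Ultrafilter.eventually_or.1 h1

theorem van_rel3 [Infinite K] {U : Ultrafilter ℕ} {x : ℕ → Fin (ν + 1) → K}
    (h : OnCurve U x) : Rel3 (van U x) := by
  intro m
  obtain ⟨P, e, hP, hP0, hPv⟩ := h m
  refine ⟨P, e, hP, hP0, ?_⟩
  have hhom : (aeval (fun j => ∑ i, C (m j i) * X i : Fin 3 → MvPolynomial (Fin (ν + 1)) K)
      P).IsHomogeneous (1 * e) := by
    apply hP.aeval
    intro j
    apply IsHomogeneous.sum
    intro i _
    exact isHomogeneous_C_mul_X _ _
  rw [van_form hhom]
  filter_upwards [hPv] with n hn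
  rw [← hn]
  have h3 : ∀ Q : MvPolynomial (Fin 3) K, eval (x n) (aeval
      (fun j => ∑ i, C (m j i) * X i : Fin 3 → MvPolynomial (Fin (ν + 1)) K) Q) =
      eval (fun j => ∑ i, m j i * x n i) Q := by
    intro Q
    induction Q using MvPolynomial.induction_on with
    | C a => simp
    | add p q hp hq => simp only [map_add, hp, hq]
    | mul_X p i hp =>
      rw [map_mul, map_mul, map_mul, hp, aeval_X, eval_X]
      congr 1
      simp
  exact h3 P

theorem van_curve [IsAlgClosed k] {U : Ultrafilter ℕ} {x : ℕ → Fin (ν + 1) → K}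
    (hx : ∀ n, x n ≠ 0) (h : OnCurve U x) : IsCurve (van U x) := by
  have h1 : Infinite k := IsAlgClosed.instInfinite
  have h2 : Infinite K := Infinite.of_injective (algebraMap k K) (algebraMap k K).injective
  refine ⟨van_prime hx, fun G hG m => van_hom hG m, ?_⟩
  obtain ⟨a₀, a₁, s, hs⟩ := fin_of_rel3 (k := k) (van_rel3 h)
  exact ⟨fun j => algebraMap k K (a₀ j), fun j => algebraMap k K (a₁ j), s, hs⟩

theorem van_on {U : Ultrafilter ℕ} {x : ℕ → Fin (ν + 1) → K} (hx : ∀ n, x n ≠ 0) :
    ∀ᶠ n in (U : Filter ℕ), OnI (van U x) (x n) := by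
  obtain ⟨s, hs⟩ := (isNoetherianRing_iff_ideal_fg _).1
    (inferInstance : IsNoetherianRing (MvPolynomial (Fin (ν + 1)) K)) (van U x)
  have h1 : ∀ᶠ n in (U : Filter ℕ), ∀ g ∈ s, eval (x n) g = 0 := by
    rw [Filter.eventually_all_finset]
    intro g hg
    have h2 : g ∈ van U x := by
      rw [← hs]
      exact Ideal.subset_span hg
    filter_upwards [mem_van.1 h2] with n hn
    have h3 := hn 1
    rwa [one_smul] at h3
  filter_upwards [h1] with n hn
  refine ⟨hx n, fun G hG => ?_⟩
  rw [← hs] at hG
  have h4 : ∀ G : MvPolynomial (Fin (ν + 1)) K, aeval (x n) G = eval (x n) G := fun G => by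
    rw [← MvPolynomial.coe_aeval_eq_eval]
    rfl
  induction hG using Submodule.span_induction with
  | mem g hg => rw [h4]; exact hn g hg
  | zero => rw [map_zero]
  | add a b _ _ ha hb => rw [map_add, ha, hb, add_zero]
  | smul a b _ hb => rw [smul_eq_mul, map_mul, hb, mul_zero]

end Pool.Agent.Helper63.TN

end

section

namespace Pool.Agent.Helper16
end Pool.Agent.Helper16
namespace Pool.Agent.Helper30.TKN
end Pool.Agent.Helper30.TKN
namespace Pool.Agent.Helper36
end Pool.Agent.Helper36
namespace Pool.Agent.Helper38.TQ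
end Pool.Agent.Helper38.TQ

/-!
# Curves with finitely many periodic points
-/

set_option autoImplicit false

namespace Pool.Agent.Helper63.TN

open MvPolynomial
open Pool.Agent.Helper16 (Place IsFunctionField)
open Pool.Agent.Helper36 (step iter iter_map aeval_smul_homogeneous)
open Pool.Agent.Helper38.TQ
open Pool.Agent.Helper30.TKN

variable {ν : ℕ} {k K : Type} [Field k] [Field K] [Algebra k K]

/-- A periodic point of the curve whose field is generated by the coordinates. -/
def FinPer_Good (I : Ideal (MvPolynomial (Fin (ν + 1)) K))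
    (F : Fin (ν + 1) → MvPolynomial (Fin (ν + 1)) K) (A : FinPt ν k K) : Prop :=
  OnI I A.y ∧ IsPer F A.y ∧ (∃ p, A.y p = 1) ∧ Algebra.adjoin K (Set.range A.y) = ⊤

/-- Every periodic point of the curve is a conjugate of a point over a finite extension. -/
theorem FinPer_exists_good {d : ℕ}
    {F : Fin (ν + 1) → MvPolynomial (Fin (ν + 1)) K} (hF : ∀ i, (F i).IsHomogeneous d)
    {I : Ideal (MvPolynomial (Fin (ν + 1)) K)} (hI : IsCurve I)
    (hnp : NonPer I F) {K' : Type} [Field K'] [Algebra K K'] {u : Fin (ν + 1) → K'}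
    (hu : OnI I u) (hp : IsPer F u) :
    ∃ A : FinPt ν k K, FinPer_Good I F A ∧ Conj A u := by
  obtain ⟨M, hM, γ, hγ⟩ := hp
  obtain ⟨h, hh, e, he, hQ⟩ := hnp M hM
  obtain ⟨s, A, hA, hc⟩ := exists_zeros (k := k) hI (pull_hom hF M he) hQ
  have h0 : aeval u (pull F M h) = 0 := by
    rw [aeval_pull, hγ]
    have h1 : (γ • u) = fun i => γ * u i := rfl
    rw [h1, aeval_smul_homogeneous he, hu.2 h hh, mul_zero]
  obtain ⟨j, hj⟩ := hc K' u hu h0
  obtain ⟨γ', hγ'⟩ := Conj.per hF hj M ⟨γ, hγ⟩
  exact ⟨A j, ⟨(hA j).1, ⟨M, hM, γ', hγ'⟩, (hA j).2.2.1, (hA j).2.2.2⟩, hj⟩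

theorem FinPer_trans {A B : FinPt ν k K} {K' : Type} [Field K'] [Algebra K K']
    {u : Fin (ν + 1) → K'} (h1 : Conj A B.y) (h2 : Conj B u) : Conj A u := by
  obtain ⟨σ, c, hc, h⟩ := h1
  obtain ⟨τ, c', hc', h'⟩ := h2
  refine ⟨τ.comp σ, c' * τ c, mul_ne_zero hc' ((map_ne_zero τ).2 hc), ?_⟩
  rw [h']
  funext i
  have h3 : B.y i = c * σ (A.y i) := by rw [h]
  rw [h3, map_mul, AlgHom.comp_apply, mul_assoc]

/-- A common finite extension. -/
theorem FinPer_compositum {s : ℕ} (A : Fin s → FinPt ν k K) :
    ∃ (E : Type) (_ : Field E) (_ : Algebra k E) (_ : Algebra K E) (_ : IsScalarTower k K E)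
      (_ : FiniteDimensional K E), Nonempty (∀ j, (A j).L →ₐ[K] E) := by
  classical
  let α : ∀ j, (A j).L →ₐ[K] AlgebraicClosure K := fun j => IsAlgClosed.lift
  have : ∀ j, FiniteDimensional K (α j).fieldRange := fun j =>
    (α j).toLinearMap.finiteDimensional_range
  let E : IntermediateField K (AlgebraicClosure K) := ⨆ j, (α j).fieldRange
  have hE : FiniteDimensional K E := IntermediateField.finiteDimensional_iSup_of_finite
  let ak : Algebra k E := ((algebraMap K E).comp (algebraMap k K)).toAlgebra
  have : IsScalarTower k K E := IsScalarTower.of_algebraMap_eq fun x => rfl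
  refine ⟨E, inferInstance, ak, inferInstance, inferInstance, hE, ⟨fun j => ?_⟩⟩
  exact (IntermediateField.inclusion (le_iSup (fun j => (α j).fieldRange) j)).comp
    (α j).rangeRestrict

/-- Proportional images in a common extension. -/
theorem FinPer_conj {I : Ideal (MvPolynomial (Fin (ν + 1)) K)}
    {F : Fin (ν + 1) → MvPolynomial (Fin (ν + 1)) K} {A B : FinPt ν k K}
    (hA : FinPer_Good I F A) {E : Type} [Field E] [Algebra K E]
    (α : A.L →ₐ[K] E) (β : B.L →ₐ[K] E) {c : E} (hc : c ≠ 0)
    (h : ∀ a, β (B.y a) = c * α (A.y a)) : Conj A B.y := by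
  obtain ⟨-, -, ⟨p, hp⟩, hgen⟩ := hA
  have h1 : β (B.y p) = c := by rw [h, hp, map_one, mul_one]
  have h2 : B.y p ≠ 0 := by
    intro h0
    rw [h0, map_zero] at h1
    exact hc h1.symm
  have h3 : ∀ a, α (A.y a) = β ((B.y p)⁻¹ * B.y a) := by
    intro a
    rw [map_mul, map_inv₀, h1, h, ← mul_assoc, inv_mul_cancel₀ hc, one_mul]
  have h4 : ∀ x, α x ∈ β.range := by
    intro x
    have hx : x ∈ Algebra.adjoin K (Set.range A.y) := by rw [hgen]; trivial
    have h5 : Algebra.adjoin K (Set.range A.y) ≤ β.range.comap α := by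
      refine Algebra.adjoin_le ?_
      rintro _ ⟨a, rfl⟩
      exact ⟨(B.y p)⁻¹ * B.y a, (h3 a).symm⟩
    exact h5 hx
  let σ : A.L →ₐ[K] B.L :=
    ((AlgEquiv.ofInjective β β.injective).symm : β.range →ₐ[K] B.L).comp
      (α.codRestrict β.range h4)
  have h6 : ∀ x, β (σ x) = α x := by
    intro x
    have h7 : (AlgEquiv.ofInjective β β.injective) (σ x) = α.codRestrict β.range h4 x :=
      AlgEquiv.apply_symm_apply _ _
    have h8 := congrArg (Subtype.val) h7
    exact h8
  refine ⟨σ, B.y p, h2, ?_⟩
  funext a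
  have h7 : β (B.y a) = β (B.y p * σ (A.y a)) := by rw [map_mul, h6, h1, h]
  exact β.injective h7

theorem fin_per [IsAlgClosed k] (hK : IsFunctionField k K) {d : ℕ}
    {F : Fin (ν + 1) → MvPolynomial (Fin (ν + 1)) K} (hF : ∀ i, (F i).IsHomogeneous d)
    {I : Ideal (MvPolynomial (Fin (ν + 1)) K)} (hI : IsCurve I)
    (hnp : NonPer I F) (h : ¬ ManyPer k I F) :
    ∃ (s : ℕ) (A : Fin s → FinPt ν k K), (∀ j, OnI I (A j).y ∧ IsPer F (A j).y) ∧
      ∀ (K' : Type) [Field K'] [Algebra k K'] [Algebra K K'] [IsScalarTower k K K']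
        (u : Fin (ν + 1) → K'), OnI I u → IsPer F u → ∃ j, Conj (A j) u := by
  by_contra hcon
  apply h
  have key : ∀ s : ℕ, ∃ A : Fin s → FinPt ν k K, (∀ j, FinPer_Good I F (A j)) ∧
      ∀ i j, i < j → ¬ Conj (A i) (A j).y := by
    intro s
    induction s with
    | zero => exact ⟨fun j => j.elim0, fun j => j.elim0, fun j => j.elim0⟩
    | succ s ih =>
      obtain ⟨A, hA, hAc⟩ := ih
      have h1 : ¬ ∀ (K' : Type) [Field K'] [Algebra k K'] [Algebra K K'] [IsScalarTower k K K']
        (u : Fin (ν + 1) → K'), OnI I u → IsPer F u → ∃ j, Conj (A j) u := by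
        intro h2
        exact hcon ⟨s, A, fun j => ⟨(hA j).1, (hA j).2.1⟩, h2⟩
      push Not at h1
      obtain ⟨K', i1, i2, i3, i4, u, hu, hp, hn⟩ := h1
      obtain ⟨B, hB, hBu⟩ := FinPer_exists_good (k := k) hF hI hnp hu hp
      refine ⟨Fin.snoc (α := fun _ => FinPt ν k K) A B, ?_, ?_⟩
      · intro j
        refine Fin.lastCases ?_ (fun i => ?_) j
        · rw [Fin.snoc_last]; exact hB
        · rw [Fin.snoc_castSucc]; exact hA i
      · intro i j hij
        induction j using Fin.lastCases with
        | last =>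
          induction i using Fin.lastCases with
          | last => exact absurd hij (lt_irrefl _)
          | cast i =>
            rw [Fin.snoc_last, Fin.snoc_castSucc]
            intro h3
            exact hn i (FinPer_trans h3 hBu)
        | cast j =>
          induction i using Fin.lastCases with
          | last => exact absurd hij (not_lt.2 (Fin.le_last _))
          | cast i =>
            rw [Fin.snoc_castSucc, Fin.snoc_castSucc]
            exact hAc i j (by simpa using hij)
  intro s
  obtain ⟨A, hA, hAc⟩ := key s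
  obtain ⟨E, i1, i2, i3, i4, i5, ⟨α⟩⟩ := FinPer_compositum A
  refine ⟨E, i1, i2, i3, i4, i5, fun j a => α j ((A j).y a), ?_, ?_⟩
  · intro j
    refine ⟨⟨?_, ?_⟩, ?_⟩
    · obtain ⟨p, hp⟩ := (hA j).2.2.1
      intro h0
      have h1 := congrFun h0 p
      simp only [hp, map_one, Pi.zero_apply] at h1
      exact one_ne_zero h1
    · intro G hG
      have h1 := (hA j).1.2 G hG
      have h2 : aeval (fun a => α j ((A j).y a)) G = α j (aeval (A j).y G) := by
        rw [← MvPolynomial.comp_aeval_apply]
      rw [h2, h1, map_zero]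
    · obtain ⟨M, hM, γ, hγ⟩ := (hA j).2.1
      refine ⟨M, hM, α j γ, ?_⟩
      rw [iter_map, hγ]
      funext a
      simp only [Pi.smul_apply, smul_eq_mul, map_mul]
  · have h1 : ∀ i j, i < j → ¬ ∃ c : E, c ≠ 0 ∧
        ∀ a, α j ((A j).y a) = c * α i ((A i).y a) := by
      rintro i j hij ⟨c, hc, h2⟩
      exact hAc i j hij (FinPer_conj (hA i) (α i) (α j) hc h2)
    intro i j hij
    rintro ⟨c, hc, h2⟩
    rcases lt_or_gt_of_ne hij with h3 | h3
    · exact h1 i j h3 ⟨c, hc, fun a => congrFun h2 a⟩
    · refine h1 j i h3 ⟨c⁻¹, inv_ne_zero hc, fun a => ?_⟩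
      have h4 : α j ((A j).y a) = c * α i ((A i).y a) := congrFun h2 a
      rw [h4, ← mul_assoc, inv_mul_cancel₀ hc, one_mul]

end Pool.Agent.Helper63.TN

end
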