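import Mathlib

section

/-!
# The norm of a finite algebra as a product over its points
-/

set_option autoImplicit false

namespace Pool.Agent.Helper68.ZN

universe u v w x

section

variable {K : Type u} {Q : Type v} {Ω : Type w} [Field K] [CommRing Q] [Algebra K Q] [Field Ω]
  [Algebra K Ω]

/-- The determinant of the multiplication by `a` on a module. -/
noncomputable def dt (K : Type u) {Q : Type v} [Field K] [CommRing Q] [Algebra K Q] (V : Type x)
    [AddCommGroup V] [Module K V] [Module Q V] [IsScalarTower K Q V] (a : Q) : K :=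
  LinearMap.det (Algebra.lsmul K K V a : V →ₗ[K] V)

theorem dt_self (a : Q) : dt K Q a = Algebra.norm K a := by
  rw [Algebra.norm_apply]
  rfl

theorem dt_quot (m : Ideal Q) (a : Q) :
    dt K (Q ⧸ m) a = Algebra.norm K (Ideal.Quotient.mk m a) := by
  rw [Algebra.norm_apply]
  rfl

theorem dt_split {V : Type x} [AddCommGroup V] [Module K V] [Module Q V] [IsScalarTower K Q V]
    [FiniteDimensional K V] (W : Submodule Q V) (a : Q) :
    dt K V a = dt K W a * dt K (V ⧸ W) a := by
  have he : W.restrictScalars K ≤ (W.restrictScalars K).comap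
      (Algebra.lsmul K K V a : V →ₗ[K] V) := fun y hy => W.smul_mem a hy
  have h := LinearMap.det_eq_det_mul_det (W.restrictScalars K)
    (Algebra.lsmul K K V a : V →ₗ[K] V) he
  unfold dt
  rw [h]
  congr 1

variable [FiniteDimensional K Q] [CharZero K] [IsAlgClosed Ω]

open scoped Classical in
theorem dt_simple (m : Ideal Q) [hm : m.IsMaximal] (a : Q) :
    algebraMap K Ω (dt K (Q ⧸ m) a) =
      ∏ χ : Q →ₐ[K] Ω, χ a ^ (if RingHom.ker χ = m then 1 else 0) := by
  rw [dt_quot]
  let _ : Field (Q ⧸ m) := Ideal.Quotient.field m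
  rw [Algebra.norm_eq_prod_embeddings K Ω]
  simp only [pow_ite, pow_one, pow_zero]
  rw [← Finset.prod_filter]
  refine Finset.prod_bij' (fun σ _ => σ.comp (Ideal.Quotient.mkₐ K m))
    (fun χ hχ => Ideal.Quotient.liftₐ m χ (fun b hb => ?_)) ?_ ?_ ?_ ?_ ?_
  · rw [Finset.mem_filter] at hχ
    rw [← hχ.2] at hb
    exact hb
  · intro σ _
    rw [Finset.mem_filter]
    refine ⟨Finset.mem_univ _, ?_⟩
    ext b
    rw [RingHom.mem_ker]
    show σ (Ideal.Quotient.mk m b) = 0 ↔ b ∈ m
    rw [map_eq_zero_iff σ σ.injective, Ideal.Quotient.eq_zero_iff_mem]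
  · intro χ _
    exact Finset.mem_univ _
  · intro σ _
    ext b
    obtain ⟨b, rfl⟩ := Ideal.Quotient.mk_surjective b
    rfl
  · intro χ _
    ext b
    rfl
  · intro σ _
    rfl

open scoped Classical in
theorem dt_module : ∀ (n : ℕ) (V : Type x) [AddCommGroup V] [Module K V] [Module Q V]
    [IsScalarTower K Q V] [FiniteDimensional K V], Module.finrank K V = n →
    ∃ N : Ideal Q → ℕ, ∀ a : Q,
      algebraMap K Ω (dt K V a) = ∏ χ : Q →ₐ[K] Ω, χ a ^ N (RingHom.ker χ) := by
  intro n
  induction n using Nat.strong_induction_on with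
  | _ n ih =>
    intro V _ _ _ _ _ hn
    rcases subsingleton_or_nontrivial V with hV | hV
    · refine ⟨fun _ => 0, fun a => ?_⟩
      simp only [pow_zero, Finset.prod_const_one]
      unfold dt
      rw [LinearMap.det_eq_one_of_subsingleton, map_one]
    have hQ : Module.Finite Q V := Module.Finite.of_restrictScalars_finite K Q V
    obtain ⟨W, hW, -⟩ := (eq_top_or_exists_le_coatom (⊥ : Submodule Q V)).resolve_left bot_ne_top
    have hs : IsSimpleModule Q (V ⧸ W) := isSimpleModule_iff_isCoatom.mpr hW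
    obtain ⟨m, hm, ⟨e⟩⟩ := isSimpleModule_iff_quot_maximal.mp hs
    have hlt : Module.finrank K W < n := by
      rw [← hn]
      exact Submodule.finrank_lt (s := W.restrictScalars K) (by
        intro h
        apply hW.1
        rw [Submodule.eq_top_iff']
        intro y
        have : y ∈ W.restrictScalars K := by
          rw [h]
          trivial
        exact this)
    have hf : FiniteDimensional K W :=
      inferInstanceAs (FiniteDimensional K (W.restrictScalars K))
    obtain ⟨N, hN⟩ := ih _ hlt W rfl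
    refine ⟨fun J => N J + if J = m then 1 else 0, fun a => ?_⟩
    rw [dt_split W a, map_mul, hN a]
    have h1 : dt K (V ⧸ W) a = dt K (Q ⧸ m) a := by
      unfold dt
      rw [← LinearMap.det_conj (Algebra.lsmul K K (V ⧸ W) a : (V ⧸ W) →ₗ[K] (V ⧸ W))
        (e.restrictScalars K)]
      congr 1
      ext y
      simp
    rw [h1, dt_simple m a, ← Finset.prod_mul_distrib]
    refine Finset.prod_congr rfl fun χ _ => ?_
    rw [pow_add]

omit [CharZero K] [IsAlgClosed Ω] in
theorem ker_maximal (χ : Q →ₐ[K] Ω) : (RingHom.ker χ).IsMaximal := by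
  have h1 : (RingHom.ker χ).IsPrime := RingHom.ker_isPrime _
  have h2 : IsArtinianRing Q := IsArtinianRing.of_finite K Q
  exact IsArtinianRing.isMaximal_of_isPrime (RingHom.ker χ)

open scoped Classical in
/-- The norm is a product over all points, with positive exponents. -/
theorem norm_eq_prod (K : Type u) (Q : Type v) (Ω : Type w) [Field K] [CommRing Q] [Algebra K Q]
    [Field Ω] [Algebra K Ω] [FiniteDimensional K Q] [CharZero K] [IsAlgClosed Ω] :
    ∃ n : (Q →ₐ[K] Ω) → ℕ, (∀ χ, 0 < n χ) ∧
      ∀ a : Q, algebraMap K Ω (Algebra.norm K a) = ∏ χ : Q →ₐ[K] Ω, χ a ^ n χ := by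
  obtain ⟨N, hN⟩ := dt_module (K := K) (Q := Q) (Ω := Ω) _ Q rfl
  refine ⟨fun χ => N (RingHom.ker χ), fun χ₀ => ?_, fun a => ?_⟩
  · by_contra h0
    rw [not_lt, Nat.le_zero] at h0
    set m := RingHom.ker χ₀ with hm
    have hmax : m.IsMaximal := ker_maximal χ₀
    set s : Finset (Q →ₐ[K] Ω) := Finset.univ.filter fun χ => RingHom.ker χ ≠ m with hs
    obtain ⟨a, ha, ha'⟩ : ∃ a ∈ m, ∀ χ ∈ s, a ∉ RingHom.ker χ := by
      by_contra hcon
      push Not at hcon
      have hsub : (m : Set Q) ⊆ ⋃ χ ∈ (s : Set (Q →ₐ[K] Ω)), (RingHom.ker χ : Set Q) := by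
        intro b hb
        obtain ⟨χ, hχ, hb'⟩ := hcon b hb
        simp only [Set.mem_iUnion]
        exact ⟨χ, hχ, hb'⟩
      obtain ⟨χ, hχ, hle⟩ := (Ideal.subset_union_prime χ₀ χ₀
        (fun χ _ _ _ => (RingHom.ker_isPrime (χ : Q →+* Ω)))).mp hsub
      rw [hs, Finset.mem_filter] at hχ
      exact hχ.2 (hmax.eq_of_le (ker_maximal χ).ne_top hle).symm
    have hz : Algebra.norm K a = 0 := by
      by_contra hne
      have hu : IsUnit (Algebra.norm K a) := isUnit_iff_ne_zero.mpr hne
      rw [Algebra.norm_apply] at hu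
      have hu' : IsUnit (Algebra.lmul K Q a) := (LinearMap.isUnit_iff_isUnit_det _).mpr hu
      obtain ⟨b, hb⟩ : ∃ b, a * b = 1 := by
        have hsurj := ((Module.End.isUnit_iff _).mp hu').2
        obtain ⟨b, hb⟩ := hsurj 1
        exact ⟨b, hb⟩
      exact hmax.ne_top ((Ideal.eq_top_iff_one _).mpr (hb ▸ m.mul_mem_right b ha))
    have h1 := hN a
    rw [dt_self, hz, map_zero] at h1
    obtain ⟨χ, -, hχ⟩ := Finset.prod_eq_zero_iff.mp h1.symm
    have hχ0 : χ a = 0 := eq_zero_of_pow_eq_zero hχ
    have hne : N (RingHom.ker χ) ≠ 0 := by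
      intro h
      rw [h, pow_zero] at hχ
      exact one_ne_zero hχ
    by_cases hk : RingHom.ker χ = m
    · rw [hk] at hne
      exact hne h0
    · exact ha' χ (Finset.mem_filter.mpr ⟨Finset.mem_univ _, hk⟩) hχ0
  · rw [← hN a, dt_self]

end

end Pool.Agent.Helper68.ZN

end

section

/-!
# The norm of a finite algebra is a product over algebra homomorphisms
-/

set_option autoImplicit false

namespace Pool.Agent.Helper30.ZB

/-- The norm of a finite-dimensional commutative algebra is the product of algebra homomorphisms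
to an algebraically closed field, and all homomorphisms occur. -/
theorem norm_eq_prod {K A Ω : Type} [Field K] [CharZero K] [CommRing A] [Algebra K A]
    [FiniteDimensional K A] [Field Ω] [IsAlgClosed Ω] [Algebra K Ω] :
    ∃ (t : ℕ) (χ : Fin t → (A →ₐ[K] Ω)),
      (∀ a : A, algebraMap K Ω (Algebra.norm K a) = ∏ i, χ i a) ∧
      ∀ ψ : A →ₐ[K] Ω, ∃ i, χ i = ψ := by
  obtain ⟨n, hn, h⟩ := Pool.Agent.Helper68.ZN.norm_eq_prod K A Ω
  let e : (Σ χ : A →ₐ[K] Ω, Fin (n χ)) ≃ Fin (Fintype.card (Σ χ : A →ₐ[K] Ω, Fin (n χ))) :=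
    Fintype.equivFin _
  refine ⟨_, fun i => (e.symm i).1, fun a => ?_, fun ψ => ?_⟩
  · rw [h a, e.symm.prod_comp fun p : (Σ χ : A →ₐ[K] Ω, Fin (n χ)) => p.1 a, Fintype.prod_sigma]
    refine Finset.prod_congr rfl fun χ _ => ?_
    simp
  · refine ⟨e ⟨ψ, ⟨0, hn ψ⟩⟩, ?_⟩
    simp

end Pool.Agent.Helper30.ZB

end

section

/-!
# Points with a nonzero evaluation determinant
-/

set_option autoImplicit false

namespace Pool.Agent.Helper45.TNC

/-- Functions which are linearly independent on a set have a nonzero evaluation determinant. -/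
theorem exists_det_ne_zero {E X ι : Type} [Field E] [Fintype ι] [DecidableEq ι] (f : ι → X → E)
    (S : Set X) (h : ∀ c : ι → E, (∀ x ∈ S, ∑ i, c i * f i x = 0) → c = 0) :
    ∃ P : ι → X, (∀ i, P i ∈ S) ∧ (Matrix.of fun i j => f i (P j)).det ≠ 0 := by
  classical
  set s : Set (ι → E) := (fun x i => f i x) '' S with hs
  have htop : Submodule.span E s = ⊤ := by
    by_contra hcon
    obtain ⟨φ, hφ0, hφ⟩ := Submodule.exists_le_ker_of_lt_top _ (lt_top_iff_ne_top.2 hcon)
    apply hφ0
    have hφs : ∀ v : ι → E, φ v = ∑ i, φ (Pi.single i 1) * v i := by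
      intro v
      conv_lhs => rw [← (Pi.basisFun E ι).sum_repr v]
      rw [map_sum]
      refine Finset.sum_congr rfl fun i _ => ?_
      rw [map_smul, Pi.basisFun_repr, Pi.basisFun_apply, smul_eq_mul, mul_comm]
    have h2 := h (fun i => φ (Pi.single i 1)) (fun x hx => by
      have h3 := hφ (Submodule.subset_span (Set.mem_image_of_mem (fun x i => f i x) hx))
      rw [LinearMap.mem_ker, hφs] at h3
      exact h3)
    refine LinearMap.ext fun v => ?_
    rw [hφs, LinearMap.zero_apply]
    refine Finset.sum_eq_zero fun i _ => ?_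
    have h3 : φ (Pi.single i 1) = 0 := congrFun h2 i
    rw [h3, zero_mul]
  obtain ⟨b, hbs, hspan, hli⟩ := exists_linearIndependent E s
  rw [htop] at hspan
  let B : Module.Basis b E (ι → E) := Module.Basis.mk hli (by
    rw [Subtype.range_coe_subtype, Set.ofPred_mem_eq, hspan])
  have : Fintype b := FiniteDimensional.fintypeBasisIndex B
  have hcard : Fintype.card b = Fintype.card ι := by
    rw [← Module.finrank_eq_card_basis B, Module.finrank_fintype_fun_eq_card]
  let e : ι ≃ b := Fintype.equivOfCardEq hcard.symm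
  have hx : ∀ j : ι, ∃ x ∈ S, (fun i => f i x) = (e j : ι → E) := fun j => hbs (e j).2
  choose P hP hPe using hx
  refine ⟨P, hP, ?_⟩
  have h1 : LinearIndependent E fun j => (Matrix.of fun i j => f i (P j)).col j := by
    have h2 : (fun j => (Matrix.of fun i j => f i (P j)).col j) =
        (fun v : b => (v : ι → E)) ∘ e := by
      funext j
      exact hPe j
    rw [h2]
    exact hli.comp e e.injective
  have h2 := Matrix.linearIndependent_cols_iff_isUnit.1 h1
  exact ((Matrix.isUnit_iff_isUnit_det _).1 h2).ne_zero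

end Pool.Agent.Helper45.TNC

end
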