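import Pool.Agent.Helper29.MG2.T33

section

/-!
# The affine ring of a finite scheme
-/

set_option autoImplicit false

namespace Pool.Agent.Helper30.ZB

open MvPolynomial

variable {ν : ℕ} {k K : Type} [Field k] [Field K] [Algebra k K]

theorem Quot_lf_hom (c : Fin (ν + 1) → k) : (lf K c).IsHomogeneous 1 := by
  unfold lf
  refine IsHomogeneous.sum _ _ _ fun i _ => ?_
  have h1 := (isHomogeneous_C (Fin (ν + 1)) (algebraMap k K (c i))).mul (isHomogeneous_X K i)
  rwa [zero_add] at h1

/-- Division by `l` modulo `I`. -/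
theorem Quot_div {I : Ideal (MvPolynomial (Fin (ν + 1)) K)} (hI : Hom I)
    {c : Fin (ν + 1) → k} {m₁ : ℕ} (hm : Misses I c m₁) {m : ℕ} (hm₁ : m₁ ≤ m + 1)
    {p : MvPolynomial (Fin (ν + 1)) K} (hp : p.IsHomogeneous (m + 1)) :
    ∃ p' : MvPolynomial (Fin (ν + 1)) K, p'.IsHomogeneous m ∧ p - lf K c * p' ∈ I := by
  obtain ⟨j, hj, z, hz, hjz⟩ := Submodule.mem_sup.1 (hm (m + 1) hm₁ p hp)
  obtain ⟨q, rfl⟩ := Ideal.mem_span_singleton'.1 hz
  refine ⟨homogeneousComponent m q, homogeneousComponent_isHomogeneous m q, ?_⟩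
  have h4 : homogeneousComponent (m + 1) p = p := by
    rw [homogeneousComponent_of_mem (show p ∈ homogeneousSubmodule _ _ (m + 1) from hp),
      if_pos rfl]
  have h5 : p = homogeneousComponent (m + 1) j + lf K c * homogeneousComponent m q := by
    rw [← Dim_comp_mul (Quot_lf_hom c) q m, ← map_add, mul_comm (lf K c) q, hjz, h4]
  have h6 : p - lf K c * homogeneousComponent m q = homogeneousComponent (m + 1) j := by
    conv_lhs => rw [h5]
    ring
  rw [h6]
  exact hI j hj (m + 1)

/-- Repeated division by `l` modulo `I`. -/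
theorem Quot_div_pow {I : Ideal (MvPolynomial (Fin (ν + 1)) K)} (hI : Hom I)
    {c : Fin (ν + 1) → k} {m₁ : ℕ} (hm : Misses I c m₁) {m : ℕ} (hm₁ : m₁ ≤ m) (s : ℕ) :
    ∀ {p : MvPolynomial (Fin (ν + 1)) K}, p.IsHomogeneous (m + s) →
    ∃ p' : MvPolynomial (Fin (ν + 1)) K, p'.IsHomogeneous m ∧ p - lf K c ^ s * p' ∈ I := by
  induction s with
  | zero =>
    intro p hp
    exact ⟨p, hp, by simp⟩
  | succ s ih =>
    intro p hp
    obtain ⟨p₁, hp₁, h1⟩ := Quot_div hI hm (m := m + s) (by omega) hp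
    obtain ⟨p', hp', h2⟩ := ih hp₁
    refine ⟨p', hp', ?_⟩
    have h3 : p - lf K c ^ (s + 1) * p' = (p - lf K c * p₁) + lf K c * (p₁ - lf K c ^ s * p') := by
      ring
    rw [h3]
    exact I.add_mem h1 (I.mul_mem_left _ h2)

/-- Multiplication by `l`. -/
noncomputable def Quot_mul (I : Ideal (MvPolynomial (Fin (ν + 1)) K)) (c : Fin (ν + 1) → k)
    (m : ℕ) : W I m →ₗ[K] W I (m + 1) :=
  (LinearMap.mulLeft K (Ideal.Quotient.mk I (lf K c))).restrict (fun x hx => by
    obtain ⟨p, hp1, rfl⟩ := Dim_mem.1 hx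
    have h0 := (Quot_lf_hom (K := K) c).mul hp1
    rw [Nat.add_comm 1 m] at h0
    exact Dim_mem.2 ⟨lf K c * p, h0, map_mul _ _ _⟩)

theorem Quot_mul_surj {I : Ideal (MvPolynomial (Fin (ν + 1)) K)} (hI : Hom I)
    {c : Fin (ν + 1) → k} {m₁ : ℕ} (hm : Misses I c m₁) {m : ℕ} (hm₁ : m₁ ≤ m + 1) :
    Function.Surjective (Quot_mul I c m) := by
  rintro ⟨y, hy⟩
  obtain ⟨p, hp, rfl⟩ := Dim_mem.1 hy
  obtain ⟨p', hp', h1⟩ := Quot_div hI hm hm₁ hp
  refine ⟨⟨Ideal.Quotient.mk I p', Dim_mem.2 ⟨p', hp', rfl⟩⟩, Subtype.ext ?_⟩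
  change Ideal.Quotient.mk I (lf K c) * Ideal.Quotient.mk I p' = Ideal.Quotient.mk I p
  rw [← map_mul]
  exact ((Ideal.Quotient.eq).2 h1).symm

/-- Multiplication by `l` is onto in large degrees. -/
theorem Quot_anti {I : Ideal (MvPolynomial (Fin (ν + 1)) K)} (hI : Hom I)
    {c : Fin (ν + 1) → k} {m₁ : ℕ} (hm : Misses I c m₁) (m : ℕ) (hm₁ : m₁ ≤ m) :
    R I (m + 1) ≤ R I m := by
  have hfin0 := Dim_finite I m
  have hfin := Dim_finite I (m + 1)
  have h1 := LinearMap.finrank_range_le (Quot_mul I c m)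
  rw [LinearMap.range_eq_top.2 (Quot_mul_surj hI hm (by omega)), finrank_top] at h1
  exact h1

/-- Multiplication by `l` is injective when the dimension does not change. -/
theorem Quot_inj {I : Ideal (MvPolynomial (Fin (ν + 1)) K)} (hI : Hom I)
    {c : Fin (ν + 1) → k} {m₁ : ℕ} (hm : Misses I c m₁) {m : ℕ} (hm₁ : m₁ ≤ m)
    (hR : R I (m + 1) = R I m) {p : MvPolynomial (Fin (ν + 1)) K} (hp : p.IsHomogeneous m)
    (hlp : lf K c * p ∈ I) : p ∈ I := by
  have hfin0 := Dim_finite I m
  have hfin := Dim_finite I (m + 1)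
  have h1 : Function.Injective (Quot_mul I c m) :=
    (LinearMap.injective_iff_surjective_of_finrank_eq_finrank hR.symm).2
      (Quot_mul_surj hI hm (by omega))
  have h2 : Quot_mul I c m ⟨Ideal.Quotient.mk I p, Dim_mem.2 ⟨p, hp, rfl⟩⟩ = 0 := by
    refine Subtype.ext ?_
    change Ideal.Quotient.mk I (lf K c) * Ideal.Quotient.mk I p = 0
    rw [← map_mul]
    exact Ideal.Quotient.eq_zero_iff_mem.2 hlp
  have h3 := h1 (h2.trans (map_zero _).symm)
  exact Ideal.Quotient.eq_zero_iff_mem.1 (congrArg Subtype.val h3)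

/-- The affine ring. -/
theorem Quot_main {I : Ideal (MvPolynomial (Fin (ν + 1)) K)} (hI : Hom I)
    {c : Fin (ν + 1) → k} {m₁ : ℕ} (hm : Misses I c m₁) :
    FiniteDimensional K (Qo I c) ∧ ∃ m₂, m₁ ≤ m₂ ∧ ∀ m, m₂ ≤ m →
      (∀ x : Qo I c, ∃ p : MvPolynomial (Fin (ν + 1)) K, p.IsHomogeneous m ∧ cls I c p = x) ∧
      (∀ p : MvPolynomial (Fin (ν + 1)) K, p.IsHomogeneous m → cls I c p = 0 → p ∈ I) ∧
      R I m = Module.finrank K (Qo I c) := by
  classical
  -- the dimension is eventually constant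
  obtain ⟨m₂, hm₂, hconst⟩ : ∃ m₂, m₁ ≤ m₂ ∧ ∀ m, m₂ ≤ m → R I (m + 1) = R I m := by
    have h1 : ∀ s, R I (m₁ + s + 1) ≤ R I (m₁ + s) := fun s => Quot_anti hI hm _ (by omega)
    have h2 : Antitone fun s => R I (m₁ + s) := antitone_nat_of_succ_le h1
    obtain ⟨s₀, -, hs₀⟩ := (measure fun s => R I (m₁ + s)).wf.has_min Set.univ ⟨0, trivial⟩
    have h3 : ∀ s, R I (m₁ + s₀) ≤ R I (m₁ + s) := fun s => not_lt.1 (hs₀ s trivial)
    refine ⟨m₁ + s₀, by omega, fun m hms => ?_⟩
    obtain ⟨t, rfl⟩ := Nat.exists_eq_add_of_le hms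
    have h4 := h3 (s₀ + t)
    have h5 := h3 (s₀ + t + 1)
    have h6 : R I (m₁ + (s₀ + t)) ≤ R I (m₁ + s₀) := h2 (Nat.le_add_right _ _)
    have h7 : R I (m₁ + (s₀ + t + 1)) ≤ R I (m₁ + s₀) :=
      h2 (show s₀ ≤ s₀ + t + 1 by omega)
    have h8 : m₁ + s₀ + t + 1 = m₁ + (s₀ + t + 1) := by ring
    have h9 : m₁ + s₀ + t = m₁ + (s₀ + t) := by ring
    rw [h8, h9]
    exact le_antisymm (h7.trans h4) (h6.trans h5)
  have hcl : cls I c (lf K c) = 1 := by
    have h1 : Ideal.Quotient.mk (I ⊔ Ideal.span {lf K c - 1}) (lf K c) =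
        Ideal.Quotient.mk (I ⊔ Ideal.span {lf K c - 1}) 1 :=
      Ideal.Quotient.eq.2 (Ideal.mem_sup_right (Ideal.mem_span_singleton_self _))
    rw [map_one] at h1
    exact h1
  have hI0 : ∀ p ∈ I, cls I c p = 0 := fun p hp =>
    Ideal.Quotient.eq_zero_iff_mem.2 (Ideal.mem_sup_left hp)
  -- surjectivity
  have hsurj : ∀ m, m₁ ≤ m → ∀ x : Qo I c,
      ∃ p : MvPolynomial (Fin (ν + 1)) K, p.IsHomogeneous m ∧ cls I c p = x := by
    intro m hmm x
    obtain ⟨g, rfl⟩ := Ideal.Quotient.mk_surjective x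
    have h1 : ∀ i, ∃ p : MvPolynomial (Fin (ν + 1)) K, p.IsHomogeneous m ∧
        cls I c p = cls I c (homogeneousComponent i g) := by
      intro i
      rcases le_total i m with him | him
      · obtain ⟨t, rfl⟩ := Nat.exists_eq_add_of_le him
        refine ⟨lf K c ^ t * homogeneousComponent i g, ?_, ?_⟩
        · have h2 := ((Quot_lf_hom (K := K) c).pow t).mul (homogeneousComponent_isHomogeneous i g)
          rw [show 1 * t + i = i + t by ring] at h2
          exact h2
        · change Ideal.Quotient.mk _ (lf K c ^ t * homogeneousComponent i g) = _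
          rw [map_mul, map_pow]
          change cls I c (lf K c) ^ t * _ = _
          rw [hcl, one_pow, one_mul]
      · obtain ⟨t, rfl⟩ := Nat.exists_eq_add_of_le him
        obtain ⟨p', hp', h2⟩ := Quot_div_pow hI hm hmm t (homogeneousComponent_isHomogeneous _ g)
        refine ⟨p', hp', ?_⟩
        have h3 := hI0 _ h2
        change Ideal.Quotient.mk _ _ = 0 at h3
        rw [map_sub, map_mul, map_pow, sub_eq_zero] at h3
        have h4 : cls I c (homogeneousComponent (m + t) g) =
            cls I c (lf K c) ^ t * cls I c p' := h3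
        rw [h4, hcl, one_pow, one_mul]
    choose p hp1 hp2 using h1
    refine ⟨∑ i ∈ Finset.range (g.totalDegree + 1), p i, IsHomogeneous.sum _ _ _ fun i _ => hp1 i,
      ?_⟩
    change Ideal.Quotient.mk _ _ = _
    rw [map_sum]
    conv_rhs => rw [← sum_homogeneousComponent g, map_sum]
    exact Finset.sum_congr rfl fun i _ => hp2 i
  -- injectivity
  have hpow : ∀ (s m : ℕ), m₂ ≤ m → ∀ p : MvPolynomial (Fin (ν + 1)) K, p.IsHomogeneous m →
      lf K c ^ s * p ∈ I → p ∈ I := by
    intro s
    induction s with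
    | zero =>
      intro m _ p _ h
      simpa using h
    | succ s ih =>
      intro m hmm p hp h
      have h1 := (Quot_lf_hom (K := K) c).mul hp
      have h2 : lf K c ^ s * (lf K c * p) ∈ I := by
        rw [← mul_assoc, ← pow_succ]
        exact h
      have h3 := ih (1 + m) (by omega) _ h1 h2
      exact Quot_inj hI hm (by omega) (hconst m hmm) hp h3
  have hinj : ∀ m, m₂ ≤ m → ∀ p : MvPolynomial (Fin (ν + 1)) K, p.IsHomogeneous m →
      cls I c p = 0 → p ∈ I := by
    intro m hmm p hp h0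
    obtain ⟨j, hj, z, hz, hjz⟩ := Submodule.mem_sup.1 (Ideal.Quotient.eq_zero_iff_mem.1 h0)
    obtain ⟨a, rfl⟩ := Ideal.mem_span_singleton'.1 hz
    have hp' : ∀ i, homogeneousComponent i p = if i = m then p else 0 := by
      intro i
      rw [homogeneousComponent_of_mem (show p ∈ homogeneousSubmodule _ _ m from hp)]
    -- the components
    have hrec : ∀ i, lf K c * homogeneousComponent i a - homogeneousComponent (i + 1) a -
        homogeneousComponent (i + 1) p ∈ I := by
      intro i
      have h1 := congrArg (homogeneousComponent (i + 1)) hjz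
      rw [map_add, mul_sub, mul_one, map_sub, mul_comm a, Dim_comp_mul (Quot_lf_hom c)] at h1
      have h2 : lf K c * homogeneousComponent i a - homogeneousComponent (i + 1) a -
        homogeneousComponent (i + 1) p = - homogeneousComponent (i + 1) j := by
        rw [← h1]
        ring
      rw [h2]
      exact I.neg_mem (hI j hj _)
    have hzero : homogeneousComponent 0 a + homogeneousComponent 0 p ∈ I := by
      have h1 := congrArg (homogeneousComponent 0) hjz
      rw [map_add, mul_sub, mul_one, map_sub, mul_comm a,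
        Dim_comp_mul_lt (Quot_lf_hom c) a Nat.zero_lt_one] at h1
      have h2 : homogeneousComponent 0 a + homogeneousComponent 0 p = homogeneousComponent 0 j := by
        rw [← h1]
        ring
      rw [h2]
      exact hI j hj _
    have hlow : ∀ i, i < m → homogeneousComponent i a ∈ I := by
      intro i
      induction i with
      | zero =>
        intro h1
        rw [hp' 0, if_neg (by omega), add_zero] at hzero
        exact hzero
      | succ i ih =>
        intro h1
        have h2 := hrec i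
        rw [hp' (i + 1), if_neg (by omega), sub_zero] at h2
        have h3 : homogeneousComponent (i + 1) a = lf K c * homogeneousComponent i a -
            (lf K c * homogeneousComponent i a - homogeneousComponent (i + 1) a) := by ring
        rw [h3]
        exact I.sub_mem (I.mul_mem_left _ (ih (by omega))) h2
    have hm0 : homogeneousComponent m a + p ∈ I := by
      rcases Nat.eq_zero_or_pos m with h | h
      · subst h
        rw [hp' 0, if_pos rfl] at hzero
        exact hzero
      · obtain ⟨i, rfl⟩ : ∃ i, m = i + 1 := ⟨m - 1, by omega⟩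
        have h2 := hrec i
        rw [hp' (i + 1), if_pos rfl] at h2
        have h3 : homogeneousComponent (i + 1) a + p = lf K c * homogeneousComponent i a -
            (lf K c * homogeneousComponent i a - homogeneousComponent (i + 1) a - p) := by ring
        rw [h3]
        exact I.sub_mem (I.mul_mem_left _ (hlow i (by omega))) h2
    have hhigh : ∀ t, homogeneousComponent (m + t) a + lf K c ^ t * p ∈ I := by
      intro t
      induction t with
      | zero => simpa using hm0
      | succ t ih =>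
        have h2 := hrec (m + t)
        rw [hp' (m + t + 1), if_neg (by omega), sub_zero] at h2
        have h3 : homogeneousComponent (m + (t + 1)) a + lf K c ^ (t + 1) * p =
            lf K c * (homogeneousComponent (m + t) a + lf K c ^ t * p) -
            (lf K c * homogeneousComponent (m + t) a - homogeneousComponent (m + t + 1) a) := by
          rw [← add_assoc]
          ring
        rw [h3]
        exact I.sub_mem (I.mul_mem_left _ ih) h2
    have h4 := hhigh (a.totalDegree + 1)
    rw [homogeneousComponent_eq_zero _ _ (by omega), zero_add] at h4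
    exact hpow _ m hmm p hp h4
  -- the linear equivalence
  let π : (MvPolynomial (Fin (ν + 1)) K ⧸ I) →ₐ[K] Qo I c := Ideal.Quotient.factorₐ K le_sup_left
  have hπ : ∀ p : MvPolynomial (Fin (ν + 1)) K, π (Ideal.Quotient.mk I p) = cls I c p :=
    fun p => rfl
  have hs : ∀ m, m₁ ≤ m → Function.Surjective (π.toLinearMap.domRestrict (W I m)) := by
    intro m hmm x
    obtain ⟨p, hp1, hp2⟩ := hsurj m hmm x
    exact ⟨⟨Ideal.Quotient.mk I p, Dim_mem.2 ⟨p, hp1, rfl⟩⟩, hp2⟩
  have hfinQ : FiniteDimensional K (Qo I c) := by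
    have hfin := Dim_finite I m₂
    exact Module.Finite.of_surjective _ (hs m₂ hm₂)
  refine ⟨hfinQ, m₂, hm₂, fun m hmm => ⟨hsurj m (by omega), hinj m hmm, ?_⟩⟩
  have hi : Function.Injective (π.toLinearMap.domRestrict (W I m)) := by
    rw [← LinearMap.ker_eq_bot, LinearMap.ker_eq_bot']
    rintro ⟨y, hy⟩ h0
    obtain ⟨p, hp1, rfl⟩ := Dim_mem.1 hy
    refine Subtype.ext ?_
    exact Ideal.Quotient.eq_zero_iff_mem.2 (hinj m hmm p hp1 h0)
  exact (LinearEquiv.ofBijective _ ⟨hi, hs m (by omega)⟩).finrank_eq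

end Pool.Agent.Helper30.ZB

end
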