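import Mathlib

section

/-!
# Project TG: places with a product formula, contact of points

`K` is a field with an admissible family of absolute values (Mathlib: heights), for instance a
number field. `ls f` is the sum of a function over all absolute values of the family (with
multiplicity); `FS f` says that `f` vanishes at almost all non-archimedean absolute values.
-/

set_option autoImplicit false

namespace Pool.Agent.Helper29.TG

open Height AdmissibleAbsValues

variable {K : Type} [Field K]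

/-- The maximum norm of a vector. -/
noncomputable def nm {ι : Type} (v : AbsoluteValue K ℝ) (x : ι → K) : ℝ := ⨆ i, v (x i)

/-- The vector of the `2 × 2` minors. -/
def cr {ι : Type} (x y : ι → K) : ι × ι → K := fun q => x q.1 * y q.2 - x q.2 * y q.1

/-- The contact of two points at an absolute value. -/
noncomputable def ct {ι : Type} (v : AbsoluteValue K ℝ) (x y : ι → K) : ℝ :=
  Real.log (nm v x) + Real.log (nm v y) - Real.log (nm v (cr x y))

/-- The value of a linear form. -/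
def lin {ι : Type} [Fintype ι] (a x : ι → K) : K := ∑ i, a i * x i

/-- The defect `D log |x| - log |Q(x)|` of a form `Q` of degree `D` at a point. -/
noncomputable def df {ι : Type} (v : AbsoluteValue K ℝ) (Q : MvPolynomial ι K) (D : ℕ)
    (x : ι → K) : ℝ := D * Real.log (nm v x) - Real.log (v (MvPolynomial.eval x Q))

variable [AdmissibleAbsValues K]

/-- The sum over all absolute values of the family. -/
noncomputable def ls (f : AbsoluteValue K ℝ → ℝ) : ℝ :=
  ((archAbsVal (K := K)).map f).sum + ∑ᶠ v : nonarchAbsVal (K := K), f v.val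

/-- The function vanishes at almost all non-archimedean absolute values. -/
def FS (f : AbsoluteValue K ℝ → ℝ) : Prop :=
  (Function.support fun v : nonarchAbsVal (K := K) => f v.val).Finite

/-- An absolute value of the family. -/
def Mem (v : AbsoluteValue K ℝ) : Prop :=
  v ∈ archAbsVal (K := K) ∨ v ∈ nonarchAbsVal (K := K)

end Pool.Agent.Helper29.TG

end

section

/-!
# Project TG: the sum over all absolute values
-/

set_option autoImplicit false

namespace Pool.Agent.Helper29.TG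

open Height AdmissibleAbsValues

variable {K : Type} [Field K] [AdmissibleAbsValues K]

theorem FS.add {f g : AbsoluteValue K ℝ → ℝ} (hf : FS f) (hg : FS g) : FS (fun v => f v + g v) :=
  (Set.Finite.union hf hg).subset (Function.support_add _ _)

theorem FS.sub {f g : AbsoluteValue K ℝ → ℝ} (hf : FS f) (hg : FS g) : FS (fun v => f v - g v) :=
  (Set.Finite.union hf hg).subset (Function.support_sub _ _)

theorem FS.mul_left (c : ℝ) {f : AbsoluteValue K ℝ → ℝ} (hf : FS f) : FS (fun v => c * f v) := by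
  refine Set.Finite.subset hf fun v hv => ?_
  rw [Function.mem_support] at hv ⊢
  exact right_ne_zero_of_mul hv

theorem FS.zero : FS (fun _ : AbsoluteValue K ℝ => (0 : ℝ)) := by
  unfold FS
  simp

theorem FS.mono {f g : AbsoluteValue K ℝ → ℝ} (hg : FS g)
    (h : ∀ v ∈ nonarchAbsVal (K := K), g v = 0 → f v = 0) : FS f := by
  refine Set.Finite.subset hg fun v hv => ?_
  rw [Function.mem_support] at hv ⊢
  exact fun h0 => hv (h v.val v.2 h0)

theorem FS.congr {f g : AbsoluteValue K ℝ → ℝ} (hg : FS g)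
    (h : ∀ v ∈ nonarchAbsVal (K := K), f v = g v) : FS f :=
  hg.mono fun v hv h0 => by rw [h v hv, h0]

theorem FS.sum {α : Type*} (s : Finset α) {f : α → AbsoluteValue K ℝ → ℝ}
    (hf : ∀ a ∈ s, FS (f a)) : FS (fun v => ∑ a ∈ s, f a v) := by
  classical
  induction s using Finset.induction_on with
  | empty => simpa using FS.zero
  | insert a s ha ih =>
    simp only [Finset.sum_insert ha]
    exact (hf a (Finset.mem_insert_self _ _)).add
      (ih fun b hb => hf b (Finset.mem_insert_of_mem hb))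

theorem FS.of_finite {f : AbsoluteValue K ℝ → ℝ} {B : Set (AbsoluteValue K ℝ)} (hB : B.Finite)
    (h : ∀ v ∈ nonarchAbsVal (K := K), v ∉ B → f v = 0) : FS f := by
  refine (hB.preimage (f := fun v : nonarchAbsVal (K := K) => v.val)
    Subtype.val_injective.injOn).subset fun v hv => ?_
  rw [Function.mem_support] at hv
  by_contra hcon
  exact hv (h v.val v.2 hcon)

/-- outside a finite set the function is `0` -/
theorem FS.exists_finite {f : AbsoluteValue K ℝ → ℝ} (hf : FS f) :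
    ∃ B : Set (AbsoluteValue K ℝ), B.Finite ∧ ∀ v ∈ nonarchAbsVal (K := K), v ∉ B → f v = 0 := by
  refine ⟨_, Set.Finite.image (fun v : nonarchAbsVal (K := K) => v.val) hf, fun v hv hvB => ?_⟩
  by_contra hcon
  exact hvB ⟨⟨v, hv⟩, hcon, rfl⟩

theorem ls_add {f g : AbsoluteValue K ℝ → ℝ} (hf : FS f) (hg : FS g) :
    ls (fun v => f v + g v) = ls f + ls g := by
  unfold ls
  rw [Multiset.sum_map_add, finsum_add_distrib hf hg]
  ring

theorem ls_mul_left (c : ℝ) (f : AbsoluteValue K ℝ → ℝ) :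
    ls (fun v => c * f v) = c * ls f := by
  unfold ls
  rw [Multiset.sum_map_mul_left, ← mul_finsum, mul_add]

theorem ls_sub {f g : AbsoluteValue K ℝ → ℝ} (hf : FS f) (hg : FS g) :
    ls (fun v => f v - g v) = ls f - ls g := by
  have h1 : (fun v => f v - g v) = fun v => f v + (-1) * g v := by
    funext v
    ring
  rw [h1, ls_add hf (hg.mul_left _), ls_mul_left]
  ring

theorem ls_zero : ls (fun _ : AbsoluteValue K ℝ => (0 : ℝ)) = 0 := by
  unfold ls
  simp

theorem ls_sum {α : Type*} (s : Finset α) {f : α → AbsoluteValue K ℝ → ℝ}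
    (hf : ∀ a ∈ s, FS (f a)) : ls (fun v => ∑ a ∈ s, f a v) = ∑ a ∈ s, ls (f a) := by
  classical
  induction s using Finset.induction_on with
  | empty => simpa using ls_zero
  | insert a s ha ih =>
    simp only [Finset.sum_insert ha]
    rw [ls_add (hf a (Finset.mem_insert_self _ _))
      (FS.sum s fun b hb => hf b (Finset.mem_insert_of_mem hb)),
      ih fun b hb => hf b (Finset.mem_insert_of_mem hb)]

theorem ls_mono {f g : AbsoluteValue K ℝ → ℝ} (hf : FS f) (hg : FS g)
    (h : ∀ v, Mem v → f v ≤ g v) : ls f ≤ ls g := by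
  unfold ls
  refine add_le_add ?_ ?_
  · exact Multiset.sum_map_le_sum_map _ _ fun v hv => h v (Or.inl hv)
  · classical
    set s : Finset (nonarchAbsVal (K := K)) := hf.toFinset ∪ hg.toFinset with hs
    rw [finsum_eq_sum_of_support_subset (s := s) _ (by
        intro v hv
        rw [hs, Finset.coe_union, Set.mem_union]
        exact Or.inl (hf.mem_toFinset.2 hv)),
      finsum_eq_sum_of_support_subset (s := s) _ (by
        intro v hv
        rw [hs, Finset.coe_union, Set.mem_union]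
        exact Or.inr (hg.mem_toFinset.2 hv))]
    exact Finset.sum_le_sum fun v _ => h v.val (Or.inr v.2)

theorem ls_nonneg {f : AbsoluteValue K ℝ → ℝ} (hf : FS f) (h : ∀ v, Mem v → 0 ≤ f v) :
    0 ≤ ls f := by
  have := ls_mono FS.zero hf h
  rwa [ls_zero] at this

theorem FS_log {x : K} (hx : x ≠ 0) : FS (fun v => Real.log (v x)) := by
  have h := hasFiniteMulSupport (K := K) hx
  refine Set.Finite.subset h fun v hv => ?_
  rw [Function.mem_support] at hv
  rw [Function.mem_mulSupport]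
  intro h1
  refine hv ?_
  change Real.log (v.val x) = 0
  rw [h1, Real.log_one]

theorem ls_log {x : K} (hx : x ≠ 0) : ls (fun v => Real.log (v x)) = 0 := by
  have h := product_formula (K := K) hx
  have hpos : ∀ v : AbsoluteValue K ℝ, 0 < v x := fun v => v.pos hx
  have h1 : ((archAbsVal (K := K)).map (· x)).prod ≠ 0 := by
    intro h0
    rw [h0, zero_mul] at h
    exact zero_ne_one h
  have h2 : (∏ᶠ v : nonarchAbsVal (K := K), v.val x) ≠ 0 := by
    intro h0
    rw [h0, mul_zero] at h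
    exact zero_ne_one h
  have h3 := congrArg Real.log h
  rw [Real.log_one, Real.log_mul h1 h2] at h3
  unfold ls
  rw [← h3]
  congr 1
  · rw [Real.log_multiset_prod]
    · rw [Multiset.map_map]
      rfl
    · intro a ha
      obtain ⟨v, -, rfl⟩ := Multiset.mem_map.1 ha
      exact (hpos v).ne'
  · exact (Real.log_finprod (f := fun v : nonarchAbsVal (K := K) => v.val x)
      (fun v => hpos v.val)).symm

end Pool.Agent.Helper29.TG

end

section

/-!
# Project TG: contact of two points (module of helper45)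
-/

set_option autoImplicit false

namespace Pool.Agent.Helper29.TG

open Height AdmissibleAbsValues

variable {K : Type} [Field K]

section one

variable {ι : Type} [Finite ι]

theorem le_nm (v : AbsoluteValue K ℝ) (x : ι → K) (i : ι) : v (x i) ≤ nm v x :=
  le_ciSup (f := fun i => v (x i)) (Set.finite_range _).bddAbove i

omit [Finite ι] in
theorem nm_nonneg (v : AbsoluteValue K ℝ) (x : ι → K) : 0 ≤ nm v x :=
  Real.iSup_nonneg fun i => v.nonneg _

omit [Finite ι] in
theorem nm_le {v : AbsoluteValue K ℝ} {x : ι → K} {c : ℝ} (hc : 0 ≤ c) (h : ∀ i, v (x i) ≤ c) :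
    nm v x ≤ c :=
  Real.iSup_le h hc

theorem exists_nm_eq (v : AbsoluteValue K ℝ) {x : ι → K} (hx : x ≠ 0) :
    ∃ i, x i ≠ 0 ∧ nm v x = v (x i) := by
  obtain ⟨i₁, hi₁⟩ := Function.ne_iff.1 hx
  have : Nonempty ι := ⟨i₁⟩
  obtain ⟨i, hi⟩ := Finite.exists_max fun i => v (x i)
  refine ⟨i, ?_, le_antisymm (nm_le (v.nonneg _) hi) (le_nm v x i)⟩
  intro h0
  have h1 := hi i₁
  rw [h0, map_zero] at h1
  exact absurd (v.pos hi₁) (not_lt.2 h1)

theorem nm_pos (v : AbsoluteValue K ℝ) {x : ι → K} (hx : x ≠ 0) : 0 < nm v x := by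
  obtain ⟨i, hi, h⟩ := exists_nm_eq v hx
  rw [h]
  exact v.pos hi

omit [Finite ι] in
theorem nm_smul (v : AbsoluteValue K ℝ) (c : K) (x : ι → K) : nm v (c • x) = v c * nm v x := by
  unfold nm
  rw [Real.mul_iSup_of_nonneg (v.nonneg c)]
  simp only [Pi.smul_apply, smul_eq_mul, map_mul]

omit [Finite ι] in
theorem left_ne_zero {x y : ι → K} (h : cr x y ≠ 0) : x ≠ 0 := by
  rintro rfl
  apply h
  funext q
  simp [cr]

omit [Finite ι] in
theorem right_ne_zero {x y : ι → K} (h : cr x y ≠ 0) : y ≠ 0 := by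
  rintro rfl
  apply h
  funext q
  simp [cr]

theorem contact_cr_le {v : AbsoluteValue K ℝ} (hv : IsNonarchimedean v) (x y : ι → K) :
    nm v (cr x y) ≤ nm v x * nm v y := by
  have h0 := mul_nonneg (nm_nonneg v x) (nm_nonneg v y)
  refine nm_le h0 fun q => ?_
  have h1 : ∀ a b : ι, v (x a * y b) ≤ nm v x * nm v y := fun a b => by
    rw [map_mul]
    exact mul_le_mul (le_nm v x a) (le_nm v y b) (v.nonneg _) (nm_nonneg v x)
  unfold cr
  rw [sub_eq_add_neg]
  refine (hv _ _).trans (max_le (h1 _ _) ?_)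
  rw [map_neg_eq_map]
  exact h1 _ _

theorem contact_cr_le_two (v : AbsoluteValue K ℝ) (x y : ι → K) :
    nm v (cr x y) ≤ 2 * (nm v x * nm v y) := by
  have h0 := mul_nonneg (nm_nonneg v x) (nm_nonneg v y)
  refine nm_le (by positivity) fun q => ?_
  have h1 : ∀ a b : ι, v (x a * y b) ≤ nm v x * nm v y := fun a b => by
    rw [map_mul]
    exact mul_le_mul (le_nm v x a) (le_nm v y b) (v.nonneg _) (nm_nonneg v x)
  unfold cr
  rw [sub_eq_add_neg]
  refine (v.add_le _ _).trans ?_
  rw [map_neg_eq_map]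
  linarith [h1 q.1 q.2, h1 q.2 q.1]

theorem ct_nonneg {v : AbsoluteValue K ℝ} (hv : IsNonarchimedean v) {x y : ι → K}
    (h : cr x y ≠ 0) : 0 ≤ ct v x y := by
  have hx := nm_pos v (left_ne_zero h)
  have hy := nm_pos v (right_ne_zero h)
  have h1 := Real.log_le_log (nm_pos v h) (contact_cr_le hv x y)
  rw [Real.log_mul hx.ne' hy.ne'] at h1
  unfold ct
  linarith

theorem neg_log_two_le_ct (v : AbsoluteValue K ℝ) {x y : ι → K} (h : cr x y ≠ 0) :
    -Real.log 2 ≤ ct v x y := by
  have hx := nm_pos v (left_ne_zero h)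
  have hy := nm_pos v (right_ne_zero h)
  have h1 := Real.log_le_log (nm_pos v h) (contact_cr_le_two v x y)
  rw [Real.log_mul two_ne_zero (mul_pos hx hy).ne', Real.log_mul hx.ne' hy.ne'] at h1
  unfold ct
  linarith

omit [Finite ι] in
theorem contact_identity (x y z : ι → K) (k : ι) (q : ι × ι) :
    z k * cr x y q = (-cr x z (k, q.1)) * y q.2 + x k * (-cr y z q) -
      (-cr x z (k, q.2)) * y q.1 := by
  simp only [cr]
  ring

/-- the three terms of the identity -/
theorem contact_terms (v : AbsoluteValue K ℝ) (x y z : ι → K) (k : ι) (q : ι × ι) :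
    v ((-cr x z (k, q.1)) * y q.2) ≤
      max (nm v (cr x z) * nm v y) (nm v x * nm v (cr y z)) ∧
    v (x k * (-cr y z q)) ≤ max (nm v (cr x z) * nm v y) (nm v x * nm v (cr y z)) ∧
    v ((-cr x z (k, q.2)) * y q.1) ≤
      max (nm v (cr x z) * nm v y) (nm v x * nm v (cr y z)) := by
  refine ⟨?_, ?_, ?_⟩
  · rw [map_mul, map_neg_eq_map]
    exact (mul_le_mul (le_nm v _ _) (le_nm v _ _) (v.nonneg _) (nm_nonneg _ _)).trans
      (le_max_left _ _)
  · rw [map_mul, map_neg_eq_map]
    exact (mul_le_mul (le_nm v _ _) (le_nm v _ _) (v.nonneg _) (nm_nonneg _ _)).trans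
      (le_max_right _ _)
  · rw [map_mul, map_neg_eq_map]
    exact (mul_le_mul (le_nm v _ _) (le_nm v _ _) (v.nonneg _) (nm_nonneg _ _)).trans
      (le_max_left _ _)

theorem contact_three {v : AbsoluteValue K ℝ} (hv : IsNonarchimedean v) {x y z : ι → K}
    (hz : z ≠ 0) :
    nm v z * nm v (cr x y) ≤ max (nm v (cr x z) * nm v y) (nm v x * nm v (cr y z)) := by
  obtain ⟨k, hk, hkz⟩ := exists_nm_eq v hz
  have h0 : 0 ≤ max (nm v (cr x z) * nm v y) (nm v x * nm v (cr y z)) :=
    (mul_nonneg (nm_nonneg _ _) (nm_nonneg _ _)).trans (le_max_left _ _)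
  have h1 : nm v z * nm v (cr x y) = nm v (z k • cr x y) := by rw [nm_smul, hkz]
  rw [h1]
  refine nm_le h0 fun q => ?_
  rw [Pi.smul_apply, smul_eq_mul, contact_identity x y z k q, sub_eq_add_neg]
  obtain ⟨t1, t2, t3⟩ := contact_terms v x y z k q
  refine (hv _ _).trans (max_le ((hv _ _).trans (max_le t1 t2)) ?_)
  rw [map_neg_eq_map]
  exact t3

theorem contact_three_log (v : AbsoluteValue K ℝ) {x y z : ι → K} (hz : z ≠ 0) :
    nm v z * nm v (cr x y) ≤
      3 * max (nm v (cr x z) * nm v y) (nm v x * nm v (cr y z)) := by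
  obtain ⟨k, hk, hkz⟩ := exists_nm_eq v hz
  have h0 : 0 ≤ max (nm v (cr x z) * nm v y) (nm v x * nm v (cr y z)) :=
    (mul_nonneg (nm_nonneg _ _) (nm_nonneg _ _)).trans (le_max_left _ _)
  have h1 : nm v z * nm v (cr x y) = nm v (z k • cr x y) := by rw [nm_smul, hkz]
  rw [h1]
  refine nm_le (by positivity) fun q => ?_
  rw [Pi.smul_apply, smul_eq_mul, contact_identity x y z k q, sub_eq_add_neg]
  obtain ⟨t1, t2, t3⟩ := contact_terms v x y z k q
  refine (v.add_le _ _).trans ?_
  rw [map_neg_eq_map]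
  have h2 := v.add_le ((-cr x z (k, q.1)) * y q.2) (x k * (-cr y z q))
  linarith

theorem contact_log {v : AbsoluteValue K ℝ} {x y z : ι → K}
    (hxy : cr x y ≠ 0) (hxz : cr x z ≠ 0) (hyz : cr y z ≠ 0) {c : ℝ} (hc : 0 < c)
    (h : nm v z * nm v (cr x y) ≤
      c * max (nm v (cr x z) * nm v y) (nm v x * nm v (cr y z))) :
    min (ct v x z) (ct v y z) ≤ ct v x y + Real.log c := by
  have hx := nm_pos v (left_ne_zero hxy)
  have hy := nm_pos v (right_ne_zero hxy)
  have hz := nm_pos v (right_ne_zero hxz)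
  have h1 := nm_pos v hxy
  have h2 := nm_pos v hxz
  have h3 := nm_pos v hyz
  unfold ct
  rcases le_total (nm v (cr x z) * nm v y) (nm v x * nm v (cr y z)) with hle | hle
  · rw [max_eq_right hle] at h
    have h4 := Real.log_le_log (mul_pos hz h1) h
    rw [Real.log_mul hz.ne' h1.ne', Real.log_mul hc.ne' (mul_pos hx h3).ne',
      Real.log_mul hx.ne' h3.ne'] at h4
    refine (min_le_right _ _).trans ?_
    linarith
  · rw [max_eq_left hle] at h
    have h4 := Real.log_le_log (mul_pos hz h1) h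
    rw [Real.log_mul hz.ne' h1.ne', Real.log_mul hc.ne' (mul_pos h2 hy).ne',
      Real.log_mul h2.ne' hy.ne'] at h4
    refine (min_le_left _ _).trans ?_
    linarith

/-- ultrametric inequality -/
theorem ct_min {v : AbsoluteValue K ℝ} (hv : IsNonarchimedean v) {x y z : ι → K}
    (hxy : cr x y ≠ 0) (hxz : cr x z ≠ 0) (hyz : cr y z ≠ 0) :
    min (ct v x z) (ct v y z) ≤ ct v x y := by
  have h := contact_log (v := v) hxy hxz hyz zero_lt_one
    (by rw [one_mul]; exact contact_three hv (right_ne_zero hxz))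
  rwa [Real.log_one, add_zero] at h

theorem ct_min_log (v : AbsoluteValue K ℝ) {x y z : ι → K}
    (hxy : cr x y ≠ 0) (hxz : cr x z ≠ 0) (hyz : cr y z ≠ 0) :
    min (ct v x z) (ct v y z) ≤ ct v x y + Real.log 3 :=
  contact_log hxy hxz hyz (by norm_num) (contact_three_log v (right_ne_zero hxz))

omit [Finite ι] in
theorem contact_sum {v : AbsoluteValue K ℝ} {Γ : Finset ℕ}
    (hΓ : Γ.Nonempty) {y : ℕ → ι → K} {z : ι → K} {t : ℕ → ℕ → ℝ}
    (h0 : ∀ i ∈ Γ, ∀ j ∈ Γ.erase i, 0 ≤ t i j)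
    (h : ∀ i ∈ Γ, ∀ j ∈ Γ, i ≠ j → min (ct v (y i) z) (ct v (y j) z) ≤ t i j) :
    ∃ i₀ ∈ Γ, ∑ i ∈ Γ, ct v (y i) z ≤
      ct v (y i₀) z + ∑ i ∈ Γ, ∑ j ∈ Γ.erase i, t i j := by
  classical
  obtain ⟨i₀, hi₀, hmax⟩ := Γ.exists_max_image (fun i => ct v (y i) z) hΓ
  refine ⟨i₀, hi₀, ?_⟩
  rw [← Finset.add_sum_erase Γ (fun i => ct v (y i) z) hi₀]
  have h1 : ∑ i ∈ Γ.erase i₀, ct v (y i) z ≤
      ∑ i ∈ Γ.erase i₀, ∑ j ∈ Γ.erase i, t i j := by
    refine Finset.sum_le_sum fun i hi => ?_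
    have hiΓ := Finset.mem_of_mem_erase hi
    have hne := Finset.ne_of_mem_erase hi
    have h2 := h i hiΓ i₀ hi₀ hne
    rw [min_eq_left (hmax i hiΓ)] at h2
    refine h2.trans ?_
    exact Finset.single_le_sum (f := fun j => t i j) (fun j hj => h0 i hiΓ j hj)
      (Finset.mem_erase.2 ⟨hne.symm, hi₀⟩)
  have h3 : ∑ i ∈ Γ.erase i₀, ∑ j ∈ Γ.erase i, t i j ≤ ∑ i ∈ Γ, ∑ j ∈ Γ.erase i, t i j :=
    Finset.sum_le_sum_of_subset_of_nonneg (Finset.erase_subset _ _) fun i hi _ =>
      Finset.sum_nonneg fun j hj => h0 i hi j hj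
  linarith

/-- at most one contact is large -/
theorem sum_ct_le {v : AbsoluteValue K ℝ} (hv : IsNonarchimedean v) {Γ : Finset ℕ}
    (hΓ : Γ.Nonempty) {y : ℕ → ι → K} {z : ι → K} (h : ∀ i ∈ Γ, cr (y i) z ≠ 0)
    (h' : ∀ i ∈ Γ, ∀ j ∈ Γ, i ≠ j → cr (y i) (y j) ≠ 0) :
    ∃ i₀ ∈ Γ, ∑ i ∈ Γ, ct v (y i) z ≤
      ct v (y i₀) z + ∑ i ∈ Γ, ∑ j ∈ Γ.erase i, ct v (y i) (y j) :=
  contact_sum hΓ
    (fun i hi j hj => ct_nonneg hv (h' i hi j (Finset.mem_of_mem_erase hj)
      (Finset.ne_of_mem_erase hj).symm))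
    fun i hi j hj hij => ct_min hv (h' i hi j hj hij) (h i hi) (h j hj)

theorem sum_ct_le_log (v : AbsoluteValue K ℝ) {Γ : Finset ℕ}
    (hΓ : Γ.Nonempty) {y : ℕ → ι → K} {z : ι → K} (h : ∀ i ∈ Γ, cr (y i) z ≠ 0)
    (h' : ∀ i ∈ Γ, ∀ j ∈ Γ, i ≠ j → cr (y i) (y j) ≠ 0) :
    ∃ i₀ ∈ Γ, ∑ i ∈ Γ, ct v (y i) z ≤
      ct v (y i₀) z + ∑ i ∈ Γ, ∑ j ∈ Γ.erase i, (ct v (y i) (y j) + Real.log 6) := by
  have h6 : Real.log 6 = Real.log 2 + Real.log 3 := by
    rw [← Real.log_mul (by norm_num) (by norm_num)]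
    norm_num
  have h3 : 0 ≤ Real.log 3 := Real.log_nonneg (by norm_num)
  have h2 : 0 ≤ Real.log 2 := Real.log_nonneg (by norm_num)
  refine contact_sum hΓ (fun i hi j hj => ?_) fun i hi j hj hij => ?_
  · have := neg_log_two_le_ct v (h' i hi j (Finset.mem_of_mem_erase hj)
      (Finset.ne_of_mem_erase hj).symm)
    rw [h6]
    linarith
  · have := ct_min_log v (h' i hi j hj hij) (h i hi) (h j hj)
    rw [h6]
    linarith

end one

end Pool.Agent.Helper29.TG

end

section

/-!
# Project TG: sums of contacts over all places (module of helper10)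
-/

set_option autoImplicit false

namespace Pool.Agent.Helper29.TG

open Height AdmissibleAbsValues

variable {K : Type} [Field K]

section two

variable {ι : Type} [Finite ι] [AdmissibleAbsValues K]

theorem FS_nm {x : ι → K} (hx : x ≠ 0) : FS (fun v => Real.log (nm v x)) := by
  classical
  have h1 : ∀ i : ι, FS (fun v : AbsoluteValue K ℝ =>
      if x i = 0 then (0 : ℝ) else Real.log (v (x i))) := by
    intro i
    by_cases hi : x i = 0
    · simpa only [hi, if_true] using FS.zero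
    · simpa only [hi, if_false] using FS_log hi
  refine Set.Finite.subset (Set.finite_iUnion h1) fun v hv => ?_
  rw [Function.mem_support] at hv
  obtain ⟨i, hi, hvi⟩ := exists_nm_eq v.val hx
  refine Set.mem_iUnion.2 ⟨i, ?_⟩
  rw [Function.mem_support]
  simp only [hi, if_false]
  rwa [← hvi]

theorem ls_nm {x : ι → K} (hx : x ≠ 0) : ls (fun v => Real.log (nm v x)) = logHeight x := by
  have hpos : ∀ v : AbsoluteValue K ℝ, 0 < nm v x := fun v => nm_pos v hx
  have h0 : 0 < mulHeight x := mulHeight_pos x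
  rw [logHeight_eq_log_mulHeight]
  rw [mulHeight_eq hx] at h0 ⊢
  have h1 : ((archAbsVal (K := K)).map fun v => ⨆ i, v (x i)).prod ≠ 0 := by
    intro h
    rw [h, zero_mul] at h0
    exact lt_irrefl _ h0
  have h2 : (∏ᶠ v : nonarchAbsVal (K := K), ⨆ i, v.val (x i)) ≠ 0 := by
    intro h
    rw [h, mul_zero] at h0
    exact lt_irrefl _ h0
  rw [Real.log_mul h1 h2]
  unfold ls
  congr 1
  · rw [Real.log_multiset_prod]
    · rw [Multiset.map_map]
      rfl
    · intro a ha
      obtain ⟨v, -, rfl⟩ := Multiset.mem_map.1 ha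
      exact (hpos v).ne'
  · exact (Real.log_finprod (f := fun v : nonarchAbsVal (K := K) => ⨆ i, v.val (x i))
      (fun v => hpos v.val)).symm

theorem FS_ct {x y : ι → K} (h : cr x y ≠ 0) : FS (fun v => ct v x y) :=
  ((FS_nm (left_ne_zero h)).add (FS_nm (right_ne_zero h))).sub (FS_nm h)

theorem ls_ct {x y : ι → K} (h : cr x y ≠ 0) :
    ls (fun v => ct v x y) = logHeight x + logHeight y - logHeight (cr x y) := by
  unfold ct
  rw [ls_sub ((FS_nm (left_ne_zero h)).add (FS_nm (right_ne_zero h))) (FS_nm h),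
    ls_add (FS_nm (left_ne_zero h)) (FS_nm (right_ne_zero h)), ls_nm (left_ne_zero h),
    ls_nm (right_ne_zero h), ls_nm h]

/-- one contact is at most the height -/
theorem exists_ct_le (y : ι → K) : ∃ C : ℝ, ∀ v : AbsoluteValue K ℝ, Mem v →
    ∀ z : ι → K, cr y z ≠ 0 → ct v y z ≤ logHeight z + C := by
  refine ⟨logHeight y + (archAbsVal (K := K)).card * Real.log 2, fun v hv z hyz => ?_⟩
  have h2 : 0 ≤ Real.log 2 := Real.log_nonneg (by norm_num)
  have h1 := ls_ct hyz
  have h3 : 0 ≤ logHeight (cr y z) := logHeight_nonneg _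
  have hna : ∀ w : nonarchAbsVal (K := K), 0 ≤ ct w.val y z := fun w =>
    ct_nonneg (isNonarchimedean w.val w.2) hyz
  have hfin : 0 ≤ ∑ᶠ w : nonarchAbsVal (K := K), ct w.val y z := finsum_nonneg hna
  have hsum : ((archAbsVal (K := K)).map fun w => ct w y z + Real.log 2).sum
      = ((archAbsVal (K := K)).map fun w => ct w y z).sum
        + (archAbsVal (K := K)).card * Real.log 2 := by
    rw [Multiset.sum_map_add, Multiset.map_const', Multiset.sum_replicate, nsmul_eq_mul]
  have harch : ∀ a ∈ (archAbsVal (K := K)).map (fun w => ct w y z + Real.log 2), 0 ≤ a := by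
    intro a ha
    obtain ⟨w, -, rfl⟩ := Multiset.mem_map.1 ha
    have := neg_log_two_le_ct w hyz
    linarith
  have key : ct v y z ≤ ls (fun w => ct w y z) + (archAbsVal (K := K)).card * Real.log 2 := by
    unfold ls
    rcases hv with hv | hv
    · have h4 := Multiset.single_le_sum harch _
        (Multiset.mem_map_of_mem (fun w => ct w y z + Real.log 2) hv)
      rw [hsum] at h4
      have h5 : ct v y z + Real.log 2 ≤
          ((archAbsVal (K := K)).map fun w => ct w y z).sum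
            + (archAbsVal (K := K)).card * Real.log 2 := h4
      linarith
    · have h4 := Multiset.sum_nonneg harch
      rw [hsum] at h4
      have h5 : ct v y z ≤ ∑ᶠ w : nonarchAbsVal (K := K), ct w.val y z :=
        single_le_finsum (⟨v, hv⟩ : nonarchAbsVal (K := K)) (FS_ct hyz) hna
      linarith
  linarith

end two

end Pool.Agent.Helper29.TG

end

section

/-!
# Embeddings of a number field in the algebraic closure of the p-adic numbers
-/

set_option autoImplicit false

namespace Pool.Agent.Helper85.Sub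

open NumberField Polynomial IsDedekindDomain

section A
variable {K : Type} [Field K] [NumberField K] {p : ℕ} [hp : Fact p.Prime]

lemma norm_le_one_of_isIntegral {x : PadicAlgCl p} (hx : IsIntegral ℤ x) : ‖x‖ ≤ 1 := by
  have h1 : x ∈ (NormedField.valuation (K := PadicAlgCl p)).integer := by
    refine (Valuation.integer.integers _).mem_of_integral ?_
    exact hx.tower_top
  rw [Valuation.mem_integer_iff] at h1
  exact_mod_cast h1

lemma norm_emb_le_one (σ : K →+* PadicAlgCl p) (x : 𝓞 K) : ‖σ x‖ ≤ 1 := by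
  refine norm_le_one_of_isIntegral ?_
  have := x.isIntegral_coe
  exact map_isIntegral_int σ this

lemma norm_p (σ : K →+* PadicAlgCl p) : ‖σ (p : K)‖ = (p : ℝ)⁻¹ := by
  rw [map_natCast, ← map_natCast (algebraMap ℚ_[p] (PadicAlgCl p))]
  rw [PadicAlgCl.norm_extends, Padic.norm_p]

/-- The prime ideal of an embedding. -/
noncomputable def qI (σ : K →+* PadicAlgCl p) : Ideal (𝓞 K) where
  carrier := {x | ‖σ x‖ < 1}
  add_mem' := by
    intro a b ha hb
    simp only [Set.mem_ofPred_eq] at ha hb ⊢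
    rw [show ((a + b : 𝓞 K) : K) = (a : K) + (b : K) from rfl, map_add]
    exact (IsUltrametricDist.norm_add_le_max _ _).trans_lt (max_lt ha hb)
  zero_mem' := by simp
  smul_mem' := by
    intro c x hx
    simp only [Set.mem_ofPred_eq] at hx ⊢
    rw [smul_eq_mul, show ((c * x : 𝓞 K) : K) = (c : K) * (x : K) from rfl, map_mul, norm_mul]
    exact mul_lt_one_of_nonneg_of_lt_one_right (norm_emb_le_one σ c) (norm_nonneg _) hx

lemma mem_qI {σ : K →+* PadicAlgCl p} {x : 𝓞 K} : x ∈ qI σ ↔ ‖σ x‖ < 1 := Iff.rfl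

/-- The prime ideal of an embedding. -/
noncomputable def qH (σ : K →+* PadicAlgCl p) : HeightOneSpectrum (𝓞 K) where
  asIdeal := qI σ
  isPrime := by
    refine ⟨?_, ?_⟩
    · intro h
      rw [Ideal.eq_top_iff_one, mem_qI] at h
      simp at h
    · intro x y hxy
      by_contra h
      push Not at h
      rw [mem_qI, mem_qI, not_lt, not_lt] at h
      rw [mem_qI, show ((x * y : 𝓞 K) : K) = (x : K) * (y : K) from rfl, map_mul,
        norm_mul] at hxy
      nlinarith [h.1, h.2, norm_nonneg (σ (x:K)), norm_nonneg (σ (y:K))]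
  ne_bot := by
    intro h
    have h1 : (p : 𝓞 K) ∈ qI σ := by
      rw [mem_qI]
      have : ((p : 𝓞 K) : K) = (p : K) := by simp
      rw [this, norm_p]
      exact inv_lt_one_of_one_lt₀ (by exact_mod_cast hp.out.one_lt)
    rw [h] at h1
    simp only [Ideal.mem_bot, Nat.cast_eq_zero] at h1
    exact hp.out.ne_zero h1

lemma mem_qH {σ : K →+* PadicAlgCl p} {x : 𝓞 K} : x ∈ (qH σ).asIdeal ↔ ‖σ x‖ < 1 := Iff.rfl

lemma p_mem_qH (σ : K →+* PadicAlgCl p) : (p : 𝓞 K) ∈ (qH σ).asIdeal := by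
  rw [mem_qH]
  have : ((p : 𝓞 K) : K) = (p : K) := by simp
  rw [this, norm_p]
  exact inv_lt_one_of_one_lt₀ (by exact_mod_cast hp.out.one_lt)

lemma norm_emb_eq_one {σ : K →+* PadicAlgCl p} {x : 𝓞 K} (hx : x ∉ (qH σ).asIdeal) :
    ‖σ x‖ = 1 := by
  rw [mem_qH, not_lt] at hx
  exact le_antisymm (norm_emb_le_one σ x) hx

/-- Norms of the ideals over `p` are powers of `p`. -/
lemma absNorm_pow (P : HeightOneSpectrum (𝓞 K)) (hP : (p : 𝓞 K) ∈ P.asIdeal) :
    ∃ f : ℕ, f ≠ 0 ∧ Ideal.absNorm P.asIdeal = p ^ f := by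
  have : P.asIdeal.LiesOver (Ideal.span {(p : ℤ)}) := by
    constructor
    have hmax : (Ideal.span {(p : ℤ)}).IsMaximal :=
      PrincipalIdealRing.isMaximal_of_irreducible (Nat.prime_iff_prime_int.mp hp.out).irreducible
    refine hmax.eq_of_le ?_ ?_
    · have := P.isPrime
      exact (Ideal.comap_isPrime (algebraMap ℤ (𝓞 K)) P.asIdeal).ne_top
    · rw [Ideal.span_singleton_le_iff_mem, Ideal.mem_under]
      simpa using hP
  have h := Ideal.absNorm_eq_pow_inertiaDeg' P.asIdeal hp.out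
  refine ⟨_, ?_, h⟩
  intro h0
  rw [h0, pow_zero] at h
  have := HeightOneSpectrum.one_lt_absNorm P
  omega

lemma mk_le_one_iff (P : HeightOneSpectrum (𝓞 K)) (x : K) :
    FinitePlace.mk P x ≤ 1 ↔ P.valuation K x ≤ 1 := by
  rw [FinitePlace.mk_apply, FinitePlace.norm_embedding']
  have h := WithZeroMulInt.toNNReal_strictMono (HeightOneSpectrum.one_lt_absNorm_nnreal P)
  rw [← NNReal.coe_one, NNReal.coe_le_coe,
    ← map_one (WithZeroMulInt.toNNReal (HeightOneSpectrum.absNorm_ne_zero P))]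
  exact h.le_iff_le

lemma mk_eq_zpow (P : HeightOneSpectrum (𝓞 K)) {x : K} (hx : x ≠ 0) :
    ∃ m : ℤ, FinitePlace.mk P x = (Ideal.absNorm P.asIdeal : ℝ) ^ m := by
  have h0 : P.valuation K x ≠ 0 := (Valuation.ne_zero_iff _).2 hx
  refine ⟨(WithZero.unzero h0).toAdd, ?_⟩
  rw [FinitePlace.mk_apply, FinitePlace.norm_embedding', WithZeroMulInt.toNNReal_neg_apply _ h0]
  push_cast
  rfl

lemma norm_le_one_of_mk_le_one (σ : K →+* PadicAlgCl p) {x : K}
    (hx : FinitePlace.mk (qH σ) x ≤ 1) : ‖σ x‖ ≤ 1 := by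
  rw [mk_le_one_iff] at hx
  obtain ⟨n, d, h⟩ := HeightOneSpectrum.exists_primeCompl_mul_eq_of_integer (qH σ) x hx
  have hd : ‖σ ((d : 𝓞 K) : K)‖ = 1 := norm_emb_eq_one d.2
  have h1 : ‖σ x‖ * ‖σ ((d : 𝓞 K) : K)‖ = ‖σ (n : K)‖ := by
    rw [← norm_mul, ← map_mul]
    rw [show x * ((d : 𝓞 K) : K) = (n : K) from h]
  rw [hd, mul_one] at h1
  rw [h1]
  exact norm_emb_le_one σ n

lemma norm_eq_one_of_mk_eq_one (σ : K →+* PadicAlgCl p) {x : K}
    (hx : FinitePlace.mk (qH σ) x = 1) : ‖σ x‖ = 1 := by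
  refine le_antisymm (norm_le_one_of_mk_le_one σ hx.le) ?_
  have h1 : FinitePlace.mk (qH σ) x⁻¹ ≤ 1 := by
    rw [map_inv₀, hx, inv_one]
  have h2 := norm_le_one_of_mk_le_one σ h1
  rw [map_inv₀, norm_inv] at h2
  by_contra h
  push Not at h
  have h3 : 0 < ‖σ x‖ := by
    rw [norm_pos_iff]
    intro h0
    have : x = 0 := by simpa using h0
    rw [this, map_zero] at hx
    exact zero_ne_one hx
  have := (one_lt_inv₀ h3).2 h
  linarith

/-- The place of the embedding is a power of its norm. -/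
lemma exists_pow (σ : K →+* PadicAlgCl p) :
    ∃ n : ℕ, n ≠ 0 ∧ ∀ x : K, FinitePlace.mk (qH σ) x = ‖σ x‖ ^ n := by
  obtain ⟨f, hf, hN⟩ := absNorm_pow (qH σ) (p_mem_qH σ)
  have hp1 : (1 : ℝ) < p := by exact_mod_cast hp.out.one_lt
  have hp0 : (p : K) ≠ 0 := by exact_mod_cast hp.out.ne_zero
  have hN1 : (1 : ℝ) < (Ideal.absNorm (qH σ).asIdeal : ℝ) := by
    exact_mod_cast HeightOneSpectrum.one_lt_absNorm (qH σ)
  have hNp : (Ideal.absNorm (qH σ).asIdeal : ℝ) = (p : ℝ) ^ f := by
    rw [hN]; push_cast; rfl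
  obtain ⟨e', he'⟩ := mk_eq_zpow (qH σ) hp0
  have hlt : FinitePlace.mk (qH σ) (p : K) < 1 := by
    have := (FinitePlace.norm_lt_one_iff_mem K (qH σ) (p : 𝓞 K)).2 (p_mem_qH σ)
    rw [FinitePlace.mk_apply]
    simpa using this
  have he'0 : e' < 0 := by
    rw [he'] at hlt
    by_contra h
    push Not at h
    have := one_le_zpow₀ hN1.le h
    linarith
  obtain ⟨e, he⟩ : ∃ e : ℕ, e' = -(e : ℤ) := ⟨e'.natAbs, by omega⟩
  have he0 : e ≠ 0 := by
    rintro rfl
    simp at he
    omega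
  subst he
  refine ⟨e * f, mul_ne_zero he0 hf, ?_⟩
  intro x
  by_cases hx : x = 0
  · subst hx
    rw [map_zero, map_zero, norm_zero, zero_pow (mul_ne_zero he0 hf)]
  obtain ⟨m, hm⟩ := mk_eq_zpow (qH σ) hx
  have hy : FinitePlace.mk (qH σ) (x ^ e * (p : K) ^ m) = 1 := by
    rw [map_mul, map_pow, map_zpow₀, hm, he', ← zpow_natCast, ← zpow_mul, ← zpow_mul,
      ← zpow_add₀ (by linarith : (Ideal.absNorm (qH σ).asIdeal : ℝ) ≠ 0)]
    have : m * (e : ℤ) + -(e : ℤ) * m = 0 := by ring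
    rw [this, zpow_zero]
  have h1 := norm_eq_one_of_mk_eq_one σ hy
  rw [map_mul, map_pow, map_zpow₀, norm_mul, norm_pow, norm_zpow, norm_p, inv_zpow] at h1
  have hpm : (p : ℝ) ^ m ≠ 0 := zpow_ne_zero _ (by linarith)
  have h2 : ‖σ x‖ ^ e = (p : ℝ) ^ m := by
    field_simp at h1
    exact h1
  rw [hm, pow_mul, h2, hNp, ← zpow_natCast, ← zpow_natCast, ← zpow_mul, ← zpow_mul, mul_comm]

end A

end Pool.Agent.Helper85.Sub

end

section

/-!
# Counting the embeddings over a prime ideal; conjugacy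
-/

set_option autoImplicit false

namespace Pool.Agent.Helper85.Sub

open NumberField Polynomial IsDedekindDomain

section B
variable {K : Type} [Field K] [NumberField K] {p : ℕ} [hp : Fact p.Prime]

/-- A generator of a power of a prime ideal. -/
lemma exists_gen (P : HeightOneSpectrum (𝓞 K)) :
    ∃ (h : ℕ) (x : 𝓞 K), h ≠ 0 ∧ x ≠ 0 ∧ Ideal.span {x} = P.asIdeal ^ h := by
  have hP : P.asIdeal ∈ nonZeroDivisors (Ideal (𝓞 K)) :=
    mem_nonZeroDivisors_of_ne_zero P.ne_bot
  set h := Fintype.card (ClassGroup (𝓞 K)) with hh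
  have h1 : (ClassGroup.mk0 ⟨P.asIdeal, hP⟩) ^ h = 1 := pow_card_eq_one
  rw [← map_pow] at h1
  have h2 : (P.asIdeal ^ h) ∈ nonZeroDivisors (Ideal (𝓞 K)) := pow_mem hP h
  have h3 : ClassGroup.mk0 ⟨P.asIdeal ^ h, h2⟩ = 1 := by
    rw [← h1]
    congr 1
  rw [ClassGroup.mk0_eq_one_iff] at h3
  obtain ⟨x, hx⟩ := h3
  refine ⟨h, x, Fintype.card_ne_zero, ?_, hx.symm⟩
  rintro rfl
  have h4 : P.asIdeal ^ h = ⊥ := by
    rw [hx]; simp
  exact P.ne_bot (eq_zero_of_pow_eq_zero h4)
where
  eq_zero_of_pow_eq_zero {I : Ideal (𝓞 K)} {h : ℕ} (hI : I ^ h = ⊥) : I = ⊥ :=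
    pow_eq_zero_iff_of_pos' hI
  pow_eq_zero_iff_of_pos' {I : Ideal (𝓞 K)} {h : ℕ} (hI : I ^ h = 0) : I = 0 :=
    pow_eq_zero_iff_aux hI
  pow_eq_zero_iff_aux {I : Ideal (𝓞 K)} {h : ℕ} (hI : I ^ h = 0) : I = 0 :=
    (eq_zero_or_neZero I).elim id (fun hn => absurd hI (pow_ne_zero h hn.1))

lemma mk_eq_inv_pow (P : HeightOneSpectrum (𝓞 K)) {h : ℕ} {x : 𝓞 K} (hx : x ≠ 0)
    (hxP : Ideal.span {x} = P.asIdeal ^ h) :
    FinitePlace.mk P (x : K) = ((Ideal.absNorm P.asIdeal : ℝ) ^ h)⁻¹ := by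
  have h1 := FinitePlace.apply_mul_absNorm_pow_eq_one (FinitePlace.mk P) hx
  rw [FinitePlace.maximalIdeal_mk, hxP, multiplicity_pow_self P.ne_bot
    (fun hu => P.isPrime.ne_top (Ideal.isUnit_iff.1 hu))] at h1
  exact eq_inv_of_mul_eq_one_left h1

lemma prod_norm (P : HeightOneSpectrum (𝓞 K)) (hP : (p : 𝓞 K) ∈ P.asIdeal) {h : ℕ} {x : 𝓞 K}
    (hx : x ≠ 0) (hxP : Ideal.span {x} = P.asIdeal ^ h) :
    ∏ σ : K →+* PadicAlgCl p, ‖σ (x : K)‖ = FinitePlace.mk P (x : K) := by
  obtain ⟨f, hf, hN⟩ := absNorm_pow P hP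
  have h1 := Algebra.norm_eq_prod_embeddings (L := K) ℚ (PadicAlgCl p) (x : K)
  have h2 : ∏ σ : K →+* PadicAlgCl p, σ (x : K) = ∏ σ : K →ₐ[ℚ] PadicAlgCl p, σ (x : K) := by
    refine Fintype.prod_equiv (RingHom.equivRatAlgHom K (PadicAlgCl p)) _ _ ?_
    intro σ
    rfl
  rw [← norm_prod, h2, ← h1, ← Algebra.coe_norm_int, mk_eq_inv_pow P hx hxP]
  have h3 : Ideal.absNorm (Ideal.span {x}) = (Algebra.norm ℤ x).natAbs :=
    Ideal.absNorm_span_singleton x
  rw [hxP, map_pow, hN, ← pow_mul] at h3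
  have h4 : ‖(algebraMap ℚ (PadicAlgCl p)) ((Algebra.norm ℤ x : ℤ) : ℚ)‖
      = ‖((Algebra.norm ℤ x).natAbs : ℚ_[p])‖ := by
    rw [map_intCast, ← map_intCast (algebraMap ℚ_[p] (PadicAlgCl p)), PadicAlgCl.norm_extends]
    rcases Int.natAbs_eq (Algebra.norm ℤ x) with h5 | h5
    · conv_lhs => rw [h5]
      simp
    · conv_lhs => rw [h5]
      simp
  rw [h4, ← h3, hN]
  push_cast
  rw [norm_pow, Padic.norm_p, inv_pow, pow_mul]

lemma mk_lt_one_of_gen (P : HeightOneSpectrum (𝓞 K)) {h : ℕ} {x : 𝓞 K} (h0 : h ≠ 0)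
    (hxP : Ideal.span {x} = P.asIdeal ^ h) : FinitePlace.mk P (x : K) < 1 := by
  have := (FinitePlace.norm_lt_one_iff_mem K P x).2 ?_
  · exact this
  · have h1 : x ∈ P.asIdeal ^ h := by
      rw [← hxP]; exact Ideal.mem_span_singleton_self x
    exact Ideal.pow_le_self h0 h1

/-- The number of embeddings over `P` and their absolute values. -/
lemma card_fiber (P : HeightOneSpectrum (𝓞 K)) (hP : (p : 𝓞 K) ∈ P.asIdeal) :
    ∃ n : ℕ, n ≠ 0 ∧ (∃ σ₀ : K →+* PadicAlgCl p, qH σ₀ = P) ∧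
      Nat.card {σ : K →+* PadicAlgCl p // qH σ = P} = n ∧
      ∀ σ : K →+* PadicAlgCl p, qH σ = P → ∀ x : K, FinitePlace.mk P x = ‖σ x‖ ^ n := by
  classical
  obtain ⟨h, x, h0, hx, hxP⟩ := exists_gen P
  have hprod := prod_norm P hP hx hxP
  have hlt := mk_lt_one_of_gen P h0 hxP
  have hpos : 0 < FinitePlace.mk P (x : K) := by
    rw [FinitePlace.pos_iff]
    exact_mod_cast hx
  have hout : ∀ σ : K →+* PadicAlgCl p, qH σ ≠ P → ‖σ (x : K)‖ = 1 := by
    intro σ hσ
    refine norm_emb_eq_one ?_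
    intro hmem
    apply hσ
    have h1 : P.asIdeal ^ h ≤ (qH σ).asIdeal := by
      rw [← hxP, Ideal.span_singleton_le_iff_mem]
      exact hmem
    have h2 : P.asIdeal ≤ (qH σ).asIdeal := (qH σ).isPrime.le_of_pow_le h1
    have h3 : P.asIdeal = (qH σ).asIdeal := P.isMaximal.eq_of_le (qH σ).isPrime.ne_top h2
    exact (HeightOneSpectrum.ext h3).symm
  have hne : ∃ σ₀ : K →+* PadicAlgCl p, qH σ₀ = P := by
    by_contra hcon
    push Not at hcon
    rw [Finset.prod_eq_one (fun σ _ => hout σ (hcon σ))] at hprod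
    linarith
  obtain ⟨σ₀, hσ₀⟩ := hne
  obtain ⟨n, hn0, hn⟩ := exists_pow σ₀
  rw [hσ₀] at hn
  have hp1 : (1 : ℝ) < p := by exact_mod_cast hp.out.one_lt
  have hall : ∀ σ : K →+* PadicAlgCl p, qH σ = P → ∀ x : K, FinitePlace.mk P x = ‖σ x‖ ^ n := by
    intro σ hσ
    obtain ⟨m, hm0, hm⟩ := exists_pow σ
    rw [hσ] at hm
    have h1 := hn (p : K)
    rw [hm (p : K), norm_p, norm_p] at h1
    have h2 : m = n := by
      refine pow_right_injective₀ (M₀ := ℝ) (a := (p : ℝ)⁻¹) (by positivity) ?_ h1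
      intro h3
      rw [inv_eq_one] at h3
      linarith
    rw [← h2]
    exact hm
  refine ⟨n, hn0, ⟨σ₀, hσ₀⟩, ?_, hall⟩
  rw [Nat.card_eq_fintype_card, Fintype.card_subtype]
  set c := (Finset.univ.filter (fun σ : K →+* PadicAlgCl p => qH σ = P)).card with hc
  have h1 : ∏ σ : K →+* PadicAlgCl p, ‖σ (x : K)‖ ^ n = (FinitePlace.mk P (x : K)) ^ c := by
    rw [← Finset.prod_filter_mul_prod_filter_not Finset.univ (fun σ => qH σ = P)]
    rw [Finset.prod_congr rfl (g := fun _ => FinitePlace.mk P (x : K))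
      (s₁ := Finset.univ.filter (fun σ : K →+* PadicAlgCl p => qH σ = P))]
    · rw [Finset.prod_const, ← hc]
      rw [Finset.prod_eq_one, mul_one]
      intro σ hσ
      rw [hout σ (Finset.mem_filter.1 hσ).2, one_pow]
    · intro σ hσ
      exact (hall σ (Finset.mem_filter.1 hσ).2 x).symm
  rw [Finset.prod_pow, hprod] at h1
  have h2 := pow_right_injective₀ hpos hlt.ne h1
  exact h2.symm

end B

end Pool.Agent.Helper85.Sub

end

section

/-!
# Subspace theorem project: basic definitions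
-/

set_option autoImplicit false

namespace Pool.Agent.Helper10.Sub

open MvPolynomial

/-! ### Hasse derivatives of polynomials in several variables -/

section hasse
variable {σ : Type*} {R : Type*} [CommRing R]

end hasse

/-! ### Places, `S`-integers and systems of linear forms

The places are the archimedean one and the primes `p t`, `t : T` (a finite, injective family). -/

/-- A system of `card ι` independent real linear forms and, for each `t`, of `card ι` independent
`p t`-adic linear forms, with algebraic coefficients. -/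
structure Sys (ι : Type*) [Fintype ι] [DecidableEq ι] (T : Type*) (p : T → ℕ)
    [∀ t, Fact (p t).Prime] where
  A : Matrix ι ι ℝ
  A' : ∀ t, Matrix ι ι ℚ_[p t]
  algA : ∀ i j, IsAlgebraic ℚ (A i j)
  algA' : ∀ t i j, IsAlgebraic ℚ (A' t i j)
  detA : A.det ≠ 0
  detA' : ∀ t, (A' t).det ≠ 0

variable {ι : Type*} [Fintype ι] [DecidableEq ι] {T : Type*} [Fintype T] {p : T → ℕ}
  [∀ t, Fact (p t).Prime]

/-- The real forms at a rational vector. -/
noncomputable def Sys.L (S : Sys ι T p) (x : ι → ℚ) : ι → ℝ := fun i => ∑ j, S.A i j * (x j : ℝ)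

/-- The `p t`-adic forms at a rational vector. -/
noncomputable def Sys.L' (S : Sys ι T p) (t : T) (x : ι → ℚ) : ι → ℚ_[p t] :=
  fun i => ∑ j, S.A' t i j * (x j : ℚ_[p t])

/-- Size at infinity: `max |L_i(x)| / a_i`. -/
noncomputable def Sys.Ninf (S : Sys ι T p) (a : ι → ℝ) (x : ι → ℚ) : ℝ := ‖fun i => S.L x i / a i‖

/-- Size at `p t`: `max |L'_i(x)|_p / a'_i`. -/
noncomputable def Sys.Np (S : Sys ι T p) (t : T) (a' : ι → ℝ) (x : ι → ℚ) : ℝ :=
  ‖fun i => ‖S.L' t x i‖ / a' i‖

/-- Total size. -/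
noncomputable def Sys.N (S : Sys ι T p) (a : ι → ℝ) (a' : T → ι → ℝ) (x : ι → ℚ) : ℝ :=
  S.Ninf a x * ∏ t, S.Np t (a' t) x

section alg
variable {κ : Type*} [Fintype κ] [DecidableEq κ] {F : Type*} [Field F] (K0 : Subfield F)

end alg

end Pool.Agent.Helper10.Sub

end

section

namespace Pool.Agent.Helper10.Sub
end Pool.Agent.Helper10.Sub

set_option autoImplicit false

namespace Pool.Agent.Helper43.Sub

open Pool.Agent.Helper10.Sub MvPolynomial

/-- BASISSEL -/
theorem basisSel {k : Type} [Field k] {L : Type} [Field L] [Algebra k L] {Y I : Type} [Fintype Y]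
    [Fintype I] [DecidableEq I]
    (V : Submodule k (Y → k)) (M : ℕ) (hVM : Module.finrank k V = M) (v : I → Y → L)
    (s t : Finset I) (hst : s ⊆ t)
    (hs : ∀ c : I → L, (∀ y ∈ V, ∑ i ∈ s, c i * ∑ l, v i l * algebraMap k L (y l) = 0) →
      ∀ i ∈ s, c i = 0)
    (hspan : ∀ m : Y, ∃ c : I → L, ∀ y ∈ V, algebraMap k L (y m) =
      ∑ i ∈ t, c i * ∑ l, v i l * algebraMap k L (y l)) :
    ∃ e : Fin M → I, Function.Injective e ∧ (∀ i ∈ s, i ∈ Set.range e) ∧ (∀ j, e j ∈ t) ∧
      ∀ c : Fin M → L, (∀ y ∈ V, ∑ j, c j * ∑ l, v (e j) l * algebraMap k L (y l) = 0) →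
        c = 0 := by
  classical
  -- a basis of V
  let b : Module.Basis (Fin M) k V := Module.finBasisOfFinrankEq k V hVM
  -- the values on the basis
  let ψ : I → (Fin M → L) := fun i j => ∑ l, v i l * algebraMap k L ((b j : Y → k) l)
  -- every vector of V is a combination of the basis
  have hexp : ∀ (y : Y → k) (hy : y ∈ V), ∀ l, algebraMap k L (y l) =
      ∑ j, algebraMap k L (b.repr ⟨y, hy⟩ j) * algebraMap k L ((b j : Y → k) l) := by
    intro y hy l
    have h1 := congrArg (fun z : V => (z : Y → k) l) (b.sum_repr ⟨y, hy⟩)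
    simp only [Submodule.coe_sum, Submodule.coe_smul, Finset.sum_apply, Pi.smul_apply,
      smul_eq_mul] at h1
    rw [← h1, map_sum]
    refine Finset.sum_congr rfl fun j _ => ?_
    rw [map_mul]
  -- criterion
  have hcrit : ∀ (S : Finset I) (c : I → L), (∑ i ∈ S, c i • ψ i = 0) →
      ∀ y ∈ V, ∑ i ∈ S, c i * ∑ l, v i l * algebraMap k L (y l) = 0 := by
    intro S c hc y hy
    have h2 : ∀ i, ∑ l, v i l * algebraMap k L (y l) =
        ∑ j, algebraMap k L (b.repr ⟨y, hy⟩ j) * ψ i j := by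
      intro i
      calc ∑ l, v i l * algebraMap k L (y l)
          = ∑ l, ∑ j, v i l * (algebraMap k L (b.repr ⟨y, hy⟩ j) *
              algebraMap k L ((b j : Y → k) l)) := by
            refine Finset.sum_congr rfl fun l _ => ?_
            rw [hexp y hy l, Finset.mul_sum]
        _ = ∑ j, ∑ l, v i l * (algebraMap k L (b.repr ⟨y, hy⟩ j) *
              algebraMap k L ((b j : Y → k) l)) := Finset.sum_comm
        _ = _ := by
            refine Finset.sum_congr rfl fun j _ => ?_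
            simp only [ψ, Finset.mul_sum]
            refine Finset.sum_congr rfl fun l _ => ?_
            ring
    calc ∑ i ∈ S, c i * ∑ l, v i l * algebraMap k L (y l)
        = ∑ i ∈ S, ∑ j, algebraMap k L (b.repr ⟨y, hy⟩ j) * (c i * ψ i j) := by
          refine Finset.sum_congr rfl fun i _ => ?_
          rw [h2 i, Finset.mul_sum]
          refine Finset.sum_congr rfl fun j _ => ?_
          ring
      _ = ∑ j, ∑ i ∈ S, algebraMap k L (b.repr ⟨y, hy⟩ j) * (c i * ψ i j) := Finset.sum_comm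
      _ = ∑ j, algebraMap k L (b.repr ⟨y, hy⟩ j) * (∑ i ∈ S, c i • ψ i) j := by
          refine Finset.sum_congr rfl fun j _ => ?_
          rw [← Finset.mul_sum]
          simp [Finset.sum_apply]
      _ = 0 := by rw [hc]; simp
  -- linear independence on s
  have hli : LinearIndepOn L ψ (s : Set I) := by
    rw [linearIndepOn_finset_iff]
    intro c hc i hi
    exact hs c (hcrit s c hc) i hi
  have hst' : (s : Set I) ⊆ (t : Set I) := by exact_mod_cast hst
  -- spanning
  have htop : Submodule.span L (ψ '' (t : Set I)) = ⊤ := by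
    -- coordinate vectors
    have hκ : ∀ m : Y, (fun j => algebraMap k L ((b j : Y → k) m)) ∈
        Submodule.span L (ψ '' (t : Set I)) := by
      intro m
      obtain ⟨c, hc⟩ := hspan m
      have h3 : (fun j => algebraMap k L ((b j : Y → k) m)) = ∑ i ∈ t, c i • ψ i := by
        funext j
        rw [hc (b j) (b j).2]
        simp [Finset.sum_apply, ψ]
      rw [h3]
      exact Submodule.sum_mem _ fun i hi => Submodule.smul_mem _ _
        (Submodule.subset_span ⟨i, by exact_mod_cast hi, rfl⟩)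
    rw [eq_top_iff, ← (Pi.basisFun L (Fin M)).span_eq, Submodule.span_le]
    rintro _ ⟨j₀, rfl⟩
    obtain ⟨g, hg⟩ := LinearMap.exists_extend (b.coord j₀)
    have h4 : (Pi.basisFun L (Fin M)) j₀ =
        ∑ m, algebraMap k L (g (Pi.single m 1)) • (fun j => algebraMap k L ((b j : Y → k) m)) := by
      funext j
      have h5 : g (b j : Y → k) = b.coord j₀ (b j) := by
        rw [← hg]; rfl
      have h6 : g (b j : Y → k) = ∑ m, g (Pi.single m 1) * (b j : Y → k) m := by
        conv_lhs => rw [← Finset.univ_sum_single (b j : Y → k)]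
        rw [map_sum]
        refine Finset.sum_congr rfl fun m _ => ?_
        have : (Pi.single m ((b j : Y → k) m) : Y → k) = ((b j : Y → k) m) • Pi.single m 1 := by
          rw [← Pi.single_smul]; simp
        rw [this, map_smul, smul_eq_mul, mul_comm]
      simp only [Finset.sum_apply, Pi.smul_apply, smul_eq_mul]
      simp_rw [← map_mul]
      rw [← map_sum, ← h6, h5]
      simp only [Pi.basisFun_apply, Module.Basis.coord_apply, Module.Basis.repr_self]
      rw [Finsupp.single_apply, Pi.single_apply]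
      by_cases hj : j = j₀
      · subst hj; simp
      · rw [if_neg hj, if_neg hj]; simp
    rw [h4]
    exact Submodule.sum_mem _ fun m _ => Submodule.smul_mem _ _ (hκ m)
  -- the basis
  let B : Set I := hli.extend hst'
  have hB1 : (s : Set I) ⊆ B := hli.subset_extend hst'
  have hB2 : B ⊆ t := hli.extend_subset hst'
  have hB3 : LinearIndepOn L ψ B := hli.linearIndepOn_extend hst'
  have hB4 : Submodule.span L (ψ '' B) = ⊤ := by
    rw [hli.span_image_extend_eq_span_image hst', htop]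
  let bb : Module.Basis B L (Fin M → L) := Module.Basis.mk (v := fun i : B => ψ i) hB3 (by
    rw [← hB4]
    apply Submodule.span_mono
    rintro _ ⟨i, hi, rfl⟩
    exact ⟨⟨i, hi⟩, rfl⟩)
  have hcard : Fintype.card B = M := by
    have := Module.finrank_eq_card_basis bb
    rw [Module.finrank_fin_fun] at this
    exact this.symm
  let eq : Fin M ≃ B := (Fintype.equivFinOfCardEq hcard).symm
  refine ⟨fun j => (eq j : I), ?_, ?_, ?_, ?_⟩
  · intro i j h
    exact eq.injective (Subtype.ext h)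
  · intro i hi
    refine ⟨eq.symm ⟨i, hB1 (by exact_mod_cast hi)⟩, ?_⟩
    simp
  · intro j
    have := hB2 (eq j).2
    exact_mod_cast this
  · intro c hc
    have h7 : ∑ j, c j • ψ (eq j) = 0 := by
      funext j'
      have := hc (b j') (b j').2
      simpa [Finset.sum_apply, ψ] using this
    have h8 : LinearIndependent L (fun j : Fin M => ψ (eq j)) := by
      have : LinearIndependent L (fun i : B => ψ i) := hB3
      exact this.comp _ eq.injective
    rw [Fintype.linearIndependent_iff] at h8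
    funext j
    exact h8 c h7 j

end Pool.Agent.Helper43.Sub

end

section

/-!
# The modules of the application, collected
-/

set_option autoImplicit false

namespace Pool.Agent.Helper10.Sub

alias basisSel := Pool.Agent.Helper43.Sub.basisSel

end Pool.Agent.Helper10.Sub

end

section

/-!
# Zariski dense sets of rational points on a projective variety
-/

set_option autoImplicit false

namespace Pool.Agent.Helper10.Sub

open MvPolynomial

section dense
variable {K : Type} [Field K] {κ : Type} {P : Ideal (MvPolynomial κ K)}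

/-- `E` is Zariski dense in the projective variety with homogeneous prime ideal `P`. -/
def Dn (P : Ideal (MvPolynomial κ K)) (E : Set (κ → K)) : Prop :=
  ∀ (G : MvPolynomial κ K) (e : ℕ), G.IsHomogeneous e → G ∉ P → ∃ x ∈ E, eval x G ≠ 0

lemma Dn.mono {E E' : Set (κ → K)} (h : Dn P E) (hs : E ⊆ E') : Dn P E' := by
  intro G e hG hGP
  obtain ⟨x, hx, hne⟩ := h G e hG hGP
  exact ⟨x, hs hx, hne⟩

lemma Dn.union (hP : P.IsPrime) {E₁ E₂ : Set (κ → K)} (h : Dn P (E₁ ∪ E₂)) :
    Dn P E₁ ∨ Dn P E₂ := by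
  by_contra hcon
  rw [not_or] at hcon
  obtain ⟨h1, h2⟩ := hcon
  unfold Dn at h1 h2
  push Not at h1 h2
  obtain ⟨G₁, e₁, hG₁, hn₁, h1⟩ := h1
  obtain ⟨G₂, e₂, hG₂, hn₂, h2⟩ := h2
  obtain ⟨x, hx, hne⟩ := h (G₁ * G₂) (e₁ + e₂) (hG₁.mul hG₂)
    (fun hmem => (hP.mem_or_mem hmem).elim hn₁ hn₂)
  rw [map_mul] at hne
  rcases hx with hx | hx
  · exact left_ne_zero_of_mul hne (h1 x hx)
  · exact right_ne_zero_of_mul hne (h2 x hx)

lemma not_dn_empty (hP : P.IsPrime) : ¬ Dn P (∅ : Set (κ → K)) := by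
  intro h
  obtain ⟨x, hx, -⟩ := h 1 0 (isHomogeneous_one _ _) (fun h1 => hP.ne_top
    ((Ideal.eq_top_iff_one P).mpr h1))
  exact hx

lemma Dn.partition (hP : P.IsPrime) {α : Type*} (s : Finset α) {E : Set (κ → K)} (h : Dn P E)
    (R : α → (κ → K) → Prop) (hR : ∀ x ∈ E, ∃ i ∈ s, R i x) :
    ∃ i ∈ s, Dn P {x | x ∈ E ∧ R i x} := by
  classical
  induction s using Finset.induction_on generalizing E with
  | empty =>
    exfalso
    apply not_dn_empty hP
    refine h.mono ?_
    intro x hx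
    obtain ⟨i, hi, -⟩ := hR x hx
    exact absurd hi (Finset.notMem_empty i)
  | insert a s ha ih =>
    have h1 : E ⊆ {x | x ∈ E ∧ R a x} ∪ {x | x ∈ E ∧ ∃ i ∈ s, R i x} := by
      intro x hx
      obtain ⟨i, hi, hRi⟩ := hR x hx
      rw [Finset.mem_insert] at hi
      rcases hi with rfl | hi
      · exact Or.inl ⟨hx, hRi⟩
      · exact Or.inr ⟨hx, i, hi, hRi⟩
    rcases (h.mono h1).union hP with h2 | h2
    · exact ⟨a, Finset.mem_insert_self _ _, h2⟩
    · obtain ⟨i, hi, h3⟩ := ih h2 (fun x hx => hx.2)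
      exact ⟨i, Finset.mem_insert_of_mem hi, h3.mono (fun x hx => ⟨hx.1.1, hx.2⟩)⟩

end dense

end Pool.Agent.Helper10.Sub

end

section

/-!
# Two places: using the Subspace theorem
-/

set_option autoImplicit false

namespace Pool.Agent.Helper10.Sub

open MvPolynomial

/-- A field `K` with two places, given by two local fields, and a ring `O` of integers whose
only fundamental unit is `ε`. -/
structure TwoPl (K L₁ L₂ : Type) [Field K] [NontriviallyNormedField L₁]
    [NontriviallyNormedField L₂] [Algebra K L₁] [Algebra K L₂] where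
  O : Subring K
  n₁ : ℕ
  n₂ : ℕ
  hn₁ : n₁ ≠ 0
  hn₂ : n₂ ≠ 0
  ε : K
  εO : ∀ q : ℤ, ε ^ q ∈ O
  hε : 1 < ‖algebraMap K L₁ ε‖
  pf : ‖algebraMap K L₁ ε‖ ^ n₁ * ‖algebraMap K L₂ ε‖ ^ n₂ = 1
  north : ∀ B : ℝ, {z : K | z ∈ O ∧ ‖algebraMap K L₁ z‖ ≤ B ∧ ‖algebraMap K L₂ z‖ ≤ B}.Finite

variable {K L₁ L₂ : Type} [Field K] [NontriviallyNormedField L₁] [NontriviallyNormedField L₂]
  [Algebra K L₁] [Algebra K L₂]

/-- The value of a linear form over `L` at a `K`-rational vector. -/
def lf {K L Y : Type} [Field K] [Field L] [Algebra K L] [Fintype Y] (l : Y → L) (y : Y → K) : L :=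
  ∑ m, l m * algebraMap K L (y m)

/-- The Subspace theorem at the two places, on a rational subspace `V`. -/
def TwoPl.SubHyp (S : TwoPl K L₁ L₂) : Prop :=
  ∀ (Y : Type) [Fintype Y] [DecidableEq Y] (V : Submodule K (Y → K)) (M : ℕ),
    Module.finrank K V = M → 2 ≤ M → ∀ (l₁ : Fin M → Y → L₁) (l₂ : Fin M → Y → L₂),
    (∀ i k, IsAlgebraic K (l₁ i k)) → (∀ i k, IsAlgebraic K (l₂ i k)) →
    (∀ c : Fin M → L₁, (∀ y ∈ V, ∑ i, c i * lf (l₁ i) y = 0) → c = 0) →
    (∀ c : Fin M → L₂, (∀ y ∈ V, ∑ i, c i * lf (l₂ i) y = 0) → c = 0) →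
    ∀ δ B : ℝ, 0 < δ → ∃ 𝒲 : Finset (Submodule K (Y → K)), (∀ W ∈ 𝒲, W < V) ∧
      ∀ (Q : ℝ) (a a' : Fin M → ℝ), 1 ≤ Q → (∀ i, Q ^ (-B) ≤ a i ∧ a i ≤ Q ^ B) →
        (∀ i, Q ^ (-B) ≤ a' i ∧ a' i ≤ Q ^ B) → (∏ i, a i) * ∏ i, a' i ≤ Q ^ (-δ) →
        ∀ y ∈ V, (∀ k, y k ∈ S.O) → (∀ i, ‖lf (l₁ i) y‖ ^ S.n₁ ≤ a i) →
        (∀ i, ‖lf (l₂ i) y‖ ^ S.n₂ ≤ a' i) → ∃ W ∈ 𝒲, y ∈ W

/-- The conditions on the forms at one place. -/
structure Forms {L Y I : Type} [Field L] [Algebra K L] [Fintype Y] [Fintype I]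
    (V : Submodule K (Y → K)) (v : I → Y → L) (s t : Finset I) : Prop where
  hst : s ⊆ t
  alg : ∀ i m, IsAlgebraic K (v i m)
  ind : ∀ c : I → L, (∀ y ∈ V, ∑ i ∈ s, c i * lf (v i) y = 0) → ∀ i ∈ s, c i = 0
  spn : ∀ m : Y, ∃ c : I → L, ∀ y ∈ V, algebraMap K L (y m) = ∑ i ∈ t, c i * lf (v i) y

/-- **Application of the Subspace theorem.** A dense set all of whose dense subsets span the same
space `V` cannot have too small products of linear forms. -/
theorem TwoPl.apply (S : TwoPl K L₁ L₂) (hsub : S.SubHyp) {κ : Type}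
    {P : Ideal (MvPolynomial κ K)} (hP : P.IsPrime) {Y I : Type} [Fintype Y] [DecidableEq Y]
    [Fintype I] [DecidableEq I] (y : (κ → K) → Y → K) (E : Set (κ → K)) (hE : Dn P E)
    (V : Submodule K (Y → K)) (hV : ∀ E' ⊆ E, Dn P E' → Submodule.span K (y '' E') = V)
    (hV2 : 2 ≤ Module.finrank K V)
    (hO : ∀ x ∈ E, ∀ k, y x k ∈ S.O)
    (X : (κ → K) → ℝ) (hX : ∀ B : ℝ, Dn P {x | x ∈ E ∧ B ≤ X x})
    (v₁ : I → Y → L₁) (s₁ t₁ : Finset I) (h₁ : Forms V v₁ s₁ t₁)
    (v₂ : I → Y → L₂) (s₂ t₂ : Finset I) (h₂ : Forms V v₂ s₂ t₂)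
    (β₁ β₂ : (κ → K) → I → ℝ) (B : ℝ)
    (hβ₁ : ∀ x ∈ E, ∀ i, ‖lf (v₁ i) (y x)‖ ^ S.n₁ ≤ β₁ x i)
    (hβ₂ : ∀ x ∈ E, ∀ i, ‖lf (v₂ i) (y x)‖ ^ S.n₂ ≤ β₂ x i)
    (hB₁ : ∀ x ∈ E, ∀ i, X x ^ (-B) ≤ β₁ x i ∧ β₁ x i ≤ X x ^ B)
    (hB₂ : ∀ x ∈ E, ∀ i, X x ^ (-B) ≤ β₂ x i ∧ β₂ x i ≤ X x ^ B)
    (C : ℝ) (hprod : ∀ x ∈ E, ∀ r₁ r₂ : Finset I, s₁ ⊆ r₁ → r₁ ⊆ t₁ → s₂ ⊆ r₂ → r₂ ⊆ t₂ →
      r₁.card = Module.finrank K V → r₂.card = Module.finrank K V →
      (∏ i ∈ r₁, β₁ x i) * (∏ i ∈ r₂, β₂ x i) ≤ C * (X x)⁻¹) : False := by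
  set M := Module.finrank K V with hM
  obtain ⟨e₁, he₁, hs₁, ht₁, hi₁⟩ := basisSel V M rfl v₁ s₁ t₁ h₁.hst h₁.ind h₁.spn
  obtain ⟨e₂, he₂, hs₂, ht₂, hi₂⟩ := basisSel V M rfl v₂ s₂ t₂ h₂.hst h₂.ind h₂.spn
  obtain ⟨𝒲, hW, hmain⟩ := hsub Y V M rfl hV2 (fun j => v₁ (e₁ j)) (fun j => v₂ (e₂ j))
    (fun i k => h₁.alg _ _) (fun i k => h₂.alg _ _) hi₁ hi₂ (1 / 2) B (by norm_num)
  set B0 : ℝ := max 1 (C ^ 2) with hB0
  have hD := hX B0
  obtain ⟨W, hWm, hWd⟩ := hD.partition hP 𝒲 (fun W x => y x ∈ W) (by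
    rintro x ⟨hx, hxB⟩
    have hX1 : 1 ≤ X x := (le_max_left _ _).trans hxB
    have hX0 : 0 < X x := by linarith
    apply hmain (X x) (fun j => β₁ x (e₁ j)) (fun j => β₂ x (e₂ j)) hX1
      (fun j => hB₁ x hx _) (fun j => hB₂ x hx _)
    · have h3 : ∏ j, β₁ x (e₁ j) = ∏ i ∈ Finset.univ.image e₁, β₁ x i := by
        rw [Finset.prod_image (fun a _ b _ hab => he₁ hab)]
      have h4 : ∏ j, β₂ x (e₂ j) = ∏ i ∈ Finset.univ.image e₂, β₂ x i := by
        rw [Finset.prod_image (fun a _ b _ hab => he₂ hab)]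
      rw [h3, h4]
      refine (hprod x hx _ _ ?_ ?_ ?_ ?_ ?_ ?_).trans ?_
      · intro i hi
        obtain ⟨j, hj⟩ := hs₁ i hi
        exact Finset.mem_image.mpr ⟨j, Finset.mem_univ _, hj⟩
      · intro i hi
        obtain ⟨j, -, hj⟩ := Finset.mem_image.mp hi
        rw [← hj]; exact ht₁ j
      · intro i hi
        obtain ⟨j, hj⟩ := hs₂ i hi
        exact Finset.mem_image.mpr ⟨j, Finset.mem_univ _, hj⟩
      · intro i hi
        obtain ⟨j, -, hj⟩ := Finset.mem_image.mp hi
        rw [← hj]; exact ht₂ j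
      · rw [Finset.card_image_of_injective _ he₁, Finset.card_univ, Fintype.card_fin]
      · rw [Finset.card_image_of_injective _ he₂, Finset.card_univ, Fintype.card_fin]
      · have h5 : C ^ 2 ≤ X x := (le_max_right _ _).trans hxB
        have h6 : C ≤ X x ^ (1 / 2 : ℝ) := by
          rw [← Real.sqrt_eq_rpow]
          exact Real.le_sqrt_of_sq_le h5
        have h7 : X x ^ (-(1 / 2) : ℝ) = X x ^ (1 / 2 : ℝ) * (X x)⁻¹ := by
          rw [← Real.rpow_neg_one, ← Real.rpow_add hX0]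
          norm_num
        rw [h7]
        exact mul_le_mul_of_nonneg_right h6 (inv_nonneg.mpr hX0.le)
    · rw [← hV E subset_rfl hE]
      exact Submodule.subset_span ⟨x, hx, rfl⟩
    · exact hO x hx
    · exact fun j => hβ₁ x hx _
    · exact fun j => hβ₂ x hx _)
  have h8 := hV _ (fun x hx => hx.1.1) hWd
  have h9 : V ≤ W := by
    rw [← h8, Submodule.span_le]
    rintro _ ⟨x, hx, rfl⟩
    exact hx.2
  exact absurd h9 (not_le_of_gt (hW W hWm))

end Pool.Agent.Helper10.Sub

end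

section

/-!
# Number fields with two places in `S`: definitions
-/

set_option autoImplicit false

namespace Pool.Agent.Helper10.Sub

open MvPolynomial NumberField

section emb
variable {K : Type} [Field K] (σ : K →+* ℂ)

end emb

/-- A model of the local field at a finite place `v`: a finite extension `F` of `ℚ_p` such that
all embeddings of `K` over `p` have values in `F`; the embeddings in `G` are those over `v`, and
they are conjugate to `σ₂`. -/
structure LocModel (K : Type) [Field K] [NumberField K] (v : FinitePlace K) where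
  p : ℕ
  hp : Fact p.Prime
  F : Type
  nnf : NontriviallyNormedField F
  na : NormedAlgebra ℚ_[p] F
  fd : FiniteDimensional ℚ_[p] F
  cz : CharZero F
  ft : Fintype (K →+* F)
  span : Submodule.span ℚ_[p] {x : F | IsAlgebraic ℚ x} = ⊤
  card : Fintype.card (K →+* F) = Module.finrank ℚ K
  σ : K →+* F
  n : ℕ
  hn : n ≠ 0
  G : Finset (K →+* F)
  cardG : G.card = n
  hv : ∀ x : K, v x = ‖σ x‖ ^ n
  hG : ∀ σ' ∈ G, ∃ τ : F ≃+* F, (∀ z, ‖τ z‖ = ‖z‖) ∧ σ' = (τ : F →+* F).comp σ
  hG' : ∀ σ', σ' ∉ G → ∃ (v' : FinitePlace K) (n' : ℕ), v' ≠ v ∧ n' ≠ 0 ∧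
    ∀ x : K, v' x = ‖σ' x‖ ^ n'

section inst
variable {K : Type} [Field K] [NumberField K] {v : FinitePlace K} (M : LocModel K v)

end inst

end Pool.Agent.Helper10.Sub

end

section

namespace Pool.Agent.Helper10.Sub
end Pool.Agent.Helper10.Sub

/-!
# A model of the local field of a number field at a finite place
-/

set_option autoImplicit false

namespace Pool.Agent.Helper85.Sub

open Pool.Agent.Helper10.Sub NumberField Polynomial IsDedekindDomain

section C
variable {K : Type} [Field K] [NumberField K]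

lemma exists_prime_mem (P : HeightOneSpectrum (𝓞 K)) :
    ∃ p : ℕ, p.Prime ∧ (p : 𝓞 K) ∈ P.asIdeal := by
  classical
  have hex : ∃ n : ℕ, n ≠ 0 ∧ (n : 𝓞 K) ∈ P.asIdeal := by
    refine ⟨Ideal.absNorm P.asIdeal, ?_, Ideal.absNorm_mem _⟩
    have := HeightOneSpectrum.one_lt_absNorm P
    omega
  set n := Nat.find hex with hn
  obtain ⟨hn0, hnP⟩ := Nat.find_spec hex
  refine ⟨n, ?_, hnP⟩
  rw [Nat.prime_def]
  have hn1 : n ≠ 1 := by
    intro h1
    rw [← hn, h1] at hnP
    apply P.isPrime.ne_top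
    rw [Ideal.eq_top_iff_one]
    simpa using hnP
  refine ⟨by omega, ?_⟩
  intro m hm
  obtain ⟨k, hk⟩ := hm
  have hm0 : m ≠ 0 := by rintro rfl; simp at hk; omega
  have hk0 : k ≠ 0 := by rintro rfl; simp at hk; omega
  have hmem : ((m : 𝓞 K) * (k : 𝓞 K)) ∈ P.asIdeal := by
    rw [← Nat.cast_mul, ← hk]
    exact hnP
  rcases P.isPrime.mem_or_mem hmem with h | h
  · right
    have h1 : n ≤ m := Nat.find_min' hex ⟨hm0, h⟩
    have h2 : m ≤ n := by
      rw [hk]; exact Nat.le_mul_of_pos_right m (Nat.pos_of_ne_zero hk0)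
    omega
  · left
    have h1 : n ≤ k := Nat.find_min' hex ⟨hk0, h⟩
    have h2 : m * k ≤ k := by rw [← hk]; exact h1
    have h3 : m ≤ 1 := by
      by_contra h4
      push Not at h4
      nlinarith [Nat.pos_of_ne_zero hk0]
    omega

variable (K) (p : ℕ) [hp : Fact p.Prime]

/-- The polynomial of a primitive element over `ℚ_p`. -/
noncomputable def gpoly : ℚ_[p][X] :=
  (minpoly ℚ (Field.powerBasisOfFiniteOfSeparable ℚ K).gen).map (algebraMap ℚ ℚ_[p])

/-- The splitting field of the polynomial of a primitive element. -/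
noncomputable def FF : IntermediateField ℚ_[p] (PadicAlgCl p) :=
  IntermediateField.adjoin ℚ_[p] ((gpoly K p).rootSet (PadicAlgCl p))

lemma gpoly_ne_zero : gpoly K p ≠ 0 := by
  rw [gpoly, Polynomial.map_ne_zero_iff (algebraMap ℚ ℚ_[p]).injective]
  exact minpoly.ne_zero (Algebra.IsIntegral.isIntegral _)

lemma ff_finite : FiniteDimensional ℚ_[p] (FF K p) := by
  have : Finite ((gpoly K p).rootSet (PadicAlgCl p)) := by
    have := Polynomial.rootSet_finite (gpoly K p) (PadicAlgCl p)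
    exact this.to_subtype
  exact IntermediateField.finiteDimensional_adjoin (fun x _ => Algebra.IsIntegral.isIntegral x)

variable {K p}

lemma mem_ff (σ : K →+* PadicAlgCl p) (x : K) : σ x ∈ FF K p := by
  set pb := Field.powerBasisOfFiniteOfSeparable ℚ K with hpb
  have hθ : σ pb.gen ∈ FF K p := by
    apply IntermediateField.subset_adjoin
    rw [Polynomial.mem_rootSet]
    refine ⟨gpoly_ne_zero K p, ?_⟩
    rw [gpoly, aeval_map_algebraMap]
    have h1 := minpoly.aeval ℚ pb.gen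
    have h2 := congrArg (RingHom.equivRatAlgHom K (PadicAlgCl p) σ) h1
    rw [map_zero, ← Polynomial.aeval_algHom_apply] at h2
    exact h2
  obtain ⟨f, hf⟩ := pb.exists_eq_aeval' x
  rw [hf, aeval_eq_sum_range, map_sum]
  refine sum_mem ?_
  intro i _
  rw [Algebra.smul_def, map_mul, map_pow]
  refine mul_mem ?_ (pow_mem hθ i)
  rw [eq_ratCast, map_ratCast]
  exact SubfieldClass.ratCast_mem _ _

/-- Restriction of an embedding to the splitting field. -/
noncomputable def lift (σ : K →+* PadicAlgCl p) : K →+* FF K p :=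
  σ.codRestrict (FF K p) (mem_ff σ)

lemma ff_norm (z : FF K p) : ‖z‖ = ‖(z : PadicAlgCl p)‖ := rfl

noncomputable instance instNA : NormedAlgebra ℚ_[p] (FF K p) where
  norm_smul_le := by
    intro r x
    rw [ff_norm, ff_norm]
    exact norm_smul_le r (x : PadicAlgCl p)

lemma ff_spectral (z : FF K p) : ‖z‖ = spectralNorm ℚ_[p] (FF K p) z := by
  rw [spectralNorm.eq_of_tower (L := PadicAlgCl p), ff_norm]
  rfl

end C

end Pool.Agent.Helper85.Sub

end

section

/-!
# Project TG: defects of forms (module of helper65)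
-/

set_option autoImplicit false

namespace Pool.Agent.Helper29.TG

open Height AdmissibleAbsValues MvPolynomial

variable {K : Type} [Field K] {ι : Type} [Finite ι]

/-- the coefficients are integral at `v` -/
def CoeffInt (v : AbsoluteValue K ℝ) (Q : MvPolynomial ι K) : Prop := ∀ m, v (Q.coeff m) ≤ 1

omit [Finite ι] in
theorem Df_degree {Q : MvPolynomial ι K} {D : ℕ} (hQ : Q.IsHomogeneous D) {m : ι →₀ ℕ}
    (hm : m ∈ Q.support) : ∑ i ∈ m.support, m i = D := by
  have := hQ (MvPolynomial.mem_support_iff.1 hm)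
  rw [Finsupp.weight_apply] at this
  simpa [Finsupp.sum] using this

theorem Df_term_le (v : AbsoluteValue K ℝ) {Q : MvPolynomial ι K} {D : ℕ}
    (hQ : Q.IsHomogeneous D) (x : ι → K) {m : ι →₀ ℕ} (hm : m ∈ Q.support) {B : ℝ}
    (hB : v (Q.coeff m) ≤ B) :
    v (coeff m Q * ∏ i ∈ m.support, x i ^ m i) ≤ B * nm v x ^ D := by
  have h1 : ∏ i ∈ m.support, v (x i ^ m i) ≤ nm v x ^ D := by
    rw [← Df_degree hQ hm, ← Finset.prod_pow_eq_pow_sum]
    refine Finset.prod_le_prod (fun i _ => v.nonneg _) fun i _ => ?_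
    rw [map_pow]
    exact pow_le_pow_left₀ (v.nonneg _) (le_nm v x i) _
  rw [map_mul, map_prod]
  exact mul_le_mul hB h1 (Finset.prod_nonneg fun i _ => v.nonneg _) ((v.nonneg _).trans hB)

theorem Df_eval_le_na {v : AbsoluteValue K ℝ} (hv : IsNonarchimedean v) {Q : MvPolynomial ι K}
    {D : ℕ} (hQ : Q.IsHomogeneous D) {B : ℝ} (hB : 0 ≤ B)
    (hc : ∀ m ∈ Q.support, v (Q.coeff m) ≤ B) (x : ι → K) :
    v (eval x Q) ≤ B * nm v x ^ D := by
  rw [eval_eq]
  rcases Q.support.eq_empty_or_nonempty with h0 | hs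
  · rw [h0, Finset.sum_empty, map_zero]
    exact mul_nonneg hB (pow_nonneg (nm_nonneg v x) _)
  · obtain ⟨m, hm, h1⟩ := IsNonarchimedean.finset_image_add_of_nonempty hv
      (fun m => coeff m Q * ∏ i ∈ m.support, x i ^ m i) hs
    exact h1.trans (Df_term_le v hQ x hm (hc m hm))

theorem Df_eval_le (v : AbsoluteValue K ℝ) {Q : MvPolynomial ι K}
    {D : ℕ} (hQ : Q.IsHomogeneous D) {B : ℝ}
    (hc : ∀ m ∈ Q.support, v (Q.coeff m) ≤ B) (x : ι → K) :
    v (eval x Q) ≤ Q.support.card * (B * nm v x ^ D) := by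
  rw [eval_eq]
  refine (v.sum_le _ _).trans ?_
  rw [← nsmul_eq_mul]
  exact Finset.sum_le_card_nsmul _ _ _ fun m hm => Df_term_le v hQ x hm (hc m hm)

theorem df_nonneg {v : AbsoluteValue K ℝ} (hv : IsNonarchimedean v) {Q : MvPolynomial ι K} {D : ℕ}
    (hQ : Q.IsHomogeneous D) (hc : CoeffInt v Q) {x : ι → K} (hx : eval x Q ≠ 0) :
    0 ≤ df v Q D x := by
  have h1 := Df_eval_le_na hv hQ zero_le_one (fun m _ => hc m) x
  rw [one_mul] at h1
  have h2 := Real.log_le_log (v.pos hx) h1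
  rw [Real.log_pow] at h2
  unfold df
  linarith

open Classical in
/-- `log |Q(x)| ≤ D log |x| + c_v` with `c_v = 0` for almost all `v`; all places -/
theorem exists_log_eval_le [AdmissibleAbsValues K] {Q : MvPolynomial ι K} {D : ℕ}
    (hQ : Q.IsHomogeneous D) : ∃ c : AbsoluteValue K ℝ → ℝ, FS c ∧ (∀ v, Mem v → 0 ≤ c v) ∧
      ∀ v, Mem v → ∀ x : ι → K, eval x Q ≠ 0 →
        Real.log (v (eval x Q)) ≤ D * Real.log (nm v x) + c v := by
  set c₁ : AbsoluteValue K ℝ → ℝ := fun v =>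
    ∑ m ∈ Q.support, max 0 (Real.log (v (Q.coeff m))) with hc₁
  set c₂ : AbsoluteValue K ℝ → ℝ := fun v =>
    if v ∈ nonarchAbsVal (K := K) then 0 else Real.log (Q.support.card + 1) with hc₂
  have h1n : ∀ v, 0 ≤ c₁ v := fun v => Finset.sum_nonneg fun m _ => le_max_left _ _
  have h2n : ∀ v, 0 ≤ c₂ v := by
    intro v
    simp only [hc₂]
    split_ifs
    · exact le_rfl
    · refine Real.log_nonneg ?_
      have : (0 : ℝ) ≤ Q.support.card := Nat.cast_nonneg _
      linarith
  have hFS1 : FS c₁ := by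
    refine FS.sum _ fun m hm => (FS_log (mem_support_iff.1 hm)).mono fun v _ h0 => ?_
    rw [h0, max_self]
  have hFS2 : FS c₂ := by
    refine FS.zero.congr fun v hv => ?_
    simp only [hc₂]
    rw [if_pos hv]
  have hcoeff : ∀ v : AbsoluteValue K ℝ, ∀ m ∈ Q.support,
      v (Q.coeff m) ≤ Real.exp (c₁ v) := by
    intro v m hm
    have hpos : 0 < v (Q.coeff m) := v.pos (mem_support_iff.1 hm)
    rw [← Real.log_le_iff_le_exp hpos]
    refine (le_max_right 0 _).trans ?_
    exact Finset.single_le_sum (f := fun m => max 0 (Real.log (v (Q.coeff m))))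
      (fun m _ => le_max_left _ _) hm
  refine ⟨fun v => c₁ v + c₂ v, hFS1.add hFS2, fun v _ => add_nonneg (h1n v) (h2n v),
    fun v _ x hx => ?_⟩
  have hpos : 0 < v (eval x Q) := v.pos hx
  by_cases hv : v ∈ nonarchAbsVal (K := K)
  · have h1 := Df_eval_le_na (isNonarchimedean v hv) hQ (Real.exp_pos _).le (hcoeff v) x
    have h3 : nm v x ^ D ≠ 0 := by
      intro h0
      rw [h0, mul_zero] at h1
      linarith
    have h2 := Real.log_le_log hpos h1
    rw [Real.log_mul (Real.exp_pos _).ne' h3, Real.log_exp, Real.log_pow] at h2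
    have := h2n v
    linarith
  · have h1 := Df_eval_le v hQ (hcoeff v) x
    have h4 : v (eval x Q) ≤
        ((Q.support.card : ℝ) + 1) * (Real.exp (c₁ v) * nm v x ^ D) := by
      refine h1.trans (mul_le_mul_of_nonneg_right (by linarith) ?_)
      exact mul_nonneg (Real.exp_pos _).le (pow_nonneg (nm_nonneg v x) _)
    have hcard : (0 : ℝ) < (Q.support.card : ℝ) + 1 := by positivity
    have h3 : nm v x ^ D ≠ 0 := by
      intro h0
      rw [h0, mul_zero, mul_zero] at h4
      linarith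
    have h2 := Real.log_le_log hpos h4
    rw [Real.log_mul hcard.ne' (mul_ne_zero (Real.exp_pos _).ne' h3),
      Real.log_mul (Real.exp_pos _).ne' h3, Real.log_exp, Real.log_pow] at h2
    have h5 : c₂ v = Real.log (Q.support.card + 1) := by
      simp only [hc₂]
      rw [if_neg hv]
    change _ ≤ (D : ℝ) * Real.log (nm v x) + (c₁ v + c₂ v)
    rw [h5]
    linarith

omit [Finite ι] in
theorem finite_not_coeffInt [AdmissibleAbsValues K] (Q : MvPolynomial ι K) :
    {v : AbsoluteValue K ℝ | v ∈ nonarchAbsVal (K := K) ∧ ¬ CoeffInt v Q}.Finite := by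
  classical
  have h1 : ∀ m ∈ Q.support, ∃ B : Set (AbsoluteValue K ℝ), B.Finite ∧
      ∀ v ∈ nonarchAbsVal (K := K), v ∉ B → Real.log (v (Q.coeff m)) = 0 := fun m hm =>
    (FS_log (mem_support_iff.1 hm)).exists_finite
  choose! B hB hB' using h1
  have hfin : (⋃ m ∈ Q.support, B m).Finite :=
    Set.Finite.biUnion (Finset.finite_toSet _) fun m hm => hB m hm
  refine hfin.subset ?_
  rintro v ⟨hv, hc⟩
  by_contra hcon
  apply hc
  intro m
  by_cases hm : m ∈ Q.support
  · have h2 : v ∉ B m := fun h => hcon (Set.mem_biUnion hm h)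
    have h3 := hB' m hm v hv h2
    have hpos : 0 < v (Q.coeff m) := v.pos (mem_support_iff.1 hm)
    exact (Real.log_nonpos_iff hpos.le).1 h3.le
  · rw [notMem_support_iff.1 hm, map_zero]
    exact zero_le_one

theorem finite_arch [AdmissibleAbsValues K] :
    {v : AbsoluteValue K ℝ | v ∈ archAbsVal (K := K)}.Finite := by
  classical
  refine ((archAbsVal (K := K)).toFinset.finite_toSet).subset fun v hv => ?_
  rw [Finset.mem_coe, Multiset.mem_toFinset]
  exact hv

theorem FS_df [AdmissibleAbsValues K] {Q : MvPolynomial ι K} {D : ℕ} {x : ι → K}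
    (hx : eval x Q ≠ 0) (hx0 : x ≠ 0) : FS (fun v => df v Q D x) :=
  ((FS_nm hx0).mul_left (D : ℝ)).sub (FS_log hx)

theorem ls_df [AdmissibleAbsValues K] {Q : MvPolynomial ι K} {D : ℕ} {x : ι → K}
    (hx : eval x Q ≠ 0) (hx0 : x ≠ 0) : ls (fun v => df v Q D x) = D * logHeight x := by
  unfold df
  rw [ls_sub ((FS_nm hx0).mul_left (D : ℝ)) (FS_log hx), ls_mul_left, ls_nm hx0, ls_log hx,
    sub_zero]

open Classical in
/-- the defects at the places outside `B` -/
theorem exists_ls_df_le [AdmissibleAbsValues K] {Q : MvPolynomial ι K} {D : ℕ}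
    (hQ : Q.IsHomogeneous D) (B : Set (AbsoluteValue K ℝ)) :
    ∃ C : ℝ, ∀ x : ι → K, x ≠ 0 → eval x Q ≠ 0 →
      FS (fun v => if v ∈ B then 0 else df v Q D x) ∧
        ls (fun v => if v ∈ B then 0 else df v Q D x) ≤ D * logHeight x + C := by
  obtain ⟨c, hc, hc0, hcle⟩ := exists_log_eval_le hQ
  refine ⟨ls c, fun x hx0 hx => ?_⟩
  have hFS : FS (fun v => if v ∈ B then 0 else df v Q D x) := by
    refine (FS_df (D := D) hx hx0).mono fun v _ h0 => ?_
    split_ifs
    · rfl
    · exact h0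
  refine ⟨hFS, ?_⟩
  have h1 := ls_mono hFS ((FS_df (D := D) hx hx0).add hc) (fun v hv => by
    have h2 := hcle v hv x hx
    have h3 := hc0 v hv
    split_ifs
    · unfold df
      linarith
    · linarith)
  rwa [ls_add (FS_df hx hx0) hc, ls_df hx hx0] at h1

end Pool.Agent.Helper29.TG

end

section

/-!
# Project TG: contact of the points of the plane curve and of the given points
(module of helper99)
-/

set_option autoImplicit false

namespace Pool.Agent.Helper29.TG

open Height AdmissibleAbsValues MvPolynomial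

variable {K : Type} [Field K] {ν : ℕ}

/-- The point of the plane with coordinates the values of three linear forms. -/
def pl (a : Fin 3 → Fin (ν + 1) → K) (x : Fin (ν + 1) → K) : Fin 3 → K := fun j => lin (a j) x

/-- A monomial of positive degree has a variable. -/
theorem wedge_single {ι : Type} {m : ι →₀ ℕ} {e : ℕ} (hm : m.degree = e + 1) :
    ∃ (i : ι) (m' : ι →₀ ℕ), m = m' + Finsupp.single i 1 ∧ m'.degree = e := by
  classical
  obtain ⟨i, hi⟩ : ∃ i, m i ≠ 0 := by
    by_contra hcon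
    push Not at hcon
    have : m = 0 := Finsupp.ext hcon
    rw [this] at hm
    simp at hm
  have h1 : Finsupp.single i 1 ≤ m := by
    rw [Finsupp.single_le_iff]
    omega
  refine ⟨i, m - Finsupp.single i 1, (tsub_add_cancel_of_le h1).symm, ?_⟩
  have h2 : m.degree = (m - Finsupp.single i 1).degree + 1 := by
    conv_lhs => rw [← tsub_add_cancel_of_le h1]
    rw [map_add, Finsupp.degree_single]
  omega

/-- The value of a monomial. -/
def wmon {ι : Type} (y : ι → K) (m : ι →₀ ℕ) : K := m.prod fun i k => y i ^ k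

theorem wmon_zero {ι : Type} (y : ι → K) : wmon y 0 = 1 := by
  unfold wmon
  exact Finsupp.prod_zero_index

theorem wmon_add_single {ι : Type} (y : ι → K) (m : ι →₀ ℕ) (i : ι) :
    wmon y (m + Finsupp.single i 1) = wmon y m * y i := by
  classical
  unfold wmon
  have h1 : (m + Finsupp.single i 1).prod (fun i k => y i ^ k) =
      m.prod (fun i k => y i ^ k) * (Finsupp.single i 1).prod (fun i k => y i ^ k) :=
    Finsupp.prod_add_index' (h := fun i k => y i ^ k) (fun _ => pow_zero _)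
      (fun _ _ _ => pow_add _ _ _)
  have h2 : (Finsupp.single i 1).prod (fun i k => y i ^ k) = y i := by
    rw [Finsupp.prod_single_index (h := fun i k => y i ^ k) (pow_zero _), pow_one]
  rw [h1, h2]

theorem wedge_expand {ι : Type} (P Q : MvPolynomial ι K) (y y' : ι → K) :
    eval y P * eval y' Q - eval y Q * eval y' P =
      ∑ m ∈ P.support, ∑ n ∈ Q.support,
        P.coeff m * Q.coeff n * (wmon y m * wmon y' n - wmon y n * wmon y' m) := by
  have hev : ∀ (R : MvPolynomial ι K) (z : ι → K),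
      eval z R = ∑ m ∈ R.support, R.coeff m * wmon z m := by
    intro R z
    rw [eval_eq]
    rfl
  rw [hev, hev, hev, hev, Finset.sum_mul_sum, Finset.sum_mul_sum,
    Finset.sum_comm (s := Q.support), ← Finset.sum_sub_distrib]
  refine Finset.sum_congr rfl fun m _ => ?_
  rw [← Finset.sum_sub_distrib]
  refine Finset.sum_congr rfl fun n _ => ?_
  ring

theorem wedge_degree {ι : Type} {P : MvPolynomial ι K} {e : ℕ} (hP : P.IsHomogeneous e)
    {m : ι →₀ ℕ} (hm : m ∈ P.support) : m.degree = e := by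
  have := hP (mem_support_iff.1 hm)
  rw [← this, Finsupp.degree_eq_weight_one]
  rfl

theorem wedge_sum_le {v : AbsoluteValue K ℝ} (hv : IsNonarchimedean v) {α : Type*}
    (s : Finset α) (f : α → K) {B : ℝ} (hB : 0 ≤ B) (h : ∀ a ∈ s, v (f a) ≤ B) :
    v (∑ a ∈ s, f a) ≤ B := by
  classical
  induction s using Finset.induction_on with
  | empty => simpa using hB
  | insert a s ha ih =>
    rw [Finset.sum_insert ha]
    exact (hv _ _).trans (max_le (h a (Finset.mem_insert_self _ _))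
      (ih fun b hb => h b (Finset.mem_insert_of_mem hb)))

theorem wmon_le (v : AbsoluteValue K ℝ) {ι : Type} [Finite ι] (y : ι → K) :
    ∀ (e : ℕ) (m : ι →₀ ℕ), m.degree = e → v (wmon y m) ≤ nm v y ^ e := by
  intro e
  induction e with
  | zero =>
    intro m hm
    have h0 : m = 0 := by
      rwa [Finsupp.degree_eq_zero_iff] at hm
    rw [h0, wmon_zero, map_one, pow_zero]
  | succ e ih =>
    intro m hm
    obtain ⟨i, m', rfl, hm'⟩ := wedge_single hm
    rw [wmon_add_single, map_mul, pow_succ]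
    exact mul_le_mul (ih m' hm') (le_nm v y i) (v.nonneg _) (pow_nonneg (nm_nonneg v y) _)

theorem wmon_wedge {v : AbsoluteValue K ℝ} (hv : IsNonarchimedean v) {ι : Type} [Finite ι]
    (y y' : ι → K) : ∀ (e : ℕ) (m n : ι →₀ ℕ), m.degree = e + 1 → n.degree = e + 1 →
      v (wmon y m * wmon y' n - wmon y n * wmon y' m) ≤
        nm v (cr y y') * nm v y ^ e * nm v y' ^ e := by
  intro e
  induction e with
  | zero =>
    intro m n hm hn
    obtain ⟨i, m', rfl, hm'⟩ := wedge_single hm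
    obtain ⟨j, n', rfl, hn'⟩ := wedge_single hn
    have h1 : m' = 0 := by rwa [Finsupp.degree_eq_zero_iff] at hm'
    have h2 : n' = 0 := by rwa [Finsupp.degree_eq_zero_iff] at hn'
    subst h1
    subst h2
    rw [wmon_add_single, wmon_add_single, wmon_add_single, wmon_add_single]
    rw [wmon_zero, wmon_zero, one_mul, one_mul, one_mul, one_mul, pow_zero, pow_zero, mul_one,
      mul_one]
    exact le_nm v (cr y y') (i, j)
  | succ e ih =>
    intro m n hm hn
    obtain ⟨i, m', rfl, hm'⟩ := wedge_single hm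
    obtain ⟨j, n', rfl, hn'⟩ := wedge_single hn
    rw [wmon_add_single, wmon_add_single, wmon_add_single, wmon_add_single]
    have h1 : wmon y m' * y i * (wmon y' n' * y' j) - wmon y n' * y j * (wmon y' m' * y' i) =
        wmon y m' * wmon y' n' * (y i * y' j - y j * y' i) +
          y j * y' i * (wmon y m' * wmon y' n' - wmon y n' * wmon y' m') := by ring
    have hy := nm_nonneg v y
    have hy' := nm_nonneg v y'
    have hc := nm_nonneg v (cr y y')
    have h3 : v (y i * y' j - y j * y' i) ≤ nm v (cr y y') := le_nm v (cr y y') (i, j)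
    rw [h1]
    refine (hv _ _).trans (max_le ?_ ?_)
    · rw [map_mul, map_mul]
      calc v (wmon y m') * v (wmon y' n') * v (y i * y' j - y j * y' i)
          ≤ nm v y ^ (e + 1) * nm v y' ^ (e + 1) * nm v (cr y y') :=
            mul_le_mul (mul_le_mul (wmon_le v y _ _ hm') (wmon_le v y' _ _ hn') (v.nonneg _)
              (pow_nonneg hy _)) h3 (v.nonneg _)
              (mul_nonneg (pow_nonneg hy _) (pow_nonneg hy' _))
        _ = _ := by ring
    · rw [map_mul, map_mul]
      calc v (y j) * v (y' i) * v (wmon y m' * wmon y' n' - wmon y n' * wmon y' m')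
          ≤ nm v y * nm v y' * (nm v (cr y y') * nm v y ^ e * nm v y' ^ e) :=
            mul_le_mul (mul_le_mul (le_nm v y j) (le_nm v y' i) (v.nonneg _) hy)
              (ih m' n' hm' hn') (v.nonneg _) (mul_nonneg hy hy')
        _ = _ := by ring

theorem wmon_wedge_zero {ι : Type} {y y' : ι → K} (h : cr y y' = 0) :
    ∀ (e : ℕ) (m n : ι →₀ ℕ), m.degree = e → n.degree = e →
      wmon y m * wmon y' n = wmon y n * wmon y' m := by
  intro e
  induction e with
  | zero =>
    intro m n hm hn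
    rw [Finsupp.degree_eq_zero_iff] at hm hn
    rw [hm, hn]
  | succ e ih =>
    intro m n hm hn
    obtain ⟨i, m', rfl, hm'⟩ := wedge_single hm
    obtain ⟨j, n', rfl, hn'⟩ := wedge_single hn
    rw [wmon_add_single, wmon_add_single, wmon_add_single, wmon_add_single]
    have h1 := congrFun h (i, j)
    have h1' : y i * y' j - y j * y' i = 0 := h1
    have h2 := ih m' n' hm' hn'
    linear_combination (wmon y m' * wmon y' n') * h1' + y j * y' i * h2

theorem wedge_zero {ι : Type} {y y' : ι → K} (h : cr y y' = 0) {e : ℕ}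
    {P Q : MvPolynomial ι K} (hP : P.IsHomogeneous e) (hQ : Q.IsHomogeneous e) :
    eval y P * eval y' Q - eval y Q * eval y' P = 0 := by
  rw [wedge_expand]
  refine Finset.sum_eq_zero fun m hm => Finset.sum_eq_zero fun n hn => ?_
  rw [wmon_wedge_zero h e m n (wedge_degree hP hm) (wedge_degree hQ hn), sub_self, mul_zero]

/-- `|P(y) Q(y') - Q(y) P(y')| ≤ |y × y'| |y| ^ e |y'| ^ e` for forms of degree `e + 1` with
integral coefficients -/
theorem wedge_le {v : AbsoluteValue K ℝ} (hv : IsNonarchimedean v) {ι : Type} [Finite ι] {e : ℕ}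
    {P Q : MvPolynomial ι K} (hP : P.IsHomogeneous (e + 1)) (hQ : Q.IsHomogeneous (e + 1))
    (hPc : CoeffInt v P) (hQc : CoeffInt v Q) (y y' : ι → K) :
    v (eval y P * eval y' Q - eval y Q * eval y' P) ≤ nm v (cr y y') * nm v y ^ e * nm v y' ^ e := by
  have hy := nm_nonneg v y
  have hy' := nm_nonneg v y'
  have hc := nm_nonneg v (cr y y')
  have hB : 0 ≤ nm v (cr y y') * nm v y ^ e * nm v y' ^ e :=
    mul_nonneg (mul_nonneg hc (pow_nonneg hy _)) (pow_nonneg hy' _)
  rw [wedge_expand]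
  refine wedge_sum_le hv _ _ hB fun m hm => wedge_sum_le hv _ _ hB fun n hn => ?_
  rw [map_mul, map_mul]
  have h1 := wmon_wedge hv y y' e m n (wedge_degree hP hm) (wedge_degree hQ hn)
  have h2 : v (coeff m P) * v (coeff n Q) ≤ 1 :=
    mul_le_one₀ (hPc m) (v.nonneg _) (hQc n)
  calc v (coeff m P) * v (coeff n Q) * v (wmon y m * wmon y' n - wmon y n * wmon y' m)
      ≤ 1 * v (wmon y m * wmon y' n - wmon y n * wmon y' m) :=
        mul_le_mul_of_nonneg_right h2 (v.nonneg _)
    _ ≤ _ := by rw [one_mul]; exact h1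

theorem nm_pl_le {v : AbsoluteValue K ℝ} (hv : IsNonarchimedean v)
    {a : Fin 3 → Fin (ν + 1) → K} (ha : ∀ j i, v (a j i) ≤ 1) (x : Fin (ν + 1) → K) :
    nm v (pl a x) ≤ nm v x := by
  refine nm_le (nm_nonneg v x) fun j => ?_
  unfold pl lin
  refine wedge_sum_le hv _ _ (nm_nonneg v x) fun i _ => ?_
  rw [map_mul]
  calc v (a j i) * v (x i) ≤ 1 * nm v x :=
        mul_le_mul (ha j i) (le_nm v x i) (v.nonneg _) zero_le_one
    _ = _ := one_mul _

theorem pl_cross {a : Fin 3 → Fin (ν + 1) → K}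
    {V : MvPolynomial (Fin 3) K} {P : Fin (ν + 1) → MvPolynomial (Fin 3) K}
    {x x' : Fin (ν + 1) → K}
    (h : ∀ j, x j * eval (pl a x) V = eval (pl a x) (P j))
    (h' : ∀ j, x' j * eval (pl a x') V = eval (pl a x') (P j)) (j l : Fin (ν + 1)) :
    cr x x' (j, l) * (eval (pl a x) V * eval (pl a x') V) =
      eval (pl a x) (P j) * eval (pl a x') (P l) - eval (pl a x) (P l) * eval (pl a x') (P j) := by
  rw [← h, ← h, ← h', ← h']
  change (x j * x' l - x l * x' j) * _ = _
  ring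

theorem cr_pl_ne_zero {a : Fin 3 → Fin (ν + 1) → K} {e : ℕ}
    {V : MvPolynomial (Fin 3) K} {P : Fin (ν + 1) → MvPolynomial (Fin 3) K}
    (hP : ∀ j, (P j).IsHomogeneous (e + 1))
    {x x' : Fin (ν + 1) → K} (hx : eval (pl a x) V ≠ 0) (hx' : eval (pl a x') V ≠ 0)
    (h : ∀ j, x j * eval (pl a x) V = eval (pl a x) (P j))
    (h' : ∀ j, x' j * eval (pl a x') V = eval (pl a x') (P j))
    (hc : cr x x' ≠ 0) : cr (pl a x) (pl a x') ≠ 0 := by
  intro h0
  apply hc
  funext q
  obtain ⟨j, l⟩ := q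
  have h1 := pl_cross h h' j l
  rw [wedge_zero h0 (hP j) (hP l)] at h1
  exact (mul_eq_zero.1 h1).resolve_right (mul_ne_zero hx hx')

/-- contact downstairs and upstairs -/
theorem ct_pl_le {v : AbsoluteValue K ℝ} (hv : IsNonarchimedean v)
    {a : Fin 3 → Fin (ν + 1) → K} (ha : ∀ j i, v (a j i) ≤ 1) {e : ℕ}
    {V : MvPolynomial (Fin 3) K} {P : Fin (ν + 1) → MvPolynomial (Fin 3) K}
    (hP : ∀ j, (P j).IsHomogeneous (e + 1)) (hPc : ∀ j, CoeffInt v (P j))
    {x x' : Fin (ν + 1) → K} (hx : eval (pl a x) V ≠ 0) (hx' : eval (pl a x') V ≠ 0)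
    (h : ∀ j, x j * eval (pl a x) V = eval (pl a x) (P j))
    (h' : ∀ j, x' j * eval (pl a x') V = eval (pl a x') (P j))
    (hc : cr x x' ≠ 0) :
    ct v (pl a x) (pl a x') ≤ ct v x x' + df v V e (pl a x) + df v V e (pl a x') := by
  have hcy := cr_pl_ne_zero hP hx hx' h h' hc
  have hy0 := left_ne_zero hcy
  have hy0' := right_ne_zero hcy
  have hV := v.pos hx
  have hV' := v.pos hx'
  have hny := nm_pos v hy0
  have hny' := nm_pos v hy0'
  have hnc := nm_pos v hcy
  have hnx := nm_pos v hc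
  obtain ⟨⟨j, l⟩, -, hq⟩ := exists_nm_eq v hc
  have h1 : nm v (cr x x') * (v (eval (pl a x) V) * v (eval (pl a x') V)) ≤
      nm v (cr (pl a x) (pl a x')) * nm v (pl a x) ^ e * nm v (pl a x') ^ e := by
    rw [hq, ← map_mul, ← map_mul, pl_cross h h' j l]
    exact wedge_le hv (hP j) (hP l) (hPc j) (hPc l) _ _
  have h2 := Real.log_le_log (mul_pos hnx (mul_pos hV hV')) h1
  rw [Real.log_mul hnx.ne' (mul_pos hV hV').ne', Real.log_mul hV.ne' hV'.ne',
    Real.log_mul (mul_pos hnc (pow_pos hny _)).ne' (pow_pos hny' _).ne',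
    Real.log_mul hnc.ne' (pow_pos hny _).ne', Real.log_pow, Real.log_pow] at h2
  have h3 := Real.log_le_log hny (nm_pl_le hv ha x)
  have h4 := Real.log_le_log hny' (nm_pl_le hv ha x')
  unfold ct df
  linarith

theorem exists_logHeight_le_pl [AdmissibleAbsValues K] (a : Fin 3 → Fin (ν + 1) → K) {e : ℕ}
    (V : MvPolynomial (Fin 3) K) {P : Fin (ν + 1) → MvPolynomial (Fin 3) K}
    (hP : ∀ j, (P j).IsHomogeneous (e + 1)) :
    ∃ C : ℝ, ∀ x : Fin (ν + 1) → K, x ≠ 0 → eval (pl a x) V ≠ 0 →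
      (∀ j, x j * eval (pl a x) V = eval (pl a x) (P j)) →
        pl a x ≠ 0 ∧ logHeight x ≤ (e + 1) * logHeight (pl a x) + C := by
  obtain ⟨C, hC⟩ := logHeight_eval_le' hP
  refine ⟨C, fun x hx hV h => ⟨?_, ?_⟩⟩
  · intro h0
    apply hx
    funext j
    have h1 := h j
    rw [h0] at h1 hV
    have h2 : eval (0 : Fin 3 → K) (P j) = 0 := by
      rw [eval_zero, constantCoeff_eq]
      exact (hP j).coeff_eq_zero (by simp)
    rw [h2] at h1
    exact (mul_eq_zero.1 h1).resolve_right hV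
  · have h1 := hC (pl a x)
    have h2 : (fun j => eval (pl a x) (P j)) = eval (pl a x) V • x := by
      funext j
      rw [← h j, Pi.smul_apply, smul_eq_mul, mul_comm]
    rw [h2, logHeight_smul_eq_logHeight x hV] at h1
    push_cast at h1
    linarith

end Pool.Agent.Helper29.TG

end
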