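import Mathlib
import Pool.Agent.Helper29.MG2.T01
import Pool.Agent.Helper29.MG2.T07

section

/-!
# Extending embeddings to isomorphisms of the complex numbers with `ℂ_[p]` (SS-18)
-/

set_option autoImplicit false

namespace Pool.Agent.Helper33.SS

open Cardinal

/-- Any field with a dense subset of cardinality at most the continuum, in a metrizable topology,
has cardinality at most the continuum. -/
theorem card_completion_le (A : Type) [PseudoMetricSpace A] (h : #A ≤ Cardinal.continuum) :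
    #(UniformSpace.Completion A) ≤ Cardinal.continuum := by
  have key : ∀ x : UniformSpace.Completion A, ∃ u : ℕ → A,
      Filter.Tendsto (fun n => ((u n : A) : UniformSpace.Completion A)) Filter.atTop (nhds x) := by
    intro x
    have hx : x ∈ closure (Set.range ((↑) : A → UniformSpace.Completion A)) :=
      UniformSpace.Completion.denseRange_coe x
    obtain ⟨u, hu, hux⟩ := mem_closure_iff_seq_limit.1 hx
    choose v hv using hu
    exact ⟨v, by simpa [hv] using hux⟩
  choose u hu using key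
  have hinj : Function.Injective u := by
    intro x y hxy
    have h1 := hu x
    rw [hxy] at h1
    exact tendsto_nhds_unique h1 (hu y)
  calc #(UniformSpace.Completion A) ≤ #(ℕ → A) := mk_le_of_injective hinj
    _ = #A ^ ℵ₀ := by simp
    _ ≤ Cardinal.continuum ^ ℵ₀ := Cardinal.power_le_power_right h
    _ = Cardinal.continuum := Cardinal.continuum_power_aleph0

/-- `ℂ_[p]` has the cardinality of the continuum: `ℚ_[p]` is a quotient of a set of sequences of
rationals, its algebraic closure has the same cardinality, and each element of the completion is the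
limit of a sequence. -/
theorem card_Cp (p : ℕ) [Fact p.Prime] : #ℂ_[p] = Cardinal.continuum := by
  apply le_antisymm
  · apply card_completion_le
    have h1 : #ℚ_[p] ≤ Cardinal.continuum := by
      have h2 : #ℚ_[p] ≤ #(ℕ → ℚ) := by
        have h3 : #(CauSeq ℚ (padicNorm p)) ≤ #(ℕ → ℚ) := by
          refine mk_le_of_injective (f := fun f : CauSeq ℚ (padicNorm p) => (f : ℕ → ℚ)) ?_
          intro f g hfg
          exact Subtype.ext hfg
        refine le_trans ?_ h3
        exact mk_quotient_le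
      refine h2.trans ?_
      have : #(ℕ → ℚ) = ℵ₀ ^ ℵ₀ := by simp
      rw [this, Cardinal.aleph0_power_aleph0]
    have h4 := Algebra.IsAlgebraic.cardinalMk_le_max ℚ_[p] (PadicAlgCl p)
    exact h4.trans (max_le h1 Cardinal.aleph0_le_continuum)
  · exact continuum_le_cardinal_of_nontriviallyNormedField ℂ_[p]

/-- Two algebraically closed fields of the same uncountable cardinality over a countable field are
isomorphic over it. -/
theorem exists_algEquiv {K C D : Type} [Field K] [Field C] [Field D] [Algebra K C] [Algebra K D]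
    [IsAlgClosed C] [IsAlgClosed D] (hK : #K ≤ ℵ₀) (hC : ℵ₀ < #C) (hCD : #C = #D) :
    ∃ s : C ≃+* D, ∀ c : K, s (algebraMap K C c) = algebraMap K D c := by
  obtain ⟨s, hs⟩ := exists_isTranscendenceBasis K C
  obtain ⟨t, ht⟩ := exists_isTranscendenceBasis K D
  have h1 : #C = #s := by
    simpa using IsAlgClosed.cardinal_eq_cardinal_transcendence_basis_of_aleph0_lt _ hs hK hC
  have h2 : #D = #t := by
    simpa using IsAlgClosed.cardinal_eq_cardinal_transcendence_basis_of_aleph0_lt _ ht hK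
      (hCD ▸ hC)
  obtain ⟨e⟩ : Nonempty (s ≃ t) := Cardinal.eq.1 (by rw [← h1, ← h2, hCD])
  let := IsAlgClosed.isAlgClosure_of_transcendence_basis _ hs
  let := IsAlgClosed.isAlgClosure_of_transcendence_basis _ ht
  let f : Algebra.adjoin K (Set.range ((↑) : s → C)) ≃ₐ[K]
      Algebra.adjoin K (Set.range ((↑) : t → D)) :=
    (hs.1.aevalEquiv.symm.trans (MvPolynomial.renameEquiv K e)).trans ht.1.aevalEquiv
  refine ⟨IsAlgClosure.equivOfEquiv C D f.toRingEquiv, fun c => ?_⟩
  have h3 := IsAlgClosure.equivOfEquiv_algebraMap C D f.toRingEquiv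
    (algebraMap K (Algebra.adjoin K (Set.range ((↑) : s → C))) c)
  have h4 : f.toRingEquiv (algebraMap K (Algebra.adjoin K (Set.range ((↑) : s → C))) c) =
      algebraMap K (Algebra.adjoin K (Set.range ((↑) : t → D))) c := f.commutes c
  rw [h4] at h3
  exact h3

end Pool.Agent.Helper33.SS

end

section

/-!
# Normal form of eigenvalues of integral matrices (SS-9)
-/

set_option autoImplicit false

namespace Pool.Agent.Helper33.SS

private theorem io_norm (p : ℕ) [Fact p.Prime] (a : ℤ_[p]) : ‖io p a‖ = ‖a‖ := by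
  show ‖((a : ℚ_[p]) : ℂ_[p])‖ = ‖a‖
  rw [PadicComplex.norm_extends', PadicInt.norm_def]

private theorem norm_nat_p (p : ℕ) [Fact p.Prime] : ‖(p : ℂ_[p])‖ = (p : ℝ)⁻¹ := by
  calc ‖(p : ℂ_[p])‖ = ‖algebraMap ℚ_[p] ℂ_[p] (p : ℚ_[p])‖ := by rw [map_natCast]
    _ = ‖(p : ℚ_[p])‖ := norm_algebraMap' _ _
    _ = (p : ℝ)⁻¹ := Padic.norm_p

private theorem root_sum {p : ℕ} [Fact p.Prime] {P : Polynomial ℤ_[p]} {μ : ℂ_[p]}
    (hμ : (P.map (io p)).IsRoot μ) :
    ∑ i ∈ Finset.range (P.natDegree + 1), io p (P.coeff i) * μ ^ i = 0 := by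
  have h : Polynomial.eval μ (P.map (io p)) = 0 := hμ
  rw [Polynomial.eval_map, Polynomial.eval₂_eq_sum_range] at h
  exact h

private theorem root_le_one {p : ℕ} [Fact p.Prime] {P : Polynomial ℤ_[p]} (hP : P.Monic)
    {μ : ℂ_[p]} (hμ : (P.map (io p)).IsRoot μ) : ‖μ‖ ≤ 1 := by
  by_contra hlt
  push Not at hlt
  have hs := root_sum hμ
  rw [Finset.sum_range_succ, hP.coeff_natDegree, map_one, one_mul] at hs
  have hn : μ ^ P.natDegree = -∑ i ∈ Finset.range P.natDegree, io p (P.coeff i) * μ ^ i :=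
    eq_neg_of_add_eq_zero_right hs
  have hμ0 : μ ≠ 0 := by
    rintro rfl
    rw [norm_zero] at hlt
    linarith
  by_cases h0 : P.natDegree = 0
  · rw [h0] at hn
    simp at hn
  · obtain ⟨j, hj, hle⟩ := IsUltrametricDist.exists_norm_finsetSum_le
      (Finset.range P.natDegree) (fun i => io p (P.coeff i) * μ ^ i)
    have hj' := hj ⟨0, Finset.mem_range.2 (Nat.pos_of_ne_zero h0)⟩
    rw [Finset.mem_range] at hj'
    have h1 : ‖μ‖ ^ P.natDegree ≤ ‖μ‖ ^ j := by
      calc ‖μ‖ ^ P.natDegree = ‖μ ^ P.natDegree‖ := (norm_pow _ _).symm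
        _ = ‖∑ i ∈ Finset.range P.natDegree, io p (P.coeff i) * μ ^ i‖ := by
            rw [hn, norm_neg]
        _ ≤ ‖io p (P.coeff j) * μ ^ j‖ := hle
        _ = ‖P.coeff j‖ * ‖μ‖ ^ j := by rw [norm_mul, norm_pow, io_norm]
        _ ≤ 1 * ‖μ‖ ^ j := by
            apply mul_le_mul_of_nonneg_right (PadicInt.norm_le_one _) (by positivity)
        _ = ‖μ‖ ^ j := one_mul _
    exact absurd h1 (not_le.2 (pow_lt_pow_right₀ hlt hj'))

private theorem root_norm {p : ℕ} [Fact p.Prime] {P : Polynomial ℤ_[p]} (hP : P.Monic)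
    {μ : ℂ_[p]} (hμ : (P.map (io p)).IsRoot μ) (hμ0 : μ ≠ 0) :
    ∃ e m : ℕ, 1 ≤ e ∧ ‖μ‖ ^ e = ((p : ℝ)⁻¹) ^ m := by
  have hp1 : (1 : ℝ) < p := by exact_mod_cast (Fact.out : p.Prime).one_lt
  have hp0 : (0 : ℝ) < p := by linarith
  have hle1 := root_le_one hP hμ
  have hpos : 0 < ‖μ‖ := norm_pos_iff.2 hμ0
  have hs := root_sum hμ
  set f : ℕ → ℂ_[p] := fun i => io p (P.coeff i) * μ ^ i with hf
  have hfn : ∀ i, ‖f i‖ = ‖P.coeff i‖ * ‖μ‖ ^ i := by
    intro i
    rw [hf]
    simp only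
    rw [norm_mul, norm_pow, io_norm]
  obtain ⟨i0, hi0, hmax⟩ := Finset.exists_max_image (Finset.range (P.natDegree + 1))
    (fun i => ‖f i‖) ⟨0, Finset.mem_range.2 (Nat.succ_pos _)⟩
  have htop : 0 < ‖f P.natDegree‖ := by
    rw [hfn, hP.coeff_natDegree, norm_one, one_mul]
    positivity
  have h0 : 0 < ‖f i0‖ := lt_of_lt_of_le htop (hmax _ (Finset.mem_range.2 (Nat.lt_succ_self _)))
  have hsum : f i0 + ∑ i ∈ (Finset.range (P.natDegree + 1)).erase i0, f i = 0 := by
    rw [Finset.add_sum_erase _ _ hi0]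
    exact hs
  obtain ⟨j, hj, hle⟩ := IsUltrametricDist.exists_norm_finsetSum_le
    ((Finset.range (P.natDegree + 1)).erase i0) f
  have hne : ((Finset.range (P.natDegree + 1)).erase i0).Nonempty := by
    rw [Finset.nonempty_iff_ne_empty]
    intro hem
    rw [hem, Finset.sum_empty, add_zero] at hsum
    rw [hsum, norm_zero] at h0
    exact lt_irrefl _ h0
  have hj' := Finset.mem_erase.1 (hj hne)
  have h1 : ‖f i0‖ ≤ ‖f j‖ := by
    rw [eq_neg_of_add_eq_zero_left hsum, norm_neg]
    exact hle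
  have heq : ‖f i0‖ = ‖f j‖ := le_antisymm h1 (hmax j hj'.2)
  have key : ∀ i k : ℕ, i < k → 0 < ‖f i‖ → ‖f i‖ = ‖f k‖ →
      ∃ e m : ℕ, 1 ≤ e ∧ ‖μ‖ ^ e = ((p : ℝ)⁻¹) ^ m := by
    intro i k hik hipos hikeq
    have hci : P.coeff i ≠ 0 := by
      intro hc
      rw [hfn, hc, norm_zero, zero_mul] at hipos
      exact lt_irrefl _ hipos
    have hck : P.coeff k ≠ 0 := by
      intro hc
      rw [hikeq, hfn, hc, norm_zero, zero_mul] at hipos
      exact lt_irrefl _ hipos
    rw [hfn, hfn, PadicInt.norm_eq_zpow_neg_valuation hci,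
      PadicInt.norm_eq_zpow_neg_valuation hck] at hikeq
    obtain ⟨e, rfl⟩ := Nat.exists_eq_add_of_lt hik
    have h2 : ‖μ‖ ^ (e + 1) =
        (p : ℝ) ^ (((P.coeff (i + e + 1)).valuation : ℤ) - ((P.coeff i).valuation : ℤ)) := by
      have h3 : ‖μ‖ ^ (i + e + 1) = ‖μ‖ ^ i * ‖μ‖ ^ (e + 1) := by ring
      rw [h3] at hikeq
      have hi' : ‖μ‖ ^ i ≠ 0 := by positivity
      have hk' : (p : ℝ) ^ (-((P.coeff (i + e + 1)).valuation : ℤ)) ≠ 0 := by positivity
      rw [zpow_sub₀ hp0.ne']
      rw [zpow_neg, zpow_neg] at hikeq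
      have hA : (p : ℝ) ^ ((P.coeff (i + e + 1)).valuation : ℤ) ≠ 0 := by positivity
      have hB : (p : ℝ) ^ ((P.coeff i).valuation : ℤ) ≠ 0 := by positivity
      field_simp at hikeq ⊢
      linarith
    set z : ℤ := ((P.coeff (i + e + 1)).valuation : ℤ) - ((P.coeff i).valuation : ℤ) with hz
    have hzle : z ≤ 0 := by
      by_contra hz0
      push Not at hz0
      have h4 : (1 : ℝ) < (p : ℝ) ^ z := one_lt_zpow₀ hp1 hz0
      rw [← h2] at h4
      exact absurd (pow_le_one₀ hpos.le hle1) (not_le.2 h4)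
    obtain ⟨m, hm⟩ := Int.eq_ofNat_of_zero_le (neg_nonneg.2 hzle)
    refine ⟨e + 1, m, by omega, ?_⟩
    rw [h2, inv_pow, ← zpow_natCast, ← zpow_neg]
    congr 1
    have : (m : ℤ) = -z := hm.symm
    omega
  rcases lt_or_gt_of_ne hj'.1 with hlt | hlt
  · exact key j i0 hlt (heq ▸ h0) heq.symm
  · exact key i0 j hlt h0 heq

/-- Some power of an algebraic unit is close to one. -/
private theorem unit_pow {p : ℕ} [Fact p.Prime] {ν : ℂ_[p]} (halg : IsIntegral ℚ_[p] ν)
    (hν : ‖ν‖ = 1) : ∃ k : ℕ, 1 ≤ k ∧ ‖ν ^ k - 1‖ ≤ (p : ℝ)⁻¹ := by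
  have hp0 : (0 : ℝ) < (p : ℝ)⁻¹ := by
    have : (0 : ℝ) < p := by exact_mod_cast (Fact.out : p.Prime).pos
    positivity
  set E : Submodule ℚ_[p] ℂ_[p] := Subalgebra.toSubmodule (Algebra.adjoin ℚ_[p] {ν}) with hE
  have : FiniteDimensional ℚ_[p] E :=
    Module.Finite.iff_fg.2 halg.fg_adjoin_singleton
  have : ProperSpace E := FiniteDimensional.proper ℚ_[p] E
  have hmem : ∀ k : ℕ, ν ^ k ∈ E := by
    intro k
    show ν ^ k ∈ Algebra.adjoin ℚ_[p] {ν}
    exact Subalgebra.pow_mem _ (Algebra.self_mem_adjoin_singleton _ _) k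
  have hball : ∀ k : ℕ, (⟨ν ^ k, hmem k⟩ : E) ∈ Metric.closedBall (0 : E) 1 := by
    intro k
    rw [mem_closedBall_zero_iff]
    show ‖ν ^ k‖ ≤ 1
    rw [norm_pow, hν, one_pow]
  obtain ⟨a, -, φ, hφ, hlim⟩ := (isCompact_closedBall (0 : E) 1).tendsto_subseq hball
  have hc := hlim.cauchySeq
  obtain ⟨N, hN⟩ := Metric.cauchySeq_iff.1 hc _ hp0
  have h1 := hN (N + 1) (by omega) N le_rfl
  have hlt : φ N < φ (N + 1) := hφ (Nat.lt_succ_self N)
  refine ⟨φ (N + 1) - φ N, by omega, ?_⟩
  have h2 : ‖ν ^ φ (N + 1) - ν ^ φ N‖ < (p : ℝ)⁻¹ := by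
    rw [dist_eq_norm] at h1
    exact h1
  have h3 : ν ^ φ (N + 1) - ν ^ φ N = ν ^ φ N * (ν ^ (φ (N + 1) - φ N) - 1) := by
    rw [mul_sub, ← pow_add, mul_one]
    congr 2
    omega
  rw [h3, norm_mul, norm_pow, hν, one_pow, one_mul] at h2
  exact h2.le

private theorem pow_close {p : ℕ} [Fact p.Prime] {ν : ℂ_[p]} (hν : ‖ν‖ = 1) {k : ℕ}
    (hk : ‖ν ^ k - 1‖ ≤ (p : ℝ)⁻¹) {l : ℕ} (hl : k ∣ l) : ‖ν ^ l - 1‖ ≤ (p : ℝ)⁻¹ := by
  obtain ⟨c, rfl⟩ := hl
  have h1 : ν ^ (k * c) - 1 = (∑ i ∈ Finset.range c, (ν ^ k) ^ i) * (ν ^ k - 1) := by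
    rw [geom_sum_mul, pow_mul]
  rw [h1, norm_mul]
  have h2 : ‖∑ i ∈ Finset.range c, (ν ^ k) ^ i‖ ≤ 1 := by
    apply IsUltrametricDist.norm_sum_le_of_forall_le_of_nonneg zero_le_one
    intro i _
    rw [norm_pow, norm_pow, hν, one_pow, one_pow]
  calc _ ≤ 1 * ‖ν ^ k - 1‖ := mul_le_mul_of_nonneg_right h2 (norm_nonneg _)
    _ ≤ _ := by rw [one_mul]; exact hk

/-- Let `P` be a monic polynomial over the `p`-adic integers. There are `w` in `ℂ_[p]`, `w ≠ 0`,
`‖w‖ < 1`, `‖p‖ ≤ ‖w‖`, and `k ≥ 1` such that the `k`-th power of every root of `P` is `0` or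
`w ^ m * ν` with `‖ν - 1‖ ≤ 1 / p`. Proof: a root `μ ≠ 0` is algebraic, so a power of `‖μ‖` is an
integral power of `p`; let `w` be a suitable root of `p`, `μ = w ^ m * ν` with `‖ν‖ = 1`, `ν` integral
over the `p`-adic integers; two powers of `ν` agree modulo `p` by the pigeonhole principle. -/
theorem exists_good (p : ℕ) [Fact p.Prime] (P : Polynomial ℤ_[p]) (hP : P.Monic) :
    ∃ (w : ℂ_[p]) (k : ℕ), w ≠ 0 ∧ ‖w‖ < 1 ∧ (p : ℝ)⁻¹ ≤ ‖w‖ ∧ 1 ≤ k ∧
      ∀ μ : ℂ_[p], (P.map (io p)).IsRoot μ → GoodEig (p : ℝ)⁻¹ w (μ ^ k) := by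
  classical
  have hp1 : (1 : ℝ) < p := by exact_mod_cast (Fact.out : p.Prime).one_lt
  have hp0 : (0 : ℝ) < p := by linarith
  have hinv0 : (0 : ℝ) < (p : ℝ)⁻¹ := by positivity
  have hinv1 : (p : ℝ)⁻¹ < 1 := inv_lt_one_of_one_lt₀ hp1
  have hPm : (P.map (io p)).Monic := hP.map _
  set R : Finset ℂ_[p] := (P.map (io p)).roots.toFinset.erase 0 with hR
  have hmemR : ∀ μ, μ ∈ R ↔ μ ≠ 0 ∧ (P.map (io p)).IsRoot μ := by
    intro μ
    rw [hR, Finset.mem_erase, Multiset.mem_toFinset, Polynomial.mem_roots hPm.ne_zero]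
  have hch : ∀ μ : R, ∃ e m : ℕ, 1 ≤ e ∧ ‖(μ : ℂ_[p])‖ ^ e = ((p : ℝ)⁻¹) ^ m := by
    intro μ
    obtain ⟨h1, h2⟩ := (hmemR μ).1 μ.2
    exact root_norm hP h2 h1
  choose e m he hem using hch
  set E : ℕ := ∏ μ : R, e μ with hE
  have hEpos : 0 < E := Finset.prod_pos fun μ _ => he μ
  obtain ⟨w, hw⟩ := IsAlgClosed.exists_pow_nat_eq (p : ℂ_[p]) hEpos
  have hwE : ‖w‖ ^ E = (p : ℝ)⁻¹ := by rw [← norm_pow, hw, norm_nat_p]
  have hw0 : w ≠ 0 := by
    rintro rfl
    rw [norm_zero, zero_pow hEpos.ne'] at hwE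
    linarith
  have hwpos : 0 < ‖w‖ := norm_pos_iff.2 hw0
  have hw1 : ‖w‖ < 1 := by
    by_contra h
    push Not at h
    have := one_le_pow₀ (n := E) h
    rw [hwE] at this
    linarith
  have hwp : (p : ℝ)⁻¹ ≤ ‖w‖ := by
    rw [← hwE]
    exact pow_le_of_le_one hwpos.le hw1.le hEpos.ne'
  have hexp : ∀ μ : R, ∃ l : ℕ, ‖(μ : ℂ_[p])‖ = ‖w‖ ^ l := by
    intro μ
    obtain ⟨c, hc⟩ := Finset.dvd_prod_of_mem e (Finset.mem_univ μ)
    refine ⟨m μ * c, ?_⟩
    have h1 : ‖(μ : ℂ_[p])‖ ^ E = (‖w‖ ^ (m μ * c)) ^ E := by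
      calc ‖(μ : ℂ_[p])‖ ^ E = (‖(μ : ℂ_[p])‖ ^ e μ) ^ c := by
            rw [← pow_mul, hE, hc]
        _ = (((p : ℝ)⁻¹) ^ m μ) ^ c := by rw [hem]
        _ = ((p : ℝ)⁻¹) ^ (m μ * c) := by rw [← pow_mul]
        _ = (‖w‖ ^ E) ^ (m μ * c) := by rw [hwE]
        _ = (‖w‖ ^ (m μ * c)) ^ E := by rw [← pow_mul, ← pow_mul, Nat.mul_comm]
    exact (pow_left_inj₀ (norm_nonneg _) (by positivity) hEpos.ne').1 h1
  choose l hl using hexp
  have hunit : ∀ μ : R, ∃ k : ℕ, 1 ≤ k ∧ ‖((μ : ℂ_[p]) / w ^ l μ) ^ k - 1‖ ≤ (p : ℝ)⁻¹ := by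
    intro μ
    apply unit_pow
    · have h1 : IsIntegral ℚ_[p] (μ : ℂ_[p]) := by
        refine ⟨P.map PadicInt.Coe.ringHom, hP.map _, ?_⟩
        have h2 := ((hmemR μ).1 μ.2).2
        have h3 : Polynomial.eval (μ : ℂ_[p]) (P.map (io p)) = 0 := h2
        rw [Polynomial.eval_map] at h3
        rw [Polynomial.eval₂_map]
        exact h3
      have h2 : IsIntegral ℚ_[p] w := by
        refine IsIntegral.of_pow hEpos ?_
        rw [hw, ← map_natCast (algebraMap ℚ_[p] ℂ_[p])]
        exact isIntegral_algebraMap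
      rw [div_eq_mul_inv]
      exact h1.mul (h2.pow _).inv
    · rw [norm_div, norm_pow, hl μ, div_self (by positivity)]
  choose k hk hkn using hunit
  set K : ℕ := ∏ μ : R, k μ with hK
  refine ⟨w, K, hw0, hw1, hwp, Nat.succ_le_of_lt (Finset.prod_pos fun μ _ => hk μ), ?_⟩
  intro μ hμ
  by_cases hμ0 : μ = 0
  · left
    rw [hμ0, zero_pow]
    exact (Finset.prod_pos fun μ _ => hk μ : 0 < K).ne'
  · right
    have hμR : μ ∈ R := (hmemR μ).2 ⟨hμ0, hμ⟩
    set μ' : R := ⟨μ, hμR⟩ with hμ'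
    refine ⟨l μ' * K, (μ / w ^ l μ') ^ K, ?_, ?_⟩
    · refine pow_close ?_ (hkn μ') (Finset.dvd_prod_of_mem k (Finset.mem_univ μ'))
      rw [norm_div, norm_pow, ← hl μ', div_self]
      exact (norm_pos_iff.2 hμ0).ne'
    · rw [div_pow, ← pow_mul, mul_div_cancel₀]
      exact pow_ne_zero _ hw0

end Pool.Agent.Helper33.SS

end

section

/-!
# The idempotent lemma (SS-10)
-/

set_option autoImplicit false

namespace Pool.Agent.Helper33.SS

open Filter Topology

section IdemAux

variable {p : ℕ} [Fact p.Prime] {E : Type*} [AddCommGroup E] [Module ℤ_[p] E]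

lemma idem_choose {L N i : ℕ} (hN : p ^ (2 * L) ∣ N) (hi0 : 0 < i) (hi : i < L) :
    p ^ L ∣ N.choose i := by
  have hp : p.Prime := Fact.out
  obtain ⟨i, rfl⟩ : ∃ j, i = j + 1 := ⟨i - 1, by omega⟩
  rcases Nat.eq_zero_or_pos N with h0 | hpos
  · subst h0
    simp
  obtain ⟨M, rfl⟩ : ∃ M, N = M + 1 := ⟨N - 1, by omega⟩
  have h1 : (M + 1) * M.choose i = (M + 1).choose (i + 1) * (i + 1) := Nat.add_one_mul_choose_eq M i
  have h2 : p ^ (2 * L) ∣ (i + 1) * (M + 1).choose (i + 1) := by
    have h1' : (i + 1) * (M + 1).choose (i + 1) = (M + 1) * M.choose i := by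
      rw [h1, mul_comm]
    rw [h1']
    exact Dvd.dvd.mul_right hN _
  obtain ⟨a, m, hm, ham⟩ := Nat.exists_eq_pow_mul_and_not_dvd (n := i + 1) (by omega) p hp.ne_one
  have haL : a < L := by
    by_contra hcon
    push Not at hcon
    have hm0 : 0 < m := by
      rcases Nat.eq_zero_or_pos m with h | h
      · subst h; simp at hm
      · exact h
    have h3 : p ^ a ≤ i + 1 := by
      rw [ham]; exact Nat.le_mul_of_pos_right _ hm0
    have h4 : a < p ^ a := Nat.lt_pow_self hp.one_lt
    omega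
  have h5 : p ^ (2 * L - a) ∣ m * (M + 1).choose (i + 1) := by
    have h6 : p ^ a * p ^ (2 * L - a) ∣ p ^ a * (m * (M + 1).choose (i + 1)) := by
      rw [← pow_add, ← mul_assoc, ← ham]
      have : a + (2 * L - a) = 2 * L := by omega
      rw [this]
      exact h2
    exact Nat.dvd_of_mul_dvd_mul_left (pow_pos hp.pos a) h6
  have h7 : p ^ (2 * L - a) ∣ (M + 1).choose (i + 1) :=
    hp.prime.pow_dvd_of_dvd_mul_left _ hm h5
  exact dvd_trans (pow_dvd_pow p (by omega)) h7

end IdemAux

end Pool.Agent.Helper33.SS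

end

section

/-!
# Residue polydiscs (SS-11)
-/

set_option autoImplicit false

namespace Pool.Agent.Helper33.SS

open Filter Topology

section DiscAux

open MvPolynomial

lemma eval_iter {R σ : Type*} [CommRing R] (H : σ → MvPolynomial σ R) (m : ℕ) (ξ : σ → R)
    (h : MvPolynomial σ R) :
    eval ξ (((aeval H : MvPolynomial σ R →ₐ[R] MvPolynomial σ R).toLinearMap ^ m) h)
      = eval ((ev H)^[m] ξ) h := by
  induction m generalizing h with
  | zero => simp
  | succ m ih =>
    rw [pow_succ, Module.End.mul_apply, ih, Function.iterate_succ_apply']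
    generalize (ev H)^[m] ξ = ζ
    show eval ζ (aeval H h) = eval (ev H ζ) h
    rw [← MvPolynomial.coe_aeval_eq_eval, ← MvPolynomial.coe_aeval_eq_eval]
    show (aeval ζ) (aeval H h) = aeval (ev H ζ) h
    have h1 : ((aeval ζ : MvPolynomial σ R →ₐ[R] R).comp (aeval H)) = aeval (ev H ζ) := by
      apply MvPolynomial.algHom_ext
      intro i
      simp [ev]
    rw [← h1]
    rfl

end DiscAux

end Pool.Agent.Helper33.SS

end

section

namespace Pool.Agent.Helper38.Dml
end Pool.Agent.Helper38.Dml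

/-!
# Cassels embedding with integrality (SS-17)
-/

set_option autoImplicit false

namespace Pool.Agent.Helper33.SS

open Polynomial Pool.Agent.Helper38.Dml

/-- Zeros in `ℚ_p` of a polynomial in one variable over a polynomial ring, specialised at
algebraically independent `p`-adic integers at which a given polynomial is a unit, for all large
primes `p` modulo which a suitable integral polynomial has a zero. -/
theorem root_int (r : ℕ) (g U V : Polynomial (MvPolynomial (Fin r) ℤ))
    (E : MvPolynomial (Fin r) ℤ) (hE : E ≠ 0) (h : U * g + V * derivative g = C E)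
    (hg : 0 < g.natDegree) :
    ∃ g₀ : ℤ[X], 0 < g₀.natDegree ∧ ∃ M : ℕ, ∀ p : ℕ, M < p → ∀ hp : p.Prime,
      (∃ n : ℤ, (p : ℤ) ∣ g₀.eval n) → haveI := Fact.mk hp;
      ∃ s : Fin r → ℤ_[p], AlgebraicIndependent ℤ (fun i => (s i : ℚ_[p])) ∧
        ‖MvPolynomial.eval₂Hom (Int.castRingHom ℤ_[p]) s E‖ = 1 ∧
        ∃ z : ℚ_[p], g.eval₂ ((PadicInt.Coe.ringHom (p := p)).comp
          (MvPolynomial.eval₂Hom (Int.castRingHom ℤ_[p]) s)) z = 0 := by
  have hg0 : g ≠ 0 := by
    rintro rfl
    simp at hg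
  have hDE : g.leadingCoeff * E ≠ 0 := mul_ne_zero (leadingCoeff_ne_zero.2 hg0) hE
  have hτ : ∃ τ : Fin r → ℤ, MvPolynomial.eval τ (g.leadingCoeff * E) ≠ 0 := by
    by_contra hcon
    push Not at hcon
    exact hDE (MvPolynomial.funext (fun τ => by rw [hcon τ, map_zero]))
  obtain ⟨τ, hτ⟩ := hτ
  rw [map_mul] at hτ
  have hD : MvPolynomial.eval τ g.leadingCoeff ≠ 0 := left_ne_zero_of_mul hτ
  have hEτ : MvPolynomial.eval τ E ≠ 0 := right_ne_zero_of_mul hτ
  have hdeg : 0 < (g.map (MvPolynomial.eval τ)).natDegree := by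
    rwa [Polynomial.natDegree_map_of_leadingCoeff_ne_zero _ hD]
  refine ⟨g.map (MvPolynomial.eval τ), hdeg, (MvPolynomial.eval τ E).natAbs, ?_⟩
  rintro p hpN hp ⟨n, hn⟩
  have := Fact.mk hp
  obtain ⟨s, hs, hsτ⟩ := exists_algebraicIndependent_near p r τ
  set θ : MvPolynomial (Fin r) ℤ →+* ℤ_[p] := MvPolynomial.eval₂Hom (Int.castRingHom ℤ_[p]) s
    with hθ
  have hθmod : (PadicInt.toZMod (p := p)).comp θ = (Int.castRingHom (ZMod p)).comp
      (MvPolynomial.eval τ) := by
    apply MvPolynomial.ringHom_ext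
    · intro c
      simp [hθ]
    · intro i
      simp [hθ, hsτ i]
  have hEp : ((MvPolynomial.eval τ E : ℤ) : ZMod p) ≠ 0 := by
    intro h3
    have h4 : (p : ℤ) ∣ MvPolynomial.eval τ E := (ZMod.intCast_zmod_eq_zero_iff_dvd _ _).1 h3
    have h5 : p ∣ (MvPolynomial.eval τ E).natAbs := Int.natCast_dvd.1 h4
    have h6 := Nat.le_of_dvd (Int.natAbs_pos.2 hEτ) h5
    omega
  have hnorm : ∀ x : ℤ_[p], PadicInt.toZMod x = 0 ↔ ‖x‖ < 1 := by
    intro x
    rw [← RingHom.mem_ker, PadicInt.ker_toZMod, IsLocalRing.mem_maximalIdeal, PadicInt.mem_nonunits]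
  have hE1 : ‖θ E‖ = 1 := by
    have h1 : PadicInt.toZMod (θ E) ≠ 0 := by
      have h2 := congrArg (fun f : MvPolynomial (Fin r) ℤ →+* ZMod p => f E) hθmod
      simp only [RingHom.comp_apply, eq_intCast] at h2
      rw [h2]
      exact hEp
    exact le_antisymm (PadicInt.norm_le_one _) (not_lt.1 (mt (hnorm _).2 h1))
  refine ⟨s, hs, hE1, ?_⟩
  set G : ℤ_[p][X] := g.map θ with hG
  have hmod : ∀ q : Polynomial (MvPolynomial (Fin r) ℤ), PadicInt.toZMod ((q.map θ).eval (n : ℤ_[p]))
      = (((q.map (MvPolynomial.eval τ)).eval n : ℤ) : ZMod p) := by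
    intro q
    rw [eval_map, eval_map, hom_eval₂, hθmod]
    have h1 := hom_eval₂ q (MvPolynomial.eval τ) (Int.castRingHom (ZMod p)) n
    simp only [eq_intCast] at h1
    rw [h1, map_intCast]
  have h1 : PadicInt.toZMod (G.eval (n : ℤ_[p])) = 0 := by
    rw [hG, hmod, ZMod.intCast_zmod_eq_zero_iff_dvd]
    exact hn
  have h2 : PadicInt.toZMod ((derivative G).eval (n : ℤ_[p])) ≠ 0 := by
    intro h0
    have h3 := congrArg (fun q : Polynomial (MvPolynomial (Fin r) ℤ) =>
      PadicInt.toZMod ((q.map θ).eval (n : ℤ_[p]))) h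
    simp only [Polynomial.map_add, Polynomial.map_mul, eval_add, eval_mul, map_add, map_mul] at h3
    rw [← hG, h1, ← derivative_map, ← hG, h0, mul_zero, mul_zero, add_zero] at h3
    rw [hmod, Polynomial.map_C, eval_C] at h3
    exact hEp h3.symm
  have h3 : ‖(derivative G).eval (n : ℤ_[p])‖ = 1 := by
    have := mt (hnorm _).2 h2
    exact le_antisymm (PadicInt.norm_le_one _) (not_lt.1 this)
  obtain ⟨z, hz, _⟩ := hensels_lemma (F := G) (a := (n : ℤ_[p])) (by
    rw [coe_aeval_eq_eval, h3, one_pow]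
    exact (hnorm _).1 h1)
  rw [coe_aeval_eq_eval] at hz
  refine ⟨(z : ℚ_[p]), ?_⟩
  have h5 := hom_eval₂ g θ (PadicInt.Coe.ringHom (p := p)) z
  change _ = g.eval₂ _ (z : ℚ_[p]) at h5
  rw [← h5, ← eval_map, ← hG, hz, map_zero]

theorem embed_ext {P Q K L : Type*} [CommRing P] [IsDomain P] [Field Q] [Algebra P Q]
    [IsFractionRing P Q] [Field K] [Algebra Q K] [Field L] (pb : PowerBasis Q K) (θ : P →+* L)
    (hθ : Function.Injective θ) (z : L) (b : P) (hb : b ≠ 0) (g : P[X])
    (hg : g.map (algebraMap P Q) = C (algebraMap P Q b) * minpoly Q pb.gen)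
    (hz : g.eval₂ θ z = 0) :
    ∃ φ : K →+* L, φ.comp ((algebraMap Q K).comp (algebraMap P Q)) = θ := by
  have hτ : (IsFractionRing.lift (K := Q) hθ).comp (algebraMap P Q) = θ := by
    apply RingHom.ext
    intro c
    exact IsFractionRing.lift_algebraMap hθ c
  generalize (IsFractionRing.lift (K := Q) hθ) = τ at hτ
  let _ : Algebra Q L := τ.toAlgebra
  have hz2 : aeval z (minpoly Q pb.gen) = 0 := by
    have h1 : (g.map (algebraMap P Q)).eval₂ τ z = 0 := by
      rw [eval₂_map, hτ]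
      exact hz
    rw [hg, eval₂_mul, eval₂_C] at h1
    rcases mul_eq_zero.1 h1 with h2 | h2
    · exact absurd (IsFractionRing.injective P Q (((map_eq_zero τ).1 h2).trans (map_zero _).symm)) hb
    · exact h2
  refine ⟨(pb.lift z hz2).toRingHom, ?_⟩
  rw [← RingHom.comp_assoc]
  have h3 : (pb.lift z hz2).toRingHom.comp (algebraMap Q K) = τ := by
    apply RingHom.ext
    intro c
    exact (pb.lift z hz2).commutes c
  rw [h3, hτ]

theorem norm_le_one_of_root {P : Type*} [CommRing P] (p : ℕ) [Fact p.Prime] (θ : P →+* ℤ_[p])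
    (q : P[X]) (hq : ‖θ q.leadingCoeff‖ = 1) (x : ℚ_[p])
    (hx : q.eval₂ ((PadicInt.Coe.ringHom (p := p)).comp θ) x = 0) : ‖x‖ ≤ 1 := by
  have h0 : θ q.leadingCoeff ≠ 0 := by
    intro h
    rw [h, norm_zero] at hq
    exact zero_ne_one hq
  have h1 : aeval x (q.map θ) = 0 := by
    rw [aeval_def, eval₂_map]
    exact hx
  have h2 := isIntegral_leadingCoeff_smul (q.map θ) x h1
  rw [leadingCoeff_map_of_leadingCoeff_ne_zero θ h0] at h2
  obtain ⟨u, hu⟩ := PadicInt.isUnit_iff.2 hq
  have h3 : IsIntegral ℤ_[p] x := by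
    have h4 : x = (↑u⁻¹ : ℤ_[p]) • (θ q.leadingCoeff • x) := by
      rw [smul_smul, ← hu, Units.inv_mul, one_smul]
    rw [h4]
    exact h2.smul _
  obtain ⟨y, hy⟩ := IsIntegrallyClosed.isIntegral_iff.1 h3
  rw [← hy]
  exact PadicInt.norm_le_one y

/-- A finitely generated field of characteristic zero embeds into `ℚ_p`, for arbitrarily large primes
`p`, such that given elements become integral. Proof: adapt `exists_padic_root_all` and
`exists_embedding_all` of `Pool.Agent.Helper38.Dml.Embed`: with a transcendence basis `x` in `K`,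
every given element `c` is a zero of a polynomial over `P = ℤ[x]` with leading coefficient
`D_c ≠ 0`; choose the point `τ` there such that also `∏ D_c (τ) ≠ 0`, and `p` larger than this
integer; then `D_c (s)` is a unit and `φ c` is integral over the `p`-adic integers. -/
theorem exists_padic_int {K : Type*} [Field K] [Algebra ℚ K]
    (hK : (⊤ : IntermediateField ℚ K).FG) (S : Finset K) (N : ℕ) :
    ∃ p, N < p ∧ ∃ hp : p.Prime, haveI := Fact.mk hp; ∃ φ : K →+* ℚ_[p], ∀ c ∈ S, ‖φ c‖ ≤ 1 := by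
  classical
  have : CharZero K := algebraRat.charZero K
  obtain ⟨S', hS⟩ := hK
  have hmem : ∀ x : K, x ∈ IntermediateField.adjoin ℚ (S' : Set K) := fun x => by
    rw [hS]; trivial
  -- K is algebraic over the ring generated by S'
  have halg : Algebra.IsAlgebraic (Algebra.adjoin ℤ (S' : Set K)) K := by
    constructor
    intro x
    refine IntermediateField.adjoin_induction ℚ
      (p := fun x _ => IsAlgebraic (Algebra.adjoin ℤ (S' : Set K)) x) ?_ ?_ ?_ ?_ ?_ (hmem x)
    · intro x hx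
      exact isAlgebraic_algebraMap (⟨x, Algebra.subset_adjoin hx⟩ : Algebra.adjoin ℤ (S' : Set K))
    · intro q
      have h0 : IsAlgebraic ℤ q :=
        (IsFractionRing.isAlgebraic_iff ℤ ℚ ℚ).2 (isAlgebraic_algebraMap q)
      have h1 : IsAlgebraic ℤ (algebraMap ℚ K q) := h0.algebraMap
      exact h1.extendScalars (FaithfulSMul.algebraMap_injective ℤ (Algebra.adjoin ℤ (S' : Set K)))
    · intro x y _ _ hx hy
      exact hx.add hy
    · intro x _ hx
      exact hx.inv
    · intro x y _ _ hx hy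
      exact hx.mul hy
  obtain ⟨t, htS, ht⟩ := exists_isTranscendenceBasis_subset (R := ℤ) (S' : Set K)
  have htfin : t.Finite := S'.finite_toSet.subset htS
  have : Fintype t := htfin.fintype
  obtain ⟨r, ⟨e⟩⟩ : ∃ r, Nonempty (Fin r ≃ t) := ⟨_, ⟨(Fintype.equivFin t).symm⟩⟩
  have hx := ht.comp_equiv e
  set x : Fin r → K := fun i => (e i : K) with hxdef
  have hxi : AlgebraicIndependent ℤ x := hx.1
  let P := MvPolynomial (Fin r) ℤ
  let _ : Algebra P K := (MvPolynomial.aeval x : P →ₐ[ℤ] K).toRingHom.toAlgebra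
  have hinj : Function.Injective (algebraMap P K) := hxi
  have : FaithfulSMul P K := (faithfulSMul_iff_algebraMap_injective P K).2 hinj
  have halgP : Algebra.IsAlgebraic P K := by
    have h1 : Algebra.IsAlgebraic (Algebra.adjoin ℤ (Set.range x)) K := hx.isAlgebraic
    refine Algebra.IsAlgebraic.of_ringHom_of_comp_eq (S := Algebra.adjoin ℤ (Set.range x)) (B := K)
      hxi.aevalEquiv (RingHom.id K) hxi.aevalEquiv.surjective (fun _ _ h => h) ?_
    apply RingHom.ext
    intro P'
    change ((hxi.aevalEquiv P' : Algebra.adjoin ℤ (Set.range x)) : K) = MvPolynomial.aeval x P'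
    exact hxi.algebraMap_aevalEquiv P'
  let Q := FractionRing P
  let _ : Algebra Q K := FractionRing.liftAlgebra P K
  have : IsScalarTower P Q K := FractionRing.isScalarTower_liftAlgebra P K
  have halgQ : Algebra.IsAlgebraic Q K := IsFractionRing.comap_isAlgebraic_iff.1 halgP
  have htop : IntermediateField.adjoin Q (S' : Set K) = ⊤ := by
    rw [eq_top_iff]
    intro y _
    refine IntermediateField.adjoin_induction ℚ
      (p := fun y _ => y ∈ IntermediateField.adjoin Q (S' : Set K)) ?_ ?_ ?_ ?_ ?_ (hmem y)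
    · intro y hy
      exact IntermediateField.subset_adjoin _ _ hy
    · intro q
      rw [eq_ratCast]
      exact SubfieldClass.ratCast_mem _ q
    · intro y z _ _ hy hz
      exact add_mem hy hz
    · intro y _ hy
      exact inv_mem hy
    · intro y z _ _ hy hz
      exact mul_mem hy hz
  have hfin : FiniteDimensional Q K := by
    have h1 : FiniteDimensional Q (IntermediateField.adjoin Q (S' : Set K)) :=
      IntermediateField.finiteDimensional_adjoin (fun y _ => (halgQ.isAlgebraic y).isIntegral)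
    rw [htop] at h1
    exact LinearEquiv.finiteDimensional (IntermediateField.topEquiv (F := Q) (E := K)).toLinearEquiv
  let pb := Field.powerBasisOfFiniteOfSeparable Q K
  set f := minpoly Q pb.gen with hf
  have hfint : IsIntegral Q pb.gen := (halgQ.isAlgebraic pb.gen).isIntegral
  have hfsep : f.Separable := (minpoly.irreducible hfint).separable
  have hfdeg : 0 < f.natDegree := minpoly.natDegree_pos hfint
  obtain ⟨g, U, V, E, b, hb0, hE, hbez, hgdeg, hg⟩ := exists_clear (P := P) f hfsep hfdeg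
  have hq : ∀ c : K, ∃ q : P[X], q ≠ 0 ∧ aeval c q = 0 := fun c => halgP.isAlgebraic c
  choose q hq0 hqc using hq
  set D : P := ∏ c ∈ S, (q c).leadingCoeff with hDdef
  have hD0 : D ≠ 0 := Finset.prod_ne_zero_iff.2 (fun c _ => leadingCoeff_ne_zero.2 (hq0 c))
  obtain ⟨g₀, hg₀, M, hM⟩ := root_int r g (C D * U) (C D * V) (D * E) (mul_ne_zero hD0 hE) (by
    rw [C_mul, ← hbez]; ring) hgdeg
  obtain ⟨p, hpN, hp, hn⟩ := exists_prime_root g₀ hg₀ (N + M)
  refine ⟨p, by omega, hp, ?_⟩
  have := Fact.mk hp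
  obtain ⟨s, hs, hnorm, z, hz⟩ := hM p (by omega) hp hn
  set θ : P →+* ℤ_[p] := MvPolynomial.eval₂Hom (Int.castRingHom ℤ_[p]) s with hθ
  have h4 : (PadicInt.Coe.ringHom (p := p)).comp θ =
      (MvPolynomial.aeval (fun i => (s i : ℚ_[p])) :
      MvPolynomial (Fin r) ℤ →ₐ[ℤ] ℚ_[p]).toRingHom := by
    apply MvPolynomial.ringHom_ext
    · intro c
      simp [hθ]
    · intro i
      have h5 : (PadicInt.Coe.ringHom (p := p)) (s i) = (s i : ℚ_[p]) := rfl
      simp [hθ, h5]
  have hinj2 : Function.Injective ((PadicInt.Coe.ringHom (p := p)).comp θ) := by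
    rw [h4]
    exact hs
  obtain ⟨φ, hφ⟩ := embed_ext pb _ hinj2 z b hb0 g hg hz
  refine ⟨φ, fun c hc => ?_⟩
  have hφP : φ.comp (algebraMap P K) = (PadicInt.Coe.ringHom (p := p)).comp θ := by
    rw [IsScalarTower.algebraMap_eq P Q K, hφ]
  refine norm_le_one_of_root p θ (q c) ?_ (φ c) ?_
  · rw [map_mul, norm_mul] at hnorm
    have h5 : ‖θ D‖ = 1 := by
      refine le_antisymm (PadicInt.norm_le_one _) ?_
      rw [← hnorm]
      exact mul_le_of_le_one_right (norm_nonneg _) (PadicInt.norm_le_one _)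
    rw [hDdef, ← Finset.mul_prod_erase S _ hc, map_mul, norm_mul] at h5
    refine le_antisymm (PadicInt.norm_le_one _) ?_
    rw [← h5]
    exact mul_le_of_le_one_right (norm_nonneg _) (PadicInt.norm_le_one _)
  · rw [← hφP]
    have h6 := hom_eval₂ (q c) (algebraMap P K) φ c
    rw [← h6]
    have h7 : eval₂ (algebraMap P K) c (q c) = 0 := hqc c
    rw [h7, map_zero]

end Pool.Agent.Helper33.SS

end

section

/-!
# Exponential polynomials with roots in a group

`EP M` is the space of the sequences `s ↦ ∑ c * s ^ a * μ ^ s` with roots `μ` in the group `M`.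
-/

set_option autoImplicit false

namespace Pool.Agent.Helper65.TNL

open Finset

variable {k : Type*} [Field k]

/-- The monomial sequence `s ↦ s ^ a * μ ^ s`. -/
def mono (a : ℕ) (μ : k) : ℕ → k := fun s => (s : k) ^ a * μ ^ s

/-- Exponential polynomials with roots in the group `M`. -/
def EP (M : Subgroup kˣ) : Submodule k (ℕ → k) :=
  Submodule.span k {f | ∃ (a : ℕ) (μ : kˣ), μ ∈ M ∧ f = mono a (μ : k)}

variable {M : Subgroup kˣ}

theorem mono_mem (a : ℕ) {μ : kˣ} (hμ : μ ∈ M) : mono a (μ : k) ∈ EP M :=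
  Submodule.subset_span ⟨a, μ, hμ, rfl⟩

theorem pow_mem_EP {μ : kˣ} (hμ : μ ∈ M) : (fun s => (μ : k) ^ s) ∈ EP M := by
  have h := mono_mem 0 hμ
  have e : mono 0 (μ : k) = fun s => (μ : k) ^ s := by
    funext s
    simp [mono]
  rwa [e] at h

theorem const_mem_EP (c : k) : (fun _ => c) ∈ EP M := by
  have h := Submodule.smul_mem (EP M) c (pow_mem_EP (M := M) (one_mem M))
  have e : (c • fun s : ℕ => ((1 : kˣ) : k) ^ s) = fun _ => c := by
    funext s
    simp
  rwa [e] at h

theorem id_mem_EP : (fun s : ℕ => (s : k)) ∈ EP M := by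
  have h := mono_mem (M := M) 1 (one_mem M)
  have e : mono 1 ((1 : kˣ) : k) = fun s : ℕ => (s : k) := by
    funext s
    simp [mono]
  rwa [e] at h

theorem mul_mem_EP {f g : ℕ → k} (hf : f ∈ EP M) (hg : g ∈ EP M) :
    (fun s => f s * g s) ∈ EP M := by
  have key : f * g ∈ EP M := by
    induction hf using Submodule.span_induction with
    | mem x hx =>
      obtain ⟨a, μ, hμ, rfl⟩ := hx
      induction hg using Submodule.span_induction with
      | mem y hy =>
        obtain ⟨b, ν, hν, rfl⟩ := hy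
        have e : mono a (μ : k) * mono b (ν : k) = mono (a + b) ((μ * ν : kˣ) : k) := by
          funext s
          simp only [Pi.mul_apply, mono, Units.val_mul, pow_add, mul_pow]
          ring
        rw [e]
        exact mono_mem _ (mul_mem hμ hν)
      | zero => simp
      | add y z _ _ hy hz => rw [mul_add]; exact Submodule.add_mem _ hy hz
      | smul c y _ hy => rw [mul_smul_comm]; exact Submodule.smul_mem _ c hy
    | zero => simp
    | add y z _ _ hy hz => rw [add_mul]; exact Submodule.add_mem _ hy hz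
    | smul c y _ hy => rw [smul_mul_assoc]; exact Submodule.smul_mem _ c hy
  exact key

/-- The shift operator. -/
def shift : (ℕ → k) →ₗ[k] (ℕ → k) where
  toFun f := fun s => f (s + 1)
  map_add' _ _ := rfl
  map_smul' _ _ := rfl

end Pool.Agent.Helper65.TNL

end

section

/-!
# Linear recurrences with exponential polynomials on the right hand side
-/

set_option autoImplicit false

namespace Pool.Agent.Helper65.TNL

open Finset Polynomial

variable {k : Type*} [Field k] {M : Subgroup kˣ}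

/-- The operator `shift - μ`. -/
def sub (μ : k) : (ℕ → k) →ₗ[k] (ℕ → k) := shift - μ • LinearMap.id

@[simp] theorem sub_apply (μ : k) (f : ℕ → k) (s : ℕ) : sub μ f s = f (s + 1) - μ * f s := rfl

/-- `shift - μ` maps monomials to combinations of monomials with the same root. -/
theorem sub_mono (μ ν : k) (a : ℕ) :
    sub μ (mono a ν) = (ν - μ) • mono a ν + ν • ∑ b ∈ range a, (a.choose b : k) • mono b ν := by
  funext s
  simp only [sub_apply, mono, Pi.add_apply, Pi.smul_apply, Finset.sum_apply, smul_eq_mul]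
  have h : ((s : k) + 1) ^ a = ∑ b ∈ range a, (s : k) ^ b * (a.choose b : k) + (s : k) ^ a := by
    rw [add_pow, Finset.sum_range_succ]
    simp
  rw [Nat.cast_add, Nat.cast_one, h, pow_succ]
  have h2 : (∑ b ∈ range a, (a.choose b : k) * ((s : k) ^ b * ν ^ s))
      = (∑ b ∈ range a, (s : k) ^ b * (a.choose b : k)) * ν ^ s := by
    rw [Finset.sum_mul]
    exact Finset.sum_congr rfl fun b _ => by ring
  rw [h2]
  ring

end Pool.Agent.Helper65.TNL

end

section

/-!
# Independence of exponential polynomials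
-/

set_option autoImplicit false

namespace Pool.Agent.Helper65.TNL

open Finset Polynomial

variable {k : Type*} [Field k] {M : Subgroup kˣ}

/-- An exponential polynomial is a finite sum of polynomials times exponentials. -/
theorem exists_poly {f : ℕ → k} (hf : f ∈ EP M) :
    ∃ (S : Finset kˣ) (P : kˣ → k[X]), (∀ μ ∈ S, μ ∈ M) ∧
      ∀ s : ℕ, f s = ∑ μ ∈ S, (P μ).eval (s : k) * (μ : k) ^ s := by
  classical
  induction hf using Submodule.span_induction with
  | mem x hx =>
    obtain ⟨a, μ, hμ, rfl⟩ := hx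
    refine ⟨{μ}, fun _ => X ^ a, fun ν hν => by rw [mem_singleton.1 hν]; exact hμ, fun s => ?_⟩
    rw [sum_singleton, eval_pow, eval_X]
    rfl
  | zero => exact ⟨∅, fun _ => 0, fun ν hν => by simp at hν, fun s => by simp⟩
  | add y z _ _ hy hz =>
    obtain ⟨S, P, hS, hP⟩ := hy
    obtain ⟨S', P', hS', hP'⟩ := hz
    refine ⟨S ∪ S', fun μ => (if μ ∈ S then P μ else 0) + (if μ ∈ S' then P' μ else 0),
      fun ν hν => ?_, fun s => ?_⟩
    · rcases mem_union.1 hν with h | h
      · exact hS ν h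
      · exact hS' ν h
    · rw [Pi.add_apply, hP, hP']
      have h1 : ∀ μ : kˣ, ((if μ ∈ S then P μ else 0) + (if μ ∈ S' then P' μ else 0)).eval (s : k)
            * (μ : k) ^ s
          = (if μ ∈ S then (P μ).eval (s : k) * (μ : k) ^ s else 0)
            + (if μ ∈ S' then (P' μ).eval (s : k) * (μ : k) ^ s else 0) := by
        intro μ
        split_ifs <;> simp [add_mul]
      rw [Finset.sum_congr rfl fun μ _ => h1 μ, Finset.sum_add_distrib, Finset.sum_ite_mem,
        Finset.sum_ite_mem, Finset.union_inter_cancel_left, Finset.union_inter_cancel_right]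
  | smul c y _ hy =>
    obtain ⟨S, P, hS, hP⟩ := hy
    refine ⟨S, fun μ => C c * P μ, hS, fun s => ?_⟩
    rw [Pi.smul_apply, hP, smul_eq_mul, Finset.mul_sum]
    refine Finset.sum_congr rfl fun μ _ => ?_
    rw [eval_mul, eval_C]
    ring

theorem poly_mem_gen (Q : k[X]) (ρ : k) :
    (fun s : ℕ => Q.eval (s : k) * ρ ^ s) ∈ Module.End.maxGenEigenspace (shift (k := k)) ρ := by
  have hm : ∀ a, mono a ρ ∈ Module.End.maxGenEigenspace (shift (k := k)) ρ := by
    intro a
    induction a using Nat.strong_induction_on with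
    | _ a ih =>
      have h1 : sub ρ (mono a ρ) ∈ Module.End.maxGenEigenspace (shift (k := k)) ρ := by
        rw [sub_mono, sub_self, zero_smul, zero_add]
        refine Submodule.smul_mem _ _ (Submodule.sum_mem _ fun b hb =>
          Submodule.smul_mem _ _ (ih b (mem_range.1 hb)))
      rw [Module.End.mem_maxGenEigenspace] at h1 ⊢
      obtain ⟨n, hn⟩ := h1
      refine ⟨n + 1, ?_⟩
      rw [pow_succ]
      exact hn
  have e : (fun s : ℕ => Q.eval (s : k) * ρ ^ s)
      = ∑ a ∈ range (Q.natDegree + 1), Q.coeff a • mono a ρ := by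
    funext s
    rw [Finset.sum_apply, eval_eq_sum_range, Finset.sum_mul]
    refine Finset.sum_congr rfl fun a _ => ?_
    rw [Pi.smul_apply, smul_eq_mul, mono]
    ring
  rw [e]
  exact Submodule.sum_mem _ fun a _ => Submodule.smul_mem _ _ (hm a)

/-- Polynomials times exponentials with distinct nonzero roots are independent. -/
theorem poly_indep [CharZero k] {ι : Type*} (S : Finset ι) (ρ : ι → k)
    (hρ : Set.InjOn ρ S) (hne : ∀ i ∈ S, ρ i ≠ 0) (Q : ι → k[X])
    (h : ∀ s : ℕ, ∑ i ∈ S, (Q i).eval (s : k) * ρ i ^ s = 0) : ∀ i ∈ S, Q i = 0 := by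
  classical
  have hind := (iSupIndep_iff_finsetSum_eq_zero_imp_eq_zero _).1
    (Module.End.independent_maxGenEigenspace (shift (k := k)))
  have h0 : ∀ i ∈ S, (fun s : ℕ => (Q i).eval (s : k) * ρ i ^ s) = 0 := by
    have h1 := hind (S.image ρ) (fun r => ∑ i ∈ S.filter (fun i => ρ i = r),
      fun s : ℕ => (Q i).eval (s : k) * ρ i ^ s) ?_ ?_
    · intro i hi
      have h2 := h1 (ρ i) (mem_image_of_mem ρ hi)
      have h3 : S.filter (fun j => ρ j = ρ i) = {i} := by
        ext j
        rw [mem_filter, mem_singleton]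
        constructor
        · rintro ⟨hj, hji⟩
          exact hρ hj hi hji
        · rintro rfl
          exact ⟨hi, rfl⟩
      rw [h3, sum_singleton] at h2
      exact h2
    · intro r _
      refine Submodule.sum_mem _ fun i hi => ?_
      rw [← (mem_filter.1 hi).2]
      exact poly_mem_gen (Q i) (ρ i)
    · rw [Finset.sum_fiberwise_of_maps_to (fun i hi => mem_image_of_mem ρ hi)]
      funext s
      rw [Finset.sum_apply]
      exact h s
  intro i hi
  have h1 : ∀ s : ℕ, (Q i).eval (s : k) = 0 := by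
    intro s
    have h2 := congrFun (h0 i hi) s
    exact (mul_eq_zero.1 h2).resolve_right (pow_ne_zero _ (hne i hi))
  refine Polynomial.eq_zero_of_infinite_isRoot _ (Set.Infinite.mono ?_
    (Set.infinite_range_of_injective (Nat.cast_injective (R := k))))
  rintro _ ⟨s, rfl⟩
  exact h1 s

/-- The group has no torsion. -/
def TorFree (M : Subgroup kˣ) : Prop := ∀ μ ∈ M, ∀ t : ℕ, 0 < t → μ ^ t = 1 → μ = 1

/-- An exponential polynomial is zero if it vanishes on the progression `N * m + c` and the group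
of the roots has no elements of order dividing `N`. -/
theorem eq_zero_aux [CharZero k] {N : ℕ} (hN : 0 < N) (hM : ∀ μ ∈ M, μ ^ N = 1 → μ = 1)
    {f : ℕ → k} (hf : f ∈ EP M) (c : ℕ) (h : ∀ m, f (N * m + c) = 0) : f = 0 := by
  classical
  obtain ⟨S, P, hS, hP⟩ := exists_poly hf
  have hN' : (N : k) ≠ 0 := Nat.cast_ne_zero.2 hN.ne'
  have hQ := poly_indep S (fun μ : kˣ => ((μ ^ N : kˣ) : k)) ?_ (fun μ _ => (μ ^ N : kˣ).ne_zero)
    (fun μ => C ((μ : k) ^ c) * (P μ).comp (C (N : k) * X + C (c : k))) ?_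
  · funext s
    rw [hP s]
    refine Finset.sum_eq_zero fun μ hμ => ?_
    have h1 := hQ μ hμ
    have h2 : (P μ).comp (C (N : k) * X + C (c : k)) = 0 := by
      rcases mul_eq_zero.1 h1 with h3 | h3
      · rw [C_eq_zero] at h3
        exact absurd h3 (pow_ne_zero _ μ.ne_zero)
      · exact h3
    have h3 : P μ = 0 := by
      have h4 := congrArg (fun Q => Q.comp (C (N : k)⁻¹ * X - C ((N : k)⁻¹ * (c : k)))) h2
      simp only [comp_assoc, zero_comp] at h4
      have h5 : (C (N : k) * X + C (c : k)).comp (C (N : k)⁻¹ * X - C ((N : k)⁻¹ * (c : k)))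
          = X := by
        rw [add_comp, mul_comp, C_comp, X_comp, C_comp, mul_sub, ← mul_assoc, ← C_mul, ← C_mul,
          ← mul_assoc, mul_inv_cancel₀ hN', C_1, one_mul, one_mul]
        ring
      rw [h5, comp_X] at h4
      exact h4
    rw [h3, eval_zero, zero_mul]
  · intro μ hμ ν hν hμν
    have h1 : μ ^ N = ν ^ N := Units.ext hμν
    have h2 : (μ * ν⁻¹) ^ N = 1 := by
      rw [mul_pow, inv_pow, h1, mul_inv_cancel]
    have h3 := hM (μ * ν⁻¹) (mul_mem (hS μ hμ) (inv_mem (hS ν hν))) h2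
    exact mul_inv_eq_one.1 h3
  · intro m
    rw [← h m, hP]
    refine Finset.sum_congr rfl fun μ _ => ?_
    rw [eval_mul, eval_C, eval_comp, eval_add, eval_mul, eval_C, eval_X, eval_C,
      Units.val_pow_eq_pow_val, Nat.cast_add, Nat.cast_mul, pow_add, pow_mul]
    ring

/-- An exponential polynomial with roots in a torsion free group is zero if it vanishes on a
progression. -/
theorem eq_zero_of_progression [CharZero k] (hM : TorFree M) {f : ℕ → k} (hf : f ∈ EP M)
    {N : ℕ} (hN : 0 < N) (c : ℕ) (h : ∀ m, f (N * m + c) = 0) : f = 0 :=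
  eq_zero_aux hN (fun μ hμ h1 => hM μ hμ N hN h1) hf c h

end Pool.Agent.Helper65.TNL

end

section

/-!
# Skolem's theorem for exponential polynomials with roots in a torsion free group
-/

set_option autoImplicit false

namespace Pool.Agent.Helper65.TNL

open Finset

/-- The zeros of an exponential polynomial: if there are infinitely many, they contain a
progression. -/
theorem exists_progression {K : Type*} [Field K] [CharZero K] {ι : Type} [Fintype ι]
    (c : ι → K) (a : ι → ℕ) (μ : ι → Kˣ)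
    (hinf : {s : ℕ | ∑ i, c i * ((s : K) ^ a i * (μ i : K) ^ s) = 0}.Infinite) :
    ∃ N : ℕ, 0 < N ∧ ∃ t : ℕ, ∀ m : ℕ,
      ∑ i, c i * (((N * m + t : ℕ) : K) ^ a i * (μ i : K) ^ (N * m + t)) = 0 := by
  classical
  -- the field generated by all the constants
  set T : Finset K := (univ.image c) ∪ (univ.image fun i => (μ i : K)) ∪
    (univ.image fun i => ((μ i)⁻¹ : Kˣ).val) with hT
  set K' : IntermediateField ℚ K := IntermediateField.adjoin ℚ (T : Set K) with hK'
  have hfg : (⊤ : IntermediateField ℚ K').FG := by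
    have h1 : K'.FG := ⟨T, rfl⟩
    exact (IntermediateField.fg_top_iff).2 (IntermediateField.essFiniteType_iff.2 h1)
  have hmem : ∀ x ∈ T, x ∈ K' := fun x hx => IntermediateField.subset_adjoin ℚ _ hx
  have hc : ∀ i, c i ∈ K' := fun i => hmem _ (by
    rw [hT]; exact mem_union_left _ (mem_union_left _ (mem_image_of_mem _ (mem_univ i))))
  have hμ : ∀ i, (μ i : K) ∈ K' := fun i => hmem _ (by
    rw [hT]
    exact mem_union_left _ (mem_union_right _ (mem_image_of_mem (fun i => (μ i : K)) (mem_univ i))))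
  set c' : ι → K' := fun i => ⟨c i, hc i⟩ with hc'
  set μ' : ι → K' := fun i => ⟨(μ i : K), hμ i⟩ with hμ'
  have hne : ∀ i, μ' i ≠ 0 := by
    intro i h
    exact (μ i).ne_zero (congrArg Subtype.val h)
  obtain ⟨p, -, hp, φ, hφ⟩ := Pool.Agent.Helper33.SS.exists_padic_int hfg
    ((univ.image μ') ∪ (univ.image fun i => (μ' i)⁻¹)) 0
  have := Fact.mk hp
  have h1 : ∀ i, ‖φ (μ' i)‖ ≤ 1 := fun i => hφ _ (mem_union_left _ (mem_image_of_mem μ' (mem_univ i)))
  have h2 : ∀ i, ‖φ (μ' i)⁻¹‖ ≤ 1 := fun i =>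
    hφ _ (mem_union_right _ (mem_image_of_mem (fun i => (μ' i)⁻¹) (mem_univ i)))
  set u : ι → ℤ_[p] := fun i => ⟨φ (μ' i), h1 i⟩ with hu
  set w : ι → ℤ_[p] := fun i => ⟨φ (μ' i)⁻¹, h2 i⟩ with hw
  have huw : ∀ i, u i * w i = 1 := by
    intro i
    apply PadicInt.ext
    rw [PadicInt.coe_mul, PadicInt.coe_one]
    show φ (μ' i) * φ (μ' i)⁻¹ = 1
    rw [← map_mul, mul_inv_cancel₀ (hne i), map_one]
  have hunit : ∀ i, IsUnit (u i) := fun i => IsUnit.of_mul_eq_one _ (huw i)
  -- the polynomial map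
  set F : Option ι → MvPolynomial (Option ι) ℤ_[p] := fun j => match j with
    | none => MvPolynomial.X none + 1
    | some i => MvPolynomial.C (u i) * MvPolynomial.X (some i) with hF
  set x : Option ι → ℤ_[p] := fun j => match j with
    | none => 0
    | some _ => 1 with hx
  have horb : ∀ n, (Pool.Agent.Helper37.step F)^[n] x = fun j => match j with
      | none => (n : ℤ_[p])
      | some i => u i ^ n := by
    intro n
    induction n with
    | zero =>
      funext j
      cases j with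
      | none => simp [hx]
      | some i => simp [hx]
    | succ n ih =>
      rw [Function.iterate_succ_apply', ih]
      funext j
      cases j with
      | none => simp [Pool.Agent.Helper37.step, hF]
      | some i => simp [Pool.Agent.Helper37.step, hF, pow_succ, mul_comm]
  have hjac : ∀ y, Pool.Agent.Helper37.jac F y = Matrix.diagonal (fun j => match j with
      | none => (1 : ℤ_[p])
      | some i => u i) := by
    intro y
    ext j l
    cases j with
    | none =>
      cases l with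
      | none => simp [Pool.Agent.Helper37.jac, hF, MvPolynomial.pderiv_X]
      | some i => simp [Pool.Agent.Helper37.jac, hF, MvPolynomial.pderiv_X]
    | some i =>
      cases l with
      | none => simp [Pool.Agent.Helper37.jac, hF, MvPolynomial.pderiv_X]
      | some i' =>
        by_cases hii : i' = i
        · subst hii
          simp [Pool.Agent.Helper37.jac, hF, MvPolynomial.pderiv_X]
        · have h3 : (some i : Option ι) ≠ some i' := fun h => hii (Option.some_inj.1 h).symm
          simp [Pool.Agent.Helper37.jac, hF, MvPolynomial.pderiv_X, h3, Matrix.diagonal_apply_ne]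
  obtain ⟨T', hT'⟩ := Pool.Agent.Helper37.returnSet_progressions (R := ℤ_[p]) p hp
    (by rw [IsLocalRing.mem_maximalIdeal]; exact PadicInt.p_nonunit)
    (L := ℚ_[p]) (FaithfulSMul.algebraMap_injective ℤ_[p] ℚ_[p]) F x
    (by
      intro n
      rw [hjac, Matrix.det_diagonal]
      rw [IsUnit.prod_univ_iff]
      intro j
      cases j with
      | none => exact isUnit_one
      | some i => exact hunit i)
    {∑ i, MvPolynomial.C (φ (c' i)) * (MvPolynomial.X none ^ a i * MvPolynomial.X (some i))}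
  have hset : {s : ℕ | ∑ i, c i * ((s : K) ^ a i * (μ i : K) ^ s) = 0}
      = {n : ℕ | ∃ p ∈ T', ∃ m : ℕ, n = p.1 * m + p.2} := by
    rw [← hT']
    ext s
    simp only [Set.mem_ofPred_eq, Set.mem_singleton_iff, forall_eq]
    have e1 : (MvPolynomial.eval fun i => algebraMap ℤ_[p] ℚ_[p]
          ((Pool.Agent.Helper37.step F)^[s] x i))
          (∑ i, MvPolynomial.C (φ (c' i)) * (MvPolynomial.X none ^ a i * MvPolynomial.X (some i)))
        = φ (∑ i, c' i * ((s : K') ^ a i * μ' i ^ s)) := by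
      rw [horb, map_sum, map_sum]
      refine Finset.sum_congr rfl fun i _ => ?_
      simp only [map_mul, map_pow, MvPolynomial.eval_C, MvPolynomial.eval_X, map_natCast]
      rfl
    rw [e1, map_eq_zero]
    have e2 : ((∑ i, c' i * ((s : K') ^ a i * μ' i ^ s) : K') : K)
        = ∑ i, c i * ((s : K) ^ a i * (μ i : K) ^ s) := by
      push_cast
      rfl
    rw [← e2]
    exact ZeroMemClass.coe_eq_zero
  rw [hset] at hinf
  -- an infinite progression
  have h3 : ∃ q ∈ T', 0 < q.1 := by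
    by_contra hcon
    push Not at hcon
    apply hinf
    refine Set.Finite.subset (T'.image Prod.snd).finite_toSet ?_
    rintro n ⟨q, hq, m, rfl⟩
    have h4 : q.1 = 0 := Nat.le_zero.1 (hcon q hq)
    rw [h4, zero_mul, zero_add]
    exact mem_coe.2 (mem_image_of_mem _ hq)
  obtain ⟨q, hq, hq0⟩ := h3
  refine ⟨q.1, hq0, q.2, fun m => ?_⟩
  have h4 : q.1 * m + q.2 ∈ {s : ℕ | ∑ i, c i * ((s : K) ^ a i * (μ i : K) ^ s) = 0} := by
    rw [hset]
    exact ⟨q, hq, m, rfl⟩
  exact h4

/-- **Skolem's theorem.** An exponential polynomial with roots in a torsion free group and with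
infinitely many zeros is zero. -/
theorem skolem {k : Type*} [Field k] [CharZero k] {M : Subgroup kˣ} (hM : TorFree M)
    {f : ℕ → k} (hf : f ∈ EP M) (hinf : {s : ℕ | f s = 0}.Infinite) : f = 0 := by
  classical
  -- write `f` as a finite sum of monomials
  have h1 : ∃ (n : ℕ) (c : Fin n → k) (a : Fin n → ℕ) (μ : Fin n → kˣ),
      ∀ s : ℕ, f s = ∑ i, c i * ((s : k) ^ a i * (μ i : k) ^ s) := by
    clear hinf
    induction hf using Submodule.span_induction with
    | mem x hx =>
      obtain ⟨a, μ, hμ, rfl⟩ := hx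
      exact ⟨1, fun _ => 1, fun _ => a, fun _ => μ, fun s => by simp [mono]⟩
    | zero => exact ⟨0, fun _ => 0, fun _ => 0, fun _ => 1, fun s => by simp⟩
    | add y z _ _ hy hz =>
      obtain ⟨n, c, a, μ, h⟩ := hy
      obtain ⟨n', c', a', μ', h'⟩ := hz
      refine ⟨n + n', Fin.append c c', Fin.append a a', Fin.append μ μ', fun s => ?_⟩
      rw [Pi.add_apply, h, h', Fin.sum_univ_add]
      simp
    | smul b y _ hy =>
      obtain ⟨n, c, a, μ, h⟩ := hy
      refine ⟨n, fun i => b * c i, a, μ, fun s => ?_⟩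
      rw [Pi.smul_apply, h, smul_eq_mul, Finset.mul_sum]
      exact Finset.sum_congr rfl fun i _ => by ring
  obtain ⟨n, c, a, μ, h⟩ := h1
  obtain ⟨N, hN, t, hNt⟩ := exists_progression c a μ (by
    refine hinf.mono fun s hs => ?_
    rw [Set.mem_ofPred_eq, ← h s]
    exact hs)
  refine eq_zero_of_progression hM hf hN t fun m => ?_
  rw [h]
  exact hNt m

end Pool.Agent.Helper65.TNL

end
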