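import Mathlib
import Pool.Agent.Helper29.MG2.T01
import Pool.Agent.Helper29.MG2.T39
import Pool.Agent.Helper29.MG2.T40

section

namespace Pool.Agent.Helper33.SS
end Pool.Agent.Helper33.SS

/-!
# Unit balls of finite extensions of the `p`-adic numbers
-/

set_option autoImplicit false

namespace Pool.Agent.Helper88.TL

open Pool.Agent.Helper33.SS MvPolynomial Filter Topology

/-- `R` behaves like the unit ball of a finite extension of `ℚ_[p]`, embedded in `ℂ_[p]` by `ι`. -/
structure Loc (p : ℕ) [Fact p.Prime] (R : Type) [NormedCommRing R] (ι : R →+* ℂ_[p]) : Prop where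
  norm_map : ∀ x, ‖ι x‖ = ‖x‖
  le_one : ∀ x : R, ‖x‖ ≤ 1
  dvd : ∀ x : R, ‖x‖ ≤ (p : ℝ)⁻¹ → (p : R) ∣ x
  unit : ∀ x : R, ‖x‖ = 1 → IsUnit x
  fin : Finite (R ⧸ Ideal.span {(p : R)})
  complete : CompleteSpace R
  integral : ∀ x : R, (io p).IsIntegralElem (ι x)

section
variable {p : ℕ} [Fact p.Prime] {R : Type} [NormedCommRing R] {ι : R →+* ℂ_[p]}

theorem norm_p_Cp' (p : ℕ) [Fact p.Prime] : ‖(p : ℂ_[p])‖ = (p : ℝ)⁻¹ := by
  calc ‖(p : ℂ_[p])‖ = ‖algebraMap ℚ_[p] ℂ_[p] (p : ℚ_[p])‖ := by rw [map_natCast]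
    _ = ‖(p : ℚ_[p])‖ := norm_algebraMap' _ _
    _ = (p : ℝ)⁻¹ := Padic.norm_p

theorem Loc.norm_mul (h : Loc p R ι) (x y : R) : ‖x * y‖ = ‖x‖ * ‖y‖ := by
  rw [← h.norm_map, ← h.norm_map x, ← h.norm_map y, map_mul, _root_.norm_mul]

theorem Loc.norm_one (h : Loc p R ι) : ‖(1 : R)‖ = 1 := by
  rw [← h.norm_map, map_one, NormOneClass.norm_one]

theorem Loc.norm_pow (h : Loc p R ι) (x : R) (n : ℕ) : ‖x ^ n‖ = ‖x‖ ^ n := by
  rw [← h.norm_map, ← h.norm_map x, map_pow, _root_.norm_pow]

theorem Loc.norm_p (h : Loc p R ι) : ‖(p : R)‖ = (p : ℝ)⁻¹ := by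
  rw [← h.norm_map, map_natCast, norm_p_Cp']

theorem Loc.injective (h : Loc p R ι) : Function.Injective ι := by
  intro a b hab
  have h1 : ‖a - b‖ = 0 := by rw [← h.norm_map, map_sub, hab, sub_self, norm_zero]
  exact sub_eq_zero.1 (norm_eq_zero.1 h1)

theorem Loc.add_le (h : Loc p R ι) (x y : R) : ‖x + y‖ ≤ max ‖x‖ ‖y‖ := by
  rw [← h.norm_map, ← h.norm_map x, ← h.norm_map y, map_add]
  exact IsUltrametricDist.norm_add_le_max _ _

theorem Loc.add_le_of (h : Loc p R ι) {x y : R} {r : ℝ} (hx : ‖x‖ ≤ r) (hy : ‖y‖ ≤ r) :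
    ‖x + y‖ ≤ r := (h.add_le x y).trans (max_le hx hy)

theorem Loc.add_eq_max (h : Loc p R ι) {x y : R} (hxy : ‖x‖ ≠ ‖y‖) : ‖x + y‖ = max ‖x‖ ‖y‖ := by
  rw [← h.norm_map, ← h.norm_map x, ← h.norm_map y, map_add]
  rw [← h.norm_map x, ← h.norm_map y] at hxy
  exact IsUltrametricDist.norm_add_eq_max_of_norm_ne_norm hxy

theorem Loc.norm_eval_sub_le (h : Loc p R ι) {σ : Type} (g : MvPolynomial σ R) {x y : σ → R}
    {r : ℝ} (hr : 0 ≤ r) (hxy : ∀ i, ‖x i - y i‖ ≤ r) : ‖eval x g - eval y g‖ ≤ r := by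
  induction g using MvPolynomial.induction_on with
  | C c => simpa using hr
  | add P Q hP hQ =>
    rw [map_add, map_add, add_sub_add_comm]
    exact h.add_le_of hP hQ
  | mul_X P i hP =>
    rw [map_mul, map_mul, eval_X, eval_X]
    have h1 : eval x P * x i - eval y P * y i
        = (eval x P - eval y P) * x i + eval y P * (x i - y i) := by ring
    rw [h1]
    refine h.add_le_of ?_ ?_
    · rw [h.norm_mul]
      calc ‖eval x P - eval y P‖ * ‖x i‖ ≤ r * 1 :=
            mul_le_mul hP (h.le_one _) (norm_nonneg _) hr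
        _ = r := mul_one r
    · rw [h.norm_mul]
      calc ‖eval y P‖ * ‖x i - y i‖ ≤ 1 * r :=
            mul_le_mul (h.le_one _) (hxy i) (norm_nonneg _) zero_le_one
        _ = r := one_mul r

theorem pinv_pos (p : ℕ) [Fact p.Prime] : (0 : ℝ) < (p : ℝ)⁻¹ :=
  inv_pos.2 (by exact_mod_cast (Fact.out : p.Prime).pos)

theorem pinv_lt (p : ℕ) [Fact p.Prime] : (p : ℝ)⁻¹ < 1 :=
  inv_lt_one_of_one_lt₀ (by exact_mod_cast (Fact.out : p.Prime).one_lt)

theorem Loc.ev_iterate_congr (h : Loc p R ι) {σ : Type} (F : σ → MvPolynomial σ R) {x y : σ → R}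
    {r : ℝ} (hr : 0 ≤ r) (hxy : ∀ i, ‖x i - y i‖ ≤ r) (n : ℕ) :
    ∀ i, ‖(ev F)^[n] x i - (ev F)^[n] y i‖ ≤ r := by
  induction n with
  | zero => exact hxy
  | succ n ih =>
    intro i
    rw [Function.iterate_succ_apply', Function.iterate_succ_apply']
    exact h.norm_eval_sub_le (F i) hr ih

theorem Loc.norm_eq_one_of_congr (h : Loc p R ι) {a b : R} (hab : ‖a - b‖ ≤ (p : ℝ)⁻¹)
    (hb : ‖b‖ = 1) : ‖a‖ = 1 := by
  have h1 : a = (a - b) + b := by ring
  have h2 : ‖a - b‖ < 1 := hab.trans_lt (pinv_lt p)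
  rw [h1, h.add_eq_max (by rw [hb]; exact h2.ne), hb]
  exact max_eq_right h2.le

theorem Loc.congr_trans (h : Loc p R ι) {a b c : R} {r : ℝ} (h1 : ‖a - b‖ ≤ r)
    (h2 : ‖b - c‖ ≤ r) : ‖a - c‖ ≤ r := by
  have h3 : a - c = (a - b) + (b - c) := by ring
  rw [h3]
  exact h.add_le_of h1 h2

theorem congr_symm' {a b : R} {r : ℝ} (h : ‖a - b‖ ≤ r) : ‖b - a‖ ≤ r := by
  rwa [norm_sub_rev]

/-- two terms of a sequence of vectors agree modulo `p` -/
theorem Loc.exists_mod_period (h : Loc p R ι) {σ : Type} [Finite σ] (y : ℕ → σ → R) :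
    ∃ n₀ k : ℕ, 1 ≤ k ∧ ∀ i, ‖y (n₀ + k) i - y n₀ i‖ ≤ (p : ℝ)⁻¹ := by
  classical
  have : Fintype σ := Fintype.ofFinite σ
  have := h.fin
  let r : ℕ → σ → R ⧸ Ideal.span {(p : R)} := fun n i => Ideal.Quotient.mk _ (y n i)
  obtain ⟨a, b, hab, hr⟩ := Finite.exists_ne_map_eq_of_infinite r
  have key : ∀ a b : ℕ, a < b → r a = r b → ∃ n₀ k : ℕ, 1 ≤ k ∧
      ∀ i, ‖y (n₀ + k) i - y n₀ i‖ ≤ (p : ℝ)⁻¹ := by
    intro a b hab hr
    refine ⟨a, b - a, by omega, fun i => ?_⟩
    rw [show a + (b - a) = b by omega]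
    have h1 : y b i - y a i ∈ Ideal.span {(p : R)} := by
      rw [← Ideal.Quotient.eq]
      exact (congrFun hr i).symm
    obtain ⟨c, hc⟩ := Ideal.mem_span_singleton'.1 h1
    rw [← hc, h.norm_mul, h.norm_p]
    have := h.le_one c
    have h0 := pinv_pos p
    nlinarith
  rcases lt_or_gt_of_ne hab with h1 | h1
  · exact key a b h1 hr
  · exact key b a h1 hr.symm

theorem Loc.eval_map (_h : Loc p R ι) {σ : Type} (x : σ → R) (g : MvPolynomial σ R) :
    eval (fun i => ι (x i)) (MvPolynomial.map ι g) = ι (eval x g) := by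
  rw [MvPolynomial.eval_map]
  exact (MvPolynomial.eval₂_comp ι x g).symm

theorem Loc.inZ_map (h : Loc p R ι) {σ : Type} (V : Set (MvPolynomial σ R)) (x : σ → R) :
    InZ (MvPolynomial.map ι '' V) (fun i => ι (x i)) ↔ InZ V x := by
  constructor
  · intro h1 g hg
    have := h1 _ ⟨g, hg, rfl⟩
    rw [h.eval_map] at this
    exact (map_eq_zero_iff _ h.injective).1 this
  · rintro h1 _ ⟨g, hg, rfl⟩
    rw [h.eval_map, h1 g hg, map_zero]

end

/-- base change to `ℂ_[p]` -/
noncomputable def cq {p : ℕ} [Fact p.Prime] {R : Type} [CommRing R] (ι : R →+* ℂ_[p])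
    {σ τ : Type} (F : τ → MvPolynomial σ R) : τ → MvPolynomial σ ℂ_[p] :=
  fun j => MvPolynomial.map ι (F j)

end Pool.Agent.Helper88.TL

end

section

namespace Pool.Agent.Helper33.SS
end Pool.Agent.Helper33.SS
namespace Pool.Agent.Helper85.Sub
end Pool.Agent.Helper85.Sub

/-!
# The unit ball of a finite extension of the `p`-adic numbers
-/

set_option autoImplicit false

namespace Pool.Agent.Helper88.TL

open Pool.Agent.Helper33.SS Pool.Agent.Helper85.Sub Polynomial Filter Topology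

section
variable (K : Type) [Field K] [NumberField K] (p : ℕ) [Fact p.Prime]

theorem ff_add_le (x y : FF K p) : ‖x + y‖ ≤ max ‖x‖ ‖y‖ :=
  PadicAlgCl.isNonarchimedean p (x : PadicAlgCl p) (y : PadicAlgCl p)

/-- The unit ball of the local field. -/
def Ob : Subring (FF K p) where
  carrier := {x | ‖x‖ ≤ 1}
  mul_mem' := by
    intro a b ha hb
    rw [Set.mem_setOf_eq] at ha hb ⊢
    rw [norm_mul]
    exact mul_le_one₀ ha (norm_nonneg _) hb
  one_mem' := by
    rw [Set.mem_setOf_eq, norm_one]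
  add_mem' := by
    intro a b ha hb
    exact (ff_add_le K p a b).trans (max_le ha hb)
  zero_mem' := by
    rw [Set.mem_setOf_eq, norm_zero]
    exact zero_le_one
  neg_mem' := by
    intro a ha
    rw [Set.mem_setOf_eq] at ha ⊢
    rwa [norm_neg]

/-- The inclusion of the unit ball in the complex `p`-adic numbers. -/
noncomputable def ob : Ob K p →+* ℂ_[p] :=
  ((algebraMap (PadicAlgCl p) ℂ_[p]).comp
    ((FF K p).val : FF K p →+* PadicAlgCl p)).comp (Ob K p).subtype

theorem mem_Ob {x : FF K p} : x ∈ Ob K p ↔ ‖x‖ ≤ 1 := Iff.rfl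

theorem norm_ob (x : Ob K p) : ‖ob K p x‖ = ‖x‖ :=
  PadicComplex.norm_extends p _

theorem norm_p_ff : ‖(p : FF K p)‖ = (p : ℝ)⁻¹ := by
  have h1 : ‖(p : FF K p)‖ = ‖((p : FF K p) : PadicAlgCl p)‖ := rfl
  have h2 : (((p : FF K p) : PadicAlgCl p) : ℂ_[p]) = (p : ℂ_[p]) := by
    rw [← PadicComplex.coe_natCast]
    congr 1
  rw [h1, ← PadicComplex.norm_extends, h2, norm_p_Cp']

theorem ob_integral (x : Ob K p) : (io p).IsIntegralElem (ob K p x) := by
  have hfin : FiniteDimensional ℚ_[p] (FF K p) := ff_finite K p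
  have hint : IsIntegral ℚ_[p] (x : FF K p) := Algebra.IsIntegral.isIntegral _
  have h1 : spectralValue (minpoly ℚ_[p] (x : FF K p)) ≤ 1 := by
    have h2 : ‖(x : FF K p)‖ = spectralValue (minpoly ℚ_[p] (x : FF K p)) := ff_spectral _
    rw [← h2]
    exact x.2
  rw [spectralValue_le_one_iff (minpoly.monic hint)] at h1
  set q := minpoly ℚ_[p] (x : FF K p) with hq
  have h3 : q ∈ Polynomial.lifts (PadicInt.Coe.ringHom (p := p)) := by
    rw [Polynomial.lifts_iff_coeff_lifts]
    intro n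
    exact ⟨⟨q.coeff n, h1 n⟩, rfl⟩
  obtain ⟨Q, hQ, -, hQm⟩ := Polynomial.lifts_and_degree_eq_and_monic h3 (minpoly.monic hint)
  refine ⟨Q, hQm, ?_⟩
  have h4 : Polynomial.eval₂ (algebraMap ℚ_[p] (FF K p)) (x : FF K p) q = 0 := by
    rw [← Polynomial.aeval_def]
    exact minpoly.aeval _ _
  rw [← hQ, Polynomial.eval₂_map] at h4
  have h5 := congrArg ((algebraMap (PadicAlgCl p) ℂ_[p]).comp
    ((FF K p).val : FF K p →+* PadicAlgCl p)) h4
  rw [map_zero, Polynomial.hom_eval₂] at h5
  exact h5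

theorem ob_fin : Finite (Ob K p ⧸ Ideal.span {(p : Ob K p)}) := by
  have hfin : FiniteDimensional ℚ_[p] (FF K p) := ff_finite K p
  have hprop : ProperSpace (FF K p) := FiniteDimensional.proper ℚ_[p] (FF K p)
  have hp0 := pinv_pos p
  have hcpt : IsCompact (Metric.closedBall (0 : FF K p) 1) := isCompact_closedBall _ _
  obtain ⟨t, ht, hcov⟩ := (Metric.totallyBounded_iff.1 hcpt.totallyBounded) _ hp0
  classical
  have key : ∀ x : Ob K p, ∃ y : t, dist (x : FF K p) y < (p : ℝ)⁻¹ := by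
    intro x
    have hx : (x : FF K p) ∈ Metric.closedBall (0 : FF K p) 1 := by
      rw [mem_closedBall_zero_iff]
      exact x.2
    obtain ⟨y, hy, hxy⟩ := Set.mem_iUnion₂.1 (hcov hx)
    exact ⟨⟨y, hy⟩, hxy⟩
  choose f hf using key
  have := ht.to_subtype
  -- two elements with the same centre are congruent
  have hcong : ∀ x y : Ob K p, f x = f y → Ideal.Quotient.mk (Ideal.span {(p : Ob K p)}) x
      = Ideal.Quotient.mk _ y := by
    intro x y hxy
    rw [Ideal.Quotient.eq, Ideal.mem_span_singleton']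
    have h1 := hf x
    have h2 := hf y
    rw [hxy] at h1
    have h3 : ‖(x : FF K p) - y‖ ≤ (p : ℝ)⁻¹ := by
      have h4 : (x : FF K p) - y = (x - f y) + (f y - y) := by ring
      rw [h4]
      refine (ff_add_le K p _ _).trans (max_le ?_ ?_)
      · rw [← dist_eq_norm]
        exact h1.le
      · rw [← dist_eq_norm, dist_comm]
        exact h2.le
    have hpne : (p : FF K p) ≠ 0 := by
      intro h
      have := norm_p_ff K p
      rw [h, norm_zero] at this
      exact hp0.ne this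
    refine ⟨⟨((x : FF K p) - y) / p, ?_⟩, ?_⟩
    · rw [mem_Ob, norm_div, norm_p_ff]
      exact div_le_one_of_le₀ h3 hp0.le
    · apply Subtype.ext
      push_cast
      exact div_mul_cancel₀ _ hpne
  -- the quotient is the image of a finite set
  refine Finite.of_surjective (α := Set.range f)
    (fun c => Ideal.Quotient.mk (Ideal.span {(p : Ob K p)}) (Classical.choose c.2)) ?_
  intro q
  obtain ⟨x, rfl⟩ := Ideal.Quotient.mk_surjective q
  exact ⟨⟨f x, x, rfl⟩, hcong _ _ (Classical.choose_spec (⟨x, rfl⟩ : f x ∈ Set.range f))⟩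

theorem ob_complete : CompleteSpace (Ob K p) := by
  have hfin : FiniteDimensional ℚ_[p] (FF K p) := ff_finite K p
  have hc : CompleteSpace (FF K p) := FiniteDimensional.complete ℚ_[p] (FF K p)
  have : IsClosed ((Ob K p : Subring (FF K p)) : Set (FF K p)) := by
    have h1 : ((Ob K p : Subring (FF K p)) : Set (FF K p)) = {x | ‖x‖ ≤ 1} := rfl
    rw [h1]
    exact isClosed_le continuous_norm continuous_const
  exact this.completeSpace_coe

theorem ob_loc : Loc p (Ob K p) (ob K p) where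
  norm_map := norm_ob K p
  le_one x := x.2
  dvd x hx := by
    have hp0 := pinv_pos p
    have hpne : (p : FF K p) ≠ 0 := by
      intro h
      have := norm_p_ff K p
      rw [h, norm_zero] at this
      exact hp0.ne this
    refine ⟨⟨(x : FF K p) / p, ?_⟩, ?_⟩
    · rw [mem_Ob, norm_div, norm_p_ff]
      exact div_le_one_of_le₀ hx hp0.le
    · apply Subtype.ext
      push_cast
      exact (mul_div_cancel₀ _ hpne).symm
  unit x hx := by
    have hx1 : ‖(x : FF K p)‖ = 1 := hx
    have hx0 : (x : FF K p) ≠ 0 := by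
      intro h
      rw [h, norm_zero] at hx1
      exact zero_ne_one hx1
    refine IsUnit.of_mul_eq_one (⟨(x : FF K p)⁻¹, ?_⟩ : Ob K p) ?_
    · rw [mem_Ob, norm_inv, hx1, inv_one]
    · apply Subtype.ext
      push_cast
      exact mul_inv_cancel₀ hx0
  fin := ob_fin K p
  complete := ob_complete K p
  integral := ob_integral K p

end

end Pool.Agent.Helper88.TL

end

section

namespace Pool.Agent.Helper33.SS
end Pool.Agent.Helper33.SS
namespace Pool.Agent.Helper85.Sub
end Pool.Agent.Helper85.Sub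

/-!
# The local field of a number field at a finite place
-/

set_option autoImplicit false

namespace Pool.Agent.Helper88.TL

open Pool.Agent.Helper33.SS Pool.Agent.Helper85.Sub NumberField Height AdmissibleAbsValues
  IsDedekindDomain Cardinal

/-- The data of a place: an embedding in `ℂ_[p]` with values in the unit ball of a finite
extension of `ℚ_[p]` on the integral elements. -/
structure PlaceData (K : Type) [Field K] [Algebra K ℂ] (v : AbsoluteValue K ℝ) (p : ℕ)
    [Fact p.Prime] (R : Type) [NormedCommRing R] (ι : R →+* ℂ_[p]) (j : K →+* ℂ_[p]) (n : ℕ)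
    (s : ℂ ≃+* ℂ_[p]) : Prop where
  hR : Loc p R ι
  hn : n ≠ 0
  hvj : ∀ z, v z = ‖j z‖ ^ n
  hint : ∀ z, v z ≤ 1 → ∃ r : R, ι r = j z
  hs : ∀ z, s (algebraMap K ℂ z) = j z

theorem exists_place {K : Type} [Field K] [NumberField K] [Algebra K ℂ] {v : AbsoluteValue K ℝ}
    (hv : v ∈ nonarchAbsVal (K := K)) (h2 : v 2 = 1) :
    ∃ (p : ℕ) (_ : Fact p.Prime) (R : Type) (_ : NormedCommRing R) (ι : R →+* ℂ_[p])
      (j : K →+* ℂ_[p]) (n : ℕ) (s : ℂ ≃+* ℂ_[p]), 3 ≤ p ∧ PlaceData K v p R ι j n s := by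
  have hv' : IsFinitePlace v := hv
  set w : FinitePlace K := ⟨v, hv'⟩ with hw
  set P := w.maximalIdeal with hPdef
  have hwP : FinitePlace.mk P = w := FinitePlace.mk_maximalIdeal w
  obtain ⟨p, hp, hpP⟩ := exists_prime_mem P
  have hpf : Fact p.Prime := ⟨hp⟩
  obtain ⟨n, hn0, ⟨σ₀, hσ₀⟩, -, hall⟩ := card_fiber (p := p) P hpP
  have hvσ : ∀ x : K, v x = ‖σ₀ x‖ ^ n := by
    intro x
    have h1 := hall σ₀ hσ₀ x
    rw [hwP] at h1
    exact h1
  set j : K →+* ℂ_[p] := (algebraMap (PadicAlgCl p) ℂ_[p]).comp σ₀ with hj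
  have hjn : ∀ x, ‖j x‖ = ‖σ₀ x‖ := fun x => PadicComplex.norm_extends p (σ₀ x)
  let _ : Algebra K ℂ_[p] := j.toAlgebra
  have hK : #K ≤ ℵ₀ := by
    have : Countable K := by
      have e := (Module.finBasis ℚ K).equivFun
      exact e.toEquiv.countable_iff.2 inferInstance
    exact mk_le_aleph0
  have h1 : #ℂ = #ℂ_[p] := by rw [card_Cp, Cardinal.mk_complex]
  have h3 : ℵ₀ < #ℂ := by rw [Cardinal.mk_complex]; exact Cardinal.aleph0_lt_continuum
  obtain ⟨s, hs⟩ := exists_algEquiv (K := K) (C := ℂ) (D := ℂ_[p]) hK h3 h1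
  refine ⟨p, hpf, Ob K p, inferInstance, ob K p, j, n, s, ?_, ?_⟩
  · -- the residue characteristic is not two
    have hp2 : p ≠ 2 := by
      intro hp2
      have h4 := hvσ 2
      rw [h2, map_ofNat] at h4
      have h5 : ‖(2 : PadicAlgCl p)‖ = (2 : ℝ)⁻¹ := by
        have h6 := norm_p_ff K p
        have h7 : ‖(p : FF K p)‖ = ‖((p : FF K p) : PadicAlgCl p)‖ := rfl
        rw [h7] at h6
        have h8 : ((p : FF K p) : PadicAlgCl p) = ((p : ℕ) : PadicAlgCl p) := rfl
        have h10 : ((p : ℕ) : PadicAlgCl p) = ((2 : ℕ) : PadicAlgCl p) :=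
          congrArg (Nat.cast : ℕ → PadicAlgCl p) hp2
        rw [h8, h10, Nat.cast_ofNat] at h6
        have h11 : ((p : ℕ) : ℝ) = 2 := by exact_mod_cast hp2
        rw [h6, h11]
      rw [h5] at h4
      have h9 : ((2 : ℝ)⁻¹) ^ n < 1 := pow_lt_one₀ (by norm_num) (by norm_num) hn0
      exact h9.ne h4.symm
    have := hp.two_le
    omega
  · refine ⟨ob_loc K p, hn0, fun z => by rw [hjn]; exact hvσ z, fun z hz => ?_, fun z => hs z⟩
    have h4 : ‖σ₀ z‖ ≤ 1 := by
      rw [hvσ] at hz
      by_contra hcon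
      rw [not_le] at hcon
      exact absurd hz (not_le.2 (one_lt_pow₀ hcon hn0))
    exact ⟨⟨lift σ₀ z, h4⟩, rfl⟩

end Pool.Agent.Helper88.TL

end

section

namespace Pool.Agent.Helper85.Sub
end Pool.Agent.Helper85.Sub

/-!
# Extension of the absolute values of a number field to its algebraic closure
-/

set_option autoImplicit false

namespace Pool.Agent.Helper88.ZN

open NumberField Height AdmissibleAbsValues IsDedekindDomain Pool.Agent.Helper85.Sub
  Pool.Agent.Helper33.SS Pool.Agent.Helper29.TG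

/-- An absolute value of a field, given by an embedding in a normed field and an exponent. -/
noncomputable def powAbs {E Ω : Type} [Field E] [NormedField Ω] (τ : E →+* Ω) (n : ℕ) (hn : n ≠ 0)
    (hΩ : ∀ x y : Ω, ‖x + y‖ ≤ max ‖x‖ ‖y‖) : AbsoluteValue E ℝ where
  toFun z := ‖τ z‖ ^ n
  map_mul' x y := by rw [map_mul, norm_mul, mul_pow]
  nonneg' x := by positivity
  eq_zero' x := by
    constructor
    · intro h
      have h1 := (pow_eq_zero_iff hn).1 h
      rw [norm_eq_zero] at h1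
      exact (map_eq_zero τ).1 h1
    · intro h
      rw [h, map_zero, norm_zero, zero_pow hn]
  add_le' x y := by
    rw [map_add]
    have h1 : ‖τ x + τ y‖ ^ n ≤ (max ‖τ x‖ ‖τ y‖) ^ n :=
      pow_le_pow_left₀ (norm_nonneg _) (hΩ _ _) n
    refine h1.trans ?_
    rcases le_total ‖τ x‖ ‖τ y‖ with h | h
    · rw [max_eq_right h]
      exact le_add_of_nonneg_left (by positivity)
    · rw [max_eq_left h]
      exact le_add_of_nonneg_right (by positivity)

theorem powAbs_na {E Ω : Type} [Field E] [NormedField Ω] (τ : E →+* Ω) (n : ℕ) (hn : n ≠ 0)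
    (hΩ : ∀ x y : Ω, ‖x + y‖ ≤ max ‖x‖ ‖y‖) : IsNonarchimedean (powAbs τ n hn hΩ) := by
  intro x y
  change ‖τ (x + y)‖ ^ n ≤ max (‖τ x‖ ^ n) (‖τ y‖ ^ n)
  rw [map_add]
  refine (pow_le_pow_left₀ (norm_nonneg _) (hΩ _ _) n).trans ?_
  rcases le_total ‖τ x‖ ‖τ y‖ with h | h
  · rw [max_eq_right h]
    exact le_max_right _ _
  · rw [max_eq_left h]
    exact le_max_left _ _

variable {K : Type} [Field K] [NumberField K]

/-- A choice of extensions of the absolute values to the algebraic closure. -/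
structure Ext (K : Type) [Field K] [AdmissibleAbsValues K] where
  /-- the extension -/
  W : AbsoluteValue K ℝ → AbsoluteValue (AlgebraicClosure K) ℝ
  ext : ∀ v, Mem v → ∀ a : K, W v (algebraMap K (AlgebraicClosure K) a) = v a
  na : ∀ v ∈ nonarchAbsVal (K := K), IsNonarchimedean (W v)

end Pool.Agent.Helper88.ZN

end

section

namespace Pool.Agent.Helper29.TG
end Pool.Agent.Helper29.TG

/-!
# Norms of polynomials
-/

set_option autoImplicit false

namespace Pool.Agent.Helper88.ZN

open Height AdmissibleAbsValues Pool.Agent.Helper29.TG MvPolynomial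

section Norm

variable {L : Type} [Field L] {ι : Type}

/-- The sum norm. -/
noncomputable def n1 (w : AbsoluteValue L ℝ) (g : MvPolynomial ι L) : ℝ :=
  ∑ m ∈ g.support, w (g.coeff m)

/-- The maximum norm. -/
noncomputable def nx (w : AbsoluteValue L ℝ) (g : MvPolynomial ι L) : ℝ :=
  ⨆ m : g.support, w (g.coeff m)

theorem n1_nonneg (w : AbsoluteValue L ℝ) (g : MvPolynomial ι L) : 0 ≤ n1 w g :=
  Finset.sum_nonneg fun _ _ => w.nonneg _

theorem nx_nonneg (w : AbsoluteValue L ℝ) (g : MvPolynomial ι L) : 0 ≤ nx w g :=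
  Real.iSup_nonneg fun _ => w.nonneg _

theorem n1_eq_sum (w : AbsoluteValue L ℝ) (g : MvPolynomial ι L) {s : Finset (ι →₀ ℕ)}
    (hs : g.support ⊆ s) : n1 w g = ∑ m ∈ s, w (g.coeff m) := by
  refine Finset.sum_subset hs fun m _ hm => ?_
  rw [notMem_support_iff.1 hm, map_zero]

theorem coeff_le_nx (w : AbsoluteValue L ℝ) (g : MvPolynomial ι L) (m : ι →₀ ℕ) :
    w (g.coeff m) ≤ nx w g := by
  by_cases hm : m ∈ g.support
  · exact le_ciSup (f := fun m : g.support => w (g.coeff m)) (Set.finite_range _).bddAbove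
      (⟨m, hm⟩ : g.support)
  · rw [notMem_support_iff.1 hm, map_zero]
    exact nx_nonneg w g

theorem nx_le {w : AbsoluteValue L ℝ} {g : MvPolynomial ι L} {c : ℝ} (hc : 0 ≤ c)
    (h : ∀ m, w (g.coeff m) ≤ c) : nx w g ≤ c :=
  Real.iSup_le (fun m => h m) hc

theorem n1_add (w : AbsoluteValue L ℝ) (f g : MvPolynomial ι L) :
    n1 w (f + g) ≤ n1 w f + n1 w g := by
  classical
  rw [n1_eq_sum w (f + g) (s := f.support ∪ g.support) support_add,
    n1_eq_sum w f (s := f.support ∪ g.support) Finset.subset_union_left,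
    n1_eq_sum w g (s := f.support ∪ g.support) Finset.subset_union_right,
    ← Finset.sum_add_distrib]
  refine Finset.sum_le_sum fun m _ => ?_
  rw [coeff_add]
  exact w.add_le _ _

theorem n1_sum (w : AbsoluteValue L ℝ) {α : Type*} (s : Finset α) (f : α → MvPolynomial ι L) :
    n1 w (∑ a ∈ s, f a) ≤ ∑ a ∈ s, n1 w (f a) := by
  classical
  induction s using Finset.induction_on with
  | empty => simp [n1]
  | insert a s ha ih =>
    rw [Finset.sum_insert ha, Finset.sum_insert ha]
    exact (n1_add w _ _).trans (add_le_add le_rfl ih)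

theorem n1_monomial (w : AbsoluteValue L ℝ) (m : ι →₀ ℕ) (c : L) :
    n1 w (monomial m c) = w c := by
  classical
  rw [n1_eq_sum w _ (s := {m}) support_monomial_subset, Finset.sum_singleton, coeff_monomial,
    if_pos rfl]

theorem n1_monomial_mul (w : AbsoluteValue L ℝ) (m : ι →₀ ℕ) (c : L) (g : MvPolynomial ι L) :
    n1 w (monomial m c * g) ≤ w c * n1 w g := by
  classical
  have h1 : monomial m c * g = ∑ m' ∈ g.support, monomial (m + m') (c * g.coeff m') := by
    conv_lhs => rw [g.as_sum]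
    rw [Finset.mul_sum]
    refine Finset.sum_congr rfl fun m' _ => ?_
    rw [monomial_mul]
  rw [h1]
  refine (n1_sum w _ _).trans ?_
  unfold n1
  rw [Finset.mul_sum]
  refine Finset.sum_le_sum fun m' _ => ?_
  have h2 := n1_monomial w (m + m') (c * g.coeff m')
  unfold n1 at h2
  rw [h2, map_mul]

theorem n1_mul (w : AbsoluteValue L ℝ) (f g : MvPolynomial ι L) :
    n1 w (f * g) ≤ n1 w f * n1 w g := by
  classical
  have h1 : f * g = ∑ m ∈ f.support, monomial m (f.coeff m) * g := by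
    conv_lhs => rw [f.as_sum]
    rw [Finset.sum_mul]
  rw [h1]
  refine (n1_sum w _ _).trans ?_
  conv_rhs => unfold n1
  rw [Finset.sum_mul]
  exact Finset.sum_le_sum fun m _ => n1_monomial_mul w m _ g

theorem sum_le_of_na {w : AbsoluteValue L ℝ} (hw : IsNonarchimedean w) {α : Type*}
    (s : Finset α) (f : α → L) {c : ℝ} (hc : 0 ≤ c) (h : ∀ a ∈ s, w (f a) ≤ c) :
    w (∑ a ∈ s, f a) ≤ c := by
  classical
  induction s using Finset.induction_on with
  | empty => rwa [Finset.sum_empty, map_zero]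
  | insert a s ha ih =>
    rw [Finset.sum_insert ha]
    exact (hw _ _).trans (max_le (h a (Finset.mem_insert_self a s))
      (ih fun b hb => h b (Finset.mem_insert_of_mem hb)))

theorem nx_mul {w : AbsoluteValue L ℝ} (hw : IsNonarchimedean w) (f g : MvPolynomial ι L) :
    nx w (f * g) ≤ nx w f * nx w g := by
  classical
  refine nx_le (mul_nonneg (nx_nonneg w f) (nx_nonneg w g)) fun m => ?_
  rw [coeff_mul]
  refine sum_le_of_na hw _ _ (mul_nonneg (nx_nonneg w f) (nx_nonneg w g)) fun q _ => ?_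
  rw [map_mul]
  exact mul_le_mul (coeff_le_nx w f _) (coeff_le_nx w g _) (w.nonneg _) (nx_nonneg w f)

end Norm

variable {K : Type} [Field K] [AdmissibleAbsValues K] {ι : Type}

end Pool.Agent.Helper88.ZN

end

section

/-!
# Project NZ: the height in an extension of number fields
-/

set_option autoImplicit false

namespace Pool.Agent.Helper45.NZ

open Height NumberField

/-- The archimedean part of the height as a product over embeddings. -/
theorem ScaleQ_arch {L : Type} [Field L] [NumberField L] {ι : Type} (x : ι → L) :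
    ∏ v : InfinitePlace L, (⨆ i, v (x i)) ^ v.mult = ∏ σ : L →+* ℂ, ⨆ i, ‖σ (x i)‖ := by
  classical
  rw [← Finset.prod_fiberwise Finset.univ InfinitePlace.mk (fun σ : L →+* ℂ => ⨆ i, ‖σ (x i)‖)]
  have h (w : InfinitePlace L) (φ) (hφ : φ ∈ ({φ | InfinitePlace.mk φ = w} : Finset _)) :
      (⨆ i, ‖φ (x i)‖) = ⨆ i, w (x i) := by
    rw [← (Finset.mem_filter.mp hφ).2]
    rfl
  simp_rw [Finset.prod_congr rfl (h _), Finset.prod_const, InfinitePlace.card_filter_mk_eq]

/-- The number of extensions of an embedding. -/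
theorem ScaleQ_card {L M : Type} [Field L] [NumberField L] [Field M] [NumberField M]
    [Algebra L M] (τ : L →+* ℂ) [DecidableEq (L →+* ℂ)] :
    ({σ : M →+* ℂ | σ.comp (algebraMap L M) = τ} : Finset (M →+* ℂ)).card =
      Module.finrank L M := by
  classical
  let _ : Algebra L ℂ := τ.toAlgebra
  rw [← AlgHom.card L M ℂ, ← Fintype.card_coe]
  refine Fintype.card_congr ⟨fun σ => ⟨σ.1, fun r => ?_⟩, fun φ => ⟨φ.toRingHom, ?_⟩, ?_, ?_⟩
  · exact congrArg (fun f : L →+* ℂ => f r) (Finset.mem_filter.1 σ.2).2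
  · rw [Finset.mem_filter]
    exact ⟨Finset.mem_univ _, RingHom.ext fun r => φ.commutes r⟩
  · intro σ
    rfl
  · intro φ
    rfl

/-- The archimedean part of the height in an extension. -/
theorem ScaleQ_arch_map {L M : Type} [Field L] [NumberField L] [Field M] [NumberField M]
    [Algebra L M] {ι : Type} (x : ι → L) :
    ∏ v : InfinitePlace M, (⨆ i, v (algebraMap L M (x i))) ^ v.mult =
      (∏ v : InfinitePlace L, (⨆ i, v (x i)) ^ v.mult) ^ Module.finrank L M := by
  classical
  rw [ScaleQ_arch fun i => algebraMap L M (x i), ScaleQ_arch,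
    ← Finset.prod_fiberwise Finset.univ (fun σ : M →+* ℂ => σ.comp (algebraMap L M)),
    ← Finset.prod_pow]
  refine Finset.prod_congr rfl fun τ _ => ?_
  rw [← ScaleQ_card (M := M) τ, ← Finset.prod_const]
  refine Finset.prod_congr rfl fun σ hσ => ?_
  rw [← (Finset.mem_filter.mp hσ).2]
  rfl

/-- The finite part of the height in an extension, for integral vectors. -/
theorem ScaleQ_fin_map {L M : Type} [Field L] [NumberField L] [Field M] [NumberField M]
    [Algebra L M] {ι : Type} [Finite ι] {x : ι → 𝓞 L} (hx : x ≠ 0) :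
    ∏ᶠ v : FinitePlace M, ⨆ i, v (algebraMap L M (x i)) =
      (∏ᶠ v : FinitePlace L, ⨆ i, v (x i : L)) ^ Module.finrank L M := by
  have hy : (fun i => algebraMap (𝓞 L) (𝓞 M) (x i)) ≠ 0 := by
    intro h
    apply hx
    funext i
    exact (map_eq_zero_iff _ (FaithfulSMul.algebraMap_injective (𝓞 L) (𝓞 M))).1 (congrFun h i)
  have h1 := absNorm_mul_finprod_finitePlace_eq_one hx
  have h2 := absNorm_mul_finprod_finitePlace_eq_one hy
  have h3 : Ideal.span (Set.range fun i => algebraMap (𝓞 L) (𝓞 M) (x i)) =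
      (Ideal.span (Set.range x)).map (algebraMap (𝓞 L) (𝓞 M)) := by
    rw [Ideal.map_span, ← Set.range_comp]
    rfl
  have h4 : ∀ i, ((algebraMap (𝓞 L) (𝓞 M) (x i) : 𝓞 M) : M) = algebraMap L M (x i) := by
    intro i
    rfl
  rw [h3, Ideal.absNorm_algebraMap, ← IsFractionRing.finrank_eq (𝓞 L) L (𝓞 M) M] at h2
  push_cast at h2
  simp only [h4] at h2
  have h5 := congrArg (fun a => a ^ Module.finrank L M) h1
  simp only [mul_pow, one_pow] at h5
  have h6 : ((Ideal.absNorm (Ideal.span (Set.range x)) : ℝ)) ^ Module.finrank L M ≠ 0 := by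
    intro h
    rw [h, zero_mul] at h5
    exact zero_ne_one h5
  exact mul_left_cancel₀ h6 (h2.trans h5.symm)

/-- The height of a vector is multiplied by the degree of the extension. -/
theorem logHeight_map {L M : Type} [Field L] [NumberField L] [Field M] [NumberField M]
    [Algebra L M] {ι : Type} [Finite ι] (x : ι → L) :
    logHeight (fun i => algebraMap L M (x i)) = Module.finrank L M * logHeight x := by
  classical
  by_cases hx : x = 0
  · subst hx
    have h1 : (fun i => algebraMap L M ((0 : ι → L) i)) = 0 := by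
      funext i
      simp
    rw [h1, logHeight_zero, logHeight_zero, mul_zero]
  have := Fintype.ofFinite ι
  obtain ⟨b, hb⟩ := IsLocalization.exist_integer_multiples_of_finite (nonZeroDivisors (𝓞 L)) x
  have hb0 : (algebraMap (𝓞 L) L b : L) ≠ 0 :=
    IsFractionRing.to_map_ne_zero_of_mem_nonZeroDivisors b.2
  choose ξ hξ using hb
  have hξ' : ∀ i, (ξ i : L) = algebraMap (𝓞 L) L b * x i := by
    intro i
    have := hξ i
    rw [Algebra.smul_def] at this
    exact this
  have hξ0 : ξ ≠ 0 := by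
    intro h
    apply hx
    funext i
    have h1 := hξ' i
    rw [h] at h1
    simp only [Pi.zero_apply, map_zero] at h1
    rcases mul_eq_zero.1 h1.symm with h2 | h2
    · exact absurd h2 hb0
    · exact h2
  have e1 : (fun i => (ξ i : L)) = (algebraMap (𝓞 L) L b : L) • x := by
    funext i
    rw [hξ', Pi.smul_apply, smul_eq_mul]
  have e2 : (fun i => algebraMap L M (ξ i : L)) =
      algebraMap L M (algebraMap (𝓞 L) L b) • fun i => algebraMap L M (x i) := by
    funext i
    rw [hξ', Pi.smul_apply, smul_eq_mul, map_mul]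
  have hb1 : algebraMap L M (algebraMap (𝓞 L) L b) ≠ 0 := by
    rw [Ne, map_eq_zero_iff _ (algebraMap L M).injective]
    exact hb0
  rw [← logHeight_smul_eq_logHeight _ hb1, ← e2, ← logHeight_smul_eq_logHeight x hb0, ← e1,
    logHeight_eq_log_mulHeight, logHeight_eq_log_mulHeight, ← Real.log_pow]
  have hn1 : (fun i => (ξ i : L)) ≠ 0 := by
    intro h
    apply hξ0
    funext i
    exact RingOfIntegers.ext (congrFun h i)
  have hn2 : (fun i => algebraMap L M (ξ i : L)) ≠ 0 := by
    intro h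
    apply hn1
    funext i
    exact (map_eq_zero_iff _ (algebraMap L M).injective).1 (congrFun h i)
  rw [NumberField.mulHeight_eq hn1, NumberField.mulHeight_eq hn2, mul_pow,
    ScaleQ_arch_map, ScaleQ_fin_map hξ0]

end Pool.Agent.Helper45.NZ

end

section

namespace Pool.Agent.Helper33.SS
end Pool.Agent.Helper33.SS

/-!
# Normal form of eigenvalues of integral matrices over the unit ball of a finite extension
-/

set_option autoImplicit false

namespace Pool.Agent.Helper88.TL

open Pool.Agent.Helper33.SS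

variable {p : ℕ} [Fact p.Prime] {R : Type} [NormedCommRing R] {ι : R →+* ℂ_[p]}

theorem Loc.isIntegralElem_root (hR : Loc p R ι) {P : Polynomial R} (hP : P.Monic) {μ : ℂ_[p]}
    (hμ : (P.map ι).IsRoot μ) : (io p).IsIntegralElem μ := by
  letI : Algebra ℤ_[p] ℂ_[p] := (io p).toAlgebra
  let A := integralClosure ℤ_[p] ℂ_[p]
  let φ : R →+* A := ι.codRestrict A (fun x => hR.integral x)
  have hφ : ∀ x, ((φ x : A) : ℂ_[p]) = ι x := fun x => rfl
  have h1 : IsIntegral A μ := by
    refine ⟨P.map φ, hP.map φ, ?_⟩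
    rw [Polynomial.eval₂_map]
    have h2 : (algebraMap A ℂ_[p]).comp φ = ι := by
      ext x
      exact hφ x
    rw [h2]
    have h3 : Polynomial.eval μ (P.map ι) = 0 := hμ
    rwa [Polynomial.eval_map] at h3
  exact isIntegral_trans (R := ℤ_[p]) μ h1

theorem exists_good' (hR : Loc p R ι) (P : Polynomial R) (hP : P.Monic) :
    ∃ (w : ℂ_[p]) (k : ℕ), w ≠ 0 ∧ ‖w‖ < 1 ∧ (p : ℝ)⁻¹ ≤ ‖w‖ ∧ 1 ≤ k ∧
      ∀ μ : ℂ_[p], (P.map ι).IsRoot μ → GoodEig (p : ℝ)⁻¹ w (μ ^ k) := by
  classical
  have hPm : (P.map ι).Monic := hP.map _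
  set S : Finset ℂ_[p] := (P.map ι).roots.toFinset with hS
  have hmem : ∀ μ, μ ∈ S ↔ (P.map ι).IsRoot μ := by
    intro μ
    rw [hS, Multiset.mem_toFinset, Polynomial.mem_roots hPm.ne_zero]
  have hint : ∀ μ : S, ∃ Q : Polynomial ℤ_[p], Q.Monic ∧ (Q.map (io p)).IsRoot (μ : ℂ_[p]) := by
    intro μ
    obtain ⟨Q, hQ1, hQ2⟩ := hR.isIntegralElem_root hP ((hmem μ).1 μ.2)
    refine ⟨Q, hQ1, ?_⟩
    rw [Polynomial.IsRoot, Polynomial.eval_map]
    exact hQ2
  choose Q hQ1 hQ2 using hint
  obtain ⟨w, k, h1, h2, h3, h4, h5⟩ := exists_good p (∏ μ : S, Q μ)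
    (Polynomial.monic_prod_of_monic _ _ fun μ _ => hQ1 μ)
  refine ⟨w, k, h1, h2, h3, h4, fun μ hμ => h5 μ ?_⟩
  rw [Polynomial.map_prod, Polynomial.IsRoot, Polynomial.eval_prod]
  exact Finset.prod_eq_zero (Finset.mem_univ (⟨μ, (hmem μ).2 hμ⟩ : S)) (hQ2 ⟨μ, (hmem μ).2 hμ⟩)

end Pool.Agent.Helper88.TL

end

section

namespace Pool.Agent.Helper33.SS
end Pool.Agent.Helper33.SS

/-!
# The idempotent lemma over the unit ball of a finite extension
-/

set_option autoImplicit false

namespace Pool.Agent.Helper88.TL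

open Filter Topology Pool.Agent.Helper33.SS

section IdemAux

variable {p : ℕ} [Fact p.Prime] {R : Type} [NormedCommRing R] {ι : R →+* ℂ_[p]}
  {E : Type*} [AddCommGroup E] [Module R E]

/-- The submodule of multiples of `p ^ L`. -/
noncomputable def idemR (p : ℕ) (R E : Type*) [CommRing R] [AddCommGroup E] [Module R E]
    (L : ℕ) : Submodule R E :=
  LinearMap.range (LinearMap.lsmul R E ((p : R) ^ L))

lemma mem_idemR {L : ℕ} {x : E} : x ∈ idemR p R E L ↔ ∃ g : E, (p : R) ^ L • g = x := by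
  unfold idemR
  rw [LinearMap.mem_range]
  rfl

lemma idem_uv' (u : Module.End R E) (hu : ∀ h, ∃ g, u (u h) - u h = (p : R) • g) (L : ℕ)
    (x : E) : (u ^ L * (u - 1) ^ L) x ∈ idemR p R E L := by
  have hc : Commute u (u - 1) := (Commute.refl u).sub_right (Commute.one_right u)
  rw [← hc.mul_pow]
  induction L generalizing x with
  | zero =>
    rw [mem_idemR]
    exact ⟨x, by simp⟩
  | succ L ih =>
    rw [pow_succ, Module.End.mul_apply]
    obtain ⟨g, hg⟩ := hu x
    have h1 : (u * (u - 1)) x = (p : R) • g := by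
      rw [Module.End.mul_apply, LinearMap.sub_apply, Module.End.one_apply, map_sub, hg]
    rw [h1, map_smul]
    obtain ⟨g', hg'⟩ := mem_idemR.1 (ih g)
    rw [mem_idemR]
    exact ⟨g', by rw [← hg', smul_smul, pow_succ, mul_comm]⟩

lemma idem_uv_le' (u : Module.End R E) (hu : ∀ h, ∃ g, u (u h) - u h = (p : R) • g)
    {L a b : ℕ} (ha : L ≤ a) (hb : L ≤ b)
    (x : E) : (u ^ a * (u - 1) ^ b) x ∈ idemR p R E L := by
  have hc : Commute u (u - 1) := (Commute.refl u).sub_right (Commute.one_right u)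
  obtain ⟨a', rfl⟩ := Nat.exists_eq_add_of_le ha
  obtain ⟨b', rfl⟩ := Nat.exists_eq_add_of_le hb
  have h1 : u ^ (L + a') * (u - 1) ^ (L + b') = (u ^ L * (u - 1) ^ L) * (u ^ a' * (u - 1) ^ b') := by
    rw [pow_add, pow_add]
    have h2 : Commute (u ^ a') ((u - 1) ^ L) := (hc.pow_pow a' L)
    calc u ^ L * u ^ a' * ((u - 1) ^ L * (u - 1) ^ b')
        = u ^ L * (u ^ a' * (u - 1) ^ L) * (u - 1) ^ b' := by simp only [mul_assoc]
      _ = u ^ L * ((u - 1) ^ L * u ^ a') * (u - 1) ^ b' := by rw [h2.eq]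
      _ = _ := by simp only [mul_assoc]
  rw [h1, Module.End.mul_apply]
  exact idem_uv' u hu L _

lemma idem_main' (u : Module.End R E)
    (hu : ∀ h, ∃ g, u (u h) - u h = (p : R) • g)
    {L N a : ℕ} (hN : p ^ (2 * L) ∣ N) (ha : L ≤ a) (x : E) :
    (u ^ (a + N)) x - (u ^ a) x ∈ idemR p R E L := by
  have h1 : u ^ (a + N) = u ^ a * ∑ i ∈ Finset.range (N + 1), (u - 1) ^ i * (N.choose i : Module.End R E) := by
    rw [pow_add]
    congr 1
    have h2 := (Commute.one_right (u - 1)).add_pow N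
    rw [sub_add_cancel] at h2
    rw [h2]
    refine Finset.sum_congr rfl fun i _ => ?_
    rw [one_pow, mul_one]
  have h3 : (u ^ (a + N)) x - (u ^ a) x
      = ∑ i ∈ Finset.range N, (N.choose (i + 1) : R) • (u ^ a * (u - 1) ^ (i + 1)) x := by
    rw [h1, Finset.sum_range_succ']
    simp only [pow_zero, Nat.choose_zero_right, Nat.cast_one, mul_one]
    rw [mul_add, mul_one, LinearMap.add_apply, add_sub_cancel_right, Finset.mul_sum,
      LinearMap.sum_apply]
    refine Finset.sum_congr rfl fun i _ => ?_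
    rw [← mul_assoc, Module.End.mul_apply (u ^ a * (u - 1) ^ (i + 1))]
    have h4 : ((N.choose (i + 1) : ℕ) : Module.End R E) x = (N.choose (i + 1) : R) • x := by
      rw [Module.End.natCast_apply, Nat.cast_smul_eq_nsmul]
    rw [h4, map_smul]
  rw [h3]
  refine Submodule.sum_mem _ fun i _ => ?_
  rcases lt_or_ge (i + 1) L with hi | hi
  · obtain ⟨c, hc⟩ := idem_choose (p := p) hN (Nat.succ_pos i) hi
    rw [hc, mem_idemR]
    refine ⟨(c : R) • (u ^ a * (u - 1) ^ (i + 1)) x, ?_⟩
    rw [smul_smul]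
    push_cast
    rfl
  · exact Submodule.smul_mem _ _ (idem_uv_le' u hu ha hi x)

lemma idem_norm' (hR : Loc p R ι) (φ : E →ₗ[R] R) {L : ℕ} {x : E} (hx : x ∈ idemR p R E L) :
    ‖φ x‖ ≤ ((p : ℝ)⁻¹) ^ L := by
  obtain ⟨g, hg⟩ := mem_idemR.1 hx
  rw [← hg, map_smul, smul_eq_mul, hR.norm_mul, hR.norm_pow, hR.norm_p]
  have h1 : ‖φ g‖ ≤ 1 := hR.le_one _
  have h2 : 0 ≤ ((p : ℝ)⁻¹) ^ L := by positivity
  nlinarith

lemma idem_diff' (u : Module.End R E) (φ : E →ₗ[R] R) (h : E) (m k n : ℕ) :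
    (fwdDiff 1)^[k] (fun n => φ ((u ^ (n + m)) h)) n = φ ((u ^ (n + m) * (u - 1) ^ k) h) := by
  induction k generalizing n with
  | zero => simp
  | succ k ih =>
    rw [Function.iterate_succ_apply', fwdDiff, ih, ih, ← map_sub, ← LinearMap.sub_apply]
    congr 2
    rw [pow_succ' (u - 1) k, show n + 1 + m = (n + m) + 1 by omega, pow_succ u (n + m)]
    noncomm_ring

lemma idem_fwd_tendsto' (k : ℕ) : ∀ (F : ℕ → ℕ → R) (f : ℕ → R),
    (∀ n, Tendsto (fun j => F j n) atTop (𝓝 (f n))) → ∀ n,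
    Tendsto (fun j => (fwdDiff 1)^[k] (F j) n) atTop (𝓝 ((fwdDiff 1)^[k] f n)) := by
  induction k with
  | zero => intro F f hF n; simpa using hF n
  | succ k ih =>
    intro F f hF n
    simp only [Function.iterate_succ_apply]
    refine ih (fun j => fwdDiff 1 (F j)) (fwdDiff 1 f) (fun n => ?_) n
    simp only [fwdDiff]
    exact (hF (n + 1)).sub (hF n)

end IdemAux

/-- The idempotent lemma. -/
theorem idem' {p : ℕ} [Fact p.Prime] {R : Type} [NormedCommRing R] {ι : R →+* ℂ_[p]}
    (hR : Loc p R ι) {E : Type*} [AddCommGroup E] [Module R E]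
    (u : Module.End R E) (hu : ∀ h, ∃ g, u (u h) - u h = (p : R) • g)
    (φ : E →ₗ[R] R) (h : E) :
    ∃ f : ℕ → R, (∀ k n, ‖(fwdDiff 1)^[k] f n‖ ≤ ((p : ℝ)⁻¹) ^ k) ∧
      (∀ n, ‖φ ((u ^ n) h) - f n‖ ≤ ((p : ℝ)⁻¹) ^ n) ∧
      (∀ n, Tendsto (fun j => φ ((u ^ (n + p ^ j)) h)) atTop (𝓝 (f n))) := by
  have hp : p.Prime := Fact.out
  have hp1 : (1 : ℝ) < p := by exact_mod_cast hp.one_lt
  have hpinv0 : (0 : ℝ) ≤ (p : ℝ)⁻¹ := by positivity
  have hpinv1 : (p : ℝ)⁻¹ < 1 := inv_lt_one_of_one_lt₀ hp1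
  have := hR.complete
  -- comparison of two members of the sequence
  have key : ∀ n j j' L : ℕ, 2 * L ≤ j → j ≤ j' →
      ‖φ ((u ^ (n + p ^ j')) h) - φ ((u ^ (n + p ^ j)) h)‖ ≤ ((p : ℝ)⁻¹) ^ L := by
    intro n j j' L hL hj
    rw [← map_sub]
    have h1 : p ^ j ≤ p ^ j' := Nat.pow_le_pow_right hp.pos hj
    have h2 : n + p ^ j' = (n + p ^ j) + (p ^ j' - p ^ j) := by omega
    rw [h2]
    refine idem_norm' hR φ (idem_main' u hu ?_ ?_ h)
    · exact Nat.dvd_sub (pow_dvd_pow p (by omega)) (pow_dvd_pow p hL)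
    · have h3 : j < p ^ j := Nat.lt_pow_self hp.one_lt
      omega
  have hcau : ∀ n, CauchySeq (fun j => φ ((u ^ (n + p ^ j)) h)) := by
    intro n
    rw [Metric.cauchySeq_iff']
    intro ε hε
    obtain ⟨L, hL⟩ := exists_pow_lt_of_lt_one hε hpinv1
    refine ⟨2 * L, fun j hj => ?_⟩
    rw [dist_eq_norm]
    exact lt_of_le_of_lt (key n (2 * L) j L le_rfl hj) hL
  choose f hf using fun n => cauchySeq_tendsto_of_complete (hcau n)
  refine ⟨f, ?_, ?_, hf⟩
  · intro k n
    have h1 := idem_fwd_tendsto' k (fun j n => φ ((u ^ (n + p ^ j)) h)) f hf n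
    refine le_of_tendsto h1.norm ?_
    filter_upwards [eventually_ge_atTop k] with j hj
    rw [idem_diff' u φ h (p ^ j) k n]
    refine idem_norm' hR φ (idem_uv_le' u hu ?_ le_rfl h)
    have h3 : j < p ^ j := Nat.lt_pow_self hp.one_lt
    omega
  · intro n
    have h1 : Tendsto (fun j => φ ((u ^ n) h) - φ ((u ^ (n + p ^ j)) h)) atTop
        (𝓝 (φ ((u ^ n) h) - f n)) := tendsto_const_nhds.sub (hf n)
    refine le_of_tendsto h1.norm ?_
    filter_upwards [eventually_ge_atTop (2 * n)] with j hj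
    rw [norm_sub_rev, ← map_sub]
    exact idem_norm' hR φ (idem_main' u hu (pow_dvd_pow p hj) le_rfl h)

end Pool.Agent.Helper88.TL

end

section

namespace Pool.Agent.Helper33.SS
end Pool.Agent.Helper33.SS

/-!
# Residue polydiscs over the unit ball of a finite extension
-/

set_option autoImplicit false

namespace Pool.Agent.Helper88.TL

open Filter Topology Pool.Agent.Helper33.SS

section DiscAux

open MvPolynomial

/-- The space of affine polynomials. -/
noncomputable def affR (σ k : Type*) [CommRing k] : Submodule k (MvPolynomial σ k) :=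
  Submodule.span k (Set.range (fun o : Option σ => o.elim (1 : MvPolynomial σ k) X))

lemma one_mem_affR (σ k : Type*) [CommRing k] : (1 : MvPolynomial σ k) ∈ affR σ k :=
  Submodule.subset_span ⟨none, rfl⟩

lemma X_mem_affR {σ : Type*} (k : Type*) [CommRing k] (i : σ) :
    (X i : MvPolynomial σ k) ∈ affR σ k :=
  Submodule.subset_span ⟨some i, rfl⟩

lemma C_mem_affR {σ : Type*} {k : Type*} [CommRing k] (c : k) :
    (C c : MvPolynomial σ k) ∈ affR σ k := by
  have h : (C c : MvPolynomial σ k) = c • 1 := by rw [MvPolynomial.smul_eq_C_mul, mul_one]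
  rw [h]
  exact Submodule.smul_mem _ _ (one_mem_affR σ k)

lemma affR_map {σ k : Type*} [CommRing k] (v : MvPolynomial σ k →ₐ[k] MvPolynomial σ k)
    (hv : ∀ i, v (X i) ∈ affR σ k) (x : MvPolynomial σ k) (hx : x ∈ affR σ k) : v x ∈ affR σ k := by
  have h : affR σ k ≤ (affR σ k).comap v.toLinearMap := by
    unfold affR
    rw [Submodule.span_le]
    rintro _ ⟨o, rfl⟩
    cases o with
    | none =>
      show v 1 ∈ affR σ k
      rw [map_one]
      exact one_mem_affR σ k
    | some i => exact hv i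
  exact h hx

lemma affR_iter {σ k : Type*} [CommRing k] (v : MvPolynomial σ k →ₐ[k] MvPolynomial σ k)
    (hv : ∀ i, v (X i) ∈ affR σ k) (n : ℕ) (i : σ) : (v ^ n) (X i) ∈ affR σ k := by
  induction n with
  | zero => exact X_mem_affR k i
  | succ n ih =>
    rw [pow_succ', AlgHom.mul_apply]
    exact affR_map v hv _ ih

instance affR_finite (σ k : Type*) [Finite σ] [CommRing k] [Finite k] : Finite (affR σ k) := by
  have h : Module.Finite k (affR σ k) := by
    unfold affR
    exact Module.Finite.span_of_finite k (Set.finite_range _)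
  exact Module.finite_of_finite k

/-- A uniform exponent. -/
lemma affR_exp (σ k : Type*) [Finite σ] [CommRing k] [Finite k] :
    ∃ e : ℕ, 1 ≤ e ∧ ∀ v : MvPolynomial σ k →ₐ[k] MvPolynomial σ k,
      (∀ i, v (X i) ∈ affR σ k) → v ^ (e + e) = v ^ e := by
  classical
  set N := Nat.card (σ → affR σ k) with hN
  have hNpos : 0 < N := Nat.card_pos
  refine ⟨N.factorial, Nat.factorial_pos _, fun v hv => ?_⟩
  -- pigeonhole
  have hinj : ¬ Function.Injective (fun n : Fin (N + 1) =>
      (fun i => (⟨(v ^ (n : ℕ)) (X i), affR_iter v hv n i⟩ : affR σ k))) := by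
    intro hinj
    have h1 := Nat.card_le_card_of_injective _ hinj
    rw [Nat.card_eq_fintype_card, Fintype.card_fin, ← hN] at h1
    omega
  have hex : ∃ i j : ℕ, i < j ∧ j ≤ N ∧ v ^ i = v ^ j := by
    rw [Function.Injective] at hinj
    push Not at hinj
    obtain ⟨a, b, hab, hne⟩ := hinj
    have heq : v ^ (a : ℕ) = v ^ (b : ℕ) := by
      apply MvPolynomial.algHom_ext
      intro i
      have := congrFun hab i
      exact congrArg Subtype.val this
    have hne' : (a : ℕ) ≠ b := fun h => hne (Fin.ext h)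
    rcases lt_or_gt_of_ne hne' with h | h
    · exact ⟨a, b, h, by omega, heq⟩
    · exact ⟨b, a, h, by omega, heq.symm⟩
  obtain ⟨i, j, hij, hj, heq⟩ := hex
  obtain ⟨d, rfl⟩ := Nat.exists_eq_add_of_lt hij
  -- periodicity
  have hper : ∀ n, i ≤ n → v ^ (n + (d + 1)) = v ^ n := by
    intro n hn
    obtain ⟨m, rfl⟩ := Nat.exists_eq_add_of_le hn
    have e1 : i + m + (d + 1) = (i + d + 1) + m := by ring
    rw [e1, pow_add, ← heq, ← pow_add]
  have hper2 : ∀ t n, i ≤ n → v ^ (n + (d + 1) * t) = v ^ n := by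
    intro t
    induction t with
    | zero => intro n _; simp
    | succ t ih =>
      intro n hn
      have e1 : n + (d + 1) * (t + 1) = (n + (d + 1) * t) + (d + 1) := by ring
      rw [e1, hper _ (by nlinarith), ih n hn]
  have hdvd : (d + 1) ∣ N.factorial := Nat.dvd_factorial (by omega) (by omega)
  obtain ⟨t, ht⟩ := hdvd
  have hge : i ≤ N.factorial := by
    have := Nat.self_le_factorial N
    omega
  conv_lhs => rw [show N.factorial + N.factorial = N.factorial + (d + 1) * t by rw [← ht]]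
  exact hper2 t _ hge

lemma mul_dvd_iff_mk {R : Type*} [CommRing R] (a : R) {σ : Type*} (φ : MvPolynomial σ R) :
    (C a : MvPolynomial σ R) ∣ φ ↔
      MvPolynomial.map (Ideal.Quotient.mk (Ideal.span {a})) φ = 0 := by
  refine MvPolynomial.C_dvd_iff_map_hom_eq_zero _ _ (fun r => ?_) φ
  rw [Ideal.Quotient.eq_zero_iff_mem, Ideal.mem_span_singleton]

end DiscAux

/-- The analogue of `Pool.Agent.Helper33.SS.disc`. -/
theorem disc' {p : ℕ} [Fact p.Prime] {R : Type} [NormedCommRing R] {ι : R →+* ℂ_[p]}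
    (hR : Loc p R ι) (σ : Type) [Fintype σ] [DecidableEq σ] :
    ∃ e : ℕ, 1 ≤ e ∧ ∀ (G : σ → MvPolynomial σ R) (b y₀ : σ → R),
      (∀ i, ‖ev G b i - b i‖ ≤ (p : ℝ)⁻¹) → (∀ i, ‖y₀ i - b i‖ ≤ (p : ℝ)⁻¹) →
      ∃ f : ℕ → σ → R, (∀ i k n, ‖(fwdDiff 1)^[k] (fun m => f m i) n‖ ≤ ((p : ℝ)⁻¹) ^ k) ∧
        (∀ n i, ‖(ev G)^[e * n] y₀ i - f n i‖ ≤ ((p : ℝ)⁻¹) ^ n) ∧
        (∀ n i, Tendsto (fun j => (ev G)^[e * (n + p ^ j)] y₀ i) atTop (𝓝 (f n i))) := by
  classical
  have hp : p.Prime := Fact.out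
  have hfinq := hR.fin
  set κ := R ⧸ Ideal.span {(p : R)} with hκ
  set π : R →+* κ := Ideal.Quotient.mk (Ideal.span {(p : R)}) with hπ
  obtain ⟨e, he1, he⟩ := affR_exp σ κ
  refine ⟨e, he1, fun G b y₀ hb hy => ?_⟩
  open MvPolynomial in
  -- the coordinate `ξ₀`
  have hξ : ∀ i, ∃ x : R, y₀ i = b i + p * x := by
    intro i
    obtain ⟨x, hx⟩ := hR.dvd _ (hy i)
    exact ⟨x, by rw [← hx]; ring⟩
  choose ξ hξ using hξ
  have hc : ∀ i, ∃ x : R, ev G b i = b i + p * x := by
    intro i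
    obtain ⟨x, hx⟩ := hR.dvd _ (hb i)
    exact ⟨x, by rw [← hx]; ring⟩
  choose c hc using hc
  -- Taylor
  have hT := fun i => Pool.Agent.Helper37.taylor (R := R) (S := MvPolynomial σ R)
    (MvPolynomial.C (p : R)) (fun j => MvPolynomial.C (b j)) (fun j => MvPolynomial.X j) (G i)
  choose r hr using hT
  set H : σ → MvPolynomial σ R := fun i => MvPolynomial.C (c i) +
    (∑ j, MvPolynomial.C (MvPolynomial.eval b (MvPolynomial.pderiv j (G i))) * MvPolynomial.X j)
      + MvPolynomial.C (p : R) * r i with hH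
  have haC : ∀ P : MvPolynomial σ R,
      MvPolynomial.aeval (fun j => (MvPolynomial.C (b j) : MvPolynomial σ R)) P
        = MvPolynomial.C (MvPolynomial.eval b P) := by
    intro P
    induction P using MvPolynomial.induction_on with
    | C a => simp
    | add P Q hP hQ => rw [map_add, hP, hQ, map_add, map_add]
    | mul_X P i hP => rw [map_mul, hP, MvPolynomial.aeval_X, map_mul, MvPolynomial.eval_X, map_mul]
  have hS : ∀ i, MvPolynomial.aeval (fun j => (MvPolynomial.C (b j) +
      MvPolynomial.C (p : R) * MvPolynomial.X j : MvPolynomial σ R)) (G i)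
        = MvPolynomial.C (b i) + MvPolynomial.C (p : R) * H i := by
    intro i
    rw [hr i, haC]
    have h2 : (MvPolynomial.C (MvPolynomial.eval b (G i)) : MvPolynomial σ R)
        = MvPolynomial.C (b i) + MvPolynomial.C (p : R) * MvPolynomial.C (c i) := by
      rw [← map_mul, ← map_add, ← hc i]
      rfl
    have h3 : ∑ j, MvPolynomial.aeval (fun j => (MvPolynomial.C (b j) : MvPolynomial σ R))
        (MvPolynomial.pderiv j (G i)) * MvPolynomial.X j
        = ∑ j, MvPolynomial.C (MvPolynomial.eval b (MvPolynomial.pderiv j (G i))) *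
          MvPolynomial.X j := Finset.sum_congr rfl fun j _ => by rw [haC]
    rw [h2, h3, hH]
    ring
  -- the maps in the coordinate
  have hstep : ∀ ζ : σ → R, ev G (fun i => b i + p * ζ i) = fun i => b i + p * ev H ζ i := by
    intro ζ
    funext i
    have h1 := congrArg (MvPolynomial.eval ζ) (hS i)
    have h2 : MvPolynomial.eval ζ (MvPolynomial.aeval (fun j => (MvPolynomial.C (b j) +
      MvPolynomial.C (p : R) * MvPolynomial.X j : MvPolynomial σ R)) (G i))
        = MvPolynomial.eval (fun i => b i + p * ζ i) (G i) := by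
      generalize G i = P
      induction P using MvPolynomial.induction_on with
      | C a => simp
      | add P Q hP hQ => rw [map_add, map_add, hP, hQ, map_add]
      | mul_X P i hP =>
        rw [map_mul, map_mul, hP, MvPolynomial.aeval_X, map_mul, MvPolynomial.eval_X]
        simp
    rw [h2] at h1
    show MvPolynomial.eval (fun i => b i + p * ζ i) (G i) = _
    rw [h1]
    simp [ev]
  have hiter : ∀ m : ℕ, ∀ i, (ev G)^[m] y₀ i = b i + p * (ev H)^[m] ξ i := by
    intro m
    induction m with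
    | zero => intro i; exact hξ i
    | succ m ih =>
      intro i
      rw [Function.iterate_succ_apply', Function.iterate_succ_apply', funext ih, hstep]
  -- reduction modulo p
  set red := MvPolynomial.map (σ := σ) π with hred
  set w : MvPolynomial σ κ →ₐ[κ] MvPolynomial σ κ :=
    MvPolynomial.aeval (fun i => red (H i)) with hw
  have hcomm : ∀ h : MvPolynomial σ R, red (MvPolynomial.aeval H h) = w (red h) := by
    intro h
    induction h using MvPolynomial.induction_on with
    | C a => simp [hred, hw]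
    | add P Q hP hQ => rw [map_add, map_add, hP, hQ, map_add, map_add]
    | mul_X P i hP =>
      rw [map_mul, map_mul, hP, map_mul, map_mul, MvPolynomial.aeval_X]
      congr 1
      rw [hred, MvPolynomial.map_X, hw, MvPolynomial.aeval_X]
  have hwL : ∀ i, w (MvPolynomial.X i) ∈ affR σ κ := by
    intro i
    rw [hw, MvPolynomial.aeval_X, hH]
    simp only [hred, map_add, map_mul, map_sum, MvPolynomial.map_C, MvPolynomial.map_X]
    refine Submodule.add_mem _ (Submodule.add_mem _ (C_mem_affR _)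
      (Submodule.sum_mem _ fun j _ => ?_)) ?_
    · rw [← MvPolynomial.smul_eq_C_mul]
      exact Submodule.smul_mem _ _ (X_mem_affR _ j)
    · have h0 : π (p : R) = 0 := by
        rw [hπ, Ideal.Quotient.eq_zero_iff_mem]
        exact Ideal.mem_span_singleton_self _
      rw [h0, map_zero, zero_mul]
      exact Submodule.zero_mem _
  have hcomm' : ∀ (m : ℕ) (h : MvPolynomial σ R),
      red ((((MvPolynomial.aeval H : MvPolynomial σ R →ₐ[R] _).toLinearMap) ^ m) h)
        = (w ^ m) (red h) := by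
    intro m
    induction m with
    | zero => intro h; simp
    | succ m ih =>
      intro h
      rw [pow_succ, Module.End.mul_apply, ih, pow_succ, AlgHom.mul_apply]
      congr 1
      exact hcomm h
  -- apply the idempotent lemma
  set U : Module.End R (MvPolynomial σ R) :=
    ((MvPolynomial.aeval H : MvPolynomial σ R →ₐ[R] _).toLinearMap) with hU
  have hu : ∀ h, ∃ g, (U ^ e) ((U ^ e) h) - (U ^ e) h = (p : R) • g := by
    intro h
    have h1 : red ((U ^ e) ((U ^ e) h) - (U ^ e) h) = 0 := by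
      rw [map_sub, ← Module.End.mul_apply, ← pow_add, hcomm', hcomm', he w hwL, sub_self]
    obtain ⟨g, hg⟩ := (mul_dvd_iff_mk (p : R) _).2 h1
    exact ⟨g, by rw [hg, MvPolynomial.smul_eq_C_mul]⟩
  set φ : MvPolynomial σ R →ₗ[R] R :=
    (MvPolynomial.aeval ξ : MvPolynomial σ R →ₐ[R] R).toLinearMap with hφ
  have hval : ∀ (m : ℕ) (i : σ),
      φ (((U ^ e) ^ m) (MvPolynomial.C (b i) + MvPolynomial.C (p : R) * MvPolynomial.X i))
        = (ev G)^[e * m] y₀ i := by
    intro m i
    rw [← pow_mul, hiter]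
    have h1 : ∀ g, φ g = MvPolynomial.eval ξ g := fun g => by
      rw [hφ, AlgHom.toLinearMap_apply]
      exact DFunLike.congr_fun (MvPolynomial.coe_aeval_eq_eval ξ) g
    rw [h1, hU, eval_iter]
    simp
  have hid := fun i => idem' hR (U ^ e) hu φ
    (MvPolynomial.C (b i) + MvPolynomial.C (p : R) * MvPolynomial.X i)
  choose f hf1 hf2 hf3 using hid
  refine ⟨fun n i => f i n, fun i k n => hf1 i k n, fun n i => ?_, fun n i => ?_⟩
  · rw [← hval]
    exact hf2 i n
  · have h1 := hf3 i n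
    simpa only [hval] using h1

end Pool.Agent.Helper88.TL

end
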