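import Pool.Agent.Helper29.MG2.T32
import Pool.Agent.Helper29.MG2.T39
import Pool.Agent.Helper29.MG2.T41

section

namespace Pool.Agent.Helper29.TG
end Pool.Agent.Helper29.TG

/-!
# Project NZ (Zhang-Bezout for curves over the algebraic numbers): definitions

`A` is an algebraically closed field, algebraic over `ℚ`; `M` is a number field with an embedding
in `A`.
-/

set_option autoImplicit false

namespace Pool.Agent.Helper45.NZ

open MvPolynomial Height AdmissibleAbsValues
open Pool.Agent.Helper29.TG (nm ls FS Mem)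

/-- The absolute logarithmic height of a vector with coordinates algebraic over `ℚ`. -/
noncomputable def aht {A : Type} [Field A] [CharZero A] {ι : Type} (x : ι → A) : ℝ :=
  open Classical in
  if h : FiniteDimensional ℚ (IntermediateField.adjoin ℚ (Set.range x)) then
    have : NumberField (IntermediateField.adjoin ℚ (Set.range x)) :=
      { to_charZero := inferInstance, to_finiteDimensional := h }
    logHeight (fun i => (⟨x i, IntermediateField.subset_adjoin ℚ _ ⟨i, rfl⟩⟩ :
      IntermediateField.adjoin ℚ (Set.range x))) /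
        (Module.finrank ℚ (IntermediateField.adjoin ℚ (Set.range x)) : ℝ)
  else 0

section

variable {A : Type} [Field A]

/-- The absolute value `W` is nonarchimedean or given by an embedding in the complex numbers. -/
def Pl (W : AbsoluteValue A ℝ) : Prop :=
  IsNonarchimedean W ∨ ∃ τ : A →+* ℂ, ∀ a, W a = ‖τ a‖

/-- `0` for nonarchimedean absolute values, `1` for the others. -/
noncomputable def kap (W : AbsoluteValue A ℝ) : ℝ :=
  open Classical in if IsNonarchimedean W then 0 else 1

/-- The size of a polynomial: the maximum of the absolute values of the coefficients for a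
nonarchimedean absolute value, the sum for the others. -/
noncomputable def sz {σ : Type} (W : AbsoluteValue A ℝ) (G : MvPolynomial σ A) : ℝ :=
  open Classical in
  if IsNonarchimedean W then ⨆ m : G.support, W (G.coeff m) else ∑ m ∈ G.support, W (G.coeff m)

/-- The positive part of the logarithm of the size. -/
noncomputable def lp {σ : Type} (W : AbsoluteValue A ℝ) (G : MvPolynomial σ A) : ℝ :=
  max 0 (Real.log (sz W G))

/-- A bound for the height of a polynomial. -/
noncomputable def Cp {σ : Type} [CharZero A] (G : MvPolynomial σ A) : ℝ :=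
  ∑ m ∈ G.support, aht ![G.coeff m, 1] + Real.log (G.support.card + 1)

end

end Pool.Agent.Helper45.NZ

end

section

namespace Pool.Agent.Helper29.TG
end Pool.Agent.Helper29.TG
namespace Pool.Agent.Helper30.ZB
end Pool.Agent.Helper30.ZB
namespace Pool.Agent.Helper88.ZN
end Pool.Agent.Helper88.ZN

/-!
# Project NZ: the size of polynomials
-/

set_option autoImplicit false

namespace Pool.Agent.Helper45.NZ

open MvPolynomial
open Pool.Agent.Helper29.TG (nm le_nm nm_nonneg)
open Pool.Agent.Helper30.ZB (lf)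
open Pool.Agent.Helper88.ZN (n1 nx n1_nonneg nx_nonneg n1_eq_sum coeff_le_nx nx_le n1_sum n1_monomial n1_mul nx_mul sum_le_of_na)

variable {A : Type} [Field A] {ν : ℕ} {W : AbsoluteValue A ℝ}

theorem sz_na {σ : Type} {W : AbsoluteValue A ℝ} (h : IsNonarchimedean W)
    (G : MvPolynomial σ A) : sz W G = nx W G := by
  unfold sz nx
  rw [if_pos h]

theorem sz_arch {σ : Type} {W : AbsoluteValue A ℝ} (h : ¬ IsNonarchimedean W)
    (G : MvPolynomial σ A) : sz W G = n1 W G := by
  unfold sz n1
  rw [if_neg h]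

theorem kap_nonneg (W : AbsoluteValue A ℝ) : 0 ≤ kap W := by
  unfold kap
  split_ifs
  · exact le_rfl
  · exact zero_le_one

theorem sz_nonneg {σ : Type} (W : AbsoluteValue A ℝ) (G : MvPolynomial σ A) : 0 ≤ sz W G := by
  by_cases h : IsNonarchimedean W
  · rw [sz_na h]
    exact nx_nonneg W G
  · rw [sz_arch h]
    exact n1_nonneg W G

/-- The size of a value. -/
theorem eval_le_sz (W : AbsoluteValue A ℝ) {G : MvPolynomial (Fin (ν + 1)) A} {m : ℕ}
    (hG : G.IsHomogeneous m) (P : Fin (ν + 1) → A) : W (eval P G) ≤ sz W G * nm W P ^ m := by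
  classical
  have hmon : ∀ s ∈ G.support, W (G.coeff s * ∏ i ∈ s.support, P i ^ s i) ≤
      W (G.coeff s) * nm W P ^ m := by
    intro s hs
    rw [map_mul, map_prod]
    refine mul_le_mul_of_nonneg_left ?_ (W.nonneg _)
    rw [hG.degree_eq_sum_deg_support hs, ← Finset.prod_pow_eq_pow_sum]
    refine Finset.prod_le_prod (fun _ _ => W.nonneg _) fun i _ => ?_
    rw [map_pow]
    exact pow_le_pow_left₀ (W.nonneg _) (le_nm _ P i) _
  rw [eval_eq]
  by_cases h : IsNonarchimedean W
  · rw [sz_na h]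
    refine sum_le_of_na h _ _ (mul_nonneg (nx_nonneg W G)
      (pow_nonneg (nm_nonneg _ _) _)) fun s hs => (hmon s hs).trans ?_
    exact mul_le_mul_of_nonneg_right (coeff_le_nx W G s) (pow_nonneg (nm_nonneg _ _) _)
  · rw [sz_arch h]
    refine (W.sum_le _ _).trans ?_
    unfold n1
    rw [Finset.sum_mul]
    exact Finset.sum_le_sum hmon

theorem sz_mul_le {σ : Type} (W : AbsoluteValue A ℝ) (G H : MvPolynomial σ A) :
    sz W (G * H) ≤ sz W G * sz W H := by
  by_cases h : IsNonarchimedean W
  · rw [sz_na h, sz_na h, sz_na h]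
    exact nx_mul h G H
  · rw [sz_arch h, sz_arch h, sz_arch h]
    exact n1_mul W G H

theorem sz_one_le {σ : Type} (W : AbsoluteValue A ℝ) : sz W (1 : MvPolynomial σ A) ≤ 1 := by
  classical
  by_cases h : IsNonarchimedean W
  · rw [sz_na h]
    refine nx_le zero_le_one fun m => ?_
    rw [coeff_one]
    split_ifs
    · rw [W.map_one]
    · rw [map_zero]
      exact zero_le_one
  · rw [sz_arch h]
    have h1 := n1_monomial W (0 : σ →₀ ℕ) (1 : A)
    rw [W.map_one] at h1
    exact h1.le

theorem sz_pow_le {σ : Type} (W : AbsoluteValue A ℝ) (G : MvPolynomial σ A) (n : ℕ) :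
    sz W (G ^ n) ≤ sz W G ^ n := by
  induction n with
  | zero =>
    rw [pow_zero, pow_zero]
    exact sz_one_le W
  | succ n ih =>
    rw [pow_succ, pow_succ]
    exact (sz_mul_le W _ _).trans (mul_le_mul_of_nonneg_right ih (sz_nonneg W G))

/-- The size of a linear form with small coefficients. -/
theorem sz_lf_le (W : AbsoluteValue A ℝ) {c : Fin (ν + 1) → A} (hc : ∀ a, W (c a) ≤ 1) :
    sz W (lf A c) ≤ Real.exp (kap W * Real.log (ν + 1)) := by
  classical
  have hterm : ∀ i : Fin (ν + 1), (C (algebraMap A A (c i)) * X i :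
      MvPolynomial (Fin (ν + 1)) A) = monomial (Finsupp.single i 1) (c i) := by
    intro i
    rw [Algebra.algebraMap_self_apply, C_mul_X_eq_monomial]
  by_cases h : IsNonarchimedean W
  · rw [sz_na h]
    unfold kap
    rw [if_pos h, zero_mul, Real.exp_zero]
    refine nx_le zero_le_one fun m => ?_
    unfold lf
    rw [coeff_sum]
    refine sum_le_of_na h _ _ zero_le_one fun i _ => ?_
    rw [hterm, coeff_monomial]
    split_ifs
    · exact hc i
    · rw [map_zero]
      exact zero_le_one
  · rw [sz_arch h]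
    unfold kap
    rw [if_neg h, one_mul, Real.exp_log (by positivity)]
    unfold lf
    refine (n1_sum W _ _).trans ?_
    have h1 : ∀ i ∈ (Finset.univ : Finset (Fin (ν + 1))),
        n1 W (C (algebraMap A A (c i)) * X i : MvPolynomial (Fin (ν + 1)) A) ≤ 1 := by
      intro i _
      rw [hterm, n1_monomial]
      exact hc i
    refine (Finset.sum_le_sum h1).trans ?_
    simp

end Pool.Agent.Helper45.NZ

end

section

namespace Pool.Agent.Helper29.TG
end Pool.Agent.Helper29.TG
namespace Pool.Agent.Helper30.ZB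
end Pool.Agent.Helper30.ZB

/-!
# Project NZ: the size of evaluation determinants
-/

set_option autoImplicit false

namespace Pool.Agent.Helper45.NZ

open MvPolynomial
open Pool.Agent.Helper29.TG (nm)
open Pool.Agent.Helper30.ZB (lf fam)

variable {A : Type} [Field A] {ν : ℕ} {W : AbsoluteValue A ℝ}

private theorem detW_abs_sign {ι : Type} [Fintype ι] [DecidableEq ι] (W : AbsoluteValue A ℝ)
    (s : Equiv.Perm ι) (x : A) : W (Equiv.Perm.sign s • x) = W x := by
  rcases Int.units_eq_one_or (Equiv.Perm.sign s) with h | h <;> simp [h]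

private theorem detW_nonarch {ι : Type} [Fintype ι] [DecidableEq ι] (hW : IsNonarchimedean W)
    (M : Matrix ι ι A) {b : ℝ} (hb : ∀ s : Equiv.Perm ι, ∏ i, W (M (s i) i) ≤ b) :
    W M.det ≤ b := by
  rw [Matrix.det_apply]
  have h0 : (Finset.univ : Finset (Equiv.Perm ι)).Nonempty := ⟨1, Finset.mem_univ _⟩
  obtain ⟨s, -, hs⟩ := IsNonarchimedean.finset_image_add_of_nonempty hW
    (fun s : Equiv.Perm ι => Equiv.Perm.sign s • ∏ i, M (s i) i) h0
  refine hs.trans ?_
  rw [detW_abs_sign, map_prod]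
  exact hb s

private theorem detW_arch {ι : Type} [Fintype ι] [DecidableEq ι]
    (M : Matrix ι ι A) {b : ℝ} (hb : ∀ s : Equiv.Perm ι, ∏ i, W (M (s i) i) ≤ b) :
    W M.det ≤ (Nat.factorial (Fintype.card ι) : ℝ) * b := by
  rw [Matrix.det_apply]
  refine (W.sum_le _ _).trans ?_
  calc ∑ s : Equiv.Perm ι, W (Equiv.Perm.sign s • ∏ i, M (s i) i)
      ≤ ∑ _s : Equiv.Perm ι, b := by
        refine Finset.sum_le_sum fun s _ => ?_
        rw [detW_abs_sign, map_prod]
        exact hb s
    _ = (Nat.factorial (Fintype.card ι) : ℝ) * b := by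
        rw [Finset.sum_const, nsmul_eq_mul, Finset.card_univ, Fintype.card_perm]

/-- The ultrametric bound, or the trivial bound. -/
theorem det_le (hW : Pl W) {ι : Type} [Fintype ι] [DecidableEq ι] (P : ι → Fin (ν + 1) → A)
    (g : ι → MvPolynomial (Fin (ν + 1)) A) {m : ℕ} (hg : ∀ κ, (g κ).IsHomogeneous m) :
    W (Matrix.of fun i κ => eval (P i) (g κ)).det ≤
      Real.exp (kap W * Real.log (Nat.factorial (Fintype.card ι))) *
        ((∏ i, nm W (P i) ^ m) * ∏ κ, sz W (g κ)) := by
  have _ := hW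
  have hb : ∀ s : Equiv.Perm ι,
      ∏ i, W ((Matrix.of fun i κ => eval (P i) (g κ)) (s i) i) ≤
        (∏ i, nm W (P i) ^ m) * ∏ κ, sz W (g κ) := by
    intro s
    calc ∏ i, W ((Matrix.of fun i κ => eval (P i) (g κ)) (s i) i)
        ≤ ∏ i, (nm W (P (s i)) ^ m * sz W (g i)) := by
          refine Finset.prod_le_prod (fun i _ => W.nonneg _) fun i _ => ?_
          rw [Matrix.of_apply, mul_comm]
          exact eval_le_sz W (hg i) (P (s i))
      _ = (∏ i, nm W (P i) ^ m) * ∏ κ, sz W (g κ) := by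
          rw [Finset.prod_mul_distrib]
          congr 1
          exact Equiv.prod_comp s fun i => nm W (P i) ^ m
  by_cases hn : IsNonarchimedean W
  · have hk : kap W = 0 := by
      unfold kap
      rw [if_pos hn]
    rw [hk, zero_mul, Real.exp_zero, one_mul]
    exact detW_nonarch hn _ hb
  · have hk : kap W = 1 := by
      unfold kap
      rw [if_neg hn]
    rw [hk, one_mul, Real.exp_log (by positivity)]
    exact detW_arch _ hb

private theorem detW_log_prod_le {α : Type} [Fintype α] (f : α → ℝ) :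
    Real.log (∏ a, f a) ≤ ∑ a, max 0 (Real.log (f a)) := by
  by_cases h : ∃ a, f a = 0
  · obtain ⟨a, ha⟩ := h
    rw [Finset.prod_eq_zero (Finset.mem_univ a) ha, Real.log_zero]
    exact Finset.sum_nonneg fun _ _ => le_max_left _ _
  · push Not at h
    rw [Real.log_prod fun a _ => h a]
    exact Finset.sum_le_sum fun a _ => le_max_right _ _

private theorem detW_log_le {x y : ℝ} (hx : 0 ≤ x) (hxy : x ≤ y) {c : ℝ}
    (hc : 0 ≤ c) (hy : Real.log y ≤ c) : max 0 (Real.log x) ≤ c := by
  refine max_le hc ?_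
  rcases hx.eq_or_lt with h | h
  · rw [← h, Real.log_zero]
    exact hc
  · exact (Real.log_le_log h hxy).trans hy

private theorem detW_log_mul_le {x y a b : ℝ} (hx : Real.log x ≤ a) (hy : Real.log y ≤ b)
    (ha : 0 ≤ a) (hb : 0 ≤ b) : Real.log (x * y) ≤ a + b := by
  rcases eq_or_ne x 0 with h | h
  · rw [h, zero_mul, Real.log_zero]
    exact add_nonneg ha hb
  rcases eq_or_ne y 0 with h' | h'
  · rw [h', mul_zero, Real.log_zero]
    exact add_nonneg ha hb
  rw [Real.log_mul h h']
  exact add_le_add hx hy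

private theorem detW_log_pow_le {x a : ℝ} (hx : Real.log x ≤ a) (n : ℕ) :
    Real.log (x ^ n) ≤ n * a := by
  rw [Real.log_pow]
  exact mul_le_mul_of_nonneg_left hx (Nat.cast_nonneg n)

private theorem detW_lp_nonneg {σ : Type} (W : AbsoluteValue A ℝ) (G : MvPolynomial σ A) :
    0 ≤ lp W G := le_max_left _ _

private theorem detW_log_le_lp {σ : Type} (W : AbsoluteValue A ℝ) (G : MvPolynomial σ A) :
    Real.log (sz W G) ≤ lp W G := le_max_right _ _

private theorem detW_sum (n : ℕ) :
    ∑ j : Fin (n + 1), ((j : ℕ) : ℝ) = ((n * (n + 1) / 2 : ℕ) : ℝ) := by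
  rw [Fin.sum_univ_eq_sum_range (fun j => ((j : ℕ) : ℝ)) (n + 1), ← Nat.cast_sum,
    Finset.sum_range_id]
  congr 2
  rw [Nat.add_sub_cancel, mul_comm]

private theorem detW_sum' (n : ℕ) :
    ∑ j : Fin (n + 1), ((n - (j : ℕ) : ℕ) : ℝ) = ((n * (n + 1) / 2 : ℕ) : ℝ) := by
  rw [← detW_sum n, Fin.sum_univ_eq_sum_range (fun j => ((n - j : ℕ) : ℝ)) (n + 1),
    Fin.sum_univ_eq_sum_range (fun j => ((j : ℕ) : ℝ)) (n + 1),
    ← Finset.sum_range_reflect (fun j => ((j : ℕ) : ℝ)) (n + 1)]
  refine Finset.sum_congr rfl fun j _ => ?_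
  simp

/-- The forms of the family. -/
theorem fam_le (W : AbsoluteValue A ℝ) {q s : ℕ} {h : MvPolynomial (Fin (ν + 1)) A} {e : ℕ}
    {qa : Fin q → MvPolynomial (Fin (ν + 1)) A} {pc : Fin s → MvPolynomial (Fin (ν + 1)) A}
    (n : ℕ) {c : Fin (ν + 1) → A} (hc : ∀ a, W (c a) ≤ 1) :
    Real.log (∏ κ, sz W (fam h e qa pc n c κ)) ≤
      ((q * (n * (n + 1) / 2) : ℕ) : ℝ) * lp W h +
        ((n + 1 : ℕ) : ℝ) * (s * lp W h + ∑ a, lp W (qa a) + ∑ i, lp W (pc i)) +
          kap W * (((e * q * (n * (n + 1) / 2) : ℕ) : ℝ) * Real.log (ν + 1)) := by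
  refine (detW_log_prod_le _).trans ?_
  rw [Fintype.sum_sum_type, Fintype.sum_prod_type]
  have hK : 0 ≤ kap W * Real.log (ν + 1) := by
    refine mul_nonneg (kap_nonneg W) (Real.log_nonneg ?_)
    have : (0 : ℝ) ≤ ν := Nat.cast_nonneg ν
    linarith
  have h1 : ∀ (j : Fin (n + 1)) (a : Fin q),
      max 0 (Real.log (sz W (fam h e qa pc n c (Sum.inl (j, a))))) ≤
        ((j : ℕ) : ℝ) * lp W h + ((n - (j : ℕ) : ℕ) : ℝ) * (e * (kap W * Real.log (ν + 1))) +
          lp W (qa a) := by
    intro j a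
    have e1 : 0 ≤ ((j : ℕ) : ℝ) * lp W h := mul_nonneg (Nat.cast_nonneg _) (detW_lp_nonneg W h)
    have e2 : 0 ≤ ((n - (j : ℕ) : ℕ) : ℝ) * (e * (kap W * Real.log (ν + 1))) :=
      mul_nonneg (Nat.cast_nonneg _) (mul_nonneg (Nat.cast_nonneg _) hK)
    refine detW_log_le (sz_nonneg W _)
      (y := sz W h ^ (j : ℕ) * Real.exp (kap W * Real.log (ν + 1)) ^ ((n - (j : ℕ)) * e) *
        sz W (qa a)) ?_ (add_nonneg (add_nonneg e1 e2) (detW_lp_nonneg W _)) ?_
    · change sz W (h ^ (j : ℕ) * lf A c ^ ((n - (j : ℕ)) * e) * qa a) ≤ _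
      refine (sz_mul_le W _ _).trans (mul_le_mul_of_nonneg_right ?_ (sz_nonneg W _))
      refine (sz_mul_le W _ _).trans ?_
      refine mul_le_mul (sz_pow_le W _ _) ?_ (sz_nonneg W _) (pow_nonneg (sz_nonneg W _) _)
      exact (sz_pow_le W _ _).trans (pow_le_pow_left₀ (sz_nonneg W _) (sz_lf_le W hc) _)
    · refine detW_log_mul_le (detW_log_mul_le (detW_log_pow_le (detW_log_le_lp W h) _) ?_ e1 e2)
        (detW_log_le_lp W _) (add_nonneg e1 e2) (detW_lp_nonneg W _)
      rw [Real.log_pow, Real.log_exp, Nat.cast_mul, mul_assoc]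
  have h2 : ∀ i : Fin s, max 0 (Real.log (sz W (fam h e qa pc n c (Sum.inr i)))) ≤
      ((n + 1 : ℕ) : ℝ) * lp W h + lp W (pc i) := by
    intro i
    have e1 : 0 ≤ ((n + 1 : ℕ) : ℝ) * lp W h :=
      mul_nonneg (Nat.cast_nonneg _) (detW_lp_nonneg W h)
    refine detW_log_le (sz_nonneg W _) (y := sz W h ^ (n + 1) * sz W (pc i)) ?_
      (add_nonneg e1 (detW_lp_nonneg W _)) ?_
    · change sz W (h ^ (n + 1) * pc i) ≤ _
      exact (sz_mul_le W _ _).trans (mul_le_mul_of_nonneg_right (sz_pow_le W _ _)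
        (sz_nonneg W _))
    · exact detW_log_mul_le (detW_log_pow_le (detW_log_le_lp W h) _)
        (detW_log_le_lp W _) e1 (detW_lp_nonneg W _)
  have h3 : ∑ j : Fin (n + 1), ∑ a : Fin q,
      max 0 (Real.log (sz W (fam h e qa pc n c (Sum.inl (j, a))))) ≤
        ((q * (n * (n + 1) / 2) : ℕ) : ℝ) * lp W h +
          kap W * (((e * q * (n * (n + 1) / 2) : ℕ) : ℝ) * Real.log (ν + 1)) +
            ((n + 1 : ℕ) : ℝ) * ∑ a, lp W (qa a) := by
    refine (Finset.sum_le_sum fun j _ => Finset.sum_le_sum fun a _ => h1 j a).trans ?_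
    simp only [Finset.sum_add_distrib, Finset.sum_const, Finset.card_univ, Fintype.card_fin,
      nsmul_eq_mul, ← Finset.mul_sum, ← Finset.sum_mul]
    rw [detW_sum, detW_sum']
    push_cast
    refine le_of_eq ?_
    ring
  have h4 : ∑ i : Fin s, max 0 (Real.log (sz W (fam h e qa pc n c (Sum.inr i)))) ≤
      ((n + 1 : ℕ) : ℝ) * (s * lp W h) + ((n + 1 : ℕ) : ℝ) * ∑ i, lp W (pc i) := by
    refine (Finset.sum_le_sum fun i _ => h2 i).trans ?_
    simp only [Finset.sum_add_distrib, Finset.sum_const, Finset.card_univ, Fintype.card_fin,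
      nsmul_eq_mul]
    have h5 : 0 ≤ ∑ i, lp W (pc i) := Finset.sum_nonneg fun i _ => detW_lp_nonneg W _
    have h6 : (1 : ℝ) ≤ ((n + 1 : ℕ) : ℝ) := by
      push_cast
      have : (0 : ℝ) ≤ n := Nat.cast_nonneg n
      linarith
    nlinarith
  refine (add_le_add h3 h4).trans (le_of_eq ?_)
  ring

end Pool.Agent.Helper45.NZ

end

section

namespace Pool.Agent.Helper29.TG
end Pool.Agent.Helper29.TG

/-!
# Project NZ: values at roots of unity

For some root of unity `ζ` of order `n` the absolute value of the value is at least the maximum of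
the absolute values of the coefficients (coefficients are averages of values over the roots of
unity of order `n > deg P`; `n = deg P + 1` or `n = deg P + 2` is a unit for nonarchimedean `W`).
-/

set_option autoImplicit false

namespace Pool.Agent.Helper45.NZ

open Pool.Agent.Helper29.TG (nm)

variable {A : Type} [Field A] [IsAlgClosed A] [CharZero A] {W : AbsoluteValue A ℝ}

theorem ZetaA_prim {n : ℕ} (hn : 0 < n) : ∃ z : A, IsPrimitiveRoot z n := by
  have hz : NeZero (n : A) := ⟨Nat.cast_ne_zero.2 hn.ne'⟩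
  obtain ⟨z, hz'⟩ := IsAlgClosed.exists_root (Polynomial.cyclotomic n A) (by
    rw [Polynomial.degree_cyclotomic]
    exact_mod_cast (Nat.totient_pos.2 hn).ne')
  exact ⟨z, Polynomial.isRoot_cyclotomic_iff.1 hz'⟩

omit [IsAlgClosed A] [CharZero A] in
theorem ZetaA_sum {n : ℕ} {z : A} (hz : IsPrimitiveRoot z n) (P : Polynomial A)
    (hP : P.natDegree < n) {j : ℕ} (hj : j < n) :
    ∑ i ∈ Finset.range n, P.eval (z ^ i) * ((z ^ i) ^ j)⁻¹ = n * P.coeff j := by
  have hz0 : z ≠ 0 := hz.ne_zero (by omega)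
  have h1 : ∀ i, P.eval (z ^ i) * ((z ^ i) ^ j)⁻¹ =
      ∑ k ∈ Finset.range n, P.coeff k * (z ^ k * (z ^ j)⁻¹) ^ i := by
    intro i
    rw [Polynomial.eval_eq_sum_range' hP, Finset.sum_mul]
    refine Finset.sum_congr rfl fun k _ => ?_
    rw [mul_pow, inv_pow, ← pow_mul, ← pow_mul, ← pow_mul, ← pow_mul, mul_comm i k, mul_comm i j]
    ring
  simp only [h1]
  rw [Finset.sum_comm]
  have h2 : ∀ k ∈ Finset.range n, ∑ i ∈ Finset.range n, P.coeff k * (z ^ k * (z ^ j)⁻¹) ^ i =
      if k = j then (n : A) * P.coeff j else 0 := by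
    intro k hk
    rw [← Finset.mul_sum]
    split_ifs with h
    · rw [h, mul_inv_cancel₀ (pow_ne_zero j hz0)]
      simp
      ring
    · have h3 : z ^ k * (z ^ j)⁻¹ ≠ 1 := by
        intro h4
        have h5 : z ^ k = z ^ j := by
          field_simp at h4
          exact h4
        exact h (hz.pow_inj (Finset.mem_range.1 hk) hj h5)
      have h6 := geom_sum_mul (z ^ k * (z ^ j)⁻¹) n
      have h7 : (z ^ k * (z ^ j)⁻¹) ^ n = 1 := by
        rw [mul_pow, inv_pow, ← pow_mul, ← pow_mul, mul_comm k n, mul_comm j n, pow_mul, pow_mul,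
          hz.pow_eq_one, one_pow, one_pow, inv_one, mul_one]
      rw [h7, sub_self] at h6
      rcases mul_eq_zero.1 h6 with h8 | h8
      · rw [h8, mul_zero]
      · exact absurd (sub_eq_zero.1 h8) h3
  rw [Finset.sum_congr rfl h2, Finset.sum_ite_eq', if_pos (Finset.mem_range.2 hj)]

omit [IsAlgClosed A] [CharZero A] in
theorem ZetaA_one {n : ℕ} (hn : 0 < n) {z : A} (hz : z ^ n = 1) : W z = 1 := by
  have h1 : W z ^ n = 1 := by rw [← map_pow, hz, map_one]
  exact (pow_eq_one_iff_of_nonneg (W.nonneg z) hn.ne').1 h1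

omit [IsAlgClosed A] [CharZero A] in
theorem ZetaA_na (hW : IsNonarchimedean W) {s : Finset ℕ} {f : ℕ → A} {M : ℝ} (hM : 0 ≤ M)
    (h : ∀ i ∈ s, W (f i) ≤ M) : W (∑ i ∈ s, f i) ≤ M := by
  classical
  induction s using Finset.induction_on with
  | empty => simpa using hM
  | insert a s ha ih =>
    rw [Finset.sum_insert ha]
    exact (hW _ _).trans (max_le (h a (Finset.mem_insert_self a s))
      (ih fun i hi => h i (Finset.mem_insert_of_mem hi)))

omit [IsAlgClosed A] [CharZero A] in
theorem ZetaA_nat (hW : IsNonarchimedean W) (N : ℕ) : W (N : A) = 1 ∨ W ((N + 1 : ℕ) : A) = 1 := by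
  have hle : ∀ n : ℕ, W (n : A) ≤ 1 := by
    intro n
    have h1 : (n : A) = ∑ _i ∈ Finset.range n, (1 : A) := by simp
    rw [h1]
    exact ZetaA_na hW zero_le_one fun i _ => (map_one W).le
  have h2 := hW ((N + 1 : ℕ) : A) (-(N : A))
  have h3 : ((N + 1 : ℕ) : A) + -(N : A) = 1 := by push_cast; ring
  rw [h3, map_one, map_neg_eq_map] at h2
  rcases le_max_iff.1 h2 with h | h
  · exact Or.inr (le_antisymm (hle _) h)
  · exact Or.inl (le_antisymm (hle _) h)

/-- The maximum of the absolute values of the coefficients is attained at a root of unity. -/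
theorem exists_zeta (hW : Pl W) (P : Polynomial A) :
    ∃ ζ : A, W ζ = 1 ∧ ∀ j, W (P.coeff j) ≤ W (P.eval ζ) := by
  have hn : ∃ n : ℕ, P.natDegree < n ∧ ∀ (f : ℕ → A) (M : ℝ) (c : A), 0 ≤ M →
      (∀ i ∈ Finset.range n, W (f i) ≤ M) → ∑ i ∈ Finset.range n, f i = n * c → W c ≤ M := by
    rcases hW with hW | ⟨τ, hτ⟩
    · have key : ∀ n : ℕ, P.natDegree < n → W (n : A) = 1 → ∃ n : ℕ, P.natDegree < n ∧
          ∀ (f : ℕ → A) (M : ℝ) (c : A), 0 ≤ M →
          (∀ i ∈ Finset.range n, W (f i) ≤ M) → ∑ i ∈ Finset.range n, f i = n * c →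
            W c ≤ M := by
        intro n h1 h2
        refine ⟨n, h1, fun f M c hM hf hs => ?_⟩
        have h3 := ZetaA_na hW hM hf
        rwa [hs, map_mul, h2, one_mul] at h3
      rcases ZetaA_nat hW (P.natDegree + 1) with h | h
      · exact key _ (by omega) h
      · exact key _ (by omega) h
    · refine ⟨P.natDegree + 1, by omega, fun f M c _ hf hs => ?_⟩
      have h1 := W.sum_le (Finset.range (P.natDegree + 1)) f
      have h2 := h1.trans (Finset.sum_le_card_nsmul _ _ M hf)
      rw [hs, map_mul, Finset.card_range, nsmul_eq_mul, hτ ((P.natDegree + 1 : ℕ) : A),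
        map_natCast, Complex.norm_natCast] at h2
      exact le_of_mul_le_mul_left h2 (by positivity)
  obtain ⟨n, h1, h2⟩ := hn
  have hn0 : 0 < n := by omega
  obtain ⟨z, hz⟩ := ZetaA_prim (A := A) hn0
  obtain ⟨i₀, hi₀, hmax⟩ := Finset.exists_max_image (Finset.range n)
    (fun i => W (P.eval (z ^ i))) ⟨0, Finset.mem_range.2 hn0⟩
  have hzi : ∀ i, W (z ^ i) = 1 := fun i => by
    rw [map_pow, ZetaA_one hn0 hz.pow_eq_one, one_pow]
  refine ⟨z ^ i₀, hzi i₀, fun j => ?_⟩
  by_cases hj : j < n
  · refine h2 _ _ _ (W.nonneg _) (fun i hi => ?_) (ZetaA_sum hz P h1 hj)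
    rw [map_mul, map_inv₀, map_pow, hzi i, one_pow, inv_one, mul_one]
    exact hmax i hi
  · rw [Polynomial.coeff_eq_zero_of_natDegree_lt (by omega), map_zero]
    exact W.nonneg _

end Pool.Agent.Helper45.NZ

end

section

namespace Pool.Agent.Helper29.TG
end Pool.Agent.Helper29.TG

/-!
# Project NZ: norms of linear polynomials and the coefficients of their product

Gauss's lemma (`Polynomial.gaussNorm_mul`) for nonarchimedean `W`, and Mahler measures
(`Polynomial.mahlerMeasure_mul`, `Polynomial.norm_coeff_le_choose_mul_mahlerMeasure`,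
`Polynomial.mahlerMeasure_le_sum_norm_coeff`) over `ℂ`:
`∏ nm (u i) ≤ ∏ 2 ^ ν M(p_i) = 2 ^ (ν t) M(P) ≤ 2 ^ (ν t) (ν t + 1) max ≤ 4 ^ (ν t) max`.
-/

set_option autoImplicit false

namespace Pool.Agent.Helper45.NZ

open Pool.Agent.Helper29.TG (nm)

variable {A : Type} [Field A] {W : AbsoluteValue A ℝ}

/-- The coefficients of the polynomial with given coefficients. -/
theorem zb_coeff {ν : ℕ} (x : Fin (ν + 1) → A) (a : Fin (ν + 1)) :
    (∑ b : Fin (ν + 1), Polynomial.C (x b) * Polynomial.X ^ (b : ℕ)).coeff (a : ℕ) = x a := by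
  rw [Polynomial.finsetSum_coeff, Finset.sum_eq_single a]
  · simp
  · intro b _ hb
    rw [Polynomial.coeff_C_mul_X_pow, if_neg]
    intro h
    exact hb (Fin.ext h.symm)
  · intro h
    exact absurd (Finset.mem_univ a) h

theorem zb_deg {ν : ℕ} (x : Fin (ν + 1) → A) :
    (∑ b : Fin (ν + 1), Polynomial.C (x b) * Polynomial.X ^ (b : ℕ)).natDegree ≤ ν := by
  refine Polynomial.natDegree_sum_le_of_forall_le _ _ (fun b _ => ?_)
  exact (Polynomial.natDegree_C_mul_X_pow_le _ _).trans (by omega)

theorem zb_na (h : IsNonarchimedean W) {ν t : ℕ} (u : Fin t → Fin (ν + 1) → A) :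
    ∃ j : ℕ, ∏ i, nm W (u i) ≤
      W ((∏ i, ∑ a : Fin (ν + 1), Polynomial.C (u i a) * Polynomial.X ^ (a : ℕ)).coeff j) := by
  set p : Fin t → Polynomial A :=
    fun i => ∑ a : Fin (ν + 1), Polynomial.C (u i a) * Polynomial.X ^ (a : ℕ) with hp
  have h1 : ∀ i, nm W (u i) ≤ (p i).gaussNorm W 1 := by
    intro i
    refine Pool.Agent.Helper29.TG.nm_le ((p i).gaussNorm_nonneg W zero_le_one) (fun a => ?_)
    have := (p i).le_gaussNorm W (zero_le_one : (0 : ℝ) ≤ 1) (a : ℕ)
    rw [one_pow, mul_one] at this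
    have h2 : (p i).coeff (a : ℕ) = u i a := zb_coeff (u i) a
    rwa [h2] at this
  have h3 : ∀ s : Finset (Fin t),
      ∏ i ∈ s, (p i).gaussNorm W 1 = (∏ i ∈ s, p i).gaussNorm W 1 := by
    intro s
    induction s using Finset.induction_on with
    | empty =>
      have : (1 : Polynomial A) = Polynomial.C 1 := by simp
      rw [Finset.prod_empty, Finset.prod_empty, this, Polynomial.gaussNorm_C, map_one]
    | insert i s hi ih =>
      rw [Finset.prod_insert hi, Finset.prod_insert hi, ih,
        Polynomial.gaussNorm_mul h one_pos]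
  obtain ⟨j, hj⟩ := Polynomial.exists_eq_gaussNorm W 1 (∏ i, p i)
  refine ⟨j, ?_⟩
  rw [one_pow, mul_one] at hj
  rw [← hj, ← h3]
  exact Finset.prod_le_prod (fun i _ => Pool.Agent.Helper29.TG.nm_nonneg W (u i))
    (fun i _ => h1 i)

theorem zb_ar {τ : A →+* ℂ} (hτ : ∀ a, W a = ‖τ a‖) {ν t : ℕ} (u : Fin t → Fin (ν + 1) → A) :
    ∃ j : ℕ, ∏ i, nm W (u i) ≤ (4 : ℝ) ^ (t * ν) *
      W ((∏ i, ∑ a : Fin (ν + 1), Polynomial.C (u i a) * Polynomial.X ^ (a : ℕ)).coeff j) := by
  set p : Fin t → Polynomial A :=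
    fun i => ∑ a : Fin (ν + 1), Polynomial.C (u i a) * Polynomial.X ^ (a : ℕ) with hp
  have h1 : ∀ i, nm W (u i) ≤ (2 : ℝ) ^ ν * ((p i).map τ).mahlerMeasure := by
    intro i
    have hM := ((p i).map τ).mahlerMeasure_nonneg
    refine Pool.Agent.Helper29.TG.nm_le (by positivity) (fun a => ?_)
    have h2 : ((p i).map τ).coeff (a : ℕ) = τ (u i a) := by
      rw [Polynomial.coeff_map]
      exact congrArg τ (zb_coeff (u i) a)
    rw [hτ, ← h2]
    refine (Polynomial.norm_coeff_le_choose_mul_mahlerMeasure (a : ℕ) ((p i).map τ)).trans ?_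
    refine mul_le_mul_of_nonneg_right ?_ hM
    have h4 : ((p i).map τ).natDegree ≤ ν :=
      (Polynomial.natDegree_map_le).trans (zb_deg (u i))
    have h5 : ((p i).map τ).natDegree.choose (a : ℕ) ≤ 2 ^ ν :=
      (Nat.choose_le_two_pow _ _).trans (Nat.pow_le_pow_right (by norm_num) h4)
    exact_mod_cast h5
  have h3 : ∀ s : Finset (Fin t),
      ∏ i ∈ s, ((p i).map τ).mahlerMeasure = ((∏ i ∈ s, p i).map τ).mahlerMeasure := by
    intro s
    induction s using Finset.induction_on with
    | empty =>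
      rw [Finset.prod_empty, Finset.prod_empty, Polynomial.map_one,
        Polynomial.mahlerMeasure_one]
    | insert i s hi ih =>
      rw [Finset.prod_insert hi, Finset.prod_insert hi, ih, Polynomial.map_mul,
        Polynomial.mahlerMeasure_mul]
  set Q : Polynomial ℂ := (∏ i, p i).map τ with hQ
  have hdeg : Q.natDegree ≤ t * ν := by
    refine (Polynomial.natDegree_map_le).trans ?_
    refine (Polynomial.natDegree_prod_le _ _).trans ?_
    have : ∑ i : Fin t, (p i).natDegree ≤ ∑ _i : Fin t, ν :=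
      Finset.sum_le_sum (fun i _ => zb_deg (u i))
    simpa using this
  obtain ⟨j, -, hj⟩ := Finset.exists_max_image (Finset.range (t * ν + 1))
    (fun n => ‖Q.coeff n‖) ⟨0, by simp⟩
  refine ⟨j, ?_⟩
  have h6 : Q.mahlerMeasure ≤ (2 : ℝ) ^ (t * ν) * ‖Q.coeff j‖ := by
    refine (Polynomial.mahlerMeasure_le_sum_norm_coeff Q).trans ?_
    rw [Polynomial.sum_over_range' Q (fun _ => norm_zero) (t * ν + 1) (by omega)]
    refine (Finset.sum_le_sum (fun n hn => hj n hn)).trans ?_
    rw [Finset.sum_const, Finset.card_range, nsmul_eq_mul]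
    refine mul_le_mul_of_nonneg_right ?_ (norm_nonneg _)
    have : t * ν + 1 ≤ 2 ^ (t * ν) := Nat.lt_two_pow_self
    exact_mod_cast this
  have h7 : W ((∏ i, p i).coeff j) = ‖Q.coeff j‖ := by
    rw [hQ, Polynomial.coeff_map, hτ]
  rw [h7]
  calc ∏ i, nm W (u i) ≤ ∏ i : Fin t, ((2 : ℝ) ^ ν * ((p i).map τ).mahlerMeasure) :=
        Finset.prod_le_prod (fun i _ => Pool.Agent.Helper29.TG.nm_nonneg W (u i))
          (fun i _ => h1 i)
    _ = (2 : ℝ) ^ (t * ν) * Q.mahlerMeasure := by
        rw [Finset.prod_mul_distrib, h3, Finset.prod_const, Finset.card_univ, Fintype.card_fin,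
          ← pow_mul, mul_comm ν t]
    _ ≤ (2 : ℝ) ^ (t * ν) * ((2 : ℝ) ^ (t * ν) * ‖Q.coeff j‖) :=
        mul_le_mul_of_nonneg_left h6 (by positivity)
    _ = (4 : ℝ) ^ (t * ν) * ‖Q.coeff j‖ := by
        rw [← mul_assoc, ← mul_pow]
        norm_num

theorem prod_le_coeff (hW : Pl W) {ν t : ℕ} (u : Fin t → Fin (ν + 1) → A) :
    ∃ j : ℕ, ∏ i, nm W (u i) ≤ Real.exp (kap W * (t * (ν * Real.log 4))) *
      W ((∏ i, ∑ a : Fin (ν + 1), Polynomial.C (u i a) * Polynomial.X ^ (a : ℕ)).coeff j) := by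
  by_cases h : IsNonarchimedean W
  · obtain ⟨j, hj⟩ := zb_na h u
    refine ⟨j, ?_⟩
    have hk : kap W = 0 := by
      unfold kap
      exact if_pos h
    rw [hk, zero_mul, Real.exp_zero, one_mul]
    exact hj
  · obtain ⟨τ, hτ⟩ := hW.resolve_left h
    obtain ⟨j, hj⟩ := zb_ar hτ u
    refine ⟨j, ?_⟩
    have hk : kap W = 1 := by
      unfold kap
      exact if_neg h
    have he : Real.exp (kap W * (t * (ν * Real.log 4))) = (4 : ℝ) ^ (t * ν) := by
      rw [hk, one_mul, ← mul_assoc, ← Nat.cast_mul, mul_comm, Real.exp_mul, Real.exp_log (by norm_num),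
        Real.rpow_natCast]
    rw [he]
    exact hj

end Pool.Agent.Helper45.NZ

end

section

namespace Pool.Agent.Helper29.TG
end Pool.Agent.Helper29.TG

/-!
# Project NZ: a linear form which is large at finitely many points

The linear form is `∑ ζ ^ a X_a`, where `ζ` is a root of unity of order `n > ν t`. The product of
the values at the points `u i` is the value at `ζ` of the product `P` of the polynomials
`∑ u i a T ^ a`.
-/

set_option autoImplicit false

namespace Pool.Agent.Helper45.NZ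

open Pool.Agent.Helper29.TG (nm)

variable {A : Type} [Field A] [IsAlgClosed A] [CharZero A] {W : AbsoluteValue A ℝ}

theorem exists_choice (hW : Pl W) {ν t : ℕ} (u : Fin t → Fin (ν + 1) → A) (hu : ∀ i, u i ≠ 0) :
    ∃ c : Fin (ν + 1) → A, (∀ a, W (c a) ≤ 1) ∧ (∏ i, ∑ a, c a * u i a) ≠ 0 ∧
      ∑ i, Real.log (nm W (u i)) ≤
        Real.log (W (∏ i, ∑ a, c a * u i a)) + kap W * (t * (ν * Real.log 4)) := by
  obtain ⟨j, hj⟩ := prod_le_coeff hW u
  obtain ⟨ζ, hζ, h1⟩ := exists_zeta hW
    (∏ i, ∑ a : Fin (ν + 1), Polynomial.C (u i a) * Polynomial.X ^ (a : ℕ))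
  have h2 : (∏ i, ∑ a : Fin (ν + 1), Polynomial.C (u i a) * Polynomial.X ^ (a : ℕ)).eval ζ =
      ∏ i, ∑ a : Fin (ν + 1), ζ ^ (a : ℕ) * u i a := by
    rw [Polynomial.eval_prod]
    refine Finset.prod_congr rfl fun i _ => ?_
    rw [Polynomial.eval_finsetSum]
    refine Finset.sum_congr rfl fun a _ => ?_
    rw [Polynomial.eval_mul, Polynomial.eval_C, Polynomial.eval_pow, Polynomial.eval_X, mul_comm]
  have hpos : ∀ i, 0 < nm W (u i) := fun i => Pool.Agent.Helper29.TG.nm_pos W (hu i)
  have hprod : 0 < ∏ i, nm W (u i) := Finset.prod_pos fun i _ => hpos i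
  have h3 : ∏ i, nm W (u i) ≤ Real.exp (kap W * (t * (ν * Real.log 4))) *
      W (∏ i, ∑ a : Fin (ν + 1), ζ ^ (a : ℕ) * u i a) := by
    rw [← h2]
    exact hj.trans (mul_le_mul_of_nonneg_left (h1 j) (Real.exp_pos _).le)
  have hW0 : 0 < W (∏ i, ∑ a : Fin (ν + 1), ζ ^ (a : ℕ) * u i a) := by
    by_contra hcon
    push Not at hcon
    have h4 := hprod.trans_le (h3.trans
      (mul_le_mul_of_nonneg_left hcon (Real.exp_pos _).le))
    rw [mul_zero] at h4
    exact lt_irrefl _ h4
  refine ⟨fun a => ζ ^ (a : ℕ), fun a => ?_, ?_, ?_⟩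
  · rw [map_pow, hζ, one_pow]
  · intro h0
    rw [h0, map_zero] at hW0
    exact lt_irrefl _ hW0
  · have h5 := Real.log_le_log hprod h3
    rw [Real.log_mul (Real.exp_pos _).ne' hW0.ne', Real.log_exp,
      Real.log_prod fun i _ => (hpos i).ne'] at h5
    linarith

end Pool.Agent.Helper45.NZ

end

section

namespace Pool.Agent.Helper29.TG
end Pool.Agent.Helper29.TG

/-!
# Project NZ: the absolute height
-/

set_option autoImplicit false

namespace Pool.Agent.Helper45.NZ

open MvPolynomial Height AdmissibleAbsValues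
open Pool.Agent.Helper29.TG (nm ls FS Mem)

variable {A : Type} [Field A] [CharZero A]

/-- A finite subextension of `A` which is contained in the image of the number field `M`. -/
theorem Aht_embed {M : Type} [Field M] [NumberField M] [Algebra M A]
    (L : IntermediateField ℚ A) (hL : ∀ l ∈ L, ∃ m : M, algebraMap M A m = l) :
    ∃ ψ : L →ₐ[ℚ] M, ∀ l : L, algebraMap M A (ψ l) = l := by
  let φ : M →ₐ[ℚ] A := (algebraMap M A).toRatAlgHom
  have hφ : ∀ m, φ m = algebraMap M A m := fun m => rfl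
  have h1 : L ≤ φ.fieldRange := by
    intro l hl
    obtain ⟨m, hm⟩ := hL l hl
    exact ⟨m, hm⟩
  let e : M ≃ₐ[ℚ] φ.fieldRange := AlgEquiv.ofInjectiveField φ
  refine ⟨(e.symm : φ.fieldRange →ₐ[ℚ] M).comp (IntermediateField.inclusion h1), fun l => ?_⟩
  have h2 : ((e (e.symm (IntermediateField.inclusion h1 l)) : φ.fieldRange) : A) =
      ((IntermediateField.inclusion h1 l : φ.fieldRange) : A) := by
    rw [AlgEquiv.apply_symm_apply]
  exact h2

/-- The absolute height can be computed in any number field which contains the coordinates. -/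
theorem aht_map {M : Type} [Field M] [NumberField M] [Algebra M A] {ι : Type} [Finite ι]
    (x : ι → M) :
    aht (fun i => algebraMap M A (x i)) = logHeight x / (Module.finrank ℚ M : ℝ) := by
  classical
  set y : ι → A := fun i => algebraMap M A (x i) with hy
  have hint : ∀ m : M, IsIntegral ℚ (algebraMap M A m) := by
    intro m
    have h1 : IsIntegral ℚ m := Algebra.IsIntegral.isIntegral m
    exact h1.map ((algebraMap M A).toRatAlgHom)
  have hfd : FiniteDimensional ℚ (IntermediateField.adjoin ℚ (Set.range y)) := by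
    have : Finite (Set.range y) := Set.finite_range y
    refine IntermediateField.finiteDimensional_adjoin ?_
    rintro _ ⟨i, rfl⟩
    exact hint (x i)
  have hL : ∀ l ∈ IntermediateField.adjoin ℚ (Set.range y), ∃ m : M, algebraMap M A m = l := by
    have h1 : IntermediateField.adjoin ℚ (Set.range y) ≤
        ((algebraMap M A).toRatAlgHom : M →ₐ[ℚ] A).fieldRange := by
      rw [IntermediateField.adjoin_le_iff]
      rintro _ ⟨i, rfl⟩
      exact ⟨x i, rfl⟩
    intro l hl
    obtain ⟨m, hm⟩ := h1 hl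
    exact ⟨m, hm⟩
  obtain ⟨ψ, hψ⟩ := Aht_embed (M := M) _ hL
  unfold aht
  rw [dif_pos hfd]
  have : NumberField (IntermediateField.adjoin ℚ (Set.range y)) :=
    { to_charZero := inferInstance, to_finiteDimensional := hfd }
  let _ : Algebra (IntermediateField.adjoin ℚ (Set.range y)) M := ψ.toRingHom.toAlgebra
  have : IsScalarTower ℚ (IntermediateField.adjoin ℚ (Set.range y)) M :=
    IsScalarTower.of_algebraMap_eq fun q => (ψ.commutes q).symm
  have h2 := logHeight_map (M := M) (fun i => (⟨y i, IntermediateField.subset_adjoin ℚ _ ⟨i, rfl⟩⟩ :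
      IntermediateField.adjoin ℚ (Set.range y)))
  have h3 : (fun i => algebraMap (IntermediateField.adjoin ℚ (Set.range y)) M
      (⟨y i, IntermediateField.subset_adjoin ℚ _ ⟨i, rfl⟩⟩ :
      IntermediateField.adjoin ℚ (Set.range y))) = x := by
    funext i
    apply (algebraMap M A).injective
    exact hψ _
  rw [h3] at h2
  have h4 := Module.finrank_mul_finrank ℚ (IntermediateField.adjoin ℚ (Set.range y)) M
  have h5 : (Module.finrank ℚ (IntermediateField.adjoin ℚ (Set.range y)) : ℝ) ≠ 0 := by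
    have := Module.finrank_pos (R := ℚ) (M := IntermediateField.adjoin ℚ (Set.range y))
    positivity
  have h6 : (Module.finrank (IntermediateField.adjoin ℚ (Set.range y)) M : ℝ) ≠ 0 := by
    have h7 : 0 < Module.finrank ℚ M := Module.finrank_pos
    rw [← h4] at h7
    have h8 := Nat.pos_of_mul_pos_left h7
    positivity
  rw [h2, ← h4]
  push_cast
  field_simp

/-- Finitely many elements are in a number field. -/
theorem exists_field [Algebra.IsAlgebraic ℚ A] {τ : Type} [Finite τ] (a : τ → A) :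
    ∃ (M : Type) (_ : Field M) (_ : NumberField M) (_ : Algebra M A) (α : τ → M),
      ∀ i, algebraMap M A (α i) = a i := by
  have hfd : FiniteDimensional ℚ (IntermediateField.adjoin ℚ (Set.range a)) := by
    have : Finite (Set.range a) := Set.finite_range a
    refine IntermediateField.finiteDimensional_adjoin ?_
    rintro _ ⟨i, rfl⟩
    exact Algebra.IsIntegral.isIntegral (a i)
  exact ⟨IntermediateField.adjoin ℚ (Set.range a), inferInstance,
    { to_charZero := inferInstance, to_finiteDimensional := hfd }, inferInstance,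
    fun i => ⟨a i, IntermediateField.subset_adjoin ℚ _ ⟨i, rfl⟩⟩, fun i => rfl⟩

theorem aht_nonneg [Algebra.IsAlgebraic ℚ A] {ι : Type} [Finite ι] (x : ι → A) : 0 ≤ aht x := by
  obtain ⟨M, _, _, _, α, hα⟩ := exists_field x
  have h : x = fun i => algebraMap M A (α i) := funext fun i => (hα i).symm
  rw [h, aht_map]
  exact div_nonneg (logHeight_nonneg _) (Nat.cast_nonneg _)

theorem aht_smul [Algebra.IsAlgebraic ℚ A] {ι : Type} [Finite ι] {c : A} (hc : c ≠ 0)
    (x : ι → A) : aht (fun i => c * x i) = aht x := by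
  obtain ⟨M, _, _, _, α, hα⟩ := exists_field (fun o : Option ι => o.elim c x)
  have h : x = fun i => algebraMap M A (α (some i)) := funext fun i => (hα (some i)).symm
  have h1 : algebraMap M A (α none) = c := hα none
  have h2 : (fun i => c * x i) = fun i => algebraMap M A ((α none • fun i => α (some i)) i) := by
    funext i
    rw [h]
    simp [h1]
  have h3 : α none ≠ 0 := by
    intro h4
    rw [h4, map_zero] at h1
    exact hc h1.symm
  rw [h2, aht_map, logHeight_smul_eq_logHeight _ h3, h, aht_map]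

end Pool.Agent.Helper45.NZ

end

section

namespace Pool.Agent.Helper29.TG
end Pool.Agent.Helper29.TG

/-!
# Project NZ: extension of the absolute values of a number field
-/

set_option autoImplicit false

namespace Pool.Agent.Helper45.NZ

open MvPolynomial Height AdmissibleAbsValues
open Pool.Agent.Helper29.TG (nm ls FS Mem)

/-- An absolute value given by an embedding in the complex numbers is not nonarchimedean. -/
theorem ext_not_na {B : Type} [Field B] {W : AbsoluteValue B ℝ} {τ : B →+* ℂ}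
    (h : ∀ a, W a = ‖τ a‖) : ¬ IsNonarchimedean W := by
  intro hna
  have h1 : W ((1 : B) + 1) ≤ max (W 1) (W 1) := hna 1 1
  rw [max_self, map_one, h, map_add, map_one] at h1
  have h2 : ‖(1 : ℂ) + 1‖ = 2 := by norm_num
  rw [h2] at h1
  norm_num at h1

variable {A : Type} [Field A] [CharZero A] {M : Type} [Field M] [NumberField M] [Algebra M A]

omit [CharZero A] [Algebra M A] in
theorem ext_arch_place {v : AbsoluteValue M ℝ} (hv : v ∈ archAbsVal (K := M)) :
    ∃ φ : M →+* ℂ, ∀ a, v a = ‖φ a‖ := by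
  have hv' : v ∈ NumberField.multisetInfinitePlace M := hv
  rw [NumberField.mem_multisetInfinitePlace] at hv'
  obtain ⟨φ, hφ⟩ := hv'
  exact ⟨φ, fun a => by rw [← hφ]; rfl⟩

/-- The absolute values of a number field extend to the algebraic numbers. -/
theorem exists_ext [Algebra.IsAlgebraic ℚ A] {v : AbsoluteValue M ℝ} (hv : Mem v) :
    ∃ W : AbsoluteValue A ℝ, Pl W ∧ (∀ a : M, W (algebraMap M A a) = v a) ∧
      (IsNonarchimedean v ↔ IsNonarchimedean W) := by
  have halg : Algebra.IsAlgebraic M A := Algebra.IsAlgebraic.tower_top (K := ℚ) M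
  rcases hv with hv | hv
  · obtain ⟨φ, hφ⟩ := ext_arch_place hv
    let _ : Algebra M ℂ := φ.toAlgebra
    let τ : A →ₐ[M] ℂ := IsAlgClosed.lift
    refine ⟨NumberField.place τ.toRingHom, Or.inr ⟨τ.toRingHom, fun a => rfl⟩, fun a => ?_,
      iff_of_false (ext_not_na hφ) (ext_not_na (τ := τ.toRingHom) fun a => rfl)⟩
    change ‖τ (algebraMap M A a)‖ = v a
    rw [τ.commutes, hφ]
    rfl
  · have hvna := isNonarchimedean v hv
    have hv' : NumberField.IsFinitePlace v := hv
    set w : NumberField.FinitePlace M := ⟨v, hv'⟩ with hw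
    set P := w.maximalIdeal with hPdef
    have hwP : NumberField.FinitePlace.mk P = w := NumberField.FinitePlace.mk_maximalIdeal w
    obtain ⟨p, hp, hpP⟩ := Pool.Agent.Helper85.Sub.exists_prime_mem P
    have hpf : Fact p.Prime := ⟨hp⟩
    obtain ⟨n, hn0, ⟨σ₀, hσ₀⟩, -, hall⟩ := Pool.Agent.Helper85.Sub.card_fiber (p := p) P hpP
    have hvσ : ∀ x : M, v x = ‖σ₀ x‖ ^ n := by
      intro x
      have h1 := hall σ₀ hσ₀ x
      rw [hwP] at h1
      exact h1
    let _ : Algebra M (PadicAlgCl p) := σ₀.toAlgebra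
    let τ : A →ₐ[M] PadicAlgCl p := IsAlgClosed.lift
    have hna : ∀ x y : PadicAlgCl p, ‖x + y‖ ≤ max ‖x‖ ‖y‖ := PadicAlgCl.isNonarchimedean p
    have hW := Pool.Agent.Helper88.ZN.powAbs_na τ.toRingHom n hn0 hna
    refine ⟨Pool.Agent.Helper88.ZN.powAbs τ.toRingHom n hn0 hna, Or.inl hW, fun a => ?_,
      iff_of_true hvna hW⟩
    change ‖τ (algebraMap M A a)‖ ^ n = v a
    rw [τ.commutes, hvσ]
    rfl

/-- The nonarchimedean ones among the absolute values of a number field. -/
theorem kap_arch {v : AbsoluteValue M ℝ} (hv : v ∈ archAbsVal (K := M)) : kap v = 1 := by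
  obtain ⟨φ, hφ⟩ := ext_arch_place hv
  unfold kap
  rw [if_neg (ext_not_na hφ)]

theorem kap_nonarch {v : AbsoluteValue M ℝ} (hv : v ∈ nonarchAbsVal (K := M)) : kap v = 0 := by
  unfold kap
  rw [if_pos (isNonarchimedean v hv)]

omit [NumberField M] [CharZero A] in
theorem kap_ext {v : AbsoluteValue M ℝ} {W : AbsoluteValue A ℝ}
    (h2 : IsNonarchimedean v ↔ IsNonarchimedean W) : kap W = kap v := by
  unfold kap
  by_cases h : IsNonarchimedean W
  · rw [if_pos h, if_pos (h2.2 h)]
  · rw [if_neg h, if_neg (fun h' => h (h2.1 h'))]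

omit [CharZero A] [NumberField M] [Algebra M A] in
theorem ext_iSup {σ : Type} {s t : Finset (σ →₀ ℕ)} (h : s = t) (f g : (σ →₀ ℕ) → ℝ)
    (hfg : ∀ m, f m = g m) : (⨆ m : s, f m) = ⨆ m : t, g m := by
  subst h
  exact iSup_congr fun m => hfg m

omit [NumberField M] [CharZero A] in
theorem lp_ext {σ : Type} {v : AbsoluteValue M ℝ} {W : AbsoluteValue A ℝ}
    (h1 : ∀ a : M, W (algebraMap M A a) = v a) (h2 : IsNonarchimedean v ↔ IsNonarchimedean W)
    (G : MvPolynomial σ M) : lp W (map (algebraMap M A) G) = lp v G := by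
  have hs : (map (algebraMap M A) G).support = G.support :=
    support_map_of_injective _ (algebraMap M A).injective
  have hc : ∀ m, W ((map (algebraMap M A) G).coeff m) = v (G.coeff m) := fun m => by
    rw [coeff_map, h1]
  have : sz W (map (algebraMap M A) G) = sz v G := by
    unfold sz
    by_cases h : IsNonarchimedean W
    · rw [if_pos h, if_pos (h2.2 h)]
      exact ext_iSup hs _ _ hc
    · rw [if_neg h, if_neg (fun h' => h (h2.1 h')), hs]
      exact Finset.sum_congr rfl fun m _ => hc m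
  rw [lp, lp, this]

omit [NumberField M] [CharZero A] in
theorem nm_ext {ι : Type} {v : AbsoluteValue M ℝ} {W : AbsoluteValue A ℝ}
    (h1 : ∀ a : M, W (algebraMap M A a) = v a) (x : ι → M) :
    nm W (fun i => algebraMap M A (x i)) = nm v x := by
  unfold nm
  exact iSup_congr fun i => h1 (x i)

end Pool.Agent.Helper45.NZ

end

section

namespace Pool.Agent.Helper29.TG
end Pool.Agent.Helper29.TG

/-!
# Project NZ: the height of a polynomial
-/

set_option autoImplicit false

namespace Pool.Agent.Helper45.NZ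

open MvPolynomial Height AdmissibleAbsValues
open Pool.Agent.Helper29.TG (nm ls FS Mem)

variable {A : Type} [Field A] [CharZero A] {M : Type} [Field M] [NumberField M] [Algebra M A]

theorem FS_kap : FS (fun v : AbsoluteValue M ℝ => kap v) :=
  Pool.Agent.Helper29.TG.FS.zero.congr fun _ hv => kap_nonarch hv

theorem ls_kap : ls (fun v : AbsoluteValue M ℝ => kap v) = Module.finrank ℚ M := by
  unfold ls
  have h1 : (archAbsVal (K := M)).map (fun v : AbsoluteValue M ℝ => kap v) =
      (archAbsVal (K := M)).map fun _ => (1 : ℝ) :=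
    Multiset.map_congr rfl fun v hv => kap_arch hv
  have h2 : (∑ᶠ v : nonarchAbsVal (K := M), kap v.val) = 0 := by
    rw [← finsum_zero (α := nonarchAbsVal (K := M))]
    exact finsum_congr fun v => kap_nonarch v.2
  rw [h1, h2, Multiset.map_const', Multiset.sum_replicate, nsmul_eq_mul, mul_one, add_zero,
    ← NumberField.totalWeight_eq_finrank]
  rfl

private theorem CpB_ne (c : M) : (![c, 1] : Fin 2 → M) ≠ 0 := by
  intro h
  have h1 := congrFun h 1
  simp at h1

private theorem CpB_nm (v : AbsoluteValue M ℝ) (c : M) :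
    v c ≤ nm v ![c, 1] ∧ 1 ≤ nm v ![c, 1] := by
  constructor
  · exact Pool.Agent.Helper29.TG.le_nm v ![c, 1] 0
  · have h1 := Pool.Agent.Helper29.TG.le_nm v ![c, 1] 1
    simpa using h1

private theorem CpB_lp {σ : Type} (G : MvPolynomial σ M) (v : AbsoluteValue M ℝ) :
    lp v G ≤ ∑ m ∈ G.support, Real.log (nm v ![G.coeff m, 1]) +
      Real.log (G.support.card + 1) * kap v := by
  classical
  have hlog : ∀ m, 0 ≤ Real.log (nm v ![G.coeff m, 1]) := fun m =>
    Real.log_nonneg (CpB_nm v _).2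
  have hS : 0 ≤ ∑ m ∈ G.support, Real.log (nm v ![G.coeff m, 1]) :=
    Finset.sum_nonneg fun m _ => hlog m
  have hcard : 0 ≤ Real.log (G.support.card + 1 : ℝ) := Real.log_nonneg (by
    have : (0 : ℝ) ≤ G.support.card := Nat.cast_nonneg _
    linarith)
  have hkap : 0 ≤ kap v := by
    unfold kap
    split_ifs <;> norm_num
  have hP : ∀ m ∈ G.support, v (G.coeff m) ≤
      Real.exp (∑ m ∈ G.support, Real.log (nm v ![G.coeff m, 1])) := by
    intro m hm
    refine (CpB_nm v _).1.trans ?_
    have h1 : 0 < nm v ![G.coeff m, 1] := lt_of_lt_of_le one_pos (CpB_nm v _).2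
    rw [← Real.exp_log h1]
    exact Real.exp_le_exp.2 (Finset.single_le_sum
      (f := fun m => Real.log (nm v ![G.coeff m, 1])) (fun m _ => hlog m) hm)
  unfold lp
  refine max_le (add_nonneg hS (mul_nonneg hcard hkap)) ?_
  by_cases hv : IsNonarchimedean v
  · have h1 : kap v = 0 := by
      unfold kap
      rw [if_pos hv]
    have h2 : sz v G = ⨆ m : G.support, v (G.coeff m) := by
      unfold sz
      rw [if_pos hv]
    rw [h1, mul_zero, add_zero, h2]
    have h3 : (⨆ m : G.support, v (G.coeff m)) ≤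
        Real.exp (∑ m ∈ G.support, Real.log (nm v ![G.coeff m, 1])) :=
      Real.iSup_le (fun m => hP m.1 m.2) (Real.exp_pos _).le
    rcases (Real.iSup_nonneg fun m : G.support => v.nonneg (G.coeff m)).eq_or_lt with h4 | h4
    · rw [← h4, Real.log_zero]
      exact hS
    · have h5 := Real.log_le_log h4 h3
      rwa [Real.log_exp] at h5
  · have h1 : kap v = 1 := by
      unfold kap
      rw [if_neg hv]
    have h2 : sz v G = ∑ m ∈ G.support, v (G.coeff m) := by
      unfold sz
      rw [if_neg hv]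
    rw [h1, mul_one, h2]
    have h3 : ∑ m ∈ G.support, v (G.coeff m) ≤ (G.support.card + 1 : ℝ) *
        Real.exp (∑ m ∈ G.support, Real.log (nm v ![G.coeff m, 1])) := by
      have h4 := Finset.sum_le_card_nsmul G.support (fun m => v (G.coeff m)) _ hP
      rw [nsmul_eq_mul] at h4
      have h5 := Real.exp_pos (∑ m ∈ G.support, Real.log (nm v ![G.coeff m, 1]))
      have h6 : (G.support.card : ℝ) * Real.exp (∑ m ∈ G.support,
          Real.log (nm v ![G.coeff m, 1])) ≤ (G.support.card + 1 : ℝ) *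
          Real.exp (∑ m ∈ G.support, Real.log (nm v ![G.coeff m, 1])) := by
        nlinarith
      exact h4.trans h6
    have hc1 : (0 : ℝ) < (G.support.card + 1 : ℝ) := by positivity
    rcases (Finset.sum_nonneg fun m (_ : m ∈ G.support) => v.nonneg (G.coeff m)).eq_or_lt
      with h4 | h4
    · rw [← h4, Real.log_zero]
      exact add_nonneg hS hcard
    · have h5 := Real.log_le_log h4 h3
      rw [Real.log_mul hc1.ne' (Real.exp_pos _).ne', Real.log_exp] at h5
      linarith

private theorem CpB_nonneg {σ : Type} (G : MvPolynomial σ M) (v : AbsoluteValue M ℝ) :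
    0 ≤ lp v G := le_max_left _ _

private theorem CpB_FS {σ : Type} (G : MvPolynomial σ M) :
    FS (fun v : AbsoluteValue M ℝ => ∑ m ∈ G.support, Real.log (nm v ![G.coeff m, 1])) :=
  Pool.Agent.Helper29.TG.FS.sum _ fun m _ => Pool.Agent.Helper29.TG.FS_nm (CpB_ne _)

theorem FS_lp {σ : Type} (G : MvPolynomial σ M) : FS (fun v => lp v G) := by
  refine (CpB_FS G).mono fun v hv h0 => ?_
  have h1 := CpB_lp G v
  have h2 : (∑ m ∈ G.support, Real.log (nm v ![G.coeff m, 1])) = 0 := h0
  rw [h2, kap_nonarch hv, mul_zero, add_zero] at h1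
  exact le_antisymm h1 (CpB_nonneg G v)

/-- The sum of the positive parts of the local sizes. -/
theorem ls_lp_le {σ : Type} (G : MvPolynomial σ M) :
    ls (fun v => lp v G) ≤ Module.finrank ℚ M * Cp (map (algebraMap M A) G) := by
  classical
  have hk : FS (fun v : AbsoluteValue M ℝ => Real.log (G.support.card + 1) * kap v) :=
    FS_kap.mul_left _
  have h1 := Pool.Agent.Helper29.TG.ls_mono (FS_lp G) ((CpB_FS G).add hk)
    fun v _ => CpB_lp G v
  rw [Pool.Agent.Helper29.TG.ls_add (CpB_FS G) hk, Pool.Agent.Helper29.TG.ls_mul_left, ls_kap,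
    Pool.Agent.Helper29.TG.ls_sum _ fun m _ => Pool.Agent.Helper29.TG.FS_nm (CpB_ne _)] at h1
  refine h1.trans (le_of_eq ?_)
  have hn : (Module.finrank ℚ M : ℝ) ≠ 0 := by
    exact_mod_cast (Module.finrank_pos (R := ℚ) (M := M)).ne'
  have hs : (map (algebraMap M A) G).support = G.support :=
    support_map_of_injective _ (algebraMap M A).injective
  unfold Cp
  rw [hs, mul_add, Finset.mul_sum]
  congr 1
  · refine Finset.sum_congr rfl fun m _ => ?_
    rw [Pool.Agent.Helper29.TG.ls_nm (CpB_ne _)]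
    have h2 : (![(map (algebraMap M A) G).coeff m, 1] : Fin 2 → A) =
        fun i => algebraMap M A ((![G.coeff m, 1] : Fin 2 → M) i) := by
      funext i
      fin_cases i
      · simp [coeff_map]
      · simp
    rw [h2, aht_map, mul_div_cancel₀ _ hn]
  · ring

theorem Cp_nonneg [Algebra.IsAlgebraic ℚ A] {σ : Type} (G : MvPolynomial σ A) : 0 ≤ Cp G := by
  unfold Cp
  refine add_nonneg (Finset.sum_nonneg fun m _ => aht_nonneg _) (Real.log_nonneg ?_)
  have : (0 : ℝ) ≤ G.support.card := Nat.cast_nonneg _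
  linarith

end Pool.Agent.Helper45.NZ

end
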