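import Pool.Agent.Helper29.MG2.T32
import Pool.Agent.Helper29.MG2.T28
import Pool.Agent.Helper29.MG2.T34
import Pool.Agent.Helper29.MG2.T38

section

namespace Pool.Agent.Helper16
end Pool.Agent.Helper16
namespace Pool.Agent.Helper30.TKN
end Pool.Agent.Helper30.TKN
namespace Pool.Agent.Helper38.TQ
end Pool.Agent.Helper38.TQ

/-!
# Heights in finite extensions
-/

set_option autoImplicit false

namespace Pool.Agent.Helper30.ZB

open MvPolynomial
open Pool.Agent.Helper16 (Place IsFunctionField)
open Pool.Agent.Helper38.TQ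
open Pool.Agent.Helper30.TKN

variable {ν : ℕ} {k K : Type} [Field k] [Field K] [Algebra k K]

theorem Scale_triv {M : Type} [Field M] [Algebra k M] (v : Place k M) (a : k) :
    v.val (algebraMap k M a) ≤ 1 := by
  by_cases h : a = 0
  · rw [h, map_zero, map_zero]
    exact zero_le
  · exact (v.triv a h).le

/-- The constant linear forms which are small at the point `y`. -/
noncomputable def Scale_bad {M : Type} [Field M] [Algebra k M] (v : Place k M)
    (y : Fin (ν + 1) → M) (hy : y ≠ 0) : Submodule k (Fin (ν + 1) → k) where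
  carrier := {c | v.val (∑ i, algebraMap k M (c i) * y i) < nrm v y}
  add_mem' := by
    intro a b ha hb
    have h : ∑ i, algebraMap k M ((a + b) i) * y i =
        ∑ i, algebraMap k M (a i) * y i + ∑ i, algebraMap k M (b i) * y i := by
      rw [← Finset.sum_add_distrib]
      refine Finset.sum_congr rfl fun i _ => ?_
      rw [Pi.add_apply, map_add, add_mul]
    show v.val _ < _
    rw [h]
    exact (v.val.map_add _ _).trans_lt (max_lt ha hb)
  zero_mem' := by
    show v.val _ < _
    simp only [Pi.zero_apply, map_zero, zero_mul, Finset.sum_const_zero]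
    exact zero_lt_iff.2 (nrm_ne_zero hy)
  smul_mem' := by
    intro a c hc
    have h : ∑ i, algebraMap k M ((a • c) i) * y i =
        algebraMap k M a * ∑ i, algebraMap k M (c i) * y i := by
      rw [Finset.mul_sum]
      refine Finset.sum_congr rfl fun i _ => ?_
      rw [Pi.smul_apply, smul_eq_mul, map_mul, mul_assoc]
    show v.val _ < _
    rw [h, map_mul]
    exact (mul_le_of_le_one_left' (Scale_triv v a)).trans_lt hc

theorem Scale_bad_ne {M : Type} [Field M] [Algebra k M] (v : Place k M)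
    (y : Fin (ν + 1) → M) (hy : y ≠ 0) : Scale_bad v y hy ≠ ⊤ := by
  classical
  intro h
  obtain ⟨i, hi⟩ := exists_val_eq_nrm v y
  have h1 : Pi.single i 1 ∈ Scale_bad v y hy := by
    rw [h]
    exact Submodule.mem_top
  have h2 : v.val (∑ j, algebraMap k M ((Pi.single i 1 : Fin (ν + 1) → k) j) * y j) <
      nrm v y := h1
  rw [Finset.sum_eq_single i, Pi.single_eq_same, map_one, one_mul, hi] at h2
  · exact lt_irrefl _ h2
  · intro j _ hj
    rw [Pi.single_eq_of_ne hj, map_zero, zero_mul]
  · intro h3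
    exact absurd (Finset.mem_univ i) h3

theorem Scale_lin_le {M : Type} [Field M] [Algebra k M] (v : Place k M)
    (y : Fin (ν + 1) → M) (c : Fin (ν + 1) → k) :
    v.val (∑ i, algebraMap k M (c i) * y i) ≤ nrm v y := by
  refine v.val.map_sum_le fun i _ => ?_
  rw [map_mul]
  exact (mul_le_of_le_one_left' (Scale_triv v _)).trans (val_le_nrm v y i)

theorem Scale_eq {M : Type} [Field M] [Algebra k M] {v : Place k M}
    {y : Fin (ν + 1) → M} {hy : y ≠ 0} {c : Fin (ν + 1) → k} (hc : c ∉ Scale_bad v y hy) :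
    v.val (∑ i, algebraMap k M (c i) * y i) = nrm v y :=
  le_antisymm (Scale_lin_le v y c) (not_lt.1 hc)

theorem Scale_avoid [Infinite k] {ι : Type} [Finite ι]
    (p : ι → Submodule k (Fin (ν + 1) → k)) (hp : ∀ j, p j ≠ ⊤) : ∃ c, ∀ j, c ∉ p j := by
  by_contra h
  push Not at h
  obtain ⟨j, hj⟩ := Subspace.exists_eq_top_of_iUnion_eq_univ (p := p) (by
    ext c
    simpa using h c)
  exact hp j hj

/-- A constant linear form which does not become small at any of finitely many points. -/
theorem Scale_generic [IsAlgClosed k] {M : Type} [Field M] [Algebra k M] (v : Place k M)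
    {ι : Type} [Finite ι] (y : ι → Fin (ν + 1) → M) (hy : ∀ j, y j ≠ 0) :
    ∃ c : Fin (ν + 1) → k, ∀ j, v.val (∑ i, algebraMap k M (c i) * y j i) = nrm v (y j) := by
  have : Infinite k := IsAlgClosed.instInfinite
  obtain ⟨c, hc⟩ := Scale_avoid (fun j => Scale_bad v (y j) (hy j))
    fun j => Scale_bad_ne v (y j) (hy j)
  exact ⟨c, fun j => Scale_eq (hc j)⟩

/-- The height is the number of poles of a generic combination of the coordinates. -/
theorem Scale_log {M : Type} [Field M] [Algebra k M] {y : Fin (ν + 1) → M} (hy : y ≠ 0)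
    {i₀ : Fin (ν + 1)} (h1 : y i₀ = 1) {c : Fin (ν + 1) → k} (v : Place k M)
    (hc : WithZero.log (nrm v y) ≠ 0 → c ∉ Scale_bad v y hy) :
    WithZero.log (nrm v y) =
      max 0 (WithZero.log (v.val (∑ i, algebraMap k M (c i) * y i))) := by
  have h2 : (1 : WithZero (Multiplicative ℤ)) ≤ nrm v y := by
    have := val_le_nrm v y i₀
    rwa [h1, map_one] at this
  have h3 : 0 ≤ WithZero.log (nrm v y) := by
    rw [← WithZero.log_one, WithZero.log_le_log one_ne_zero (nrm_ne_zero hy)]
    exact h2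
  by_cases h : WithZero.log (nrm v y) = 0
  · rw [h]
    symm
    refine max_eq_left ?_
    by_cases h4 : v.val (∑ i, algebraMap k M (c i) * y i) = 0
    · rw [h4, WithZero.log_zero]
    · rw [← h, WithZero.log_le_log h4 (nrm_ne_zero hy)]
      exact Scale_lin_le v y c
  · rw [Scale_eq (hc h), max_eq_right h3]

/-- The height of a point in a finite extension, one coordinate equal to one. -/
theorem Scale_ht_one [IsAlgClosed k] {L M : Type} [Field L] [Algebra k L]
    (hL : IsFunctionField k L) [Field M] [Algebra k M] [Algebra L M] [IsScalarTower k L M]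
    [FiniteDimensional L M] {y : Fin (ν + 1) → L} (hy : y ≠ 0)
    {i₀ : Fin (ν + 1)} (h1 : y i₀ = 1) :
    ht k (fun i => algebraMap L M (y i)) = Module.finrank L M * ht k y := by
  classical
  have : Infinite k := IsAlgClosed.instInfinite
  have hM : IsFunctionField k M := Pool.Agent.Helper89.TC.isFunctionField_of_finite M hL
  have hy' : (fun i => algebraMap L M (y i)) ≠ 0 := by
    intro h
    have h2 := congrFun h i₀
    simp only [h1, map_one, Pi.zero_apply] at h2
    exact one_ne_zero h2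
  have f1 := nrm_support hL y hy
  have f2 := nrm_support hM _ hy'
  have : Finite (Function.support fun b : Place k L => WithZero.log (nrm b y)) := f1
  have : Finite (Function.support fun b : Place k M =>
    WithZero.log (nrm b fun i => algebraMap L M (y i))) := f2
  obtain ⟨c, hc⟩ := Scale_avoid
    (ι := (Function.support fun b : Place k L => WithZero.log (nrm b y)) ⊕
      (Function.support fun b : Place k M => WithZero.log (nrm b fun i => algebraMap L M (y i))))
    (fun j => Sum.rec (fun b => Scale_bad b.1 y hy) (fun b => Scale_bad b.1 _ hy') j)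
    (by
      rintro (b | b)
      · exact Scale_bad_ne _ _ _
      · exact Scale_bad_ne _ _ _)
  have e1 : ∀ v : Place k L, WithZero.log (nrm v y) =
      max 0 (WithZero.log (v.val (∑ i, algebraMap k L (c i) * y i))) :=
    fun v => Scale_log hy h1 v fun h => hc (Sum.inl ⟨v, h⟩)
  have e2 : ∀ v : Place k M, WithZero.log (nrm v fun i => algebraMap L M (y i)) =
      max 0 (WithZero.log (v.val (algebraMap L M (∑ i, algebraMap k L (c i) * y i)))) := by
    intro v
    have h2 : algebraMap L M (∑ i, algebraMap k L (c i) * y i) =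
        ∑ i, algebraMap k M (c i) * algebraMap L M (y i) := by
      rw [map_sum]
      refine Finset.sum_congr rfl fun i _ => ?_
      rw [map_mul, ← IsScalarTower.algebraMap_apply]
    rw [h2]
    exact Scale_log hy' (i₀ := i₀) (by simp only [h1, map_one]) v fun h => hc (Sum.inr ⟨v, h⟩)
  unfold ht
  rw [finsum_congr e1, finsum_congr e2]
  exact (Pool.Agent.Helper89.TC.finsum_pos_log M hL _).2

/-- The height of a point in a finite extension. -/
theorem Scale_ht [IsAlgClosed k] (hK : IsFunctionField k K) {L M : Type} [Field L] [Algebra k L]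
    [Algebra K L] [IsScalarTower k K L] [FiniteDimensional K L] [Field M] [Algebra k M]
    [Algebra K M] [IsScalarTower k K M] [FiniteDimensional K M] (σ : L →ₐ[K] M)
    {y : Fin (ν + 1) → L} (hy : y ≠ 0) :
    (Module.finrank K L : ℤ) * ht k (fun i => σ (y i)) = Module.finrank K M * ht k y := by
  classical
  have hL : IsFunctionField k L := Pool.Agent.Helper89.TC.isFunctionField_of_finite L hK
  have hM : IsFunctionField k M := Pool.Agent.Helper89.TC.isFunctionField_of_finite M hK
  obtain ⟨i₀, hi₀⟩ : ∃ i, y i ≠ 0 := by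
    by_contra h
    push Not at h
    exact hy (funext h)
  let _ : Algebra L M := σ.toRingHom.toAlgebra
  have hσ : ∀ x, algebraMap L M x = σ x := fun x => rfl
  have hKLM : IsScalarTower K L M := IsScalarTower.of_algebraMap_eq fun x => by
    rw [hσ, σ.commutes]
  have hkLM : IsScalarTower k L M := IsScalarTower.of_algebraMap_eq fun x => by
    rw [IsScalarTower.algebraMap_apply k K L, IsScalarTower.algebraMap_apply k K M, hσ,
      σ.commutes]
  have hfin : FiniteDimensional L M := Module.Finite.of_restrictScalars_finite K L M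
  have hσy : (fun i => σ (y i)) ≠ 0 := by
    intro h
    apply hi₀
    exact (map_eq_zero_iff σ σ.toRingHom.injective).1 (congrFun h i₀)
  have hz : (y i₀)⁻¹ • y ≠ 0 := smul_ne_zero (inv_ne_zero hi₀) hy
  have hz1 : ((y i₀)⁻¹ • y) i₀ = 1 := by
    rw [Pi.smul_apply, smul_eq_mul, inv_mul_cancel₀ hi₀]
  have h1 := Scale_ht_one (M := M) hL hz hz1
  rw [ht_smul hL (inv_ne_zero hi₀) hy] at h1
  have h2 : (fun i => algebraMap L M (((y i₀)⁻¹ • y) i)) =
      σ (y i₀)⁻¹ • fun i => σ (y i) := by
    funext i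
    rw [hσ, Pi.smul_apply, Pi.smul_apply, smul_eq_mul, smul_eq_mul, map_mul]
  rw [h2, ht_smul hM (by
    rw [Ne, map_eq_zero_iff σ σ.toRingHom.injective]
    exact inv_ne_zero hi₀) hσy] at h1
  rw [h1, ← mul_assoc, ← Nat.cast_mul, Module.finrank_mul_finrank]

/-- The coefficients of the polynomial `P` have height at most `C` (times the degree) over all
finite extensions. -/
def GsB (k : Type) {K : Type} [Field k] [Field K] [Algebra k K]
    (P : MvPolynomial (Fin (ν + 1)) K) (C : ℤ) : Prop :=
  ∀ (L : Type) [Field L] [Algebra k L] [Algebra K L] [IsScalarTower k K L]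
    [FiniteDimensional K L],
    (Function.support fun v : Place k L =>
      max 0 (WithZero.log (gs v (map (algebraMap K L) P)))).Finite ∧
    ∑ᶠ v : Place k L, max 0 (WithZero.log (gs v (map (algebraMap K L) P))) ≤
      C * (Module.finrank K L : ℤ)

theorem Scale_gs [IsAlgClosed k] (hK : IsFunctionField k K)
    (P : MvPolynomial (Fin (ν + 1)) K) : ∃ C : ℤ, 0 ≤ C ∧ GsB k P C := by
  classical
  refine ⟨∑ m ∈ P.support, ∑ᶠ b : Place k K, max 0 (WithZero.log (b.val (P.coeff m))),
    Finset.sum_nonneg fun m _ => finsum_nonneg fun b => le_max_left _ _, ?_⟩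
  intro L _ _ _ _ _
  have hb : ∀ v : Place k L, max 0 (WithZero.log (gs v (map (algebraMap K L) P))) ≤
      ∑ m ∈ P.support, max 0 (WithZero.log (v.val (algebraMap K L (P.coeff m)))) := by
    intro v
    have hnn : ∀ m ∈ P.support,
        0 ≤ max 0 (WithZero.log (v.val (algebraMap K L (P.coeff m)))) :=
      fun m _ => le_max_left _ _
    refine max_le (Finset.sum_nonneg hnn) ?_
    by_cases hP : map (algebraMap K L) P = 0
    · rw [hP, formHeight_zero, WithZero.log_zero]
      exact Finset.sum_nonneg hnn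
    · obtain ⟨m, hm, h⟩ := formHeight_exists (b := v) hP
      rw [coeff_map] at hm h
      have hm' : m ∈ P.support := by
        rw [mem_support_iff]
        intro h0
        exact hm (by rw [h0, map_zero])
      rw [h]
      exact (le_max_right _ _).trans (Finset.single_le_sum (f := fun m =>
        max 0 (WithZero.log (v.val (algebraMap K L (P.coeff m))))) hnn hm')
  have hfin : ∀ m ∈ P.support, (Function.support fun v : Place k L =>
      max 0 (WithZero.log (v.val (algebraMap K L (P.coeff m))))).Finite :=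
    fun m _ => (Pool.Agent.Helper89.TC.finsum_pos_log L hK (P.coeff m)).1
  have hfin2 : (Function.support fun v : Place k L =>
      ∑ m ∈ P.support, max 0 (WithZero.log (v.val (algebraMap K L (P.coeff m))))).Finite := by
    refine (Set.Finite.biUnion (Finset.finite_toSet P.support) fun m hm => hfin m hm).subset ?_
    intro v hv
    by_contra h
    apply hv
    refine Finset.sum_eq_zero fun m hm => ?_
    by_contra h2
    apply h
    simp only [Set.mem_iUnion]
    exact ⟨m, hm, h2⟩
  have hfin1 : (Function.support fun v : Place k L =>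
      max 0 (WithZero.log (gs v (map (algebraMap K L) P)))).Finite := by
    refine hfin2.subset fun v hv => ?_
    intro h
    apply hv
    exact le_antisymm ((hb v).trans h.le) (le_max_left _ _)
  refine ⟨hfin1, ?_⟩
  calc _ ≤ ∑ᶠ v : Place k L,
        ∑ m ∈ P.support, max 0 (WithZero.log (v.val (algebraMap K L (P.coeff m)))) :=
        finsum_le_finsum' hfin1 hfin2 hb
    _ = ∑ m ∈ P.support, ∑ᶠ v : Place k L,
          max 0 (WithZero.log (v.val (algebraMap K L (P.coeff m)))) :=
        finsum_sum_comm _ _ hfin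
    _ = _ := by
        rw [Finset.sum_mul]
        refine Finset.sum_congr rfl fun m _ => ?_
        rw [(Pool.Agent.Helper89.TC.finsum_pos_log L hK (P.coeff m)).2, mul_comm]

end Pool.Agent.Helper30.ZB

end

section

namespace Pool.Agent.Helper16
end Pool.Agent.Helper16
namespace Pool.Agent.Helper30.TKN
end Pool.Agent.Helper30.TKN
namespace Pool.Agent.Helper38.TQ
end Pool.Agent.Helper38.TQ

/-!
# The product formula for the evaluation determinant
-/

set_option autoImplicit false

namespace Pool.Agent.Helper30.ZB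

open MvPolynomial
open Pool.Agent.Helper16 (Place IsFunctionField)
open Pool.Agent.Helper38.TQ
open Pool.Agent.Helper30.TKN

variable {ν : ℕ} {k K : Type} [Field k] [Field K] [Algebra k K]

/-- The family consists of forms of degree `m₂ + n e`. -/
theorem Level_fam_hom {J : Ideal (MvPolynomial (Fin (ν + 1)) K)}
    {h : MvPolynomial (Fin (ν + 1)) K} {e : ℕ}
    {c : Fin (ν + 1) → k} {m₂ q s : ℕ} {qa : Fin q → MvPolynomial (Fin (ν + 1)) K}
    {pc : Fin s → MvPolynomial (Fin (ν + 1)) K} (D : Data J h e c m₂ q s qa pc) (n : ℕ)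
    (c' : Fin (ν + 1) → k) (κ : (Fin (n + 1) × Fin q) ⊕ Fin s) :
    (fam h e qa pc n c' κ).IsHomogeneous (m₂ + n * e) := by
  have hlf : (lf K c').IsHomogeneous 1 := by
    unfold lf
    refine IsHomogeneous.sum _ _ _ fun i _ => ?_
    have h1 := (isHomogeneous_C (Fin (ν + 1)) (algebraMap k K (c' i))).mul (isHomogeneous_X K i)
    rwa [zero_add] at h1
  rcases κ with ⟨j, a⟩ | i
  · have h1 := ((D.h_hom.pow (j : ℕ)).mul (hlf.pow ((n - j) * e))).mul (D.qa_hom a)
    have h3 : ∀ j' n' : ℕ, j' ≤ n' → e * j' + 1 * ((n' - j') * e) + m₂ = m₂ + n' * e := by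
      intro j' n' hj
      obtain ⟨r, rfl⟩ := Nat.exists_eq_add_of_le hj
      rw [Nat.add_sub_cancel_left]
      ring
    have h2 : e * (j : ℕ) + 1 * ((n - j) * e) + m₂ = m₂ + n * e :=
      h3 j n (Nat.lt_succ_iff.1 j.2)
    rw [h2] at h1
    exact h1
  · have h1 := (D.h_hom.pow (n + 1)).mul (D.pc_hom i)
    have h2 : e * (n + 1) + (m₂ - e) = m₂ + n * e := by
      have h3 := D.e_le
      have h4 : e * (n + 1) = n * e + e := by ring
      omega
    rw [h2] at h1
    exact h1

/-- The inequality at one place. -/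
theorem Level_place [IsAlgClosed k]
    {J : Ideal (MvPolynomial (Fin (ν + 1)) K)} {h : MvPolynomial (Fin (ν + 1)) K} {e : ℕ}
    {c : Fin (ν + 1) → k} {m₂ q s : ℕ} {qa : Fin q → MvPolynomial (Fin (ν + 1)) K}
    {pc : Fin s → MvPolynomial (Fin (ν + 1)) K} (D : Data J h e c m₂ q s qa pc)
    (n : ℕ) {M : Type} [Field M] [Algebra k M] [Algebra K M] [IsScalarTower k K M]
    (t : ℕ) (χ : Fin t → (Qo (J ⊔ Ideal.span {h}) c →ₐ[K] M))
    (P : (Fin (n + 1) × Fin q) ⊕ Fin s → Fin (ν + 1) → M)
    (hN : ∀ a, algebraMap K M (Algebra.norm K a) = ∏ i, χ i a)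
    (hPJ : ∀ κ, ∀ g ∈ J, aeval (P κ) g = 0) (v : Place k M) :
    v.val (Matrix.of fun κ κ' => aeval (P κ) (fam h e qa pc n c κ')).det *
        (∏ i, nrm v (fun a => χ i (cls (J ⊔ Ideal.span {h}) c (X a)))) ^ (e * (n * (n + 1) / 2)) ≤
      (∏ κ, nrm v (P κ) ^ (m₂ + n * e)) *
        (gs v (map (algebraMap K M) h) ^ (q * (n * (n + 1) / 2) + (n + 1) * s) *
          (∏ a, gs v (map (algebraMap K M) (qa a))) ^ (n + 1) *
            ∏ i, gs v (map (algebraMap K M) (pc i))) := by
  classical
  obtain ⟨c', hc'⟩ := Scale_generic v (fun i a => χ i (cls (J ⊔ Ideal.span {h}) c (X a)))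
    (fun i => (Pts_of_hom M (χ i)).2.1)
  obtain ⟨T, hT1, hT2⟩ := Det_change D n c'
  have hlf : ∀ i, χ i (cls (J ⊔ Ideal.span {h}) c (lf K c')) =
      ∑ a, algebraMap k M (c' a) * χ i (cls (J ⊔ Ideal.span {h}) c (X a)) := by
    intro i
    rw [← (Pts_of_hom M (χ i)).2.2 (lf K c')]
    unfold lf
    rw [map_sum]
    refine Finset.sum_congr rfl fun a _ => ?_
    rw [map_mul, aeval_C, aeval_X, IsScalarTower.algebraMap_apply k K M]
  have hE : (Matrix.of fun κ κ' => aeval (P κ) (fam h e qa pc n c' κ')) =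
      (Matrix.of fun κ κ' => aeval (P κ) (fam h e qa pc n c κ')) *
        (T.map (algebraMap K M)).transpose := by
    ext κ κ'
    rw [Matrix.mul_apply, Matrix.of_apply]
    have h1 := hPJ κ _ (hT1 κ')
    rw [map_sub, map_sum, sub_eq_zero] at h1
    rw [h1]
    refine Finset.sum_congr rfl fun κ'' _ => ?_
    rw [map_mul, aeval_C, Matrix.of_apply, Matrix.transpose_apply, Matrix.map_apply, mul_comm]
  have hdet : (Matrix.of fun κ κ' => aeval (P κ) (fam h e qa pc n c' κ')).det =
      (Matrix.of fun κ κ' => aeval (P κ) (fam h e qa pc n c κ')).det *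
        (∏ i, χ i (cls (J ⊔ Ideal.span {h}) c (lf K c'))) ^ (e * (n * (n + 1) / 2)) := by
    rw [hE, Matrix.det_mul, Matrix.det_transpose]
    congr 1
    have h1 : (T.map (algebraMap K M)).det = algebraMap K M T.det := by
      rw [RingHom.map_det]
      rfl
    rw [h1, hT2, map_pow, hN]
  have hval : v.val (Matrix.of fun κ κ' => aeval (P κ) (fam h e qa pc n c' κ')).det =
      v.val (Matrix.of fun κ κ' => aeval (P κ) (fam h e qa pc n c κ')).det *
        (∏ i, nrm v (fun a => χ i (cls (J ⊔ Ideal.span {h}) c (X a)))) ^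
          (e * (n * (n + 1) / 2)) := by
    rw [hdet, map_mul, map_pow, map_prod]
    congr 2
    refine Finset.prod_congr rfl fun i _ => ?_
    rw [hlf i]
    exact hc' i
  rw [← hval]
  have h2 := UDet_le v P (fun κ => map (algebraMap K M) (fam h e qa pc n c' κ))
    (fun κ => (Level_fam_hom D n c' κ).map (algebraMap K M))
  have h3 : (Matrix.of fun i κ => eval (P i) (map (algebraMap K M) (fam h e qa pc n c' κ))) =
      Matrix.of fun κ κ' => aeval (P κ) (fam h e qa pc n c' κ') := by
    ext κ κ'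
    rw [Matrix.of_apply, Matrix.of_apply, eval_map, aeval_def]
  rw [h3] at h2
  exact h2.trans (mul_le_mul_right (UDet_fam v n c') _)

/-- The inequality for the logarithms at one place. -/
theorem Level_log [IsAlgClosed k]
    {J : Ideal (MvPolynomial (Fin (ν + 1)) K)} {h : MvPolynomial (Fin (ν + 1)) K} {e : ℕ}
    {c : Fin (ν + 1) → k} {m₂ q s : ℕ} {qa : Fin q → MvPolynomial (Fin (ν + 1)) K}
    {pc : Fin s → MvPolynomial (Fin (ν + 1)) K} (D : Data J h e c m₂ q s qa pc)
    (n : ℕ) {M : Type} [Field M] [Algebra k M] [Algebra K M] [IsScalarTower k K M]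
    (t : ℕ) (χ : Fin t → (Qo (J ⊔ Ideal.span {h}) c →ₐ[K] M))
    (P : (Fin (n + 1) × Fin q) ⊕ Fin s → Fin (ν + 1) → M)
    (hN : ∀ a, algebraMap K M (Algebra.norm K a) = ∏ i, χ i a)
    (hPJ : ∀ κ, ∀ g ∈ J, aeval (P κ) g = 0)
    (hdet : (Matrix.of fun κ κ' => aeval (P κ) (fam h e qa pc n c κ')).det ≠ 0)
    (v : Place k M) :
    WithZero.log (v.val (Matrix.of fun κ κ' => aeval (P κ) (fam h e qa pc n c κ')).det) +
        ((e * (n * (n + 1) / 2) : ℕ) : ℤ) *
          ∑ i, WithZero.log (nrm v (fun a => χ i (cls (J ⊔ Ideal.span {h}) c (X a)))) ≤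
      ((m₂ + n * e : ℕ) : ℤ) * ∑ κ, WithZero.log (nrm v (P κ)) +
        (((q * (n * (n + 1) / 2) + (n + 1) * s : ℕ) : ℤ) *
            max 0 (WithZero.log (gs v (map (algebraMap K M) h))) +
          ((n + 1 : ℕ) : ℤ) *
            ∑ a, max 0 (WithZero.log (gs v (map (algebraMap K M) (qa a)))) +
          ∑ i, max 0 (WithZero.log (gs v (map (algebraMap K M) (pc i))))) := by
  classical
  have h1 := Level_place D n t χ P hN hPJ v
  have hx : ∀ i, nrm v (fun a => χ i (cls (J ⊔ Ideal.span {h}) c (X a))) ≠ 0 :=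
    fun i => nrm_ne_zero (Pts_of_hom M (χ i)).2.1
  have hd : v.val (Matrix.of fun κ κ' => aeval (P κ) (fam h e qa pc n c κ')).det ≠ 0 := by
    simpa using hdet
  have hl : v.val (Matrix.of fun κ κ' => aeval (P κ) (fam h e qa pc n c κ')).det *
        (∏ i, nrm v (fun a => χ i (cls (J ⊔ Ideal.span {h}) c (X a)))) ^
          (e * (n * (n + 1) / 2)) ≠ 0 :=
    mul_ne_zero hd (pow_ne_zero _ (Finset.prod_ne_zero_iff.2 fun i _ => hx i))
  have hr := (lt_of_lt_of_le (zero_lt_iff.2 hl) h1).ne'
  have h2 := (WithZero.log_le_log hl hr).2 h1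
  have hr1 := left_ne_zero_of_mul hr
  have hr2 := right_ne_zero_of_mul hr
  have hr3 := left_ne_zero_of_mul hr2
  have hr4 := right_ne_zero_of_mul hr2
  have hr5 := left_ne_zero_of_mul hr3
  have hr6 := right_ne_zero_of_mul hr3
  have hlogprod : ∀ {ι : Type} [Fintype ι] (f : ι → WithZero (Multiplicative ℤ)),
      (∏ i, f i ≠ 0) → WithZero.log (∏ i, f i) = ∑ i, WithZero.log (f i) := by
    intro ι _ f hf
    have hgen : ∀ S : Finset ι, WithZero.log (∏ i ∈ S, f i) = ∑ i ∈ S, WithZero.log (f i) := by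
      intro S
      induction S using Finset.induction_on with
      | empty => simp
      | insert a S ha ih =>
        rw [Finset.prod_insert ha, Finset.sum_insert ha, WithZero.log_mul, ih]
        · exact Finset.prod_ne_zero_iff.1 hf a (Finset.mem_univ _)
        · exact Finset.prod_ne_zero_iff.2 fun i _ => Finset.prod_ne_zero_iff.1 hf i (Finset.mem_univ _)
    exact hgen _
  rw [WithZero.log_mul hd (right_ne_zero_of_mul hl), WithZero.log_mul hr1 hr2,
    WithZero.log_mul hr3 hr4, WithZero.log_mul hr5 hr6, WithZero.log_pow, WithZero.log_pow,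
    WithZero.log_pow, hlogprod _ (Finset.prod_ne_zero_iff.2 fun i _ => hx i), hlogprod _ hr1,
    hlogprod _ hr4] at h2
  have h3 : ∑ κ, WithZero.log (nrm v (P κ) ^ (m₂ + n * e)) =
      ((m₂ + n * e : ℕ) : ℤ) * ∑ κ, WithZero.log (nrm v (P κ)) := by
    rw [Finset.mul_sum]
    refine Finset.sum_congr rfl fun κ _ => ?_
    rw [WithZero.log_pow, nsmul_eq_mul]
  rw [h3] at h2
  have h6 : ∏ a, gs v (map (algebraMap K M) (qa a)) ≠ 0 := by
    intro h0
    rw [h0] at hr6
    exact hr6 (zero_pow (by omega))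
  rw [hlogprod _ h6] at h2
  simp only [nsmul_eq_mul] at h2
  refine h2.trans ?_
  have h7 : (0 : ℤ) ≤ ((q * (n * (n + 1) / 2) + (n + 1) * s : ℕ) : ℤ) := Int.natCast_nonneg _
  have h8 : (0 : ℤ) ≤ ((n + 1 : ℕ) : ℤ) := Int.natCast_nonneg _
  gcongr with a _ i _
  · exact le_max_right _ _
  · exact le_max_right _ _
  · exact le_max_right _ _

/-- The inequality for each `n`. -/
theorem Level [IsAlgClosed k] (hK : IsFunctionField k K)
    {J : Ideal (MvPolynomial (Fin (ν + 1)) K)} {h : MvPolynomial (Fin (ν + 1)) K} {e : ℕ}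
    {c : Fin (ν + 1) → k} {m₂ q s : ℕ} {qa : Fin q → MvPolynomial (Fin (ν + 1)) K}
    {pc : Fin s → MvPolynomial (Fin (ν + 1)) K} (D : Data J h e c m₂ q s qa pc)
    (hfin : FiniteDimensional K (Qo (J ⊔ Ideal.span {h}) c)) {Ch : ℤ} (hCh0 : 0 ≤ Ch)
    (hCh : GsB k h Ch) :
    ∃ C₂ : ℤ, ∀ (n : ℕ) (M : Type) [Field M] [Algebra k M] [Algebra K M] [IsScalarTower k K M]
      [FiniteDimensional K M] (t : ℕ) (χ : Fin t → (Qo (J ⊔ Ideal.span {h}) c →ₐ[K] M))
      (P : (Fin (n + 1) × Fin q) ⊕ Fin s → Fin (ν + 1) → M),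
      (∀ a, algebraMap K M (Algebra.norm K a) = ∏ i, χ i a) → (∀ κ, P κ ≠ 0) →
      (∀ κ, ∀ g ∈ J, aeval (P κ) g = 0) →
      (Matrix.of fun κ κ' => aeval (P κ) (fam h e qa pc n c κ')).det ≠ 0 →
      ((e * (n * (n + 1) / 2) : ℕ) : ℤ) *
          ∑ i, ht k (fun a => χ i (cls (J ⊔ Ideal.span {h}) c (X a))) ≤
        ((m₂ + n * e : ℕ) : ℤ) * ∑ κ, ht k (P κ) +
          (((q * (n * (n + 1) / 2) : ℕ) : ℤ) * Ch + ((n + 1 : ℕ) : ℤ) * C₂) *
            (Module.finrank K M : ℤ) := by
  classical
  choose Ca hCa0 hCa using fun a => Scale_gs (k := k) hK (qa a)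
  choose Cp hCp0 hCp using fun i => Scale_gs (k := k) hK (pc i)
  refine ⟨s * Ch + ∑ a, Ca a + ∑ i, Cp i, ?_⟩
  intro n M _ _ _ _ _ t χ P hN hP0 hPJ hdet
  have hKM : IsFunctionField k M := Pool.Agent.Helper89.TC.isFunctionField_of_finite M hK
  -- the finite set of places
  set A : MvPolynomial (Fin (ν + 1)) K → Place k M → ℤ := fun p v =>
    max 0 (WithZero.log (gs v (map (algebraMap K M) p))) with hA
  have hfs : ((Function.support fun v : Place k M => WithZero.log (v.val
        (Matrix.of fun κ κ' => aeval (P κ) (fam h e qa pc n c κ')).det)) ∪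
      (⋃ i, Function.support fun v : Place k M => WithZero.log (nrm v
        (fun a => χ i (cls (J ⊔ Ideal.span {h}) c (X a))))) ∪
      (⋃ κ, Function.support fun v : Place k M => WithZero.log (nrm v (P κ))) ∪
      Function.support (A h) ∪ (⋃ a, Function.support (A (qa a))) ∪
      (⋃ i, Function.support (A (pc i)))).Finite := by
    refine Set.Finite.union (Set.Finite.union (Set.Finite.union (Set.Finite.union
      (Set.Finite.union ?_ ?_) ?_) ?_) ?_) ?_
    · exact (finsum_log hKM _ hdet).1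
    · exact Set.finite_iUnion fun i => nrm_support hKM _ (Pts_of_hom M (χ i)).2.1
    · exact Set.finite_iUnion fun κ => nrm_support hKM _ (hP0 κ)
    · exact (hCh M).1
    · exact Set.finite_iUnion fun a => (hCa a M).1
    · exact Set.finite_iUnion fun i => (hCp i M).1
  set S := hfs.toFinset with hS
  have hsub : ∀ v, v ∉ S → WithZero.log (v.val
        (Matrix.of fun κ κ' => aeval (P κ) (fam h e qa pc n c κ')).det) = 0 ∧
      (∀ i, WithZero.log (nrm v (fun a => χ i (cls (J ⊔ Ideal.span {h}) c (X a)))) = 0) ∧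
      (∀ κ, WithZero.log (nrm v (P κ)) = 0) ∧ A h v = 0 ∧ (∀ a, A (qa a) v = 0) ∧
      ∀ i, A (pc i) v = 0 := by
    intro v hv
    rw [hS, Set.Finite.mem_toFinset] at hv
    simp only [Set.mem_union, Set.mem_iUnion, Function.mem_support, not_or, not_exists,
      not_not] at hv
    tauto
  have hconv : ∀ f : Place k M → ℤ, (∀ v, v ∉ S → f v = 0) → ∑ᶠ v, f v = ∑ v ∈ S, f v := by
    intro f hf
    refine finsum_eq_sum_of_support_subset _ fun v hv => ?_
    by_contra h
    exact hv (hf v h)
  have e1 : ∑ v ∈ S, WithZero.log (v.val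
      (Matrix.of fun κ κ' => aeval (P κ) (fam h e qa pc n c κ')).det) = 0 := by
    rw [← hconv _ fun v hv => (hsub v hv).1, (finsum_log hKM _ hdet).2]
  have e2 : ∀ i, ht k (fun a => χ i (cls (J ⊔ Ideal.span {h}) c (X a))) =
      ∑ v ∈ S, WithZero.log (nrm v (fun a => χ i (cls (J ⊔ Ideal.span {h}) c (X a)))) := by
    intro i
    exact hconv _ fun v hv => (hsub v hv).2.1 i
  have e3 : ∀ κ, ht k (P κ) = ∑ v ∈ S, WithZero.log (nrm v (P κ)) := by
    intro κ
    exact hconv _ fun v hv => (hsub v hv).2.2.1 κ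
  have e4 : ∑ v ∈ S, A h v ≤ Ch * Module.finrank K M := by
    rw [← hconv _ fun v hv => (hsub v hv).2.2.2.1]
    exact (hCh M).2
  have e5 : ∀ a, ∑ v ∈ S, A (qa a) v ≤ Ca a * Module.finrank K M := by
    intro a
    rw [← hconv _ fun v hv => (hsub v hv).2.2.2.2.1 a]
    exact (hCa a M).2
  have e6 : ∀ i, ∑ v ∈ S, A (pc i) v ≤ Cp i * Module.finrank K M := by
    intro i
    rw [← hconv _ fun v hv => (hsub v hv).2.2.2.2.2 i]
    exact (hCp i M).2
  have h1 := Finset.sum_le_sum fun v (_ : v ∈ S) => Level_log D n t χ P hN hPJ hdet v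
  rw [Finset.sum_add_distrib, Finset.sum_add_distrib, Finset.sum_add_distrib,
    Finset.sum_add_distrib, e1, zero_add, ← Finset.mul_sum, ← Finset.mul_sum, ← Finset.mul_sum,
    ← Finset.mul_sum, Finset.sum_comm, Finset.sum_comm (s := S) (t := Finset.univ),
    Finset.sum_comm (s := S) (t := Finset.univ), Finset.sum_comm (s := S) (t := Finset.univ)] at h1
  rw [← Finset.sum_congr rfl fun i _ => e2 i, ← Finset.sum_congr rfl fun κ _ => e3 κ] at h1
  refine h1.trans ?_
  have h7 : (0 : ℤ) ≤ ((q * (n * (n + 1) / 2) + (n + 1) * s : ℕ) : ℤ) := Int.natCast_nonneg _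
  have h8 : (0 : ℤ) ≤ ((n + 1 : ℕ) : ℤ) := Int.natCast_nonneg _
  have h9 : (0 : ℤ) ≤ (Module.finrank K M : ℤ) := Int.natCast_nonneg _
  have h10 : ∑ a, ∑ v ∈ S, A (qa a) v ≤ (∑ a, Ca a) * Module.finrank K M := by
    rw [Finset.sum_mul]
    exact Finset.sum_le_sum fun a _ => e5 a
  have h11 : ∑ i, ∑ v ∈ S, A (pc i) v ≤ (∑ i, Cp i) * Module.finrank K M := by
    rw [Finset.sum_mul]
    exact Finset.sum_le_sum fun i _ => e6 i
  have h12 : 0 ≤ ∑ i, Cp i := Finset.sum_nonneg fun i _ => hCp0 i
  have h13 : (∑ i, Cp i) * (Module.finrank K M : ℤ) ≤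
      ((n + 1 : ℕ) : ℤ) * ((∑ i, Cp i) * Module.finrank K M) := by
    have h14 : (1 : ℤ) ≤ ((n + 1 : ℕ) : ℤ) := by push_cast; omega
    nlinarith [mul_nonneg h12 h9]
  have h15 := mul_le_mul_of_nonneg_left e4 h7
  have h16 := mul_le_mul_of_nonneg_left h10 h8
  push_cast at h13 h15 h16 ⊢
  nlinarith [h13, h15, h16, h11]

end Pool.Agent.Helper30.ZB

end
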