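import Pool.Agent.Helper29.MG2.T42
import Pool.Agent.Helper29.MG2.T45
import Pool.Agent.Helper29.MG2.T01
import Pool.Agent.Helper29.MG2.T43
import Pool.Agent.Helper29.MG2.T47

section

namespace Pool.Agent.Helper29.TG
end Pool.Agent.Helper29.TG
namespace Pool.Agent.Helper36
end Pool.Agent.Helper36
namespace Pool.Agent.Helper38.TQ
end Pool.Agent.Helper38.TQ

/-!
# Project NZ: growth of the absolute height
-/

set_option autoImplicit false

namespace Pool.Agent.Helper45.NZ

open MvPolynomial Height AdmissibleAbsValues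
open Pool.Agent.Helper29.TG (nm ls FS Mem)
open Pool.Agent.Helper36 (step iter)
open Pool.Agent.Helper38.TQ

variable {ν : ℕ} {A : Type} [Field A] [CharZero A] [IsAlgClosed A] [Algebra.IsAlgebraic ℚ A]
  [Algebra A ℂ]

omit [CharZero A] [IsAlgClosed A] [Algebra.IsAlgebraic ℚ A] [Algebra A ℂ] in
/-- The absolute value of a sum. -/
theorem Grow_sum_le (W : AbsoluteValue A ℝ) (b : Fin (ν + 1) → A) {B : ℝ}
    (hb : ∀ j, W (b j) ≤ B) : W (∑ j, b j) ≤ Real.exp (kap W * Real.log (ν + 1)) * B := by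
  classical
  by_cases h : IsNonarchimedean W
  · have h1 : kap W = 0 := by
      unfold kap
      rw [if_pos h]
    rw [h1, zero_mul, Real.exp_zero, one_mul]
    obtain ⟨j, -, hj⟩ := IsNonarchimedean.finset_image_add_of_nonempty h b
      (t := Finset.univ) Finset.univ_nonempty
    exact hj.trans (hb j)
  · have h1 : kap W = 1 := by
      unfold kap
      rw [if_neg h]
    have h2 : (0 : ℝ) < (ν : ℝ) + 1 := by positivity
    rw [h1, one_mul, Real.exp_log h2]
    refine (W.sum_le Finset.univ b).trans ?_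
    refine (Finset.sum_le_sum fun j _ => hb j).trans (le_of_eq ?_)
    rw [Finset.sum_const, Finset.card_univ, Fintype.card_fin, nsmul_eq_mul]
    push_cast
    ring

omit [CharZero A] [IsAlgClosed A] [Algebra.IsAlgebraic ℚ A] [Algebra A ℂ] in
theorem Grow_sz_le_exp {σ : Type} (W : AbsoluteValue A ℝ) (G : MvPolynomial σ A) :
    sz W G ≤ Real.exp (lp W G) := by
  rcases (sz_nonneg W G).eq_or_lt with h | h
  · rw [← h]
    exact (Real.exp_pos _).le
  · have h1 : Real.log (sz W G) ≤ lp W G := le_max_right _ _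
    calc sz W G = Real.exp (Real.log (sz W G)) := (Real.exp_log h).symm
      _ ≤ Real.exp (lp W G) := Real.exp_le_exp.2 h1

/-- The inequality at one place. -/
theorem Grow_loc {d : ℕ} {F : Fin (ν + 1) → MvPolynomial (Fin (ν + 1)) A}
    {M : ℕ} {q : Fin (ν + 1) × Fin (ν + 1) → MvPolynomial (Fin (ν + 1)) A}
    (hq : ∀ a, (q a).IsHomogeneous M)
    (h : ∀ a, ∑ j, q (a, j) * F j = MvPolynomial.X a ^ (M + d))
    (W : AbsoluteValue A ℝ) {y : Fin (ν + 1) → A} (hy : y ≠ 0) (hs : step F y ≠ 0) :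
    (d : ℝ) * Real.log (nm W y) ≤ Real.log (nm W (step F y)) + ∑ a, lp W (q a) +
      Real.log (ν + 1) * kap W := by
  classical
  have hn0 : 0 < nm W y := Pool.Agent.Helper29.TG.nm_pos W hy
  have hs0 : 0 < nm W (step F y) := Pool.Agent.Helper29.TG.nm_pos W hs
  obtain ⟨i, hi⟩ := Pool.Agent.Helper29.TG.exists_nm_eq W hy
  have hlp : ∀ a, lp W (q a) ≤ ∑ a, lp W (q a) := fun a =>
    Finset.single_le_sum (f := fun a => lp W (q a)) (fun a _ => le_max_left _ _)
      (Finset.mem_univ a)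
  have h1 : W (y i ^ (M + d)) ≤ Real.exp (kap W * Real.log (ν + 1)) *
      (Real.exp (∑ a, lp W (q a)) * nm W y ^ M * nm W (step F y)) := by
    rw [Pool.Agent.Helper38.TNA.Periodic_cert h y i]
    refine Grow_sum_le W _ fun j => ?_
    rw [map_mul, Algebra.algebraMap_self, MvPolynomial.map_id]
    refine mul_le_mul ?_ (Pool.Agent.Helper29.TG.le_nm W (step F y) j) (W.nonneg _)
      (mul_nonneg (Real.exp_pos _).le (pow_nonneg hn0.le _))
    refine (eval_le_sz W (hq (i, j)) y).trans ?_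
    refine mul_le_mul_of_nonneg_right ?_ (pow_nonneg hn0.le _)
    exact (Grow_sz_le_exp W _).trans (Real.exp_le_exp.2 (hlp _))
  rw [map_pow, ← hi.2, pow_add] at h1
  have h2 : 0 < nm W y ^ M := pow_pos hn0 _
  have h3 : nm W y ^ d ≤ Real.exp (kap W * Real.log (ν + 1) + ∑ a, lp W (q a)) *
      nm W (step F y) := by
    refine le_of_mul_le_mul_left (a := nm W y ^ M) (h1.trans (le_of_eq ?_)) h2
    rw [Real.exp_add]
    ring
  have h4 := Real.log_le_log (pow_pos hn0 _) h3
  rw [Real.log_pow, Real.log_mul (Real.exp_pos _).ne' hs0.ne', Real.log_exp] at h4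
  linarith

/-- The height of the image of a point. -/
theorem growA {d : ℕ} {F : Fin (ν + 1) → MvPolynomial (Fin (ν + 1)) A}
    (hF : IsEndo d fun i => map (algebraMap A ℂ) (F i)) :
    ∃ C : ℝ, 0 ≤ C ∧ ∀ y : Fin (ν + 1) → A, y ≠ 0 → d * aht y ≤ aht (step F y) + C := by
  classical
  obtain ⟨e, q, hq, h⟩ := Pool.Agent.Helper36.exists_nullstellensatz (L := ℂ) F
    (fun i => Pool.Agent.Helper30.TKN.homog_of_endo hF i)
    (Pool.Agent.Helper30.TKN.growth_aeval_zero hF)
  have hlog : (0 : ℝ) ≤ Real.log (ν + 1) := Real.log_nonneg (by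
    have : (0 : ℝ) ≤ ν := Nat.cast_nonneg _
    linarith)
  refine ⟨∑ a, Cp (q a) + Real.log (ν + 1),
    add_nonneg (Finset.sum_nonneg fun a _ => Cp_nonneg _) hlog, ?_⟩
  intro y hy
  have hs : step F y ≠ 0 := Pool.Agent.Helper38.TNA.step_ne_zeroL hF hy
  -- the number field
  have hfin : Finite ((Fin (ν + 1) ⊕ Fin (ν + 1)) ⊕
      (Σ a : Fin (ν + 1) × Fin (ν + 1), ((q a).support : Set (Fin (ν + 1) →₀ ℕ)))) := inferInstance
  obtain ⟨M, _, _, _, α, hα⟩ := exists_field (A := A)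
    (fun o : (Fin (ν + 1) ⊕ Fin (ν + 1)) ⊕
      (Σ a : Fin (ν + 1) × Fin (ν + 1), ((q a).support : Set (Fin (ν + 1) →₀ ℕ))) =>
      Sum.elim (Sum.elim y (step F y)) (fun p => (q p.1).coeff p.2.1) o)
  set y' : Fin (ν + 1) → M := fun i => α (Sum.inl (Sum.inl i)) with hy'
  set s' : Fin (ν + 1) → M := fun i => α (Sum.inl (Sum.inr i)) with hs'
  have hye : y = fun i => algebraMap M A (y' i) :=
    funext fun i => (hα (Sum.inl (Sum.inl i))).symm
  have hse : step F y = fun i => algebraMap M A (s' i) :=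
    funext fun i => (hα (Sum.inl (Sum.inr i))).symm
  have hqe : ∀ a, ∃ G' : MvPolynomial (Fin (ν + 1)) M, map (algebraMap M A) G' = q a := by
    intro a
    have h1 : q a ∈ Set.range (map (σ := Fin (ν + 1)) (algebraMap M A)) := by
      rw [mem_range_map_iff_coeffs_subset]
      intro x hx
      obtain ⟨m, hm, rfl⟩ := mem_coeffs_iff.1 hx
      exact ⟨α (Sum.inr ⟨a, ⟨m, hm⟩⟩), hα (Sum.inr ⟨a, ⟨m, hm⟩⟩)⟩
    exact h1
  choose q' hq' using hqe
  have hy'0 : y' ≠ 0 := by
    intro h0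
    refine hy ?_
    rw [hye, h0]
    funext a
    exact map_zero _
  have hs'0 : s' ≠ 0 := by
    intro h0
    refine hs ?_
    rw [hse, h0]
    funext a
    exact map_zero _
  have hd : (0 : ℝ) < Module.finrank ℚ M := by
    exact_mod_cast Module.finrank_pos
  have hptw : ∀ v : AbsoluteValue M ℝ, Mem v → (d : ℝ) * Real.log (nm v y') ≤
      Real.log (nm v s') + ∑ a, lp v (q' a) + Real.log (ν + 1) * kap v := by
    intro v hv
    obtain ⟨W, hW, hW1, hW2⟩ := exists_ext (A := A) hv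
    have h1 := Grow_loc hq h W hy hs
    have h2 : nm W y = nm v y' := by rw [hye, nm_ext hW1]
    have h3 : nm W (step F y) = nm v s' := by rw [hse, nm_ext hW1]
    have h4 : ∀ a, lp W (q a) = lp v (q' a) := fun a => by
      rw [← lp_ext hW1 hW2, hq']
    rw [h2, h3, kap_ext hW2] at h1
    simp only [h4] at h1
    exact h1
  have hFSy : FS (fun v : AbsoluteValue M ℝ => (d : ℝ) * Real.log (nm v y')) :=
    (Pool.Agent.Helper29.TG.FS_nm hy'0).mul_left _
  have hFSs : FS (fun v : AbsoluteValue M ℝ => Real.log (nm v s')) :=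
    Pool.Agent.Helper29.TG.FS_nm hs'0
  have hFSq : ∀ a ∈ Finset.univ, FS (fun v : AbsoluteValue M ℝ => lp v (q' a)) :=
    fun a _ => FS_lp _
  have hFSqs : FS (fun v : AbsoluteValue M ℝ => ∑ a, lp v (q' a)) :=
    Pool.Agent.Helper29.TG.FS.sum Finset.univ hFSq
  have hFSk : FS (fun v : AbsoluteValue M ℝ => Real.log (ν + 1) * kap v) := FS_kap.mul_left _
  have hls := Pool.Agent.Helper29.TG.ls_mono hFSy ((hFSs.add hFSqs).add hFSk) hptw
  rw [Pool.Agent.Helper29.TG.ls_add (hFSs.add hFSqs) hFSk,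
    Pool.Agent.Helper29.TG.ls_add hFSs hFSqs, Pool.Agent.Helper29.TG.ls_mul_left,
    Pool.Agent.Helper29.TG.ls_mul_left, ls_kap, Pool.Agent.Helper29.TG.ls_nm hy'0,
    Pool.Agent.Helper29.TG.ls_nm hs'0, Pool.Agent.Helper29.TG.ls_sum _ hFSq] at hls
  have hC : ∑ a, ls (fun v : AbsoluteValue M ℝ => lp v (q' a)) ≤
      ∑ a, Module.finrank ℚ M * Cp (q a) := by
    refine Finset.sum_le_sum fun a _ => ?_
    have h1 := ls_lp_le (A := A) (q' a)
    rwa [hq'] at h1
  have e1 : logHeight y' = aht y * (Module.finrank ℚ M : ℝ) := by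
    rw [hye, aht_map, div_mul_cancel₀ _ hd.ne']
  have e2 : logHeight s' = aht (step F y) * (Module.finrank ℚ M : ℝ) := by
    rw [hse, aht_map, div_mul_cancel₀ _ hd.ne']
  rw [e1, e2] at hls
  rw [← Finset.mul_sum] at hC
  have e6 : (d : ℝ) * aht y * (Module.finrank ℚ M : ℝ) ≤
      (aht (step F y) + (∑ a, Cp (q a) + Real.log (ν + 1))) * (Module.finrank ℚ M : ℝ) := by
    linarith
  exact le_of_mul_le_mul_right e6 hd

/-- The heights of the points of an orbit. -/
theorem iter_lower {d : ℕ} {F : Fin (ν + 1) → MvPolynomial (Fin (ν + 1)) A}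
    (hF : IsEndo d fun i => map (algebraMap A ℂ) (F i)) :
    ∃ C : ℝ, 0 ≤ C ∧ ∀ y : Fin (ν + 1) → A, y ≠ 0 → ∀ N : ℕ,
      (d : ℝ) ^ N * (aht y - C) ≤ aht (iter F y N) - C := by
  obtain ⟨C, hC0, hC⟩ := growA hF
  refine ⟨C, hC0, fun y hy N => ?_⟩
  have hd : (2 : ℝ) ≤ d := by exact_mod_cast hF.two_le
  induction N with
  | zero => simp [Pool.Agent.Helper36.iter_zero]
  | succ n ih =>
    have h1 := hC (iter F y n) (Pool.Agent.Helper38.TNA.iter_ne_zeroL hF hy n)
    rw [← Pool.Agent.Helper36.iter_succ] at h1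
    have h2 : (d : ℝ) * ((d : ℝ) ^ n * (aht y - C)) ≤ d * (aht (iter F y n) - C) :=
      mul_le_mul_of_nonneg_left ih (by linarith)
    have h3 : 2 * C ≤ d * C := mul_le_mul_of_nonneg_right hd hC0
    rw [pow_succ]
    linarith

end Pool.Agent.Helper45.NZ

end

section

namespace Pool.Agent.Helper36
end Pool.Agent.Helper36
namespace Pool.Agent.Helper38.TQ
end Pool.Agent.Helper38.TQ

/-!
# Project NZ: Northcott's theorem along an orbit
-/

set_option autoImplicit false

namespace Pool.Agent.Helper45.NZ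

open MvPolynomial Height AdmissibleAbsValues
open Pool.Agent.Helper36 (step iter)
open Pool.Agent.Helper38.TQ

variable {ν : ℕ} {A : Type} [Field A] [CharZero A] [IsAlgClosed A] [Algebra.IsAlgebraic ℚ A]
  [Algebra A ℂ]

omit [CharZero A] [IsAlgClosed A] [Algebra.IsAlgebraic ℚ A] [Algebra A ℂ] in
theorem North_map {M : Type} [Field M] [Algebra M A] {σ : Type} {G : MvPolynomial σ A}
    (h : ∀ m ∈ G.support, ∃ α : M, algebraMap M A α = G.coeff m) :
    ∃ G' : MvPolynomial σ M, map (algebraMap M A) G' = G := by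
  have h1 : G ∈ Set.range (map (σ := σ) (algebraMap M A)) := by
    rw [mem_range_map_iff_coeffs_subset]
    intro x hx
    obtain ⟨m, hm, rfl⟩ := mem_coeffs_iff.1 hx
    obtain ⟨α, hα⟩ := h m hm
    exact ⟨α, hα⟩
  exact h1

omit [CharZero A] [IsAlgClosed A] [Algebra.IsAlgebraic ℚ A] [Algebra A ℂ] in
/-- The orbit over the small field. -/
theorem North_iter {M : Type} [Field M] [Algebra M A]
    {F : Fin (ν + 1) → MvPolynomial (Fin (ν + 1)) A}
    {F' : Fin (ν + 1) → MvPolynomial (Fin (ν + 1)) M}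
    (hFF : ∀ i, map (algebraMap M A) (F' i) = F i) (x' : Fin (ν + 1) → M) (n : ℕ) :
    iter F (fun a => algebraMap M A (x' a)) n = fun a => algebraMap M A (iter F' x' n a) := by
  induction n with
  | zero => rfl
  | succ n ih =>
    rw [Pool.Agent.Helper36.iter_succ, Pool.Agent.Helper36.iter_succ, ih]
    funext i
    simp only [step]
    rw [← hFF i, aeval_map_algebraMap]
    exact aeval_algebraMap_apply A (iter F' x' n) (F' i)

/-- The heights of the points of an infinite orbit tend to infinity. -/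
theorem aht_tendsto {d : ℕ} {F : Fin (ν + 1) → MvPolynomial (Fin (ν + 1)) A}
    (hF : IsEndo d fun i => map (algebraMap A ℂ) (F i)) {x : Fin (ν + 1) → A} (hx : x ≠ 0)
    (hdist : ∀ n m, n < m → ¬ PEq (iter F x n) (iter F x m)) (B : ℝ) :
    ∃ n₀, ∀ n, n₀ ≤ n → B < aht (iter F x n) := by
  classical
  obtain ⟨M, _, _, _, α, hα⟩ := exists_field
    (τ := Fin (ν + 1) ⊕ (Σ i : Fin (ν + 1), {m // m ∈ (F i).support}))
    (fun o => Sum.elim (fun a => x a) (fun p => (F p.1).coeff p.2.1) o)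
  set x' : Fin (ν + 1) → M := fun a => α (Sum.inl a) with hx'
  have hxx : x = fun a => algebraMap M A (x' a) := by
    funext a
    exact (hα (Sum.inl a)).symm
  have hF' : ∀ i, ∃ G : MvPolynomial (Fin (ν + 1)) M, map (algebraMap M A) G = F i := by
    intro i
    exact North_map fun m hm => ⟨α (Sum.inr ⟨i, ⟨m, hm⟩⟩), hα (Sum.inr ⟨i, ⟨m, hm⟩⟩)⟩
  choose F' hFF using hF'
  have hx0 : x' ≠ 0 := by
    intro h0
    apply hx
    rw [hxx, h0]
    funext a
    exact map_zero _
  let _ : Algebra M ℂ := ((algebraMap A ℂ).comp (algebraMap M A)).toAlgebra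
  have hmap : (algebraMap M ℂ) = (algebraMap A ℂ).comp (algebraMap M A) := rfl
  have hend : IsEndo d fun i => map (algebraMap M ℂ) (F' i) := by
    have h1 : (fun i => map (algebraMap M ℂ) (F' i)) = fun i => map (algebraMap A ℂ) (F i) := by
      funext i
      rw [← hFF i, map_map, hmap]
    rw [h1]
    exact hF
  have hhom := fun i => Pool.Agent.Helper30.TKN.homog_of_endo hend i
  have hgr := Pool.Agent.Helper36.growth (L := ℂ) hend.two_le F' hhom
    (Pool.Agent.Helper30.TKN.growth_aeval_zero hend) (fun n => iter F' x' n)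
    (fun n => Pool.Agent.Helper38.TNA.iter_ne_zeroL hend hx0 n)
    (fun n => Pool.Agent.Helper36.iter_succ F' x' n)
  rcases hgr with ⟨n, m, hnm, c, hc, hcm⟩ | ⟨n₀, hn₀⟩
  · exfalso
    refine hdist n m hnm ⟨algebraMap M A c, ?_, ?_⟩
    · exact (map_ne_zero (algebraMap M A)).2 hc
    · rw [hxx, North_iter hFF, North_iter hFF, hcm]
      funext a
      simp only [Pi.smul_apply, smul_eq_mul, map_mul]
  · have hd : (0 : ℝ) < Module.finrank ℚ M := by
      exact_mod_cast Module.finrank_pos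
    obtain ⟨k, hk⟩ := pow_unbounded_of_one_lt (B * Module.finrank ℚ M) (one_lt_two : (1 : ℝ) < 2)
    refine ⟨n₀ + k, fun n hn => ?_⟩
    rw [hxx, North_iter hFF, aht_map, lt_div_iff₀ hd]
    refine hk.trans_le ?_
    refine le_trans ?_ (hn₀ n (by omega))
    have hd2 : (2 : ℝ) ≤ d := by exact_mod_cast hend.two_le
    calc (2 : ℝ) ^ k ≤ (d : ℝ) ^ k := pow_le_pow_left₀ (by norm_num) hd2 k
      _ ≤ (d : ℝ) ^ (n - n₀) := pow_le_pow_right₀ (by linarith) (by omega)

end Pool.Agent.Helper45.NZ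

end

section

namespace Pool.Agent.Helper30.TKN
end Pool.Agent.Helper30.TKN
namespace Pool.Agent.Helper30.ZB
end Pool.Agent.Helper30.ZB
namespace Pool.Agent.Helper36
end Pool.Agent.Helper36
namespace Pool.Agent.Helper38.TNA
end Pool.Agent.Helper38.TNA
namespace Pool.Agent.Helper38.TQ
end Pool.Agent.Helper38.TQ
namespace Pool.Agent.Helper63.TN
end Pool.Agent.Helper63.TN

/-!
# Project NZ: curves with infinitely many preperiodic points
-/

set_option autoImplicit false

namespace Pool.Agent.Helper45.NZ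

open MvPolynomial
open Pool.Agent.Helper36 (step iter)
open Pool.Agent.Helper38.TQ
open Pool.Agent.Helper38.TNA
open Pool.Agent.Helper63.TN
open Pool.Agent.Helper30.TKN
open Pool.Agent.Helper30.ZB

variable {ν : ℕ}

/-- The point is preperiodic. -/
def IsPre {A : Type} [Field A] (F : Fin (ν + 1) → MvPolynomial (Fin (ν + 1)) A)
    (w : Fin (ν + 1) → A) : Prop :=
  ∃ m l : ℕ, m < l ∧ PEq (iter F w m) (iter F w l)

/-- The curve contains arbitrarily many preperiodic points. -/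
def ManyPreA {A : Type} [Field A] (I : Ideal (MvPolynomial (Fin (ν + 1)) A))
    (F : Fin (ν + 1) → MvPolynomial (Fin (ν + 1)) A) : Prop :=
  ∀ s : ℕ, ∃ w : Fin s → Fin (ν + 1) → A, (∀ j, OnI I (w j) ∧ IsPre F (w j)) ∧
    ∀ i j, i ≠ j → ¬ PEq (w i) (w j)

variable {A : Type} [Field A] [CharZero A] [IsAlgClosed A] [Algebra.IsAlgebraic ℚ A]
  [Algebra A ℂ]

/-- The points of the orbit of a preperiodic point. -/
theorem pre_iter {d : ℕ} {F : Fin (ν + 1) → MvPolynomial (Fin (ν + 1)) A}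
    (hF : ∀ i, (F i).IsHomogeneous d) {w : Fin (ν + 1) → A} (h : IsPre F w) (N : ℕ) :
    IsPre F (iter F w N) := by
  obtain ⟨m, l, hml, c, hc, hcw⟩ := h
  refine ⟨m, l, hml, c ^ d ^ N, pow_ne_zero _ hc, ?_⟩
  rw [← Pool.Agent.Helper36.iter_add, ← Pool.Agent.Helper36.iter_add, Nat.add_comm l N,
    Nat.add_comm m N, Pool.Agent.Helper36.iter_add, Pool.Agent.Helper36.iter_add, hcw,
    iter_smulL hF]

/-- The heights of the preperiodic points are bounded. -/
theorem pre_bound {d : ℕ} {F : Fin (ν + 1) → MvPolynomial (Fin (ν + 1)) A}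
    (hF : IsEndo d fun i => map (algebraMap A ℂ) (F i)) :
    ∃ C : ℝ, 0 ≤ C ∧ ∀ w : Fin (ν + 1) → A, w ≠ 0 → IsPre F w → aht w ≤ C := by
  obtain ⟨C, hC, hlow⟩ := iter_lower hF
  refine ⟨C, hC, fun w hw hpre => ?_⟩
  obtain ⟨m, l, hml, c, hc, hcw⟩ := hpre
  have hFh := fun i => homog_of_endo hF i
  have h2 : (2 : ℝ) ≤ d := by exact_mod_cast hF.two_le
  obtain ⟨r, rfl⟩ : ∃ r, l = m + r := ⟨l - m, by omega⟩
  have hr : 0 < r := by omega
  set z := iter F w m with hz
  have hz0 : z ≠ 0 := iter_ne_zeroL hF hw m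
  have h3 : aht (iter F z r) = aht z := by
    have h4 : iter F z r = iter F w (m + r) := by
      rw [hz, Nat.add_comm m r, Pool.Agent.Helper36.iter_add]
    rw [h4, hcw]
    exact aht_smul hc z
  have h5 : aht z ≤ C := by
    by_contra hcon
    push Not at hcon
    have h6 := hlow z hz0 r
    rw [h3] at h6
    have h7 : (2 : ℝ) ≤ (d : ℝ) ^ r := by
      calc (2 : ℝ) ≤ d := h2
        _ = (d : ℝ) ^ 1 := (pow_one _).symm
        _ ≤ (d : ℝ) ^ r := pow_le_pow_right₀ (by linarith) hr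
    nlinarith
  have h8 := hlow w hw m
  have h9 : (d : ℝ) ^ m * (aht w - C) ≤ 0 := by
    rw [← hz] at h8
    linarith
  have h10 : (0 : ℝ) < (d : ℝ) ^ m := by positivity
  by_contra hcon
  push Not at hcon
  have := mul_pos h10 (sub_pos.2 hcon)
  linarith

/-- **Curves with infinitely many preperiodic points**: the heights of the returns which are not the
last one are bounded. -/
theorem aht_return_le_pre {d : ℕ} {F : Fin (ν + 1) → MvPolynomial (Fin (ν + 1)) A}
    (hF : IsEndo d fun i => map (algebraMap A ℂ) (F i))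
    {I : Ideal (MvPolynomial (Fin (ν + 1)) A)} (hI : IsCurve I)
    (hnp : NonPer I F) (hmany : ManyPreA I F) (x : Fin (ν + 1) → A) :
    ∃ B : ℝ, ∀ i n, i < n → OnI I (iter F x i) → OnI I (iter F x n) →
      aht (iter F x i) ≤ B := by
  classical
  have : Infinite A := IsAlgClosed.instInfinite
  have hFh := fun i => homog_of_endo hF i
  have hd : 0 < d := by have := hF.two_le; omega
  obtain ⟨S, hS1, hS2⟩ := exists_gens hI.prime hI.hom hnp
  obtain ⟨R₀, hR⟩ := hilb hI
  obtain ⟨C₁, hC₁, hper⟩ := pre_bound hF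
  obtain ⟨C₂, hC₂, hlow⟩ := iter_lower hF
  choose e he hhe using fun h : S => (hS1 h.1 h.2).2
  set Λ : ℝ := Real.log (ν + 1) + ν * Real.log 4 with hΛ
  have hΛ0 : 0 ≤ Λ := by
    rw [hΛ]
    have h1 : 0 ≤ Real.log ((ν : ℝ) + 1) := Real.log_nonneg (by
      have : (0 : ℝ) ≤ ν := Nat.cast_nonneg _
      linarith)
    have h2 : 0 ≤ Real.log 4 := Real.log_nonneg (by norm_num)
    positivity
  -- the bound for the point on the image
  have key : ∀ N, 0 < N → ∀ y : Fin (ν + 1) → A, OnI I y → OnI I (iter F y N) →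
      aht (iter F y N) ≤ (d : ℝ) ^ N * ∑ h : S, R₀ * (2 * e h * C₁ + Cp h.1 + e h * Λ) := by
    intro N hN y hy hyN
    obtain ⟨h, hhS, hhJ⟩ := hS2 N hN
    let J := img F N I
    have hJp : J.IsPrime := img_prime hI.prime
    have hJh : Hom J := img_hom hd hFh hI.hom N
    let T : Set (Fin (ν + 1) → A) := {P | ∃ w : Fin (ν + 1) → A, OnI I w ∧ IsPre F w ∧
      P = iter F w N}
    have hT0 : ∀ P ∈ T, P ≠ 0 := by
      rintro P ⟨w, hw, -, rfl⟩
      exact iter_ne_zeroL hF hw.1 N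
    have hdense : ∀ (g : MvPolynomial (Fin (ν + 1)) A) (m : ℕ), g.IsHomogeneous m → g ∉ J →
        ∃ P ∈ T, eval P g ≠ 0 := by
      intro g m hg hgJ
      by_contra hcon
      push Not at hcon
      have h1 : pull F N g ∉ I := fun h => hgJ (mem_img.2 h)
      obtain ⟨B, hB⟩ := bound_points (k := A) hI (pull_isHomogeneous hFh hg N) h1
      obtain ⟨w, hw, hne⟩ := hmany (B + 1)
      have h2 := hB A (B + 1) w (fun j => ⟨(hw j).1, ?_⟩) hne
      · omega
      · rw [Pool.Agent.Helper38.TNA.aeval_pull]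
        exact hcon (iter F (w j) N) ⟨w j, (hw j).1, (hw j).2, rfl⟩
    have hTJ : ∀ P ∈ T, ∀ g ∈ J, eval P g = 0 := by
      rintro P ⟨w, hw, -, rfl⟩ g hg
      have h1 := Pool.Agent.Helper38.TNA.aeval_pull (L := A) F g N w
      have h2 := hw.2 _ (mem_img.1 hg)
      rw [h1] at h2
      exact h2
    have hTs : ∀ P ∈ T, aht P ≤ C₁ := by
      rintro P ⟨w, hw, hw2, rfl⟩
      exact hper (iter F w N) (iter_ne_zeroL hF hw.1 N) (pre_iter hFh hw2 N)
    have hRJ : ∀ m, R J m ≤ R₀ * d ^ N * m + R₀ := by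
      intro m
      calc R J m ≤ R I (m * d ^ N) := R_img_le hFh I N m
        _ ≤ R₀ * (m * d ^ N) + R₀ := hR _
        _ = _ := by ring
    have h3 := zhang_bezout_number hJp hJh hRJ (he ⟨h, hhS⟩) (hhe ⟨h, hhS⟩) hhJ hC₁ hT0 hTJ
      hdense hTs (y := iter F y N) hyN.1 (fun g hg => by
        have h4 := Pool.Agent.Helper38.TNA.aeval_pull (L := A) F g N y
        have h5 := hy.2 _ (mem_img.1 hg)
        rw [h4] at h5
        exact h5) (hyN.2 h (hS1 h hhS).1)
    refine h3.trans ?_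
    have h5 : (R₀ : ℝ) * (2 * e ⟨h, hhS⟩ * C₁ + Cp h + e ⟨h, hhS⟩ * Λ) ≤
        ∑ h : S, (R₀ : ℝ) * (2 * e h * C₁ + Cp h.1 + e h * Λ) :=
      Finset.single_le_sum (f := fun h : S => (R₀ : ℝ) * (2 * e h * C₁ + Cp h.1 + e h * Λ))
        (fun i _ => by
          have := Cp_nonneg i.1
          positivity) (Finset.mem_univ (⟨h, hhS⟩ : S))
    push_cast
    calc (R₀ : ℝ) * (d : ℝ) ^ N * (2 * e ⟨h, hhS⟩ * C₁ + Cp h +
          e ⟨h, hhS⟩ * (Real.log (ν + 1) + ν * Real.log 4)) =
        (d : ℝ) ^ N * (R₀ * (2 * e ⟨h, hhS⟩ * C₁ + Cp h + e ⟨h, hhS⟩ * Λ)) := by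
          rw [hΛ]; ring
      _ ≤ _ := mul_le_mul_of_nonneg_left h5 (by positivity)
  refine ⟨(∑ h : S, R₀ * (2 * e h * C₁ + Cp h.1 + e h * Λ)) + C₂, fun i n hin hi hn => ?_⟩
  obtain ⟨N, rfl⟩ : ∃ N, n = i + N := ⟨n - i, by omega⟩
  have hN : 0 < N := by omega
  have h1 : iter F x (i + N) = iter F (iter F x i) N := by
    rw [Nat.add_comm i N, Pool.Agent.Helper36.iter_add]
  rw [h1] at hn
  have h2 := key N hN _ hi hn
  have h3 := hlow _ hi.1 N
  have hdN : (0 : ℝ) < (d : ℝ) ^ N := by positivity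
  have h4 : (d : ℝ) ^ N * (aht (iter F x i) - C₂) ≤
      (d : ℝ) ^ N * ∑ h : S, R₀ * (2 * e h * C₁ + Cp h.1 + e h * Λ) := by linarith
  have h5 := le_of_mul_le_mul_left h4 hdN
  linarith

/-- On a curve which is not periodic but contains many preperiodic points there are only finitely
many points of an infinite orbit. -/
theorem caseP {d : ℕ} {F : Fin (ν + 1) → MvPolynomial (Fin (ν + 1)) A}
    (hF : IsEndo d fun i => map (algebraMap A ℂ) (F i))
    {I : Ideal (MvPolynomial (Fin (ν + 1)) A)} (hI : IsCurve I)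
    (hnp : NonPer I F) (hmany : ManyPreA I F) {x : Fin (ν + 1) → A} (hx : x ≠ 0)
    (hdist : ∀ n m, n < m → ¬ PEq (iter F x n) (iter F x m)) :
    {n | OnI I (iter F x n)}.Finite := by
  obtain ⟨B, hB⟩ := aht_return_le_pre hF hI hnp hmany x
  obtain ⟨n₁, hn₁⟩ := aht_tendsto hF hx hdist B
  by_cases h : ∃ i, n₁ ≤ i ∧ OnI I (iter F x i)
  · obtain ⟨i, hi, hiI⟩ := h
    refine (Set.finite_Iic i).subset fun n hn => ?_
    rw [Set.mem_Iic]
    by_contra hcon
    push Not at hcon
    have h1 := hB i n hcon hiI hn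
    have h2 := hn₁ i hi
    linarith
  · push Not at h
    refine (Set.finite_Iio n₁).subset fun n hn => ?_
    rw [Set.mem_Iio]
    by_contra hcon
    push Not at hcon
    exact h n hcon hn

end Pool.Agent.Helper45.NZ

end

section

namespace Pool.Agent.Helper36
end Pool.Agent.Helper36
namespace Pool.Agent.Helper38.TNA
end Pool.Agent.Helper38.TNA
namespace Pool.Agent.Helper38.TQ
end Pool.Agent.Helper38.TQ
namespace Pool.Agent.Helper63.TN
end Pool.Agent.Helper63.TN

/-!
# Project NZ: curves with infinitely many periodic points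
-/

set_option autoImplicit false

namespace Pool.Agent.Helper45.NZ

open MvPolynomial
open Pool.Agent.Helper36 (step iter)
open Pool.Agent.Helper38.TQ
open Pool.Agent.Helper38.TNA
open Pool.Agent.Helper63.TN

variable {ν : ℕ}

/-- The curve contains arbitrarily many periodic points. -/
def ManyPerA {A : Type} [Field A] (I : Ideal (MvPolynomial (Fin (ν + 1)) A))
    (F : Fin (ν + 1) → MvPolynomial (Fin (ν + 1)) A) : Prop :=
  ∀ s : ℕ, ∃ w : Fin s → Fin (ν + 1) → A, (∀ j, OnI I (w j) ∧ IsPer F (w j)) ∧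
    ∀ i j, i ≠ j → ¬ PEq (w i) (w j)

variable {A : Type} [Field A] [CharZero A] [IsAlgClosed A] [Algebra.IsAlgebraic ℚ A]
  [Algebra A ℂ]

theorem pre_of_per {d : ℕ} {F : Fin (ν + 1) → MvPolynomial (Fin (ν + 1)) A}
    (hF : IsEndo d fun i => map (algebraMap A ℂ) (F i)) {w : Fin (ν + 1) → A} (hw : w ≠ 0)
    (h : IsPer F w) : IsPre F w := by
  obtain ⟨M, hM, γ, hγ⟩ := h
  refine ⟨0, M, hM, γ, ?_, hγ⟩
  rintro rfl
  rw [zero_smul] at hγ
  exact iter_ne_zeroL hF hw M hγ

/-- On a curve which is not periodic but contains many periodic points there are only finitely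
many points of an infinite orbit. -/
theorem caseA {d : ℕ} {F : Fin (ν + 1) → MvPolynomial (Fin (ν + 1)) A}
    (hF : IsEndo d fun i => map (algebraMap A ℂ) (F i))
    {I : Ideal (MvPolynomial (Fin (ν + 1)) A)} (hI : IsCurve I)
    (hnp : NonPer I F) (hmany : ManyPerA I F) {x : Fin (ν + 1) → A} (hx : x ≠ 0)
    (hdist : ∀ n m, n < m → ¬ PEq (iter F x n) (iter F x m)) :
    {n | OnI I (iter F x n)}.Finite := by
  refine caseP hF hI hnp (fun s => ?_) hx hdist
  obtain ⟨w, hw, hne⟩ := hmany s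
  exact ⟨w, fun j => ⟨(hw j).1, pre_of_per hF (hw j).1.1 (hw j).2⟩, hne⟩

end Pool.Agent.Helper45.NZ

end
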