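import Pool.Agent.Helper29.MG2.T01
import Pool.Agent.Helper29.MG2.T02
import Pool.Agent.Helper29.MG2.T40
import Pool.Agent.Helper29.MG2.T07
import Pool.Agent.Helper29.MG2.T22

section

/-!
# The class of analytic functions: closure properties (SS-1)
-/

set_option autoImplicit false

namespace Pool.Agent.Helper33.SS

open MvPolynomial

variable {K : Type*} [NormedField K] [IsUltrametricDist K] {ρ : ℝ}

section aux

omit [IsUltrametricDist K] in
/-- one difference more -/
theorem fd_succ (f : ℕ → K) (k n : ℕ) :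
    (fwdDiff 1)^[k + 1] f n = (fwdDiff 1)^[k] f (n + 1) - (fwdDiff 1)^[k] f n := by
  rw [Function.iterate_succ_apply']
  rfl

omit [IsUltrametricDist K] in
theorem fd_add (f g : ℕ → K) (k n : ℕ) :
    (fwdDiff 1)^[k] (fun m => f m + g m) n = (fwdDiff 1)^[k] f n + (fwdDiff 1)^[k] g n := by
  induction k generalizing n with
  | zero => rfl
  | succ k ih => rw [fd_succ, fd_succ, fd_succ, ih, ih]; ring

omit [IsUltrametricDist K] in
theorem fd_const_mul (c : K) (f : ℕ → K) (k n : ℕ) :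
    (fwdDiff 1)^[k] (fun m => c * f m) n = c * (fwdDiff 1)^[k] f n := by
  induction k generalizing n with
  | zero => rfl
  | succ k ih => rw [fd_succ, fd_succ, ih, ih]; ring

omit [IsUltrametricDist K] in
theorem fd_shift (f : ℕ → K) (k n : ℕ) :
    (fwdDiff 1)^[k] (fun m => f (m + 1)) n = (fwdDiff 1)^[k] f (n + 1) := by
  induction k generalizing n with
  | zero => rfl
  | succ k ih => rw [fd_succ, fd_succ, ih, ih]

omit [IsUltrametricDist K] in
theorem fd_diff (f : ℕ → K) (k n : ℕ) :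
    (fwdDiff 1)^[k] (fun m => f (m + 1) - f m) n = (fwdDiff 1)^[k + 1] f n := by
  induction k generalizing n with
  | zero => rfl
  | succ k ih => rw [fd_succ, fd_succ (k := k + 1), ih, ih]

theorem nadd_le (a b : K) {C : ℝ} (ha : ‖a‖ ≤ C) (hb : ‖b‖ ≤ C) : ‖a + b‖ ≤ C :=
  (IsUltrametricDist.norm_add_le_max a b).trans (max_le ha hb)

omit [IsUltrametricDist K] in
theorem Adic.congr {f g : ℕ → K} (hf : Adic ρ f) (h : ∀ n, g n = f n) : Adic ρ g := by
  have : g = f := funext h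
  rwa [this]

/-- product rule with explicit constants -/
theorem mul_bound (hρ : 0 ≤ ρ) (k : ℕ) : ∀ (f g : ℕ → K) (A B : ℝ), 0 ≤ A → 0 ≤ B →
    (∀ j m, ‖(fwdDiff 1)^[j] f m‖ ≤ A * ρ ^ j) → (∀ j m, ‖(fwdDiff 1)^[j] g m‖ ≤ B * ρ ^ j) →
    ∀ n, ‖(fwdDiff 1)^[k] (fun m => f m * g m) n‖ ≤ A * B * ρ ^ k := by
  induction k with
  | zero =>
    intro f g A B hA hB hf hg n
    have h1 := hf 0 n
    have h2 := hg 0 n
    simp only [Function.iterate_zero, id_eq, pow_zero, mul_one] at h1 h2 ⊢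
    rw [norm_mul]
    exact mul_le_mul h1 h2 (norm_nonneg _) hA
  | succ k ih =>
    intro f g A B hA hB hf hg n
    have e1 : (fwdDiff 1)^[k + 1] (fun m => f m * g m) n =
        (fwdDiff 1)^[k] (fun m => (f (m + 1) - f m) * g (m + 1)) n +
          (fwdDiff 1)^[k] (fun m => f m * (g (m + 1) - g m)) n := by
      have h : (fun m => f (m + 1) * g (m + 1) - f m * g m) =
          fun m => (f (m + 1) - f m) * g (m + 1) + f m * (g (m + 1) - g m) := by
        funext m
        ring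
      rw [← fd_diff, h, fd_add]
    rw [e1]
    have h1 : ‖(fwdDiff 1)^[k] (fun m => (f (m + 1) - f m) * g (m + 1)) n‖ ≤
        A * B * ρ ^ (k + 1) := by
      have := ih (fun m => f (m + 1) - f m) (fun m => g (m + 1)) (A * ρ) B
        (mul_nonneg hA hρ) hB
        (fun j m => by rw [fd_diff]; exact (hf (j + 1) m).trans (le_of_eq (by ring)))
        (fun j m => by rw [fd_shift]; exact hg j (m + 1)) n
      exact this.trans (le_of_eq (by ring))
    have h2 : ‖(fwdDiff 1)^[k] (fun m => f m * (g (m + 1) - g m)) n‖ ≤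
        A * B * ρ ^ (k + 1) := by
      have := ih f (fun m => g (m + 1) - g m) A (B * ρ) hA (mul_nonneg hB hρ) hf
        (fun j m => by rw [fd_diff]; exact (hg (j + 1) m).trans (le_of_eq (by ring))) n
      exact this.trans (le_of_eq (by ring))
    exact nadd_le _ _ h1 h2

end aux

theorem Adic.bdd {f : ℕ → K} (hf : Adic ρ f) : ∃ C : ℝ, ∀ n, ‖f n‖ ≤ C := by
  obtain ⟨C, hC⟩ := hf
  exact ⟨C, fun n => by simpa using hC 0 n⟩

omit [IsUltrametricDist K] in
theorem Adic.nonneg {f : ℕ → K} {C : ℝ} (hC : ∀ k n : ℕ, ‖(fwdDiff 1)^[k] f n‖ ≤ C * ρ ^ k) :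
    0 ≤ C := by
  have := hC 0 0
  simp only [pow_zero, mul_one] at this
  exact (norm_nonneg _).trans this

theorem Adic.const (hρ : 0 ≤ ρ) (c : K) : Adic ρ (fun _ => c) := by
  refine ⟨‖c‖, fun k n => ?_⟩
  cases k with
  | zero => simp
  | succ k =>
    have : ∀ (k n : ℕ), (fwdDiff 1)^[k + 1] (fun _ : ℕ => c) n = 0 := by
      intro k
      induction k with
      | zero => intro n; rw [fd_succ]; simp
      | succ k ih => intro n; rw [fd_succ, ih, ih, sub_zero]
    rw [this, norm_zero]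
    positivity

theorem Adic.add (hρ : 0 ≤ ρ) {f g : ℕ → K} (hf : Adic ρ f) (hg : Adic ρ g) :
    Adic ρ (fun n => f n + g n) := by
  obtain ⟨C, hC⟩ := hf
  obtain ⟨D, hD⟩ := hg
  refine ⟨max C D, fun k n => ?_⟩
  rw [fd_add]
  refine nadd_le _ _ ((hC k n).trans ?_) ((hD k n).trans ?_)
  · exact mul_le_mul_of_nonneg_right (le_max_left _ _) (pow_nonneg hρ k)
  · exact mul_le_mul_of_nonneg_right (le_max_right _ _) (pow_nonneg hρ k)

/-- product rule: `Δ (f g) (n) = Δ f (n) * g (n + 1) + f (n) * Δ g (n)`; induct on the number of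
differences with constants `C_f`, `C_g` general -/
theorem Adic.mul (hρ : 0 ≤ ρ) {f g : ℕ → K} (hf : Adic ρ f) (hg : Adic ρ g) :
    Adic ρ (fun n => f n * g n) := by
  obtain ⟨C, hC⟩ := hf
  obtain ⟨D, hD⟩ := hg
  exact ⟨C * D, fun k n => mul_bound hρ k f g C D (Adic.nonneg hC) (Adic.nonneg hD) hC hD n⟩

theorem Adic.const_mul (hρ : 0 ≤ ρ) (c : K) {f : ℕ → K} (hf : Adic ρ f) :
    Adic ρ (fun n => c * f n) :=
  Adic.mul hρ (Adic.const hρ c) hf

theorem Adic.sum (hρ : 0 ≤ ρ) {ι : Type*} (s : Finset ι) {f : ι → ℕ → K}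
    (hf : ∀ i ∈ s, Adic ρ (f i)) : Adic ρ (fun n => ∑ i ∈ s, f i n) := by
  classical
  induction s using Finset.induction_on with
  | empty => simpa using Adic.const hρ (0 : K)
  | insert a s ha ih =>
    have h1 := hf a (Finset.mem_insert_self a s)
    have h2 := ih (fun i hi => hf i (Finset.mem_insert_of_mem hi))
    exact (Adic.add hρ h1 h2).congr (fun n => Finset.sum_insert ha)

theorem Adic.eval (hρ : 0 ≤ ρ) {σ : Type*} {f : ℕ → σ → K} (hf : ∀ i, Adic ρ (fun n => f n i))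
    (P : MvPolynomial σ K) : Adic ρ (fun n => MvPolynomial.eval (f n) P) := by
  induction P using MvPolynomial.induction_on with
  | C a => exact (Adic.const hρ a).congr (fun n => by simp)
  | add p q hp hq => exact (Adic.add hρ hp hq).congr (fun n => by simp)
  | mul_X p i hp => exact (Adic.mul hρ hp (hf i)).congr (fun n => by simp)

theorem norm_le_one_of_sub {ν : K} (hρ1 : ρ ≤ 1) (hν : ‖ν - 1‖ ≤ ρ) : ‖ν‖ ≤ 1 := by
  have : ν = (ν - 1) + 1 := by ring
  rw [this]
  exact nadd_le _ _ (hν.trans hρ1) (by simp)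

theorem Adic.pow (hρ : 0 ≤ ρ) (hρ1 : ρ ≤ 1) {ν : K} (hν : ‖ν - 1‖ ≤ ρ) :
    Adic ρ (fun n => ν ^ n) := by
  have hν1 : ‖ν‖ ≤ 1 := norm_le_one_of_sub hρ1 hν
  refine ⟨1, fun k n => ?_⟩
  have key : ∀ k n : ℕ, (fwdDiff 1)^[k] (fun m : ℕ => ν ^ m) n = (ν - 1) ^ k * ν ^ n := by
    intro k
    induction k with
    | zero => intro n; simp
    | succ k ih => intro n; rw [fd_succ, ih, ih]; ring
  rw [key, norm_mul, norm_pow, norm_pow, one_mul]
  calc ‖ν - 1‖ ^ k * ‖ν‖ ^ n ≤ ρ ^ k * 1 :=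
        mul_le_mul (pow_le_pow_left₀ (norm_nonneg _) hν k) (pow_le_one₀ (norm_nonneg _) hν1)
          (by positivity) (by positivity)
    _ = ρ ^ k := mul_one _

/-- the resonant first order equation; define `f` by recursion, `Δ f = (ν - 1) f + g` -/
theorem Adic.solve_one (hρ : 0 < ρ) (hρ1 : ρ ≤ 1) {ν : K} (hν : ‖ν - 1‖ ≤ ρ) {g : ℕ → K}
    (hg : Adic ρ g) : ∃ f : ℕ → K, Adic ρ f ∧ ∀ n, f (n + 1) = ν * f n + g n := by
  obtain ⟨D, hD⟩ := hg
  have hD0 : 0 ≤ D := Adic.nonneg hD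
  have hν1 : ‖ν‖ ≤ 1 := norm_le_one_of_sub hρ1 hν
  let f : ℕ → K := fun n => Nat.rec (0 : K) (fun m a => ν * a + g m) n
  have hf : ∀ n, f (n + 1) = ν * f n + g n := fun n => rfl
  refine ⟨f, ⟨D / ρ, ?_⟩, hf⟩
  have hb : ∀ n, ‖f n‖ ≤ D := by
    intro n
    induction n with
    | zero => simpa [f] using hD0
    | succ n ih =>
      rw [hf]
      refine nadd_le _ _ ?_ (by simpa using hD 0 n)
      rw [norm_mul]
      calc ‖ν‖ * ‖f n‖ ≤ 1 * D := mul_le_mul hν1 ih (norm_nonneg _) zero_le_one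
        _ = D := one_mul _
  have hDρ : D ≤ D / ρ := by
    rw [le_div_iff₀ hρ]
    exact mul_le_of_le_one_right hD0 hρ1
  intro k
  induction k with
  | zero =>
    intro n
    simpa using (hb n).trans hDρ
  | succ k ih =>
    intro n
    have e1 : (fwdDiff 1)^[k + 1] f n = (ν - 1) * (fwdDiff 1)^[k] f n + (fwdDiff 1)^[k] g n := by
      have h : (fun m => f (m + 1) - f m) = fun m => (ν - 1) * f m + g m := by
        funext m
        rw [hf]
        ring
      rw [← fd_diff, h, fd_add, fd_const_mul]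
    rw [e1]
    refine nadd_le _ _ ?_ ((hD k n).trans (le_of_eq ?_))
    · rw [norm_mul]
      calc ‖ν - 1‖ * ‖(fwdDiff 1)^[k] f n‖ ≤ ρ * (D / ρ * ρ ^ k) :=
            mul_le_mul hν (ih n) (norm_nonneg _) hρ.le
        _ = D / ρ * ρ ^ (k + 1) := by ring
    · field_simp
      ring

/-- the non-resonant first order equation:
`f n = ∑' j, (-α) ^ j / (α + β) ^ (j + 1) * (Δ^j g) n` -/
theorem Adic.solve [CompleteSpace K] (hρ : 0 < ρ) (hρ1 : ρ < 1) {α β : K} (hα : ‖α‖ ≤ 1)
    (hαβ : ‖α + β‖ = 1) {g : ℕ → K} (hg : Adic ρ g) :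
    ∃ f : ℕ → K, Adic ρ f ∧ ∀ n, α * f (n + 1) + β * f n = g n := by
  obtain ⟨D, hD⟩ := hg
  have hD0 : 0 ≤ D := Adic.nonneg hD
  have h0 : α + β ≠ 0 := by
    intro h
    rw [h, norm_zero] at hαβ
    exact zero_ne_one hαβ
  let c : ℕ → K := fun j => (-α) ^ j / (α + β) ^ (j + 1)
  have hc : ∀ j, ‖c j‖ ≤ 1 := by
    intro j
    simp only [c]
    rw [norm_div, norm_pow, norm_pow, norm_neg, hαβ, one_pow, div_one]
    exact pow_le_one₀ (norm_nonneg _) hα
  have hterm : ∀ k j n, ‖c j * (fwdDiff 1)^[k + j] g n‖ ≤ D * ρ ^ k * ρ ^ j := by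
    intro k j n
    rw [norm_mul]
    calc ‖c j‖ * ‖(fwdDiff 1)^[k + j] g n‖ ≤ 1 * (D * ρ ^ (k + j)) :=
          mul_le_mul (hc j) (hD _ _) (norm_nonneg _) zero_le_one
      _ = D * ρ ^ k * ρ ^ j := by rw [pow_add]; ring
  have hgeo : ∀ k : ℕ, Summable (fun j : ℕ => D * ρ ^ k * ρ ^ j) := fun k =>
    (summable_geometric_of_lt_one hρ.le hρ1).mul_left _
  have hs : ∀ k n, Summable (fun j => c j * (fwdDiff 1)^[k + j] g n) := fun k n =>
    Summable.of_norm_bounded (hgeo k) (fun j => hterm k j n)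
  let f : ℕ → K := fun n => ∑' j, c j * (fwdDiff 1)^[0 + j] g n
  have hfk : ∀ k n, (fwdDiff 1)^[k] f n = ∑' j, c j * (fwdDiff 1)^[k + j] g n := by
    intro k
    induction k with
    | zero => intro n; rfl
    | succ k ih =>
      intro n
      rw [fd_succ, ih, ih, ← (hs k (n + 1)).tsum_sub (hs k n)]
      refine tsum_congr (fun j => ?_)
      have : k + 1 + j = (k + j) + 1 := by ring
      rw [this, fd_succ]
      ring
  refine ⟨f, ⟨D * (1 - ρ)⁻¹, fun k n => ?_⟩, fun n => ?_⟩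
  · rw [hfk]
    have h1 := tsum_of_norm_bounded ((hgeo k).hasSum) (fun j => hterm k j n)
    rw [tsum_mul_left, tsum_geometric_of_lt_one hρ.le hρ1] at h1
    exact h1.trans (le_of_eq (by ring))
  · have e1 : α * f (n + 1) + β * f n = α * (fwdDiff 1)^[1] f n + (α + β) * f n := by
      have : (fwdDiff 1)^[1] f n = f (n + 1) - f n := rfl
      rw [this]
      ring
    have e2 : f n = ∑' j, c j * (fwdDiff 1)^[j] g n := by
      simp only [f, zero_add]
    have hs0 : Summable (fun j => c j * (fwdDiff 1)^[j] g n) := by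
      simpa using hs 0 n
    have hs1 : Summable (fun j => c j * (fwdDiff 1)^[j + 1] g n) := by
      simpa [add_comm] using hs 1 n
    have e3 : (fwdDiff 1)^[1] f n = ∑' j, c j * (fwdDiff 1)^[j + 1] g n := by
      rw [hfk]
      exact tsum_congr (fun j => by rw [add_comm])
    rw [e1, e3, e2, hs0.tsum_eq_zero_add, mul_add, ← tsum_mul_left, ← tsum_mul_left]
    have hcj : ∀ j, (α + β) * (c (j + 1) * (fwdDiff 1)^[j + 1] g n) =
        - (α * (c j * (fwdDiff 1)^[j + 1] g n)) := by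
      intro j
      simp only [c]
      rw [pow_succ (-α) j, pow_succ (α + β) (j + 1)]
      field_simp
    have hc0 : (α + β) * (c 0 * (fwdDiff 1)^[0] g n) = g n := by
      simp only [c, pow_zero, zero_add, pow_one, Function.iterate_zero, id_eq]
      field_simp
    simp only [hcj, hc0]
    rw [tsum_neg]
    ring

end Pool.Agent.Helper33.SS

end

section

/-!
# Asymptotic expansions: closure properties (SS-4)
-/

set_option autoImplicit false

namespace Pool.Agent.Helper33.SS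

open MvPolynomial

variable {K : Type*} [NormedField K] [IsUltrametricDist K] {ρ : ℝ} {w : K} {M : ℕ}

section expaux

omit [IsUltrametricDist K] in
theorem pow_norm_mono (hw : ‖w‖ ≤ 1) {a b : ℕ} (h : a ≤ b) (n : ℕ) :
    ‖w‖ ^ (b * n) ≤ ‖w‖ ^ (a * n) :=
  pow_le_pow_of_le_one (norm_nonneg _) hw (Nat.mul_le_mul_right n h)

omit [IsUltrametricDist K] in
/-- raise the constant of a bound to a nonnegative one -/
theorem bound_max {a : ℕ → K} {C : ℝ} {g : ℕ → ℝ} (hg : ∀ n, 0 ≤ g n)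
    (h : ∀ n, ‖a n‖ ≤ C * g n) : ∀ n, ‖a n‖ ≤ max C 0 * g n := fun n =>
  (h n).trans (mul_le_mul_of_nonneg_right (le_max_left _ _) (hg n))

omit [IsUltrametricDist K] in
theorem HasExp.of_bound_aux (hρ : 0 ≤ ρ) {a : ℕ → K} {C : ℝ}
    (h : ∀ n, ‖a n‖ ≤ C * ‖w‖ ^ (M * n)) : HasExp ρ w M a := by
  refine ⟨fun _ _ => 0, fun j => ⟨0, fun k n => ?_⟩, C, fun n => ?_⟩
  · have : (fwdDiff 1)^[k] (fun _ : ℕ => (0 : K)) n = 0 := by
      have := fd_const_mul (0 : K) (fun _ => 0) k n
      simpa using this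
    rw [this]
    simp
  · simpa using h n

end expaux

theorem HasExp.term (hρ : 0 ≤ ρ) (hw : ‖w‖ ≤ 1) (k : ℕ) {h : ℕ → K} (hh : Adic ρ h) :
    HasExp ρ w M (fun n => w ^ (k * n) * h n) := by
  by_cases hk : k < M
  · refine ⟨fun j => if j = k then h else fun _ => 0, ?_, 0, ?_⟩
    · intro j
      dsimp only
      split_ifs
      · exact hh
      · exact Adic.const hρ 0
    · intro n
      rw [Finset.sum_eq_single k]
      · simp
      · intro j _ hjk
        simp [hjk]
      · intro h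
        exact absurd (Finset.mem_range.mpr hk) h
  · obtain ⟨C, hC⟩ := hh.bdd
    refine HasExp.of_bound_aux hρ (C := max C 0) (fun n => ?_)
    rw [norm_mul, norm_pow, mul_comm]
    exact mul_le_mul ((hC n).trans (le_max_left _ _)) (pow_norm_mono hw (not_lt.mp hk) n)
      (by positivity) (le_max_right _ _)

theorem HasExp.of_adic (hρ : 0 ≤ ρ) (hw : ‖w‖ ≤ 1) {f : ℕ → K} (hf : Adic ρ f) :
    HasExp ρ w M f := by
  have := HasExp.term (M := M) hρ hw 0 hf
  simpa using this

theorem HasExp.of_bound (hρ : 0 ≤ ρ) {a : ℕ → K} {C : ℝ} (h : ∀ n, ‖a n‖ ≤ C * ‖w‖ ^ (M * n)) :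
    HasExp ρ w M a := HasExp.of_bound_aux hρ h

section expaux2

/-- the main part of an expansion is bounded -/
theorem main_bdd (hw : ‖w‖ ≤ 1) (s : Finset ℕ) (M' : ℕ) (hs : ∀ j ∈ s, M' ≤ j)
    {f : ℕ → ℕ → K} (hf : ∀ j, Adic ρ (f j)) :
    ∃ C : ℝ, ∀ n, ‖∑ j ∈ s, w ^ (j * n) * f j n‖ ≤ C * ‖w‖ ^ (M' * n) := by
  have h1 : ∀ j, ∃ C : ℝ, 0 ≤ C ∧ ∀ n, ‖f j n‖ ≤ C := by
    intro j
    obtain ⟨C, hC⟩ := (hf j).bdd
    exact ⟨max C 0, le_max_right _ _, fun n => (hC n).trans (le_max_left _ _)⟩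
  choose C hC0 hC using h1
  refine ⟨∑ j ∈ s, C j, fun n => ?_⟩
  rw [Finset.sum_mul]
  refine (norm_sum_le _ _).trans (Finset.sum_le_sum (fun j hj => ?_))
  rw [norm_mul, norm_pow, mul_comm]
  exact mul_le_mul (hC j n) (pow_norm_mono hw (hs j hj) n) (by positivity) (hC0 j)

end expaux2

theorem HasExp.bdd (hw : ‖w‖ ≤ 1) {a : ℕ → K} (ha : HasExp ρ w M a) :
    ∃ C : ℝ, ∀ n, ‖a n‖ ≤ C := by
  obtain ⟨f, hf, C, hC⟩ := ha
  obtain ⟨D, hD⟩ := main_bdd hw (Finset.range M) 0 (fun j _ => Nat.zero_le j) hf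
  refine ⟨max C 0 + max D 0, fun n => ?_⟩
  have e : a n = (a n - ∑ j ∈ Finset.range M, w ^ (j * n) * f j n)
      + ∑ j ∈ Finset.range M, w ^ (j * n) * f j n := by ring
  rw [e]
  refine (norm_add_le _ _).trans (add_le_add ?_ ?_)
  · refine (hC n).trans ?_
    calc C * ‖w‖ ^ (M * n) ≤ max C 0 * ‖w‖ ^ (M * n) :=
          mul_le_mul_of_nonneg_right (le_max_left _ _) (by positivity)
      _ ≤ max C 0 * 1 := mul_le_mul_of_nonneg_left (pow_le_one₀ (norm_nonneg _) hw)
          (le_max_right _ _)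
      _ = max C 0 := mul_one _
  · refine (hD n).trans ?_
    simp

theorem HasExp.mono (hρ : 0 ≤ ρ) (hw : ‖w‖ ≤ 1) {M' : ℕ} (hM : M' ≤ M) {a : ℕ → K}
    (ha : HasExp ρ w M a) : HasExp ρ w M' a := by
  obtain ⟨f, hf, C, hC⟩ := ha
  obtain ⟨D, hD⟩ := main_bdd hw (Finset.Ico M' M) M' (fun j hj => (Finset.mem_Ico.mp hj).1) hf
  refine ⟨f, hf, max C 0 + D, fun n => ?_⟩
  have e : a n - ∑ j ∈ Finset.range M', w ^ (j * n) * f j n
      = (a n - ∑ j ∈ Finset.range M, w ^ (j * n) * f j n)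
        + ∑ j ∈ Finset.Ico M' M, w ^ (j * n) * f j n := by
    rw [← Finset.sum_range_add_sum_Ico _ hM]
    ring
  rw [e, add_mul]
  refine (norm_add_le _ _).trans (add_le_add ?_ (hD n))
  refine (hC n).trans ?_
  calc C * ‖w‖ ^ (M * n) ≤ max C 0 * ‖w‖ ^ (M * n) :=
        mul_le_mul_of_nonneg_right (le_max_left _ _) (by positivity)
    _ ≤ max C 0 * ‖w‖ ^ (M' * n) := mul_le_mul_of_nonneg_left (pow_norm_mono hw hM n)
        (le_max_right _ _)

theorem HasExp.add (hρ : 0 ≤ ρ) {a b : ℕ → K} (ha : HasExp ρ w M a) (hb : HasExp ρ w M b) :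
    HasExp ρ w M (fun n => a n + b n) := by
  obtain ⟨f, hf, C, hC⟩ := ha
  obtain ⟨g, hg, D, hD⟩ := hb
  refine ⟨fun j n => f j n + g j n, fun j => Adic.add hρ (hf j) (hg j), C + D, fun n => ?_⟩
  have e : a n + b n - ∑ j ∈ Finset.range M, w ^ (j * n) * (f j n + g j n)
      = (a n - ∑ j ∈ Finset.range M, w ^ (j * n) * f j n)
        + (b n - ∑ j ∈ Finset.range M, w ^ (j * n) * g j n) := by
    simp only [mul_add, Finset.sum_add_distrib]
    ring
  rw [e, add_mul]
  exact (norm_add_le _ _).trans (add_le_add (hC n) (hD n))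

theorem HasExp.const_mul (hρ : 0 ≤ ρ) (c : K) {a : ℕ → K} (ha : HasExp ρ w M a) :
    HasExp ρ w M (fun n => c * a n) := by
  obtain ⟨f, hf, C, hC⟩ := ha
  refine ⟨fun j n => c * f j n, fun j => Adic.const_mul hρ c (hf j), ‖c‖ * C, fun n => ?_⟩
  have e : c * a n - ∑ j ∈ Finset.range M, w ^ (j * n) * (c * f j n)
      = c * (a n - ∑ j ∈ Finset.range M, w ^ (j * n) * f j n) := by
    rw [mul_sub, Finset.mul_sum]
    congr 1
    refine Finset.sum_congr rfl (fun j _ => ?_)
    ring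
  rw [e, norm_mul, mul_assoc]
  exact mul_le_mul_of_nonneg_left (hC n) (norm_nonneg _)

theorem HasExp.sum (hρ : 0 ≤ ρ) {ι : Type*} (s : Finset ι) {a : ι → ℕ → K}
    (ha : ∀ i ∈ s, HasExp ρ w M (a i)) : HasExp ρ w M (fun n => ∑ i ∈ s, a i n) := by
  classical
  induction s using Finset.induction_on with
  | empty =>
    refine HasExp.of_bound hρ (C := 0) (fun n => ?_)
    simp
  | insert i s hi ih =>
    have h1 := ha i (Finset.mem_insert_self i s)
    have h2 := ih (fun j hj => ha j (Finset.mem_insert_of_mem hj))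
    have h3 := HasExp.add hρ h1 h2
    have e : (fun n => ∑ j ∈ insert i s, a j n) = fun n => a i n + ∑ j ∈ s, a j n := by
      funext n
      exact Finset.sum_insert hi
    rw [e]
    exact h3

section expaux3

/-- the product of the main parts has expansions of all orders -/
theorem HasExp.main_mul (hρ : 0 ≤ ρ) (hw : ‖w‖ ≤ 1) {f g : ℕ → ℕ → K} (hf : ∀ j, Adic ρ (f j))
    (hg : ∀ j, Adic ρ (g j)) (N M' : ℕ) :
    HasExp ρ w M' (fun n => (∑ j ∈ Finset.range N, w ^ (j * n) * f j n)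
      * ∑ j ∈ Finset.range N, w ^ (j * n) * g j n) := by
  have e : (fun n => (∑ j ∈ Finset.range N, w ^ (j * n) * f j n)
      * ∑ j ∈ Finset.range N, w ^ (j * n) * g j n)
      = fun n => ∑ i ∈ Finset.range N, ∑ j ∈ Finset.range N,
          w ^ ((i + j) * n) * (f i n * g j n) := by
    funext n
    rw [Finset.sum_mul_sum]
    refine Finset.sum_congr rfl (fun i _ => Finset.sum_congr rfl (fun j _ => ?_))
    rw [add_mul, pow_add]
    ring
  rw [e]
  exact HasExp.sum hρ _ (fun i _ => HasExp.sum hρ _ (fun j _ =>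
    HasExp.term hρ hw (i + j) (Adic.mul hρ (hf i) (hg j))))

omit [IsUltrametricDist K] in
/-- bound of a product from bounds of the factors -/
theorem mul_bd {a b : ℕ → K} {C D : ℝ} {g h : ℕ → ℝ} (hg : ∀ n, 0 ≤ g n)
    (ha : ∀ n, ‖a n‖ ≤ C * g n) (hb : ∀ n, ‖b n‖ ≤ D * h n) (hC : 0 ≤ C) :
    ∀ n, ‖a n * b n‖ ≤ C * D * (g n * h n) := by
  intro n
  rw [norm_mul]
  calc ‖a n‖ * ‖b n‖ ≤ (C * g n) * (D * h n) :=
        mul_le_mul (ha n) (hb n) (norm_nonneg _) (mul_nonneg hC (hg n))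
    _ = C * D * (g n * h n) := by ring

end expaux3

theorem HasExp.mul (hρ : 0 ≤ ρ) (hw : ‖w‖ ≤ 1) {a b : ℕ → K} (ha : HasExp ρ w M a)
    (hb : HasExp ρ w M b) : HasExp ρ w M (fun n => a n * b n) := by
  obtain ⟨B, hB⟩ := hb.bdd hw
  obtain ⟨f, hf, C, hC⟩ := ha
  obtain ⟨g, hg, D, hD⟩ := hb
  obtain ⟨A, hA⟩ := main_bdd hw (Finset.range M) 0 (fun j _ => Nat.zero_le j) hf
  have hpos : ∀ n : ℕ, 0 ≤ ‖w‖ ^ (M * n) := fun n => by positivity
  have h1 := HasExp.main_mul (ρ := ρ) hρ hw hf hg M M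
  have h2 : HasExp ρ w M (fun n =>
      (a n - ∑ j ∈ Finset.range M, w ^ (j * n) * f j n) * b n) := by
    have hB' : ∀ n, ‖b n‖ ≤ B * 1 := fun n => by simpa using hB n
    have := mul_bd (h := fun _ => 1) hpos (bound_max hpos hC) hB' (le_max_right _ _)
    exact HasExp.of_bound hρ (C := max C 0 * B) (fun n => (this n).trans (le_of_eq (by ring)))
  have h3 : HasExp ρ w M (fun n => (∑ j ∈ Finset.range M, w ^ (j * n) * f j n)
      * (b n - ∑ j ∈ Finset.range M, w ^ (j * n) * g j n)) := by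
    have hA' : ∀ n, ‖∑ j ∈ Finset.range M, w ^ (j * n) * f j n‖ ≤ A * 1 := fun n => by
      simpa using hA n
    have := mul_bd (g := fun _ => 1) (fun _ => zero_le_one)
      (bound_max (fun _ => zero_le_one) hA') hD (le_max_right _ _)
    exact HasExp.of_bound hρ (C := max A 0 * D) (fun n => (this n).trans (le_of_eq (by ring)))
  have h4 := HasExp.add hρ h1 (HasExp.add hρ h2 h3)
  have e : (fun n => a n * b n) = fun n => (∑ j ∈ Finset.range M, w ^ (j * n) * f j n)
      * (∑ j ∈ Finset.range M, w ^ (j * n) * g j n)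
      + ((a n - ∑ j ∈ Finset.range M, w ^ (j * n) * f j n) * b n
      + (∑ j ∈ Finset.range M, w ^ (j * n) * f j n)
      * (b n - ∑ j ∈ Finset.range M, w ^ (j * n) * g j n)) := by
    funext n
    ring
  rw [e]
  exact h4

/-- multiplying two small sequences gains one order -/
theorem HasExp.mul_gain (hρ : 0 ≤ ρ) (hw : ‖w‖ ≤ 1) {a b : ℕ → K} (ha : HasExp ρ w M a)
    (hb : HasExp ρ w M b) {Ca Cb : ℝ} (ha' : ∀ n, ‖a n‖ ≤ Ca * ‖w‖ ^ n)
    (hb' : ∀ n, ‖b n‖ ≤ Cb * ‖w‖ ^ n) : HasExp ρ w (M + 1) (fun n => a n * b n) := by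
  have hpos1 : ∀ n : ℕ, 0 ≤ ‖w‖ ^ n := fun n => by positivity
  have hposM : ∀ n : ℕ, 0 ≤ ‖w‖ ^ (M * n) := fun n => by positivity
  rcases Nat.eq_zero_or_pos M with rfl | hM
  · have h1 := mul_bd hpos1 (bound_max hpos1 ha') (bound_max hpos1 hb') (le_max_right _ _)
    refine HasExp.of_bound hρ (C := max Ca 0 * max Cb 0) (fun n => (h1 n).trans ?_)
    refine mul_le_mul_of_nonneg_left ?_ (mul_nonneg (le_max_right _ _) (le_max_right _ _))
    rw [zero_add, one_mul]
    exact mul_le_of_le_one_right (hpos1 n) (pow_le_one₀ (norm_nonneg _) hw)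
  obtain ⟨f, hf, C, hC⟩ := ha
  obtain ⟨g, hg, D, hD⟩ := hb
  have h1 := HasExp.main_mul (ρ := ρ) hρ hw hf hg M (M + 1)
  have epow : ∀ n : ℕ, ‖w‖ ^ ((M + 1) * n) = ‖w‖ ^ (M * n) * ‖w‖ ^ n := fun n => by
    rw [add_mul, pow_add, one_mul]
  have h2 : HasExp ρ w (M + 1) (fun n =>
      (a n - ∑ j ∈ Finset.range M, w ^ (j * n) * f j n) * b n) := by
    have := mul_bd hposM (bound_max hposM hC) hb' (le_max_right _ _)
    exact HasExp.of_bound hρ (C := max C 0 * Cb) (fun n => (this n).trans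
      (le_of_eq (by rw [epow])))
  have hA : ∀ n, ‖∑ j ∈ Finset.range M, w ^ (j * n) * f j n‖ ≤ (max Ca 0 + max C 0) * ‖w‖ ^ n := by
    intro n
    have e : ∑ j ∈ Finset.range M, w ^ (j * n) * f j n
        = a n - (a n - ∑ j ∈ Finset.range M, w ^ (j * n) * f j n) := by ring
    rw [e, add_mul]
    refine (norm_sub_le _ _).trans (add_le_add (bound_max hpos1 ha' n) ?_)
    refine (bound_max hposM hC n).trans ?_
    refine mul_le_mul_of_nonneg_left ?_ (le_max_right _ _)
    have := pow_norm_mono hw hM n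
    simpa using this
  have h3 : HasExp ρ w (M + 1) (fun n => (∑ j ∈ Finset.range M, w ^ (j * n) * f j n)
      * (b n - ∑ j ∈ Finset.range M, w ^ (j * n) * g j n)) := by
    have := mul_bd hpos1 hA hD (add_nonneg (le_max_right _ _) (le_max_right _ _))
    exact HasExp.of_bound hρ (C := (max Ca 0 + max C 0) * D) (fun n => (this n).trans
      (le_of_eq (by rw [epow]; ring)))
  have h4 := HasExp.add hρ h1 (HasExp.add hρ h2 h3)
  have e : (fun n => a n * b n) = fun n => (∑ j ∈ Finset.range M, w ^ (j * n) * f j n)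
      * (∑ j ∈ Finset.range M, w ^ (j * n) * g j n)
      + ((a n - ∑ j ∈ Finset.range M, w ^ (j * n) * f j n) * b n
      + (∑ j ∈ Finset.range M, w ^ (j * n) * f j n)
      * (b n - ∑ j ∈ Finset.range M, w ^ (j * n) * g j n)) := by
    funext n
    ring
  rw [e]
  exact h4

theorem HasExp.eval (hρ : 0 ≤ ρ) (hw : ‖w‖ ≤ 1) {σ : Type*} {z : ℕ → σ → K}
    (hz : ∀ i, HasExp ρ w M (fun n => z n i)) (P : MvPolynomial σ K) :
    HasExp ρ w M (fun n => MvPolynomial.eval (z n) P) := by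
  induction P using MvPolynomial.induction_on with
  | C a =>
    have := HasExp.of_adic (w := w) (M := M) hρ hw (Adic.const hρ a)
    simpa using this
  | add p q hp hq =>
    have := HasExp.add hρ hp hq
    simpa using this
  | mul_X p i hp =>
    have := HasExp.mul hρ hw hp (hz i)
    simpa using this

/-- polynomials of order at least two gain one order on small sequences -/
theorem HasExp.eval_gain (hρ : 0 ≤ ρ) (hw : ‖w‖ ≤ 1) {σ : Type*} {z : ℕ → σ → K}
    (hz : ∀ i, HasExp ρ w M (fun n => z n i))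
    (hz' : ∀ i, ∃ C : ℝ, ∀ n, ‖z n i‖ ≤ C * ‖w‖ ^ n) (P : MvPolynomial σ K) (hP : P ∈ Sq σ K) :
    HasExp ρ w (M + 1) (fun n => MvPolynomial.eval (z n) P) := by
  have hsmall : ∀ Q ∈ Ideal.span (Set.range (X : σ → MvPolynomial σ K)),
      ∃ C : ℝ, ∀ n, ‖MvPolynomial.eval (z n) Q‖ ≤ C * ‖w‖ ^ n := by
    intro Q hQ
    have hpos1 : ∀ n : ℕ, 0 ≤ ‖w‖ ^ n := fun n => by positivity
    refine Submodule.span_induction (p := fun Q _ =>
      ∃ C : ℝ, ∀ n, ‖MvPolynomial.eval (z n) Q‖ ≤ C * ‖w‖ ^ n) ?_ ?_ ?_ ?_ hQ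
    · rintro _ ⟨i, rfl⟩
      simpa using hz' i
    · exact ⟨0, fun n => by simp⟩
    · rintro x y _ _ ⟨C, hC⟩ ⟨D, hD⟩
      refine ⟨C + D, fun n => ?_⟩
      rw [map_add, add_mul]
      exact (norm_add_le _ _).trans (add_le_add (hC n) (hD n))
    · rintro r x _ ⟨C, hC⟩
      obtain ⟨B, hB⟩ := (HasExp.eval (ρ := ρ) hρ hw hz r).bdd hw
      refine ⟨max B 0 * max C 0, fun n => ?_⟩
      rw [smul_eq_mul, map_mul, norm_mul, mul_assoc]
      exact mul_le_mul ((hB n).trans (le_max_left _ _)) (bound_max hpos1 hC n) (norm_nonneg _)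
        (le_max_right _ _)
  unfold Sq at hP
  rw [pow_two] at hP
  refine Submodule.mul_induction_on hP ?_ ?_
  · intro q hq r hr
    obtain ⟨C, hC⟩ := hsmall q hq
    obtain ⟨D, hD⟩ := hsmall r hr
    have := HasExp.mul_gain hρ hw (HasExp.eval hρ hw hz q) (HasExp.eval hρ hw hz r) hC hD
    simpa using this
  · intro x y hx hy
    have := HasExp.add (a := fun n => MvPolynomial.eval (z n) x)
      (b := fun n => MvPolynomial.eval (z n) y) hρ hx hy
    simpa using this

end Pool.Agent.Helper33.SS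

end

section

/-!
# Scalar first order recurrences (SS-5)
-/

set_option autoImplicit false

namespace Pool.Agent.Helper33.SS

open Filter Topology

variable {K : Type*} [NormedField K] [IsUltrametricDist K] [CompleteSpace K] {ρ : ℝ} {w : K}

section aux

omit [IsUltrametricDist K] [CompleteSpace K] in
theorem hasExp_of_coeffs {M : ℕ} {a : ℕ → K} (f : ℕ → ℕ → K) (hf : ∀ j, Adic ρ (f j))
    (h : ∀ n, a n = ∑ j ∈ Finset.range M, w ^ (j * n) * f j n) : HasExp ρ w M a := by
  refine ⟨f, hf, 0, fun n => ?_⟩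
  rw [h n, sub_self, norm_zero, zero_mul]

omit [CompleteSpace K] in
theorem norm_add_eq_one {x y : K} (hx : ‖x‖ < 1) (hy : ‖y‖ = 1) : ‖x + y‖ = 1 := by
  rw [IsUltrametricDist.norm_add_eq_max_of_norm_ne_norm (by rw [hy]; exact hx.ne), hy]
  exact max_eq_right hx.le

omit [CompleteSpace K] in
theorem norm_eq_one_of_sub (hρ1 : ρ < 1) {ν : K} (hν : ‖ν - 1‖ ≤ ρ) : ‖ν‖ = 1 := by
  have h := norm_add_eq_one (K := K) (x := ν - 1) (y := 1) (hν.trans_lt hρ1) norm_one
  rwa [sub_add_cancel] at h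

/-- the coefficients can be solved for -/
theorem solve_coeff (hρ : 0 < ρ) (hρ1 : ρ < 1) (hw0 : w ≠ 0) (hw : ‖w‖ < 1)
    {μ : K} (hμ : GoodEig ρ w μ) (j : ℕ) {g : ℕ → K} (hg : Adic ρ g) :
    ∃ f : ℕ → K, Adic ρ f ∧ ∀ n, w ^ j * f (n + 1) = μ * f n + g n := by
  have hwj : ∀ i : ℕ, w ^ i ≠ 0 := fun i => pow_ne_zero i hw0
  have hwpow : ∀ i : ℕ, i ≠ 0 → ‖w ^ i‖ < 1 := fun i hi => by
    rw [norm_pow]
    exact pow_lt_one₀ (norm_nonneg _) hw hi
  rcases hμ with rfl | ⟨m, ν, hν, rfl⟩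
  · obtain ⟨f, hf, hrec⟩ := Adic.solve hρ hρ1 (α := (1 : K)) (β := 0) (by simp) (by simp)
      (Adic.const_mul hρ.le ((w ^ j)⁻¹) hg)
    refine ⟨f, hf, fun n => ?_⟩
    have h := hrec n
    rw [one_mul, zero_mul, add_zero] at h
    rw [h, zero_mul, zero_add, ← mul_assoc, mul_inv_cancel₀ (hwj j), one_mul]
  · have hν1 : ‖ν‖ = 1 := norm_eq_one_of_sub hρ1 hν
    rcases lt_trichotomy j m with hjm | rfl | hjm
    · obtain ⟨f, hf, hrec⟩ := Adic.solve hρ hρ1 (α := (1 : K)) (β := -(w ^ (m - j) * ν)) (by simp)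
        (by
          rw [add_comm]
          refine norm_add_eq_one ?_ norm_one
          rw [norm_neg, norm_mul, hν1, mul_one]
          exact hwpow _ (by omega))
        (Adic.const_mul hρ.le ((w ^ j)⁻¹) hg)
      refine ⟨f, hf, fun n => ?_⟩
      have h := hrec n
      have h1 : f (n + 1) = w ^ (m - j) * ν * f n + (w ^ j)⁻¹ * g n := by
        rw [← h]; ring
      rw [h1, mul_add, ← mul_assoc (w ^ j) ((w ^ j)⁻¹), mul_inv_cancel₀ (hwj j), one_mul,
        ← mul_assoc, ← mul_assoc, ← pow_add, Nat.add_sub_cancel' hjm.le]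
    · obtain ⟨f, hf, hrec⟩ := Adic.solve_one hρ hρ1.le hν (Adic.const_mul hρ.le ((w ^ j)⁻¹) hg)
      refine ⟨f, hf, fun n => ?_⟩
      rw [hrec n, mul_add, ← mul_assoc (w ^ j) ((w ^ j)⁻¹), mul_inv_cancel₀ (hwj j), one_mul,
        ← mul_assoc]
    · obtain ⟨f, hf, hrec⟩ := Adic.solve hρ hρ1 (α := w ^ (j - m)) (β := -ν)
        (hwpow _ (by omega)).le
        (norm_add_eq_one (hwpow _ (by omega)) (by rw [norm_neg, hν1]))
        (Adic.const_mul hρ.le ((w ^ m)⁻¹) hg)
      refine ⟨f, hf, fun n => ?_⟩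
      have h := hrec n
      have h1 : w ^ (j - m) * f (n + 1) = ν * f n + (w ^ m)⁻¹ * g n := by
        rw [← h]; ring
      have h2 : w ^ j = w ^ m * w ^ (j - m) := by
        rw [← pow_add, Nat.add_sub_cancel' hjm.le]
      rw [h2, mul_assoc, h1, mul_add, ← mul_assoc (w ^ m) ((w ^ m)⁻¹), mul_inv_cancel₀ (hwj m),
        one_mul, ← mul_assoc]

omit [CompleteSpace K] in
/-- small eigenvalue -/
theorem small_case (hw0 : w ≠ 0) (M : ℕ) {a e : ℕ → K} {μ : K} {C : ℝ}
    (hμ : ‖μ‖ ≤ ‖w‖ ^ M) (he : ∀ n, ‖e n‖ ≤ C * ‖w‖ ^ (M * n))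
    (hrec : ∀ n, a (n + 1) = μ * a n + e n) : ∃ D : ℝ, ∀ n, ‖a n‖ ≤ D * ‖w‖ ^ (M * n) := by
  have hwp : 0 < ‖w‖ := norm_pos_iff.mpr hw0
  have hwM : 0 < ‖w‖ ^ M := pow_pos hwp M
  refine ⟨max ‖a 0‖ (C / ‖w‖ ^ M), fun n => ?_⟩
  induction n with
  | zero => simp
  | succ n ih =>
    have hn : 0 < ‖w‖ ^ (M * n) := pow_pos hwp _
    have e0 : ‖w‖ ^ (M * (n + 1)) = ‖w‖ ^ M * ‖w‖ ^ (M * n) := by
      rw [Nat.mul_succ, pow_add, mul_comm]
    rw [hrec n, e0]
    refine nadd_le _ _ ?_ ?_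
    · rw [norm_mul]
      calc ‖μ‖ * ‖a n‖ ≤ ‖w‖ ^ M * (max ‖a 0‖ (C / ‖w‖ ^ M) * ‖w‖ ^ (M * n)) :=
            mul_le_mul hμ ih (norm_nonneg _) hwM.le
        _ = _ := by ring
    · refine (he n).trans ?_
      have h1 : C ≤ max ‖a 0‖ (C / ‖w‖ ^ M) * ‖w‖ ^ M := by
        rw [← div_le_iff₀ hwM]
        exact le_max_right _ _
      calc C * ‖w‖ ^ (M * n) ≤ (max ‖a 0‖ (C / ‖w‖ ^ M) * ‖w‖ ^ M) * ‖w‖ ^ (M * n) :=
            mul_le_mul_of_nonneg_right h1 hn.le
        _ = _ := by ring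

omit [IsUltrametricDist K] in
/-- large eigenvalue -/
theorem large_case (M : ℕ) {a e : ℕ → K} {μ : K} {C : ℝ}
    (hμ : ‖w‖ ^ M < ‖μ‖) (he : ∀ n, ‖e n‖ ≤ C * ‖w‖ ^ (M * n))
    (hrec : ∀ n, a (n + 1) = μ * a n + e n) :
    ∃ (c : K) (D : ℝ), ∀ n, ‖a n - c * μ ^ n‖ ≤ D * ‖w‖ ^ (M * n) := by
  have hμp : 0 < ‖μ‖ := (pow_nonneg (norm_nonneg _) M).trans_lt hμ
  have hμ0 : μ ≠ 0 := norm_pos_iff.mp hμp
  set r : ℝ := ‖w‖ ^ M / ‖μ‖ with hr
  have hr0 : 0 ≤ r := div_nonneg (pow_nonneg (norm_nonneg _) M) hμp.le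
  have hr1 : r < 1 := (div_lt_one hμp).mpr hμ
  set u : ℕ → K := fun n => a n / μ ^ n with hu
  have hstep : ∀ n, dist (u n) (u (n + 1)) ≤ C / ‖μ‖ * r ^ n := by
    intro n
    have h1 : u n - u (n + 1) = -(e n / μ ^ (n + 1)) := by
      simp only [hu]
      rw [hrec n]
      field_simp
      ring
    rw [dist_eq_norm, h1, norm_neg, norm_div, norm_pow]
    have h2 : C / ‖μ‖ * r ^ n = C * ‖w‖ ^ (M * n) / ‖μ‖ ^ (n + 1) := by
      rw [hr, div_pow, ← pow_mul, pow_succ]
      field_simp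
    rw [h2]
    exact div_le_div_of_nonneg_right (he n) (pow_nonneg hμp.le _)
  obtain ⟨c, hc⟩ := cauchySeq_tendsto_of_complete (cauchySeq_of_le_geometric r _ hr1 hstep)
  refine ⟨c, C / ‖μ‖ / (1 - r), fun n => ?_⟩
  have h3 := dist_le_of_le_geometric_of_tendsto r _ hr1 hstep hc n
  have h4 : a n - c * μ ^ n = (u n - c) * μ ^ n := by
    simp only [hu]
    field_simp
  rw [h4, norm_mul, norm_pow, ← dist_eq_norm]
  have h5 : C / ‖μ‖ / (1 - r) * ‖w‖ ^ (M * n) = C / ‖μ‖ * r ^ n / (1 - r) * ‖μ‖ ^ n := by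
    rw [hr, div_pow, ← pow_mul]
    field_simp
  rw [h5]
  exact mul_le_mul_of_nonneg_right h3 (pow_nonneg hμp.le _)

end aux

/-- Solutions of `a (n + 1) = μ * a n + b n` have expansions to order `M` when `b` does. Solve block
by block: with `b = ∑ w^(j n) g_j + O(w^(M n))` find `f_j` analytic with
`w^(j (n+1)) f_j (n+1) = μ w^(j n) f_j n + w^(j n) g_j n` by `Adic.solve` (if `μ = 0`, or `μ = w^m ν`
with `m ≠ j`; divide by `w^j` respectively `w^m`) or `Adic.solve_one` (`m = j`). The rest `a'`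
satisfies `a' (n+1) = μ a' n + ε n`, `‖ε n‖ ≤ C ‖w‖^(M n)`: it is `O(‖w‖^(M n))` if
`‖μ‖ ≤ ‖w‖^M`, and otherwise `a' n = c μ^n + O(‖w‖^(M n))`, `c = a' 0 + ∑' i, μ^(-i-1) ε i`. -/
theorem HasExp.rec_scalar (hρ : 0 < ρ) (hρ1 : ρ < 1) (hw0 : w ≠ 0) (hw : ‖w‖ < 1) (M : ℕ)
    {a b : ℕ → K} {μ : K} (hμ : GoodEig ρ w μ) (hb : HasExp ρ w M b)
    (hrec : ∀ n, a (n + 1) = μ * a n + b n) : HasExp ρ w M a := by
  obtain ⟨g, hg, C, hC⟩ := hb
  choose f hf hfrec using fun j => solve_coeff hρ hρ1 hw0 hw hμ j (hg j)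
  set s : ℕ → K := fun n => ∑ j ∈ Finset.range M, w ^ (j * n) * f j n with hs
  set e : ℕ → K := fun n => b n - ∑ j ∈ Finset.range M, w ^ (j * n) * g j n with he
  have hsrec : ∀ n, s (n + 1) = μ * s n + ∑ j ∈ Finset.range M, w ^ (j * n) * g j n := by
    intro n
    simp only [hs]
    rw [Finset.mul_sum, ← Finset.sum_add_distrib]
    refine Finset.sum_congr rfl (fun j _ => ?_)
    have h1 : w ^ (j * (n + 1)) = w ^ (j * n) * w ^ j := by rw [Nat.mul_succ, pow_add]
    rw [h1, mul_assoc, hfrec j n]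
    ring
  have harec : ∀ n, (a (n + 1) - s (n + 1)) = μ * (a n - s n) + e n := by
    intro n
    rw [hrec n, hsrec n]
    simp only [he]
    ring
  have hsE : HasExp ρ w M s := hasExp_of_coeffs f hf (fun n => rfl)
  by_cases hsm : ‖μ‖ ≤ ‖w‖ ^ M
  · obtain ⟨D, hD⟩ := small_case hw0 M (a := fun n => a n - s n) hsm hC harec
    have h2 : HasExp ρ w M (fun n => a n - s n) := HasExp.of_bound hρ.le hD
    have h3 := HasExp.add hρ.le hsE h2
    have h4 : (fun n => s n + (a n - s n)) = a := by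
      funext n
      ring
    rwa [h4] at h3
  · rw [not_le] at hsm
    obtain ⟨c, D, hD⟩ := large_case M (a := fun n => a n - s n) hsm hC harec
    have hμ0 : μ ≠ 0 := by
      rintro rfl
      rw [norm_zero] at hsm
      exact absurd hsm (not_lt.mpr (pow_nonneg (norm_nonneg _) M))
    rcases hμ with rfl | ⟨m, ν, hν, rfl⟩
    · exact absurd rfl hμ0
    have hν1 : ‖ν‖ = 1 := norm_eq_one_of_sub hρ1 hν
    have hmM : m < M := by
      rw [norm_mul, hν1, mul_one, norm_pow] at hsm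
      by_contra hcon
      rw [not_lt] at hcon
      exact absurd hsm (not_lt.mpr (pow_le_pow_of_le_one (norm_nonneg _) hw.le hcon))
    have h2 : HasExp ρ w M (fun n => (a n - s n) - c * (w ^ m * ν) ^ n) :=
      HasExp.of_bound hρ.le hD
    have h5 : HasExp ρ w M (fun n => c * (w ^ m * ν) ^ n) := by
      refine hasExp_of_coeffs (fun j n => if j = m then c * ν ^ n else 0) (fun j => ?_)
        (fun n => ?_)
      · by_cases hj : j = m
        · simp only [hj, if_true]
          exact Adic.const_mul hρ.le c (Adic.pow hρ.le hρ1.le hν)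
        · simp only [hj, if_false]
          exact Adic.const hρ.le 0
      · rw [Finset.sum_eq_single m]
        · rw [if_pos rfl, mul_pow, ← pow_mul]
          ring
        · intro j _ hj
          rw [if_neg hj, mul_zero]
        · intro hm
          exact absurd (Finset.mem_range.mpr hmM) hm
    have h3 := HasExp.add hρ.le (HasExp.add hρ.le hsE h5) h2
    have h4 : (fun n => s n + c * (w ^ m * ν) ^ n + ((a n - s n) - c * (w ^ m * ν) ^ n)) = a := by
      funext n
      ring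
    rwa [h4] at h3

end Pool.Agent.Helper33.SS

end

section

/-!
# Linear recurrences for vectors (SS-6)
-/

set_option autoImplicit false

namespace Pool.Agent.Helper33.SS

open Matrix

variable {K : Type*} [NormedField K] [IsUltrametricDist K] [CompleteSpace K] [IsAlgClosed K]
  {ρ : ℝ} {w : K}

/-- One step: remove the factors of a multiset of eigenvalues. -/
theorem HasExp.rec_peel (hρ : 0 < ρ) (hρ1 : ρ < 1) (hw0 : w ≠ 0) (hw : ‖w‖ < 1) (M : ℕ)
    {ι : Type*} [Fintype ι] [DecidableEq ι] (A : Matrix ι ι K) (x b : ℕ → ι → K)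
    (hb : ∀ i, HasExp ρ w M (fun n => b n i)) (hrec : ∀ n, x (n + 1) = A *ᵥ x n + b n)
    (s : Multiset K) :
    (∀ μ ∈ s, GoodEig ρ w μ) → ∀ P : Polynomial K,
    (∀ i, HasExp ρ w M (fun n =>
      ((Polynomial.aeval A ((s.map fun μ => Polynomial.X - Polynomial.C μ).prod * P)) *ᵥ x n) i)) →
    ∀ i, HasExp ρ w M (fun n => ((Polynomial.aeval A P) *ᵥ x n) i) := by
  induction s using Multiset.induction_on with
  | empty =>
    intro _ P h i
    simpa using h i
  | cons μ s ih =>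
    intro hs P h
    apply ih (fun ν hν => hs ν (Multiset.mem_cons_of_mem hν)) P
    intro i
    set Q : Polynomial K := (s.map fun μ => Polynomial.X - Polynomial.C μ).prod * P with hQ
    have hbQ : HasExp ρ w M (fun n => ((Polynomial.aeval A Q) *ᵥ b n) i) := by
      have : (fun n => ((Polynomial.aeval A Q) *ᵥ b n) i) =
          fun n => ∑ j ∈ Finset.univ, (Polynomial.aeval A Q) i j * b n j := by
        funext n
        simp [Matrix.mulVec, dotProduct]
      rw [this]
      exact HasExp.sum hρ.le Finset.univ (fun j _ => HasExp.const_mul hρ.le _ (hb j))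
    refine HasExp.rec_scalar hρ hρ1 hw0 hw M (hs μ (Multiset.mem_cons_self μ s))
      (HasExp.add hρ.le (h i) hbQ) ?_
    intro n
    have e1 : (Multiset.map (fun μ => Polynomial.X - Polynomial.C μ) (μ ::ₘ s)).prod * P =
        Q * Polynomial.X - μ • Q := by
      rw [Multiset.map_cons, Multiset.prod_cons, Polynomial.smul_eq_C_mul, hQ]
      ring
    have e2 : Polynomial.aeval A (Q * Polynomial.X - μ • Q) =
        Polynomial.aeval A Q * A - μ • Polynomial.aeval A Q := by
      rw [map_sub, map_mul, map_smul, Polynomial.aeval_X]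
    rw [e1, hrec n, e2, Matrix.mulVec_add, Matrix.sub_mulVec, Matrix.smul_mulVec,
      ← Matrix.mulVec_mulVec]
    simp only [Pi.add_apply, Pi.sub_apply, Pi.smul_apply, smul_eq_mul]
    ring

/-- Peel off the eigenvalues: for polynomials `P` and eigenvalues `μ`, the sequence
`(aeval A P) x_n` satisfies a scalar recurrence with eigenvalue `μ` and inhomogeneity
`(aeval A ((X - C μ) * P)) x_n + (aeval A P) b_n`; induct over the roots of the characteristic
polynomial, starting from `aeval A A.charpoly = 0`. -/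
theorem HasExp.rec_vec (hρ : 0 < ρ) (hρ1 : ρ < 1) (hw0 : w ≠ 0) (hw : ‖w‖ < 1) (M : ℕ)
    {ι : Type*} [Fintype ι] [DecidableEq ι] (A : Matrix ι ι K)
    (hA : ∀ μ, A.charpoly.IsRoot μ → GoodEig ρ w μ) (x b : ℕ → ι → K)
    (hb : ∀ i, HasExp ρ w M (fun n => b n i)) (hrec : ∀ n, x (n + 1) = A *ᵥ x n + b n) (i : ι) :
    HasExp ρ w M (fun n => x n i) := by
  have hprod : (A.charpoly.roots.map fun μ => Polynomial.X - Polynomial.C μ).prod = A.charpoly := by
    have h := (IsAlgClosed.splits A.charpoly).eq_prod_roots_of_monic A.charpoly_monic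
    exact h.symm
  have h := HasExp.rec_peel hρ hρ1 hw0 hw M A x b hb hrec A.charpoly.roots
    (fun μ hμ => hA μ (Polynomial.isRoot_of_mem_roots hμ)) 1 (by
      intro j
      rw [hprod, mul_one, Matrix.aeval_self_charpoly]
      refine HasExp.of_bound hρ.le (C := 0) ?_
      intro n
      simp) i
  simpa using h

end Pool.Agent.Helper33.SS

end

section

/-!
# Bootstrapping (SS-8)
-/

set_option autoImplicit false

namespace Pool.Agent.Helper33.SS

open Matrix

variable {K : Type*} [NormedField K] [IsUltrametricDist K] [CompleteSpace K] [IsAlgClosed K]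
  {ρ : ℝ} {w : K}

theorem boot_iter {ι : Type*} [Fintype ι] [DecidableEq ι] (T : Matrix ι ι K)
    (x q : ℕ → ι → K) (hrec : ∀ n, x (n + 1) = T *ᵥ x n + q n) (s n : ℕ) :
    x (n + s) = (T ^ s) *ᵥ x n + ∑ t ∈ Finset.range s, (T ^ (s - 1 - t)) *ᵥ q (n + t) := by
  induction s with
  | zero => simp
  | succ s ih =>
    rw [← add_assoc, hrec, ih, Matrix.mulVec_add, Matrix.mulVec_mulVec, ← pow_succ',
      Finset.sum_range_succ, add_assoc]
    congr 1
    have : s + 1 - 1 - s = 0 := by omega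
    rw [this, pow_zero, Matrix.one_mulVec]
    congr 1
    rw [Matrix.mulVec_sum]
    refine Finset.sum_congr rfl fun t ht => ?_
    rw [Finset.mem_range] at ht
    rw [Matrix.mulVec_mulVec, ← pow_succ']
    congr 2
    omega

theorem boot_eig {ι : Type*} [Fintype ι] [DecidableEq ι] (T : Matrix ι ι K) (k : ℕ) (hk : 1 ≤ k)
    (μ : K) (hμ : (T ^ k).charpoly.IsRoot μ) : ∃ ν, T.charpoly.IsRoot ν ∧ μ = ν ^ k := by
  rw [← Matrix.mem_spectrum_iff_isRoot_charpoly] at hμ
  rw [spectrum.map_pow_of_pos T (by omega : 0 < k)] at hμ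
  obtain ⟨ν, hν, rfl⟩ := hμ
  exact ⟨ν, (Matrix.mem_spectrum_iff_isRoot_charpoly).1 hν, rfl⟩

/-- Let `x (n + 1) = T x n + Q (x n, x (n + 1))` with `Q` of order at least two, let the `k`-th
powers of the eigenvalues of `T` be good, and let `x (k m + j) = O(w ^ m)`. Then all coordinates
of `x (k m + j)` have expansions in `m` to every order. Proof: induction on `M`; for all `j`,
`x (k (m+1) + j) = T^k x (k m + j) + ∑_{i<k} T^(k-1-i) Q (x (k m + j + i), x (k m + j + i + 1))`,
the last sum has expansions to order `M + 1` by `HasExp.eval_gain`; apply `HasExp.rec_vec` to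
`A = T ^ k`. -/
theorem boot (hρ : 0 < ρ) (hρ1 : ρ < 1) (hw0 : w ≠ 0) (hw : ‖w‖ < 1)
    {ι : Type*} [Fintype ι] [DecidableEq ι] (T : Matrix ι ι K)
    (Q : ι → MvPolynomial (ι ⊕ ι) K) (hQ : ∀ i, Q i ∈ Sq (ι ⊕ ι) K) (x : ℕ → ι → K)
    (hrec : ∀ n, x (n + 1) = T *ᵥ x n + fun i => MvPolynomial.eval (Sum.elim (x n) (x (n + 1))) (Q i))
    (k : ℕ) (hk : 1 ≤ k) (hT : ∀ μ, T.charpoly.IsRoot μ → GoodEig ρ w (μ ^ k))
    (hdec : ∀ j i, ∃ C : ℝ, ∀ m, ‖x (k * m + j) i‖ ≤ C * ‖w‖ ^ m) (M j : ℕ) (i : ι) :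
    HasExp ρ w M (fun m => x (k * m + j) i) := by
  induction M generalizing j i with
  | zero =>
    obtain ⟨C, hC⟩ := hdec j i
    refine HasExp.of_bound hρ.le (C := |C|) fun n => ?_
    rw [zero_mul, pow_zero, mul_one]
    refine (hC n).trans ((le_abs_self _).trans ?_)
    rw [abs_mul, abs_of_nonneg (pow_nonneg (norm_nonneg w) n)]
    exact mul_le_of_le_one_right (abs_nonneg _) (pow_le_one₀ (norm_nonneg w) hw.le)
  | succ M ih =>
    set q : ℕ → ι → K := fun n i => MvPolynomial.eval (Sum.elim (x n) (x (n + 1))) (Q i) with hq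
    have hqe : ∀ j l, HasExp ρ w (M + 1) (fun m => q (k * m + j) l) := by
      intro j l
      refine HasExp.eval_gain (z := fun m => Sum.elim (x (k * m + j)) (x (k * m + j + 1))) hρ.le
        hw.le ?_ ?_ (Q l) (hQ l)
      · rintro (a | a)
        · exact ih j a
        · exact ih (j + 1) a
      · rintro (a | a)
        · exact hdec j a
        · exact hdec (j + 1) a
    refine HasExp.rec_vec hρ hρ1 hw0 hw (M + 1) (T ^ k) ?_ (fun m => x (k * m + j))
      (fun m => ∑ t ∈ Finset.range k, (T ^ (k - 1 - t)) *ᵥ q (k * m + j + t)) ?_ ?_ i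
    · intro μ hμ
      obtain ⟨ν, hν, rfl⟩ := boot_eig T k hk μ hμ
      exact hT ν hν
    · intro l
      have : (fun n => (∑ t ∈ Finset.range k, (T ^ (k - 1 - t)) *ᵥ q (k * n + j + t)) l) =
          fun n => ∑ t ∈ Finset.range k, ∑ u ∈ Finset.univ,
            (T ^ (k - 1 - t)) l u * q (k * n + (j + t)) u := by
        funext n
        rw [Finset.sum_apply]
        refine Finset.sum_congr rfl fun t _ => ?_
        rw [← add_assoc]
        rfl
      rw [this]
      exact HasExp.sum hρ.le _ fun t _ => HasExp.sum hρ.le _ fun u _ =>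
        HasExp.const_mul hρ.le _ (hqe (j + t) u)
    · intro m
      have := boot_iter T x q hrec k (k * m + j)
      rw [← this]
      congr 1
      ring

end Pool.Agent.Helper33.SS

end

section

/-!
# The dominant block (SS-7)
-/

set_option autoImplicit false

namespace Pool.Agent.Helper33.SS

/-- A sequence with expansions to every order has a super-sparse set of zeros or decays faster than
every power of `‖w‖ ^ n`. If some `f_j` in some expansion is not identically zero, take the least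
such `j`: at a zero `n` of `a` one has `‖f_j n‖ ≤ C ‖w‖ ^ n`; use `sparse_of_adic`. -/
theorem HasExp.dichotomy {p : ℕ} [Fact p.Prime] (hp3 : 3 ≤ p) {K : Type*} [NormedField K]
    [IsUltrametricDist K] [CharZero K] (hp : ‖(p : K)‖ = (p : ℝ)⁻¹) {w : K} (hw0 : w ≠ 0)
    (hw : ‖w‖ < 1) {a : ℕ → K} (h : ∀ M, HasExp (p : ℝ)⁻¹ w M a) :
    Sparse {n | a n = 0} ∨ Flat (fun n => ‖w‖ ^ n) a := by
  classical
  have hw0' : 0 < ‖w‖ := norm_pos_iff.2 hw0
  choose f hf using h
  by_cases hall : ∀ M, ∀ j < M, ∀ n, f M j n = 0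
  · right
    intro e
    obtain ⟨_, C, hC⟩ := hf e
    refine ⟨C, fun n => ?_⟩
    have h1 := hC n
    have h2 : ∑ j ∈ Finset.range e, w ^ (j * n) * f e j n = 0 := by
      apply Finset.sum_eq_zero
      intro j hj
      rw [hall e j (Finset.mem_range.1 hj) n, mul_zero]
    rw [h2, sub_zero, mul_comm e n, pow_mul] at h1
    exact h1
  · left
    push Not at hall
    obtain ⟨M, hM⟩ := hall
    obtain ⟨hjM, hjne⟩ := Nat.find_spec hM
    set j := Nat.find hM with hjdef
    have hlt : ∀ i < j, ∀ n, f M i n = 0 := by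
      intro i hi n
      by_contra hne
      exact Nat.find_min hM hi ⟨hi.trans hjM, n, hne⟩
    obtain ⟨hA, C, hC⟩ := hf M
    choose c hc using hA
    have hc0 : ∀ i n, ‖f M i n‖ ≤ c i := by
      intro i n
      have h1 := hc i 0 n
      rwa [pow_zero, mul_one, Function.iterate_zero, id] at h1
    refine (sparse_of_adic hp3 hp (⟨c j, hc j⟩ : Adic (p : ℝ)⁻¹ (f M j)) hjne
      (C := |C| + ∑ i ∈ Finset.range M, |c i|) hw0' hw).mono ?_
    intro n hn
    rw [Set.mem_setOf_eq] at hn ⊢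
    have h1 := hC n
    rw [hn, zero_sub, norm_neg, ← Finset.add_sum_erase _ _ (Finset.mem_range.2 hjM)] at h1
    have hpw : ∀ i, j < i → ‖w‖ ^ (i * n) ≤ ‖w‖ ^ ((j + 1) * n) := by
      intro i hi
      exact pow_le_pow_of_le_one hw0'.le hw.le (Nat.mul_le_mul_right n hi)
    have h2 : ‖∑ i ∈ (Finset.range M).erase j, w ^ (i * n) * f M i n‖
        ≤ (∑ i ∈ Finset.range M, |c i|) * ‖w‖ ^ ((j + 1) * n) := by
      rw [Finset.sum_mul]
      refine (norm_sum_le _ _).trans ?_
      refine (Finset.sum_le_sum ?_).trans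
        (Finset.sum_le_sum_of_subset_of_nonneg (Finset.erase_subset j _)
          (fun i _ _ => by positivity))
      intro i hi
      rcases lt_or_gt_of_ne (Finset.ne_of_mem_erase hi) with h3 | h3
      · rw [hlt i h3 n, mul_zero, norm_zero]
        positivity
      · rw [norm_mul, norm_pow, mul_comm]
        exact mul_le_mul ((hc0 i n).trans (le_abs_self _)) (hpw i h3) (by positivity)
          (abs_nonneg _)
    have h4 : ‖w ^ (j * n) * f M j n‖
        ≤ (|C| + ∑ i ∈ Finset.range M, |c i|) * ‖w‖ ^ ((j + 1) * n) := by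
      have h5 : w ^ (j * n) * f M j n = (w ^ (j * n) * f M j n +
          ∑ i ∈ (Finset.range M).erase j, w ^ (i * n) * f M i n) -
          ∑ i ∈ (Finset.range M).erase j, w ^ (i * n) * f M i n := by ring
      have h6 : C * ‖w‖ ^ (M * n) ≤ |C| * ‖w‖ ^ ((j + 1) * n) := by
        apply mul_le_mul (le_abs_self _) _ (by positivity) (abs_nonneg _)
        exact hpw M hjM
      rw [h5, add_mul]
      exact (norm_sub_le _ _).trans (add_le_add (h1.trans h6) h2)
    have h7 : ‖w‖ ^ ((j + 1) * n) = ‖w‖ ^ (j * n) * ‖w‖ ^ n := by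
      rw [← pow_add]
      congr 1
      ring
    rw [norm_mul, norm_pow, h7] at h4
    have h8 : 0 < ‖w‖ ^ (j * n) := pow_pos hw0' _
    have h9 : ‖w‖ ^ (j * n) * ‖f M j n‖
        ≤ ‖w‖ ^ (j * n) * ((|C| + ∑ i ∈ Finset.range M, |c i|) * ‖w‖ ^ n) := by
      refine h4.trans (le_of_eq ?_)
      ring
    exact le_of_mul_le_mul_left h9 h8

end Pool.Agent.Helper33.SS

end

section

/-!
# The recurrence in an affine chart (SS-13)
-/

set_option autoImplicit false

namespace Pool.Agent.Helper33.SS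

open MvPolynomial Matrix

variable {K : Type*} [Field K] {σ : Type*} [Fintype σ] [DecidableEq σ]

/-- first order Taylor expansion modulo the square of an ideal -/
private theorem taylor {A : Type*} [CommRing A] [Algebra K A] (I : Ideal A) (y : σ → A)
    (hy : ∀ i, y i ∈ I) (β : σ → K) (P : MvPolynomial σ K) :
    aeval (fun i => algebraMap K A (β i) + y i) P - algebraMap K A (eval β P)
      - ∑ l, algebraMap K A (eval β (pderiv l P)) * y l ∈ I ^ 2 := by
  induction P using MvPolynomial.induction_on with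
  | C a => simp
  | add p q hp hq =>
    have h := Ideal.add_mem _ hp hq
    have e : aeval (fun i => algebraMap K A (β i) + y i) (p + q)
          - algebraMap K A (eval β (p + q))
          - ∑ l, algebraMap K A (eval β (pderiv l (p + q))) * y l
        = (aeval (fun i => algebraMap K A (β i) + y i) p - algebraMap K A (eval β p)
            - ∑ l, algebraMap K A (eval β (pderiv l p)) * y l)
          + (aeval (fun i => algebraMap K A (β i) + y i) q - algebraMap K A (eval β q)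
            - ∑ l, algebraMap K A (eval β (pderiv l q)) * y l) := by
      simp only [map_add, add_mul, Finset.sum_add_distrib]
      ring
    rw [e]
    exact h
  | mul_X p i hp =>
    set a := aeval (fun i => algebraMap K A (β i) + y i) p with ha
    set p0 := algebraMap K A (eval β p) with hp0
    set p1 := ∑ l, algebraMap K A (eval β (pderiv l p)) * y l with hp1
    have h1 : p1 ∈ I := Ideal.sum_mem _ fun l _ => Ideal.mul_mem_left _ _ (hy l)
    have h2 : p1 * y i ∈ I ^ 2 := by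
      rw [pow_two]
      exact Ideal.mul_mem_mul h1 (hy i)
    have e1 : ∑ l, algebraMap K A (eval β (pderiv l (p * X i))) * y l
        = algebraMap K A (β i) * p1 + p0 * y i := by
      have : ∀ l, algebraMap K A (eval β (pderiv l (p * X i))) * y l
          = algebraMap K A (β i) * (algebraMap K A (eval β (pderiv l p)) * y l)
            + (if l = i then p0 * y i else 0) := by
        intro l
        rw [pderiv_mul, map_add, map_mul, map_mul, eval_X, pderiv_X, map_add, map_mul, map_mul]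
        by_cases hl : l = i
        · subst hl
          simp only [Pi.single_eq_same, map_one, if_true]
          ring
        · rw [if_neg hl]
          have : (Pi.single l 1 : σ → MvPolynomial σ K) i = 0 := by
            rw [Pi.single_apply, if_neg (fun h => hl h.symm)]
          rw [this]
          simp only [map_zero]
          ring
      rw [Finset.sum_congr rfl fun l _ => this l, Finset.sum_add_distrib, ← Finset.mul_sum,
        ← hp1]
      simp
    have e2 : aeval (fun i => algebraMap K A (β i) + y i) (p * X i)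
          - algebraMap K A (eval β (p * X i))
          - ∑ l, algebraMap K A (eval β (pderiv l (p * X i))) * y l
        = (algebraMap K A (β i) + y i) * (a - p0 - p1) + p1 * y i := by
      rw [e1, map_mul, aeval_X, map_mul, eval_X, map_mul]
      ring
    rw [e2]
    exact Ideal.add_mem _ (Ideal.mul_mem_left _ _ hp) h2

/-- extension by zero of a vector indexed by the coordinates different from `i₀` -/
def extz (i₀ : σ) (x : {j : σ // j ≠ i₀} → K) : σ → K :=
  fun j => if h : j = i₀ then 0 else x ⟨j, h⟩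

/-- the derivative of the map in the chart `x i₀ = 1` at a fixed point -/
def tmat (J : Matrix σ σ K) (β : σ → K) (i₀ : σ) (c : K) :
    Matrix {j : σ // j ≠ i₀} {j : σ // j ≠ i₀} K :=
  Matrix.of fun j l => c⁻¹ * (J j l - β j * J i₀ l)

/-- If `β + extz x` is mapped by `G` to a multiple of `β + extz x'` then
`x' = T x + Q (x, x')` with `Q` of order at least two (`G β = c β`, `β i₀ = 1`). Proof: Taylor
expansion `G_j (β + X) = c β_j + (J X)_j + q_j (X)` with `q_j` in the square of the ideal of the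
variables; `c x'_j = (J X)_j - β_j (J X)_{i₀} + q_j - β_j q_{i₀} - ((J X)_{i₀} + q_{i₀}) x'_j`. -/
theorem chart (G : σ → MvPolynomial σ K) (β : σ → K) (i₀ : σ) (hβ : β i₀ = 1) (c : K)
    (hc : c ≠ 0) (hfix : ∀ i, eval β (G i) = c * β i) :
    ∃ Q : {j : σ // j ≠ i₀} → MvPolynomial ({j : σ // j ≠ i₀} ⊕ {j : σ // j ≠ i₀}) K,
      (∀ j, Q j ∈ Sq _ K) ∧ ∀ x x' : {j : σ // j ≠ i₀} → K,
        (∀ j, eval (β + extz i₀ x) (G j)
          = eval (β + extz i₀ x) (G i₀) * (β j + extz i₀ x' j)) →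
        x' = tmat (jac G β) β i₀ c *ᵥ x + fun j => eval (Sum.elim x x') (Q j) := by
  classical
  let τ := {j : σ // j ≠ i₀}
  let A := MvPolynomial (τ ⊕ τ) K
  let I : Ideal A := Ideal.span (Set.range (X : τ ⊕ τ → A))
  let y : σ → A := fun l => if h : l = i₀ then 0 else X (Sum.inl ⟨l, h⟩)
  have hy : ∀ l, y l ∈ I := by
    intro l
    by_cases h : l = i₀
    · simp only [y, h, dif_pos, Ideal.zero_mem]
    · simp only [y, h, dif_neg, not_false_eq_true]
      exact Ideal.subset_span ⟨_, rfl⟩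
  let q : σ → A := fun j => aeval (fun i => algebraMap K A (β i) + y i) (G j)
    - algebraMap K A (eval β (G j)) - ∑ l, algebraMap K A (eval β (pderiv l (G j))) * y l
  have hq : ∀ j, q j ∈ I ^ 2 := fun j => taylor I y hy β (G j)
  let s : A := ∑ l, algebraMap K A (eval β (pderiv l (G i₀))) * y l
  have hs : s ∈ I := Ideal.sum_mem _ fun l _ => Ideal.mul_mem_left _ _ (hy l)
  refine ⟨fun j => C c⁻¹ * (q j - C (β j) * q i₀ - (s * X (Sum.inr j) + q i₀ * X (Sum.inr j))),
    fun j => ?_, ?_⟩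
  · refine Ideal.mul_mem_left _ _ (Ideal.sub_mem _ (Ideal.sub_mem _ (hq _)
      (Ideal.mul_mem_left _ _ (hq _))) (Ideal.add_mem _ ?_ (Ideal.mul_mem_right _ _ (hq _))))
    change s * X (Sum.inr j) ∈ I ^ 2
    rw [pow_two]
    exact Ideal.mul_mem_mul hs (Ideal.subset_span ⟨_, rfl⟩)
  · intro x x' h
    have hyx : ∀ l, eval (Sum.elim x x') (y l) = extz i₀ x l := by
      intro l
      by_cases h : l = i₀
      · simp [y, extz, h]
      · simp [y, extz, h]
    have hval : ∀ j, eval (β + extz i₀ x) (G j)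
        = c * β j + ∑ l, jac G β j l * extz i₀ x l + eval (Sum.elim x x') (q j) := by
      intro j
      have e1 : eval (Sum.elim x x') (aeval (fun i => algebraMap K A (β i) + y i) (G j))
          = eval (β + extz i₀ x) (G j) := by
        have : (eval (Sum.elim x x')).comp
            ((aeval (fun i => algebraMap K A (β i) + y i) : MvPolynomial σ K →ₐ[K] A) :
              MvPolynomial σ K →+* A) = eval (β + extz i₀ x) := by
          apply MvPolynomial.ringHom_ext
          · intro a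
            simp [A]
          · intro i
            simp [A, hyx]
        exact congrArg (fun f : MvPolynomial σ K →+* K => f (G j)) this
      have e2 : eval (Sum.elim x x') (q j) = eval (β + extz i₀ x) (G j) - c * β j
          - ∑ l, jac G β j l * extz i₀ x l := by
        simp only [q, map_sub, map_sum, map_mul, e1, hyx, jac, Matrix.of_apply]
        congr 1
        · congr 1
          rw [← hfix]
          simp [A]
        · refine Finset.sum_congr rfl fun l _ => ?_
          simp [A]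
      rw [e2]
      ring
    have hs' : eval (Sum.elim x x') s = ∑ l, jac G β i₀ l * extz i₀ x l := by
      simp only [s, map_sum, map_mul, hyx, jac, Matrix.of_apply]
      refine Finset.sum_congr rfl fun l _ => ?_
      simp [A]
    have hsum : ∀ f : σ → K, ∑ l, f l * extz i₀ x l = ∑ l : τ, f l * x l := by
      intro f
      have h1 : ∀ l : τ, f l * x l = f l * extz i₀ x l := by
        intro l
        have : extz i₀ x l = x l := by simp [extz, l.2]
        rw [this]
      rw [Finset.sum_congr rfl fun l _ => h1 l]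
      have h3 := Finset.add_sum_erase Finset.univ (fun l => f l * extz i₀ x l)
        (Finset.mem_univ i₀)
      have h4 : extz i₀ x i₀ = 0 := by simp [extz]
      have h2 : ∑ l ∈ Finset.univ.erase i₀, f l * extz i₀ x l
          = ∑ l : τ, f l * extz i₀ x l :=
        Finset.sum_subtype (Finset.univ.erase i₀) (by intro l; simp)
          (fun l => f l * extz i₀ x l)
      rw [← h3, h4, mul_zero, zero_add, h2]
    funext j
    have hj := h j
    have hj0 : extz i₀ x' j = x' j := by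
      simp [extz, j.2]
    rw [hval, hval, hj0, hβ] at hj
    simp only [Pi.add_apply, tmat, Matrix.mulVec, dotProduct, Matrix.of_apply, map_mul, map_sub,
      map_add, eval_C, eval_X, Sum.elim_inr, hs']
    have e3 : ∑ l : τ, c⁻¹ * (jac G β j l - β j * jac G β i₀ l) * x l
        = c⁻¹ * (∑ l, jac G β j l * extz i₀ x l - β j * ∑ l, jac G β i₀ l * extz i₀ x l) := by
      rw [hsum, hsum, Finset.mul_sum, ← Finset.sum_sub_distrib, Finset.mul_sum]
      refine Finset.sum_congr rfl fun l _ => ?_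
      ring
    rw [e3]
    field_simp
    linear_combination -hj

end Pool.Agent.Helper33.SS

end

section

/-!
# The tangent map when zero is at most a simple eigenvalue (SS-14)
-/

set_option autoImplicit false

namespace Pool.Agent.Helper33.SS

open Matrix

private theorem extz_self {K : Type*} [Field K] {σ : Type*} [DecidableEq σ] (i₀ : σ)
    (x : {j : σ // j ≠ i₀} → K) : extz i₀ x i₀ = 0 := by simp [extz]

private theorem extz_coe {K : Type*} [Field K] {σ : Type*} [DecidableEq σ] (i₀ : σ)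
    (x : {j : σ // j ≠ i₀} → K) (j : {j : σ // j ≠ i₀}) : extz i₀ x j = x j := by
  simp [extz, j.2]

private theorem extz_inj {K : Type*} [Field K] {σ : Type*} [DecidableEq σ] (i₀ : σ)
    (x y : {j : σ // j ≠ i₀} → K) (h : extz i₀ x = extz i₀ y) : x = y := by
  funext j
  rw [← extz_coe i₀ x j, ← extz_coe i₀ y j, h]

private theorem extz_smul {K : Type*} [Field K] {σ : Type*} [DecidableEq σ] (i₀ : σ)
    (a : K) (x : {j : σ // j ≠ i₀} → K) : extz i₀ (a • x) = a • extz i₀ x := by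
  funext j
  by_cases h : j = i₀
  · subst h
    simp [extz]
  · simp [extz, h]

private theorem sum_extz {K : Type*} [Field K] {σ : Type*} [Fintype σ] [DecidableEq σ] (i₀ : σ)
    (f : σ → K) (x : {j : σ // j ≠ i₀} → K) :
    ∑ l, f l * extz i₀ x l = ∑ l : {j : σ // j ≠ i₀}, f l * x l := by
  have h1 : ∀ l : {j : σ // j ≠ i₀}, f l * x l = f l * extz i₀ x l := by
    intro l
    rw [extz_coe]
  rw [Finset.sum_congr rfl fun l _ => h1 l]
  have h3 := Finset.add_sum_erase Finset.univ (fun l => f l * extz i₀ x l) (Finset.mem_univ i₀)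
  have h2 : ∑ l ∈ Finset.univ.erase i₀, f l * extz i₀ x l
      = ∑ l : {j : σ // j ≠ i₀}, f l * extz i₀ x l :=
    Finset.sum_subtype (Finset.univ.erase i₀) (by intro l; simp) (fun l => f l * extz i₀ x l)
  rw [← h3, extz_self, mul_zero, zero_add, h2]

private theorem extz_tmat {K : Type*} [Field K] {σ : Type*} [Fintype σ] [DecidableEq σ]
    (J : Matrix σ σ K) (β : σ → K) (i₀ : σ) (hβ : β i₀ = 1) (c : K)
    (x : {j : σ // j ≠ i₀} → K) :
    extz i₀ (tmat J β i₀ c *ᵥ x)
      = c⁻¹ • (J *ᵥ extz i₀ x - (J *ᵥ extz i₀ x) i₀ • β) := by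
  funext j
  by_cases h : j = i₀
  · subst h
    rw [extz_self]
    simp [hβ]
  · have e := extz_coe i₀ (tmat J β i₀ c *ᵥ x) ⟨j, h⟩
    simp only at e
    rw [e]
    simp only [tmat, Matrix.mulVec, dotProduct, Matrix.of_apply, Pi.smul_apply, Pi.sub_apply,
      smul_eq_mul]
    rw [sum_extz, sum_extz, Finset.sum_mul, ← Finset.sum_sub_distrib, Finset.mul_sum]
    refine Finset.sum_congr rfl fun l _ => ?_
    ring

/-- Let `J β = D c β`, `β i₀ = 1`, `D c ≠ 0`, `rank (J ^ 2) ≥ #σ - 1`, `T = tmat J β i₀ c`. Then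
`T` has a left inverse, or there are `κ`, `ℓ` with `ℓ κ = 1`, `ℓ T = 0`, `T κ = 0`, `Θ T = 1 - κ ℓ`. Proof:
`c T x` is `J X - (J X)_{i₀} β` for `X = extz x`; if `T ^ 2 x = 0` then `J ^ 2 X` is a multiple of `β`,
so `J ^ 2 (X - t β) = 0` for some `t`; hence `dim ker T ^ 2 ≤ 1`; if `T` is not injective then
`ker T = ker T ^ 2 = K κ`, `κ` is not in the range of `T`, and `1 - κ ℓ` factors through `T`. -/
theorem linalg {K : Type*} [Field K] {σ : Type*} [Fintype σ] [DecidableEq σ] (J : Matrix σ σ K)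
    (β : σ → K) (i₀ : σ) (hβ : β i₀ = 1) (c D : K) (hc : c ≠ 0) (hD : D ≠ 0)
    (hJ : J *ᵥ β = (D * c) • β) (hrank : Fintype.card σ ≤ (J ^ 2).rank + 1) :
    (∃ Θ : Matrix {j : σ // j ≠ i₀} {j : σ // j ≠ i₀} K, Θ * tmat J β i₀ c = 1) ∨
    ∃ (Θ : Matrix {j : σ // j ≠ i₀} {j : σ // j ≠ i₀} K) (κ ℓ : {j : σ // j ≠ i₀} → K),
      ℓ ⬝ᵥ κ = 1 ∧ ℓ ᵥ* tmat J β i₀ c = 0 ∧ tmat J β i₀ c *ᵥ κ = 0 ∧
        Θ * tmat J β i₀ c = 1 - vecMulVec κ ℓ := by
  set T := tmat J β i₀ c with hTdef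
  -- the kernel of the square of `J`
  have hk : Module.finrank K (LinearMap.ker (J ^ 2).mulVecLin) ≤ 1 := by
    have h1 := LinearMap.finrank_range_add_finrank_ker (J ^ 2).mulVecLin
    have h2 : Module.finrank K (LinearMap.range (J ^ 2).mulVecLin) = (J ^ 2).rank := rfl
    rw [h2, Module.finrank_fintype_fun_eq_card] at h1
    omega
  obtain ⟨⟨v, hv⟩, hv1⟩ := finrank_le_one_iff.1 hk
  have hv2 : ∀ w : σ → K, (J ^ 2) *ᵥ w = 0 → ∃ a : K, w = a • v := by
    intro w hw
    obtain ⟨a, ha⟩ := hv1 ⟨w, by simpa using hw⟩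
    exact ⟨a, (congrArg Subtype.val ha).symm⟩
  -- the kernel of the square of `T`
  have hDc : D * c ≠ 0 := mul_ne_zero hD hc
  have hTT : ∀ x, T *ᵥ (T *ᵥ x) = 0 → ∃ t a : K, extz i₀ x - t • β = a • v := by
    intro x hx
    have h0 : extz i₀ (T *ᵥ (T *ᵥ x)) = 0 := by
      rw [hx]
      funext j
      by_cases h : j = i₀ <;> simp [extz, h]
    rw [hTdef, extz_tmat J β i₀ hβ c, extz_tmat J β i₀ hβ c] at h0
    set Y := J *ᵥ extz i₀ x with hY
    have h1 : J *ᵥ (c⁻¹ • (Y - Y i₀ • β)) = c⁻¹ • (J *ᵥ Y - (Y i₀ * (D * c)) • β) := by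
      rw [Matrix.mulVec_smul, Matrix.mulVec_sub, Matrix.mulVec_smul, hJ, smul_smul]
    rw [h1] at h0
    have h2 : J *ᵥ Y = (J *ᵥ Y) i₀ • β := by
      have h3 := (smul_eq_zero.1 h0).resolve_left (inv_ne_zero hc)
      funext j
      have h4 := congrFun h3 j
      simp only [Pi.sub_apply, Pi.smul_apply, smul_eq_mul, Pi.zero_apply, hβ, mul_one] at h4 ⊢
      have h5 := (mul_eq_zero.1 (show c⁻¹ * ((J *ᵥ Y) j - (J *ᵥ Y) i₀ * β j) = 0 by
        linear_combination h4)).resolve_left (inv_ne_zero hc)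
      linear_combination h5
    set s := (J *ᵥ Y) i₀ with hs
    obtain ⟨a, ha⟩ := hv2 (extz i₀ x - (s * ((D * c) * (D * c))⁻¹) • β) (by
      rw [pow_two, ← Matrix.mulVec_mulVec, Matrix.mulVec_sub, Matrix.mulVec_smul, hJ, ← hY,
        smul_smul, Matrix.mulVec_sub, Matrix.mulVec_smul, hJ, smul_smul, h2, ← sub_smul]
      have : s - s * (D * c * (D * c))⁻¹ * (D * c) * (D * c) = 0 := by
        field_simp
        ring
      rw [this, zero_smul])
    exact ⟨_, a, ha⟩
  have hpar : ∀ x y, T *ᵥ (T *ᵥ x) = 0 → T *ᵥ (T *ᵥ y) = 0 → x ≠ 0 → ∃ b : K, y = b • x := by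
    intro x y hx hy hx0
    obtain ⟨t, a, hta⟩ := hTT x hx
    obtain ⟨s, b, hsb⟩ := hTT y hy
    have ha0 : a ≠ 0 := by
      intro ha
      rw [ha, zero_smul] at hta
      have h1 := congrFun hta i₀
      simp only [Pi.sub_apply, extz_self, Pi.smul_apply, hβ, smul_eq_mul, mul_one,
        Pi.zero_apply] at h1
      have ht : t = 0 := by linear_combination -h1
      rw [ht, zero_smul, sub_zero] at hta
      apply hx0
      funext j
      rw [← extz_coe i₀ x j, hta]
      rfl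
    refine ⟨b / a, extz_inj i₀ _ _ ?_⟩
    rw [extz_smul]
    have h1 : extz i₀ y - s • β = (b / a) • (extz i₀ x - t • β) := by
      rw [hta, hsb, smul_smul, div_mul_cancel₀ b ha0]
    have h2 := congrFun h1 i₀
    simp only [Pi.sub_apply, extz_self, Pi.smul_apply, hβ, smul_eq_mul, mul_one] at h2
    funext j
    have h3 := congrFun h1 j
    simp only [Pi.sub_apply, Pi.smul_apply, smul_eq_mul] at h3 ⊢
    linear_combination h3 - β j * h2
  by_cases hinj : Function.Injective T.mulVec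
  · left
    have hu := Matrix.mulVec_injective_iff_isUnit.1 hinj
    exact ⟨T⁻¹, Matrix.nonsing_inv_mul T ((Matrix.isUnit_iff_isUnit_det T).1 hu)⟩
  · right
    obtain ⟨κ, hκ0, hκ⟩ : ∃ κ, κ ≠ 0 ∧ T *ᵥ κ = 0 := by
      rw [Function.Injective] at hinj
      push Not at hinj
      obtain ⟨x, y, hxy, hne⟩ := hinj
      exact ⟨x - y, sub_ne_zero.2 hne, by rw [Matrix.mulVec_sub, hxy, sub_self]⟩
    have hnr : κ ∉ LinearMap.range T.mulVecLin := by
      rintro ⟨y, hy⟩
      have hy' : T *ᵥ y = κ := by simpa using hy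
      obtain ⟨b, hb⟩ := hpar κ y (by rw [hκ, Matrix.mulVec_zero]) (by rw [hy', hκ]) hκ0
      apply hκ0
      rw [← hy', hb, Matrix.mulVec_smul, hκ, smul_zero]
    obtain ⟨f, hf1, hf2⟩ := Submodule.exists_dual_map_eq_bot_of_notMem hnr inferInstance
    set ℓ : {j : σ // j ≠ i₀} → K := fun j => (f κ)⁻¹ * f (Pi.single j 1) with hℓ
    have hfe : ∀ x : {j : σ // j ≠ i₀} → K, ℓ ⬝ᵥ x = (f κ)⁻¹ * f x := by
      intro x
      have h1 : x = ∑ j, x j • (Pi.single j (1 : K) : {j : σ // j ≠ i₀} → K) := by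
        funext j
        simp [Finset.sum_apply, Pi.single_apply]
      conv_rhs => rw [h1]
      rw [map_sum, dotProduct, Finset.mul_sum]
      refine Finset.sum_congr rfl fun j _ => ?_
      rw [map_smul, hℓ, smul_eq_mul]
      ring
    have h1 : ℓ ⬝ᵥ κ = 1 := by
      rw [hfe, inv_mul_cancel₀ hf1]
    have h2 : ∀ x, ℓ ⬝ᵥ (T *ᵥ x) = 0 := by
      intro x
      have h3 : f (T.mulVecLin x) ∈ (LinearMap.range T.mulVecLin).map f :=
        Submodule.mem_map_of_mem ⟨x, rfl⟩
      rw [hf2, Submodule.mem_bot] at h3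
      rw [hfe]
      have h4 : f (T *ᵥ x) = 0 := h3
      rw [h4, mul_zero]
    have h3 : ℓ ᵥ* T = 0 := by
      funext j
      have h4 := h2 (Pi.single j 1)
      rw [Matrix.dotProduct_mulVec] at h4
      simpa using h4
    have hinj2 : Function.Injective (T + vecMulVec κ ℓ).mulVec := by
      have key : ∀ x, (T + vecMulVec κ ℓ) *ᵥ x = 0 → x = 0 := by
        intro x hx
        have h5 : T *ᵥ x + (ℓ ⬝ᵥ x) • κ = 0 := by
          rw [← hx, Matrix.add_mulVec, Matrix.vecMulVec_mulVec]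
          simp
        have h6 : ℓ ⬝ᵥ x = 0 := by
          have h7 := congrArg (fun y => ℓ ⬝ᵥ y) h5
          simp only [dotProduct_add, h2, dotProduct_smul, h1, dotProduct_zero, zero_add,
            smul_eq_mul, mul_one] at h7
          exact h7
        rw [h6, zero_smul, add_zero] at h5
        obtain ⟨b, hb⟩ := hpar κ x (by rw [hκ, Matrix.mulVec_zero])
          (by rw [h5, Matrix.mulVec_zero]) hκ0
        rw [hb, dotProduct_smul, h1, smul_eq_mul, mul_one] at h6
        rw [hb, h6, zero_smul]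
      intro x y hxy
      have h8 := key (x - y) (by rw [Matrix.mulVec_sub]; exact sub_eq_zero.2 hxy)
      exact sub_eq_zero.1 h8
    have hu := Matrix.mulVec_injective_iff_isUnit.1 hinj2
    set Θ := (T + vecMulVec κ ℓ)⁻¹ with hΘ
    have h9 : Θ * (T + vecMulVec κ ℓ) = 1 :=
      Matrix.nonsing_inv_mul _ ((Matrix.isUnit_iff_isUnit_det _).1 hu)
    have h10 : Θ *ᵥ κ = κ := by
      have h11 : (T + vecMulVec κ ℓ) *ᵥ κ = κ := by
        rw [Matrix.add_mulVec, hκ, Matrix.vecMulVec_mulVec, h1]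
        simp
      calc Θ *ᵥ κ = Θ *ᵥ ((T + vecMulVec κ ℓ) *ᵥ κ) := by rw [h11]
        _ = κ := by rw [Matrix.mulVec_mulVec, h9, Matrix.one_mulVec]
    refine ⟨Θ, κ, ℓ, h1, h3, hκ, ?_⟩
    have h12 : Θ * vecMulVec κ ℓ = vecMulVec κ ℓ := by
      rw [Matrix.mul_vecMulVec, h10]
    rw [Matrix.mul_add, h12] at h9
    exact eq_sub_of_add_eq h9

end Pool.Agent.Helper33.SS

end

section

/-!
# Orbits attracted by a fixed point
-/

set_option autoImplicit false

namespace Pool.Agent.Helper33.SS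

open MvPolynomial Filter Topology Matrix

theorem norm_io (p : ℕ) [Fact p.Prime] (z : ℤ_[p]) : ‖io p z‖ = ‖z‖ := by
  simp only [io, RingHom.comp_apply]
  exact PadicComplex.norm_extends' p (z : ℚ_[p])

theorem norm_p_Cp (p : ℕ) [Fact p.Prime] : ‖(p : ℂ_[p])‖ = (p : ℝ)⁻¹ := by
  have h := norm_io p (p : ℤ_[p])
  rw [map_natCast] at h
  rw [h, PadicInt.norm_p]

theorem eval_smul_form {R : Type*} [CommRing R] {σ : Type*} {e : ℕ} {g : MvPolynomial σ R}
    (hg : g.IsHomogeneous e) (c : R) (x : σ → R) : eval (c • x) g = c ^ e * eval x g := by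
  rw [MvPolynomial.eval_eq, MvPolynomial.eval_eq, Finset.mul_sum]
  refine Finset.sum_congr rfl fun m hm => ?_
  have hd : ∑ i ∈ m.support, m i = e := by
    have := hg (MvPolynomial.mem_support_iff.1 hm)
    rw [Finsupp.weight_apply] at this
    simpa [Finsupp.sum] using this
  have h1 : ∏ i ∈ m.support, ((c • x) i) ^ m i = c ^ e * ∏ i ∈ m.support, x i ^ m i := by
    rw [← hd, ← Finset.prod_pow_eq_pow_sum, ← Finset.prod_mul_distrib]
    exact Finset.prod_congr rfl fun i _ => by rw [Pi.smul_apply, smul_eq_mul, mul_pow]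
  rw [h1]; ring

/-- the recurrence for the affine coordinates of an orbit near a fixed point -/
theorem exists_recurrence {K : Type*} [Field K] {σ : Type*} [Fintype σ] [DecidableEq σ]
    (G : σ → MvPolynomial σ K) (D : ℕ) (hG : ∀ i, (G i).IsHomogeneous D) (β : σ → K) (i₀ : σ)
    (hβ : β i₀ = 1) (c : K) (hc : c ≠ 0) (hfix : ∀ i, eval β (G i) = c * β i)
    (y : ℕ → σ → K) (hy : ∀ n, y (n + 1) = ev G (y n)) (μ : ℕ → K) (hμ : ∀ n, μ n ≠ 0)
    (x : ℕ → {j : σ // j ≠ i₀} → K) (hyx : ∀ n, y n = μ n • (β + extz i₀ (x n))) :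
    ∃ Q : {j : σ // j ≠ i₀} → MvPolynomial ({j : σ // j ≠ i₀} ⊕ {j : σ // j ≠ i₀}) K,
      (∀ j, Q j ∈ Sq _ K) ∧ ∀ n, x (n + 1) = tmat (jac G β) β i₀ c *ᵥ x n
        + fun j => eval (Sum.elim (x n) (x (n + 1))) (Q j) := by
  obtain ⟨Q, hQ, h⟩ := chart G β i₀ hβ c hc hfix
  refine ⟨Q, hQ, fun n => h _ _ fun j => ?_⟩
  have h1 : ∀ i, y (n + 1) i = μ n ^ D * eval (β + extz i₀ (x n)) (G i) := by
    intro i
    rw [hy, hyx n]
    exact eval_smul_form (hG i) _ _
  have h2 : ∀ i, y (n + 1) i = μ (n + 1) * (β i + extz i₀ (x (n + 1)) i) := by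
    intro i
    rw [hyx (n + 1)]
    rfl
  have h3 : μ (n + 1) = μ n ^ D * eval (β + extz i₀ (x n)) (G i₀) := by
    have := h2 i₀
    rw [h1, hβ] at this
    simp only [extz, dif_pos, add_zero, mul_one] at this
    exact this.symm
  have h4 := h2 j
  rw [h1, h3, mul_assoc] at h4
  exact mul_left_cancel₀ (pow_ne_zero _ (hμ n)) h4

section flat
variable {K : Type*} [NormedField K]

theorem Flat.of_eventually {γ : ℕ → ℝ} (hγ : ∀ n, 0 < γ n) {a : ℕ → K} (n₀ : ℕ)
    (h : ∀ e : ℕ, ∃ C : ℝ, ∀ n, n₀ ≤ n → ‖a n‖ ≤ C * γ n ^ e) : Flat γ a := by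
  intro e
  obtain ⟨C, hC⟩ := h e
  refine ⟨max C 0 + ∑ i ∈ Finset.range n₀, ‖a i‖ / γ i ^ e, fun n => ?_⟩
  have hs : 0 ≤ ∑ i ∈ Finset.range n₀, ‖a i‖ / γ i ^ e :=
    Finset.sum_nonneg fun i _ => div_nonneg (norm_nonneg _) (pow_nonneg (hγ i).le _)
  have hg : 0 < γ n ^ e := pow_pos (hγ n) e
  by_cases hn : n₀ ≤ n
  · refine (hC n hn).trans (mul_le_mul_of_nonneg_right ?_ hg.le)
    linarith [le_max_left C 0]
  · have h1 : ‖a n‖ / γ n ^ e ≤ ∑ i ∈ Finset.range n₀, ‖a i‖ / γ i ^ e :=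
      Finset.single_le_sum (f := fun i => ‖a i‖ / γ i ^ e)
        (fun i _ => div_nonneg (norm_nonneg _) (pow_nonneg (hγ i).le _))
        (Finset.mem_range.2 (not_le.1 hn))
    rw [div_le_iff₀ hg] at h1
    refine h1.trans (mul_le_mul_of_nonneg_right ?_ hg.le)
    linarith [le_max_right C 0]

theorem Flat.of_norm_le {γ : ℕ → ℝ} {a b : ℕ → K} (h : ∀ n, ‖a n‖ ≤ ‖b n‖) (hb : Flat γ b) :
    Flat γ a := by
  intro e
  obtain ⟨C, hC⟩ := hb e
  exact ⟨C, fun n => (h n).trans (hC n)⟩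

end flat

/-- from one residue class to all indices -/
theorem flat_all {K : Type*} [NormedField K] {ι : Type*} [Fintype ι] {w : K} (hw0 : w ≠ 0)
    (hw : ‖w‖ < 1) (x : ℕ → ι → K) {C : ℝ} (hC : ∀ n, ‖x (n + 1)‖ ≤ C * ‖x n‖) (k : ℕ)
    (hk : 1 ≤ k) (j : ℕ) (h : ∀ i, Flat (fun m => ‖w‖ ^ m) (fun m => x (k * m + j) i)) (i : ι) :
    Flat (fun n => ‖w‖ ^ n) (fun n => x n i) := by
  have hw0' : 0 < ‖w‖ := norm_pos_iff.2 hw0
  set C' : ℝ := max C 1 with hC'
  have hC1 : 1 ≤ C' := le_max_right _ _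
  have hC0 : 0 ≤ C' := zero_le_one.trans hC1
  have hstep : ∀ n, ‖x (n + 1)‖ ≤ C' * ‖x n‖ := fun n =>
    (hC n).trans (mul_le_mul_of_nonneg_right (le_max_left _ _) (norm_nonneg _))
  have hit : ∀ n i, ‖x (n + i)‖ ≤ C' ^ i * ‖x n‖ := by
    intro n i
    induction i with
    | zero => simp
    | succ i ih =>
      rw [← add_assoc, pow_succ']
      calc ‖x (n + i + 1)‖ ≤ C' * ‖x (n + i)‖ := hstep _
        _ ≤ C' * (C' ^ i * ‖x n‖) := mul_le_mul_of_nonneg_left ih hC0
        _ = _ := by ring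
  apply Flat.of_eventually (fun n => pow_pos hw0' n) j
  intro e
  choose Ci hCi using fun i' => h i' (k * e)
  set A : ℝ := ∑ i', |Ci i'| with hA
  have hA0 : 0 ≤ A := Finset.sum_nonneg fun _ _ => abs_nonneg _
  have hxm : ∀ m, ‖x (k * m + j)‖ ≤ A * (‖w‖ ^ m) ^ (k * e) := by
    intro m
    have hp : 0 ≤ (‖w‖ ^ m) ^ (k * e) := by positivity
    refine (pi_norm_le_iff_of_nonneg (mul_nonneg hA0 hp)).2 fun i' => ?_
    refine (hCi i' m).trans (mul_le_mul_of_nonneg_right ?_ hp)
    exact (le_abs_self _).trans (Finset.single_le_sum (f := fun i' => |Ci i'|)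
      (fun _ _ => abs_nonneg _) (Finset.mem_univ i'))
  refine ⟨C' ^ k * A * (‖w‖ ^ ((j + k) * e))⁻¹, fun n hn => ?_⟩
  obtain ⟨m, r, hr, rfl⟩ : ∃ m r, r < k ∧ n = k * m + j + r := by
    refine ⟨(n - j) / k, (n - j) % k, Nat.mod_lt _ hk, ?_⟩
    have := Nat.div_add_mod (n - j) k
    omega
  have h1 : ‖x (k * m + j + r) i‖ ≤ C' ^ k * (A * (‖w‖ ^ m) ^ (k * e)) := by
    calc ‖x (k * m + j + r) i‖ ≤ ‖x (k * m + j + r)‖ := norm_le_pi_norm _ i
      _ ≤ C' ^ r * ‖x (k * m + j)‖ := hit _ _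
      _ ≤ C' ^ k * (A * (‖w‖ ^ m) ^ (k * e)) :=
          mul_le_mul (pow_le_pow_right₀ hC1 hr.le) (hxm m) (norm_nonneg _) (pow_nonneg hC0 _)
  refine h1.trans ?_
  rw [mul_assoc, mul_assoc]
  refine mul_le_mul_of_nonneg_left (mul_le_mul_of_nonneg_left ?_ hA0) (pow_nonneg hC0 _)
  have hpos : 0 < ‖w‖ ^ ((j + k) * e) := pow_pos hw0' _
  rw [le_inv_mul_iff₀ hpos, ← pow_mul, ← pow_mul, ← pow_add]
  apply pow_le_pow_of_le_one hw0'.le hw.le
  have h2 : (k * m + j + r) * e ≤ (k * m + j + k) * e := Nat.mul_le_mul_right _ (by omega)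
  calc (k * m + j + r) * e ≤ (k * m + j + k) * e := h2
    _ = (j + k) * e + m * (k * e) := by ring

end Pool.Agent.Helper33.SS

end

section

/-!
# Transfer from the complex numbers to the `p`-adic integers
-/

set_option autoImplicit false

namespace Pool.Agent.Helper33.SS

open MvPolynomial

section
variable {p : ℕ} [Fact p.Prime] {σ : Type}

theorem homogeneous_of_map {R S : Type*} [CommRing R] [CommRing S] (f : R →+* S)
    (hf : Function.Injective f) {P : MvPolynomial σ R} {e : ℕ}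
    (h : (MvPolynomial.map f P).IsHomogeneous e) : P.IsHomogeneous e := by
  intro m hm
  apply h
  rw [coeff_map]
  intro h0
  exact hm ((map_eq_zero_iff f hf).1 h0)

theorem rank_map_ringEquiv {K L : Type} [Field K] [Field L] (s : K ≃+* L) [Fintype σ]
    [DecidableEq σ] (A : Matrix σ σ K) : (A.map s).rank = A.rank := by
  have h : ∀ v : σ → K, (A.map s).mulVec (fun i => s (v i)) = fun i => s (A.mulVec v i) := by
    intro v
    funext i
    simp only [Matrix.mulVec, dotProduct, Matrix.map_apply, map_sum, map_mul]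
  let j : (σ → K) ≃+ (σ → L) :=
    { toFun := fun v i => s (v i)
      invFun := fun v i => s.symm (v i)
      left_inv := fun v => by funext i; simp
      right_inv := fun v => by funext i; simp
      map_add' := fun v w => by funext i; simp }
  let j' : LinearMap.range A.mulVecLin ≃+ LinearMap.range (A.map s).mulVecLin :=
    { toFun := fun v => ⟨j v.1, by
        obtain ⟨u, hu⟩ := v.2
        refine ⟨j u, ?_⟩
        rw [← hu]
        exact h u⟩
      invFun := fun v => ⟨j.symm v.1, by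
        obtain ⟨u, hu⟩ := v.2
        refine ⟨j.symm u, ?_⟩
        apply j.injective
        rw [AddEquiv.apply_symm_apply, ← hu]
        have := h (j.symm u)
        have h2 : (fun i => s (j.symm u i)) = u := j.apply_symm_apply u
        rw [h2] at this
        exact this.symm⟩
      left_inv := fun v => by ext1; simp
      right_inv := fun v => by ext1; simp
      map_add' := fun v w => by ext1; simp }
  have h1 := rank_eq_of_equiv_equiv (R := K) (R' := L) s j' s.bijective (by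
    intro r m
    ext i
    simp [j', j])
  rw [Matrix.rank, Matrix.rank, Module.finrank, Module.finrank, h1]

end

end Pool.Agent.Helper33.SS

end

section

namespace Pool.Agent.Helper36
end Pool.Agent.Helper36

/-!
# The super-sparse dynamical Mordell-Lang theorem
-/

set_option autoImplicit false

namespace Pool.Agent.Helper33.SS

open MvPolynomial Pool.Agent.Helper36

/-- finite unions of progressions up to super-sparse sets -/
def SGood (S : Set ℕ) : Prop := ∃ (P : Finset (ℕ × ℕ)) (T : Set ℕ), Sparse T ∧ S = APSet P ∪ T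

theorem Sparse.empty : Sparse ∅ := Sparse.of_finite Set.finite_empty

theorem SGood.of_AP {S : Set ℕ} (h : ∃ P, S = APSet P) : SGood S := by
  obtain ⟨P, hP⟩ := h
  exact ⟨P, ∅, Sparse.empty, by rw [hP, Set.union_empty]⟩

theorem SGood.of_sparse {S : Set ℕ} (h : Sparse S) : SGood S :=
  ⟨∅, S, h, by rw [APSet_empty, Set.empty_union]⟩

theorem SGood.union {S T : Set ℕ} (hS : SGood S) (hT : SGood T) : SGood (S ∪ T) := by
  obtain ⟨P, A, hA, rfl⟩ := hS
  obtain ⟨Q, B, hB, rfl⟩ := hT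
  refine ⟨P ∪ Q, A ∪ B, hA.union hB, ?_⟩
  rw [APSet_union, Set.union_union_union_comm]

theorem SGood.iUnion {r : ℕ} {S : Fin r → Set ℕ} (h : ∀ j, SGood (S j)) : SGood (⋃ j, S j) := by
  induction r with
  | zero =>
    rw [Set.iUnion_of_empty]
    exact SGood.of_sparse Sparse.empty
  | succ r ih =>
    have h1 : (⋃ j, S j) = S 0 ∪ ⋃ j : Fin r, S j.succ := by
      ext n
      simp only [Set.mem_iUnion, Set.mem_union]
      constructor
      · rintro ⟨j, hj⟩
        rcases Fin.eq_zero_or_eq_succ j with rfl | ⟨l, rfl⟩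
        · exact Or.inl hj
        · exact Or.inr ⟨l, hj⟩
      · rintro (h | ⟨l, hl⟩)
        · exact ⟨0, h⟩
        · exact ⟨l.succ, hl⟩
    rw [h1]
    exact (h 0).union (ih fun j => h j.succ)

theorem evc_smul {σ : Type} {F : σ → MvPolynomial σ ℂ} {d : ℕ}
    (hF : ∀ i, (F i).IsHomogeneous d) (c : ℂ) (x : σ → ℂ) (n : ℕ) :
    (ev F)^[n] (c • x) = c ^ (d ^ n) • (ev F)^[n] x := by
  rw [← ev_itp, ← ev_itp]
  funext i
  simp only [ev, Pi.smul_apply, smul_eq_mul]
  exact eval_smul_form (itp_homogeneous hF n i) c x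

theorem inZ_smul {σ : Type} {V : Set (MvPolynomial σ ℂ)}
    (hV : ∀ g ∈ V, ∃ e : ℕ, g.IsHomogeneous e) {c : ℂ} (hc : c ≠ 0) (x : σ → ℂ) :
    InZ V (c • x) ↔ InZ V x := by
  constructor
  · intro h g hg
    obtain ⟨e, he⟩ := hV g hg
    have := h g hg
    rw [eval_smul_form he] at this
    exact (mul_eq_zero.1 this).resolve_left (pow_ne_zero _ hc)
  · intro h g hg
    obtain ⟨e, he⟩ := hV g hg
    rw [eval_smul_form he, h g hg, mul_zero]

end Pool.Agent.Helper33.SS

end

section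

namespace Pool.Agent.Helper33.SS
end Pool.Agent.Helper33.SS
namespace Pool.Agent.Helper36
end Pool.Agent.Helper36

/-!
# Project TG: unions of progressions and super-sparse sets
-/

set_option autoImplicit false

namespace Pool.Agent.Helper29.TG

open MvPolynomial
open Pool.Agent.Helper33.SS
open Pool.Agent.Helper36 (APSet APSet_univ APSet_of_evClosed krullDim_le_two)

theorem sgood_univ : SGood Set.univ := by
  obtain ⟨T, hT⟩ := APSet_univ
  exact SGood.of_AP ⟨T, hT⟩

theorem sgood_inter {S T : Set ℕ} (hS : SGood S) (hT : SGood T) : SGood (S ∩ T) := by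
  obtain ⟨P, A, hA, rfl⟩ := hS
  obtain ⟨Q, B, hB, rfl⟩ := hT
  obtain ⟨U, hU⟩ := Pool.Agent.Helper33.GC.APSet_inter P Q
  refine ⟨U, (APSet P ∪ A) ∩ (APSet Q ∪ B) ∩ (A ∪ B), (hA.union hB).mono
    Set.inter_subset_right, ?_⟩
  rw [← hU]
  ext n
  simp only [Set.mem_inter_iff, Set.mem_union]
  tauto

/-- From closed sets with finitely many periodic points to all closed sets of dimension at most
one (all closed sets if `N ≤ 2`). -/
theorem sgood_of_sparse_parts {N d : ℕ}
    (F : Fin (N + 1) → MvPolynomial (Fin (N + 1)) ℂ) (hF : ∀ i, (F i).IsHomogeneous d)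
    (hnz : ∀ x : Fin (N + 1) → ℂ, (∀ i, eval x (F i) = 0) → x = 0)
    (a : Fin (N + 1) → ℂ) (ha : a ≠ 0)
    (V : Set (MvPolynomial (Fin (N + 1)) ℂ)) (hV : ∀ g ∈ V, ∃ e : ℕ, g.IsHomogeneous e)
    (hone : (∀ n k, 1 ≤ k → ∀ c : ℂ, (ev F)^[n + k] a ≠ c • (ev F)^[n] a) →
      ringKrullDim (MvPolynomial (Fin (N + 1)) ℂ ⧸ Ideal.span V) ≤ 2 →
      ∀ W : Set (MvPolynomial (Fin (N + 1)) ℂ), (∀ g ∈ W, ∃ e : ℕ, g.IsHomogeneous e) →
      (∀ x, InZ W x → InZ V x) →
      (∀ k, 1 ≤ k → ∃ B : Finset (Fin (N + 1) → ℂ), ∀ x : Fin (N + 1) → ℂ, x ≠ 0 →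
        (∀ n, InZ W ((ev F)^[k * n] x)) → ∃ b ∈ B, ∃ c : ℂ, x = c • b) →
      Sparse {n | InZ W ((ev F)^[n] a)})
    (hsmall : N ≤ 2 ∨ ringKrullDim (MvPolynomial (Fin (N + 1)) ℂ ⧸ Ideal.span V) ≤ 2) :
    SGood {n | InZ V ((ev F)^[n] a)} := by
  have hev0 : ∀ x : Fin (N + 1) → ℂ, ev F x = 0 → x = 0 := fun x h => hnz x fun i => congrFun h i
  have horb0 : ∀ n, (ev F)^[n] a ≠ 0 := by
    intro n
    induction n with
    | zero => exact ha
    | succ n ih =>
      rw [Function.iterate_succ_apply']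
      exact fun h => ih (hev0 _ h)
  by_cases hper : ∃ n k, 1 ≤ k ∧ ∃ c : ℂ, (ev F)^[n + k] a = c • (ev F)^[n] a
  · -- preperiodic points
    obtain ⟨n₀, k, hk, c, hc⟩ := hper
    refine SGood.of_AP (APSet_of_evClosed hk ((Set.finite_Iio n₀).subset ?_))
    rintro n ⟨hn1, hn2⟩
    by_contra hlt
    apply hn2
    have hle : n₀ ≤ n := not_lt.1 hlt
    obtain ⟨m, rfl⟩ := Nat.exists_eq_add_of_le hle
    have h1 : (ev F)^[n₀ + m + k] a = c ^ (d ^ m) • (ev F)^[n₀ + m] a := by
      rw [show n₀ + m + k = m + (n₀ + k) by ring, Function.iterate_add_apply, hc, evc_smul hF,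
        ← Function.iterate_add_apply, add_comm m n₀]
    have hc0 : c ≠ 0 := by
      rintro rfl
      exact horb0 (n₀ + k) (by rw [hc, zero_smul])
    show InZ V ((ev F)^[n₀ + m + k] a)
    rw [h1, inZ_smul hV (pow_ne_zero _ hc0)]
    exact hn1
  · push Not at hper
    by_cases hzero : ∀ g ∈ V, g = 0
    · -- the whole space
      refine SGood.of_AP (APSet_of_evClosed Nat.one_pos (Set.finite_empty.subset ?_))
      rintro n ⟨hn1, hn2⟩
      apply hn2
      intro g hg
      rw [hzero g hg, map_zero]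
    · have hdim : ringKrullDim (MvPolynomial (Fin (N + 1)) ℂ ⧸ Ideal.span V) ≤ 2 := by
        rcases hsmall with h | h
        · push Not at hzero
          obtain ⟨g, hg, hg0⟩ := hzero
          exact krullDim_le_two h V hg hg0
        · exact h
      obtain ⟨r', W, hW1, hW2, hW3⟩ := dim_split F hF V hV hdim
      have hset2 : {n | InZ V ((ev F)^[n] a)} = ⋃ l, {n | InZ (W l) ((ev F)^[n] a)} := by
        ext n
        simp only [Set.mem_ofPred_eq, Set.mem_iUnion]
        exact hW2 _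
      rw [hset2]
      refine SGood.iUnion fun l => ?_
      rcases hW3 l with ⟨k, hk, hst⟩ | hB
      · refine SGood.of_AP (APSet_of_evClosed hk (Set.finite_empty.subset ?_))
        rintro n ⟨hn1, hn2⟩
        apply hn2
        show InZ (W l) ((ev F)^[n + k] a)
        rw [add_comm n k, Function.iterate_add_apply]
        exact hst _ hn1
      · exact SGood.of_sparse (hone hper hdim (W l) (hW1 l)
          (fun x h => (hW2 x).2 ⟨l, h⟩) hB)

end Pool.Agent.Helper29.TG

end
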