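import Pool.Agent.Helper29.MG2.T49
import Pool.Agent.Helper29.MG2.T17
import Pool.Agent.Helper29.MG2.T39
import Pool.Agent.Helper29.MG2.T13
import Pool.Agent.Helper29.MG2.T08
import Pool.Agent.Helper29.MG2.T19
import Pool.Agent.Helper29.MG2.T41
import Pool.Agent.Helper29.MG2.T40
import Pool.Agent.Helper29.MG2.T22
import Pool.Agent.Helper29.MG2.T23

section

namespace Pool.Agent.Helper33.SS
end Pool.Agent.Helper33.SS
namespace Pool.Agent.Helper38.TQ
end Pool.Agent.Helper38.TQ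

/-!
# Project NZ: from ultrafilters to return sets
-/

set_option autoImplicit false

namespace Pool.Agent.Helper45.NZ

open Pool.Agent.Helper33.SS (SGood Sparse)
open Pool.Agent.Helper38.TQ (Free)

theorem Ultra_sparse {T : Set ℕ} (hT : T.Finite) : Sparse T := by
  refine ⟨2, 1, T.ncard, by norm_num, one_pos, fun n m _ => ?_⟩
  exact Set.ncard_le_ncard Set.inter_subset_left hT

/-- A set is a finite union of good sets if this is true for every free ultrafilter which contains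
it. -/
theorem sgood_of_ultra {S : Set ℕ} (h : ∀ U : Ultrafilter ℕ, Free U → S ∈ (U : Filter ℕ) →
    ∃ T : Set ℕ, T ∈ (U : Filter ℕ) ∧ T ⊆ S ∧ SGood T) : SGood S := by
  by_contra hS
  have h0 : SGood (∅ : Set ℕ) := SGood.of_sparse (Ultra_sparse Set.finite_empty)
  let F : Filter ℕ :=
    { sets := {A | ∃ (T : Set ℕ) (m : ℕ), T ⊆ S ∧ SGood T ∧ (S \ T) ∩ Set.Ici m ⊆ A}
      univ_sets := ⟨∅, 0, Set.empty_subset _, h0, Set.subset_univ _⟩
      sets_of_superset := fun {A B} hA hAB => by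
        obtain ⟨T, m, h1, h2, h3⟩ := hA
        exact ⟨T, m, h1, h2, h3.trans hAB⟩
      inter_sets := fun {A B} hA hB => by
        obtain ⟨T, m, h1, h2, h3⟩ := hA
        obtain ⟨T', m', h1', h2', h3'⟩ := hB
        refine ⟨T ∪ T', max m m', Set.union_subset h1 h1', h2.union h2', ?_⟩
        rintro n ⟨⟨k1, k2⟩, k3⟩
        rw [Set.mem_Ici, max_le_iff] at k3
        rw [Set.mem_union, not_or] at k2
        exact ⟨h3 ⟨⟨k1, k2.1⟩, k3.1⟩, h3' ⟨⟨k1, k2.2⟩, k3.2⟩⟩ }
  have hmem : ∀ A : Set ℕ, A ∈ F ↔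
      ∃ (T : Set ℕ) (m : ℕ), T ⊆ S ∧ SGood T ∧ (S \ T) ∩ Set.Ici m ⊆ A := fun A => Iff.rfl
  have hne : F.NeBot := by
    rw [Filter.neBot_iff]
    intro hb
    have h1 : (∅ : Set ℕ) ∈ F := by
      rw [hb]
      exact Filter.mem_bot
    obtain ⟨T, m, h2, h3, h4⟩ := (hmem _).1 h1
    apply hS
    have h5 : S = T ∪ (S ∩ Set.Iio m) := by
      ext n
      constructor
      · intro hn
        by_cases hT : n ∈ T
        · exact Or.inl hT
        · right
          refine ⟨hn, ?_⟩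
          by_contra hm
          rw [Set.mem_Iio, not_lt] at hm
          exact h4 ⟨⟨hn, hT⟩, hm⟩
      · rintro (hn | hn)
        · exact h2 hn
        · exact hn.1
    rw [h5]
    exact h3.union (SGood.of_sparse (Ultra_sparse ((Set.finite_Iio m).subset
      Set.inter_subset_right)))
  have hle : ((Ultrafilter.of F : Ultrafilter ℕ) : Filter ℕ) ≤ F := Ultrafilter.of_le F
  have hfree : Free (Ultrafilter.of F) := by
    intro m
    refine hle ((hmem _).2 ⟨∅, m, Set.empty_subset _, h0, ?_⟩)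
    rintro n ⟨_, hn⟩
    exact hn
  have hSU : S ∈ ((Ultrafilter.of F : Ultrafilter ℕ) : Filter ℕ) := by
    refine hle ((hmem _).2 ⟨∅, 0, Set.empty_subset _, h0, ?_⟩)
    rintro n ⟨⟨hn, _⟩, _⟩
    exact hn
  obtain ⟨T, h1, h2, h3⟩ := h _ hfree hSU
  have h4 : S \ T ∈ ((Ultrafilter.of F : Ultrafilter ℕ) : Filter ℕ) := by
    refine hle ((hmem _).2 ⟨T, 0, h2, h3, ?_⟩)
    rintro n ⟨hn, _⟩
    exact hn
  have h5 := Filter.inter_mem h1 h4
  rw [Set.inter_sdiff_self] at h5
  exact (Ultrafilter.of F).empty_notMem h5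

end Pool.Agent.Helper45.NZ

end

section

/-!
# Project TG: sums of contacts of points of a plane curve (module of helper46)
-/

set_option autoImplicit false

namespace Pool.Agent.Helper29.TG

open Height AdmissibleAbsValues MvPolynomial

section forms

variable {K : Type} [Field K]

/-- The linear form whose value at `y` is a minor of `u`, `y`. -/
noncomputable def lowForm (u : Fin 3 → K) (q : Fin 3 × Fin 3) : MvPolynomial (Fin 3) K :=
  C (u q.1) * X q.2 - C (u q.2) * X q.1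

theorem lowForm_eval (u y : Fin 3 → K) (q : Fin 3 × Fin 3) :
    eval y (lowForm u q) = cr u y q := by
  simp [lowForm, cr]

theorem lowForm_hom (u : Fin 3 → K) (q : Fin 3 × Fin 3) : (lowForm u q).IsHomogeneous 1 :=
  ((isHomogeneous_X K q.2).C_mul _).sub ((isHomogeneous_X K q.1).C_mul _)

theorem low_cr_self (u : Fin 3 → K) (q : Fin 3 × Fin 3) : cr u u q = 0 := by
  unfold cr
  ring

theorem low_not_peq {x y : Fin 3 → K} (h : cr x y ≠ 0) : ¬ Pool.Agent.Helper30.TP.PEq x y := by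
  rintro ⟨c, -, rfl⟩
  apply h
  funext q
  simp only [cr, Pi.smul_apply, smul_eq_mul, Pi.zero_apply]
  ring

end forms

variable {K : Type} [Field K] [AdmissibleAbsValues K]

theorem exists_low [Infinite K] {y : ℕ → Fin 3 → K} {S : Set ℕ} (hS : S.Infinite)
    (hy : ∀ n ∈ S, y n ≠ 0) (hnp : ∀ n ∈ S, ∀ n' ∈ S, n ≠ n' → cr (y n) (y n') ≠ 0)
    {g : MvPolynomial (Fin 3) K} {D : ℕ} (hg : g.IsHomogeneous D) (hirr : Irreducible g)
    (hgy : ∀ n ∈ S, eval (y n) g = 0) (N : ℕ) (hN : 1 ≤ N) :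
    ∃ (Γ : Finset ℕ) (C : ℝ), ↑Γ ⊆ S ∧ Γ.Nonempty ∧
      {n ∈ S | n ∉ Γ ∧ ¬ N * logHeight (y n) ≤ ∑ i ∈ Γ, ls (fun v => ct v (y i) (y n)) + C}.Finite := by
  classical
  have hnp' : ∀ n ∈ S, ∀ n' ∈ S, n ≠ n' → ¬ Pool.Agent.Helper30.TP.PEq (y n) (y n') :=
    fun n hn n' hn' h => low_not_peq (hnp n hn n' hn' h)
  obtain ⟨Γ, δ, e, G, U, hΓS, hG, hU, heN, hδ, hgG, hgU, hT⟩ :=
    Pool.Agent.Helper30.TP.exists_denominator hS hy hnp' hg hirr hgy N
  -- the products of linear forms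
  have hTh : ∀ a : Γ → Fin 3 × Fin 3,
      (∏ i : Γ, lowForm (y i) (a i)).IsHomogeneous Γ.card := by
    intro a
    have := IsHomogeneous.prod (Finset.univ : Finset Γ) (fun i : Γ => lowForm (y i) (a i))
      (fun _ => 1) (fun i _ => lowForm_hom _ _)
    simpa using this
  have hT0 : ∀ a : Γ → Fin 3 × Fin 3, ∀ i ∈ Γ,
      eval (y i) (∏ i : Γ, lowForm (y i) (a i)) = 0 := by
    intro a i hi
    rw [map_prod]
    refine Finset.prod_eq_zero (Finset.mem_univ (⟨i, hi⟩ : Γ)) ?_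
    rw [lowForm_eval, low_cr_self]
  choose B hB hBd using fun a => hT _ (hTh a) (hT0 a)
  choose cc hccF hcc0 hccle using fun a => exists_log_eval_le (hB a)
  set c : AbsoluteValue K ℝ → ℝ := fun v => ∑ a : Γ → Fin 3 × Fin 3, cc a v with hc
  have hcs : FS c := FS.sum _ fun a _ => hccF a
  have hcle : ∀ v, Mem v → ∀ a : Γ → Fin 3 × Fin 3, cc a v ≤ c v := fun v hv a =>
    Finset.single_le_sum (f := fun a => cc a v) (fun a _ => hcc0 a v hv) (Finset.mem_univ a)
  -- the exceptional set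
  have hfin : ∀ {V : MvPolynomial (Fin 3) K} {t : ℕ}, V.IsHomogeneous t → ¬ g ∣ V →
      {n | n ∈ S ∧ eval (y n) V = 0}.Finite := by
    intro V t hV hgV
    have h1 := Pool.Agent.Helper30.TP.finite_common_zeros hg hV hirr hgV (fun n : S => y n)
      (fun n => hy n n.2)
      (fun i j hij => hnp' i i.2 j j.2 fun h => hij (Subtype.ext h))
    refine (h1.image Subtype.val).subset ?_
    rintro n ⟨hn, h0⟩
    exact ⟨⟨n, hn⟩, ⟨hgy n hn, h0⟩, rfl⟩
  refine ⟨Γ, ls c, hΓS, Finset.card_pos.1 (by omega),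
    ((hfin hG hgG).union (hfin hU hgU)).subset ?_⟩
  rintro n ⟨hn, hnΓ, hbad⟩
  by_contra hcon
  apply hbad
  have hGn : eval (y n) G ≠ 0 := fun h => hcon (Or.inl ⟨hn, h⟩)
  have hUn : eval (y n) U ≠ 0 := fun h => hcon (Or.inr ⟨hn, h⟩)
  have hcr : ∀ i ∈ Γ, cr (y i) (y n) ≠ 0 := fun i hi =>
    hnp i (hΓS hi) n hn fun h => hnΓ (h ▸ hi)
  -- the relation at the point
  have hrel : ∀ a : Γ → Fin 3 × Fin 3, (∏ i : Γ, cr (y i) (y n) (a i)) * eval (y n) U =
      eval (y n) G * eval (y n) (B a) := by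
    intro a
    obtain ⟨q, hq⟩ := hBd a
    have h1 := congrArg (eval (y n)) hq
    rw [map_sub, map_mul, map_mul, map_mul, hgy n hn, zero_mul, sub_eq_zero, map_prod] at h1
    simp only [lowForm_eval] at h1
    exact h1
  -- the local estimate
  have hloc : ∀ v : AbsoluteValue K ℝ, Mem v →
      ∑ i : Γ, Real.log (nm v (cr (y i) (y n))) + Real.log (v (eval (y n) U)) ≤
      Real.log (v (eval (y n) G)) + c v +
        ((Γ.card + e - δ : ℕ) : ℝ) * Real.log (nm v (y n)) := by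
    intro v hv
    choose a ha0 ha using fun i : Γ => exists_nm_eq v (hcr i i.2)
    have hne : ∀ i : Γ, 0 < nm v (cr (y i) (y n)) := fun i => nm_pos v (hcr i i.2)
    have h1 := congrArg v (hrel a)
    rw [map_mul, map_mul, map_prod] at h1
    simp only [← ha] at h1
    have hU0 : 0 < v (eval (y n) U) := v.pos hUn
    have hG0 : 0 < v (eval (y n) G) := v.pos hGn
    have hP0 : 0 < ∏ i : Γ, nm v (cr (y i) (y n)) :=
      Finset.prod_pos fun i _ => hne i
    have hB1 : eval (y n) (B a) ≠ 0 := by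
      intro h2
      rw [h2, map_zero, mul_zero] at h1
      exact (mul_pos hP0 hU0).ne' h1
    have hB0 : 0 < v (eval (y n) (B a)) := v.pos hB1
    have h2 := hccle a v hv (y n) hB1
    have h6 := congrArg Real.log h1
    rw [Real.log_mul hP0.ne' hU0.ne', Real.log_mul hG0.ne' hB0.ne',
      Real.log_prod fun i _ => (hne i).ne'] at h6
    have h8 := hcle v hv a
    rw [h6]
    linarith
  -- the sum over the places
  have hs1 : ∀ i ∈ (Finset.univ : Finset Γ),
      FS (fun v => Real.log (nm v (cr (y i) (y n)))) := fun i _ => FS_nm (hcr i i.2)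
  have hs2 := FS_log hUn
  have hs3 := FS_log hGn
  have hs4 := FS.mul_left ((Γ.card + e - δ : ℕ) : ℝ) (FS_nm (hy n hn))
  have hsum := ls_mono ((FS.sum _ hs1).add hs2) ((hs3.add hcs).add hs4) hloc
  rw [ls_add (FS.sum _ hs1) hs2, ls_add (hs3.add hcs) hs4, ls_add hs3 hcs,
    ls_log hUn, ls_log hGn, ls_mul_left, ls_nm (hy n hn),
    ls_sum _ hs1, add_zero, zero_add] at hsum
  have h9 : ∑ i ∈ Γ, logHeight (cr (y i) (y n)) =
      ∑ i : Γ, ls (fun v => Real.log (nm v (cr (y i) (y n)))) := by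
    rw [← Finset.sum_coe_sort Γ fun i => logHeight (cr (y i) (y n))]
    exact Finset.sum_congr rfl fun i _ => (ls_nm (hcr i i.2)).symm
  have h10 : 0 ≤ logHeight (y n) := logHeight_nonneg _
  have h11 : ((Γ.card + e - δ : ℕ) : ℝ) ≤ (Γ.card : ℝ) - N := by
    have h12 : Γ.card + e - δ + N ≤ Γ.card := by omega
    have h13 : ((Γ.card + e - δ : ℕ) : ℝ) + (N : ℝ) ≤ (Γ.card : ℝ) := by exact_mod_cast h12
    linarith
  have h12 := mul_le_mul_of_nonneg_right h11 h10
  have h14 : ∑ i ∈ Γ, ls (fun v => ct v (y i) (y n)) =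
      ∑ i ∈ Γ, logHeight (y i) + Γ.card * logHeight (y n) -
        ∑ i ∈ Γ, logHeight (cr (y i) (y n)) := by
    rw [Finset.sum_congr rfl fun i hi => ls_ct (hcr i hi), Finset.sum_sub_distrib,
      Finset.sum_add_distrib, Finset.sum_const, nsmul_eq_mul]
  have h15 : 0 ≤ ∑ i ∈ Γ, logHeight (y i) := Finset.sum_nonneg fun i _ => logHeight_nonneg _
  rw [h14, h9]
  linarith

end Pool.Agent.Helper29.TG

end

section

/-!
# Project TG: projection to a plane curve (module of helper58)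
-/

set_option autoImplicit false

namespace Pool.Agent.Helper29.TG

open MvPolynomial

variable {K : Type} [Field K] {ν : ℕ}

/-- Any three linear forms satisfy a homogeneous relation at the points `x n`, `n ∈ S`. -/
def OnCurveS (S : Set ℕ) (x : ℕ → Fin (ν + 1) → K) : Prop :=
  ∀ a : Fin 3 → Fin (ν + 1) → K, ∃ (P : MvPolynomial (Fin 3) K) (e : ℕ), P ≠ 0 ∧
    P.IsHomogeneous e ∧ ∀ n ∈ S, eval (pl a (x n)) P = 0

/-- a free ultrafilter containing an infinite set -/
theorem plane_ultra {S : Set ℕ} (hS : S.Infinite) :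
    ∃ U : Ultrafilter ℕ, Pool.Agent.Helper38.TQ.Free U ∧ ∀ᶠ n in (U : Filter ℕ), n ∈ S := by
  have hne : (Filter.cofinite ⊓ Filter.principal S : Filter ℕ).NeBot :=
    Filter.cofinite_inf_principal_neBot_iff.2 hS
  refine ⟨Ultrafilter.of (Filter.cofinite ⊓ Filter.principal S), ?_, ?_⟩
  · intro m
    have h1 : ∀ᶠ n in (Filter.cofinite : Filter ℕ), m ≤ n := by
      rw [Nat.cofinite_eq_atTop]
      exact Filter.eventually_ge_atTop m
    exact (Ultrafilter.of_le (Filter.cofinite ⊓ Filter.principal S)).trans inf_le_left h1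
  · exact (Ultrafilter.of_le (Filter.cofinite ⊓ Filter.principal S)).trans inf_le_right
      (Filter.mem_principal_self S)

/-- a binary form vanishing on the affine line is zero -/
theorem plane_binary [Infinite K] {P : MvPolynomial (Fin 2) K} {e : ℕ} (hP : P.IsHomogeneous e)
    (h : ∀ t : K, eval ![1, t] P = 0) : P = 0 := by
  have h1 : X 0 * P = 0 := by
    apply MvPolynomial.funext
    intro z
    rw [map_mul, eval_X, map_zero]
    by_cases hz : z 0 = 0
    · rw [hz, zero_mul]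
    · have h2 := h ((z 0)⁻¹ * z 1)
      have h4 : (![1, (z 0)⁻¹ * z 1] : Fin 2 → K) = (z 0)⁻¹ • z := by
        funext i
        fin_cases i
        · simp [hz]
        · rfl
      rw [h4, Pool.Agent.Helper38.TQ.eval_smul_hom hP] at h2
      rcases mul_eq_zero.1 h2 with h3 | h3
      · exact absurd h3 (pow_ne_zero _ (inv_ne_zero hz))
      · rw [h3, mul_zero]
  rcases mul_eq_zero.1 h1 with h2 | h2
  · exact absurd h2 (X_ne_zero _)
  · exact h2

/-- a relation between two coordinates makes the ratio constant along the ultrafilter -/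
theorem plane_ratio [Infinite K] {U : Ultrafilter ℕ} {u w : ℕ → K}
    (hu : ∀ᶠ n in (U : Filter ℕ), u n ≠ 0) {P : MvPolynomial (Fin 2) K} {e : ℕ}
    (hP : P.IsHomogeneous e) (hP0 : P ≠ 0)
    (hv : ∀ᶠ n in (U : Filter ℕ), eval ![u n, w n] P = 0) :
    ∃ c : K, ∀ᶠ n in (U : Filter ℕ), w n = c * u n := by
  classical
  obtain ⟨p, hp⟩ : ∃ p : Polynomial K,
      p = aeval (![1, Polynomial.X] : Fin 2 → Polynomial K) P := ⟨_, rfl⟩
  have hpe : ∀ t : K, Polynomial.eval t p = eval ![1, t] P := by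
    intro t
    have h3 : (Polynomial.aeval t : Polynomial K →ₐ[K] K).comp
        (aeval (![1, Polynomial.X] : Fin 2 → Polynomial K)) =
        (aeval (![1, t] : Fin 2 → K)) := by
      apply MvPolynomial.algHom_ext
      intro i
      rw [AlgHom.comp_apply, aeval_X, aeval_X]
      fin_cases i
      · exact map_one _
      · change Polynomial.aeval t Polynomial.X = t
        rw [Polynomial.aeval_X]
    have h4 := congrArg (fun φ => φ P) h3
    rw [hp, ← coe_aeval_eq_eval, ← Polynomial.coe_aeval_eq_eval]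
    exact h4
  have hp0 : p ≠ 0 := by
    intro h
    apply hP0
    apply plane_binary hP
    intro t
    rw [← hpe, h, Polynomial.eval_zero]
  have h1 : ∀ᶠ n in (U : Filter ℕ), w n / u n ∈ p.roots.toFinset := by
    filter_upwards [hu, hv] with n h2 h3
    rw [Multiset.mem_toFinset, Polynomial.mem_roots hp0, Polynomial.IsRoot.def, hpe]
    have h4 : (![1, w n / u n] : Fin 2 → K) = (u n)⁻¹ • ![u n, w n] := by
      funext i
      fin_cases i
      · simp [h2]
      · simp [div_eq_inv_mul]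
    rw [h4, Pool.Agent.Helper38.TQ.eval_smul_hom hP, h3, mul_zero]
  have h2 : ∃ c ∈ (p.roots.toFinset : Set K), {n | w n / u n = c} ∈ U := by
    refine (Ultrafilter.finite_biUnion_mem_iff (Finset.finite_toSet _)).1 ?_
    filter_upwards [h1] with n hn
    exact Set.mem_iUnion₂.2 ⟨w n / u n, hn, rfl⟩
  obtain ⟨c, -, hc⟩ := h2
  refine ⟨c, ?_⟩
  filter_upwards [hc, hu] with n h3 h4
  have h5 : w n / u n = c := h3
  rw [← h5, div_mul_cancel₀ _ h4]

theorem exists_plane [CharZero K] {x : ℕ → Fin (ν + 1) → K} {S : Set ℕ} (hS : S.Infinite)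
    (hx : ∀ n ∈ S, x n ≠ 0) (hnp : ∀ n ∈ S, ∀ n' ∈ S, n ≠ n' → cr (x n) (x n') ≠ 0)
    (hc : OnCurveS S x) :
    ∃ (T : Set ℕ) (a : Fin 3 → Fin (ν + 1) → K) (e D : ℕ) (V g : MvPolynomial (Fin 3) K)
      (P : Fin (ν + 1) → MvPolynomial (Fin 3) K), T ⊆ S ∧ T.Infinite ∧ V.IsHomogeneous e ∧
      (∀ j, (P j).IsHomogeneous (e + 1)) ∧ g.IsHomogeneous D ∧ Irreducible g ∧
      ∀ n ∈ T, eval (pl a (x n)) g = 0 ∧ eval (pl a (x n)) V ≠ 0 ∧
        ∀ j, x n j * eval (pl a (x n)) V = eval (pl a (x n)) (P j) := by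
  classical
  obtain ⟨U, hU, hUS⟩ := plane_ultra hS
  -- the first coordinate
  have hj : ∃ j₀ : Fin (ν + 1), ∀ᶠ n in (U : Filter ℕ), x n j₀ ≠ 0 := by
    have h1 : ∃ j ∈ (Set.univ : Set (Fin (ν + 1))), {n | x n j ≠ 0} ∈ U := by
      refine (Ultrafilter.finite_biUnion_mem_iff Set.finite_univ).1 ?_
      filter_upwards [hUS] with n hn
      obtain ⟨j, hj⟩ := Function.ne_iff.1 (hx n hn)
      exact Set.mem_iUnion₂.2 ⟨j, Set.mem_univ j, hj⟩
    obtain ⟨j, -, hj⟩ := h1
    exact ⟨j, hj⟩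
  obtain ⟨j₀, hj₀⟩ := hj
  -- the second coordinate
  have hj1 : ∃ j₁ : Fin (ν + 1), ∀ (P : MvPolynomial (Fin 2) K) (e : ℕ), P.IsHomogeneous e →
      P ≠ 0 → ¬ ∀ᶠ n in (U : Filter ℕ), eval ![x n j₀, x n j₁] P = 0 := by
    by_contra hcon
    push Not at hcon
    have h1 : ∀ j, ∃ c : K, ∀ᶠ n in (U : Filter ℕ), x n j = c * x n j₀ := by
      intro j
      obtain ⟨P, e, hP, hP0, hv⟩ := hcon j
      exact plane_ratio hj₀ hP hP0 hv
    choose c hcc using h1
    have h2 : ∀ᶠ n in (U : Filter ℕ), ∀ j, x n j = c j * x n j₀ :=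
      Filter.eventually_all.2 hcc
    have h3 : ∀ᶠ n in (U : Filter ℕ), n ∈ S ∧ ∀ j, x n j = c j * x n j₀ := hUS.and h2
    obtain ⟨n, ⟨hnS, hn⟩, -⟩ := Pool.Agent.Helper30.TP.ultra_exists_notMem hU Set.finite_empty h3
    obtain ⟨n', ⟨hnS', hn'⟩, hne⟩ := Pool.Agent.Helper30.TP.ultra_exists_notMem hU
      (Set.finite_singleton n) h3
    refine hnp n hnS n' hnS' (fun h => hne (by rw [h]; rfl)) ?_
    funext q
    unfold cr
    rw [hn q.1, hn' q.2, hn q.2, hn' q.1, Pi.zero_apply]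
    ring
  obtain ⟨j₁, hj₁⟩ := hj1
  have hl : ∀ (a : Fin (ν + 1) → K) (n : ℕ),
      Pool.Agent.Helper38.TQ.lin (k := K) (K := K) a (x n) = lin a (x n) := fun a n => rfl
  have hls : ∀ (j : Fin (ν + 1)) (n : ℕ),
      Pool.Agent.Helper38.TQ.lin (k := K) (K := K) (Pi.single j 1) (x n) = x n j := by
    intro j n
    rw [hl]
    unfold lin
    rw [Finset.sum_eq_single j]
    · rw [Pi.single_eq_same, one_mul]
    · intro i _ hij
      rw [Pi.single_eq_of_ne hij, zero_mul]
    · intro h3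
      exact absurd (Finset.mem_univ j) h3
  have hcurve : Pool.Agent.Helper38.TQ.OnCurve U x := by
    intro m
    obtain ⟨P, e, hP0, hP, hv⟩ := hc m
    refine ⟨P, e, hP, hP0, ?_⟩
    filter_upwards [hUS] with n hn
    exact hv n hn
  obtain ⟨a₂, e, V, P, hV, hP, hVP⟩ := Pool.Agent.Helper38.TQ.exists_third_form (k := K) hcurve
    (Pi.single j₀ 1) (Pi.single j₁ 1) (by
      intro P e hP hP0 hv
      apply hj₁ P e hP hP0
      filter_upwards [hv] with n hn
      rwa [hls, hls] at hn)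
  obtain ⟨a, ha⟩ : ∃ a : Fin 3 → Fin (ν + 1) → K, a = ![Pi.single j₀ 1, Pi.single j₁ 1, a₂] :=
    ⟨_, rfl⟩
  have hpl : ∀ n, pl a (x n) = ![Pool.Agent.Helper38.TQ.lin (k := K) (Pi.single j₀ 1) (x n),
      Pool.Agent.Helper38.TQ.lin (k := K) (Pi.single j₁ 1) (x n),
      Pool.Agent.Helper38.TQ.lin (k := K) a₂ (x n)] := by
    intro n
    funext j
    rw [ha]
    fin_cases j <;> rfl
  obtain ⟨Q, eQ, hQ0, hQ, hQv⟩ := hc a
  have hQv' : ∀ᶠ n in (U : Filter ℕ), eval (pl a (x n)) Q = 0 := by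
    filter_upwards [hUS] with n hn
    exact hQv n hn
  obtain ⟨D, g, hg, hgi, hgv⟩ := Pool.Agent.Helper38.TQ.exists_irreducible_form hQ hQ0 hQv'
  obtain ⟨T, hT⟩ : ∃ T : Set ℕ, T = {n | n ∈ S ∧ eval (pl a (x n)) g = 0 ∧
      eval (pl a (x n)) V ≠ 0 ∧ ∀ j, x n j * eval (pl a (x n)) V = eval (pl a (x n)) (P j)} :=
    ⟨_, rfl⟩
  have hTU : ∀ᶠ n in (U : Filter ℕ), n ∈ T := by
    filter_upwards [hUS, hgv, hVP] with n h1 h2 h3
    rw [← hpl] at h3
    rw [hT]
    exact ⟨h1, h2, h3⟩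
  refine ⟨T, a, e, D, V, g, P, ?_, ?_, hV, hP, hg, hgi, ?_⟩
  · intro n hn
    rw [hT] at hn
    exact hn.1
  · intro hfin
    obtain ⟨n, hn1, hn2⟩ := Pool.Agent.Helper30.TP.ultra_exists_notMem hU hfin hTU
    exact hn2 hn1
  · intro n hn
    rw [hT] at hn
    exact hn.2

end Pool.Agent.Helper29.TG

end

section

/-!
# Project TG: a place with large contact and small defects (helper29)
-/

set_option autoImplicit false

namespace Pool.Agent.Helper29.TG

open Height AdmissibleAbsValues MvPolynomial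

theorem count_exp_growth (A B : ℝ) (m₀ : ℕ) : ∃ n₁ : ℕ, ∀ n, n₁ ≤ n → A * n + B < 2 ^ (n - m₀) := by
  have h1 : Filter.Tendsto (fun k : ℕ => (2 : ℝ) ^ k - (|A| * k + (|A| * m₀ + |B|)))
      Filter.atTop Filter.atTop := by
    have h2 : Filter.Tendsto (fun k : ℕ => ((k : ℝ) / 2 ^ k)) Filter.atTop (nhds 0) := by
      have := tendsto_pow_const_div_const_pow_of_one_lt 1 (one_lt_two (α := ℝ))
      simpa using this
    have h3 : Filter.Tendsto (fun k : ℕ => ((|A| * m₀ + |B|) / 2 ^ k)) Filter.atTop (nhds 0) :=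
      tendsto_const_nhds.div_atTop (tendsto_pow_atTop_atTop_of_one_lt one_lt_two)
    have h4 : Filter.Tendsto (fun k : ℕ => (1 : ℝ) - |A| * (k / 2 ^ k) - (|A| * m₀ + |B|) / 2 ^ k)
        Filter.atTop (nhds 1) := by
      have := ((tendsto_const_nhds (x := (1 : ℝ))).sub (h2.const_mul |A|)).sub h3
      simpa using this
    have h5 := (tendsto_pow_atTop_atTop_of_one_lt (one_lt_two (α := ℝ))).atTop_mul_pos
      one_pos h4
    refine h5.congr fun k => ?_
    have h6 : (2 : ℝ) ^ k ≠ 0 := by positivity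
    field_simp
    ring
  obtain ⟨k₀, hk₀⟩ := (h1.eventually_gt_atTop 0).exists_forall_of_atTop
  refine ⟨m₀ + k₀, fun n hn => ?_⟩
  have h2 := hk₀ (n - m₀) (by omega)
  have h3 : (n : ℝ) = (n - m₀ : ℕ) + m₀ := by
    rw [← Nat.cast_add]
    congr 1
    omega
  have h4 : A * n ≤ |A| * n := mul_le_mul_of_nonneg_right (le_abs_self A) (Nat.cast_nonneg n)
  have h5 : B ≤ |B| := le_abs_self B
  rw [h3] at h4 ⊢
  nlinarith

variable {K : Type} [Field K] [CharZero K] [AdmissibleAbsValues K] {ν : ℕ}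

end Pool.Agent.Helper29.TG

end

section

namespace Pool.Agent.Helper33.SS
end Pool.Agent.Helper33.SS

/-!
# Orbits attracted by a fixed point, over the unit ball of a finite extension
-/

set_option autoImplicit false

namespace Pool.Agent.Helper88.TL

open MvPolynomial Filter Topology Matrix Pool.Agent.Helper33.SS

theorem stage2R {p : ℕ} [Fact p.Prime] (hp3 : 3 ≤ p) {R : Type} [NormedCommRing R] {ι : R →+* ℂ_[p]}
    (hR : Loc p R ι) {σ : Type} [Fintype σ] [DecidableEq σ]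
    (G : σ → MvPolynomial σ R) (D : ℕ) (hD : 0 < D) (hG : ∀ i, (G i).IsHomogeneous D)
    (β : σ → R) (i₀ : σ) (hβ : β i₀ = 1) (c : R) (hc : ‖c‖ = 1)
    (hfix : ∀ i, eval β (G i) = c * β i)
    (y : ℕ → σ → R) (hy : ∀ n, y (n + 1) = ev G (y n)) (hyu : ∀ n, ‖y n i₀‖ = 1)
    (hyβ : ∃ C : ℝ, ∀ n i, ‖y n i - y n i₀ * β i‖ ≤ C * ((p : ℝ)⁻¹) ^ n)
    (hyne : ∀ n, y n ≠ y n i₀ • β)
    (V E : Set (MvPolynomial σ R)) (hV : ∀ g ∈ V, ∃ e : ℕ, g.IsHomogeneous e)
    (hE : ∀ g ∈ E, ∃ e : ℕ, g.IsHomogeneous e) (hβE : ¬ InZ E β)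
    (hfin : ∀ k, 1 ≤ k → ∃ B : Finset (σ → ℂ_[p]), ∀ z : σ → ℂ_[p], z ≠ 0 →
      (∀ n, InZ (MvPolynomial.map ι '' V) ((ev (cq ι G))^[k * n] z)) →
      ¬ InZ (MvPolynomial.map ι '' E) z → ∃ b ∈ B, ∃ c : ℂ_[p], z = c • b)
    (hrank : Fintype.card σ ≤ (((jac G β).map ι) ^ 2).rank + 1) :
    Sparse {n | InZ V (y n)} := by
  classical
  have hpp : p.Prime := Fact.out
  have hp0 : (0 : ℝ) < (p : ℝ)⁻¹ := inv_pos.2 (by exact_mod_cast hpp.pos)
  have hp1 : (p : ℝ)⁻¹ < 1 := inv_lt_one_of_one_lt₀ (by exact_mod_cast hpp.one_lt)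
  set β' : σ → ℂ_[p] := fun i => ι (β i) with hβ'
  set Y : ℕ → σ → ℂ_[p] := fun n i => ι (y n i) with hY
  set μ : ℕ → ℂ_[p] := fun n => ι (y n i₀) with hμdef
  have hμ : ∀ n, ‖μ n‖ = 1 := fun n => by rw [hμdef]; simp only [hR.norm_map, hyu]
  have hμ0 : ∀ n, μ n ≠ 0 := fun n h => by
    have := hμ n
    rw [h, norm_zero] at this
    exact zero_ne_one this
  set X' : ℕ → σ → ℂ_[p] := fun n i => Y n i / μ n - β' i with hX'
  have hβ1 : β' i₀ = 1 := by simp only [hβ', hβ, map_one]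
  have hX0 : ∀ n, X' n i₀ = 0 := by
    intro n
    simp only [hX', hβ1]
    have : Y n i₀ = μ n := rfl
    rw [this, div_self (hμ0 n), sub_self]
  set x : ℕ → {j : σ // j ≠ i₀} → ℂ_[p] := fun n j => X' n j with hx
  have hext : ∀ n, extz i₀ (x n) = X' n := by
    intro n
    funext j
    by_cases h : j = i₀
    · subst h
      simp only [extz, dif_pos, hX0]
    · simp only [extz, dif_neg h, hx]
  have hYX : ∀ n, Y n = μ n • (β' + X' n) := by
    intro n
    funext i
    simp only [Pi.smul_apply, Pi.add_apply, smul_eq_mul, hX']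
    rw [add_sub_cancel, mul_div_cancel₀ _ (hμ0 n)]
  have hYx : ∀ n, Y n = μ n • (β' + extz i₀ (x n)) := fun n => by rw [hext, hYX]
  obtain ⟨C₀, hC₀⟩ := hyβ
  have hXb : ∀ n i, ‖X' n i‖ ≤ C₀ * ((p : ℝ)⁻¹) ^ n := by
    intro n i
    have h1 : X' n i = ι (y n i - y n i₀ * β i) / μ n := by
      rw [map_sub, map_mul, sub_div]
      simp only [hX']
      rw [mul_div_cancel_left₀ _ (hμ0 n)]
    rw [h1, norm_div, hμ, div_one, hR.norm_map]
    exact hC₀ n i
  have hYrec : ∀ n, Y (n + 1) = ev (cq ι G) (Y n) := by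
    intro n
    have := ev_map ι G (y n)
    simp only [hY]
    rw [hy n]
    exact this.symm
  have hG' : ∀ i, (cq ι G i).IsHomogeneous D := fun i => (hG i).map _
  have hc0 : ι c ≠ 0 := by
    intro h
    have := hR.norm_map c
    rw [h, norm_zero, hc] at this
    exact zero_ne_one this
  have hfix' : ∀ i, eval β' (cq ι G i) = ι c * β' i := by
    intro i
    simp only [cq, hβ']
    rw [hR.eval_map, hfix, map_mul]
  obtain ⟨Q, hQ, hrec⟩ := exists_recurrence (cq ι G) D hG' β' i₀ hβ1 (ι c) hc0 hfix' Y hYrec μ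
    hμ0 x hYx
  set T := tmat (jac (cq ι G) β') β' i₀ (ι c) with hT
  -- the matrix is integral
  obtain ⟨ci, hci⟩ : ∃ ci : R, ci * c = 1 := by
    obtain ⟨u, hu⟩ := hR.unit c hc
    exact ⟨↑u⁻¹, by rw [← hu, Units.inv_mul]⟩
  have hJ : jac (cq ι G) β' = (jac G β).map ι := jac_map ι G β
  set T0 : Matrix {j : σ // j ≠ i₀} {j : σ // j ≠ i₀} R :=
    Matrix.of fun j l => ci * (jac G β j l - β j * jac G β i₀ l) with hT0
  have hJ' : ∀ j l, jac (cq ι G) β' j l = ι (jac G β j l) := fun j l => by rw [hJ]; rfl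
  have hTT0 : T = T0.map ι := by
    ext j l
    simp only [hT, tmat, hJ', hT0, Matrix.of_apply, Matrix.map_apply, map_mul, map_sub]
    congr 1
    have : ι ci * ι c = 1 := by rw [← map_mul, hci, map_one]
    exact (eq_inv_of_mul_eq_one_left this).symm
  obtain ⟨w, k, hw0, hw1, hwp, hk, hgood⟩ := exists_good' hR T0.charpoly T0.charpoly_monic
  have hgoodT : ∀ ν, T.charpoly.IsRoot ν → GoodEig (p : ℝ)⁻¹ w (ν ^ k) := by
    intro ν hν
    apply hgood
    rwa [hTT0, Matrix.charpoly_map] at hν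
  have hw0' : 0 < ‖w‖ := norm_pos_iff.2 hw0
  have hC₀0 : 0 ≤ C₀ := by
    have := (norm_nonneg _).trans (hXb 0 i₀)
    simpa using this
  have hdec : ∀ j i, ∃ C : ℝ, ∀ m, ‖x (k * m + j) i‖ ≤ C * ‖w‖ ^ m := by
    intro j i
    refine ⟨C₀, fun m => (hXb _ _).trans (mul_le_mul_of_nonneg_left ?_ hC₀0)⟩
    calc ((p : ℝ)⁻¹) ^ (k * m + j) ≤ ((p : ℝ)⁻¹) ^ m :=
          pow_le_pow_of_le_one hp0.le hp1.le (by nlinarith)
      _ ≤ ‖w‖ ^ m := pow_le_pow_left₀ hp0.le hwp m
  have hboot := boot hp0 hp1 hw0 hw1 T Q hQ x hrec k hk hgoodT hdec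
  set a : MvPolynomial σ R → ℕ → ℕ → ℂ_[p] :=
    fun g j m => eval (β' + X' (k * m + j)) (MvPolynomial.map ι g) with ha
  have hexp : ∀ g j M, HasExp (p : ℝ)⁻¹ w M (a g j) := by
    intro g j M
    refine HasExp.eval (z := fun m => β' + X' (k * m + j)) hp0.le hw1.le (fun i => ?_) _
    by_cases h : i = i₀
    · have : (fun m => (β' + X' (k * m + j)) i) = fun _ => β' i := by
        funext m
        rw [h, Pi.add_apply, hX0, add_zero]
      rw [this]
      exact HasExp.of_adic hp0.le hw1.le (Adic.const hp0.le _)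
    · exact HasExp.add hp0.le (HasExp.of_adic hp0.le hw1.le (Adic.const hp0.le (β' i)))
        (hboot M j ⟨i, h⟩)
  have hzero : ∀ n, ∀ g ∈ V, (eval (y n) g = 0 ↔
      eval (β' + X' n) (MvPolynomial.map ι g) = 0) := by
    intro n g hg
    obtain ⟨e, he⟩ := hV g hg
    have h1 : ι (eval (y n) g) = μ n ^ e * eval (β' + X' n) (MvPolynomial.map ι g) := by
      rw [← hR.eval_map, ← eval_smul_form (he.map _), ← hYX]
    rw [← map_eq_zero_iff _ hR.injective, h1, mul_eq_zero]
    simp [hμ0 n]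
  have hxlim : Tendsto X' atTop (𝓝 0) := by
    rw [tendsto_pi_nhds]
    intro i
    rw [Pi.zero_apply]
    refine squeeze_zero_norm (hXb · i) ?_
    have := (tendsto_pow_atTop_nhds_zero_of_lt_one hp0.le hp1).const_mul C₀
    simpa using this
  have hβE' : ¬ InZ (MvPolynomial.map ι '' E) β' := by
    rw [hβ', hR.inZ_map]
    exact hβE
  have hE' : ∀ g ∈ MvPolynomial.map ι '' E, ∃ e : ℕ, g.IsHomogeneous e := by
    rintro _ ⟨g, hg, rfl⟩
    obtain ⟨e, he⟩ := hE g hg
    exact ⟨e, he.map _⟩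
  -- flatness of the values of forms does not depend on the scaling
  have hflatscale : ∀ (γ : ℕ → ℝ) (t : ℕ → ℕ), ∀ g ∈ V,
      Flat γ (fun m => eval (β' + X' (t m)) (MvPolynomial.map ι g)) →
      Flat γ (fun m => eval (Y (t m)) (MvPolynomial.map ι g)) := by
    intro γ t g hg h
    obtain ⟨e, he⟩ := hV g hg
    refine Flat.of_norm_le (fun m => ?_) h
    rw [hYX, eval_smul_form (he.map _), norm_mul, norm_pow, hμ, one_pow, one_mul]
  by_cases hall : ∀ j < k, ∃ g ∈ V, Sparse {m | a g j m = 0}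
  · refine Sparse.of_classes 0 k hk fun j hj => ?_
    obtain ⟨g, hg, hs⟩ := hall j hj
    refine hs.mono fun m hm => ?_
    have h1 := (hzero _ g hg).1 (hm g hg)
    rw [show 0 + j + k * m = k * m + j by ring] at h1
    exact h1
  · push Not at hall
    obtain ⟨j, hj, hns⟩ := hall
    have hflat1 : ∀ g ∈ V, Flat (fun m => ‖w‖ ^ m) (a g j) := fun g hg =>
      (HasExp.dichotomy hp3 (norm_p_Cp p) hw0 hw1 (hexp g j)).resolve_left (hns g hg)
    have hitk : ev (itp (cq ι G) k) = (ev (cq ι G))^[k] := by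
      funext z
      exact ev_itp _ _ _
    have hYit : ∀ n i, Y (n + i) = (ev (cq ι G))^[i] (Y n) := by
      intro n i
      induction i with
      | zero => rfl
      | succ i ih => rw [Function.iterate_succ_apply', ← ih, ← hYrec]; rfl
    obtain ⟨B, hB⟩ := hfin k hk
    have hflat2 : ∀ i, Flat (fun m => ‖w‖ ^ m) (fun m => X' (k * m + j) i) := by
      refine nul (itp (cq ι G) k) (MvPolynomial.map ι '' V) (MvPolynomial.map ι '' E)
        hE' B ?_ (fun m => Y (k * m + j)) ?_ β' i₀ hβ1 hβE' (fun m => μ (k * m + j))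
        (fun m => hμ _) (fun m => X' (k * m + j)) (fun m => hX0 _) (fun m => hYX _) ?_
        (fun m => ‖w‖ ^ m) (fun m => pow_pos hw0' m) ⟨1, fun m => ?_⟩ ?_
      · intro z hz hz1 hz2
        refine hB z hz (fun n => ?_) hz2
        have := hz1 n
        rwa [hitk, ← Function.iterate_mul] at this
      · intro m
        rw [hitk, ← hYit]
        congr 1
        ring
      · refine hxlim.comp (tendsto_atTop_mono (fun m => ?_) tendsto_id)
        have := Nat.mul_le_mul_right m hk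
        simp only [id]
        omega
      · rw [one_mul]
        exact pow_le_pow_of_le_one hw0'.le hw1.le (Nat.le_succ m)
      · rintro _ ⟨g, hg, rfl⟩
        exact hflatscale _ (fun m => k * m + j) g hg (hflat1 g hg)
    have hx0 : ∀ n, x n ≠ 0 := by
      intro n h
      apply hyne n
      funext i
      apply hR.injective
      have h1 : X' n = 0 := by
        rw [← hext n, h]
        funext i
        simp [extz]
      have h2 := congrFun (hYX n) i
      rw [h1, add_zero] at h2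
      simp only [Pi.smul_apply, smul_eq_mul] at h2 ⊢
      rw [map_mul]
      exact h2
    have hxlim' : Tendsto x atTop (𝓝 0) := by
      rw [tendsto_pi_nhds] at hxlim ⊢
      intro i
      exact hxlim i
    obtain ⟨C₁, hC₁⟩ := step_le T Q hQ x hrec hx0 hxlim'
    have hflat3 : ∀ i, Flat (fun n => ‖w‖ ^ n) (fun n => x n i) :=
      flat_all hw0 hw1 x hC₁ k hk j fun i => hflat2 i
    have hDne : (D : ℂ_[p]) ≠ 0 := by exact_mod_cast hD.ne'
    have hJβ : jac (cq ι G) β' *ᵥ β' = ((D : ℂ_[p]) * ι c) • β' := by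
      funext i
      have := jac_mulVec_self hG' β' i
      rw [Matrix.mulVec, dotProduct, this, hfix']
      simp only [Pi.smul_apply, smul_eq_mul]
      ring
    rw [← hJ] at hrank
    rcases linalg (jac (cq ι G) β') β' i₀ hβ1 (ι c) D hc0 hDne hJβ hrank with
      ⟨Θ, hΘ⟩ | ⟨Θ, κ, ℓ, h1, h2, h3, h4⟩
    · exact (not_flat T Q hQ x hrec hx0 hw0 hw1 hflat3 Θ hΘ).elim
    · -- the super-attracted case
      set P : MvPolynomial σ R → MvPolynomial {j : σ // j ≠ i₀} ℂ_[p] := fun g =>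
        aeval (fun i => (C (β' i) : MvPolynomial {j : σ // j ≠ i₀} ℂ_[p]) +
          if h : i = i₀ then 0 else X ⟨i, h⟩) (MvPolynomial.map ι g) with hP
      have hPe : ∀ g n, eval (x n) (P g) = eval (β' + X' n) (MvPolynomial.map ι g) := by
        intro g n
        simp only [hP]
        rw [← MvPolynomial.coe_aeval_eq_eval, ← MvPolynomial.coe_aeval_eq_eval]
        change (aeval (x n)) _ = (aeval (β' + X' n)) _
        rw [← AlgHom.comp_apply, MvPolynomial.comp_aeval]
        congr 2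
        funext i
        simp only [map_add, MvPolynomial.aeval_C, Pi.add_apply, Algebra.algebraMap_self,
          RingHom.id_apply]
        congr 1
        by_cases h : i = i₀
        · rw [dif_pos h, map_zero, h, hX0]
        · rw [dif_neg h, MvPolynomial.aeval_X]
      by_cases hev : ∃ g ∈ V, ∃ n₀, ∀ n, n₀ ≤ n → eval (x n) (P g) ≠ 0
      · obtain ⟨g, hg, n₀, hn₀⟩ := hev
        refine Sparse.of_finite ((Set.finite_Iio n₀).subset fun n hn => ?_)
        by_contra hnn
        have h5 := (hzero n g hg).1 (hn g hg)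
        rw [← hPe] at h5
        exact hn₀ n (not_lt.1 hnn) h5
      · push Not at hev
        have hflat4 : ∀ g ∈ V, Flat (fun n => ‖x n‖) (fun n => eval (x n) (P g)) := by
          intro g hg
          refine (curve_dichotomy T Q hQ x hrec hx0 hw0 hw1 hflat3 Θ κ ℓ h1 h2 h3 h4
            (P g)).resolve_left ?_
          rintro ⟨n₀, hn₀⟩
          obtain ⟨n, hn, hn'⟩ := hev g hg n₀
          exact hn₀ n hn hn'
        obtain ⟨B1, hB1⟩ := hfin 1 le_rfl
        have hflat5 : ∀ i, Flat (fun n => ‖x n‖) (fun n => X' n i) := by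
          refine nul (cq ι G) (MvPolynomial.map ι '' V) (MvPolynomial.map ι '' E)
            hE' B1 ?_ Y hYrec β' i₀ hβ1 hβE' μ hμ X' hX0 hYX hxlim (fun n => ‖x n‖)
            (fun n => norm_pos_iff.2 (hx0 n)) ⟨C₁, hC₁⟩ ?_
          · intro z hz hz1 hz2
            exact hB1 z hz (fun n => by rw [one_mul]; exact hz1 n) hz2
          · rintro _ ⟨g, hg, rfl⟩
            refine hflatscale _ (fun n => n) g hg ?_
            have := hflat4 g hg
            simp only [hPe] at this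
            exact this
        -- contradiction
        exfalso
        choose Ci hCi using fun i : {j : σ // j ≠ i₀} => hflat5 i 2
        set A : ℝ := ∑ i, |Ci i| with hA
        have hA0 : 0 ≤ A := Finset.sum_nonneg fun _ _ => abs_nonneg _
        have hxn : ∀ n, ‖x n‖ ≤ A * ‖x n‖ ^ 2 := by
          intro n
          refine (pi_norm_le_iff_of_nonneg (mul_nonneg hA0 (by positivity))).2 fun i => ?_
          refine (hCi i n).trans (mul_le_mul_of_nonneg_right ?_ (by positivity))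
          exact (le_abs_self _).trans (Finset.single_le_sum (f := fun i => |Ci i|)
            (fun _ _ => abs_nonneg _) (Finset.mem_univ i))
        have hlim : Tendsto (fun n => A * ‖x n‖) atTop (𝓝 0) := by
          have := hxlim'.norm.const_mul A
          simpa using this
        obtain ⟨n, hn⟩ := (hlim.eventually (gt_mem_nhds zero_lt_one)).exists
        have hpos : 0 < ‖x n‖ := norm_pos_iff.2 (hx0 n)
        have := hxn n
        nlinarith

end Pool.Agent.Helper88.TL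

end

section

namespace Pool.Agent.Helper33.SS
end Pool.Agent.Helper33.SS

/-!
# Orbits with invertible derivatives
-/

set_option autoImplicit false

namespace Pool.Agent.Helper88.TL

open Pool.Agent.Helper33.SS MvPolynomial Filter Topology

theorem ev_iter_smul {R : Type*} [CommRing R] {σ : Type*} (F : σ → MvPolynomial σ R) {d : ℕ}
    (hF : ∀ i, (F i).IsHomogeneous d) (c : R) (x : σ → R) (n : ℕ) :
    (ev F)^[n] (c • x) = c ^ (d ^ n) • (ev F)^[n] x := by
  rw [← ev_itp, ← ev_itp]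
  funext i
  simp only [ev, Pi.smul_apply, smul_eq_mul]
  exact eval_smul_form (itp_homogeneous hF n i) c x

theorem jac_smul {R : Type*} [CommRing R] {σ : Type*} (F : σ → MvPolynomial σ R) {d : ℕ}
    (hF : ∀ i, (F i).IsHomogeneous d) (c : R) (x : σ → R) :
    jac F (c • x) = c ^ (d - 1) • jac F x := by
  ext i j
  simp only [jac, Matrix.of_apply, Matrix.smul_apply, smul_eq_mul]
  exact eval_smul_form (hF i).pderiv c x

/-- The derivatives along the orbit of `z` are invertible. -/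
def NJ {R : Type*} [CommRing R] {σ : Type*} [Fintype σ] [DecidableEq σ]
    (F : σ → MvPolynomial σ R) (z : σ → R) : Prop :=
  ∀ n, (jac F ((ev F)^[n] z)).det ≠ 0

theorem NJ.iter {R : Type*} [CommRing R] {σ : Type*} [Fintype σ] [DecidableEq σ]
    {F : σ → MvPolynomial σ R} {z : σ → R} (h : NJ F z) (m : ℕ) : NJ F ((ev F)^[m] z) := by
  intro n
  rw [← Function.iterate_add_apply]
  exact h _

theorem det_jprod {R : Type*} [CommRing R] {σ : Type*} [Fintype σ] [DecidableEq σ]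
    (F : σ → MvPolynomial σ R) (z : σ → R) (n : ℕ) :
    (jprod F z n).det = ∏ j ∈ Finset.range n, (jac F ((ev F)^[j] z)).det := by
  induction n with
  | zero => simp [jprod]
  | succ n ih =>
    rw [jprod, Matrix.det_mul, ih, Finset.prod_range_succ, mul_comm]

theorem NJ.rank {p : ℕ} [Fact p.Prime] {R : Type} [NormedCommRing R] {ι : R →+* ℂ_[p]}
    (hR : Loc p R ι) {σ : Type} [Fintype σ] [DecidableEq σ]
    {F : σ → MvPolynomial σ R} {z : σ → R} (h : NJ F z) (k : ℕ) :
    Fintype.card σ ≤ (((jprod F z k).map ι) ^ 2).rank + 1 := by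
  have h1 : ((jprod F z k).map ι).det ≠ 0 := by
    have h2 : ((jprod F z k).map ι).det = ι (jprod F z k).det := (RingHom.map_det ι _).symm
    rw [h2, det_jprod, map_prod, Finset.prod_ne_zero_iff]
    intro j _ h3
    exact h j ((map_eq_zero_iff _ hR.injective).1 h3)
  have h2 : IsUnit (((jprod F z k).map ι) ^ 2) := by
    rw [Matrix.isUnit_iff_isUnit_det, Matrix.det_pow]
    exact (isUnit_iff_ne_zero.2 h1).pow 2
  rw [Matrix.rank_of_isUnit _ h2]
  exact Nat.le_succ _

theorem Loc.isDomain {p : ℕ} [Fact p.Prime] {R : Type} [NormedCommRing R] {ι : R →+* ℂ_[p]}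
    (hR : Loc p R ι) : IsDomain R :=
  hR.injective.isDomain ι

end Pool.Agent.Helper88.TL

end

section

namespace Pool.Agent.Helper33.SS
end Pool.Agent.Helper33.SS

/-!
# Ranks, adjugates and products of Jacobian matrices along orbits
-/

set_option autoImplicit false

namespace Pool.Agent.Helper88.TL

open Pool.Agent.Helper33.SS MvPolynomial Filter Topology

section
variable {R : Type*} [CommRing R] {σ : Type*} [Fintype σ] [DecidableEq σ]

theorem jprod_smul {F : σ → MvPolynomial σ R} {d : ℕ} (hF : ∀ i, (F i).IsHomogeneous d) (c : R)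
    (z : σ → R) (n : ℕ) : ∃ e : ℕ, jprod F (c • z) n = c ^ e • jprod F z n := by
  induction n with
  | zero => exact ⟨0, by rw [pow_zero, one_smul]; rfl⟩
  | succ n ih =>
    obtain ⟨e, he⟩ := ih
    refine ⟨d ^ n * (d - 1) + e, ?_⟩
    rw [jprod, jprod, he, ev_iter_smul F hF, jac_smul F hF, Matrix.smul_mul, Matrix.mul_smul,
      smul_smul, ← pow_mul, ← pow_add]

theorem ev_iter_mul {F : σ → MvPolynomial σ R} {d : ℕ} (hF : ∀ i, (F i).IsHomogeneous d)
    {z : σ → R} {N : ℕ} {u : R} (h : (ev F)^[N] z = u • z) (r : ℕ) :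
    ∃ e : ℕ, (ev F)^[N * r] z = u ^ e • z := by
  induction r with
  | zero => exact ⟨0, by simp⟩
  | succ r ih =>
    obtain ⟨e, he⟩ := ih
    refine ⟨e * d ^ N + 1, ?_⟩
    rw [Nat.mul_succ, Nat.add_comm, Function.iterate_add_apply, he, ev_iter_smul F hF, h, smul_smul,
      ← pow_mul, pow_succ]

theorem jprod_map {S : Type*} [CommRing S] (f : R →+* S) (F : σ → MvPolynomial σ R) (z : σ → R)
    (n : ℕ) : jprod (fun i => MvPolynomial.map f (F i)) (fun i => f (z i)) n
      = (jprod F z n).map f := by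
  induction n with
  | zero =>
    rw [jprod, jprod]
    exact (Matrix.map_one f (map_zero f) (map_one f)).symm
  | succ n ih =>
    rw [jprod, jprod, ih, ev_iterate_map f F n z, Matrix.map_mul]
    congr 1
    exact jac_map f F _

end

theorem rank_sq_smul {k : Type*} [Field k] {n : Type*} [Fintype n] [DecidableEq n] {a : k}
    (ha : a ≠ 0) (A : Matrix n n k) : ((a • A) ^ 2).rank = (A ^ 2).rank := by
  rw [smul_pow]
  exact Matrix.rank_smul_of_mem_nonZeroDivisors _ (mem_nonZeroDivisors_of_ne_zero (pow_ne_zero _ ha))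

theorem rank_jprod_smul {p : ℕ} [Fact p.Prime] {R : Type} [NormedCommRing R] {ι : R →+* ℂ_[p]}
    (hR : Loc p R ι) {σ : Type} [Fintype σ] [DecidableEq σ]
    {F : σ → MvPolynomial σ R} {d : ℕ} (hF : ∀ i, (F i).IsHomogeneous d) {c : R} (hc : c ≠ 0)
    {z : σ → R} {k : ℕ} :
    (((jprod F (c • z) k).map ι) ^ 2).rank = (((jprod F z k).map ι) ^ 2).rank := by
  obtain ⟨e, he⟩ := jprod_smul hF c z k
  rw [he]
  have h1 : (c ^ e • jprod F z k).map ι = (ι c) ^ e • (jprod F z k).map ι := by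
    ext i j
    simp only [Matrix.map_apply, Matrix.smul_apply, smul_eq_mul, map_mul, map_pow]
  rw [h1]
  exact rank_sq_smul (pow_ne_zero _ ((map_ne_zero_iff _ hR.injective).2 hc)) _

end Pool.Agent.Helper88.TL

end

section

namespace Pool.Agent.Helper33.SS
end Pool.Agent.Helper33.SS

/-!
# From residue polydiscs to fixed points, over the unit ball of a finite extension
-/

set_option autoImplicit false

namespace Pool.Agent.Helper88.TL

open MvPolynomial Filter Topology Pool.Agent.Helper33.SS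

/-- the case of a fixed line inside `V` -/
theorem stage1R_fixed {p : ℕ} [Fact p.Prime] (hp3 : 3 ≤ p) {R : Type} [NormedCommRing R]
    {ι : R →+* ℂ_[p]} (hR : Loc p R ι) {σ : Type} [Fintype σ] [DecidableEq σ]
    (F : σ → MvPolynomial σ R) (d : ℕ) (hd : 0 < d) (hF : ∀ i, (F i).IsHomogeneous d)
    (V E : Set (MvPolynomial σ R)) (hV : ∀ g ∈ V, ∃ e : ℕ, g.IsHomogeneous e)
    (hE : ∀ g ∈ E, ∃ e : ℕ, g.IsHomogeneous e)
    (hfin : ∀ k, 1 ≤ k → ∃ B : Finset (σ → ℂ_[p]), ∀ z : σ → ℂ_[p], z ≠ 0 →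
      (∀ n, InZ (MvPolynomial.map ι '' V) ((ev (cq ι F))^[k * n] z)) →
      ¬ InZ (MvPolynomial.map ι '' E) z → ∃ b ∈ B, ∃ c : ℂ_[p], z = c • b)
    (K : ℕ) (hK : 1 ≤ K) (β₁ : σ → R) (t : R) (ht : ‖t‖ = 1)
    (hβt : (ev F)^[K] β₁ = t • β₁) (hβV : InZ V β₁) (hβE : ¬ InZ E β₁)
    (hprim : ∃ i, ‖β₁ i‖ = 1)
    (hrank : Fintype.card σ ≤ (((jprod F β₁ K).map ι) ^ 2).rank + 1)
    (y : ℕ → σ → R) (hy : ∀ n, y (n + 1) = (ev F)^[K] (y n))
    (hyβ : ∀ n i, ‖y n i - β₁ i‖ ≤ (p : ℝ)⁻¹)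
    (hyf : ∀ n, ∃ s : R, ∀ i, ‖y n i - s * β₁ i‖ ≤ ((p : ℝ)⁻¹) ^ n)
    (hnp : ∀ n, ∀ c : R, y (n + 1) ≠ c • y n) :
    Sparse {n | InZ V (y n)} := by
  classical
  have := hR.isDomain
  have hp0 := pinv_pos p
  obtain ⟨i₀, hi₀⟩ := hprim
  obtain ⟨u, hu⟩ : ∃ u : R, u * β₁ i₀ = 1 := by
    obtain ⟨v, hv⟩ := hR.unit _ hi₀
    exact ⟨↑v⁻¹, by rw [← hv, Units.inv_mul]⟩
  have hu1 : ‖u‖ = 1 := by
    have := congrArg norm hu
    rwa [hR.norm_mul, hi₀, mul_one, hR.norm_one] at this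
  have hu0 : u ≠ 0 := fun h => by rw [h, norm_zero] at hu1; exact zero_ne_one hu1
  set β : σ → R := u • β₁ with hβ
  have hβ₁ : β₁ = β₁ i₀ • β := by
    funext i
    simp only [hβ, Pi.smul_apply, smul_eq_mul]
    rw [← mul_assoc, mul_comm (β₁ i₀) u, hu, one_mul]
  have hβi : β i₀ = 1 := by simp only [hβ, Pi.smul_apply, smul_eq_mul, hu]
  set c : R := u ^ (d ^ K) * t * β₁ i₀ with hcdef
  have hc1 : ‖c‖ = 1 := by
    rw [hcdef, hR.norm_mul, hR.norm_mul, hR.norm_pow, hu1, ht, hi₀]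
    simp
  have hfixv : (ev F)^[K] β = c • β := by
    rw [hβ, ev_iter_smul F hF, hβt, hcdef]
    funext i
    simp only [Pi.smul_apply, smul_eq_mul]
    linear_combination -(u ^ (d ^ K) * t * β₁ i) * hu
  have hfix : ∀ i, eval β (itp F K i) = c * β i := by
    intro i
    have h1 := congrFun (ev_itp F K β) i
    rw [hfixv] at h1
    exact h1
  have hβ0 : β ≠ 0 := fun h => by
    have := congrFun h i₀
    rw [hβi] at this
    exact one_ne_zero this
  have hVβ : InZ V β := by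
    intro g hg
    obtain ⟨e, he⟩ := hV g hg
    rw [hβ, eval_smul_form he, hβV g hg, mul_zero]
  have hEβ : ¬ InZ E β := by
    intro h
    apply hβE
    intro g hg
    obtain ⟨e, he⟩ := hE g hg
    have := h g hg
    rw [hβ, eval_smul_form he] at this
    exact (mul_eq_zero.1 this).resolve_left (pow_ne_zero _ hu0)
  have hyu : ∀ n, ‖y n i₀‖ = 1 := fun n => hR.norm_eq_one_of_congr (hyβ n i₀) hi₀
  refine stage2R hp3 hR (itp F K) (d ^ K) (pow_pos hd K) (itp_homogeneous hF K) β i₀ hβi c hc1 hfix y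
    (fun n => by rw [hy, ev_itp]) hyu ⟨1, fun n i => ?_⟩ (fun n h => ?_) V E hV hE hEβ
    (fun k hk => ?_) ?_
  · obtain ⟨s, hs⟩ := hyf n
    rw [one_mul]
    have h1 : y n i - y n i₀ * β i = (y n i - s * β₁ i) - (y n i₀ - s * β₁ i₀) * β i := by
      have h2 : β₁ i = β₁ i₀ * β i := congrFun hβ₁ i
      rw [h2]
      ring
    rw [h1, sub_eq_add_neg]
    refine (hR.add_le (y n i - s * β₁ i) (-((y n i₀ - s * β₁ i₀) * β i))).trans ?_
    rw [norm_neg, hR.norm_mul]
    refine max_le (hs i) ?_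
    calc ‖y n i₀ - s * β₁ i₀‖ * ‖β i‖ ≤ ((p : ℝ)⁻¹) ^ n * 1 :=
          mul_le_mul (hs i₀) (hR.le_one _) (norm_nonneg _) (by positivity)
      _ = _ := mul_one _
  · -- the orbit is not on the line
    obtain ⟨v, hv⟩ := hR.unit _ (hyu n)
    obtain ⟨s, hs, hsv⟩ : ∃ s, y n = s • β ∧ ((v⁻¹ : Rˣ) : R) * s = 1 :=
      ⟨y n i₀, h, by rw [← hv, Units.inv_mul]⟩
    apply hnp n (s ^ (d ^ K) * c * ↑v⁻¹)
    rw [hy, hs, ev_iter_smul F hF, hfixv]
    funext i
    simp only [Pi.smul_apply, smul_eq_mul]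
    linear_combination -(s ^ (d ^ K) * c * β i) * hsv
  · obtain ⟨B, hB⟩ := hfin (K * k) (Nat.mul_pos hK hk)
    refine ⟨B, fun z hz h1 h2 => hB z hz (fun n => ?_) h2⟩
    have h3 := h1 n
    have h4 : ev (cq ι (itp F K)) = (ev (cq ι F))^[K] := by
      have : cq ι (itp F K) = itp (cq ι F) K := by
        funext i
        exact map_itp ι F K i
      rw [this]
      funext z
      exact ev_itp _ _ _
    rwa [h4, ← Function.iterate_mul, ← mul_assoc] at h3
  · rw [jac_itp, rank_jprod_smul hR hF hu0]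
    exact hrank

theorem stage1R {p : ℕ} [Fact p.Prime] (hp3 : 3 ≤ p) {R : Type} [NormedCommRing R]
    {ι : R →+* ℂ_[p]} (hR : Loc p R ι) {σ : Type} [Fintype σ] [DecidableEq σ]
    (F : σ → MvPolynomial σ R) (d : ℕ) (hd : 0 < d) (hF : ∀ i, (F i).IsHomogeneous d)
    (V E : Set (MvPolynomial σ R)) (hV : ∀ g ∈ V, ∃ e : ℕ, g.IsHomogeneous e)
    (hE : ∀ g ∈ E, ∃ e : ℕ, g.IsHomogeneous e)
    (hfin : ∀ k, 1 ≤ k → ∃ B : Finset (σ → ℂ_[p]), ∀ z : σ → ℂ_[p], z ≠ 0 →
      (∀ n, InZ (MvPolynomial.map ι '' V) ((ev (cq ι F))^[k * n] z)) →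
      ¬ InZ (MvPolynomial.map ι '' E) z → ∃ b ∈ B, ∃ c : ℂ_[p], z = c • b)
    (α : σ → R)
    (hrank : ∀ (z : σ → R) (t : ℕ → ℕ), Tendsto t atTop atTop →
      Tendsto (fun j => (ev F)^[t j] α) atTop (𝓝 z) → InZ V z → ∀ k, 1 ≤ k →
      ∀ c : R, ‖c‖ = 1 → (ev F)^[k] z = c • z →
      Fintype.card σ ≤ (((jprod F z k).map ι) ^ 2).rank + 1)
    (hαE : ∀ n, ∃ g ∈ E, ‖eval ((ev F)^[n] α) g‖ = 1)
    (hαp : ∀ n, ∃ i, ‖(ev F)^[n] α i‖ = 1)
    (hnp : ∀ n k, 1 ≤ k → ∀ c : R, (ev F)^[n + k] α ≠ c • (ev F)^[n] α) :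
    Sparse {n | InZ V ((ev F)^[n] α)} := by
  classical
  have := hR.isDomain
  have hpp : p.Prime := Fact.out
  have hp0 : (0 : ℝ) < (p : ℝ)⁻¹ := inv_pos.2 (by exact_mod_cast hpp.pos)
  have hp1 : (p : ℝ)⁻¹ < 1 := inv_lt_one_of_one_lt₀ (by exact_mod_cast hpp.one_lt)
  set y : ℕ → σ → R := fun n => (ev F)^[n] α with hydef
  have hyadd : ∀ n m, y (n + m) = (ev F)^[m] (y n) := by
    intro n m
    simp only [hydef]
    rw [add_comm, Function.iterate_add_apply]
  obtain ⟨e, he, hdisc⟩ := disc' hR σ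
  obtain ⟨n₀, k, hk, hper⟩ := hR.exists_mod_period y
  set L := k * e with hL
  have hL1 : 1 ≤ L := Nat.mul_pos hk he
  have hperm : ∀ m r, ∀ i, ‖y (n₀ + m + k * r) i - y (n₀ + m) i‖ ≤ (p : ℝ)⁻¹ := by
    intro m r
    induction r with
    | zero => intro i; rw [mul_zero, add_zero, sub_self, norm_zero]; exact hp0.le
    | succ r ih =>
      intro i
      have h1 : ∀ i, ‖y (n₀ + k + (m + k * r)) i - y (n₀ + (m + k * r)) i‖ ≤ (p : ℝ)⁻¹ := by
        have h0 := hR.ev_iterate_congr F hp0.le hper (m + k * r)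
        rwa [← hyadd, ← hyadd] at h0
      have h2 := h1 i
      rw [show n₀ + k + (m + k * r) = n₀ + m + k * (r + 1) by ring,
        show n₀ + (m + k * r) = n₀ + m + k * r by ring] at h2
      exact hR.congr_trans h2 (ih i)
  refine Sparse.of_classes n₀ L hL1 fun i hi => ?_
  set b : σ → R := y (n₀ + i) with hb
  have hevk : ev (itp F k) = (ev F)^[k] := by
    funext z
    exact ev_itp _ _ _
  have hiter : ∀ n, (ev (itp F k))^[e * n] b = y (n₀ + i + L * n) := by
    intro n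
    rw [hevk, ← Function.iterate_mul, ← mul_assoc, ← hL, hb, ← hyadd]
  obtain ⟨f, hf1, hf2, hf3⟩ := hdisc (itp F k) b b
    (by
      intro j
      rw [hevk, hb, ← hyadd]
      have := hperm i 1 j
      rwa [mul_one] at this)
    (by intro j; rw [sub_self, norm_zero]; exact hp0.le)
  simp only [hiter] at hf2 hf3
  have hcls : ∀ n j, ‖y (n₀ + i + L * n) j - b j‖ ≤ (p : ℝ)⁻¹ := by
    intro n j
    have := hperm i (e * n) j
    rwa [← mul_assoc] at this
  -- the limits lie in the same residue class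
  have hfb : ∀ m j, ‖f m j - b j‖ ≤ (p : ℝ)⁻¹ := by
    intro m j
    have h1 := hf3 m j
    rw [Metric.tendsto_atTop] at h1
    obtain ⟨N, hN⟩ := h1 _ hp0
    have h2 := hN N le_rfl
    rw [dist_eq_norm, norm_sub_rev] at h2
    exact hR.congr_trans h2.le (hcls _ j)
  have hfbE : ∀ m, ¬ InZ E (f m) := by
    intro m h
    obtain ⟨g, hg, hg1⟩ := hαE (n₀ + i)
    have h1 := hR.norm_eq_one_of_congr (hR.norm_eval_sub_le g hp0.le (hfb m)) hg1
    rw [h g hg, norm_zero] at h1
    exact zero_ne_one h1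
  have hfprim : ∀ m, ∃ j, ‖f m j‖ = 1 := by
    intro m
    obtain ⟨j, hj⟩ := hαp (n₀ + i)
    exact ⟨j, hR.norm_eq_one_of_congr (hfb m j) hj⟩
  have hfrank : ∀ m, InZ V (f m) → ∀ k, 1 ≤ k → ∀ c : R, ‖c‖ = 1 → (ev F)^[k] (f m) = c • f m →
      Fintype.card σ ≤ (((jprod F (f m) k).map ι) ^ 2).rank + 1 := by
    intro m
    refine hrank (f m) (fun r => n₀ + i + L * (m + p ^ r)) ?_ (tendsto_pi_nhds.2 (hf3 m))
    refine tendsto_atTop_mono (fun r => ?_) tendsto_id
    have h1 : r < p ^ r := Nat.lt_pow_self hpp.one_lt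
    have h2 := Nat.mul_le_mul_right (m + p ^ r) hL1
    simp only [id]
    omega
  -- the limits form an orbit
  have hfstep1 : ∀ m, f (m + 1) = (ev F)^[L] (f m) := by
    intro m
    funext j
    have h1 := hf3 (m + 1) j
    have h2 : Tendsto (fun r => y (n₀ + i + L * (m + 1 + p ^ r)) j) atTop
        (𝓝 ((ev F)^[L] (f m) j)) := by
      have h3 : ∀ r, y (n₀ + i + L * (m + 1 + p ^ r)) j
          = eval (y (n₀ + i + L * (m + p ^ r))) (itp F L j) := by
        intro r
        rw [show n₀ + i + L * (m + 1 + p ^ r) = n₀ + i + L * (m + p ^ r) + L by ring, hyadd]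
        exact (congrFun (ev_itp F L _) j).symm
      simp only [h3]
      have h4 : (ev F)^[L] (f m) j = eval (f m) (itp F L j) :=
        (congrFun (ev_itp F L _) j).symm
      rw [h4]
      have h5 : Continuous fun z : σ → R => eval z (itp F L j) :=
        MvPolynomial.continuous_eval _
      exact (h5.tendsto (f m)).comp (tendsto_pi_nhds.2 (hf3 m))
    exact tendsto_nhds_unique h1 h2
  have hfstep : ∀ m r, f (m + r) = (ev F)^[L * r] (f m) := by
    intro m r
    induction r with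
    | zero => rfl
    | succ r ih =>
      rw [← add_assoc, hfstep1, ih, ← Function.iterate_add_apply,
        show L + L * r = L * (r + 1) by ring]
  by_cases hall : ∀ m, InZ V (f m)
  swap
  · -- an analytic function which does not vanish identically
    push Not at hall
    obtain ⟨m, hm⟩ := hall
    have hm' : ∃ g ∈ V, eval (f m) g ≠ 0 := by
      by_contra hcon
      push Not at hcon
      exact hm hcon
    obtain ⟨g, hg, hgm⟩ := hm'
    set f' : ℕ → σ → ℂ_[p] := fun n j => ι (f n j) with hf'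
    have hdiff : ∀ (h : ℕ → R) (r n : ℕ),
        (fwdDiff 1)^[r] (fun n => ι (h n)) n = ι ((fwdDiff 1)^[r] h n) := by
      intro h r
      induction r generalizing h with
      | zero => intro n; rfl
      | succ r ih =>
        intro n
        rw [Function.iterate_succ_apply, Function.iterate_succ_apply]
        have : fwdDiff 1 (fun n => ι (h n)) = fun n => ι (fwdDiff 1 h n) := by
          funext n
          simp only [fwdDiff, map_sub]
        rw [this, ih]
    have hA : ∀ j, Adic (p : ℝ)⁻¹ (fun n => f' n j) := by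
      intro j
      refine ⟨1, fun r n => ?_⟩
      have := hdiff (fun n => f n j) r n
      simp only [hf']
      rw [this, hR.norm_map, one_mul]
      exact hf1 j r n
    have hA2 := Adic.eval hp0.le hA (MvPolynomial.map ι g)
    have hs := sparse_of_adic hp3 (norm_p_Cp p) hA2
      ⟨m, by
        simp only [hf']
        rw [hR.eval_map]
        intro h
        exact hgm ((map_eq_zero_iff _ (hR.injective)).1 h)⟩ (C := 1) hp0 hp1
    refine hs.mono fun n hn => ?_
    have h1 : eval (y (n₀ + i + L * n)) g = 0 := hn g hg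
    have h2 := hR.norm_eval_sub_le g (pow_nonneg hp0.le n) (hf2 n)
    rw [h1, zero_sub, norm_neg] at h2
    show ‖eval (f' n) (MvPolynomial.map ι g)‖ ≤ 1 * ((p : ℝ)⁻¹) ^ n
    simp only [hf']
    rw [hR.eval_map, hR.norm_map, one_mul]
    exact h2
  · -- everything lies in `V`: use finiteness
    obtain ⟨B, hB⟩ := hfin L hL1
    have hline : ∀ m, ∃ b' ∈ B, ∃ c : ℂ_[p], (fun j => ι (f m j)) = c • b' := by
      intro m
      apply hB
      · intro h
        obtain ⟨j, hj⟩ := hfprim m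
        have := congrFun h j
        simp only [Pi.zero_apply] at this
        rw [(map_eq_zero_iff _ (hR.injective)).1 this, norm_zero] at hj
        exact zero_ne_one hj
      · intro n
        have h1 : (ev (cq ι F))^[L * n] (fun j => ι (f m j)) = fun j => ι (f (m + n) j) := by
          rw [hfstep]
          exact ev_iterate_map ι F (L * n) (f m)
        rw [h1, hR.inZ_map]
        exact hall _
      · rw [hR.inZ_map]
        exact hfbE m
    choose bb hbB cc hcc using hline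
    obtain ⟨m₁, m₂, hm12, hbb⟩ := Finite.exists_ne_map_eq_of_infinite
      (fun m => (⟨bb m, hbB m⟩ : {x // x ∈ B}))
    have key : ∃ n₂ k₂ : ℕ, 1 ≤ k₂ ∧ ∃ t : R, ‖t‖ = 1 ∧ f (n₂ + k₂) = t • f n₂ := by
      have aux : ∀ m₁ m₂ : ℕ, m₁ < m₂ → bb m₁ = bb m₂ →
          ∃ n₂ k₂ : ℕ, 1 ≤ k₂ ∧ ∃ t : R, ‖t‖ = 1 ∧ f (n₂ + k₂) = t • f n₂ := by
        intro m₁ m₂ h12 hb12
        refine ⟨m₁, m₂ - m₁, by omega, ?_⟩
        rw [show m₁ + (m₂ - m₁) = m₂ by omega]
        obtain ⟨j, hj⟩ := hfprim m₁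
        obtain ⟨v, hv⟩ := hR.unit _ hj
        -- cross products vanish
        have hcross : ∀ l, f m₂ l * f m₁ j = f m₂ j * f m₁ l := by
          intro l
          apply hR.injective
          rw [map_mul, map_mul]
          have e1 := congrFun (hcc m₁) l
          have e2 := congrFun (hcc m₁) j
          have e3 := congrFun (hcc m₂) l
          have e4 := congrFun (hcc m₂) j
          rw [← hb12] at e3 e4
          simp only [Pi.smul_apply, smul_eq_mul] at e1 e2 e3 e4
          rw [e1, e2, e3, e4]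
          ring
        have hft : f m₂ = (f m₂ j * ↑v⁻¹) • f m₁ := by
          funext l
          simp only [Pi.smul_apply, smul_eq_mul]
          have hvv : ((v⁻¹ : Rˣ) : R) * f m₁ j = 1 := by rw [← hv, Units.inv_mul]
          have := hcross l
          calc f m₂ l = f m₂ l * (((v⁻¹ : Rˣ) : R) * f m₁ j) := by rw [hvv, mul_one]
            _ = (f m₂ l * f m₁ j) * ((v⁻¹ : Rˣ) : R) := by ring
            _ = _ := by rw [this]; ring
        refine ⟨_, ?_, hft⟩
        obtain ⟨l, hl⟩ := hfprim m₂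
        have h1 := congrFun hft l
        simp only [Pi.smul_apply, smul_eq_mul] at h1
        have h2 := congrArg norm h1
        rw [hl, hR.norm_mul] at h2
        have h3 := hR.le_one (f m₂ j * ((v⁻¹ : Rˣ) : R))
        have h4 := hR.le_one (f m₁ l)
        have h5 := norm_nonneg (f m₂ j * ((v⁻¹ : Rˣ) : R))
        have h6 := norm_nonneg (f m₁ l)
        apply le_antisymm h3
        nlinarith
      have hbb' : bb m₁ = bb m₂ := congrArg Subtype.val hbb
      rcases lt_or_gt_of_ne hm12 with h | h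
      · exact aux m₁ m₂ h hbb'
      · exact aux m₂ m₁ h hbb'.symm
    obtain ⟨n₂, k₂, hk₂, t, ht, hft⟩ := key
    refine Sparse.of_classes n₂ k₂ hk₂ fun j hj => ?_
    -- powers of the return map
    have hpow : ∀ r, ∃ s : R, f (n₂ + j + k₂ * r) = s • f (n₂ + j) := by
      intro r
      induction r with
      | zero => exact ⟨1, by simp⟩
      | succ r ih =>
        obtain ⟨s, hs⟩ := ih
        have h1 : f (n₂ + j + k₂ * (r + 1)) = (ev F)^[L * k₂] (f (n₂ + j + k₂ * r)) := by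
          rw [← hfstep]
          congr 1
          ring
        have h2 : (ev F)^[L * k₂] (f (n₂ + j)) = t ^ (d ^ (L * j)) • f (n₂ + j) := by
          rw [← hfstep, show n₂ + j + k₂ = n₂ + k₂ + j by ring, hfstep, hft,
            ev_iter_smul F hF, hfstep]
        refine ⟨s ^ (d ^ (L * k₂)) * t ^ (d ^ (L * j)), ?_⟩
        rw [h1, hs, ev_iter_smul F hF, h2, smul_smul]
    have hret : (ev F)^[L * k₂] (f (n₂ + j)) = t ^ (d ^ (L * j)) • f (n₂ + j) := by
      rw [← hfstep, show n₂ + j + k₂ = n₂ + k₂ + j by ring, hfstep, hft,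
        ev_iter_smul F hF, hfstep]
    have ht' : ‖t ^ (d ^ (L * j))‖ = 1 := by rw [hR.norm_pow, ht, one_pow]
    have hres := stage1R_fixed hp3 hR F d hd hF V E hV hE hfin (L * k₂)
      (Nat.mul_pos hL1 hk₂) (f (n₂ + j)) (t ^ (d ^ (L * j))) ht' hret
      (hall _) (hfbE _) (hfprim _) (hfrank _ (hall _) _ (Nat.mul_pos hL1 hk₂) _ ht' hret) (fun r => y (n₀ + i + L * (n₂ + j + k₂ * r)))
      (fun r => by
        rw [← hyadd]
        congr 1
        ring)
      (fun r l => hR.congr_trans (hcls _ l) (congr_symm' (hfb _ l)))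
      (fun r => by
        obtain ⟨s, hs⟩ := hpow r
        refine ⟨s, fun l => ?_⟩
        have h1 : s * f (n₂ + j) l = f (n₂ + j + k₂ * r) l := by rw [hs]; rfl
        rw [h1]
        refine (hf2 _ l).trans (pow_le_pow_of_le_one hp0.le hp1.le ?_)
        nlinarith)
      (fun r c h => by
        have h1 := hnp (n₀ + i + L * (n₂ + j + k₂ * r)) (L * k₂) (Nat.mul_pos hL1 hk₂) c
        apply h1
        rw [show n₀ + i + L * (n₂ + j + k₂ * r) + L * k₂
          = n₀ + i + L * (n₂ + j + k₂ * (r + 1)) by ring]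
        exact h)
    exact hres

end Pool.Agent.Helper88.TL

end

section

namespace Pool.Agent.Helper33.SS
end Pool.Agent.Helper33.SS

/-!
# From the local theorem to orbits over a number field
-/

set_option autoImplicit false

namespace Pool.Agent.Helper88.TL

open Pool.Agent.Helper33.SS MvPolynomial Filter Topology

section
variable {K : Type} [Field K] [Algebra K ℂ] {v : AbsoluteValue K ℝ} {p : ℕ} [Fact p.Prime]
  {R : Type} [NormedCommRing R] {ι : R →+* ℂ_[p]} {j : K →+* ℂ_[p]} {n : ℕ} {s : ℂ ≃+* ℂ_[p]}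
  {σ : Type}

theorem PlaceData.le_one_iff (h : PlaceData K v p R ι j n s) {z : K} : v z ≤ 1 ↔ ‖j z‖ ≤ 1 := by
  rw [h.hvj]
  exact pow_le_one_iff_of_nonneg (norm_nonneg _) h.hn

theorem PlaceData.eq_one_iff (h : PlaceData K v p R ι j n s) {z : K} : v z = 1 ↔ ‖j z‖ = 1 := by
  rw [h.hvj]
  exact pow_eq_one_iff_of_nonneg (norm_nonneg _) h.hn

theorem PlaceData.eq_one_iff' (h : PlaceData K v p R ι j n s) {z : K} {r : R} (hr : ι r = j z) :
    v z = 1 ↔ ‖r‖ = 1 := by
  rw [h.eq_one_iff, ← hr, h.hR.norm_map]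

theorem PlaceData.exists_lift (h : PlaceData K v p R ι j n s) (P : MvPolynomial σ K)
    (hP : ∀ m, v (P.coeff m) ≤ 1) :
    ∃ Q : MvPolynomial σ R, MvPolynomial.map ι Q = MvPolynomial.map j P := by
  classical
  choose z hz using fun m => h.hint _ (hP m)
  refine ⟨∑ m ∈ P.support, monomial m (z m), ?_⟩
  conv_rhs => rw [P.as_sum, map_sum]
  rw [map_sum]
  refine Finset.sum_congr rfl fun m _ => ?_
  rw [map_monomial, map_monomial, hz]

/-- A point, a map and the orbit over the unit ball. -/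
theorem PlaceData.orbit {F : σ → MvPolynomial σ K} {F' : σ → MvPolynomial σ R}
    (hF' : ∀ i, MvPolynomial.map ι (F' i) = MvPolynomial.map j (F i)) {a : σ → K} {a' : σ → R}
    (ha' : ∀ i, ι (a' i) = j (a i)) (m : ℕ) (i : σ) :
    ι ((ev F')^[m] a' i) = j ((ev F)^[m] a i) := by
  have h1 := ev_iterate_map ι F' m a'
  have h2 := ev_iterate_map j F m a
  have h3 : (fun i => MvPolynomial.map ι (F' i)) = fun i => MvPolynomial.map j (F i) := by
    funext i
    exact hF' i
  have h4 : (fun i => ι (a' i)) = fun i => j (a i) := by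
    funext i
    exact ha' i
  rw [h3, h4, h2] at h1
  exact (congrFun h1 i).symm

/-- Good reduction keeps the orbit primitive. -/
theorem PlaceData.orbit_prim (h : PlaceData K v p R ι j n s) {F : σ → MvPolynomial σ K}
    {F' : σ → MvPolynomial σ R}
    (hF' : ∀ i, MvPolynomial.map ι (F' i) = MvPolynomial.map j (F i))
    (hgood : ∀ y : σ → K, (∀ i, v (y i) ≤ 1) → (∃ i, v (y i) = 1) → ∃ i, v (eval y (F i)) = 1)
    {a : σ → K} {a' : σ → R} (ha' : ∀ i, ι (a' i) = j (a i)) (ha : ∃ i, v (a i) = 1) (m : ℕ) :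
    (∀ i, v ((ev F)^[m] a i) ≤ 1) ∧ ∃ i, v ((ev F)^[m] a i) = 1 := by
  have h1 : ∀ m i, v ((ev F)^[m] a i) ≤ 1 := by
    intro m i
    rw [h.le_one_iff, ← PlaceData.orbit hF' ha', h.hR.norm_map]
    exact h.hR.le_one _
  refine ⟨h1 m, ?_⟩
  induction m with
  | zero => exact ha
  | succ m ih =>
    rw [Function.iterate_succ_apply']
    exact hgood _ (h1 m) ih

end

end Pool.Agent.Helper88.TL

end

section

namespace Pool.Agent.Helper33.SS
end Pool.Agent.Helper33.SS

/-!
# Periodic orbits up to a small error, and the rank condition at limit points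
-/

set_option autoImplicit false

namespace Pool.Agent.Helper88.TL

open Pool.Agent.Helper33.SS MvPolynomial Filter Topology

/-- Vectors which are proportional, up to an error. -/
def Sim {R : Type} [NormedCommRing R] {σ : Type} (e : ℝ) (x y : σ → R) : Prop :=
  ∃ u : R, ‖u‖ = 1 ∧ ∀ j, ‖x j - u * y j‖ ≤ e

section
variable {p : ℕ} [Fact p.Prime] {R : Type} [NormedCommRing R] {ι : R →+* ℂ_[p]} {σ : Type}

theorem Sim.refl (hR : Loc p R ι) {e : ℝ} (he : 0 ≤ e) (x : σ → R) : Sim e x x :=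
  ⟨1, hR.norm_one, fun j => by rw [one_mul, sub_self, norm_zero]; exact he⟩

theorem Sim.trans (hR : Loc p R ι) {e : ℝ} {x y z : σ → R} (h1 : Sim e x y) (h2 : Sim e y z) :
    Sim e x z := by
  obtain ⟨u, hu, h1⟩ := h1
  obtain ⟨v, hv, h2⟩ := h2
  refine ⟨u * v, by rw [hR.norm_mul, hu, hv, one_mul], fun j => ?_⟩
  have h3 : x j - u * v * z j = (x j - u * y j) + u * (y j - v * z j) := by ring
  rw [h3]
  refine hR.add_le_of (h1 j) ?_
  rw [hR.norm_mul, hu, one_mul]
  exact h2 j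

theorem Sim.ev_iter (hR : Loc p R ι) {e : ℝ} (he : 0 ≤ e) {F : σ → MvPolynomial σ R} {d : ℕ}
    (hF : ∀ i, (F i).IsHomogeneous d) {x y : σ → R} (h : Sim e x y) (n : ℕ) :
    Sim e ((ev F)^[n] x) ((ev F)^[n] y) := by
  obtain ⟨u, hu, h⟩ := h
  refine ⟨u ^ (d ^ n), by rw [hR.norm_pow, hu, one_pow], fun j => ?_⟩
  have h1 := hR.ev_iterate_congr F he (x := x) (y := u • y) h n j
  rwa [ev_iter_smul F hF, Pi.smul_apply, smul_eq_mul] at h1

variable [Fintype σ] [DecidableEq σ]

end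

section
variable {k : Type*} [Field k] {σ : Type} [Fintype σ] [DecidableEq σ]

end

section
variable {p : ℕ} [Fact p.Prime] {R : Type} [NormedCommRing R] {ι : R →+* ℂ_[p]}

end

end Pool.Agent.Helper88.TL

end

section

namespace Pool.Agent.Helper29.TG
end Pool.Agent.Helper29.TG
namespace Pool.Agent.Helper33.SS
end Pool.Agent.Helper33.SS

/-!
# Sparse return sets from a place with a large contact

`x` is the orbit of a point over a number field, `v` a place of good reduction at which two points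
of the orbit have a positive contact. Either the Jacobians between them are large compared to the
contact, or the adjugate of their product is not nilpotent modulo the place.
-/

set_option autoImplicit false

namespace Pool.Agent.Helper88.TL

open Pool.Agent.Helper33.SS MvPolynomial Filter Topology Height AdmissibleAbsValues
open Pool.Agent.Helper29.TG (nm cr ct df nm_pos nm_smul le_nm nm_le exists_nm_eq)

section
variable {K : Type} [Field K] {σ : Type}

theorem cr_smul' (c c' : K) (x y : σ → K) : cr (c • x) (c' • y) = (c * c') • cr x y := by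
  funext q
  simp only [cr, Pi.smul_apply, smul_eq_mul]
  ring

theorem cr_smul_ne {c c' : K} (hc : c ≠ 0) (hc' : c' ≠ 0) {x y : σ → K} (h : cr x y ≠ 0) :
    cr (c • x) (c' • y) ≠ 0 := by
  rw [cr_smul']
  exact smul_ne_zero (mul_ne_zero hc hc') h

theorem ct_smul' [Finite σ] (v : AbsoluteValue K ℝ) {c c' : K} (hc : c ≠ 0) (hc' : c' ≠ 0)
    {x y : σ → K} (h : cr x y ≠ 0) : ct v (c • x) (c' • y) = ct v x y := by
  have hx := Pool.Agent.Helper29.TG.left_ne_zero h
  have hy := Pool.Agent.Helper29.TG.right_ne_zero h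
  rw [ct, ct, cr_smul', nm_smul, nm_smul, nm_smul, map_mul,
    Real.log_mul (v.pos hc).ne' (nm_pos v hx).ne', Real.log_mul (v.pos hc').ne' (nm_pos v hy).ne',
    Real.log_mul (mul_pos (v.pos hc) (v.pos hc')).ne' (nm_pos v h).ne',
    Real.log_mul (v.pos hc).ne' (v.pos hc').ne']
  ring

theorem nm_eq_one [Finite σ] {v : AbsoluteValue K ℝ} {x : σ → K} (h1 : ∀ i, v (x i) ≤ 1)
    (h2 : ∃ i, v (x i) = 1) : nm v x = 1 := by
  obtain ⟨i, hi⟩ := h2
  exact le_antisymm (nm_le zero_le_one h1) (by rw [← hi]; exact le_nm v x i)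

/-- A primitive orbit. -/
theorem exists_prim_orbit [Finite σ] (v : AbsoluteValue K ℝ) {F : σ → MvPolynomial σ K} {d : ℕ}
    (hF : ∀ i, (F i).IsHomogeneous d) {x : ℕ → σ → K} (hx : ∀ n, x n ≠ 0)
    (hstep : ∀ n, ∃ c : K, c ≠ 0 ∧ x (n + 1) = c • fun i => eval (x n) (F i)) :
    ∃ (a : σ → K) (b : ℕ → K), (∀ n, b n ≠ 0) ∧ (∀ n, (ev F)^[n] a = b n • x n) ∧
      (∀ i, v (a i) ≤ 1) ∧ ∃ i, v (a i) = 1 := by
  obtain ⟨i₀, hi₀, hnm⟩ := exists_nm_eq v (hx 0)
  set a : σ → K := (x 0 i₀)⁻¹ • x 0 with ha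
  have key : ∀ n, ∃ b : K, b ≠ 0 ∧ (ev F)^[n] a = b • x n := by
    intro n
    induction n with
    | zero => exact ⟨(x 0 i₀)⁻¹, inv_ne_zero hi₀, rfl⟩
    | succ n ih =>
      obtain ⟨b, hb, h⟩ := ih
      obtain ⟨c, hc, hxc⟩ := hstep n
      refine ⟨b ^ d * c⁻¹, mul_ne_zero (pow_ne_zero _ hb) (inv_ne_zero hc), ?_⟩
      rw [Function.iterate_succ_apply', h, hxc, smul_smul, mul_assoc, inv_mul_cancel₀ hc, mul_one]
      funext i
      simp only [ev, Pi.smul_apply, smul_eq_mul]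
      exact eval_smul_form (hF i) b (x n)
  choose b hb h using key
  refine ⟨a, b, hb, h, fun i => ?_, i₀, ?_⟩
  · rw [ha, Pi.smul_apply, smul_eq_mul, map_mul, map_inv₀, inv_mul_le_iff₀ (v.pos hi₀), mul_one,
      ← hnm]
    exact le_nm v (x 0) i
  · rw [ha, Pi.smul_apply, smul_eq_mul, inv_mul_cancel₀ hi₀, map_one]

theorem exists_root {ε : ℝ} (h0 : 0 < ε) (h1 : ε < 1) {n : ℕ} (hn : n ≠ 0) :
    ∃ e : ℝ, 0 < e ∧ e < 1 ∧ e ^ n = ε := by
  refine ⟨ε ^ ((n : ℝ)⁻¹), Real.rpow_pos_of_pos h0 _, ?_, Real.rpow_inv_natCast_pow h0.le hn⟩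
  exact Real.rpow_lt_one h0.le h1 (inv_pos.2 (by exact_mod_cast Nat.pos_of_ne_zero hn))

variable [Algebra K ℂ] {v : AbsoluteValue K ℝ} {p : ℕ} [Fact p.Prime]
  {R : Type} [NormedCommRing R] {ι : R →+* ℂ_[p]} {j : K →+* ℂ_[p]} {n : ℕ} {s : ℂ ≃+* ℂ_[p]}

/-- Contact gives proportionality up to an error. -/
theorem PlaceData.sim (h : PlaceData K v p R ι j n s) {x y : σ → K} {x' y' : σ → R}
    (hx' : ∀ i, ι (x' i) = j (x i)) (hy' : ∀ i, ι (y' i) = j (y i)) (hxp : ∃ i, v (x i) = 1)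
    (hyp : ∃ i, v (y i) = 1) {e : ℝ} (he0 : 0 ≤ e) (he1 : e < 1)
    (hcr : ∀ q, v (cr x y q) ≤ e ^ n) : Sim e y' x' := by
  have hR := h.hR
  obtain ⟨i₀, hi₀⟩ := hxp
  obtain ⟨l₀, hl₀⟩ := hyp
  have h1 : ‖x' i₀‖ = 1 := (h.eq_one_iff' (hx' i₀)).1 hi₀
  have h2 : ‖y' l₀‖ = 1 := (h.eq_one_iff' (hy' l₀)).1 hl₀
  obtain ⟨w, hw⟩ := hR.unit _ h1
  have hw1 : ((w⁻¹ : Rˣ) : R) * x' i₀ = 1 := by rw [← hw, Units.inv_mul]
  have hwn : ‖((w⁻¹ : Rˣ) : R)‖ = 1 := by
    have := congrArg norm hw1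
    rwa [hR.norm_mul, h1, mul_one, hR.norm_one] at this
  have hsmall : ∀ l, ‖y' l - (y' i₀ * ((w⁻¹ : Rˣ) : R)) * x' l‖ ≤ e := by
    intro l
    have h3 : y' l - (y' i₀ * ((w⁻¹ : Rˣ) : R)) * x' l
        = ((w⁻¹ : Rˣ) : R) * (x' i₀ * y' l - x' l * y' i₀) := by
      linear_combination (-(y' l)) * hw1
    rw [h3, hR.norm_mul, hwn, one_mul, ← hR.norm_map, map_sub, map_mul, map_mul, hx', hy', hx', hy',
      ← map_mul, ← map_mul, ← map_sub]
    have h4 := hcr (i₀, l)
    rw [h.hvj] at h4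
    exact (pow_le_pow_iff_left₀ (norm_nonneg _) he0 h.hn).1 h4
  refine ⟨y' i₀ * ((w⁻¹ : Rˣ) : R), ?_, hsmall⟩
  have h5 := hsmall l₀
  set u := y' i₀ * ((w⁻¹ : Rˣ) : R) with hu
  have h6 : ‖u * x' l₀‖ = 1 := by
    have h7 : u * x' l₀ = y' l₀ + -(y' l₀ - u * x' l₀) := by ring
    have h8 : ‖-(y' l₀ - u * x' l₀)‖ < 1 := by
      rw [norm_neg]
      exact h5.trans_lt he1
    rw [h7, hR.add_eq_max (by rw [h2]; exact h8.ne'), h2]
    exact max_eq_left h8.le
  rw [hR.norm_mul] at h6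
  have h9 := hR.le_one u
  have h10 := hR.le_one (x' l₀)
  have h11 := norm_nonneg u
  have h12 := norm_nonneg (x' l₀)
  apply le_antisymm h9
  nlinarith

end

section
variable {K : Type} [Field K] [NumberField K] [Algebra K ℂ] {σ : Type} [Fintype σ] [DecidableEq σ]

end

end Pool.Agent.Helper88.TL

end

section

namespace Pool.Agent.Helper33.SS
end Pool.Agent.Helper33.SS
namespace Pool.Agent.Helper36
end Pool.Agent.Helper36

/-!
# Project TG: tower gaps over number fields (helper29)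
-/

set_option autoImplicit false

namespace Pool.Agent.Helper29.TG

open Height AdmissibleAbsValues MvPolynomial
open Pool.Agent.Helper33.SS (Sparse InZ ev SGood dim_split)
open Pool.Agent.Helper36 (iter iter_succ step growth APSet_of_evClosed krullDim_le_two)

theorem pEq_of_cr {K : Type} [Field K] {ι : Type} {x y : ι → K} (hx : x ≠ 0) (hy : y ≠ 0)
    (h : cr x y = 0) : Pool.Agent.Helper36.PEq x y := by
  obtain ⟨i, hi⟩ := Function.ne_iff.1 hx
  have hi : x i ≠ 0 := hi
  have h1 : ∀ j, y j = (y i / x i) * x j := by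
    intro j
    have h2 := congrFun h (i, j)
    simp only [cr, Pi.zero_apply] at h2
    field_simp
    linear_combination h2
  refine ⟨y i / x i, ?_, funext h1⟩
  intro h0
  apply hy
  funext j
  rw [h1, h0, zero_mul]
  rfl

/-- almost all places are good for `F` -/
theorem exists_good_reduction {K : Type} [Field K] [NumberField K] [Algebra K ℂ] {ν d : ℕ}
    (F : Fin (ν + 1) → MvPolynomial (Fin (ν + 1)) K) (hF : ∀ i, (F i).IsHomogeneous d)
    (hnz : ∀ x : Fin (ν + 1) → ℂ, (∀ i, aeval x (F i) = 0) → x = 0) :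
    ∃ B : Set (AbsoluteValue K ℝ), B.Finite ∧ ∀ v ∈ nonarchAbsVal (K := K), v ∉ B →
      v 2 = 1 ∧ (∀ i m, v ((F i).coeff m) ≤ 1) ∧
      ∀ y : Fin (ν + 1) → K, (∀ i, v (y i) ≤ 1) → (∃ i, v (y i) = 1) →
        ∃ i, v (eval y (F i)) = 1 := by
  classical
  obtain ⟨M, q, -, hq⟩ := Pool.Agent.Helper36.exists_nullstellensatz (L := ℂ) F hF hnz
  obtain ⟨B₂, hB₂, hB₂'⟩ := (FS_log (K := K) (x := 2) two_ne_zero).exists_finite
  refine ⟨B₂ ∪ (⋃ i, {v | v ∈ nonarchAbsVal (K := K) ∧ ¬ CoeffInt v (F i)}) ∪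
    (⋃ a, {v | v ∈ nonarchAbsVal (K := K) ∧ ¬ CoeffInt v (q a)}),
    (hB₂.union (Set.finite_iUnion fun i => finite_not_coeffInt (F i))).union
      (Set.finite_iUnion fun a => finite_not_coeffInt (q a)), fun v hv hvB => ?_⟩
  simp only [Set.mem_union, Set.mem_iUnion, Set.mem_ofPred_eq, not_or, not_exists, not_and,
    not_not] at hvB
  obtain ⟨⟨h1, h2⟩, h3⟩ := hvB
  have hna := isNonarchimedean v hv
  have hint : ∀ i, CoeffInt v (F i) := fun i => h2 i hv
  have hqint : ∀ a, CoeffInt v (q a) := fun a => h3 a hv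
  have hle : ∀ (Q : MvPolynomial (Fin (ν + 1)) K), CoeffInt v Q → ∀ y : Fin (ν + 1) → K,
      (∀ i, v (y i) ≤ 1) → v (eval y Q) ≤ 1 := by
    intro Q hQ y hy
    rw [eval_eq]
    have h5 : ∀ (s : Finset (Fin (ν + 1) →₀ ℕ)) (f : (Fin (ν + 1) →₀ ℕ) → K),
        (∀ m ∈ s, v (f m) ≤ 1) → v (∑ m ∈ s, f m) ≤ 1 := by
      intro s f
      induction s using Finset.induction_on with
      | empty => intro _; simp
      | insert m s hm ih =>
        intro h
        rw [Finset.sum_insert hm]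
        exact (hna _ _).trans (max_le (h m (Finset.mem_insert_self _ _))
          (ih fun m' hm' => h m' (Finset.mem_insert_of_mem hm')))
    apply h5
    intro m _
    rw [map_mul, map_prod]
    refine mul_le_one₀ (hQ m) (Finset.prod_nonneg fun _ _ => v.nonneg _) ?_
    exact Finset.prod_le_one (fun _ _ => v.nonneg _) fun i _ => by
      rw [map_pow]
      exact pow_le_one₀ (v.nonneg _) (hy i)
  refine ⟨?_, fun i m => hint i m, fun y hy hy1 => ?_⟩
  · have h6 := hB₂' v hv h1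
    have h7 : 0 < v 2 := v.pos two_ne_zero
    have h8 := Real.log_eq_zero.1 h6
    rcases h8 with h8 | h8 | h8
    · exact absurd h8 h7.ne'
    · exact h8
    · linarith
  · obtain ⟨k, hk⟩ := hy1
    by_contra hcon
    push Not at hcon
    have hlt : ∀ i, v (eval y (F i)) < 1 := fun i =>
      lt_of_le_of_ne (hle _ (hint i) y hy) (hcon i)
    have h5 : ∀ (s : Finset (Fin (ν + 1))) (f : Fin (ν + 1) → K),
        (∀ m ∈ s, v (f m) < 1) → v (∑ m ∈ s, f m) < 1 := by
      intro s f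
      induction s using Finset.induction_on with
      | empty => intro _; simp
      | insert m s hm ih =>
        intro h
        rw [Finset.sum_insert hm]
        exact (hna _ _).trans_lt (max_lt (h m (Finset.mem_insert_self _ _))
          (ih fun m' hm' => h m' (Finset.mem_insert_of_mem hm')))
    have h6 := congrArg (eval y) (hq k)
    rw [map_sum, map_pow, eval_X] at h6
    have h7 : v (∑ j, eval y (q (k, j) * F j)) < 1 := by
      apply h5
      intro j _
      rw [map_mul, map_mul]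
      calc v (eval y (q (k, j))) * v (eval y (F j)) ≤ 1 * v (eval y (F j)) :=
            mul_le_mul_of_nonneg_right (hle _ (hqint _) y hy) (v.nonneg _)
        _ < 1 := by rw [one_mul]; exact hlt j
    rw [h6, map_pow, hk, one_pow] at h7
    exact lt_irrefl _ h7

theorem step_ne_zero' {K : Type} [Field K] [Algebra K ℂ] {ν : ℕ}
    (F : Fin (ν + 1) → MvPolynomial (Fin (ν + 1)) K)
    (hnz : ∀ x : Fin (ν + 1) → ℂ, (∀ i, aeval x (F i) = 0) → x = 0)
    {x : Fin (ν + 1) → K} (hx : x ≠ 0) : step F x ≠ 0 := by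
  have hinj : Function.Injective (algebraMap K ℂ) := FaithfulSMul.algebraMap_injective K ℂ
  intro h
  apply hx
  have h1 : (fun i => algebraMap K ℂ (x i)) = 0 := by
    apply hnz
    intro i
    have h2 : aeval (fun i => algebraMap K ℂ (x i)) (F i) =
        algebraMap K ℂ (aeval x (F i)) := aeval_algebraMap_apply (A := K) (B := ℂ) x (F i)
    rw [h2]
    have h3 : aeval x (F i) = 0 := congrFun h i
    rw [h3, map_zero]
  funext i
  apply hinj
  have := congrFun h1 i
  simpa using this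

/-- A number field model of algebraic data. -/
theorem exists_model {σ τ υ : Type} [Finite τ] [Finite σ] [Finite υ]
    (f : τ → MvPolynomial σ ℂ) (hf : ∀ i m, IsAlgebraic ℚ ((f i).coeff m))
    (a : υ → ℂ) (ha : ∀ i, IsAlgebraic ℚ (a i)) :
    ∃ (K : Type) (_ : Field K) (_ : NumberField K) (_ : Algebra K ℂ)
      (F : τ → MvPolynomial σ K) (α : υ → K),
      (∀ i, MvPolynomial.map (algebraMap K ℂ) (F i) = f i) ∧ ∀ i, algebraMap K ℂ (α i) = a i := by
  classical
  set T : Set ℂ := (⋃ i, ((f i).coeff '' ((f i).support : Set (σ →₀ ℕ)))) ∪ Set.range a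
    with hT
  have hTfin : T.Finite := by
    apply Set.Finite.union
    · exact Set.finite_iUnion fun i => (Finset.finite_toSet _).image _
    · exact Set.finite_range a
  have hTint : ∀ x ∈ T, IsIntegral ℚ x := by
    rintro x (hx | ⟨i, rfl⟩)
    · rw [Set.mem_iUnion] at hx
      obtain ⟨i, m, _, rfl⟩ := hx
      exact (hf i m).isIntegral
    · exact (ha i).isIntegral
  let K : IntermediateField ℚ ℂ := IntermediateField.adjoin ℚ T
  have : Finite T := hTfin
  have hfd : FiniteDimensional ℚ K := IntermediateField.finiteDimensional_adjoin hTint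
  have hnf : NumberField K := ⟨⟩
  have hcoef : ∀ i m, (f i).coeff m ∈ K := by
    intro i m
    by_cases hm : m ∈ (f i).support
    · apply IntermediateField.subset_adjoin
      left
      rw [Set.mem_iUnion]
      exact ⟨i, m, hm, rfl⟩
    · rw [MvPolynomial.notMem_support_iff.1 hm]
      exact zero_mem K
  have hlift : ∀ i, ∃ F : MvPolynomial σ K, MvPolynomial.map (algebraMap K ℂ) F = f i := by
    intro i
    refine ⟨∑ m ∈ (f i).support, MvPolynomial.monomial m (⟨(f i).coeff m, hcoef i m⟩ : K), ?_⟩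
    rw [map_sum]
    conv_rhs => rw [(f i).as_sum]
    refine Finset.sum_congr rfl fun m _ => ?_
    rw [MvPolynomial.map_monomial]
    rfl
  choose F hF using hlift
  exact ⟨K, inferInstance, hnf, inferInstance, F,
    fun i => ⟨a i, IntermediateField.subset_adjoin _ _ (Or.inr ⟨i, rfl⟩)⟩, hF, fun i => rfl⟩

end Pool.Agent.Helper29.TG

end

section

namespace Pool.Agent.Helper33.SS
end Pool.Agent.Helper33.SS
namespace Pool.Agent.Helper88.TL
end Pool.Agent.Helper88.TL

/-!
# From the local theorem to orbits over a number field, with the points of the variety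
-/

set_option autoImplicit false

namespace Pool.Agent.Helper88.TGP

open Pool.Agent.Helper33.SS Pool.Agent.Helper88.TL MvPolynomial Filter Topology

section
variable {K : Type} [Field K] [Algebra K ℂ] {v : AbsoluteValue K ℝ} {p : ℕ} [Fact p.Prime]
  {R : Type} [NormedCommRing R] {ι : R →+* ℂ_[p]} {j : K →+* ℂ_[p]} {n : ℕ} {s : ℂ ≃+* ℂ_[p]}
  {σ : Type}

theorem hom_comp (h : PlaceData K v p R ι j n s) :
    (s : ℂ →+* ℂ_[p]).comp (algebraMap K ℂ) = j := by
  ext x
  exact h.hs x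

theorem map_eq (h : PlaceData K v p R ι j n s) (g : MvPolynomial σ K) :
    MvPolynomial.map j g
      = MvPolynomial.map (s : ℂ →+* ℂ_[p]) (MvPolynomial.map (algebraMap K ℂ) g) := by
  rw [MvPolynomial.map_map, hom_comp h]

theorem eval_map_s (x : σ → ℂ) (g : MvPolynomial σ ℂ) :
    eval (fun i => s (x i)) (MvPolynomial.map (s : ℂ →+* ℂ_[p]) g) = s (eval x g) := by
  rw [MvPolynomial.eval_map]
  exact (MvPolynomial.eval₂_comp (s : ℂ →+* ℂ_[p]) _ _).symm

/-- The transfer of the local theorem. -/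
theorem main2 (h : PlaceData K v p R ι j n s) (hp3 : 3 ≤ p) [Fintype σ] [DecidableEq σ]
    (F : σ → MvPolynomial σ K) (d : ℕ) (hd : 0 < d) (hF : ∀ i, (F i).IsHomogeneous d)
    (hgood : ∀ y : σ → K, (∀ i, v (y i) ≤ 1) → (∃ i, v (y i) = 1) → ∃ i, v (eval y (F i)) = 1)
    (F' : σ → MvPolynomial σ R)
    (hF' : ∀ i, MvPolynomial.map ι (F' i) = MvPolynomial.map j (F i))
    (a : σ → K) (ha : ∃ i, v (a i) = 1) (a' : σ → R) (ha' : ∀ i, ι (a' i) = j (a i))
    (hnp : ∀ m k, 1 ≤ k → ∀ c : K, (ev F)^[m + k] a ≠ c • (ev F)^[m] a)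
    (V : Set (MvPolynomial σ ℂ)) (hV : ∀ g ∈ V, ∃ e : ℕ, g.IsHomogeneous e)
    (hfin : ∀ k, 1 ≤ k → ∃ B : Finset (σ → ℂ), ∀ z : σ → ℂ, z ≠ 0 →
      (∀ m, InZ V ((ev fun i => MvPolynomial.map (algebraMap K ℂ) (F i))^[k * m] z)) →
        ∃ b ∈ B, ∃ c : ℂ, z = c • b)
    (hrank : ∀ (z : σ → R) (t : ℕ → ℕ), Tendsto t atTop atTop →
      Tendsto (fun l => (ev F')^[t l] a') atTop (𝓝 z) →
      InZ V (fun i => s.symm (ι (z i))) → ∀ k, 1 ≤ k →
      ∀ c : R, ‖c‖ = 1 → (ev F')^[k] z = c • z →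
      Fintype.card σ ≤ (((jprod F' z k).map ι) ^ 2).rank + 1) :
    Sparse {m | InZ V (fun i => algebraMap K ℂ ((ev F)^[m] a i))} := by
  classical
  have hR := h.hR
  have hdom := hR.isDomain
  obtain ⟨W, hW1, hW2, hW3, hW4⟩ := exists_components (K := K) v V hV
  set V' : Set (MvPolynomial σ R) :=
    {Q | ∃ g ∈ W, MvPolynomial.map ι Q = MvPolynomial.map j g} with hV'
  have horb := fun m => PlaceData.orbit hF' ha' m
  have hprim := fun m => h.orbit_prim hF' hgood ha' ha m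
  have hF'h : ∀ i, (F' i).IsHomogeneous d := by
    intro i
    apply homogeneous_of_map ι hR.injective
    rw [hF' i]
    exact (hF i).map _
  have hV'h : ∀ Q ∈ V', ∃ e : ℕ, Q.IsHomogeneous e := by
    rintro Q ⟨g, hg, hQ⟩
    obtain ⟨e, he⟩ := hW1 g hg
    refine ⟨e, homogeneous_of_map ι hR.injective ?_⟩
    rw [hQ]
    exact he.map _
  have hmain := stage1R hp3 hR F' d hd hF'h V' {1} hV'h
    (by
      rintro g rfl
      exact ⟨0, isHomogeneous_one σ R⟩) ?_ a'
    (fun z t ht hz hzV k hk c hc hfix => hrank z t ht hz (hW4 _ fun g hg => by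
      obtain ⟨Q, hQ⟩ := h.exists_lift g (hW2 g hg)
      have h2 : ι (eval z Q) = 0 := by
        rw [hzV Q ⟨g, hg, hQ⟩, map_zero]
      rw [← hR.eval_map, hQ, map_eq h] at h2
      have h3 : (fun i => ι (z i)) = fun i => s (s.symm (ι (z i))) := by
        funext i
        rw [RingEquiv.apply_symm_apply]
      rw [h3, eval_map_s] at h2
      exact (map_eq_zero_iff s s.injective).1 h2) k hk c hc hfix)
    (fun m => ⟨1, rfl, by rw [map_one, hR.norm_one]⟩)
    (fun m => by
      obtain ⟨i, hi⟩ := (hprim m).2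
      exact ⟨i, (h.eq_one_iff' (horb m i)).1 hi⟩) ?_
  · refine hmain.mono fun m hm => ?_
    show InZ V' _
    rintro Q ⟨g, hg, hQ⟩
    apply hR.injective
    rw [map_zero, ← hR.eval_map, hQ]
    have h1 : (fun i => ι ((ev F')^[m] a' i)) = fun i => j ((ev F)^[m] a i) := by
      funext i
      exact horb m i
    rw [h1]
    have h2 : eval (fun i => j ((ev F)^[m] a i)) (MvPolynomial.map j g)
        = j (eval ((ev F)^[m] a) g) := by
      rw [MvPolynomial.eval_map]
      exact (MvPolynomial.eval₂_comp j _ g).symm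
    rw [h2, hW3 _ hm g hg, map_zero]
  · -- finiteness
    intro k hk
    obtain ⟨B, hB⟩ := hfin k hk
    refine ⟨B.image fun b i => s (b i), fun z hz h1 _ => ?_⟩
    set z' : σ → ℂ := fun i => s.symm (z i) with hz'
    have hzz : z = fun i => s (z' i) := by
      funext i
      rw [hz', RingEquiv.apply_symm_apply]
    have hz'0 : z' ≠ 0 := by
      intro h0
      apply hz
      rw [hzz]
      funext i
      rw [h0]
      simp
    have hsj : (s : ℂ →+* ℂ_[p]).comp (algebraMap K ℂ) = j := by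
      ext x
      exact h.hs x
    have hmap : ∀ g : MvPolynomial σ K, MvPolynomial.map j g
        = MvPolynomial.map (s : ℂ →+* ℂ_[p]) (MvPolynomial.map (algebraMap K ℂ) g) := by
      intro g
      rw [MvPolynomial.map_map, hsj]
    have hcq : cq ι F' = fun i => MvPolynomial.map (s : ℂ →+* ℂ_[p])
        (MvPolynomial.map (algebraMap K ℂ) (F i)) := by
      funext i
      rw [cq, hF' i, hmap]
    obtain ⟨b, hb, c, hc⟩ := hB z' hz'0 (fun m => hW4 _ fun g hg => by
      obtain ⟨Q, hQ⟩ := h.exists_lift g (hW2 g hg)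
      have h2 := h1 m (MvPolynomial.map ι Q) ⟨Q, ⟨g, hg, hQ⟩, rfl⟩
      rw [hcq, hzz] at h2
      have h3 := ev_iterate_map (s : ℂ →+* ℂ_[p])
        (fun i => MvPolynomial.map (algebraMap K ℂ) (F i)) (k * m) z'
      have h4 : (ev fun i => MvPolynomial.map (s : ℂ →+* ℂ_[p])
          (MvPolynomial.map (algebraMap K ℂ) (F i)))^[k * m] (fun i => s (z' i))
          = fun i => s ((ev fun i => MvPolynomial.map (algebraMap K ℂ) (F i))^[k * m] z' i) := h3
      rw [h4, hQ, hmap] at h2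
      have h5 : eval (fun i => s ((ev fun i => MvPolynomial.map (algebraMap K ℂ) (F i))^[k * m] z' i))
          (MvPolynomial.map (s : ℂ →+* ℂ_[p]) (MvPolynomial.map (algebraMap K ℂ) g))
          = s (eval ((ev fun i => MvPolynomial.map (algebraMap K ℂ) (F i))^[k * m] z')
            (MvPolynomial.map (algebraMap K ℂ) g)) := by
        rw [MvPolynomial.eval_map]
        exact (MvPolynomial.eval₂_comp (s : ℂ →+* ℂ_[p]) _ _).symm
      rw [h5] at h2
      exact (map_eq_zero_iff s s.injective).1 h2)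
    refine ⟨fun i => s (b i), Finset.mem_image_of_mem _ hb, s c, ?_⟩
    rw [hzz, hc]
    funext i
    simp only [Pi.smul_apply, smul_eq_mul, map_mul]
  · -- not preperiodic
    intro m k hk c hcon
    obtain ⟨i₀, hi₀⟩ := (hprim m).2
    have hne : (ev F)^[m] a i₀ ≠ 0 := by
      intro h0
      rw [h0, map_zero] at hi₀
      exact zero_ne_one hi₀
    apply hnp m k hk ((ev F)^[m + k] a i₀ / (ev F)^[m] a i₀)
    funext i
    rw [Pi.smul_apply, smul_eq_mul, div_mul_eq_mul_div, eq_div_iff hne]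
    apply j.injective
    rw [map_mul, map_mul, ← horb, ← horb, ← horb, ← horb, hcon]
    simp only [Pi.smul_apply, smul_eq_mul, map_mul]
    ring

end

end Pool.Agent.Helper88.TGP

end

section

namespace Pool.Agent.Helper29.TG
end Pool.Agent.Helper29.TG
namespace Pool.Agent.Helper33.SS
end Pool.Agent.Helper33.SS
namespace Pool.Agent.Helper88.TL
end Pool.Agent.Helper88.TL

/-!
# Sparse return sets from a place with a large contact: the criterion with periodic points
-/

set_option autoImplicit false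

namespace Pool.Agent.Helper88.TGP

open Pool.Agent.Helper33.SS Pool.Agent.Helper88.TL MvPolynomial Filter Topology Height
  AdmissibleAbsValues
open Pool.Agent.Helper29.TG (nm cr ct df nm_pos nm_smul le_nm nm_le exists_nm_eq)

section
variable {p : ℕ} [Fact p.Prime] {R : Type} [NormedCommRing R] {ι : R →+* ℂ_[p]} {σ : Type}

theorem sim_iter_mul (hR : Loc p R ι) {e : ℝ} (he : 0 ≤ e) {F : σ → MvPolynomial σ R} {d : ℕ}
    (hF : ∀ i, (F i).IsHomogeneous d) {a : σ → R} {i N : ℕ}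
    (h : Sim e ((ev F)^[i + N] a) ((ev F)^[i] a)) (q : ℕ) :
    Sim e ((ev F)^[i + N * q] a) ((ev F)^[i] a) := by
  induction q with
  | zero => exact Sim.refl hR he _
  | succ q ih =>
    have h1 := h.ev_iter hR he hF (N * q)
    rw [← Function.iterate_add_apply, ← Function.iterate_add_apply] at h1
    have e1 : N * q + (i + N) = i + N * (q + 1) := by ring
    have e2 : N * q + i = i + N * q := by ring
    rw [e1, e2] at h1
    exact Sim.trans hR h1 ih

/-- A limit point of the orbit is near the orbit. -/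
theorem exists_near (hR : Loc p R ι) {e : ℝ} (he : 0 < e) {F : σ → MvPolynomial σ R}
    [Fintype σ] {a : σ → R} (i : ℕ) (z : σ → R) (t : ℕ → ℕ) (ht : Tendsto t atTop atTop)
    (hz : Tendsto (fun l => (ev F)^[t l] a) atTop (𝓝 z)) :
    ∃ m, i ≤ m ∧ Sim e z ((ev F)^[m] a) := by
  obtain ⟨n₁, hn₁⟩ := (Metric.tendsto_atTop.1 hz) e he
  obtain ⟨n₂, hn₂⟩ := (tendsto_atTop_atTop.1 ht) i
  refine ⟨t (max n₁ n₂), hn₂ _ (le_max_right _ _), 1, hR.norm_one, fun l => ?_⟩
  have h2 := hn₁ (max n₁ n₂) (le_max_left _ _)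
  rw [one_mul, ← dist_eq_norm, dist_comm]
  exact ((dist_le_pi_dist _ _ l).trans_lt h2).le

/-- An iterate of a limit point is near `x_i`. -/
theorem exists_iterate_sim (hR : Loc p R ι) {e : ℝ} (he : 0 < e) {F : σ → MvPolynomial σ R}
    {d : ℕ} (hF : ∀ i, (F i).IsHomogeneous d) [Fintype σ] {a : σ → R} {i N : ℕ} (hN : 1 ≤ N)
    (h : Sim e ((ev F)^[i + N] a) ((ev F)^[i] a)) (z : σ → R) (t : ℕ → ℕ)
    (ht : Tendsto t atTop atTop) (hz : Tendsto (fun l => (ev F)^[t l] a) atTop (𝓝 z)) :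
    ∃ l, Sim e ((ev F)^[l] z) ((ev F)^[i] a) := by
  obtain ⟨m, hm, hsim⟩ := exists_near hR he i z t ht hz
  refine ⟨(N - 1) * (m - i), ?_⟩
  have h1 := hsim.ev_iter hR he.le hF ((N - 1) * (m - i))
  rw [← Function.iterate_add_apply] at h1
  have e1 : (N - 1) * (m - i) + m = i + N * (m - i) := by
    obtain ⟨k, rfl⟩ := Nat.exists_eq_add_of_le hm
    obtain ⟨N', rfl⟩ := Nat.exists_eq_add_of_le hN
    rw [Nat.add_sub_cancel_left, Nat.add_sub_cancel_left]
    ring
  rw [e1] at h1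
  exact Sim.trans hR h1 (sim_iter_mul hR he.le hF h (m - i))

theorem sim_prim (hR : Loc p R ι) {e : ℝ} (he1 : e < 1) {x y : σ → R} (h : Sim e x y)
    (hy : ∃ i, ‖y i‖ = 1) : ∃ i, ‖x i‖ = 1 := by
  obtain ⟨u, hu, hj⟩ := h
  obtain ⟨i, hi⟩ := hy
  refine ⟨i, ?_⟩
  have h1 : x i = (x i - u * y i) + u * y i := by ring
  have h2 : ‖u * y i‖ = 1 := by rw [hR.norm_mul, hu, hi, one_mul]
  have h3 := (hj i).trans_lt he1
  rw [h1, hR.add_eq_max (by rw [h2]; exact h3.ne), h2]
  exact max_eq_right h3.le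

end

section
variable {K : Type} [Field K] [Algebra K ℂ] {v : AbsoluteValue K ℝ} {p : ℕ} [Fact p.Prime]
  {R : Type} [NormedCommRing R] {ι : R →+* ℂ_[p]} {j : K →+* ℂ_[p]} {n : ℕ} {s : ℂ ≃+* ℂ_[p]}
  {σ : Type}

theorem contact_of_sim (h : PlaceData K v p R ι j n s) {x y : σ → K} {x' w : σ → R}
    (hx' : ∀ i, ι (x' i) = j (x i)) (hxp : ∃ i, v (x i) = 1) {e : ℝ} (he0 : 0 ≤ e) (he1 : e < 1)
    (hw : Sim e w x') {c : ℂ_[p]} (hc : ∀ i, ι (w i) = c * j (y i)) [Finite σ] (q : σ × σ) :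
    v (cr x y q) ≤ e ^ n * nm v y := by
  have hR := h.hR
  obtain ⟨i₀, hi₀⟩ := hxp
  have hx1 : ‖x' i₀‖ = 1 := (h.eq_one_iff' (hx' i₀)).1 hi₀
  obtain ⟨i₁, hi₁⟩ := sim_prim hR he1 hw ⟨i₀, hx1⟩
  obtain ⟨u, hu, huj⟩ := hw
  have h1 : ‖c‖ * ‖j (y i₁)‖ = 1 := by
    rw [← norm_mul, ← hc, hR.norm_map, hi₁]
  have hcr : c * j (cr x y q) = ι (x' q.1 * (w q.2 - u * x' q.2) - x' q.2 * (w q.1 - u * x' q.1)) := by
    rw [map_sub, map_mul, map_mul, map_sub, map_sub, map_mul, map_mul, hx', hx', hc, hc, cr,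
      map_sub, map_mul, map_mul]
    ring
  have h2 : ‖c‖ * ‖j (cr x y q)‖ ≤ e := by
    rw [← norm_mul, hcr, hR.norm_map, sub_eq_add_neg]
    refine hR.add_le_of ?_ ?_
    · rw [hR.norm_mul]
      calc ‖x' q.1‖ * ‖w q.2 - u * x' q.2‖ ≤ 1 * e :=
            mul_le_mul (hR.le_one _) (huj _) (norm_nonneg _) zero_le_one
        _ = e := one_mul e
    · rw [norm_neg, hR.norm_mul]
      calc ‖x' q.2‖ * ‖w q.1 - u * x' q.1‖ ≤ 1 * e :=
            mul_le_mul (hR.le_one _) (huj _) (norm_nonneg _) zero_le_one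
        _ = e := one_mul e
  have h3 : ‖j (cr x y q)‖ ≤ e * ‖j (y i₁)‖ := by
    have h4 : ‖j (cr x y q)‖ = (‖c‖ * ‖j (cr x y q)‖) * ‖j (y i₁)‖ := by
      calc ‖j (cr x y q)‖ = ‖j (cr x y q)‖ * (‖c‖ * ‖j (y i₁)‖) := by rw [h1, mul_one]
        _ = _ := by ring
    rw [h4]
    exact mul_le_mul_of_nonneg_right h2 (norm_nonneg _)
  calc v (cr x y q) = ‖j (cr x y q)‖ ^ n := h.hvj _
    _ ≤ (e * ‖j (y i₁)‖) ^ n := pow_le_pow_left₀ (norm_nonneg _) h3 n
    _ = e ^ n * v (y i₁) := by rw [mul_pow, ← h.hvj]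
    _ ≤ e ^ n * nm v y := mul_le_mul_of_nonneg_left (le_nm v y i₁) (pow_nonneg he0 n)

/-- The orbit of a point over the unit ball and over the complex numbers. -/
theorem orbit_s (h : PlaceData K v p R ι j n s) {F : σ → MvPolynomial σ K}
    {F' : σ → MvPolynomial σ R} (hF' : ∀ i, MvPolynomial.map ι (F' i) = MvPolynomial.map j (F i))
    (z : σ → R) (l : ℕ) (i : σ) :
    s ((ev fun i => MvPolynomial.map (algebraMap K ℂ) (F i))^[l] (fun i => s.symm (ι (z i))) i)
      = ι ((ev F')^[l] z i) := by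
  have h1 := ev_iterate_map (s : ℂ →+* ℂ_[p]) (fun i => MvPolynomial.map (algebraMap K ℂ) (F i)) l
    (fun i => s.symm (ι (z i)))
  have h2 := ev_iterate_map ι F' l z
  have h3 : (fun i => MvPolynomial.map (s : ℂ →+* ℂ_[p]) (MvPolynomial.map (algebraMap K ℂ) (F i)))
      = fun i => MvPolynomial.map ι (F' i) := by
    funext i
    rw [hF' i, map_eq h]
  have h4 : (fun i => (s : ℂ →+* ℂ_[p]) (s.symm (ι (z i)))) = fun i => ι (z i) := by
    funext i
    exact RingEquiv.apply_symm_apply s _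
  rw [h3, h4, h2] at h1
  exact (congrFun h1 i).symm

theorem rank_s (h : PlaceData K v p R ι j n s) {F : σ → MvPolynomial σ K}
    {F' : σ → MvPolynomial σ R} (hF' : ∀ i, MvPolynomial.map ι (F' i) = MvPolynomial.map j (F i))
    [Fintype σ] [DecidableEq σ] (z : σ → R) (k : ℕ) :
    ((jprod (fun i => MvPolynomial.map (algebraMap K ℂ) (F i)) (fun i => s.symm (ι (z i))) k)
      ^ 2).rank = (((jprod F' z k).map ι) ^ 2).rank := by
  have h1 := Pool.Agent.Helper88.TL.jprod_map (s : ℂ →+* ℂ_[p]) (fun i => MvPolynomial.map (algebraMap K ℂ) (F i))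
    (fun i => s.symm (ι (z i))) k
  have h2 := Pool.Agent.Helper88.TL.jprod_map ι F' z k
  have h3 : (fun i => MvPolynomial.map (s : ℂ →+* ℂ_[p]) (MvPolynomial.map (algebraMap K ℂ) (F i)))
      = fun i => MvPolynomial.map ι (F' i) := by
    funext i
    rw [hF' i, map_eq h]
  have h4 : (fun i => (s : ℂ →+* ℂ_[p]) (s.symm (ι (z i)))) = fun i => ι (z i) := by
    funext i
    exact RingEquiv.apply_symm_apply s _
  rw [h3, h4, h2] at h1
  rw [h1]
  have h5 : ((jprod (fun i => MvPolynomial.map (algebraMap K ℂ) (F i))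
      (fun i => s.symm (ι (z i))) k).map (s : ℂ →+* ℂ_[p])) ^ 2
      = ((jprod (fun i => MvPolynomial.map (algebraMap K ℂ) (F i))
        (fun i => s.symm (ι (z i))) k) ^ 2).map s :=
    (map_pow (s : ℂ →+* ℂ_[p]).mapMatrix _ _).symm
  rw [h5, rank_map_ringEquiv s]

end

section
variable {K : Type} [Field K] [NumberField K] [Algebra K ℂ] {σ : Type} [Fintype σ] [DecidableEq σ]

/-- **The criterion with periodic points.** At the place `v` the contact of `x_i` and `x_n` is
larger than the contacts of `x_i` with the points of `Z`, and `Z` contains all the iterates of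
the periodic points in `V` where the square of the tangent map has small rank. -/
theorem sparse_of_contact_per (v : AbsoluteValue K ℝ) (hv : v ∈ nonarchAbsVal (K := K))
    (hp2 : v 2 = 1) (F : σ → MvPolynomial σ K) (d : ℕ) (hd : 0 < d)
    (hF : ∀ i, (F i).IsHomogeneous d) (hint : ∀ i m, v ((F i).coeff m) ≤ 1)
    (hgood : ∀ y : σ → K, (∀ i, v (y i) ≤ 1) → (∃ i, v (y i) = 1) → ∃ i, v (eval y (F i)) = 1)
    (x : ℕ → σ → K) (hx : ∀ n, x n ≠ 0)
    (hstep : ∀ n, ∃ c : K, c ≠ 0 ∧ x (n + 1) = c • fun i => eval (x n) (F i))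
    (hnp : ∀ n m, n ≠ m → cr (x n) (x m) ≠ 0)
    (i n : ℕ) (hin : i < n) (hct : 0 < ct v (x i) (x n))
    (Z : Set (σ → K)) (hZ : ∀ y ∈ Z, cr (x i) y ≠ 0 ∧ ct v (x i) y < ct v (x i) (x n))
    (V : Set (MvPolynomial σ ℂ)) (hV : ∀ g ∈ V, ∃ e : ℕ, g.IsHomogeneous e)
    (hper : ∀ z : σ → ℂ, z ≠ 0 → InZ V z → ∀ k, 1 ≤ k → ∀ c : ℂ,
      (ev fun i => MvPolynomial.map (algebraMap K ℂ) (F i))^[k] z = c • z →
      Fintype.card σ ≤ ((jprod (fun i => MvPolynomial.map (algebraMap K ℂ) (F i)) z k) ^ 2).rank + 1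
      ∨ ∀ l, ∃ y ∈ Z, ∃ c' : ℂ, (ev fun i => MvPolynomial.map (algebraMap K ℂ) (F i))^[l] z
        = c' • fun i => algebraMap K ℂ (y i))
    (hfin : ∀ k, 1 ≤ k → ∃ B : Finset (σ → ℂ), ∀ z : σ → ℂ, z ≠ 0 →
      (∀ n, InZ V ((ev fun i => MvPolynomial.map (algebraMap K ℂ) (F i))^[k * n] z)) →
        ∃ b ∈ B, ∃ c : ℂ, z = c • b) :
    Sparse {n | InZ V (fun j => algebraMap K ℂ (x n j))} := by
  classical
  obtain ⟨p, hpf, R, hRn, ι, j, n₀, s, hp3, h⟩ := exists_place hv hp2
  have hR := h.hR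
  obtain ⟨a, b, hb, hab, ha1, ha2⟩ := exists_prim_orbit v hF hx hstep
  choose F' hF' using fun i => h.exists_lift (F i) (hint i)
  choose a' ha' using fun i => h.hint (a i) (ha1 i)
  have horb := fun m => PlaceData.orbit hF' ha' m
  have hprim := fun m => h.orbit_prim hF' hgood ha' ha2 m
  have hnm : ∀ m, nm v ((ev F)^[m] a) = 1 := fun m => nm_eq_one (hprim m).1 (hprim m).2
  have hF'h : ∀ i, (F' i).IsHomogeneous d := by
    intro i
    apply homogeneous_of_map ι hR.injective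
    rw [hF' i]
    exact (hF i).map _
  have hcr : cr ((ev F)^[i] a) ((ev F)^[n] a) ≠ 0 := by
    rw [hab, hab]
    exact cr_smul_ne (hb i) (hb n) (hnp i n hin.ne)
  have hct' : ct v (x i) (x n) = -Real.log (nm v (cr ((ev F)^[i] a) ((ev F)^[n] a))) := by
    rw [← ct_smul' v (hb i) (hb n) (hnp i n hin.ne), ← hab, ← hab, ct, hnm, hnm, Real.log_one]
    ring
  set ε := nm v (cr ((ev F)^[i] a) ((ev F)^[n] a)) with hε
  have hε0 : 0 < ε := nm_pos v hcr
  have hε1 : ε < 1 := by
    rw [hct'] at hct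
    have h1 : Real.log ε < 0 := by linarith
    exact (Real.log_neg_iff hε0).1 h1
  obtain ⟨e, he0, he1, hen⟩ := exists_root hε0 hε1 h.hn
  have hsim : Sim e ((ev F')^[n] a') ((ev F')^[i] a') :=
    h.sim (horb i) (horb n) (hprim i).2 (hprim n).2 he0.le he1 fun q => by
      rw [hen]
      exact le_nm v _ q
  have hN : 1 ≤ n - i := by omega
  have hiN : i + (n - i) = n := by omega
  have hprim' : ∀ m, ∃ l, ‖(ev F')^[m] a' l‖ = 1 := by
    intro m
    obtain ⟨l, hl⟩ := (hprim m).2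
    exact ⟨l, (h.eq_one_iff' (horb m l)).1 hl⟩
  have hmain := main2 h hp3 F d hd hF hgood F' hF' a ha2 a' ha' (fun m k hk c hcon => by
      apply hnp m (m + k) (by omega)
      have h1 : x (m + k) = ((b (m + k))⁻¹ * (c * b m)) • x m := by
        have h2 : b (m + k) • x (m + k) = (c * b m) • x m := by
          rw [← hab, hcon, hab, smul_smul]
        rw [← smul_smul, ← h2, smul_smul, inv_mul_cancel₀ (hb _), one_smul]
      rw [h1]
      funext q
      simp only [cr, Pi.smul_apply, smul_eq_mul, Pi.zero_apply]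
      ring) V hV hfin ?_
  · -- back to `x`
    refine hmain.mono fun m hm => ?_
    show InZ V _
    have h1 : (fun l => algebraMap K ℂ ((ev F)^[m] a l))
        = algebraMap K ℂ (b m) • fun l => algebraMap K ℂ (x m l) := by
      funext l
      rw [hab, Pi.smul_apply, Pi.smul_apply, smul_eq_mul, smul_eq_mul, map_mul]
    rw [h1]
    intro g hg
    obtain ⟨e', he'⟩ := hV g hg
    rw [eval_smul_form he', hm g hg, mul_zero]
  · -- the rank condition
    intro z t ht hz hzV k hk c _ hfix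
    obtain ⟨m, -, hzm⟩ := exists_near hR he0 i z t ht hz
    obtain ⟨l₁, hl₁⟩ := sim_prim hR he1 hzm (hprim' m)
    have hz'0 : (fun i => s.symm (ι (z i))) ≠ 0 := by
      intro h0
      have h1 := congrFun h0 l₁
      simp only [Pi.zero_apply] at h1
      have h2 := (map_eq_zero_iff _ s.symm.injective).1 h1
      rw [(map_eq_zero_iff _ hR.injective).1 h2, norm_zero] at hl₁
      exact zero_ne_one hl₁
    have hfix' : (ev fun i => MvPolynomial.map (algebraMap K ℂ) (F i))^[k]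
        (fun i => s.symm (ι (z i))) = s.symm (ι c) • fun i => s.symm (ι (z i)) := by
      funext l
      apply s.injective
      rw [orbit_s h hF' z k l, hfix]
      simp only [Pi.smul_apply, smul_eq_mul, map_mul, RingEquiv.apply_symm_apply]
    rcases hper _ hz'0 hzV k hk _ hfix' with hgd | hbad
    · rwa [rank_s h hF' z k] at hgd
    · exfalso
      obtain ⟨l, hl⟩ := exists_iterate_sim hR he0 hF'h hN (by rw [hiN]; exact hsim) z t ht hz
      obtain ⟨y, hy, c', hc'⟩ := hbad l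
      obtain ⟨hcry, hlt⟩ := hZ y hy
      have h1 : ∀ r, ι ((ev F')^[l] z r) = s c' * j (y r) := by
        intro r
        rw [← orbit_s h hF' z l r, hc', Pi.smul_apply, smul_eq_mul, map_mul, h.hs]
      have h2 : ∀ q, v (cr ((ev F)^[i] a) y q) ≤ ε * nm v y := by
        intro q
        rw [← hen]
        exact contact_of_sim h (horb i) (hprim i).2 he0.le he1 hl h1 q
      have hy0 := Pool.Agent.Helper29.TG.right_ne_zero hcry
      have hcr' : cr ((ev F)^[i] a) y ≠ 0 := by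
        have := cr_smul_ne (hb i) one_ne_zero hcry
        rwa [one_smul, ← hab] at this
      have h3 : ct v (x i) y = ct v ((ev F)^[i] a) y := by
        rw [← ct_smul' v (hb i) one_ne_zero hcry, one_smul, ← hab]
      have h4 : nm v (cr ((ev F)^[i] a) y) ≤ ε * nm v y :=
        nm_le (mul_nonneg hε0.le (nm_pos v hy0).le) h2
      have h5 : Real.log (nm v (cr ((ev F)^[i] a) y)) ≤ Real.log ε + Real.log (nm v y) := by
        rw [← Real.log_mul hε0.ne' (nm_pos v hy0).ne']
        exact Real.log_le_log (nm_pos v hcr') h4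
      rw [h3, ct, hnm, Real.log_one, hct'] at hlt
      linarith

end

end Pool.Agent.Helper88.TGP

end

section

namespace Pool.Agent.Helper29.TG
end Pool.Agent.Helper29.TG

/-!
# A place where the contact is larger than the contacts with finitely many given points

A variant of `Helper29/TG/Count.lean`.
-/

set_option autoImplicit false

namespace Pool.Agent.Helper88.TGP

open Height AdmissibleAbsValues MvPolynomial
open Pool.Agent.Helper29.TG

variable {K : Type} [Field K] [CharZero K] [AdmissibleAbsValues K] {ν : ℕ}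

/-- `x n` distinct points with growing heights, infinitely many of them (`n ∈ S`) on a curve, `Z`
a finite set of other points. There are a non-archimedean place `v` outside a given finite
set and `i < n` in `S` such that at `v` the contact of `x_i` and `x_n` is larger than the
contacts of `x_i` with the points of `Z`. -/
theorem exists_good_place_per {x : ℕ → Fin (ν + 1) → K} (hx : ∀ n, x n ≠ 0) {S : Set ℕ}
    (hS : S.Infinite) (hnp : ∀ n ∈ S, ∀ n' ∈ S, n ≠ n' → cr (x n) (x n') ≠ 0)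
    (hc : OnCurveS S x)
    (hgrow : ∃ m₀, ∀ n, m₀ ≤ n → (2 : ℝ) ^ (n - m₀) ≤ logHeight (x n))
    (Z : Finset (Fin (ν + 1) → K)) (hZ : ∀ i ∈ S, ∀ y ∈ Z, cr (x i) y ≠ 0)
    {B : Set (AbsoluteValue K ℝ)} (hB : B.Finite) :
    ∃ v ∈ nonarchAbsVal (K := K), v ∉ B ∧ ∃ i ∈ S, ∃ n ∈ S, i < n ∧
      0 < ct v (x i) (x n) ∧ ∀ y ∈ Z, ct v (x i) y < ct v (x i) (x n) := by
  classical
  by_contra hcon
  push Not at hcon
  obtain ⟨m₀, hm₀⟩ := hgrow
  -- the plane
  obtain ⟨T, a, e, D', V, g, P, hTS, hTi, hV, hP, hg, hirr, hT⟩ := exists_plane hS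
    (fun n _ => hx n) hnp hc
  set y : ℕ → Fin 3 → K := fun n => pl a (x n) with hy
  obtain ⟨C₂, hC₂⟩ := exists_logHeight_le_pl a V hP
  have hy1 : ∀ n ∈ T, y n ≠ 0 ∧ logHeight (x n) ≤ (e + 1) * logHeight (y n) + C₂ := fun n hn =>
    hC₂ (x n) (hx n) (hT n hn).2.1 (hT n hn).2.2
  have hcrx : ∀ n ∈ T, ∀ n' ∈ T, n ≠ n' → cr (x n) (x n') ≠ 0 := fun n hn n' hn' h =>
    hnp n (hTS hn) n' (hTS hn') h
  have hcry : ∀ n ∈ T, ∀ n' ∈ T, n ≠ n' → cr (y n) (y n') ≠ 0 := fun n hn n' hn' h =>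
    cr_pl_ne_zero hP (hT n hn).2.1 (hT n' hn').2.1 (hT n hn).2.2 (hT n' hn').2.2
      (hcrx n hn n' hn' h)
  -- bad places
  set B' : Set (AbsoluteValue K ℝ) := B ∪ {v | v ∈ archAbsVal (K := K)} ∪
    {v | v ∈ nonarchAbsVal (K := K) ∧ ¬ CoeffInt v V} ∪
    (⋃ j, {v | v ∈ nonarchAbsVal (K := K) ∧ ¬ CoeffInt v (P j)}) ∪
    (⋃ j, {v | v ∈ nonarchAbsVal (K := K) ∧ ¬ CoeffInt v (∑ i, C (a j i) * X i)}) with hB'
  have hB'f : B'.Finite := by
    refine (((hB.union finite_arch).union (finite_not_coeffInt V)).union ?_).union ?_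
    · exact Set.finite_iUnion fun j => finite_not_coeffInt (P j)
    · exact Set.finite_iUnion fun j => finite_not_coeffInt _
  have hgood : ∀ v, Mem v → v ∉ B' → v ∈ nonarchAbsVal (K := K) ∧ v ∉ B ∧
      CoeffInt v V ∧ (∀ j, CoeffInt v (P j)) ∧ ∀ j i, v (a j i) ≤ 1 := by
    intro v hv hvB
    simp only [hB', Set.mem_union, Set.mem_ofPred_eq, Set.mem_iUnion, not_or, not_exists,
      not_and, not_not] at hvB
    obtain ⟨⟨⟨⟨h1, h2⟩, h4⟩, h5⟩, h6⟩ := hvB
    have hv' : v ∈ nonarchAbsVal (K := K) := hv.resolve_left h2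
    refine ⟨hv', h1, h4 hv', fun j => h5 j hv', fun j i => ?_⟩
    have h7 := h6 j hv' (Finsupp.single i 1)
    have h8 : coeff (Finsupp.single i 1) (∑ i, C (a j i) * X i : MvPolynomial (Fin (ν + 1)) K)
        = a j i := by
      rw [coeff_sum, Finset.sum_eq_single i]
      · rw [coeff_C_mul, coeff_X, if_pos rfl, mul_one]
      · intro b _ hb
        rw [coeff_C_mul, coeff_X, if_neg, mul_zero]
        intro h
        exact hb (Finsupp.single_left_injective one_ne_zero h)
      · intro h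
        exact absurd (Finset.mem_univ i) h
    rwa [h8] at h7
  set ind : AbsoluteValue K ℝ → ℝ := fun v => if v ∈ B' then 1 else 0 with hind
  have hindFS : FS ind := FS.of_finite hB'f fun v _ hv => by simp only [hind, if_neg hv]
  set b : ℝ := ls ind with hb
  obtain ⟨N', hN'⟩ := exists_nat_ge (b + e + 1)
  have hb0 : 0 ≤ b := ls_nonneg hindFS fun v _ => by
    simp only [hind]
    split_ifs <;> norm_num
  have hN'1 : 1 ≤ N' := by
    have h1 : (1 : ℝ) ≤ N' := by
      refine le_trans ?_ hN'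
      have : (0 : ℝ) ≤ e := Nat.cast_nonneg e
      linarith
    exact_mod_cast h1
  obtain ⟨Γ, C₃, hΓT, hΓ, hexc⟩ := exists_low hTi (fun n hn => (hy1 n hn).1) hcry hg hirr
    (fun n hn => (hT n hn).1) N' hN'1
  -- constants
  choose c₄ hc₄ using fun i : ℕ => exists_ct_le (y i)
  set C₄ : ℝ := ∑ i ∈ Γ, |c₄ i| with hC₄
  have hC₄0 : 0 ≤ C₄ := Finset.sum_nonneg fun _ _ => abs_nonneg _
  have hct : ∀ i ∈ Γ, ∀ v, Mem v → ∀ z, cr (y i) z ≠ 0 → ct v (y i) z ≤ logHeight z + C₄ := by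
    intro i hi v hv z hz
    have h1 := hc₄ i v hv z hz
    have h2 : |c₄ i| ≤ C₄ := Finset.single_le_sum (f := fun i => |c₄ i|)
      (fun _ _ => abs_nonneg _) hi
    linarith [le_abs_self (c₄ i)]
  set R : AbsoluteValue K ℝ → ℝ := fun v => ∑ i ∈ Γ, ∑ j ∈ Γ.erase i,
    (ct v (y i) (y j) + Real.log 6 * ind v) with hR
  have hcrΓ : ∀ i ∈ Γ, ∀ j ∈ Γ, i ≠ j → cr (y i) (y j) ≠ 0 := fun i hi j hj =>
    hcry i (hΓT hi) j (hΓT hj)
  have hRFS : FS R := FS.sum Γ fun i hi => FS.sum (Γ.erase i) fun j hj =>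
    (FS_ct (hcrΓ i hi j (Finset.mem_of_mem_erase hj) (Finset.ne_of_mem_erase hj).symm)).add
      (hindFS.mul_left _)
  obtain ⟨C_V, hC_V⟩ := exists_ls_df_le hV B'
  set dV : ℕ → AbsoluteValue K ℝ → ℝ := fun n v => if v ∈ B' then 0 else df v V e (y n) with hdV
  set cZ : ℕ → AbsoluteValue K ℝ → ℝ := fun i v => if v ∈ B' then 0 else ∑ w ∈ Z, ct v (x i) w
    with hcZ
  have hdV1 : ∀ n ∈ T, FS (dV n) ∧ ls (dV n) ≤ e * logHeight (y n) + C_V := by
    intro n hn
    have h1 := hC_V (y n) (hy1 n hn).1 (hT n hn).2.1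
    convert h1
  have hcZ1 : ∀ i ∈ T, FS (cZ i) := by
    intro i hi
    refine (FS.sum Z fun w hw => FS_ct (hZ i (hTS hi) w hw)).mono fun v _ h0 => ?_
    simp only [hcZ]
    split_ifs
    · rfl
    · exact h0
  have hdV0 : ∀ n ∈ T, ∀ v, Mem v → 0 ≤ dV n v := by
    intro n hn v hv
    simp only [hdV]
    split_ifs with h
    · exact le_rfl
    · obtain ⟨h1, -, h2, -, -⟩ := hgood v hv h
      exact df_nonneg (isNonarchimedean v h1) hV h2 (hT n hn).2.1
  have hcZ0 : ∀ i ∈ T, ∀ v, Mem v → 0 ≤ cZ i v := by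
    intro i hi v hv
    simp only [hcZ]
    split_ifs with h
    · exact le_rfl
    · obtain ⟨h1, -⟩ := hgood v hv h
      exact Finset.sum_nonneg fun w hw => ct_nonneg (isNonarchimedean v h1) (hZ i (hTS hi) w hw)
  -- the constants of the final inequality
  set A₂ : ℝ := b * C₄ + ls R + C_V + ∑ i ∈ Γ, (e * logHeight (y i) + C_V)
    + ∑ i ∈ Γ, ls (cZ i) + C₃ with hA₂
  have key : ∀ n ∈ T, n ∉ Γ → (∀ i ∈ Γ, i < n) →
      N' * logHeight (y n) ≤ ∑ i ∈ Γ, ls (fun v => ct v (y i) (y n)) + C₃ →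
      logHeight (y n) ≤ A₂ := by
    intro n hn hnΓ hlt hlow
    have hcrn : ∀ i ∈ Γ, cr (y i) (y n) ≠ 0 := fun i hi =>
      hcry i (hΓT hi) n hn (hlt i hi).ne
    set G : AbsoluteValue K ℝ → ℝ := fun v => (logHeight (y n) + C₄) * ind v + R v + dV n v +
      ∑ i ∈ Γ, dV i v + ∑ i ∈ Γ, cZ i v with hG
    have hGFS1 : FS (fun v => (logHeight (y n) + C₄) * ind v) := hindFS.mul_left _
    have hGFS2 : FS (fun v => ∑ i ∈ Γ, dV i v) := FS.sum Γ fun i hi => (hdV1 i (hΓT hi)).1
    have hGFS3 : FS (fun v => ∑ i ∈ Γ, cZ i v) := FS.sum Γ fun i hi => hcZ1 i (hΓT hi)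
    have hGFS : FS G := (((hGFS1.add hRFS).add (hdV1 n hn).1).add hGFS2).add hGFS3
    have hlsG : ls G = (logHeight (y n) + C₄) * b + ls R + ls (dV n) + ∑ i ∈ Γ, ls (dV i) +
        ∑ i ∈ Γ, ls (cZ i) := by
      rw [hG, ls_add (((hGFS1.add hRFS).add (hdV1 n hn).1).add hGFS2) hGFS3,
        ls_add ((hGFS1.add hRFS).add (hdV1 n hn).1) hGFS2, ls_add (hGFS1.add hRFS) (hdV1 n hn).1,
        ls_add hGFS1 hRFS, ls_mul_left, ls_sum _ fun i hi => (hdV1 i (hΓT hi)).1,
        ls_sum _ fun i hi => hcZ1 i (hΓT hi)]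
    have hpt : ∀ v, Mem v → ∑ i ∈ Γ, ct v (y i) (y n) ≤ G v := by
      intro v hv
      have hV1 : 0 ≤ dV n v := hdV0 n hn v hv
      have hV2 : 0 ≤ ∑ i ∈ Γ, dV i v := Finset.sum_nonneg fun i hi => hdV0 i (hΓT hi) v hv
      have hQ2 : 0 ≤ ∑ i ∈ Γ, cZ i v := Finset.sum_nonneg fun i hi => hcZ0 i (hΓT hi) v hv
      by_cases hvB : v ∈ B'
      · obtain ⟨i₀, hi₀, h1⟩ := sum_ct_le_log v hΓ hcrn hcrΓ
        have h2 := hct i₀ hi₀ v hv (y n) (hcrn i₀ hi₀)
        have h3 : ind v = 1 := by simp only [hind, if_pos hvB]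
        simp only [hG, hR, h3, mul_one]
        linarith
      · obtain ⟨g1, g2, g4, g5, g6⟩ := hgood v hv hvB
        have hna := isNonarchimedean v g1
        obtain ⟨i₀, hi₀, h1⟩ := sum_ct_le hna hΓ hcrn hcrΓ
        have h3 : ind v = 0 := by simp only [hind, if_neg hvB]
        have hi₀T := hΓT hi₀
        have h4 : ct v (y i₀) (y n) ≤ ct v (x i₀) (x n) + df v V e (y i₀) + df v V e (y n) :=
          ct_pl_le hna g6 hP g5 (hT i₀ hi₀T).2.1 (hT n hn).2.1 (hT i₀ hi₀T).2.2 (hT n hn).2.2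
            (hcrx i₀ hi₀T n hn (hlt i₀ hi₀).ne)
        have h5 : dV n v = df v V e (y n) := by simp only [hdV, if_neg hvB]
        have h6 : df v V e (y i₀) ≤ ∑ i ∈ Γ, dV i v := by
          have h7 : dV i₀ v = df v V e (y i₀) := by simp only [hdV, if_neg hvB]
          rw [← h7]
          exact Finset.single_le_sum (f := fun i => dV i v)
            (fun i hi => hdV0 i (hΓT hi) v hv) hi₀
        have h7 : ct v (x i₀) (x n) ≤ ∑ i ∈ Γ, cZ i v := by
          rcases le_or_gt (ct v (x i₀) (x n)) 0 with h8 | h8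
          · exact h8.trans hQ2
          · obtain ⟨w, hw, hl3⟩ := hcon v g1 g2 i₀ (hTS hi₀T) n (hTS hn) (hlt i₀ hi₀) h8
            have h9 : cZ i₀ v = ∑ w ∈ Z, ct v (x i₀) w := by simp only [hcZ, if_neg hvB]
            have h10 : ct v (x i₀) w ≤ cZ i₀ v := by
              rw [h9]
              exact Finset.single_le_sum (f := fun w => ct v (x i₀) w)
                (fun w hw => ct_nonneg hna (hZ i₀ (hTS hi₀T) w hw)) hw
            refine (hl3.trans h10).trans ?_
            exact Finset.single_le_sum (f := fun i => cZ i v)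
              (fun i hi => hcZ0 i (hΓT hi) v hv) hi₀
        simp only [hG, hR, h3, mul_zero, add_zero, zero_add]
        rw [h5]
        linarith
    have hsum : ∑ i ∈ Γ, ls (fun v => ct v (y i) (y n)) ≤ ls G := by
      rw [← ls_sum Γ fun i hi => FS_ct (hcrn i hi)]
      exact ls_mono (FS.sum Γ fun i hi => FS_ct (hcrn i hi)) hGFS hpt
    have hdVs : ∑ i ∈ Γ, ls (dV i) ≤ ∑ i ∈ Γ, (e * logHeight (y i) + C_V) :=
      Finset.sum_le_sum fun i hi => (hdV1 i (hΓT hi)).2
    have hdVn := (hdV1 n hn).2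
    have hyn : 0 ≤ logHeight (y n) := logHeight_nonneg _
    have hNy : (b + e + 1) * logHeight (y n) ≤ N' * logHeight (y n) :=
      mul_le_mul_of_nonneg_right hN' hyn
    rw [hlsG] at hsum
    simp only [hA₂]
    linarith
  -- infinitely many `n`
  obtain ⟨n₁, hn₁⟩ := count_exp_growth 0 ((e + 1) * A₂ + C₂) m₀
  have hinf : (T \ ({n ∈ T | n ∉ Γ ∧ ¬ N' * logHeight (y n) ≤
      ∑ i ∈ Γ, ls (fun v => ct v (y i) (y n)) + C₃} ∪ Set.Iic (Γ.sup id) ∪
      Set.Iio n₁ ∪ Set.Iio m₀)).Infinite :=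
    hTi.sdiff (((hexc.union (Set.finite_Iic _)).union (Set.finite_Iio _)).union (Set.finite_Iio _))
  obtain ⟨n, hn, hn'⟩ := hinf.nonempty
  simp only [Set.mem_union, Set.mem_ofPred_eq, Set.mem_Iic, Set.mem_Iio, not_or, not_and,
    not_not, not_le, not_lt] at hn'
  obtain ⟨⟨⟨h1, h2⟩, h3⟩, h4⟩ := hn'
  have hlt : ∀ i ∈ Γ, i < n := fun i hi =>
    lt_of_le_of_lt (Finset.le_sup (f := id) hi) h2
  have hnΓ : n ∉ Γ := fun h => lt_irrefl n (hlt n h)
  have h5 := key n hn hnΓ hlt (h1 hn hnΓ)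
  have h6 := hn₁ n h3
  have h7 := hm₀ n h4
  have h8 := (hy1 n hn).2
  have h9 : ((e : ℝ) + 1) * logHeight (y n) ≤ (e + 1) * A₂ :=
    mul_le_mul_of_nonneg_left h5 (by positivity)
  linarith

end Pool.Agent.Helper88.TGP

end

section

namespace Pool.Agent.Helper29.TG
end Pool.Agent.Helper29.TG
namespace Pool.Agent.Helper33.SS
end Pool.Agent.Helper33.SS
namespace Pool.Agent.Helper36
end Pool.Agent.Helper36

/-!
# Tower gaps over number fields: finitely many degenerate periodic points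
-/

set_option autoImplicit false

namespace Pool.Agent.Helper88.TGP

open Height AdmissibleAbsValues MvPolynomial
open Pool.Agent.Helper33.SS (Sparse InZ ev jprod)
open Pool.Agent.Helper36 (iter iter_succ step growth)
open Pool.Agent.Helper29.TG

/-- One set without positive-dimensional periodic part; `Z` contains the iterates of the
degenerate periodic points. -/
theorem sparse_one_per {K : Type} [Field K] [NumberField K] [Algebra K ℂ] {ν d : ℕ} (hd : 2 ≤ d)
    (F : Fin (ν + 1) → MvPolynomial (Fin (ν + 1)) K) (hF : ∀ i, (F i).IsHomogeneous d)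
    (hnz : ∀ x : Fin (ν + 1) → ℂ, (∀ i, aeval x (F i) = 0) → x = 0)
    (a : Fin (ν + 1) → K) (ha : a ≠ 0)
    (hnp : ∀ n m, n < m → ¬ Pool.Agent.Helper36.PEq (iter F a n) (iter F a m))
    (Z : Finset (Fin (ν + 1) → K)) (hZ : ∀ n, ∀ y ∈ Z, cr (iter F a n) y ≠ 0)
    (V : Set (MvPolynomial (Fin (ν + 1)) ℂ)) (hV : ∀ g ∈ V, ∃ e : ℕ, g.IsHomogeneous e)
    (hdim : ringKrullDim (MvPolynomial (Fin (ν + 1)) ℂ ⧸ Ideal.span V) ≤ 2)
    (hper : ∀ z : Fin (ν + 1) → ℂ, z ≠ 0 → InZ V z → ∀ k, 1 ≤ k → ∀ c : ℂ,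
      (ev fun i => MvPolynomial.map (algebraMap K ℂ) (F i))^[k] z = c • z →
      ν + 1 ≤ ((jprod (fun i => MvPolynomial.map (algebraMap K ℂ) (F i)) z k) ^ 2).rank + 1
      ∨ ∀ l, ∃ y ∈ Z, ∃ c' : ℂ, (ev fun i => MvPolynomial.map (algebraMap K ℂ) (F i))^[l] z
        = c' • fun i => algebraMap K ℂ (y i))
    (W : Set (MvPolynomial (Fin (ν + 1)) ℂ)) (hW : ∀ g ∈ W, ∃ e : ℕ, g.IsHomogeneous e)
    (hWV : ∀ x, InZ W x → InZ V x)
    (hfin : ∀ k, 1 ≤ k → ∃ B : Finset (Fin (ν + 1) → ℂ), ∀ z : Fin (ν + 1) → ℂ, z ≠ 0 →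
      (∀ n, InZ W ((ev fun i => MvPolynomial.map (algebraMap K ℂ) (F i))^[k * n] z)) →
        ∃ b ∈ B, ∃ c : ℂ, z = c • b) :
    Sparse {n | InZ W (fun j => algebraMap K ℂ (iter F a n j))} := by
  classical
  set x : ℕ → Fin (ν + 1) → K := fun n => iter F a n with hxdef
  have hx : ∀ n, x n ≠ 0 := by
    intro n
    induction n with
    | zero => exact ha
    | succ n ih =>
      show iter F a (n + 1) ≠ 0
      rw [iter_succ]
      exact step_ne_zero' F hnz ih
  have hcr : ∀ n m, n ≠ m → cr (x n) (x m) ≠ 0 := by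
    intro n m hnm h
    rcases lt_or_gt_of_ne hnm with h1 | h1
    · exact hnp n m h1 (pEq_of_cr (hx n) (hx m) h)
    · refine hnp m n h1 (pEq_of_cr (hx m) (hx n) ?_)
      funext q
      have := congrFun h q
      simp only [cr, Pi.zero_apply] at this ⊢
      linear_combination -this
  set S : Set ℕ := {n | InZ W (fun j => algebraMap K ℂ (x n j))} with hS
  by_cases hSf : S.Finite
  · exact Pool.Agent.Helper33.SS.Sparse.of_finite hSf
  have hSi : S.Infinite := hSf
  have hgrow : ∃ m₀, ∀ n, m₀ ≤ n → (2 : ℝ) ^ (n - m₀) ≤ logHeight (x n) := by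
    rcases growth (L := ℂ) hd F hF hnz x hx (fun n => iter_succ F a n) with
      ⟨n, m, hnm, h⟩ | ⟨m₀, hm₀⟩
    · exact absurd h (hnp n m hnm)
    · refine ⟨m₀, fun n hn => le_trans ?_ (hm₀ n hn)⟩
      exact pow_le_pow_left₀ (by norm_num) (by exact_mod_cast hd) _
  -- the curve
  have hcurve : OnCurveS S x := by
    intro m
    obtain ⟨e, Q, hQ, hQ0, hQv⟩ := Pool.Agent.Helper38.TQ.exists_relation_linear hV hdim
      (fun j i => algebraMap K ℂ (m j i))
    obtain ⟨ρ, hρ⟩ := Pool.Agent.Helper36.exists_mapLin_ne_zero (K := K) hQ0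
    refine ⟨_, e, hρ, Pool.Agent.Helper36.mapLin_isHomogeneous ρ hQ, fun n hn => ?_⟩
    rw [Pool.Agent.Helper36.eval_mapLin]
    have h1 := hQv _ (hWV _ hn)
    have h2 : (fun j => algebraMap K ℂ (pl m (x n) j)) =
        fun j => ∑ i, algebraMap K ℂ (m j i) * algebraMap K ℂ (x n i) := by
      funext j
      simp only [pl, lin]
      rw [map_sum]
      exact Finset.sum_congr rfl fun i _ => map_mul _ _ _
    rw [h2, h1, map_zero]
  obtain ⟨B, hB, hBgood⟩ := exists_good_reduction F hF hnz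
  obtain ⟨v, hv, hvB, i, hi, n, hn, hin, hct, hlt⟩ := exists_good_place_per hx hSi
    (fun n _ m _ h => hcr n m h) hcurve hgrow Z (fun i _ y hy => hZ i y hy) hB
  obtain ⟨h2, hint, hgood⟩ := hBgood v hv hvB
  refine sparse_of_contact_per v hv h2 F d (by omega) hF hint hgood x hx
    (fun n => ⟨1, one_ne_zero, ?_⟩) hcr i n hin hct (Z : Set (Fin (ν + 1) → K))
    (fun y hy => ⟨hZ i y hy, hlt y hy⟩) W hW (fun z hz hzW k hk c hc => ?_) hfin
  · rw [one_smul]
    exact iter_succ F a n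
  · rw [Fintype.card_fin]
    exact hper z hz (hWV z hzW) k hk c hc

end Pool.Agent.Helper88.TGP

end

section

namespace Pool.Agent.Helper29.TG
end Pool.Agent.Helper29.TG
namespace Pool.Agent.Helper33.SS
end Pool.Agent.Helper33.SS
namespace Pool.Agent.Helper36
end Pool.Agent.Helper36
namespace Pool.Agent.Helper88.TL
end Pool.Agent.Helper88.TL

/-!
# Tower gaps: algebraic data, finitely many degenerate periodic points
-/

set_option autoImplicit false

namespace Pool.Agent.Helper88.TGP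

open MvPolynomial
open Pool.Agent.Helper33.SS (Sparse InZ ev SGood jprod)
open Pool.Agent.Helper36 (iter iter_succ)
open Pool.Agent.Helper29.TG (cr exists_model sgood_of_sparse_parts pEq_of_cr)
open Pool.Agent.Helper88.TL (ev_iter_smul ev_iter_mul)

theorem algebraic_ev {σ : Type} {f : σ → MvPolynomial σ ℂ}
    (hf : ∀ i m, IsAlgebraic ℚ ((f i).coeff m)) {x : σ → ℂ} (hx : ∀ i, IsAlgebraic ℚ (x i))
    (n : ℕ) : ∀ i, IsAlgebraic ℚ ((ev f)^[n] x i) := by
  induction n with
  | zero => exact hx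
  | succ n ih =>
    intro i
    rw [Function.iterate_succ_apply']
    show IsAlgebraic ℚ (eval ((ev f)^[n] x) (f i))
    rw [eval_eq, ← mem_algebraicClosure_iff]
    refine sum_mem fun m _ => mul_mem ?_ (prod_mem fun l _ => pow_mem ?_ _)
    · rw [mem_algebraicClosure_iff]
      exact hf i m
    · rw [mem_algebraicClosure_iff]
      exact ih l

/-- Preperiodic points of endomorphisms over the algebraic numbers are algebraic. -/
theorem periodic_algebraic {N d : ℕ} (hd : 2 ≤ d)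
    {f : Fin (N + 1) → MvPolynomial (Fin (N + 1)) ℂ} (hf : ∀ i, (f i).IsHomogeneous d)
    (hnz : ∀ x : Fin (N + 1) → ℂ, (∀ i, eval x (f i) = 0) → x = 0)
    (hfalg : ∀ i m, IsAlgebraic ℚ ((f i).coeff m)) {z : Fin (N + 1) → ℂ} (hz : z ≠ 0) {k : ℕ}
    (hk : 1 ≤ k) {c : ℂ} (hc : (ev f)^[k] z = c • z) :
    ∃ (w : Fin (N + 1) → ℂ) (c' : ℂ), c' ≠ 0 ∧ z = c' • w ∧ ∀ i, IsAlgebraic ℚ (w i) := by
  classical
  let A : Type := algebraicClosure ℚ ℂ
  have hAcl : IsAlgClosed A :=
    (IsAlgClosed.algebraicClosure_eq_bot_iff (algebraicClosure ℚ ℂ) ℂ).1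
      (algebraicClosure.algebraicClosure_eq_bot ℚ ℂ)
  have hinj : Function.Injective (algebraMap A ℂ) := (algebraMap A ℂ).injective
  have hlift : ∀ i, ∃ F : MvPolynomial (Fin (N + 1)) A,
      MvPolynomial.map (algebraMap A ℂ) F = f i := by
    intro i
    refine ⟨∑ m ∈ (f i).support, MvPolynomial.monomial m
      (⟨(f i).coeff m, mem_algebraicClosure_iff.2 (hfalg i m)⟩ : A), ?_⟩
    rw [map_sum]
    conv_rhs => rw [(f i).as_sum]
    refine Finset.sum_congr rfl fun m _ => ?_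
    rw [MvPolynomial.map_monomial]
    rfl
  choose F hF using hlift
  have haev : ∀ (x : Fin (N + 1) → ℂ) i, aeval x (F i) = eval x (f i) := by
    intro x i
    rw [← hF i, eval_map, aeval_def]
  have hendo : Pool.Agent.Helper38.TQ.IsEndo d F := by
    refine ⟨hd, fun i => MvPolynomial.IsHomogeneous.of_map hinj (by rw [hF]; exact hf i),
      fun x hx => ?_⟩
    have h1 : (fun i => algebraMap A ℂ (x i)) = 0 := by
      apply hnz
      intro i
      rw [← haev]
      have h2 : aeval (fun i => algebraMap A ℂ (x i)) (F i) =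
        algebraMap A ℂ (aeval x (F i)) := aeval_algebraMap_apply (A := A) (B := ℂ) x (F i)
      rw [h2, aeval_eq_eval]
      have h3 : eval x (F i) = 0 := hx i
      rw [h3, map_zero]
    funext i
    apply hinj
    have := congrFun h1 i
    simpa using this
  have hiter : ∀ n, iter F z n = (ev f)^[n] z := by
    intro n
    induction n with
    | zero => rfl
    | succ n ih =>
      rw [iter_succ, ih, Function.iterate_succ_apply']
      funext i
      exact haev _ i
  have hev0 : ∀ x : Fin (N + 1) → ℂ, ev f x = 0 → x = 0 := fun x h => hnz x fun i => congrFun h i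
  have horb0 : ∀ n, (ev f)^[n] z ≠ 0 := by
    intro n
    induction n with
    | zero => exact hz
    | succ n ih =>
      rw [Function.iterate_succ_apply']
      exact fun h => ih (hev0 _ h)
  have hc0 : c ≠ 0 := by
    rintro rfl
    exact horb0 k (by rw [hc, zero_smul])
  have hpre : Pool.Agent.Helper38.TQ.Preper F z := by
    refine ⟨0, k, by omega, c, hc0, ?_⟩
    rw [hiter, hiter, hc]
    rfl
  obtain ⟨w, c', hc', hw⟩ := Pool.Agent.Helper38.TQ.isConst_of_preper_complex hendo hz hpre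
  refine ⟨fun i => algebraMap A ℂ (w i), c', hc', ?_, fun i => ?_⟩
  · rw [hw]
    rfl
  · exact mem_algebraicClosure_iff.1 (w i).2

theorem iter_mod {N d : ℕ} {f : Fin (N + 1) → MvPolynomial (Fin (N + 1)) ℂ}
    (hf : ∀ i, (f i).IsHomogeneous d) {w : Fin (N + 1) → ℂ} {k : ℕ} {c : ℂ}
    (hc : (ev f)^[k] w = c • w) (l : ℕ) :
    ∃ c' : ℂ, (ev f)^[l] w = c' • (ev f)^[l % k] w := by
  obtain ⟨e, he⟩ := ev_iter_mul hf hc (l / k)
  refine ⟨(c ^ e) ^ (d ^ (l % k)), ?_⟩
  conv_lhs => rw [← Nat.mod_add_div l k]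
  rw [Function.iterate_add_apply, he, ev_iter_smul f hf]

/-- **Tower gaps**: endomorphisms over the algebraic numbers, algebraic points, closed sets of
dimension at most one with finitely many degenerate periodic points. -/
theorem sgood_algebraic_per (N d : ℕ) (hd : 2 ≤ d)
    (f : Fin (N + 1) → MvPolynomial (Fin (N + 1)) ℂ) (hf : ∀ i, (f i).IsHomogeneous d)
    (hnz : ∀ x : Fin (N + 1) → ℂ, (∀ i, eval x (f i) = 0) → x = 0)
    (hfalg : ∀ i m, IsAlgebraic ℚ ((f i).coeff m))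
    (a : Fin (N + 1) → ℂ) (ha : a ≠ 0) (haalg : ∀ i, IsAlgebraic ℚ (a i))
    (V : Set (MvPolynomial (Fin (N + 1)) ℂ)) (hV : ∀ g ∈ V, ∃ e : ℕ, g.IsHomogeneous e)
    (hdim : ringKrullDim (MvPolynomial (Fin (N + 1)) ℂ ⧸ Ideal.span V) ≤ 2)
    (hbad : ∃ B : Finset (Fin (N + 1) → ℂ), ∀ z : Fin (N + 1) → ℂ, z ≠ 0 → InZ V z →
      ∀ k, 1 ≤ k → ∀ c : ℂ, (ev f)^[k] z = c • z → ((jprod f z k) ^ 2).rank < N →
        ∃ b ∈ B, ∃ c' : ℂ, z = c' • b) :
    SGood {n | InZ V ((ev f)^[n] a)} := by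
  classical
  refine sgood_of_sparse_parts f hf hnz a ha V hV (fun hnp hdim' W hW hWV hfin => ?_) (Or.inr hdim)
  obtain ⟨B, hB⟩ := hbad
  have hev0 : ∀ x : Fin (N + 1) → ℂ, ev f x = 0 → x = 0 := fun x h => hnz x fun i => congrFun h i
  -- normalised degenerate periodic points
  set Bad : (Fin (N + 1) → ℂ) → Prop := fun z => z ≠ 0 ∧ InZ V z ∧
    ∃ k, 1 ≤ k ∧ (∃ c : ℂ, (ev f)^[k] z = c • z) ∧ ((jprod f z k) ^ 2).rank < N with hBad
  have hnorm : ∀ b : {b : Fin (N + 1) → ℂ // b ∈ B ∧ ∃ z, Bad z ∧ ∃ c' : ℂ, z = c' • b},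
      ∃ (w : Fin (N + 1) → ℂ) (k : ℕ) (c : ℂ), w ≠ 0 ∧ 1 ≤ k ∧ (ev f)^[k] w = c • w ∧
        (∀ i, IsAlgebraic ℚ (w i)) ∧ ∃ c₁ : ℂ, b.1 = c₁ • w := by
    rintro ⟨b, hb, z, ⟨hz, -, k, hk, ⟨c, hc⟩, -⟩, c', hc'⟩
    obtain ⟨w, c₂, hc₂, hzw, hw⟩ := periodic_algebraic hd hf hnz hfalg hz hk hc
    have hw0 : w ≠ 0 := by
      rintro rfl
      apply hz
      rw [hzw, smul_zero]
    have hc'0 : c' ≠ 0 := by
      rintro rfl
      apply hz
      rw [hc', zero_smul]
    refine ⟨w, k, (c₂ ^ (d ^ k))⁻¹ * (c * c₂), hw0, hk, ?_, hw, c'⁻¹ * c₂, ?_⟩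
    · rw [hzw, ev_iter_smul f hf, smul_smul] at hc
      rw [← smul_smul, ← hc, smul_smul, inv_mul_cancel₀ (pow_ne_zero _ hc₂), one_smul]
    · show b = (c'⁻¹ * c₂) • w
      have h5 : b = c'⁻¹ • z := by rw [hc', smul_smul, inv_mul_cancel₀ hc'0, one_smul]
      rw [← smul_smul, ← hzw]
      exact h5
  choose w kk cc hw0 hkk hcc hwalg hbw using hnorm
  -- a number field
  let I : Type := Σ b : {b : Fin (N + 1) → ℂ // b ∈ B ∧ ∃ z, Bad z ∧ ∃ c' : ℂ, z = c' • b},
    Fin (kk b)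
  have hIfin : Finite {b : Fin (N + 1) → ℂ // b ∈ B ∧ ∃ z, Bad z ∧ ∃ c' : ℂ, z = c' • b} :=
    (B.finite_toSet.subset fun b hb => hb.1).to_subtype
  have hI : Finite I := inferInstance
  have : Fintype I := Fintype.ofFinite I
  obtain ⟨K, _, _, _, F, α, hFf, hαa⟩ := exists_model f hfalg
    (Sum.elim a (fun q : I × Fin (N + 1) => (ev f)^[(q.1.2 : ℕ)] (w q.1.1) q.2)) (by
      rintro (i | q)
      · exact haalg i
      · exact algebraic_ev hfalg (hwalg q.1.1) _ _)
  have hinj : Function.Injective (algebraMap K ℂ) := FaithfulSMul.algebraMap_injective K ℂ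
  have hff : (fun i => MvPolynomial.map (algebraMap K ℂ) (F i)) = f := funext hFf
  have hF : ∀ i, (F i).IsHomogeneous d := fun i =>
    MvPolynomial.IsHomogeneous.of_map hinj (by rw [hFf]; exact hf i)
  have haev : ∀ (x : Fin (N + 1) → ℂ) i, aeval x (F i) = eval x (f i) := by
    intro x i
    rw [← hFf i, eval_map, aeval_def]
  set a₀ : Fin (N + 1) → K := fun i => α (Sum.inl i) with ha₀
  have ha₀a : ∀ i, algebraMap K ℂ (a₀ i) = a i := fun i => hαa (Sum.inl i)
  have hiter : ∀ n, (ev f)^[n] a = fun i => algebraMap K ℂ (iter F a₀ n i) := by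
    intro n
    induction n with
    | zero =>
      funext i
      exact (ha₀a i).symm
    | succ n ih =>
      rw [Function.iterate_succ_apply', ih]
      funext i
      rw [iter_succ]
      show eval _ (f i) = _
      rw [← haev]
      exact aeval_algebraMap_apply (A := K) (B := ℂ) (iter F a₀ n) (F i)
  have hα : a₀ ≠ 0 := by
    intro h
    apply ha
    funext i
    rw [← ha₀a i, h, Pi.zero_apply, map_zero, Pi.zero_apply]
  set yy : I → Fin (N + 1) → K := fun q i => α (Sum.inr (q, i)) with hyy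
  have hyya : ∀ q, (fun i => algebraMap K ℂ (yy q i)) = (ev f)^[(q.2 : ℕ)] (w q.1) := by
    intro q
    funext i
    exact hαa (Sum.inr (q, i))
  have hw0' : ∀ b n, (ev f)^[n] (w b) ≠ 0 := by
    intro b n
    induction n with
    | zero => exact hw0 b
    | succ n ih =>
      rw [Function.iterate_succ_apply']
      exact fun h => ih (hev0 _ h)
  have hx0 : ∀ n, (ev f)^[n] a ≠ 0 := by
    intro n
    induction n with
    | zero => exact ha
    | succ n ih =>
      rw [Function.iterate_succ_apply']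
      exact fun h => ih (hev0 _ h)
  -- the orbit of `a` does not meet the periodic points
  have hZx : ∀ n, ∀ y ∈ Finset.univ.image yy, cr (iter F a₀ n) y ≠ 0 := by
    intro n y hy h
    obtain ⟨q, -, rfl⟩ := Finset.mem_image.1 hy
    have hyq0 : yy q ≠ 0 := by
      intro h0
      apply hw0' q.1 q.2
      rw [← hyya q, h0]
      funext i
      simp
    have hxn0 : iter F a₀ n ≠ 0 := by
      intro h0
      apply hx0 n
      rw [hiter, h0]
      funext i
      simp
    obtain ⟨c, hc, hcy⟩ := pEq_of_cr hxn0 hyq0 h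
    -- over the complex numbers
    have h1 : (ev f)^[(q.2 : ℕ)] (w q.1) = algebraMap K ℂ c • (ev f)^[n] a := by
      rw [← hyya q, hcy, hiter]
      funext i
      simp
    have hc0 : algebraMap K ℂ c ≠ 0 := (map_ne_zero _).2 hc
    have h2 : (ev f)^[kk q.1] ((ev f)^[(q.2 : ℕ)] (w q.1))
        = (cc q.1) ^ (d ^ (q.2 : ℕ)) • (ev f)^[(q.2 : ℕ)] (w q.1) := by
      rw [← Function.iterate_add_apply, Nat.add_comm (kk q.1), Function.iterate_add_apply, hcc,
        ev_iter_smul f hf]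
    rw [h1, ev_iter_smul f hf, ← Function.iterate_add_apply] at h2
    apply hnp n (kk q.1) (hkk q.1) (((algebraMap K ℂ c) ^ (d ^ kk q.1))⁻¹ *
      ((cc q.1) ^ (d ^ (q.2 : ℕ)) * algebraMap K ℂ c))
    rw [add_comm n, ← smul_smul, ← smul_smul, ← h2, smul_smul,
      inv_mul_cancel₀ (pow_ne_zero _ hc0), one_smul]
  have hres := sparse_one_per hd F hF (fun x hx => hnz x fun i => by rw [← haev]; exact hx i) a₀ hα
    (fun n m hnm h => ?_) (Finset.univ.image yy) hZx V hV hdim' ?_ W hW hWV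
    (by rw [hff]; exact hfin)
  · refine hres.mono fun n hn => ?_
    show InZ W _
    rw [← hiter]
    exact hn
  · obtain ⟨c, hc, h1⟩ := h
    apply hnp n (m - n) (by omega) (algebraMap K ℂ c)
    rw [show n + (m - n) = m by omega, hiter, hiter]
    funext i
    have h2 := congrFun h1 i
    simp only [Pi.smul_apply, smul_eq_mul] at h2 ⊢
    rw [h2, map_mul]
  · rw [hff]
    intro z hz hzV k hk c hc
    by_cases hr : ((jprod f z k) ^ 2).rank < N
    · right
      intro l
      obtain ⟨b, hb, c', hc'⟩ := hB z hz hzV k hk c hc hr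
      set b' : {b : Fin (N + 1) → ℂ // b ∈ B ∧ ∃ z, Bad z ∧ ∃ c' : ℂ, z = c' • b} :=
        ⟨b, hb, z, ⟨hz, hzV, k, hk, ⟨c, hc⟩, hr⟩, c', hc'⟩ with hb'
      obtain ⟨c₁, hc₁⟩ := hbw b'
      have hc₁' : b = c₁ • w b' := hc₁
      obtain ⟨c₂, hc₂⟩ := iter_mod hf (hcc b') l
      have hlt : l % kk b' < kk b' := Nat.mod_lt _ (by have := hkk b'; omega)
      refine ⟨yy ⟨b', ⟨l % kk b', hlt⟩⟩, Finset.mem_coe.2 (Finset.mem_image_of_mem _
        (Finset.mem_univ _)), (c' * c₁) ^ (d ^ l) * c₂, ?_⟩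
      rw [hyya, hc', hc₁', smul_smul, ev_iter_smul f hf, hc₂, smul_smul]
    · left
      omega

end Pool.Agent.Helper88.TGP

end
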