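import Pool.Agent.Helper29.MG2.T31
import Pool.Agent.Helper29.MG2.T48
import Pool.Agent.Helper29.MG2.T50

section

namespace Pool.Agent.Helper33.SS
end Pool.Agent.Helper33.SS
namespace Pool.Agent.Helper36
end Pool.Agent.Helper36
namespace Pool.Agent.Helper38.TQ
end Pool.Agent.Helper38.TQ
namespace Pool.Agent.Helper45.NZ
end Pool.Agent.Helper45.NZ
namespace Pool.Agent.Helper63.TN
end Pool.Agent.Helper63.TN

/-!
# Curves over the algebraic numbers: the frame
-/

set_option autoImplicit false

namespace Pool.Agent.Helper88.NF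

open MvPolynomial
open Pool.Agent.Helper33.SS (Sparse InZ ev SGood inZ_smul jprod)
open Pool.Agent.Helper36 (iter iter_succ iter_add step APSet_of_evClosed mapLin eval_mapLin mapLin_isHomogeneous eval_eq_zero_iff_mapLin)
open Pool.Agent.Helper38.TQ
open Pool.Agent.Helper63.TN (OnI IsCurve NonPer IsPer van pull van_form van_curve van_on aeval_pull)
open Pool.Agent.Helper45.NZ (ManyPerA caseA sgood_of_ultra)

variable {N : ℕ} {A : Type} [Field A]

/-- Representatives of a property of points, if there are only finitely many points with this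
property. -/
theorem exists_reps (P : (Fin (N + 1) → A) → Prop)
    (h : ¬ ∀ s : ℕ, ∃ w : Fin s → Fin (N + 1) → A, (∀ j, P (w j)) ∧
      ∀ i j, i ≠ j → ¬ PEq (w i) (w j)) :
    ∃ B : Finset (Fin (N + 1) → A), ∀ w, P w → ∃ b ∈ B, PEq b w := by
  classical
  by_contra hcon
  push Not at hcon
  apply h
  intro s
  induction s with
  | zero => exact ⟨Fin.elim0, fun j => j.elim0, fun i => i.elim0⟩
  | succ s ih =>
    obtain ⟨w, hw, hne⟩ := ih
    obtain ⟨p, hp, hp'⟩ := hcon (Finset.univ.image w)
    have hpw : ∀ j, ¬ PEq (w j) p := fun j =>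
      hp' _ (Finset.mem_image_of_mem _ (Finset.mem_univ j))
    refine ⟨Fin.snoc (α := fun _ => Fin (N + 1) → A) w p, fun j => ?_, fun i j hij => ?_⟩
    · induction j using Fin.lastCases with
      | last => rw [Fin.snoc_last]; exact hp
      | cast j => rw [Fin.snoc_castSucc]; exact hw j
    · induction i using Fin.lastCases with
      | last =>
        induction j using Fin.lastCases with
        | last => exact absurd rfl hij
        | cast j =>
          rw [Fin.snoc_last, Fin.snoc_castSucc]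
          exact fun h => hpw j h.symm
      | cast i =>
        induction j using Fin.lastCases with
        | last =>
          rw [Fin.snoc_last, Fin.snoc_castSucc]
          exact hpw i
        | cast j =>
          rw [Fin.snoc_castSucc, Fin.snoc_castSucc]
          exact hne i j fun h => hij (by rw [h])

/-- A point is on the curve if all forms of the ideal vanish. -/
theorem on_of_forms {I : Ideal (MvPolynomial (Fin (N + 1)) A)} (hI : IsCurve I) {L : Type}
    [Field L] [Algebra A L] {u : Fin (N + 1) → L} (hu : u ≠ 0)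
    (h : ∀ G ∈ I, ∀ e, G.IsHomogeneous e → aeval u G = 0) : OnI I u := by
  refine ⟨hu, fun G hG => ?_⟩
  rw [← sum_homogeneousComponent G, map_sum]
  exact Finset.sum_eq_zero fun m _ =>
    h _ (hI.hom G hG m) m (homogeneousComponent_isHomogeneous m G)

theorem on_add [IsAlgClosed A] {d : ℕ} {F : Fin (N + 1) → MvPolynomial (Fin (N + 1)) A}
    (hF : IsEndo d F) {I : Ideal (MvPolynomial (Fin (N + 1)) A)} (hI : IsCurve I) {M : ℕ}
    (hM : ∀ h ∈ I, ∀ e, h.IsHomogeneous e → pull F M h ∈ I) {x : Fin (N + 1) → A} {n : ℕ}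
    (hx : x ≠ 0) (hn : OnI I (iter F x n)) : OnI I (iter F x (n + M)) := by
  refine on_of_forms hI (iter_ne_zero hF hx _) fun G hG e he => ?_
  have h1 := hn.2 _ (hM G hG e he)
  rw [aeval_pull, ← iter_add, Nat.add_comm M n] at h1
  exact h1

section

variable [Algebra A ℂ]

/-- The closed set swept out by a subsequence is contained in the given closed set. -/
theorem on_sub [Infinite A] {U : Ultrafilter ℕ} {x : ℕ → Fin (N + 1) → A}
    {V : Set (MvPolynomial (Fin (N + 1)) ℂ)} (hV : ∀ g ∈ V, ∃ e : ℕ, g.IsHomogeneous e)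
    (hU : ∀ᶠ n in (U : Filter ℕ), InZ V fun i => algebraMap A ℂ (x n i)) {n : ℕ}
    (hn : OnI (van U x) (x n)) : InZ V fun i => algebraMap A ℂ (x n i) := by
  intro g hg
  rw [eval_eq_zero_iff_mapLin (K := A)]
  intro ρ
  obtain ⟨e, he⟩ := hV g hg
  have h1 : mapLin ρ g ∈ van U x := by
    rw [van_form (mapLin_isHomogeneous ρ he)]
    filter_upwards [hU] with m hm
    exact (eval_eq_zero_iff_mapLin g (x m)).1 (hm g hg) ρ
  exact hn.2 _ h1

theorem endo_descend {d : ℕ} {F : Fin (N + 1) → MvPolynomial (Fin (N + 1)) A}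
    (hF : IsEndo d fun i => map (algebraMap A ℂ) (F i)) : IsEndo d F := by
  have hinj : Function.Injective (algebraMap A ℂ) := (algebraMap A ℂ).injective
  refine ⟨hF.two_le, fun i => IsHomogeneous.of_map hinj (hF.hom i), fun x hx => ?_⟩
  have h1 : (fun i => algebraMap A ℂ (x i)) = 0 := by
    apply hF.nz
    intro i
    rw [eval_map_k]
    have h2 : aeval (fun i => algebraMap A ℂ (x i)) (F i) =
      algebraMap A ℂ (aeval x (F i)) := aeval_algebraMap_apply (A := A) (B := ℂ) x (F i)
    rw [h2, aeval_eq_eval]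
    have h3 : eval x (F i) = 0 := hx i
    rw [h3, map_zero]
  funext i
  apply hinj
  have := congrFun h1 i
  simpa using this

theorem iter_ev (F : Fin (N + 1) → MvPolynomial (Fin (N + 1)) A) (z : Fin (N + 1) → ℂ) (n : ℕ) :
    (ev fun i => map (algebraMap A ℂ) (F i))^[n] z = iter F z n := by
  induction n with
  | zero => rfl
  | succ n ih =>
    rw [iter_succ, Function.iterate_succ_apply', ih]
    funext i
    exact eval_map_k _ _

theorem iter_alg (F : Fin (N + 1) → MvPolynomial (Fin (N + 1)) A) (x : Fin (N + 1) → A) (n : ℕ) :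
    (ev fun i => map (algebraMap A ℂ) (F i))^[n] (fun i => algebraMap A ℂ (x i)) =
      fun i => algebraMap A ℂ (iter F x n i) := by
  rw [iter_ev]
  exact Pool.Agent.Helper36.iter_map F (Algebra.ofId A ℂ) x n

/-- Representatives of the periodic points on the curve over `ℂ`. -/
theorem exists_bad [IsAlgClosed A] {d : ℕ} {F : Fin (N + 1) → MvPolynomial (Fin (N + 1)) A}
    (hF : IsEndo d fun i => map (algebraMap A ℂ) (F i))
    {I : Ideal (MvPolynomial (Fin (N + 1)) A)} (hI : IsCurve I) (hfew : ¬ ManyPerA I F) :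
    ∃ B : Finset (Fin (N + 1) → ℂ), ∀ z : Fin (N + 1) → ℂ, z ≠ 0 →
      (∀ G ∈ I, ∀ e, G.IsHomogeneous e → aeval z G = 0) →
      ∀ k, 1 ≤ k → ∀ c : ℂ, (ev fun i => map (algebraMap A ℂ) (F i))^[k] z = c • z →
        ∃ b ∈ B, ∃ c' : ℂ, z = c' • b := by
  classical
  have hFA := endo_descend hF
  obtain ⟨B, hB⟩ := exists_reps (fun w => OnI I w ∧ IsPer F w) hfew
  refine ⟨B.image fun b i => algebraMap A ℂ (b i), fun z hz hzI k hk c hc => ?_⟩
  rw [iter_ev] at hc
  have hc0 : c ≠ 0 := by
    rintro rfl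
    exact iter_ne_zero hFA hz k (by rw [hc, zero_smul])
  obtain ⟨w, c₁, hc₁, hw⟩ := isConst_of_preper_complex hFA hz
    ⟨0, k, by omega, c, hc0, hc⟩
  have hw' : z = c₁ • fun i => algebraMap A ℂ (w i) := hw
  have hw0 : w ≠ 0 := by
    rintro rfl
    apply hz
    rw [hw]
    funext i
    simp
  have hwA : (fun i => algebraMap A ℂ (w i)) ≠ 0 := by
    intro h0
    apply hz
    rw [hw', h0, smul_zero]
  have hon : OnI I w := by
    refine on_of_forms hI hw0 fun G hG e he => ?_
    have h1 := hzI G hG e he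
    rw [hw', aeval_smul_hom he] at h1
    have h2 := (mul_eq_zero.1 h1).resolve_left (pow_ne_zero _ hc₁)
    have h3 : aeval (fun i => algebraMap A ℂ (w i)) G = algebraMap A ℂ (aeval w G) :=
      aeval_algebraMap_apply (A := A) (B := ℂ) w G
    rw [h3] at h2
    exact (map_eq_zero _).1 h2
  have hper : IsPer F w := by
    have h1 : PEq (fun i => algebraMap A ℂ (w i)) (fun i => algebraMap A ℂ (iter F w k i)) := by
      have h2 : iter F (fun i => algebraMap A ℂ (w i)) k =
          fun i => algebraMap A ℂ (iter F w k i) :=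
        Pool.Agent.Helper36.iter_map F (Algebra.ofId A ℂ) w k
      rw [← h2]
      have h3 : PEq z (iter F z k) := ⟨c, hc0, hc⟩
      have h4 : PEq (fun i => algebraMap A ℂ (w i)) z := ⟨c₁, hc₁, hw'⟩
      exact (h4.trans h3).trans (PEq.iter hFA h4.symm k)
    obtain ⟨γ, -, hγ⟩ := PEq.descend (algebraMap A ℂ) hw0 (iter_ne_zero hFA hw0 k) h1
    exact ⟨k, by omega, γ, hγ⟩
  obtain ⟨b, hb, γ, hγ, hγw⟩ := hB w ⟨hon, hper⟩
  refine ⟨_, Finset.mem_image_of_mem _ hb, c₁ * algebraMap A ℂ γ, ?_⟩
  rw [hw', ← smul_smul]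
  congr 1
  funext i
  rw [hγw]
  simp

/-- The case of few periodic points. -/
theorem sgood_few [IsAlgClosed A] {d : ℕ} {F : Fin (N + 1) → MvPolynomial (Fin (N + 1)) A}
    (hF : IsEndo d fun i => map (algebraMap A ℂ) (F i))
    (hAalg : ∀ x : A, IsAlgebraic ℚ (algebraMap A ℂ x))
    {I : Ideal (MvPolynomial (Fin (N + 1)) A)} (hI : IsCurve I) (hfew : ¬ ManyPerA I F)
    {a : Fin (N + 1) → A} (ha : a ≠ 0) (V : Set (MvPolynomial (Fin (N + 1)) ℂ))
    (hV : ∀ g ∈ V, ∃ e : ℕ, g.IsHomogeneous e)
    (hdim : ringKrullDim (MvPolynomial (Fin (N + 1)) ℂ ⧸ Ideal.span V) ≤ 2)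
    (hsub : ∀ n, OnI I (iter F a n) → InZ V fun i => algebraMap A ℂ (iter F a n i)) :
    SGood {n | OnI I (iter F a n)} := by
  classical
  have hFA := endo_descend hF
  set V' : Set (MvPolynomial (Fin (N + 1)) ℂ) :=
    V ∪ {g | ∃ G ∈ I, (∃ e : ℕ, G.IsHomogeneous e) ∧ g = map (algebraMap A ℂ) G} with hV'
  have hVI : ∀ z : Fin (N + 1) → ℂ, InZ V' z →
      ∀ G ∈ I, ∀ e, G.IsHomogeneous e → aeval z G = 0 := by
    intro z hz G hG e he
    have h1 := hz (map (algebraMap A ℂ) G) (Or.inr ⟨G, hG, ⟨e, he⟩, rfl⟩)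
    rwa [eval_map_k] at h1
  obtain ⟨B, hB⟩ := exists_bad hF hI hfew
  have ha' : (fun i => algebraMap A ℂ (a i)) ≠ 0 := by
    intro h0
    apply ha
    funext i
    apply (algebraMap A ℂ).injective
    have := congrFun h0 i
    simpa using this
  have h1 := Pool.Agent.Helper88.TGP.sgood_algebraic_per N d hF.two_le
    (fun i => map (algebraMap A ℂ) (F i)) hF.hom hF.nz
    (fun i m => by rw [coeff_map]; exact hAalg _) (fun i => algebraMap A ℂ (a i)) ha'
    (fun i => hAalg _) V' ?_ ?_ ?_
  · have h2 : {n | InZ V' ((ev fun i => map (algebraMap A ℂ) (F i))^[n]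
        fun i => algebraMap A ℂ (a i))} = {n | OnI I (iter F a n)} := by
      ext n
      simp only [Set.mem_ofPred_eq]
      rw [iter_alg]
      constructor
      · intro h
        refine on_of_forms hI (iter_ne_zero hFA ha n) fun G hG e he => ?_
        have h3 := hVI _ h G hG e he
        have h4 : aeval (fun i => algebraMap A ℂ (iter F a n i)) G =
            algebraMap A ℂ (aeval (iter F a n) G) :=
          aeval_algebraMap_apply (A := A) (B := ℂ) (iter F a n) G
        rw [h4] at h3
        exact (map_eq_zero _).1 h3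
      · rintro h g (hg | ⟨G, hG, -, rfl⟩)
        · exact hsub n h g hg
        · rw [eval_map_k]
          have h4 : aeval (fun i => algebraMap A ℂ (iter F a n i)) G =
              algebraMap A ℂ (aeval (iter F a n) G) :=
            aeval_algebraMap_apply (A := A) (B := ℂ) (iter F a n) G
          rw [h4, h.2 G hG, map_zero]
    rw [← h2]
    exact h1
  · rintro g (hg | ⟨G, -, ⟨e, he⟩, rfl⟩)
    · exact hV g hg
    · exact ⟨e, he.map _⟩
  · exact (ringKrullDim_le_of_surjective
      (Ideal.Quotient.factor (Ideal.span_mono Set.subset_union_left))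
      (Ideal.Quotient.factor_surjective _)).trans hdim
  · exact ⟨B, fun z hz hzV k hk c hc _ => hB z hz (hVI z hzV) k hk c hc⟩

end

/-- Curves over the algebraic numbers. -/
theorem sgood_over [IsAlgClosed A] [CharZero A] [Algebra.IsAlgebraic ℚ A] [Algebra A ℂ] {d : ℕ}
    {F : Fin (N + 1) → MvPolynomial (Fin (N + 1)) A}
    (hF : IsEndo d fun i => map (algebraMap A ℂ) (F i))
    (hAalg : ∀ x : A, IsAlgebraic ℚ (algebraMap A ℂ x))
    {a : Fin (N + 1) → A} (ha : a ≠ 0) (V : Set (MvPolynomial (Fin (N + 1)) ℂ))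
    (hV : ∀ g ∈ V, ∃ e : ℕ, g.IsHomogeneous e)
    (hdim : ringKrullDim (MvPolynomial (Fin (N + 1)) ℂ ⧸ Ideal.span V) ≤ 2)
    (hdist : ∀ n m, n < m → ¬ PEq (iter F a n) (iter F a m)) :
    SGood {n | InZ V fun i => algebraMap A ℂ (iter F a n i)} := by
  classical
  have hFA := endo_descend hF
  have hinf : Infinite A := IsAlgClosed.instInfinite
  refine sgood_of_ultra fun U hU hS => ?_
  have hS' : ∀ᶠ n in (U : Filter ℕ), InZ V fun i => algebraMap A ℂ (iter F a n i) := hS
  have hcur : OnCurve U (iter F a) := curveSet_of_krull hV hdim A (iter F a) U hS'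
  have hI : IsCurve (van U (iter F a)) :=
    van_curve (k := A) (fun n => iter_ne_zero hFA ha n) hcur
  have hon : ∀ᶠ n in (U : Filter ℕ), OnI (van U (iter F a)) (iter F a n) :=
    van_on fun n => iter_ne_zero hFA ha n
  have hsub : ∀ n, OnI (van U (iter F a)) (iter F a n) →
      InZ V fun i => algebraMap A ℂ (iter F a n i) := fun n h => on_sub hV hS' h
  refine ⟨{n | OnI (van U (iter F a)) (iter F a n)}, hon, hsub, ?_⟩
  by_cases hnp : NonPer (van U (iter F a)) F
  · by_cases hmany : ManyPerA (van U (iter F a)) F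
    · exact SGood.of_sparse (Sparse.of_finite (caseA hF hI hnp hmany ha hdist))
    · exact sgood_few hF hAalg hI hmany ha V hV hdim hsub
  · unfold NonPer at hnp
    push Not at hnp
    obtain ⟨M, hM, hM'⟩ := hnp
    refine SGood.of_AP (APSet_of_evClosed hM (Set.finite_empty.subset ?_))
    rintro n ⟨hn1, hn2⟩
    exact hn2 (on_add hFA hI hM' ha hn1)

/-- **Return sets over the algebraic numbers.** Endomorphisms and points of projective space over
the algebraic numbers, closed sets of dimension at most one. -/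
theorem sgood_algebraic_curve (N d : ℕ) (hd : 2 ≤ d)
    (f : Fin (N + 1) → MvPolynomial (Fin (N + 1)) ℂ) (hf : ∀ i, (f i).IsHomogeneous d)
    (hnz : ∀ x : Fin (N + 1) → ℂ, (∀ i, eval x (f i) = 0) → x = 0)
    (hfalg : ∀ i m, IsAlgebraic ℚ ((f i).coeff m))
    (a : Fin (N + 1) → ℂ) (ha : a ≠ 0) (haalg : ∀ i, IsAlgebraic ℚ (a i))
    (V : Set (MvPolynomial (Fin (N + 1)) ℂ)) (hV : ∀ g ∈ V, ∃ e : ℕ, g.IsHomogeneous e)
    (hdim : ringKrullDim (MvPolynomial (Fin (N + 1)) ℂ ⧸ Ideal.span V) ≤ 2) :
    SGood {n | InZ V ((ev f)^[n] a)} := by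
  classical
  by_cases hper : ∃ n k, 1 ≤ k ∧ ∃ c : ℂ, (ev f)^[n + k] a = c • (ev f)^[n] a
  · -- preperiodic points
    have hev0 : ∀ x : Fin (N + 1) → ℂ, ev f x = 0 → x = 0 := fun x h =>
      hnz x fun i => congrFun h i
    have horb0 : ∀ n, (ev f)^[n] a ≠ 0 := by
      intro n
      induction n with
      | zero => exact ha
      | succ n ih =>
        rw [Function.iterate_succ_apply']
        exact fun h => ih (hev0 _ h)
    obtain ⟨n₀, k, hk, c, hc⟩ := hper
    refine SGood.of_AP (APSet_of_evClosed hk ((Set.finite_Iio n₀).subset ?_))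
    rintro n ⟨hn1, hn2⟩
    by_contra hlt
    apply hn2
    have hle : n₀ ≤ n := not_lt.1 hlt
    obtain ⟨m, rfl⟩ := Nat.exists_eq_add_of_le hle
    have h1 : (ev f)^[n₀ + m + k] a = c ^ (d ^ m) • (ev f)^[n₀ + m] a := by
      rw [show n₀ + m + k = m + (n₀ + k) by ring, Function.iterate_add_apply, hc,
        Pool.Agent.Helper33.SS.evc_smul hf, ← Function.iterate_add_apply, add_comm m n₀]
    have hc0 : c ≠ 0 := by
      rintro rfl
      exact horb0 (n₀ + k) (by rw [hc, zero_smul])
    show InZ V ((ev f)^[n₀ + m + k] a)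
    rw [h1, inZ_smul hV (pow_ne_zero _ hc0)]
    exact hn1
  · push Not at hper
    let A : Type := algebraicClosure ℚ ℂ
    have hAcl : IsAlgClosed A :=
      (IsAlgClosed.algebraicClosure_eq_bot_iff (algebraicClosure ℚ ℂ) ℂ).1
        (algebraicClosure.algebraicClosure_eq_bot ℚ ℂ)
    have hinj : Function.Injective (algebraMap A ℂ) := (algebraMap A ℂ).injective
    have hAalg : ∀ x : A, IsAlgebraic ℚ (algebraMap A ℂ x) := fun x =>
      mem_algebraicClosure_iff.1 x.2
    have hch : CharZero A := charZero_of_injective_algebraMap (R := ℚ) (A := A)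
      (algebraMap ℚ A).injective
    have hal : Algebra.IsAlgebraic ℚ A := by
      have h1 : @Algebra.IsAlgebraic ℚ A _ _ (algebraicClosure ℚ ℂ).algebra' :=
        algebraicClosure.isAlgebraic ℚ ℂ
      have h0 : (algebraicClosure ℚ ℂ).algebra' = (DivisionRing.toRatAlgebra : Algebra ℚ A) :=
        Subsingleton.elim _ _
      rw [h0] at h1
      exact h1
    have hlift : ∀ i, ∃ F : MvPolynomial (Fin (N + 1)) A,
        MvPolynomial.map (algebraMap A ℂ) F = f i := by
      intro i
      refine ⟨∑ m ∈ (f i).support, MvPolynomial.monomial m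
        (⟨(f i).coeff m, mem_algebraicClosure_iff.2 (hfalg i m)⟩ : A), ?_⟩
      rw [map_sum]
      conv_rhs => rw [(f i).as_sum]
      refine Finset.sum_congr rfl fun m _ => ?_
      rw [MvPolynomial.map_monomial]
      rfl
    choose F hFf using hlift
    have hff : (fun i => map (algebraMap A ℂ) (F i)) = f := funext hFf
    set a₀ : Fin (N + 1) → A := fun i => ⟨a i, mem_algebraicClosure_iff.2 (haalg i)⟩ with ha₀
    have ha₀a : (fun i => algebraMap A ℂ (a₀ i)) = a := rfl
    have hit : ∀ n, (ev f)^[n] a = fun i => algebraMap A ℂ (iter F a₀ n i) := by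
      intro n
      have h1 := iter_alg F a₀ n
      rw [hff, ha₀a] at h1
      exact h1
    have ha₀0 : a₀ ≠ 0 := by
      intro h
      apply ha
      rw [← ha₀a, h]
      funext i
      simp
    have hF : IsEndo d fun i => map (algebraMap A ℂ) (F i) := by
      rw [hff]
      exact ⟨hd, hf, hnz⟩
    have h1 := sgood_over hF hAalg ha₀0 V hV hdim (fun n m hnm h => by
      obtain ⟨c, hc, h1⟩ := h
      apply hper n (m - n) (by omega) (algebraMap A ℂ c)
      rw [show n + (m - n) = m by omega, hit, hit, h1]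
      funext i
      simp)
    have h2 : {n | InZ V ((ev f)^[n] a)} =
        {n | InZ V fun i => algebraMap A ℂ (iter F a₀ n i)} := by
      ext n
      simp only [Set.mem_ofPred_eq]
      rw [hit]
    rw [h2]
    exact h1

end Pool.Agent.Helper88.NF

end
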