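import Pool.Agent.Helper29.MG2.T21
import Pool.Agent.Helper29.MG2.T17
import Pool.Agent.Helper29.MG2.T08
import Pool.Agent.Helper29.MG2.T23
import Pool.Agent.Helper29.MG2.T07
import Pool.Agent.Helper29.MG2.T20
import Pool.Agent.Helper29.MG2.T40
import Pool.Agent.Helper29.MG2.T19
import Pool.Agent.Helper29.MG2.T13
import Pool.Agent.Helper29.MG2.T22
import Pool.Agent.Helper29.MG2.T12
import Pool.Agent.Helper29.MG2.T39
import Pool.Agent.Helper29.MG2.T01
import Pool.Agent.Helper29.MG2.T50

section

namespace Pool.Agent.Helper16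
end Pool.Agent.Helper16
namespace Pool.Agent.Helper30.TKN
end Pool.Agent.Helper30.TKN
namespace Pool.Agent.Helper36
end Pool.Agent.Helper36
namespace Pool.Agent.Helper38.TQ
end Pool.Agent.Helper38.TQ

/-!
# Orbits of bounded height over a function field: reduction to specialisations
-/

set_option autoImplicit false

namespace Pool.Agent.Helper30.RED

open MvPolynomial
open Pool.Agent.Helper16 (Place IsFunctionField)
open Pool.Agent.Helper36 (step iter iter_zero iter_succ iter_succ' iter_add iter_map)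
open Pool.Agent.Helper38.TQ
open Pool.Agent.Helper30.TKN

variable {ν : ℕ} {k K : Type} [Field k] [IsAlgClosed k] [Field K] [Algebra k K]

/-- A function field has infinitely many places. -/
theorem infinite_places (hK : IsFunctionField k K) : Infinite (Place k K) := by
  obtain ⟨t, ht⟩ : ∃ t : K, Transcendental k t := by
    have h1 : Algebra.trdeg k K ≠ 0 := by rw [hK.2]; exact one_ne_zero
    rw [trdeg_ne_zero_iff] at h1
    exact h1.transcendental
  have h1 : ∀ c : k, ∃ b : Place k K, b.val (t - algebraMap k K c) < 1 := by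
    intro c
    have h2 : Transcendental k (t - algebraMap k K c) := by
      intro h
      apply ht
      have h3 := h.add (isAlgebraic_algebraMap (R := k) (A := K) c)
      rwa [sub_add_cancel] at h3
    obtain ⟨S, hS, hsum, hpos⟩ := hK.zeros _ h2
    have hne : S.Nonempty := by
      rw [Finset.nonempty_iff_ne_empty]
      rintro rfl
      rw [Finset.sum_empty] at hsum
      omega
    obtain ⟨b, hb⟩ := hne
    exact ⟨b, (hS b).1 hb⟩
  choose b hb using h1
  have hinj : Function.Injective b := by
    intro c c' hcc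
    by_contra hne
    have h3 := hb c'
    rw [← hcc] at h3
    have h4 : (b c).val (algebraMap k K (c' - c)) < 1 := by
      have h5 : algebraMap k K (c' - c) = (t - algebraMap k K c) - (t - algebraMap k K c') := by
        rw [map_sub]; ring
      rw [h5]
      exact ((b c).val.map_sub _ _).trans_lt (max_lt (hb c) h3)
    rw [(b c).triv _ (sub_ne_zero.2 (Ne.symm hne))] at h4
    exact lt_irrefl _ h4
  haveI : Infinite k := IsAlgClosed.instInfinite
  exact Infinite.of_injective b hinj

/-- A nonzero value of a form vanishes at few places. -/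
theorem card_zeros_le (hK : IsFunctionField k K) {g : MvPolynomial (Fin (ν + 1)) K} {e : ℕ}
    (hg : g.IsHomogeneous e) (hg0 : g ≠ 0) {y : Fin (ν + 1) → K} (hy0 : y ≠ 0)
    (hy : eval y g ≠ 0) (T : Finset (Place k K))
    (hT : ∀ b ∈ T, b.val (eval y g) < nrm b y ^ e ∧ WithZero.log (gs b g) = 0) :
    (T.card : ℤ) ≤ e * ht k y + ∑ᶠ b : Place k K, WithZero.log (gs b g) := by
  classical
  have h1 := nrm_support hK y hy0
  obtain ⟨h2, h3⟩ := finsum_log hK _ hy
  have h5 := formHeight_support hK hg0
  have h4 : (Function.support fun b : Place k K =>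
      (e : ℤ) * WithZero.log (nrm b y)).Finite := by
    refine h1.subset ?_
    intro b hb h
    apply hb
    have h' : WithZero.log (nrm b y) = 0 := h
    show (e : ℤ) * WithZero.log (nrm b y) = 0
    rw [h', mul_zero]
  have h6 : (Function.support fun b : Place k K =>
      (e : ℤ) * WithZero.log (nrm b y) + WithZero.log (gs b g)).Finite :=
    (h4.union h5).subset (Function.support_add _ _)
  have h7 : (Function.support fun b : Place k K =>
      (e : ℤ) * WithZero.log (nrm b y) + WithZero.log (gs b g) -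
        WithZero.log (b.val (eval y g))).Finite :=
    (h6.union h2).subset (Function.support_sub _ _)
  have hsum : ∑ᶠ b : Place k K, ((e : ℤ) * WithZero.log (nrm b y) + WithZero.log (gs b g) -
      WithZero.log (b.val (eval y g))) = e * ht k y +
        ∑ᶠ b : Place k K, WithZero.log (gs b g) := by
    unfold ht
    rw [finsum_sub_distrib h6 h2, h3, sub_zero, finsum_add_distrib h4 h5, mul_finsum]
  have hnn : ∀ b : Place k K, 0 ≤ (e : ℤ) * WithZero.log (nrm b y) + WithZero.log (gs b g) -
      WithZero.log (b.val (eval y g)) := by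
    intro b
    have h0 : b.val (eval y g) ≠ 0 := (map_ne_zero b.val).2 hy
    have h1 := low_val_eval_le b hg y
    have h3 : gs b g * nrm b y ^ e ≠ 0 := by
      intro h
      rw [h, le_zero_iff] at h1
      exact h0 h1
    have h2 := (WithZero.log_le_log h0 h3).2 h1
    rw [WithZero.log_mul (left_ne_zero_of_mul h3) (right_ne_zero_of_mul h3), WithZero.log_pow,
      nsmul_eq_mul] at h2
    linarith
  have hone : ∀ b ∈ T, 1 ≤ (e : ℤ) * WithZero.log (nrm b y) + WithZero.log (gs b g) -
      WithZero.log (b.val (eval y g)) := by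
    intro b hb
    obtain ⟨hb1, hb2⟩ := hT b hb
    have h0 : b.val (eval y g) ≠ 0 := (map_ne_zero b.val).2 hy
    have hn : nrm b y ≠ 0 := nrm_ne_zero hy0
    have h3 := (WithZero.log_lt_log h0 (pow_ne_zero e hn)).2 hb1
    rw [WithZero.log_pow, nsmul_eq_mul] at h3
    rw [hb2]
    omega
  rw [← hsum, finsum_eq_sum_of_support_subset (s := h7.toFinset ∪ T) _ (by
    rw [Finset.coe_union, Set.Finite.coe_toFinset]
    exact Set.subset_union_left)]
  calc (T.card : ℤ) = ∑ b ∈ T, (1 : ℤ) := by simp
    _ ≤ ∑ b ∈ T, ((e : ℤ) * WithZero.log (nrm b y) + WithZero.log (gs b g) -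
          WithZero.log (b.val (eval y g))) := Finset.sum_le_sum hone
    _ ≤ _ := Finset.sum_le_sum_of_subset_of_nonneg Finset.subset_union_right
        fun b _ _ => hnn b

/-- The reduction of the value vanishes exactly if the value is small. -/
theorem red_eval_iff {b : Place k K} {g : MvPolynomial (Fin (ν + 1)) K} {e : ℕ}
    (hg : g.IsHomogeneous e) {γ : MvPolynomial (Fin (ν + 1)) k} (hγ : RedP b g γ)
    {y : Fin (ν + 1) → K} {w : Fin (ν + 1) → k} (hy : Red b y w) :
    eval w γ = 0 ↔ b.val (eval y g) < nrm b y ^ e := by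
  obtain ⟨hw, c, hc, h1⟩ := hy
  have hy0 : y ≠ 0 := by
    rintro rfl
    apply hw
    funext i
    by_contra h
    have h2 := h1 i
    rw [Pi.zero_apply, mul_zero, zero_sub, Valuation.map_neg, b.triv _ h] at h2
    exact lt_irrefl _ h2
  have hn : nrm b (c • y) = 1 := nrm_red hw h1
  have h2 := hγ.eval (u := c • y) (z := w) h1
  rw [eval_smul_hom hg] at h2
  have hc' : b.val c ≠ 0 := (map_ne_zero b.val).2 hc
  have hn' : b.val c * nrm b y = 1 := by rw [← nrm_smul, hn]
  have hny : nrm b y = (b.val c)⁻¹ := eq_inv_of_mul_eq_one_right hn'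
  have hiff : b.val (eval y g) < nrm b y ^ e ↔ b.val (c ^ e * eval y g) < 1 := by
    rw [hny, map_mul, map_pow, inv_pow, mul_comm, ← lt_mul_inv_iff₀ (zero_lt_iff.2
      (pow_ne_zero e hc')), one_mul]
  rw [hiff]
  constructor
  · intro h
    rwa [h, map_zero, sub_zero] at h2
  · intro h
    by_contra hne
    have h3 : b.val (algebraMap k K (eval w γ)) < 1 := by
      have h4 : algebraMap k K (eval w γ) = c ^ e * eval y g -
          (c ^ e * eval y g - algebraMap k K (eval w γ)) := by ring
      rw [h4]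
      exact (b.val.map_sub _ _).trans_lt (max_lt h h2)
    rw [b.triv _ hne] at h3
    exact lt_irrefl _ h3

/-- If the heights of the points of an orbit are bounded, then the return set to a hypersurface is
a finite intersection of return sets of specialisations. -/
theorem exists_specialisations [Algebra K ℂ] (hK : IsFunctionField k K) {d : ℕ}
    {F : Fin (ν + 1) → MvPolynomial (Fin (ν + 1)) K}
    (hF : IsEndo d fun i => map (algebraMap K ℂ) (F i)) {x : Fin (ν + 1) → K} (hx : x ≠ 0)
    (B : ℤ) (hB : ∀ n, ht k (iter F x n) ≤ B) {g : MvPolynomial (Fin (ν + 1)) K} {e : ℕ}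
    (hg : g.IsHomogeneous e) (hg0 : g ≠ 0) (A : Set (Place k K)) (hA : A.Finite) :
    ∃ (r : ℕ) (b : Fin r → Place k K) (f : Fin r → Fin (ν + 1) → MvPolynomial (Fin (ν + 1)) k)
      (z : Fin r → Fin (ν + 1) → k) (γ : Fin r → MvPolynomial (Fin (ν + 1)) k),
      (∀ s, b s ∉ A ∧ GoodRed d (b s) F (f s) ∧ Red (b s) x (z s) ∧ RedP (b s) g (γ s) ∧
        (γ s).IsHomogeneous e) ∧
      ∀ n, eval (iter F x n) g = 0 ↔ ∀ s, eval (iter (f s) (z s) n) (γ s) = 0 := by
  classical
  have hhom : ∀ i, (F i).IsHomogeneous d := by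
    intro i m hm
    refine hF.hom i ?_
    rw [coeff_map]
    simpa using hm
  haveI := infinite_places hK
  set H : ℤ := ∑ᶠ b : Place k K, WithZero.log (gs b g) with hH
  set bad : Set (Place k K) := A ∪ {b | ¬ Good d b F} ∪
    {b | WithZero.log (gs b g) ≠ 0} with hbad
  have hbadfin : bad.Finite := (hA.union (good_finite hK hF)).union (formHeight_support hK hg0)
  have hinf : (badᶜ).Infinite := hbadfin.infinite_compl
  set r : ℕ := (e * B + H).toNat + 1 with hr
  obtain ⟨T, hT, hTc⟩ := hinf.exists_subset_card_eq r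
  let ι := T.equivFin
  have hTr : T.card = r := hTc
  let b : Fin r → Place k K := fun s => ((T.equivFinOfCardEq hTr).symm s : Place k K)
  have hbT : ∀ s, b s ∈ T := fun s => ((T.equivFinOfCardEq hTr).symm s).2
  have hbinj : Function.Injective b := by
    intro s s' h
    exact (T.equivFinOfCardEq hTr).symm.injective (Subtype.ext h)
  have hnb : ∀ s, b s ∉ bad := fun s => hT (hbT s)
  have hgood : ∀ s, Good d (b s) F := by
    intro s
    by_contra h
    exact hnb s (Or.inl (Or.inr h))
  have hlog : ∀ s, WithZero.log (gs (b s) g) = 0 := by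
    intro s
    by_contra h
    exact hnb s (Or.inr h)
  have hint : ∀ s m, (b s).val (g.coeff m) ≤ 1 := by
    intro s m
    have h1 : 0 < gs (b s) g := formHeight_pos hg0
    have h3 : gs (b s) g ≤ 1 := by
      by_contra hcon
      rw [not_le] at hcon
      have h4 := (WithZero.log_lt_log one_ne_zero h1.ne').2 hcon
      rw [WithZero.log_one, hlog s] at h4
      exact lt_irrefl _ h4
    exact (formHeight_le (b s) g m).trans h3
  choose f hf using hgood
  choose z hz using fun s => exists_red hK (b s) x hx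
  choose γ hγ1 hγ2 using fun s => redP_exists hK (b s) hg (hint s)
  refine ⟨r, b, f, z, γ, fun s => ⟨fun h => hnb s (Or.inl (Or.inl h)), hf s, hz s, hγ1 s,
    hγ2 s⟩, fun n => ?_⟩
  have hred : ∀ s, Red (b s) (iter F x n) (iter (f s) (z s) n) := fun s =>
    (hf s).iter hhom (hz s) n
  have hne : iter F x n ≠ 0 := by
    intro h0
    have hr0 : 0 < r := by omega
    obtain ⟨hw, c, hc, h1⟩ := hred ⟨0, hr0⟩
    apply hw
    funext i
    by_contra h
    have h2 := h1 i
    rw [h0, Pi.zero_apply, mul_zero, zero_sub, Valuation.map_neg, (b ⟨0, hr0⟩).triv _ h] at h2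
    exact lt_irrefl _ h2
  constructor
  · intro h0 s
    rw [red_eval_iff hg (hγ1 s) (hred s), h0, map_zero]
    exact zero_lt_iff.2 (pow_ne_zero e (nrm_ne_zero hne))
  · intro hall
    by_contra h0
    have h1 := card_zeros_le hK hg hg0 hne h0 T (by
      intro b' hb'
      obtain ⟨s, rfl⟩ : ∃ s, b s = b' := by
        refine ⟨T.equivFinOfCardEq hTr ⟨b', hb'⟩, ?_⟩
        change (((T.equivFinOfCardEq hTr).symm (T.equivFinOfCardEq hTr ⟨b', hb'⟩) : T) :
          Place k K) = b'
        rw [Equiv.symm_apply_apply]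
      exact ⟨(red_eval_iff hg (hγ1 s) (hred s)).1 (hall s), hlog s⟩)
    rw [hTr, ← hH] at h1
    have h2 : (e : ℤ) * ht k (iter F x n) ≤ e * B :=
      mul_le_mul_of_nonneg_left (hB n) (Int.natCast_nonneg e)
    have h3 := Int.self_le_toNat (e * B + H)
    have h4 : (r : ℤ) = ((e * B + H).toNat : ℤ) + 1 := by rw [hr]; push_cast; ring
    omega

end Pool.Agent.Helper30.RED

end

section

namespace Pool.Agent.Helper16
end Pool.Agent.Helper16
namespace Pool.Agent.Helper30.TKN
end Pool.Agent.Helper30.TKN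
namespace Pool.Agent.Helper30.TP
end Pool.Agent.Helper30.TP
namespace Pool.Agent.Helper36
end Pool.Agent.Helper36
namespace Pool.Agent.Helper38.TQ
end Pool.Agent.Helper38.TQ

/-!
# Induction on the transcendence degree
-/

set_option autoImplicit false

namespace Pool.Agent.Helper30.RED

open MvPolynomial
open Pool.Agent.Helper16 (Place IsFunctionField)
open Pool.Agent.Helper36 (step iter iter_zero iter_succ iter_succ' iter_add iter_map)
open Pool.Agent.Helper38.TQ
open Pool.Agent.Helper30.TKN
open Pool.Agent.Helper30.TP (emb_mem_range emb_trdeg_le)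

variable {ν : ℕ}

/-! ### Fields -/

theorem alg_mono {F E : Type} [Field F] [Field E] [Algebra F ℂ] [Algebra E ℂ]
    (h : ∀ a : F, algebraMap F ℂ a ∈ Set.range (algebraMap E ℂ)) {c : ℂ}
    (hc : IsAlgebraic F c) : IsAlgebraic E c := by
  choose φ hφ using h
  let ψ : F →+* E :=
    { toFun := φ
      map_zero' := (algebraMap E ℂ).injective (by rw [hφ, map_zero, map_zero])
      map_one' := (algebraMap E ℂ).injective (by rw [hφ, map_one, map_one])
      map_add' := fun a b => (algebraMap E ℂ).injective (by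
        rw [hφ, map_add, map_add, hφ, hφ])
      map_mul' := fun a b => (algebraMap E ℂ).injective (by
        rw [hφ, map_mul, map_mul, hφ, hφ]) }
  obtain ⟨p, hp0, hp⟩ := hc
  refine ⟨p.map ψ, ?_, ?_⟩
  · intro h0
    exact hp0 ((Polynomial.map_eq_zero ψ).1 h0)
  · rw [Polynomial.aeval_def, Polynomial.eval₂_map]
    have h1 : (algebraMap E ℂ).comp ψ = algebraMap F ℂ := RingHom.ext fun a => hφ a
    rw [h1]
    exact hp

/-- Finitely many numbers which are algebraic over `k(t)` lie in a function field of one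
variable. -/
theorem isFunctionField_adjoin {k : Type} [Field k] [IsAlgClosed k] [Algebra k ℂ] {t : ℂ}
    (ht : t ∉ Set.range (algebraMap k ℂ)) {s : Set ℂ} (hs : s.Finite)
    (hsa : ∀ c ∈ s, IsAlgebraic (IntermediateField.adjoin k {t}) c) :
    IsFunctionField k (IntermediateField.adjoin k (insert t s)) := by
  have htr : Transcendental k t := by
    intro h
    obtain ⟨c, hc⟩ := emb_mem_range h
    exact ht ⟨c, hc⟩
  set K := IntermediateField.adjoin k (insert t s) with hK
  refine ⟨IntermediateField.essFiniteType_iff.2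
    (IntermediateField.fg_adjoin_of_finite (hs.insert t)), ?_⟩
  apply le_antisymm
  · set F₁ := IntermediateField.adjoin k {t} with hF₁
    let A : IntermediateField F₁ ℂ := algebraicClosure F₁ ℂ
    have h1 : Algebra.trdeg k A ≤ 1 := by
      have h2 := trdeg_add_eq k F₁ (A := A)
      have h3 : Algebra.trdeg F₁ A = 0 := trdeg_eq_zero
      rw [h3, add_zero] at h2
      rw [← h2]
      have h4 := emb_trdeg_le (k := k) ({t} : Set ℂ)
      rwa [Cardinal.mk_singleton] at h4
    have hle : K ≤ A.restrictScalars k := by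
      rw [hK, IntermediateField.adjoin_le_iff]
      intro c hc
      change c ∈ A
      rw [mem_algebraicClosure_iff]
      rcases hc with rfl | hc
      · exact isAlgebraic_algebraMap (R := F₁) (A := ℂ)
          (⟨c, IntermediateField.subset_adjoin k {c} rfl⟩ : F₁)
      · exact hsa c hc
    exact (trdeg_le_of_injective (IntermediateField.inclusion hle)
      (IntermediateField.inclusion_injective hle)).trans h1
  · rw [Cardinal.one_le_iff_ne_zero, trdeg_ne_zero_iff]
    refine ⟨⟨⟨t, IntermediateField.subset_adjoin k _ (Set.mem_insert _ _)⟩, ?_⟩⟩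
    intro h
    exact htr (IsAlgebraic.algHom K.val h)

theorem exists_lift {k : Type} [Field k] [Algebra k ℂ] (K : IntermediateField k ℂ)
    {σ : Type} {p : MvPolynomial σ ℂ} (h : ∀ c ∈ p.coeffs, c ∈ K) :
    ∃ P : MvPolynomial σ K, map (algebraMap K ℂ) P = p := by
  have h1 : p ∈ Set.range (map (σ := σ) (algebraMap K ℂ)) := by
    rw [mem_range_map_iff_coeffs_subset]
    intro c hc
    exact ⟨⟨c, h c hc⟩, rfl⟩
  exact h1

/-- The specialisation of an integral polynomial. -/
theorem redP_exists' {k K : Type} [Field k] [IsAlgClosed k] [Field K] [Algebra k K]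
    (hK : IsFunctionField k K) (b : Place k K)
    {P : MvPolynomial (Fin (ν + 1)) K} (h : ∀ m, b.val (P.coeff m) ≤ 1) : ∃ p, RedP b P p := by
  classical
  have h1 : ∀ m, ∃ c : k, b.val (P.coeff m - algebraMap k K c) < 1 ∧
      (P.coeff m = 0 → c = 0) := by
    intro m
    by_cases h0 : P.coeff m = 0
    · exact ⟨0, by simp [h0], fun _ => rfl⟩
    · obtain ⟨c, hc⟩ := exists_residue hK b (P.coeff m) (h m)
      exact ⟨c, hc, fun h => absurd h h0⟩
  choose c hc hc0 using h1
  refine ⟨∑ n ∈ P.support, monomial n (c n), fun m => ?_⟩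
  have h2 : (∑ n ∈ P.support, monomial n (c n)).coeff m = c m := by
    rw [coeff_sum]
    simp only [coeff_monomial]
    rw [Finset.sum_ite_eq']
    split_ifs with h
    · rfl
    · exact (hc0 m (notMem_support_iff.1 h)).symm
  rw [h2]
  exact hc m

/-- The values of the forms at the points of the orbit, over `K` and over `ℂ`. -/
theorem eval_iter_map {K : Type} [Field K] [Algebra K ℂ]
    (F : Fin (ν + 1) → MvPolynomial (Fin (ν + 1)) K) (x : Fin (ν + 1) → K)
    (g : MvPolynomial (Fin (ν + 1)) K) (n : ℕ) :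
    eval (iter (fun i => map (algebraMap K ℂ) (F i)) (fun i => algebraMap K ℂ (x i)) n)
      (map (algebraMap K ℂ) g) = 0 ↔ eval (iter F x n) g = 0 := by
  have h1 : ∀ n, iter (fun i => map (algebraMap K ℂ) (F i)) (fun i => algebraMap K ℂ (x i)) n =
      fun i => algebraMap K ℂ (iter F x n i) := by
    intro n
    induction n with
    | zero => rfl
    | succ n ih =>
      rw [iter_succ, ih, iter_succ]
      funext i
      change eval _ (map (algebraMap K ℂ) (F i)) = algebraMap K ℂ (eval (iter F x n) (F i))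
      exact (Pool.Agent.Helper38.Sym.map_eval_gen (algebraMap K ℂ) _ _).symm
  rw [h1, ← Pool.Agent.Helper38.Sym.map_eval_gen, map_eq_zero_iff _ (algebraMap K ℂ).injective]

/-- Finitely many of the forms define the same closed set. -/
theorem exists_finite_subfamily {σ : Type} [Finite σ] (S : Set (MvPolynomial σ ℂ)) :
    ∃ S₀ : Finset (MvPolynomial σ ℂ), (S₀ : Set (MvPolynomial σ ℂ)) ⊆ S ∧
      ∀ y : σ → ℂ, (∀ g ∈ S₀, eval y g = 0) → ∀ g ∈ S, eval y g = 0 := by
  obtain ⟨S₀, h1, h2⟩ := (Submodule.fg_span_iff_fg_span_finset_subset (R := MvPolynomial σ ℂ) S).1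
    (IsNoetherian.noetherian _)
  refine ⟨S₀, h1, fun y hy g hg => ?_⟩
  have h3 : g ∈ Ideal.span (S₀ : Set (MvPolynomial σ ℂ)) := by
    have h4 : g ∈ Submodule.span (MvPolynomial σ ℂ) S := Submodule.subset_span hg
    rw [h2] at h4
    exact h4
  have h5 : Ideal.span (S₀ : Set (MvPolynomial σ ℂ)) ≤ RingHom.ker (eval y) := by
    rw [Ideal.span_le]
    intro p hp
    exact hy p hp
  exact h5 h3

end Pool.Agent.Helper30.RED

end

section

namespace Pool.Agent.Helper16
end Pool.Agent.Helper16
namespace Pool.Agent.Helper30.TKN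
end Pool.Agent.Helper30.TKN
namespace Pool.Agent.Helper36
end Pool.Agent.Helper36
namespace Pool.Agent.Helper38.TQ
end Pool.Agent.Helper38.TQ

/-!
# Post-critically finite endomorphisms, algebraic form
-/

set_option autoImplicit false

namespace Pool.Agent.Helper38.PC

open MvPolynomial
open Pool.Agent.Helper16 (Place IsFunctionField)
open Pool.Agent.Helper36 (step iter iter_zero iter_succ iter_succ' iter_add iter_map)
open Pool.Agent.Helper38.TQ
open Pool.Agent.Helper30.TKN

variable {ν : ℕ}

/-- The post-critical hypersurface is contained in the hypersurface `g = 0`: `g` divides `g ∘ F`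
with quotient `q`, and the Jacobian determinant divides a power of `q`. -/
structure Data {k : Type} [Field k] (F : Fin (ν + 1) → MvPolynomial (Fin (ν + 1)) k) (e E : ℕ)
    (g q c : MvPolynomial (Fin (ν + 1)) k) : Prop where
  hom : g.IsHomogeneous e
  ne : g ≠ 0
  comp : aeval F g = g * q
  dvd : jf F * c = q ^ E
  homq : ∃ m, q.IsHomogeneous m
  homc : ∃ m, c.IsHomogeneous m

end Pool.Agent.Helper38.PC

end

section

namespace Pool.Agent.Helper16
end Pool.Agent.Helper16
namespace Pool.Agent.Helper30.TKN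
end Pool.Agent.Helper30.TKN
namespace Pool.Agent.Helper36
end Pool.Agent.Helper36
namespace Pool.Agent.Helper38.PC
end Pool.Agent.Helper38.PC
namespace Pool.Agent.Helper38.TQ
end Pool.Agent.Helper38.TQ

/-!
# Specialisation of the algebraic data of a post-critically finite map
-/

set_option autoImplicit false

namespace Pool.Agent.Helper30.RED

open MvPolynomial
open Pool.Agent.Helper16 (Place IsFunctionField)
open Pool.Agent.Helper36 (step iter iter_zero iter_succ iter_succ' iter_add iter_map)
open Pool.Agent.Helper38.TQ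
open Pool.Agent.Helper30.TKN
open Pool.Agent.Helper38.PC (Data)

variable {ν : ℕ} {k K : Type} [Field k] [Field K] [Algebra k K]

/-- Specialisations of homogeneous polynomials are homogeneous. -/
theorem redP_hom {b : Place k K} {P : MvPolynomial (Fin (ν + 1)) K}
    {p : MvPolynomial (Fin (ν + 1)) k} (hP : RedP b P p) {e : ℕ} (he : P.IsHomogeneous e) :
    p.IsHomogeneous e := by
  intro m hm
  refine he ?_
  intro h0
  have h1 := hP m
  rw [h0, zero_sub, Valuation.map_neg, b.triv _ hm] at h1
  exact lt_irrefl _ h1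

theorem hom_of_map {R S : Type} [Field R] [Field S] (φ : R →+* S)
    {P : MvPolynomial (Fin (ν + 1)) R} {n : ℕ} (h : (map φ P).IsHomogeneous n) :
    P.IsHomogeneous n := by
  intro m hm
  apply h
  rw [coeff_map]
  exact (map_ne_zero φ).2 hm

end Pool.Agent.Helper30.RED

end

section

namespace Pool.Agent.Helper16
end Pool.Agent.Helper16
namespace Pool.Agent.Helper30.TKN
end Pool.Agent.Helper30.TKN
namespace Pool.Agent.Helper30.TP
end Pool.Agent.Helper30.TP
namespace Pool.Agent.Helper36
end Pool.Agent.Helper36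
namespace Pool.Agent.Helper38.TQ
end Pool.Agent.Helper38.TQ

/-!
# Induction on the transcendence degree: classes which depend on the point, several forms
-/

set_option autoImplicit false

namespace Pool.Agent.Helper30.RED

open MvPolynomial
open Pool.Agent.Helper16 (Place IsFunctionField)
open Pool.Agent.Helper36 (step iter iter_zero iter_succ iter_succ' iter_add iter_map)
open Pool.Agent.Helper38.TQ
open Pool.Agent.Helper30.TKN
open Pool.Agent.Helper30.TP (emb_mem_range emb_trdeg_le)

variable {ν : ℕ}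

/-- A finite intersection. -/
theorem iInter_closed {R : Set ℕ → Prop} (hRu : R Set.univ)
    (hRi : ∀ S T, R S → R T → R (S ∩ T)) {κ : Type} [Finite κ] (X : κ → Set ℕ)
    (h : ∀ s, R (X s)) : R (⋂ s, X s) := by
  classical
  haveI := Fintype.ofFinite κ
  have h1 : ∀ s : Finset κ, R (⋂ i ∈ s, X i) := by
    intro s
    induction s using Finset.induction_on with
    | empty => simpa using hRu
    | insert a s _ ih =>
      rw [Finset.set_biInter_insert]
      exact hRi _ _ (h a) ih
  have h2 := h1 Finset.univ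
  simpa using h2

/-- Several forms: if the heights of the points of an orbit are bounded, then the return set is a
finite intersection of return sets of specialisations. -/
theorem exists_specialisationsN {k K : Type} [Field k] [IsAlgClosed k] [Field K] [Algebra k K]
    [Algebra K ℂ] (hK : IsFunctionField k K) {d : ℕ}
    {F : Fin (ν + 1) → MvPolynomial (Fin (ν + 1)) K}
    (hF : IsEndo d fun i => map (algebraMap K ℂ) (F i)) {x : Fin (ν + 1) → K} (hx : x ≠ 0)
    (B : ℤ) (hB : ∀ n, ht k (iter F x n) ≤ B) {N r : ℕ} (ι : Fin r → Fin N) (e : Fin r → ℕ)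
    (W : Fin N → MvPolynomial (Fin (ν + 1)) K) (hW : ∀ j, (W (ι j)).IsHomogeneous (e j))
    (A : Set (Place k K)) (hA : A.Finite) :
    ∃ (κ : Type) (_ : Finite κ) (b : κ → Place k K)
      (f : κ → Fin (ν + 1) → MvPolynomial (Fin (ν + 1)) k) (z : κ → Fin (ν + 1) → k)
      (w : κ → Fin N → MvPolynomial (Fin (ν + 1)) k),
      (∀ s, b s ∉ A ∧ GoodRed d (b s) F (f s) ∧ Red (b s) x (z s) ∧
        ∀ j, RedP (b s) (W j) (w s j)) ∧
      ∀ n, (∀ j, eval (iter F x n) (W (ι j)) = 0) ↔
        ∀ s, ∀ j, eval (iter (f s) (z s) n) (w s (ι j)) = 0 := by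
  classical
  have hhom : ∀ i, (F i).IsHomogeneous d := by
    intro i m hm
    refine hF.hom i ?_
    rw [coeff_map]
    simpa using hm
  have hA2 : (⋃ j, {b : Place k K | ¬ ∀ m, b.val ((W j).coeff m) ≤ 1}).Finite :=
    Set.finite_iUnion fun j => Good2_fin hK (W j)
  set A' : Set (Place k K) := A ∪ ⋃ j, {b : Place k K | ¬ ∀ m, b.val ((W j).coeff m) ≤ 1} with hA'
  have hint : ∀ b ∉ A', ∀ j m, b.val ((W j).coeff m) ≤ 1 := by
    intro b hb j
    by_contra hcon
    exact hb (Or.inr (Set.mem_iUnion.2 ⟨j, hcon⟩))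
  have hone : ∀ j : Fin r, ∃ (r : ℕ) (b : Fin r → Place k K)
      (f : Fin r → Fin (ν + 1) → MvPolynomial (Fin (ν + 1)) k)
      (z : Fin r → Fin (ν + 1) → k) (γ : Fin r → MvPolynomial (Fin (ν + 1)) k),
      (∀ s, b s ∉ A' ∧ GoodRed d (b s) F (f s) ∧ Red (b s) x (z s) ∧
        RedP (b s) (W (ι j)) (γ s)) ∧
      ∀ n, (∀ s, eval (iter (f s) (z s) n) (γ s) = 0) → eval (iter F x n) (W (ι j)) = 0 := by
    intro j
    by_cases h0 : W (ι j) = 0
    · refine ⟨0, Fin.elim0, Fin.elim0, Fin.elim0, Fin.elim0, fun s => s.elim0, fun n _ => ?_⟩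
      rw [h0, map_zero]
    · obtain ⟨r, b, f, z, γ, h1, h2⟩ := exists_specialisations hK hF hx B hB (hW j) h0 A'
        (hA.union hA2)
      exact ⟨r, b, f, z, γ, fun s => ⟨(h1 s).1, (h1 s).2.1, (h1 s).2.2.1, (h1 s).2.2.2.1⟩,
        fun n => (h2 n).2⟩
  choose rr b f z γ h1 h2 using hone
  have h3 : ∀ (j : Fin r) (s : Fin (rr j)), ∃ w : Fin N → MvPolynomial (Fin (ν + 1)) k,
      ∀ j', RedP (b j s) (W j') (w j') := by
    intro j s
    choose w hw using fun j' => redP_exists' hK (b j s) (hint _ (h1 j s).1 j')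
    exact ⟨w, hw⟩
  choose w hw using h3
  refine ⟨Σ j : Fin r, Fin (rr j), inferInstance, fun p => b p.1 p.2, fun p => f p.1 p.2,
    fun p => z p.1 p.2, fun p => w p.1 p.2, fun p => ⟨fun h => (h1 p.1 p.2).1 (Or.inl h),
      (h1 p.1 p.2).2.1, (h1 p.1 p.2).2.2.1, hw p.1 p.2⟩, fun n => ⟨fun h p j => ?_, fun h j => ?_⟩⟩
  · have hred : Red (b p.1 p.2) (iter F x n) (iter (f p.1 p.2) (z p.1 p.2) n) :=
      (h1 p.1 p.2).2.1.iter hhom (h1 p.1 p.2).2.2.1 n
    have hne : iter F x n ≠ 0 := by
      intro h0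
      obtain ⟨hw, c, hc, h4⟩ := hred
      apply hw
      funext i
      by_contra h5
      have h6 := h4 i
      rw [h0, Pi.zero_apply, mul_zero, zero_sub, Valuation.map_neg, (b p.1 p.2).triv _ h5] at h6
      exact lt_irrefl _ h6
    rw [red_eval_iff (hW j) (hw p.1 p.2 (ι j)) hred, h j, map_zero]
    exact zero_lt_iff.2 (pow_ne_zero _ (nrm_ne_zero hne))
  · refine h2 j n fun s => ?_
    have h4 : γ j s = w j s (ι j) := RedP.unique (h1 j s).2.2.2 (hw j s (ι j))
    rw [h4]
    exact h ⟨j, s⟩ j

/-- **Induction on the transcendence degree**, for classes which depend on the point. -/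
theorem inductN {d N r : ℕ} (ι : Fin r → Fin N) (e : Fin r → ℕ)
    (Cl : (Fin (ν + 1) → MvPolynomial (Fin (ν + 1)) ℂ) →
      (Fin N → MvPolynomial (Fin (ν + 1)) ℂ) → (Fin (ν + 1) → ℂ) → Prop)
    (R : Set ℕ → Prop) (hRu : R Set.univ) (hRi : ∀ S T, R S → R T → R (S ∩ T))
    (hspec : ∀ (k : Type) [Field k] [IsAlgClosed k] [Algebra k ℂ] (K : IntermediateField k ℂ),
      IsFunctionField k K → ∀ (F : Fin (ν + 1) → MvPolynomial (Fin (ν + 1)) K)
      (W : Fin N → MvPolynomial (Fin (ν + 1)) K) (x : Fin (ν + 1) → K),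
      (IsEndo d fun i => map (algebraMap K ℂ) (F i)) →
      Cl (fun i => map (algebraMap K ℂ) (F i)) (fun j => map (algebraMap K ℂ) (W j))
        (fun i => algebraMap K ℂ (x i)) → x ≠ 0 →
      ∀ B : ℤ, (∀ n, ht k (iter F x n) ≤ B) →
      ∃ A : Set (Place k K), A.Finite ∧ ∀ b ∉ A,
        ∀ (f : Fin (ν + 1) → MvPolynomial (Fin (ν + 1)) k)
        (w : Fin N → MvPolynomial (Fin (ν + 1)) k) (z : Fin (ν + 1) → k), GoodRed d b F f →
          (∀ j, RedP b (W j) (w j)) → Red b x z →
          Cl (fun i => map (algebraMap k ℂ) (f i)) (fun j => map (algebraMap k ℂ) (w j))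
            (fun i => algebraMap k ℂ (z i)))
    (hunb : ∀ (k : Type) [Field k] [IsAlgClosed k] [Algebra k ℂ] (K : IntermediateField k ℂ),
      IsFunctionField k K → ∀ (F : Fin (ν + 1) → MvPolynomial (Fin (ν + 1)) K)
      (W : Fin N → MvPolynomial (Fin (ν + 1)) K) (x : Fin (ν + 1) → K),
      (IsEndo d fun i => map (algebraMap K ℂ) (F i)) →
      Cl (fun i => map (algebraMap K ℂ) (F i)) (fun j => map (algebraMap K ℂ) (W j))
        (fun i => algebraMap K ℂ (x i)) →
      x ≠ 0 → (∀ B : ℤ, ∃ n, B < ht k (iter F x n)) → (∀ j, (W (ι j)).IsHomogeneous (e j)) →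
      R {n | ∀ j, eval (iter F x n) (W (ι j)) = 0})
    (halg : ∀ (f : Fin (ν + 1) → MvPolynomial (Fin (ν + 1)) ℂ)
      (w : Fin N → MvPolynomial (Fin (ν + 1)) ℂ) (a : Fin (ν + 1) → ℂ),
      (∀ i m, IsAlgebraic ℚ ((f i).coeff m)) →
      (∀ j m, IsAlgebraic ℚ ((w j).coeff m)) → (∀ i, IsAlgebraic ℚ (a i)) →
      IsEndo d f → Cl f w a → a ≠ 0 → (∀ j, (w (ι j)).IsHomogeneous (e j)) →
      R {n | ∀ j, eval (iter f a n) (w (ι j)) = 0})
    (f : Fin (ν + 1) → MvPolynomial (Fin (ν + 1)) ℂ)
    (w : Fin N → MvPolynomial (Fin (ν + 1)) ℂ) (a : Fin (ν + 1) → ℂ) (hf : IsEndo d f)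
    (hcl : Cl f w a) (ha : a ≠ 0) (hg : ∀ j, (w (ι j)).IsHomogeneous (e j)) :
    R {n | ∀ j, eval (iter f a n) (w (ι j)) = 0} := by
  classical
  have key : ∀ s : Finset ℂ, ∀ (f : Fin (ν + 1) → MvPolynomial (Fin (ν + 1)) ℂ)
      (w : Fin N → MvPolynomial (Fin (ν + 1)) ℂ) (a : Fin (ν + 1) → ℂ),
      (∀ i m, IsAlgebraic (IntermediateField.adjoin ℚ (s : Set ℂ)) ((f i).coeff m)) →
      (∀ j m, IsAlgebraic (IntermediateField.adjoin ℚ (s : Set ℂ)) ((w j).coeff m)) →
      (∀ i, IsAlgebraic (IntermediateField.adjoin ℚ (s : Set ℂ)) (a i)) →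
      IsEndo d f → Cl f w a → a ≠ 0 → (∀ j, (w (ι j)).IsHomogeneous (e j)) →
      R {n | ∀ j, eval (iter f a n) (w (ι j)) = 0} := by
    intro s
    induction s using Finset.induction_on with
    | empty =>
      intro f w a hf1 hw1 ha1 hf hcl ha hg
      have h1 : ∀ c : ℂ, IsAlgebraic (IntermediateField.adjoin ℚ ((∅ : Finset ℂ) : Set ℂ)) c →
          IsAlgebraic ℚ c := by
        intro c hc
        refine alg_mono ?_ hc
        have h3 : IntermediateField.adjoin ℚ ((∅ : Finset ℂ) : Set ℂ) = ⊥ := by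
          rw [Finset.coe_empty, IntermediateField.adjoin_empty]
        have h4 : ∀ z : ℂ, z ∈ IntermediateField.adjoin ℚ ((∅ : Finset ℂ) : Set ℂ) →
            z ∈ Set.range (algebraMap ℚ ℂ) := by
          intro z hz
          rw [h3] at hz
          exact IntermediateField.mem_bot.1 hz
        exact fun y => h4 _ y.2
      exact halg f w a (fun i m => h1 _ (hf1 i m)) (fun j m => h1 _ (hw1 j m))
        (fun i => h1 _ (ha1 i)) hf hcl ha hg
    | insert t s hts ih =>
      intro f w a hf1 hw1 ha1 hf hcl ha hg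
      set Q₀ := IntermediateField.adjoin ℚ (s : Set ℂ) with hQ₀
      set Q₁ := IntermediateField.adjoin ℚ ((insert t s : Finset ℂ) : Set ℂ) with hQ₁
      let k : IntermediateField Q₀ ℂ := algebraicClosure Q₀ ℂ
      haveI hkcl : IsAlgClosed k := IsAlgClosure.isAlgClosed Q₀
      have hmemk : ∀ c : ℂ, c ∈ k ↔ IsAlgebraic Q₀ c := fun c => mem_algebraicClosure_iff
      by_cases htk : t ∈ k
      · -- `t` is algebraic
        have h1 : ∀ c : ℂ, IsAlgebraic Q₁ c → IsAlgebraic Q₀ c := by
          intro c hc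
          have h2 : IsAlgebraic k c := by
            refine alg_mono ?_ hc
            intro y
            have hle : Q₁ ≤ k.restrictScalars ℚ := by
              rw [hQ₁, IntermediateField.adjoin_le_iff]
              intro z hz
              rw [Finset.coe_insert] at hz
              rcases hz with rfl | hz
              · exact htk
              · change z ∈ k
                rw [hmemk]
                exact isAlgebraic_algebraMap (R := Q₀) (A := ℂ)
                  (⟨z, IntermediateField.subset_adjoin ℚ _ hz⟩ : Q₀)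
            exact ⟨⟨(y : ℂ), hle y.2⟩, rfl⟩
          obtain ⟨c', hc'⟩ := emb_mem_range h2
          rw [← hmemk, ← hc']
          exact c'.2
        exact ih f w a (fun i m => h1 _ (hf1 i m)) (fun j m => h1 _ (hw1 j m))
          (fun i => h1 _ (ha1 i)) hf hcl ha hg
      · -- `t` is transcendental
        have htk' : t ∉ Set.range (algebraMap k ℂ) := by
          rintro ⟨c, rfl⟩
          exact htk c.2
        have h1 : ∀ c : ℂ, IsAlgebraic Q₁ c →
            IsAlgebraic (IntermediateField.adjoin k {t}) c := by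
          intro c hc
          refine alg_mono ?_ hc
          intro y
          have hle : (Q₁ : Set ℂ) ⊆ (IntermediateField.adjoin k ({t} : Set ℂ) : Set ℂ) := by
            have h2 : Q₁ ≤ ((IntermediateField.adjoin k ({t} : Set ℂ)).restrictScalars
                Q₀).restrictScalars ℚ := by
              rw [hQ₁, IntermediateField.adjoin_le_iff]
              intro z hz
              rw [Finset.coe_insert] at hz
              rcases hz with rfl | hz
              · exact IntermediateField.subset_adjoin k _ rfl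
              · have h3 : z ∈ k := by
                  rw [hmemk]
                  exact isAlgebraic_algebraMap (R := Q₀) (A := ℂ)
                    (⟨z, IntermediateField.subset_adjoin ℚ _ hz⟩ : Q₀)
                exact (IntermediateField.adjoin k ({t} : Set ℂ)).algebraMap_mem ⟨z, h3⟩
            exact h2
          exact ⟨⟨(y : ℂ), hle y.2⟩, rfl⟩
        set S : Set ℂ := ((⋃ i, ((f i).coeffs : Set ℂ)) ∪ ⋃ j, ((w j).coeffs : Set ℂ)) ∪
          Set.range a with hS
        have hSf : S.Finite := ((Set.finite_iUnion fun i => (f i).coeffs.finite_toSet).union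
          (Set.finite_iUnion fun j => (w j).coeffs.finite_toSet)).union
          (Set.finite_range a)
        have hSa : ∀ c ∈ S, IsAlgebraic (IntermediateField.adjoin k {t}) c := by
          rintro c ((hc | hc) | ⟨i, rfl⟩)
          · obtain ⟨i, hi⟩ := Set.mem_iUnion.1 hc
            obtain ⟨m, hm⟩ := mem_coeffs_iff.1 hi
            rw [hm.2]
            exact h1 _ (hf1 i m)
          · obtain ⟨i, hi⟩ := Set.mem_iUnion.1 hc
            obtain ⟨m, hm⟩ := mem_coeffs_iff.1 hi
            rw [hm.2]
            exact h1 _ (hw1 i m)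
          · exact h1 _ (ha1 i)
        set K := IntermediateField.adjoin k (insert t S) with hKdef
        have hK : IsFunctionField k K := isFunctionField_adjoin htk' hSf hSa
        have hmem : ∀ c ∈ S, c ∈ K := fun c hc =>
          IntermediateField.subset_adjoin k _ (Set.mem_insert_of_mem _ hc)
        choose F hF using fun i => exists_lift K (p := f i) fun c hc =>
          hmem c (Or.inl (Or.inl (Set.mem_iUnion.2 ⟨i, hc⟩)))
        choose W hW using fun j => exists_lift K (p := w j) fun c hc =>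
          hmem c (Or.inl (Or.inr (Set.mem_iUnion.2 ⟨j, hc⟩)))
        let x : Fin (ν + 1) → K := fun i => ⟨a i, hmem _ (Or.inr ⟨i, rfl⟩)⟩
        have hxa : (fun i => algebraMap K ℂ (x i)) = a := rfl
        have hFf : (fun i => map (algebraMap K ℂ) (F i)) = f := funext hF
        have hWw : (fun j => map (algebraMap K ℂ) (W j)) = w := funext hW
        have hx : x ≠ 0 := by
          intro h
          apply ha
          funext i
          exact congrArg (algebraMap K ℂ) (congrFun h i)
        have hGh : ∀ j, (W (ι j)).IsHomogeneous (e j) := by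
          intro j m hm
          refine hg j ?_
          rw [← hW, coeff_map]
          simpa using hm
        have hset : {n | ∀ j, eval (iter f a n) (w (ι j)) = 0} =
            {n | ∀ j, eval (iter F x n) (W (ι j)) = 0} := by
          ext n
          refine forall_congr' fun j => ?_
          rw [← eval_iter_map F x (W (ι j)) n, hFf, hxa, hW]
        rw [hset]
        have hFe : IsEndo d fun i => map (algebraMap K ℂ) (F i) := by rw [hFf]; exact hf
        have hclK : Cl (fun i => map (algebraMap K ℂ) (F i)) (fun j => map (algebraMap K ℂ) (W j))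
            (fun i => algebraMap K ℂ (x i)) := by
          rw [hFf, hWw, hxa]
          exact hcl
        by_cases hu : ∀ B : ℤ, ∃ n, B < ht k (iter F x n)
        · exact hunb k K hK F W x hFe hclK hx hu hGh
        push Not at hu
        obtain ⟨B, hB⟩ := hu
        obtain ⟨A, hA, hAb⟩ := hspec k K hK F W x hFe hclK hx B hB
        obtain ⟨κ, hκ, b, φ, z, ω, hall, hiff⟩ := exists_specialisationsN hK hFe hx B hB ι e W
          hGh A hA
        have hone : ∀ s : κ, R {n | ∀ j, eval (iter (φ s) (z s) n) (ω s (ι j)) = 0} := by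
          intro s
          obtain ⟨hb, hgr, hred, hω⟩ := hall s
          have hcl' := hAb (b s) hb (φ s) (ω s) (z s) hgr hω hred
          have halgk : ∀ c : k, IsAlgebraic Q₀ (algebraMap k ℂ c) := fun c =>
            (hmemk _).1 c.2
          have h5 := ih (fun i => map (algebraMap k ℂ) (φ s i))
            (fun j => map (algebraMap k ℂ) (ω s j)) (fun i => algebraMap k ℂ (z s i))
            (fun i m => by rw [coeff_map]; exact halgk _)
            (fun j m => by rw [coeff_map]; exact halgk _)
            (fun i => halgk _)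
            hgr.endo.map hcl' (by
              intro h
              apply hred.1
              funext i
              exact (algebraMap k ℂ).injective ((congrFun h i).trans (map_zero _).symm))
            (fun j => (redP_hom (hω (ι j)) (hGh j)).map _)
          have h6 : {n | ∀ j, eval (iter (fun i => map (algebraMap k ℂ) (φ s i))
              (fun i => algebraMap k ℂ (z s i)) n) (map (algebraMap k ℂ) (ω s (ι j))) = 0} =
              {n | ∀ j, eval (iter (φ s) (z s) n) (ω s (ι j)) = 0} := by
            ext n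
            exact forall_congr' fun j => eval_iter_map (φ s) (z s) (ω s (ι j)) n
          rwa [h6] at h5
        have h7 : {n | ∀ j, eval (iter F x n) (W (ι j)) = 0} =
            ⋂ s : κ, {n | ∀ j, eval (iter (φ s) (z s) n) (ω s (ι j)) = 0} := by
          ext n
          rw [Set.mem_iInter]
          exact hiff n
        rw [h7]
        exact iInter_closed hRu hRi _ hone
  -- the finite set of all the coefficients
  set s : Finset ℂ := ((Finset.univ.biUnion fun i => (f i).coeffs) ∪
    (Finset.univ.biUnion fun j => (w j).coeffs)) ∪ Finset.univ.image a with hs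
  have hmem : ∀ c ∈ s, IsAlgebraic (IntermediateField.adjoin ℚ (s : Set ℂ)) c := fun c hc =>
    isAlgebraic_algebraMap (R := IntermediateField.adjoin ℚ (s : Set ℂ)) (A := ℂ)
      (⟨c, IntermediateField.subset_adjoin ℚ _ hc⟩ : IntermediateField.adjoin ℚ (s : Set ℂ))
  have hcoef : ∀ p : MvPolynomial (Fin (ν + 1)) ℂ, (p.coeffs ⊆ s) → ∀ m,
      IsAlgebraic (IntermediateField.adjoin ℚ (s : Set ℂ)) (p.coeff m) := by
    intro p hp m
    by_cases h0 : p.coeff m = 0
    · rw [h0]
      exact isAlgebraic_zero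
    · exact hmem _ (hp (coeff_mem_coeffs m h0))
  refine key s f w a (fun i => hcoef _ ?_) (fun j => hcoef _ ?_) (fun i => hmem _ ?_)
    hf hcl ha hg
  · intro c hc
    exact Finset.mem_union_left _ (Finset.mem_union_left _
      (Finset.mem_biUnion.2 ⟨i, Finset.mem_univ _, hc⟩))
  · intro c hc
    exact Finset.mem_union_left _ (Finset.mem_union_right _
      (Finset.mem_biUnion.2 ⟨j, Finset.mem_univ _, hc⟩))
  · exact Finset.mem_union_right _ (Finset.mem_image.2 ⟨i, Finset.mem_univ _, rfl⟩)

end Pool.Agent.Helper30.RED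

end

section

namespace Pool.Agent.Helper16
end Pool.Agent.Helper16
namespace Pool.Agent.Helper30.TKN
end Pool.Agent.Helper30.TKN
namespace Pool.Agent.Helper36
end Pool.Agent.Helper36
namespace Pool.Agent.Helper38.PC
end Pool.Agent.Helper38.PC
namespace Pool.Agent.Helper38.TQ
end Pool.Agent.Helper38.TQ

/-!
# Curves in projective space over the complex numbers: specialisation
-/

set_option autoImplicit false

namespace Pool.Agent.Helper30.RED

open MvPolynomial
open Pool.Agent.Helper16 (Place IsFunctionField)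
open Pool.Agent.Helper36 (step iter iter_zero iter_succ iter_succ' iter_add iter_map)
open Pool.Agent.Helper38.TQ
open Pool.Agent.Helper30.TKN
open Pool.Agent.Helper38.PC (Data)

variable {ν : ℕ}

/-- A nonzero form in three variables does not vanish at some point `(l, m, 1)`. -/
theorem exists_affine_point {e : ℕ} {Q : MvPolynomial (Fin 3) ℂ} (hQ : Q.IsHomogeneous e)
    (hQ0 : Q ≠ 0) : ∃ l m : ℂ, eval ![l, m, 1] Q ≠ 0 := by
  have h1 : Q * X 2 ≠ 0 := mul_ne_zero hQ0 (X_ne_zero 2)
  obtain ⟨p, hp⟩ : ∃ p, eval p (Q * X 2) ≠ 0 := by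
    by_contra hcon
    push Not at hcon
    exact h1 (MvPolynomial.funext fun p => by rw [hcon p, map_zero])
  rw [map_mul, eval_X] at hp
  have h2 : eval p Q ≠ 0 := left_ne_zero_of_mul hp
  have h3 : p 2 ≠ 0 := right_ne_zero_of_mul hp
  refine ⟨p 0 / p 2, p 1 / p 2, ?_⟩
  intro h4
  apply h2
  have h5 : p = fun i => p 2 * (![p 0 / p 2, p 1 / p 2, 1] : Fin 3 → ℂ) i := by
    funext i
    fin_cases i
    · change p 0 = p 2 * (p 0 / p 2)
      rw [mul_div_cancel₀ _ h3]
    · change p 1 = p 2 * (p 1 / p 2)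
      rw [mul_div_cancel₀ _ h3]
    · change p 2 = p 2 * 1
      rw [mul_one]
  rw [h5]
  have h6 := eval_smul_hom (ν := 2) hQ (p 2) (![p 0 / p 2, p 1 / p 2, 1] : Fin 3 → ℂ)
  rw [h4, mul_zero] at h6
  exact h6

/-- A closed set of dimension at most one does not meet a suitable linear subspace of codimension
two. -/
theorem exists_two_forms {S : Set (MvPolynomial (Fin (ν + 1)) ℂ)}
    (hS : ∀ g ∈ S, ∃ e, g.IsHomogeneous e)
    (hdim : ringKrullDim (MvPolynomial (Fin (ν + 1)) ℂ ⧸ Ideal.span S) ≤ 2) :
    ∃ c : ℕ → Fin (ν + 1) → ℂ, ∀ x : Fin (ν + 1) → ℂ, (∀ g ∈ S, eval x g = 0) →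
      (∀ j < 2, ∑ i, c j i * x i = 0) → x = 0 := by
  classical
  have hstart : ∃ c : ℕ → Fin (ν + 1) → ℂ, ∀ x : Fin (ν + 1) → ℂ, (∀ g ∈ S, eval x g = 0) →
      (∀ j < ν + 1 + 2, ∑ i, c j i * x i = 0) → x = 0 := by
    refine ⟨fun j i => if j = i.val then 1 else 0, fun x _ hx => ?_⟩
    funext i
    have h1 := hx i.val (by omega)
    rw [Finset.sum_eq_single i] at h1
    · simpa using h1
    · intro j _ hj
      have h2 : ¬ i.val = j.val := fun h => hj (Fin.ext h.symm)
      simp only [h2, if_false, zero_mul]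
    · intro h
      exact absurd (Finset.mem_univ i) h
  have hdesc : ∀ m : ℕ, (∃ c : ℕ → Fin (ν + 1) → ℂ, ∀ x : Fin (ν + 1) → ℂ,
      (∀ g ∈ S, eval x g = 0) → (∀ j < m + 3, ∑ i, c j i * x i = 0) → x = 0) →
      ∃ c : ℕ → Fin (ν + 1) → ℂ, ∀ x : Fin (ν + 1) → ℂ,
        (∀ g ∈ S, eval x g = 0) → (∀ j < m + 2, ∑ i, c j i * x i = 0) → x = 0 := by
    rintro m ⟨c, hc⟩
    obtain ⟨e, Q, hQ, hQ0, hQv⟩ := exists_relation_linear hS hdim ![c m, c (m + 1), c (m + 2)]
    obtain ⟨l, l', hl⟩ := exists_affine_point hQ hQ0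
    refine ⟨fun j i => if j < m then c j i else if j = m then c m i - l * c (m + 2) i
      else c (m + 1) i - l' * c (m + 2) i, fun x hx hj => hc x hx ?_⟩
    set t : ℂ := ∑ i, c (m + 2) i * x i with ht
    have h0 : ∑ i, c m i * x i = l * t := by
      have h1 := hj m (by omega)
      simp only [lt_irrefl, if_false, if_true, sub_mul, Finset.sum_sub_distrib] at h1
      rw [sub_eq_zero] at h1
      rw [h1, ht, Finset.mul_sum]
      exact Finset.sum_congr rfl fun i _ => by ring
    have h1 : ∑ i, c (m + 1) i * x i = l' * t := by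
      have h1 := hj (m + 1) (by omega)
      have h2 : ¬ m + 1 < m := by omega
      have h3 : ¬ m + 1 = m := by omega
      simp only [h2, h3, if_false, sub_mul, Finset.sum_sub_distrib] at h1
      rw [sub_eq_zero] at h1
      rw [h1, ht, Finset.mul_sum]
      exact Finset.sum_congr rfl fun i _ => by ring
    have ht0 : t = 0 := by
      have h2 := hQv x hx
      have h3 : (fun j => ∑ i, (![c m, c (m + 1), c (m + 2)] : Fin 3 → Fin (ν + 1) → ℂ) j i * x i)
          = fun j => t * (![l, l', 1] : Fin 3 → ℂ) j := by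
        funext j
        fin_cases j
        · change ∑ i, c m i * x i = t * l
          rw [h0, mul_comm]
        · change ∑ i, c (m + 1) i * x i = t * l'
          rw [h1, mul_comm]
        · change ∑ i, c (m + 2) i * x i = t * 1
          rw [mul_one]
      rw [h3] at h2
      have h4 := eval_smul_hom (ν := 2) hQ t (![l, l', 1] : Fin 3 → ℂ)
      have h6 : eval (t • (![l, l', 1] : Fin 3 → ℂ)) Q = 0 := h2
      rw [h6] at h4
      have h5 := (mul_eq_zero.1 h4.symm).resolve_right hl
      exact eq_zero_of_pow_eq_zero h5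
    intro j hjm
    rcases lt_or_ge j m with h | h
    · have h2 := hj j (by omega)
      simp only [h, if_true] at h2
      exact h2
    · have h2 : j = m ∨ j = m + 1 ∨ j = m + 2 := by omega
      rcases h2 with rfl | rfl | rfl
      · rw [h0, ht0, mul_zero]
      · rw [h1, ht0, mul_zero]
      · exact ht0
  have hall : ∀ m : ℕ, (∃ c : ℕ → Fin (ν + 1) → ℂ, ∀ x : Fin (ν + 1) → ℂ,
      (∀ g ∈ S, eval x g = 0) → (∀ j < m + 2, ∑ i, c j i * x i = 0) → x = 0) →
      ∃ c : ℕ → Fin (ν + 1) → ℂ, ∀ x : Fin (ν + 1) → ℂ,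
        (∀ g ∈ S, eval x g = 0) → (∀ j < 2, ∑ i, c j i * x i = 0) → x = 0 := by
    intro m
    induction m with
    | zero =>
      intro h
      rwa [zero_add] at h
    | succ m ih =>
      intro h
      exact ih (hdesc m h)
  exact hall (ν + 1) hstart

/-- Forms without common zero specialise to forms without common zero, outside a finite set of
places. -/
theorem noz_spec {k K : Type} [Field k] [IsAlgClosed k] [Algebra k ℂ] [Field K] [Algebra k K]
    [Algebra K ℂ] (hK : IsFunctionField k K) {κ : Type} [Finite κ]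
    (H : κ → MvPolynomial (Fin (ν + 1)) K)
    (hH : ∀ z : Fin (ν + 1) → ℂ, (∀ j, eval z (map (algebraMap K ℂ) (H j)) = 0) → z = 0) :
    ∃ A : Set (Place k K), A.Finite ∧ ∀ b ∉ A, ∀ h : κ → MvPolynomial (Fin (ν + 1)) k,
      (∀ j, RedP b (H j) (h j)) →
      ∀ z : Fin (ν + 1) → ℂ, (∀ j, eval z (map (algebraMap k ℂ) (h j)) = 0) → z = 0 := by
  classical
  haveI := Fintype.ofFinite κ
  have h1 : ∀ i : Fin (ν + 1), ∃ (r : ℕ) (q : κ → MvPolynomial (Fin (ν + 1)) K),
      ∑ j, q j * H j = X i ^ r := by
    intro i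
    have h2 : (X i : MvPolynomial (Fin (ν + 1)) K) ∈ (Ideal.span (Set.range H)).radical := by
      rw [← MvPolynomial.vanishingIdeal_zeroLocus_eq_radical (K := ℂ),
        MvPolynomial.mem_vanishingIdeal_iff]
      intro x hx
      rw [MvPolynomial.mem_zeroLocus_iff] at hx
      have : x = 0 := hH x fun j => by
        have h3 := hx _ (Ideal.subset_span ⟨j, rfl⟩)
        rw [eval_map]
        exact h3
      rw [this]
      simp
    obtain ⟨r, hr⟩ := h2
    obtain ⟨q, hq⟩ := (Submodule.mem_span_range_iff_exists_fun _).1 hr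
    exact ⟨r, q, by simpa only [smul_eq_mul] using hq⟩
  choose r q hq using h1
  refine ⟨⋃ p : Fin (ν + 1) × κ, {b : Place k K | ¬ ∀ m, b.val ((q p.1 p.2).coeff m) ≤ 1},
    Set.finite_iUnion fun p => Good2_fin hK (q p.1 p.2), fun b hb h hh z hz => ?_⟩
  rw [Set.mem_iUnion, not_exists] at hb
  have hint : ∀ i j m, b.val ((q i j).coeff m) ≤ 1 := fun i j => not_not.1 (hb (i, j))
  choose q' hq' using fun i j => redP_exists' hK b (hint i j)
  funext i
  have h3 : ∑ j, q' i j * h j = X i ^ r i := by
    refine RedP.unique (P := X i ^ r i) ?_ ((redP_C_X b i).pow _)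
    rw [← hq i]
    exact RedP.sum _ fun j _ => (hq' i j).mul (hh j)
  have h4 := congrArg (fun p => eval z (map (algebraMap k ℂ) p)) h3
  simp only [map_sum, map_mul, map_pow, map_X, eval_X, hz, mul_zero,
    Finset.sum_const_zero] at h4
  exact eq_zero_of_pow_eq_zero h4.symm

end Pool.Agent.Helper30.RED

end

section

namespace Pool.Agent.Helper16
end Pool.Agent.Helper16
namespace Pool.Agent.Helper30.TKN
end Pool.Agent.Helper30.TKN
namespace Pool.Agent.Helper33.GC
end Pool.Agent.Helper33.GC
namespace Pool.Agent.Helper36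
end Pool.Agent.Helper36
namespace Pool.Agent.Helper38.TQ
end Pool.Agent.Helper38.TQ

/-!
# Curves in projective space: reduction to the algebraic numbers
-/

set_option autoImplicit false

namespace Pool.Agent.Helper30.RED

open MvPolynomial
open Pool.Agent.Helper16 (Place IsFunctionField)
open Pool.Agent.Helper36 (step iter iter_zero iter_succ iter_succ' iter_add iter_map APSet APSet_univ)
open Pool.Agent.Helper38.TQ
open Pool.Agent.Helper30.TKN
open Pool.Agent.Helper33.GC (APSet_inter)

variable {ν : ℕ}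

/-- The closed set defined by the forms `w 0, …, w (r - 1)` does not meet `l₀ = l₁ = 0`, where
`l₀ = w r` and `l₁ = w (r + 1)` are linear forms. -/
structure LData (r : ℕ) (e' : Fin r → ℕ) (w : Fin (r + 2) → MvPolynomial (Fin (ν + 1)) ℂ) :
    Prop where
  hom : ∀ j, (w (Fin.castAdd 2 j)).IsHomogeneous (e' j)
  hom0 : (w (Fin.natAdd r 0)).IsHomogeneous 1
  hom1 : (w (Fin.natAdd r 1)).IsHomogeneous 1
  noz : ∀ z : Fin (ν + 1) → ℂ, (∀ j : Fin r, eval z (w (Fin.castAdd 2 j)) = 0) →
    eval z (w (Fin.natAdd r 0)) = 0 → eval z (w (Fin.natAdd r 1)) = 0 → z = 0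

/-- Specialisation. -/
theorem ldata_spec {k : Type} [Field k] [IsAlgClosed k] [Algebra k ℂ] (K : IntermediateField k ℂ)
    (hK : IsFunctionField k K) {r : ℕ} {e' : Fin r → ℕ}
    {W : Fin (r + 2) → MvPolynomial (Fin (ν + 1)) K}
    (hC : LData r e' (fun j => map (algebraMap K ℂ) (W j))) :
    ∃ A : Set (Place k K), A.Finite ∧ ∀ b ∉ A,
      ∀ (w : Fin (r + 2) → MvPolynomial (Fin (ν + 1)) k),
        (∀ j, RedP b (W j) (w j)) → LData r e' (fun j => map (algebraMap k ℂ) (w j)) := by
  obtain ⟨A₃, hA₃, h3⟩ := noz_spec (k := k) hK (κ := Fin r ⊕ Fin 2)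
    (Sum.elim (fun j => W (Fin.castAdd 2 j)) (fun j => W (Fin.natAdd r j))) (by
      intro z hz
      refine hC.noz z (fun j => hz (Sum.inl j)) (hz (Sum.inr 0)) (hz (Sum.inr 1)))
  refine ⟨A₃, hA₃, fun b hb w hw => ⟨fun j => ?_, ?_, ?_, ?_⟩⟩
  · exact (redP_hom (hw _) (hom_of_map (algebraMap K ℂ) (hC.hom j))).map _
  · exact (redP_hom (hw _) (hom_of_map (algebraMap K ℂ) hC.hom0)).map _
  · exact (redP_hom (hw _) (hom_of_map (algebraMap K ℂ) hC.hom1)).map _
  · intro y hy h0 h1
    refine h3 b hb (Sum.elim (fun j => w (Fin.castAdd 2 j)) (fun j => w (Fin.natAdd r j))) ?_ y ?_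
    · rintro (j | j)
      · exact hw _
      · exact hw _
    · rintro (j | j)
      · exact hy j
      · fin_cases j
        · exact h0
        · exact h1

/-- The data of a return set for a closed set of dimension at most one, over the algebraic
numbers. -/
structure AlgCurve (d : ℕ) (φ : Fin (ν + 1) → MvPolynomial (Fin (ν + 1)) ℂ) (z : Fin (ν + 1) → ℂ)
    (S : Finset (MvPolynomial (Fin (ν + 1)) ℂ)) : Prop where
  endo : IsEndo d φ
  ne : z ≠ 0
  algf : ∀ i m, IsAlgebraic ℚ ((φ i).coeff m)
  algz : ∀ i, IsAlgebraic ℚ (z i)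
  hom : ∀ g ∈ S, ∃ e, g.IsHomogeneous e
  algg : ∀ g ∈ S, ∀ m, IsAlgebraic ℚ (g.coeff m)
  dim : ringKrullDim (MvPolynomial (Fin (ν + 1)) ℂ ⧸
    Ideal.span (S : Set (MvPolynomial (Fin (ν + 1)) ℂ))) ≤ 2

/-- The statement for function fields and unbounded heights. -/
def UnbC (ν d : ℕ) : Prop :=
  ∀ (k : Type) [Field k] [IsAlgClosed k] [Algebra k ℂ] (K : IntermediateField k ℂ),
    IsFunctionField k K → ∀ (F : Fin (ν + 1) → MvPolynomial (Fin (ν + 1)) K)
    (x : Fin (ν + 1) → K), (IsEndo d fun i => map (algebraMap K ℂ) (F i)) → x ≠ 0 →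
    (∀ B : ℤ, ∃ n, B < ht k (iter F x n)) → ∀ (r : ℕ) (W : Fin r → MvPolynomial (Fin (ν + 1)) K),
    (∀ j, ∃ e, (W j).IsHomogeneous e) →
    CurveSet (Set.range fun j => map (algebraMap K ℂ) (W j)) →
    ∃ A, {n | ∀ j, eval (iter F x n) (W j) = 0} = APSet A

/-- **Induction for curves.** A property of sets which holds for finite unions of progressions
and for the return sets of closed sets of dimension at most one over the algebraic numbers, and
which is closed under intersections, holds for the return sets of all closed sets of dimension at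
most one over `ℂ`. -/
theorem curveN_induct {d : ℕ} (R : Set ℕ → Prop) (hRa : ∀ A, R (APSet A))
    (hRi : ∀ S T, R S → R T → R (S ∩ T)) (hunb : UnbC ν d)
    (halg : ∀ (f : Fin (ν + 1) → MvPolynomial (Fin (ν + 1)) ℂ) (a : Fin (ν + 1) → ℂ)
      (S : Finset (MvPolynomial (Fin (ν + 1)) ℂ)), AlgCurve d f a S →
      R {n | ∀ g ∈ S, eval (iter f a n) g = 0})
    {f : Fin (ν + 1) → MvPolynomial (Fin (ν + 1)) ℂ} (hf : IsEndo d f) {a : Fin (ν + 1) → ℂ}
    (ha : a ≠ 0) {S : Set (MvPolynomial (Fin (ν + 1)) ℂ)} (hS : ∀ g ∈ S, ∃ e, g.IsHomogeneous e)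
    (hdim : ringKrullDim (MvPolynomial (Fin (ν + 1)) ℂ ⧸ Ideal.span S) ≤ 2) :
    R {n | ∀ g ∈ S, eval (iter f a n) g = 0} := by
  classical
  obtain ⟨S₀, hS₀, hS₀v⟩ := exists_finite_subfamily S
  obtain ⟨l, hl⟩ := exists_two_forms hS hdim
  set r : ℕ := S₀.card with hr
  let p : Fin r → MvPolynomial (Fin (ν + 1)) ℂ := fun j => (S₀.equivFin.symm j : _)
  have hpS : ∀ j, p j ∈ S₀ := fun j => (S₀.equivFin.symm j).2
  have hpsurj : ∀ s ∈ S₀, ∃ j, p j = s := by
    intro s hs
    refine ⟨S₀.equivFin ⟨s, hs⟩, ?_⟩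
    change ((S₀.equivFin.symm (S₀.equivFin ⟨s, hs⟩) : S₀) : MvPolynomial (Fin (ν + 1)) ℂ) = s
    rw [Equiv.symm_apply_apply]
  choose e' he' using fun j => hS (p j) (hS₀ (hpS j))
  let L : ℕ → MvPolynomial (Fin (ν + 1)) ℂ := fun j => ∑ i, C (l j i) * X i
  have hL : ∀ j, (L j).IsHomogeneous 1 := by
    intro j
    refine IsHomogeneous.sum _ _ _ fun i _ => ?_
    have := (isHomogeneous_C (Fin (ν + 1)) (l j i)).mul (isHomogeneous_X ℂ i)
    simpa using this
  have hLe : ∀ j z, eval z (L j) = ∑ i, l j i * z i := by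
    intro j z
    simp [L]
  let w : Fin (r + 2) → MvPolynomial (Fin (ν + 1)) ℂ := Fin.append p ![L 0, L 1]
  have hw1 : ∀ j, w (Fin.castAdd 2 j) = p j := fun j => Fin.append_left _ _ j
  have hw2 : ∀ j, w (Fin.natAdd r j) = ![L 0, L 1] j := fun j => Fin.append_right _ _ j
  have hset : {n | ∀ g ∈ S, eval (iter f a n) g = 0} =
      {n | ∀ j : Fin r, eval (iter f a n) (w (Fin.castAdd 2 j)) = 0} := by
    ext n
    constructor
    · intro hn j
      rw [hw1]
      exact hn _ (hS₀ (hpS j))
    · intro hn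
      refine hS₀v _ fun s hs => ?_
      obtain ⟨j, rfl⟩ := hpsurj s hs
      rw [← hw1]
      exact hn j
  have hRu : R Set.univ := by
    obtain ⟨T, hT⟩ := APSet_univ
    rw [hT]
    exact hRa T
  rw [hset]
  refine inductN (d := d) (Fin.castAdd 2) e' (fun _ w _ => LData r e' w) R hRu hRi ?_ ?_ ?_
    f w a hf ?_ ha ?_
  · intro k _ _ _ K hK F W x hF hC hx B hB
    obtain ⟨A, hA, h⟩ := ldata_spec K hK hC
    exact ⟨A, hA, fun b hb f w z _ hw _ => h b hb w hw⟩
  · intro k _ _ _ K hK F W x hF hC hx hub hWh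
    obtain ⟨A, hA⟩ := hunb k K hK F x hF hx hub r (fun j => W (Fin.castAdd 2 j))
      (fun j => ⟨_, hWh j⟩) (by
        refine curveSet_of_forms ?_ hC.hom0 hC.hom1 fun z hz h0 h1 =>
          hC.noz z (fun j => ?_) h0 h1
        · rintro g ⟨j, rfl⟩
          exact ⟨_, hC.hom j⟩
        · exact hz _ ⟨j, rfl⟩)
    rw [hA]
    exact hRa A
  · intro f w a hfa hwa haa hf hC ha hwh
    have hSw : {n | ∀ j : Fin r, eval (iter f a n) (w (Fin.castAdd 2 j)) = 0} =
        {n | ∀ g ∈ Finset.univ.image fun j : Fin r => w (Fin.castAdd 2 j),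
          eval (iter f a n) g = 0} := by
      ext n
      simp
    rw [hSw]
    refine halg f a _ ⟨hf, ha, hfa, haa, ?_, ?_, ?_⟩
    · intro g hg
      obtain ⟨j, -, rfl⟩ := Finset.mem_image.1 hg
      exact ⟨_, hwh j⟩
    · intro g hg
      obtain ⟨j, -, rfl⟩ := Finset.mem_image.1 hg
      exact hwa _
    · refine krull_le_two (K := ℂ) ?_ hC.hom0 hC.hom1 ?_
      · intro g hg
        obtain ⟨j, -, rfl⟩ := Finset.mem_image.1 (Finset.mem_coe.1 hg)
        exact ⟨_, hwh j⟩
      · intro z hz h0 h1
        have hev : ∀ p : MvPolynomial (Fin (ν + 1)) ℂ, aeval z p = eval z p := fun p => by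
          rw [aeval_def, Algebra.algebraMap_self, eval₂_id]
        refine hC.noz z (fun j => ?_) ((hev _).symm.trans h0) ((hev _).symm.trans h1)
        exact (hev _).symm.trans
          (hz _ (Finset.mem_coe.2 (Finset.mem_image_of_mem _ (Finset.mem_univ j))))
  · refine ⟨fun j => ?_, ?_, ?_, ?_⟩
    · rw [hw1]
      exact he' j
    · rw [hw2]
      exact hL 0
    · rw [hw2]
      exact hL 1
    · intro z hz h0 h1
      refine hl z (hS₀v z fun s hs => ?_) ?_
      · obtain ⟨j, rfl⟩ := hpsurj s hs
        rw [← hw1]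
        exact hz j
      · intro j hj
        have h2 : j = 0 ∨ j = 1 := by omega
        rcases h2 with rfl | rfl
        · rw [← hLe, ← h0, hw2]
          rfl
        · rw [← hLe, ← h1, hw2]
          rfl
  · intro j
    rw [hw1]
    exact he' j

end Pool.Agent.Helper30.RED

end

section

namespace Pool.Agent.Helper16
end Pool.Agent.Helper16
namespace Pool.Agent.Helper30.TKN
end Pool.Agent.Helper30.TKN
namespace Pool.Agent.Helper36
end Pool.Agent.Helper36
namespace Pool.Agent.Helper38.PC
end Pool.Agent.Helper38.PC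
namespace Pool.Agent.Helper38.TQ
end Pool.Agent.Helper38.TQ

/-!
# Post-critically finite endomorphisms of projective space over the complex numbers: curves
-/

set_option autoImplicit false

namespace Pool.Agent.Helper30.RED

open MvPolynomial
open Pool.Agent.Helper16 (Place IsFunctionField)
open Pool.Agent.Helper36 (step iter iter_zero iter_succ iter_succ' iter_add iter_map APSet APSet_univ)
open Pool.Agent.Helper38.TQ
open Pool.Agent.Helper30.TKN
open Pool.Agent.Helper38.PC (Data)

variable {ν : ℕ}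

/-- The return set in the form of the induction. -/
theorem ap_of_dml {K : Type} [Field K] [Algebra K ℂ]
    {F : Fin (ν + 1) → MvPolynomial (Fin (ν + 1)) K} {x : Fin (ν + 1) → K} {r : ℕ}
    {w : Fin r → MvPolynomial (Fin (ν + 1)) K}
    (h : ∃ T : Finset (ℕ × ℕ), {n : ℕ | ∀ g ∈ Set.range fun j => map (algebraMap K ℂ) (w j),
        eval ((fun (x : Fin (ν + 1) → ℂ) (i : Fin (ν + 1)) =>
        eval x (map (algebraMap K ℂ) (F i)))^[n] (fun i => 1 * algebraMap K ℂ (x i))) g = 0} =
      {n : ℕ | ∃ q ∈ T, ∃ m : ℕ, n = q.1 * m + q.2}) :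
    ∃ A, {n | ∀ j, eval (iter F x n) (w j) = 0} = APSet A := by
  obtain ⟨T, hT⟩ := h
  refine ⟨T, ?_⟩
  have h1 : {n : ℕ | ∃ q ∈ T, ∃ k : ℕ, n = q.1 * k + q.2} = APSet T := rfl
  rw [← h1, ← hT]
  ext n
  have h3 : (fun i => (1 : ℂ) * algebraMap K ℂ (x i)) = fun i => algebraMap K ℂ (x i) := by
    funext i
    rw [one_mul]
  simp only [Set.mem_ofPred_eq, Set.forall_mem_range, h3]
  refine forall_congr' fun j => ?_
  rw [← eval_iter_map F x (w j) n]
  exact Iff.rfl

end Pool.Agent.Helper30.RED

end
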