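import Pool.Agent.Helper29.MG2.T25
import Pool.Agent.Helper29.MG2.T17
import Pool.Agent.Helper29.MG2.T47

section

namespace Pool.Agent.Helper16
end Pool.Agent.Helper16
namespace Pool.Agent.Helper30.TKN
end Pool.Agent.Helper30.TKN
namespace Pool.Agent.Helper36
end Pool.Agent.Helper36
namespace Pool.Agent.Helper38.TQ
end Pool.Agent.Helper38.TQ

/-!
# Places at which a point meets a fixed cycle
-/

set_option autoImplicit false

namespace Pool.Agent.Helper63.TN

open MvPolynomial
open Pool.Agent.Helper16 (Place IsFunctionField)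
open Pool.Agent.Helper36 (step iter)
open Pool.Agent.Helper38.TQ
open Pool.Agent.Helper30.TKN

variable {ν : ℕ} {k K : Type} [Field k] [Field K] [Algebra k K]

section

/-- The place below is determined. -/
theorem FixC_above_unique {L : Type} [Field L] [Algebra k L] [Algebra K L] {v : Place k L}
    {b b' : Place k K} (h : Above v b) (h' : Above v b') : b = b' := by
  obtain ⟨e, he, h1⟩ := h
  obtain ⟨e', he', h1'⟩ := h'
  have h2 : ∀ a : K, b.val a ^ e = b'.val a ^ e' := fun a => (h1 a).symm.trans (h1' a)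
  have h3 : ∀ a : K, (e : ℤ) * WithZero.log (b.val a) = e' * WithZero.log (b'.val a) := by
    intro a
    have h := congrArg WithZero.log (h2 a)
    rw [WithZero.log_pow, WithZero.log_pow] at h
    simpa using h
  obtain ⟨u, hu⟩ := b.surj (WithZero.exp 1)
  obtain ⟨u', hu'⟩ := b'.surj (WithZero.exp 1)
  have h4 := h3 u
  have h5 := h3 u'
  rw [hu, WithZero.log_exp, mul_one] at h4
  rw [hu', WithZero.log_exp, mul_one] at h5
  have h6 : e = e' := by
    apply Nat.dvd_antisymm
    · exact Int.natCast_dvd_natCast.1 ⟨_, h5.symm⟩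
    · exact Int.natCast_dvd_natCast.1 ⟨_, h4⟩
  subst h6
  apply Place.ext_val
  refine Valuation.ext fun a => ?_
  by_cases ha : a = 0
  · rw [ha, map_zero, map_zero]
  · have h7 : WithZero.log (b.val a) = WithZero.log (b'.val a) :=
      mul_left_cancel₀ (by exact_mod_cast he.ne') (h3 a)
    have h8 : b.val a ≠ 0 := by simpa using ha
    have h9 : b'.val a ≠ 0 := by simpa using ha
    rw [← WithZero.exp_log h8, h7, WithZero.exp_log h9]

/-- The image of a point over an extension is not zero. -/
theorem FixC_step_ne [Algebra K ℂ] {d : ℕ} {F : Fin (ν + 1) → MvPolynomial (Fin (ν + 1)) K}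
    (hF : IsEndo d fun i => map (algebraMap K ℂ) (F i)) {L : Type} [Field L] [Algebra K L]
    {y : Fin (ν + 1) → L} (hy : y ≠ 0) : step F y ≠ 0 := by
  obtain ⟨M, q, -, h⟩ := Pool.Agent.Helper36.exists_nullstellensatz (L := ℂ) F
    (fun i => IsHomogeneous.of_map (algebraMap K ℂ).injective (hF.hom i)) (by
      intro w hw
      refine hF.nz w fun i => ?_
      have h := hw i
      rw [eval_map]
      rw [aeval_def] at h
      exact h)
  intro h0
  apply hy
  funext a
  have h2 := congrArg (aeval y) (h a)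
  rw [map_pow, aeval_X, map_sum] at h2
  have h3 : ∀ j, aeval y (F j) = 0 := fun j => congrFun h0 j
  simp only [map_mul, h3, mul_zero, Finset.sum_const_zero] at h2
  exact (pow_eq_zero_iff (by have := hF.two_le; omega)).1 h2.symm

theorem FixC_iter_ne [Algebra K ℂ] {d : ℕ} {F : Fin (ν + 1) → MvPolynomial (Fin (ν + 1)) K}
    (hF : IsEndo d fun i => map (algebraMap K ℂ) (F i)) {L : Type} [Field L] [Algebra K L]
    {y : Fin (ν + 1) → L} (hy : y ≠ 0) (n : ℕ) : iter F y n ≠ 0 := by
  induction n with
  | zero => exact hy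
  | succ n ih =>
    rw [Pool.Agent.Helper36.iter_succ]
    exact FixC_step_ne hF ih

theorem FixC_iter_smul {d : ℕ} {F : Fin (ν + 1) → MvPolynomial (Fin (ν + 1)) K}
    (hF : ∀ i, (F i).IsHomogeneous d) {L : Type} [Field L] [Algebra K L]
    (c : L) (y : Fin (ν + 1) → L) (n : ℕ) : iter F (c • y) n = c ^ d ^ n • iter F y n := by
  induction n with
  | zero => simp [Pool.Agent.Helper36.iter_zero]
  | succ n ih =>
    rw [Pool.Agent.Helper36.iter_succ, Pool.Agent.Helper36.iter_succ, ih]
    funext i
    rw [Pi.smul_apply, smul_eq_mul, pow_succ, pow_mul]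
    exact Pool.Agent.Helper36.aeval_smul_homogeneous (hF i) (c ^ d ^ n) (iter F y n)

theorem FixC_inc_iter (F : Fin (ν + 1) → MvPolynomial (Fin (ν + 1)) K) {L : Type} [Field L]
    [Algebra K L] (x : Fin (ν + 1) → K) (N : ℕ) : iter F (inc L x) N = inc L (iter F x N) :=
  Pool.Agent.Helper36.iter_map F (Algebra.ofId K L) x N

theorem FixC_inc_ne {L : Type} [Field L] [Algebra K L] {x : Fin (ν + 1) → K} (hx : x ≠ 0) :
    inc L x ≠ 0 := by
  intro h0
  refine hx (funext fun a => ?_)
  have h1 : algebraMap K L (x a) = 0 := congrFun h0 a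
  rw [← map_zero (algebraMap K L)] at h1
  exact (algebraMap K L).injective h1

/-- Proportionality descends. -/
theorem FixC_peq {L : Type} [Field L] [Algebra K L] {x z : Fin (ν + 1) → K} (hx : x ≠ 0)
    (hz : z ≠ 0) (h : PEq (inc L x) (inc L z)) : PEq x z := by
  obtain ⟨t, -, h⟩ := h
  obtain ⟨a, ha⟩ := Function.ne_iff.1 hx
  have ha' : x a ≠ 0 := ha
  have ht : t = algebraMap K L (z a / x a) := by
    have h1 : algebraMap K L (z a) = t * algebraMap K L (x a) := congrFun h a
    rw [map_div₀, h1, mul_div_cancel_right₀]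
    exact (map_ne_zero _).2 ha'
  have hz' : z = (z a / x a) • x := by
    funext j
    apply (algebraMap K L).injective
    have h1 : algebraMap K L (z j) = t * algebraMap K L (x j) := congrFun h j
    rw [h1, ht, Pi.smul_apply, smul_eq_mul, map_mul]
  refine ⟨z a / x a, ?_, hz'⟩
  intro h0
  apply hz
  rw [hz', h0, zero_smul]

/-- The iterates of a periodic point are, up to scalars, those before the period. -/
theorem FixC_mod {d : ℕ} {F : Fin (ν + 1) → MvPolynomial (Fin (ν + 1)) K}
    (hF : ∀ i, (F i).IsHomogeneous d) {L : Type} [Field L] [Algebra K L]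
    {w : Fin (ν + 1) → L} {M : ℕ} {γ : L} (hγ : γ ≠ 0) (h : iter F w M = γ • w) (r q : ℕ) :
    ∃ c : L, c ≠ 0 ∧ iter F w (r + M * q) = c • iter F w r := by
  induction q with
  | zero => exact ⟨1, one_ne_zero, by simp⟩
  | succ q ih =>
    obtain ⟨c, hc, h1⟩ := ih
    refine ⟨γ ^ d ^ (r + M * q) * c, mul_ne_zero (pow_ne_zero _ hγ) hc, ?_⟩
    have h2 : r + M * (q + 1) = (r + M * q) + M := by ring
    rw [h2, Pool.Agent.Helper36.iter_add, h, FixC_iter_smul hF, h1, smul_smul]

end

/-- `Same` does not depend on the scaling of the second point. -/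
theorem FixC_same_smul {v : Place k K} {x y : Fin (ν + 1) → K} {c : K} (hc : c ≠ 0)
    (h : Same v x (c • y)) : Same v x y := by
  intro p q
  have h1 := h p q
  have h2 : x p * (c • y) q - x q * (c • y) p = c * (x p * y q - x q * y p) := by
    simp only [Pi.smul_apply, smul_eq_mul]
    ring
  have hc' : v.val c ≠ 0 := by simpa using hc
  have h3 : nrm v x * (v.val c * nrm v y) = v.val c * (nrm v x * nrm v y) := by
    rw [mul_left_comm]
  rw [h2, nrm_smul, map_mul, h3] at h1
  exact lt_of_mul_lt_mul_left' h1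

/-- The number of places below a finite set of places. -/
theorem FixC_card_le {L : Type} [Field L] [Algebra k L] [Algebra K L] {S : Finset (Place k L)}
    (T : Finset (Place k K)) (h : ∀ b ∈ T, ∃ v ∈ S, Above v b) : T.card ≤ S.card := by
  classical
  choose f hf hf' using h
  refine (Finset.card_attach (s := T)).symm.le.trans ?_
  refine Finset.card_le_card_of_injOn (fun b => f b.1 b.2) (fun b _ => hf b.1 b.2) ?_
  intro b _ b' _ he
  have h1 := hf' b.1 b.2
  have h2 := hf' b'.1 b'.2
  simp only at he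
  rw [he] at h1
  exact Subtype.ext (FixC_above_unique h1 h2)

/-- The number of places at which the point `x_i` meets a periodic point. -/
theorem fix_count [IsAlgClosed k] [Algebra K ℂ] (hK : IsFunctionField k K) {d : ℕ}
    {F : Fin (ν + 1) → MvPolynomial (Fin (ν + 1)) K}
    (hF : IsEndo d fun i => map (algebraMap K ℂ) (F i)) {x : Fin (ν + 1) → K} (hx : x ≠ 0)
    (hdist : ∀ n n', n ≠ n' → ¬ PEq (iter F x n) (iter F x n')) (A : FinPt ν k K)
    (hA : IsPer F A.y) (i : ℕ) :
    ∃ B : ℕ, ∀ T : Finset (Place k K), (∀ b ∈ T, ∃ (v : Place k A.L) (m : ℕ), Above v b ∧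
      Same v (inc A.L (iter F x i)) (iter F A.y m)) → T.card ≤ B := by
  classical
  have hKL : IsFunctionField k A.L := Pool.Agent.Helper16.IsFunctionField.of_finite hK
  have hhom := homog_of_endo hF
  have hne : ∀ n, iter F A.y n ≠ 0 := fun n => FixC_iter_ne hF A.ne n
  obtain ⟨M, hM, γ, hγ⟩ := hA
  have hγ0 : γ ≠ 0 := by
    rintro rfl
    exact hne M (by rw [hγ, zero_smul])
  have hxi : inc A.L (iter F x i) ≠ 0 := FixC_inc_ne (iter_ne_zeroK hF hx i)
  have hnp : ∀ r, ¬ PEq (inc A.L (iter F x i)) (iter F A.y r) := by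
    rintro r ⟨c, hc, h1⟩
    have h2 : iter F (iter F A.y r) M = γ ^ d ^ r • iter F A.y r := by
      rw [← Pool.Agent.Helper36.iter_add, Nat.add_comm M r, Pool.Agent.Helper36.iter_add, hγ,
        FixC_iter_smul hhom]
    rw [h1, FixC_iter_smul hhom, FixC_inc_iter, ← Pool.Agent.Helper36.iter_add, smul_smul] at h2
    apply hdist i (M + i) (by omega)
    refine FixC_peq (L := A.L) (iter_ne_zeroK hF hx i) (iter_ne_zeroK hF hx _) ?_
    refine ⟨(c ^ d ^ M)⁻¹ * (γ ^ d ^ r * c), mul_ne_zero (inv_ne_zero (pow_ne_zero _ hc))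
      (mul_ne_zero (pow_ne_zero _ hγ0) hc), ?_⟩
    rw [← smul_smul, ← h2, smul_smul, inv_mul_cancel₀ (pow_ne_zero _ hc), one_smul]
  have hfin : ∀ r, {v : Place k A.L | Same v (inc A.L (iter F x i)) (iter F A.y r)}.Finite :=
    fun r => same_finite hKL hxi (hne r) (hnp r)
  let S : Finset (Place k A.L) := (Finset.range M).biUnion fun r => (hfin r).toFinset
  refine ⟨S.card, fun T hT => FixC_card_le T fun b hb => ?_⟩
  obtain ⟨v, m, hvb, hs⟩ := hT b hb
  refine ⟨v, ?_, hvb⟩
  rw [Finset.mem_biUnion]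
  refine ⟨m % M, Finset.mem_range.2 (Nat.mod_lt _ hM), ?_⟩
  rw [Set.Finite.mem_toFinset]
  show Same v _ _
  obtain ⟨c, hc, h1⟩ := FixC_mod hhom hγ0 hγ (m % M) (m / M)
  rw [Nat.mod_add_div] at h1
  rw [h1] at hs
  exact FixC_same_smul hc hs

end Pool.Agent.Helper63.TN

end

section

namespace Pool.Agent.Helper16
end Pool.Agent.Helper16
namespace Pool.Agent.Helper30.TKN
end Pool.Agent.Helper30.TKN
namespace Pool.Agent.Helper36
end Pool.Agent.Helper36
namespace Pool.Agent.Helper38.TQ
end Pool.Agent.Helper38.TQ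

/-!
# Curves with many periodic points
-/

set_option autoImplicit false

namespace Pool.Agent.Helper63.TN

open MvPolynomial
open Pool.Agent.Helper16 (Place IsFunctionField)
open Pool.Agent.Helper36 (step iter)
open Pool.Agent.Helper38.TQ
open Pool.Agent.Helper30.TKN

variable {ν : ℕ} {k K : Type} [Field k] [Field K] [Algebra k K]

/-- On a curve which is not periodic but contains many periodic points there are only finitely
many points of an orbit of unbounded height. -/
theorem caseA [IsAlgClosed k] [CharZero k] [Algebra K ℂ] (hK : IsFunctionField k K) {d : ℕ}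
    {F : Fin (ν + 1) → MvPolynomial (Fin (ν + 1)) K}
    (hF : IsEndo d fun i => map (algebraMap K ℂ) (F i))
    {I : Ideal (MvPolynomial (Fin (ν + 1)) K)} (hI : IsCurve I)
    (hnp : NonPer I F) (hmany : ManyPer k I F) {x : Fin (ν + 1) → K} (hx : x ≠ 0)
    (hunb : ∀ B : ℤ, ∃ n, B < ht k (iter F x n)) :
    {n | OnI I (iter F x n)}.Finite :=
  Pool.Agent.Helper38.TNA.caseA hK hF hI hnp hmany hx hunb

end Pool.Agent.Helper63.TN

end
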