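import Pool.Agent.Helper29.MG2.T27
import Pool.Agent.Helper29.MG2.T40

section

namespace Pool.Agent.Helper89.TNL
end Pool.Agent.Helper89.TNL

/-!
# The two definitions of exponential polynomials agree
-/

set_option autoImplicit false

namespace Pool.Agent.Helper65.TNL

open Pool.Agent.Helper89.TNL

variable {k : Type} [Field k] {G : Subgroup kˣ}

/-- The two definitions of exponential polynomials agree. -/
theorem mem_epol_iff {f : ℕ → k} : f ∈ EPol k G ↔ f ∈ EP G := by
  constructor
  · intro hf
    induction hf using Algebra.adjoin_induction with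
    | mem x hx =>
      rcases hx with hx | ⟨μ, hμ, rfl⟩
      · rw [Set.mem_singleton_iff] at hx
        rw [hx]
        exact id_mem_EP
      · exact pow_mem_EP hμ
    | algebraMap c =>
      have h := const_mem_EP (M := G) c
      exact h
    | add x y _ _ hx hy => exact Submodule.add_mem _ hx hy
    | mul x y _ _ hx hy => exact mul_mem_EP hx hy
  · intro hf
    induction hf using Submodule.span_induction with
    | mem x hx =>
      obtain ⟨a, μ, hμ, rfl⟩ := hx
      have h1 : (fun t : ℕ => (t : k)) ∈ EPol k G :=
        Algebra.subset_adjoin (Or.inl rfl)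
      have h2 : (fun t : ℕ => ((μ : kˣ) : k) ^ t) ∈ EPol k G :=
        Algebra.subset_adjoin (Or.inr ⟨μ, hμ, rfl⟩)
      exact mul_mem (pow_mem h1 a) h2
    | zero => exact (EPol k G).zero_mem
    | add x y _ _ hx hy => exact add_mem hx hy
    | smul c x _ hx => exact (EPol k G).smul_mem hx c

theorem epol_skolem [CharZero k] (hG : TorsFree G) {f : ℕ → k} (hf : f ∈ EPol k G)
    (hinf : {t | f t = 0}.Infinite) : f = 0 :=
  Pool.Agent.Helper65.TNL.skolem hG (mem_epol_iff.1 hf) hinf

end Pool.Agent.Helper65.TNL

end
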