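import Pool.Agent.Helper29.MG2.T27
import Pool.Agent.Helper29.MG2.T54

section

/-!
# Exponential polynomials: shifts, sums, linear recursions of first order
-/

set_option autoImplicit false

namespace Pool.Agent.Helper89.TNL

variable {k : Type} [Field k] {G : Subgroup kˣ}

theorem epolA_id : (fun t : ℕ => (t : k)) ∈ EPol k G :=
  Algebra.subset_adjoin (Or.inl rfl)

theorem epolA_exp {μ : kˣ} (hμ : μ ∈ G) : (fun t : ℕ => (μ : k) ^ t) ∈ EPol k G :=
  Algebra.subset_adjoin (Or.inr ⟨μ, hμ, rfl⟩)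

theorem epolA_const (c : k) : (fun _ : ℕ => c) ∈ EPol k G :=
  (EPol k G).algebraMap_mem c

theorem epol_shift {f : ℕ → k} (hf : f ∈ EPol k G) : (fun t => f (t + 1)) ∈ EPol k G := by
  refine Algebra.adjoin_induction (p := fun f _ => (fun t => f (t + 1)) ∈ EPol k G)
    ?_ ?_ ?_ ?_ hf
  · rintro g (rfl | ⟨μ, hμ, rfl⟩)
    · have : (fun t : ℕ => (((t + 1 : ℕ) : k))) = (fun t : ℕ => (t : k)) + fun _ => (1 : k) := by
        funext t
        simp
      rw [this]
      exact (EPol k G).add_mem epolA_id (epolA_const 1)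
    · have : (fun t : ℕ => (μ : k) ^ (t + 1)) = (fun t : ℕ => (μ : k) ^ t) * fun _ => (μ : k) := by
        funext t
        simp [pow_succ]
      rw [this]
      exact (EPol k G).mul_mem (epolA_exp hμ) (epolA_const _)
  · intro r
    exact epolA_const r
  · intro x y _ _ hx hy
    exact (EPol k G).add_mem hx hy
  · intro x y _ _ hx hy
    exact (EPol k G).mul_mem hx hy

theorem epol_unshift {f : ℕ → k} (hf : f ∈ EPol k G) : ∃ g ∈ EPol k G, ∀ t, g (t + 1) = f t := by
  refine Algebra.adjoin_induction (p := fun f _ => ∃ g ∈ EPol k G, ∀ t, g (t + 1) = f t)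
    ?_ ?_ ?_ ?_ hf
  · rintro g (rfl | ⟨μ, hμ, rfl⟩)
    · refine ⟨(fun t : ℕ => (t : k)) + fun _ => (-1 : k),
        (EPol k G).add_mem epolA_id (epolA_const _), fun t => ?_⟩
      simp
    · refine ⟨(fun t : ℕ => (μ : k) ^ t) * fun _ => (μ : k)⁻¹,
        (EPol k G).mul_mem (epolA_exp hμ) (epolA_const _), fun t => ?_⟩
      simp [pow_succ]
  · intro r
    exact ⟨_, epolA_const r, fun t => rfl⟩
  · rintro x y _ _ ⟨g, hg, hx⟩ ⟨h, hh, hy⟩
    exact ⟨g + h, (EPol k G).add_mem hg hh, fun t => by simp [hx t, hy t]⟩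
  · rintro x y _ _ ⟨g, hg, hx⟩ ⟨h, hh, hy⟩
    exact ⟨g * h, (EPol k G).mul_mem hg hh, fun t => by simp [hx t, hy t]⟩

/-- The products of a power of `t` and an exponential. -/
def epolAGen (k : Type) [Field k] (G : Subgroup kˣ) : Set (ℕ → k) :=
  {f | ∃ (a : ℕ) (ρ : kˣ), ρ ∈ G ∧ f = fun t : ℕ => (t : k) ^ a * (ρ : k) ^ t}

theorem epolA_gen_mem {a : ℕ} {ρ : kˣ} (hρ : ρ ∈ G) :
    (fun t : ℕ => (t : k) ^ a * (ρ : k) ^ t) ∈ EPol k G :=
  (EPol k G).mul_mem ((EPol k G).pow_mem epolA_id a) (epolA_exp hρ)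

theorem epolA_span {f : ℕ → k} (hf : f ∈ EPol k G) :
    f ∈ Submodule.span k (epolAGen k G) := by
  have h1 : f ∈ Submodule.span k (Submonoid.closure
      (({fun t : ℕ => (t : k)} : Set (ℕ → k)) ∪
        {f | ∃ μ ∈ G, f = fun t : ℕ => ((μ : kˣ) : k) ^ t}) : Set (ℕ → k)) := by
    rw [← Algebra.adjoin_eq_span]
    exact hf
  refine Submodule.span_mono ?_ h1
  intro g hg
  refine Submonoid.closure_induction (motive := fun g _ => g ∈ epolAGen k G) ?_ ?_ ?_ hg
  · rintro x (rfl | ⟨μ, hμ, rfl⟩)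
    · exact ⟨1, 1, G.one_mem, by funext t; simp⟩
    · exact ⟨0, μ, hμ, by funext t; simp⟩
  · exact ⟨0, 1, G.one_mem, by funext t; simp⟩
  · rintro x y _ _ ⟨a, ρ, hρ, rfl⟩ ⟨b, σ, hσ, rfl⟩
    refine ⟨a + b, ρ * σ, G.mul_mem hρ hσ, ?_⟩
    funext t
    simp only [Pi.mul_apply, Units.val_mul]
    ring

theorem epolA_sum_one [CharZero k] (a : ℕ) :
    ∃ w ∈ EPol k G, ∀ t, w (t + 1) - w t = (t : k) ^ a := by
  induction a using Nat.strong_induction_on with
  | _ a ih =>
    choose! w hw hw' using ih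
    have ha : ((a : k) + 1) ≠ 0 := by exact_mod_cast Nat.succ_ne_zero a
    refine ⟨((a : k) + 1)⁻¹ • ((fun t : ℕ => (t : k)) ^ (a + 1) -
      ∑ j ∈ Finset.range a, ((a + 1).choose j : k) • w j), ?_, ?_⟩
    · refine (EPol k G).smul_mem ((EPol k G).sub_mem ((EPol k G).pow_mem epolA_id _)
        ((EPol k G).sum_mem fun j hj => (EPol k G).smul_mem ?_ _)) _
      exact hw j (Finset.mem_range.1 hj)
    · intro t
      have e1 : ((t : k) + 1) ^ (a + 1) = (t : k) ^ (a + 1) + ((a : k) + 1) * (t : k) ^ a +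
          ∑ j ∈ Finset.range a, ((a + 1).choose j : k) * (t : k) ^ j := by
        rw [add_pow, Finset.sum_range_succ, Finset.sum_range_succ]
        have : ∀ j, (t : k) ^ j * 1 ^ (a + 1 - j) * ((a + 1).choose j : k) =
            ((a + 1).choose j : k) * (t : k) ^ j := by
          intro j
          ring
        rw [Finset.sum_congr rfl fun j _ => this j]
        simp only [one_pow, mul_one, Nat.choose_self, Nat.cast_one, Nat.choose_succ_self_right,
          Nat.cast_add]
        ring
      have e2 : ∑ j ∈ Finset.range a, ((a + 1).choose j : k) * w j (t + 1) -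
          ∑ j ∈ Finset.range a, ((a + 1).choose j : k) * w j t =
          ∑ j ∈ Finset.range a, ((a + 1).choose j : k) * (t : k) ^ j := by
        rw [← Finset.sum_sub_distrib]
        refine Finset.sum_congr rfl fun j hj => ?_
        rw [← mul_sub, hw' j (Finset.mem_range.1 hj) t]
      simp only [Pi.smul_apply, Pi.sub_apply, Pi.pow_apply, Finset.sum_apply, smul_eq_mul,
        Nat.cast_add, Nat.cast_one]
      rw [← mul_sub, inv_mul_eq_iff_eq_mul₀ ha, e1]
      linear_combination -e2

theorem epolA_sum_exp {ρ : kˣ} (hρ : ρ ∈ G) (h1 : (ρ : k) ≠ 1) (a : ℕ) :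
    ∃ w ∈ EPol k G, ∀ t, w (t + 1) - w t = (t : k) ^ a * (ρ : k) ^ t := by
  induction a using Nat.strong_induction_on with
  | _ a ih =>
    choose! w hw hw' using ih
    have ha : ((ρ : k) - 1) ≠ 0 := sub_ne_zero.2 h1
    refine ⟨((ρ : k) - 1)⁻¹ • ((fun t : ℕ => (t : k) ^ a * (ρ : k) ^ t) -
      (ρ : k) • ∑ j ∈ Finset.range a, (a.choose j : k) • w j), ?_, ?_⟩
    · refine (EPol k G).smul_mem ((EPol k G).sub_mem (epolA_gen_mem hρ)
        ((EPol k G).smul_mem ((EPol k G).sum_mem fun j hj => (EPol k G).smul_mem ?_ _) _)) _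
      exact hw j (Finset.mem_range.1 hj)
    · intro t
      have e1 : ((t : k) + 1) ^ a = (t : k) ^ a +
          ∑ j ∈ Finset.range a, (a.choose j : k) * (t : k) ^ j := by
        rw [add_pow, Finset.sum_range_succ]
        have : ∀ j, (t : k) ^ j * 1 ^ (a - j) * (a.choose j : k) =
            (a.choose j : k) * (t : k) ^ j := by
          intro j
          ring
        rw [Finset.sum_congr rfl fun j _ => this j]
        simp only [one_pow, mul_one, Nat.choose_self, Nat.cast_one]
        ring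
      have e2 : ∑ j ∈ Finset.range a, (a.choose j : k) * w j (t + 1) -
          ∑ j ∈ Finset.range a, (a.choose j : k) * w j t =
          (∑ j ∈ Finset.range a, (a.choose j : k) * (t : k) ^ j) * (ρ : k) ^ t := by
        rw [← Finset.sum_sub_distrib, Finset.sum_mul]
        refine Finset.sum_congr rfl fun j hj => ?_
        rw [← mul_sub, hw' j (Finset.mem_range.1 hj) t]
        ring
      simp only [Pi.smul_apply, Pi.sub_apply, Finset.sum_apply, smul_eq_mul,
        Nat.cast_add, Nat.cast_one]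
      rw [← mul_sub, inv_mul_eq_iff_eq_mul₀ ha, e1, pow_succ]
      linear_combination -(ρ : k) * e2

/-- Exponential polynomials have discrete primitives. -/
theorem epolA_sum [CharZero k] {f : ℕ → k} (hf : f ∈ EPol k G) :
    ∃ w ∈ EPol k G, ∀ t, w (t + 1) - w t = f t := by
  refine Submodule.span_induction (p := fun f _ => ∃ w ∈ EPol k G, ∀ t, w (t + 1) - w t = f t)
    ?_ ?_ ?_ ?_ (epolA_span hf)
  · rintro g ⟨a, ρ, hρ, rfl⟩
    by_cases h1 : (ρ : k) = 1
    · obtain ⟨w, hw, hw'⟩ := epolA_sum_one (k := k) (G := G) a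
      exact ⟨w, hw, fun t => by rw [hw' t]; simp [h1]⟩
    · exact epolA_sum_exp hρ h1 a
  · exact ⟨0, (EPol k G).zero_mem, fun t => by simp⟩
  · rintro x y _ _ ⟨g, hg, hx⟩ ⟨h, hh, hy⟩
    refine ⟨g + h, (EPol k G).add_mem hg hh, fun t => ?_⟩
    simp only [Pi.add_apply]
    rw [← hx t, ← hy t]
    ring
  · rintro c x _ ⟨g, hg, hx⟩
    refine ⟨c • g, (EPol k G).smul_mem hg c, fun t => ?_⟩
    simp only [Pi.smul_apply, smul_eq_mul]
    rw [← hx t]
    ring

theorem epol_solve [CharZero k] {μ : kˣ} (hμ : μ ∈ G) {f v : ℕ → k} (hf : f ∈ EPol k G)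
    (hv : ∀ t, v (t + 1) = (μ : k) * v t + f t) : v ∈ EPol k G := by
  have hμ' : (μ : k) ≠ 0 := μ.ne_zero
  have hg : ((fun _ : ℕ => (μ : k)⁻¹) * (fun t : ℕ => ((μ⁻¹ : kˣ) : k) ^ t) * f) ∈ EPol k G :=
    (EPol k G).mul_mem ((EPol k G).mul_mem (epolA_const _) (epolA_exp (G.inv_mem hμ))) hf
  obtain ⟨w, hw, hw'⟩ := epolA_sum hg
  have key : ∀ t, v t = (μ : k) ^ t * (w t + (v 0 - w 0)) := by
    intro t
    induction t with
    | zero => simp
    | succ t ih =>
      have h1 := hw' t
      simp only [Pi.mul_apply, Units.val_inv_eq_inv_val] at h1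
      have h2 : w (t + 1) = w t + (μ : k)⁻¹ * (μ : k)⁻¹ ^ t * f t := by
        rw [← h1]
        ring
      rw [hv t, h2, ih, pow_succ]
      have h3 : (μ : k) ^ t * (μ : k) * ((μ : k)⁻¹ * (μ : k)⁻¹ ^ t * f t) = f t := by
        rw [inv_pow]
        field_simp
      linear_combination -h3
  have : v = (fun t : ℕ => (μ : k) ^ t) * (w + fun _ => (v 0 - w 0)) := by
    funext t
    simp only [Pi.mul_apply, Pi.add_apply]
    exact key t
  rw [this]
  exact (EPol k G).mul_mem (epolA_exp hμ) ((EPol k G).add_mem hw (epolA_const _))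

end Pool.Agent.Helper89.TNL

end

section

/-!
# Exponential polynomials with infinitely many zeros
-/

set_option autoImplicit false

namespace Pool.Agent.Helper89.TNL

variable {k : Type} [Field k] {G : Subgroup kˣ}

theorem skolem [Algebra k ℂ] (hG : TorsFree G) {f : ℕ → k} (hf : f ∈ EPol k G)
    (hinf : {t | f t = 0}.Infinite) : f = 0 := by
  have : CharZero k := (algebraMap k ℂ).charZero
  exact Pool.Agent.Helper65.TNL.epol_skolem hG hf hinf

end Pool.Agent.Helper89.TNL

end

section

/-!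
# Sequences in the valuation ring whose digits are exponential polynomials
-/

set_option autoImplicit false

namespace Pool.Agent.Helper89.TNL

open MvPolynomial

variable {R k : Type} [CommRing R] [IsDomain R] [Field k] [Algebra k R] {π : R} {χ : R →+* k}
  {G : Subgroup kˣ}

omit [IsDomain R] in
theorem EPR_dig_step (hR : Res π χ) (r : R) : ∃ r' : R, r = algebraMap k R (χ r) + π * r' := by
  have h : π ∣ r - algebraMap k R (χ r) := by
    rw [← hR.ker, map_sub, hR.sec, sub_self]
  obtain ⟨r', h'⟩ := h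
  exact ⟨r', by rw [← h']; ring⟩

omit [IsDomain R] in
/-- The digits of an element of the valuation ring. -/
theorem exists_digits (hR : Res π χ) (r : R) :
    ∃ d : ℕ → k, ∀ I, π ^ I ∣ r - ∑ i ∈ Finset.range I, π ^ i * algebraMap k R (d i) := by
  choose g hg using EPR_dig_step hR
  refine ⟨fun i => χ (g^[i] r), fun I => ⟨g^[I] r, ?_⟩⟩
  induction I with
  | zero => simp
  | succ n ih =>
    rw [Finset.sum_range_succ, ← sub_sub, ih, Function.iterate_succ_apply']
    have h := hg (g^[n] r)
    calc π ^ n * g^[n] r - π ^ n * algebraMap k R (χ (g^[n] r)) =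
        π ^ n * (g^[n] r - algebraMap k R (χ (g^[n] r))) := by ring
      _ = π ^ n * (π * g (g^[n] r)) := by
        congr 1
        rw [sub_eq_iff_eq_add, add_comm]
        exact h
      _ = π ^ (n + 1) * g (g^[n] r) := by ring

theorem digits_unique (hR : Res π χ) {I : ℕ} {d d' : ℕ → k}
    (h : π ^ I ∣ ∑ i ∈ Finset.range I, π ^ i * algebraMap k R (d i) -
      ∑ i ∈ Finset.range I, π ^ i * algebraMap k R (d' i)) : ∀ i < I, d i = d' i := by
  induction I generalizing d d' with
  | zero => intro i hi; exact absurd hi (Nat.not_lt_zero i)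
  | succ n ih =>
    have hs : ∀ e : ℕ → k, ∑ i ∈ Finset.range (n + 1), π ^ i * algebraMap k R (e i) =
        algebraMap k R (e 0) + π * ∑ i ∈ Finset.range n, π ^ i * algebraMap k R (e (i + 1)) := by
      intro e
      rw [Finset.sum_range_succ', Finset.mul_sum, pow_zero, one_mul, add_comm]
      congr 1
      refine Finset.sum_congr rfl fun i _ => ?_
      ring
    rw [hs d, hs d'] at h
    have hχπ : χ π = 0 := (hR.ker π).2 dvd_rfl
    have h0 : d 0 = d' 0 := by
      have h1 : π ∣ algebraMap k R (d 0) +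
          π * ∑ i ∈ Finset.range n, π ^ i * algebraMap k R (d (i + 1)) -
          (algebraMap k R (d' 0) +
          π * ∑ i ∈ Finset.range n, π ^ i * algebraMap k R (d' (i + 1))) :=
        (dvd_pow_self π (Nat.succ_ne_zero n)).trans h
      have h2 := (hR.ker _).2 h1
      simp only [map_sub, map_add, map_mul, hχπ, zero_mul, add_zero, hR.sec] at h2
      exact sub_eq_zero.1 h2
    have h3 : π ^ n ∣ ∑ i ∈ Finset.range n, π ^ i * algebraMap k R (d (i + 1)) -
        ∑ i ∈ Finset.range n, π ^ i * algebraMap k R (d' (i + 1)) := by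
      have h4 : π * π ^ n ∣ π * (∑ i ∈ Finset.range n, π ^ i * algebraMap k R (d (i + 1)) -
          ∑ i ∈ Finset.range n, π ^ i * algebraMap k R (d' (i + 1))) := by
        rw [← pow_succ']
        refine h.trans (dvd_of_eq ?_)
        rw [h0]
        ring
      exact (mul_dvd_mul_iff_left hR.unif.prime.ne_zero).1 h4
    have h5 := ih h3
    intro i hi
    rcases i with _ | i
    · exact h0
    · exact h5 i (Nat.lt_of_succ_lt_succ hi)

omit [IsDomain R] in
theorem epr_const (hR : Res π χ) (I : ℕ) (r : R) : EPR G π I (fun _ => r) := by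
  obtain ⟨d, hd⟩ := exists_digits hR r
  exact ⟨0, fun i _ => d i, fun i => (EPol k G).algebraMap_mem (d i), fun _ _ => hd I⟩

omit [IsDomain R] in
theorem epr_add {I : ℕ} {f g : ℕ → R} (hf : EPR G π I f) (hg : EPR G π I g) :
    EPR G π I (fun t => f t + g t) := by
  obtain ⟨T, φ, h1, h2⟩ := hf
  obtain ⟨T', ψ, h3, h4⟩ := hg
  refine ⟨max T T', fun i => φ i + ψ i, fun i => (EPol k G).add_mem (h1 i) (h3 i),
    fun t ht => ?_⟩
  refine (dvd_add (h2 t (le_trans (le_max_left _ _) ht))
    (h4 t (le_trans (le_max_right _ _) ht))).trans (dvd_of_eq ?_)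
  simp only [Pi.add_apply, map_add, mul_add, Finset.sum_add_distrib]
  ring

omit [IsDomain R] in
theorem EPR_cauchy (I : ℕ) (x y : ℕ → R) :
    π ^ I ∣ (∑ i ∈ Finset.range I, π ^ i * x i) * (∑ j ∈ Finset.range I, π ^ j * y j) -
      ∑ n ∈ Finset.range I, π ^ n * ∑ p ∈ Finset.HasAntidiagonal.antidiagonal n, x p.1 * y p.2 := by
  have e1 : (∑ i ∈ Finset.range I, π ^ i * x i) * (∑ j ∈ Finset.range I, π ^ j * y j) =
      ∑ p ∈ Finset.range I ×ˢ Finset.range I, π ^ (p.1 + p.2) * (x p.1 * y p.2) := by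
    rw [Finset.sum_mul_sum, ← Finset.sum_product']
    refine Finset.sum_congr rfl fun p _ => ?_
    ring
  have e2 : ∑ n ∈ Finset.range I, π ^ n *
      ∑ p ∈ Finset.HasAntidiagonal.antidiagonal n, x p.1 * y p.2 =
      ∑ p ∈ (Finset.range I ×ˢ Finset.range I).filter (fun p => p.1 + p.2 < I),
        π ^ (p.1 + p.2) * (x p.1 * y p.2) := by
    rw [← Finset.sum_fiberwise_of_maps_to (s := (Finset.range I ×ˢ Finset.range I).filter
      (fun p : ℕ × ℕ => p.1 + p.2 < I)) (t := Finset.range I) (g := fun p : ℕ × ℕ => p.1 + p.2)]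
    · refine Finset.sum_congr rfl fun n hn => ?_
      rw [Finset.mul_sum]
      refine Finset.sum_congr ?_ fun p hp => ?_
      · ext p
        simp only [Finset.HasAntidiagonal.mem_antidiagonal, Finset.mem_filter, Finset.mem_product,
          Finset.mem_range] at hn ⊢
        omega
      · simp only [Finset.mem_filter] at hp
        rw [hp.2]
    · intro p hp
      simp only [Finset.mem_filter] at hp
      exact Finset.mem_range.2 hp.2
  rw [e1, e2, ← Finset.sum_filter_add_sum_filter_not (Finset.range I ×ˢ Finset.range I)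
    (fun p : ℕ × ℕ => p.1 + p.2 < I), add_sub_cancel_left]
  refine Finset.dvd_sum fun p hp => ?_
  simp only [Finset.mem_filter, not_lt] at hp
  exact (pow_dvd_pow π hp.2).mul_right _

omit [IsDomain R] in
theorem epr_mul {I : ℕ} {f g : ℕ → R} (hf : EPR G π I f) (hg : EPR G π I g) :
    EPR G π I (fun t => f t * g t) := by
  obtain ⟨T, φ, h1, h2⟩ := hf
  obtain ⟨T', ψ, h3, h4⟩ := hg
  refine ⟨max T T', fun n => ∑ p ∈ Finset.HasAntidiagonal.antidiagonal n, φ p.1 * ψ p.2, fun n =>
    (EPol k G).sum_mem fun p _ => (EPol k G).mul_mem (h1 p.1) (h3 p.2), fun t ht => ?_⟩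
  have a := h2 t (le_trans (le_max_left _ _) ht)
  have b := h4 t (le_trans (le_max_right _ _) ht)
  have c := EPR_cauchy (π := π) I (fun i => algebraMap k R (φ i t))
    (fun i => algebraMap k R (ψ i t))
  set A := ∑ i ∈ Finset.range I, π ^ i * algebraMap k R (φ i t) with hA
  set B := ∑ i ∈ Finset.range I, π ^ i * algebraMap k R (ψ i t) with hB
  have e : ∑ n ∈ Finset.range I, π ^ n *
      algebraMap k R ((∑ p ∈ Finset.HasAntidiagonal.antidiagonal n, φ p.1 * ψ p.2) t) =
      ∑ n ∈ Finset.range I, π ^ n * ∑ p ∈ Finset.HasAntidiagonal.antidiagonal n,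
        algebraMap k R (φ p.1 t) * algebraMap k R (ψ p.2 t) := by
    refine Finset.sum_congr rfl fun n _ => ?_
    rw [Finset.sum_apply, map_sum]
    congr 1
    refine Finset.sum_congr rfl fun p _ => ?_
    rw [Pi.mul_apply, map_mul]
  have d : f t * g t - ∑ n ∈ Finset.range I, π ^ n *
      algebraMap k R ((∑ p ∈ Finset.HasAntidiagonal.antidiagonal n, φ p.1 * ψ p.2) t) =
      (f t - A) * g t + A * (g t - B) + (A * B - ∑ n ∈ Finset.range I, π ^ n *
        ∑ p ∈ Finset.HasAntidiagonal.antidiagonal n,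
          algebraMap k R (φ p.1 t) * algebraMap k R (ψ p.2 t)) := by
    rw [e]; ring
  rw [d]
  exact dvd_add (dvd_add (a.mul_right _) (b.mul_left _)) c

omit [IsDomain R] in
theorem epr_pi {I : ℕ} {f : ℕ → R} (hf : EPR G π I f) :
    EPR G π (I + 1) (fun t => π * f t) := by
  obtain ⟨T, φ, h1, h2⟩ := hf
  refine ⟨T, fun i => Nat.casesOn i 0 φ, fun i => ?_, fun t ht => ?_⟩
  · rcases i with _ | i
    · exact (EPol k G).zero_mem
    · exact h1 i
  · obtain ⟨c, hc⟩ := h2 t ht
    refine ⟨c, ?_⟩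
    rw [Finset.sum_range_succ']
    have e : ∑ i ∈ Finset.range I, π ^ (i + 1) * algebraMap k R (φ i t) =
        π * ∑ i ∈ Finset.range I, π ^ i * algebraMap k R (φ i t) := by
      rw [Finset.mul_sum]
      refine Finset.sum_congr rfl fun i _ => ?_
      ring
    have e0 : (π ^ 0 * algebraMap k R ((0 : ℕ → k) t) : R) = 0 := by simp
    calc π * f t - (∑ i ∈ Finset.range I, π ^ (i + 1) * algebraMap k R (φ i t) +
          π ^ 0 * algebraMap k R ((0 : ℕ → k) t)) =
        π * (f t - ∑ i ∈ Finset.range I, π ^ i * algebraMap k R (φ i t)) := by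
          rw [e, e0]; ring
      _ = π ^ (I + 1) * c := by rw [hc]; ring

omit [IsDomain R] in
theorem epr_congr {I : ℕ} {f g : ℕ → R} (hf : EPR G π I f) {T : ℕ}
    (h : ∀ t, T ≤ t → π ^ I ∣ g t - f t) : EPR G π I g := by
  obtain ⟨T', φ, h1, h2⟩ := hf
  refine ⟨max T T', φ, h1, fun t ht => ?_⟩
  refine (dvd_add (h t (le_trans (le_max_left _ _) ht))
    (h2 t (le_trans (le_max_right _ _) ht))).trans (dvd_of_eq ?_)
  ring

omit [IsDomain R] in
theorem epr_unshift {I : ℕ} {f : ℕ → R} (hf : EPR G π I (fun t => f (t + 1))) :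
    EPR G π I f := by
  obtain ⟨T, φ, h1, h2⟩ := hf
  choose ψ hψ hψ' using fun i => epol_unshift (h1 i)
  refine ⟨T + 1, ψ, hψ, fun t ht => ?_⟩
  rcases t with _ | t
  · exact absurd ht (Nat.not_succ_le_zero T)
  · refine (h2 t (Nat.le_of_succ_le_succ ht)).trans (dvd_of_eq ?_)
    simp only [hψ']

theorem epr_eval (hR : Res π χ) {ι : Type} {I : ℕ} {ξ : ℕ → ι → R}
    (hξ : ∀ i, EPR G π I (fun t => ξ t i)) (P : MvPolynomial ι R) :
    EPR G π I (fun t => eval (ξ t) P) := by
  induction P using MvPolynomial.induction_on with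
  | C a => simpa only [eval_C] using epr_const hR I a
  | add p q hp hq => simpa only [map_add] using epr_add hp hq
  | mul_X p i hp => simpa only [map_mul, eval_X] using epr_mul hp (hξ i)

/-- A sequence of this kind with infinitely many values divisible by `π ^ I`. -/
theorem epr_zero [Algebra k ℂ] (hR : Res π χ) (hG : TorsFree G) {I : ℕ} {f : ℕ → R}
    (hf : EPR G π I f) (hinf : {t | π ^ I ∣ f t}.Infinite) : ∃ T, ∀ t, T ≤ t → π ^ I ∣ f t := by
  obtain ⟨T, φ, h1, h2⟩ := hf
  have key : ∀ t, T ≤ t → π ^ I ∣ f t → ∀ i < I, φ i t = 0 := by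
    intro t ht hd
    have h3 : π ^ I ∣ ∑ i ∈ Finset.range I, π ^ i * algebraMap k R ((fun i => φ i t) i) -
        ∑ i ∈ Finset.range I, π ^ i * algebraMap k R ((fun _ => (0 : k)) i) := by
      have h4 := dvd_sub hd (h2 t ht)
      refine h4.trans (dvd_of_eq ?_)
      simp
    exact digits_unique hR h3
  have h5 : ∀ i < I, φ i = 0 := by
    intro i hi
    refine skolem hG (h1 i) ?_
    refine Set.Infinite.mono (s := {t | π ^ I ∣ f t} \ {t | t < T}) ?_
      (hinf.sdiff (Set.finite_lt_nat T))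
    intro t ht
    exact key t (not_lt.1 ht.2) ht.1 i hi
  refine ⟨T, fun t ht => ?_⟩
  have h6 := h2 t ht
  have h7 : ∑ i ∈ Finset.range I, π ^ i * algebraMap k R (φ i t) = 0 := by
    refine Finset.sum_eq_zero fun i hi => ?_
    rw [h5 i (Finset.mem_range.1 hi)]
    simp
  rwa [h7, sub_zero] at h6

end Pool.Agent.Helper89.TNL

end

section

/-!
# Exponential polynomials: systems of linear recursions
-/

set_option autoImplicit false

namespace Pool.Agent.Helper89.TNL

variable {k : Type} [Field k] {G : Subgroup kˣ}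

theorem epolB_mulVec {α : Type} [Fintype α] (N : Matrix α α k) {g : α → ℕ → k}
    (hg : ∀ a, g a ∈ EPol k G) (a : α) :
    (fun t => N.mulVec (fun b => g b t) a) ∈ EPol k G := by
  have : (fun t => N.mulVec (fun b => g b t) a) = ∑ b, N a b • g b := by
    funext t
    simp [Matrix.mulVec, dotProduct]
  rw [this]
  exact (EPol k G).sum_mem fun b _ => (EPol k G).smul_mem (hg b) _

theorem epolB_roots [CharZero k] {α : Type} [Fintype α] [DecidableEq α]
    (M : Matrix α α k) {f v : α → ℕ → k} (hf : ∀ a, f a ∈ EPol k G)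
    (hv : ∀ t a, v a (t + 1) = ∑ b, M a b * v b t + f a t) (l : Multiset k)
    (hl : ∀ μ ∈ l, ∃ u ∈ G, ((u : kˣ) : k) = μ)
    (h : ∀ a, (fun t => (Polynomial.aeval M (l.map fun μ => Polynomial.X - Polynomial.C μ).prod
      ).mulVec (fun b => v b t) a) ∈ EPol k G) :
    ∀ a, v a ∈ EPol k G := by
  induction l using Multiset.induction_on with
  | empty =>
    intro a
    have := h a
    simpa using this
  | cons μ l ih =>
    apply ih (fun μ' hμ' => hl μ' (Multiset.mem_cons_of_mem hμ'))
    intro a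
    obtain ⟨u, hu, rfl⟩ := hl μ (Multiset.mem_cons_self μ l)
    have hcomm : Polynomial.aeval M (l.map fun μ => Polynomial.X - Polynomial.C μ).prod * M =
        M * Polynomial.aeval M (l.map fun μ => Polynomial.X - Polynomial.C μ).prod := by
      have := congrArg (Polynomial.aeval M) (mul_comm
        (l.map fun μ => Polynomial.X - Polynomial.C μ).prod (Polynomial.X : Polynomial k))
      simpa only [map_mul, Polynomial.aeval_X] using this
    have h' : ∀ a, (fun t => ((M - Matrix.scalar α (u : k)) *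
        Polynomial.aeval M (l.map fun μ => Polynomial.X - Polynomial.C μ).prod
        ).mulVec (fun b => v b t) a) ∈ EPol k G := by
      intro a
      have := h a
      rw [Multiset.map_cons, Multiset.prod_cons, map_mul, map_sub, Polynomial.aeval_X,
        Polynomial.aeval_C] at this
      exact this
    set N := Polynomial.aeval M (l.map fun μ => Polynomial.X - Polynomial.C μ).prod with hN
    refine epol_solve hu ((EPol k G).add_mem (h' a) (epolB_mulVec N hf a)) (fun t => ?_)
    have hv' : (fun b => v b (t + 1)) = M.mulVec (fun b => v b t) + fun b => f b t := by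
      funext b
      rw [hv t b]
      rfl
    show N.mulVec (fun b => v b (t + 1)) a = _
    rw [hv', Matrix.mulVec_add, Matrix.mulVec_mulVec, hcomm]
    simp only [Pi.add_apply]
    rw [sub_mul, Matrix.sub_mulVec]
    have : (Matrix.scalar α (u : k) * N).mulVec (fun b => v b t) a =
        (u : k) * N.mulVec (fun b => v b t) a := by
      rw [← Matrix.mulVec_mulVec]
      simp [Matrix.scalar_apply, Matrix.mulVec_diagonal]
    simp only [Pi.sub_apply]
    rw [this]
    ring

theorem epol_solve_vec [IsAlgClosed k] [CharZero k] {α : Type} [Fintype α] [DecidableEq α]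
    (M : Matrix α α k) (hM : EigIn G M) {f v : α → ℕ → k} (hf : ∀ a, f a ∈ EPol k G)
    (hv : ∀ t a, v a (t + 1) = ∑ b, M a b * v b t + f a t) : ∀ a, v a ∈ EPol k G := by
  have hs : (M.charpoly.roots.map fun μ => Polynomial.X - Polynomial.C μ).prod = M.charpoly :=
    ((IsAlgClosed.splits M.charpoly).eq_prod_roots_of_monic M.charpoly_monic).symm
  refine epolB_roots M hf hv M.charpoly.roots (fun μ hμ => hM μ (Polynomial.isRoot_of_mem_roots hμ))
    (fun a => ?_)
  rw [hs, Matrix.aeval_self_charpoly]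
  simp only [Matrix.zero_mulVec]
  exact (EPol k G).zero_mem

theorem epolB_shift {f : ℕ → k} (hf : f ∈ EPol k G) (T : ℕ) :
    (fun t => f (t + T)) ∈ EPol k G := by
  induction T with
  | zero => exact hf
  | succ T ih =>
    have := epol_shift ih
    have e : (fun t => f (t + 1 + T)) = fun t => f (t + (T + 1)) := by
      funext t
      congr 1
      omega
    rw [← e]
    exact this

theorem epolB_unshift {f : ℕ → k} (hf : f ∈ EPol k G) (T : ℕ) :
    ∃ g ∈ EPol k G, ∀ t, g (t + T) = f t := by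
  induction T with
  | zero => exact ⟨f, hf, fun t => rfl⟩
  | succ T ih =>
    obtain ⟨g, hg, hg'⟩ := ih
    obtain ⟨h, hh, hh'⟩ := epol_unshift hg
    refine ⟨h, hh, fun t => ?_⟩
    rw [← hg' t, ← hh' (t + T)]
    rfl

/-- The same for a recursion which holds from some time on: `v` agrees with exponential
polynomials from this time on. -/
theorem epol_solve_late [IsAlgClosed k] [CharZero k] {α : Type} [Fintype α] [DecidableEq α]
    (M : Matrix α α k) (hM : EigIn G M) {f v : α → ℕ → k} (hf : ∀ a, f a ∈ EPol k G) {T : ℕ}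
    (hv : ∀ t, T ≤ t → ∀ a, v a (t + 1) = ∑ b, M a b * v b t + f a t) :
    ∃ w : α → ℕ → k, (∀ a, w a ∈ EPol k G) ∧ ∀ t, T ≤ t → ∀ a, v a t = w a t := by
  have h1 : ∀ a, (fun t => v a (t + T)) ∈ EPol k G := by
    refine epol_solve_vec M hM (f := fun a t => f a (t + T)) (v := fun a t => v a (t + T))
      (fun a => epolB_shift (hf a) T) (fun t a => ?_)
    have := hv (t + T) (Nat.le_add_left _ _) a
    rw [← this]
    congr 1
    omega
  choose w hw hw' using fun a => epolB_unshift (h1 a) T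
  refine ⟨w, hw, fun t ht a => ?_⟩
  obtain ⟨s, rfl⟩ := Nat.exists_eq_add_of_le ht
  rw [Nat.add_comm T s, hw' a s]

end Pool.Agent.Helper89.TNL

end
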