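import Pool.Agent.Helper29.MG2.T27

section

/-!
# Powers of a matrix: invertible part and zero part, eigenvalues in a torsion free group
-/

set_option autoImplicit false

namespace Pool.Agent.Helper89.TNL

/-- The `t`-th powers of the elements of a finitely generated group of units form, for some `t`, a
torsion free group. -/
theorem fitting_torsFree {k : Type} [Field k] (s : Set kˣ) (hs : s.Finite) :
    ∃ t : ℕ, 0 < t ∧ TorsFree ((Subgroup.closure s).map (powMonoidHom t)) := by
  classical
  set Γ : Subgroup kˣ := Subgroup.closure s with hΓ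
  have hfg : Γ.FG := ⟨hs.toFinset, by simp [hΓ]⟩
  have : Group.FG Γ := (Group.fg_iff_subgroup_fg Γ).2 hfg
  have : AddGroup.FG (Additive Γ) := inferInstance
  have : Module.Finite ℤ (Additive Γ) := Module.Finite.iff_addGroup_fg.2 this
  have hfin : Finite (Submodule.torsion ℤ (Additive Γ)) :=
    Module.finite_of_fg_torsion _ (Submodule.torsion_isTorsion)
  refine ⟨Nat.card (Submodule.torsion ℤ (Additive Γ)), Nat.card_pos, ?_⟩
  rintro μ ⟨x, hx, rfl⟩ n hn h1
  have hmem : (Additive.ofMul (⟨x, hx⟩ : Γ)) ∈ Submodule.torsion ℤ (Additive Γ) := by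
    rw [Submodule.mem_torsion_iff]
    refine ⟨⟨((Nat.card (Submodule.torsion ℤ (Additive Γ)) * n : ℕ) : ℤ), ?_⟩, ?_⟩
    · rw [mem_nonZeroDivisors_iff_ne_zero]
      have := Nat.card_pos (α := Submodule.torsion ℤ (Additive Γ))
      exact_mod_cast (Nat.mul_pos this hn).ne'
    · show ((Nat.card (Submodule.torsion ℤ (Additive Γ)) * n : ℕ) : ℤ) •
        (Additive.ofMul (⟨x, hx⟩ : Γ)) = 0
      rw [natCast_zsmul, ← ofMul_pow]
      have : (⟨x, hx⟩ : Γ) ^ (Nat.card (Submodule.torsion ℤ (Additive Γ)) * n) = 1 := by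
        apply Subtype.ext
        have h2 : (x ^ Nat.card (Submodule.torsion ℤ (Additive Γ))) ^ n = 1 := h1
        simpa [pow_mul] using h2
      rw [this, ofMul_one]
  have h3 : Nat.card (Submodule.torsion ℤ (Additive Γ)) •
      (⟨_, hmem⟩ : Submodule.torsion ℤ (Additive Γ)) = 0 := card_nsmul_eq_zero'
  have h4 := congrArg Subtype.val h3
  have h5 : Nat.card (Submodule.torsion ℤ (Additive Γ)) • (Additive.ofMul (⟨x, hx⟩ : Γ)) = 0 := h4
  rw [← ofMul_pow, ofMul_eq_zero] at h5
  have h6 := congrArg Subtype.val h5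
  simpa using h6

/-- Some power of a matrix is, in a suitable basis, the direct sum of zero and of an invertible
matrix with eigenvalues in a torsion free group. -/
theorem exists_fitting {k : Type} [Field k] [IsAlgClosed k] [CharZero k] {n : ℕ}
    (M : Matrix (Fin n) (Fin n) k) :
    ∃ (Q m m' : ℕ) (P : Matrix (Fin n) (Fin m ⊕ Fin m') k)
      (P' : Matrix (Fin m ⊕ Fin m') (Fin n) k) (M₁ : Matrix (Fin m) (Fin m) k)
      (G : Subgroup kˣ), 0 < Q ∧ P * P' = 1 ∧ P' * P = 1 ∧
      P' * M ^ Q * P = Matrix.fromBlocks M₁ 0 0 0 ∧ M₁.det ≠ 0 ∧ TorsFree G ∧ EigIn G M₁ := by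
  classical
  set f : Module.End k (Fin n → k) := Matrix.toLin' M with hf
  obtain ⟨e₀, he₀⟩ := Filter.eventually_atTop.1 f.eventually_isCompl_ker_pow_range_pow
  obtain ⟨e, he1, hc⟩ : ∃ e, 1 ≤ e ∧ IsCompl (LinearMap.ker (f ^ e)) (LinearMap.range (f ^ e)) :=
    ⟨e₀ + 1, by omega, he₀ _ (by omega)⟩
  set U := LinearMap.range (f ^ e) with hU
  set K := LinearMap.ker (f ^ e) with hK
  have hUf : ∀ x ∈ U, f x ∈ U := by
    rintro x ⟨y, rfl⟩
    exact ⟨f y, by rw [← Module.End.mul_apply, ← Module.End.mul_apply, ← pow_succ, ← pow_succ']⟩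
  set g : Module.End k U := f.restrict hUf with hg
  have hginj : Function.Injective g := by
    rw [injective_iff_map_eq_zero]
    intro x hx
    have hx1 : f (x : Fin n → k) = 0 := congrArg Subtype.val hx
    have hx2 : (x : Fin n → k) ∈ K := by
      rw [hK, LinearMap.mem_ker]
      obtain ⟨e', rfl⟩ := Nat.exists_eq_add_of_le' he1
      rw [pow_succ, Module.End.mul_apply, hx1, map_zero]
    exact Subtype.ext (Submodule.disjoint_def.1 hc.disjoint _ hx2 x.2)
  have hgdet : LinearMap.det g ≠ 0 := by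
    intro h0
    have := LinearMap.bot_lt_ker_of_det_eq_zero h0
    rw [LinearMap.ker_eq_bot.2 hginj] at this
    exact lt_irrefl _ this
  have hgpow : ∀ (N : ℕ) (x : U), ((g ^ N) x : Fin n → k) = (f ^ N) x := by
    intro N
    induction N with
    | zero => intro x; simp
    | succ N ih =>
      intro x
      rw [pow_succ, pow_succ, Module.End.mul_apply, Module.End.mul_apply, ih]
      rfl
  have b₁ := Module.finBasis k U
  have b₂ := Module.finBasis k K
  set A : Matrix _ _ k := LinearMap.toMatrix b₁ b₁ g with hA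
  have hAdet : A.det ≠ 0 := by rw [hA, LinearMap.det_toMatrix]; exact hgdet
  set s : Set kˣ := {u | (u : k) ∈ spectrum k A} with hs
  have hsfin : s.Finite := by
    have h1 : (spectrum k A).Finite := by
      have : spectrum k A ⊆ (A.charpoly.roots.toFinset : Set k) := by
        intro r hr
        rw [Matrix.mem_spectrum_iff_isRoot_charpoly] at hr
        simp only [Finset.mem_coe, Multiset.mem_toFinset]
        exact (Polynomial.mem_roots A.charpoly_monic.ne_zero).2 hr
      exact (Finset.finite_toSet _).subset this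
    exact h1.preimage (Units.val_injective.injOn)
  obtain ⟨t, ht, htf⟩ := fitting_torsFree s hsfin
  set Q := e * t with hQ
  have hQpos : 0 < Q := Nat.mul_pos he1 ht
  have hQe : e ≤ Q := Nat.le_mul_of_pos_right _ ht
  set b : Module.Basis _ k (Fin n → k) :=
    (b₁.prod b₂).map (Submodule.prodEquivOfIsCompl U K hc.symm) with hb
  have hbl : ∀ j, b (Sum.inl j) = (b₁ j : Fin n → k) := by
    intro j
    simp [hb]
  have hbr : ∀ j, b (Sum.inr j) = (b₂ j : Fin n → k) := by
    intro j
    simp [hb]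
  have hrepr : ∀ x : U, b.repr (x : Fin n → k) = (b₁.prod b₂).repr (x, 0) := by
    intro x
    rw [hb, Module.Basis.map_repr, LinearEquiv.trans_apply]
    congr 1
    rw [LinearEquiv.symm_apply_eq]
    simp
  set std := Pi.basisFun k (Fin n)
  refine ⟨Q, _, _, std.toMatrix b, b.toMatrix std, A ^ Q,
    (Subgroup.closure s).map (powMonoidHom t), hQpos, ?_, ?_, ?_, ?_, htf, ?_⟩
  · exact Module.Basis.toMatrix_mul_toMatrix_flip _ _
  · exact Module.Basis.toMatrix_mul_toMatrix_flip _ _
  · have h1 : M ^ Q = LinearMap.toMatrix std std (f ^ Q) := by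
      rw [hf, ← Matrix.toLin'_pow]
      exact (LinearMap.toMatrix'_toLin' _).symm
    rw [h1, basis_toMatrix_mul_linearMap_toMatrix_mul_basis_toMatrix]
    have h2 : A ^ Q = LinearMap.toMatrix b₁ b₁ (g ^ Q) := by
      rw [hA, LinearMap.toMatrix_pow]
    ext i j
    rw [LinearMap.toMatrix_apply]
    rcases j with j | j
    · rw [hbl, ← hgpow, hrepr]
      rcases i with i | i
      · rw [Matrix.fromBlocks_apply₁₁, h2, LinearMap.toMatrix_apply]
        simp
      · rw [Matrix.fromBlocks_apply₂₁]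
        simp
    · rw [hbr]
      have h3 : (f ^ Q) (b₂ j : Fin n → k) = 0 := by
        have h4 : (f ^ e) (b₂ j : Fin n → k) = 0 := (b₂ j).2
        obtain ⟨c, hc⟩ := Nat.exists_eq_add_of_le' hQe
        rw [hc, pow_add, Module.End.mul_apply, h4, map_zero]
      rw [h3, map_zero]
      rcases i with i | i <;> simp
  · rw [Matrix.det_pow]
    exact pow_ne_zero _ hAdet
  · intro μ hμ
    rw [← Matrix.mem_spectrum_iff_isRoot_charpoly, spectrum.map_pow_of_pos _ hQpos] at hμ
    obtain ⟨ν, hν, rfl⟩ := hμ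
    have hν0 : ν ≠ 0 := by
      rintro rfl
      rw [spectrum.zero_mem_iff, Matrix.isUnit_iff_isUnit_det, isUnit_iff_ne_zero] at hν
      exact hν hAdet
    refine ⟨(Units.mk0 ν hν0 ^ e) ^ t, ⟨Units.mk0 ν hν0 ^ e, ?_, rfl⟩, ?_⟩
    · exact pow_mem (Subgroup.subset_closure (by simpa [hs] using hν)) _
    · rw [← pow_mul]
      simp [hQ]

end Pool.Agent.Helper89.TNL

end
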