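import Pool.Agent.Helper29.MG2.T27

section

/-!
# Geometric sums of a matrix whose eigenvalues generate a torsion free group
-/

set_option autoImplicit false

namespace Pool.Agent.Helper89.TNL

theorem det_geom_ne_zero {k : Type} [Field k] [IsAlgClosed k] [CharZero k] {G : Subgroup kˣ}
    (hG : TorsFree G) {α : Type} [Fintype α] [DecidableEq α] (M : Matrix α α k)
    (hM : EigIn G M) (t : ℕ) (ht : 0 < t) : (∑ i ∈ Finset.range t, M ^ i).det ≠ 0 := by
  intro h0
  by_cases ht1 : t = 1
  · subst ht1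
    simp at h0
  have h2 : 2 ≤ t := by omega
  -- the polynomial
  have hp : (Polynomial.aeval M) (∑ i ∈ Finset.range t, (Polynomial.X : Polynomial k) ^ i) =
      ∑ i ∈ Finset.range t, M ^ i := by
    simp [map_sum]
  have hu : ¬ IsUnit (∑ i ∈ Finset.range t, M ^ i) := by
    rw [Matrix.isUnit_iff_isUnit_det, h0]
    exact not_isUnit_zero
  have hz : (0 : k) ∈ spectrum k (∑ i ∈ Finset.range t, M ^ i) := by
    rw [spectrum.zero_mem_iff]
    exact hu
  have hdeg : 0 < (∑ i ∈ Finset.range t, (Polynomial.X : Polynomial k) ^ i).degree := by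
    have h1 : ((∑ i ∈ Finset.range t, (Polynomial.X : Polynomial k) ^ i)).coeff (t - 1) = 1 := by
      rw [Polynomial.finsetSum_coeff]
      rw [Finset.sum_eq_single (t - 1)]
      · simp
      · intro b _ hb
        rw [Polynomial.coeff_X_pow]
        rw [if_neg (fun h => hb h.symm)]
      · intro h
        exact absurd (Finset.mem_range.2 (by omega)) h
    have h3 : ((t - 1 : ℕ) : WithBot ℕ) ≤
        (∑ i ∈ Finset.range t, (Polynomial.X : Polynomial k) ^ i).degree :=
      Polynomial.le_degree_of_ne_zero (by rw [h1]; exact one_ne_zero)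
    refine lt_of_lt_of_le ?_ h3
    exact_mod_cast (by omega : 0 < t - 1)
  rw [← hp, spectrum.map_polynomial_aeval_of_degree_pos M _ hdeg] at hz
  obtain ⟨μ, hμ, hev⟩ := hz
  have hr : M.charpoly.IsRoot μ := Matrix.mem_spectrum_iff_isRoot_charpoly.1 hμ
  obtain ⟨u, huG, hu'⟩ := hM μ hr
  have hev' : ∑ i ∈ Finset.range t, μ ^ i = 0 := by
    simpa [Polynomial.eval_finsetSum] using hev
  have hpow : μ ^ t = 1 := by
    have := geom_sum_mul μ t
    rw [hev', zero_mul] at this
    exact (sub_eq_zero.1 this.symm)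
  have hu1 : u ^ t = 1 := by
    apply Units.ext
    rw [Units.val_pow_eq_pow_val, hu', hpow, Units.val_one]
  have h1 := hG u huG t ht hu1
  have hμ1 : μ = 1 := by rw [← hu', h1, Units.val_one]
  rw [hμ1] at hev'
  simp at hev'
  omega

end Pool.Agent.Helper89.TNL

end

section

/-!
# Taylor expansions of first order
-/

set_option autoImplicit false

namespace Pool.Agent.Helper89.TNL

open MvPolynomial

variable {R ι : Type} [CommRing R] [Fintype ι] [DecidableEq ι]

omit [Fintype ι] in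
theorem Taylor_coeff_mul_X (P : MvPolynomial ι R) (i j : ι) :
    (P * X i).coeff (Finsupp.single j 1) = if i = j then P.coeff 0 else 0 := by
  rw [coeff_mul_X']
  by_cases h : i = j
  · subst h
    simp
  · rw [if_neg h, if_neg]
    rw [Finsupp.mem_support_iff, Finsupp.single_apply, not_not, if_neg (Ne.symm h)]

omit [Fintype ι] [DecidableEq ι] in
theorem Taylor_coeff_zero_mul_X (P : MvPolynomial ι R) (i : ι) : (P * X i).coeff 0 = 0 := by
  classical
  rw [coeff_mul_X']
  simp

omit [Fintype ι] [DecidableEq ι] in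
theorem Taylor_coeff_C (a : R) (j : ι) :
    (C a : MvPolynomial ι R).coeff (Finsupp.single j 1) = 0 := by
  classical
  rw [coeff_C, if_neg]
  intro h
  have := Finsupp.single_eq_zero.1 h.symm
  exact one_ne_zero this

theorem eval_zero_congr {π : R} (P : MvPolynomial ι R) {v : ι → R} (hv : ∀ i, π ∣ v i) :
    π ∣ eval v P - P.coeff 0 := by
  induction P using MvPolynomial.induction_on with
  | C a => simp
  | add P Q hP hQ =>
    rw [map_add, coeff_add]
    have e : eval v P + eval v Q - (P.coeff 0 + Q.coeff 0) =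
        (eval v P - P.coeff 0) + (eval v Q - Q.coeff 0) := by ring
    rw [e]
    exact dvd_add hP hQ
  | mul_X P i _ =>
    rw [Taylor_coeff_zero_mul_X, map_mul, eval_X, sub_zero]
    exact (hv i).mul_left _

theorem taylor_n {π : R} (P : MvPolynomial ι R) {v w : ι → R} (hv : ∀ i, π ∣ v i)
    (hw : ∀ i, π ∣ w i) :
    ∃ r : ι → R, eval v P - eval w P = ∑ i, (P.coeff (Finsupp.single i 1) + π * r i) *
      (v i - w i) := by
  induction P using MvPolynomial.induction_on with
  | C a =>
    refine ⟨fun _ => 0, ?_⟩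
    simp only [Taylor_coeff_C]
    simp
  | add P Q hP hQ =>
    obtain ⟨r, hr⟩ := hP
    obtain ⟨s, hs⟩ := hQ
    refine ⟨fun i => r i + s i, ?_⟩
    have e : eval v (P + Q) - eval w (P + Q) =
        (eval v P - eval w P) + (eval v Q - eval w Q) := by
      rw [map_add, map_add]
      ring
    rw [e, hr, hs, ← Finset.sum_add_distrib]
    refine Finset.sum_congr rfl fun i _ => ?_
    rw [coeff_add]
    ring
  | mul_X P i hP =>
    obtain ⟨r, hr⟩ := hP
    obtain ⟨c, hc⟩ := eval_zero_congr P hv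
    obtain ⟨t, ht⟩ := hw i
    refine ⟨fun j => (if i = j then c else 0) +
      t * (P.coeff (Finsupp.single j 1) + π * r j), ?_⟩
    have e : eval v (P * X i) - eval w (P * X i) =
        eval v P * (v i - w i) + w i * (eval v P - eval w P) := by
      rw [map_mul, map_mul, eval_X, eval_X]
      ring
    have e2 : eval v P = P.coeff 0 + π * c := by rw [← hc]; ring
    have e3 : ∀ j, ((P * X i).coeff (Finsupp.single j 1) + π * ((if i = j then c else 0) +
        t * (P.coeff (Finsupp.single j 1) + π * r j))) * (v j - w j) =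
        (if i = j then (P.coeff 0 + π * c) * (v j - w j) else 0) +
        π * t * ((P.coeff (Finsupp.single j 1) + π * r j) * (v j - w j)) := by
      intro j
      rw [Taylor_coeff_mul_X]
      split_ifs
      · ring
      · ring
    rw [e, hr]
    simp only [e3]
    rw [Finset.sum_add_distrib, ← Finset.mul_sum, Finset.sum_ite_eq, if_pos (Finset.mem_univ i),
      e2, ht]

/-- The expansion at a point of the polydisc, in a rescaled variable. -/
theorem taylor_res {π : R} (P : MvPolynomial ι R) {v : ι → R} (hv : ∀ i, π ∣ v i) {e : ℕ}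
    (he : 1 ≤ e) : ∃ Q : MvPolynomial ι R, ∀ u : ι → R,
      eval (fun i => v i + π ^ e * u i) P = eval v P +
        π ^ e * (∑ i, P.coeff (Finsupp.single i 1) * u i + π * eval u Q) := by
  induction P using MvPolynomial.induction_on with
  | C a =>
    refine ⟨0, fun u => ?_⟩
    simp only [Taylor_coeff_C]
    simp
  | add P Q hP hQ =>
    obtain ⟨p, hp⟩ := hP
    obtain ⟨q, hq⟩ := hQ
    refine ⟨p + q, fun u => ?_⟩
    rw [map_add, map_add, map_add, hp, hq]
    simp only [coeff_add, add_mul, Finset.sum_add_distrib]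
    ring
  | mul_X P i hP =>
    obtain ⟨q, hq⟩ := hP
    obtain ⟨c, hc⟩ := eval_zero_congr P hv
    obtain ⟨t, ht⟩ := hv i
    obtain ⟨f, rfl⟩ : ∃ f, e = f + 1 := ⟨e - 1, by omega⟩
    obtain ⟨L, hL⟩ : ∃ L : MvPolynomial ι R,
        ∀ u, eval u L = ∑ j, P.coeff (Finsupp.single j 1) * u j :=
      ⟨∑ j, C (P.coeff (Finsupp.single j 1)) * X j, fun u => by simp⟩
    refine ⟨C c * X i + C t * (L + C π * q) + C (π ^ f) * (L + C π * q) * X i, fun u => ?_⟩
    have e2 : eval v P = P.coeff 0 + π * c := by rw [← hc]; ring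
    have e3 : ∑ j, (P * X i).coeff (Finsupp.single j 1) * u j = P.coeff 0 * u i := by
      simp only [Taylor_coeff_mul_X, ite_mul, zero_mul]
      rw [Finset.sum_ite_eq, if_pos (Finset.mem_univ i)]
    rw [e3, map_mul, map_mul, eval_X, eval_X, hq, ← hL]
    simp only [map_add, map_mul, eval_C, eval_X]
    rw [e2, ht]
    ring

/-- The restriction to a smaller polydisc is a polynomial. -/
theorem eval_resc (P : MvPolynomial ι R) (v : ι → R) (c : R) :
    ∃ Q : MvPolynomial ι R, ∀ u : ι → R, eval (fun i => v i + c * u i) P = eval u Q := by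
  induction P using MvPolynomial.induction_on with
  | C a => exact ⟨C a, fun u => by simp⟩
  | add P Q hP hQ =>
    obtain ⟨p, hp⟩ := hP
    obtain ⟨q, hq⟩ := hQ
    exact ⟨p + q, fun u => by rw [map_add, map_add, hp, hq]⟩
  | mul_X P i hP =>
    obtain ⟨p, hp⟩ := hP
    refine ⟨p * (C (v i) + C c * X i), fun u => ?_⟩
    rw [map_mul, eval_X, hp]
    simp

end Pool.Agent.Helper89.TNL

end

section

/-!
# Differences of the points of an orbit, and the recursion of the rescaled orbit
-/

set_option autoImplicit false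

namespace Pool.Agent.Helper89.TNL

open MvPolynomial

section aux

variable {R ι : Type} [CommRing R]

theorem Contr_geo (π : R) (L W G : MvPolynomial ι R) (I : ℕ) :
    ∃ P : MvPolynomial ι R, ∀ (u : ι → R) (y : R),
      y * (1 - π * eval u W) = eval u L + π * eval u G →
        π ^ I ∣ y - (eval u L + π * eval u P) := by
  induction I with
  | zero => exact ⟨0, fun u y _ => by simp⟩
  | succ I ih =>
    obtain ⟨P, hP⟩ := ih
    refine ⟨G + W * (L + C π * P), fun u y h => ?_⟩
    obtain ⟨z, hz⟩ := hP u y h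
    refine ⟨eval u W * z, ?_⟩
    simp only [map_add, map_mul, eval_C]
    linear_combination h + π * eval u W * hz

variable [Fintype ι] [DecidableEq ι]

theorem Contr_coord [IsDomain R] {π ω : R} (hπ0 : π ≠ 0) {v : ι → R}
    (hv : ∀ i, π ∣ v i) {e : ℕ} (he : 1 ≤ e) (B N : MvPolynomial ι R) (lam : ι → R)
    (hω : ω * B.coeff 0 ^ 2 = 1) (hN : π ∣ N.coeff 0)
    (hx : ∀ l, π ∣ N.coeff (Finsupp.single l 1) - B.coeff 0 * lam l) (I : ℕ) :
    ∃ P : MvPolynomial ι R, ∀ (u : ι → R) (y c : R), c * eval v B = eval v N →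
      (c + π ^ e * y) * eval (fun i => v i + π ^ e * u i) B =
        eval (fun i => v i + π ^ e * u i) N →
      π ^ I ∣ y - (∑ l, lam l * u l + π * eval u P) := by
  obtain ⟨QB, hQB⟩ := taylor_res B hv he
  obtain ⟨QN, hQN⟩ := taylor_res N hv he
  obtain ⟨m, hm⟩ := eval_zero_congr B hv
  obtain ⟨n₁, hn₁⟩ := eval_zero_congr N hv
  obtain ⟨n₂, hn₂⟩ := hN
  choose x hx using hx
  obtain ⟨e', rfl⟩ : ∃ e', e = e' + 1 := ⟨e - 1, by omega⟩
  set b₀ := B.coeff 0 with hb₀
  have hb : eval v B = b₀ + π * m := by linear_combination hm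
  have hn : eval v N = π * (n₁ + n₂) := by linear_combination hn₁ + hn₂
  obtain ⟨L, hL⟩ : ∃ L : MvPolynomial ι R, ∀ u, eval u L = ∑ l, lam l * u l :=
    ⟨∑ j, C (lam j) * X j, fun u => by simp⟩
  obtain ⟨Y, hY⟩ : ∃ Y : MvPolynomial ι R, ∀ u, eval u Y = ∑ l, x l * u l :=
    ⟨∑ j, C (x j) * X j, fun u => by simp⟩
  obtain ⟨TB, hTB⟩ : ∃ TB : MvPolynomial ι R, ∀ u, eval u TB =
      ∑ l, B.coeff (Finsupp.single l 1) * u l + π * eval u QB :=
    ⟨∑ j, C (B.coeff (Finsupp.single j 1)) * X j + C π * QB, fun u => by simp⟩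
  obtain ⟨P, hP⟩ := Contr_geo π L
    (-(C ω * (C (2 * b₀ * m + π * m ^ 2) + C (π ^ e' * (b₀ + π * m)) * TB)))
    (C ω * (C (b₀ * m) * L + (Y + QN) * C (b₀ + π * m) - C (n₁ + n₂) * TB)) I
  refine ⟨P, fun u y c hc h => ?_⟩
  rw [← hL]
  refine hP u y ?_
  rw [hQB, hQN, ← hTB] at h
  have hcN : ∑ l, N.coeff (Finsupp.single l 1) * u l = b₀ * eval u L + π * eval u Y := by
    rw [hL, hY, Finset.mul_sum, Finset.mul_sum, ← Finset.sum_add_distrib]
    refine Finset.sum_congr rfl fun l _ => ?_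
    linear_combination u l * hx l
  rw [hcN] at h
  have hcan : y * (eval v B + π ^ (e' + 1) * eval u TB) + c * eval u TB =
      b₀ * eval u L + π * eval u Y + π * eval u QN := by
    have h0 : π ^ (e' + 1) ≠ 0 := pow_ne_zero _ hπ0
    apply mul_left_cancel₀ h0
    linear_combination h - hc
  have hmul : y * ((eval v B + π ^ (e' + 1) * eval u TB) * eval v B) + eval v N * eval u TB =
      (b₀ * eval u L + π * eval u Y + π * eval u QN) * eval v B := by
    linear_combination eval v B * hcan - eval u TB * hc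
  rw [hb, hn] at hmul
  simp only [map_neg, map_mul, map_add, map_sub, eval_C]
  rw [pow_succ] at hmul
  linear_combination ω * hmul + (eval u L - y) * hω

end aux

variable {R k : Type} [CommRing R] [IsDomain R] [Field k] [Algebra k R] {π : R} {χ : R →+* k}
  {ι : Type} [Fintype ι] [DecidableEq ι] {A0 : MvPolynomial ι R} {A : ι → MvPolynomial ι R}

omit [IsDomain R] [Fintype ι] [DecidableEq ι] in
theorem Contr_lin (hR : Res π χ) {M : Matrix ι ι k} (hM : LinN χ A0 A M) (i l : ι) :
    π ∣ (A i).coeff (Finsupp.single l 1) - A0.coeff 0 * algebraMap k R (M i l) := by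
  rw [← hR.ker, map_sub, map_mul, hR.sec, hM, sub_self]

omit [IsDomain R] in
theorem Contr_unit (hR : Res π χ) (hA : GermN π A0 A) {v : ι → R} (hv : ∀ i, π ∣ v i) :
    IsUnit (eval v A0) := by
  refine hR.unif.unit _ fun hd => hA.c0 ?_
  exact (dvd_sub_right hd).1 (eval_zero_congr A0 hv)

/-- Differences of points of two orbits. -/
theorem germ_contr (hR : Res π χ) (hA : GermN π A0 A) {M : Matrix ι ι k} (hM : LinN χ A0 A M)
    {p q : ℕ → ι → R} (hp : OrbN π A0 A p) (hq : OrbN π A0 A q) (j j' : ℕ) :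
    ∃ N : ι → ι → R, ∀ i, p (j + 1) i - q (j' + 1) i =
      ∑ l, (algebraMap k R (M i l) + π * N i l) * (p j l - q j' l) := by
  have hsu := hp.small j
  have hsv := hq.small j'
  obtain ⟨r0, h0⟩ := taylor_n A0 hsu hsv
  choose r h using fun i => taylor_n (A i) hsu hsv
  obtain ⟨m, hm⟩ := eval_zero_congr A0 hsu
  choose n hn using fun i => eval_zero_congr (A i) hsv
  choose n' hn' using hA.c1
  choose x hx using fun i l => Contr_lin hR hM i l
  obtain ⟨u, hu⟩ := (Contr_unit hR hA hsu).exists_left_inv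
  obtain ⟨v, hv⟩ := (Contr_unit hR hA hsv).exists_left_inv
  refine ⟨fun i l => -(u * m * algebraMap k R (M i l)) + u * (x i l + r i l) -
    u * v * (n i + n' i) * (A0.coeff (Finsupp.single l 1) + π * r0 l), fun i => ?_⟩
  have e : p (j + 1) i - q (j' + 1) i = u * (eval (p j) (A i) - eval (q j') (A i)) -
      u * v * eval (q j') (A i) * (eval (p j) A0 - eval (q j') A0) := by
    rw [← hp.step, ← hq.step]
    linear_combination (-p (j + 1) i + q (j' + 1) i * eval (q j') A0 * v) * hu +
      (q (j' + 1) i - u * q (j' + 1) i * eval (q j') A0) * hv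
  rw [e, h, h0, Finset.mul_sum, Finset.mul_sum, ← Finset.sum_sub_distrib]
  refine Finset.sum_congr rfl fun l _ => ?_
  have hN : eval (q j') (A i) = π * (n i + n' i) := by linear_combination hn i + hn' i
  rw [hN]
  linear_combination u * (p j l - q j' l) * hx i l +
    algebraMap k R (M i l) * (p j l - q j' l) * (hu - u * hm)

/-- The recursion of the rescaled orbit. -/
theorem germ_rec (hR : Res π χ) (hA : GermN π A0 A) {M : Matrix ι ι k} (hM : LinN χ A0 A M)
    {p : ℕ → ι → R} (hp : OrbN π A0 A p) {j₀ e : ℕ} (he : 1 ≤ e) {ξ : ℕ → ι → R}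
    (hξ : ∀ t i, p (j₀ + t) i = p j₀ i + π ^ e * ξ t i) :
    ∃ c : ι → R, ∀ I : ℕ, ∃ P : ι → MvPolynomial ι R, ∀ t i,
      π ^ I ∣ ξ (t + 1) i - (c i + ∑ l, algebraMap k R (M i l) * ξ t l +
        π * eval (ξ t) (P i)) := by
  obtain ⟨ω₁, hω₁⟩ := (hR.unif.unit _ hA.c0).exists_left_inv
  have hω : ω₁ ^ 2 * A0.coeff 0 ^ 2 = 1 := by
    rw [← mul_pow, hω₁, one_pow]
  refine ⟨ξ 1, fun I => ?_⟩
  choose P hP using fun i => Contr_coord hR.unif.prime.ne_zero (hp.small j₀) he A0 (A i)
    (fun l => algebraMap k R (M i l)) hω (hA.c1 i) (fun l => Contr_lin hR hM i l) I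
  refine ⟨P, fun t i => ?_⟩
  have hpt : p (j₀ + t) = fun i => p j₀ i + π ^ e * ξ t i := funext (hξ t)
  have ha := hξ (t + 1) i
  have hb := hξ 1 i
  rw [← add_assoc] at ha
  have h := hP i (ξ t) (ξ (t + 1) i - ξ 1 i) (p (j₀ + 1) i) (hp.step j₀ i) (by
    rw [← hpt, ← hp.step]
    congr 1
    rw [ha, hb]; ring)
  convert h using 1
  ring

end Pool.Agent.Helper89.TNL

end

section

/-!
# Either the orbit converges or its points are separated
-/

set_option autoImplicit false

namespace Pool.Agent.Helper89.TNL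

open MvPolynomial

theorem dichotomy {R k : Type} [CommRing R] [IsDomain R] [Field k] [Algebra k R] {π : R}
    {χ : R →+* k} (hR : Res π χ) {α β : Type} [Fintype α] [DecidableEq α] [Fintype β]
    [DecidableEq β] {M₁ : Matrix α α k} (hM₁ : M₁.det ≠ 0)
    (hgeo : ∀ t, 0 < t → (∑ i ∈ Finset.range t, M₁ ^ i).det ≠ 0) {p : ℕ → α ⊕ β → R}
    (hcontr : ∀ j j', ∃ N : α ⊕ β → α ⊕ β → R, ∀ i, p (j + 1) i - p (j' + 1) i =
      ∑ l, (algebraMap k R (Matrix.fromBlocks M₁ 0 0 0 i l) + π * N i l) * (p j l - p j' l)) :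
    Conv π (fun s => p (s + 1)) p ∨
    ∃ (j₀ e : ℕ) (ξ : ℕ → α ⊕ β → R), (∀ t i, p (j₀ + t) i = p j₀ i + π ^ e * ξ t i) ∧
      ∀ t t', t ≠ t' → ∃ a : α, ¬ π ∣ ξ t (Sum.inl a) - ξ t' (Sum.inl a) := by
  classical
  by_cases hc : Conv π (fun s => p (s + 1)) p
  · exact Or.inl hc
  right
  have hπ : π ≠ 0 := hR.unif.prime.ne_zero
  have hstep : ∀ s, ∃ N : α ⊕ β → α ⊕ β → R, ∀ i, p (s + 1 + 1) i - p (s + 1) i =
      ∑ l, (algebraMap k R (Matrix.fromBlocks M₁ 0 0 0 i l) + π * N i l) *
        (p (s + 1) l - p s l) := fun s => hcontr (s + 1) s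
  have mono : ∀ e s, (∀ i, π ^ e ∣ p (s + 1) i - p s i) →
      ∀ i, π ^ e ∣ p (s + 1 + 1) i - p (s + 1) i := by
    intro e s h i
    obtain ⟨N, hN⟩ := hstep s
    rw [hN i]
    exact Finset.dvd_sum fun l _ => Dvd.dvd.mul_left (h l) _
  have mono' : ∀ e s t, (∀ i, π ^ e ∣ p (s + 1) i - p s i) →
      ∀ i, π ^ e ∣ p (s + t + 1) i - p (s + t) i := by
    intro e s t h
    induction t with
    | zero => simpa using h
    | succ t ih => exact mono e (s + t) ih
  have hex : ∃ I, ∀ s, ¬ ∀ i, π ^ I ∣ p (s + 1) i - p s i := by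
    by_contra hcon
    push Not at hcon
    apply hc
    intro I
    obtain ⟨s, hs⟩ := hcon I
    refine ⟨s, fun s' hs' i => ?_⟩
    obtain ⟨t, rfl⟩ := Nat.exists_eq_add_of_le hs'
    exact mono' I s t hs i
  obtain ⟨e, j₀, hj₀, hmax⟩ : ∃ e j₀, (∀ i, π ^ e ∣ p (j₀ + 1) i - p j₀ i) ∧
      ∀ s, ¬ ∀ i, π ^ (e + 1) ∣ p (s + 1) i - p s i := by
    have h1 := Nat.find_spec hex
    have h2 : Nat.find hex ≠ 0 := by
      intro h0
      rw [h0] at h1
      exact h1 0 (fun i => by simp)
    obtain ⟨e, he⟩ := Nat.exists_eq_succ_of_ne_zero h2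
    have h3 : ¬ ∀ s, ¬ ∀ i, π ^ e ∣ p (s + 1) i - p s i :=
      Nat.find_min hex (by omega)
    push Not at h3
    obtain ⟨j₀, hj₀⟩ := h3
    rw [he] at h1
    exact ⟨e, j₀, hj₀, h1⟩
  have hu : ∀ t, ∃ u : α ⊕ β → R, ∀ i, p (j₀ + t + 1) i - p (j₀ + t) i = π ^ e * u i := by
    intro t
    choose u hu using mono' e j₀ t hj₀
    exact ⟨u, hu⟩
  choose u hu using hu
  have hpe : π ^ e ≠ 0 := pow_ne_zero _ hπ
  have hnz : ∀ t, ∃ i, χ (u t i) ≠ 0 := by
    intro t
    by_contra hcon
    push Not at hcon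
    apply hmax (j₀ + t)
    intro i
    rw [hu t i, pow_succ]
    exact mul_dvd_mul_left _ ((hR.ker _).1 (hcon i))
  have hχπ : χ π = 0 := (hR.ker π).2 dvd_rfl
  have hrec : ∀ t i, χ (u (t + 1) i) =
      ∑ l, Matrix.fromBlocks M₁ 0 0 0 i l * χ (u t l) := by
    intro t i
    obtain ⟨N, hN⟩ := hstep (j₀ + t)
    have h1 : u (t + 1) i = ∑ l, (algebraMap k R (Matrix.fromBlocks M₁ 0 0 0 i l) +
        π * N i l) * u t l := by
      apply mul_left_cancel₀ hpe
      have h2 := hu (t + 1) i
      have h3 := hN i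
      rw [show j₀ + (t + 1) = j₀ + t + 1 by ring] at h2
      rw [← h2, h3, Finset.mul_sum]
      refine Finset.sum_congr rfl fun l _ => ?_
      rw [hu t l]
      ring
    rw [h1, map_sum]
    refine Finset.sum_congr rfl fun l _ => ?_
    rw [map_mul, map_add, map_mul, hχπ, hR.sec]
    ring
  have hinl : ∀ t, (fun a => χ (u (t + 1) (Sum.inl a))) =
      M₁.mulVec (fun a => χ (u t (Sum.inl a))) := by
    intro t
    funext a
    rw [hrec t, Fintype.sum_sum_type]
    simp [Matrix.mulVec, dotProduct]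
  have hinr : ∀ t b, χ (u (t + 1) (Sum.inr b)) = 0 := by
    intro t b
    rw [hrec t, Fintype.sum_sum_type]
    simp
  have hpow : ∀ t, (fun a => χ (u t (Sum.inl a))) =
      (M₁ ^ t).mulVec (fun a => χ (u 0 (Sum.inl a))) := by
    intro t
    induction t with
    | zero => simp
    | succ t ih => rw [hinl t, ih, Matrix.mulVec_mulVec, pow_succ']
  have hw0 : (fun a => χ (u 0 (Sum.inl a))) ≠ 0 := by
    intro h0
    obtain ⟨i, hi⟩ := hnz 1
    rcases i with a | b
    · apply hi
      have := congrFun (hpow 1) a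
      rw [h0, Matrix.mulVec_zero] at this
      exact this
    · exact hi (hinr 0 b)
  refine ⟨j₀, e, fun t i => ∑ s ∈ Finset.range t, u s i, ?_, ?_⟩
  · intro t i
    induction t with
    | zero => simp
    | succ t ih =>
      have h7 := hu t i
      have ih' : p (j₀ + t) i = p j₀ i + π ^ e * ∑ s ∈ Finset.range t, u s i := ih
      show p (j₀ + (t + 1)) i = p j₀ i + π ^ e * ∑ s ∈ Finset.range (t + 1), u s i
      rw [Finset.sum_range_succ, show j₀ + (t + 1) = j₀ + t + 1 by ring]
      linear_combination h7 + ih'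
  · have key : ∀ t m, 0 < m → ∃ a : α,
        χ (∑ s ∈ Finset.range (t + m), u s (Sum.inl a) -
          ∑ s ∈ Finset.range t, u s (Sum.inl a)) ≠ 0 := by
      intro t m hm
      by_contra hcon
      push Not at hcon
      have h1 : (∑ i ∈ Finset.range m, M₁ ^ i).mulVec
          ((M₁ ^ t).mulVec (fun a => χ (u 0 (Sum.inl a)))) = 0 := by
        funext a
        have h2 := hcon a
        rw [Finset.sum_range_add, add_sub_cancel_left, map_sum] at h2
        rw [Matrix.mulVec_mulVec, Finset.sum_mul, Matrix.sum_mulVec, Finset.sum_apply,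
          Pi.zero_apply, ← h2]
        refine Finset.sum_congr rfl fun s _ => ?_
        have h3 := congrFun (hpow (t + s)) a
        rw [h3, add_comm t s, pow_add]
      have h4 := Matrix.eq_zero_of_mulVec_eq_zero (hgeo m hm) h1
      have h5 : (M₁ ^ t).det ≠ 0 := by
        rw [Matrix.det_pow]
        exact pow_ne_zero _ hM₁
      exact hw0 (Matrix.eq_zero_of_mulVec_eq_zero h5 h4)
    intro t t' htt
    rcases Nat.lt_or_gt_of_ne htt with h | h
    · obtain ⟨m, rfl⟩ := Nat.exists_eq_add_of_lt h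
      obtain ⟨a, ha⟩ := key t (m + 1) (by omega)
      refine ⟨a, fun hd => ha ?_⟩
      have h6 := (hR.ker _).2 hd
      rw [← neg_sub, map_neg, neg_eq_zero]
      exact h6
    · obtain ⟨m, rfl⟩ := Nat.exists_eq_add_of_lt h
      obtain ⟨a, ha⟩ := key t' (m + 1) (by omega)
      exact ⟨a, fun hd => ha ((hR.ker _).2 hd)⟩

end Pool.Agent.Helper89.TNL

end
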