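import Pool.Agent.Helper29.MG2.T27
import Pool.Agent.Helper29.MG2.T21

section

namespace Pool.Agent.Helper16
end Pool.Agent.Helper16
namespace Pool.Agent.Helper30.TKN
end Pool.Agent.Helper30.TKN
namespace Pool.Agent.Helper36
end Pool.Agent.Helper36
namespace Pool.Agent.Helper38.TQ
end Pool.Agent.Helper38.TQ

/-!
# The polynomials which define the iterates
-/

set_option autoImplicit false

namespace Pool.Agent.Helper89.TNL

open MvPolynomial
open Pool.Agent.Helper16 (Place IsFunctionField)
open Pool.Agent.Helper36 (step iter)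
open Pool.Agent.Helper38.TQ
open Pool.Agent.Helper30.TKN

variable {ν : ℕ}

section iterN

variable {K : Type} [Field K]

theorem iterN_eval (F : Fin (ν + 1) → MvPolynomial (Fin (ν + 1)) K)
    (P : MvPolynomial (Fin (ν + 1)) K) (y : Fin (ν + 1) → K) (N : ℕ) :
    eval y ((fun P => aeval F P)^[N] P) = eval (iter F y N) P := by
  have h1 : ∀ (Q : MvPolynomial (Fin (ν + 1)) K) (z : Fin (ν + 1) → K),
      eval z (aeval F Q) = eval (step F z) Q := by
    intro Q z
    rw [← coe_aeval_eq_eval, RingHom.coe_coe, comp_aeval_apply, ← coe_aeval_eq_eval,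
      RingHom.coe_coe]
    rfl
  induction N generalizing P with
  | zero => rfl
  | succ N ih =>
    rw [Function.iterate_succ_apply, ih, h1, Pool.Agent.Helper36.iter_succ]

theorem iterN_eq (F : Fin (ν + 1) → MvPolynomial (Fin (ν + 1)) K)
    (P : MvPolynomial (Fin (ν + 1)) K) (N : ℕ) :
    (fun P => aeval F P)^[N] P = aeval (itN F N) P := by
  induction N with
  | zero =>
    have h1 : itN F 0 = (X : Fin (ν + 1) → MvPolynomial (Fin (ν + 1)) K) := rfl
    rw [h1, aeval_X_left, AlgHom.id_apply]
    rfl
  | succ N ih =>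
    have h1 : itN F (N + 1) =
        fun i => (aeval F : _ →ₐ[K] MvPolynomial (Fin (ν + 1)) K) (itN F N i) := by
      funext i
      unfold itN
      rw [Function.iterate_succ_apply']
    rw [Function.iterate_succ_apply', ih, h1]
    exact comp_aeval_apply _ _ _

theorem iterN_hom {d : ℕ} {F : Fin (ν + 1) → MvPolynomial (Fin (ν + 1)) K}
    (hF : ∀ i, (F i).IsHomogeneous d) {P : MvPolynomial (Fin (ν + 1)) K} {e : ℕ}
    (hP : P.IsHomogeneous e) (N : ℕ) :
    ((fun P => aeval F P)^[N] P).IsHomogeneous (d ^ N * e) := by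
  induction N with
  | zero => rw [pow_zero, one_mul]; exact hP
  | succ N ih =>
    rw [Function.iterate_succ_apply']
    have h1 := ih.aeval F hF
    have h2 : d ^ (N + 1) * e = d * (d ^ N * e) := by ring
    rw [h2]
    exact h1

theorem iterN_chain (g : Fin (ν + 1) → MvPolynomial (Fin (ν + 1)) K)
    (P : MvPolynomial (Fin (ν + 1)) K) (j : Fin (ν + 1)) :
    pderiv j (aeval g P) = ∑ l, aeval g (pderiv l P) * pderiv j (g l) := by
  induction P using MvPolynomial.induction_on with
  | C a => simp
  | add p q hp hq =>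
    simp only [map_add, hp, hq, add_mul, Finset.sum_add_distrib]
  | mul_X p n hp =>
    simp only [map_mul, aeval_X, Derivation.leibniz, hp, smul_eq_mul, map_add, add_mul,
      Finset.sum_add_distrib]
    congr 1
    · rw [Finset.sum_eq_single n]
      · simp
      · intro l _ hl
        rw [pderiv_X_of_ne hl.symm]
        simp
      · intro h
        exact absurd (Finset.mem_univ n) h
    · rw [Finset.mul_sum]
      exact Finset.sum_congr rfl fun l _ => by ring

end iterN

theorem eval_itN {K : Type} [Field K] (F : Fin (ν + 1) → MvPolynomial (Fin (ν + 1)) K)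
    (y : Fin (ν + 1) → K) (N : ℕ) (i : Fin (ν + 1)) : eval y (itN F N i) = iter F y N i := by
  unfold itN
  rw [iterN_eval, eval_X]

theorem itN_hom {K : Type} [Field K] {d : ℕ} {F : Fin (ν + 1) → MvPolynomial (Fin (ν + 1)) K}
    (hF : ∀ i, (F i).IsHomogeneous d) (N : ℕ) (i : Fin (ν + 1)) :
    (itN F N i).IsHomogeneous (d ^ N) := by
  have h1 := iterN_hom hF (isHomogeneous_X K i) N
  rwa [mul_one] at h1

theorem pderiv_itN {K : Type} [Field K] (F : Fin (ν + 1) → MvPolynomial (Fin (ν + 1)) K)
    (y : Fin (ν + 1) → K) (N : ℕ) (i j : Fin (ν + 1)) :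
    eval y (pderiv j (itN F N i)) = mult F y N i j := by
  induction N generalizing i with
  | zero =>
    have h1 : mult F y 0 = 1 := rfl
    have h2 : itN F 0 i = X i := rfl
    rw [h1, h2, pderiv_X, Matrix.one_apply]
    rcases eq_or_ne i j with h | h
    · subst h; simp
    · rw [Pi.single_eq_of_ne h, map_zero, if_neg h]
  | succ N ih =>
    have h1 : mult F y (N + 1) = jac F (iter F y N) * mult F y N := rfl
    have h2 : itN F (N + 1) i = aeval (itN F N) (F i) := by
      have h3 : itN F (N + 1) i = (fun P => aeval F P)^[N] (F i) := by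
        unfold itN
        rw [Function.iterate_succ_apply]
        simp only [aeval_X]
      rw [h3, iterN_eq]
    have h3 : ∀ P : MvPolynomial (Fin (ν + 1)) K,
        eval y (aeval (itN F N) P) = eval (iter F y N) P := by
      intro P
      rw [← iterN_eq, iterN_eval]
    rw [h1, h2, iterN_chain, map_sum, Matrix.mul_apply]
    refine Finset.sum_congr rfl fun l _ => ?_
    rw [map_mul, ih, h3]
    rfl

theorem iterN_redP {k K : Type} [Field k] [Field K] [Algebra k K] {b : Place k K}
    {F : Fin (ν + 1) → MvPolynomial (Fin (ν + 1)) K}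
    {f : Fin (ν + 1) → MvPolynomial (Fin (ν + 1)) k}
    (hf : ∀ i, RedP b (F i) (f i)) {P : MvPolynomial (Fin (ν + 1)) K}
    {p : MvPolynomial (Fin (ν + 1)) k} (hP : RedP b P p) :
    RedP b (aeval F P) (aeval f p) := by
  classical
  -- the polynomial `P - p` has coefficients in the maximal ideal
  have hC : ∀ (c : k), RedP b (C (algebraMap k K c) : MvPolynomial (Fin (ν + 1)) K) (C c) := by
    intro c
    have h := redP_map b (C c : MvPolynomial (Fin (ν + 1)) k)
    rwa [map_C] at h
  have h0 : ∀ (q : MvPolynomial (Fin (ν + 1)) k),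
      RedP b (aeval F (map (algebraMap k K) q)) (aeval f q) := by
    intro q
    induction q using MvPolynomial.induction_on with
    | C a => rw [map_C, aeval_C, aeval_C]; exact hC a
    | add p q hp hq => rw [map_add, map_add, map_add]; exact hp.add hq
    | mul_X p n hp => rw [map_mul, map_X, map_mul, map_mul, aeval_X, aeval_X]; exact hp.mul (hf n)
  -- small polynomials
  have hs : ∀ Q : MvPolynomial (Fin (ν + 1)) K, RedP b Q 0 → RedP b (aeval F Q) 0 := by
    intro Q hQ
    rw [aeval_def, eval₂_eq']
    have hz : ∀ m : Fin (ν + 1) →₀ ℕ,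
        RedP b (C (Q.coeff m) : MvPolynomial (Fin (ν + 1)) K) 0 := by
      intro m l
      rw [coeff_zero, map_zero, sub_zero, coeff_C]
      split_ifs with h
      · have h2 := hQ m
        rwa [coeff_zero, map_zero, sub_zero] at h2
      · rw [map_zero]
        exact zero_lt_one
    have h3 : RedP b (∑ m ∈ Q.support, C (Q.coeff m) * ∏ i, F i ^ m i)
        (∑ m ∈ Q.support, 0 * ∏ i, f i ^ m i) :=
      RedP.sum _ fun m _ => (hz m).mul (RedP.prod _ fun i _ => (hf i).pow (m i))
    simp only [zero_mul, Finset.sum_const_zero] at h3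
    exact h3
  have h1 : RedP b (P - map (algebraMap k K) p) 0 := by
    have h2 := hP.add (redP_map b p).neg
    rwa [add_neg_cancel, ← sub_eq_add_neg] at h2
  have h2 := (hs _ h1).add (h0 p)
  rw [zero_add] at h2
  have h3 : aeval F (P - map (algebraMap k K) p) + aeval F (map (algebraMap k K) p) =
      aeval F P := by
    rw [map_sub, sub_add_cancel]
  rwa [h3] at h2

theorem redP_itN {k K : Type} [Field k] [Field K] [Algebra k K] {b : Place k K}
    {F : Fin (ν + 1) → MvPolynomial (Fin (ν + 1)) K}
    {f : Fin (ν + 1) → MvPolynomial (Fin (ν + 1)) k} (hf : ∀ i, RedP b (F i) (f i)) (N : ℕ)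
    (i : Fin (ν + 1)) : RedP b (itN F N i) (itN f N i) := by
  unfold itN
  induction N with
  | zero => exact redP_C_X b i
  | succ N ih =>
    rw [Function.iterate_succ_apply', Function.iterate_succ_apply']
    exact iterN_redP hf ih

theorem iterN_step_eq {k : Type} [Field k] (f : Fin (ν + 1) → MvPolynomial (Fin (ν + 1)) k)
    (z : Fin (ν + 1) → k) (i : Fin (ν + 1)) : step f z i = eval z (f i) := by
  change aeval z (f i) = _
  exact congrArg (fun φ => φ (f i)) (coe_aeval_eq_eval z)

theorem iterN_euler {k : Type} [Field k] {d : ℕ}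
    {f : Fin (ν + 1) → MvPolynomial (Fin (ν + 1)) k}
    (hf : ∀ i, (f i).IsHomogeneous d) (z : Fin (ν + 1) → k) :
    (jac f z).mulVec z = (d : k) • step f z := by
  funext i
  have h1 := congrArg (eval z) (hf i).sum_X_mul_pderiv
  rw [map_sum, map_nsmul, nsmul_eq_mul] at h1
  rw [Pi.smul_apply, smul_eq_mul, iterN_step_eq, ← h1, Matrix.mulVec, dotProduct]
  refine Finset.sum_congr rfl fun j _ => ?_
  rw [map_mul, eval_X, mul_comm]
  rfl

/-- The derivative of the iterate in the direction of the point itself. -/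
theorem mult_mulVec_self {k : Type} [Field k] {d : ℕ}
    {f : Fin (ν + 1) → MvPolynomial (Fin (ν + 1)) k} (hf : ∀ i, (f i).IsHomogeneous d)
    (z : Fin (ν + 1) → k) (N : ℕ) :
    (mult f z N).mulVec z = ((d : k) ^ N) • iter f z N := by
  induction N with
  | zero =>
    change (1 : Matrix (Fin (ν + 1)) (Fin (ν + 1)) k).mulVec z = (d : k) ^ 0 • z
    rw [Matrix.one_mulVec, pow_zero, one_smul]
  | succ N ih =>
    change (jac f (iter f z N) * mult f z N).mulVec z = _
    rw [← Matrix.mulVec_mulVec, ih, Matrix.mulVec_smul, iterN_euler hf, smul_smul,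
      Pool.Agent.Helper36.iter_succ, pow_succ]

theorem iterN_iter_smul {k : Type} [Field k] {d : ℕ}
    {f : Fin (ν + 1) → MvPolynomial (Fin (ν + 1)) k}
    (hf : ∀ i, (f i).IsHomogeneous d) {s : k} (hs : s ≠ 0) (z : Fin (ν + 1) → k) (n : ℕ) :
    ∃ c : k, c ≠ 0 ∧ iter f (s • z) n = c • iter f z n := by
  induction n with
  | zero => exact ⟨s, hs, rfl⟩
  | succ n ih =>
    obtain ⟨c, hc, h⟩ := ih
    refine ⟨c ^ d, pow_ne_zero _ hc, ?_⟩
    rw [Pool.Agent.Helper36.iter_succ, Pool.Agent.Helper36.iter_succ, h]
    funext i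
    exact Pool.Agent.Helper36.aeval_smul_homogeneous (hf i) c _

theorem iterN_jac_smul {k : Type} [Field k] {d : ℕ}
    {f : Fin (ν + 1) → MvPolynomial (Fin (ν + 1)) k}
    (hf : ∀ i, (f i).IsHomogeneous d) (s : k) (z : Fin (ν + 1) → k) :
    jac f (s • z) = s ^ (d - 1) • jac f z := by
  ext i j
  exact eval_smul_hom ((hf i).pderiv) s z

theorem mult_smul {k : Type} [Field k] {d : ℕ}
    {f : Fin (ν + 1) → MvPolynomial (Fin (ν + 1)) k} (hf : ∀ i, (f i).IsHomogeneous d)
    (z : Fin (ν + 1) → k) {c : k} (hc : c ≠ 0) (N : ℕ) :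
    ∃ c' : k, c' ≠ 0 ∧ mult f (c • z) N = c' • mult f z N := by
  induction N with
  | zero => exact ⟨1, one_ne_zero, (one_smul k _).symm⟩
  | succ n ih =>
    obtain ⟨a, ha, h⟩ := ih
    obtain ⟨e, he, h'⟩ := iterN_iter_smul hf hc z n
    refine ⟨e ^ (d - 1) * a, mul_ne_zero (pow_ne_zero _ he) ha, ?_⟩
    change jac f (iter f (c • z) n) * mult f (c • z) n = _ • (jac f (iter f z n) * mult f z n)
    rw [h, h', iterN_jac_smul hf, Matrix.smul_mul, Matrix.mul_smul, smul_smul]

theorem mult_addN {k : Type} [Field k] (f : Fin (ν + 1) → MvPolynomial (Fin (ν + 1)) k)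
    (z : Fin (ν + 1) → k) (M N : ℕ) : mult f z (M + N) = mult f (iter f z M) N * mult f z M := by
  induction N with
  | zero =>
    change mult f z M = 1 * mult f z M
    rw [one_mul]
  | succ N ih =>
    change jac f (iter f z (M + N)) * mult f z (M + N) =
      jac f (iter f (iter f z M) N) * mult f (iter f z M) N * mult f z M
    rw [ih, Matrix.mul_assoc, Nat.add_comm M N, Pool.Agent.Helper36.iter_add]

end Pool.Agent.Helper89.TNL

end

section

/-!
# Polynomials in a chart
-/

set_option autoImplicit false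

namespace Pool.Agent.Helper89.TNL

open MvPolynomial

variable {ν : ℕ} {S : Type} [CommRing S] {ι : Type} [Fintype ι] [DecidableEq ι]

theorem eval_chN (e : Option ι → Fin (ν + 1) → S) (P : MvPolynomial (Fin (ν + 1)) S)
    (q : ι → S) : eval q (chN e P) = eval (ptN e q) P := by
  unfold chN
  induction P using MvPolynomial.induction_on with
  | C a => simp
  | add p r hp hr => rw [map_add, map_add, hp, hr, map_add]
  | mul_X p i hp =>
    rw [map_mul, map_mul, hp, map_mul, aeval_X, eval_X]
    simp [ptN]

theorem coeff_chN_zero (e : Option ι → Fin (ν + 1) → S) (P : MvPolynomial (Fin (ν + 1)) S) :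
    (chN e P).coeff 0 = eval (e none) P := by
  have h1 := eval_chN e P 0
  have h2 : ptN e 0 = e none := by
    funext i
    simp [ptN]
  rw [h2] at h1
  rw [← h1, ← constantCoeff_eq]
  exact (congrArg (fun φ => φ (chN e P)) eval_zero).symm

theorem chartN_coeff_mul (a : ι) (A B : MvPolynomial ι S) :
    (A * B).coeff (Finsupp.single a 1) =
      A.coeff (Finsupp.single a 1) * B.coeff 0 + A.coeff 0 * B.coeff (Finsupp.single a 1) := by
  classical
  rw [coeff_mul, Finsupp.antidiagonal_single]
  simp [Finset.Nat.antidiagonal_succ]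
  ring

theorem chartN_lin_coeff_zero (c : S) (w : ι → S) :
    (C c + ∑ i, X i * C (w i) : MvPolynomial ι S).coeff 0 = c := by
  rw [coeff_add, coeff_sum, coeff_C, if_pos rfl, Finset.sum_eq_zero, add_zero]
  intro i _
  rw [mul_comm, coeff_C_mul]
  simp

theorem chartN_lin_coeff_single (c : S) (w : ι → S) (a : ι) :
    (C c + ∑ i, X i * C (w i) : MvPolynomial ι S).coeff (Finsupp.single a 1) = w a := by
  have z : ¬ (0 : ι →₀ ℕ) = Finsupp.single a 1 := by
    intro h
    have := DFunLike.congr_fun h a
    simp at this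
  rw [coeff_add, coeff_sum, coeff_C, if_neg z, zero_add, Finset.sum_eq_single a]
  · rw [mul_comm, coeff_C_mul, coeff_X, if_pos rfl, mul_one]
  · intro i _ hi
    rw [mul_comm, coeff_C_mul, coeff_X, if_neg, mul_zero]
    intro h
    exact hi ((Finsupp.single_left_inj one_ne_zero).1 h)
  · intro h
    exact absurd (Finset.mem_univ a) h

theorem coeff_chN_single (e : Option ι → Fin (ν + 1) → S) (P : MvPolynomial (Fin (ν + 1)) S)
    (i : ι) : (chN e P).coeff (Finsupp.single i 1) =
      ∑ j, eval (e none) (pderiv j P) * e (some i) j := by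
  classical
  induction P using MvPolynomial.induction_on with
  | C c =>
    have h1 : chN e (C c) = C c := by
      unfold chN
      rw [aeval_C, algebraMap_eq]
    rw [h1, coeff_C, if_neg (by
      intro h
      have := DFunLike.congr_fun h i
      simp at this)]
    simp
  | add p q hp hq =>
    have h1 : chN e (p + q) = chN e p + chN e q := by
      unfold chN
      rw [map_add]
    rw [h1, coeff_add, hp, hq, ← Finset.sum_add_distrib]
    refine Finset.sum_congr rfl fun j _ => ?_
    rw [map_add, map_add]
    ring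
  | mul_X p m hp =>
    have h1 : chN e (p * X m) = chN e p *
        (C (e none m) + ∑ i, X i * C (e (some i) m)) := by
      unfold chN
      rw [map_mul, aeval_X]
    rw [h1, chartN_coeff_mul, chartN_lin_coeff_zero, chartN_lin_coeff_single, hp,
      coeff_chN_zero, Finset.sum_mul]
    have h4 : eval (e none) p * e (some i) m =
        ∑ j, (if j = m then eval (e none) p * e (some i) j else 0) := by
      simp
    rw [h4, ← Finset.sum_add_distrib]
    refine Finset.sum_congr rfl fun j _ => ?_
    rw [Derivation.leibniz, map_add]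
    simp only [smul_eq_mul, map_mul, eval_X]
    by_cases hj : j = m
    · subst hj
      rw [if_pos rfl, pderiv_X_self, map_one]
      ring
    · rw [if_neg hj, pderiv_X_of_ne (Ne.symm hj), map_zero]
      ring

end Pool.Agent.Helper89.TNL

end
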