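import Pool.Agent.Helper29.MG2.T55
import Pool.Agent.Helper29.MG2.T57
import Pool.Agent.Helper29.MG2.T56
import Pool.Agent.Helper29.MG2.T58

section

/-!
# The digits of the rescaled orbit are exponential polynomials
-/

set_option autoImplicit false

namespace Pool.Agent.Helper89.TNL

open MvPolynomial

variable {R k : Type} [CommRing R] [IsDomain R] [Field k] [Algebra k R] {π : R} {χ : R →+* k}
  {G : Subgroup kˣ}

omit [IsDomain R] in
theorem rec_zero (f : ℕ → R) : EPR G π 0 f :=
  ⟨0, fun _ => 0, fun _ => (EPol k G).zero_mem, fun _ _ => by simp⟩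

theorem epr_of_rec [IsAlgClosed k] [CharZero k] (hR : Res π χ) {α β : Type} [Fintype α]
    [DecidableEq α] [Fintype β] [DecidableEq β] (M₁ : Matrix α α k) (hM : EigIn G M₁)
    {ξ : ℕ → α ⊕ β → R}
    (hrec : ∃ c : α ⊕ β → R, ∀ I : ℕ, ∃ P : α ⊕ β → MvPolynomial (α ⊕ β) R, ∀ t i,
      π ^ I ∣ ξ (t + 1) i - (c i + ∑ l, algebraMap k R (Matrix.fromBlocks M₁ 0 0 0 i l) * ξ t l +
        π * eval (ξ t) (P i))) :
    ∀ I i, EPR G π I (fun t => ξ t i) := by
  obtain ⟨c, hc⟩ := hrec
  intro I
  induction I with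
  | zero => exact fun i => rec_zero _
  | succ I ih =>
    obtain ⟨P, hP⟩ := hc (I + 1)
    have hg : ∀ i, EPR G π (I + 1) (fun t => c i + π * eval (ξ t) (P i)) := fun i =>
      epr_add (epr_const hR (I + 1) (c i)) (epr_pi (epr_eval hR ih (P i)))
    rintro (a | b)
    · -- the unit part
      choose d hd using fun (t : ℕ) (a : α) => exists_digits hR (ξ t (Sum.inl a))
      choose T φ hφ hT using fun a : α => hg (Sum.inl a)
      set T₀ : ℕ := Finset.univ.sup T with hT₀
      have hle : ∀ a, T a ≤ T₀ := fun a => Finset.le_sup (f := T) (Finset.mem_univ a)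
      have hdig : ∀ t, T₀ ≤ t → ∀ a, ∀ j < I + 1,
          d (t + 1) a j = ∑ b, M₁ a b * d t b j + φ a j t := by
        intro t ht a
        refine digits_unique hR ?_
        have h1 := hd (t + 1) a (I + 1)
        have h2 := hP t (Sum.inl a)
        have h3 := hT a t ((hle a).trans ht)
        have h4 : π ^ (I + 1) ∣ ∑ b, algebraMap k R (M₁ a b) * (ξ t (Sum.inl b) -
            ∑ i ∈ Finset.range (I + 1), π ^ i * algebraMap k R (d t b i)) :=
          Finset.dvd_sum fun b _ => Dvd.dvd.mul_left (hd t b (I + 1)) _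
        have h5 := ((h2.sub h1).add h3).add h4
        convert h5 using 1
        rw [Fintype.sum_sum_type]
        simp only [Matrix.fromBlocks_apply₁₁, Matrix.fromBlocks_apply₁₂, Matrix.zero_apply,
          map_zero, zero_mul, Finset.sum_const_zero, add_zero, map_add, map_sum, map_mul, mul_add,
          mul_sub, Finset.sum_add_distrib, Finset.sum_sub_distrib, Finset.mul_sum]
        rw [Finset.sum_comm (s := (Finset.univ : Finset α))]
        have e : ∀ x ∈ Finset.range (I + 1), ∀ y ∈ (Finset.univ : Finset α),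
            algebraMap k R (M₁ a y) * (π ^ x * algebraMap k R (d t y x)) =
              π ^ x * (algebraMap k R (M₁ a y) * algebraMap k R (d t y x)) := fun x _ y _ => by
          ring
        rw [Finset.sum_congr rfl fun x hx => Finset.sum_congr rfl (e x hx)]
        ring
      have hw : ∀ j : ℕ, ∃ w : α → ℕ → k, (∀ a, w a ∈ EPol k G) ∧
          (j < I + 1 → ∀ t, T₀ ≤ t → ∀ a, d t a j = w a t) := by
        intro j
        by_cases hj : j < I + 1
        · obtain ⟨w, h1, h2⟩ := epol_solve_late M₁ hM (f := fun a => φ a j)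
            (v := fun a t => d t a j) (fun a => hφ a j) (T := T₀)
            (fun t ht a => hdig t ht a j hj)
          exact ⟨w, h1, fun _ => h2⟩
        · exact ⟨fun _ => 0, fun _ => (EPol k G).zero_mem, fun h => absurd h hj⟩
      choose w hw1 hw2 using hw
      refine ⟨T₀, fun j => w j a, fun j => hw1 j a, fun t ht => ?_⟩
      have h1 := hd t a (I + 1)
      have e : ∑ i ∈ Finset.range (I + 1), π ^ i * algebraMap k R (w i a t) =
          ∑ i ∈ Finset.range (I + 1), π ^ i * algebraMap k R (d t a i) :=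
        Finset.sum_congr rfl fun i hi => by
          rw [hw2 i (Finset.mem_range.1 hi) t ht a]
      rw [e]
      exact h1
    · -- the nilpotent part
      refine epr_unshift (epr_congr (hg (Sum.inr b)) (T := 0) fun t _ => ?_)
      have h := hP t (Sum.inr b)
      rw [Fintype.sum_sum_type] at h
      simpa using h

end Pool.Agent.Helper89.TNL

end

section

namespace Pool.Agent.Helper63.TS
end Pool.Agent.Helper63.TS

/-!
# An orbit which meets a curve infinitely often, and the curve is not periodic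
-/

set_option autoImplicit false

namespace Pool.Agent.Helper89.TNL

open MvPolynomial
open Pool.Agent.Helper63.TS (Unif)

/-- A polynomial over a discrete valuation ring which is not zero is a power of `π` times a
polynomial which is not zero modulo `π`. -/
theorem CaseR_poly {R : Type} [CommRing R] [IsDomain R] {π : R} (hπ : Unif π)
    {P : Polynomial R} (hP : P ≠ 0) :
    ∃ (m : ℕ) (Q : Polynomial R), P = Polynomial.C (π ^ m) * Q ∧ ∃ n, ¬ π ∣ Q.coeff n := by
  classical
  -- the minimal order of the coefficients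
  have h1 : ∃ m : ℕ, ∃ n, ¬ π ^ (m + 1) ∣ P.coeff n := by
    obtain ⟨n, hn⟩ : ∃ n, P.coeff n ≠ 0 := by
      by_contra h
      push Not at h
      exact hP (Polynomial.ext fun n => by rw [h n, Polynomial.coeff_zero])
    obtain ⟨e, u, hu, he⟩ := hπ.fact _ hn
    refine ⟨e, n, fun hdvd => hu ?_⟩
    rw [he, pow_succ] at hdvd
    exact (mul_dvd_mul_iff_left (pow_ne_zero _ hπ.prime.ne_zero)).1 hdvd
  obtain ⟨m, hm, hmin⟩ : ∃ m : ℕ, (∃ n, ¬ π ^ (m + 1) ∣ P.coeff n) ∧
      ∀ m' < m, ¬ ∃ n, ¬ π ^ (m' + 1) ∣ P.coeff n :=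
    ⟨Nat.find h1, Nat.find_spec h1, fun m' hm' => Nat.find_min h1 hm'⟩
  have h2 : ∀ n, π ^ m ∣ P.coeff n := by
    intro n
    rcases Nat.eq_zero_or_pos m with h0 | h0
    · rw [h0, pow_zero]
      exact one_dvd _
    · have h3 := hmin (m - 1) (by omega)
      push Not at h3
      have h4 := h3 n
      rwa [Nat.sub_add_cancel h0] at h4
  obtain ⟨Q, hQ⟩ := (Polynomial.C_dvd_iff_dvd_coeff _ _).2 h2
  refine ⟨m, Q, hQ, ?_⟩
  obtain ⟨n, hn⟩ := hm
  refine ⟨n, fun hdvd => hn ?_⟩
  rw [hQ, Polynomial.coeff_C_mul, pow_succ]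
  exact mul_dvd_mul_left _ hdvd

/-- The residues of the coordinate take finitely many values. -/
theorem CaseR_fin {R k : Type} [CommRing R] [IsDomain R] [Field k] [Algebra k R] {π : R}
    {χ : R →+* k} (hR : Res π χ) {ρ : Polynomial R} (hρ : ρ ≠ 0) (p₀ : R) (e : ℕ) {ξ : ℕ → R}
    (h : ∀ I : ℕ, ∃ T, ∀ t, T ≤ t → π ^ I ∣ ρ.eval (p₀ + π ^ e * ξ t)) :
    ∃ (T : ℕ) (S : Finset k), ∀ t, T ≤ t → χ (ξ t) ∈ S := by
  classical
  set P : Polynomial R := ρ.comp (Polynomial.C p₀ + Polynomial.C (π ^ e) * Polynomial.X) with hP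
  have hπ0 : π ≠ 0 := hR.unif.prime.ne_zero
  have hdeg : (Polynomial.C p₀ + Polynomial.C (π ^ e) * Polynomial.X).natDegree = 1 := by
    rw [Polynomial.natDegree_C_add, Polynomial.natDegree_C_mul_X _ (pow_ne_zero _ hπ0)]
  have hP0 : P ≠ 0 := by
    intro h0
    rw [hP, Polynomial.comp_eq_zero_iff] at h0
    rcases h0 with h0 | ⟨-, h0⟩
    · exact hρ h0
    · rw [h0, Polynomial.natDegree_C] at hdeg
      exact absurd hdeg (by norm_num)
  obtain ⟨m, Q, hQ, n, hn⟩ := CaseR_poly hR.unif hP0
  obtain ⟨T, hT⟩ := h (m + 1)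
  have hQ0 : Q.map χ ≠ 0 := by
    intro h0
    apply hn
    rw [← hR.ker, ← Polynomial.coeff_map, h0, Polynomial.coeff_zero]
  refine ⟨T, (Q.map χ).roots.toFinset, fun t ht => ?_⟩
  rw [Multiset.mem_toFinset, Polynomial.mem_roots hQ0, Polynomial.IsRoot.def,
    Polynomial.eval_map_apply, hR.ker]
  have h1 := hT t ht
  have h2 : ρ.eval (p₀ + π ^ e * ξ t) = π ^ m * Q.eval (ξ t) := by
    have h3 : P.eval (ξ t) = ρ.eval (p₀ + π ^ e * ξ t) := by
      rw [hP, Polynomial.eval_comp]
      simp
    rw [← h3, hQ, Polynomial.eval_mul, Polynomial.eval_C]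
  rw [h2, pow_succ] at h1
  exact (mul_dvd_mul_iff_left (pow_ne_zero _ hπ0)).1 h1

theorem case_R {R k : Type} [CommRing R] [IsDomain R] [Field k] [IsAlgClosed k] [CharZero k]
    [Algebra k ℂ] [Algebra k R] {π : R} {χ : R →+* k} (hR : Res π χ) {G : Subgroup kˣ}
    (hG : TorsFree G) {α β : Type} [Fintype α] [DecidableEq α] [Fintype β] [DecidableEq β]
    {M₁ : Matrix α α k} (hM₁ : M₁.det ≠ 0) (hE : EigIn G M₁) {A0 : MvPolynomial (α ⊕ β) R}
    {A : α ⊕ β → MvPolynomial (α ⊕ β) R} (hA : GermN π A0 A)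
    (hL : LinN χ A0 A (Matrix.fromBlocks M₁ 0 0 0)) {p : ℕ → α ⊕ β → R} (hp : OrbN π A0 A p)
    {σ : Type} [Finite σ] {H : σ → MvPolynomial (α ⊕ β) R}
    (hinf : {j | ∀ i, eval (p j) (H i) = 0}.Infinite)
    (hρ : ∀ a, ∃ ρ : Polynomial R, ρ ≠ 0 ∧ ∀ I j, (∀ i, π ^ I ∣ eval (p j) (H i)) →
      (∀ i, π ^ I ∣ eval (p (j + 1)) (H i)) → π ^ I ∣ ρ.eval (p j (Sum.inl a))) :
    Conv π (fun s => p (s + 1)) p := by
  classical
  have hgeo := det_geom_ne_zero hG M₁ hE
  rcases dichotomy hR hM₁ hgeo (fun j j' => germ_contr hR hA hL hp hp j j') with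
    h | ⟨j₀, e, ξ, hξ, hsep⟩
  · exact h
  exfalso
  -- the exponent is positive
  have he : 1 ≤ e := by
    by_contra he0
    have he1 : e = 0 := by omega
    obtain ⟨a, ha⟩ := hsep 0 1 (by norm_num)
    apply ha
    have h0 := hξ 0 (Sum.inl a)
    have h1 := hξ 1 (Sum.inl a)
    rw [he1, pow_zero, one_mul] at h0 h1
    have h2 : ξ 0 (Sum.inl a) - ξ 1 (Sum.inl a) =
        p (j₀ + 0) (Sum.inl a) - p (j₀ + 1) (Sum.inl a) := by
      rw [h0, h1]
      ring
    rw [h2]
    exact dvd_sub (hp.small _ _) (hp.small _ _)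
  -- the values of the equations tend to zero
  have hepr := epr_of_rec hR M₁ hE (germ_rec hR hA hL hp he hξ)
  have hval : ∀ i (I : ℕ), ∃ T, ∀ t, T ≤ t → π ^ I ∣ eval (p (j₀ + t)) (H i) := by
    intro i I
    obtain ⟨Q, hQ⟩ := eval_resc (H i) (p j₀) (π ^ e)
    have h1 : ∀ t, eval (p (j₀ + t)) (H i) = eval (ξ t) Q := by
      intro t
      rw [← hQ]
      congr 1
      have h2 : p (j₀ + t) = fun i => p j₀ i + π ^ e * ξ t i := funext fun i => hξ t i
      rw [h2]
    have h3 : EPR G π I (fun t => eval (ξ t) Q) := epr_eval hR (hepr I) Q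
    obtain ⟨T, hT⟩ := epr_zero hR hG h3 (by
      have h4 : ({j | ∀ i, eval (p j) (H i) = 0} \ {j | j < j₀}).Infinite :=
        hinf.sdiff (Set.finite_lt_nat j₀)
      have h5 : ((fun j => j - j₀) '' ({j | ∀ i, eval (p j) (H i) = 0} \ {j | j < j₀})).Infinite := by
        refine h4.image ?_
        intro a ha b hb hab
        have ha1 : ¬ a < j₀ := ha.2
        have hb1 : ¬ b < j₀ := hb.2
        simp only at hab
        omega
      refine h5.mono ?_
      rintro _ ⟨j, ⟨hj, hj'⟩, rfl⟩
      have hj1 : ¬ j < j₀ := hj'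
      show π ^ I ∣ eval (ξ (j - j₀)) Q
      rw [← h1]
      have h6 : j₀ + (j - j₀) = j := by omega
      rw [h6]
      have h7 := hj i
      rw [h7]
      exact dvd_zero _)
    exact ⟨T, fun t ht => by rw [h1]; exact hT t ht⟩
  have hval' : ∀ (I : ℕ), ∃ T, ∀ t, T ≤ t → ∀ i, π ^ I ∣ eval (p (j₀ + t)) (H i) := by
    intro I
    have := Fintype.ofFinite σ
    choose T hT using fun i => hval i I
    refine ⟨Finset.univ.sup T, fun t ht i => hT i t (le_trans ?_ ht)⟩
    exact Finset.le_sup (f := T) (Finset.mem_univ i)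
  -- the coordinates take finitely many values
  have hfin : ∀ a : α, ∃ (T : ℕ) (S : Finset k), ∀ t, T ≤ t → χ (ξ t (Sum.inl a)) ∈ S := by
    intro a
    obtain ⟨ρ, hρ0, hρ1⟩ := hρ a
    refine CaseR_fin hR hρ0 (p j₀ (Sum.inl a)) e fun I => ?_
    obtain ⟨T, hT⟩ := hval' I
    refine ⟨T, fun t ht => ?_⟩
    rw [← hξ t (Sum.inl a)]
    exact hρ1 I (j₀ + t) (hT t ht) (hT (t + 1) (by omega))
  choose T S hTS using hfin
  set T₀ := Finset.univ.sup T with hT₀
  have hT1 : ∀ t a, χ (ξ (T₀ + t) (Sum.inl a)) ∈ S a := by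
    intro t a
    exact hTS a _ (le_trans (Finset.le_sup (f := T) (Finset.mem_univ a)) (by omega))
  -- pigeonhole
  obtain ⟨t, t', hne, heq⟩ : ∃ t t' : ℕ, t ≠ t' ∧
      (fun a => (⟨χ (ξ (T₀ + t) (Sum.inl a)), hT1 t a⟩ : S a)) =
      (fun a => (⟨χ (ξ (T₀ + t') (Sum.inl a)), hT1 t' a⟩ : S a)) :=
    Finite.exists_ne_map_eq_of_infinite
      (fun t : ℕ => fun a => (⟨χ (ξ (T₀ + t) (Sum.inl a)), hT1 t a⟩ : S a))
  obtain ⟨a, ha⟩ := hsep (T₀ + t) (T₀ + t') (by omega)
  apply ha
  rw [← hR.ker, map_sub, sub_eq_zero]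
  exact congrArg Subtype.val (congrFun heq a)

end Pool.Agent.Helper89.TNL

end

section

namespace Pool.Agent.Helper36
end Pool.Agent.Helper36
namespace Pool.Agent.Helper38.TQ
end Pool.Agent.Helper38.TQ

/-!
# A basis adapted to the derivative at a periodic point
-/

set_option autoImplicit false

namespace Pool.Agent.Helper89.TNL

open MvPolynomial
open Pool.Agent.Helper36 (step iter)
open Pool.Agent.Helper38.TQ

/-- A nonzero vector is the first vector of a basis. -/
theorem Adapt_basis {ν : ℕ} {k : Type} [Field k] {z : Fin (ν + 1) → k} (hz : z ≠ 0) :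
    ∃ (E : Matrix (Fin (ν + 1)) (Option (Fin ν)) k) (B : Matrix (Option (Fin ν)) (Fin (ν + 1)) k),
      (∀ i, E i none = z i) ∧ B * E = 1 ∧ E * B = 1 := by
  classical
  obtain ⟨i0, hi0⟩ : ∃ i, z i ≠ 0 := by
    by_contra h
    push Not at h
    exact hz (funext h)
  refine ⟨Matrix.of fun i a => a.elim (z i) (fun j => if i = i0.succAbove j then 1 else 0),
    Matrix.of fun a i => a.elim (if i = i0 then (z i0)⁻¹ else 0)
      (fun j => (if i = i0.succAbove j then 1 else 0) -
        (if i = i0 then (z i0)⁻¹ * z (i0.succAbove j) else 0)), fun i => rfl, ?_, ?_⟩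
  · ext a b
    rw [Matrix.mul_apply, Fin.sum_univ_succAbove _ i0]
    rcases a with _ | j <;> rcases b with _ | l
    · simp [Fin.succAbove_ne, hi0]
    · simp [Fin.succAbove_ne, (Fin.succAbove_ne i0 l).symm]
    · simp [Fin.succAbove_ne, (Fin.succAbove_ne i0 j).symm, hi0, Finset.sum_ite_eq]
      field_simp
      ring
    · simp [Fin.succAbove_ne, (Fin.succAbove_ne i0 j).symm, (Fin.succAbove_ne i0 l).symm,
        Matrix.one_apply, eq_comm]
  · ext i i'
    rw [Matrix.mul_apply, Fintype.sum_option, Matrix.one_apply]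
    simp only [Matrix.of_apply, Option.elim_none, Option.elim_some]
    rcases Fin.eq_self_or_eq_succAbove i0 i with h | ⟨j, h⟩ <;>
      rcases Fin.eq_self_or_eq_succAbove i0 i' with h' | ⟨j', h'⟩
    · subst h; subst h'
      simp [(Fin.succAbove_ne _ _).symm, hi0]
    · subst h; subst h'
      simp [(Fin.succAbove_ne _ _).symm, Fin.succAbove_ne]
    · subst h; subst h'
      simp [(Fin.succAbove_ne _ _).symm, Fin.succAbove_ne]
      field_simp
      ring
    · subst h; subst h'
      simp [(Fin.succAbove_ne _ _).symm, Fin.succAbove_ne, eq_comm]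

theorem Adapt_core {ν : ℕ} {k : Type} [Field k] {z : Fin (ν + 1) → k} (hz : z ≠ 0)
    (W : Matrix (Fin (ν + 1)) (Fin (ν + 1)) k) {g c₀ : k} (hg : g ≠ 0)
    (hW : W.mulVec z = c₀ • z) :
    ∃ (E : Matrix (Fin (ν + 1)) (Option (Fin ν)) k) (B : Matrix (Option (Fin ν)) (Fin (ν + 1)) k)
      (M₀ : Matrix (Fin ν) (Fin ν) k), (∀ i, E i none = z i) ∧ B * E = 1 ∧ E * B = 1 ∧
      ∀ Q : ℕ, ∃ β : Fin ν → k, ∀ j i,
        (W ^ Q * E) i (some j) = g ^ Q * ∑ l, (M₀ ^ Q) l j * E i (some l) + β j * z i := by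
  classical
  obtain ⟨E, B, hE, hBE, hEB⟩ := Adapt_basis hz
  refine ⟨E, B, Matrix.of fun i j => g⁻¹ * (B * W * E) (some i) (some j), hE, hBE, hEB, ?_⟩
  set D : Matrix (Option (Fin ν)) (Option (Fin ν)) k := B * W * E with hD
  set M₀ : Matrix (Fin ν) (Fin ν) k := Matrix.of fun i j => g⁻¹ * D (some i) (some j) with hM₀
  have hWE : W * E = E * D := by
    rw [hD, ← Matrix.mul_assoc, ← Matrix.mul_assoc, hEB, Matrix.one_mul]
  have hpow : ∀ Q : ℕ, W ^ Q * E = E * D ^ Q := by
    intro Q
    induction Q with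
    | zero => rw [pow_zero, pow_zero, Matrix.one_mul, Matrix.mul_one]
    | succ Q ih =>
      rw [pow_succ, Matrix.mul_assoc, hWE, ← Matrix.mul_assoc, ih, Matrix.mul_assoc, ← pow_succ]
  have hnone : ∀ a, D (some a) none = 0 := by
    intro a
    have h1 : ∀ p, (W * E) p none = c₀ * E p none := by
      intro p
      have h2 := congrFun hW p
      rw [Pi.smul_apply, smul_eq_mul] at h2
      rw [hE, ← h2, Matrix.mul_apply]
      refine Finset.sum_congr rfl fun i _ => ?_
      rw [hE]
    have h3 : D (some a) none = c₀ * (B * E) (some a) none := by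
      rw [hD, Matrix.mul_assoc, Matrix.mul_apply, Matrix.mul_apply, Finset.mul_sum]
      refine Finset.sum_congr rfl fun p _ => ?_
      rw [h1]
      ring
    rw [h3, hBE, Matrix.one_apply_ne (by simp), mul_zero]
  have hDs : ∀ (Q : ℕ) (i j : Fin ν), (D ^ Q) (some i) (some j) = g ^ Q * (M₀ ^ Q) i j := by
    intro Q
    induction Q with
    | zero =>
      intro i j
      rw [pow_zero, pow_zero, pow_zero, one_mul, Matrix.one_apply, Matrix.one_apply]
      simp
    | succ Q ih =>
      intro i j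
      rw [pow_succ', Matrix.mul_apply, Fintype.sum_option, hnone, zero_mul, zero_add,
        pow_succ' M₀, Matrix.mul_apply, Finset.mul_sum]
      refine Finset.sum_congr rfl fun l _ => ?_
      have hD0 : D (some i) (some l) = g * M₀ i l := by
        rw [hM₀, Matrix.of_apply, ← mul_assoc, mul_inv_cancel₀ hg, one_mul]
      rw [ih, hD0]
      ring
  intro Q
  refine ⟨fun j => (D ^ Q) none (some j), fun j i => ?_⟩
  rw [hpow, Matrix.mul_apply, Fintype.sum_option, hE, Finset.mul_sum, add_comm, mul_comm (z i)]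
  congr 1
  refine Finset.sum_congr rfl fun l _ => ?_
  rw [hDs]
  ring

theorem exists_adapted {ν : ℕ} {k : Type} [Field k] [IsAlgClosed k] [CharZero k] {d : ℕ}
    {f : Fin (ν + 1) → MvPolynomial (Fin (ν + 1)) k} (hf : IsEndo d f) {z : Fin (ν + 1) → k}
    (hz : z ≠ 0) {N : ℕ} (hN : 0 < N) (hper : PEq z (iter f z N)) :
    ∃ (Q m m' : ℕ) (e : Option (Fin m ⊕ Fin m') → Fin (ν + 1) → k)
      (B : Fin (ν + 1) → Option (Fin m ⊕ Fin m') → k) (M₁ : Matrix (Fin m) (Fin m) k)
      (G : Subgroup kˣ) (γ : k) (α : Fin m ⊕ Fin m' → k), 0 < Q ∧ e none = z ∧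
      (∀ a a', ∑ i, e a i * B i a' = if a = a' then 1 else 0) ∧
      (∀ i i', ∑ a, B i a * e a i' = if i = i' then 1 else 0) ∧ γ ≠ 0 ∧
      iter f z (N * Q) = γ • z ∧
      (∀ a, (mult f z (N * Q)).mulVec (e (some a)) =
        γ • ∑ i, Matrix.fromBlocks M₁ 0 0 0 i a • e (some i) + α a • z) ∧
      M₁.det ≠ 0 ∧ TorsFree G ∧ EigIn G M₁ := by
  classical
  obtain ⟨g, hg, hgz⟩ := hper
  have hd : (d : k) ≠ 0 := by
    have := hf.two_le
    exact_mod_cast (by omega : d ≠ 0)
  set W := mult f z N with hWdef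
  have hW : W.mulVec z = ((d : k) ^ N * g) • z := by
    rw [hWdef, mult_mulVec_self hf.hom, hgz, smul_smul]
  have hiter : ∀ Q : ℕ, ∃ gQ κ : k, gQ ≠ 0 ∧ κ ≠ 0 ∧ iter f z (N * Q) = gQ • z ∧
      mult f z (N * Q) = κ • W ^ Q := by
    intro Q
    induction Q with
    | zero =>
      refine ⟨1, 1, one_ne_zero, one_ne_zero, ?_, ?_⟩
      · rw [mul_zero, one_smul]; rfl
      · rw [mul_zero, one_smul, pow_zero]; rfl
    | succ Q ih =>
      obtain ⟨gQ, κ, h1, h2, h3, h4⟩ := ih
      obtain ⟨c', hc', h5⟩ := mult_smul hf.hom z h1 N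
      refine ⟨gQ ^ d ^ N * g, c' * κ, mul_ne_zero (pow_ne_zero _ h1) hg, mul_ne_zero hc' h2, ?_, ?_⟩
      · rw [mul_add, mul_one, add_comm (N * Q) N, Helper36.iter_add, h3, iter_smul hf, hgz, smul_smul]
      · rw [mul_add, mul_one, mult_addN, h3, h5, h4, pow_succ', Matrix.smul_mul, Matrix.mul_smul,
          smul_smul, ← hWdef]
  obtain ⟨E, B₀, M₀, hE, hBE, hEB, hcore⟩ := Adapt_core hz W hg hW
  obtain ⟨Q, m, m', P, P', M₁, G, hQ, hPP, hPP', hfit, hdet, htor, heig⟩ := exists_fitting M₀
  obtain ⟨γ, κ, hγ, hκ, hγz, hmul⟩ := hiter Q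
  obtain ⟨β, hβ⟩ := hcore Q
  have hκγ : κ * g ^ Q = γ := by
    have h1 := mult_mulVec_self hf.hom z (N * Q)
    rw [hmul, hγz, smul_smul] at h1
    have h2 : ∀ R : ℕ, (W ^ R).mulVec z = ((d : k) ^ N * g) ^ R • z := by
      intro R
      induction R with
      | zero => rw [pow_zero, pow_zero, Matrix.one_mulVec, one_smul]
      | succ R ih =>
        rw [pow_succ, ← Matrix.mulVec_mulVec, hW, Matrix.mulVec_smul, ih, smul_smul, pow_succ']
    rw [Matrix.smul_mulVec, h2, smul_smul] at h1
    have h3 : κ * ((d : k) ^ N * g) ^ Q = (d : k) ^ (N * Q) * γ := smul_left_injective k hz h1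
    have h4 : (d : k) ^ (N * Q) ≠ 0 := pow_ne_zero _ hd
    apply mul_left_cancel₀ h4
    rw [← h3, mul_pow, ← pow_mul]
    ring
  refine ⟨Q, m, m', fun a i => a.elim (z i) (fun b => ∑ l, P l b * E i (some l)),
    fun i a => a.elim (B₀ none i) (fun b => ∑ l, B₀ (some l) i * P' b l), M₁, G, γ,
    fun a => κ * ∑ l, P l a * β l, hQ, rfl, ?_, ?_, hγ, hγz, ?_, hdet, htor, heig⟩
  · have hBE' : ∀ a b, ∑ i, E i b * B₀ a i = if b = a then 1 else 0 := by
      intro a b
      have := congrFun (congrFun hBE a) b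
      rw [Matrix.mul_apply, Matrix.one_apply] at this
      rw [show (∑ i, E i b * B₀ a i) = ∑ i, B₀ a i * E i b from
        Finset.sum_congr rfl fun i _ => mul_comm _ _, this]
      simp [eq_comm]
    intro a a'
    rcases a with _ | b <;> rcases a' with _ | b'
    · simp only [Option.elim_none, ← hE]
      rw [hBE']
      simp
    · simp only [Option.elim_none, Option.elim_some, ← hE]
      rw [if_neg (by simp)]
      simp_rw [Finset.mul_sum]
      rw [Finset.sum_comm]
      refine Finset.sum_eq_zero fun l _ => ?_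
      have : ∀ i, E i none * (B₀ (some l) i * P' b' l) = P' b' l * (E i none * B₀ (some l) i) :=
        fun i => by ring
      rw [Finset.sum_congr rfl fun i _ => this i, ← Finset.mul_sum, hBE', if_neg (by simp),
        mul_zero]
    · simp only [Option.elim_none, Option.elim_some]
      rw [if_neg (by simp)]
      simp_rw [Finset.sum_mul]
      rw [Finset.sum_comm]
      refine Finset.sum_eq_zero fun l _ => ?_
      have : ∀ i, P l b * E i (some l) * B₀ none i = P l b * (E i (some l) * B₀ none i) :=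
        fun i => by ring
      rw [Finset.sum_congr rfl fun i _ => this i, ← Finset.mul_sum, hBE', if_neg (by simp),
        mul_zero]
    · simp only [Option.elim_some]
      have h1 : ∀ i, (∑ l, P l b * E i (some l)) * (∑ l, B₀ (some l) i * P' b' l) =
          ∑ l, ∑ l', P l b * P' b' l' * (E i (some l) * B₀ (some l') i) := by
        intro i
        rw [Finset.sum_mul_sum]
        refine Finset.sum_congr rfl fun l _ => Finset.sum_congr rfl fun l' _ => ?_
        ring
      rw [Finset.sum_congr rfl fun i _ => h1 i, Finset.sum_comm]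
      have h2 : ∀ l, ∑ i, ∑ l', P l b * P' b' l' * (E i (some l) * B₀ (some l') i) =
          P' b' l * P l b := by
        intro l
        rw [Finset.sum_comm]
        rw [Finset.sum_eq_single l]
        · rw [← Finset.mul_sum, hBE', if_pos rfl]
          ring
        · intro l' _ hl'
          rw [← Finset.mul_sum, hBE', if_neg (by simpa using hl'.symm), mul_zero]
        · intro h
          exact absurd (Finset.mem_univ _) h
      rw [Finset.sum_congr rfl fun l _ => h2 l]
      have h3 := congrFun (congrFun hPP' b') b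
      rw [Matrix.mul_apply, Matrix.one_apply] at h3
      rw [h3]
      simp [eq_comm]
  · intro i i'
    rw [Fintype.sum_option]
    simp only [Option.elim_none, Option.elim_some]
    have h1 : ∀ b : Fin m ⊕ Fin m', (∑ l, B₀ (some l) i * P' b l) * (∑ l, P l b * E i' (some l)) =
        ∑ l, ∑ l', (B₀ (some l) i * E i' (some l')) * (P l' b * P' b l) := by
      intro b
      rw [Finset.sum_mul_sum]
      refine Finset.sum_congr rfl fun l _ => Finset.sum_congr rfl fun l' _ => ?_
      ring
    have h2 : ∀ l, ∑ b : Fin m ⊕ Fin m', ∑ l', (B₀ (some l) i * E i' (some l')) *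
        (P l' b * P' b l) = B₀ (some l) i * E i' (some l) := by
      intro l
      rw [Finset.sum_comm]
      rw [Finset.sum_eq_single l]
      · rw [← Finset.mul_sum]
        have h3 := congrFun (congrFun hPP l) l
        rw [Matrix.mul_apply, Matrix.one_apply_eq] at h3
        rw [h3, mul_one]
      · intro l' _ hl'
        rw [← Finset.mul_sum]
        have h3 := congrFun (congrFun hPP l') l
        rw [Matrix.mul_apply, Matrix.one_apply_ne hl'] at h3
        rw [h3, mul_zero]
      · intro h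
        exact absurd (Finset.mem_univ _) h
    rw [Finset.sum_congr rfl fun b _ => h1 b, Finset.sum_comm, Finset.sum_congr rfl fun l _ => h2 l]
    have h4 := congrFun (congrFun hEB i') i
    rw [Matrix.mul_apply, Matrix.one_apply, Fintype.sum_option, hE] at h4
    rw [mul_comm (B₀ none i), show (∑ l, B₀ (some l) i * E i' (some l)) =
      ∑ l, E i' (some l) * B₀ (some l) i from Finset.sum_congr rfl fun l _ => mul_comm _ _, h4]
    simp [eq_comm]
  · intro a
    funext i
    have h1 : (mult f z (N * Q)).mulVec (fun i => ∑ l, P l a * E i (some l)) i =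
        κ * ∑ l, P l a * (W ^ Q * E) i (some l) := by
      rw [hmul, Matrix.smul_mulVec, Pi.smul_apply, smul_eq_mul]
      congr 1
      simp only [Matrix.mulVec, dotProduct, Matrix.mul_apply, Finset.mul_sum]
      rw [Finset.sum_comm]
      refine Finset.sum_congr rfl fun l _ => Finset.sum_congr rfl fun j _ => ?_
      ring
    have h4 : ∑ l, P l a * ∑ l', (M₀ ^ Q) l' l * E i (some l') =
        ∑ b, Matrix.fromBlocks M₁ 0 0 0 b a * ∑ l', P l' b * E i (some l') := by
      rw [← hfit]
      have h5 : ∑ l, P l a * ∑ l', (M₀ ^ Q) l' l * E i (some l') =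
          Matrix.vecMul (Matrix.vecMul (fun l => E i (some l)) (M₀ ^ Q)) P a := by
        simp only [Matrix.vecMul, dotProduct]
        refine Finset.sum_congr rfl fun l _ => ?_
        rw [mul_comm]
        congr 1
        exact Finset.sum_congr rfl fun l' _ => mul_comm _ _
      have h6 : ∑ b, (P' * M₀ ^ Q * P) b a * ∑ l', P l' b * E i (some l') =
          Matrix.vecMul (Matrix.vecMul (fun l => E i (some l)) P) (P' * M₀ ^ Q * P) a := by
        simp only [Matrix.vecMul, dotProduct]
        refine Finset.sum_congr rfl fun l _ => ?_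
        rw [mul_comm]
        congr 1
        exact Finset.sum_congr rfl fun l' _ => mul_comm _ _
      rw [h5, h6, Matrix.vecMul_vecMul, Matrix.vecMul_vecMul, ← Matrix.mul_assoc, ← Matrix.mul_assoc,
        hPP, Matrix.one_mul]
    show (mult f z (N * Q)).mulVec (fun i => ∑ l, P l a * E i (some l)) i = _
    rw [h1]
    simp_rw [hβ]
    rw [Pi.add_apply, Pi.smul_apply, Pi.smul_apply, Finset.sum_apply]
    simp only [Pi.smul_apply, smul_eq_mul, Option.elim_some]
    rw [← h4, ← hκγ]
    simp only [mul_add, Finset.sum_add_distrib, Finset.mul_sum, Finset.sum_mul]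
    congr 1
    · refine Finset.sum_congr rfl fun l _ => Finset.sum_congr rfl fun l' _ => ?_
      ring
    · refine Finset.sum_congr rfl fun l _ => ?_
      ring

end Pool.Agent.Helper89.TNL

end
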