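import Pool.Agent.Helper29.MG2.T27
import Pool.Agent.Helper29.MG2.T26

section

namespace Pool.Agent.Helper16
end Pool.Agent.Helper16
namespace Pool.Agent.Helper30.TKN
end Pool.Agent.Helper30.TKN
namespace Pool.Agent.Helper38.TQ
end Pool.Agent.Helper38.TQ

/-!
# The valuation ring of a place
-/

set_option autoImplicit false

namespace Pool.Agent.Helper89.TNL

open MvPolynomial
open Pool.Agent.Helper16 (Place IsFunctionField)
open Pool.Agent.Helper38.TQ
open Pool.Agent.Helper30.TKN

variable {ν : ℕ} {k K : Type} [Field k] [Field K] [Algebra k K]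

theorem LiftN_pow (n : ℕ) :
    (WithZero.exp (-1 : ℤ)) ^ n = WithZero.exp (-(n : ℤ)) := by
  rw [← WithZero.exp_nsmul]
  congr 1
  simp

/-- The valuation ring of a place. -/
theorem exists_res [IsAlgClosed k] (hK : IsFunctionField k K) (b : Place k K) :
    ∃ (π : b.ring) (χ : b.ring →+* k), Res π χ ∧ ∀ (r : b.ring) (n : ℕ),
      π ^ n ∣ r ↔ b.val (r : K) ≤ WithZero.exp (-(n : ℤ)) := by
  obtain ⟨π, hU, hdvd⟩ := Pool.Agent.Helper63.TS.exists_unif b
  obtain ⟨χ, hc, hχ0⟩ := Pool.Agent.Helper63.TS.exists_chi hK b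
  refine ⟨π, χ, ⟨hU, hc, fun r => (hχ0 r).trans (hdvd r).symm⟩, ?_⟩
  have hmul : ∀ r s : b.ring, ((r * s : b.ring) : K) = (r : K) * (s : K) := fun r s => rfl
  have hpow : ∀ (r : b.ring) (n : ℕ), ((r ^ n : b.ring) : K) = (r : K) ^ n :=
    fun r n => SubmonoidClass.coe_pow r n
  have hπ1 : b.val (π : K) = WithZero.exp (-1 : ℤ) := by
    apply le_antisymm
    · exact Pool.Agent.Helper63.TS.RingR_lt b ((hdvd π).1 dvd_rfl)
    · obtain ⟨f, hf0, hf⟩ := b.exists_uniformizer
      have hlt : WithZero.exp (-1 : ℤ) < (1 : WithZero (Multiplicative ℤ)) := by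
        rw [← WithZero.exp_zero, WithZero.exp_lt_exp]
        omega
      obtain ⟨ϖ, hϖ⟩ : ∃ ϖ : b.ring, (ϖ : K) = f := ⟨⟨f, by
        show b.val f ≤ 1
        rw [hf]
        exact hlt.le⟩, rfl⟩
      have h1 : π ∣ ϖ := by
        rw [hdvd, hϖ, hf]
        exact hlt
      obtain ⟨s, hs⟩ := h1
      have h2 : f = (π : K) * (s : K) := by
        rw [← hϖ, hs, hmul]
      rw [← hf, h2, map_mul]
      exact mul_le_of_le_one_right' (Pool.Agent.Helper63.TS.RingR_le b s)
  intro r n
  constructor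
  · rintro ⟨s, rfl⟩
    rw [hmul, hpow, map_mul, map_pow, hπ1, LiftN_pow]
    exact mul_le_of_le_one_right' (Pool.Agent.Helper63.TS.RingR_le b s)
  · intro h
    have hπ0 : (π : K) ≠ 0 := by
      intro h0
      rw [h0, map_zero] at hπ1
      exact WithZero.exp_ne_zero hπ1.symm
    have h1 : b.val ((r : K) / (π : K) ^ n) ≤ 1 := by
      rw [map_div₀, map_pow, hπ1, LiftN_pow, div_le_one₀ (by exact WithZero.exp_pos)]
      exact h
    refine ⟨⟨(r : K) / (π : K) ^ n, h1⟩, Subtype.ext ?_⟩
    show (r : K) = ((π ^ n : b.ring) : K) * ((r : K) / (π : K) ^ n)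
    rw [hpow, mul_div_cancel₀]
    exact pow_ne_zero _ hπ0

theorem exists_liftN {b : Place k K} {π : b.ring} {χ : b.ring →+* k} (hR : Res π χ)
    (hπ : ∀ (r : b.ring) (n : ℕ), π ^ n ∣ r ↔ b.val (r : K) ≤ WithZero.exp (-(n : ℤ)))
    {P : MvPolynomial (Fin (ν + 1)) K} {p : MvPolynomial (Fin (ν + 1)) k} (h : RedP b P p) :
    ∃ Q : MvPolynomial (Fin (ν + 1)) b.ring, map (algebraMap b.ring K) Q = P ∧ map χ Q = p := by
  classical
  have h1 : ∀ m, b.val (P.coeff m) ≤ 1 := by
    intro m
    have h2 : P.coeff m = (P.coeff m - algebraMap k K (p.coeff m)) + algebraMap k K (p.coeff m) := by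
      ring
    rw [h2]
    exact (b.val.map_add _ _).trans (max_le (h m).le (b.val_algebraMap_le _))
  have h3 : ∀ m, (∑ n ∈ P.support, monomial n (⟨P.coeff n, h1 n⟩ : b.ring)).coeff m =
      ⟨P.coeff m, h1 m⟩ := by
    intro m
    rw [coeff_sum]
    simp only [coeff_monomial]
    rw [Finset.sum_ite_eq']
    split_ifs with hm
    · rfl
    · exact Subtype.ext (notMem_support_iff.1 hm).symm
  refine ⟨∑ n ∈ P.support, monomial n (⟨P.coeff n, h1 n⟩ : b.ring), ?_, ?_⟩
  · ext m
    rw [coeff_map, h3]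
    rfl
  · ext m
    rw [coeff_map, h3]
    have h4 : χ (⟨P.coeff m, h1 m⟩ - algebraMap k b.ring (p.coeff m)) = 0 := by
      rw [hR.ker, ← pow_one π, hπ]
      have h5 : ((⟨P.coeff m, h1 m⟩ - algebraMap k b.ring (p.coeff m) : b.ring) : K) =
          P.coeff m - algebraMap k K (p.coeff m) := rfl
      rw [h5]
      have h6 := Pool.Agent.Helper63.TS.RingR_lt b (h m)
      simpa using h6
    rw [map_sub, hR.sec, sub_eq_zero] at h4
    exact h4

/-- A multiple with integral coefficients. -/
theorem exists_integral (b : Place k K) (P : MvPolynomial (Fin (ν + 1)) K) :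
    ∃ (c : K) (Q : MvPolynomial (Fin (ν + 1)) b.ring), c ≠ 0 ∧
      map (algebraMap b.ring K) Q = C c * P := by
  classical
  obtain ⟨f, hf0, hf⟩ := b.exists_uniformizer
  obtain ⟨N, hN⟩ : ∃ N : ℕ, ∀ m ∈ P.support, WithZero.log (b.val (P.coeff m)) ≤ (N : ℤ) := by
    refine ⟨∑ m ∈ P.support, (WithZero.log (b.val (P.coeff m))).toNat, fun m hm => ?_⟩
    refine (Int.self_le_toNat _).trans ?_
    exact_mod_cast Finset.single_le_sum
      (f := fun m => (WithZero.log (b.val (P.coeff m))).toNat) (fun i _ => Nat.zero_le _) hm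
  have h1 : ∀ m, b.val (f ^ N * P.coeff m) ≤ 1 := by
    intro m
    by_cases hm : P.coeff m = 0
    · rw [hm, mul_zero, map_zero]
      exact zero_le
    · have hv : b.val (P.coeff m) ≠ 0 := (map_ne_zero _).2 hm
      rw [map_mul, map_pow, hf, LiftN_pow, ← WithZero.exp_log hv, ← WithZero.exp_add,
        ← WithZero.exp_zero, WithZero.exp_le_exp]
      have := hN m (mem_support_iff.2 hm)
      omega
  refine ⟨f ^ N, ∑ n ∈ P.support, monomial n (⟨f ^ N * P.coeff n, h1 n⟩ : b.ring),
    pow_ne_zero _ hf0, ?_⟩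
  ext m
  rw [coeff_map, coeff_sum, coeff_C_mul]
  simp only [coeff_monomial]
  rw [Finset.sum_ite_eq']
  split_ifs with hm
  · rfl
  · rw [map_zero, notMem_support_iff.1 hm, mul_zero]

end Pool.Agent.Helper89.TNL

end

section

namespace Pool.Agent.Helper16
end Pool.Agent.Helper16
namespace Pool.Agent.Helper30.TKN
end Pool.Agent.Helper30.TKN
namespace Pool.Agent.Helper38.TQ
end Pool.Agent.Helper38.TQ

/-!
# Points of a residue polydisc in the coordinates of a chart
-/

set_option autoImplicit false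

namespace Pool.Agent.Helper89.TNL

open MvPolynomial
open Pool.Agent.Helper16 (Place IsFunctionField)
open Pool.Agent.Helper38.TQ
open Pool.Agent.Helper30.TKN

variable {ν : ℕ} {k K : Type} [Field k] [Field K] [Algebra k K] {b : Place k K} {π : b.ring}
  {χ : b.ring →+* k} {ι : Type} [Fintype ι] [DecidableEq ι]

/-- The vectors of the chart over the valuation ring. -/
def eR (b : Place k K) {ι : Type} (e : Option ι → Fin (ν + 1) → k) :
    Option ι → Fin (ν + 1) → b.ring :=
  fun a i => algebraMap k b.ring (e a i)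

theorem PointN_lt (hR : Res π χ)
    (hπ : ∀ (r : b.ring) (n : ℕ), π ^ n ∣ r ↔ b.val (r : K) ≤ WithZero.exp (-(n : ℤ)))
    (r : b.ring) : π ∣ r ↔ b.val (r : K) < 1 := by
  have h1 := hπ r 1
  rw [pow_one] at h1
  rw [h1]
  constructor
  · intro h
    refine lt_of_le_of_lt h ?_
    rw [← WithZero.exp_zero, WithZero.exp_lt_exp]
    simp
  · intro h
    exact Pool.Agent.Helper63.TS.RingR_lt b h

/-- A point which specialises to the origin of the chart. -/
theorem exists_chart (hR : Res π χ)
    (hπ : ∀ (r : b.ring) (n : ℕ), π ^ n ∣ r ↔ b.val (r : K) ≤ WithZero.exp (-(n : ℤ)))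
    {e : Option ι → Fin (ν + 1) → k} {B : Fin (ν + 1) → Option ι → k}
    (h₁ : ∀ a a', ∑ i, e a i * B i a' = if a = a' then 1 else 0)
    (h₂ : ∀ i i', ∑ a, B i a * e a i' = if i = i' then 1 else 0)
    {y : Fin (ν + 1) → K} (hy : Red b y (e none)) :
    ∃ (c : K) (q : ι → b.ring), c ≠ 0 ∧ (∀ i, π ∣ q i) ∧
      ∀ j, y j = c * algebraMap b.ring K (ptN (eR b e) q j) := by
  obtain ⟨h0, c0, hc0, hc⟩ := hy
  have hle : ∀ i, b.val (c0 * y i) ≤ 1 := by
    intro i
    have h3 : c0 * y i = (c0 * y i - algebraMap k K (e none i)) + algebraMap k K (e none i) := by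
      ring
    rw [h3]
    exact (b.val.map_add _ _).trans (max_le (hc i).le (b.val_algebraMap_le _))
  obtain ⟨yr, hyr⟩ : ∃ yr : Fin (ν + 1) → b.ring, ∀ i, ((yr i : b.ring) : K) = c0 * y i :=
    ⟨fun i => ⟨c0 * y i, hle i⟩, fun i => rfl⟩
  have hd : ∀ i, π ∣ yr i - eR b e none i := by
    intro i
    rw [PointN_lt hR hπ]
    have h4 : ((yr i - eR b e none i : b.ring) : K) = c0 * y i - algebraMap k K (e none i) := by
      rw [← hyr]
      rfl
    rw [h4]
    exact hc i
  obtain ⟨w, hw⟩ : ∃ w : Option ι → b.ring,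
      ∀ a, w a = ∑ i, yr i * algebraMap k b.ring (B i a) := ⟨_, fun a => rfl⟩
  have hwd : ∀ a, π ∣ w a - (if none = a then 1 else 0) := by
    intro a
    have h3 := congrArg (algebraMap k b.ring) (h₁ none a)
    rw [map_sum] at h3
    simp only [map_mul] at h3
    have h5 : w a - (if none = a then 1 else 0) =
        ∑ i, (yr i - eR b e none i) * algebraMap k b.ring (B i a) := by
      simp only [sub_mul, Finset.sum_sub_distrib]
      rw [hw a]
      congr 1
      simp only [eR]
      rw [h3]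
      split_ifs <;> simp
    rw [h5]
    exact Finset.dvd_sum fun i _ => Dvd.dvd.mul_right (hd i) _
  have hw0 : IsUnit (w none) := by
    apply hR.unif.unit
    intro h
    have h6 := hwd none
    rw [if_pos rfl] at h6
    have h7 : π ∣ 1 := by
      have h8 := dvd_sub h h6
      rwa [sub_sub_cancel] at h8
    exact hR.unif.prime.not_isUnit (isUnit_of_dvd_one h7)
  have hws : ∀ i, π ∣ w (some i) := by
    intro i
    have h6 := hwd (some i)
    rw [if_neg (by simp), sub_zero] at h6
    exact h6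
  have hrec : ∀ j, yr j = ∑ a, w a * algebraMap k b.ring (e a j) := by
    intro j
    have h7 : ∑ a, w a * algebraMap k b.ring (e a j) =
        ∑ i, yr i * ∑ a, algebraMap k b.ring (B i a) * algebraMap k b.ring (e a j) := by
      simp only [hw, Finset.sum_mul, Finset.mul_sum]
      rw [Finset.sum_comm]
      refine Finset.sum_congr rfl fun i _ => Finset.sum_congr rfl fun a _ => ?_
      ring
    rw [h7]
    have h8 : ∀ i, ∑ a, algebraMap k b.ring (B i a) * algebraMap k b.ring (e a j) =
        if i = j then 1 else 0 := by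
      intro i
      have h3 := congrArg (algebraMap k b.ring) (h₂ i j)
      rw [map_sum] at h3
      simp only [map_mul] at h3
      rw [h3]
      split_ifs <;> simp
    simp [h8]
  obtain ⟨u, hu⟩ := hw0
  refine ⟨c0⁻¹ * ((w none : b.ring) : K), fun i => w (some i) * ((u⁻¹ : (b.ring)ˣ) : b.ring),
    ?_, fun i => Dvd.dvd.mul_right (hws i) _, ?_⟩
  · refine mul_ne_zero (inv_ne_zero hc0) ?_
    intro h
    have h9 : w none = 0 := Subtype.ext h
    rw [h9] at hu
    exact u.ne_zero hu
  · intro j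
    have h10 : w none * ptN (eR b e)
        (fun i => w (some i) * ((u⁻¹ : (b.ring)ˣ) : b.ring)) j = yr j := by
      rw [hrec j, Fintype.sum_option]
      unfold ptN
      simp only [eR]
      rw [mul_add, Finset.mul_sum]
      congr 1
      refine Finset.sum_congr rfl fun i _ => ?_
      have h11 : w none * ((u⁻¹ : (b.ring)ˣ) : b.ring) = 1 := by
        rw [← hu]
        exact Units.mul_inv u
      calc w none * (w (some i) * ((u⁻¹ : (b.ring)ˣ) : b.ring) * algebraMap k b.ring (e (some i) j))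
          = (w none * ((u⁻¹ : (b.ring)ˣ) : b.ring)) *
            (w (some i) * algebraMap k b.ring (e (some i) j)) := by ring
        _ = _ := by rw [h11, one_mul]
    have h12 : ((w none : b.ring) : K) * algebraMap b.ring K (ptN (eR b e)
        (fun i => w (some i) * ((u⁻¹ : (b.ring)ˣ) : b.ring)) j) = c0 * y j := by
      rw [← hyr j, ← h10]
      rfl
    rw [mul_assoc, h12, inv_mul_cancel_left₀ hc0]

end Pool.Agent.Helper89.TNL

end
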