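import Pool.Agent.Helper29.MG2.T60
import Pool.Agent.Helper29.MG2.T58
import Pool.Agent.Helper29.MG2.T24

section

namespace Pool.Agent.Helper16
end Pool.Agent.Helper16
namespace Pool.Agent.Helper30.TKN
end Pool.Agent.Helper30.TKN
namespace Pool.Agent.Helper36
end Pool.Agent.Helper36
namespace Pool.Agent.Helper38.TQ
end Pool.Agent.Helper38.TQ

/-!
# The germ of the iterate in a chart
-/

set_option autoImplicit false

namespace Pool.Agent.Helper89.TNL

open MvPolynomial
open Pool.Agent.Helper16 (Place IsFunctionField)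
open Pool.Agent.Helper36 (step iter)
open Pool.Agent.Helper38.TQ
open Pool.Agent.Helper30.TKN

variable {ν : ℕ} {k K : Type} [Field k] [Field K] [Algebra k K] {b : Place k K} {π : b.ring}
  {χ : b.ring →+* k} {ι : Type} [Fintype ι] [DecidableEq ι]

private theorem germP_chi_eval {S : Type} [CommRing S] [Algebra k S] (χ : S →+* k)
    (hχ : ∀ c : k, χ (algebraMap k S c) = c)
    (v : Fin (ν + 1) → k) (P : MvPolynomial (Fin (ν + 1)) S) :
    χ (eval (fun i => algebraMap k S (v i)) P) = eval v (map χ P) := by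
  rw [eval_map, ← coe_eval₂Hom, ← RingHom.comp_apply]
  congr 1
  refine MvPolynomial.ringHom_ext (fun r => ?_) (fun i => ?_)
  · simp
  · simp [hχ]

private theorem germP_pt {S : Type} [CommRing S] {e : Option ι → Fin (ν + 1) → S}
    {B : Fin (ν + 1) → Option ι → S}
    (h₁ : ∀ a a', ∑ i, e a i * B i a' = if a = a' then 1 else 0) (q : ι → S) :
    ∑ i, B i none * ptN e q i = 1 ∧ ∀ l, ∑ i, B i (some l) * ptN e q i = q l := by
  have h : ∀ a, ∑ i, B i a * ptN e q i =
      (if none = a then 1 else 0) + ∑ l, q l * (if some l = a then 1 else 0) := by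
    intro a
    have h2 : ∀ i, B i a * ptN e q i = e none i * B i a + ∑ l, q l * (e (some l) i * B i a) := by
      intro i
      unfold ptN
      rw [mul_add, Finset.mul_sum, mul_comm (B i a)]
      congr 1
      exact Finset.sum_congr rfl fun l _ => by ring
    rw [Finset.sum_congr rfl fun i _ => h2 i, Finset.sum_add_distrib, h₁, Finset.sum_comm]
    congr 1
    refine Finset.sum_congr rfl fun l _ => ?_
    rw [← h₁, Finset.mul_sum]
  refine ⟨?_, fun l => ?_⟩
  · rw [h]; simp
  · rw [h]; simp

theorem exists_germ (hR : Res π χ)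
    (hπ : ∀ (r : b.ring) (n : ℕ), π ^ n ∣ r ↔ b.val (r : K) ≤ WithZero.exp (-(n : ℤ)))
    {e : Option ι → Fin (ν + 1) → k} {B : Fin (ν + 1) → Option ι → k}
    (h₁ : ∀ a a', ∑ i, e a i * B i a' = if a = a' then 1 else 0)
    (h₂ : ∀ i i', ∑ a, B i a * e a i' = if i = i' then 1 else 0) {d : ℕ}
    {F : Fin (ν + 1) → MvPolynomial (Fin (ν + 1)) K}
    {f : Fin (ν + 1) → MvPolynomial (Fin (ν + 1)) k} (hF : ∀ i, (F i).IsHomogeneous d)
    (hf : GoodRed d b F f) {N : ℕ} {γ : k} (hγ : γ ≠ 0)
    (hfix : iter f (e none) N = γ • e none) {M : Matrix ι ι k} {α : ι → k}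
    (hlin : ∀ a, (mult f (e none) N).mulVec (e (some a)) =
      γ • ∑ i, M i a • e (some i) + α a • e none) :
    ∃ (A0 : MvPolynomial ι b.ring) (A : ι → MvPolynomial ι b.ring), GermN π A0 A ∧
      LinN χ A0 A M ∧ ∀ (y : ℕ → Fin (ν + 1) → K) (c : ℕ → K) (q : ℕ → ι → b.ring),
        (∀ s, c s ≠ 0) → (∀ s i, π ∣ q s i) →
        (∀ s j, y s j = c s * algebraMap b.ring K (ptN (eR b e) (q s) j)) →
        (∀ s, y (s + 1) = iter F (y s) N) → OrbN π A0 A q := by
  classical
  choose Φ hΦK hΦχ using fun i => exists_liftN hR hπ (redP_itN hf.red N i)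
  obtain ⟨BR, hBR⟩ : ∃ BR : Fin (ν + 1) → Option ι → b.ring,
      ∀ i a, BR i a = algebraMap k b.ring (B i a) := ⟨_, fun _ _ => rfl⟩
  have hBR1 : ∀ a a', ∑ i, eR b e a i * BR i a' = if a = a' then 1 else 0 := by
    intro a a'
    have h := congrArg (algebraMap k b.ring) (h₁ a a')
    rw [map_sum] at h
    simp only [map_mul] at h
    have h2 : ∑ i, eR b e a i * BR i a' =
        ∑ i, algebraMap k b.ring (e a i) * algebraMap k b.ring (B i a') :=
      Finset.sum_congr rfl fun i _ => by rw [hBR]; rfl
    rw [h2, h]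
    split_ifs <;> simp
  obtain ⟨A, hA⟩ : ∃ A : Option ι → MvPolynomial ι b.ring,
      ∀ a, A a = ∑ i, C (BR i a) * chN (eR b e) (Φ i) := ⟨_, fun _ => rfl⟩
  have hev : ∀ a (u : ι → b.ring),
      eval u (A a) = ∑ i, BR i a * eval (ptN (eR b e) u) (Φ i) := by
    intro a u
    rw [hA, map_sum]
    refine Finset.sum_congr rfl fun i _ => ?_
    rw [map_mul, eval_C, eval_chN]
  have hco : ∀ a m, (A a).coeff m = ∑ i, BR i a * (chN (eR b e) (Φ i)).coeff m := by
    intro a m
    rw [hA, coeff_sum]
    refine Finset.sum_congr rfl fun i _ => ?_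
    rw [coeff_C_mul]
  have hBχ : ∀ i a, χ (BR i a) = B i a := by
    intro i a
    rw [hBR, hR.sec]
  have hc0 : ∀ a, χ ((A a).coeff 0) = γ * if none = a then 1 else 0 := by
    intro a
    rw [hco, map_sum, ← h₁, Finset.mul_sum]
    refine Finset.sum_congr rfl fun i _ => ?_
    have h2 : χ (eval (eR b e none) (Φ i)) = γ * e none i := by
      have h3 := germP_chi_eval χ hR.sec (e none) (Φ i)
      rw [hΦχ, eval_itN, hfix] at h3
      exact h3
    rw [map_mul, hBχ, coeff_chN_zero, h2]
    ring
  have hc1 : ∀ a j, χ ((A a).coeff (Finsupp.single j 1)) =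
      γ * ∑ i, M i j * (if some i = a then 1 else 0) + α j * if none = a then 1 else 0 := by
    intro a j
    have h2 : ∀ l, χ ((chN (eR b e) (Φ l)).coeff (Finsupp.single j 1)) =
        γ * ∑ i, M i j * e (some i) l + α j * e none l := by
      intro l
      have h4 := congrFun (hlin j) l
      rw [Pi.add_apply, Pi.smul_apply, Finset.sum_apply, Pi.smul_apply, smul_eq_mul,
        smul_eq_mul] at h4
      simp only [Pi.smul_apply, smul_eq_mul] at h4
      rw [← h4, coeff_chN_single, map_sum, Matrix.mulVec, dotProduct]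
      refine Finset.sum_congr rfl fun m _ => ?_
      have h5 := germP_chi_eval χ hR.sec (e none) (pderiv m (Φ l))
      rw [← pderiv_map, hΦχ, pderiv_itN] at h5
      have h6 : χ (eR b e (some j) m) = e (some j) m := hR.sec _
      rw [map_mul, h6, ← h5]
      rfl
    rw [hco, map_sum]
    have h3 : ∀ l, χ (BR l a * (chN (eR b e) (Φ l)).coeff (Finsupp.single j 1)) =
        γ * ∑ i, M i j * (e (some i) l * B l a) + α j * (e none l * B l a) := by
      intro l
      rw [map_mul, hBχ, h2, mul_add, Finset.mul_sum, Finset.mul_sum, Finset.mul_sum]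
      congr 1
      · exact Finset.sum_congr rfl fun i _ => by ring
      · ring
    rw [Finset.sum_congr rfl fun l _ => h3 l, Finset.sum_add_distrib, ← Finset.mul_sum,
      ← Finset.mul_sum, Finset.sum_comm, h₁]
    congr 2
    refine Finset.sum_congr rfl fun i _ => ?_
    rw [← h₁, Finset.mul_sum]
  refine ⟨A none, fun i => A (some i), ⟨?_, ?_⟩, ?_, ?_⟩
  · rw [← hR.ker, hc0]
    simpa using hγ
  · intro i
    rw [← hR.ker, hc0]
    simp
  · intro i j
    show χ ((A (some i)).coeff (Finsupp.single j 1)) = χ ((A none).coeff 0) * M i j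
    rw [hc0, hc1]
    simp
  · intro y c q hc hq hy hstep
    refine ⟨hq, fun s l => ?_⟩
    have hinj : Function.Injective (algebraMap b.ring K) := Subtype.val_injective
    have h2 : ∀ j, c (s + 1) * algebraMap b.ring K (ptN (eR b e) (q (s + 1)) j) =
        c s ^ (d ^ N) * algebraMap b.ring K (eval (ptN (eR b e) (q s)) (Φ j)) := by
      intro j
      have h3 : y s = c s • fun j => algebraMap b.ring K (ptN (eR b e) (q s) j) := by
        funext j
        exact hy s j
      rw [← hy, hstep, ← eval_itN, h3, eval_smul_hom (itN_hom hF N j), ← hΦK j]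
      congr 1
      rw [eval_map, ← coe_eval₂Hom, ← RingHom.comp_apply]
      congr 1
      refine MvPolynomial.ringHom_ext (fun r => ?_) (fun i => ?_)
      · simp
      · simp
    have h3 : ∀ a, c (s + 1) * algebraMap b.ring K
        (∑ i, BR i a * ptN (eR b e) (q (s + 1)) i) =
        c s ^ (d ^ N) * algebraMap b.ring K (eval (q s) (A a)) := by
      intro a
      rw [hev, map_sum, map_sum, Finset.mul_sum, Finset.mul_sum]
      refine Finset.sum_congr rfl fun i _ => ?_
      rw [map_mul, map_mul, mul_left_comm, h2, mul_left_comm]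
    obtain ⟨g1, g2⟩ := germP_pt hBR1 (q (s + 1))
    have h4 := h3 none
    have h5 := h3 (some l)
    rw [g1, map_one, mul_one] at h4
    rw [g2, h4, mul_assoc] at h5
    have h6 := mul_left_cancel₀ (pow_ne_zero _ (hc s)) h5
    rw [← map_mul] at h6
    rw [mul_comm]
    exact hinj h6

end Pool.Agent.Helper89.TNL

end

section

namespace Pool.Agent.Helper16
end Pool.Agent.Helper16
namespace Pool.Agent.Helper30.TKN
end Pool.Agent.Helper30.TKN
namespace Pool.Agent.Helper36
end Pool.Agent.Helper36
namespace Pool.Agent.Helper38.TQ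
end Pool.Agent.Helper38.TQ
namespace Pool.Agent.Helper63.TN
end Pool.Agent.Helper63.TN

/-!
# Auxiliary statements for the local theorem
-/

set_option autoImplicit false

namespace Pool.Agent.Helper89.TNL

open MvPolynomial
open Pool.Agent.Helper16 (Place IsFunctionField)
open Pool.Agent.Helper36 (step iter iter_zero iter_succ iter_succ' iter_add)
open Pool.Agent.Helper38.TQ
open Pool.Agent.Helper30.TKN
open Pool.Agent.Helper63.TN (OnI IsCurve NonPer NearPt IsPer pull)

variable {ν : ℕ}

/-- A class modulo `Q` with infinitely many elements. -/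
theorem Place_class {S : Set ℕ} (hS : S.Infinite) {Q : ℕ} (hQ : 0 < Q) :
    ∃ r, {s | r + Q * s ∈ S}.Infinite := by
  by_contra hcon
  push Not at hcon
  refine hS (Set.Finite.subset (s := ⋃ r ∈ Finset.range Q, (fun s => r + Q * s) ''
    {s | r + Q * s ∈ S}) ?_ ?_)
  · refine Set.Finite.biUnion (Finset.finite_toSet _) fun r _ => ?_
    exact (Set.not_infinite.1 (by simpa using hcon r)).image _
  · intro j hj
    simp only [Set.mem_iUnion]
    refine ⟨j % Q, Finset.mem_range.2 (Nat.mod_lt _ hQ), j / Q, ?_, Nat.mod_add_div j Q⟩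
    show j % Q + Q * (j / Q) ∈ S
    rw [Nat.mod_add_div]
    exact hj

/-- Finitely many homogeneous generators. -/
theorem Place_gens {K : Type} [Field K] {I : Ideal (MvPolynomial (Fin (ν + 1)) K)}
    (hI : ∀ G ∈ I, ∀ m, homogeneousComponent m G ∈ I) :
    ∃ (σ : Type) (_ : Finite σ) (h : σ → MvPolynomial (Fin (ν + 1)) K) (n : σ → ℕ),
      (∀ i, (h i).IsHomogeneous (n i)) ∧ (∀ i, h i ∈ I) ∧ Ideal.span (Set.range h) = I := by
  classical
  obtain ⟨S, hS⟩ := (isNoetherianRing_iff_ideal_fg _).1
    (inferInstance : IsNoetherianRing (MvPolynomial (Fin (ν + 1)) K)) I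
  set D := S.sup totalDegree with hD
  refine ⟨{x // x ∈ S ×ˢ Finset.range (D + 1)}, inferInstance,
    fun x => homogeneousComponent x.1.2 x.1.1, fun x => x.1.2, fun x =>
      homogeneousComponent_isHomogeneous _ _, fun x => ?_, le_antisymm ?_ ?_⟩
  · refine hI _ ?_ _
    rw [← hS]
    exact Ideal.subset_span (Finset.mem_product.1 x.2).1
  · rw [Ideal.span_le]
    rintro _ ⟨x, rfl⟩
    refine hI _ ?_ _
    rw [← hS]
    exact Ideal.subset_span (Finset.mem_product.1 x.2).1
  · rw [← hS, Ideal.span_le]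
    intro g hg
    have h1 : g = ∑ i ∈ Finset.range (g.totalDegree + 1), homogeneousComponent i g :=
      (sum_homogeneousComponent g).symm
    rw [SetLike.mem_coe, h1]
    refine Ideal.sum_mem _ fun i hi => ?_
    have hi1 : i < g.totalDegree + 1 := Finset.mem_range.1 hi
    have hi2 : g.totalDegree ≤ D := Finset.le_sup (f := totalDegree) hg
    exact Ideal.subset_span ⟨⟨(g, i), Finset.mem_product.2 ⟨hg, Finset.mem_range.2 (by omega)⟩⟩, rfl⟩

/-- The value of the polynomials which define the iterates at points over an extension. -/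
theorem Place_aeval_pull {K : Type} [Field K] (F : Fin (ν + 1) → MvPolynomial (Fin (ν + 1)) K)
    {L : Type} [Field L] [Algebra K L] (w : Fin (ν + 1) → L) (N : ℕ)
    (P : MvPolynomial (Fin (ν + 1)) K) : aeval w (pull F N P) = aeval (iter F w N) P := by
  have h1 : ∀ (Q : MvPolynomial (Fin (ν + 1)) K) (y : Fin (ν + 1) → L),
      aeval y (aeval F Q) = aeval (step F y) Q := by
    intro Q y
    rw [comp_aeval_apply]
    rfl
  unfold pull
  induction N generalizing P with
  | zero => rfl
  | succ N ih => rw [Function.iterate_succ_apply, ih, h1, iter_succ]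

theorem Place_aeval_itN {K : Type} [Field K] (F : Fin (ν + 1) → MvPolynomial (Fin (ν + 1)) K)
    {L : Type} [Field L] [Algebra K L] (w : Fin (ν + 1) → L) (N : ℕ) (i : Fin (ν + 1)) :
    aeval w (itN F N i) = iter F w N i := by
  have h1 := Place_aeval_pull F w N (X i)
  rw [aeval_X] at h1
  exact h1

/-- The polynomials which define the iterates, composed with a polynomial. -/
theorem Place_pull {K : Type} [Field K] (F : Fin (ν + 1) → MvPolynomial (Fin (ν + 1)) K) (N : ℕ)
    (P : MvPolynomial (Fin (ν + 1)) K) : pull F N P = aeval (itN F N) P := by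
  unfold pull
  induction N with
  | zero =>
    have h1 : itN F 0 = (X : Fin (ν + 1) → MvPolynomial (Fin (ν + 1)) K) := rfl
    rw [h1, aeval_X_left, AlgHom.id_apply]
    rfl
  | succ N ih =>
    have h1 : itN F (N + 1) =
        fun i => (aeval F : _ →ₐ[K] MvPolynomial (Fin (ν + 1)) K) (itN F N i) := by
      funext i
      unfold itN
      rw [Function.iterate_succ_apply']
    rw [Function.iterate_succ_apply', ih, h1, comp_aeval_apply]

theorem Place_pull_hom {K : Type} [Field K] {d : ℕ}
    {F : Fin (ν + 1) → MvPolynomial (Fin (ν + 1)) K} (hF : ∀ i, (F i).IsHomogeneous d)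
    {P : MvPolynomial (Fin (ν + 1)) K} {e : ℕ} (hP : P.IsHomogeneous e) (N : ℕ) :
    (pull F N P).IsHomogeneous (d ^ N * e) := by
  rw [Place_pull]
  exact hP.aeval _ (itN_hom hF N)

section place

variable {k K : Type} [Field k] [Field K] [Algebra k K] {b : Place k K}

/-- Scaling the reduction. -/
theorem Place_red_smul {y : Fin (ν + 1) → K} {z : Fin (ν + 1) → k} (h : Red b y z) {c : k}
    (hc : c ≠ 0) : Red b y (c • z) := by
  obtain ⟨hz, a, ha, h1⟩ := h
  refine ⟨smul_ne_zero hc hz, algebraMap k K c * a,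
    mul_ne_zero ((map_ne_zero_iff _ (algebraMap k K).injective).2 hc) ha, fun i => ?_⟩
  have h2 : algebraMap k K c * a * y i - algebraMap k K ((c • z) i) =
      algebraMap k K c * (a * y i - algebraMap k K (z i)) := by
    rw [Pi.smul_apply, smul_eq_mul, map_mul]
    ring
  rw [h2, map_mul, b.triv c hc, one_mul]
  exact h1 i

theorem Place_red_peq {y : Fin (ν + 1) → K} {z z' : Fin (ν + 1) → k} (h : Red b y z)
    (hz : PEq z z') : Red b y z' := by
  obtain ⟨c, hc, rfl⟩ := hz
  exact Place_red_smul h hc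

/-- Multiples of a period. -/
theorem Place_per [IsAlgClosed k] {d : ℕ} {f : Fin (ν + 1) → MvPolynomial (Fin (ν + 1)) k}
    (hf : IsEndo d f) {z : Fin (ν + 1) → k} {N : ℕ} (hfix : PEq z (iter f z N)) (j : ℕ) :
    PEq z (iter f z (N * j)) := by
  induction j with
  | zero => exact PEq.refl z
  | succ j ih =>
    have h1 : N * (j + 1) = N * j + N := by ring
    rw [h1, iter_add]
    exact ih.trans (hfix.iter hf (N * j))

end place

end Pool.Agent.Helper89.TNL

end
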