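import Pool.Agent.Helper29.MG2.T62
import Pool.Agent.Helper29.MG2.T31
import Pool.Agent.Helper29.MG2.T53

section

namespace Pool.Agent.Helper16
end Pool.Agent.Helper16
namespace Pool.Agent.Helper30.TKN
end Pool.Agent.Helper30.TKN
namespace Pool.Agent.Helper36
end Pool.Agent.Helper36
namespace Pool.Agent.Helper38.TQ
end Pool.Agent.Helper38.TQ

/-!
# The local statement
-/

set_option autoImplicit false

namespace Pool.Agent.Helper63.TN

open MvPolynomial
open Pool.Agent.Helper16 (Place IsFunctionField)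
open Pool.Agent.Helper36 (step iter)
open Pool.Agent.Helper38.TQ
open Pool.Agent.Helper30.TKN

variable {ν : ℕ} {k K : Type} [Field k] [Field K] [Algebra k K]

/-- At a place of good reduction at which the reduction of the orbit is periodic, the periodic
class of times containing infinitely many returns, there is a periodic point of the curve
nearby. -/
theorem local_main [IsAlgClosed k] [CharZero k] [Algebra K ℂ] (hK : IsFunctionField k K) {d : ℕ}
    {F : Fin (ν + 1) → MvPolynomial (Fin (ν + 1)) K}
    (hF : IsEndo d fun i => map (algebraMap K ℂ) (F i))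
    {I : Ideal (MvPolynomial (Fin (ν + 1)) K)} (hI : IsCurve I)
    (hnp : NonPer I F) {x : Fin (ν + 1) → K} (hx : x ≠ 0)
    (hdist : ∀ n n', n ≠ n' → ¬ PEq (iter F x n) (iter F x n')) {b : Place k K} {c N : ℕ}
    (hN : 0 < N) (hret : {j : ℕ | OnI I (iter F x (c + N * j))}.Infinite)
    {z : Fin (ν + 1) → k} (hred : Red b (iter F x c) z)
    {f : Fin (ν + 1) → MvPolynomial (Fin (ν + 1)) k} (hf : GoodRed d b F f)
    (hfix : PEq z (iter f z N)) :
    NearPt I b z (fun _ _ _ w => IsPer F w) :=
  Pool.Agent.Helper89.TNL.local_main hK hF hI hnp hx hdist hN hret hred hf hfix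

end Pool.Agent.Helper63.TN

end

section

namespace Pool.Agent.Helper16
end Pool.Agent.Helper16
namespace Pool.Agent.Helper30.TKN
end Pool.Agent.Helper30.TKN
namespace Pool.Agent.Helper36
end Pool.Agent.Helper36
namespace Pool.Agent.Helper38.TQ
end Pool.Agent.Helper38.TQ

/-!
# Curves with finitely many periodic points: the contact of returns
-/

set_option autoImplicit false

namespace Pool.Agent.Helper63.TN

open MvPolynomial
open Pool.Agent.Helper16 (Place IsFunctionField)
open Pool.Agent.Helper36 (step iter iter_add)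
open Pool.Agent.Helper38.TQ
open Pool.Agent.Helper30.TKN

variable {ν : ℕ} {k K : Type} [Field k] [Field K] [Algebra k K]

/-- A set whose finite subsets have bounded cardinality is finite. -/
theorem CaseB_finite {α : Type} {S : Set α} {B : ℕ}
    (h : ∀ T : Finset α, (∀ b ∈ T, b ∈ S) → T.card ≤ B) : S.Finite := by
  by_contra hS
  obtain ⟨T, hT, hc⟩ := (Set.not_finite.1 hS : S.Infinite).exists_subset_card_eq (B + 1)
  have h1 := h T fun b hb => hT hb
  omega

/-- Infinitely many returns in a residue class. -/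
theorem CaseB_class {P : ℕ → Prop} (h : {n | P n}.Infinite) (i : ℕ) {N : ℕ} (hN : 0 < N) :
    ∃ r < N, {j : ℕ | P (i + r + N * j)}.Infinite := by
  by_contra hcon
  push Not at hcon
  refine h (Set.Finite.subset ((Set.finite_Iio i).union
    (Set.Finite.biUnion (Set.finite_Iio N) fun r hr =>
      (hcon r hr).image fun j => i + r + N * j)) ?_)
  intro n hn
  by_cases hi : n < i
  · exact Or.inl hi
  · refine Or.inr ?_
    rw [Set.mem_iUnion₂]
    have h1 : i + (n - i) % N + N * ((n - i) / N) = n := by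
      have := Nat.mod_add_div (n - i) N
      omega
    refine ⟨(n - i) % N, Nat.mod_lt _ hN, (n - i) / N, ?_, h1⟩
    show P _
    rw [h1]
    exact hn

/-- If the curve has finitely many periodic points but infinitely many returns, then the places
at which two points of the orbit coincide belong to a finite set which depends on the first point
only. -/
theorem caseB [IsAlgClosed k] [CharZero k] [Algebra K ℂ] (hK : IsFunctionField k K) {d : ℕ}
    {F : Fin (ν + 1) → MvPolynomial (Fin (ν + 1)) K}
    (hF : IsEndo d fun i => map (algebraMap K ℂ) (F i))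
    {I : Ideal (MvPolynomial (Fin (ν + 1)) K)} (hI : IsCurve I)
    (hnp : NonPer I F) (hfew : ¬ ManyPer k I F) {x : Fin (ν + 1) → K} (hx : x ≠ 0)
    (hdist : ∀ n n', n ≠ n' → ¬ PEq (iter F x n) (iter F x n'))
    (hinf : {n | OnI I (iter F x n)}.Infinite) :
    ∀ i, ∃ B : Set (Place k K), B.Finite ∧ ∀ n, i < n →
      ∀ b : Place k K, Same b (iter F x i) (iter F x n) → b ∈ B := by
  classical
  intro i
  have hFh := homog_of_endo hF
  obtain ⟨s, A, hA, hAll⟩ := fin_per hK hFh hI hnp hfew
  let S : Fin s → Set (Place k K) := fun j => {b | ∃ (v : Place k (A j).L) (m : ℕ), Above v b ∧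
    Same v (inc (A j).L (iter F x i)) (iter F (A j).y m)}
  have hS : ∀ j, (S j).Finite := by
    intro j
    obtain ⟨B, hB⟩ := fix_count hK hF hx hdist (A j) (hA j).2 i
    exact CaseB_finite (B := B) fun T hT => hB T fun b hb => hT b hb
  refine ⟨{b | ¬ Good d b F} ∪ ⋃ j, S j, (good_finite hK hF).union (Set.finite_iUnion hS), ?_⟩
  intro n hn b hsame
  by_cases hgood : Good d b F
  swap
  · exact Or.inl hgood
  refine Or.inr ?_
  obtain ⟨f, hf⟩ := hgood
  have hxi : iter F x i ≠ 0 := iter_ne_zeroK hF hx i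
  have hxn : iter F x n ≠ 0 := iter_ne_zeroK hF hx n
  obtain ⟨z₀, hz₀⟩ := exists_red hK b (iter F x i) hxi
  obtain ⟨N, rfl⟩ := Nat.exists_eq_add_of_lt hn
  have hN : 0 < N + 1 := Nat.succ_pos N
  have hz₁ : Red b (iter F x (i + N + 1)) (iter f z₀ (N + 1)) := by
    have h := hf.iter hFh hz₀ (N + 1)
    rw [← iter_add] at h
    have h1 : N + 1 + i = i + N + 1 := by omega
    rwa [h1] at h
  have hfix₀ : PEq z₀ (iter f z₀ (N + 1)) :=
    Red.unique (red_of_same hK hxi hxn hz₀ hsame) hz₁ (PEq.refl _)
  obtain ⟨r, hr, hinf'⟩ := CaseB_class hinf i hN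
  have hred : Red b (iter F x (i + r)) (iter f z₀ r) := by
    have h := hf.iter hFh hz₀ r
    rwa [← iter_add, Nat.add_comm r i] at h
  have hfix : PEq (iter f z₀ r) (iter f (iter f z₀ r) (N + 1)) := by
    have h := PEq.iter hf.endo hfix₀ r
    rwa [← iter_add, Nat.add_comm r (N + 1), iter_add] at h
  obtain ⟨L, _, _, _, _, v, w, hv, hon, hredw, hper⟩ :=
    local_main hK hF hI hnp hx hdist hN hinf' hred hf hfix
  obtain ⟨j, hj⟩ := hAll L w hon hper
  obtain ⟨v', hv', hr'⟩ := descend hK (b' := v) hv (A j) hj hredw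
  have hab : Above v' b := ⟨1, one_pos, fun a => by rw [pow_one]; exact hv' a⟩
  have h1 := red_iter_ext hK hFh hab hf hr' (N + 1 - r)
  rw [← iter_add, Nat.sub_add_cancel hr.le] at h1
  have h2 := red_inc hab hz₀
  rw [Set.mem_iUnion]
  exact ⟨j, v', N + 1 - r, hab, same_of_red h2 h1 hfix₀⟩

end Pool.Agent.Helper63.TN

end

section

namespace Pool.Agent.Helper16
end Pool.Agent.Helper16
namespace Pool.Agent.Helper30.TKN
end Pool.Agent.Helper30.TKN
namespace Pool.Agent.Helper36
end Pool.Agent.Helper36
namespace Pool.Agent.Helper38.TQ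
end Pool.Agent.Helper38.TQ

/-!
# The curve is periodic
-/

set_option autoImplicit false

namespace Pool.Agent.Helper63.TN

open MvPolynomial
open Pool.Agent.Helper16 (Place IsFunctionField)
open Pool.Agent.Helper36 (step iter)
open Pool.Agent.Helper38.TQ
open Pool.Agent.Helper30.TKN

variable {ν : ℕ} {k K : Type} [Field k] [Field K] [Algebra k K]

/-- The heights of the points of the orbit tend to infinity. -/
theorem ht_finite' [IsAlgClosed k] [Algebra K ℂ] (hK : IsFunctionField k K) {d : ℕ}
    {F : Fin (ν + 1) → MvPolynomial (Fin (ν + 1)) K}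
    (hF : IsEndo d fun i => map (algebraMap K ℂ) (F i)) {x : Fin (ν + 1) → K} (hx : x ≠ 0)
    (hunb : ∀ B : ℤ, ∃ n, B < ht k (iter F x n)) (B : ℤ) :
    {n | ht k (iter F x n) ≤ B}.Finite := by
  obtain ⟨n₁, hn₁⟩ := ht_growth hK hF hx hunb (max B 0)
  refine (Set.finite_lt_nat n₁).subset fun n hn => ?_
  by_contra hcon
  have h1 := hn₁ n (not_lt.1 hcon)
  have h2 : ht k (iter F x n) ≤ B := hn
  have h3 : B ≤ max B 0 := le_max_left _ _
  have h4 : (0 : ℤ) ≤ max B 0 := le_max_right _ _
  nlinarith

/-- The curve swept out by an orbit of unbounded height is periodic. -/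
theorem not_nonPer [IsAlgClosed k] [CharZero k] [Algebra K ℂ] (hK : IsFunctionField k K) {d : ℕ}
    {F : Fin (ν + 1) → MvPolynomial (Fin (ν + 1)) K}
    (hF : IsEndo d fun i => map (algebraMap K ℂ) (F i)) {x : Fin (ν + 1) → K} (hx : x ≠ 0)
    (hunb : ∀ B : ℤ, ∃ n, B < ht k (iter F x n)) {U : Ultrafilter ℕ} (hU : Free U)
    (hcurve : OnCurve U (iter F x)) : ¬ NonPer (van U (iter F x)) F := by
  classical
  intro hnp
  have hne : ∀ n, iter F x n ≠ 0 := fun n => iter_ne_zeroK hF hx n
  have hdist := distinct_of_unbounded hK hF hx hunb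
  have hht := ht_finite' hK hF hx hunb
  have hI : IsCurve (van U (iter F x)) := van_curve (k := k) hne hcurve
  have hSU : {n | OnI (van U (iter F x)) (iter F x n)} ∈ (U : Filter ℕ) := van_on hne
  have hinf : {n | OnI (van U (iter F x)) (iter F x n)}.Infinite := by
    intro hfin
    obtain ⟨n, hn1, hn2⟩ := Pool.Agent.Helper30.TP.ultra_exists_notMem hU hfin hSU
    exact hn2 hn1
  by_cases hmany : ManyPer k (van U (iter F x)) F
  · exact hinf (caseA hK hF hI hnp hmany hx hunb)
  · have hB := caseB hK hF hI hnp hmany hx (fun n n' h => hdist n n' h) hinf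
    choose B hBf hB using hB
    obtain ⟨S', Γ, C, hS', -, hmain⟩ := trunc_curve hK (x := iter F x) hne
      (fun n n' h => hdist n n' h) hht hU hcurve 1 0
    have hfinB : (⋃ i ∈ Γ, B i).Finite := Set.Finite.biUnion Γ.finite_toSet fun i _ => hBf i
    obtain ⟨n, hnS, hn⟩ := (hS'.sdiff ((Set.finite_le_nat (Γ.sup id)).union
      (hht (((⋃ i ∈ Γ, B i).ncard : ℕ) + C)))).nonempty
    rw [Set.mem_union, not_or] at hn
    obtain ⟨hn1, hn2⟩ := hn
    have hn1' : ¬ n ≤ Γ.sup id := hn1
    have hn2' : ¬ ht k (iter F x n) ≤ ((⋃ i ∈ Γ, B i).ncard : ℕ) + C := hn2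
    obtain ⟨-, h1⟩ := hmain n hnS
    have hsub : {b : Place k K | ∃ i ∈ Γ, Same b (iter F x i) (iter F x n)} ⊆ ⋃ i ∈ Γ, B i := by
      rintro b ⟨i, hi, hb⟩
      have hin : i ≤ Γ.sup id := Finset.le_sup (f := id) hi
      exact Set.mem_biUnion hi (hB i n (by omega) b hb)
    have h2 := Set.ncard_le_ncard hsub hfinB
    apply hn2'
    have h3 : (({b : Place k K | ∃ i ∈ Γ, Same b (iter F x i) (iter F x n)}.ncard : ℕ) : ℤ) ≤
        ((⋃ i ∈ Γ, B i).ncard : ℕ) := by exact_mod_cast h2
    push_cast at h1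
    linarith

end Pool.Agent.Helper63.TN

end

section

namespace Pool.Agent.Helper16
end Pool.Agent.Helper16
namespace Pool.Agent.Helper30.TKN
end Pool.Agent.Helper30.TKN
namespace Pool.Agent.Helper36
end Pool.Agent.Helper36
namespace Pool.Agent.Helper38.TQ
end Pool.Agent.Helper38.TQ

/-!
# Return sets of curves
-/

set_option autoImplicit false

namespace Pool.Agent.Helper63.TN

open MvPolynomial
open Pool.Agent.Helper16 (Place IsFunctionField)
open Pool.Agent.Helper36 (step iter iter_zero iter_succ)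
open Pool.Agent.Helper38.TQ
open Pool.Agent.Helper30.TKN

variable {ν : ℕ} {k K : Type} [Field k] [Field K] [Algebra k K]

/-! ## Sets of natural numbers -/

/-- An infinite set of natural numbers belongs to a free ultrafilter. -/
private theorem finalC_free {R : Set ℕ} (hR : R.Infinite) :
    ∃ U : Ultrafilter ℕ, Free U ∧ R ∈ U := by
  have hne : (Filter.cofinite ⊓ Filter.principal R : Filter ℕ).NeBot := by
    rw [Filter.inf_principal_neBot_iff]
    intro s hs
    have h1 : (sᶜ : Set ℕ).Finite := hs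
    obtain ⟨n, hn, hn'⟩ := hR.exists_notMem_finite h1
    exact ⟨n, not_not.1 hn', hn⟩
  refine ⟨Ultrafilter.of (Filter.cofinite ⊓ Filter.principal R), ?_, ?_⟩
  · intro m
    have h1 : ∀ᶠ n in (Filter.cofinite : Filter ℕ), m ≤ n := by
      rw [Filter.eventually_cofinite]
      refine (Set.finite_lt_nat m).subset ?_
      intro n hn
      exact not_le.1 hn
    exact ((Ultrafilter.of_le _).trans inf_le_left) h1
  · have h1 : R ∈ Filter.principal R := Filter.mem_principal_self R
    exact ((Ultrafilter.of_le _).trans inf_le_right) h1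

/-- A set which differs by a finite set from a subset invariant under a shift is a finite union of
progressions. -/
private theorem finalC_prog {R A : Set ℕ} {k : ℕ} (hk : 0 < k) (hA : ∀ n ∈ A, n + k ∈ A)
    (hAR : A ⊆ R) (hfin : (R \ A).Finite) :
    ∃ T : Finset (ℕ × ℕ), ∀ n, n ∈ R ↔ ∃ p ∈ T, ∃ t, n = p.1 + p.2 * t := by
  classical
  have hAt : ∀ (n t : ℕ), n ∈ A → n + k * t ∈ A := by
    intro n t hn
    induction t with
    | zero => simpa using hn
    | succ t ih =>
      have := hA _ ih
      rw [add_assoc, ← Nat.mul_succ] at this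
      exact this
  have hmin : ∀ r : ℕ, ∃ a : ℕ, (∃ b, b ∈ A ∧ b % k = r) →
      (a ∈ A ∧ a % k = r) ∧ ∀ b, b ∈ A → b % k = r → a ≤ b := by
    intro r
    by_cases h : ∃ b, b ∈ A ∧ b % k = r
    · exact ⟨Nat.find h, fun _ => ⟨Nat.find_spec h, fun b hb hb' => Nat.find_min' h ⟨hb, hb'⟩⟩⟩
    · exact ⟨0, fun h' => absurd h' h⟩
  choose a ha using hmin
  refine ⟨hfin.toFinset.image (fun n => (n, 0)) ∪
    ((Finset.range k).filter fun r => ∃ b, b ∈ A ∧ b % k = r).image fun r => (a r, k), ?_⟩
  intro n
  constructor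
  · intro hn
    by_cases hnA : n ∈ A
    · have h1 := ha (n % k) ⟨n, hnA, rfl⟩
      have h2 : a (n % k) ≤ n := h1.2 n hnA rfl
      refine ⟨(a (n % k), k), ?_, (n - a (n % k)) / k, ?_⟩
      · refine Finset.mem_union_right _ (Finset.mem_image.2 ⟨n % k, ?_, rfl⟩)
        exact Finset.mem_filter.2 ⟨Finset.mem_range.2 (Nat.mod_lt _ hk), n, hnA, rfl⟩
      · have h3 : k ∣ n - a (n % k) := by
          have h4 : a (n % k) ≡ n [MOD k] := h1.1.2
          exact (Nat.modEq_iff_dvd' h2).1 h4
        simp only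
        rw [Nat.mul_div_cancel' h3]
        omega
    · refine ⟨(n, 0), ?_, 0, by simp⟩
      exact Finset.mem_union_left _
        (Finset.mem_image.2 ⟨n, hfin.mem_toFinset.2 ⟨hn, hnA⟩, rfl⟩)
  · rintro ⟨p, hp, t, rfl⟩
    rcases Finset.mem_union.1 hp with hp | hp
    · obtain ⟨m, hm, rfl⟩ := Finset.mem_image.1 hp
      simpa using (hfin.mem_toFinset.1 hm).1
    · obtain ⟨r, hr, rfl⟩ := Finset.mem_image.1 hp
      exact hAR (hAt _ _ (ha r (Finset.mem_filter.1 hr).2).1.1)

/-- Compactness: if every free ultrafilter containing `R` contains a subset of `R` invariant under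
a shift, then `R` is a finite union of progressions. -/
private theorem finalC_compact {R : Set ℕ} (h : ∀ U : Ultrafilter ℕ, Free U → R ∈ U →
    ∃ T ∈ U, T ⊆ R ∧ ∃ N, 0 < N ∧ ∀ n ∈ T, n + N ∈ T) :
    ∃ T : Finset (ℕ × ℕ), ∀ n, n ∈ R ↔ ∃ p ∈ T, ∃ t, n = p.1 + p.2 * t := by
  classical
  set A : ℕ → Set ℕ := fun m => {n | ∀ t, n + m.factorial * t ∈ R} with hA
  have hAR : ∀ m, A m ⊆ R := by
    intro m n hn
    have := hn 0
    simpa using this
  by_cases hfin : ∃ m, (R \ A m).Finite
  · obtain ⟨m, hm⟩ := hfin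
    refine finalC_prog (Nat.factorial_pos m) ?_ (hAR m) hm
    intro n hn t
    have := hn (t + 1)
    rw [mul_add, mul_one, add_comm (m.factorial * t), ← add_assoc] at this
    exact this
  · exfalso
    push Not at hfin
    have hex : ∀ m : ℕ, ∃ n ∈ R \ A m, m < n := by
      intro m
      obtain ⟨n, hn, hn'⟩ := (hfin m).exists_gt m
      exact ⟨n, hn, hn'⟩
    choose s hs hs' using hex
    have hinf : (Set.range s).Infinite := by
      intro hf
      obtain ⟨B, hB⟩ := hf.bddAbove
      have h1 := hB ⟨B, rfl⟩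
      have h2 := hs' B
      omega
    obtain ⟨U, hU, hUs⟩ := finalC_free hinf
    have hR : R ∈ U := by
      refine Filter.mem_of_superset hUs ?_
      rintro _ ⟨m, rfl⟩
      exact (hs m).1
    obtain ⟨T, hT, hTR, N, hN, hTN⟩ := h U hU hR
    have hmono : ∀ m m', m ≤ m' → A m ⊆ A m' := by
      intro m m' hmm n hn t
      obtain ⟨q, hq⟩ := Nat.factorial_dvd_factorial hmm
      have := hn (q * t)
      rw [← mul_assoc, ← hq] at this
      exact this
    have hTt : ∀ (n t : ℕ), n ∈ T → n + N * t ∈ T := by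
      intro n t hn
      induction t with
      | zero => simpa using hn
      | succ t ih =>
        have := hTN _ ih
        rw [add_assoc, ← Nat.mul_succ] at this
        exact this
    have hTA : T ⊆ A N := by
      intro n hn t
      obtain ⟨q, hq⟩ := Nat.dvd_factorial hN (le_refl N)
      have := hTR (hTt n (q * t) hn)
      rw [← mul_assoc, ← hq] at this
      exact this
    -- almost all elements of the range of `s` are outside `A N`
    set B : ℕ := (Finset.range N).sup s with hBdef
    have h3 : ∀ᶠ n in (U : Filter ℕ), B + 1 ≤ n := hU (B + 1)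
    have hemp : (T ∩ Set.range s ∩ {n | B + 1 ≤ n}) ∈ (U : Filter ℕ) :=
      Filter.inter_mem (Filter.inter_mem hT hUs) h3
    obtain ⟨n, ⟨hnT, m, hm⟩, hnB⟩ := Filter.nonempty_of_mem hemp
    have hmN : N ≤ m := by
      by_contra hcon
      have h4 : s m ≤ B := Finset.le_sup (f := s) (Finset.mem_range.2 (not_le.1 hcon))
      have h5 : B + 1 ≤ n := hnB
      omega
    have h6 := hmono N m hmN (hTA hnT)
    rw [← hm] at h6
    exact (hs m).2 h6

/-! ## Orbits -/

private theorem finalC_aeval (v : Fin (ν + 1) → K) (G : MvPolynomial (Fin (ν + 1)) K) :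
    aeval v G = eval v G :=
  congrArg (fun φ => φ G) (coe_aeval_eq_eval v)

private theorem finalC_comp (F : Fin (ν + 1) → MvPolynomial (Fin (ν + 1)) K)
    (v : Fin (ν + 1) → K) (G : MvPolynomial (Fin (ν + 1)) K) :
    eval v (aeval F G) = eval (step F v) G := by
  induction G using MvPolynomial.induction_on with
  | C a => simp
  | add p q hp hq => rw [map_add, map_add, map_add, hp, hq]
  | mul_X p i hp =>
    rw [map_mul, map_mul, map_mul, hp, aeval_X, eval_X]
    congr 1

private theorem finalC_pull (F : Fin (ν + 1) → MvPolynomial (Fin (ν + 1)) K)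
    (x : Fin (ν + 1) → K) (N : ℕ) : ∀ (n : ℕ) (G : MvPolynomial (Fin (ν + 1)) K),
    eval (iter F x n) (pull F N G) = eval (iter F x (n + N)) G := by
  induction N with
  | zero => intro n G; rfl
  | succ N ih =>
    intro n G
    have h1 : pull F (N + 1) G = pull F N (aeval F G) := Function.iterate_succ_apply _ _ _
    rw [h1, ih, ← add_assoc, iter_succ, finalC_comp]

private theorem finalC_map [Algebra K ℂ]
    (G : MvPolynomial (Fin (ν + 1)) K) (v : Fin (ν + 1) → K) :
    eval (fun i => algebraMap K ℂ (v i)) (map (algebraMap K ℂ) G) = algebraMap K ℂ (eval v G) := by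
  induction G using MvPolynomial.induction_on with
  | C a => simp
  | add p q hp hq => rw [map_add, map_add, map_add, map_add, hp, hq]
  | mul_X p i hp => rw [map_mul, map_mul, map_mul, map_mul, hp, map_X, eval_X, eval_X]

/-- The orbit of a point over `K`, over the complex numbers. -/
private theorem finalC_orbit {K : Type} [Field K] [Algebra K ℂ] {d : ℕ}
    {F : Fin (ν + 1) → MvPolynomial (Fin (ν + 1)) K}
    (hF : IsEndo d fun i => map (algebraMap K ℂ) (F i)) (x : Fin (ν + 1) → K) (c : ℂ) (n : ℕ) :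
    (fun (x : Fin (ν + 1) → ℂ) (i : Fin (ν + 1)) =>
        eval x (map (algebraMap K ℂ) (F i)))^[n] (fun i => c * algebraMap K ℂ (x i)) =
      c ^ d ^ n • fun i => algebraMap K ℂ (iter F x n i) := by
  have h1 : (fun (x : Fin (ν + 1) → ℂ) (i : Fin (ν + 1)) => eval x (map (algebraMap K ℂ) (F i))) =
      step fun i => map (algebraMap K ℂ) (F i) := by
    funext x i
    rfl
  rw [h1]
  have h2 : (fun i => c * algebraMap K ℂ (x i)) = c • fun i => algebraMap K ℂ (x i) := rfl
  rw [h2]
  change iter (fun i => map (algebraMap K ℂ) (F i)) (c • fun i => algebraMap K ℂ (x i)) n = _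
  rw [iter_smul hF]
  congr 1
  induction n with
  | zero => rfl
  | succ n ih =>
    rw [iter_succ, ih]
    funext i
    change eval _ (map (algebraMap K ℂ) (F i)) = algebraMap K ℂ (iter F x (n + 1) i)
    rw [iter_succ]
    exact finalC_map _ _

/-- The components over `K` of a polynomial over the complex numbers. -/
private theorem finalC_components {K : Type} [Field K] [Algebra K ℂ]
    (g : MvPolynomial (Fin (ν + 1)) ℂ) : ∃ (ι : Type) (q : ι → MvPolynomial (Fin (ν + 1)) K),
      ∀ v : Fin (ν + 1) → K, eval (fun i => algebraMap K ℂ (v i)) g = 0 ↔ ∀ b, eval v (q b) = 0 := by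
  classical
  set B := Module.Basis.ofVectorSpace K ℂ with hB
  refine ⟨_, fun b => ∑ m ∈ g.support, monomial m (B.coord b (coeff m g)), fun v => ?_⟩
  have h1 : ∀ b, eval v (∑ m ∈ g.support, monomial m (B.coord b (coeff m g))) =
      B.coord b (eval (fun i => algebraMap K ℂ (v i)) g) := by
    intro b
    rw [eval_eq (fun i => algebraMap K ℂ (v i)) g, map_sum, map_sum]
    refine Finset.sum_congr rfl fun m _ => ?_
    rw [eval_monomial]
    have h2 : coeff m g * ∏ i ∈ m.support, (algebraMap K ℂ (v i)) ^ m i =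
        (∏ i ∈ m.support, v i ^ m i) • coeff m g := by
      rw [Algebra.smul_def, map_prod, mul_comm]
      congr 1
      exact Finset.prod_congr rfl fun i _ => (map_pow _ _ _).symm
    rw [h2, map_smul, smul_eq_mul, mul_comm, Finsupp.prod]
  constructor
  · intro h b
    rw [h1, h, map_zero]
  · intro h
    refine B.ext_elem fun b => ?_
    have h3 := h b
    rw [h1] at h3
    simpa using h3

/-- Over a function field: the return set of a point of unbounded height to a closed set of
dimension at most one is a finite union of arithmetic progressions. -/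
theorem tn_dml {k K : Type} [Field k] [IsAlgClosed k] [Field K] [Algebra k K] [Algebra k ℂ]
    [Algebra K ℂ] [IsScalarTower k K ℂ] (hK : IsFunctionField k K) {d : ℕ}
    {F : Fin (ν + 1) → MvPolynomial (Fin (ν + 1)) K}
    (hF : IsEndo d fun i => map (algebraMap K ℂ) (F i)) {x : Fin (ν + 1) → K} (hx : x ≠ 0)
    (hunb : ∀ B : ℤ, ∃ n, B < ht k (iter F x n)) (c : ℂ) (hc : c ≠ 0)
    {S₀ : Set (MvPolynomial (Fin (ν + 1)) ℂ)} (hS₀ : ∀ g ∈ S₀, ∃ e, g.IsHomogeneous e)
    (hcurve : CurveSet S₀) :
    ∃ (m : ℕ) (a q : Fin m → ℕ), ∀ n, (∀ g ∈ S₀,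
      eval ((fun (x : Fin (ν + 1) → ℂ) (i : Fin (ν + 1)) =>
        eval x (map (algebraMap K ℂ) (F i)))^[n] (fun i => c * algebraMap K ℂ (x i))) g = 0) ↔
        ∃ j t, n = a j + q j * t := by
  classical
  have hchar : CharZero k := (algebraMap k ℂ).charZero
  have hcharK : CharZero K := (algebraMap K ℂ).charZero
  have hne : ∀ n, iter F x n ≠ 0 := fun n => iter_ne_zeroK hF hx n
  -- the return set
  set R : Set ℕ := {n | ∀ g ∈ S₀, eval (fun i => algebraMap K ℂ (iter F x n i)) g = 0} with hR
  have hRiff : ∀ n, (∀ g ∈ S₀, eval ((fun (x : Fin (ν + 1) → ℂ) (i : Fin (ν + 1)) =>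
        eval x (map (algebraMap K ℂ) (F i)))^[n] (fun i => c * algebraMap K ℂ (x i))) g = 0) ↔
      n ∈ R := by
    intro n
    refine forall₂_congr fun g hg => ?_
    obtain ⟨e, he⟩ := hS₀ g hg
    rw [finalC_orbit hF, eval_smul_hom he, mul_eq_zero,
      or_iff_right (pow_ne_zero _ (pow_ne_zero _ hc))]
  obtain ⟨T, hT⟩ := finalC_compact (R := R) (by
    intro U hU hRU
    have hcur : OnCurve U (iter F x) := hcurve K (iter F x) U hRU
    have hnp := not_nonPer hK hF hx hunb hU hcur
    unfold NonPer at hnp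
    push Not at hnp
    obtain ⟨N, hN, hper⟩ := hnp
    refine ⟨{n | OnI (van U (iter F x)) (iter F x n)}, van_on hne, ?_, N, hN, ?_⟩
    · intro n hn g hg
      obtain ⟨e, he⟩ := hS₀ g hg
      obtain ⟨ι, q, hq⟩ := finalC_components (K := K) g
      rw [hq]
      intro b
      have h1 : q b ∈ van U (iter F x) := by
        change ∀ᶠ n in (U : Filter ℕ), ∀ c : K, eval (c • iter F x n) (q b) = 0
        have hRU' : ∀ᶠ n in (U : Filter ℕ), n ∈ R := hRU
        filter_upwards [hRU'] with m hm c'
        refine (hq _).1 ?_ b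
        have h2 : (fun i => algebraMap K ℂ ((c' • iter F x m) i)) =
            algebraMap K ℂ c' • fun i => algebraMap K ℂ (iter F x m i) := by
          funext i
          simp
        rw [h2, eval_smul_hom he, hm g hg, mul_zero]
      have h3 := hn.2 _ h1
      rwa [finalC_aeval] at h3
    · intro n hn
      refine ⟨hne _, fun G hG => ?_⟩
      rw [finalC_aeval, ← sum_homogeneousComponent G, map_sum]
      refine Finset.sum_eq_zero fun m _ => ?_
      have h1 := hper _ (van_hom hG m) m (homogeneousComponent_isHomogeneous m G)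
      have h2 := hn.2 _ h1
      rw [finalC_aeval] at h2
      have h3 := finalC_pull F x N n (homogeneousComponent m G)
      rw [← h3]
      exact h2)
  refine ⟨T.card, fun j => (T.equivFin.symm j).1.1, fun j => (T.equivFin.symm j).1.2,
    fun n => ?_⟩
  rw [hRiff, hT]
  constructor
  · rintro ⟨p, hp, t, h⟩
    refine ⟨T.equivFin ⟨p, hp⟩, t, ?_⟩
    simpa using h
  · rintro ⟨j, t, h⟩
    exact ⟨_, (T.equivFin.symm j).2, t, h⟩

end Pool.Agent.Helper63.TN

end
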