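import Pool.Agent.Helper29.MG2.T52
import Pool.Agent.Helper29.MG2.T63

section

namespace Pool.Agent.Helper16
end Pool.Agent.Helper16
namespace Pool.Agent.Helper30.TKN
end Pool.Agent.Helper30.TKN
namespace Pool.Agent.Helper36
end Pool.Agent.Helper36
namespace Pool.Agent.Helper38.TQ
end Pool.Agent.Helper38.TQ

/-!
# Curves in projective space: reduction to the algebraic numbers, final form
-/

set_option autoImplicit false

namespace Pool.Agent.Helper30.RED

open MvPolynomial
open Pool.Agent.Helper16 (Place IsFunctionField)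
open Pool.Agent.Helper36 (step iter APSet)
open Pool.Agent.Helper38.TQ
open Pool.Agent.Helper30.TKN

variable {ν : ℕ}

theorem unbC (ν d : ℕ) : UnbC ν d := by
  classical
  intro k _ _ _ K hK F x hF hx hunb r W hW hcur
  obtain ⟨m, a, q, h⟩ := Pool.Agent.Helper63.TN.tn_dml hK hF hx hunb 1 one_ne_zero
    (S₀ := Set.range fun j => map (algebraMap K ℂ) (W j)) (by
      rintro g ⟨j, rfl⟩
      obtain ⟨e, he⟩ := hW j
      exact ⟨e, he.map _⟩) hcur
  refine ap_of_dml ⟨Finset.univ.image fun j => (q j, a j), ?_⟩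
  ext n
  rw [Set.mem_ofPred_eq, Set.mem_ofPred_eq, h n]
  constructor
  · rintro ⟨j, t, hn⟩
    exact ⟨(q j, a j), Finset.mem_image_of_mem _ (Finset.mem_univ j), t, by rw [hn, add_comm]⟩
  · rintro ⟨p, hp, t, hn⟩
    obtain ⟨j, -, rfl⟩ := Finset.mem_image.1 hp
    exact ⟨j, t, by rw [hn, add_comm]⟩

end Pool.Agent.Helper30.RED

end
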