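import Pool.Agent.Helper29.MG2.T02
import Pool.Agent.Helper29.MG2.T51
import Pool.Agent.Helper29.MG2.T64

section

namespace Pool.Agent.Helper33.SS
end Pool.Agent.Helper33.SS

/-!
# Tower gaps for all endomorphisms of projective space over the complex numbers

Closed sets of dimension at most one (in the plane: all closed sets).
-/

set_option autoImplicit false

namespace Pool.Agent.Helper29.TG3

open MvPolynomial
open Pool.Agent.Helper33.SS (SGood ev)

/-- A proper closed subset of the plane has dimension at most one. -/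
theorem krullDim_le_two {N : ℕ} (hN : N ≤ 2) (S : Set (MvPolynomial (Fin (N + 1)) ℂ))
    {g : MvPolynomial (Fin (N + 1)) ℂ} (hg : g ∈ S) (hg0 : g ≠ 0) :
    ringKrullDim (MvPolynomial (Fin (N + 1)) ℂ ⧸ Ideal.span S) ≤ 2 := by
  have h1 : ringKrullDim (MvPolynomial (Fin (N + 1)) ℂ ⧸ Ideal.span {g}) + 1 ≤
      ringKrullDim (MvPolynomial (Fin (N + 1)) ℂ) :=
    ringKrullDim_quotient_succ_le_of_nonZeroDivisor (mem_nonZeroDivisors_of_ne_zero hg0)
  rw [MvPolynomial.ringKrullDim_of_isNoetherianRing, ringKrullDim_eq_zero_of_field, zero_add,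
    Nat.card_fin] at h1
  have hle : Ideal.span {g} ≤ Ideal.span S := Ideal.span_mono (by simpa using hg)
  have h2 : ringKrullDim (MvPolynomial (Fin (N + 1)) ℂ ⧸ Ideal.span S) ≤
      ringKrullDim (MvPolynomial (Fin (N + 1)) ℂ ⧸ Ideal.span {g}) :=
    ringKrullDim_le_of_surjective (Ideal.Quotient.factor hle)
      (Ideal.Quotient.factor_surjective hle)
  refine h2.trans ?_
  have h3 : ((N + 1 : ℕ) : WithBot ℕ∞) ≤ 2 + 1 := by
    have : (N + 1 : ℕ) ≤ 3 := by omega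
    calc ((N + 1 : ℕ) : WithBot ℕ∞) ≤ ((3 : ℕ) : WithBot ℕ∞) := by exact_mod_cast this
      _ = 2 + 1 := by norm_num
  have h4 := h1.trans h3
  generalize ringKrullDim (MvPolynomial (Fin (N + 1)) ℂ ⧸ Ideal.span {g}) = D at h4
  induction D using WithBot.recBotCoe with
  | bot => exact bot_le
  | coe D =>
    have h5 : D + 1 ≤ 2 + 1 := WithBot.coe_le_coe.1 h4
    have h6 : D ≤ 2 := (ENat.add_le_add_iff_right ENat.one_ne_top).1 h5
    exact WithBot.coe_le_coe.2 h6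

theorem iter_eq {N : ℕ} (f : Fin (N + 1) → MvPolynomial (Fin (N + 1)) ℂ)
    (a : Fin (N + 1) → ℂ) (n : ℕ) : Pool.Agent.Helper36.iter f a n = (ev f)^[n] a := by
  have h : Pool.Agent.Helper36.step (A := ℂ) f = ev f := by
    funext u i
    show aeval u (f i) = eval u (f i)
    rw [aeval_def, eval₂_eq_eval_map]
    simp
  show (Pool.Agent.Helper36.step (A := ℂ) f)^[n] a = _
  rw [h]

theorem alg_dim {N d : ℕ} (φ : Fin (N + 1) → MvPolynomial (Fin (N + 1)) ℂ)
    (z : Fin (N + 1) → ℂ) (S : Finset (MvPolynomial (Fin (N + 1)) ℂ))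
    (hS : Pool.Agent.Helper30.RED.AlgCurve d φ z S) :
    ringKrullDim (MvPolynomial (Fin (N + 1)) ℂ ⧸
      Ideal.span (S : Set (MvPolynomial (Fin (N + 1)) ℂ))) ≤ 2 := hS.dim

theorem sgood_alg {N d : ℕ} (φ : Fin (N + 1) → MvPolynomial (Fin (N + 1)) ℂ)
    (z : Fin (N + 1) → ℂ) (S : Finset (MvPolynomial (Fin (N + 1)) ℂ))
    (hS : Pool.Agent.Helper30.RED.AlgCurve d φ z S) :
    SGood {n | ∀ g ∈ S, eval (Pool.Agent.Helper36.iter φ z n) g = 0} := by
  have h := alg_dim φ z S hS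
  obtain ⟨⟨h1, h2, h3⟩, h4, h5, h6, h7, h8, -⟩ := hS
  have h9 := Pool.Agent.Helper88.NF.sgood_algebraic_curve N d h1 φ h2 h3 h5 z h4 h6
    (S : Set (MvPolynomial (Fin (N + 1)) ℂ)) h7 h
  have h10 : {n | ∀ g ∈ S, eval (Pool.Agent.Helper36.iter φ z n) g = 0} =
      {n | Pool.Agent.Helper33.SS.InZ (S : Set (MvPolynomial (Fin (N + 1)) ℂ))
        ((ev φ)^[n] z)} := by
    ext n
    simp only [Set.mem_ofPred_eq]
    rw [iter_eq]
    rfl
  rw [h10]
  exact h9

/-- **Tower gaps.** -/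
theorem sgood_all {N d : ℕ} {f : Fin (N + 1) → MvPolynomial (Fin (N + 1)) ℂ}
    (hf : Pool.Agent.Helper38.TQ.IsEndo d f) {a : Fin (N + 1) → ℂ} (ha : a ≠ 0)
    {V : Set (MvPolynomial (Fin (N + 1)) ℂ)} (hV : ∀ g ∈ V, ∃ e : ℕ, g.IsHomogeneous e)
    (h : N ≤ 2 ∨ ringKrullDim (MvPolynomial (Fin (N + 1)) ℂ ⧸ Ideal.span V) ≤ 2) :
    SGood {n | ∀ g ∈ V, eval ((ev f)^[n] a) g = 0} := by
  by_cases h0 : ∀ g ∈ V, g = 0
  · have h1 : {n | ∀ g ∈ V, eval ((ev f)^[n] a) g = 0} = Set.univ := by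
      ext n
      simp only [Set.mem_ofPred_eq, Set.mem_univ, iff_true]
      intro g hg
      rw [h0 g hg, map_zero]
    rw [h1]
    exact Pool.Agent.Helper29.TG.sgood_univ
  push Not at h0
  obtain ⟨g, hg, hg0⟩ := h0
  have hdim : ringKrullDim (MvPolynomial (Fin (N + 1)) ℂ ⧸ Ideal.span V) ≤ 2 := by
    rcases h with h | h
    · exact krullDim_le_two h V hg hg0
    · exact h
  have h2 := Pool.Agent.Helper30.RED.curveN_induct (ν := N) (d := d) SGood
    (fun A => Pool.Agent.Helper33.SS.SGood.of_AP ⟨A, rfl⟩)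
    (fun S T => Pool.Agent.Helper29.TG.sgood_inter) (Pool.Agent.Helper30.RED.unbC N d)
    (fun φ z S hS => sgood_alg φ z S hS) hf ha hV hdim
  have h5 : {n | ∀ g ∈ V, eval (Pool.Agent.Helper36.iter f a n) g = 0} =
      {n | ∀ g ∈ V, eval ((ev f)^[n] a) g = 0} := by
    ext n
    simp only [Set.mem_ofPred_eq]
    rw [iter_eq]
  rw [h5] at h2
  exact h2

end Pool.Agent.Helper29.TG3

end
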